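import Mathlib
import Pool.Agent.H24.CU.Defs

/-! MP_6873ef_an: this file joins several modules to save build time. -/

section S_H24_CU_Basic

/-!
# Notation for the interface block of MP_6873ef
-/

namespace Pool.Agent.H24.CU

open MeasureTheory
open scoped ComplexConjugate ComplexOrder ContDiff

/-- Hermitian product on `C^3` (linear in the first variable). -/
noncomputable def herm (x y : V) : ℂ := ∑ j, x j * conj (y j)

/-- squared sine of the Fubini-Study angle -/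
noncomputable def tau (x y : V) : ℝ := 1 - Complex.normSq (herm x y) / (nsq x * nsq y)

/-- The value of the homogeneous vector field. -/
noncomputable def Foliation.vec (𝓕 : Foliation) (x : V) : V :=
  fun j => MvPolynomial.eval x (𝓕.F j)

/-- The density `A_y(w_y, w_y)` for a unit vector `y`, where `w_y` is the unit vector orthogonal to
`y` in the span of `y` and `F(y)`; it is `A_y(F(y), F(y)) / |α(y)|^2`. -/
noncomputable def Foliation.dens (𝓕 : Foliation) (A : V → Matrix (Fin 3) (Fin 3) ℂ) (y : V) : ℂ :=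
  (∑ j, ∑ k, A y j k * 𝓕.vec y j * conj (𝓕.vec y k)) / (nsq (𝓕.alpha y) : ℂ)

/-- The measure `μ` on the unit sphere represents the directed current `T`. -/
structure Rep (𝓕 : Foliation) (T : PosCurrent) (μ : Measure V) : Prop where
  fin : IsFiniteMeasure μ
  sph : μ {x | nsq x ≠ 1} = 0
  sing : μ {x | 𝓕.alpha x = 0} = 0
  curve : ∀ (n : ℕ) (P : MvPolynomial (Fin 3) ℂ), P.IsHomogeneous n → P ≠ 0 →
    μ {x | MvPolynomial.eval x P = 0} = 0
  pair : ∀ A : Form11, T.toLin A = ∫ y, 𝓕.dens A.1 y ∂μ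

section Levi

variable {E : Type*} [NormedAddCommGroup E] [NormedSpace ℂ E] [NormedSpace ℝ E]

/-- The Levi form `∑ g_{j conj k} v_j conj(v_k)` of a real function `g` at `p`, in the direction
`v`: one quarter of the Laplacian at `0` of `ζ ↦ g (p + ζ v)`. -/
noncomputable def levi (g : E → ℝ) (p v : E) : ℝ :=
  (fderiv ℝ (fun q => fderiv ℝ g q v) p v +
    fderiv ℝ (fun q => fderiv ℝ g q (Complex.I • v)) p (Complex.I • v)) / 4

/-- The mixed gradient `Re (∂_v f · conj (∂_v g))`. -/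
noncomputable def gradm (f g : E → ℝ) (p v : E) : ℝ :=
  (fderiv ℝ f p v * fderiv ℝ g p v +
    fderiv ℝ f p (Complex.I • v) * fderiv ℝ g p (Complex.I • v)) / 4

end Levi

/-- `μ` is the measure of a `dd^c`-closed directed current. -/
structure Harm (𝓕 : Foliation) (μ : Measure V) : Prop where
  fin : IsFiniteMeasure μ
  sph : μ {x | nsq x ≠ 1} = 0
  sing : μ {x | 𝓕.alpha x = 0} = 0
  harm : ∀ u : V → ℝ, IsFun (fun x => (u x : ℂ)) →
    ∫ y, levi u y (𝓕.vec y) / nsq (𝓕.alpha y) ∂μ = 0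

theorem Form11.ext_off {A B : Form11} (h : ∀ x : V, x ≠ 0 → A.1 x = B.1 x) : A = B := by
  apply Subtype.ext
  funext x
  by_cases hx : x = 0
  · subst hx
    rw [A.2.2.1, B.2.2.1]
  · exact h x hx

theorem nsq_nonneg (x : V) : 0 ≤ nsq x := Finset.sum_nonneg fun _ _ => Complex.normSq_nonneg _

theorem nsq_eq_zero {x : V} : nsq x = 0 ↔ x = 0 := by
  constructor
  · intro h
    have h2 := (Finset.sum_eq_zero_iff_of_nonneg (fun j _ => Complex.normSq_nonneg (x j))).1 h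
    funext j
    exact Complex.normSq_eq_zero.1 (h2 j (Finset.mem_univ j))
  · rintro rfl
    simp [nsq]

theorem nsq_pos {x : V} (hx : x ≠ 0) : 0 < nsq x :=
  lt_of_le_of_ne (nsq_nonneg x) fun h => hx (nsq_eq_zero.1 h.symm)

theorem nsq_smul (c : ℂ) (x : V) : nsq (c • x) = Complex.normSq c * nsq x := by
  simp [nsq, Finset.mul_sum]

end Pool.Agent.H24.CU

end S_H24_CU_Basic

section S_H24_CU_LocDefs

/-!
# Local notation: affine chart at a regular point
-/

namespace Pool.Agent.H24.CU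

open MeasureTheory
open scoped ComplexConjugate ContDiff

/-- The affine chart at `y₀`: `p ↦ y₀ + p_1 F(y₀) + p_2 conj(α(y₀))`. -/
noncomputable def Foliation.psi (𝓕 : Foliation) (y₀ : V) (p : ℂ × ℂ) : V :=
  y₀ + p.1 • 𝓕.vec y₀ + p.2 • (fun j => conj (𝓕.alpha y₀ j))

/-- Unit vectors over the image of `E` in the chart. -/
def Foliation.cone (𝓕 : Foliation) (y₀ : V) (E : Set (ℂ × ℂ)) : Set V :=
  {y | nsq y = 1 ∧ ∃ p ∈ E, ∃ t : ℂ, t ≠ 0 ∧ y = t • 𝓕.psi y₀ p}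

/-- A holomorphic vector field `X` on `C^2` with `X(0) = (1,0)` and a finite measure `M`
harmonic along `X` on the bidisc of radius `r` (sup norm of `ℂ × ℂ`). -/
structure Loc (X : ℂ × ℂ → ℂ × ℂ) (r : ℝ) (M : Measure (ℂ × ℂ)) : Prop where
  r_pos : 0 < r
  hol : Differentiable ℂ X
  zero : X 0 = (1, 0)
  fin : IsFiniteMeasure M
  harm : ∀ g : ℂ × ℂ → ℝ, ContDiff ℝ ∞ g → HasCompactSupport g →
    tsupport g ⊆ Metric.ball 0 r → ∫ p, levi g p (X p) ∂M = 0

/-- The data of the affine chart at a regular point `y₀` for the measure `μ`. -/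
structure Chart (𝓕 : Foliation) (μ : Measure V) (y₀ : V) (X : ℂ × ℂ → ℂ × ℂ) (c₀ : ℂ × ℂ → ℂ)
    (r : ℝ) (M : Measure (ℂ × ℂ)) : Prop where
  r_pos : 0 < r
  hol : Differentiable ℂ X
  hol₀ : Differentiable ℂ c₀
  zero : X 0 = (1, 0)
  fin : IsFiniteMeasure M
  psi_ne : ∀ p : ℂ × ℂ, 𝓕.psi y₀ p ≠ 0
  reg : ∀ p ∈ Metric.closedBall (0 : ℂ × ℂ) r, 𝓕.alpha (𝓕.psi y₀ p) ≠ 0
  vec : ∀ p : ℂ × ℂ, 𝓕.vec (𝓕.psi y₀ p) = c₀ p • 𝓕.psi y₀ p + (X p).1 • 𝓕.vec y₀ +
    (X p).2 • (fun j => conj (𝓕.alpha y₀ j))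
  transfer : ∀ Φ : V → ℝ, Measurable Φ →
    (∀ (t : ℂ) (y : V), t ≠ 0 → y ≠ 0 →
      Φ (t • y) = Complex.normSq t ^ 𝓕.deg / Complex.normSq t * Φ y) →
    ∀ E : Set (ℂ × ℂ), MeasurableSet E → E ⊆ Metric.ball 0 r →
      (∫ y in 𝓕.cone y₀ E, Φ y / nsq (𝓕.alpha y) ∂μ = ∫ p in E, Φ (𝓕.psi y₀ p) ∂M) ∧
      (∫⁻ y in 𝓕.cone y₀ E, ENNReal.ofReal (Φ y / nsq (𝓕.alpha y)) ∂μ =
        ∫⁻ p in E, ENNReal.ofReal (Φ (𝓕.psi y₀ p)) ∂M)

/-- The local leaf through the origin: `Y` is holomorphic on `|z| < ρ`, `Y 0 = 0`,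
`Y' X_1 = X_2` along the graph. -/
structure Leaf (X : ℂ × ℂ → ℂ × ℂ) (r ρ : ℝ) (Y : ℂ → ℂ) : Prop where
  pos : 0 < ρ
  hol : DifferentiableOn ℂ Y (Metric.ball 0 ρ)
  zero : Y 0 = 0
  mem : ∀ z ∈ Metric.ball (0 : ℂ) ρ, (z, Y z) ∈ Metric.ball (0 : ℂ × ℂ) r
  ne : ∀ z ∈ Metric.ball (0 : ℂ) ρ, (X (z, Y z)).1 ≠ 0
  ode : ∀ z ∈ Metric.ball (0 : ℂ) ρ, deriv Y z * (X (z, Y z)).1 = (X (z, Y z)).2

end Pool.Agent.H24.CU

end S_H24_CU_LocDefs

section S_H24_CU_SG

/-!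
# Row SG (Siegel lemma: polynomials vanishing to high order along a germ of curve)

PROOF.  For `c : Fin (l+1) × Fin (l+1) → ℂ` let
`P_c = ∑_{(a,b)} c_ab X_0^a X_1^b X_2^(2l - a - b)` (`a + b <= 2 l`), homogeneous of degree `2 l`, linear in
`c`; it is nonzero if `c ≠ 0` (distinct monomials: coefficient at the exponent `(a, b, 2l-a-b)`).
The map `c ↦ (iteratedDeriv i (fun z => eval (γ z) P_c) 0)_{i < m}` is linear (the functions are
analytic at `0`, `iteratedDeriv` is additive on functions smooth at `0`; `AnalyticAt.contDiffAt`) from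
a space of dimension `(l+1)^2` to one of dimension `m < (l+1)^2`, so it has a nonzero kernel
(`LinearMap.exists_ne_zero_..`/ rank-nullity, `LinearMap.ker_ne_bot_of_finrank_lt`).
-/

namespace Pool.Agent.H24.CU

noncomputable def SG_e (l : ℕ) (p : Fin (l + 1) × Fin (l + 1)) : Fin 3 →₀ ℕ :=
  Finsupp.single 0 (p.1 : ℕ) + Finsupp.single 1 (p.2 : ℕ) +
    Finsupp.single 2 (2 * l - (p.1 : ℕ) - (p.2 : ℕ))

theorem SG_e_inj (l : ℕ) : Function.Injective (SG_e l) := by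
  intro p q h
  have h0 := DFunLike.congr_fun h 0
  have h1 := DFunLike.congr_fun h 1
  simp [SG_e] at h0 h1
  exact Prod.ext (Fin.ext h0) (Fin.ext h1)

theorem SG_analytic {γ : ℂ → V} (hγ : AnalyticAt ℂ γ 0) (P : MvPolynomial (Fin 3) ℂ) :
    AnalyticAt ℂ (fun z => MvPolynomial.eval (γ z) P) 0 := by
  induction P using MvPolynomial.induction_on with
  | C a =>
    have h : (fun z => MvPolynomial.eval (γ z) (MvPolynomial.C a)) = fun _ => a := by
      funext z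
      simp
    rw [h]
    exact analyticAt_const
  | add f g hf hg =>
    have h : (fun z => MvPolynomial.eval (γ z) (f + g)) =
        fun z => MvPolynomial.eval (γ z) f + MvPolynomial.eval (γ z) g := by
      funext z
      simp
    rw [h]
    exact hf.add hg
  | mul_X f i hf =>
    have h : (fun z => MvPolynomial.eval (γ z) (f * MvPolynomial.X i)) =
        fun z => MvPolynomial.eval (γ z) f * γ z i := by
      funext z
      simp
    rw [h]
    refine hf.mul ?_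
    exact ((ContinuousLinearMap.proj (R := ℂ) (φ := fun _ : Fin 3 => ℂ) i).analyticAt (γ 0)).comp hγ

theorem exists_poly_vanishing (γ : ℂ → V) (hγ : AnalyticAt ℂ γ 0) (m l : ℕ) (h : m < (l + 1) ^ 2) :
    ∃ P : MvPolynomial (Fin 3) ℂ, P.IsHomogeneous (2 * l) ∧ P ≠ 0 ∧
      ∀ i < m, iteratedDeriv i (fun z => MvPolynomial.eval (γ z) P) 0 = 0 := by
  classical
  obtain ⟨Φ, hΦ⟩ : ∃ Φ : (Fin (l + 1) × Fin (l + 1) → ℂ) →ₗ[ℂ] (Fin m → ℂ), ∀ c i,
      Φ c i = ∑ p, c p * iteratedDeriv (i : ℕ)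
        (fun z => MvPolynomial.eval (γ z) (MvPolynomial.monomial (SG_e l p) 1)) 0 :=
    ⟨{ toFun := fun c i => ∑ p, c p * iteratedDeriv (i : ℕ)
          (fun z => MvPolynomial.eval (γ z) (MvPolynomial.monomial (SG_e l p) 1)) 0
       map_add' := by
        intro c d
        funext i
        simp only [Pi.add_apply, add_mul, Finset.sum_add_distrib]
       map_smul' := by
        intro a c
        funext i
        simp only [Pi.smul_apply, smul_eq_mul, RingHom.id_apply, Finset.mul_sum, mul_assoc] },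
      fun c i => rfl⟩
  have hker : LinearMap.ker Φ ≠ ⊥ := by
    apply LinearMap.ker_ne_bot_of_finrank_lt
    rw [Module.finrank_fin_fun, Module.finrank_fintype_fun_eq_card, Fintype.card_prod,
      Fintype.card_fin]
    nlinarith
  obtain ⟨c, hc, hc0⟩ := Submodule.exists_mem_ne_zero_of_ne_bot hker
  rw [LinearMap.mem_ker] at hc
  refine ⟨∑ p, MvPolynomial.monomial (SG_e l p) (c p), ?_, ?_, ?_⟩
  · apply MvPolynomial.IsHomogeneous.sum
    intro p _
    apply MvPolynomial.isHomogeneous_monomial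
    have h1 := p.1.isLt
    have h2 := p.2.isLt
    simp only [SG_e, map_add, Finsupp.degree_single]
    omega
  · intro h0
    apply hc0
    funext p
    have h1 := congrArg (MvPolynomial.coeff (SG_e l p)) h0
    rw [MvPolynomial.coeff_sum, Finset.sum_eq_single p] at h1
    · simpa using h1
    · intro q _ hq
      rw [MvPolynomial.coeff_monomial, if_neg]
      intro h2
      exact hq (SG_e_inj l h2)
    · intro hp
      exact absurd (Finset.mem_univ p) hp
  · intro i hi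
    have h1 : (fun z => MvPolynomial.eval (γ z) (∑ p, MvPolynomial.monomial (SG_e l p) (c p))) =
        fun z => ∑ p, c p * MvPolynomial.eval (γ z) (MvPolynomial.monomial (SG_e l p) 1) := by
      funext z
      rw [map_sum]
      refine Finset.sum_congr rfl fun p _ => ?_
      have h2 : MvPolynomial.monomial (SG_e l p) (c p) =
          MvPolynomial.C (c p) * MvPolynomial.monomial (SG_e l p) 1 := by
        rw [MvPolynomial.C_mul_monomial, mul_one]
      rw [h2, map_mul, MvPolynomial.eval_C]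
    have hcd : ∀ p, ContDiffAt ℂ i
        (fun z => MvPolynomial.eval (γ z) (MvPolynomial.monomial (SG_e l p) 1)) 0 := fun p =>
      (SG_analytic hγ _).contDiffAt
    rw [h1, iteratedDeriv_fun_sum fun p _ => contDiffAt_const.mul (hcd p)]
    have h3 := congrFun hc ⟨i, hi⟩
    rw [hΦ] at h3
    simp only [Pi.zero_apply] at h3
    refine Eq.trans (Finset.sum_congr rfl fun p _ => ?_) h3
    exact iteratedDeriv_const_mul (c p) (hcd p)

end Pool.Agent.H24.CU

end S_H24_CU_SG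

section S_H24_CU_TT

/-!
# Row TT (a dyadic estimate)

PROOF.  `T` is a measurable set (a tube), `m t = M (T ∩ {‖p.1‖ <= t})`.  Hypothesis: `m t <= C t^2` for
`b' <= t <= b`.  For `i >= 0` with `2^i b' <= b`..: split `{‖p.1‖ <= b}` into `{‖p.1‖ <= b'}` and the shells
`2^i b' < ‖p.1‖ <= min (2^(i+1) b') b` (`i < n`, `2^n b' >= b > 2^(n-1) b'`).  On the first set
`1/(‖p.1‖ + b') <= 1/b'`, contribution `<= C b'^2 / b' = C b'`.  On the `i`-th shell
`1/(‖p.1‖ + b') <= 1/(2^i b')` and the mass is `<= C (min (2^(i+1) b') b)^2 <= C 4 (2^i b')^2`, contribution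
`<= 4 C 2^i b'`; the sum is `<= 4 C 2^n b' <= 8 C b`.  Total `<= 9 C b`.
(Alternatively a layer cake argument.)  The function is bounded and measurable, so integrable on a set of
finite measure.
-/

namespace Pool.Agent.H24.CU

open MeasureTheory

theorem tube_integral (M : Measure (ℂ × ℂ)) [IsFiniteMeasure M] (T : Set (ℂ × ℂ))
    (hT : MeasurableSet T) (C b b' : ℝ) (hC : 0 ≤ C) (hb' : 0 < b') (hbb : b' ≤ b)
    (hm : ∀ t : ℝ, b' ≤ t → t ≤ b → (M (T ∩ {p | ‖p.1‖ ≤ t})).toReal ≤ C * t ^ 2) :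
    ∫ p in T ∩ {p | ‖p.1‖ ≤ b}, (1 / (‖p.1‖ + b')) ∂M ≤ 9 * C * b := by
  obtain ⟨k, hk1, hk2⟩ := exists_nat_pow_near (x := b / b') (y := 2)
    ((one_le_div₀ hb').2 hbb) (by norm_num)
  rw [le_div_iff₀ hb'] at hk1
  rw [div_lt_iff₀ hb'] at hk2
  have hnorm : Measurable (fun p : ℂ × ℂ => ‖p.1‖) := measurable_fst.norm
  have hS : MeasurableSet (T ∩ {p : ℂ × ℂ | ‖p.1‖ ≤ b}) :=
    hT.inter (measurableSet_le hnorm measurable_const)
  have hA : ∀ i : ℕ, MeasurableSet {p : ℂ × ℂ | ‖p.1‖ ≤ min (2 ^ i * b') b} := fun i =>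
    measurableSet_le hnorm measurable_const
  obtain ⟨g, hg⟩ : ∃ g : ℕ → ℂ × ℂ → ℝ, g = fun i p => 2 / (2 ^ i * b') *
      ({p : ℂ × ℂ | ‖p.1‖ ≤ min (2 ^ i * b') b}).indicator (fun _ => (1 : ℝ)) p := ⟨_, rfl⟩
  have hgm : ∀ i, Measurable (g i) := by
    intro i
    rw [hg]
    exact (measurable_const.indicator (hA i)).const_mul _
  have hg0 : ∀ i p, 0 ≤ g i p := by
    intro i p
    rw [hg]
    exact mul_nonneg (by positivity) (Set.indicator_nonneg (fun _ _ => zero_le_one) _)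
  have hgi : ∀ i, IntegrableOn (g i) (T ∩ {p : ℂ × ℂ | ‖p.1‖ ≤ b}) M := by
    intro i
    refine Integrable.of_bound (hgm i).aestronglyMeasurable (2 / (2 ^ i * b')) ?_
    refine Filter.Eventually.of_forall fun p => ?_
    rw [Real.norm_eq_abs, abs_of_nonneg (hg0 i p), hg]
    show 2 / (2 ^ i * b') * _ ≤ _
    have h1 : ({p : ℂ × ℂ | ‖p.1‖ ≤ min (2 ^ i * b') b}).indicator (fun _ => (1 : ℝ)) p ≤ 1 :=
      Set.indicator_le_self' (fun _ _ => zero_le_one) p
    calc _ ≤ 2 / (2 ^ i * b') * 1 := mul_le_mul_of_nonneg_left h1 (by positivity)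
      _ = _ := mul_one _
  have hfi : IntegrableOn (fun p : ℂ × ℂ => 1 / (‖p.1‖ + b')) (T ∩ {p : ℂ × ℂ | ‖p.1‖ ≤ b}) M := by
    refine Integrable.of_bound ?_ (1 / b') ?_
    · exact (measurable_const.div (hnorm.add_const b')).aestronglyMeasurable
    · refine Filter.Eventually.of_forall fun p => ?_
      have h1 : 0 ≤ ‖p.1‖ := norm_nonneg _
      rw [Real.norm_eq_abs, abs_of_nonneg (by positivity)]
      exact one_div_le_one_div_of_le hb' (by linarith)
  have hpt : ∀ p ∈ T ∩ {p : ℂ × ℂ | ‖p.1‖ ≤ b}, 1 / (‖p.1‖ + b') ≤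
      ∑ i ∈ Finset.range (k + 2), g i p := by
    rintro p ⟨_, hp⟩
    have hp : ‖p.1‖ ≤ b := hp
    have h0 : 0 ≤ ‖p.1‖ := norm_nonneg _
    have hex : ∃ i : ℕ, ‖p.1‖ ≤ 2 ^ i * b' := ⟨k + 1, hp.trans hk2.le⟩
    classical
    obtain ⟨i, hi1, hi2⟩ : ∃ i : ℕ, ‖p.1‖ ≤ 2 ^ i * b' ∧ ∀ j < i, ¬ ‖p.1‖ ≤ 2 ^ j * b' :=
      ⟨Nat.find hex, Nat.find_spec hex, fun j hj => Nat.find_min hex hj⟩
    have hik : i < k + 2 := by
      by_contra hcon
      exact hi2 (k + 1) (by omega) (hp.trans hk2.le)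
    have h1 : 1 / (‖p.1‖ + b') ≤ g i p := by
      rw [hg]
      show _ ≤ 2 / (2 ^ i * b') * _
      rw [Set.indicator_of_mem (show p ∈ {p : ℂ × ℂ | ‖p.1‖ ≤ min (2 ^ i * b') b} from
        le_min hi1 hp), mul_one, div_le_div_iff₀ (by positivity) (by positivity)]
      rcases Nat.eq_zero_or_pos i with h2 | h2
      · rw [h2]
        simp only [pow_zero, one_mul]
        linarith
      · have h3 := hi2 (i - 1) (by omega)
        push Not at h3
        have h4 : (2 : ℝ) ^ i = 2 * 2 ^ (i - 1) := by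
          rw [← pow_succ']
          congr 1
          omega
        rw [h4]
        linarith
    exact h1.trans (Finset.single_le_sum (f := fun i => g i p) (fun j _ => hg0 j p)
      (Finset.mem_range.2 hik))
  have hterm : ∀ i ∈ Finset.range (k + 2), ∫ p in T ∩ {p : ℂ × ℂ | ‖p.1‖ ≤ b}, g i p ∂M ≤
      2 * C * b' * 2 ^ i := by
    intro i _
    have h1 : ∫ p in T ∩ {p : ℂ × ℂ | ‖p.1‖ ≤ b}, g i p ∂M = 2 / (2 ^ i * b') *
        (M (T ∩ {p | ‖p.1‖ ≤ min (2 ^ i * b') b})).toReal := by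
      rw [hg]
      simp only
      rw [integral_const_mul, integral_indicator_const _ (hA i), smul_eq_mul, mul_one,
        measureReal_restrict_apply (hA i)]
      congr 2
      ext p
      simp only [Set.mem_inter_iff, Set.mem_ofPred_eq, le_min_iff]
      tauto
    rw [h1]
    have h2 : (1 : ℝ) ≤ 2 ^ i := one_le_pow₀ (by norm_num)
    have h3 : b' ≤ min (2 ^ i * b') b := le_min (by nlinarith) hbb
    have h4 := hm _ h3 (min_le_right _ _)
    have h5 : (min (2 ^ i * b') b) ^ 2 ≤ (2 ^ i * b') ^ 2 :=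
      pow_le_pow_left₀ (hb'.le.trans h3) (min_le_left _ _) 2
    have h6 := h4.trans (mul_le_mul_of_nonneg_left h5 hC)
    calc _ ≤ 2 / (2 ^ i * b') * (C * (2 ^ i * b') ^ 2) :=
          mul_le_mul_of_nonneg_left h6 (by positivity)
      _ = _ := by
          field_simp
  have h7 : ∑ i ∈ Finset.range (k + 2), 2 * C * b' * (2 : ℝ) ^ i =
      2 * C * b' * (2 ^ (k + 2) - 1) := by
    rw [← Finset.mul_sum, geom_sum_eq (by norm_num)]
    norm_num
  calc _ ≤ ∫ p in T ∩ {p : ℂ × ℂ | ‖p.1‖ ≤ b}, ∑ i ∈ Finset.range (k + 2), g i p ∂M :=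
        setIntegral_mono_on hfi (integrable_finsetSum _ fun i _ => hgi i) hS hpt
    _ = ∑ i ∈ Finset.range (k + 2), ∫ p in T ∩ {p : ℂ × ℂ | ‖p.1‖ ≤ b}, g i p ∂M :=
        integral_finsetSum _ fun i _ => hgi i
    _ ≤ ∑ i ∈ Finset.range (k + 2), 2 * C * b' * (2 : ℝ) ^ i := Finset.sum_le_sum hterm
    _ = 2 * C * b' * (2 ^ (k + 2) - 1) := h7
    _ ≤ 9 * C * b := by
        have h8 : (2 : ℝ) ^ (k + 2) = 4 * 2 ^ k := by rw [pow_add]; norm_num; ring
        rw [h8]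
        have h9 : C * (2 ^ k * b') ≤ C * b := mul_le_mul_of_nonneg_left hk1 hC
        have h10 : 0 ≤ C * b' := mul_nonneg hC hb'.le
        have h11 : 0 ≤ C * b := mul_nonneg hC (hb'.le.trans hbb)
        nlinarith [h9, h10, h11]

end Pool.Agent.H24.CU

end S_H24_CU_TT

section S_H24_CU_OD

/-!
# Row OD (existence of the local leaf)

PROOF.  `f(z,w) = (X(z,w)).2 / (X(z,w)).1`.  Choose `r1 > 0`, `r1 <= r/2`, with `|(X p).1| >= 1/2` for
`‖p‖ <= r1`; there `|f| <= B` and `|f(z,w) - f(z,w')| <= K |w - w'|` (mean value inequality on the convex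
compact ball, `f` is holomorphic near it).  `ρ > 0` with `ρ <= r1`, `ρ B < r1`, `ρ K <= 1/2`.
Picard iteration: `Y_0 = 0`; given `Y_n` holomorphic on `ball 0 ρ`, `|Y_n| < r1`, `Y_n 0 = 0`, let `Y_{n+1}` be the
primitive of `z ↦ f(z, Y_n z)` on the disc vanishing at `0` (primitives of holomorphic functions on
discs: `DifferentiableOn.isExactOn_ball` / `Complex.IsExactOn` or the series; alternatively
`Y_{n+1}(z) = ∫_0^1 z f(t z, Y_n(t z)) dt`).  `|Y_{n+1} z| <= B |z| < r1` and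
`|Y_{n+1} z - Y_n z| <= ρ K sup |Y_n - Y_{n-1}| <= (1/2) sup |..|` (mean value inequality from `0` to `z`).
So `Y_n` converges uniformly on the disc to `Y`; `Y` is holomorphic
(`TendstoLocallyUniformlyOn.differentiableOn`), the derivatives converge
(`TendstoLocallyUniformlyOn.deriv`), so `Y' z = f(z, Y z)`, `Y 0 = 0`, `|Y z| <= B |z|`.
-/

namespace Pool.Agent.H24.CU

open Metric Filter Topology

/-- the right hand side of the differential equation -/
noncomputable def OD_f (X : ℂ × ℂ → ℂ × ℂ) (p : ℂ × ℂ) : ℂ := (X p).2 * ((X p).1)⁻¹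

theorem OD_nz {a : ℂ} (h : ‖a - 1‖ ≤ 1 / 2) : a ≠ 0 := by
  rintro rfl
  rw [zero_sub, norm_neg, norm_one] at h
  norm_num at h

theorem OD_diff {X : ℂ × ℂ → ℂ × ℂ} (hX : Differentiable ℂ X) {p : ℂ × ℂ}
    (h : ‖(X p).1 - 1‖ ≤ 1 / 2) : DifferentiableAt ℂ (OD_f X) p :=
  ((hX p).snd).mul (((hX p).fst).inv (OD_nz h))

/-- data for the iteration -/
structure OD_D (X : ℂ × ℂ → ℂ × ℂ) (R B : ℝ) : Prop where
  hX : Differentiable ℂ X
  hR : 0 < R
  hB : 0 ≤ B
  one : ∀ p ∈ closedBall (0 : ℂ × ℂ) R, ‖(X p).1 - 1‖ ≤ 1 / 2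
  bd : ∀ p ∈ closedBall (0 : ℂ × ℂ) R, ‖OD_f X p‖ ≤ B

theorem OD_data (X : ℂ × ℂ → ℂ × ℂ) (hX : Differentiable ℂ X) (h0 : X 0 = (1, 0)) (r : ℝ)
    (hr : 0 < r) : ∃ R B, R < r ∧ OD_D X R B := by
  have hc : ContinuousAt (fun p => (X p).1) 0 := (continuous_fst.comp hX.continuous).continuousAt
  obtain ⟨δ, hδ, h1⟩ := Metric.continuousAt_iff.1 hc (1 / 2) (by norm_num)
  have h2 : ∀ p ∈ closedBall (0 : ℂ × ℂ) (min (δ / 2) (r / 2)), ‖(X p).1 - 1‖ ≤ 1 / 2 := by
    intro p hp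
    rw [mem_closedBall] at hp
    have h3 : dist p 0 < δ := by
      have := min_le_left (δ / 2) (r / 2)
      linarith
    have h4 := h1 h3
    rw [h0, dist_eq_norm] at h4
    exact h4.le
  have h5 : ContinuousOn (OD_f X) (closedBall (0 : ℂ × ℂ) (min (δ / 2) (r / 2))) := by
    intro p hp
    exact (OD_diff hX (h2 p hp)).continuousAt.continuousWithinAt
  obtain ⟨B, hB⟩ := (isCompact_closedBall _ _).exists_bound_of_continuousOn h5
  have hR : 0 < min (δ / 2) (r / 2) := lt_min (by positivity) (by positivity)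
  refine ⟨min (δ / 2) (r / 2), B, ?_, hX, hR, ?_, h2, hB⟩
  · have := min_le_right (δ / 2) (r / 2)
    linarith
  · exact (norm_nonneg _).trans (hB 0 (mem_closedBall_self hR.le))

theorem OD_mem {z w : ℂ} {R : ℝ} (hz : ‖z‖ ≤ R) (hw : ‖w‖ ≤ R) :
    (z, w) ∈ closedBall (0 : ℂ × ℂ) R := by
  rw [mem_closedBall, dist_zero_right, Prod.norm_def]
  exact max_le hz hw

theorem OD_lip {X : ℂ × ℂ → ℂ × ℂ} {R B : ℝ} (h : OD_D X R B) {z w w' : ℂ} (hz : ‖z‖ ≤ R)
    (hw : ‖w‖ ≤ R / 2) (hw' : ‖w'‖ ≤ R / 2) :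
    ‖OD_f X (z, w') - OD_f X (z, w)‖ ≤ B / (R / 2) * ‖w' - w‖ := by
  have hR := h.hR
  have hd : ∀ x : ℂ, ‖x‖ ≤ R → DifferentiableAt ℂ (fun w => OD_f X (z, w)) x := by
    intro x hx
    have h1 := OD_diff h.hX (h.one _ (OD_mem hz hx))
    exact DifferentiableAt.comp (g := OD_f X) x h1
      ((differentiableAt_const z).prodMk differentiableAt_id)
  refine Convex.norm_image_sub_le_of_norm_deriv_le (f := fun w => OD_f X (z, w))
    (s := closedBall 0 (R / 2)) ?_ ?_ (convex_closedBall _ _) ?_ ?_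
  · intro x hx
    rw [mem_closedBall, dist_zero_right] at hx
    exact hd x (by linarith)
  · intro x hx
    rw [mem_closedBall, dist_zero_right] at hx
    refine Complex.norm_deriv_le_of_forall_mem_sphere_norm_le (by positivity) ?_ ?_
    · refine DifferentiableOn.diffContOnCl ?_
      intro y hy
      refine (hd y ?_).differentiableWithinAt
      have h2 := closure_ball_subset_closedBall hy
      rw [mem_closedBall, dist_eq_norm] at h2
      have h3 := norm_sub_norm_le y x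
      linarith
    · intro y hy
      rw [mem_sphere, dist_eq_norm] at hy
      have h3 := norm_sub_norm_le y x
      exact h.bd _ (OD_mem hz (by linarith))
  · rw [mem_closedBall, dist_zero_right]
    exact hw
  · rw [mem_closedBall, dist_zero_right]
    exact hw'

theorem OD_step {X : ℂ × ℂ → ℂ × ℂ} {R B ρ : ℝ} (h : OD_D X R B) (hρ : 0 < ρ) (hρR : ρ ≤ R)
    (hρB : B * ρ ≤ R / 2) (Y : ℂ → ℂ) (hY : DifferentiableOn ℂ Y (ball 0 ρ))
    (hYb : ∀ z ∈ ball (0 : ℂ) ρ, ‖Y z‖ ≤ R / 2) :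
    ∃ W : ℂ → ℂ, W 0 = 0 ∧ (∀ z ∈ ball (0 : ℂ) ρ, HasDerivAt W (OD_f X (z, Y z)) z) ∧
      ∀ z ∈ ball (0 : ℂ) ρ, ‖W z‖ ≤ R / 2 := by
  have hR := h.hR
  have hb : ∀ z ∈ ball (0 : ℂ) ρ, (z, Y z) ∈ closedBall (0 : ℂ × ℂ) R := by
    intro z hz
    have h1 := hYb z hz
    rw [mem_ball, dist_zero_right] at hz
    exact OD_mem (by linarith) (by linarith)
  have hd : DifferentiableOn ℂ (fun z => OD_f X (z, Y z)) (ball 0 ρ) := by
    intro z hz
    have h1 := OD_diff h.hX (h.one _ (hb z hz))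
    have h2 : DifferentiableWithinAt ℂ (fun z => (z, Y z)) (ball 0 ρ) z :=
      differentiableWithinAt_id.prodMk (hY z hz)
    exact DifferentiableAt.comp_differentiableWithinAt (g := OD_f X) z h1 h2
  obtain ⟨W, hW0, hW⟩ := hd.isExactOn_ball.with_val_at 0 0
  refine ⟨W, hW0, hW, ?_⟩
  intro z hz
  have h1 := Convex.norm_image_sub_le_of_norm_hasDerivWithin_le (f := W)
    (f' := fun z => OD_f X (z, Y z)) (s := ball (0 : ℂ) ρ) (C := B) (x := 0) (y := z)
    (fun x hx => (hW x hx).hasDerivWithinAt) (fun x hx => h.bd _ (hb x hx)) (convex_ball _ _)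
    (mem_ball_self hρ) hz
  rw [hW0, sub_zero, sub_zero] at h1
  rw [mem_ball, dist_zero_right] at hz
  have h2 : B * ‖z‖ ≤ B * ρ := mul_le_mul_of_nonneg_left hz.le h.hB
  linarith

theorem OD_contr {X : ℂ × ℂ → ℂ × ℂ} {R B ρ : ℝ} (h : OD_D X R B) (hρ : 0 < ρ) (hρR : ρ ≤ R)
    (hρK : B / (R / 2) * ρ ≤ 1 / 2) (Y Y' W W' : ℂ → ℂ)
    (hYb : ∀ z ∈ ball (0 : ℂ) ρ, ‖Y z‖ ≤ R / 2) (hYb' : ∀ z ∈ ball (0 : ℂ) ρ, ‖Y' z‖ ≤ R / 2)
    (hW0 : W 0 = 0) (hW0' : W' 0 = 0)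
    (hW : ∀ z ∈ ball (0 : ℂ) ρ, HasDerivAt W (OD_f X (z, Y z)) z)
    (hW' : ∀ z ∈ ball (0 : ℂ) ρ, HasDerivAt W' (OD_f X (z, Y' z)) z)
    (D : ℝ) (hD : ∀ z ∈ ball (0 : ℂ) ρ, ‖Y' z - Y z‖ ≤ D) :
    ∀ z ∈ ball (0 : ℂ) ρ, ‖W' z - W z‖ ≤ D / 2 := by
  intro z hz
  have hR := h.hR
  have hD0 : 0 ≤ D := (norm_nonneg _).trans (hD 0 (mem_ball_self hρ))
  have hK0 : 0 ≤ B / (R / 2) := div_nonneg h.hB (by positivity)
  have h1 := Convex.norm_image_sub_le_of_norm_hasDerivWithin_le (f := fun z => W' z - W z)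
    (f' := fun z => OD_f X (z, Y' z) - OD_f X (z, Y z)) (s := ball (0 : ℂ) ρ)
    (C := B / (R / 2) * D) (x := 0) (y := z)
    (fun x hx => ((hW' x hx).sub (hW x hx)).hasDerivWithinAt)
    (fun x hx => by
      have hx' : ‖x‖ ≤ R := by
        rw [mem_ball, dist_zero_right] at hx
        linarith
      exact (OD_lip h hx' (hYb x hx) (hYb' x hx)).trans
        (mul_le_mul_of_nonneg_left (hD x hx) hK0)) (convex_ball _ _)
    (mem_ball_self hρ) hz
  simp only [hW0, hW0', sub_zero] at h1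
  rw [mem_ball, dist_zero_right] at hz
  have h2 : B / (R / 2) * D * ‖z‖ ≤ B / (R / 2) * D * ρ :=
    mul_le_mul_of_nonneg_left hz.le (mul_nonneg hK0 hD0)
  have h3 : B / (R / 2) * D * ρ = (B / (R / 2) * ρ) * D := by ring
  have h4 : (B / (R / 2) * ρ) * D ≤ 1 / 2 * D := mul_le_mul_of_nonneg_right hρK hD0
  linarith

theorem exists_leaf (X : ℂ × ℂ → ℂ × ℂ) (hX : Differentiable ℂ X) (h0 : X 0 = (1, 0)) (r : ℝ)
    (hr : 0 < r) : ∃ (ρ : ℝ) (Y : ℂ → ℂ), Leaf X r ρ Y := by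
  obtain ⟨R, B, hRr, h⟩ := OD_data X hX h0 r hr
  have hR := h.hR
  have hB := h.hB
  -- the radius
  obtain ⟨ρ, hρ⟩ : ∃ ρ, ρ = R / (4 * (B + 1)) := ⟨_, rfl⟩
  have hρ0 : 0 < ρ := by rw [hρ]; positivity
  have hρR : ρ ≤ R := by
    rw [hρ, div_le_iff₀ (by positivity)]
    nlinarith
  have hρB : B * ρ ≤ R / 2 := by
    rw [hρ, mul_div_assoc', div_le_div_iff₀ (by positivity) (by norm_num)]
    nlinarith
  have hρK : B / (R / 2) * ρ ≤ 1 / 2 := by
    have e : B / (R / 2) * ρ = 2 * B / (4 * (B + 1)) := by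
      rw [hρ]
      field_simp
    rw [e, div_le_div_iff₀ (by positivity) (by norm_num)]
    linarith
  -- the iteration
  let S : Type := {Y : ℂ → ℂ // DifferentiableOn ℂ Y (ball 0 ρ) ∧
    ∀ z ∈ ball (0 : ℂ) ρ, ‖Y z‖ ≤ R / 2}
  have hT : ∀ Y : S, ∃ W : S, W.1 0 = 0 ∧
      ∀ z ∈ ball (0 : ℂ) ρ, HasDerivAt W.1 (OD_f X (z, Y.1 z)) z := by
    intro Y
    obtain ⟨W, h1, h2, h3⟩ := OD_step h hρ0 hρR hρB Y.1 Y.2.1 Y.2.2
    exact ⟨⟨W, fun z hz => (h2 z hz).differentiableAt.differentiableWithinAt, h3⟩, h1, h2⟩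
  choose T hT0 hTd using hT
  have hC : ∀ (Y Y' : S) (D : ℝ), (∀ z ∈ ball (0 : ℂ) ρ, ‖Y'.1 z - Y.1 z‖ ≤ D) →
      ∀ z ∈ ball (0 : ℂ) ρ, ‖(T Y').1 z - (T Y).1 z‖ ≤ D / 2 := by
    intro Y Y' D hD
    exact OD_contr h hρ0 hρR hρK Y.1 Y'.1 (T Y).1 (T Y').1 Y.2.2 Y'.2.2 (hT0 Y) (hT0 Y')
      (hTd Y) (hTd Y') D hD
  let Y0 : S := ⟨fun _ => 0, differentiableOn_const _, fun z _ => by
    rw [norm_zero]
    positivity⟩
  let Yn : ℕ → S := fun n => T^[n] Y0
  have hYs : ∀ n, Yn (n + 1) = T (Yn n) := fun n => Function.iterate_succ_apply' T n Y0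
  have hdist : ∀ n, ∀ z ∈ ball (0 : ℂ) ρ, ‖(Yn (n + 1)).1 z - (Yn n).1 z‖ ≤ R * (1 / 2) ^ n := by
    intro n
    induction n with
    | zero =>
      intro z hz
      rw [pow_zero, mul_one]
      have h1 := (Yn 1).2.2 z hz
      have h2 := (Yn 0).2.2 z hz
      have h3 := norm_sub_le ((Yn 1).1 z) ((Yn 0).1 z)
      linarith
    | succ n ih =>
      intro z hz
      rw [hYs (n + 1), hYs n]
      have h1 := hC (Yn n) (Yn (n + 1)) _ ih z hz
      rw [hYs n] at h1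
      refine h1.trans (le_of_eq ?_)
      rw [pow_succ]
      ring
  have hd' : ∀ z ∈ ball (0 : ℂ) ρ, ∀ n, dist ((Yn n).1 z) ((Yn (n + 1)).1 z) ≤
      R * (1 / 2) ^ n := by
    intro z hz n
    rw [dist_comm, dist_eq_norm]
    exact hdist n z hz
  have hlim : ∀ z ∈ ball (0 : ℂ) ρ, ∃ y, Tendsto (fun n => (Yn n).1 z) atTop (𝓝 y) := by
    intro z hz
    exact cauchySeq_tendsto_of_complete
      (cauchySeq_of_le_geometric (1 / 2) R (by norm_num) (hd' z hz))
  obtain ⟨Y, hY⟩ : ∃ Y : ℂ → ℂ, ∀ z ∈ ball (0 : ℂ) ρ,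
      Tendsto (fun n => (Yn n).1 z) atTop (𝓝 (Y z)) := by
    classical
    refine ⟨fun z => if hz : z ∈ ball (0 : ℂ) ρ then (hlim z hz).choose else 0, ?_⟩
    intro z hz
    simp only [dif_pos hz]
    exact (hlim z hz).choose_spec
  have hconv : ∀ n, ∀ z ∈ ball (0 : ℂ) ρ, ‖Y z - (Yn n).1 z‖ ≤ 2 * R * (1 / 2) ^ n := by
    intro n z hz
    have h1 := dist_le_of_le_geometric_of_tendsto (1 / 2) R (by norm_num) (hd' z hz) (hY z hz) n
    rw [dist_comm, dist_eq_norm] at h1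
    refine h1.trans (le_of_eq ?_)
    ring
  have h2p : Tendsto (fun n : ℕ => 2 * R * (1 / 2 : ℝ) ^ n) atTop (𝓝 0) := by
    have h1 := (tendsto_pow_atTop_nhds_zero_of_lt_one (r := (1 / 2 : ℝ)) (by norm_num)
      (by norm_num)).const_mul (2 * R)
    rwa [mul_zero] at h1
  have hunif : TendstoUniformlyOn (fun n => (Yn n).1) Y atTop (ball (0 : ℂ) ρ) := by
    rw [Metric.tendstoUniformlyOn_iff]
    intro ε hε
    filter_upwards [h2p.eventually (gt_mem_nhds hε)] with n hn z hz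
    rw [dist_eq_norm]
    exact (hconv n z hz).trans_lt hn
  have hYd : DifferentiableOn ℂ Y (ball 0 ρ) :=
    hunif.tendstoLocallyUniformlyOn.differentiableOn
      (Eventually.of_forall fun n => (Yn n).2.1) isOpen_ball
  have hYb : ∀ z ∈ ball (0 : ℂ) ρ, ‖Y z‖ ≤ R / 2 := by
    intro z hz
    exact le_of_tendsto (hY z hz).norm (Eventually.of_forall fun n => (Yn n).2.2 z hz)
  let Ys : S := ⟨Y, hYd, hYb⟩
  have hfix : ∀ z ∈ ball (0 : ℂ) ρ, (T Ys).1 z = Y z := by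
    intro z hz
    have h1 : ∀ n, ‖(T Ys).1 z - (Yn (n + 1)).1 z‖ ≤ 2 * R * (1 / 2) ^ n := by
      intro n
      rw [hYs n]
      have h2 := hC (Yn n) Ys _ (hconv n) z hz
      have h3 : 0 ≤ 2 * R * (1 / 2 : ℝ) ^ n := by positivity
      linarith
    have h2 : Tendsto (fun n => (Yn (n + 1)).1 z) atTop (𝓝 (Y z)) :=
      (hY z hz).comp (tendsto_add_atTop_nat 1)
    have h3 : Tendsto (fun n => (Yn (n + 1)).1 z) atTop (𝓝 ((T Ys).1 z)) := by
      rw [tendsto_iff_norm_sub_tendsto_zero]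
      refine squeeze_zero (fun n => norm_nonneg _) (fun n => ?_) h2p
      rw [norm_sub_rev]
      exact h1 n
    exact tendsto_nhds_unique h3 h2
  have hder : ∀ z ∈ ball (0 : ℂ) ρ, HasDerivAt Y (OD_f X (z, Y z)) z := by
    intro z hz
    refine (hTd Ys z hz).congr_of_eventuallyEq ?_
    filter_upwards [isOpen_ball.mem_nhds hz] with w hw
    exact (hfix w hw).symm
  have hmem : ∀ z ∈ ball (0 : ℂ) ρ, (z, Y z) ∈ closedBall (0 : ℂ × ℂ) R := by
    intro z hz
    have h1 := hYb z hz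
    rw [mem_ball, dist_zero_right] at hz
    exact OD_mem (by linarith) (by linarith)
  refine ⟨ρ, Y, hρ0, hYd, ?_, ?_, ?_, ?_⟩
  · rw [← hfix 0 (mem_ball_self hρ0)]
    exact hT0 Ys
  · intro z hz
    exact closedBall_subset_ball hRr (hmem z hz)
  · intro z hz
    exact OD_nz (h.one _ (hmem z hz))
  · intro z hz
    rw [(hder z hz).deriv]
    unfold OD_f
    rw [mul_assoc, inv_mul_cancel₀ (OD_nz (h.one _ (hmem z hz))), mul_one]

end Pool.Agent.H24.CU

end S_H24_CU_OD
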