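import Mathlib

/-! MP_6873ef_an: this file joins several modules to save build time. -/

section S_H85_DC_Defs

/-!
# MP_6873ef_an: directed currents on `ℙ²`. Definitions (helper85).

Everything lives on `V = ℂ³`: functions, covector fields and `(1,1)`-forms of `ℙ²` are homogeneous
functions on `V \ {0}`; directed currents are measures on the unit sphere.
-/

open MeasureTheory
open scoped ContDiff BigOperators ComplexConjugate Matrix

namespace Pool.Agent.H85.DC

/-- `ℂ³`. -/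
abbrev V : Type := Fin 3 → ℂ

/-- The squared Euclidean norm `∑ |x_j|²`. -/
noncomputable def N (x : V) : ℝ := ∑ j, Complex.normSq (x j)

/-- The Hermitian product `∑ x_j conj(y_j)`. -/
noncomputable def ip (x y : V) : ℂ := ∑ j, x j * conj (y j)

/-- `τ(x, y) = 1 - |⟨x, y⟩|² / (N x N y)`: the square of the sine of the angle of the complex lines
`ℂ x`, `ℂ y` (Fubini-Study). -/
noncomputable def tau (x y : V) : ℝ := 1 - Complex.normSq (ip x y) / (N x * N y)

/-- Wirtinger derivative `∂f/∂x_j`. -/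
noncomputable def dz (j : Fin 3) (f : V → ℂ) (x : V) : ℂ :=
  (fderiv ℝ f x (Pi.single j 1) - Complex.I * fderiv ℝ f x (Pi.single j Complex.I)) / 2

/-- Wirtinger derivative `∂f/∂x̄_j`. -/
noncomputable def dzb (j : Fin 3) (f : V → ℂ) (x : V) : ℂ :=
  (fderiv ℝ f x (Pi.single j 1) + Complex.I * fderiv ℝ f x (Pi.single j Complex.I)) / 2

/-- Smooth functions on `ℙ²`: smooth functions on `V \ {0}`, constant on complex lines. -/
structure IsFun (u : V → ℂ) : Prop where
  smooth : ContDiffOn ℝ ∞ u {0}ᶜ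
  hom : ∀ (l : ℂ) (x : V), l ≠ 0 → u (l • x) = u x

/-- Smooth `(1,0)`-forms on `ℙ²`: `ζ(l x) = l⁻¹ ζ(x)`, `∑ x_j ζ_j(x) = 0`. -/
structure IsCov (ζ : V → V) : Prop where
  smooth : ContDiffOn ℝ ∞ ζ {0}ᶜ
  hom : ∀ (l : ℂ) (x : V), l ≠ 0 → ζ (l • x) = l⁻¹ • ζ x
  kill : ∀ x : V, x ≠ 0 → ∑ j, x j * ζ x j = 0

/-- The matrix `∂_j ∂̄_k u`, i.e. the form `∂∂̄u`. -/
noncomputable def L (u : V → ℂ) (x : V) : Matrix (Fin 3) (Fin 3) ℂ :=
  fun j k => dz j (dzb k u) x

/-- The matrix `∂̄_k ζ_j`, i.e. the form `∂̄ζ` (up to sign). -/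
noncomputable def db (ζ : V → V) (x : V) : Matrix (Fin 3) (Fin 3) ℂ :=
  fun j k => dzb k (fun y => ζ y j) x

/-- The value at `y` of the homogeneous vector field with components `F_j`. -/
noncomputable def Zf (F : Fin 3 → MvPolynomial (Fin 3) ℂ) (y : V) : V :=
  fun j => MvPolynomial.eval y (F j)

/-- The cross product `y × Z(y)`: it vanishes exactly at the singular points of the foliation. -/
noncomputable def eta (F : Fin 3 → MvPolynomial (Fin 3) ℂ) (y : V) : V :=
  ![y 1 * Zf F y 2 - y 2 * Zf F y 1, y 2 * Zf F y 0 - y 0 * Zf F y 2,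
    y 0 * Zf F y 1 - y 1 * Zf F y 0]

/-- `A_y(w, w) = ∑ A_jk w_j conj(w_k)` for the unit vector `w` which is orthogonal to `y` and tangent
to the foliation at the unit vector `y` (written with `Z(y)` instead of `w`; `A` kills `y`). -/
noncomputable def pr (F : Fin 3 → MvPolynomial (Fin 3) ℂ) (A : V → Matrix (Fin 3) (Fin 3) ℂ)
    (y : V) : ℂ :=
  (∑ j, ∑ k, A y j k * Zf F y j * conj (Zf F y k)) / (N (eta F y) : ℂ)

/-- A positive current of mass one directed by the foliation `F`: a probability measure on the unit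
sphere which does not charge the singular set (its trace measure); it acts on a `(1,1)`-form `A` by
`∫ pr F A y dμ(y)`. -/
structure IsCur (F : Fin 3 → MvPolynomial (Fin 3) ℂ) (μ : Measure V) : Prop where
  prob : μ Set.univ = 1
  sphere : ∀ᵐ y ∂μ, N y = 1
  sing : ∀ᵐ y ∂μ, eta F y ≠ 0

/-- The directed current of `μ` is `ddᶜ`-closed. -/
def DdcClosed (F : Fin 3 → MvPolynomial (Fin 3) ℂ) (μ : Measure V) : Prop :=
  ∀ u : V → ℂ, IsFun u → ∫ y, pr F (L u) y ∂μ = 0

/-- The directed current of `μ` is closed. -/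
def CurClosed (F : Fin 3 → MvPolynomial (Fin 3) ℂ) (μ : Measure V) : Prop :=
  ∀ ζ : V → V, IsCov ζ → ∫ y, pr F (db ζ) y ∂μ = 0

/-- Finite energy on compact sets off the singular set. -/
def FinEnergy (F : Fin 3 → MvPolynomial (Fin 3) ℂ) (μ : Measure V) : Prop :=
  ∀ r : ℝ, 0 < r → ∫⁻ y in {y | r ≤ N (eta F y)}, ∫⁻ y' in {y' | r ≤ N (eta F y')},
    (ENNReal.ofReal (tau y y'))⁻¹ ∂μ ∂μ < ⊤

/-- Hölder regularity off the singular set, with polynomial loss at the singular set. -/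
def HolderOff (F : Fin 3 → MvPolynomial (Fin 3) ℂ) (μ : Measure V) : Prop :=
  ∃ (C : ℝ) (m : ℕ) (κ : ℝ), 0 < κ ∧ ∀ (y : V) (s : ℝ), N y = 1 → eta F y ≠ 0 → 0 < s → s < 1 →
    (μ {y' | tau y y' < s ^ 2}).toReal ≤ C * (N (eta F y))⁻¹ ^ m * s ^ (2 + κ)

/-- The Lelong number vanishes at almost every point. -/
def ZeroLelong (μ : Measure V) : Prop :=
  ∀ᵐ y ∂μ, Filter.Tendsto (fun s : ℝ => (μ {y' | tau y y' < s ^ 2}).toReal / s ^ 2)
    (nhdsWithin 0 (Set.Ioi 0)) (nhds 0)

end Pool.Agent.H85.DC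

end S_H85_DC_Defs

section S_H85_DC_Frm

/-!
# MP_6873ef_an: homogeneous functions, forms, the intersection form. Definitions only (helper85).
-/

open MeasureTheory
open scoped ContDiff BigOperators ComplexConjugate Matrix

namespace Pool.Agent.H85.DC

/-- `3 × 3` complex matrices. -/
abbrev M3 : Type := Matrix (Fin 3) (Fin 3) ℂ

/-- Smooth off `0` and homogeneous of bidegree `(a, b)`. -/
structure Hom (a b : ℤ) (f : V → ℂ) : Prop where
  smooth : ContDiffOn ℝ ∞ f {0}ᶜ
  hom : ∀ (l : ℂ) (x : V), l ≠ 0 → f (l • x) = l ^ a * (conj l) ^ b * f x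

/-- Continuous off `0` and homogeneous of bidegree `(a, b)`. -/
structure CHom (a b : ℤ) (f : V → ℂ) : Prop where
  cont : ContinuousOn f {0}ᶜ
  hom : ∀ (l : ℂ) (x : V), l ≠ 0 → f (l • x) = l ^ a * (conj l) ^ b * f x

/-- The Gaussian weight `exp(-N x)`. -/
noncomputable def wt (x : V) : ℝ := Real.exp (-N x)

/-- Continuous complex `(1,1)`-forms on `ℙ²`. -/
structure IsForm (A : V → M3) : Prop where
  cont : ContinuousOn A {0}ᶜ
  hom : ∀ (l : ℂ) (x : V), l ≠ 0 → A (l • x) = ((Complex.normSq l : ℂ))⁻¹ • A x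
  killl : ∀ x : V, x ≠ 0 → ∀ k, ∑ j, x j * A x j k = 0
  killr : ∀ x : V, x ≠ 0 → ∀ j, ∑ k, A x j k * conj (x k) = 0

/-- Real forms. -/
def IsHerm (A : V → M3) : Prop := ∀ x : V, x ≠ 0 → (A x).IsHermitian

/-- Real functions. -/
def IsRe (u : V → ℂ) : Prop := ∀ x : V, conj (u x) = u x

/-- The wedge product of two forms: `tr A tr B - tr (A B)`. -/
noncomputable def ee (A B : M3) : ℂ := A.trace * B.trace - (A * B).trace

/-- `∫ A ∧ B` (up to a constant). -/
noncomputable def qq (A B : V → M3) : ℂ := ∫ x, ee (A x) (B x) * (wt x : ℂ)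

/-- `-∫ A ∧ B` for real forms. -/
noncomputable def nn (A B : V → M3) : ℝ := -(qq A B).re

/-- Continuous real `ddᶜ`-closed forms (in the sense of currents). -/
structure InH (A : V → M3) : Prop where
  form : IsForm A
  herm : IsHerm A
  ddc : ∀ u : V → ℂ, IsFun u → qq (L u) A = 0

/-- The Fubini-Study form `∂∂̄ log N`. -/
noncomputable def Wm (x : V) : M3 :=
  fun j k => ((if j = k then 1 else 0) - conj (x j) * x k / (N x : ℂ)) / (N x : ℂ)

/-- Continuous real `ddᶜ`-closed forms of mass zero. -/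
structure InH0 (A : V → M3) : Prop extends InH A where
  mass : qq Wm A = 0

/-- The matrix `∂_j u ∂̄_k u`. -/
noncomputable def du2 (u : V → ℂ) (x : V) : M3 := fun j k => dz j u x * dzb k u x

/-- `|∂u|²`. -/
noncomputable def gr (u : V → ℂ) (x : V) : ℝ := ∑ j, Complex.normSq (dz j u x)

/-- The squared Hilbert-Schmidt norm. -/
noncomputable def hs (A : M3) : ℝ := ∑ j, ∑ k, Complex.normSq (A j k)

/-- `|∂ζ|²`. -/
noncomputable def curl (ζ : V → V) (x : V) : ℝ :=
  ∑ j, ∑ k, Complex.normSq (dz k (fun y => ζ y j) x - dz j (fun y => ζ y k) x)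

/-- The pull back of a form by a linear map. -/
noncomputable def pull (M : M3) (A : V → M3) (y : V) : M3 :=
  Mᵀ * A (M.mulVec y) * M.map conj

/-- The measure `N⁻² e^{-N} dy`: a multiple of the Fubini-Study volume on functions of degree `0`. -/
noncomputable def nuP : Measure V :=
  (volume : Measure V).withDensity (fun y => ENNReal.ofReal (wt y / (N y) ^ 2))

/-- `v(x, y) = 1 - τ(x, y)`. -/
noncomputable def vv (x y : V) : ℝ := Complex.normSq (ip x y) / (N x * N y)

/-- The (regularised) Green potential of the function `f`. -/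
noncomputable def green (n : ℕ) (f : V → ℝ) (x : V) : ℂ :=
  ((-(Real.pi ^ 3)⁻¹ * ∑ k ∈ Finset.range n, (((k : ℝ) + 2) / ((k : ℝ) + 1)) *
    ∫ y, vv x y ^ (k + 1) * f y ∂nuP : ℝ) : ℂ)

/-- The matrix `1 + ε G`, `G i` is the `i`-th column of `G`. -/
noncomputable def mat (ε : ℝ) (G : Fin 3 → V) : M3 :=
  fun j i => (if j = i then 1 else 0) + (ε : ℂ) * G i j

/-- The standard complex Gaussian density on `3 × 3` matrices. -/
noncomputable def gau (G : Fin 3 → V) : ℝ := (Real.pi ^ 9)⁻¹ * Real.exp (-∑ i, N (G i))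

/-- The complex Gaussian density on `V` with variance parameter `ε²`. -/
noncomputable def gs (ε : ℝ) (z : V) : ℝ := ((Real.pi * ε ^ 2) ^ 3)⁻¹ * Real.exp (-N z / ε ^ 2)

/-- The average of the form `A` over the random matrices `1 + ε G`. -/
noncomputable def av (ε : ℝ) (A : V → M3) (y : V) : M3 :=
  fun j k => ∫ G : Fin 3 → V, (gau G : ℂ) * pull (mat ε G) A y j k

/-- `A_y(w, w)`. -/
noncomputable def quad (A : M3) (w : V) : ℂ := ∑ j, ∑ k, A j k * w j * conj (w k)

/-- The unit vector tangent to the foliation and orthogonal to `y` (for unit `y`). -/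
noncomputable def wv (F : Fin 3 → MvPolynomial (Fin 3) ℂ) (y : V) : V :=
  ((Real.sqrt (N (eta F y)))⁻¹ : ℂ) • (Zf F y - ip (Zf F y) y • y)

/-- The component of `w` orthogonal to `x`. -/
noncomputable def perp (x w : V) : V := w - (ip w x / (N x : ℂ)) • x

/-- The smoothing kernel as a function of `τ`. -/
noncomputable def kk (ε t : ℝ) : ℝ :=
  (1 - t + ε ^ 2) * Real.exp (-t / ε ^ 2) / (Real.pi ^ 3 * ε ^ 4)

/-- The smoothing of the directed current of `μ`. -/
noncomputable def sm (F : Fin 3 → MvPolynomial (Fin 3) ℂ) (μ : Measure V) (ε : ℝ) (x : V) : M3 :=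
  fun j k => ∫ y, ((kk ε (tau x y) / N x : ℝ) : ℂ) *
    (((N (perp x (wv F y)) + ε ^ 2 : ℝ) : ℂ) * ((if j = k then 1 else 0) - conj (x j) * x k / (N x : ℂ)) -
      conj (perp x (wv F y) j) * perp x (wv F y) k) ∂μ

/-- `t_p(x) = log (τ / (1 - τ))`, `τ = τ(x, p)`. -/
noncomputable def tt (p x : V) : ℂ := ((Real.log (tau x p / (1 - tau x p)) : ℝ) : ℂ)

/-- The annulus `ρ²/e ≤ τ/(1-τ) ≤ ρ²` around `p`. -/
def Ann (p : V) (ρ : ℝ) : Set V :=
  {x | x ≠ 0 ∧ ρ ^ 2 * Real.exp (-1) ≤ tau x p / (1 - tau x p) ∧ tau x p / (1 - tau x p) ≤ ρ ^ 2}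

/-- The singular points: unit vectors, pairwise not proportional. -/
structure SingPts (F : Fin 3 → MvPolynomial (Fin 3) ℂ) (P : Finset V) : Prop where
  unit : ∀ p ∈ P, N p = 1
  sep : ∀ p ∈ P, ∀ p' ∈ P, p ≠ p' → 0 < tau p p'
  zero : ∀ y : V, y ≠ 0 → (eta F y = 0 ↔ ∃ p ∈ P, ∃ c : ℂ, y = c • p)

/-- Unit vectors at distance at least `√r` from the singular points. -/
def Kr (P : Finset V) (r : ℝ) : Set V := {y | N y = 1 ∧ ∀ p ∈ P, r ≤ tau y p}

/-- Truncated energy. -/
noncomputable def En (μ : Measure V) (P : Finset V) (r ε : ℝ) : ℝ :=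
  ∫ y in Kr P r, ∫ y' in Kr P r, (tau y y' + ε ^ 2)⁻¹ ∂μ ∂μ

end Pool.Agent.H85.DC

end S_H85_DC_Frm

section S_H85_DC_HomA

/-!
# Row HomA: algebra of homogeneous functions, Euler identities

All functions are functions `V → ℂ`, `V = Fin 3 → ℂ`; `Hom a b f` = real smooth on `{0}ᶜ` and
`f (l • x) = l ^ a * (conj l) ^ b * f x` for all `l ≠ 0` and ALL `x` (also `x = 0`).

Proofs. Products, sums, conjugates, inverses, coordinates: immediate (`zpow_add₀`, `map_zpow₀`;
`ContDiffOn.mul`, `ContDiffOn.inv`, conjugation is a real continuous linear map `Complex.conjCLE`).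
`N x` is a sum of `x j * conj (x j)` (`Complex.mul_conj`).
Derivatives (`dz_hom`, `dzb_hom`): `{0}ᶜ` is open, so `fderiv ℝ f` is smooth on it
(`ContDiffOn.fderiv_of_isOpen`), hence `dz j f`, `dzb j f` are.  Homogeneity: for `l ≠ 0` let `m` be the
real continuous linear equivalence `x ↦ l • x` of `V`.  `f ∘ m = c • f`, `c = l ^ a * (conj l) ^ b`, so
`fderiv (f ∘ m) x = c • fderiv f x` (no differentiability needed as `c ≠ 0`; or treat the
non-differentiable case by hand, both sides are `0`) and `fderiv (f ∘ m) x = (fderiv f (m x)).comp m`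
(`ContinuousLinearEquiv.comp_right_fderiv`).  So `fderiv f (l • x) (l • v) = c * fderiv f x v` for all `v`.
Put `D = fderiv f (l • x)`: real linear, so for `l = p + i q` (p q real)
`D (l • e_j) = p D(e_j) + q D(i e_j)` and `D (l • i e_j) = p D(i e_j) - q D(e_j)` where `e_j = Pi.single j 1`,
`i e_j = Pi.single j I`; hence `l * (D e_j - i D(i e_j)) = D(l e_j) - i D(l i e_j) = c (…)`, i.e.
`l * dz j f (l • x) = c * dz j f x`, and `conj l * dzb j f (l • x) = c * dzb j f x`.
Euler (`euler`, `eulerb`), `x ≠ 0`: differentiate `s ↦ f ((1+s) • x) = (1+s)^(a+b) f x` (`s` real) and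
`s ↦ f (exp(i s) • x) = exp(i s (a-b)) f x` at `s = 0`: `D x = (a+b) f x`, `D (i x) = i (a-b) f x`, where
`D = fderiv f x`.  And `D v = ∑ j (v_j dz_j f + conj(v_j) dzb_j f)` for every `v` (`fderiv_eq`, from
`v = ∑ j (re v_j) e_j + (im v_j) i e_j`).  So with `A = ∑ x_j dz_j f`, `B = ∑ conj(x_j) dzb_j f`:
`A + B = (a+b) f`, `i A - i B = i (a-b) f`, hence `A = a f`, `B = b f`.
-/

open MeasureTheory
open scoped ContDiff BigOperators ComplexConjugate Matrix

namespace Pool.Agent.H85.DC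

theorem hom_mul {a b c d : ℤ} {f g : V → ℂ} (hf : Hom a b f) (hg : Hom c d g) :
    Hom (a + c) (b + d) (fun x => f x * g x) := by
  refine ⟨hf.smooth.mul hg.smooth, fun l x hl => ?_⟩
  have hl' : conj l ≠ 0 := (map_ne_zero _).2 hl
  rw [hf.hom l x hl, hg.hom l x hl, zpow_add₀ hl, zpow_add₀ hl']
  ring

theorem hom_add {a b : ℤ} {f g : V → ℂ} (hf : Hom a b f) (hg : Hom a b g) :
    Hom a b (fun x => f x + g x) := by
  refine ⟨hf.smooth.add hg.smooth, fun l x hl => ?_⟩
  rw [hf.hom l x hl, hg.hom l x hl]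
  ring

theorem hom_const_mul {a b : ℤ} {f : V → ℂ} (c : ℂ) (hf : Hom a b f) :
    Hom a b (fun x => c * f x) := by
  refine ⟨contDiffOn_const.mul hf.smooth, fun l x hl => ?_⟩
  rw [hf.hom l x hl]
  ring

theorem hom_neg {a b : ℤ} {f : V → ℂ} (hf : Hom a b f) : Hom a b (fun x => - f x) := by
  refine ⟨hf.smooth.neg, fun l x hl => ?_⟩
  rw [hf.hom l x hl]
  ring

theorem HomA_zero (a b : ℤ) : Hom a b (fun _ => 0) :=
  ⟨contDiffOn_const, fun l x _ => by ring⟩

theorem hom_sum {ι : Type} {a b : ℤ} (s : Finset ι) (f : ι → V → ℂ) (h : ∀ i ∈ s, Hom a b (f i)) :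
    Hom a b (fun x => ∑ i ∈ s, f i x) := by
  classical
  induction s using Finset.induction_on with
  | empty =>
    simp only [Finset.sum_empty]
    exact HomA_zero a b
  | insert i s hi ih =>
    simp only [Finset.sum_insert hi]
    exact hom_add (h i (Finset.mem_insert_self i s))
      (ih fun j hj => h j (Finset.mem_insert_of_mem hj))

theorem hom_const (c : ℂ) : Hom 0 0 (fun _ => c) :=
  ⟨contDiffOn_const, fun l x _ => by simp⟩

theorem hom_conj {a b : ℤ} {f : V → ℂ} (hf : Hom a b f) : Hom b a (fun x => conj (f x)) := by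
  refine ⟨Complex.conjCLE.contDiff.comp_contDiffOn hf.smooth, fun l x hl => ?_⟩
  rw [hf.hom l x hl, map_mul, map_mul, map_zpow₀, map_zpow₀, Complex.conj_conj]
  ring

theorem hom_inv {a b : ℤ} {f : V → ℂ} (hf : Hom a b f) (h0 : ∀ x, x ≠ 0 → f x ≠ 0) :
    Hom (-a) (-b) (fun x => (f x)⁻¹) := by
  refine ⟨hf.smooth.inv fun x hx => h0 x hx, fun l x hl => ?_⟩
  rw [hf.hom l x hl, mul_inv, mul_inv, zpow_neg, zpow_neg]

theorem hom_pow {a b : ℤ} {f : V → ℂ} (n : ℕ) (hf : Hom a b f) :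
    Hom (n * a) (n * b) (fun x => f x ^ n) := by
  refine ⟨hf.smooth.pow n, fun l x hl => ?_⟩
  rw [hf.hom l x hl, mul_pow, mul_pow, mul_comm (n : ℤ) a, mul_comm (n : ℤ) b, zpow_mul, zpow_mul,
    zpow_natCast, zpow_natCast]

theorem hom_coord (k : Fin 3) : Hom 1 0 (fun x => x k) := by
  refine ⟨(contDiff_apply ℝ ℂ k).contDiffOn, fun l x _ => ?_⟩
  simp

theorem hom_conj_coord (k : Fin 3) : Hom 0 1 (fun x => conj (x k)) := hom_conj (hom_coord k)

theorem N_nonneg (x : V) : 0 ≤ N x := Finset.sum_nonneg fun j _ => Complex.normSq_nonneg (x j)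

theorem N_pos {x : V} (hx : x ≠ 0) : 0 < N x := by
  obtain ⟨j, hj⟩ : ∃ j, x j ≠ 0 := by
    by_contra h
    push Not at h
    exact hx (funext h)
  exact Finset.sum_pos' (fun i _ => Complex.normSq_nonneg (x i))
    ⟨j, Finset.mem_univ j, Complex.normSq_pos.2 hj⟩

theorem N_smul (l : ℂ) (x : V) : N (l • x) = Complex.normSq l * N x := by
  unfold N
  rw [Finset.mul_sum]
  refine Finset.sum_congr rfl fun j _ => ?_
  rw [Pi.smul_apply, smul_eq_mul, map_mul]

theorem HomA_N (x : V) : (N x : ℂ) = ∑ j, x j * conj (x j) := by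
  unfold N
  push_cast
  exact Finset.sum_congr rfl fun j _ => (Complex.mul_conj (x j)).symm

theorem hom_N : Hom 1 1 (fun x => (N x : ℂ)) := by
  have h : (fun x : V => (N x : ℂ)) = fun x => ∑ j, x j * conj (x j) := by
    funext x
    exact HomA_N x
  rw [h]
  refine hom_sum Finset.univ _ fun j _ => ?_
  have h1 := hom_mul (hom_coord j) (hom_conj_coord j)
  simpa using h1

theorem hom_Ninv : Hom (-1) (-1) (fun x => ((N x : ℂ))⁻¹) :=
  hom_inv hom_N fun x hx => by exact_mod_cast (N_pos hx).ne'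

theorem HomA_conj (z : ℂ) : conj z = z.re - z.im * Complex.I :=
  Complex.ext (by simp) (by simp)

theorem HomA_single (D : V →L[ℝ] ℂ) (j : Fin 3) (z : ℂ) :
    D (Pi.single j z) = z.re * D (Pi.single j 1) + z.im * D (Pi.single j Complex.I) := by
  have h : (Pi.single j z : V) = z.re • (Pi.single j 1 : V) + z.im • (Pi.single j Complex.I : V) := by
    ext k
    by_cases hk : k = j
    · subst hk
      simp
    · simp [Pi.single_eq_of_ne hk]
  rw [h, map_add, map_smul, map_smul, Complex.real_smul, Complex.real_smul]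

/-- The differential in terms of the Wirtinger derivatives (no hypothesis needed). -/
theorem fderiv_eq (f : V → ℂ) (x v : V) :
    fderiv ℝ f x v = ∑ j, (v j * dz j f x + conj (v j) * dzb j f x) := by
  have h : v = ∑ j, (Pi.single j (v j) : V) := (Finset.univ_sum_single v).symm
  conv_lhs => rw [h]
  rw [map_sum]
  refine Finset.sum_congr rfl fun j _ => ?_
  rw [HomA_single]
  unfold dz dzb
  have h1 : (v j) = (v j).re + (v j).im * Complex.I := (Complex.re_add_im _).symm
  have h2 : conj (v j) = (v j).re - (v j).im * Complex.I := HomA_conj (v j)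
  rw [h2]
  generalize fderiv ℝ f x (Pi.single j 1) = P
  generalize fderiv ℝ f x (Pi.single j Complex.I) = Q
  have h3 : v j * ((P - Complex.I * Q) / 2) =
      ((v j).re + (v j).im * Complex.I) * ((P - Complex.I * Q) / 2) := by rw [← h1]
  rw [h3]
  have hI : Complex.I * Complex.I = -1 := Complex.I_mul_I
  linear_combination (((v j).im : ℂ) * Q) * hI

/-- homogeneity of the differential -/
theorem HomA_fderiv {a b : ℤ} {f : V → ℂ} (hf : Hom a b f) {l : ℂ} (hl : l ≠ 0) (x v : V) :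
    fderiv ℝ f (l • x) (l • v) = l ^ a * (conj l) ^ b * fderiv ℝ f x v := by
  obtain ⟨m, hm⟩ : ∃ m : V ≃L[ℝ] V, ∀ x, m x = l • x := by
    refine ⟨(ContinuousLinearEquiv.smulLeft (R₁ := ℂ) (M₁ := V) (Units.mk0 l hl)).restrictScalars ℝ,
      fun x => rfl⟩
  have h1 : f ∘ m = (l ^ a * (conj l) ^ b) • f := by
    funext y
    rw [Function.comp_apply, hm, hf.hom l y hl, Pi.smul_apply, smul_eq_mul]
  have h2 := m.comp_right_fderiv (f := f) (x := x)
  rw [h1, fderiv_const_smul_field] at h2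
  have h3 := congrArg (fun T : V →L[ℝ] ℂ => T v) h2
  simp only [Pi.smul_apply, smul_apply, smul_eq_mul,
    ContinuousLinearMap.comp_apply, ContinuousLinearEquiv.coe_coe, hm] at h3
  exact h3.symm

theorem HomA_open : IsOpen ({0}ᶜ : Set V) := isOpen_compl_singleton

theorem HomA_smooth {a b : ℤ} {f : V → ℂ} (hf : Hom a b f) (v : V) :
    ContDiffOn ℝ ∞ (fun x => fderiv ℝ f x v) {0}ᶜ :=
  (hf.smooth.fderiv_of_isOpen (m := ∞) HomA_open (by simp)).clm_apply contDiffOn_const

theorem HomA_smul_single (l : ℂ) (j : Fin 3) (z : ℂ) :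
    l • (Pi.single j z : V) = Pi.single j (l * z) := by
  ext k
  by_cases hk : k = j
  · subst hk
    simp
  · simp [Pi.single_eq_of_ne hk]

theorem dz_hom {a b : ℤ} {f : V → ℂ} (j : Fin 3) (hf : Hom a b f) : Hom (a - 1) b (dz j f) := by
  refine ⟨?_, fun l x hl => ?_⟩
  · unfold dz
    exact ((HomA_smooth hf _).sub (contDiffOn_const.mul (HomA_smooth hf _))).div_const 2
  · have h1 := HomA_fderiv hf hl x (Pi.single j 1)
    have h2 := HomA_fderiv hf hl x (Pi.single j Complex.I)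
    rw [HomA_smul_single, HomA_single] at h1 h2
    have h3 : l * dz j f (l • x) = l ^ a * (conj l) ^ b * dz j f x := by
      unfold dz
      have hl1 : l = l.re + l.im * Complex.I := (Complex.re_add_im _).symm
      have e1 : (l * 1).re = l.re := by simp
      have e2 : (l * 1).im = l.im := by simp
      have e3 : (l * Complex.I).re = - l.im := by simp
      have e4 : (l * Complex.I).im = l.re := by simp
      rw [e1, e2] at h1
      rw [e3, e4] at h2
      push_cast at h2
      have hI : Complex.I * Complex.I = -1 := Complex.I_mul_I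
      have h5 : l * ((fderiv ℝ f (l • x) (Pi.single j 1) -
          Complex.I * fderiv ℝ f (l • x) (Pi.single j Complex.I)) / 2) =
          (l.re + l.im * Complex.I) * ((fderiv ℝ f (l • x) (Pi.single j 1) -
          Complex.I * fderiv ℝ f (l • x) (Pi.single j Complex.I)) / 2) := by rw [← hl1]
      rw [h5]
      linear_combination (1 / 2) * h1 - Complex.I / 2 * h2 -
        (l.im : ℂ) / 2 * fderiv ℝ f (l • x) (Pi.single j Complex.I) * hI
    rw [zpow_sub_one₀ hl]
    field_simp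
    linear_combination h3

theorem dzb_hom {a b : ℤ} {f : V → ℂ} (j : Fin 3) (hf : Hom a b f) : Hom a (b - 1) (dzb j f) := by
  refine ⟨?_, fun l x hl => ?_⟩
  · unfold dzb
    exact ((HomA_smooth hf _).add (contDiffOn_const.mul (HomA_smooth hf _))).div_const 2
  · have hl' : conj l ≠ 0 := (map_ne_zero _).2 hl
    have h1 := HomA_fderiv hf hl x (Pi.single j 1)
    have h2 := HomA_fderiv hf hl x (Pi.single j Complex.I)
    rw [HomA_smul_single, HomA_single] at h1 h2
    have h3 : conj l * dzb j f (l • x) = l ^ a * (conj l) ^ b * dzb j f x := by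
      unfold dzb
      have hl1 : conj l = l.re - l.im * Complex.I := HomA_conj l
      have e1 : (l * 1).re = l.re := by simp
      have e2 : (l * 1).im = l.im := by simp
      have e3 : (l * Complex.I).re = - l.im := by simp
      have e4 : (l * Complex.I).im = l.re := by simp
      rw [e1, e2] at h1
      rw [e3, e4] at h2
      push_cast at h2
      have hI : Complex.I * Complex.I = -1 := Complex.I_mul_I
      have h5 : conj l * ((fderiv ℝ f (l • x) (Pi.single j 1) +
          Complex.I * fderiv ℝ f (l • x) (Pi.single j Complex.I)) / 2) =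
          (l.re - l.im * Complex.I) * ((fderiv ℝ f (l • x) (Pi.single j 1) +
          Complex.I * fderiv ℝ f (l • x) (Pi.single j Complex.I)) / 2) := by rw [← hl1]
      rw [h5]
      linear_combination (1 / 2) * h1 + Complex.I / 2 * h2 -
        (l.im : ℂ) / 2 * fderiv ℝ f (l • x) (Pi.single j Complex.I) * hI
    rw [zpow_sub_one₀ hl']
    field_simp
    linear_combination h3

theorem Hom.diffAt {a b : ℤ} {f : V → ℂ} (hf : Hom a b f) {x : V} (hx : x ≠ 0) :
    DifferentiableAt ℝ f x :=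
  (hf.smooth.contDiffAt (HomA_open.mem_nhds hx)).differentiableAt (by simp)

/-- the derivative in complex scalar directions -/
theorem HomA_euler {a b : ℤ} {f : V → ℂ} (hf : Hom a b f) {x : V} (hx : x ≠ 0) (w : ℂ) :
    fderiv ℝ f x (w • x) = (a * w + b * conj w) * f x := by
  have h1 : HasDerivAt (fun s : ℝ => Complex.exp ((s : ℂ) * w)) w 0 := by
    have h2 : HasDerivAt (fun s : ℝ => (s : ℂ) * w) (1 * w) 0 :=
      (Complex.ofRealCLM.hasDerivAt (x := (0 : ℝ))).mul_const w
    have h3 := h2.cexp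
    simpa using h3
  have h2 : HasDerivAt (fun s : ℝ => Complex.exp ((s : ℂ) * w) • x) (w • x) 0 := h1.smul_const x
  have h0 : Complex.exp (((0 : ℝ) : ℂ) * w) • x = x := by simp
  have h3 : HasFDerivAt f (fderiv ℝ f x) (Complex.exp (((0 : ℝ) : ℂ) * w) • x) := by
    rw [h0]
    exact (hf.diffAt hx).hasFDerivAt
  have h4 : HasDerivAt (fun s : ℝ => f (Complex.exp ((s : ℂ) * w) • x)) (fderiv ℝ f x (w • x)) 0 :=
    h3.comp_hasDerivAt 0 h2
  have h5 : (fun s : ℝ => f (Complex.exp ((s : ℂ) * w) • x)) =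
      fun s : ℝ => Complex.exp ((s : ℂ) * (a * w + b * conj w)) * f x := by
    funext s
    rw [hf.hom _ x (Complex.exp_ne_zero _), ← Complex.exp_conj, ← Complex.exp_int_mul,
      ← Complex.exp_int_mul, ← Complex.exp_add]
    congr 2
    rw [map_mul, Complex.conj_ofReal]
    ring
  have h6 : HasDerivAt (fun s : ℝ => Complex.exp ((s : ℂ) * (a * w + b * conj w)) * f x)
      ((a * w + b * conj w) * f x) 0 := by
    have h7 : HasDerivAt (fun s : ℝ => (s : ℂ) * (a * w + b * conj w)) (1 * (a * w + b * conj w)) 0 :=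
      (Complex.ofRealCLM.hasDerivAt (x := (0 : ℝ))).mul_const _
    have h8 := h7.cexp.mul_const (f x)
    simpa using h8
  rw [h5] at h4
  exact h4.unique h6

theorem HomA_two {a b : ℤ} {f : V → ℂ} (hf : Hom a b f) {x : V} (hx : x ≠ 0) (w : ℂ) :
    w * ∑ j, x j * dz j f x + conj w * ∑ j, conj (x j) * dzb j f x =
      (a * w + b * conj w) * f x := by
  rw [← HomA_euler hf hx w, fderiv_eq, Finset.mul_sum, Finset.mul_sum, ← Finset.sum_add_distrib]
  refine Finset.sum_congr rfl fun j _ => ?_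
  rw [Pi.smul_apply, smul_eq_mul, map_mul]
  ring

theorem euler {a b : ℤ} {f : V → ℂ} (hf : Hom a b f) {x : V} (hx : x ≠ 0) :
    ∑ j, x j * dz j f x = a * f x := by
  have h1 := HomA_two hf hx 1
  have h2 := HomA_two hf hx Complex.I
  rw [map_one] at h1
  rw [Complex.conj_I] at h2
  have hI : Complex.I * Complex.I = -1 := Complex.I_mul_I
  linear_combination (1 / 2) * h1 - Complex.I / 2 * h2 +
    (1 / 2) * (∑ j, x j * dz j f x - ∑ j, conj (x j) * dzb j f x - (a - b) * f x) * hI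

theorem eulerb {a b : ℤ} {f : V → ℂ} (hf : Hom a b f) {x : V} (hx : x ≠ 0) :
    ∑ j, conj (x j) * dzb j f x = b * f x := by
  have h1 := HomA_two hf hx 1
  have h3 := euler hf hx
  rw [map_one] at h1
  linear_combination h1 - h3

theorem Hom.chom {a b : ℤ} {f : V → ℂ} (hf : Hom a b f) : CHom a b f := ⟨hf.smooth.continuousOn, hf.hom⟩

theorem isFun_iff {u : V → ℂ} : IsFun u ↔ Hom 0 0 u := by
  constructor
  · intro h
    exact ⟨h.smooth, fun l x hl => by rw [h.hom l x hl]; simp⟩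
  · intro h
    exact ⟨h.smooth, fun l x hl => by rw [h.hom l x hl]; simp⟩

theorem isCov_hom {ζ : V → V} (hζ : IsCov ζ) (j : Fin 3) : Hom (-1) 0 (fun x => ζ x j) := by
  refine ⟨contDiffOn_pi.1 hζ.smooth j, fun l x hl => ?_⟩
  simp only [hζ.hom l x hl, Pi.smul_apply, smul_eq_mul, zpow_neg, zpow_one, zpow_zero, mul_one]

end Pool.Agent.H85.DC

end S_H85_DC_HomA

section S_H85_DC_HomB

/-!
# Row HomB: rules for the Wirtinger derivatives

Everything unfolds to `fderiv ℝ` evaluated at `Pi.single j 1`, `Pi.single j Complex.I`.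
Products: `fderiv_mul` (or `HasFDerivAt.mul'`), then `ring`. Sums: `fderiv_add`, `fderiv_sum`. Constants:
`fderiv_const_mul` needs differentiability; for `dz_const_mul` and `dzb_const_mul` we assume it.
Conjugation: `Complex.conjCLE` is a continuous real linear equivalence, `conj ∘ f` has derivative
`conjCLE.comp (fderiv f x)` without any hypothesis (`ContinuousLinearEquiv.comp_fderiv`).
Coordinates are real continuous linear maps: `fderiv = itself`. `N y = ∑ y_j conj(y_j)` (as a complex number,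
`Complex.mul_conj`).
Commutation: `f` is smooth near `x` (`{0}ᶜ` open), so the second derivative is symmetric
(`ContDiffAt.isSymmSndFDerivAt` or `second_derivative_symmetric`), and `fderiv (fun y => fderiv f y v) x w =
fderiv (fderiv f) x w v`; expand both sides bilinearly.
Chain rules: `HasDerivAt.comp_hasFDerivAt` (one real variable outside; note `fderiv (fun y => ((u y : ℝ) : ℂ)) x v =
((fderiv u x v : ℝ) : ℂ)`), and for the linear map `y ↦ M.mulVec y`:
`fderiv (f ∘ M) x v = fderiv f (M x) (M v)`; write `fderiv f z w = ∑ k (w_k dz_k f z + conj(w_k) dzb_k f z)`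
(prove this here if needed, or import HomA: `fderiv_eq`), with `w = M.mulVec (Pi.single j 1)` resp.
`w = M.mulVec (Pi.single j I)`, `w_k = M k j` resp. `I * M k j`.
You may import HomA.
-/

open MeasureTheory
open scoped ContDiff BigOperators ComplexConjugate Matrix

namespace Pool.Agent.H85.DC

theorem HomB_dz {j : Fin 3} {f : V → ℂ} {x : V} {D : V →L[ℝ] ℂ} (h : HasFDerivAt f D x) :
    dz j f x = (D (Pi.single j 1) - Complex.I * D (Pi.single j Complex.I)) / 2 := by
  unfold dz; rw [h.fderiv]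

theorem HomB_dzb {j : Fin 3} {f : V → ℂ} {x : V} {D : V →L[ℝ] ℂ} (h : HasFDerivAt f D x) :
    dzb j f x = (D (Pi.single j 1) + Complex.I * D (Pi.single j Complex.I)) / 2 := by
  unfold dzb; rw [h.fderiv]

theorem HomB_mul_f {f g : V → ℂ} {x : V} (hf : DifferentiableAt ℝ f x)
    (hg : DifferentiableAt ℝ g x) (v : V) :
    fderiv ℝ (fun y => f y * g y) x v = fderiv ℝ f x v * g x + f x * fderiv ℝ g x v := by
  rw [fderiv_fun_mul hf hg]
  simp only [ContinuousLinearMap.add_apply, ContinuousLinearMap.smul_apply, smul_eq_mul]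
  ring

theorem dz_mul (j : Fin 3) {f g : V → ℂ} {x : V} (hf : DifferentiableAt ℝ f x)
    (hg : DifferentiableAt ℝ g x) :
    dz j (fun y => f y * g y) x = dz j f x * g x + f x * dz j g x := by
  unfold dz
  rw [HomB_mul_f hf hg, HomB_mul_f hf hg]
  ring

theorem dzb_mul (j : Fin 3) {f g : V → ℂ} {x : V} (hf : DifferentiableAt ℝ f x)
    (hg : DifferentiableAt ℝ g x) :
    dzb j (fun y => f y * g y) x = dzb j f x * g x + f x * dzb j g x := by
  unfold dzb
  rw [HomB_mul_f hf hg, HomB_mul_f hf hg]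
  ring

theorem dz_add (j : Fin 3) {f g : V → ℂ} {x : V} (hf : DifferentiableAt ℝ f x)
    (hg : DifferentiableAt ℝ g x) :
    dz j (fun y => f y + g y) x = dz j f x + dz j g x := by
  rw [HomB_dz (hf.hasFDerivAt.fun_add hg.hasFDerivAt)]
  unfold dz
  simp only [ContinuousLinearMap.add_apply]
  ring

theorem dzb_add (j : Fin 3) {f g : V → ℂ} {x : V} (hf : DifferentiableAt ℝ f x)
    (hg : DifferentiableAt ℝ g x) :
    dzb j (fun y => f y + g y) x = dzb j f x + dzb j g x := by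
  rw [HomB_dzb (hf.hasFDerivAt.fun_add hg.hasFDerivAt)]
  unfold dzb
  simp only [ContinuousLinearMap.add_apply]
  ring

theorem dz_const_mul (j : Fin 3) (c : ℂ) {f : V → ℂ} {x : V} (hf : DifferentiableAt ℝ f x) :
    dz j (fun y => c * f y) x = c * dz j f x := by
  rw [HomB_dz (hf.hasFDerivAt.const_mul c)]
  unfold dz
  simp only [ContinuousLinearMap.smul_apply, smul_eq_mul]
  ring

theorem dzb_const_mul (j : Fin 3) (c : ℂ) {f : V → ℂ} {x : V} (hf : DifferentiableAt ℝ f x) :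
    dzb j (fun y => c * f y) x = c * dzb j f x := by
  rw [HomB_dzb (hf.hasFDerivAt.const_mul c)]
  unfold dzb
  simp only [ContinuousLinearMap.smul_apply, smul_eq_mul]
  ring

theorem HomB_sum_f {ι : Type} (s : Finset ι) (f : ι → V → ℂ) {x : V}
    (hf : ∀ i ∈ s, DifferentiableAt ℝ (f i) x) (v : V) :
    fderiv ℝ (fun y => ∑ i ∈ s, f i y) x v = ∑ i ∈ s, fderiv ℝ (f i) x v := by
  rw [fderiv_fun_sum hf, ContinuousLinearMap.sum_apply]

theorem dz_sum (j : Fin 3) {ι : Type} (s : Finset ι) (f : ι → V → ℂ) {x : V}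
    (hf : ∀ i ∈ s, DifferentiableAt ℝ (f i) x) :
    dz j (fun y => ∑ i ∈ s, f i y) x = ∑ i ∈ s, dz j (f i) x := by
  unfold dz
  rw [HomB_sum_f s f hf, HomB_sum_f s f hf, Finset.mul_sum, ← Finset.sum_sub_distrib,
    Finset.sum_div]

theorem dzb_sum (j : Fin 3) {ι : Type} (s : Finset ι) (f : ι → V → ℂ) {x : V}
    (hf : ∀ i ∈ s, DifferentiableAt ℝ (f i) x) :
    dzb j (fun y => ∑ i ∈ s, f i y) x = ∑ i ∈ s, dzb j (f i) x := by
  unfold dzb
  rw [HomB_sum_f s f hf, HomB_sum_f s f hf, Finset.mul_sum, ← Finset.sum_add_distrib,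
    Finset.sum_div]

theorem dz_const (j : Fin 3) (c : ℂ) (x : V) : dz j (fun _ => c) x = 0 := by
  rw [HomB_dz (hasFDerivAt_const c x)]
  simp

theorem dzb_const (j : Fin 3) (c : ℂ) (x : V) : dzb j (fun _ => c) x = 0 := by
  rw [HomB_dzb (hasFDerivAt_const c x)]
  simp

theorem HomB_coord (k : Fin 3) (x : V) :
    HasFDerivAt (fun y : V => y k) (ContinuousLinearMap.proj (R := ℝ) (φ := fun _ : Fin 3 => ℂ) k) x :=
  (ContinuousLinearMap.proj (R := ℝ) (φ := fun _ : Fin 3 => ℂ) k).hasFDerivAt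

theorem HomB_conj {f : V → ℂ} {x : V} {D : V →L[ℝ] ℂ} (h : HasFDerivAt f D x) :
    HasFDerivAt (fun y : V => conj (f y)) ((Complex.conjCLE : ℂ →L[ℝ] ℂ).comp D) x :=
  (Complex.conjCLE : ℂ →L[ℝ] ℂ).hasFDerivAt.comp x h

theorem HomB_single (j k : Fin 3) (a : ℂ) :
    (Pi.single j a : V) k = if j = k then a else 0 := by
  rw [Pi.single_apply]
  by_cases h : j = k
  · rw [if_pos h, if_pos h.symm]
  · rw [if_neg h, if_neg (Ne.symm h)]

theorem dz_coord (j k : Fin 3) (x : V) : dz j (fun y => y k) x = if j = k then 1 else 0 := by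
  rw [HomB_dz (HomB_coord k x)]
  simp only [ContinuousLinearMap.proj_apply, HomB_single]
  split_ifs
  · rw [Complex.I_mul_I]; norm_num
  · norm_num

theorem dzb_coord (j k : Fin 3) (x : V) : dzb j (fun y => y k) x = 0 := by
  rw [HomB_dzb (HomB_coord k x)]
  simp only [ContinuousLinearMap.proj_apply, HomB_single]
  split_ifs
  · rw [Complex.I_mul_I]; norm_num
  · norm_num

theorem dz_conj_coord (j k : Fin 3) (x : V) : dz j (fun y => conj (y k)) x = 0 := by
  rw [HomB_dz (HomB_conj (HomB_coord k x))]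
  show (conj ((Pi.single j (1 : ℂ) : V) k) - Complex.I * conj ((Pi.single j Complex.I : V) k)) / 2 = 0
  rw [HomB_single, HomB_single]
  split_ifs
  · rw [map_one, Complex.conj_I, mul_neg, Complex.I_mul_I]; norm_num
  · rw [map_zero]; norm_num

theorem dzb_conj_coord (j k : Fin 3) (x : V) :
    dzb j (fun y => conj (y k)) x = if j = k then 1 else 0 := by
  rw [HomB_dzb (HomB_conj (HomB_coord k x))]
  show (conj ((Pi.single j (1 : ℂ) : V) k) + Complex.I * conj ((Pi.single j Complex.I : V) k)) / 2 = _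
  rw [HomB_single, HomB_single]
  split_ifs
  · rw [map_one, Complex.conj_I, mul_neg, Complex.I_mul_I]; norm_num
  · rw [map_zero]; norm_num

theorem HomB_conj_f (f : V → ℂ) (x v : V) :
    fderiv ℝ (fun y => conj (f y)) x v = conj (fderiv ℝ f x v) := by
  have h := Complex.conjCLE.comp_fderiv (f := f) (x := x)
  have h2 : fderiv ℝ (fun y => conj (f y)) x = (Complex.conjCLE : ℂ →L[ℝ] ℂ).comp (fderiv ℝ f x) := h
  rw [h2]
  rfl

theorem conj_dz (j : Fin 3) (f : V → ℂ) (x : V) :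
    conj (dz j f x) = dzb j (fun y => conj (f y)) x := by
  unfold dz dzb
  rw [HomB_conj_f, HomB_conj_f, map_div₀, map_sub, map_mul, Complex.conj_I, map_ofNat]
  ring

theorem conj_dzb (j : Fin 3) (f : V → ℂ) (x : V) :
    conj (dzb j f x) = dz j (fun y => conj (f y)) x := by
  unfold dz dzb
  rw [HomB_conj_f, HomB_conj_f, map_div₀, map_add, map_mul, Complex.conj_I, map_ofNat]
  ring

theorem HomB_N (y : V) : (N y : ℂ) = ∑ k ∈ (Finset.univ : Finset (Fin 3)), y k * conj (y k) := by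
  unfold N
  push_cast
  exact Finset.sum_congr rfl fun j _ => (Complex.mul_conj (y j)).symm

theorem HomB_diff_mul (k : Fin 3) (x : V) : DifferentiableAt ℝ (fun y : V => y k * conj (y k)) x :=
  ((HomB_coord k x).mul (HomB_conj (HomB_coord k x))).differentiableAt

theorem dz_N (j : Fin 3) (x : V) : dz j (fun y => (N y : ℂ)) x = conj (x j) := by
  have h : (fun y : V => (N y : ℂ)) = fun y => ∑ k ∈ (Finset.univ : Finset (Fin 3)), y k * conj (y k) :=
    funext HomB_N
  rw [h, dz_sum j _ (fun k (y : V) => y k * conj (y k)) fun k _ => HomB_diff_mul k x]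
  have h2 : ∀ k, dz j (fun y : V => y k * conj (y k)) x = if j = k then conj (x k) else 0 := by
    intro k
    rw [dz_mul j (HomB_coord k x).differentiableAt (HomB_conj (HomB_coord k x)).differentiableAt,
      dz_coord, dz_conj_coord]
    split_ifs <;> ring
  simp only [h2]
  rw [Finset.sum_ite_eq Finset.univ j, if_pos (Finset.mem_univ j)]

theorem dzb_N (j : Fin 3) (x : V) : dzb j (fun y => (N y : ℂ)) x = x j := by
  have h : (fun y : V => (N y : ℂ)) = fun y => ∑ k ∈ (Finset.univ : Finset (Fin 3)), y k * conj (y k) :=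
    funext HomB_N
  rw [h, dzb_sum j _ (fun k (y : V) => y k * conj (y k)) fun k _ => HomB_diff_mul k x]
  have h2 : ∀ k, dzb j (fun y : V => y k * conj (y k)) x = if j = k then x k else 0 := by
    intro k
    rw [dzb_mul j (HomB_coord k x).differentiableAt (HomB_conj (HomB_coord k x)).differentiableAt,
      dzb_coord, dzb_conj_coord]
    split_ifs <;> ring
  simp only [h2]
  rw [Finset.sum_ite_eq Finset.univ j, if_pos (Finset.mem_univ j)]

theorem HomB_inv_f {f : V → ℂ} {x : V} (hf : DifferentiableAt ℝ f x) (h0 : f x ≠ 0) (v : V) :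
    fderiv ℝ (fun y => (f y)⁻¹) x v = - fderiv ℝ f x v / (f x) ^ 2 := by
  have h1 : HasDerivAt (fun z : ℂ => z⁻¹) (-(f x ^ 2)⁻¹) (f x) := hasDerivAt_inv h0
  have h2 := (h1.hasFDerivAt.restrictScalars ℝ).comp x hf.hasFDerivAt
  have h3 : fderiv ℝ (fun y => (f y)⁻¹) x = _ := h2.fderiv
  rw [h3]
  show (fderiv ℝ f x v) • (-(f x ^ 2)⁻¹) = _
  rw [smul_eq_mul, div_eq_mul_inv]
  ring

theorem dz_inv (j : Fin 3) {f : V → ℂ} {x : V} (hf : DifferentiableAt ℝ f x) (h0 : f x ≠ 0) :
    dz j (fun y => (f y)⁻¹) x = - dz j f x / (f x) ^ 2 := by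
  unfold dz
  rw [HomB_inv_f hf h0, HomB_inv_f hf h0]
  ring

theorem dzb_inv (j : Fin 3) {f : V → ℂ} {x : V} (hf : DifferentiableAt ℝ f x) (h0 : f x ≠ 0) :
    dzb j (fun y => (f y)⁻¹) x = - dzb j f x / (f x) ^ 2 := by
  unfold dzb
  rw [HomB_inv_f hf h0, HomB_inv_f hf h0]
  ring

theorem HomB_diff {f : V → ℂ} {x : V} (hf : ContDiffOn ℝ ∞ f {0}ᶜ) (hx : x ≠ 0) :
    DifferentiableAt ℝ (fderiv ℝ f) x := by
  have h1 : ContDiffAt ℝ ∞ f x := hf.contDiffAt (isOpen_compl_singleton.mem_nhds hx)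
  have h2 : ContDiffAt ℝ 1 (fderiv ℝ f) x := h1.fderiv_right (m := 1) (by norm_cast)
  exact h2.differentiableAt (by norm_num)

theorem HomB_symm {f : V → ℂ} {x : V} (hf : ContDiffOn ℝ ∞ f {0}ᶜ) (hx : x ≠ 0) (v w : V) :
    fderiv ℝ (fderiv ℝ f) x v w = fderiv ℝ (fderiv ℝ f) x w v := by
  have h1 : ContDiffAt ℝ ∞ f x := hf.contDiffAt (isOpen_compl_singleton.mem_nhds hx)
  have h2 : IsSymmSndFDerivAt ℝ f x := h1.isSymmSndFDerivAt (by
    rw [minSmoothness_of_isRCLikeNormedField]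
    norm_cast)
  exact h2 v w

theorem HomB_snd {f : V → ℂ} {x : V} (hD : DifferentiableAt ℝ (fderiv ℝ f) x) (c : ℂ) (a b v : V) :
    fderiv ℝ (fun y => (fderiv ℝ f y a + c * fderiv ℝ f y b) / 2) x v
      = (fderiv ℝ (fderiv ℝ f) x v a + c * fderiv ℝ (fderiv ℝ f) x v b) / 2 := by
  have h1 : ∀ w : V, HasFDerivAt (fun y => fderiv ℝ f y w)
      ((ContinuousLinearMap.apply ℝ ℂ w).comp (fderiv ℝ (fderiv ℝ f) x)) x := fun w =>
    (ContinuousLinearMap.apply ℝ ℂ w).hasFDerivAt.comp x hD.hasFDerivAt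
  have h2 := (((h1 a).fun_add ((h1 b).const_mul c)).mul_const ((2 : ℂ)⁻¹))
  have h3 : (fun y => (fderiv ℝ f y a + c * fderiv ℝ f y b) / 2)
      = fun y => (fderiv ℝ f y a + c * fderiv ℝ f y b) * (2 : ℂ)⁻¹ := by
    funext y; rw [div_eq_mul_inv]
  rw [h3, h2.fderiv]
  simp only [ContinuousLinearMap.smul_apply, ContinuousLinearMap.add_apply, smul_eq_mul,
    ContinuousLinearMap.comp_apply, ContinuousLinearMap.apply_apply]
  ring

theorem HomB_dz_fun (k : Fin 3) (f : V → ℂ) : dz k f = fun y =>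
    (fderiv ℝ f y (Pi.single k 1) + (-Complex.I) * fderiv ℝ f y (Pi.single k Complex.I)) / 2 := by
  funext y
  unfold dz
  ring

theorem HomB_dzb_fun (k : Fin 3) (f : V → ℂ) : dzb k f = fun y =>
    (fderiv ℝ f y (Pi.single k 1) + Complex.I * fderiv ℝ f y (Pi.single k Complex.I)) / 2 := rfl

theorem dz_dzb_comm (j k : Fin 3) {f : V → ℂ} {x : V} (hf : ContDiffOn ℝ ∞ f {0}ᶜ) (hx : x ≠ 0) :
    dz j (dzb k f) x = dzb k (dz j f) x := by
  have hD := HomB_diff hf hx
  rw [HomB_dz_fun j (dzb k f), HomB_dzb_fun k (dz j f)]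
  show (fderiv ℝ (dzb k f) x (Pi.single j 1) + (-Complex.I) *
      fderiv ℝ (dzb k f) x (Pi.single j Complex.I)) / 2 =
    (fderiv ℝ (dz j f) x (Pi.single k 1) + Complex.I * fderiv ℝ (dz j f) x (Pi.single k Complex.I)) / 2
  rw [HomB_dz_fun j f, HomB_dzb_fun k f, HomB_snd hD, HomB_snd hD, HomB_snd hD, HomB_snd hD,
    HomB_symm hf hx (Pi.single j 1) (Pi.single k 1),
    HomB_symm hf hx (Pi.single j 1) (Pi.single k Complex.I),
    HomB_symm hf hx (Pi.single j Complex.I) (Pi.single k 1),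
    HomB_symm hf hx (Pi.single j Complex.I) (Pi.single k Complex.I)]
  ring

theorem dz_dz_comm (j k : Fin 3) {f : V → ℂ} {x : V} (hf : ContDiffOn ℝ ∞ f {0}ᶜ) (hx : x ≠ 0) :
    dz j (dz k f) x = dz k (dz j f) x := by
  have hD := HomB_diff hf hx
  rw [HomB_dz_fun j (dz k f), HomB_dz_fun k (dz j f)]
  show (fderiv ℝ (dz k f) x (Pi.single j 1) + (-Complex.I) *
      fderiv ℝ (dz k f) x (Pi.single j Complex.I)) / 2 =
    (fderiv ℝ (dz j f) x (Pi.single k 1) + (-Complex.I) * fderiv ℝ (dz j f) x (Pi.single k Complex.I)) / 2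
  rw [HomB_dz_fun j f, HomB_dz_fun k f, HomB_snd hD, HomB_snd hD, HomB_snd hD, HomB_snd hD,
    HomB_symm hf hx (Pi.single j 1) (Pi.single k 1),
    HomB_symm hf hx (Pi.single j 1) (Pi.single k Complex.I),
    HomB_symm hf hx (Pi.single j Complex.I) (Pi.single k 1),
    HomB_symm hf hx (Pi.single j Complex.I) (Pi.single k Complex.I)]
  ring

theorem dzb_dzb_comm (j k : Fin 3) {f : V → ℂ} {x : V} (hf : ContDiffOn ℝ ∞ f {0}ᶜ) (hx : x ≠ 0) :
    dzb j (dzb k f) x = dzb k (dzb j f) x := by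
  have hD := HomB_diff hf hx
  show (fderiv ℝ (dzb k f) x (Pi.single j 1) + Complex.I *
      fderiv ℝ (dzb k f) x (Pi.single j Complex.I)) / 2 =
    (fderiv ℝ (dzb j f) x (Pi.single k 1) + Complex.I * fderiv ℝ (dzb j f) x (Pi.single k Complex.I)) / 2
  rw [HomB_dzb_fun j f, HomB_dzb_fun k f, HomB_snd hD, HomB_snd hD, HomB_snd hD, HomB_snd hD,
    HomB_symm hf hx (Pi.single j 1) (Pi.single k 1),
    HomB_symm hf hx (Pi.single j 1) (Pi.single k Complex.I),
    HomB_symm hf hx (Pi.single j Complex.I) (Pi.single k 1),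
    HomB_symm hf hx (Pi.single j Complex.I) (Pi.single k Complex.I)]
  ring

theorem HomB_real_f {u : V → ℝ} {x : V} (hu : DifferentiableAt ℝ u x) (v : V) :
    fderiv ℝ (fun y => ((u y : ℝ) : ℂ)) x v = ((fderiv ℝ u x v : ℝ) : ℂ) := by
  have h := Complex.ofRealCLM.hasFDerivAt.comp x hu.hasFDerivAt
  have h2 : fderiv ℝ (fun y => ((u y : ℝ) : ℂ)) x = Complex.ofRealCLM.comp (fderiv ℝ u x) := h.fderiv
  rw [h2]
  rfl

theorem HomB_comp_f {g : ℝ → ℝ} {u : V → ℝ} {x : V} {g' : ℝ}
    (hg : HasDerivAt g g' (u x)) (hu : DifferentiableAt ℝ u x) (v : V) :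
    fderiv ℝ (fun y => ((g (u y) : ℝ) : ℂ)) x v = (g' : ℂ) * fderiv ℝ (fun y => ((u y : ℝ) : ℂ)) x v := by
  have h := hg.comp_hasFDerivAt x hu.hasFDerivAt
  have h1 := HomB_real_f (u := fun y => g (u y)) h.differentiableAt v
  have h2 : fderiv ℝ (fun y => g (u y)) x = g' • fderiv ℝ u x := h.fderiv
  rw [h1, h2, HomB_real_f hu]
  rw [ContinuousLinearMap.smul_apply, smul_eq_mul]
  push_cast
  rfl

theorem dz_comp_real (j : Fin 3) {g : ℝ → ℝ} {u : V → ℝ} {x : V} {g' : ℝ}
    (hg : HasDerivAt g g' (u x)) (hu : DifferentiableAt ℝ u x) :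
    dz j (fun y => ((g (u y) : ℝ) : ℂ)) x = (g' : ℂ) * dz j (fun y => ((u y : ℝ) : ℂ)) x := by
  unfold dz
  rw [HomB_comp_f hg hu, HomB_comp_f hg hu]
  ring

theorem dzb_comp_real (j : Fin 3) {g : ℝ → ℝ} {u : V → ℝ} {x : V} {g' : ℝ}
    (hg : HasDerivAt g g' (u x)) (hu : DifferentiableAt ℝ u x) :
    dzb j (fun y => ((g (u y) : ℝ) : ℂ)) x = (g' : ℂ) * dzb j (fun y => ((u y : ℝ) : ℂ)) x := by
  unfold dzb
  rw [HomB_comp_f hg hu, HomB_comp_f hg hu]
  ring

theorem HomB_mulVec_f (M : M3) {f : V → ℂ} {x : V} (hf : DifferentiableAt ℝ f (M.mulVec x)) (v : V) :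
    fderiv ℝ (fun y => f (M.mulVec y)) x v = fderiv ℝ f (M.mulVec x) (M.mulVec v) := by
  obtain ⟨T, hT⟩ : ∃ T : V →L[ℝ] V, ∀ y, T y = M.mulVec y :=
    ⟨((Matrix.mulVecLin M).restrictScalars ℝ).toContinuousLinearMap, fun y => rfl⟩
  have h0 : (fun y => f (M.mulVec y)) = f ∘ T := by
    funext y; simp only [Function.comp_apply, hT]
  rw [← hT] at hf
  have h1 := hf.hasFDerivAt.comp x T.hasFDerivAt
  rw [h0, h1.fderiv, ContinuousLinearMap.comp_apply, hT, hT]

theorem HomB_mulVec_single (M : M3) (j k : Fin 3) (a : ℂ) :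
    M.mulVec (Pi.single j a) k = M k j * a := by
  unfold Matrix.mulVec dotProduct
  rw [Finset.sum_eq_single j]
  · rw [Pi.single_eq_same]
  · intro i _ hi
    rw [Pi.single_eq_of_ne hi, mul_zero]
  · intro h
    exact absurd (Finset.mem_univ j) h

theorem dz_comp_mulVec (M : M3) {f : V → ℂ} (j : Fin 3) {x : V}
    (hf : DifferentiableAt ℝ f (M.mulVec x)) :
    dz j (fun y => f (M.mulVec y)) x = ∑ k, dz k f (M.mulVec x) * M k j := by
  have h1 : dz j (fun y => f (M.mulVec y)) x = (fderiv ℝ f (M.mulVec x) (M.mulVec (Pi.single j 1)) -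
      Complex.I * fderiv ℝ f (M.mulVec x) (M.mulVec (Pi.single j Complex.I))) / 2 := by
    unfold dz
    rw [HomB_mulVec_f M hf, HomB_mulVec_f M hf]
  rw [h1, fderiv_eq, fderiv_eq, Finset.mul_sum, ← Finset.sum_sub_distrib, Finset.sum_div]
  refine Finset.sum_congr rfl fun k _ => ?_
  rw [HomB_mulVec_single, HomB_mulVec_single, map_mul, map_mul, Complex.conj_I, map_one]
  linear_combination (-(M k j * dz k f (M.mulVec x)) / 2 + (conj (M k j) * dzb k f (M.mulVec x)) / 2) *
    Complex.I_mul_I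

theorem dzb_comp_mulVec (M : M3) {f : V → ℂ} (j : Fin 3) {x : V}
    (hf : DifferentiableAt ℝ f (M.mulVec x)) :
    dzb j (fun y => f (M.mulVec y)) x = ∑ k, dzb k f (M.mulVec x) * conj (M k j) := by
  have h1 : dzb j (fun y => f (M.mulVec y)) x = (fderiv ℝ f (M.mulVec x) (M.mulVec (Pi.single j 1)) +
      Complex.I * fderiv ℝ f (M.mulVec x) (M.mulVec (Pi.single j Complex.I))) / 2 := by
    unfold dzb
    rw [HomB_mulVec_f M hf, HomB_mulVec_f M hf]
  rw [h1, fderiv_eq, fderiv_eq, Finset.mul_sum, ← Finset.sum_add_distrib, Finset.sum_div]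
  refine Finset.sum_congr rfl fun k _ => ?_
  rw [HomB_mulVec_single, HomB_mulVec_single, map_mul, map_mul, Complex.conj_I, map_one]
  linear_combination ((M k j * dz k f (M.mulVec x)) / 2 - (conj (M k j) * dzb k f (M.mulVec x)) / 2) *
    Complex.I_mul_I

theorem HomB_ev {f g : V → ℂ} {x : V} (hx : x ≠ 0) (h : ∀ y : V, y ≠ 0 → f y = g y) :
    fderiv ℝ f x = fderiv ℝ g x := by
  refine Filter.EventuallyEq.fderiv_eq ?_
  filter_upwards [isOpen_compl_singleton.mem_nhds hx] with y hy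
  exact h y hy

/-- Functions equal near `x` have the same Wirtinger derivatives at `x`. -/
theorem dz_congr (j : Fin 3) {f g : V → ℂ} {x : V} (hx : x ≠ 0) (h : ∀ y : V, y ≠ 0 → f y = g y) :
    dz j f x = dz j g x := by
  unfold dz
  rw [HomB_ev hx h]

theorem dzb_congr (j : Fin 3) {f g : V → ℂ} {x : V} (hx : x ≠ 0) (h : ∀ y : V, y ≠ 0 → f y = g y) :
    dzb j f x = dzb j g x := by
  unfold dzb
  rw [HomB_ev hx h]

end Pool.Agent.H85.DC

end S_H85_DC_HomB

section S_H85_DC_HomC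

/-!
# Row HomC: bounds and integrability of homogeneous functions

`chom_bound`: `f` is continuous on the compact set `{x : N x = 1}`, let `B` bound `‖f‖` there, `C = B^2`.
For `x ≠ 0`, `x = l • y` with `l = √(N x)` real positive, `N y = 1`:
`‖f x‖ = |l|^(a+b) ‖f y‖`, so `‖f x‖^2 ≤ C * (N x)^(a+b)`.

`integrable_N_rpow`: for `s > -3` the function `(N x)^s e^{-c N x}` (`c > 0`) is integrable on `V`
(real dimension 6).  Compare with the sup norm: `‖x‖^2 ≤ N x ≤ 3 ‖x‖^2`.
So `(N x)^s e^{-c N x} ≤ 3^|s| ‖x‖^(2s) e^{-c‖x‖^2}`, and use Mathlib's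
`MeasureTheory.integrable_fun_norm_addHaar` (`finrank ℝ V = 6`): need `r^5 r^(2s) e^{-c r^2}` integrable on
`(0,∞)` (`integrableOn_rpow_mul_exp_neg_mul_sq`, exponent `5 + 2 s > -1`).  Measurability: continuous off `0`.

`chom_integrable`: `‖f x‖ wt x ≤ √C (N x)^((a+b)/2) e^{-N x}`, exponent `(a+b)/2 ≥ -5/2 > -3`. Measurability:
continuous on the open set `{0}ᶜ` of full measure (`ContinuousOn.aestronglyMeasurable`, `volume {0} = 0`).
-/

open MeasureTheory
open scoped ContDiff BigOperators ComplexConjugate Matrix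

namespace Pool.Agent.H85.DC

theorem HomC_sq (z : ℂ) : ‖z‖ ^ 2 = Complex.normSq z := (Complex.normSq_eq_norm_sq z).symm

theorem HomC_nonneg (x : V) : 0 ≤ N x := Finset.sum_nonneg fun _ _ => Complex.normSq_nonneg _

theorem HomC_pos {x : V} (hx : x ≠ 0) : 0 < N x := by
  refine lt_of_le_of_ne (HomC_nonneg x) fun h => hx ?_
  have h2 := (Finset.sum_eq_zero_iff_of_nonneg (fun j _ => Complex.normSq_nonneg (x j))).1 h.symm
  funext j
  exact Complex.normSq_eq_zero.1 (h2 j (Finset.mem_univ j))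

theorem HomC_smul (l : ℂ) (x : V) : N (l • x) = Complex.normSq l * N x := by
  unfold N
  rw [Finset.mul_sum]
  refine Finset.sum_congr rfl fun j _ => ?_
  rw [Pi.smul_apply, smul_eq_mul, Complex.normSq_mul]

theorem HomC_le (x : V) : ‖x‖ ^ 2 ≤ N x := by
  have h1 : ‖x‖ ≤ Real.sqrt (N x) := by
    rw [pi_norm_le_iff_of_nonneg (Real.sqrt_nonneg _)]
    intro j
    apply Real.le_sqrt_of_sq_le
    rw [HomC_sq]
    exact Finset.single_le_sum (f := fun j => Complex.normSq (x j))
      (fun j _ => Complex.normSq_nonneg _) (Finset.mem_univ j)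
  calc ‖x‖ ^ 2 ≤ Real.sqrt (N x) ^ 2 := pow_le_pow_left₀ (norm_nonneg _) h1 2
    _ = N x := Real.sq_sqrt (HomC_nonneg x)

theorem HomC_cont : Continuous N := by
  unfold N
  exact continuous_finset_sum _ fun j _ => Complex.continuous_normSq.comp (continuous_apply j)

theorem HomC_compact : IsCompact {x : V | N x = 1} := by
  refine Metric.isCompact_of_isClosed_isBounded (isClosed_eq HomC_cont continuous_const) ?_
  refine (Metric.isBounded_closedBall (x := (0 : V)) (r := 1)).subset ?_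
  intro x hx
  have hx' : N x = 1 := hx
  rw [mem_closedBall_zero_iff]
  have h1 := HomC_le x
  rw [hx'] at h1
  have h2 := norm_nonneg x
  nlinarith

theorem HomC_sphere {x : V} (hx : x ≠ 0) :
    ∃ y : V, N y = 1 ∧ x = ((Real.sqrt (N x) : ℝ) : ℂ) • y := by
  have hN := HomC_pos hx
  have hs : 0 < Real.sqrt (N x) := Real.sqrt_pos.2 hN
  have hsc : ((Real.sqrt (N x) : ℝ) : ℂ) ≠ 0 := by exact_mod_cast hs.ne'
  refine ⟨((Real.sqrt (N x) : ℝ) : ℂ)⁻¹ • x, ?_, ?_⟩
  · rw [HomC_smul, Complex.normSq_inv, Complex.normSq_ofReal, Real.mul_self_sqrt hN.le]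
    field_simp
  · rw [smul_smul, mul_inv_cancel₀ hsc, one_smul]

theorem chom_bound {a b : ℤ} {f : V → ℂ} (hf : CHom a b f) :
    ∃ C : ℝ, 0 ≤ C ∧ ∀ x : V, x ≠ 0 → ‖f x‖ ^ 2 ≤ C * (N x) ^ (a + b) := by
  have hsub : {x : V | N x = 1} ⊆ {0}ᶜ := by
    intro x hx h0
    have hx' : N x = 1 := hx
    have h0' : x = 0 := h0
    rw [h0'] at hx'
    have : N (0 : V) = 0 := by simp [N]
    rw [this] at hx'
    exact zero_ne_one hx'
  obtain ⟨B, hB⟩ := HomC_compact.exists_bound_of_continuousOn (hf.cont.mono hsub)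
  refine ⟨B ^ 2, sq_nonneg B, fun x hx => ?_⟩
  obtain ⟨y, hy, hxy⟩ := HomC_sphere hx
  have hN := HomC_pos hx
  have hs : 0 < Real.sqrt (N x) := Real.sqrt_pos.2 hN
  have hsc : ((Real.sqrt (N x) : ℝ) : ℂ) ≠ 0 := by exact_mod_cast hs.ne'
  have h1 := hf.hom ((Real.sqrt (N x) : ℝ) : ℂ) y hsc
  rw [← hxy] at h1
  have h2 : ‖f x‖ = Real.sqrt (N x) ^ a * Real.sqrt (N x) ^ b * ‖f y‖ := by
    rw [h1, norm_mul, norm_mul, norm_zpow, norm_zpow, Complex.conj_ofReal, Complex.norm_real,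
      Real.norm_of_nonneg hs.le]
  have h3 : (Real.sqrt (N x) ^ a * Real.sqrt (N x) ^ b) ^ 2 = (N x) ^ (a + b) := by
    rw [← zpow_add₀ hs.ne', ← zpow_natCast, ← zpow_mul, mul_comm (a + b), zpow_mul, zpow_natCast,
      Real.sq_sqrt hN.le]
  have h4 : ‖f y‖ ^ 2 ≤ B ^ 2 := pow_le_pow_left₀ (norm_nonneg _) (hB y hy) 2
  rw [h2, mul_pow, h3, mul_comm]
  exact mul_le_mul_of_nonneg_right h4 (zpow_nonneg hN.le _)

theorem norm_sq_le_N (x : V) : ‖x‖ ^ 2 ≤ N x := HomC_le x

theorem N_le_norm_sq (x : V) : N x ≤ 3 * ‖x‖ ^ 2 := by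
  have h1 : ∀ j ∈ (Finset.univ : Finset (Fin 3)), Complex.normSq (x j) ≤ ‖x‖ ^ 2 := by
    intro j _
    rw [← HomC_sq]
    exact pow_le_pow_left₀ (norm_nonneg _) (norm_le_pi_norm x j) 2
  calc N x ≤ ∑ _j : Fin 3, ‖x‖ ^ 2 := Finset.sum_le_sum h1
    _ = 3 * ‖x‖ ^ 2 := by simp

theorem continuous_N : Continuous N := HomC_cont

theorem HomC_ae_ne : ∀ᵐ x ∂(volume : Measure V), x ≠ 0 := by
  have h : (volume : Measure V) {(0 : V)} = 0 := measure_singleton _
  exact measure_eq_zero_iff_ae_notMem.mp h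

theorem HomC_rpow_le {x : V} (hx : x ≠ 0) (s : ℝ) :
    (N x) ^ s ≤ 3 ^ |s| * ‖x‖ ^ (2 * s) := by
  have hn : 0 < ‖x‖ := norm_pos_iff.2 hx
  have h3 : ‖x‖ ^ (2 * s) = (‖x‖ ^ 2) ^ s := by
    rw [Real.rpow_mul hn.le, Real.rpow_two]
  rw [h3]
  rcases le_or_gt 0 s with hs | hs
  · rw [abs_of_nonneg hs, ← Real.mul_rpow (by norm_num) (by positivity)]
    exact Real.rpow_le_rpow (HomC_nonneg x) (N_le_norm_sq x) hs
  · have h1 : (N x) ^ s ≤ (‖x‖ ^ 2) ^ s :=
      Real.rpow_le_rpow_of_nonpos (by positivity) (HomC_le x) hs.le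
    have h2 : (1 : ℝ) ≤ 3 ^ |s| := Real.one_le_rpow (by norm_num) (abs_nonneg s)
    have h4 : 0 ≤ (‖x‖ ^ 2) ^ s := Real.rpow_nonneg (by positivity) s
    nlinarith

theorem integrable_N_rpow {s c : ℝ} (hs : -3 < s) (hc : 0 < c) :
    Integrable (fun x : V => (N x) ^ s * Real.exp (-c * N x)) := by
  have hdim : Module.finrank ℝ V = 6 := by
    rw [Module.finrank_pi_fintype]
    simp [Complex.finrank_real_complex]
  have hg : Integrable (fun x : V => ‖x‖ ^ (2 * s) * Real.exp (-c * ‖x‖ ^ 2)) := by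
    have h1 := (integrable_fun_norm_addHaar (volume : Measure V)
      (f := fun r : ℝ => r ^ (2 * s) * Real.exp (-c * r ^ 2))).2 ?_
    · exact h1
    · have h2 := integrableOn_rpow_mul_exp_neg_mul_sq hc (s := 5 + 2 * s) (by linarith)
      refine h2.congr_fun ?_ measurableSet_Ioi
      intro r hr
      have hr' : (0 : ℝ) < r := hr
      show r ^ (5 + 2 * s) * Real.exp (-c * r ^ 2) =
        r ^ (Module.finrank ℝ V - 1) • (r ^ (2 * s) * Real.exp (-c * r ^ 2))
      rw [hdim, smul_eq_mul, Real.rpow_add hr']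
      have h3 : r ^ (5 : ℝ) = r ^ (6 - 1) := by
        rw [show (5 : ℝ) = ((5 : ℕ) : ℝ) by norm_num, Real.rpow_natCast]
      rw [h3]
      ring
  refine (hg.const_mul (3 ^ |s|)).mono' ?_ ?_
  · have h1 : Measurable (fun x : V => (N x) ^ s) := HomC_cont.measurable.pow_const s
    have h2 : Measurable (fun x : V => Real.exp (-c * N x)) :=
      Real.measurable_exp.comp (HomC_cont.measurable.const_mul (-c))
    exact (h1.mul h2).aestronglyMeasurable
  · filter_upwards [HomC_ae_ne] with x hx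
    have hN := HomC_pos hx
    rw [Real.norm_of_nonneg (mul_nonneg (Real.rpow_nonneg hN.le s) (Real.exp_nonneg _)), ← mul_assoc]
    refine mul_le_mul (HomC_rpow_le hx s) ?_ (Real.exp_nonneg _)
      (mul_nonneg (Real.rpow_nonneg (by norm_num) _) (Real.rpow_nonneg (norm_nonneg _) _))
    apply Real.exp_le_exp.2
    have := HomC_le x
    nlinarith

theorem HomC_meas {f : V → ℂ} (hf : ContinuousOn f {0}ᶜ) :
    AEStronglyMeasurable f (volume : Measure V) := by
  have h1 : AEStronglyMeasurable f ((volume : Measure V).restrict {0}ᶜ) :=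
    hf.aestronglyMeasurable (measurableSet_singleton (0 : V)).compl
  have h2 : (volume : Measure V).restrict {0}ᶜ = volume := by
    apply Measure.restrict_eq_self_of_ae_mem
    filter_upwards [HomC_ae_ne] with x hx
    exact hx
  rwa [h2] at h1

theorem chom_integrable {a b : ℤ} {f : V → ℂ} (hf : CHom a b f) (h : -5 ≤ a + b) :
    Integrable (fun x : V => f x * (wt x : ℂ)) := by
  obtain ⟨C, hC, hb⟩ := chom_bound hf
  have hs : (-3 : ℝ) < ((a + b : ℤ) : ℝ) / 2 := by
    have : (-5 : ℝ) ≤ ((a + b : ℤ) : ℝ) := by exact_mod_cast h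
    linarith
  refine ((integrable_N_rpow hs one_pos).const_mul (Real.sqrt C)).mono' ?_ ?_
  · have h2 : Continuous (fun x : V => (wt x : ℂ)) := by
      unfold wt
      exact Complex.continuous_ofReal.comp (Real.continuous_exp.comp HomC_cont.neg)
    exact (HomC_meas hf.cont).mul h2.aestronglyMeasurable
  · filter_upwards [HomC_ae_ne] with x hx
    have hN := HomC_pos hx
    have h1 : ‖f x‖ ≤ Real.sqrt C * (N x) ^ (((a + b : ℤ) : ℝ) / 2) := by
      have h2 : ((N x) ^ (((a + b : ℤ) : ℝ) / 2)) ^ 2 = (N x) ^ (a + b) := by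
        rw [← Real.rpow_natCast, ← Real.rpow_mul hN.le, ← Real.rpow_intCast]
        congr 1
        push_cast
        ring
      have h3 : 0 ≤ Real.sqrt C * (N x) ^ (((a + b : ℤ) : ℝ) / 2) :=
        mul_nonneg (Real.sqrt_nonneg _) (Real.rpow_nonneg hN.le _)
      apply le_of_sq_le_sq _ h3
      rw [mul_pow, h2, Real.sq_sqrt hC]
      exact hb x hx
    have h4 : wt x = Real.exp (-1 * N x) := by
      unfold wt
      rw [neg_one_mul]
    rw [norm_mul, Complex.norm_real, h4, Real.norm_of_nonneg (Real.exp_nonneg _), ← mul_assoc]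
    exact mul_le_mul_of_nonneg_right h1 (Real.exp_nonneg _)

/-- The same with a bounded measurable factor. -/
theorem chom_integrable_bdd {a b : ℤ} {f : V → ℂ} (hf : CHom a b f) (h : -5 ≤ a + b) {φ : V → ℂ}
    (hφ : AEStronglyMeasurable φ (volume : Measure V)) {B : ℝ} (hB : ∀ x, ‖φ x‖ ≤ B) :
    Integrable (fun x : V => φ x * f x * (wt x : ℂ)) := by
  have h1 := (chom_integrable hf h).bdd_mul hφ (c := B) (Filter.Eventually.of_forall hB)
  refine h1.congr (Filter.Eventually.of_forall fun x => ?_)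
  show φ x * (f x * (wt x : ℂ)) = φ x * f x * (wt x : ℂ)
  ring

theorem compact_sphere : IsCompact {x : V | N x = 1} := HomC_compact

theorem exists_smul_sphere {x : V} (hx : x ≠ 0) :
    ∃ y : V, N y = 1 ∧ x = ((Real.sqrt (N x) : ℝ) : ℂ) • y := HomC_sphere hx

end Pool.Agent.H85.DC

end S_H85_DC_HomC

section S_H85_DC_Lin

/-!
# Row Lin: linear algebra of Hermitian `3 × 3` matrices

`hs A = ∑ |A_jk|^2`. For Hermitian `A`: `(A*A).trace = hs A` (a real number), so
`ee_hs`: `(ee A A).re = (A.trace.re)^2 - hs A` (trace of a Hermitian matrix is real).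
`ee_le`: let `A` be Hermitian and kill `x ≠ 0` (`∑_j x_j A_jk = 0` for all `k`). With
`P = 1 - conj(x) x^T / N x` (entries `δ_jk - conj(x_j) x_k / N`): `(A P).trace = A.trace`
(`∑_{j,k} A_jk conj(x_k) x_j = 0`), `hs P = 2` and Cauchy-Schwarz `|tr (A P)|^2 ≤ hs A * hs P` give
`(tr A)^2 ≤ 2 hs A` (`tr_sq_le`), hence `(ee A A).re = (tr A)^2 - hs A ≤ (tr A)^2 / 2`.
`ee_abs`: `|ee A B| ≤ |tr A||tr B| + |tr (A B)| ≤ 4 √(hs A) √(hs B)` for arbitrary matrices
(`|tr A| ≤ √3 √(hs A)`, `|tr(A B)| ≤ √(hs A) √(hs B)`).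
Positivity: here `Pos A` is spelled `A.IsHermitian ∧ ∀ w, 0 ≤ (quad A w).re` (`quad A w = ∑ A_jk w_j conj(w_k)`).
Equivalent to Mathlib's `Aᵀ.PosSemidef` (or `A.PosSemidef`, up to conjugating `w`).
`ee_pos`: for positive `A`, `B`: `(tr (A B)).re ≤ (tr A).re (tr B).re`. Proof: write `B = ∑_m v^m (v^m)^*`-type
decomposition (`PosSemidef`: `B = Cᴴ * C`), `tr (A Cᴴ C) = ∑_m (quad A of the m-th row of C, suitably conjugated)`,
and `quad A w ≤ (tr A) N w` (`quad_le`: for positive `A = Dᴴ D`, `quad A w = |D w'|^2 ≤ hs D * N w = tr A * N w`);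
`∑_m N (row m) = tr B`.
`hs_le_tr`: for positive `A`: `hs A = tr (A A) ≤ (tr A)^2` (case `B = A`).
`ee_abs_pos`: for positive `S` and any `A`: `|tr (A S)| ≤ √(hs A) √(hs S) ≤ √(hs A) tr S`, `|tr A| ≤ √3 √(hs A)`.
`ee_rank1`: for vectors `a, b` let `K a = conj(a_j) a_k`. Then `ee (K a) (K b) = N a N b - |⟨a,b⟩|^2`.
-/

open MeasureTheory
open scoped ContDiff BigOperators ComplexConjugate Matrix

namespace Pool.Agent.H85.DC

theorem Lin_sq (z : ℂ) : ‖z‖ ^ 2 = Complex.normSq z := (Complex.normSq_eq_norm_sq z).symm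

theorem hs_nonneg (A : M3) : 0 ≤ hs A :=
  Finset.sum_nonneg fun _ _ => Finset.sum_nonneg fun _ _ => Complex.normSq_nonneg _

theorem Lin_cs (A B : M3) :
    ‖∑ j, ∑ k, A j k * B j k‖ ≤ Real.sqrt (hs A) * Real.sqrt (hs B) := by
  have h := Real.sum_mul_le_sqrt_mul_sqrt (Finset.univ : Finset (Fin 3 × Fin 3))
    (fun p => ‖A p.1 p.2‖) (fun p => ‖B p.1 p.2‖)
  rw [Fintype.sum_prod_type, Fintype.sum_prod_type, Fintype.sum_prod_type] at h
  simp only [Lin_sq] at h
  refine le_trans ?_ h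
  refine (norm_sum_le _ _).trans (Finset.sum_le_sum fun j _ => ?_)
  refine (norm_sum_le _ _).trans (Finset.sum_le_sum fun k _ => ?_)
  exact (norm_mul _ _).le

theorem Lin_csv (a b : V) : Complex.normSq (∑ k, a k * b k) ≤ N a * N b := by
  have h := Finset.sum_mul_sq_le_sq_mul_sq (Finset.univ : Finset (Fin 3))
    (fun k => ‖a k‖) (fun k => ‖b k‖)
  simp only [Lin_sq] at h
  refine le_trans ?_ h
  rw [← Lin_sq]
  refine pow_le_pow_left₀ (norm_nonneg _) ?_ 2
  refine (norm_sum_le _ _).trans (Finset.sum_le_sum fun k _ => ?_)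
  exact (norm_mul _ _).le

theorem Lin_herm {A : M3} (hA : A.IsHermitian) (j k : Fin 3) : A k j = conj (A j k) :=
  (hA.apply k j).symm

theorem Lin_tr_conj {A : M3} (hA : A.IsHermitian) : conj A.trace = A.trace := by
  rw [Matrix.trace, map_sum]
  refine Finset.sum_congr rfl fun j _ => ?_
  rw [Matrix.diag_apply, ← Lin_herm hA j j]

theorem Lin_tr_im {A : M3} (hA : A.IsHermitian) : A.trace.im = 0 :=
  Complex.conj_eq_iff_im.1 (Lin_tr_conj hA)

theorem Lin_trmul (A B : M3) : (A * B).trace = ∑ j, ∑ k, A j k * B k j := by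
  rw [Matrix.trace]
  refine Finset.sum_congr rfl fun j _ => ?_
  rw [Matrix.diag_apply, Matrix.mul_apply]

theorem Lin_trsq {A : M3} (hA : A.IsHermitian) : (A * A).trace = ((hs A : ℝ) : ℂ) := by
  rw [Lin_trmul]
  unfold hs
  push_cast
  refine Finset.sum_congr rfl fun j _ => Finset.sum_congr rfl fun k _ => ?_
  rw [Lin_herm hA j k, Complex.mul_conj]

theorem ee_hs {A : M3} (hA : A.IsHermitian) : (ee A A).re = (A.trace).re ^ 2 - hs A := by
  unfold ee
  rw [Lin_trsq hA, Complex.sub_re, Complex.mul_re, Lin_tr_im hA, Complex.ofReal_re]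
  ring

theorem Lin_N_pos {x : V} (hx : x ≠ 0) : 0 < N x := by
  have h0 : 0 ≤ N x := Finset.sum_nonneg fun _ _ => Complex.normSq_nonneg _
  refine lt_of_le_of_ne h0 fun h => hx ?_
  have h2 := (Finset.sum_eq_zero_iff_of_nonneg (fun j _ => Complex.normSq_nonneg (x j))).1 h.symm
  funext j
  exact Complex.normSq_eq_zero.1 (h2 j (Finset.mem_univ j))

theorem Lin_hsP {x : V} (hx : x ≠ 0) :
    hs (fun j k => (if j = k then (1 : ℂ) else 0) - x j * conj (x k) / (N x : ℂ)) = 2 := by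
  have hn : N x ≠ 0 := (Lin_N_pos hx).ne'
  have h1 : ∀ j k : Fin 3,
      Complex.normSq ((if j = k then (1 : ℂ) else 0) - x j * conj (x k) / (N x : ℂ)) =
        (if j = k then 1 - 2 * Complex.normSq (x j) / N x else 0) +
          Complex.normSq (x j) * (Complex.normSq (x k) / (N x) ^ 2) := by
    intro j k
    by_cases hjk : j = k
    · subst hjk
      rw [if_pos rfl, if_pos rfl, Complex.mul_conj]
      have : (1 : ℂ) - (Complex.normSq (x j) : ℂ) / (N x : ℂ) =
          ((1 - Complex.normSq (x j) / N x : ℝ) : ℂ) := by push_cast; ring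
      rw [this, Complex.normSq_ofReal]
      field_simp
      ring
    · rw [if_neg hjk, if_neg hjk, zero_sub, Complex.normSq_neg, Complex.normSq_div,
        Complex.normSq_mul, Complex.normSq_conj, Complex.normSq_ofReal, zero_add]
      field_simp
  unfold hs
  simp only [h1, Finset.sum_add_distrib, Finset.sum_ite_eq, Finset.mem_univ, if_true,
    ← Finset.mul_sum, ← Finset.sum_mul, ← Finset.sum_div, Finset.sum_sub_distrib]
  have h2 : ∑ j, Complex.normSq (x j) = N x := rfl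
  rw [h2]
  have h3 : ∑ _j : Fin 3, (1 : ℝ) = 3 := by simp
  rw [h3]
  field_simp
  ring

theorem tr_sq_le {A : M3} (hA : A.IsHermitian) {x : V} (hx : x ≠ 0)
    (hk : ∀ k, ∑ j, x j * A j k = 0) : (A.trace).re ^ 2 ≤ 2 * hs A := by
  have h1 : A.trace = ∑ j, ∑ k, A j k *
      ((if j = k then (1 : ℂ) else 0) - x j * conj (x k) / (N x : ℂ)) := by
    have h2 : ∑ j, ∑ k, A j k * (x j * conj (x k) / (N x : ℂ)) = 0 := by
      rw [Finset.sum_comm]
      refine Finset.sum_eq_zero fun k _ => ?_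
      have : ∀ j, A j k * (x j * conj (x k) / (N x : ℂ)) =
          (x j * A j k) * (conj (x k) / (N x : ℂ)) := fun j => by ring
      simp only [this, ← Finset.sum_mul, hk k, zero_mul]
    have h3 : ∑ j, ∑ k, A j k * (if j = k then (1 : ℂ) else 0) = A.trace := by
      rw [Matrix.trace]
      refine Finset.sum_congr rfl fun j _ => ?_
      simp [Matrix.diag_apply]
    simp only [mul_sub, Finset.sum_sub_distrib, h2, h3, sub_zero]
  have h4 := Lin_cs A (fun j k => (if j = k then (1 : ℂ) else 0) - x j * conj (x k) / (N x : ℂ))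
  rw [← h1, Lin_hsP hx, ← Real.sqrt_mul (hs_nonneg A)] at h4
  have h5 : ‖A.trace‖ ^ 2 ≤ hs A * 2 := by
    have := pow_le_pow_left₀ (norm_nonneg _) h4 2
    rwa [Real.sq_sqrt (mul_nonneg (hs_nonneg A) (by norm_num))] at this
  have h6 : (A.trace).re ^ 2 ≤ ‖A.trace‖ ^ 2 := by
    rw [Lin_sq, Complex.normSq_apply]
    nlinarith [mul_self_nonneg A.trace.im]
  linarith

theorem ee_le {A : M3} (hA : A.IsHermitian) {x : V} (hx : x ≠ 0)
    (hk : ∀ k, ∑ j, x j * A j k = 0) : (ee A A).re ≤ (A.trace).re ^ 2 / 2 := by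
  rw [ee_hs hA]
  have := tr_sq_le hA hx hk
  linarith

theorem Lin_hs_one : hs (1 : M3) = 3 := by
  unfold hs
  have : ∀ j k : Fin 3, Complex.normSq ((1 : M3) j k) = if j = k then 1 else 0 := by
    intro j k
    rw [Matrix.one_apply]
    split_ifs <;> simp
  simp only [this, Finset.sum_ite_eq, Finset.mem_univ, if_true]
  simp

theorem Lin_tr_le (A : M3) : ‖A.trace‖ ≤ Real.sqrt (hs A) * Real.sqrt 3 := by
  have h := Lin_cs A 1
  rw [Lin_hs_one] at h
  have h3 : ∑ j, ∑ k, A j k * (1 : M3) j k = A.trace := by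
    rw [Matrix.trace]
    refine Finset.sum_congr rfl fun j _ => ?_
    simp [Matrix.diag_apply, Matrix.one_apply]
  rwa [h3] at h

theorem Lin_trmul_le (A B : M3) : ‖(A * B).trace‖ ≤ Real.sqrt (hs A) * Real.sqrt (hs B) := by
  have h := Lin_cs A B.transpose
  have h1 : hs B.transpose = hs B := by
    unfold hs
    rw [Finset.sum_comm]
    rfl
  rw [h1] at h
  rw [Lin_trmul]
  exact h

theorem ee_abs (A B : M3) : ‖ee A B‖ ≤ 4 * (Real.sqrt (hs A) * Real.sqrt (hs B)) := by
  unfold ee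
  have h1 := Lin_tr_le A
  have h2 := Lin_tr_le B
  have h3 := Lin_trmul_le A B
  have h4 : ‖A.trace * B.trace‖ ≤ 3 * (Real.sqrt (hs A) * Real.sqrt (hs B)) := by
    rw [norm_mul]
    calc ‖A.trace‖ * ‖B.trace‖
        ≤ (Real.sqrt (hs A) * Real.sqrt 3) * (Real.sqrt (hs B) * Real.sqrt 3) :=
          mul_le_mul h1 h2 (norm_nonneg _) (by positivity)
      _ = (Real.sqrt 3 * Real.sqrt 3) * (Real.sqrt (hs A) * Real.sqrt (hs B)) := by ring
      _ = 3 * (Real.sqrt (hs A) * Real.sqrt (hs B)) := by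
          rw [Real.mul_self_sqrt (by norm_num)]
  calc ‖A.trace * B.trace - (A * B).trace‖ ≤ ‖A.trace * B.trace‖ + ‖(A * B).trace‖ :=
        norm_sub_le _ _
    _ ≤ _ := by linarith

open scoped MatrixOrder ComplexOrder in
theorem Lin_dec {A : M3} (hA : A.IsHermitian) (pA : ∀ w, 0 ≤ (quad A w).re) :
    ∃ D : M3, ∀ j k, A j k = ∑ m, conj (D m j) * D m k := by
  have hq : ∀ w : V, (quad A w).im = 0 := by
    intro w
    apply Complex.conj_eq_iff_im.1
    unfold quad
    rw [map_sum]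
    simp only [map_sum, map_mul, Complex.conj_conj]
    rw [Finset.sum_comm]
    refine Finset.sum_congr rfl fun j _ => Finset.sum_congr rfl fun k _ => ?_
    rw [← Lin_herm hA k j]
    ring
  have hps : A.PosSemidef := by
    refine Matrix.PosSemidef.of_dotProduct_mulVec_nonneg hA fun x => ?_
    have h1 : star x ⬝ᵥ (A *ᵥ x) = quad A (fun j => conj (x j)) := by
      unfold quad
      simp only [dotProduct, Matrix.mulVec, Finset.mul_sum, Pi.star_apply, Complex.conj_conj]
      refine Finset.sum_congr rfl fun j _ => Finset.sum_congr rfl fun k _ => ?_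
      rw [RCLike.star_def]
      ring
    rw [h1, Complex.nonneg_iff]
    exact ⟨pA _, (hq _).symm⟩
  obtain ⟨D, hD⟩ := CStarAlgebra.nonneg_iff_eq_star_mul_self.mp hps.nonneg
  refine ⟨D, fun j k => ?_⟩
  rw [hD, Matrix.mul_apply]
  rfl

theorem Lin_quad {A D : M3} (h : ∀ j k, A j k = ∑ m, conj (D m j) * D m k) (w : V) :
    quad A w = ((∑ m, Complex.normSq (∑ k, D m k * conj (w k)) : ℝ) : ℂ) := by
  unfold quad
  push_cast
  simp only [h, ← Complex.mul_conj, map_add, map_mul, Complex.conj_conj, Fin.sum_univ_three]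
  ring

theorem Lin_trD {A D : M3} (h : ∀ j k, A j k = ∑ m, conj (D m j) * D m k) :
    A.trace = ((∑ m, N (D m) : ℝ) : ℂ) := by
  rw [Matrix.trace]
  unfold N
  rw [Finset.sum_comm]
  push_cast
  refine Finset.sum_congr rfl fun j _ => ?_
  rw [Matrix.diag_apply, h]
  refine Finset.sum_congr rfl fun m _ => ?_
  rw [← Complex.mul_conj]
  ring

theorem quad_le {A : M3} (hA : A.IsHermitian) (pA : ∀ w, 0 ≤ (quad A w).re) (w : V) :
    (quad A w).re ≤ (A.trace).re * N w := by
  obtain ⟨D, hD⟩ := Lin_dec hA pA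
  rw [Lin_quad hD, Lin_trD hD, Complex.ofReal_re, Complex.ofReal_re, Finset.sum_mul]
  refine Finset.sum_le_sum fun m _ => ?_
  have h1 := Lin_csv (D m) (fun k => conj (w k))
  have h2 : N (fun k => conj (w k)) = N w := by
    unfold N
    simp only [Complex.normSq_conj]
  rwa [h2] at h1

theorem tr_nonneg {A : M3} (pA : ∀ w, 0 ≤ (quad A w).re) : 0 ≤ (A.trace).re := by
  rw [Matrix.trace, Complex.re_sum]
  refine Finset.sum_nonneg fun j _ => ?_
  have h1 := pA (Pi.single j 1)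
  have h2 : quad A (Pi.single j 1) = A j j := by
    unfold quad
    rw [Finset.sum_eq_single j, Finset.sum_eq_single j]
    · simp
    · intro k _ hk
      rw [Pi.single_eq_of_ne hk]
      simp
    · intro hj
      exact absurd (Finset.mem_univ _) hj
    · intro i _ hi
      refine Finset.sum_eq_zero fun k _ => ?_
      rw [Pi.single_eq_of_ne hi]
      simp
    · intro hj
      exact absurd (Finset.mem_univ _) hj
  rw [h2] at h1
  exact h1

theorem Lin_ee_re {A B : M3} (hA : A.IsHermitian) :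
    (ee A B).re = A.trace.re * B.trace.re - ((A * B).trace).re := by
  unfold ee
  rw [Complex.sub_re, Complex.mul_re, Lin_tr_im hA]
  ring

theorem ee_pos {A B : M3} (hA : A.IsHermitian) (pA : ∀ w, 0 ≤ (quad A w).re)
    (hB : B.IsHermitian) (pB : ∀ w, 0 ≤ (quad B w).re) : 0 ≤ (ee A B).re := by
  obtain ⟨C, hC⟩ := Lin_dec hB pB
  have h1 : (A * B).trace = ∑ m, quad A (C m) := by
    rw [Lin_trmul]
    unfold quad
    simp only [hC, Fin.sum_univ_three]
    ring
  rw [Lin_ee_re hA, h1, Lin_trD hC, Complex.ofReal_re, Complex.re_sum, Finset.mul_sum,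
    ← Finset.sum_sub_distrib]
  refine Finset.sum_nonneg fun m _ => ?_
  have := quad_le hA pA (C m)
  linarith

theorem hs_le_tr {A : M3} (hA : A.IsHermitian) (pA : ∀ w, 0 ≤ (quad A w).re) :
    hs A ≤ (A.trace).re ^ 2 := by
  have h1 := ee_pos hA pA hA pA
  rw [ee_hs hA] at h1
  linarith

theorem ee_abs_pos (A : M3) {S : M3} (hS : S.IsHermitian) (pS : ∀ w, 0 ≤ (quad S w).re) :
    ‖ee A S‖ ≤ 3 * Real.sqrt (hs A) * (S.trace).re := by
  have ht := tr_nonneg pS
  have h1 : ‖S.trace‖ = S.trace.re := by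
    have : S.trace = ((S.trace.re : ℝ) : ℂ) := by
      apply Complex.ext
      · rw [Complex.ofReal_re]
      · rw [Complex.ofReal_im, Lin_tr_im hS]
    rw [this, Complex.norm_real, Real.norm_eq_abs, Complex.ofReal_re, abs_of_nonneg ht]
  have h2 : Real.sqrt (hs S) ≤ S.trace.re := by
    rw [← Real.sqrt_sq ht]
    exact Real.sqrt_le_sqrt (hs_le_tr hS pS)
  have h3 := Lin_trmul_le A S
  have h4 := Lin_tr_le A
  have h5 : Real.sqrt 3 ≤ 2 := by
    rw [show (2 : ℝ) = Real.sqrt (2 ^ 2) by rw [Real.sqrt_sq (by norm_num)]]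
    exact Real.sqrt_le_sqrt (by norm_num)
  have h6 : 0 ≤ Real.sqrt (hs A) := Real.sqrt_nonneg _
  unfold ee
  calc ‖A.trace * S.trace - (A * S).trace‖ ≤ ‖A.trace * S.trace‖ + ‖(A * S).trace‖ :=
        norm_sub_le _ _
    _ ≤ 2 * Real.sqrt (hs A) * S.trace.re + Real.sqrt (hs A) * S.trace.re := by
        rw [norm_mul, h1]
        refine add_le_add (mul_le_mul_of_nonneg_right ?_ ht) ?_
        · nlinarith
        · exact h3.trans (mul_le_mul_of_nonneg_left h2 h6)
    _ = _ := by ring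

theorem hs_add (A B : M3) : hs (A + B) ≤ 2 * hs A + 2 * hs B := by
  unfold hs
  rw [Finset.mul_sum, Finset.mul_sum, ← Finset.sum_add_distrib]
  refine Finset.sum_le_sum fun j _ => ?_
  rw [Finset.mul_sum, Finset.mul_sum, ← Finset.sum_add_distrib]
  refine Finset.sum_le_sum fun k _ => ?_
  rw [Matrix.add_apply]
  simp only [Complex.normSq_apply, Complex.add_re, Complex.add_im]
  nlinarith [mul_self_nonneg ((A j k).re - (B j k).re), mul_self_nonneg ((A j k).im - (B j k).im)]

theorem Lin_trK {A : M3} {c : V} (h : ∀ j k, A j k = conj (c j) * c k) :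
    A.trace = ((N c : ℝ) : ℂ) := by
  rw [Matrix.trace]
  unfold N
  push_cast
  refine Finset.sum_congr rfl fun j _ => ?_
  rw [Matrix.diag_apply, h, ← Complex.mul_conj]
  ring

theorem Lin_eeK {A B : M3} {a b : V} (hA : ∀ j k, A j k = conj (a j) * a k)
    (hB : ∀ j k, B j k = conj (b j) * b k) :
    ee A B = ((N a * N b - Complex.normSq (ip a b) : ℝ) : ℂ) := by
  unfold ee
  rw [Lin_trK hA, Lin_trK hB, Lin_trmul]
  push_cast
  congr 1
  unfold ip
  rw [← Complex.mul_conj]
  simp only [hA, hB, map_add, map_mul, Complex.conj_conj, Fin.sum_univ_three]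
  ring

theorem ee_rank1 (a b : V) :
    ee (fun j k => conj (a j) * a k) (fun j k => conj (b j) * b k) =
      ((N a * N b - Complex.normSq (ip a b) : ℝ) : ℂ) :=
  Lin_eeK (fun _ _ => rfl) (fun _ _ => rfl)

theorem hs_rank1 (a b : V) : hs (fun j k => a j * b k) = N a * N b := by
  unfold hs N
  rw [Finset.sum_mul_sum]
  refine Finset.sum_congr rfl fun j _ => Finset.sum_congr rfl fun k _ => ?_
  rw [Complex.normSq_mul]

end Pool.Agent.H85.DC

end S_H85_DC_Lin
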