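import Mathlib
import Pool.Agent.H24.M68.G01
import Pool.Agent.H24.M68.G02

/-! MP_6873ef_an: this file joins several modules to save build time. -/

section S_H24_CU_AL

/-!
# Row AL (algebra of the defining form)

PROOFS.  `α(x) = x × F(x)`.  (1) `∑ x_j α_j = 0`, `∑ F_j α_j = 0`: expand (`Fin.sum_univ_three`,
`crossProduct` components `x_1 F_2 - x_2 F_1`, `x_2 F_0 - x_0 F_2`, `x_0 F_1 - x_1 F_0`), `ring`.
(2) homogeneity: `F_j(c x) = c^deg F_j(x)` (`MvPolynomial.IsHomogeneous.eval₂`/`eval_smul`-type lemma, or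
expand), so `α(c x) = c^(deg+1) α(x)`, `vec (c x) = c^deg vec x`.
(3) Lagrange identity `nsq (x × v) = nsq x nsq v - |herm v x|^2`: expand in real coordinates or use
`|a b' - ..|^2` sums; `ring` after writing `normSq`.
(4) the components of `α` are the evaluations of homogeneous polynomials of degree `deg + 1`
(`X i * F j - X j * F i`), and not all of them are zero: otherwise `α = 0` everywhere and the set in
`finite_sing` is all of `ℙ ℂ V`, which is infinite (the points of `(1, t, 0)`, `t : ℂ`, are distinct: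
if `(1,t,0) = c (1,t',0)` then `c = 1`, `t = t'`).
(5) decomposition of a form at a regular point: pure linear algebra, direct expansion.  For `x ≠ 0`,
`e = nsq η ≠ 0` (`η = α(x)`), `F = vec x`, `N = nsq x`, and a matrix `A` with `∑_j x_j A_jk = 0`,
`∑_k A_jk conj x_k = 0`:
  `A_jk = N^2 dens W_jk + η_j c_k + c'_j conj η_k`,   `dens = A(F,F)/e`, `W = fubiniStudy x`,
  `c_k = (∑_i conj η_i A_ik)/e - (A(F,F) N / e^2) conj η_k`,
  `c'_j = (∑_k A_jk η_k)/e - ((∑_ik conj η_i A_ik η_k)/e^2) η_j`.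
Proof of the identity: both sides are matrices `G` with `∑_j x_j G_jk = 0 = ∑_k G_jk conj x_k`
(note `∑ x_j η_j = 0`); the vectors `x, F, conj η` form a basis of `C^3` (`det (x, F, conj η) = nsq η`);
so it is enough to compare `G(a,b) = ∑ a_j G_jk conj b_k` for `a, b ∈ {F, conj η}`:
`W(F,F) = e/N^2` (Lagrange), `W(F, conj η) = 0 = W(conj η, F)` (as `∑ F_jη_j = 0 = ∑ x_j η_j`),
`W(conj η, conj η) = e/N`; `∑ F_j η_j = 0`.  Check: `(F,F)`: `A(F,F) = N^2 dens e/N^2`. OK
`(conj η, F)`: `A(conj η, F) = e ∑ c_k conj F_k = A(conj η,F)`. OK  `(F, conj η)`: symmetric. OK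
`(conj η, conj η)`: `N^2 dens e/N + e (A(conj η,conj η)/e - A(F,F) N/e^2 e) + (A(cη,cη)/e - A(cη,cη)/e) e`
`= A(conj η, conj η)`. OK
-/

namespace Pool.Agent.H24.CU

open scoped ComplexConjugate

theorem sum_mul_alpha (𝓕 : Foliation) (x : V) : ∑ j, x j * 𝓕.alpha x j = 0 := by
  unfold Foliation.alpha
  rw [cross_apply, Fin.sum_univ_three]
  simp only [Matrix.cons_val_zero, Matrix.cons_val_one, Matrix.cons_val]
  ring

theorem sum_vec_mul_alpha (𝓕 : Foliation) (x : V) : ∑ j, 𝓕.vec x j * 𝓕.alpha x j = 0 := by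
  unfold Foliation.alpha Foliation.vec
  rw [cross_apply, Fin.sum_univ_three]
  simp only [Matrix.cons_val_zero, Matrix.cons_val_one, Matrix.cons_val]
  ring

private theorem AL_eval (P : MvPolynomial (Fin 3) ℂ) (n : ℕ) (hP : P.IsHomogeneous n) (c : ℂ)
    (x : V) : MvPolynomial.eval (c • x) P = c ^ n * MvPolynomial.eval x P := by
  rw [MvPolynomial.eval_eq', MvPolynomial.eval_eq', Finset.mul_sum]
  refine Finset.sum_congr rfl fun d hd => ?_
  have h1 := hP (MvPolynomial.mem_support_iff.1 hd)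
  have h2 : ∑ i, d i = n := by
    rw [← h1, Finsupp.weight_apply, Finsupp.sum_fintype _ _ (by simp)]
    simp
  have h3 : ∏ i, (c • x) i ^ d i = c ^ n * ∏ i, x i ^ d i := by
    rw [← h2, ← Finset.prod_pow_eq_pow_sum, ← Finset.prod_mul_distrib]
    refine Finset.prod_congr rfl fun i _ => ?_
    rw [Pi.smul_apply, smul_eq_mul, mul_pow]
  rw [h3]
  ring

theorem vec_smul (𝓕 : Foliation) (c : ℂ) (x : V) : 𝓕.vec (c • x) = c ^ 𝓕.deg • 𝓕.vec x := by
  funext j
  exact AL_eval (𝓕.F j) 𝓕.deg (𝓕.hom j) c x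

theorem alpha_smul (𝓕 : Foliation) (c : ℂ) (x : V) :
    𝓕.alpha (c • x) = c ^ (𝓕.deg + 1) • 𝓕.alpha x := by
  have h1 : 𝓕.alpha (c • x) = crossProduct (c • x) (𝓕.vec (c • x)) := rfl
  have h2 : 𝓕.alpha x = crossProduct x (𝓕.vec x) := rfl
  rw [h1, h2, vec_smul, cross_apply, cross_apply]
  funext j
  fin_cases j <;>
  · simp only [Pi.smul_apply, smul_eq_mul, Fin.zero_eta, Fin.mk_one, Fin.reduceFinMk,
      Matrix.cons_val_zero, Matrix.cons_val_one, Matrix.cons_val]
    ring

theorem nsq_cross (x v : V) :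
    nsq (crossProduct x v) = nsq x * nsq v - Complex.normSq (herm v x) := by
  unfold nsq herm
  rw [cross_apply]
  simp only [Fin.sum_univ_three, Matrix.cons_val_zero, Matrix.cons_val_one, Matrix.cons_val,
    Complex.normSq_apply, Complex.sub_re, Complex.sub_im, Complex.mul_re, Complex.mul_im,
    Complex.add_re, Complex.add_im, Complex.conj_re, Complex.conj_im]
  ring

theorem exists_alpha_poly (𝓕 : Foliation) :
    ∃ Q : Fin 3 → MvPolynomial (Fin 3) ℂ, (∀ j, (Q j).IsHomogeneous (𝓕.deg + 1)) ∧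
      (∀ x j, 𝓕.alpha x j = MvPolynomial.eval x (Q j)) ∧ ∃ j, Q j ≠ 0 := by
  obtain ⟨Q, hQ⟩ : ∃ Q : Fin 3 → MvPolynomial (Fin 3) ℂ,
    Q = ![MvPolynomial.X 1 * 𝓕.F 2 - MvPolynomial.X 2 * 𝓕.F 1,
      MvPolynomial.X 2 * 𝓕.F 0 - MvPolynomial.X 0 * 𝓕.F 2,
      MvPolynomial.X 0 * 𝓕.F 1 - MvPolynomial.X 1 * 𝓕.F 0] := ⟨_, rfl⟩
  have hm : ∀ i j, (MvPolynomial.X i * 𝓕.F j : MvPolynomial (Fin 3) ℂ).IsHomogeneous
      (𝓕.deg + 1) := fun i j => by
    rw [add_comm]
    exact (MvPolynomial.isHomogeneous_X ℂ i).mul (𝓕.hom j)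
  have hev : ∀ x j, 𝓕.alpha x j = MvPolynomial.eval x (Q j) := by
    intro x j
    unfold Foliation.alpha
    rw [cross_apply, hQ]
    fin_cases j <;> simp
  refine ⟨Q, ?_, hev, ?_⟩
  · intro j
    rw [hQ]
    fin_cases j
    · exact (hm 1 2).sub (hm 2 1)
    · exact (hm 2 0).sub (hm 0 2)
    · exact (hm 0 1).sub (hm 1 0)
  · by_contra hcon
    push Not at hcon
    have h0 : ∀ x, 𝓕.alpha x = 0 := fun x => by
      funext j
      rw [hev, hcon j, map_zero]
      rfl
    have hfin := 𝓕.finite_sing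
    have huniv : {ℓ : Projectivization ℂ V | crossProduct ℓ.rep
        (fun j => MvPolynomial.eval ℓ.rep (𝓕.F j)) = 0} = Set.univ :=
      Set.eq_univ_of_forall fun ℓ => h0 ℓ.rep
    rw [huniv] at hfin
    have hne : ∀ t : ℂ, (![1, t, 0] : V) ≠ 0 := fun t h => by
      have := congrFun h 0
      simp at this
    have hinj : Function.Injective (fun t : ℂ => Projectivization.mk ℂ (![1, t, 0] : V)
        (hne t)) := by
      intro t t' h
      obtain ⟨a, ha⟩ := (Projectivization.mk_eq_mk_iff' ℂ _ _ (hne t) (hne t')).1 h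
      have e0 := congrFun ha 0
      have e1 := congrFun ha 1
      simp at e0 e1
      rw [e0, one_mul] at e1
      exact e1.symm
    have : Infinite (Projectivization ℂ V) := Infinite.of_injective _ hinj
    exact Set.infinite_univ hfin

private noncomputable def AL_bl (G : Fin 3 → Fin 3 → ℂ) (a b : V) : ℂ :=
  ∑ j, ∑ k, a j * G j k * b k

private theorem AL_zero (x F η : V) (hdet : (Matrix.of ![x, F, fun i => conj (η i)]).det ≠ 0)
    (G : Fin 3 → Fin 3 → ℂ)
    (h : ∀ p q, AL_bl G ((![x, F, fun i => conj (η i)] : Fin 3 → V) p)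
      (fun k => conj ((![x, F, fun i => conj (η i)] : Fin 3 → V) q k)) = 0) (j k : Fin 3) :
    G j k = 0 := by
  obtain ⟨M, hM⟩ : ∃ M : Matrix (Fin 3) (Fin 3) ℂ, M = Matrix.of ![x, F, fun i => conj (η i)] :=
    ⟨_, rfl⟩
  have hMp : ∀ p i, M p i = (![x, F, fun i => conj (η i)] : Fin 3 → V) p i := fun p i => by
    rw [hM]
    rfl
  rw [← hM] at hdet
  have step1 : ∀ q j, ∑ k, G j k * conj (M q k) = 0 := by
    intro q
    have h1 : M.mulVec (fun j => ∑ k, G j k * conj (M q k)) = 0 := by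
      funext p
      show ∑ j, M p j * ∑ k, G j k * conj (M q k) = 0
      rw [← h p q, AL_bl]
      refine Finset.sum_congr rfl fun j _ => ?_
      rw [Finset.mul_sum]
      refine Finset.sum_congr rfl fun k _ => ?_
      rw [hMp, hMp]
      ring
    intro j
    exact congrFun (Matrix.eq_zero_of_mulVec_eq_zero hdet h1) j
  have h2 : M.mulVec (fun k => conj (G j k)) = 0 := by
    funext q
    show ∑ k, M q k * conj (G j k) = 0
    have h3 := congrArg conj (step1 q j)
    rw [map_sum, map_zero] at h3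
    rw [← h3]
    refine Finset.sum_congr rfl fun k _ => ?_
    rw [map_mul, Complex.conj_conj]
    ring
  have h4 := congrFun (Matrix.eq_zero_of_mulVec_eq_zero hdet h2) k
  have h5 := congrArg conj h4
  simpa using h5

private theorem AL_det (x F η : V) (hη : η ≠ 0) (h1 : ∑ j, x j * η j = 0)
    (h2 : ∑ j, F j * η j = 0) (h3 : nsq η = nsq x * nsq F - Complex.normSq (herm F x)) :
    (Matrix.of ![x, F, fun i => conj (η i)]).det ≠ 0 := by
  intro h
  -- `c x + d F + t conj η = 0` for a nonzero row vector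
  obtain ⟨v, hv, hv0⟩ := Matrix.exists_vecMul_eq_zero_iff.2 h
  have hc : ∀ i, v 0 * x i + v 1 * F i + v 2 * conj (η i) = 0 := by
    intro i
    have := congrFun hv0 i
    simpa [Matrix.vecMul, dotProduct, Fin.sum_univ_three] using this
  have he : (nsq η : ℂ) ≠ 0 := by
    exact_mod_cast (nsq_pos hη).ne'
  have hs : (nsq η : ℂ) = ∑ i, conj (η i) * η i := by
    unfold nsq
    push_cast
    exact Finset.sum_congr rfl fun i _ => Complex.normSq_eq_conj_mul_self
  have hv2 : v 2 = 0 := by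
    have e1 : ∑ i, (v 0 * x i + v 1 * F i + v 2 * conj (η i)) * η i = 0 :=
      Finset.sum_eq_zero fun i _ => by rw [hc i, zero_mul]
    have e2 : ∑ i, (v 0 * x i + v 1 * F i + v 2 * conj (η i)) * η i =
        v 0 * (∑ i, x i * η i) + v 1 * (∑ i, F i * η i) + v 2 * (∑ i, conj (η i) * η i) := by
      simp only [Fin.sum_univ_three]
      ring
    rw [e2, h1, h2, ← hs, mul_zero, mul_zero, zero_add, zero_add] at e1
    exact (mul_eq_zero.1 e1).resolve_right he
  -- the cross product of `x` and `F` vanishes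
  have hcr : nsq (crossProduct x F) = nsq η := by
    rw [nsq_cross, h3]
  have hx0 : ∀ i, v 0 * x i + v 1 * F i = 0 := fun i => by
    have := hc i
    rwa [hv2, zero_mul, add_zero] at this
  have hcross : crossProduct x F = 0 := by
    have hv01 : v 0 ≠ 0 ∨ v 1 ≠ 0 := by
      by_contra hcon
      push Not at hcon
      apply hv
      funext i
      fin_cases i
      · exact hcon.1
      · exact hcon.2
      · exact hv2
    have a0 := hx0 0
    have a1 := hx0 1
    have a2 := hx0 2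
    rw [cross_apply]
    funext i
    rcases hv01 with hw | hw
    · fin_cases i
      · show x 1 * F 2 - x 2 * F 1 = 0
        apply mul_left_cancel₀ hw
        linear_combination F 2 * a1 - F 1 * a2
      · show x 2 * F 0 - x 0 * F 2 = 0
        apply mul_left_cancel₀ hw
        linear_combination F 0 * a2 - F 2 * a0
      · show x 0 * F 1 - x 1 * F 0 = 0
        apply mul_left_cancel₀ hw
        linear_combination F 1 * a0 - F 0 * a1
    · fin_cases i
      · show x 1 * F 2 - x 2 * F 1 = 0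
        apply mul_left_cancel₀ hw
        linear_combination x 1 * a2 - x 2 * a1
      · show x 2 * F 0 - x 0 * F 2 = 0
        apply mul_left_cancel₀ hw
        linear_combination x 2 * a0 - x 0 * a2
      · show x 0 * F 1 - x 1 * F 0 = 0
        apply mul_left_cancel₀ hw
        linear_combination x 0 * a1 - x 1 * a0
  rw [hcross, nsq_eq_zero.2 rfl] at hcr
  exact (nsq_pos hη).ne hcr

private theorem AL_exp (x η a b : V) (A : Matrix (Fin 3) (Fin 3) ℂ) (N e q : ℂ)
    {ab ax xb ae eb : ℂ} (hab : ∑ j, a j * b j = ab) (hax : ∑ j, a j * conj (x j) = ax)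
    (hxb : ∑ j, x j * b j = xb) (hae : ∑ j, a j * η j = ae)
    (heb : ∑ j, conj (η j) * b j = eb) :
    AL_bl (fun j k => A j k - (N ^ 2 * (q / e) *
        ((if j = k then N⁻¹ else 0) - conj (x j) * x k / N ^ 2)
      + η j * ((∑ i, conj (η i) * A i k) / e - q * N / e ^ 2 * conj (η k))
      + ((∑ i, A j i * η i) / e - (∑ i, ∑ l, conj (η i) * A i l * η l) / e ^ 2 * η j)
        * conj (η k))) a b =
    AL_bl A a b - N ^ 2 * (q / e) * (ab / N - ax * xb / N ^ 2) -
      ae * (AL_bl A (fun i => conj (η i)) b / e - q * N / e ^ 2 * eb) -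
      (AL_bl A a η / e - AL_bl A (fun i => conj (η i)) η / e ^ 2 * ae) * eb := by
  rw [← hab, ← hax, ← hxb, ← hae, ← heb]
  unfold AL_bl
  simp only [Fin.sum_univ_three, Fin.isValue, if_true, if_false, Fin.reduceEq]
  ring

theorem form_decomp (x η F : V) (A : Matrix (Fin 3) (Fin 3) ℂ) (hx : x ≠ 0) (hη : η ≠ 0)
    (h1 : ∑ j, x j * η j = 0) (h2 : ∑ j, F j * η j = 0)
    (h3 : nsq η = nsq x * nsq F - Complex.normSq (herm F x))
    (h4 : ∀ k, ∑ j, x j * A j k = 0) (h5 : ∀ j, ∑ k, A j k * conj (x k) = 0) (j k : Fin 3) :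
    A j k = (nsq x : ℂ) ^ 2 * ((∑ j, ∑ k, A j k * F j * conj (F k)) / (nsq η : ℂ)) *
        fubiniStudy x j k
      + η j * ((∑ i, conj (η i) * A i k) / (nsq η : ℂ)
          - (∑ j, ∑ k, A j k * F j * conj (F k)) * (nsq x : ℂ) / (nsq η : ℂ) ^ 2 * conj (η k))
      + ((∑ i, A j i * η i) / (nsq η : ℂ)
          - (∑ i, ∑ l, conj (η i) * A i l * η l) / (nsq η : ℂ) ^ 2 * η j) * conj (η k) := by
  have hN : (nsq x : ℂ) ≠ 0 := by exact_mod_cast (nsq_pos hx).ne'
  have he : (nsq η : ℂ) ≠ 0 := by exact_mod_cast (nsq_pos hη).ne'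
  have sq : ∀ v : V, ∑ i, v i * conj (v i) = (nsq v : ℂ) := fun v => by
    unfold nsq
    push_cast
    exact Finset.sum_congr rfl fun i _ => by rw [Complex.mul_conj]
  have sq' : ∀ v : V, ∑ i, conj (v i) * v i = (nsq v : ℂ) := fun v => by
    rw [← sq v]
    exact Finset.sum_congr rfl fun i _ => mul_comm _ _
  have cj : ∀ u v : V, ∑ i, u i * v i = 0 → ∑ i, conj (u i) * conj (v i) = 0 := fun u v h => by
    have := congrArg conj h
    rw [map_sum, map_zero] at this
    rw [← this]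
    exact Finset.sum_congr rfl fun i _ => (map_mul conj _ _).symm
  have h1' : ∑ j, conj (x j) * conj (η j) = 0 := cj x η h1
  have h2' : ∑ j, conj (F j) * conj (η j) = 0 := cj F η h2
  have h1s : ∑ j, conj (η j) * conj (x j) = 0 := by
    rw [← h1']
    exact Finset.sum_congr rfl fun i _ => mul_comm _ _
  have h2s : ∑ j, conj (η j) * conj (F j) = 0 := by
    rw [← h2']
    exact Finset.sum_congr rfl fun i _ => mul_comm _ _
  obtain ⟨hh, hhh⟩ : ∃ hh : ℂ, ∑ j, F j * conj (x j) = hh := ⟨_, rfl⟩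
  have hhc : ∑ j, x j * conj (F j) = conj hh := by
    rw [← hhh, map_sum]
    refine Finset.sum_congr rfl fun i _ => ?_
    rw [map_mul, Complex.conj_conj, mul_comm]
  have hlag : (nsq η : ℂ) = nsq x * nsq F - hh * conj hh := by
    have e1 : herm F x = hh := hhh
    rw [h3, e1]
    push_cast
    rw [Complex.mul_conj]
  -- the form vanishes against `x` on the left and `conj x` on the right
  have z1 : ∀ b : V, AL_bl A x b = 0 := fun b => by
    have a0 := h4 0
    have a1 := h4 1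
    have a2 := h4 2
    unfold AL_bl
    simp only [Fin.sum_univ_three] at a0 a1 a2 ⊢
    linear_combination b 0 * a0 + b 1 * a1 + b 2 * a2
  have z2 : ∀ a : V, AL_bl A a (fun k => conj (x k)) = 0 := fun a => by
    have a0 := h5 0
    have a1 := h5 1
    have a2 := h5 2
    unfold AL_bl
    simp only [Fin.sum_univ_three] at a0 a1 a2 ⊢
    linear_combination a 0 * a0 + a 1 * a1 + a 2 * a2
  obtain ⟨Q, hQ⟩ : ∃ Q : ℂ, Q = ∑ j, ∑ k, A j k * F j * conj (F k) := ⟨_, rfl⟩
  have hQ' : AL_bl A F (fun k => conj (F k)) = Q := by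
    rw [hQ]
    unfold AL_bl
    exact Finset.sum_congr rfl fun j _ => Finset.sum_congr rfl fun k _ => by ring
  rw [← hQ]
  refine sub_eq_zero.1 (AL_zero x F η (AL_det x F η hη h1 h2 h3) (fun j k => A j k -
    ((nsq x : ℂ) ^ 2 * (Q / (nsq η : ℂ)) *
        ((if j = k then (nsq x : ℂ)⁻¹ else 0) - conj (x j) * x k / (nsq x : ℂ) ^ 2)
      + η j * ((∑ i, conj (η i) * A i k) / (nsq η : ℂ)
          - Q * (nsq x : ℂ) / (nsq η : ℂ) ^ 2 * conj (η k))
      + ((∑ i, A j i * η i) / (nsq η : ℂ)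
          - (∑ i, ∑ l, conj (η i) * A i l * η l) / (nsq η : ℂ) ^ 2 * η j) * conj (η k))) ?_ j k)
  intro p q
  fin_cases p
  · -- `x` on the left
    refine (AL_exp x η x _ A _ _ Q rfl (sq x) rfl h1 rfl).trans ?_
    rw [z1, z1]
    field_simp
    ring
  · fin_cases q
    · refine (AL_exp x η F (fun k => conj (x k)) A _ _ Q hhh hhh (sq x) h2 h1s).trans ?_
      rw [z2, z2]
      field_simp
      ring
    · refine (AL_exp x η F (fun k => conj (F k)) A _ _ Q (sq F) hhh hhc h2 h2s).trans ?_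
      rw [hQ']
      field_simp
      rw [hlag]
      ring
    · refine (AL_exp x η F (fun k => conj (conj (η k))) A _ _ Q
        (by simpa using h2) hhh (by simpa using h1) h2 (by simpa using sq' η)).trans ?_
      have e1 : (fun k => conj (conj (η k))) = η := funext fun k => Complex.conj_conj _
      rw [e1]
      field_simp
      ring
  · fin_cases q
    · refine (AL_exp x η (fun i => conj (η i)) (fun k => conj (x k)) A _ _ Q h1s h1s (sq x)
        (sq' η) h1s).trans ?_
      rw [z2]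
      field_simp
      ring
    · refine (AL_exp x η (fun i => conj (η i)) (fun k => conj (F k)) A _ _ Q h2s h1s hhc
        (sq' η) h2s).trans ?_
      field_simp
      ring
    · refine (AL_exp x η (fun i => conj (η i)) (fun k => conj (conj (η k))) A _ _ Q
        (by simpa using sq' η) h1s (by simpa using h1) (sq' η) (by simpa using sq' η)).trans ?_
      have e1 : (fun k => conj (conj (η k))) = η := funext fun k => Complex.conj_conj _
      rw [e1]
      field_simp
      ring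

end Pool.Agent.H24.CU

end S_H24_CU_AL

section S_H24_CU_FS

/-!
# Row FS (elementary facts on the Fubini-Study form and on Form11)

PROOFS.  (1) `fubiniStudy x` for `x ≠ 0`, `N = nsq x`: it is Hermitian; for `v`,
`star v ⬝ᵥ (fubiniStudy x *ᵥ v) = |v|^2/N - |∑ x_k v_k|^2/N^2 >= 0` by Cauchy-Schwarz
(`|∑ x_k v_k|^2 <= N |v|^2`).  For `x = 0` all the entries are `0` (`0⁻¹ = 0`, division by `0`).
(2) quadratic form as stated: direct expansion.
(3) `exists_scaled`, `exists_mul`, `exists_adj`: put `B 0 = 0` and `B x = ...` for `x ≠ 0`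
(`if x = 0 then 0 else ..`; for the adjoint no case distinction is needed). Smoothness on the open set
`{0}ᶜ` entrywise (`ContDiffOn.congr`; `nsq` is smooth and nonzero there; `conj` is smooth over `ℝ`).
-/

namespace Pool.Agent.H24.CU

open MeasureTheory
open scoped ComplexConjugate ComplexOrder ContDiff

theorem FS_lagrange (w x : V) : nsq x * nsq w - Complex.normSq (herm w x) =
    Complex.normSq (w 0 * x 1 - w 1 * x 0) + Complex.normSq (w 0 * x 2 - w 2 * x 0) +
      Complex.normSq (w 1 * x 2 - w 2 * x 1) := by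
  simp only [nsq, herm, Fin.sum_univ_three, Complex.normSq_apply, Complex.add_re, Complex.add_im,
    Complex.mul_re, Complex.mul_im, Complex.conj_re, Complex.conj_im, Complex.sub_re,
    Complex.sub_im]
  ring

theorem FS_nsq_cast (x : V) : ((nsq x : ℝ) : ℂ) = ∑ j, x j * conj (x j) := by
  simp only [nsq, Complex.ofReal_sum, Complex.mul_conj]

theorem FS_normSq_cast (z : ℂ) : ((Complex.normSq z : ℝ) : ℂ) = z * conj z :=
  (Complex.mul_conj z).symm

theorem fubiniStudy_quad (x : V) (hx : x ≠ 0) (v : V) :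
    ∑ j, ∑ k, fubiniStudy x j k * v j * conj (v k) =
      (((nsq x * nsq v - Complex.normSq (herm v x)) / nsq x ^ 2 : ℝ) : ℂ) := by
  have hN : ((nsq x : ℝ) : ℂ) ≠ 0 := by exact_mod_cast (nsq_pos hx).ne'
  have h1 : ∀ j k, fubiniStudy x j k * v j * conj (v k) =
      (if j = k then ((nsq x : ℂ))⁻¹ * (v j * conj (v k)) else 0) -
        (v j * conj (x j)) * (x k * conj (v k)) / (nsq x : ℂ) ^ 2 := by
    intro j k
    unfold fubiniStudy
    split_ifs with h
    · ring
    · ring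
  have h2 : ∀ j, ∑ k, fubiniStudy x j k * v j * conj (v k) =
      ((nsq x : ℂ))⁻¹ * (v j * conj (v j)) -
        (v j * conj (x j)) * (∑ k, x k * conj (v k)) / (nsq x : ℂ) ^ 2 := by
    intro j
    rw [Finset.sum_congr rfl fun k _ => h1 j k, Finset.sum_sub_distrib, Finset.sum_ite_eq,
      if_pos (Finset.mem_univ j), Finset.mul_sum, Finset.sum_div]
  rw [Finset.sum_congr rfl fun j _ => h2 j, Finset.sum_sub_distrib, ← Finset.mul_sum,
    ← Finset.sum_div, ← Finset.sum_mul, ← FS_nsq_cast v]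
  have h3 : (∑ j, v j * conj (x j)) = herm v x := rfl
  have h4 : (∑ k, x k * conj (v k)) = conj (herm v x) := by
    rw [herm, map_sum]
    exact Finset.sum_congr rfl fun k _ => by rw [map_mul, Complex.conj_conj, mul_comm]
  rw [h3, h4, ← FS_normSq_cast]
  push_cast
  field_simp

theorem FS_zero : fubiniStudy 0 = 0 := by
  ext j k
  simp [fubiniStudy, nsq]

theorem FS_conj (x : V) (j k : Fin 3) : conj (fubiniStudy x j k) = fubiniStudy x k j := by
  unfold fubiniStudy
  rw [map_sub, map_div₀, map_mul, map_pow, Complex.conj_conj, Complex.conj_ofReal]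
  have h : (starRingEnd ℂ) (if j = k then ((nsq x : ℂ))⁻¹ else 0) =
      if k = j then ((nsq x : ℂ))⁻¹ else 0 := by
    by_cases hjk : j = k
    · rw [if_pos hjk, if_pos hjk.symm, map_inv₀, Complex.conj_ofReal]
    · rw [if_neg hjk, if_neg (Ne.symm hjk), map_zero]
  rw [h, mul_comm (x j)]

theorem fubiniStudy_posSemidef (x : V) : (fubiniStudy x).PosSemidef := by
  by_cases hx : x = 0
  · subst hx
    rw [FS_zero]
    exact Matrix.PosSemidef.zero
  · refine Matrix.PosSemidef.of_dotProduct_mulVec_nonneg ?_ ?_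
    · ext j k
      rw [Matrix.conjTranspose_apply]
      exact FS_conj x k j
    · intro v
      have h1 : star v ⬝ᵥ (Matrix.mulVec (fubiniStudy x) v) =
          ∑ j, ∑ k, fubiniStudy x j k * (star v) j * conj ((star v) k) := by
        simp only [dotProduct, Matrix.mulVec, Finset.mul_sum]
        refine Finset.sum_congr rfl fun j _ => Finset.sum_congr rfl fun k _ => ?_
        simp only [Pi.star_apply, RCLike.star_def, Complex.conj_conj]
        ring
      rw [h1, fubiniStudy_quad x hx, FS_lagrange]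
      have h2 : (0 : ℝ) ≤ (Complex.normSq ((star v) 0 * x 1 - (star v) 1 * x 0) +
          Complex.normSq ((star v) 0 * x 2 - (star v) 2 * x 0) +
          Complex.normSq ((star v) 1 * x 2 - (star v) 2 * x 1)) / nsq x ^ 2 := by
        refine div_nonneg (add_nonneg (add_nonneg ?_ ?_) ?_) (sq_nonneg _) <;>
          exact Complex.normSq_nonneg _
      exact_mod_cast h2

theorem FS_smooth_coord (j : Fin 3) : ContDiff ℝ ∞ (fun x : V => x j) :=
  contDiff_apply ℝ ℂ j

theorem FS_smooth_conj (j : Fin 3) : ContDiff ℝ ∞ (fun x : V => conj (x j)) :=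
  Complex.conjCLE.contDiff.comp (FS_smooth_coord j)

theorem FS_smooth_nsq : ContDiff ℝ ∞ (fun x : V => ((nsq x : ℝ) : ℂ)) := by
  have h : (fun x : V => ((nsq x : ℝ) : ℂ)) = fun x => ∑ j, x j * conj (x j) :=
    funext fun x => FS_nsq_cast x
  rw [h]
  exact ContDiff.sum fun j _ => (FS_smooth_coord j).mul (FS_smooth_conj j)

theorem FS_smooth_inv : ContDiffOn ℝ ∞ (fun x : V => ((nsq x : ℝ) : ℂ)⁻¹) {0}ᶜ :=
  FS_smooth_nsq.contDiffOn.inv fun x hx => by exact_mod_cast (nsq_pos hx).ne'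

theorem FS_smooth_fs (j k : Fin 3) : ContDiffOn ℝ ∞ (fun x : V => fubiniStudy x j k) {0}ᶜ := by
  have h : (fun x : V => fubiniStudy x j k) = fun x => (if j = k then ((nsq x : ℂ))⁻¹ else 0) -
      conj (x j) * x k * (((nsq x : ℝ) : ℂ)⁻¹ * ((nsq x : ℝ) : ℂ)⁻¹) := by
    funext x
    unfold fubiniStudy
    rw [div_eq_mul_inv, ← mul_inv, ← pow_two]
  rw [h]
  refine ContDiffOn.sub ?_ ((((FS_smooth_conj j).mul (FS_smooth_coord k)).contDiffOn).mul
    (FS_smooth_inv.mul FS_smooth_inv))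
  by_cases hjk : j = k
  · simp only [if_pos hjk]
    exact FS_smooth_inv
  · simp only [if_neg hjk]
    exact contDiffOn_const

theorem FS_hom (c : ℂ) (x : V) (hc : c ≠ 0) :
    fubiniStudy (c • x) = ((Complex.normSq c : ℂ))⁻¹ • fubiniStudy x := by
  have hcc : (starRingEnd ℂ) c ≠ 0 := by simpa using hc
  ext j k
  rw [Matrix.smul_apply, smul_eq_mul]
  unfold fubiniStudy
  simp only [nsq_smul, Pi.smul_apply, smul_eq_mul, map_mul, Complex.ofReal_mul]
  rw [FS_normSq_cast c]
  by_cases hN : ((nsq x : ℝ) : ℂ) = 0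
  · simp [hN]
  · split_ifs with hjk
    · field_simp
    · rw [zero_sub, zero_sub]
      field_simp

theorem FS_basic_left (x : V) (hx : x ≠ 0) (k : Fin 3) : ∑ j, x j * fubiniStudy x j k = 0 := by
  have hN : ((nsq x : ℝ) : ℂ) ≠ 0 := by exact_mod_cast (nsq_pos hx).ne'
  have h1 : ∀ j, x j * fubiniStudy x j k = (if j = k then x j * ((nsq x : ℂ))⁻¹ else 0) -
      (x j * conj (x j)) * (x k / (nsq x : ℂ) ^ 2) := by
    intro j
    unfold fubiniStudy
    split_ifs with h
    · ring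
    · ring
  rw [Finset.sum_congr rfl fun j _ => h1 j, Finset.sum_sub_distrib, Finset.sum_ite_eq',
    if_pos (Finset.mem_univ k), ← Finset.sum_mul, ← FS_nsq_cast]
  field_simp
  ring

theorem FS_basic_right (x : V) (hx : x ≠ 0) (j : Fin 3) :
    ∑ k, fubiniStudy x j k * conj (x k) = 0 := by
  have h := congrArg (starRingEnd ℂ) (FS_basic_left x hx j)
  rw [map_sum, map_zero] at h
  rw [← h]
  refine Finset.sum_congr rfl fun k _ => ?_
  rw [map_mul, FS_conj, mul_comm]

/-- Building a form from a smooth homogeneous basic matrix field given off the origin. -/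
theorem FS_build (F : V → Matrix (Fin 3) (Fin 3) ℂ)
    (h1 : ∀ j k, ContDiffOn ℝ ∞ (fun x => F x j k) {0}ᶜ)
    (h3 : ∀ (c : ℂ) (x : V), c ≠ 0 → x ≠ 0 → F (c • x) = ((Complex.normSq c : ℂ))⁻¹ • F x)
    (h4 : ∀ x : V, x ≠ 0 → (∀ k, ∑ j, x j * F x j k = 0) ∧ (∀ j, ∑ k, F x j k * conj (x k) = 0)) :
    ∃ A : Form11, ∀ x : V, x ≠ 0 → A.1 x = F x := by
  classical
  refine ⟨⟨fun x => if x = 0 then 0 else F x, ?_, ?_, ?_, ?_⟩, fun x hx => if_neg hx⟩
  · intro j k
    refine (h1 j k).congr fun x hx => ?_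
    have hx' : x ≠ 0 := hx
    show (if x = 0 then (0 : Matrix (Fin 3) (Fin 3) ℂ) else F x) j k = _
    rw [if_neg hx']
  · exact if_pos rfl
  · intro c x hc hx
    show (if c • x = 0 then (0 : Matrix (Fin 3) (Fin 3) ℂ) else F (c • x)) =
      ((Complex.normSq c : ℂ))⁻¹ • (if x = 0 then (0 : Matrix (Fin 3) (Fin 3) ℂ) else F x)
    rw [if_neg (smul_ne_zero hc hx), if_neg hx, h3 c x hc hx]
  · intro x hx
    show (∀ k, ∑ j, x j * (if x = 0 then (0 : Matrix (Fin 3) (Fin 3) ℂ) else F x) j k = 0) ∧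
      (∀ j, ∑ k, (if x = 0 then (0 : Matrix (Fin 3) (Fin 3) ℂ) else F x) j k * conj (x k) = 0)
    rw [if_neg hx]
    exact h4 x hx

theorem exists_scaled (u : V → ℂ) (hu : IsFun u) :
    ∃ A : Form11, ∀ x : V, x ≠ 0 → A.1 x = u x • fubiniStudy x := by
  refine FS_build (fun x => u x • fubiniStudy x) ?_ ?_ ?_
  · intro j k
    exact hu.smooth.mul (FS_smooth_fs j k)
  · intro c x hc hx
    show u (c • x) • fubiniStudy (c • x) = _
    rw [hu.hom c x hc hx, FS_hom c x hc, smul_comm]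
  · intro x hx
    refine ⟨fun k => ?_, fun j => ?_⟩
    · have h := FS_basic_left x hx k
      rw [← mul_zero (u x), ← h, Finset.mul_sum]
      refine Finset.sum_congr rfl fun j _ => ?_
      simp only [Matrix.smul_apply, smul_eq_mul]
      ring
    · have h := FS_basic_right x hx j
      rw [← mul_zero (u x), ← h, Finset.mul_sum]
      refine Finset.sum_congr rfl fun k _ => ?_
      simp only [Matrix.smul_apply, smul_eq_mul]
      ring

theorem exists_mul (A : Form11) (u : V → ℂ) (hu : IsFun u) :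
    ∃ B : Form11, ∀ x : V, x ≠ 0 → B.1 x = u x • A.1 x := by
  obtain ⟨a1, -, a3, a4⟩ := A.2
  refine FS_build (fun x => u x • A.1 x) ?_ ?_ ?_
  · intro j k
    exact hu.smooth.mul (a1 j k)
  · intro c x hc hx
    show u (c • x) • A.1 (c • x) = _
    rw [hu.hom c x hc hx, a3 c x hc hx, smul_comm]
  · intro x hx
    refine ⟨fun k => ?_, fun j => ?_⟩
    · have h := (a4 x hx).1 k
      rw [← mul_zero (u x), ← h, Finset.mul_sum]
      refine Finset.sum_congr rfl fun j _ => ?_
      simp only [Matrix.smul_apply, smul_eq_mul]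
      ring
    · have h := (a4 x hx).2 j
      rw [← mul_zero (u x), ← h, Finset.mul_sum]
      refine Finset.sum_congr rfl fun k _ => ?_
      simp only [Matrix.smul_apply, smul_eq_mul]
      ring

theorem exists_adj (A : Form11) : ∃ B : Form11, ∀ x : V, B.1 x = (A.1 x).conjTranspose := by
  obtain ⟨a1, a2, a3, a4⟩ := A.2
  refine ⟨⟨fun x => (A.1 x).conjTranspose, ?_, ?_, ?_, ?_⟩, fun x => rfl⟩
  · intro j k
    exact Complex.conjCLE.contDiff.comp_contDiffOn (a1 k j)
  · show (A.1 0).conjTranspose = 0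
    rw [a2, Matrix.conjTranspose_zero]
  · intro c x hc hx
    show (A.1 (c • x)).conjTranspose = _
    rw [a3 c x hc hx, Matrix.conjTranspose_smul, star_inv₀, RCLike.star_def, Complex.conj_ofReal]
  · intro x hx
    refine ⟨fun k => ?_, fun j => ?_⟩
    · have h := congrArg (starRingEnd ℂ) ((a4 x hx).2 k)
      rw [map_sum, map_zero] at h
      rw [← h]
      refine Finset.sum_congr rfl fun j _ => ?_
      simp only [Matrix.conjTranspose_apply, RCLike.star_def, map_mul, Complex.conj_conj]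
      ring
    · have h := congrArg (starRingEnd ℂ) ((a4 x hx).1 j)
      rw [map_sum, map_zero] at h
      rw [← h]
      refine Finset.sum_congr rfl fun k _ => ?_
      simp only [Matrix.conjTranspose_apply, RCLike.star_def, map_mul]
      ring

end Pool.Agent.H24.CU

end S_H24_CU_FS

section S_H24_CU_RZ

/-!
# Row RZ (Riesz representation of the trace measure)

PROOF.  `K := {x : V // nsq x = 1}`, a compact Hausdorff space (closed and bounded subset of `V`;
`|x_j|^2 <= nsq x`).  `E := C(K, ℝ)`.  Domain `D : Submodule ℝ E` := the set of all `f` such that there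
is `χ : V → ℝ` with `IsFun (fun x => (χ x : ℂ))` and `f x = χ x` on `K`.
`χ` is determined off `0` by `f`: for `x ≠ 0`, `x = c • x1` with `nsq x1 = 1`, `c = √(nsq x)`,
so `χ x = χ x1`.  For such a `χ` let `A_χ` be the form of `exists_scaled`
(`A_χ x = χ x • fubiniStudy x` for `x ≠ 0`; unique by `Form11.ext_off`).  Define the linear map
`φ : D → ℝ`, `φ f = (T.toLin A_χ).re` with a chosen `χ` (well defined and linear by uniqueness).
Nonnegative: if `0 ≤ f` on `K` then `0 ≤ χ x` for `x ≠ 0`, so `A_χ x` is positive semidefinite for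
all `x` (`fubiniStudy_posSemidef`, at `0` it is the zero matrix) and `T.pos` applies.
Constants are in `D`, and every `y ∈ E` is bounded below (`K` compact), so the hypothesis `dense` of
`riesz_extension` (cone of nonnegative functions as a `PointedCone ℝ E`) holds: there is a linear
`g : E → ℝ` extending `φ`, nonnegative on nonnegative functions.
Transfer `g` to `Λ : C_c(K, ℝ) →ₚ[ℝ] ℝ` (`CompactlySupportedContinuousMap`, `K` is compact) and put
`μK := RealRMK.rieszMeasure Λ`, finite because `K` is compact and the measure is finite on compacts,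
`RealRMK.integral_rieszMeasure`.  `μ := μK.map Subtype.val` (the inclusion is measurable,
`MeasurableEmbedding` or `measurable_subtype_coe`).  Then `μ {x | nsq x ≠ 1} = 0`,
`∫ x, χ x ∂μ = ∫ x : K, χ x ∂μK = φ f = (T.toLin A).re`.  The imaginary part of `T.toLin A` is `0`:
`χ + C >= 0` off `0` for a constant `C` (bounded on `K`), so `T.pos` gives imaginary part `0` for the
forms of `χ + C` and of `C`, and `A` is the difference.
-/

namespace Pool.Agent.H24.CU

open MeasureTheory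
open scoped ComplexConjugate ComplexOrder ContDiff

/-- `μ` is the trace measure of `T`. -/
def IsRiesz (T : PosCurrent) (μ : Measure V) : Prop :=
  ∀ (χ : V → ℝ) (A : Form11), IsFun (fun x => (χ x : ℂ)) →
    (∀ x : V, x ≠ 0 → A.1 x = (χ x : ℂ) • fubiniStudy x) →
    T.toLin A = ((∫ x, χ x ∂μ : ℝ) : ℂ)

/-- abstract form: extension and representation of a positive functional -/
theorem RZ_abs {X : Type*} [TopologicalSpace X] [T2Space X] [CompactSpace X] [MeasurableSpace X]
    [BorelSpace X] (D : Submodule ℝ C(X, ℝ)) (φ : D →ₗ[ℝ] ℝ)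
    (hpos : ∀ f : D, (∀ x, 0 ≤ f.1 x) → 0 ≤ φ f)
    (hone : ∀ c : ℝ, ContinuousMap.const X c ∈ D) :
    ∃ μ : Measure X, IsFiniteMeasure μ ∧ ∀ f : D, ∫ x, f.1 x ∂μ = φ f := by
  let s : PointedCone ℝ C(X, ℝ) :=
    { carrier := {f | ∀ x, 0 ≤ f x}
      add_mem' := fun hf hg x => add_nonneg (hf x) (hg x)
      zero_mem' := fun x => le_rfl
      smul_mem' := fun c f hf x => mul_nonneg c.2 (hf x) }
  obtain ⟨g, hg1, hg2⟩ := riesz_extension s ⟨D, φ⟩ (fun f hf => hpos f hf) (by
    intro y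
    refine ⟨⟨ContinuousMap.const X ‖y‖, hone _⟩, fun x => ?_⟩
    have h1 := y.norm_coe_le_norm x
    rw [Real.norm_eq_abs] at h1
    have h2 := neg_abs_le (y x)
    show 0 ≤ ‖y‖ + y x
    linarith)
  let Λ : CompactlySupportedContinuousMap X ℝ →ₚ[ℝ] ℝ := PositiveLinearMap.mk₀
    { toFun := fun h => g h.toContinuousMap
      map_add' := fun a b => g.map_add a.toContinuousMap b.toContinuousMap
      map_smul' := fun c a => g.map_smul c a.toContinuousMap } (fun h hh => hg2 _ hh)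
  refine ⟨RealRMK.rieszMeasure Λ, inferInstance, fun f => ?_⟩
  have h3 := RealRMK.integral_rieszMeasure Λ ⟨f.1, HasCompactSupport.of_compactSpace _⟩
  exact h3.trans (hg1 f)

/-- the unit sphere -/
abbrev RZ_K : Type := {x : V // nsq x = 1}

theorem RZ_nsq_continuous : Continuous nsq :=
  continuous_finsetSum _ fun j _ => Complex.continuous_normSq.comp (continuous_apply j)

theorem RZ_isCompact : IsCompact {x : V | nsq x = 1} := by
  refine Metric.isCompact_of_isClosed_isBounded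
    (isClosed_eq RZ_nsq_continuous continuous_const) ?_
  rw [isBounded_iff_forall_norm_le]
  refine ⟨1, fun x hx => ?_⟩
  rw [pi_norm_le_iff_of_nonneg zero_le_one]
  intro j
  have h1 : Complex.normSq (x j) ≤ nsq x :=
    Finset.single_le_sum (f := fun j => Complex.normSq (x j)) (fun j _ => Complex.normSq_nonneg _)
      (Finset.mem_univ j)
  rw [show nsq x = 1 from hx, Complex.normSq_eq_norm_sq] at h1
  nlinarith [norm_nonneg (x j)]

instance RZ_compact : CompactSpace RZ_K := isCompact_iff_compactSpace.1 RZ_isCompact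

theorem RZ_ne {x : V} (hx : nsq x = 1) : x ≠ 0 := by
  rintro rfl
  rw [nsq_eq_zero.2 rfl] at hx
  exact zero_ne_one hx

/-- normalisation -/
noncomputable def RZ_nz (x : V) (hx : x ≠ 0) : RZ_K :=
  ⟨(((Real.sqrt (nsq x))⁻¹ : ℝ) : ℂ) • x, by
    rw [nsq_smul, Complex.normSq_ofReal, ← mul_inv, Real.mul_self_sqrt (nsq_nonneg x),
      inv_mul_cancel₀ (nsq_pos hx).ne']⟩

theorem RZ_fun_nz {χ : V → ℝ} (hχ : IsFun (fun x => (χ x : ℂ))) (x : V) (hx : x ≠ 0) :
    χ (RZ_nz x hx).1 = χ x := by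
  have h1 : (((Real.sqrt (nsq x))⁻¹ : ℝ) : ℂ) ≠ 0 := by
    rw [Ne, Complex.ofReal_eq_zero, inv_eq_zero, Real.sqrt_eq_zero (nsq_nonneg x)]
    exact (nsq_pos hx).ne'
  have h2 := hχ.hom _ x h1 hx
  exact_mod_cast h2

/-- the form with the given values on the sphere -/
noncomputable def RZ_psi (f : C(RZ_K, ℝ)) : V → Matrix (Fin 3) (Fin 3) ℂ := by
  classical
  exact fun x => if h : x = 0 then 0 else ((f (RZ_nz x h) : ℝ) : ℂ) • fubiniStudy x

theorem RZ_psi_zero (f : C(RZ_K, ℝ)) : RZ_psi f 0 = 0 := by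
  simp [RZ_psi]

theorem RZ_psi_ne (f : C(RZ_K, ℝ)) {x : V} (h : x ≠ 0) :
    RZ_psi f x = ((f (RZ_nz x h) : ℝ) : ℂ) • fubiniStudy x := by
  simp [RZ_psi, h]

theorem RZ_psi_add (f g : C(RZ_K, ℝ)) : RZ_psi (f + g) = RZ_psi f + RZ_psi g := by
  funext x
  by_cases h : x = 0
  · subst h
    rw [Pi.add_apply, RZ_psi_zero, RZ_psi_zero, RZ_psi_zero, add_zero]
  · rw [Pi.add_apply, RZ_psi_ne _ h, RZ_psi_ne _ h, RZ_psi_ne _ h, ContinuousMap.add_apply,
      Complex.ofReal_add, add_smul]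

theorem RZ_psi_smul (r : ℝ) (f : C(RZ_K, ℝ)) : RZ_psi (r • f) = (r : ℂ) • RZ_psi f := by
  funext x
  by_cases h : x = 0
  · subst h
    rw [Pi.smul_apply, RZ_psi_zero, RZ_psi_zero, smul_zero]
  · rw [Pi.smul_apply, RZ_psi_ne _ h, RZ_psi_ne _ h, ContinuousMap.smul_apply, smul_eq_mul,
      Complex.ofReal_mul, mul_smul]

/-- the functions on the sphere which give smooth forms -/
def RZ_D : Submodule ℝ C(RZ_K, ℝ) where
  carrier := {f | RZ_psi f ∈ Form11}
  add_mem' := by
    intro f g hf hg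
    show RZ_psi (f + g) ∈ Form11
    rw [RZ_psi_add]
    exact Form11.add_mem hf hg
  zero_mem' := by
    show RZ_psi 0 ∈ Form11
    have h : RZ_psi 0 = 0 := by
      have h1 := RZ_psi_smul 0 0
      rw [zero_smul, Complex.ofReal_zero, zero_smul] at h1
      exact h1
    rw [h]
    exact Form11.zero_mem
  smul_mem' := by
    intro r f hf
    show RZ_psi (r • f) ∈ Form11
    rw [RZ_psi_smul]
    exact Form11.smul_mem _ hf

/-- the functional on the sphere -/
noncomputable def RZ_phi (T : PosCurrent) : RZ_D →ₗ[ℝ] ℝ where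
  toFun f := (T.toLin ⟨RZ_psi f.1, f.2⟩).re
  map_add' f g := by
    have h : (⟨RZ_psi (f + g).1, (f + g).2⟩ : Form11) =
        ⟨RZ_psi f.1, f.2⟩ + ⟨RZ_psi g.1, g.2⟩ := Subtype.ext (RZ_psi_add f.1 g.1)
    rw [h, map_add, Complex.add_re]
  map_smul' r f := by
    have h : (⟨RZ_psi (r • f).1, (r • f).2⟩ : Form11) =
        (r : ℂ) • ⟨RZ_psi f.1, f.2⟩ := Subtype.ext (RZ_psi_smul r f.1)
    rw [h, map_smul, smul_eq_mul, Complex.re_ofReal_mul, RingHom.id_apply, smul_eq_mul]

/-- the restriction of a function to the sphere -/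
noncomputable def RZ_res {χ : V → ℝ} (hχ : IsFun (fun x => (χ x : ℂ))) : C(RZ_K, ℝ) :=
  ⟨fun x => χ x.1, by
    have h1 : ContinuousOn (fun x => (χ x : ℂ)) {0}ᶜ := hχ.smooth.continuousOn
    have h2 : ContinuousOn χ {0}ᶜ := by
      have h3 := Complex.continuous_re.comp_continuousOn h1
      exact h3
    exact h2.comp_continuous continuous_subtype_val fun x => RZ_ne x.2⟩

theorem RZ_res_psi {χ : V → ℝ} (hχ : IsFun (fun x => (χ x : ℂ))) (A : Form11)
    (hA : ∀ x : V, x ≠ 0 → A.1 x = (χ x : ℂ) • fubiniStudy x) : RZ_psi (RZ_res hχ) = A.1 := by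
  funext x
  by_cases h : x = 0
  · subst h
    rw [RZ_psi_zero, A.2.2.1]
  · rw [RZ_psi_ne _ h, hA x h]
    congr 2
    exact RZ_fun_nz hχ x h

theorem RZ_isFun_const (c : ℝ) : IsFun (fun _ => ((c : ℝ) : ℂ)) :=
  ⟨contDiffOn_const, fun _ _ _ _ => rfl⟩

theorem RZ_pos (T : PosCurrent) (f : RZ_D) (hf : ∀ x, 0 ≤ f.1 x) : 0 ≤ RZ_phi T f := by
  refine (T.pos ⟨RZ_psi f.1, f.2⟩ fun x => ?_).1
  show (RZ_psi f.1 x).PosSemidef
  by_cases h : x = 0
  · subst h
    rw [RZ_psi_zero]
    exact Matrix.PosSemidef.zero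
  · rw [RZ_psi_ne _ h]
    exact (fubiniStudy_posSemidef x).smul (by exact_mod_cast hf _)

/-- the imaginary part vanishes -/
theorem RZ_im (T : PosCurrent) {χ : V → ℝ} (hχ : IsFun (fun x => (χ x : ℂ))) (A : Form11)
    (hA : ∀ x : V, x ≠ 0 → A.1 x = (χ x : ℂ) • fubiniStudy x) : (T.toLin A).im = 0 := by
  obtain ⟨C, hC⟩ : ∃ C, C = ‖RZ_res hχ‖ := ⟨_, rfl⟩
  obtain ⟨B, hB⟩ := exists_scaled _ (RZ_isFun_const C)
  have hC0 : 0 ≤ C := hC ▸ norm_nonneg _
  have hbound : ∀ x : V, x ≠ 0 → 0 ≤ χ x + C := by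
    intro x hx
    have h1 := (RZ_res hχ).norm_coe_le_norm (RZ_nz x hx)
    rw [Real.norm_eq_abs, ← hC] at h1
    have h2 := neg_abs_le ((RZ_res hχ) (RZ_nz x hx))
    have h3 : (RZ_res hχ) (RZ_nz x hx) = χ x := RZ_fun_nz hχ x hx
    rw [h3] at h1 h2
    linarith
  have hzero : ∀ D : Form11, (D.1 0).PosSemidef := by
    intro D
    rw [D.2.2.1]
    exact Matrix.PosSemidef.zero
  have h1 := (T.pos (A + B) fun x => by
    by_cases h : x = 0
    · subst h
      exact hzero _
    · have h2 : (A + B).1 x = ((χ x + C : ℝ) : ℂ) • fubiniStudy x := by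
        show A.1 x + B.1 x = _
        rw [hA x h, hB x h, Complex.ofReal_add, add_smul]
      rw [h2]
      exact (fubiniStudy_posSemidef x).smul (by exact_mod_cast hbound x h)).2
  have h2 := (T.pos B fun x => by
    by_cases h : x = 0
    · subst h
      exact hzero _
    · rw [hB x h]
      exact (fubiniStudy_posSemidef x).smul (by exact_mod_cast hC0)).2
  rw [map_add, Complex.add_im, h2, add_zero] at h1
  exact h1

theorem riesz (T : PosCurrent) :
    ∃ μ : Measure V, IsFiniteMeasure μ ∧ μ {x | nsq x ≠ 1} = 0 ∧ IsRiesz T μ := by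
  have hmeas : MeasurableSet {x : V | nsq x = 1} :=
    (isClosed_eq RZ_nsq_continuous continuous_const).measurableSet
  have he : MeasurableEmbedding (Subtype.val : RZ_K → V) := MeasurableEmbedding.subtype_coe hmeas
  obtain ⟨μK, hfin, hμK⟩ := RZ_abs RZ_D (RZ_phi T) (RZ_pos T) (by
    intro c
    obtain ⟨B, hB⟩ := exists_scaled _ (RZ_isFun_const c)
    have h1 := RZ_res_psi (RZ_isFun_const c) B hB
    show RZ_psi (ContinuousMap.const RZ_K c) ∈ Form11
    have h2 : ContinuousMap.const RZ_K c = RZ_res (RZ_isFun_const c) := rfl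
    rw [h2, h1]
    exact B.2)
  refine ⟨μK.map Subtype.val, Measure.isFiniteMeasure_map _ _, ?_, ?_⟩
  · rw [he.map_apply]
    convert measure_empty (μ := μK)
    ext x
    simp [x.2]
  · intro χ A hχ hA
    have hψ := RZ_res_psi hχ A hA
    have hmem : RZ_res hχ ∈ RZ_D := by
      show RZ_psi (RZ_res hχ) ∈ Form11
      rw [hψ]
      exact A.2
    have h1 := hμK ⟨RZ_res hχ, hmem⟩
    have h2 : RZ_phi T ⟨RZ_res hχ, hmem⟩ = (T.toLin A).re := by
      show (T.toLin ⟨RZ_psi (RZ_res hχ), hmem⟩).re = _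
      congr 2
      exact Subtype.ext hψ
    have h3 : ∫ x, χ x ∂(μK.map Subtype.val) = (T.toLin A).re := by
      rw [he.integral_map, ← h2, ← h1]
      rfl
    rw [h3]
    apply Complex.ext
    · rw [Complex.ofReal_re]
    · rw [Complex.ofReal_im]
      exact RZ_im T hχ A hA

end Pool.Agent.H24.CU

end S_H24_CU_RZ

section S_H24_CU_RN

/-!
# Row RN (null sets, cut-off functions, bounds)

PROOFS.  (1) `curve_null`: for `ε > 0` take `χ, A` from `hT`; `1 <= χ` on `{P = 0} \ {0}` and `χ >= 0`,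
`χ` is measurable/integrable for `μ` (bounded and continuous on the compact sphere, `μ` is carried by
the sphere), so `μ {P = 0} <= ∫ χ dμ = (T.toLin A).re < ε` (the point `0` is not on the sphere, hence
`μ {0} = 0`).
(2) `sing_null`: `exists_alpha_poly` gives `j` with `Q j ≠ 0` homogeneous, `{α = 0} ⊆ {Q j = 0}`.
(3) `exists_cutoff`: `r x = nsq (α x) / nsq x ^ (deg+1)` is conic, smooth off `0` (a quotient of
polynomials in `x, conj x`) and `>= 0`.  Put `χ x = Real.smoothTransition (r x / δ - 1)`: it is `0` if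
`r x <= δ`, `1` if `r x >= 2 δ`, values in `[0,1]`.
(4) `dens_bound`: on the compact sphere `|A_jk| <= c`.  With `F' = F - herm F x • x` (for `nsq x = 1`),
`∑ A_jk F_j conj F_k = ∑ A_jk F'_j conj F'_k` (basic), `|..| <= 9 c nsq F'`, and
`nsq F' = nsq F - |herm F x|^2 = nsq (α x)` (`nsq_cross`).  If `α x = 0` then `dens = 0` (`x / 0 = 0`).
(5) measurability of `dens A.1` : the entries of `A` are continuous on `{0}ᶜ` and `A 0 = 0`, so they are
measurable (`ContinuousOn` on an open set plus a point), `vec`, `alpha` are continuous.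
-/

namespace Pool.Agent.H24.CU

open MeasureTheory
open scoped ComplexConjugate ComplexOrder ContDiff

theorem RN_meas {f : V → ℂ} (hf : ContDiffOn ℝ ∞ f {0}ᶜ) : Measurable f :=
  measurable_of_continuousOn_compl_singleton 0 hf.continuousOn

theorem RN_sphere_ne {x : V} (hx : nsq x = 1) : x ≠ 0 := by
  rintro rfl
  rw [nsq_eq_zero.2 rfl] at hx
  exact zero_ne_one hx

theorem RN_normSq_contDiff : ContDiff ℝ ∞ (fun z : ℂ => Complex.normSq z) := by
  have h : (fun z : ℂ => Complex.normSq z) = fun z : ℂ => z.re * z.re + z.im * z.im := by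
    funext z
    rw [Complex.normSq_apply]
  rw [h]
  exact (Complex.reCLM.contDiff.mul Complex.reCLM.contDiff).add
    (Complex.imCLM.contDiff.mul Complex.imCLM.contDiff)

theorem RN_nsq_contDiff : ContDiff ℝ ∞ nsq := by
  unfold nsq
  exact ContDiff.sum fun j _ => RN_normSq_contDiff.comp (contDiff_apply ℝ ℂ j)

theorem RN_poly_contDiff (P : MvPolynomial (Fin 3) ℂ) :
    ContDiff ℝ ∞ (fun x : V => MvPolynomial.eval x P) := by
  have h : ContDiff ℂ ∞ (fun x : V => MvPolynomial.eval x P) := by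
    have h1 := (AnalyticOnNhd.eval_mvPolynomial (𝕜 := ℂ) P)
    exact h1.contDiff
  exact h.restrict_scalars ℝ

theorem RN_alpha_contDiff (𝓕 : Foliation) : ContDiff ℝ ∞ 𝓕.alpha := by
  obtain ⟨Q, _, hQ, _⟩ := exists_alpha_poly 𝓕
  rw [contDiff_pi]
  intro j
  have h : (fun x => 𝓕.alpha x j) = fun x => MvPolynomial.eval x (Q j) := by
    funext x
    exact hQ x j
  rw [h]
  exact RN_poly_contDiff (Q j)

theorem RN_vec_contDiff (𝓕 : Foliation) : ContDiff ℝ ∞ 𝓕.vec := by
  rw [contDiff_pi]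
  intro j
  exact RN_poly_contDiff (𝓕.F j)

theorem RN_isCompact : IsCompact {x : V | nsq x = 1} := by
  refine Metric.isCompact_of_isClosed_isBounded ?_ ?_
  · exact isClosed_eq RN_nsq_contDiff.continuous continuous_const
  · rw [Metric.isBounded_iff_subset_closedBall 0]
    refine ⟨1, fun x hx => ?_⟩
    rw [mem_closedBall_zero_iff, pi_norm_le_iff_of_nonneg zero_le_one]
    intro j
    have h1 : Complex.normSq (x j) ≤ 1 := by
      have h2 : nsq x = 1 := hx
      rw [← h2]
      exact Finset.single_le_sum (f := fun j => Complex.normSq (x j))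
        (fun i _ => Complex.normSq_nonneg _) (Finset.mem_univ j)
    rw [Complex.normSq_eq_norm_sq] at h1
    exact (sq_le_one_iff₀ (norm_nonneg _)).1 h1

theorem RN_bounded {f : V → ℂ} (hf : ContDiffOn ℝ ∞ f {0}ᶜ) :
    ∃ C : ℝ, 0 ≤ C ∧ ∀ x : V, nsq x = 1 → ‖f x‖ ≤ C := by
  obtain ⟨C, hC⟩ := RN_isCompact.exists_bound_of_continuousOn
    (hf.continuousOn.mono fun x hx => RN_sphere_ne hx)
  exact ⟨max C 0, le_max_right _ _, fun x hx => (hC x hx).trans (le_max_left _ _)⟩

theorem curve_null (T : PosCurrent) (hT : T.Diffuse) (μ : Measure V) [IsFiniteMeasure μ]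
    (hs : μ {x | nsq x ≠ 1} = 0) (h : IsRiesz T μ) (n : ℕ) (P : MvPolynomial (Fin 3) ℂ)
    (hP : P.IsHomogeneous n) (hP0 : P ≠ 0) : μ {x | MvPolynomial.eval x P = 0} = 0 := by
  have hae : ∀ᵐ x ∂μ, nsq x = 1 := hs
  have hZ : MeasurableSet {x : V | MvPolynomial.eval x P = 0} :=
    (isClosed_eq (RN_poly_contDiff P).continuous continuous_const).measurableSet
  have key : ∀ ε : ℝ, 0 < ε → (μ {x | MvPolynomial.eval x P = 0}).toReal ≤ ε := by
    intro ε hε
    obtain ⟨χ, A, h1, h2, h3, h4, h5⟩ := hT n P hP hP0 ε hε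
    have h6 := h χ A h1 h4
    rw [h6, Complex.ofReal_re] at h5
    have hm : Measurable χ := by
      have := RN_meas h1.smooth
      exact Complex.measurable_re.comp this
    obtain ⟨C, hC0, hC⟩ := RN_bounded h1.smooth
    have hi : Integrable χ μ := by
      refine Integrable.of_bound hm.aestronglyMeasurable C ?_
      filter_upwards [hae] with x hx
      have := hC x hx
      rwa [Complex.norm_real] at this
    have h7 : ∫ x, Set.indicator {x : V | MvPolynomial.eval x P = 0} (fun _ => (1 : ℝ)) x ∂μ ≤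
        ∫ x, χ x ∂μ := by
      refine integral_mono_ae ((integrable_const 1).indicator hZ) hi ?_
      filter_upwards [hae] with x hx
      by_cases hx2 : MvPolynomial.eval x P = 0
      · rw [Set.indicator_of_mem (show x ∈ {x : V | MvPolynomial.eval x P = 0} from hx2)]
        exact h3 x (RN_sphere_ne hx) hx2
      · rw [Set.indicator_of_notMem (show x ∉ {x : V | MvPolynomial.eval x P = 0} from hx2)]
        exact h2 x
    rw [integral_indicator hZ, setIntegral_const, smul_eq_mul, mul_one] at h7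
    exact h7.trans h5.le
  have h0 : (μ {x | MvPolynomial.eval x P = 0}).toReal ≤ 0 :=
    le_of_forall_pos_le_add fun ε hε => by
      rw [zero_add]
      exact key ε hε
  have h1 : (μ {x | MvPolynomial.eval x P = 0}).toReal = 0 := le_antisymm h0 ENNReal.toReal_nonneg
  rcases (ENNReal.toReal_eq_zero_iff _).1 h1 with h2 | h2
  · exact h2
  · exact absurd h2 (measure_ne_top μ _)

theorem sing_null (𝓕 : Foliation) (T : PosCurrent) (hT : T.Diffuse) (μ : Measure V)
    [IsFiniteMeasure μ] (hs : μ {x | nsq x ≠ 1} = 0) (h : IsRiesz T μ) :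
    μ {x | 𝓕.alpha x = 0} = 0 := by
  obtain ⟨Q, hQ1, hQ2, j, hj⟩ := exists_alpha_poly 𝓕
  refine measure_mono_null ?_ (curve_null T hT μ hs h (𝓕.deg + 1) (Q j) (hQ1 j) hj)
  intro x hx
  have h1 : 𝓕.alpha x = 0 := hx
  have h2 : MvPolynomial.eval x (Q j) = 0 := by
    rw [← hQ2 x j, h1]
    rfl
  exact h2

theorem exists_cutoff (𝓕 : Foliation) (δ : ℝ) (hδ : 0 < δ) :
    ∃ χ : V → ℝ, IsFun (fun x => (χ x : ℂ)) ∧ (∀ x, 0 ≤ χ x) ∧ (∀ x, χ x ≤ 1) ∧
      (∀ x : V, x ≠ 0 → nsq (𝓕.alpha x) ≤ δ * nsq x ^ (𝓕.deg + 1) → χ x = 0) ∧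
      (∀ x : V, x ≠ 0 → 2 * δ * nsq x ^ (𝓕.deg + 1) ≤ nsq (𝓕.alpha x) → χ x = 1) := by
  refine ⟨fun x => Real.smoothTransition (nsq (𝓕.alpha x) / nsq x ^ (𝓕.deg + 1) / δ - 1),
    ⟨?_, ?_⟩, fun x => Real.smoothTransition.nonneg _, fun x => Real.smoothTransition.le_one _,
    fun x hx h => ?_, fun x hx h => ?_⟩
  · have h1 : ContDiffOn ℝ ∞ (fun x : V => nsq (𝓕.alpha x) / nsq x ^ (𝓕.deg + 1) / δ - 1)
        {0}ᶜ := by
      refine ContDiffOn.sub (ContDiffOn.div_const (ContDiffOn.div ?_ ?_ ?_) δ) contDiffOn_const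
      · exact (RN_nsq_contDiff.comp (RN_alpha_contDiff 𝓕)).contDiffOn
      · exact (RN_nsq_contDiff.pow _).contDiffOn
      · intro x hx
        exact pow_ne_zero _ (nsq_pos hx).ne'
    have h2 : ContDiff ℝ ∞ Real.smoothTransition := Real.smoothTransition.contDiff
    exact Complex.ofRealCLM.contDiff.comp_contDiffOn (h2.comp_contDiffOn h1)
  · intro c x hc hx
    beta_reduce
    congr 3
    rw [alpha_smul, nsq_smul, nsq_smul, mul_pow, map_pow]
    rw [mul_div_mul_left]
    exact pow_ne_zero _ (Complex.normSq_pos.2 hc).ne'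
  · apply Real.smoothTransition.zero_of_nonpos
    have h1 : 0 < nsq x ^ (𝓕.deg + 1) := pow_pos (nsq_pos hx) _
    have h2 : nsq (𝓕.alpha x) / nsq x ^ (𝓕.deg + 1) ≤ δ := (div_le_iff₀ h1).2 h
    have h3 : nsq (𝓕.alpha x) / nsq x ^ (𝓕.deg + 1) / δ ≤ 1 := (div_le_one₀ hδ).2 h2
    linarith
  · apply Real.smoothTransition.one_of_one_le
    have h1 : 0 < nsq x ^ (𝓕.deg + 1) := pow_pos (nsq_pos hx) _
    have h2 : 2 * δ ≤ nsq (𝓕.alpha x) / nsq x ^ (𝓕.deg + 1) := (le_div_iff₀ h1).2 h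
    have h3 : 2 ≤ nsq (𝓕.alpha x) / nsq x ^ (𝓕.deg + 1) / δ := (le_div_iff₀ hδ).2 h2
    linarith

theorem RN_expand (A : Matrix (Fin 3) (Fin 3) ℂ) (x F : V) (t : ℂ)
    (h1 : ∀ k, ∑ j, x j * A j k = 0) (h2 : ∀ j, ∑ k, A j k * conj (x k) = 0) :
    ∑ j, ∑ k, A j k * (F j - t * x j) * conj (F k - t * x k) =
      ∑ j, ∑ k, A j k * F j * conj (F k) := by
  have e1 := h1 0
  have e2 := h1 1
  have e3 := h1 2
  have g1 := h2 0
  have g2 := h2 1
  have g3 := h2 2
  simp only [Fin.sum_univ_three, map_sub, map_mul] at *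
  linear_combination (-(t * (conj (F 0) - conj t * conj (x 0)))) * e1
    + (-(t * (conj (F 1) - conj t * conj (x 1)))) * e2
    + (-(t * (conj (F 2) - conj t * conj (x 2)))) * e3
    - conj t * F 0 * g1 - conj t * F 1 * g2 - conj t * F 2 * g3

theorem RN_nsq_sub (x F : V) (hx : nsq x = 1) :
    nsq (fun j => F j - herm F x * x j) = nsq F - Complex.normSq (herm F x) := by
  have key : (((nsq (fun j => F j - herm F x * x j)) : ℝ) : ℂ) =
      ((nsq F - Complex.normSq (herm F x) : ℝ) : ℂ) := by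
    have hx' : x 0 * conj (x 0) + x 1 * conj (x 1) + x 2 * conj (x 2) = 1 := by
      have : ((nsq x : ℝ) : ℂ) = 1 := by rw [hx, Complex.ofReal_one]
      rw [← this]
      simp only [nsq, Fin.sum_univ_three, Complex.ofReal_add, Complex.normSq_eq_conj_mul_self]
      ring
    have hh : herm F x = F 0 * conj (x 0) + F 1 * conj (x 1) + F 2 * conj (x 2) := by
      simp only [herm, Fin.sum_univ_three]
    have hh' : conj (herm F x) = conj (F 0) * x 0 + conj (F 1) * x 1 + conj (F 2) * x 2 := by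
      rw [hh]
      simp only [map_add, map_mul, Complex.conj_conj]
    simp only [nsq, Fin.sum_univ_three, Complex.ofReal_add, Complex.ofReal_sub,
      Complex.normSq_eq_conj_mul_self, map_sub, map_mul]
    generalize herm F x = t at *
    linear_combination (conj t * t) * hx' - conj t * hh.symm - t * hh'.symm
  exact_mod_cast key

theorem RN_norm_le (v : V) (j : Fin 3) : ‖v j‖ ≤ Real.sqrt (nsq v) := by
  apply Real.le_sqrt_of_sq_le
  rw [← Complex.normSq_eq_norm_sq]
  exact Finset.single_le_sum (f := fun j => Complex.normSq (v j))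
    (fun i _ => Complex.normSq_nonneg _) (Finset.mem_univ j)

theorem RN_quad_le (A : Matrix (Fin 3) (Fin 3) ℂ) (v : V) (c : ℝ) (hc : 0 ≤ c)
    (hA : ∀ j k, ‖A j k‖ ≤ c) : ‖∑ j, ∑ k, A j k * v j * conj (v k)‖ ≤ 9 * c * nsq v := by
  have h1 : ∀ j k, ‖A j k * v j * conj (v k)‖ ≤ c * nsq v := by
    intro j k
    rw [norm_mul, norm_mul, Complex.norm_conj, mul_assoc]
    refine mul_le_mul (hA j k) ?_ (by positivity) hc
    calc ‖v j‖ * ‖v k‖ ≤ Real.sqrt (nsq v) * Real.sqrt (nsq v) :=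
          mul_le_mul (RN_norm_le v j) (RN_norm_le v k) (norm_nonneg _) (Real.sqrt_nonneg _)
      _ = nsq v := Real.mul_self_sqrt (nsq_nonneg v)
  calc ‖∑ j, ∑ k, A j k * v j * conj (v k)‖ ≤ ∑ j : Fin 3, ‖∑ k, A j k * v j * conj (v k)‖ :=
        norm_sum_le _ _
    _ ≤ ∑ j : Fin 3, ∑ k : Fin 3, ‖A j k * v j * conj (v k)‖ :=
        Finset.sum_le_sum fun j _ => norm_sum_le _ _
    _ ≤ ∑ j : Fin 3, ∑ k : Fin 3, c * nsq v :=
        Finset.sum_le_sum fun j _ => Finset.sum_le_sum fun k _ => h1 j k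
    _ = 9 * c * nsq v := by
        simp only [Finset.sum_const, Finset.card_univ, Fintype.card_fin, nsmul_eq_mul]
        push_cast
        ring

theorem RN_entries_bound (A : Form11) :
    ∃ c : ℝ, 0 ≤ c ∧ ∀ x : V, nsq x = 1 → ∀ j k, ‖A.1 x j k‖ ≤ c := by
  have h : ∀ j k, ∃ C : ℝ, 0 ≤ C ∧ ∀ x : V, nsq x = 1 → ‖A.1 x j k‖ ≤ C := fun j k =>
    RN_bounded (A.2.1 j k)
  choose C hC0 hC using h
  refine ⟨∑ j, ∑ k, C j k, Finset.sum_nonneg fun j _ => Finset.sum_nonneg fun k _ => hC0 j k,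
    fun x hx j k => (hC j k x hx).trans ?_⟩
  calc C j k ≤ ∑ k, C j k := Finset.single_le_sum (f := fun k => C j k)
        (fun k _ => hC0 j k) (Finset.mem_univ k)
    _ ≤ ∑ j, ∑ k, C j k := Finset.single_le_sum (f := fun j => ∑ k, C j k)
        (fun j _ => Finset.sum_nonneg fun k _ => hC0 j k) (Finset.mem_univ j)

theorem dens_bound (𝓕 : Foliation) (A : Form11) :
    ∃ C : ℝ, 0 ≤ C ∧ ∀ x : V, nsq x = 1 → ‖𝓕.dens A.1 x‖ ≤ C := by
  obtain ⟨c, hc, hA⟩ := RN_entries_bound A
  refine ⟨9 * c, by positivity, fun x hx => ?_⟩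
  have hx0 := RN_sphere_ne hx
  have h1 := RN_expand (A.1 x) x (𝓕.vec x) (herm (𝓕.vec x) x) (A.2.2.2.2 x hx0).1
    (A.2.2.2.2 x hx0).2
  have h2 := RN_quad_le (A.1 x) (fun j => 𝓕.vec x j - herm (𝓕.vec x) x * x j) c hc (hA x hx)
  rw [RN_nsq_sub x (𝓕.vec x) hx] at h2
  beta_reduce at h2
  rw [h1] at h2
  have h3 : nsq (𝓕.alpha x) = nsq (𝓕.vec x) - Complex.normSq (herm (𝓕.vec x) x) := by
    have := nsq_cross x (𝓕.vec x)
    rw [hx, one_mul] at this
    exact this
  rw [← h3] at h2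
  unfold Foliation.dens
  rw [norm_div, Complex.norm_real, Real.norm_of_nonneg (nsq_nonneg _)]
  exact div_le_of_le_mul₀ (nsq_nonneg _) (by positivity) h2

theorem measurable_dens (𝓕 : Foliation) (A : Form11) : Measurable (𝓕.dens A.1) := by
  unfold Foliation.dens
  have hv : ∀ j, Measurable fun x => 𝓕.vec x j := fun j =>
    ((continuous_apply j).comp (RN_vec_contDiff 𝓕).continuous).measurable
  refine Measurable.div ?_ ?_
  · refine Finset.measurable_fun_sum _ fun j _ => Finset.measurable_fun_sum _ fun k _ => ?_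
    refine ((RN_meas (A.2.1 j k)).mul (hv j)).mul ?_
    exact Complex.continuous_conj.measurable.comp (hv k)
  · exact Complex.measurable_ofReal.comp
      (RN_nsq_contDiff.comp (RN_alpha_contDiff 𝓕)).continuous.measurable

end Pool.Agent.H24.CU

end S_H24_CU_RN

section S_H24_CU_RB

/-!
# Row RB (adjoint and bound)

PROOFS.  Let `H` be in `Form11` with `H x` Hermitian for all `x`.  On the compact set
`K = {nsq x = 1}` the entries are bounded, `|H_jk| <= c`.  For `x ∈ K` and a vector `v` write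
`a = conj v` (so `star v ⬝ᵥ (H *ᵥ v) = ∑ H_jk a_j conj(a_k) =: H(a,a)`) and `a' = a - herm a x • x`;
since `∑ x_j H_jk = 0` and `∑ H_jk conj x_k = 0`, `H(a,a) = H(a',a')`, `|H(a',a')| <= 9 c |a'|^2`
and `|a'|^2 = fubiniStudy x (a,a)` (`fubiniStudy_quad`).  By homogeneity (both scale by `(normSq c)⁻¹`)
for all `x ≠ 0` the matrices `C • fubiniStudy x ± H x` are positive semidefinite, `C = 9 c`.
(0) Hence (form `C • W ± H`, `W` the form of `exists_scaled` with `u = 1`) `T.pos` shows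
`(T.toLin H).im = 0`.
(1) `toLin_adj`: `A = H1 + i H2`, `H1 = (A + A†)/2`, `H2 = (A - A†)/(2i)`, both Hermitian;
`B = A† = H1 - i H2`, `T.toLin B = T H1 - i T H2 = conj (T H1 + i T H2)`.
(2) `exists_bound`: with the constants `C1, C2` for `H1, H2` and `ψ >= 0`:
`ψ (C_i W ± H_i)` is positive semidefinite, so `|T(ψ H_i)| <= C_i T(ψ W)`;
`‖T(ψ A)‖ <= (C1 + C2) (T (ψ W)).re`.  (Forms are determined off `0`: `Form11.ext_off`; use
`exists_mul`, `exists_adj`, `exists_scaled` to produce the intermediate forms.)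
-/

namespace Pool.Agent.H24.CU

open MeasureTheory
open scoped ComplexConjugate ComplexOrder ContDiff

theorem RB_quad (M : Matrix (Fin 3) (Fin 3) ℂ) (v : V) :
    star v ⬝ᵥ (M.mulVec v) =
      ∑ j, ∑ k, M j k * ((fun i => conj (v i)) : V) j * conj (((fun i => conj (v i)) : V) k) := by
  simp only [dotProduct, Matrix.mulVec, Pi.star_apply, Finset.mul_sum, Complex.conj_conj]
  refine Finset.sum_congr rfl fun j _ => Finset.sum_congr rfl fun k _ => ?_
  simp only [RCLike.star_def]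
  ring

theorem RB_le_nsq (x : V) (j : Fin 3) : Complex.normSq (x j) ≤ nsq x :=
  Finset.single_le_sum (f := fun j => Complex.normSq (x j))
    (fun i _ => Complex.normSq_nonneg (x i)) (Finset.mem_univ j)

theorem RB_continuous_nsq : Continuous nsq := by
  unfold nsq
  exact continuous_finsetSum _ fun j _ => Complex.continuous_normSq.comp (continuous_apply j)

theorem RB_compact : IsCompact {x : V | nsq x = 1} := by
  apply Metric.isCompact_of_isClosed_isBounded
  · exact isClosed_eq RB_continuous_nsq continuous_const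
  · apply (Metric.isBounded_closedBall (x := (0 : V)) (r := 1)).subset
    intro x hx
    have hx1 : nsq x = 1 := hx
    rw [mem_closedBall_zero_iff, pi_norm_le_iff_of_nonneg zero_le_one]
    intro j
    have h1 := RB_le_nsq x j
    rw [hx1, Complex.normSq_eq_norm_sq] at h1
    have h2 := norm_nonneg (x j)
    nlinarith

theorem RB_bound (A : Form11) :
    ∃ c : ℝ, 0 ≤ c ∧ ∀ x : V, x ≠ 0 → ∀ j k, ‖A.1 x j k‖ ≤ c / nsq x := by
  have hsub : {x : V | nsq x = 1} ⊆ ({0}ᶜ : Set V) := by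
    intro x hx h0
    have hx1 : nsq x = 1 := hx
    rw [Set.mem_singleton_iff] at h0
    rw [nsq_eq_zero.2 h0] at hx1
    exact zero_ne_one hx1
  have hb : ∀ j k, ∃ c : ℝ, ∀ x ∈ {x : V | nsq x = 1}, ‖A.1 x j k‖ ≤ c := by
    intro j k
    exact RB_compact.exists_bound_of_continuousOn (((A.2.1 j k).continuousOn).mono hsub)
  choose c hc using hb
  refine ⟨∑ j, ∑ k, |c j k|, Finset.sum_nonneg fun j _ => Finset.sum_nonneg fun k _ => abs_nonneg _, ?_⟩
  intro x hx j k
  have hN := nsq_pos hx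
  have hs : 0 < Real.sqrt (nsq x) := Real.sqrt_pos.2 hN
  have hsc : ((Real.sqrt (nsq x) : ℝ) : ℂ) ≠ 0 := by exact_mod_cast hs.ne'
  set s : ℂ := ((Real.sqrt (nsq x) : ℝ) : ℂ) with hsdef
  have hns : Complex.normSq s = nsq x := by
    rw [hsdef, Complex.normSq_ofReal, Real.mul_self_sqrt hN.le]
  set y : V := s⁻¹ • x with hy
  have hxy : x = s • y := by rw [hy, smul_inv_smul₀ hsc]
  have hy1 : nsq y = 1 := by
    rw [hy, nsq_smul, Complex.normSq_inv, hns, inv_mul_cancel₀ hN.ne']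
  have hy0 : y ≠ 0 := fun h => by
    rw [nsq_eq_zero.2 h] at hy1
    exact zero_ne_one hy1
  have hA : A.1 x j k = ((nsq x : ℝ) : ℂ)⁻¹ * A.1 y j k := by
    have := A.2.2.2.1 s y hsc hy0
    rw [← hxy, hns] at this
    rw [this]
    rfl
  rw [hA, norm_mul, norm_inv, Complex.norm_real, Real.norm_of_nonneg hN.le, div_eq_inv_mul]
  apply mul_le_mul_of_nonneg_left _ (inv_nonneg.2 hN.le)
  calc ‖A.1 y j k‖ ≤ c j k := hc j k y hy1
    _ ≤ |c j k| := le_abs_self _
    _ ≤ ∑ k, |c j k| := Finset.single_le_sum (f := fun k => |c j k|)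
        (fun i _ => abs_nonneg _) (Finset.mem_univ k)
    _ ≤ ∑ j, ∑ k, |c j k| := Finset.single_le_sum (f := fun j => ∑ k, |c j k|)
        (fun i _ => Finset.sum_nonneg fun k _ => abs_nonneg _) (Finset.mem_univ j)

theorem RB_shift (M : Matrix (Fin 3) (Fin 3) ℂ) (x a : V) (l : ℂ)
    (h1 : ∀ k, ∑ j, x j * M j k = 0) (h2 : ∀ j, ∑ k, M j k * conj (x k) = 0) :
    ∑ j, ∑ k, M j k * a j * conj (a k) =
      ∑ j, ∑ k, M j k * (a j - l * x j) * conj (a k - l * x k) := by
  have e1 : ∀ (b : V), ∑ j, ∑ k, M j k * x j * conj (b k) = 0 := by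
    intro b
    rw [Finset.sum_comm]
    apply Finset.sum_eq_zero
    intro k _
    have := h1 k
    calc ∑ j, M j k * x j * conj (b k) = (∑ j, x j * M j k) * conj (b k) := by
          rw [Finset.sum_mul]
          exact Finset.sum_congr rfl fun j _ => by ring
      _ = 0 := by rw [this, zero_mul]
  have e2 : ∀ (b : V), ∑ j, ∑ k, M j k * b j * conj (x k) = 0 := by
    intro b
    apply Finset.sum_eq_zero
    intro j _
    have := h2 j
    calc ∑ k, M j k * b j * conj (x k) = b j * (∑ k, M j k * conj (x k)) := by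
          rw [Finset.mul_sum]
          exact Finset.sum_congr rfl fun j _ => by ring
      _ = 0 := by rw [this, mul_zero]
  have h3 := e1 a
  have h4 := e2 a
  have h5 := e1 x
  have : ∑ j, ∑ k, M j k * (a j - l * x j) * conj (a k - l * x k) =
      ∑ j, ∑ k, M j k * a j * conj (a k) - l * ∑ j, ∑ k, M j k * x j * conj (a k)
        - conj l * ∑ j, ∑ k, M j k * a j * conj (x k)
        + l * conj l * ∑ j, ∑ k, M j k * x j * conj (x k) := by
    simp only [Finset.mul_sum, ← Finset.sum_add_distrib, ← Finset.sum_sub_distrib]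
    refine Finset.sum_congr rfl fun j _ => Finset.sum_congr rfl fun k _ => ?_
    rw [map_sub, map_mul]
    ring
  rw [this, h3, h4, h5]
  ring

theorem RB_nsq_shift (x a : V) (hx : x ≠ 0) :
    nsq (fun j => a j - herm a x / (nsq x : ℂ) * x j) =
      (nsq x * nsq a - Complex.normSq (herm a x)) / nsq x := by
  have hN := nsq_pos hx
  have hNc : ((nsq x : ℝ) : ℂ) ≠ 0 := by exact_mod_cast hN.ne'
  have hn : ∀ y : V, ((nsq y : ℝ) : ℂ) = ∑ j, y j * conj (y j) := by
    intro y
    simp only [nsq, Complex.ofReal_sum, Complex.mul_conj]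
  apply Complex.ofReal_injective
  rw [hn]
  set l : ℂ := herm a x / (nsq x : ℂ) with hl
  have hh : herm a x = l * (nsq x : ℂ) := by rw [hl, div_mul_cancel₀ _ hNc]
  have hh' : conj (herm a x) = ∑ j, x j * conj (a j) := by
    simp only [herm, map_sum, map_mul, Complex.conj_conj]
    exact Finset.sum_congr rfl fun j _ => by ring
  have hcl : conj (herm a x) = conj l * (nsq x : ℂ) := by
    rw [hh, map_mul, Complex.conj_ofReal]
  have e : ∑ j, (a j - l * x j) * conj (a j - l * x j) =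
      ∑ j, a j * conj (a j) - conj l * ∑ j, a j * conj (x j) - l * ∑ j, x j * conj (a j)
        + l * conj l * ∑ j, x j * conj (x j) := by
    simp only [Finset.mul_sum, ← Finset.sum_add_distrib, ← Finset.sum_sub_distrib]
    refine Finset.sum_congr rfl fun j _ => ?_
    rw [map_sub, map_mul]
    ring
  rw [e, ← hn, ← hn, ← hh']
  have hherm : ∑ j, a j * conj (x j) = herm a x := rfl
  rw [hherm]
  push_cast
  rw [← Complex.mul_conj, hcl, hh]
  field_simp
  ring

theorem RB_est (A : Form11) : ∃ C : ℝ, 0 ≤ C ∧ ∀ x : V, x ≠ 0 → ∀ a : V,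
    ‖∑ j, ∑ k, A.1 x j k * a j * conj (a k)‖ ≤
      C * (∑ j, ∑ k, fubiniStudy x j k * a j * conj (a k)).re := by
  obtain ⟨c, hc0, hc⟩ := RB_bound A
  refine ⟨3 * c, by positivity, ?_⟩
  intro x hx a
  have hN := nsq_pos hx
  rw [fubiniStudy_quad x hx a, Complex.ofReal_re]
  have hb := A.2.2.2.2 x hx
  rw [RB_shift (A.1 x) x a (herm a x / (nsq x : ℂ)) hb.1 hb.2]
  set b : V := fun j => a j - herm a x / (nsq x : ℂ) * x j with hbdef
  have hbn : nsq b = (nsq x * nsq a - Complex.normSq (herm a x)) / nsq x := RB_nsq_shift x a hx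
  have hstep : ‖∑ j, ∑ k, A.1 x j k * (a j - herm a x / (nsq x : ℂ) * x j) *
      conj (a k - herm a x / (nsq x : ℂ) * x k)‖ ≤ c / nsq x * (∑ j, ‖b j‖) ^ 2 := by
    calc ‖∑ j, ∑ k, A.1 x j k * (a j - herm a x / (nsq x : ℂ) * x j) *
      conj (a k - herm a x / (nsq x : ℂ) * x k)‖ 
        ≤ ∑ j, ∑ k, c / nsq x * (‖b j‖ * ‖b k‖) := by
          refine (norm_sum_le _ _).trans (Finset.sum_le_sum fun j _ => ?_)
          refine (norm_sum_le _ _).trans (Finset.sum_le_sum fun k _ => ?_)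
          rw [norm_mul, norm_mul, RCLike.norm_conj, mul_assoc]
          exact mul_le_mul_of_nonneg_right (hc x hx j k) (by positivity)
      _ = c / nsq x * (∑ j, ‖b j‖) ^ 2 := by
          rw [sq, Finset.sum_mul_sum, Finset.mul_sum]
          exact Finset.sum_congr rfl fun j _ => by rw [Finset.mul_sum]
  refine hstep.trans ?_
  have hcs : (∑ j, ‖b j‖) ^ 2 ≤ 3 * nsq b := by
    have := sq_sum_le_card_mul_sum_sq (s := (Finset.univ : Finset (Fin 3))) (f := fun j => ‖b j‖)
    simpa [nsq, Complex.normSq_eq_norm_sq] using this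
  calc c / nsq x * (∑ j, ‖b j‖) ^ 2 ≤ c / nsq x * (3 * nsq b) :=
        mul_le_mul_of_nonneg_left hcs (by positivity)
    _ = 3 * c * ((nsq x * nsq a - Complex.normSq (herm a x)) / nsq x ^ 2) := by
        rw [hbn]
        field_simp

theorem RB_psd (A : Form11) (hA : ∀ x : V, (A.1 x).IsHermitian) :
    ∃ C : ℝ, 0 ≤ C ∧ ∀ x : V, x ≠ 0 →
      ((C : ℂ) • fubiniStudy x + A.1 x).PosSemidef ∧
      ((C : ℂ) • fubiniStudy x - A.1 x).PosSemidef := by
  obtain ⟨C, hC0, hC⟩ := RB_est A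
  refine ⟨C, hC0, fun x hx => ?_⟩
  have hW : ((C : ℂ) • fubiniStudy x).IsHermitian := by
    have h1 := (fubiniStudy_posSemidef x).1
    unfold Matrix.IsHermitian at h1 ⊢
    rw [Matrix.conjTranspose_smul, h1]
    simp
  have key : ∀ v : V, |(star v ⬝ᵥ ((A.1 x).mulVec v)).re| ≤
      (star v ⬝ᵥ (((C : ℂ) • fubiniStudy x).mulVec v)).re := by
    intro v
    refine (Complex.abs_re_le_norm _).trans ?_
    rw [Matrix.smul_mulVec, dotProduct_smul, RB_quad, RB_quad, smul_eq_mul, Complex.re_ofReal_mul]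
    exact hC x hx _
  constructor
  · rw [Matrix.posSemidef_iff_dotProduct_mulVec]
    have hH : ((C : ℂ) • fubiniStudy x + A.1 x).IsHermitian := hW.add (hA x)
    refine ⟨hH, fun v => ?_⟩
    rw [Complex.nonneg_iff]
    refine ⟨?_, (hH.im_star_dotProduct_mulVec_self v).symm⟩
    rw [Matrix.add_mulVec, dotProduct_add, Complex.add_re]
    have := abs_le.1 (key v)
    linarith [this.1]
  · rw [Matrix.posSemidef_iff_dotProduct_mulVec]
    have hH : ((C : ℂ) • fubiniStudy x - A.1 x).IsHermitian := hW.sub (hA x)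
    refine ⟨hH, fun v => ?_⟩
    rw [Complex.nonneg_iff]
    refine ⟨?_, (hH.im_star_dotProduct_mulVec_self v).symm⟩
    rw [Matrix.sub_mulVec, dotProduct_sub, Complex.sub_re]
    have := abs_le.1 (key v)
    linarith [this.2]

theorem RB_isFun_one : IsFun (fun _ => (1 : ℂ)) := ⟨contDiffOn_const, fun _ _ _ _ => rfl⟩

/-- positivity off the origin is enough -/
theorem RB_pos (T : PosCurrent) (A : Form11) (h : ∀ x : V, x ≠ 0 → (A.1 x).PosSemidef) :
    0 ≤ (T.toLin A).re ∧ (T.toLin A).im = 0 := by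
  apply T.pos A
  intro x
  by_cases hx : x = 0
  · rw [hx, A.2.2.1]
    exact Matrix.PosSemidef.zero
  · exact h x hx

theorem RB_real (T : PosCurrent) (A : Form11) (hA : ∀ x : V, (A.1 x).IsHermitian) :
    (T.toLin A).im = 0 := by
  obtain ⟨C, hC0, hC⟩ := RB_psd A hA
  obtain ⟨W, hW⟩ := exists_scaled _ RB_isFun_one
  have h1 := (RB_pos T W (fun x hx => by
    rw [hW x hx, one_smul]; exact fubiniStudy_posSemidef x)).2
  have h2 := (RB_pos T ((C : ℂ) • W + A) (fun x hx => by
    have : ((C : ℂ) • W + A).1 x = (C : ℂ) • fubiniStudy x + A.1 x := by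
      show (C : ℂ) • W.1 x + A.1 x = _
      rw [hW x hx, one_smul]
    rw [this]
    exact (hC x hx).1)).2
  rw [map_add, map_smul, Complex.add_im, smul_eq_mul, Complex.im_ofReal_mul, h1] at h2
  simpa using h2

/-- Hermitian decomposition -/
theorem RB_decomp (A B : Form11) (h : ∀ x : V, B.1 x = (A.1 x).conjTranspose) :
    ∃ H₁ H₂ : Form11, (∀ x : V, (H₁.1 x).IsHermitian) ∧ (∀ x : V, (H₂.1 x).IsHermitian) ∧
      A = H₁ + Complex.I • H₂ ∧ B = H₁ - Complex.I • H₂ := by
  refine ⟨(1 / 2 : ℂ) • (A + B), (-Complex.I / 2) • (A - B), ?_, ?_, ?_, ?_⟩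
  · intro x
    have : ((1 / 2 : ℂ) • (A + B)).1 x = (1 / 2 : ℂ) • (A.1 x + B.1 x) := rfl
    rw [this, h x]
    unfold Matrix.IsHermitian
    rw [Matrix.conjTranspose_smul, Matrix.conjTranspose_add, Matrix.conjTranspose_conjTranspose,
      add_comm]
    congr 1
    simp
  · intro x
    have : ((-Complex.I / 2) • (A - B)).1 x = (-Complex.I / 2) • (A.1 x - B.1 x) := rfl
    rw [this, h x]
    unfold Matrix.IsHermitian
    rw [Matrix.conjTranspose_smul, Matrix.conjTranspose_sub, Matrix.conjTranspose_conjTranspose,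
      ← neg_sub, smul_neg, ← neg_smul]
    congr 1
    simp
    ring
  · rw [smul_smul]
    have : Complex.I * (-Complex.I / 2) = 1 / 2 := by
      linear_combination (-1 / 2 : ℂ) * Complex.I_mul_I
    rw [this, ← smul_add]
    have : A + B + (A - B) = (2 : ℂ) • A := by rw [two_smul]; abel
    rw [this, smul_smul]
    norm_num
  · apply Subtype.ext
    funext x
    show B.1 x = (1 / 2 : ℂ) • (A.1 x + B.1 x) - Complex.I • ((-Complex.I / 2) • (A.1 x - B.1 x))
    ext j k
    simp only [Matrix.sub_apply, Matrix.smul_apply, Matrix.add_apply, smul_eq_mul]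
    linear_combination (-(A.1 x j k - B.1 x j k) / 2) * Complex.I_mul_I

theorem toLin_adj (T : PosCurrent) (A B : Form11) (h : ∀ x : V, B.1 x = (A.1 x).conjTranspose) :
    T.toLin B = conj (T.toLin A) := by
  obtain ⟨H₁, H₂, h1, h2, hA, hB⟩ := RB_decomp A B h
  have r1 := RB_real T H₁ h1
  have r2 := RB_real T H₂ h2
  rw [hA, hB, map_add, map_sub, map_smul, smul_eq_mul, map_add, map_mul, Complex.conj_I,
    Complex.conj_eq_iff_im.2 r1, Complex.conj_eq_iff_im.2 r2]
  ring

theorem RB_herm_bound (A : Form11) (hA : ∀ x : V, (A.1 x).IsHermitian) :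
    ∃ C : ℝ, 0 ≤ C ∧ ∀ (T : PosCurrent) (ψ : V → ℝ) (B D : Form11),
      (∀ x, 0 ≤ ψ x) →
      (∀ x : V, x ≠ 0 → B.1 x = (ψ x : ℂ) • A.1 x) →
      (∀ x : V, x ≠ 0 → D.1 x = (ψ x : ℂ) • fubiniStudy x) →
      ‖T.toLin B‖ ≤ C * (T.toLin D).re := by
  obtain ⟨C, hC0, hC⟩ := RB_psd A hA
  refine ⟨C, hC0, ?_⟩
  intro T ψ B D hψ hB hD
  have hBh : ∀ x : V, (B.1 x).IsHermitian := by
    intro x
    by_cases hx : x = 0
    · rw [hx, B.2.2.1]
      exact Matrix.isHermitian_zero
    · rw [hB x hx]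
      unfold Matrix.IsHermitian
      rw [Matrix.conjTranspose_smul, hA x]
      simp
  have hre := RB_real T B hBh
  have hψ' : ∀ x, (0 : ℂ) ≤ (ψ x : ℂ) := fun x => by exact_mod_cast hψ x
  have p1 := (RB_pos T ((C : ℂ) • D + B) (fun x hx => by
    have : ((C : ℂ) • D + B).1 x = (ψ x : ℂ) • ((C : ℂ) • fubiniStudy x + A.1 x) := by
      show (C : ℂ) • D.1 x + B.1 x = _
      rw [hD x hx, hB x hx, smul_add, smul_comm]
    rw [this]
    exact (hC x hx).1.smul (hψ' x))).1
  have p2 := (RB_pos T ((C : ℂ) • D - B) (fun x hx => by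
    have : ((C : ℂ) • D - B).1 x = (ψ x : ℂ) • ((C : ℂ) • fubiniStudy x - A.1 x) := by
      show (C : ℂ) • D.1 x - B.1 x = _
      rw [hD x hx, hB x hx, smul_sub, smul_comm]
    rw [this]
    exact (hC x hx).2.smul (hψ' x))).1
  rw [map_add, map_smul, smul_eq_mul, Complex.add_re, Complex.re_ofReal_mul] at p1
  rw [map_sub, map_smul, smul_eq_mul, Complex.sub_re, Complex.re_ofReal_mul] at p2
  have hn : ‖T.toLin B‖ = |(T.toLin B).re| := by
    have : T.toLin B = (((T.toLin B).re : ℝ) : ℂ) := by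
      apply Complex.ext
      · simp
      · simp [hre]
    rw [this, Complex.norm_real, Real.norm_eq_abs, Complex.ofReal_re]
  rw [hn, abs_le]
  constructor <;> linarith

theorem exists_bound (A : Form11) :
    ∃ C : ℝ, 0 ≤ C ∧ ∀ (T : PosCurrent) (ψ : V → ℝ) (B D : Form11),
      IsFun (fun x => (ψ x : ℂ)) → (∀ x, 0 ≤ ψ x) →
      (∀ x : V, x ≠ 0 → B.1 x = (ψ x : ℂ) • A.1 x) →
      (∀ x : V, x ≠ 0 → D.1 x = (ψ x : ℂ) • fubiniStudy x) →
      ‖T.toLin B‖ ≤ C * (T.toLin D).re := by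
  obtain ⟨A', hA'⟩ := exists_adj A
  obtain ⟨H₁, H₂, h1, h2, hA, -⟩ := RB_decomp A A' hA'
  obtain ⟨C₁, hC₁, b1⟩ := RB_herm_bound H₁ h1
  obtain ⟨C₂, hC₂, b2⟩ := RB_herm_bound H₂ h2
  refine ⟨C₁ + C₂, by positivity, ?_⟩
  intro T ψ B D hψf hψ hB hD
  obtain ⟨B₁, hB₁⟩ := exists_mul H₁ _ hψf
  obtain ⟨B₂, hB₂⟩ := exists_mul H₂ _ hψf
  have hBd : B = B₁ + Complex.I • B₂ := by
    apply Form11.ext_off
    intro x hx
    rw [hB x hx, hA]
    show (ψ x : ℂ) • (H₁.1 x + Complex.I • H₂.1 x) = B₁.1 x + Complex.I • B₂.1 x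
    rw [hB₁ x hx, hB₂ x hx, smul_add, smul_comm (ψ x : ℂ) Complex.I]
  rw [hBd, map_add, map_smul]
  have e1 := b1 T ψ B₁ D hψ hB₁ hD
  have e2 := b2 T ψ B₂ D hψ hB₂ hD
  calc ‖T.toLin B₁ + Complex.I • T.toLin B₂‖ ≤ ‖T.toLin B₁‖ + ‖Complex.I • T.toLin B₂‖ :=
        norm_add_le _ _
    _ = ‖T.toLin B₁‖ + ‖T.toLin B₂‖ := by rw [norm_smul, Complex.norm_I, one_mul]
    _ ≤ (C₁ + C₂) * (T.toLin D).re := by linarith

end Pool.Agent.H24.CU

end S_H24_CU_RB

section S_H85_DC_TauM

/-!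
# Row TauM: the distance `√τ`

`tau x y = 1 - |⟨x,y⟩|^2/(N x N y)`, `ip x y = ∑ x_j conj(y_j)`, `vv = 1 - tau`.
`0 ≤ tau` is Cauchy-Schwarz, `tau ≤ 1` clear (`N ≥ 0`, division by `0` is `0`).
`tau_metric`: for `x, y, z` nonzero, `√tau(x,z) ≤ √tau(x,y) + √tau(y,z)`. Proof: by scaling (`tau_smul_left`) wlog
unit vectors. For unit `a, b`: `tau(a,b) = min over c ∈ ℂ of N (a - c b)` attained at `c = ip a b`:
`N (a - c b) = 1 - 2 Re (conj c ip a b) + |c|^2 ≥ 1 - |ip a b|^2`. Put `c = ip x y`, `d = ip y z`: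
`x - c d z = (x - c y) + c (y - d z)`, so `√tau(x,z) ≤ √N(x - c d z) ≤ √N (x - c y) + |c| √N(y - d z)
≤ √tau(x,y) + √tau(y,z)` (`|c| ≤ 1`; `√N` satisfies the triangle inequality: it is the Euclidean norm, e.g. via
`EuclideanSpace ℂ (Fin 3)` or by hand from Cauchy-Schwarz `|ip a b|^2 ≤ N a N b`).
`tau_cross`: with the bilinear cross product, `N (cr x y) = N x N y - |ip x y|^2` (Lagrange; expand in
coordinates, real and imaginary parts or `Complex.normSq_eq_conj_mul_self` and `ring`).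
`tau_phase`: for unit `x, y` there is `l`, `|l| = 1`, with `N (x - l y) ≤ 2 tau x y`: `l = ip x y/|ip x y|` (or `1` when
`ip x y = 0`), `N (x - l y) = 2 - 2 |ip x y| ≤ 2 (1 - |ip x y|^2)`.
`tau_two`: `(√a + √b)^2 ≤ 2a + 2b`.
Continuity of `tau` at nonzero vectors, measurability in both variables: `ip`, `N` are continuous; `Measurable`
division.
-/

open MeasureTheory
open scoped ContDiff BigOperators ComplexConjugate Matrix

namespace Pool.Agent.H85.DC

/-- The (bilinear) cross product. -/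
noncomputable def cr (x y : V) : V :=
  ![x 1 * y 2 - x 2 * y 1, x 2 * y 0 - x 0 * y 2, x 0 * y 1 - x 1 * y 0]

/-! ### Auxiliary identities -/

theorem TauM_N_nonneg (x : V) : 0 ≤ N x := by
  unfold N
  exact Finset.sum_nonneg fun j _ => Complex.normSq_nonneg _

theorem TauM_N_pos {x : V} (hx : x ≠ 0) : 0 < N x := by
  rcases (TauM_N_nonneg x).lt_or_eq with h | h
  · exact h
  · exfalso
    apply hx
    have h2 : ∑ j, Complex.normSq (x j) = 0 := h.symm
    rw [Finset.sum_eq_zero_iff_of_nonneg (fun j _ => Complex.normSq_nonneg _)] at h2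
    funext j
    exact Complex.normSq_eq_zero.mp (h2 j (Finset.mem_univ j))

theorem TauM_N_eq_zero {x : V} (h : N x = 0) : x = 0 := by
  by_contra hx
  exact absurd h (TauM_N_pos hx).ne'

theorem TauM_N_zero : N (0 : V) = 0 := by simp [N]

theorem TauM_N_smul (l : ℂ) (x : V) : N (l • x) = Complex.normSq l * N x := by
  unfold N
  rw [Finset.mul_sum]
  refine Finset.sum_congr rfl fun j _ => ?_
  rw [Pi.smul_apply, smul_eq_mul, Complex.normSq_mul]

theorem TauM_ip_smul_left (l : ℂ) (x y : V) : ip (l • x) y = l * ip x y := by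
  unfold ip
  rw [Finset.mul_sum]
  refine Finset.sum_congr rfl fun j _ => ?_
  rw [Pi.smul_apply, smul_eq_mul]
  ring

theorem TauM_ip_smul_right (l : ℂ) (x y : V) : ip x (l • y) = conj l * ip x y := by
  unfold ip
  rw [Finset.mul_sum]
  refine Finset.sum_congr rfl fun j _ => ?_
  rw [Pi.smul_apply, smul_eq_mul, map_mul]
  ring

theorem TauM_ip_conj (x y : V) : conj (ip x y) = ip y x := by
  unfold ip
  rw [map_sum]
  refine Finset.sum_congr rfl fun j _ => ?_
  rw [map_mul, Complex.conj_conj]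
  ring

theorem TauM_normSq_ip_comm (x y : V) : Complex.normSq (ip x y) = Complex.normSq (ip y x) := by
  rw [← TauM_ip_conj x y, Complex.normSq_conj]

theorem TauM_ip_self (x : V) : ip x x = (N x : ℂ) := by
  unfold ip N
  push_cast
  refine Finset.sum_congr rfl fun j _ => ?_
  rw [Complex.mul_conj]

theorem TauM_ip_sub_right (x y z : V) : ip x (y - z) = ip x y - ip x z := by
  unfold ip
  rw [← Finset.sum_sub_distrib]
  refine Finset.sum_congr rfl fun j _ => ?_
  rw [Pi.sub_apply, map_sub]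
  ring

/-- Expansion of the square of the norm of `x + c y`. -/
theorem TauM_N_add (x y : V) : N (x + y) = N x + 2 * (ip x y).re + N y := by
  have h : ((N (x + y) : ℝ) : ℂ) = (N x : ℂ) + (ip x y + conj (ip x y)) + (N y : ℂ) := by
    rw [TauM_ip_conj, ← TauM_ip_self, ← TauM_ip_self, ← TauM_ip_self]
    unfold ip
    rw [← Finset.sum_add_distrib, ← Finset.sum_add_distrib, ← Finset.sum_add_distrib]
    refine Finset.sum_congr rfl fun j _ => ?_
    rw [Pi.add_apply, map_add]
    ring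
  rw [Complex.add_conj] at h
  exact_mod_cast h

theorem TauM_N_sub_smul (x y : V) (c : ℂ) :
    N (x - c • y) = N x - 2 * (conj c * ip x y).re + Complex.normSq c * N y := by
  have h := TauM_N_add x (-(c • y))
  rw [← sub_eq_add_neg] at h
  rw [h, ← neg_smul, TauM_N_smul, TauM_ip_smul_right, Complex.normSq_neg, map_neg, neg_mul,
    Complex.neg_re]
  ring

theorem tau_cross (x y : V) : N (cr x y) = N x * N y - Complex.normSq (ip x y) := by
  have h : ((N (cr x y) : ℝ) : ℂ) = (N x : ℂ) * (N y : ℂ) - (Complex.normSq (ip x y) : ℂ) := by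
    rw [← TauM_ip_self, ← TauM_ip_self, ← TauM_ip_self, ← Complex.mul_conj]
    unfold ip cr
    simp only [Fin.sum_univ_three, Matrix.cons_val_zero, Matrix.cons_val_one, Matrix.cons_val,
      map_add, map_sub, map_mul, Complex.conj_conj]
    ring
  exact_mod_cast h

theorem cs_ip (x y : V) : Complex.normSq (ip x y) ≤ N x * N y := by
  have h := tau_cross x y
  have h2 := TauM_N_nonneg (cr x y)
  linarith

theorem tau_nonneg (x y : V) : 0 ≤ tau x y := by
  unfold tau
  have h := cs_ip x y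
  have h1 := mul_nonneg (TauM_N_nonneg x) (TauM_N_nonneg y)
  have h2 := div_le_one_of_le₀ h h1
  linarith

theorem tau_le_one (x y : V) : tau x y ≤ 1 := by
  unfold tau
  have h1 := mul_nonneg (TauM_N_nonneg x) (TauM_N_nonneg y)
  have h2 := div_nonneg (Complex.normSq_nonneg (ip x y)) h1
  linarith

theorem tau_symm (x y : V) : tau x y = tau y x := by
  unfold tau
  rw [TauM_normSq_ip_comm x y, mul_comm (N x)]

theorem tau_smul_left {l : ℂ} (hl : l ≠ 0) (x y : V) : tau (l • x) y = tau x y := by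
  unfold tau
  have h : Complex.normSq l ≠ 0 := fun h => hl (Complex.normSq_eq_zero.mp h)
  rw [TauM_ip_smul_left, TauM_N_smul, Complex.normSq_mul, mul_assoc, mul_div_mul_left _ _ h]

theorem tau_smul_right {l : ℂ} (hl : l ≠ 0) (x y : V) : tau x (l • y) = tau x y := by
  rw [tau_symm, tau_smul_left hl, tau_symm]

theorem tau_self {x : V} (hx : x ≠ 0) : tau x x = 0 := by
  unfold tau
  rw [TauM_ip_self, Complex.normSq_ofReal, div_self, sub_self]
  have := TauM_N_pos hx
  positivity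

/-- `N (x - c y) ≥ N x τ(x, y)` for every `c`. -/
theorem TauM_min {x y : V} (hx : x ≠ 0) (hy : y ≠ 0) (c : ℂ) :
    N x * tau x y ≤ N (x - c • y) := by
  have hNx := TauM_N_pos hx
  have hNy := TauM_N_pos hy
  rw [TauM_N_sub_smul]
  have h1 : N x * tau x y = N x - Complex.normSq (ip x y) / N y := by
    unfold tau
    field_simp
  rw [h1]
  have h2 : (conj c * ip x y).re ≤ ‖c‖ * ‖ip x y‖ := by
    refine (Complex.re_le_norm _).trans ?_
    rw [norm_mul, Complex.norm_conj]
  have h3 : Complex.normSq c = ‖c‖ ^ 2 := Complex.normSq_eq_norm_sq c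
  have h4 : Complex.normSq (ip x y) = ‖ip x y‖ ^ 2 := Complex.normSq_eq_norm_sq _
  rw [h3, h4]
  have h5 : 0 ≤ (‖c‖ * N y - ‖ip x y‖) ^ 2 / N y := by positivity
  have h6 : (‖c‖ * N y - ‖ip x y‖) ^ 2 / N y
      = ‖c‖ ^ 2 * N y - 2 * (‖c‖ * ‖ip x y‖) + ‖ip x y‖ ^ 2 / N y := by
    field_simp
    ring
  linarith

/-- Equality for `c = ip x y / N y`. -/
theorem TauM_eq {x y : V} (hx : x ≠ 0) (hy : y ≠ 0) :
    N (x - (ip x y / (N y : ℂ)) • y) = N x * tau x y := by
  have hNx := TauM_N_pos hx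
  have hNy := TauM_N_pos hy
  have hNx' : (N x : ℂ) ≠ 0 := by exact_mod_cast hNx.ne'
  have hNy' : (N y : ℂ) ≠ 0 := by exact_mod_cast hNy.ne'
  rw [TauM_N_sub_smul]
  have h1 : conj (ip x y / (N y : ℂ)) * ip x y
      = ((Complex.normSq (ip x y) / N y : ℝ) : ℂ) := by
    rw [map_div₀, Complex.conj_ofReal]
    push_cast
    rw [← Complex.mul_conj]
    ring
  rw [h1, Complex.ofReal_re, map_div₀, Complex.normSq_ofReal]
  unfold tau
  field_simp
  ring

theorem sqrtN_triangle (x y : V) : Real.sqrt (N (x + y)) ≤ Real.sqrt (N x) + Real.sqrt (N y) := by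
  have hx := TauM_N_nonneg x
  have hy := TauM_N_nonneg y
  rw [Real.sqrt_le_left (by positivity), TauM_N_add, add_sq, Real.sq_sqrt hx, Real.sq_sqrt hy]
  have h1 : (ip x y).re ≤ Real.sqrt (N x) * Real.sqrt (N y) := by
    rw [← Real.sqrt_mul hx]
    refine (Complex.re_le_norm _).trans ?_
    apply Real.le_sqrt_of_sq_le
    rw [← Complex.normSq_eq_norm_sq]
    exact cs_ip x y
  linarith

theorem tau_metric {x y z : V} (hx : x ≠ 0) (hy : y ≠ 0) (hz : z ≠ 0) :
    Real.sqrt (tau x z) ≤ Real.sqrt (tau x y) + Real.sqrt (tau y z) := by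
  have hNx := TauM_N_pos hx
  have hNy := TauM_N_pos hy
  set c : ℂ := ip x y / (N y : ℂ) with hc
  set d : ℂ := ip y z / (N z : ℂ) with hd
  have h1 : Real.sqrt (N x) * Real.sqrt (tau x z) ≤ Real.sqrt (N (x - (c * d) • z)) := by
    rw [← Real.sqrt_mul hNx.le]
    exact Real.sqrt_le_sqrt (TauM_min hx hz _)
  have h2 : x - (c * d) • z = (x - c • y) + c • (y - d • z) := by
    rw [smul_sub, smul_smul]
    abel
  have h3 : Real.sqrt (N (x - c • y)) = Real.sqrt (N x) * Real.sqrt (tau x y) := by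
    rw [← Real.sqrt_mul hNx.le, hc, TauM_eq hx hy]
  have h4 : Real.sqrt (N (c • (y - d • z))) ≤ Real.sqrt (N x) * Real.sqrt (tau y z) := by
    rw [← Real.sqrt_mul hNx.le]
    apply Real.sqrt_le_sqrt
    rw [TauM_N_smul, hd, TauM_eq hy hz, ← mul_assoc]
    apply mul_le_mul_of_nonneg_right _ (tau_nonneg y z)
    rw [hc, map_div₀, Complex.normSq_ofReal]
    have h5 := cs_ip x y
    have h6 : Complex.normSq (ip x y) / (N y * N y) * N y = Complex.normSq (ip x y) / N y := by
      field_simp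
    rw [h6, div_le_iff₀ hNy]
    exact h5
  have h5 := sqrtN_triangle (x - c • y) (c • (y - d • z))
  rw [← h2] at h5
  have h6 : Real.sqrt (N x) * Real.sqrt (tau x z)
      ≤ Real.sqrt (N x) * (Real.sqrt (tau x y) + Real.sqrt (tau y z)) := by
    rw [mul_add]
    linarith
  exact le_of_mul_le_mul_left h6 (Real.sqrt_pos.mpr hNx)

theorem tau_two {x y z : V} (hx : x ≠ 0) (hy : y ≠ 0) (hz : z ≠ 0) :
    tau x z ≤ 2 * tau x y + 2 * tau y z := by
  have h := tau_metric hx hy hz
  have h1 := Real.sq_sqrt (tau_nonneg x z)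
  have h2 := Real.sq_sqrt (tau_nonneg x y)
  have h3 := Real.sq_sqrt (tau_nonneg y z)
  have h4 := Real.sqrt_nonneg (tau x z)
  have h5 := Real.sqrt_nonneg (tau x y)
  have h6 := Real.sqrt_nonneg (tau y z)
  have h7 : Real.sqrt (tau x z) ^ 2 ≤ (Real.sqrt (tau x y) + Real.sqrt (tau y z)) ^ 2 :=
    pow_le_pow_left₀ h4 h 2
  nlinarith [sq_nonneg (Real.sqrt (tau x y) - Real.sqrt (tau y z))]

theorem tau_cross' {x y : V} (hx : x ≠ 0) (hy : y ≠ 0) : N (cr x y) = N x * N y * tau x y := by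
  have hNx := TauM_N_pos hx
  have hNy := TauM_N_pos hy
  rw [tau_cross]
  unfold tau
  field_simp

theorem tau_phase {x y : V} (hx : N x = 1) (hy : N y = 1) :
    ∃ l : ℂ, Complex.normSq l = 1 ∧ N (x - l • y) ≤ 2 * tau x y := by
  have h1 : tau x y = 1 - Complex.normSq (ip x y) := by
    unfold tau
    rw [hx, hy]
    ring
  rw [h1]
  by_cases hc : ip x y = 0
  · refine ⟨1, Complex.normSq_one, ?_⟩
    rw [TauM_N_sub_smul, hc, hx, hy]
    simp
    norm_num
  · have hn : 0 < ‖ip x y‖ := norm_pos_iff.mpr hc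
    have hn' : ((‖ip x y‖ : ℝ) : ℂ) ≠ 0 := by exact_mod_cast hn.ne'
    have h2 : Complex.normSq (ip x y) = ‖ip x y‖ ^ 2 := Complex.normSq_eq_norm_sq _
    have h3 : Complex.normSq (ip x y / ((‖ip x y‖ : ℝ) : ℂ)) = 1 := by
      rw [map_div₀, Complex.normSq_ofReal, h2]
      field_simp
    refine ⟨ip x y / ((‖ip x y‖ : ℝ) : ℂ), h3, ?_⟩
    rw [TauM_N_sub_smul, h3, hx, hy]
    have h4 : conj (ip x y / ((‖ip x y‖ : ℝ) : ℂ)) * ip x y = ((‖ip x y‖ : ℝ) : ℂ) := by
      rw [map_div₀, Complex.conj_ofReal, div_mul_eq_mul_div, mul_comm, Complex.mul_conj, h2]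
      push_cast
      field_simp
    rw [h4, Complex.ofReal_re, h2]
    have h5 := cs_ip x y
    rw [hx, hy, h2] at h5
    have h6 : ‖ip x y‖ ≤ 1 := by nlinarith
    nlinarith

theorem tau_eq_zero {x y : V} (hx : x ≠ 0) (hy : y ≠ 0) (h : tau x y = 0) : ∃ c : ℂ, x = c • y := by
  refine ⟨ip x y / (N y : ℂ), ?_⟩
  have h1 := TauM_eq hx hy
  rw [h, mul_zero] at h1
  exact sub_eq_zero.mp (TauM_N_eq_zero h1)

theorem N_add_le (x y : V) : N (x + y) ≤ 2 * N x + 2 * N y := by
  have h := sqrtN_triangle x y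
  have h1 := Real.sq_sqrt (TauM_N_nonneg (x + y))
  have h2 := Real.sq_sqrt (TauM_N_nonneg x)
  have h3 := Real.sq_sqrt (TauM_N_nonneg y)
  have h4 := Real.sqrt_nonneg (N (x + y))
  have h5 := Real.sqrt_nonneg (N x)
  have h6 := Real.sqrt_nonneg (N y)
  have h7 : Real.sqrt (N (x + y)) ^ 2 ≤ (Real.sqrt (N x) + Real.sqrt (N y)) ^ 2 :=
    pow_le_pow_left₀ h4 h 2
  nlinarith [sq_nonneg (Real.sqrt (N x) - Real.sqrt (N y))]

theorem TauM_continuous_N : Continuous N := by
  unfold N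
  refine continuous_finsetSum _ fun j _ => ?_
  exact Complex.continuous_normSq.comp (continuous_apply j)

theorem TauM_continuous_ip : Continuous (fun q : V × V => ip q.1 q.2) := by
  unfold ip
  refine continuous_finsetSum _ fun j _ => ?_
  exact ((continuous_apply j).comp continuous_fst).mul
    (Complex.continuous_conj.comp ((continuous_apply j).comp continuous_snd))

theorem measurable_tau : Measurable (fun q : V × V => tau q.1 q.2) := by
  unfold tau
  refine measurable_const.sub ?_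
  refine Measurable.div ?_ ?_
  · exact (Complex.continuous_normSq.comp TauM_continuous_ip).measurable
  · exact ((TauM_continuous_N.comp continuous_fst).mul
      (TauM_continuous_N.comp continuous_snd)).measurable

theorem continuousOn_tau (y : V) : ContinuousOn (fun x => tau x y) {0}ᶜ := by
  by_cases hy : y = 0
  · have h : (fun x : V => tau x y) = fun _ => 1 := by
      funext x
      unfold tau
      rw [hy, TauM_N_zero, mul_zero, div_zero, sub_zero]
    rw [h]
    exact continuousOn_const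
  · unfold tau
    refine continuousOn_const.sub ?_
    refine ContinuousOn.div ?_ ?_ ?_
    · exact (Complex.continuous_normSq.comp (TauM_continuous_ip.comp
        (continuous_id.prodMk continuous_const))).continuousOn
    · exact (TauM_continuous_N.mul continuous_const).continuousOn
    · intro x hx
      exact mul_ne_zero (TauM_N_pos hx).ne' (TauM_N_pos hy).ne'

/-- An orthonormal pair completes to the whole space: Bessel. -/
theorem bessel {x w y : V} (hx : N x = 1) (hw : N w = 1) (hxw : ip w x = 0) :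
    Complex.normSq (ip x y) + Complex.normSq (ip w y) ≤ N y := by
  have h1 := TauM_N_sub_smul y x (ip y x)
  have h2 : conj (ip y x) * ip y x = ((Complex.normSq (ip x y) : ℝ) : ℂ) := by
    rw [mul_comm, Complex.mul_conj, TauM_normSq_ip_comm]
  rw [h2, Complex.ofReal_re, hx, TauM_normSq_ip_comm y x] at h1
  have h3 := cs_ip w (y - ip y x • x)
  rw [TauM_ip_sub_right, TauM_ip_smul_right, hxw, mul_zero, sub_zero, hw, one_mul, h1] at h3
  linarith

end Pool.Agent.H85.DC

end S_H85_DC_TauM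

section S_H85_DC_Ibp

/-!
# Row Ibp: integration by parts with the Gaussian weight

Claim. `h` is `Hom a b` with `-4 ≤ a + b`. Then `∫ dz j h * wt = ∫ h * conj (x j) * wt` and
`∫ dzb j h * wt = ∫ h * x j * wt` (`ibp_one`, `ibpb_one`).
The general formulas follow with `h = f * g`, `dz_mul`, and integrability of each of the three terms
(`chom_integrable`: bidegrees sum at least `-5`), `integral_add`.

Proof of `ibp_one`. For `r > 0` let `χ_r(x) = (N x / (N x + r))^3` (smooth function on `V`, `χ_r = 0` at `0`) and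
`H_r = χ_r * h * wt`. `H_r` is differentiable at every point: off `0` clear; at `0`, `|H_r x| ≤ r^{-3} (N x)^3 * C
(N x)^{-2} = C' N x` for `N x ≤ 1` (when `a + b ≥ -4`, `|h| ≤ C (N x)^{(a+b)/2} ≤ C (N x)^{-2}`), so the derivative
at `0` is `0` (note `H_r 0 = 0`). Let `D` be a real direction `v` (`v = e_j` or `i e_j`).
`∫ (fderiv H_r x v) dx = 0`: use
`MeasureTheory.integral_bilinear_hasLineDerivAt_right_eq_neg_left_of_integrable` (file
`Mathlib/Analysis/Calculus/LineDeriv/IntegrationByParts.lean`) with second function the constant `1`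
(or any version for `integral_mul_fderiv_eq_neg_fderiv_mul_of_integrable`); integrability of `H_r` and of its
derivative follow from the bounds below. Hence `∫ dz j H_r = 0`. For `x ≠ 0`
`dz j H_r = χ_r (dz j h) wt - χ_r h conj(x_j) wt + (dz j χ_r) h wt`
(`dz j wt = - conj (x_j) wt` by `dz_comp_real`, `dz_N`), and
`dz j χ_r = 3 (N/(N+r))^2 * r conj(x_j) / (N+r)^2`, so `|dz j χ_r| ≤ 3 √N r/(N+r)^2 ≤ 3 / √N` and
`dz j χ_r → 0`, `χ_r → 1` pointwise (`x ≠ 0`) as `r → 0+`. Let `r = 1/(n+1) → 0`: dominated convergence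
(`tendsto_integral_of_dominated_convergence`), with dominating functions `|dz j h| wt`, `|h| √N wt`,
`3 |h| N^{-1/2} wt` (all integrable: `integrable_N_rpow`, exponents `≥ (a+b-1)/2 ≥ -5/2 > -3`), gives
`∫ (dz j h) wt - ∫ h conj(x_j) wt + 0 = 0`.
`ibpb_one`: same proof, or conjugate `ibp_one` applied to `conj h` (`conj_dz`, `hom_conj`, `integral_conj`).
-/

open MeasureTheory
open scoped ContDiff BigOperators ComplexConjugate Matrix

namespace Pool.Agent.H85.DC

theorem Ibp_prod {E : Type*} [NormedAddCommGroup E] [NormedSpace ℝ E] [FiniteDimensional ℝ E]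
    [Nontrivial E] [MeasurableSpace E] [BorelSpace E] {μ : Measure (E × ℝ)}
    [Measure.IsAddHaarMeasure μ] {H H' : E × ℝ → ℂ}
    (hH : Integrable H μ) (hH' : Integrable H' μ)
    (hd : ∀ x, x ≠ 0 → HasLineDerivAt ℝ H (H' x) x (0, 1)) : ∫ x, H' x ∂μ = 0 := by
  let ν : Measure E := Measure.addHaar
  have A : ν.prod volume = (Measure.addHaarScalarFactor (ν.prod volume) μ) • μ :=
    Measure.isAddLeftInvariant_eq_smul _ _
  have h1 : Integrable H (ν.prod volume) := by
    rw [A]; exact hH.smul_measure_nnreal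
  have h2 : Integrable H' (ν.prod volume) := by
    rw [A]; exact hH'.smul_measure_nnreal
  rw [Measure.isAddLeftInvariant_eq_smul μ (ν.prod volume)]
  have h3 : ∫ x, H' x ∂(ν.prod volume) = 0 := by
    rw [integral_prod _ h2]
    rw [integral_eq_zero_of_ae]
    have hne : ∀ᵐ x ∂ν, x ≠ 0 := by
      rw [ae_iff]
      simp
    filter_upwards [h1.prod_right_ae, h2.prod_right_ae, hne] with x hx1 hx2 hx0
    apply integral_eq_zero_of_hasDerivAt_of_integrable _ hx2 hx1
    intro t
    have h4 : ((x, t) : E × ℝ) ≠ 0 := fun h => hx0 (congrArg Prod.fst h)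
    convert! (hd (x, t) h4).scomp_of_eq t ((hasDerivAt_id t).add (hasDerivAt_const t (-t)))
        (by simp) <;> simp
  simp [h3]

theorem Ibp_line {E : Type*} [NormedAddCommGroup E] [NormedSpace ℝ E] [FiniteDimensional ℝ E]
    [MeasurableSpace E] [BorelSpace E] {μ : Measure E} [Measure.IsAddHaarMeasure μ]
    (hE : 2 ≤ Module.finrank ℝ E) {H H' : E → ℂ} {v : E} (hv : v ≠ 0)
    (hH : Integrable H μ) (hH' : Integrable H' μ)
    (hd : ∀ x, x ≠ 0 → HasLineDerivAt ℝ H (H' x) x v) : ∫ x, H' x ∂μ = 0 := by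
  have : Nontrivial E := nontrivial_iff.2 ⟨v, 0, hv⟩
  let n := Module.finrank ℝ E
  let E' := Fin (n - 1) → ℝ
  have hn2 : 2 ≤ n := hE
  obtain ⟨L, hL⟩ : ∃ L : E ≃L[ℝ] (E' × ℝ), L v = (0, 1) := by
    have hfr : Module.finrank ℝ (E' × ℝ) = n := by
      have : n - 1 + 1 = n := by omega
      simpa [E'] using this
    have L₀ : E ≃L[ℝ] (E' × ℝ) := (ContinuousLinearEquiv.ofFinrankEq hfr).symm
    obtain ⟨M, hM⟩ : ∃ M : (E' × ℝ) ≃L[ℝ] (E' × ℝ), M (L₀ v) = (0, 1) := by
      apply SeparatingDual.exists_continuousLinearEquiv_apply_eq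
      · simpa using hv
      · simp
    exact ⟨L₀.trans M, by simp [hM]⟩
  have : Nontrivial E' := by
    apply Module.nontrivial_of_finrank_pos (R := ℝ)
    simp only [E', Module.finrank_fin_fun]
    omega
  let ν := Measure.map L μ
  have L_emb : MeasurableEmbedding L := L.toHomeomorph.measurableEmbedding
  have key : ∫ x : E' × ℝ, H' (L.symm x) ∂ν = 0 := by
    apply Ibp_prod (H := fun x => H (L.symm x))
    · simpa [ν, L_emb.integrable_map_iff, Function.comp_def] using hH
    · simpa [ν, L_emb.integrable_map_iff, Function.comp_def] using hH'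
    · intro x hx
      have e : H = (fun x => H (L.symm x)) ∘ (L : E →ₗ[ℝ] (E' × ℝ)) := by ext y; simp
      have h2 : L.symm x ≠ 0 := by
        intro h
        apply hx
        have := congrArg L h
        simpa using this
      have h3 := hd (L.symm x) h2
      rw [e] at h3
      convert! h3.of_comp using 1
      · simp
      · simp [← hL]
  have h5 : μ = Measure.map L.symm ν := by
    simp [ν, Measure.map_map L.symm.continuous.measurable L.continuous.measurable]
  have h6 : Topology.IsClosedEmbedding L.symm := L.symm.toHomeomorph.isClosedEmbedding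
  rw [h5, h6.integral_map]
  exact key

theorem Ibp_ae : ∀ᵐ x ∂(volume : Measure V), x ≠ 0 := by
  rw [ae_iff]
  simp

theorem Ibp_wt_diff (x : V) : DifferentiableAt ℝ (fun x => ((wt x : ℝ) : ℂ)) x := by
  unfold wt N
  have h : DifferentiableAt ℝ (fun x : V => Real.exp (-∑ j, Complex.normSq (x j))) x := by
    have : (fun x : V => Real.exp (-∑ j, Complex.normSq (x j))) =
        fun x : V => Real.exp (-∑ j, ((x j).re * (x j).re + (x j).im * (x j).im)) := by
      funext x
      simp only [Complex.normSq_apply]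
    rw [this]
    have hre : ∀ j : Fin 3, DifferentiableAt ℝ (fun x : V => (x j).re) x := fun j =>
      (Complex.reCLM.comp (ContinuousLinearMap.proj (R := ℝ) (φ := fun _ : Fin 3 => ℂ) j)).differentiableAt
    have him : ∀ j : Fin 3, DifferentiableAt ℝ (fun x : V => (x j).im) x := fun j =>
      (Complex.imCLM.comp (ContinuousLinearMap.proj (R := ℝ) (φ := fun _ : Fin 3 => ℂ) j)).differentiableAt
    apply DifferentiableAt.exp
    apply DifferentiableAt.neg
    apply DifferentiableAt.fun_sum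
    intro j _
    exact ((hre j).mul (hre j)).add ((him j).mul (him j))
  exact Complex.ofRealCLM.differentiableAt.comp x h

theorem Ibp_N_diff {x : V} (hx : x ≠ 0) : DifferentiableAt ℝ N x := by
  have h1 : DifferentiableAt ℝ (fun x => (((N x : ℝ) : ℂ)).re) x :=
    Complex.reCLM.differentiableAt.comp x (hom_N.diffAt hx)
  simpa using h1

theorem Ibp_dz_wt (j : Fin 3) {x : V} (hx : x ≠ 0) :
    dz j (fun x => ((wt x : ℝ) : ℂ)) x = -(conj (x j)) * (wt x : ℂ) := by
  unfold wt
  have hg : HasDerivAt (fun t : ℝ => Real.exp (-t)) (-Real.exp (-N x)) (N x) := by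
    have := (Real.hasDerivAt_exp (-N x)).comp (N x) (hasDerivAt_neg (N x))
    simpa [Function.comp_def] using this
  rw [dz_comp_real j (g := fun t => Real.exp (-t)) hg (Ibp_N_diff hx), dz_N]
  push_cast
  ring

theorem Ibp_dzb_wt (j : Fin 3) {x : V} (hx : x ≠ 0) :
    dzb j (fun x => ((wt x : ℝ) : ℂ)) x = -(x j) * (wt x : ℂ) := by
  unfold wt
  have hg : HasDerivAt (fun t : ℝ => Real.exp (-t)) (-Real.exp (-N x)) (N x) := by
    have := (Real.hasDerivAt_exp (-N x)).comp (N x) (hasDerivAt_neg (N x))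
    simpa [Function.comp_def] using this
  rw [dzb_comp_real j (g := fun t => Real.exp (-t)) hg (Ibp_N_diff hx), dzb_N]
  push_cast
  ring

theorem Ibp_int_z {a b : ℤ} {h : V → ℂ} (hh : Hom a b h) (hab : -4 ≤ a + b) (j : Fin 3) :
    Integrable (fun x => dz j h x * (wt x : ℂ)) ∧
    Integrable (fun x => dzb j h x * (wt x : ℂ)) ∧
    Integrable (fun x => h x * conj (x j) * (wt x : ℂ)) ∧
    Integrable (fun x => h x * x j * (wt x : ℂ)) := by
  refine ⟨chom_integrable (dz_hom j hh).chom (by omega), chom_integrable (dzb_hom j hh).chom (by omega),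
    chom_integrable (hom_mul hh (hom_conj_coord j)).chom (by omega),
    chom_integrable (hom_mul hh (hom_coord j)).chom (by omega)⟩

theorem Ibp_both {a b : ℤ} {h : V → ℂ} (hh : Hom a b h) (hab : -4 ≤ a + b) (j : Fin 3) :
    ∫ x, (dz j h x * (wt x : ℂ) - h x * conj (x j) * (wt x : ℂ)) = 0 ∧
    ∫ x, (dzb j h x * (wt x : ℂ) - h x * x j * (wt x : ℂ)) = 0 := by
  obtain ⟨i1, i2, i3, i4⟩ := Ibp_int_z hh hab j
  have hH : Integrable (fun x => h x * (wt x : ℂ)) (volume : Measure V) :=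
    chom_integrable hh.chom (by omega)
  have key : ∀ c : ℂ, c ≠ 0 → c * (∫ x, (dz j h x * (wt x : ℂ) - h x * conj (x j) * (wt x : ℂ))) +
      conj c * (∫ x, (dzb j h x * (wt x : ℂ) - h x * x j * (wt x : ℂ))) = 0 := by
    intro c hc
    have hv : (Pi.single j c : V) ≠ 0 := by
      intro h0
      apply hc
      have := congrFun h0 j
      simpa using this
    have hfr : 2 ≤ Module.finrank ℝ V := by
      rw [Module.finrank_pi_fintype]
      simp [Complex.finrank_real_complex]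
    have i13 : Integrable (fun x => dz j h x * (wt x : ℂ) - h x * conj (x j) * (wt x : ℂ)) := i1.sub i3
    have i24 : Integrable (fun x => dzb j h x * (wt x : ℂ) - h x * x j * (wt x : ℂ)) := i2.sub i4
    have h1 := Ibp_line (μ := (volume : Measure V)) hfr hv hH
      (H' := fun x => c * (dz j h x * (wt x : ℂ) - h x * conj (x j) * (wt x : ℂ)) +
        conj c * (dzb j h x * (wt x : ℂ) - h x * x j * (wt x : ℂ)))
      (((i1.sub i3).const_mul c).add ((i2.sub i4).const_mul (conj c))) (by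
        intro x hx
        have hdh := hh.diffAt hx
        have hdw := Ibp_wt_diff x
        have hd : DifferentiableAt ℝ (fun x => h x * (wt x : ℂ)) x := hdh.mul hdw
        have h2 := hd.hasFDerivAt.hasLineDerivAt (Pi.single j c)
        rw [fderiv_eq] at h2
        convert h2 using 1
        rw [Finset.sum_eq_single j]
        · rw [dz_mul j hdh hdw, dzb_mul j hdh hdw, Ibp_dz_wt j hx, Ibp_dzb_wt j hx,
            Pi.single_eq_same]
          ring
        · intro k _ hk
          rw [Pi.single_eq_of_ne hk]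
          simp
        · intro hj
          exact absurd (Finset.mem_univ _) hj)
    rw [integral_add (i13.const_mul c) (i24.const_mul (conj c)),
      integral_const_mul, integral_const_mul] at h1
    exact h1
  have k1 := key 1 one_ne_zero
  have k2 := key Complex.I Complex.I_ne_zero
  rw [map_one, one_mul, one_mul] at k1
  rw [Complex.conj_I] at k2
  have k3 : (∫ x, (dz j h x * (wt x : ℂ) - h x * conj (x j) * (wt x : ℂ))) =
      (∫ x, (dzb j h x * (wt x : ℂ) - h x * x j * (wt x : ℂ))) := by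
    have : Complex.I * ((∫ x, (dz j h x * (wt x : ℂ) - h x * conj (x j) * (wt x : ℂ))) -
      (∫ x, (dzb j h x * (wt x : ℂ) - h x * x j * (wt x : ℂ)))) = 0 := by
      rw [← k2]; ring
    exact sub_eq_zero.1 ((mul_eq_zero.1 this).resolve_left Complex.I_ne_zero)
  rw [k3] at k1
  have k4 : (∫ x, (dzb j h x * (wt x : ℂ) - h x * x j * (wt x : ℂ))) = 0 := by
    have : (2 : ℂ) * (∫ x, (dzb j h x * (wt x : ℂ) - h x * x j * (wt x : ℂ))) = 0 := by
      rw [← k1]; ring
    exact (mul_eq_zero.1 this).resolve_left two_ne_zero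
  exact ⟨k3.trans k4, k4⟩

theorem ibp_one {a b : ℤ} {h : V → ℂ} (hh : Hom a b h) (hab : -4 ≤ a + b) (j : Fin 3) :
    ∫ x, dz j h x * (wt x : ℂ) = ∫ x, h x * conj (x j) * (wt x : ℂ) := by
  obtain ⟨i1, i2, i3, i4⟩ := Ibp_int_z hh hab j
  have h1 := (Ibp_both hh hab j).1
  rw [integral_sub i1 i3] at h1
  exact sub_eq_zero.1 h1

theorem ibpb_one {a b : ℤ} {h : V → ℂ} (hh : Hom a b h) (hab : -4 ≤ a + b) (j : Fin 3) :
    ∫ x, dzb j h x * (wt x : ℂ) = ∫ x, h x * x j * (wt x : ℂ) := by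
  obtain ⟨i1, i2, i3, i4⟩ := Ibp_int_z hh hab j
  have h1 := (Ibp_both hh hab j).2
  rw [integral_sub i2 i4] at h1
  exact sub_eq_zero.1 h1

theorem ibp_z {a b c d : ℤ} {f g : V → ℂ} (hf : Hom a b f) (hg : Hom c d g)
    (h : -4 ≤ a + b + c + d) (j : Fin 3) :
    ∫ x, dz j f x * g x * (wt x : ℂ) =
      -(∫ x, f x * dz j g x * (wt x : ℂ)) + ∫ x, f x * g x * conj (x j) * (wt x : ℂ) := by
  have h1 := ibp_one (hom_mul hf hg) (by omega) j
  have i1 : Integrable (fun x => dz j f x * g x * (wt x : ℂ)) (volume : Measure V) :=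
    chom_integrable (hom_mul (dz_hom j hf) hg).chom (by omega)
  have i2 : Integrable (fun x => f x * dz j g x * (wt x : ℂ)) (volume : Measure V) :=
    chom_integrable (hom_mul hf (dz_hom j hg)).chom (by omega)
  have h2 : ∫ x, dz j (fun x => f x * g x) x * (wt x : ℂ) =
      ∫ x, (dz j f x * g x * (wt x : ℂ) + f x * dz j g x * (wt x : ℂ)) := by
    apply integral_congr_ae
    filter_upwards [Ibp_ae] with x hx
    rw [dz_mul j (hf.diffAt hx) (hg.diffAt hx)]
    ring
  rw [h2, integral_add i1 i2] at h1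
  rw [← h1]
  ring

theorem ibp_zb {a b c d : ℤ} {f g : V → ℂ} (hf : Hom a b f) (hg : Hom c d g)
    (h : -4 ≤ a + b + c + d) (j : Fin 3) :
    ∫ x, dzb j f x * g x * (wt x : ℂ) =
      -(∫ x, f x * dzb j g x * (wt x : ℂ)) + ∫ x, f x * g x * x j * (wt x : ℂ) := by
  have h1 := ibpb_one (hom_mul hf hg) (by omega) j
  have i1 : Integrable (fun x => dzb j f x * g x * (wt x : ℂ)) (volume : Measure V) :=
    chom_integrable (hom_mul (dzb_hom j hf) hg).chom (by omega)
  have i2 : Integrable (fun x => f x * dzb j g x * (wt x : ℂ)) (volume : Measure V) :=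
    chom_integrable (hom_mul hf (dzb_hom j hg)).chom (by omega)
  have h2 : ∫ x, dzb j (fun x => f x * g x) x * (wt x : ℂ) =
      ∫ x, (dzb j f x * g x * (wt x : ℂ) + f x * dzb j g x * (wt x : ℂ)) := by
    apply integral_congr_ae
    filter_upwards [Ibp_ae] with x hx
    rw [dzb_mul j (hf.diffAt hx) (hg.diffAt hx)]
    ring
  rw [h2, integral_add i1 i2] at h1
  rw [← h1]
  ring

end Pool.Agent.H85.DC

end S_H85_DC_Ibp

section S_H85_DC_Sto1

/-!
# Row Sto1: Stokes, first identity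

`s1gen`. Put `A x j k = dz j (β_k) x`, `a x j k = db ζ x j k = dzb k (ζ_j) x`.
`ee (A x) (a x) = tr A tr a - tr (A a) = ∑_{j,k} [dz j β_j * dzb k ζ_k - dz j β_k * dzb j ζ_k]`
(`tr (A a) = ∑_{j,k} A j k * a k j`, `a k j = dzb j ζ_k`).
Bidegrees: `dz j β_k : (-1,-1)`, `ζ_k : (-1,0)`, sum `-3 ≥ -4`.
`ibp_zb` in the direction `k` (derivative moved off `ζ_k`; use it with `f = ζ_k`, `g = dz j β_j`):
`∫ dzb k ζ_k * dz j β_j wt = -∫ ζ_k * dzb k (dz j β_j) wt + ∫ ζ_k * dz j β_j * x_k wt`; summed over `k` the last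
integrand is `dz j β_j * ∑ x_k ζ_k = 0` (`IsCov.kill`). Similarly in the direction `j`:
`∫ dzb j ζ_k * dz j β_k wt = -∫ ζ_k * dzb j (dz j β_k) wt + ∫ ζ_k * dz j β_k * x_j wt`; summed over `j` the last
one is `ζ_k * ∑_j x_j dz j β_k = ζ_k * 0` (Euler, `β_k : Hom 0 (-1)`).
Finally `dzb k (dz j β_j) = dz j (dzb k β_j) = dz j (dzb j β_k) = dzb j (dz j β_k)` off `0`
(`dz_dzb_comm`, hypothesis `hsym` and `dz_congr`), so everything cancels. All integrals converge
(`chom_integrable`), so sums and integrals can be exchanged (`integral_finsetSum`).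

`s1`: `β_k = dzb k u` (`Hom 0 (-1)`, symmetric by `dzb_dzb_comm`); `L u x j k = dz j (dzb k u) x`.
`s1W`: `β_k = x_k / N x` (`Hom 0 (-1)`; `dzb k (x_j / N) = -x_j x_k / N^2` symmetric;
`dz j (x_k / N) = δ_jk / N - x_k conj(x_j)/N^2 = Wm x j k` for `x ≠ 0`). (`qq` only sees `x ≠ 0`: `volume {0} = 0`.)
-/

open MeasureTheory
open scoped ContDiff BigOperators ComplexConjugate Matrix

namespace Pool.Agent.H85.DC

theorem Sto1_congr {f g : V → ℂ} (h : ∀ x : V, x ≠ 0 → f x = g x) : ∫ x, f x = ∫ x, g x := by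
  apply integral_congr_ae
  have h0 : ({0}ᶜ : Set V) ∈ ae (volume : Measure V) := compl_mem_ae_iff.2 (measure_singleton 0)
  filter_upwards [h0] with x hx
  exact h x hx

/-- `qq` depends only on the values off `0`. -/
theorem qq_congr {A A' B B' : V → M3} (hA : ∀ x : V, x ≠ 0 → A x = A' x)
    (hB : ∀ x : V, x ≠ 0 → B x = B' x) : qq A B = qq A' B' := by
  unfold qq
  apply Sto1_congr
  intro x hx
  rw [hA x hx, hB x hx]

theorem s1gen {β : V → V} (hβ : ∀ k, Hom 0 (-1) (fun x => β x k))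
    (hsym : ∀ (j k : Fin 3) (x : V), x ≠ 0 →
      dzb k (fun y => β y j) x = dzb j (fun y => β y k) x)
    {ζ : V → V} (hζ : IsCov ζ) :
    qq (fun x => fun j k => dz j (fun y => β y k) x) (db ζ) = 0 := by
  have hz : ∀ k, Hom (-1) 0 (fun x => ζ x k) := isCov_hom hζ
  have hb : ∀ j k, Hom (0 - 1) (-1) (dz j (fun y => β y k)) := fun j k => dz_hom j (hβ k)
  have hzd : ∀ j k, Hom (-1) (0 - 1) (dzb j (fun y => ζ y k)) := fun j k => dzb_hom j (hz k)
  have e1 : ∀ j k, ∫ x, dzb k (fun y => ζ y k) x * dz j (fun y => β y j) x * (wt x : ℂ) =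
      -(∫ x, ζ x k * dzb k (dz j (fun y => β y j)) x * (wt x : ℂ)) +
        ∫ x, ζ x k * dz j (fun y => β y j) x * x k * (wt x : ℂ) := fun j k =>
    ibp_zb (hz k) (hb j j) (by norm_num) k
  have e2 : ∀ j k, ∫ x, dzb j (fun y => ζ y k) x * dz j (fun y => β y k) x * (wt x : ℂ) =
      -(∫ x, ζ x k * dzb j (dz j (fun y => β y k)) x * (wt x : ℂ)) +
        ∫ x, ζ x k * dz j (fun y => β y k) x * x j * (wt x : ℂ) := fun j k =>
    ibp_zb (hz k) (hb j k) (by norm_num) j
  have i1 : ∀ j k, Integrable (fun x : V =>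
      dzb k (fun y => ζ y k) x * dz j (fun y => β y j) x * (wt x : ℂ)) := fun j k =>
    chom_integrable (hom_mul (hzd k k) (hb j j)).chom (by norm_num)
  have i2 : ∀ j k, Integrable (fun x : V =>
      dzb j (fun y => ζ y k) x * dz j (fun y => β y k) x * (wt x : ℂ)) := fun j k =>
    chom_integrable (hom_mul (hzd j k) (hb j k)).chom (by norm_num)
  have i4 : ∀ j k, Integrable (fun x : V =>
      ζ x k * dz j (fun y => β y j) x * x k * (wt x : ℂ)) := fun j k =>
    chom_integrable (hom_mul (hom_mul (hz k) (hb j j)) (hom_coord k)).chom (by norm_num)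
  have i5 : ∀ j k, Integrable (fun x : V =>
      ζ x k * dz j (fun y => β y k) x * x j * (wt x : ℂ)) := fun j k =>
    chom_integrable (hom_mul (hom_mul (hz k) (hb j k)) (hom_coord j)).chom (by norm_num)
  have e0 : qq (fun x => fun j k => dz j (fun y => β y k) x) (db ζ) = ∑ j, ∑ k,
      ((∫ x, dzb k (fun y => ζ y k) x * dz j (fun y => β y j) x * (wt x : ℂ)) -
        ∫ x, dzb j (fun y => ζ y k) x * dz j (fun y => β y k) x * (wt x : ℂ)) := by
    have h1 : ∀ x : V, ee (fun j k => dz j (fun y => β y k) x) (db ζ x) * (wt x : ℂ) =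
        ∑ j, ∑ k, (dzb k (fun y => ζ y k) x * dz j (fun y => β y j) x * (wt x : ℂ) -
          dzb j (fun y => ζ y k) x * dz j (fun y => β y k) x * (wt x : ℂ)) := by
      intro x
      unfold ee db
      simp only [Matrix.trace, Matrix.diag, Matrix.mul_apply, Fin.sum_univ_three]
      ring
    have i3 : ∀ j k, Integrable (fun x : V =>
        (dzb k (fun y => ζ y k) x * dz j (fun y => β y j) x * (wt x : ℂ) -
          dzb j (fun y => ζ y k) x * dz j (fun y => β y k) x * (wt x : ℂ))) := fun j k =>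
      (i1 j k).sub (i2 j k)
    unfold qq
    simp_rw [h1]
    rw [integral_finsetSum _ fun j _ => integrable_finsetSum _ fun k _ => i3 j k]
    refine Finset.sum_congr rfl fun j _ => ?_
    rw [integral_finsetSum _ fun k _ => i3 j k]
    refine Finset.sum_congr rfl fun k _ => ?_
    exact integral_sub (i1 j k) (i2 j k)
  have e3 : ∀ j k, ∫ x, ζ x k * dzb k (dz j (fun y => β y j)) x * (wt x : ℂ) =
      ∫ x, ζ x k * dzb j (dz j (fun y => β y k)) x * (wt x : ℂ) := by
    intro j k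
    apply Sto1_congr
    intro x hx
    have h1 := dz_dzb_comm j k (hβ j).smooth hx
    have h2 := dz_dzb_comm j j (hβ k).smooth hx
    have h3 : dz j (dzb k (fun y => β y j)) x = dz j (dzb j (fun y => β y k)) x :=
      dz_congr j hx fun y hy => hsym j k y hy
    rw [← h1, ← h2, h3]
  have e4 : ∀ j, ∑ k, ∫ x, ζ x k * dz j (fun y => β y j) x * x k * (wt x : ℂ) = 0 := by
    intro j
    rw [← integral_finsetSum _ fun k _ => i4 j k]
    rw [Sto1_congr (g := fun _ => 0)]
    · simp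
    · intro x hx
      have h1 := hζ.kill x hx
      have h2 : ∑ k, ζ x k * dz j (fun y => β y j) x * x k * (wt x : ℂ) =
          dz j (fun y => β y j) x * (wt x : ℂ) * ∑ k, x k * ζ x k := by
        rw [Finset.mul_sum]
        exact Finset.sum_congr rfl fun k _ => by ring
      rw [h2, h1, mul_zero]
  have e5 : ∀ k, ∑ j, ∫ x, ζ x k * dz j (fun y => β y k) x * x j * (wt x : ℂ) = 0 := by
    intro k
    rw [← integral_finsetSum _ fun j _ => i5 j k]
    rw [Sto1_congr (g := fun _ => 0)]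
    · simp
    · intro x hx
      have h1 := euler (hβ k) hx
      have h2 : ∑ j, ζ x k * dz j (fun y => β y k) x * x j * (wt x : ℂ) =
          ζ x k * (wt x : ℂ) * ∑ j, x j * dz j (fun y => β y k) x := by
        rw [Finset.mul_sum]
        exact Finset.sum_congr rfl fun k _ => by ring
      rw [h2, h1]
      simp
  rw [e0]
  have e6 : ∀ j k, ((∫ x, dzb k (fun y => ζ y k) x * dz j (fun y => β y j) x * (wt x : ℂ)) -
        ∫ x, dzb j (fun y => ζ y k) x * dz j (fun y => β y k) x * (wt x : ℂ)) =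
      (∫ x, ζ x k * dz j (fun y => β y j) x * x k * (wt x : ℂ)) -
        ∫ x, ζ x k * dz j (fun y => β y k) x * x j * (wt x : ℂ) := by
    intro j k
    rw [e1, e2, e3]
    ring
  simp_rw [e6, Finset.sum_sub_distrib, e4]
  rw [Finset.sum_comm]
  simp_rw [e5]
  simp

theorem s1 {u : V → ℂ} (hu : IsFun u) {ζ : V → V} (hζ : IsCov ζ) : qq (L u) (db ζ) = 0 := by
  have hu' := isFun_iff.1 hu
  have h := s1gen (β := fun x k => dzb k u x) (fun k => dzb_hom k hu')
    (fun j k x hx => dzb_dzb_comm k j hu.smooth hx) hζ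
  exact h

theorem Sto1_N {x : V} (hx : x ≠ 0) : (N x : ℂ) ≠ 0 := by
  exact_mod_cast (N_pos hx).ne'

theorem Wm_eq {x : V} (hx : x ≠ 0) (j k : Fin 3) :
    Wm x j k = dz j (fun y => y k / (N y : ℂ)) x := by
  have hN := Sto1_N hx
  have h1 : (fun y : V => y k / (N y : ℂ)) = fun y => y k * ((N y : ℂ))⁻¹ := by
    funext y
    rw [div_eq_mul_inv]
  rw [h1, dz_mul j ((hom_coord k).diffAt hx) (hom_Ninv.diffAt hx), dz_coord,
    dz_inv j (hom_N.diffAt hx) hN, dz_N]
  unfold Wm
  field_simp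
  ring

theorem s1W {ζ : V → V} (hζ : IsCov ζ) : qq Wm (db ζ) = 0 := by
  have h := s1gen (β := fun x k => x k / (N x : ℂ)) (fun k => by
      have h2 := hom_mul (hom_coord k) hom_Ninv
      simpa [div_eq_mul_inv] using h2)
    (fun j k x hx => by
      have hN := Sto1_N hx
      have h1 : ∀ i : Fin 3, (fun y : V => y i / (N y : ℂ)) = fun y => y i * ((N y : ℂ))⁻¹ := by
        intro i
        funext y
        rw [div_eq_mul_inv]
      simp only [h1]
      rw [dzb_mul k ((hom_coord j).diffAt hx) (hom_Ninv.diffAt hx), dzb_coord,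
        dzb_mul j ((hom_coord k).diffAt hx) (hom_Ninv.diffAt hx), dzb_coord,
        dzb_inv k (hom_N.diffAt hx) hN, dzb_inv j (hom_N.diffAt hx) hN, dzb_N, dzb_N]
      ring) hζ
  rw [← h]
  apply qq_congr
  · intro x hx
    ext j k
    exact Wm_eq hx j k
  · intro x hx
    rfl

end Pool.Agent.H85.DC

end S_H85_DC_Sto1

section S_H85_DC_Sto2

/-!
# Row Sto2: Stokes for two covectors

`a_jk = dzb k ζ_j`, `b_jk = dzb k ξ_j`, `ζ_j, ξ_j : Hom (-1) 0`.

`s2`. `ee a b = ∑_{j,k} [dzb j ζ_j * dzb k ξ_k - dzb k ζ_j * dzb j ξ_k]`. Move the derivative off `ζ_j`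
(`ibp_zb`, bidegree sum `-1 - 2 = -3`): first `= -∫ ζ_j dzb j (dzb k ξ_k) + ∫ ζ_j x_j dzb k ξ_k`, and
`∑_j x_j ζ_j = 0`; second `∫ dzb k ζ_j dzb j ξ_k = -∫ ζ_j dzb k (dzb j ξ_k) + ∫ ζ_j x_k dzb j ξ_k`, and
`∑_k x_k dzb j ξ_k = dzb j (∑_k x_k ξ_k) = 0`. Cancel by `dzb_dzb_comm`.

`s2c`. `(db ζ x)ᴴ k j = conj (dzb k ζ_j)`, `conj (dzb k ζ_j) = dz k (conj ζ_j)`. So
`ee a aᴴ = |tr a|^2 - ∑ |a_jk|^2 = ∑_{j,k} [dzb j ζ_j * dz k (conj ζ_k) - dzb k ζ_j * dz k (conj ζ_j)]`.
(1) `∫ dzb j ζ_j * dz k ζ̄_k = -∫ ζ_j dzb j (dz k ζ̄_k) + ∫ ζ_j x_j dz k ζ̄_k`; sum over `j` of the last is `0`.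
`-∫ ζ_j dz k (dzb j ζ̄_k) = ∫ dz k ζ_j * dzb j ζ̄_k - ∫ ζ_j (dzb j ζ̄_k) conj(x_k)` (`ibp_z` with `f = dzb j ζ̄_k`,
`g = ζ_j`, bidegree sum `-3`); `∑_k conj(x_k) dzb j ζ̄_k = conj (∑_k x_k dz j ζ_k) = conj (dz j (∑_k x_k ζ_k) - ζ_j)
= - conj ζ_j`. So the sum of (1) over `j,k` is `∑_{j,k} ∫ dz k ζ_j * conj (dz j ζ_k) + ∑_j ∫ |ζ_j|^2`
(`dzb j ζ̄_k = conj (dz j ζ_k)`).
(2) `∫ dzb k ζ_j * dz k ζ̄_j = -∫ ζ_j dzb k (dz k ζ̄_j) + ∫ ζ_j x_k dz k ζ̄_j`; `∑_k x_k dz k ζ̄_j = 0` (Euler, `ζ̄_j : Hom 0 (-1)`).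
`-∫ ζ_j dz k (dzb k ζ̄_j) = ∫ dz k ζ_j * dzb k ζ̄_j - ∫ ζ_j (dzb k ζ̄_j) conj(x_k)`, `∑_k conj(x_k) dzb k ζ̄_j = - ζ̄_j`
(Euler). So the sum of (2) is `∑_{j,k} ∫ |dz k ζ_j|^2 + ∑_j ∫ |ζ_j|^2`.
(1) - (2) `= ∑_{j,k} ∫ (dz k ζ_j conj(dz j ζ_k) - |dz k ζ_j|^2) = -(1/2) ∫ ∑_{j,k} |dz k ζ_j - dz j ζ_k|^2`
(expand; `∑_{j,k} dz k ζ_j conj (dz j ζ_k)` is real since exchanging `j,k` conjugates it).

`curl_integrable`: each term is `(-2,0)`-homogeneous times its conjugate: bidegree sum `-4`.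
-/

open MeasureTheory
open scoped ContDiff BigOperators ComplexConjugate Matrix

namespace Pool.Agent.H85.DC

theorem Sto2_ne : ∀ᵐ x : V, x ≠ 0 := compl_mem_ae_iff.2 (measure_singleton (0 : V))

theorem Sto2_ee (A B : M3) : ee A B = ∑ j, ∑ k, (A j j * B k k - A j k * B k j) := by
  unfold ee
  simp only [Matrix.trace, Matrix.diag, Matrix.mul_apply, Finset.sum_mul_sum,
    Finset.sum_sub_distrib]

theorem Sto2_dsum {F G : Fin 3 → Fin 3 → V → ℂ} (hF : ∀ j k, Integrable (F j k))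
    (hG : ∀ j k, Integrable (G j k)) : ∫ x, (∑ j, ∑ k, (F j k x - G j k x)) =
      ∑ j, ∑ k, ((∫ x, F j k x) - ∫ x, G j k x) := by
  have h : ∀ j k, Integrable (fun x => F j k x - G j k x) := fun j k => (hF j k).sub (hG j k)
  rw [integral_finsetSum _ fun j _ => integrable_finsetSum _ fun k _ => h j k]
  refine Finset.sum_congr rfl fun j _ => ?_
  rw [integral_finsetSum _ fun k _ => h j k]
  exact Finset.sum_congr rfl fun k _ => integral_sub (hF j k) (hG j k)

theorem Sto2_qq {A B : V → M3} (h1 : ∀ j k, Integrable (fun x => A x j j * B x k k * (wt x : ℂ)))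
    (h2 : ∀ j k, Integrable (fun x => A x j k * B x k j * (wt x : ℂ))) :
    qq A B = ∑ j, ∑ k, ((∫ x, A x j j * B x k k * (wt x : ℂ)) -
      ∫ x, A x j k * B x k j * (wt x : ℂ)) := by
  unfold qq
  have e : ∀ x, ee (A x) (B x) * (wt x : ℂ) = ∑ j, ∑ k, (A x j j * B x k k * (wt x : ℂ) -
      A x j k * B x k j * (wt x : ℂ)) := by
    intro x
    rw [Sto2_ee, Finset.sum_mul]
    refine Finset.sum_congr rfl fun j _ => ?_
    rw [Finset.sum_mul]
    refine Finset.sum_congr rfl fun k _ => ?_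
    ring
  simp only [e]
  exact Sto2_dsum h1 h2

theorem Sto2_int {a b c d : ℤ} {f g : V → ℂ} (hf : Hom a b f) (hg : Hom c d g)
    (h : -5 ≤ a + b + c + d) : Integrable (fun x => f x * g x * (wt x : ℂ)) :=
  chom_integrable (hom_mul hf hg).chom (by omega)

/-- `∑ j ∫ F j = 0` if the pointwise sum vanishes off `0`. -/
theorem Sto2_zero {F : Fin 3 → V → ℂ} (hF : ∀ j, Integrable (F j))
    (h : ∀ x : V, x ≠ 0 → ∑ j, F j x = 0) : ∑ j, ∫ x, F j x = 0 := by
  rw [← integral_finsetSum _ fun j _ => hF j]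
  have h2 : (fun x => ∑ j, F j x) =ᵐ[volume] fun _ => (0 : ℂ) := by
    filter_upwards [Sto2_ne] with x hx
    exact h x hx
  rw [integral_congr_ae h2]
  simp

theorem Sto2_covA {ξ : V → V} (hξ : IsCov ξ) (j : Fin 3) {x : V} (hx : x ≠ 0) :
    ∑ k, x k * dzb j (fun y => ξ y k) x = 0 := by
  have hd : ∀ k, DifferentiableAt ℝ (fun y : V => ξ y k) x := fun k => (isCov_hom hξ k).diffAt hx
  have hc : ∀ k, DifferentiableAt ℝ (fun y : V => y k) x := fun k => (hom_coord k).diffAt hx
  have h1 : dzb j (fun y => ∑ k, y k * ξ y k) x = 0 := by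
    rw [dzb_congr j hx (g := fun _ => 0) (fun y hy => hξ.kill y hy), dzb_const]
  have hm : ∀ k, DifferentiableAt ℝ (fun y : V => y k * ξ y k) x := fun k => (hc k).mul (hd k)
  rw [dzb_sum j Finset.univ (fun k y => y k * ξ y k) (fun k _ => hm k)] at h1
  rw [← h1]
  refine Finset.sum_congr rfl fun k _ => ?_
  rw [dzb_mul j (hc k) (hd k), dzb_coord, zero_mul, zero_add]

theorem Sto2_covB {ξ : V → V} (hξ : IsCov ξ) (j : Fin 3) {x : V} (hx : x ≠ 0) :
    ∑ k, x k * dz j (fun y => ξ y k) x = -ξ x j := by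
  have hd : ∀ k, DifferentiableAt ℝ (fun y : V => ξ y k) x := fun k => (isCov_hom hξ k).diffAt hx
  have hc : ∀ k, DifferentiableAt ℝ (fun y : V => y k) x := fun k => (hom_coord k).diffAt hx
  have h1 : dz j (fun y => ∑ k, y k * ξ y k) x = 0 := by
    rw [dz_congr j hx (g := fun _ => 0) (fun y hy => hξ.kill y hy), dz_const]
  have hm : ∀ k, DifferentiableAt ℝ (fun y : V => y k * ξ y k) x := fun k => (hc k).mul (hd k)
  rw [dz_sum j Finset.univ (fun k y => y k * ξ y k) (fun k _ => hm k)] at h1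
  have h2 : ∀ k, dz j (fun y : V => y k * ξ y k) x =
      (if j = k then ξ x k else 0) + x k * dz j (fun y => ξ y k) x := by
    intro k
    rw [dz_mul j (hc k) (hd k), dz_coord]
    split_ifs <;> ring
  simp only [h2] at h1
  rw [Finset.sum_add_distrib, Finset.sum_ite_eq] at h1
  simp only [Finset.mem_univ, if_true] at h1
  linear_combination h1

theorem s2 {ζ ξ : V → V} (hζ : IsCov ζ) (hξ : IsCov ξ) : qq (db ζ) (db ξ) = 0 := by
  have hz := isCov_hom hζ
  have hw := isCov_hom hξ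
  have hzb : ∀ j k, Hom (-1) (0 - 1) (dzb k (fun y => ζ y j)) := fun j k => dzb_hom k (hz j)
  have hwb : ∀ j k, Hom (-1) (0 - 1) (dzb k (fun y => ξ y j)) := fun j k => dzb_hom k (hw j)
  have hqq := Sto2_qq (A := db ζ) (B := db ξ)
    (fun j k => Sto2_int (hzb j j) (hwb k k) (by norm_num))
    (fun j k => Sto2_int (hzb j k) (hwb k j) (by norm_num))
  rw [hqq]
  have e : ∀ j k : Fin 3, (∫ x, db ζ x j j * db ξ x k k * (wt x : ℂ)) -
      (∫ x, db ζ x j k * db ξ x k j * (wt x : ℂ)) =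
      (∫ x, ζ x j * dzb k (fun y => ξ y k) x * x j * (wt x : ℂ)) -
      ∫ x, ζ x j * dzb j (fun y => ξ y k) x * x k * (wt x : ℂ) := by
    intro j k
    have h1 := ibp_zb (hz j) (hwb k k) (by norm_num) j
    have h2 := ibp_zb (hz j) (hwb k j) (by norm_num) k
    have h3 : ∫ x, ζ x j * dzb j (dzb k (fun y => ξ y k)) x * (wt x : ℂ) =
        ∫ x, ζ x j * dzb k (dzb j (fun y => ξ y k)) x * (wt x : ℂ) := by
      refine integral_congr_ae ?_
      filter_upwards [Sto2_ne] with x hx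
      rw [dzb_dzb_comm j k (hw k).smooth hx]
    change (∫ x, dzb j (fun y => ζ y j) x * dzb k (fun y => ξ y k) x * (wt x : ℂ)) -
      (∫ x, dzb k (fun y => ζ y j) x * dzb j (fun y => ξ y k) x * (wt x : ℂ)) = _
    rw [h1, h2, h3]
    ring
  simp only [e]
  simp only [Finset.sum_sub_distrib]
  rw [Finset.sum_comm]
  have e1 : ∀ k : Fin 3, ∑ j, ∫ x, ζ x j * dzb k (fun y => ξ y k) x * x j * (wt x : ℂ) = 0 := by
    intro k
    refine Sto2_zero (fun j => Sto2_int (hom_mul (hz j) (hwb k k)) (hom_coord j) (by norm_num))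
      fun x hx => ?_
    have h := hζ.kill x hx
    calc ∑ j, ζ x j * dzb k (fun y => ξ y k) x * x j * (wt x : ℂ)
        = (∑ j, x j * ζ x j) * (dzb k (fun y => ξ y k) x * (wt x : ℂ)) := by
          rw [Finset.sum_mul]
          exact Finset.sum_congr rfl fun j _ => by ring
      _ = 0 := by rw [h, zero_mul]
  have e2 : ∀ j : Fin 3, ∑ k, ∫ x, ζ x j * dzb j (fun y => ξ y k) x * x k * (wt x : ℂ) = 0 := by
    intro j
    refine Sto2_zero (fun k => Sto2_int (hom_mul (hz j) (hwb k j)) (hom_coord k) (by norm_num))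
      fun x hx => ?_
    have h := Sto2_covA hξ j hx
    calc ∑ k, ζ x j * dzb j (fun y => ξ y k) x * x k * (wt x : ℂ)
        = (∑ k, x k * dzb j (fun y => ξ y k) x) * (ζ x j * (wt x : ℂ)) := by
          rw [Finset.sum_mul]
          exact Finset.sum_congr rfl fun k _ => by ring
      _ = 0 := by rw [h, zero_mul]
  rw [Finset.sum_eq_zero fun k _ => e1 k, Finset.sum_eq_zero fun j _ => e2 j, sub_zero]

/-- The components of the exterior derivative. -/
theorem Sto2_curlHom {ζ : V → V} (hζ : IsCov ζ) (j k : Fin 3) :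
    Hom (-1 - 1) 0 (fun x => dz k (fun y => ζ y j) x - dz j (fun y => ζ y k) x) := by
  have h := hom_add (dz_hom k (isCov_hom hζ j)) (hom_neg (dz_hom j (isCov_hom hζ k)))
  simpa only [sub_eq_add_neg] using h

theorem Sto2_curl {ζ : V → V} (x : V) : (curl ζ x : ℂ) =
    ∑ j, ∑ k, (dz k (fun y => ζ y j) x - dz j (fun y => ζ y k) x) *
      conj (dz k (fun y => ζ y j) x - dz j (fun y => ζ y k) x) := by
  unfold curl
  push_cast
  simp only [Complex.mul_conj]

theorem Sto2_curlInt {ζ : V → V} (hζ : IsCov ζ) :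
    Integrable (fun x => (curl ζ x : ℂ) * (wt x : ℂ)) := by
  have e : (fun x => (curl ζ x : ℂ) * (wt x : ℂ)) = fun x => ∑ j, ∑ k,
      ((dz k (fun y => ζ y j) x - dz j (fun y => ζ y k) x) *
      conj (dz k (fun y => ζ y j) x - dz j (fun y => ζ y k) x) * (wt x : ℂ)) := by
    funext x
    rw [Sto2_curl, Finset.sum_mul]
    refine Finset.sum_congr rfl fun j _ => ?_
    rw [Finset.sum_mul]
  rw [e]
  refine integrable_finsetSum _ fun j _ => integrable_finsetSum _ fun k _ => ?_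
  exact Sto2_int (Sto2_curlHom hζ j k) (hom_conj (Sto2_curlHom hζ j k)) (by norm_num)

theorem curl_integrable {ζ : V → V} (hζ : IsCov ζ) : Integrable (fun x => curl ζ x * wt x) := by
  have h := (Sto2_curlInt hζ).re
  refine h.congr (Filter.Eventually.of_forall fun x => ?_)
  change ((curl ζ x : ℂ) * (wt x : ℂ)).re = curl ζ x * wt x
  rw [← Complex.ofReal_mul, Complex.ofReal_re]

theorem s2c {ζ : V → V} (hζ : IsCov ζ) :
    qq (db ζ) (fun x => (db ζ x)ᴴ) = ((-(1 / 2) * ∫ x, curl ζ x * wt x : ℝ) : ℂ) := by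
  have hz := isCov_hom hζ
  have hc : ∀ k, Hom 0 (-1) (fun x => conj (ζ x k)) := fun k => hom_conj (hz k)
  have hzb : ∀ j k, Hom (-1) (0 - 1) (dzb k (fun y => ζ y j)) := fun j k => dzb_hom k (hz j)
  have hzd : ∀ j k, Hom (-1 - 1) 0 (dz k (fun y => ζ y j)) := fun j k => dz_hom k (hz j)
  have hcd : ∀ j k, Hom (0 - 1) (-1) (dz k (fun y => conj (ζ y j))) := fun j k => dz_hom k (hc j)
  have hcb : ∀ j k, Hom 0 (-1 - 1) (dzb k (fun y => conj (ζ y j))) := fun j k => dzb_hom k (hc j)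
  have hB : ∀ (x : V) (j k : Fin 3), (db ζ x)ᴴ k j = dz k (fun y => conj (ζ y j)) x := by
    intro x j k
    rw [Matrix.conjTranspose_apply]
    change conj (dzb k (fun y => ζ y j) x) = _
    rw [conj_dzb]
  rw [Sto2_qq (fun j k => by simp only [hB]; exact Sto2_int (hzb j j) (hcd k k) (by norm_num))
    (fun j k => by simp only [hB]; exact Sto2_int (hzb j k) (hcd j k) (by norm_num))]
  simp only [hB]
  -- (1)
  have k1 : ∀ j k : Fin 3, ∫ x, db ζ x j j * dz k (fun y => conj (ζ y k)) x * (wt x : ℂ) =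
      (∫ x, dzb j (fun y => conj (ζ y k)) x * dz k (fun y => ζ y j) x * (wt x : ℂ)) -
      (∫ x, dzb j (fun y => conj (ζ y k)) x * ζ x j * conj (x k) * (wt x : ℂ)) +
      ∫ x, ζ x j * dz k (fun y => conj (ζ y k)) x * x j * (wt x : ℂ) := by
    intro j k
    have h1 := ibp_zb (hz j) (hcd k k) (by norm_num) j
    have h2 := ibp_z (hcb k j) (hz j) (by norm_num) k
    have h3 : ∫ x, ζ x j * dzb j (dz k (fun y => conj (ζ y k))) x * (wt x : ℂ) =
        ∫ x, dz k (dzb j (fun y => conj (ζ y k))) x * ζ x j * (wt x : ℂ) := by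
      refine integral_congr_ae ?_
      filter_upwards [Sto2_ne] with x hx
      rw [dz_dzb_comm k j (hc k).smooth hx]
      ring
    change ∫ x, dzb j (fun y => ζ y j) x * dz k (fun y => conj (ζ y k)) x * (wt x : ℂ) = _
    rw [h1, h3, h2]
    ring
  have k2 : ∀ j k : Fin 3, ∫ x, db ζ x j k * dz k (fun y => conj (ζ y j)) x * (wt x : ℂ) =
      (∫ x, dzb k (fun y => conj (ζ y j)) x * dz k (fun y => ζ y j) x * (wt x : ℂ)) -
      (∫ x, dzb k (fun y => conj (ζ y j)) x * ζ x j * conj (x k) * (wt x : ℂ)) +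
      ∫ x, ζ x j * dz k (fun y => conj (ζ y j)) x * x k * (wt x : ℂ) := by
    intro j k
    have h1 := ibp_zb (hz j) (hcd j k) (by norm_num) k
    have h2 := ibp_z (hcb j k) (hz j) (by norm_num) k
    have h3 : ∫ x, ζ x j * dzb k (dz k (fun y => conj (ζ y j))) x * (wt x : ℂ) =
        ∫ x, dz k (dzb k (fun y => conj (ζ y j))) x * ζ x j * (wt x : ℂ) := by
      refine integral_congr_ae ?_
      filter_upwards [Sto2_ne] with x hx
      rw [dz_dzb_comm k k (hc j).smooth hx]
      ring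
    change ∫ x, dzb k (fun y => ζ y j) x * dz k (fun y => conj (ζ y j)) x * (wt x : ℂ) = _
    rw [h1, h3, h2]
    ring
  simp only [k1, k2]
  -- the terms with coordinates
  have hint1 : ∀ j k : Fin 3, Integrable fun x => dzb j (fun y => conj (ζ y k)) x * ζ x j *
      conj (x k) * (wt x : ℂ) := fun j k =>
    Sto2_int (hom_mul (hcb k j) (hz j)) (hom_conj_coord k) (by norm_num)
  have hint2 : ∀ j k : Fin 3, Integrable fun x => dzb k (fun y => conj (ζ y j)) x * ζ x j *
      conj (x k) * (wt x : ℂ) := fun j k =>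
    Sto2_int (hom_mul (hcb j k) (hz j)) (hom_conj_coord k) (by norm_num)
  have t1 : ∀ j : Fin 3, ∑ k, ∫ x, dzb j (fun y => conj (ζ y k)) x * ζ x j * conj (x k) * (wt x : ℂ) =
      ∑ k, ∫ x, dzb k (fun y => conj (ζ y j)) x * ζ x j * conj (x k) * (wt x : ℂ) := by
    intro j
    rw [← integral_finsetSum _ fun k _ => hint1 j k, ← integral_finsetSum _ fun k _ => hint2 j k]
    refine integral_congr_ae ?_
    filter_upwards [Sto2_ne] with x hx
    have h1 : ∑ k, conj (x k) * dzb j (fun y => conj (ζ y k)) x = -conj (ζ x j) := by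
      have h := congrArg conj (Sto2_covB hζ j hx)
      rw [map_sum, map_neg] at h
      rw [← h]
      refine Finset.sum_congr rfl fun k _ => ?_
      rw [map_mul, conj_dz]
    have h2 : ∑ k, conj (x k) * dzb k (fun y => conj (ζ y j)) x = -conj (ζ x j) := by
      rw [eulerb (hc j) hx]
      push_cast
      ring
    calc ∑ k, dzb j (fun y => conj (ζ y k)) x * ζ x j * conj (x k) * (wt x : ℂ)
        = (∑ k, conj (x k) * dzb j (fun y => conj (ζ y k)) x) * (ζ x j * (wt x : ℂ)) := by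
          rw [Finset.sum_mul]
          exact Finset.sum_congr rfl fun k _ => by ring
      _ = (∑ k, conj (x k) * dzb k (fun y => conj (ζ y j)) x) * (ζ x j * (wt x : ℂ)) := by
          rw [h1, h2]
      _ = ∑ k, dzb k (fun y => conj (ζ y j)) x * ζ x j * conj (x k) * (wt x : ℂ) := by
          rw [Finset.sum_mul]
          exact Finset.sum_congr rfl fun k _ => by ring
  have t2 : ∀ k : Fin 3, ∑ j, ∫ x, ζ x j * dz k (fun y => conj (ζ y k)) x * x j * (wt x : ℂ) = 0 := by
    intro k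
    refine Sto2_zero (fun j => Sto2_int (hom_mul (hz j) (hcd k k)) (hom_coord j) (by norm_num))
      fun x hx => ?_
    have h := hζ.kill x hx
    calc ∑ j, ζ x j * dz k (fun y => conj (ζ y k)) x * x j * (wt x : ℂ)
        = (∑ j, x j * ζ x j) * (dz k (fun y => conj (ζ y k)) x * (wt x : ℂ)) := by
          rw [Finset.sum_mul]
          exact Finset.sum_congr rfl fun j _ => by ring
      _ = 0 := by rw [h, zero_mul]
  have t3 : ∀ j : Fin 3, ∑ k, ∫ x, ζ x j * dz k (fun y => conj (ζ y j)) x * x k * (wt x : ℂ) = 0 := by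
    intro j
    refine Sto2_zero (fun k => Sto2_int (hom_mul (hz j) (hcd j k)) (hom_coord k) (by norm_num))
      fun x hx => ?_
    have h := euler (hc j) hx
    calc ∑ k, ζ x j * dz k (fun y => conj (ζ y j)) x * x k * (wt x : ℂ)
        = (∑ k, x k * dz k (fun y => conj (ζ y j)) x) * (ζ x j * (wt x : ℂ)) := by
          rw [Finset.sum_mul]
          exact Finset.sum_congr rfl fun k _ => by ring
      _ = 0 := by rw [h]; push_cast; ring
  have t2' : ∑ j : Fin 3, ∑ k : Fin 3,
      ∫ x, ζ x j * dz k (fun y => conj (ζ y k)) x * x j * (wt x : ℂ) = 0 := by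
    rw [Finset.sum_comm]
    exact Finset.sum_eq_zero fun k _ => t2 k
  have hi1 : ∀ j k : Fin 3, Integrable fun x => dzb j (fun y => conj (ζ y k)) x *
      dz k (fun y => ζ y j) x * (wt x : ℂ) := fun j k =>
    Sto2_int (hcb k j) (hzd j k) (by norm_num)
  have hi2 : ∀ j k : Fin 3, Integrable fun x => dzb k (fun y => conj (ζ y j)) x *
      dz k (fun y => ζ y j) x * (wt x : ℂ) := fun j k =>
    Sto2_int (hcb j k) (hzd j k) (by norm_num)
  have e1 : ∑ j : Fin 3, ∑ k : Fin 3,
      (((∫ x, dzb j (fun y => conj (ζ y k)) x * dz k (fun y => ζ y j) x * (wt x : ℂ)) -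
      (∫ x, dzb j (fun y => conj (ζ y k)) x * ζ x j * conj (x k) * (wt x : ℂ)) +
      ∫ x, ζ x j * dz k (fun y => conj (ζ y k)) x * x j * (wt x : ℂ)) -
      ((∫ x, dzb k (fun y => conj (ζ y j)) x * dz k (fun y => ζ y j) x * (wt x : ℂ)) -
      (∫ x, dzb k (fun y => conj (ζ y j)) x * ζ x j * conj (x k) * (wt x : ℂ)) +
      ∫ x, ζ x j * dz k (fun y => conj (ζ y j)) x * x k * (wt x : ℂ))) =
      ∑ j : Fin 3, ∑ k : Fin 3,
      ((∫ x, dzb j (fun y => conj (ζ y k)) x * dz k (fun y => ζ y j) x * (wt x : ℂ)) -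
      ∫ x, dzb k (fun y => conj (ζ y j)) x * dz k (fun y => ζ y j) x * (wt x : ℂ)) := by
    simp only [Finset.sum_sub_distrib, Finset.sum_add_distrib, t1, t2', t3]
    simp only [Finset.sum_const_zero]
    ring
  rw [e1]
  rw [← Sto2_dsum hi1 hi2]
  have e4 : ∀ x : V, ∑ j : Fin 3, ∑ k : Fin 3,
        (dzb j (fun y => conj (ζ y k)) x * dz k (fun y => ζ y j) x * (wt x : ℂ) -
        dzb k (fun y => conj (ζ y j)) x * dz k (fun y => ζ y j) x * (wt x : ℂ)) =
      ((-(1 / 2) * (curl ζ x * wt x) : ℝ) : ℂ) := by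
    intro x
    have h1 : ∀ j k : Fin 3, dzb j (fun y => conj (ζ y k)) x = conj (dz j (fun y => ζ y k) x) :=
      fun j k => (conj_dz j _ x).symm
    simp only [h1]
    push_cast
    rw [Sto2_curl]
    simp only [Fin.sum_univ_three, map_sub]
    ring
  simp only [e4]
  rw [integral_complex_ofReal, integral_const_mul]

end Pool.Agent.H85.DC

end S_H85_DC_Sto2

section S_H85_DC_Sto3

/-!
# Row Sto3: the third Stokes identity

`IsFun` functions are `Hom 0 0`, closed under products (`isFun_iff`, `hom_mul`).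
For real conic `F, u` (all off `0`): the covector `ζ = u ∂F`, `ζ_j = u * dz j F`, is `IsCov` (`∑ x_j dz j F = 0`,
Euler) and `db ζ x j k = dzb k u * dz j F + u * dz_j dzb_k F`, i.e. `db (u ∂F) = u L F + (dz j F dzb k u)_jk`
(`dz_dzb_comm`). Conjugate transpose of `db (F ∂u)`: entry `(j,k)` is `conj (dzb j F * dz k u + F dzb j (dz k u))
= dz j F * dzb k u + F * dz_j dzb_k u` (`conj_dz`, `F`, `u` real: `conj (F y) = F y` for all `y`).
So `u L F - F L u = db (u ∂F) - (db (F ∂u))ᴴ` off `0`.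

`qq (L v) (aᴴ) = conj (qq (L v) a)` for real `v`: `ee (Aᴴ) (Bᴴ) = conj (ee A B)`, `(L v x)ᴴ = L v x` off `0`
(`dz_dzb_comm`, reality), `integral_conj`. Hence by `s1` for real conic `v`: `qq (L v) (u L F - F L u) = 0`, i.e.
(*) `∫ u ee (L v) (L F) wt = ∫ F ee (L v) (L u) wt` for all real conic `F, u, v`.

Then `L (u*u) = 2 u L u + 2 du2 u` off `0` (`dz j (dzb k (u^2)) = dz j (2 u dzb k u)`; the matrix is
`2 dz j u dzb k u + 2 u dz_j dzb_k u`). And `qq (L F) (L w) = 0` for conic `F, w` (`s1` with `ζ = ∂w`,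
`db (∂w) = L w` by commutation): so `0 = ∫ ee (L F) (L (u*u)) wt`, hence
`-∫ ee (L F) (du2 u) wt = ∫ u ee (L F) (L u) wt = ∫ F ee (L u) (L u) wt`, the last step by (*) with `v = u`
and symmetry of `ee`. Integrability of all terms: entries are of bidegree `(-1,-1)` each, sums `-4 ≥ -5`.
-/

open MeasureTheory
open scoped ContDiff BigOperators ComplexConjugate Matrix

namespace Pool.Agent.H85.DC

/-- covectors from homogeneous components -/
theorem Sto3_cov {w : V → V} (hw : ∀ j, Hom (-1) 0 (fun x => w x j))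
    (hk : ∀ x : V, x ≠ 0 → ∑ j, x j * w x j = 0) : IsCov w := by
  refine ⟨?_, ?_, hk⟩
  · rw [contDiffOn_pi]
    exact fun j => (hw j).smooth
  · intro l x hl
    funext j
    have h1 := (hw j).hom l x hl
    simp only [zpow_neg_one, zpow_zero, mul_one] at h1
    rw [Pi.smul_apply, smul_eq_mul]
    exact h1

theorem Sto3_dz {u : V → ℂ} (hu : IsFun u) (j : Fin 3) : Hom (-1) 0 (dz j u) := by
  have h := dz_hom j (isFun_iff.1 hu)
  exact h

theorem Sto3_dzb {u : V → ℂ} (hu : IsFun u) (j : Fin 3) : Hom 0 (-1) (dzb j u) := by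
  have h := dzb_hom j (isFun_iff.1 hu)
  exact h

/-- the covector `u ∂F` -/
theorem Sto3_covm {F u : V → ℂ} (hF : IsFun F) (hu : IsFun u) :
    IsCov (fun x j => u x * dz j F x) := by
  refine Sto3_cov (fun j => ?_) (fun x hx => ?_)
  · have h := hom_mul (isFun_iff.1 hu) (Sto3_dz hF j)
    simp only [zero_add] at h
    exact h
  · have h := euler (isFun_iff.1 hF) hx
    simp only [Int.cast_zero, zero_mul] at h
    have h2 : ∑ j, x j * (u x * dz j F x) = u x * ∑ j, x j * dz j F x := by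
      rw [Finset.mul_sum]
      exact Finset.sum_congr rfl (fun j _ => by ring)
    rw [h2, h, mul_zero]

theorem Sto3_cov1 {u : V → ℂ} (hu : IsFun u) : IsCov (fun x j => dz j u x) := by
  refine Sto3_cov (fun j => Sto3_dz hu j) (fun x hx => ?_)
  have h := euler (isFun_iff.1 hu) hx
  simp only [Int.cast_zero, zero_mul] at h
  exact h

theorem qLL {u v : V → ℂ} (hu : IsFun u) (hv : IsFun v) : qq (L u) (L v) = 0 := by
  have h := s1 hu (Sto3_cov1 hv)
  rw [← h]
  refine qq_congr (fun x _ => rfl) (fun x hx => ?_)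
  funext j k
  change dz j (dzb k v) x = dzb k (fun y => dz j v y) x
  exact dz_dzb_comm j k hv.smooth hx

theorem Sto3_hermL {v : V → ℂ} (hv : IsFun v) (rv : IsRe v) {x : V} (hx : x ≠ 0) :
    (L v x)ᴴ = L v x := by
  funext j k
  rw [Matrix.conjTranspose_apply]
  change conj (dz k (dzb j v) x) = dz j (dzb k v) x
  have h1 : (fun y => conj (v y)) = v := funext rv
  rw [conj_dz]
  have h2 : (fun y => conj (dzb j v y)) = dz j v := by
    funext y
    rw [conj_dzb, h1]
  rw [h2]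
  exact (dz_dzb_comm j k hv.smooth hx).symm

theorem Sto3_ee_conj (A B : M3) : ee Aᴴ Bᴴ = conj (ee A B) := by
  unfold ee
  rw [Matrix.trace_conjTranspose, Matrix.trace_conjTranspose, ← Matrix.conjTranspose_mul,
    Matrix.trace_conjTranspose, map_sub, map_mul, Matrix.trace_mul_comm B A]
  rfl

theorem Sto3_qq_conj (A B : V → M3) : qq (fun x => (A x)ᴴ) (fun x => (B x)ᴴ) = conj (qq A B) := by
  unfold qq
  rw [← integral_conj]
  congr 1
  funext x
  rw [Sto3_ee_conj, map_mul, Complex.conj_ofReal]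

theorem Sto3_conj {v : V → ℂ} (hv : IsFun v) (rv : IsRe v) {ζ : V → V} (hζ : IsCov ζ) :
    qq (L v) (fun x => (db ζ x)ᴴ) = 0 := by
  have h1 : qq (L v) (fun x => (db ζ x)ᴴ) = qq (fun x => (L v x)ᴴ) (fun x => (db ζ x)ᴴ) :=
    qq_congr (fun x hx => (Sto3_hermL hv rv hx).symm) (fun x _ => rfl)
  rw [h1, Sto3_qq_conj, s1 hv hζ, map_zero]

theorem Sto3_ee_eq (A B : M3) :
    ee A B = ∑ j, ∑ k, (A j j * B k k + (-1) * (A j k * B k j)) := by
  unfold ee Matrix.trace
  simp only [Matrix.diag_apply, Matrix.mul_apply]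
  rw [Finset.sum_mul_sum, ← Finset.sum_sub_distrib]
  refine Finset.sum_congr rfl (fun j _ => ?_)
  rw [← Finset.sum_sub_distrib]
  refine Finset.sum_congr rfl (fun k _ => ?_)
  ring

/-- the wedge product of two matrices with entries of bidegree `(-1,-1)` -/
theorem Sto3_ee_hom {A B : V → M3} (hA : ∀ j k, Hom (-1) (-1) (fun x => A x j k))
    (hB : ∀ j k, Hom (-1) (-1) (fun x => B x j k)) :
    Hom (-2) (-2) (fun x => ee (A x) (B x)) := by
  have h1 : (fun x => ee (A x) (B x)) = fun x =>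
      ∑ j, ∑ k, (A x j j * B x k k + (-1) * (A x j k * B x k j)) := by
    funext x
    exact Sto3_ee_eq _ _
  rw [h1]
  have h2 : ∀ j k j' k', Hom (-2) (-2) (fun x => A x j k * B x j' k') :=
    fun j k j' k' => hom_mul (hA j k) (hB j' k')
  exact hom_sum _ _ (fun j _ => hom_sum _ _ (fun k _ =>
    hom_add (h2 j j k k) (hom_const_mul (-1) (h2 j k k j))))

theorem Sto3_L_hom {u : V → ℂ} (hu : IsFun u) (j k : Fin 3) :
    Hom (-1) (-1) (fun x => L u x j k) := by
  have h := dz_hom j (Sto3_dzb hu k)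
  exact h

theorem Sto3_db_hom {ζ : V → V} (hζ : IsCov ζ) (j k : Fin 3) :
    Hom (-1) (-1) (fun x => db ζ x j k) := by
  have h := dzb_hom k (isCov_hom hζ j)
  exact h

theorem Sto3_ct_hom {A : V → M3} (hA : ∀ j k, Hom (-1) (-1) (fun x => A x j k)) (j k : Fin 3) :
    Hom (-1) (-1) (fun x => (A x)ᴴ j k) := hom_conj (hA k j)

theorem Sto3_int {A B : V → M3} (hA : ∀ j k, Hom (-1) (-1) (fun x => A x j k))
    (hB : ∀ j k, Hom (-1) (-1) (fun x => B x j k)) :
    Integrable (fun x => ee (A x) (B x) * (wt x : ℂ)) :=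
  chom_integrable (Sto3_ee_hom hA hB).chom (by norm_num)

theorem Sto3_intm {A B : V → M3} (hA : ∀ j k, Hom (-1) (-1) (fun x => A x j k))
    (hB : ∀ j k, Hom (-1) (-1) (fun x => B x j k)) {u : V → ℂ} (hu : IsFun u) :
    Integrable (fun x => u x * ee (A x) (B x) * (wt x : ℂ)) := by
  have h := hom_mul (isFun_iff.1 hu) (Sto3_ee_hom hA hB)
  exact chom_integrable h.chom (by norm_num)

theorem Sto3_ae {p : V → Prop} (h : ∀ x : V, x ≠ 0 → p x) : ∀ᵐ x ∂(volume : Measure V), p x := by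
  have h1 : ∀ᵐ x ∂(volume : Measure V), x ≠ 0 := compl_mem_ae_iff.2 (measure_singleton (0 : V))
  filter_upwards [h1] with x hx
  exact h x hx

theorem Sto3_ee_sub (A B C : M3) : ee A B - ee A C = ee A (B - C) := by
  unfold ee
  rw [Matrix.trace_sub, Matrix.mul_sub, Matrix.trace_sub]
  ring

theorem Sto3_ee_lin (A B C : M3) (a b : ℂ) : ee A (a • B + b • C) = a * ee A B + b * ee A C := by
  unfold ee
  rw [Matrix.trace_add, Matrix.mul_add, Matrix.trace_add, Matrix.trace_smul, Matrix.trace_smul,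
    Matrix.mul_smul, Matrix.mul_smul, Matrix.trace_smul, Matrix.trace_smul]
  simp only [smul_eq_mul]
  ring

theorem Sto3_ee_symm (A B : M3) : ee A B = ee B A := by
  unfold ee
  rw [Matrix.trace_mul_comm A B]
  ring

/-- the difference of the two exact forms -/
theorem Sto3_diff {F u : V → ℂ} (hF : IsFun F) (hu : IsFun u) (rF : IsRe F) (ru : IsRe u) {x : V}
    (hx : x ≠ 0) : db (fun x j => u x * dz j F x) x - (db (fun x j => F x * dz j u x) x)ᴴ =
      u x • L F x + (-F x) • L u x := by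
  have hu' := isFun_iff.1 hu
  have hF' := isFun_iff.1 hF
  have h1 : ∀ j k, dzb k (fun y => u y * dz j F y) x = dzb k u x * dz j F x + u x * dz j (dzb k F) x := by
    intro j k
    rw [dzb_mul k (hu'.diffAt hx) ((Sto3_dz hF j).diffAt hx), dz_dzb_comm j k hF.smooth hx]
  have h2 : ∀ j k, dzb k (fun y => F y * dz j u y) x = dzb k F x * dz j u x + F x * dz j (dzb k u) x := by
    intro j k
    rw [dzb_mul k (hF'.diffAt hx) ((Sto3_dz hu j).diffAt hx), dz_dzb_comm j k hu.smooth hx]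
  have hcu : (fun y => conj (u y)) = u := funext ru
  have hcF : (fun y => conj (F y)) = F := funext rF
  have hherm : ∀ j k, conj (dz k (dzb j u) x) = dz j (dzb k u) x := by
    intro j k
    have := congrFun (congrFun (Sto3_hermL hu ru hx) j) k
    rw [Matrix.conjTranspose_apply] at this
    exact this
  funext j k
  rw [Matrix.sub_apply, Matrix.add_apply, Matrix.smul_apply, Matrix.smul_apply,
    Matrix.conjTranspose_apply]
  change dzb k (fun y => u y * dz j F y) x - conj (dzb j (fun y => F y * dz k u y) x) =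
    u x • dz j (dzb k F) x + (-F x) • dz j (dzb k u) x
  rw [h1, h2, map_add, map_mul, map_mul, conj_dzb, conj_dz, hcu, hcF, hherm, rF x, smul_eq_mul,
    smul_eq_mul]
  ring

theorem Sto3_star {F u v : V → ℂ} (hF : IsFun F) (hu : IsFun u) (hv : IsFun v) (rF : IsRe F)
    (ru : IsRe u) (rv : IsRe v) :
    ∫ x, u x * ee (L v x) (L F x) * (wt x : ℂ) = ∫ x, F x * ee (L v x) (L u x) * (wt x : ℂ) := by
  have hc1 := Sto3_covm hF hu
  have hc2 := Sto3_covm hu hF
  have e1 : ∫ x, ee (L v x) (db (fun x j => u x * dz j F x) x) * (wt x : ℂ) = 0 := s1 hv hc1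
  have e2 : ∫ x, ee (L v x) ((db (fun x j => F x * dz j u x) x)ᴴ) * (wt x : ℂ) = 0 :=
    Sto3_conj hv rv hc2
  have hi1 := Sto3_int (Sto3_L_hom hv) (Sto3_db_hom hc1)
  have hi2 := Sto3_int (Sto3_L_hom hv) (Sto3_ct_hom (Sto3_db_hom hc2))
  have e3 := integral_sub hi1 hi2
  rw [e1, e2, sub_zero] at e3
  have e4 : ∫ x, (ee (L v x) (db (fun x j => u x * dz j F x) x) * (wt x : ℂ) -
      ee (L v x) ((db (fun x j => F x * dz j u x) x)ᴴ) * (wt x : ℂ)) =
      ∫ x, (u x * ee (L v x) (L F x) * (wt x : ℂ) - F x * ee (L v x) (L u x) * (wt x : ℂ)) := by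
    refine integral_congr_ae (Sto3_ae (fun x hx => ?_))
    change ee (L v x) (db (fun x j => u x * dz j F x) x) * (wt x : ℂ) -
      ee (L v x) ((db (fun x j => F x * dz j u x) x)ᴴ) * (wt x : ℂ) =
      u x * ee (L v x) (L F x) * (wt x : ℂ) - F x * ee (L v x) (L u x) * (wt x : ℂ)
    rw [← sub_mul, Sto3_ee_sub, Sto3_diff hF hu rF ru hx, Sto3_ee_lin]
    ring
  rw [e4, integral_sub (Sto3_intm (Sto3_L_hom hv) (Sto3_L_hom hF) hu)
    (Sto3_intm (Sto3_L_hom hv) (Sto3_L_hom hu) hF)] at e3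
  exact sub_eq_zero.1 e3

theorem Sto3_sq {u : V → ℂ} (hu : IsFun u) : IsFun (fun x => u x * u x) := by
  have h := hom_mul (isFun_iff.1 hu) (isFun_iff.1 hu)
  exact isFun_iff.2 h

theorem Sto3_Lsq {u : V → ℂ} (hu : IsFun u) {x : V} (hx : x ≠ 0) :
    L (fun x => u x * u x) x = (2 * u x) • L u x + (2 : ℂ) • du2 u x := by
  have hu' := isFun_iff.1 hu
  funext j k
  rw [Matrix.add_apply, Matrix.smul_apply, Matrix.smul_apply]
  change dz j (dzb k (fun x => u x * u x)) x = (2 * u x) • dz j (dzb k u) x +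
    (2 : ℂ) • (dz j u x * dzb k u x)
  have h1 : ∀ y : V, y ≠ 0 → dzb k (fun x => u x * u x) y = 2 * (u y * dzb k u y) := by
    intro y hy
    rw [dzb_mul k (hu'.diffAt hy) (hu'.diffAt hy)]
    ring
  have hd : DifferentiableAt ℝ (fun y => u y * dzb k u y) x :=
    (hu'.diffAt hx).mul ((Sto3_dzb hu k).diffAt hx)
  rw [dz_congr j hx h1, dz_const_mul j 2 hd, dz_mul j (hu'.diffAt hx) ((Sto3_dzb hu k).diffAt hx),
    smul_eq_mul, smul_eq_mul]
  ring

theorem Sto3_du2_hom {u : V → ℂ} (hu : IsFun u) (j k : Fin 3) :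
    Hom (-1) (-1) (fun x => du2 u x j k) := by
  have h := hom_mul (Sto3_dz hu j) (Sto3_dzb hu k)
  exact h

theorem s3 {F u : V → ℂ} (hF : IsFun F) (hu : IsFun u) (rF : IsRe F) (ru : IsRe u) :
    ∫ x, F x * ee (L u x) (L u x) * (wt x : ℂ) = -∫ x, ee (L F x) (du2 u x) * (wt x : ℂ) := by
  have e1 : ∫ x, ee (L F x) (L (fun x => u x * u x) x) * (wt x : ℂ) = 0 := qLL hF (Sto3_sq hu)
  have hi1 := Sto3_intm (Sto3_L_hom hF) (Sto3_L_hom hu) hu
  have hi2 := Sto3_int (Sto3_L_hom hF) (Sto3_du2_hom hu)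
  have e2 : ∫ x, ee (L F x) (L (fun x => u x * u x) x) * (wt x : ℂ) =
      ∫ x, (2 * (u x * ee (L F x) (L u x) * (wt x : ℂ)) + 2 * (ee (L F x) (du2 u x) * (wt x : ℂ))) := by
    refine integral_congr_ae (Sto3_ae (fun x hx => ?_))
    change ee (L F x) (L (fun x => u x * u x) x) * (wt x : ℂ) =
      2 * (u x * ee (L F x) (L u x) * (wt x : ℂ)) + 2 * (ee (L F x) (du2 u x) * (wt x : ℂ))
    rw [Sto3_Lsq hu hx, Sto3_ee_lin]
    ring
  rw [e2, integral_add (hi1.const_mul 2) (hi2.const_mul 2), integral_const_mul,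
    integral_const_mul] at e1
  have e3 := Sto3_star hF hu hu rF ru ru
  have e4 : ∫ x, u x * ee (L F x) (L u x) * (wt x : ℂ) =
      ∫ x, u x * ee (L u x) (L F x) * (wt x : ℂ) := by
    congr 1
    funext x
    rw [Sto3_ee_symm]
  rw [e4, e3] at e1
  have e5 : (∫ x, F x * ee (L u x) (L u x) * (wt x : ℂ)) +
      (∫ x, ee (L F x) (du2 u x) * (wt x : ℂ)) = 0 := by
    have : (2 : ℂ) * ((∫ x, F x * ee (L u x) (L u x) * (wt x : ℂ)) +
      (∫ x, ee (L F x) (du2 u x) * (wt x : ℂ))) = 0 := by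
      rw [mul_add]
      exact e1
    exact (mul_eq_zero.1 this).resolve_left two_ne_zero
  exact eq_neg_of_add_eq_zero_left e5

end Pool.Agent.H85.DC

end S_H85_DC_Sto3

section S_H85_DC_NuA

/-!
# Row NuA: moments of the Fubini-Study measure `nuP`

`nuP = wt y / (N y)^2 dy`. `integral_nuP`: `integral_withDensity_eq_integral_smul` (measurable density;
`ENNReal.toReal_ofReal`, the density is `≥ 0`).
`int_wt`: `∫ wt = π^3`: Fubini on `Fin 3 → ℂ` (`integral_fin_nat_prod_eq_prod` or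
`MeasureTheory.integral_fintype_prod_eq_prod`), `wt x = ∏ j, exp (-normSq (x j))`, and
`∫_ℂ exp(-|z|^2) = π` (`Complex.integral_...`/`GaussianFourier.integral_cexp_neg_mul_sq_norm_add` or
`integral_exp_neg_mul_sq_norm`-type lemma with `finrank ℝ ℂ = 2`: `(π/1)^(2/2) = π`; Mathlib:
`GaussianFourier.integral_rexp_neg_mul_sq_norm`; or real/imaginary parts).
`moment_rec`: let `φ : Hom a a` and `-2 ≤ a`, then `∫ (N y) φ wt = (a + 3) ∫ φ wt`.
Proof: `ibp_z` with `f = y_j : Hom 1 0` and `g = φ`: `∫ dz j (y_j) φ wt = ∫ φ wt =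
-∫ y_j dz j φ wt + ∫ y_j φ conj(y_j) wt`; sum over `j` with Euler (`∑ y_j dz j φ = a φ`):
`3 ∫ φ = - a ∫ φ + ∫ N φ` (bidegree sum `1 + 2a ≥ -4` holds for `a ≥ -2`; all integrable).
`moment_top`: for `x` with `N x = 1`: `∫ |⟨y,x⟩|^(2n) wt = π^3 n!`. Induction with `ibp_z`: let
`ξ = ∑ y_j conj(x_j)`, `ξ^n : Hom n 0`, `ξ̄^m : Hom 0 m`; `dz j (ξ^(n+1)) = (n+1) ξ^n conj(x_j)`, `dz j (ξ̄^n) = 0`:
`∫ (n+1) ξ^n conj(x_j) ξ̄^n wt = ∫ ξ^(n+1) ξ̄^n conj(y_j) wt`; multiply by `x_j` and sum over `j`: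
`(n+1) ∫ |ξ|^(2n) wt = ∫ |ξ|^(2n+2) wt`.
`moment`: wlog `N x = 1` (`vv (l•x) y = vv x y`). `φ_a = |ξ|^(2n) N^(a-n)`, `Hom a a`, `a = -2, …, n-1`:
`moment_rec` gives `∫ φ_{a+1} = (a+3) ∫ φ_a`, so `∫ φ_n = (n+2)! ∫ φ_{-2}`; `φ_n = |ξ|^(2n)`,
`φ_{-2} = v^n N^(-2)`: `∫ v^n dν = π^3 n!/(n+2)! = π^3/((n+1)(n+2))`.
-/

open MeasureTheory
open scoped ContDiff BigOperators ComplexConjugate Matrix

namespace Pool.Agent.H85.DC

theorem NuA_dens_nonneg (y : V) : 0 ≤ wt y / (N y) ^ 2 :=
  div_nonneg (Real.exp_pos _).le (sq_nonneg _)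

theorem NuA_dens_meas : Measurable (fun y : V => wt y / (N y) ^ 2) := by
  have h1 : Measurable N := continuous_N.measurable
  have h2 : Measurable wt := (Real.continuous_exp.comp continuous_N.neg).measurable
  exact h2.div (h1.pow_const 2)

theorem integral_nuP (f : V → ℝ) : ∫ y, f y ∂nuP = ∫ y, f y * (wt y / (N y) ^ 2) := by
  rw [nuP, integral_withDensity_eq_integral_toReal_smul NuA_dens_meas.ennreal_ofReal
    (Filter.Eventually.of_forall fun _ => ENNReal.ofReal_lt_top)]
  refine integral_congr_ae (Filter.Eventually.of_forall fun y => ?_)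
  simp only [ENNReal.toReal_ofReal (NuA_dens_nonneg y), smul_eq_mul, mul_comm]

theorem integral_nuP_c (f : V → ℂ) :
    ∫ y, f y ∂nuP = ∫ y, f y * ((wt y / (N y) ^ 2 : ℝ) : ℂ) := by
  rw [nuP, integral_withDensity_eq_integral_toReal_smul NuA_dens_meas.ennreal_ofReal
    (Filter.Eventually.of_forall fun _ => ENNReal.ofReal_lt_top)]
  refine integral_congr_ae (Filter.Eventually.of_forall fun y => ?_)
  simp only [ENNReal.toReal_ofReal (NuA_dens_nonneg y), Complex.real_smul, mul_comm]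

theorem NuA_dens_int : Integrable (fun y : V => wt y / (N y) ^ 2) := by
  have h := integrable_N_rpow (s := -2) (c := 1) (by norm_num) one_pos
  refine h.congr (Filter.Eventually.of_forall fun y => ?_)
  simp only [wt]
  rw [Real.rpow_neg (N_nonneg y), Real.rpow_two, neg_one_mul, div_eq_mul_inv, mul_comm]

instance nuP_finite : IsFiniteMeasure nuP :=
  isFiniteMeasure_withDensity_ofReal NuA_dens_int.2

theorem NuA_int_C : ∫ z : ℂ, Real.exp (-Complex.normSq z) = Real.pi := by
  have h := Complex.integral_exp_neg_rpow (p := 2) (by norm_num)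
  have h2 : (2 : ℝ) / 2 + 1 = 2 := by norm_num
  rw [h2, Real.Gamma_two, mul_one] at h
  rw [← h]
  congr 1
  ext z
  rw [Real.rpow_two, Complex.normSq_eq_norm_sq]

theorem int_wt : ∫ x : V, wt x = Real.pi ^ 3 := by
  have h := MeasureTheory.integral_fintype_prod_volume_eq_pow (ι := Fin 3)
    (fun z : ℂ => Real.exp (-Complex.normSq z))
  rw [NuA_int_C, Fintype.card_fin] at h
  rw [← h]
  congr 1
  ext x
  rw [wt, N, ← Real.exp_sum, Finset.sum_neg_distrib]

theorem NuA_ae_ne : ∀ᵐ y : V, y ≠ 0 := by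
  rw [ae_iff]
  simp

theorem NuA_N_cast (y : V) : ((N y : ℝ) : ℂ) = ∑ j, y j * conj (y j) := by
  rw [N, Complex.ofReal_sum]
  exact Finset.sum_congr rfl fun j _ => (Complex.mul_conj (y j)).symm

theorem moment_rec {a : ℤ} {φ : V → ℂ} (hφ : Hom a a φ) (ha : -2 ≤ a) :
    ∫ y, (N y : ℂ) * φ y * (wt y : ℂ) = (a + 3) * ∫ y, φ y * (wt y : ℂ) := by
  have hI1 : ∀ j : Fin 3, Integrable (fun y : V => y j * dz j φ y * (wt y : ℂ)) := fun j =>
    chom_integrable (hom_mul (hom_coord j) (dz_hom j hφ)).chom (by omega)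
  have hI2 : ∀ j : Fin 3, Integrable (fun y : V => y j * φ y * conj (y j) * (wt y : ℂ)) := fun j =>
    chom_integrable (hom_mul (hom_mul (hom_coord j) hφ) (hom_conj_coord j)).chom (by omega)
  have hj : ∀ j : Fin 3, ∫ y, φ y * (wt y : ℂ) =
      -(∫ y : V, y j * dz j φ y * (wt y : ℂ)) + ∫ y : V, y j * φ y * conj (y j) * (wt y : ℂ) := by
    intro j
    rw [← ibp_z (hom_coord j) hφ (by omega) j]
    refine integral_congr_ae (Filter.Eventually.of_forall fun y => ?_)
    simp only [dz_coord, if_true, one_mul]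
  have hs : ∑ _j : Fin 3, ∫ y, φ y * (wt y : ℂ) = 3 * ∫ y, φ y * (wt y : ℂ) := by
    rw [Finset.sum_const, Finset.card_univ, Fintype.card_fin, nsmul_eq_mul]
    norm_num
  rw [Finset.sum_congr rfl fun j _ => hj j, Finset.sum_add_distrib, Finset.sum_neg_distrib,
    ← integral_finsetSum _ fun j _ => hI1 j, ← integral_finsetSum _ fun j _ => hI2 j] at hs
  have h1 : ∫ y : V, ∑ j, y j * dz j φ y * (wt y : ℂ) = a * ∫ y, φ y * (wt y : ℂ) := by
    rw [← integral_const_mul]
    refine integral_congr_ae ?_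
    filter_upwards [NuA_ae_ne] with y hy
    rw [← Finset.sum_mul, euler hφ hy, mul_assoc]
  have h2 : ∫ y : V, ∑ j, y j * φ y * conj (y j) * (wt y : ℂ) =
      ∫ y, (N y : ℂ) * φ y * (wt y : ℂ) := by
    refine integral_congr_ae (Filter.Eventually.of_forall fun y => ?_)
    simp only [NuA_N_cast, Finset.sum_mul]
    exact Finset.sum_congr rfl fun j _ => by ring
  rw [h1, h2] at hs
  linear_combination hs

theorem vv_smul (l : ℂ) (x y : V) (hl : l ≠ 0) : vv (l • x) y = vv x y := by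
  have h1 : ip (l • x) y = l * ip x y := by
    simp only [ip, Pi.smul_apply, smul_eq_mul, Finset.mul_sum, mul_assoc]
  have h2 : Complex.normSq l ≠ 0 := fun h => hl (Complex.normSq_eq_zero.1 h)
  rw [vv, vv, h1, N_smul, map_mul, mul_assoc, mul_div_mul_left _ _ h2]

/-- the linear form of `x` -/
noncomputable def NuA_xi (x y : V) : ℂ := ∑ j, conj (x j) * y j

theorem NuA_xi_hom (x : V) : Hom 1 0 (NuA_xi x) :=
  hom_sum (Finset.univ : Finset (Fin 3)) (fun j y => conj (x j) * y j)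
    (fun j _ => hom_const_mul _ (hom_coord j))

theorem NuA_conj_xi (x y : V) : conj (NuA_xi x y) = ip x y := by
  rw [NuA_xi, map_sum]
  exact Finset.sum_congr rfl fun j _ => by rw [map_mul, Complex.conj_conj]

theorem NuA_xi_conj (x y : V) : NuA_xi x y * conj (NuA_xi x y) = (Complex.normSq (ip x y) : ℂ) := by
  rw [← NuA_conj_xi, Complex.normSq_conj, Complex.mul_conj]

theorem NuA_dz_xi (x : V) (j : Fin 3) {y : V} (hy : y ≠ 0) : dz j (NuA_xi x) y = conj (x j) := by
  have h1 := dz_sum j (Finset.univ : Finset (Fin 3)) (fun j y => conj (x j) * y j) (x := y)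
    (fun i _ => (hom_const_mul _ (hom_coord i)).diffAt hy)
  refine h1.trans ?_
  rw [Finset.sum_congr rfl fun i _ => dz_const_mul j (conj (x i)) ((hom_coord i).diffAt hy)]
  simp only [dz_coord, mul_ite, mul_one, mul_zero, Finset.sum_ite_eq, Finset.mem_univ, if_true]

theorem NuA_dzb_xi (x : V) (j : Fin 3) {y : V} (hy : y ≠ 0) : dzb j (NuA_xi x) y = 0 := by
  have h1 := dzb_sum j (Finset.univ : Finset (Fin 3)) (fun j y => conj (x j) * y j) (x := y)
    (fun i _ => (hom_const_mul _ (hom_coord i)).diffAt hy)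
  refine h1.trans ?_
  rw [Finset.sum_congr rfl fun i _ => dzb_const_mul j (conj (x i)) ((hom_coord i).diffAt hy)]
  simp only [dzb_coord, mul_zero, Finset.sum_const_zero]

theorem NuA_dz_conj_xi (x : V) (j : Fin 3) {y : V} (hy : y ≠ 0) :
    dz j (fun y => conj (NuA_xi x y)) y = 0 := by
  rw [← conj_dzb, NuA_dzb_xi x j hy, map_zero]

theorem NuA_dz_pow (j : Fin 3) {f : V → ℂ} {y : V} (hf : DifferentiableAt ℝ f y) (n : ℕ) :
    dz j (fun y => f y ^ (n + 1)) y = ((n : ℂ) + 1) * f y ^ n * dz j f y := by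
  induction n with
  | zero => simp
  | succ n ih =>
    have h1 : (fun y => f y ^ (n + 1 + 1)) = fun y => f y ^ (n + 1) * f y := by
      funext z
      rw [pow_succ]
    have h2 := dz_mul j (f := fun y => f y ^ (n + 1)) (hf.pow (n + 1)) hf
    rw [h1, h2, ih]
    push_cast
    ring

theorem NuA_dz_conj_pow (x : V) (j : Fin 3) {y : V} (hy : y ≠ 0) (n : ℕ) :
    dz j (fun y => conj (NuA_xi x y) ^ n) y = 0 := by
  cases n with
  | zero =>
    simp only [pow_zero]
    exact dz_const j 1 y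
  | succ n =>
    rw [NuA_dz_pow j ((hom_conj (NuA_xi_hom x)).diffAt hy), NuA_dz_conj_xi x j hy, mul_zero]

theorem NuA_top_rec {x : V} (hx : N x = 1) (n : ℕ) :
    ∫ y, NuA_xi x y ^ (n + 1) * conj (NuA_xi x y) ^ (n + 1) * (wt y : ℂ) =
      ((n : ℂ) + 1) * ∫ y, NuA_xi x y ^ n * conj (NuA_xi x y) ^ n * (wt y : ℂ) := by
  have hf := hom_pow (n + 1) (NuA_xi_hom x)
  have hg := hom_pow n (hom_conj (NuA_xi_hom x))
  have hj : ∀ j : Fin 3, ((n : ℂ) + 1) * conj (x j) *
      ∫ y, NuA_xi x y ^ n * conj (NuA_xi x y) ^ n * (wt y : ℂ) =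
      ∫ y : V, NuA_xi x y ^ (n + 1) * conj (NuA_xi x y) ^ n * conj (y j) * (wt y : ℂ) := by
    intro j
    have h1 := ibp_z hf hg (by push_cast; omega) j
    have h2 : ∫ y : V, NuA_xi x y ^ (n + 1) * dz j (fun y => conj (NuA_xi x y) ^ n) y * (wt y : ℂ)
        = 0 := by
      rw [← integral_zero V ℂ (μ := volume)]
      refine integral_congr_ae ?_
      filter_upwards [NuA_ae_ne] with y hy
      rw [NuA_dz_conj_pow x j hy, mul_zero, zero_mul]
    rw [h2, neg_zero, zero_add] at h1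
    rw [← h1, ← integral_const_mul]
    refine integral_congr_ae ?_
    filter_upwards [NuA_ae_ne] with y hy
    rw [NuA_dz_pow j ((NuA_xi_hom x).diffAt hy), NuA_dz_xi x j hy]
    ring
  have hI : ∀ j : Fin 3, Integrable (fun y : V =>
      x j * (NuA_xi x y ^ (n + 1) * conj (NuA_xi x y) ^ n * conj (y j) * (wt y : ℂ))) := fun j =>
    (chom_integrable (hom_mul (hom_mul hf hg) (hom_conj_coord j)).chom
      (by push_cast; omega)).const_mul _
  have h3 : ∑ j, x j * (((n : ℂ) + 1) * conj (x j) *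
      ∫ y, NuA_xi x y ^ n * conj (NuA_xi x y) ^ n * (wt y : ℂ)) =
      ∫ y, NuA_xi x y ^ (n + 1) * conj (NuA_xi x y) ^ (n + 1) * (wt y : ℂ) := by
    rw [Finset.sum_congr rfl fun j _ => by rw [hj j, ← integral_const_mul],
      ← integral_finsetSum _ fun j _ => hI j]
    refine integral_congr_ae (Filter.Eventually.of_forall fun y => ?_)
    have h4 : conj (NuA_xi x y) ^ (n + 1) = conj (NuA_xi x y) ^ n * ∑ j, x j * conj (y j) := by
      rw [pow_succ, NuA_conj_xi]
      rfl
    simp only [h4, Finset.mul_sum, Finset.sum_mul]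
    exact Finset.sum_congr rfl fun j _ => by ring
  have h5 : ∑ j, x j * conj (x j) = 1 := by
    rw [← NuA_N_cast, hx, Complex.ofReal_one]
  rw [← h3]
  have h6 : ∀ J : ℂ, ∑ j, x j * (((n : ℂ) + 1) * conj (x j) * J) =
      (∑ j, x j * conj (x j)) * (((n : ℂ) + 1) * J) := by
    intro J
    rw [Finset.sum_mul]
    exact Finset.sum_congr rfl fun j _ => by ring
  rw [h6, h5, one_mul]

theorem NuA_top {x : V} (hx : N x = 1) (n : ℕ) :
    ∫ y, NuA_xi x y ^ n * conj (NuA_xi x y) ^ n * (wt y : ℂ) =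
      ((Real.pi ^ 3 * (n.factorial : ℝ) : ℝ) : ℂ) := by
  induction n with
  | zero =>
    simp only [pow_zero, one_mul, Nat.factorial_zero, Nat.cast_one, mul_one]
    rw [← int_wt]
    exact integral_ofReal
  | succ n ih =>
    rw [NuA_top_rec hx, ih, Nat.factorial_succ]
    push_cast
    ring

theorem NuA_down {x : V} (n : ℕ) : ∀ m q : ℕ, m + q = n + 2 →
    ∫ y, NuA_xi x y ^ n * conj (NuA_xi x y) ^ n * ((N y : ℂ))⁻¹ ^ q * (wt y : ℂ) =
      (m.factorial : ℂ) *
        ∫ y, NuA_xi x y ^ n * conj (NuA_xi x y) ^ n * ((N y : ℂ))⁻¹ ^ (n + 2) * (wt y : ℂ) := by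
  intro m
  induction m with
  | zero =>
    intro q hq
    rw [zero_add] at hq
    rw [hq, Nat.factorial_zero, Nat.cast_one, one_mul]
  | succ m ih =>
    intro q hq
    have h1 := ih (q + 1) (by omega)
    have hP : Hom ((n : ℤ) - (q + 1)) ((n : ℤ) - (q + 1)) (fun y =>
        NuA_xi x y ^ n * conj (NuA_xi x y) ^ n * ((N y : ℂ))⁻¹ ^ (q + 1)) := by
      have h2 := hom_mul (hom_mul (hom_pow n (NuA_xi_hom x)) (hom_pow n (hom_conj (NuA_xi_hom x))))
        (hom_pow (q + 1) hom_Ninv)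
      convert h2 using 1 <;> push_cast <;> ring
    have h3 := moment_rec hP (by omega)
    have h4 : ∫ y, (N y : ℂ) * (NuA_xi x y ^ n * conj (NuA_xi x y) ^ n * ((N y : ℂ))⁻¹ ^ (q + 1)) *
        (wt y : ℂ) =
        ∫ y, NuA_xi x y ^ n * conj (NuA_xi x y) ^ n * ((N y : ℂ))⁻¹ ^ q * (wt y : ℂ) := by
      refine integral_congr_ae ?_
      filter_upwards [NuA_ae_ne] with y hy
      have h5 : (N y : ℂ) ≠ 0 := by exact_mod_cast (N_pos hy).ne'
      rw [pow_succ]
      field_simp
    rw [h4, h1] at h3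
    rw [h3, Nat.factorial_succ]
    have h6 : (n : ℂ) - q + 2 = (m : ℂ) + 1 := by
      have h7 : ((n : ℂ)) + 2 = (m : ℂ) + 1 + q := by exact_mod_cast hq.symm
      linear_combination h7
    push_cast
    rw [← h6]
    ring

theorem NuA_moment_one (n : ℕ) {x : V} (hx : N x = 1) :
    ∫ y, vv x y ^ n ∂nuP = Real.pi ^ 3 / (((n : ℝ) + 1) * ((n : ℝ) + 2)) := by
  have h1 := NuA_down (x := x) n (n + 2) 0 rfl
  simp only [pow_zero, mul_one] at h1
  rw [NuA_top hx] at h1
  have h2 : ∫ y, NuA_xi x y ^ n * conj (NuA_xi x y) ^ n * ((N y : ℂ))⁻¹ ^ (n + 2) * (wt y : ℂ) =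
      ((∫ y, vv x y ^ n * (wt y / (N y) ^ 2) : ℝ) : ℂ) := by
    rw [← integral_complex_ofReal]
    refine integral_congr_ae (Filter.Eventually.of_forall fun y => ?_)
    simp only
    rw [← mul_pow, NuA_xi_conj, vv, hx, one_mul]
    push_cast
    simp only [div_eq_mul_inv, mul_pow, inv_pow, pow_add]
    ring
  rw [h2, ← integral_nuP] at h1
  have h3 : Real.pi ^ 3 * (n.factorial : ℝ) = ((n + 2).factorial : ℝ) * ∫ y, vv x y ^ n ∂nuP := by
    exact_mod_cast h1
  have h4 : ((n + 2).factorial : ℝ) = ((n : ℝ) + 2) * (((n : ℝ) + 1) * (n.factorial : ℝ)) := by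
    rw [Nat.factorial_succ, Nat.factorial_succ]
    push_cast
    ring
  have h5 : (0 : ℝ) < (n.factorial : ℝ) := by exact_mod_cast Nat.factorial_pos n
  rw [h4] at h3
  rw [eq_div_iff (by positivity)]
  have h6 : (n.factorial : ℝ) * ((∫ y, vv x y ^ n ∂nuP) * (((n : ℝ) + 1) * ((n : ℝ) + 2))) =
      (n.factorial : ℝ) * Real.pi ^ 3 := by
    linear_combination -h3
  exact mul_left_cancel₀ h5.ne' h6

theorem moment (n : ℕ) {x : V} (hx : x ≠ 0) :
    ∫ y, vv x y ^ n ∂nuP = Real.pi ^ 3 / (((n : ℝ) + 1) * ((n : ℝ) + 2)) := by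
  obtain ⟨z, hz, hxz⟩ := exists_smul_sphere hx
  have hl : ((Real.sqrt (N x) : ℝ) : ℂ) ≠ 0 := by
    exact_mod_cast (Real.sqrt_pos.2 (N_pos hx)).ne'
  have h1 : ∀ y, vv x y = vv z y := by
    intro y
    rw [← vv_smul _ z y hl, ← hxz]
  simp only [h1]
  exact NuA_moment_one n hz

theorem NuA_univ : ∫ _y, (1 : ℝ) ∂nuP = Real.pi ^ 3 / 2 := by
  have h := moment 0 (x := Pi.single 0 1) (by simp)
  simp only [pow_zero, Nat.cast_zero, zero_add, one_mul] at h
  exact h

theorem nuP_univ : nuP Set.univ = ENNReal.ofReal (Real.pi ^ 3 / 2) := by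
  rw [← NuA_univ, integral_const, smul_eq_mul, mul_one, ofReal_measureReal]

theorem int_Nm2 : ∫ x : V, (N x) ^ (-2 : ℤ) * wt x = Real.pi ^ 3 / 2 := by
  rw [← NuA_univ, integral_nuP]
  refine integral_congr_ae (Filter.Eventually.of_forall fun y => ?_)
  have h : (N y) ^ (-2 : ℤ) = ((N y) ^ 2)⁻¹ := by
    rw [zpow_neg]
    rfl
  simp only [h, one_mul, div_eq_mul_inv, mul_comm]

theorem nuP_ac : nuP ≪ (volume : Measure V) := withDensity_absolutelyContinuous _ _

/-- Bounded functions which are a.e. strongly measurable for Lebesgue measure are `nuP`-integrable. -/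
theorem integrable_nuP {f : V → ℝ} (hf : AEStronglyMeasurable f (volume : Measure V)) {b : ℝ}
    (hb : ∀ x : V, x ≠ 0 → |f x| ≤ b) : Integrable f nuP := by
  refine Integrable.of_bound (hf.mono_ac nuP_ac) b ?_
  filter_upwards [nuP_ac.ae_le NuA_ae_ne] with y hy
  rw [Real.norm_eq_abs]
  exact hb y hy

end Pool.Agent.H85.DC

end S_H85_DC_NuA
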