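import Mathlib
import Pool.Agent.H24.M68.G01
import Pool.Agent.H24.M68.G02
import Pool.Agent.H24.M68.G03

/-! MP_6873ef_an: this file joins several modules to save build time. -/

section S_H76_FC_Defs

/-!
# MP_6873ef_an, block D (resolution of planar polynomial vector fields): definitions

A polynomial vector field on C^2 is a pair (A, B) of polynomials in X 0 = x, X 1 = y.
-/

open MvPolynomial

namespace FC76

/-- polynomials in two complex variables x = X 0, y = X 1 -/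
abbrev P2 := MvPolynomial (Fin 2) ℂ

/-- the maximal ideal of the origin; `mI ^ n` = polynomials all of whose monomials have degree at least n
(Mathlib: `MvPolynomial.mem_pow_idealOfVars_iff'`) -/
noncomputable abbrev mI : Ideal P2 := idealOfVars (Fin 2) ℂ

/-- coefficient of x ^ i * y ^ j -/
noncomputable def cf (i j : ℕ) (f : P2) : ℂ :=
  coeff (Finsupp.single 0 i + Finsupp.single 1 j) f

/-- the local multiplicity of the ideal (A, B) at the origin is at most K -/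
def MultLe (A B : P2) (K : ℕ) : Prop :=
  ∀ n : ℕ, Module.finrank ℂ (P2 ⧸ (Ideal.span ({A, B} : Set P2) ⊔ mI ^ n)) ≤ K

/-- the blow-up substitution: y becomes x * (y + c) -/
noncomputable def bl (c : ℂ) : P2 →ₐ[ℂ] P2 := aeval ![X 0, X 0 * (X 1 + C c)]

/-- exchange of the two variables -/
noncomputable def sw : P2 →ₐ[ℂ] P2 := aeval ![X 1, X 0]

/-- (A1, C1) is the vector field (A, B) written in the chart y = x * (u + c) of the blow-up and divided by x ^ e -/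
def BlTo (A B : P2) (c : ℂ) (e : ℕ) (A1 C1 : P2) : Prop :=
  X 0 ^ e * A1 = bl c A ∧ X 0 ^ (e + 1) * C1 = bl c B - (X 1 + C c) * bl c A

/-- isolated leading jet (k = 0: the vector field does not vanish at the origin) -/
def LJ (A B : P2) : Prop :=
  ∃ k : ℕ, A ∈ mI ^ k ∧ B ∈ mI ^ k ∧ ∀ p : Fin 2 → ℂ,
    eval p (homogeneousComponent k A) = 0 → eval p (homogeneousComponent k B) = 0 → p = 0

/-- the closure properties of a class G of germs of vector fields (and of the class GE of germs together with the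
exceptional line x = 0) used in the resolution -/
structure ResClosed (G GE : P2 → P2 → Prop) : Prop where
  toE : ∀ A B, G A B → GE A B
  swap : ∀ A B, G A B → G (sw B) (sw A)
  lj : ∀ A B, LJ A B → G A B
  blow : ∀ (A B : P2) (e : ℕ), (∀ c : ℂ, ∃ A1 C1, BlTo A B c e A1 C1 ∧ GE A1 C1) →
    (∃ A1 C1, BlTo (sw B) (sw A) 0 e A1 C1 ∧ GE A1 C1) → G A B
  sn : ∀ (m : ℕ) (a B : P2), 2 ≤ m → eval 0 a ≠ 0 → eval 0 B = 0 → cf 0 1 B ≠ 0 → GE (X 0 ^ m * a) B

end FC76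

end S_H76_FC_Defs

section S_H76_FL_Defs

/-!
# MP_6873ef_an, block L (local theory of invariant measures of planar polynomial vector fields): definitions

Z = (A, B) is a polynomial vector field on C x C.  The measure M is T ∧ i ds ∧ dsbar, where T is a closed positive current
directed by Z and ds(Z) = 1; T is closed iff the integral of Z g over M vanishes for all test functions g.
-/

open MvPolynomial MeasureTheory
open scoped ContDiff

namespace FC76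

/-- evaluation of a polynomial at a point of C x C -/
noncomputable def ev (f : P2) (p : ℂ × ℂ) : ℂ := eval ![p.1, p.2] f

/-- the vector field Z = (A, B) at the point p -/
noncomputable def vf (A B : P2) (p : ℂ × ℂ) : ℂ × ℂ := (ev A p, ev B p)

/-- derivation of polynomials along Z -/
noncomputable def Zp (A B f : P2) : P2 := A * pderiv 0 f + B * pderiv 1 f

/-- divergence of Z -/
noncomputable def divp (A B : P2) : P2 := pderiv 0 A + pderiv 1 B

/-- the (1,0)-derivative of a complex valued function in the complex direction v -/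
noncomputable def dW (g : ℂ × ℂ → ℂ) (p v : ℂ × ℂ) : ℂ :=
  (fderiv ℝ g p v - Complex.I * fderiv ℝ g p (Complex.I • v)) / 2

/-- the (0,1)-derivative of a complex valued function in the complex direction v -/
noncomputable def dWb (g : ℂ × ℂ → ℂ) (p v : ℂ × ℂ) : ℂ :=
  (fderiv ℝ g p v + Complex.I * fderiv ℝ g p (Complex.I • v)) / 2

/-- four times the complex Hessian of the real function G in direction v -/
noncomputable def lev (G : ℂ × ℂ → ℝ) (p v : ℂ × ℂ) : ℝ :=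
  fderiv ℝ (fderiv ℝ G) p v v + fderiv ℝ (fderiv ℝ G) p (Complex.I • v) (Complex.I • v)

/-- the squared Euclidean norm -/
noncomputable def nsq (v : ℂ × ℂ) : ℝ := ‖v.1‖ ^ 2 + ‖v.2‖ ^ 2

/-- the domain: the polydisc of radius ρ minus the origin and the curve h = 0 -/
def dom (h : P2) (ρ : ℝ) : Set (ℂ × ℂ) := {p | p ∈ Metric.ball (0 : ℂ × ℂ) ρ ∧ ev h p ≠ 0 ∧ p ≠ 0}

/-- the punctured disc -/
def pdisc (R : ℝ) : Set ℂ := {t | 0 < ‖t‖ ∧ ‖t‖ < R}

/-- M is a Z-invariant measure on the polydisc of radius ρ minus {h = 0} and the origin -/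
structure Inv0 (A B h : P2) (ρ : ℝ) (M : Measure (ℂ × ℂ)) : Prop where
  carried : M (dom h ρ)ᶜ = 0
  locfin : ∀ K : Set (ℂ × ℂ), IsCompact K → K ⊆ dom h ρ → M K < ⊤
  fin : ∫⁻ p, ENNReal.ofReal (nsq (vf A B p)) ∂M < ⊤
  inv : ∀ g : ℂ × ℂ → ℂ, ContDiff ℝ ∞ g → HasCompactSupport g → tsupport g ⊆ dom h ρ →
    ∫ p, dW g p (vf A B p) ∂M = 0
  log : ∃ C : ℝ, ∀ r : ℝ, 0 < r → r < 1 →
    ∫⁻ p in {p | r < ‖ev h p‖}, ENNReal.ofReal (‖ev (Zp A B h) p‖ ^ 2 / ‖ev h p‖ ^ 2) ∂M ≤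
      ENNReal.ofReal (C * (1 + Real.log (1 / r)))

/-- the full list of hypotheses: in addition the dd^c equation holds across the curve h = 0, and holomorphic punctured discs
have measure zero -/
structure Inv (A B h : P2) (ρ : ℝ) (M : Measure (ℂ × ℂ)) : Prop extends Inv0 A B h ρ M where
  dd : ∀ G : ℂ × ℂ → ℝ, ContDiff ℝ ∞ G → HasCompactSupport G → tsupport G ⊆ Metric.ball 0 ρ →
    ∫ p, lev G p (vf A B p) ∂M = 0
  dif : ∀ (γ : ℂ → ℂ × ℂ) (R : ℝ), 0 < R → DifferentiableOn ℂ γ (pdisc R) → M (γ '' pdisc R) = 0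

/-- logarithmic growth of the energy of the divergence -/
def EBound (A B h : P2) (M : Measure (ℂ × ℂ)) : Prop :=
  ∃ ρ' : ℝ, 0 < ρ' ∧ ∃ C : ℝ, ∀ r : ℝ, 0 < r → r < 1 →
    ∫⁻ p in {p | p ∈ Metric.ball (0 : ℂ × ℂ) ρ' ∧ r < ‖ev h p‖ ∧ r < ‖p‖},
      ENNReal.ofReal (‖ev (divp A B) p‖ ^ 2) ∂M ≤ ENNReal.ofReal (C * (1 + Real.log (1 / r)))

/-- the (0,1)-derivative in one complex variable -/
noncomputable def dbar (χ : ℂ → ℂ) (x : ℂ) : ℂ := (fderiv ℝ χ x 1 + Complex.I * fderiv ℝ χ x Complex.I) / 2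

/-- the germ of Z at the origin is good -/
def Good (A B : P2) : Prop :=
  ∀ (h : P2) (ρ : ℝ) (M : Measure (ℂ × ℂ)), 0 < ρ → Inv A B h ρ M → EBound A B h M

/-- the germ of Z at the origin, with exceptional line x = 0, is good -/
def GoodE (A B : P2) : Prop :=
  ∀ (h : P2) (ρ : ℝ) (M : Measure (ℂ × ℂ)), 0 < ρ → X 0 ∣ h → Inv A B h ρ M → EBound A B h M

end FC76

end S_H76_FL_Defs

section S_H24_CU_SDefs

/-!
# Charts at arbitrary points (unitary frames), restriction of the foliation to the chart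
-/

namespace Pool.Agent.H24.CU

open MeasureTheory MvPolynomial
open scoped ComplexConjugate ContDiff

/-- `(p, b, c)` is an orthonormal basis of `C^3`. -/
structure Frame (p b c : V) : Prop where
  pp : nsq p = 1
  bb : nsq b = 1
  cc : nsq c = 1
  pb : herm p b = 0
  pc : herm p c = 0
  bc : herm b c = 0

/-- The affine chart centred at `p`. -/
noncomputable def chi (p b c : V) (q : ℂ × ℂ) : V := p + q.1 • b + q.2 • c

/-- Unit vectors over the image of `E` in the chart. -/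
def scone (p b c : V) (E : Set (ℂ × ℂ)) : Set V :=
  {y | nsq y = 1 ∧ ∃ q ∈ E, ∃ t : ℂ, t ≠ 0 ∧ y = t • chi p b c q}

/-- Restriction of a polynomial to the chart. -/
noncomputable def res (p b c : V) (f : MvPolynomial (Fin 3) ℂ) : FC76.P2 :=
  aeval (fun j => C (p j) + X 0 * C (b j) + X 1 * C (c j)) f

/-- The coefficient of `chi` in the expansion of the vector field. -/
noncomputable def res0 (𝓕 : Foliation) (p b c : V) : FC76.P2 :=
  ∑ j, C (conj (p j)) * res p b c (𝓕.F j)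

/-- First component of the vector field in the chart. -/
noncomputable def resA (𝓕 : Foliation) (p b c : V) : FC76.P2 :=
  ∑ j, C (conj (b j)) * res p b c (𝓕.F j) - X 0 * res0 𝓕 p b c

/-- Second component of the vector field in the chart. -/
noncomputable def resB (𝓕 : Foliation) (p b c : V) : FC76.P2 :=
  ∑ j, C (conj (c j)) * res p b c (𝓕.F j) - X 1 * res0 𝓕 p b c

/-- `Φ` has the weight of `A_y(F(y), F(y))`, `A` a `(1,1)`-form. -/
def Foliation.Wt (𝓕 : Foliation) (Φ : V → ℂ) : Prop :=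
  ∀ (t : ℂ) (y : V), t ≠ 0 → y ≠ 0 →
    Φ (t • y) = ((Complex.normSq t ^ 𝓕.deg / Complex.normSq t : ℝ) : ℂ) * Φ y

/-- The measure `M` on the chart centred at `p` which corresponds to `μ`. -/
structure SChart (𝓕 : Foliation) (μ : Measure V) (p b c : V) (ρ : ℝ) (M : Measure (ℂ × ℂ)) :
    Prop where
  frame : Frame p b c
  r_pos : 0 < ρ
  r_le : ρ ≤ 1
  carried : M (Metric.ball 0 ρ)ᶜ = 0
  reg : ∀ q ∈ Metric.closedBall (0 : ℂ × ℂ) ρ, q ≠ 0 → 𝓕.alpha (chi p b c q) ≠ 0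
  int : ∀ Φ : V → ℂ, Measurable Φ → 𝓕.Wt Φ → ∀ E : Set (ℂ × ℂ), MeasurableSet E →
    E ⊆ Metric.ball 0 ρ →
      ∫ y in scone p b c E, Φ y / (nsq (𝓕.alpha y) : ℂ) ∂μ = ∫ q in E, Φ (chi p b c q) ∂M
  lint : ∀ Φ : V → ℝ, Measurable Φ → 𝓕.Wt (fun y => (Φ y : ℂ)) → ∀ E : Set (ℂ × ℂ),
    MeasurableSet E → E ⊆ Metric.ball 0 ρ →
      ∫⁻ y in scone p b c E, ENNReal.ofReal (Φ y / nsq (𝓕.alpha y)) ∂μ =
        ∫⁻ q in E, ENNReal.ofReal (Φ (chi p b c q)) ∂M

/-- The divergence of the vector field minus its radial part (a section of weight `deg - 1`). -/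
noncomputable def Foliation.dv (𝓕 : Foliation) (y : V) : ℂ :=
  (∑ j, MvPolynomial.eval y (pderiv j (𝓕.F j))) -
    ((𝓕.deg : ℂ) + 2) * herm (𝓕.vec y) y / (nsq y : ℂ)

/-- The logarithm of the norm of `α`. -/
noncomputable def Foliation.la (𝓕 : Foliation) (y : V) : ℝ :=
  Real.log (nsq (𝓕.alpha y)) - ((𝓕.deg : ℝ) + 1) * Real.log (nsq y)

/-- `K_y^2`: the square of the transversal variation of the direction of the foliation. -/
noncomputable def Foliation.K2 (𝓕 : Foliation) (y : V) : ℝ :=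
  nsq (crossProduct (fderiv ℂ 𝓕.alpha y (fun j => conj (𝓕.alpha y j))) (𝓕.alpha y)) /
    nsq (𝓕.alpha y) ^ 3

/-- The Lelong numbers of `μ` vanish at all regular points. -/
def Foliation.LelZero (𝓕 : Foliation) (μ : Measure V) : Prop :=
  ∀ y : V, nsq y = 1 → 𝓕.alpha y ≠ 0 →
    Filter.Tendsto (fun s : ℝ => (μ {y' | tau y y' < s ^ 2}).toReal / s ^ 2)
      (nhdsWithin 0 (Set.Ioi 0)) (nhds 0)

end Pool.Agent.H24.CU

end S_H24_CU_SDefs

section S_H76_FL_LA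

/-!
# Row LA: evaluation of polynomials, basic calculus

All clear: ev f p = eval ![p.1, p.2] f.
* `ev_bl`, `ev_sw`: `MvPolynomial.aeval`/`eval` composition (induction on f or `eval₂_comp`, `MvPolynomial.induction_on`).
* `analyticAt_ev`: polynomials are analytic (induction on f: constants, coordinates, sums, products); `contDiff_ev` likewise.
* `fderiv_ev`: derivative by induction on f (`MvPolynomial.induction_on`: C a, sum, product with X i) using `pderiv` rules.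
* `fderiv_ev_vf` from it.
* `fderiv_real_ev`: the real derivative is the restriction of scalars of the complex derivative.
-/

open MvPolynomial MeasureTheory
open scoped ContDiff

namespace FC76

theorem ev_add (f g : P2) (p : ℂ × ℂ) : ev (f + g) p = ev f p + ev g p := by
  simp [ev]

theorem ev_sub (f g : P2) (p : ℂ × ℂ) : ev (f - g) p = ev f p - ev g p := by
  simp [ev]

theorem ev_mul (f g : P2) (p : ℂ × ℂ) : ev (f * g) p = ev f p * ev g p := by
  simp [ev]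

theorem ev_pow (f : P2) (n : ℕ) (p : ℂ × ℂ) : ev (f ^ n) p = ev f p ^ n := by
  simp [ev]

theorem ev_C (c : ℂ) (p : ℂ × ℂ) : ev (C c) p = c := by
  simp [ev]

theorem ev_X0 (p : ℂ × ℂ) : ev (X 0) p = p.1 := by
  simp [ev]

theorem ev_X1 (p : ℂ × ℂ) : ev (X 1) p = p.2 := by
  simp [ev]

theorem ev_zero (f : P2) : ev f 0 = eval 0 f := by
  have h : (![(0 : ℂ × ℂ).1, (0 : ℂ × ℂ).2] : Fin 2 → ℂ) = 0 := by
    ext i
    fin_cases i <;> simp
  unfold ev
  rw [h]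

theorem ev_bl (c : ℂ) (f : P2) (p : ℂ × ℂ) : ev (bl c f) p = ev f (p.1, p.1 * (p.2 + c)) := by
  induction f using MvPolynomial.induction_on with
  | C a =>
    have h : bl c (C a) = C a := by
      rw [← MvPolynomial.algebraMap_eq]
      exact AlgHom.commutes _ _
    rw [h, ev_C, ev_C]
  | add f g hf hg => rw [map_add, ev_add, ev_add, hf, hg]
  | mul_X f i hf =>
    rw [map_mul, ev_mul, ev_mul, hf]
    congr 1
    fin_cases i
    · simp [bl, ev]
    · simp [bl, ev]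

theorem ev_sw (f : P2) (p : ℂ × ℂ) : ev (sw f) p = ev f (p.2, p.1) := by
  induction f using MvPolynomial.induction_on with
  | C a =>
    have h : sw (C a) = C a := by
      rw [← MvPolynomial.algebraMap_eq]
      exact AlgHom.commutes _ _
    rw [h, ev_C, ev_C]
  | add f g hf hg => rw [map_add, ev_add, ev_add, hf, hg]
  | mul_X f i hf =>
    rw [map_mul, ev_mul, ev_mul, hf]
    congr 1
    fin_cases i
    · simp [sw, ev]
    · simp [sw, ev]

theorem LA_ev_C_fun (a : ℂ) : ev (C a) = fun _ => a := by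
  ext p
  exact ev_C a p

theorem LA_ev_add_fun (f g : P2) : ev (f + g) = fun p => ev f p + ev g p := by
  ext p
  exact ev_add f g p

theorem LA_ev_mul_fun (f g : P2) : ev (f * g) = fun p => ev f p * ev g p := by
  ext p
  exact ev_mul f g p

theorem LA_ev_X0_fun : ev (X 0) = fun p => p.1 := by
  ext p
  exact ev_X0 p

theorem LA_ev_X1_fun : ev (X 1) = fun p => p.2 := by
  ext p
  exact ev_X1 p

theorem analyticAt_ev (f : P2) (p : ℂ × ℂ) : AnalyticAt ℂ (ev f) p := by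
  induction f using MvPolynomial.induction_on with
  | C a =>
    rw [LA_ev_C_fun]
    exact analyticAt_const
  | add f g hf hg =>
    rw [LA_ev_add_fun]
    exact hf.add hg
  | mul_X f i hf =>
    rw [LA_ev_mul_fun]
    refine hf.mul ?_
    fin_cases i
    · show AnalyticAt ℂ (ev (X 0)) p
      rw [LA_ev_X0_fun]
      exact analyticAt_fst
    · show AnalyticAt ℂ (ev (X 1)) p
      rw [LA_ev_X1_fun]
      exact analyticAt_snd

theorem contDiff_ev (f : P2) : ContDiff ℂ ∞ (ev f) := by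
  induction f using MvPolynomial.induction_on with
  | C a =>
    rw [LA_ev_C_fun]
    exact contDiff_const
  | add f g hf hg =>
    rw [LA_ev_add_fun]
    exact hf.add hg
  | mul_X f i hf =>
    rw [LA_ev_mul_fun]
    refine hf.mul ?_
    fin_cases i
    · show ContDiff ℂ ∞ (ev (X 0))
      rw [LA_ev_X0_fun]
      exact contDiff_fst
    · show ContDiff ℂ ∞ (ev (X 1))
      rw [LA_ev_X1_fun]
      exact contDiff_snd

theorem contDiff_real_ev (f : P2) : ContDiff ℝ ∞ (ev f) :=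
  (contDiff_ev f).restrict_scalars ℝ

theorem LA_hasFDerivAt (f : P2) (p : ℂ × ℂ) :
    HasFDerivAt (ev f) (ev (pderiv 0 f) p • ContinuousLinearMap.fst ℂ ℂ ℂ +
      ev (pderiv 1 f) p • ContinuousLinearMap.snd ℂ ℂ ℂ) p := by
  induction f using MvPolynomial.induction_on with
  | C a =>
    rw [LA_ev_C_fun]
    have h0 : ev (pderiv 0 (C a : P2)) p = 0 := by
      rw [pderiv_C]
      simp [ev]
    have h1 : ev (pderiv 1 (C a : P2)) p = 0 := by
      rw [pderiv_C]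
      simp [ev]
    rw [h0, h1]
    refine (hasFDerivAt_const a p).congr_fderiv ?_
    ext <;> simp
  | add f g hf hg =>
    rw [LA_ev_add_fun, map_add, map_add, ev_add, ev_add]
    refine (hf.add hg).congr_fderiv ?_
    ext <;> simp
  | mul_X f i hf =>
    rw [LA_ev_mul_fun]
    fin_cases i
    · have hX : HasFDerivAt (ev (X 0)) (ContinuousLinearMap.fst ℂ ℂ ℂ) p := by
        rw [LA_ev_X0_fun]
        exact hasFDerivAt_fst
      refine (hf.mul hX).congr_fderiv ?_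
      ext <;> simp [ev, pderiv_X, smul_eq_mul]
    · have hX : HasFDerivAt (ev (X 1)) (ContinuousLinearMap.snd ℂ ℂ ℂ) p := by
        rw [LA_ev_X1_fun]
        exact hasFDerivAt_snd
      refine (hf.mul hX).congr_fderiv ?_
      ext <;> simp [ev, pderiv_X, smul_eq_mul]

theorem fderiv_ev (f : P2) (p v : ℂ × ℂ) :
    fderiv ℂ (ev f) p v = ev (pderiv 0 f) p * v.1 + ev (pderiv 1 f) p * v.2 := by
  rw [(LA_hasFDerivAt f p).fderiv]
  simp

theorem fderiv_real_ev (f : P2) (p v : ℂ × ℂ) : fderiv ℝ (ev f) p v = fderiv ℂ (ev f) p v := by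
  rw [((LA_hasFDerivAt f p).restrictScalars ℝ).fderiv, (LA_hasFDerivAt f p).fderiv]
  rfl

theorem fderiv_ev_vf (A B f : P2) (p : ℂ × ℂ) : fderiv ℂ (ev f) p (vf A B p) = ev (Zp A B f) p := by
  rw [fderiv_ev]
  unfold Zp vf
  rw [ev_add, ev_mul, ev_mul]
  ring

theorem contDiff_vf (A B : P2) : ContDiff ℝ ∞ (vf A B) :=
  (contDiff_real_ev A).prodMk (contDiff_real_ev B)

theorem nsq_nonneg (v : ℂ × ℂ) : 0 ≤ nsq v := by
  unfold nsq
  positivity

theorem norm_sq_le_nsq (v : ℂ × ℂ) : ‖v‖ ^ 2 ≤ nsq v ∧ nsq v ≤ 2 * ‖v‖ ^ 2 := by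
  unfold nsq
  rw [Prod.norm_def]
  have h1 := norm_nonneg v.1
  have h2 := norm_nonneg v.2
  rcases le_total ‖v.1‖ ‖v.2‖ with h | h
  · rw [max_eq_right h]
    constructor <;> nlinarith
  · rw [max_eq_left h]
    constructor <;> nlinarith

end FC76

end S_H76_FL_LA

section S_H76_FL_LB

/-!
# Row LB: calculus of the (1,0) and (0,1) derivatives

Definitions: dW g p v = (Dg(v) - i Dg(iv))/2, dWb g p v = (Dg(v) + i Dg(iv))/2, D the real Frechet derivative.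
* products: Leibniz rule of fderiv (`fderiv_mul`), linear combination.
* `dW_holo`: for F complex differentiable, the real derivative is complex linear: Dg(iv) = i Dg(v), so dW = DF(v), dWb = 0.
* `dW_conj`: D(conj g)(v) = conj (Dg v); conj of (Dg v + i Dg(iv))/2 is (conj Dg v - i conj Dg(iv))/2.
* `dW_real`: for real valued u: formula, and norm squared ‖dW u‖^2 = ((Du v)^2 + (Du iv)^2)/4.
* `dW_comp`: chain rule for Φ(u), Φ real.
* `dW_re`: for u = Re F, F holomorphic: Du(v) = Re DF(v), Du(iv) = Re(i DF(v)) = - Im DF(v), so dW u = DF(v)/2.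
* `dW_log_norm`: u = log ‖F‖, F(p) ≠ 0: locally u = Re log F (or u = (1/2) log(F conj F)): dW u = DF(v)/(2 F(p)).
* `dW_fst`: for χ : ℂ → ℂ real differentiable at p.1: dWb (χ ∘ fst) p v = dbar χ p.1 * conj v.1.
-/

open MvPolynomial MeasureTheory
open scoped ContDiff ComplexConjugate

namespace FC76

theorem LB_lin (L : ℂ × ℂ →L[ℝ] ℂ) (v : ℂ × ℂ) (z : ℂ) :
    L (z • v) = (z.re : ℂ) * L v + (z.im : ℂ) * L (Complex.I • v) := by
  have h : z • v = z.re • v + z.im • (Complex.I • v) := by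
    apply Prod.ext
    · show z * v.1 = z.re • v.1 + z.im • (Complex.I * v.1)
      rw [Complex.real_smul, Complex.real_smul]
      conv_lhs => rw [← Complex.re_add_im z]
      ring
    · show z * v.2 = z.re • v.2 + z.im • (Complex.I * v.2)
      rw [Complex.real_smul, Complex.real_smul]
      conv_lhs => rw [← Complex.re_add_im z]
      ring
  rw [h, map_add, map_smul, map_smul, Complex.real_smul, Complex.real_smul]

theorem LB_II (v : ℂ × ℂ) : Complex.I • (Complex.I • v) = -v := by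
  rw [smul_smul, Complex.I_mul_I, neg_one_smul]

theorem LB_holo {F : ℂ × ℂ → ℂ} {p : ℂ × ℂ} (hF : DifferentiableAt ℂ F p) (v : ℂ × ℂ) :
    fderiv ℝ F p v = fderiv ℂ F p v := by
  rw [hF.fderiv_restrictScalars ℝ]
  rfl

theorem LB_real {u : ℂ × ℂ → ℝ} {p : ℂ × ℂ} (hu : DifferentiableAt ℝ u p) (v : ℂ × ℂ) :
    fderiv ℝ (fun q => (u q : ℂ)) p v = ((fderiv ℝ u p v : ℝ) : ℂ) := by
  have h := (Complex.ofRealCLM.hasFDerivAt.comp p hu.hasFDerivAt).fderiv
  have h2 : (fun q => (u q : ℂ)) = Complex.ofRealCLM ∘ u := rfl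
  rw [h2, h]
  rfl

theorem dW_mul {f g : ℂ × ℂ → ℂ} {p : ℂ × ℂ} (hf : DifferentiableAt ℝ f p) (hg : DifferentiableAt ℝ g p)
    (v : ℂ × ℂ) : dW (fun q => f q * g q) p v = f p * dW g p v + g p * dW f p v := by
  have h := (hf.hasFDerivAt.mul hg.hasFDerivAt).fderiv
  have h1 : ∀ w, fderiv ℝ (fun q => f q * g q) p w = f p * fderiv ℝ g p w + g p * fderiv ℝ f p w := by
    intro w
    have h2 := congrArg (fun L : ℂ × ℂ →L[ℝ] ℂ => L w) h
    exact h2
  unfold dW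
  rw [h1, h1]
  ring

theorem dWb_mul {f g : ℂ × ℂ → ℂ} {p : ℂ × ℂ} (hf : DifferentiableAt ℝ f p) (hg : DifferentiableAt ℝ g p)
    (v : ℂ × ℂ) : dWb (fun q => f q * g q) p v = f p * dWb g p v + g p * dWb f p v := by
  have h := (hf.hasFDerivAt.mul hg.hasFDerivAt).fderiv
  have h1 : ∀ w, fderiv ℝ (fun q => f q * g q) p w = f p * fderiv ℝ g p w + g p * fderiv ℝ f p w := by
    intro w
    have h2 := congrArg (fun L : ℂ × ℂ →L[ℝ] ℂ => L w) h
    exact h2
  unfold dWb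
  rw [h1, h1]
  ring

theorem dW_holo {F : ℂ × ℂ → ℂ} {p : ℂ × ℂ} (hF : DifferentiableAt ℂ F p) (v : ℂ × ℂ) :
    dW F p v = fderiv ℂ F p v ∧ dWb F p v = 0 := by
  unfold dW dWb
  rw [LB_holo hF, LB_holo hF, map_smul, smul_eq_mul]
  constructor
  · linear_combination (-(fderiv ℂ F p v) / 2) * Complex.I_mul_I
  · linear_combination ((fderiv ℂ F p v) / 2) * Complex.I_mul_I

theorem dW_conj (g : ℂ × ℂ → ℂ) (p v : ℂ × ℂ) :
    dW (fun q => conj (g q)) p v = conj (dWb g p v) ∧ dWb (fun q => conj (g q)) p v = conj (dW g p v) := by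
  have h1 : ∀ w, fderiv ℝ (fun q => conj (g q)) p w = conj (fderiv ℝ g p w) := by
    intro w
    have h2 : (fun q => conj (g q)) = Complex.conjCLE ∘ g := rfl
    rw [h2, Complex.conjCLE.comp_fderiv]
    rfl
  unfold dW dWb
  rw [h1, h1]
  constructor
  · rw [map_div₀, map_add, map_mul, Complex.conj_I, map_ofNat]
    ring
  · rw [map_div₀, map_sub, map_mul, Complex.conj_I, map_ofNat]
    ring

theorem dW_real {u : ℂ × ℂ → ℝ} {p : ℂ × ℂ} (hu : DifferentiableAt ℝ u p) (v : ℂ × ℂ) :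
    dW (fun q => (u q : ℂ)) p v = ((fderiv ℝ u p v : ℂ) - Complex.I * (fderiv ℝ u p (Complex.I • v) : ℂ)) / 2 ∧
    dWb (fun q => (u q : ℂ)) p v = conj (dW (fun q => (u q : ℂ)) p v) ∧
    ‖dW (fun q => (u q : ℂ)) p v‖ ^ 2 = ((fderiv ℝ u p v) ^ 2 + (fderiv ℝ u p (Complex.I • v)) ^ 2) / 4 := by
  have h1 : dW (fun q => (u q : ℂ)) p v =
      ((fderiv ℝ u p v : ℂ) - Complex.I * (fderiv ℝ u p (Complex.I • v) : ℂ)) / 2 := by
    unfold dW
    rw [LB_real hu, LB_real hu]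
  refine ⟨h1, ?_, ?_⟩
  · rw [h1]
    unfold dWb
    rw [LB_real hu, LB_real hu, map_div₀, map_sub, map_mul, Complex.conj_I, map_ofNat,
      Complex.conj_ofReal, Complex.conj_ofReal]
    ring
  · rw [h1]
    have h2 : ((fderiv ℝ u p v : ℂ) - Complex.I * (fderiv ℝ u p (Complex.I • v) : ℂ)) / 2 =
        (⟨fderiv ℝ u p v / 2, -(fderiv ℝ u p (Complex.I • v)) / 2⟩ : ℂ) := by
      apply Complex.ext
      · simp
      · simp
    rw [h2, Complex.sq_norm, Complex.normSq_mk]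
    ring

theorem dW_comp {Φ : ℝ → ℝ} {u : ℂ × ℂ → ℝ} {p : ℂ × ℂ} (hΦ : DifferentiableAt ℝ Φ (u p))
    (hu : DifferentiableAt ℝ u p) (v : ℂ × ℂ) :
    dW (fun q => ((Φ (u q) : ℝ) : ℂ)) p v = ((deriv Φ (u p) : ℝ) : ℂ) * dW (fun q => (u q : ℂ)) p v := by
  have h1 := hΦ.hasDerivAt.comp_hasFDerivAt p hu.hasFDerivAt
  have h2 : ∀ w, fderiv ℝ (fun q => Φ (u q)) p w = deriv Φ (u p) * fderiv ℝ u p w := by
    intro w
    have h3 := congrArg (fun L : ℂ × ℂ →L[ℝ] ℝ => L w) h1.fderiv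
    exact h3
  rw [(dW_real (u := fun q => Φ (u q)) h1.differentiableAt v).1, (dW_real hu v).1, h2, h2]
  push_cast
  ring

theorem dW_re {F : ℂ × ℂ → ℂ} {p : ℂ × ℂ} (hF : DifferentiableAt ℂ F p) (v : ℂ × ℂ) :
    dW (fun q => (((F q).re : ℝ) : ℂ)) p v = fderiv ℂ F p v / 2 := by
  have h1 := Complex.reCLM.hasFDerivAt.comp p (hF.hasFDerivAt.restrictScalars ℝ)
  have h2 : ∀ w, fderiv ℝ (fun q => (F q).re) p w = (fderiv ℂ F p w).re := by
    intro w
    have h3 := congrArg (fun L : ℂ × ℂ →L[ℝ] ℝ => L w) h1.fderiv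
    exact h3
  rw [(dW_real (u := fun q => (F q).re) h1.differentiableAt v).1, h2, h2, map_smul, smul_eq_mul]
  congr 1
  apply Complex.ext
  · simp
  · simp

theorem dW_log_norm {F : ℂ × ℂ → ℂ} {p : ℂ × ℂ} (hF : DifferentiableAt ℂ F p) (h0 : F p ≠ 0) (v : ℂ × ℂ) :
    dW (fun q => ((Real.log ‖F q‖ : ℝ) : ℂ)) p v = fderiv ℂ F p v / (2 * F p) := by
  set G : ℂ × ℂ → ℂ := fun q => (Real.log ‖F p‖ : ℂ) + Complex.log ((F p)⁻¹ * F q) with hG
  have e1 : (F p)⁻¹ * F p = 1 := inv_mul_cancel₀ h0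
  have h1 : HasFDerivAt (fun q => (F p)⁻¹ * F q) ((F p)⁻¹ • fderiv ℂ F p) p :=
    hF.hasFDerivAt.const_mul (F p)⁻¹
  have h2 : HasFDerivAt G (((F p)⁻¹ * F p)⁻¹ • ((F p)⁻¹ • fderiv ℂ F p)) p := by
    apply HasFDerivAt.const_add
    apply h1.clog
    show (F p)⁻¹ * F p ∈ Complex.slitPlane
    rw [e1]
    exact Complex.one_mem_slitPlane
  have hev : (fun q => ((Real.log ‖F q‖ : ℝ) : ℂ)) =ᶠ[nhds p] fun q => (((G q).re : ℝ) : ℂ) := by
    have hc : ContinuousAt F p := hF.continuousAt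
    filter_upwards [hc.eventually_ne h0] with q hq
    congr 1
    simp only [hG]
    rw [Complex.add_re, Complex.ofReal_re, Complex.log_re, norm_mul, norm_inv,
      Real.log_mul (inv_ne_zero (norm_ne_zero_iff.2 h0)) (norm_ne_zero_iff.2 hq), Real.log_inv]
    ring
  have h3 : dW (fun q => ((Real.log ‖F q‖ : ℝ) : ℂ)) p v = dW (fun q => (((G q).re : ℝ) : ℂ)) p v := by
    unfold dW
    rw [hev.fderiv_eq]
  rw [h3, dW_re h2.differentiableAt, h2.fderiv, e1, inv_one, one_smul]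
  show (F p)⁻¹ * fderiv ℂ F p v / 2 = _
  field_simp

theorem dWb_fst {χ : ℂ → ℂ} {p : ℂ × ℂ} (h : DifferentiableAt ℝ χ p.1) (v : ℂ × ℂ) :
    dWb (fun q => χ q.1) p v = dbar χ p.1 * conj v.1 := by
  have h1 := h.hasFDerivAt.comp p (hasFDerivAt_fst (𝕜 := ℝ) (p := p))
  have h2 : ∀ w, fderiv ℝ (fun q : ℂ × ℂ => χ q.1) p w = fderiv ℝ χ p.1 w.1 := by
    intro w
    have h3 := congrArg (fun L : ℂ × ℂ →L[ℝ] ℂ => L w) h1.fderiv
    exact h3
  have h4 : ∀ z : ℂ, fderiv ℝ χ p.1 z = (z.re : ℂ) * fderiv ℝ χ p.1 1 +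
      (z.im : ℂ) * fderiv ℝ χ p.1 Complex.I := by
    intro z
    have h5 : z = z.re • (1 : ℂ) + z.im • Complex.I := by
      rw [Complex.real_smul, Complex.real_smul, mul_one]
      exact (Complex.re_add_im z).symm
    conv_lhs => rw [h5]
    rw [map_add, map_smul, map_smul, Complex.real_smul, Complex.real_smul]
  have e1 : (Complex.I * v.1).re = -v.1.im := by simp
  have e2 : (Complex.I * v.1).im = v.1.re := by simp
  have e3 : conj v.1 = (v.1.re : ℂ) - (v.1.im : ℂ) * Complex.I := by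
    apply Complex.ext
    · simp
    · simp
  unfold dWb dbar
  rw [h2, h2]
  show (fderiv ℝ χ p.1 v.1 + Complex.I * fderiv ℝ χ p.1 (Complex.I * v.1)) / 2 = _
  rw [h4 v.1, h4 (Complex.I * v.1), e1, e2, e3]
  push_cast
  linear_combination (1 / 2 * (v.1.im : ℂ) * fderiv ℝ χ p.1 Complex.I) * Complex.I_mul_I

/-- linearity in the direction -/
theorem dW_smul (g : ℂ × ℂ → ℂ) (p v : ℂ × ℂ) (z : ℂ) :
    dW g p (z • v) = z * dW g p v ∧ dWb g p (z • v) = conj z * dWb g p v := by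
  have e1 : Complex.I • (z • v) = z • (Complex.I • v) := smul_comm _ _ _
  have e3 : conj z = (z.re : ℂ) - (z.im : ℂ) * Complex.I := by
    apply Complex.ext
    · simp
    · simp
  have e4 := (Complex.re_add_im z).symm
  unfold dW dWb
  rw [e1, LB_lin _ v z, LB_lin _ (Complex.I • v) z, LB_II, map_neg]
  constructor
  · conv_rhs => rw [e4]
    linear_combination ((1 : ℂ) / 2 * (z.im : ℂ) * fderiv ℝ g p (Complex.I • v)) * Complex.I_mul_I
  · rw [e3]
    linear_combination ((1 : ℂ) / 2 * (z.im : ℂ) * fderiv ℝ g p (Complex.I • v)) * Complex.I_mul_I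

end FC76

end S_H76_FL_LB

section S_H24_CU_DZ

/-!
# Row DZ (a measure with zero two-dimensional density does not charge holomorphic curves)

PROOFS.  (1) `null_of_lipschitz`.  Fix `ε > 0`.  `S_k = {t ∈ S | ∀ s, 0 < s → s < 1/(k+1) → M (ball (γ t) s) <= ofReal (ε s^2)}`
is increasing in `k` with union `S`, so `M (γ '' S) = ⨆ M (γ '' S_k)` (`Directed`/`Monotone.measure_iUnion`: valid for arbitrary sets).
`S ⊆ [-R, R]^2` (as a subset of `ℂ`).  For `n >= 1` cut the square of side `2R` into `n^2` squares of side `2R/n`, diameter `<= 3R/n`.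
For each small square `Q` meeting `S_k` choose `t_Q` in the intersection: `γ (Q ∩ S) ⊆ ball (γ t_Q) (K' 4R/n)`, `K' = K + 1`.
For `n` large `4 K' R/n < 1/(k+1)`, so `M (γ '' S_k) <= n^2 ofReal (ε (4 K' R/n)^2) = ofReal (16 ε K'^2 R^2)`.
So `M (γ '' S) <= ofReal (16 K'^2 R^2 ε)` for all `ε > 0`, hence `0`.
(2) `null_of_holo`: `U' = U ∩ γ⁻¹ W` is open (`γ` is continuous on `U`); every point of `U'` has a closed disc `D ⊆ U'` around it on which `γ` is
Lipschitz (`γ` is `C^1` on `U`: holomorphic functions; `DifferentiableOn.contDiffOn`, `ContDiffAt.exists_lipschitzOnWith`); countably many of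
them cover `U'` (Lindelöf: `TopologicalSpace.countable_cover_nhdsWithin`).  `M (γ '' U) <= M (γ '' U') + M Wᶜ = 0`.
-/

namespace Pool.Agent.H24.CU

open MeasureTheory

/-- covering estimate -/
theorem DZ_cover (M : Measure (ℂ × ℂ)) (γ : ℂ → ℂ × ℂ) (S : Set ℂ) (K : NNReal) {R ε : ℝ}
    (hR : 0 < R) (hε : 0 < ε) (hS : ∀ z ∈ S, ‖z‖ ≤ R) (hγ : LipschitzOnWith K γ S) {k : ℕ}
    (h0 : ∀ t ∈ S, ∀ s : ℝ, 0 < s → s < 1 / ((k : ℝ) + 1) →
      M (Metric.ball (γ t) s) ≤ ENNReal.ofReal (ε * s ^ 2)) :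
    M (γ '' S) ≤ ENNReal.ofReal (36 * ε * ((K : ℝ) + 1) ^ 2 * R ^ 2) := by
  classical
  have hK0 : (0 : ℝ) ≤ K := K.2
  obtain ⟨n, hn⟩ : ∃ n : ℕ, 2 * ((K : ℝ) + 1) * R * ((k : ℝ) + 1) < n := exists_nat_gt _
  have hnpos : (0 : ℝ) < n := lt_of_le_of_lt (by positivity) hn
  have hn1 : (1 : ℝ) ≤ n := by
    have : 0 < n := by exact_mod_cast hnpos
    exact_mod_cast this
  obtain ⟨δ, hδ⟩ : ∃ δ : ℝ, δ = R / n := ⟨_, rfl⟩
  have hδ0 : 0 < δ := by rw [hδ]; positivity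
  have hs1 : 2 * ((K : ℝ) + 1) * δ < 1 / ((k : ℝ) + 1) := by
    rw [hδ, lt_div_iff₀ (by positivity), mul_div_assoc', div_mul_eq_mul_div, div_lt_one hnpos]
    exact hn
  have hs0 : 0 < 2 * ((K : ℝ) + 1) * δ := by positivity
  -- the squares
  obtain ⟨Q, hQ⟩ : ∃ Q : ℤ × ℤ → Set ℂ, Q = fun p => {z | ⌊z.re / δ⌋ = p.1 ∧ ⌊z.im / δ⌋ = p.2} :=
    ⟨_, rfl⟩
  obtain ⟨I, hI⟩ : ∃ I : Finset (ℤ × ℤ), I = Finset.Icc (-(n : ℤ)) n ×ˢ Finset.Icc (-(n : ℤ)) n :=
    ⟨_, rfl⟩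
  have hfl : ∀ x : ℝ, |x| ≤ R → ⌊x / δ⌋ ∈ Finset.Icc (-(n : ℤ)) n := by
    intro x hx
    have h1 := abs_le.1 hx
    have e1 : R / δ = n := by rw [hδ]; field_simp
    have e2 : x / δ ≤ n := by rw [← e1]; exact (div_le_div_iff_of_pos_right hδ0).2 h1.2
    have e3 : -(n : ℝ) ≤ x / δ := by
      rw [← e1, ← neg_div]; exact (div_le_div_iff_of_pos_right hδ0).2 h1.1
    rw [Finset.mem_Icc]
    constructor
    · rw [Int.le_floor]; push_cast; exact e3
    · have : ((⌊x / δ⌋ : ℤ) : ℝ) ≤ n := (Int.floor_le _).trans e2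
      exact_mod_cast this
  have hcov : γ '' S ⊆ ⋃ p ∈ I, γ '' (S ∩ Q p) := by
    rintro _ ⟨z, hz, rfl⟩
    have hzn := hS z hz
    refine Set.mem_iUnion₂.2 ⟨(⌊z.re / δ⌋, ⌊z.im / δ⌋), ?_, z, ⟨hz, ?_⟩, rfl⟩
    · rw [hI, Finset.mem_product]
      exact ⟨hfl _ ((Complex.abs_re_le_norm z).trans hzn), hfl _ ((Complex.abs_im_le_norm z).trans hzn)⟩
    · rw [hQ]
      exact ⟨rfl, rfl⟩
  have hclose : ∀ x y : ℝ, ⌊x / δ⌋ = ⌊y / δ⌋ → |x - y| < δ := by
    intro x y h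
    have := Int.abs_sub_lt_one_of_floor_eq_floor h
    rw [← sub_div, abs_div, abs_of_pos hδ0, div_lt_one hδ0] at this
    exact this
  have hpiece : ∀ p ∈ I, M (γ '' (S ∩ Q p)) ≤
      ENNReal.ofReal (ε * (2 * ((K : ℝ) + 1) * δ) ^ 2) := by
    intro p _
    rcases (S ∩ Q p).eq_empty_or_nonempty with he | ⟨t, ht⟩
    · rw [he, Set.image_empty, measure_empty]
      exact bot_le
    · refine le_trans (measure_mono ?_) (h0 t ht.1 _ hs0 hs1)
      rintro _ ⟨z, hz, rfl⟩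
      rw [Metric.mem_ball]
      have h1 : dist (γ z) (γ t) ≤ K * dist z t := hγ.dist_le_mul z hz.1 t ht.1
      have h2 : dist z t < 2 * δ := by
        have hz2 := hz.2
        have ht2 := ht.2
        rw [hQ] at hz2 ht2
        have a1 := hclose z.re t.re (hz2.1.trans ht2.1.symm)
        have a2 := hclose z.im t.im (hz2.2.trans ht2.2.symm)
        rw [dist_eq_norm]
        calc ‖z - t‖ ≤ |(z - t).re| + |(z - t).im| := Complex.norm_le_abs_re_add_abs_im _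
          _ < 2 * δ := by
            rw [Complex.sub_re, Complex.sub_im]
            linarith
      calc dist (γ z) (γ t) ≤ K * dist z t := h1
        _ ≤ K * (2 * δ) := mul_le_mul_of_nonneg_left h2.le hK0
        _ < 2 * ((K : ℝ) + 1) * δ := by nlinarith
  have hcard : (I.card : ℝ) ≤ 9 * (n : ℝ) ^ 2 := by
    have h1 : I.card = (2 * n + 1) * (2 * n + 1) := by
      rw [hI, Finset.card_product, Int.card_Icc]
      have : ((n : ℤ) + 1 - -(n : ℤ)).toNat = 2 * n + 1 := by omega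
      rw [this]
    rw [h1]
    push_cast
    nlinarith
  calc M (γ '' S) ≤ M (⋃ p ∈ I, γ '' (S ∩ Q p)) := measure_mono hcov
    _ ≤ ∑ p ∈ I, M (γ '' (S ∩ Q p)) := measure_biUnion_finset_le I _
    _ ≤ ∑ _p ∈ I, ENNReal.ofReal (ε * (2 * ((K : ℝ) + 1) * δ) ^ 2) := Finset.sum_le_sum hpiece
    _ = (I.card : ENNReal) * ENNReal.ofReal (ε * (2 * ((K : ℝ) + 1) * δ) ^ 2) := by
        rw [Finset.sum_const, nsmul_eq_mul]
    _ = ENNReal.ofReal ((I.card : ℝ) * (ε * (2 * ((K : ℝ) + 1) * δ) ^ 2)) := by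
        rw [ENNReal.ofReal_mul (p := (I.card : ℝ)) (by positivity), ENNReal.ofReal_natCast]
    _ ≤ ENNReal.ofReal (36 * ε * ((K : ℝ) + 1) ^ 2 * R ^ 2) := by
        apply ENNReal.ofReal_le_ofReal
        calc (I.card : ℝ) * (ε * (2 * ((K : ℝ) + 1) * δ) ^ 2)
            ≤ 9 * (n : ℝ) ^ 2 * (ε * (2 * ((K : ℝ) + 1) * δ) ^ 2) :=
              mul_le_mul_of_nonneg_right hcard (by positivity)
          _ = 36 * ε * ((K : ℝ) + 1) ^ 2 * R ^ 2 := by
              rw [hδ]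
              field_simp
              ring

theorem null_of_lipschitz (M : Measure (ℂ × ℂ)) (γ : ℂ → ℂ × ℂ) (S : Set ℂ) (K : NNReal)
    (hS : Bornology.IsBounded S) (hγ : LipschitzOnWith K γ S)
    (h0 : ∀ t ∈ S, ∀ ε : ℝ, 0 < ε → ∀ᶠ s in nhdsWithin (0 : ℝ) (Set.Ioi 0),
      M (Metric.ball (γ t) s) ≤ ENNReal.ofReal (ε * s ^ 2)) : M (γ '' S) = 0 := by
  obtain ⟨R, hR0, hR⟩ : ∃ R : ℝ, 0 < R ∧ ∀ z ∈ S, ‖z‖ ≤ R := by
    obtain ⟨R, hR0, hR⟩ := hS.exists_pos_norm_le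
    exact ⟨R, hR0, hR⟩
  have hK0 : (0 : ℝ) ≤ K := K.2
  have key : ∀ ε : ℝ, 0 < ε → M (γ '' S) ≤ ENNReal.ofReal (36 * ε * ((K : ℝ) + 1) ^ 2 * R ^ 2) := by
    intro ε hε
    obtain ⟨T, hT⟩ : ∃ T : ℕ → Set ℂ, T = fun k : ℕ => {t | t ∈ S ∧ ∀ s : ℝ, 0 < s →
        s < 1 / ((k : ℝ) + 1) → M (Metric.ball (γ t) s) ≤ ENNReal.ofReal (ε * s ^ 2)} := ⟨_, rfl⟩
    have hTmono : Monotone T := by
      intro k l hkl t ht
      rw [hT] at ht ⊢
      refine ⟨ht.1, fun s hs hsl => ht.2 s hs (hsl.trans_le ?_)⟩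
      have : (k : ℝ) ≤ l := by exact_mod_cast hkl
      apply one_div_le_one_div_of_le (by positivity)
      linarith
    have hTU : S = ⋃ k, T k := by
      apply Set.Subset.antisymm
      · intro t ht
        have h1 := h0 t ht ε hε
        rw [eventually_nhdsWithin_iff, Metric.eventually_nhds_iff] at h1
        obtain ⟨r, hr, hr1⟩ := h1
        obtain ⟨k, hk⟩ := exists_nat_one_div_lt hr
        refine Set.mem_iUnion.2 ⟨k, ?_⟩
        rw [hT]
        refine ⟨ht, fun s hs hsk => ?_⟩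
        have h2 : dist s 0 < r := by
          rw [Real.dist_eq, sub_zero, abs_of_pos hs]
          exact hsk.trans hk
        exact hr1 h2 hs
      · intro t ht
        obtain ⟨k, hk⟩ := Set.mem_iUnion.1 ht
        rw [hT] at hk
        exact hk.1
    have h2 : γ '' S = ⋃ k, γ '' (T k) := by
      conv_lhs => rw [hTU]
      exact Set.image_iUnion
    have h3 : Monotone fun k => γ '' (T k) := fun k l hkl => Set.image_mono (hTmono hkl)
    rw [h2, h3.measure_iUnion]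
    apply iSup_le
    intro k
    have hsub : T k ⊆ S := fun t ht => by
      rw [hT] at ht
      exact ht.1
    apply DZ_cover M γ (T k) K hR0 hε (fun z hz => hR z (hsub hz)) (hγ.mono hsub) (k := k)
    intro t ht s hs hsk
    rw [hT] at ht
    exact ht.2 s hs hsk
  refine le_antisymm ?_ (by exact bot_le : (0 : ENNReal) ≤ _)
  apply ENNReal.le_of_forall_pos_le_add
  intro ε hε _
  have hε' : (0 : ℝ) < ε := by exact_mod_cast hε
  obtain ⟨c, hc⟩ : ∃ c : ℝ, c = 36 * ((K : ℝ) + 1) ^ 2 * R ^ 2 := ⟨_, rfl⟩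
  have hc0 : 0 < c := by rw [hc]; positivity
  refine (key (ε / c) (by positivity)).trans ?_
  rw [zero_add]
  have h4 : 36 * ((ε : ℝ) / c) * ((K : ℝ) + 1) ^ 2 * R ^ 2 = ε := by
    have : 36 * ((ε : ℝ) / c) * ((K : ℝ) + 1) ^ 2 * R ^ 2 = ε * (36 * ((K : ℝ) + 1) ^ 2 * R ^ 2) / c := by
      ring
    rw [this, ← hc, mul_div_assoc, div_self hc0.ne', mul_one]
  rw [h4, ENNReal.ofReal_coe_nnreal]

theorem null_of_holo (M : Measure (ℂ × ℂ)) (γ : ℂ → ℂ × ℂ) (U : Set ℂ) (hU : IsOpen U)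
    (hγ : DifferentiableOn ℂ γ U) (W : Set (ℂ × ℂ)) (hW : IsOpen W) (hM : M Wᶜ = 0)
    (h0 : ∀ q ∈ W, ∀ ε : ℝ, 0 < ε → ∀ᶠ s in nhdsWithin (0 : ℝ) (Set.Ioi 0),
      M (Metric.ball q s) ≤ ENNReal.ofReal (ε * s ^ 2)) : M (γ '' U) = 0 := by
  have hU' : IsOpen (U ∩ γ ⁻¹' W) := hγ.continuousOn.isOpen_inter_preimage hU hW
  have hlip : ∀ t ∈ U ∩ γ ⁻¹' W, ∃ K : NNReal, ∃ N ∈ nhds t, LipschitzOnWith K γ N := by
    intro t ht
    have h1 : ContDiffAt ℂ 1 γ t := (hγ.contDiffOn hU).contDiffAt (hU.mem_nhds ht.1)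
    exact h1.exists_lipschitzOnWith
  choose! K N hN hKN using hlip
  obtain ⟨f, hf⟩ : ∃ f : ℂ → Set ℂ, f = fun t => N t ∩ Metric.ball t 1 ∩ (U ∩ γ ⁻¹' W) := ⟨_, rfl⟩
  have hfn : ∀ t ∈ U ∩ γ ⁻¹' W, f t ∈ nhdsWithin t (U ∩ γ ⁻¹' W) := by
    intro t ht
    rw [hf]
    apply mem_nhdsWithin_of_mem_nhds
    exact Filter.inter_mem (Filter.inter_mem (hN t ht) (Metric.ball_mem_nhds t one_pos))
      (hU'.mem_nhds ht)
  obtain ⟨T, hT, hTc, hTU⟩ := TopologicalSpace.countable_cover_nhdsWithin hfn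
  have hnull : M (γ '' (U ∩ γ ⁻¹' W)) = 0 := by
    have hsub : γ '' (U ∩ γ ⁻¹' W) ⊆ ⋃ t ∈ T, γ '' (f t) := by
      rw [← Set.image_iUnion₂]
      exact Set.image_mono hTU
    apply measure_mono_null hsub
    rw [measure_biUnion_null_iff hTc]
    intro t ht
    have htU := hT ht
    apply null_of_lipschitz M γ (f t) (K t)
    · apply (Metric.isBounded_ball (x := t) (r := 1)).subset
      intro z hz
      rw [hf] at hz
      exact hz.1.2
    · apply (hKN t htU).mono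
      intro z hz
      rw [hf] at hz
      exact hz.1.1
    · intro z hz ε hε
      rw [hf] at hz
      exact h0 (γ z) hz.2.2 ε hε
  have hsub2 : γ '' U ⊆ γ '' (U ∩ γ ⁻¹' W) ∪ Wᶜ := by
    rintro _ ⟨z, hz, rfl⟩
    by_cases hzW : γ z ∈ W
    · exact Or.inl ⟨z, ⟨hz, hzW⟩, rfl⟩
    · exact Or.inr hzW
  exact measure_mono_null hsub2 (measure_union_null hnull hM)

end Pool.Agent.H24.CU

end S_H24_CU_DZ

section S_H24_CU_RD

/-!
# Row RD (a directed current only sees the value of a form on the leaf direction)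

PROOF.  Write `η = 𝓕.alpha x`, `e = nsq η`, `N = nsq x`, `F = 𝓕.vec x`.  On the open set
`U = {x ≠ 0, e ≠ 0}` the functions `dens A.1 x`, `c_k`, `c'_j` of `form_decomp` are smooth
(`ContDiffOn ℝ ∞`): they are polynomials in `x, conj x` and in the entries of `A` divided by powers of
`e` (polynomial maps `x ↦ eval x P` are smooth; `conj`, `normSq` are smooth over `ℝ`).
The set `U' = {x ≠ 0, e < (δ/2)... }`: let `O = {x ≠ 0 | e < δ N^(deg+1)}`, open, `χ = 0` on `O` by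
`hsupp`; `O ∪ U = {0}ᶜ` and both are open, so any function `χ * f` with `f` smooth on `U` is smooth on
`{0}ᶜ` (`ContDiffOn` is local: `contDiffOn_of_locally..`/`ContDiffAt` at every point; on `O` it is
eventually `0`).
(1) `IsFun u`: smooth as just said (replace `u` off `0` by the formula), degree `0`:
`dens A.1 (c x) = (normSq c)⁻¹ (normSq c)^deg / (normSq c)^(deg+1) dens A.1 x`
(`vec_smul`, `alpha_smul`), `(nsq (c x))^2 = (normSq c)^2 N^2`.
(2) Let `c x := χ x • (c_k(x))_k`, `c' x := χ x • (c'_j(x))_j` (0 at points with `e = 0`, since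
`x / 0 = 0`); smooth off `0`.  The matrix field `G1 x = vecMulVec (α x) (c x)` belongs to `Form11` (value
`0` at `0`: take `if x = 0 then 0`): smooth; homogeneous because `c(t x) = t^-(deg+1) (normSq t)⁻¹ c(x)`
(check from the formula) ; basic because `∑ x_j η_j = 0` and `∑_k c_k conj x_k = 0`
(`∑_k A_ik conj x_k = 0`, `∑_k conj η_k conj x_k = 0`).  So `T.toLin G1 = 0` by `hT`.
The matrix field `G2 x = vecMulVec (c' x) (conj α x)` belongs to `Form11`, its adjoint is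
`vecMulVec (α x) (conj c' x)`, so `T.toLin G2 = conj 0 = 0` (`toLin_adj` in the right order and `hT`).
By `form_decomp` (its hypothesis `h3` is `nsq_cross`) `B.1 x = D.1 x + G1 x + G2 x` for `x ≠ 0`
(both sides are `0` on `O`; where `e ≠ 0` it is `χ x` times the decomposition), so `B = D + G1 + G2`
(`Form11.ext_off`) and `T.toLin B = T.toLin D`.
-/

namespace Pool.Agent.H24.CU

open MeasureTheory
open scoped ComplexConjugate ComplexOrder ContDiff


theorem RD_eval_smooth (P : MvPolynomial (Fin 3) ℂ) :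
    ContDiff ℝ ∞ (fun x : V => MvPolynomial.eval x P) := by
  induction P using MvPolynomial.induction_on with
  | C a => simpa using contDiff_const
  | add p q hp hq => simpa using hp.add hq
  | mul_X p i hp =>
    have h : ContDiff ℝ ∞ (fun x : V => x i) := contDiff_apply ℝ ℂ i
    simpa using hp.mul h

theorem RD_conj_smooth {f : V → ℂ} {s : Set V} (hf : ContDiffOn ℝ ∞ f s) :
    ContDiffOn ℝ ∞ (fun x => conj (f x)) s :=
  (Complex.conjCLE.contDiff.comp_contDiffOn hf : _)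

theorem RD_vec_smooth (𝓕 : Foliation) (j : Fin 3) : ContDiff ℝ ∞ (fun x : V => 𝓕.vec x j) :=
  RD_eval_smooth (𝓕.F j)

theorem RD_alpha_smooth (𝓕 : Foliation) (j : Fin 3) : ContDiff ℝ ∞ (fun x : V => 𝓕.alpha x j) := by
  obtain ⟨Q, _, hQ, _⟩ := exists_alpha_poly 𝓕
  have : (fun x : V => 𝓕.alpha x j) = fun x => MvPolynomial.eval x (Q j) := by
    funext x
    exact hQ x j
  rw [this]
  exact RD_eval_smooth (Q j)

theorem RD_nsq_eq (f : V) : (nsq f : ℂ) = ∑ j, f j * conj (f j) := by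
  unfold nsq
  push_cast
  exact Finset.sum_congr rfl fun j _ => (Complex.mul_conj (f j)).symm

theorem RD_nsq_smooth {f : V → V} {s : Set V} (hf : ∀ j, ContDiffOn ℝ ∞ (fun x => f x j) s) :
    ContDiffOn ℝ ∞ (fun x => (nsq (f x) : ℂ)) s := by
  simp_rw [RD_nsq_eq]
  exact ContDiffOn.sum fun j _ => (hf j).mul (RD_conj_smooth (hf j))

theorem RD_alpha_cont (𝓕 : Foliation) : Continuous (fun x : V => nsq (𝓕.alpha x)) := by
  unfold nsq
  exact continuous_finsetSum _ fun j _ => Complex.continuous_normSq.comp (RD_alpha_smooth 𝓕 j).continuous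

theorem RD_nsq_cont : Continuous (fun x : V => nsq x) := by
  unfold nsq
  exact continuous_finsetSum _ fun j _ => Complex.continuous_normSq.comp (continuous_apply j)

theorem RD_div {f g : V → ℂ} {s : Set V} (hf : ContDiffOn ℝ ∞ f s) (hg : ContDiffOn ℝ ∞ g s)
    (h : ∀ x ∈ s, g x ≠ 0) : ContDiffOn ℝ ∞ (fun x => f x / g x) s := by
  simp_rw [div_eq_mul_inv]
  exact hf.mul (hg.inv h)

/-- The regular set. -/
def RD_U (𝓕 : Foliation) : Set V := {x | x ≠ 0 ∧ nsq (𝓕.alpha x) ≠ 0}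

theorem RD_U_open (𝓕 : Foliation) : IsOpen (RD_U 𝓕) := by
  unfold RD_U
  exact (isOpen_ne).inter ((RD_alpha_cont 𝓕).isOpen_preimage _ isOpen_ne)

theorem RD_cut (𝓕 : Foliation) (χ : V → ℝ) (hχ : IsFun (fun x => (χ x : ℂ))) (δ : ℝ) (hδ : 0 < δ)
    (hsupp : ∀ x : V, x ≠ 0 → nsq (𝓕.alpha x) ≤ δ * nsq x ^ (𝓕.deg + 1) → χ x = 0)
    (f : V → ℂ) (hf : ContDiffOn ℝ ∞ f (RD_U 𝓕)) :
    ContDiffOn ℝ ∞ (fun x => (χ x : ℂ) * f x) {0}ᶜ := by
  intro x hx
  apply ContDiffAt.contDiffWithinAt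
  have hx0 : x ≠ 0 := hx
  by_cases h : nsq (𝓕.alpha x) = 0
  · have hO : {y : V | y ≠ 0 ∧ nsq (𝓕.alpha y) < δ * nsq y ^ (𝓕.deg + 1)} ∈ nhds x := by
      apply IsOpen.mem_nhds
      · exact (isOpen_ne).inter (isOpen_lt (RD_alpha_cont 𝓕)
          (continuous_const.mul (RD_nsq_cont.pow _)))
      · refine ⟨hx0, ?_⟩
        rw [h]
        have := nsq_pos hx0
        positivity
    have he : (fun y => (χ y : ℂ) * f y) =ᶠ[nhds x] fun _ => 0 := by
      filter_upwards [hO] with y hy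
      rw [hsupp y hy.1 hy.2.le]
      simp
    exact (contDiffAt_const (c := (0 : ℂ))).congr_of_eventuallyEq he
  · have hU : x ∈ RD_U 𝓕 := ⟨hx0, h⟩
    have h1 : ContDiffAt ℝ ∞ f x := hf.contDiffAt ((RD_U_open 𝓕).mem_nhds hU)
    have h2 : ContDiffAt ℝ ∞ (fun x => (χ x : ℂ)) x :=
      hχ.smooth.contDiffAt (isOpen_compl_singleton.mem_nhds hx0)
    exact h2.mul h1

/-- `A(F,F)` -/
noncomputable def RD_AFF (𝓕 : Foliation) (A : V → Matrix (Fin 3) (Fin 3) ℂ) (x : V) : ℂ :=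
  ∑ j, ∑ k, A x j k * 𝓕.vec x j * conj (𝓕.vec x k)

/-- the coefficients `c_k` -/
noncomputable def RD_c (𝓕 : Foliation) (A : V → Matrix (Fin 3) (Fin 3) ℂ) (x : V) (k : Fin 3) : ℂ :=
  (∑ i, conj (𝓕.alpha x i) * A x i k) / (nsq (𝓕.alpha x) : ℂ)
    - RD_AFF 𝓕 A x * (nsq x : ℂ) / (nsq (𝓕.alpha x) : ℂ) ^ 2 * conj (𝓕.alpha x k)

/-- the coefficients `c'_j` -/
noncomputable def RD_d (𝓕 : Foliation) (A : V → Matrix (Fin 3) (Fin 3) ℂ) (x : V) (j : Fin 3) : ℂ :=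
  (∑ i, A x j i * 𝓕.alpha x i) / (nsq (𝓕.alpha x) : ℂ)
    - (∑ i, ∑ l, conj (𝓕.alpha x i) * A x i l * 𝓕.alpha x l) / (nsq (𝓕.alpha x) : ℂ) ^ 2 *
      𝓕.alpha x j

section smooth

variable (𝓕 : Foliation) (A : Form11)

theorem RD_A_smooth (j k : Fin 3) : ContDiffOn ℝ ∞ (fun x => A.1 x j k) (RD_U 𝓕) :=
  (A.2.1 j k).mono fun _ hx => hx.1

theorem RD_ne {x : V} (hx : x ∈ RD_U 𝓕) : (nsq (𝓕.alpha x) : ℂ) ≠ 0 := by
  exact_mod_cast hx.2

theorem RD_e_smooth : ContDiffOn ℝ ∞ (fun x => (nsq (𝓕.alpha x) : ℂ)) (RD_U 𝓕) :=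
  RD_nsq_smooth fun j => (RD_alpha_smooth 𝓕 j).contDiffOn

theorem RD_N_smooth : ContDiffOn ℝ ∞ (fun x : V => (nsq x : ℂ)) (RD_U 𝓕) :=
  RD_nsq_smooth (f := fun x => x) fun j => (contDiff_apply ℝ ℂ j).contDiffOn

theorem RD_AFF_smooth : ContDiffOn ℝ ∞ (RD_AFF 𝓕 A.1) (RD_U 𝓕) := by
  unfold RD_AFF
  exact ContDiffOn.sum fun j _ => ContDiffOn.sum fun k _ =>
    ((RD_A_smooth 𝓕 A j k).mul (RD_vec_smooth 𝓕 j).contDiffOn).mul
      (RD_conj_smooth (RD_vec_smooth 𝓕 k).contDiffOn)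

theorem RD_dens_smooth : ContDiffOn ℝ ∞ (fun x => 𝓕.dens A.1 x) (RD_U 𝓕) := by
  unfold Foliation.dens
  exact RD_div (RD_AFF_smooth 𝓕 A) (RD_e_smooth 𝓕) fun x hx => RD_ne 𝓕 hx

theorem RD_c_smooth (k : Fin 3) : ContDiffOn ℝ ∞ (fun x => RD_c 𝓕 A.1 x k) (RD_U 𝓕) := by
  unfold RD_c
  have ha : ∀ i, ContDiffOn ℝ ∞ (fun x : V => conj (𝓕.alpha x i)) (RD_U 𝓕) := fun i =>
    RD_conj_smooth (RD_alpha_smooth 𝓕 i).contDiffOn
  refine (RD_div (ContDiffOn.sum fun i _ => (ha i).mul (RD_A_smooth 𝓕 A i k)) (RD_e_smooth 𝓕)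
    fun x hx => RD_ne 𝓕 hx).sub ?_
  exact (RD_div ((RD_AFF_smooth 𝓕 A).mul (RD_N_smooth 𝓕)) ((RD_e_smooth 𝓕).pow 2)
    fun x hx => pow_ne_zero 2 (RD_ne 𝓕 hx)).mul (ha k)

theorem RD_d_smooth (j : Fin 3) : ContDiffOn ℝ ∞ (fun x => RD_d 𝓕 A.1 x j) (RD_U 𝓕) := by
  unfold RD_d
  have ha : ∀ i, ContDiffOn ℝ ∞ (fun x : V => conj (𝓕.alpha x i)) (RD_U 𝓕) := fun i =>
    RD_conj_smooth (RD_alpha_smooth 𝓕 i).contDiffOn
  have hb : ∀ i, ContDiffOn ℝ ∞ (fun x : V => 𝓕.alpha x i) (RD_U 𝓕) := fun i =>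
    (RD_alpha_smooth 𝓕 i).contDiffOn
  refine (RD_div (ContDiffOn.sum fun i _ => (RD_A_smooth 𝓕 A j i).mul (hb i)) (RD_e_smooth 𝓕)
    fun x hx => RD_ne 𝓕 hx).sub ?_
  exact (RD_div (ContDiffOn.sum fun i _ => ContDiffOn.sum fun l _ =>
    ((ha i).mul (RD_A_smooth 𝓕 A i l)).mul (hb l)) ((RD_e_smooth 𝓕).pow 2)
    fun x hx => pow_ne_zero 2 (RD_ne 𝓕 hx)).mul (hb j)

/-! ### homogeneity -/

theorem RD_vec_hom (c : ℂ) (x : V) (j : Fin 3) : 𝓕.vec (c • x) j = c ^ 𝓕.deg * 𝓕.vec x j := by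
  rw [vec_smul]; rfl

theorem RD_alpha_hom (c : ℂ) (x : V) (j : Fin 3) :
    𝓕.alpha (c • x) j = c ^ (𝓕.deg + 1) * 𝓕.alpha x j := by
  rw [alpha_smul]; rfl

theorem RD_e_hom (c : ℂ) (x : V) : (nsq (𝓕.alpha (c • x)) : ℂ)
    = (c * conj c) ^ (𝓕.deg + 1) * (nsq (𝓕.alpha x) : ℂ) := by
  rw [alpha_smul, nsq_smul]
  push_cast
  rw [← Complex.mul_conj, map_pow, mul_pow]

theorem RD_N_hom (c : ℂ) (x : V) : (nsq (c • x) : ℂ) = (c * conj c) * (nsq x : ℂ) := by
  rw [nsq_smul]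
  push_cast
  rw [← Complex.mul_conj]

theorem RD_A_hom (c : ℂ) (x : V) (hc : c ≠ 0) (hx : x ≠ 0) (j k : Fin 3) :
    A.1 (c • x) j k = (c * conj c)⁻¹ * A.1 x j k := by
  rw [A.2.2.2.1 c x hc hx, ← Complex.mul_conj]; rfl

theorem RD_AFF_hom (c : ℂ) (x : V) (hc : c ≠ 0) (hx : x ≠ 0) :
    RD_AFF 𝓕 A.1 (c • x) = (c * conj c)⁻¹ * (c * conj c) ^ 𝓕.deg * RD_AFF 𝓕 A.1 x := by
  unfold RD_AFF
  rw [Finset.mul_sum]
  refine Finset.sum_congr rfl fun j _ => ?_
  rw [Finset.mul_sum]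
  refine Finset.sum_congr rfl fun k _ => ?_
  rw [RD_A_hom A c x hc hx, RD_vec_hom, RD_vec_hom, map_mul, map_pow, mul_pow]
  ring

theorem RD_dens_hom (c : ℂ) (x : V) (hc : c ≠ 0) (hx : x ≠ 0) :
    (nsq (c • x) : ℂ) ^ 2 * 𝓕.dens A.1 (c • x) = (nsq x : ℂ) ^ 2 * 𝓕.dens A.1 x := by
  have hc' : conj c ≠ 0 := by simpa using hc
  have h1 : 𝓕.dens A.1 (c • x) = RD_AFF 𝓕 A.1 (c • x) / (nsq (𝓕.alpha (c • x)) : ℂ) := rfl
  have h2 : 𝓕.dens A.1 x = RD_AFF 𝓕 A.1 x / (nsq (𝓕.alpha x) : ℂ) := rfl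
  rw [h1, h2, RD_AFF_hom 𝓕 A c x hc hx, RD_e_hom, RD_N_hom, pow_succ (c * conj c) 𝓕.deg]
  by_cases he : (nsq (𝓕.alpha x) : ℂ) = 0
  · rw [he]; simp
  · field_simp

theorem RD_c_hom (c : ℂ) (x : V) (hc : c ≠ 0) (hx : x ≠ 0) (k : Fin 3) :
    c ^ (𝓕.deg + 1) * RD_c 𝓕 A.1 (c • x) k = (c * conj c)⁻¹ * RD_c 𝓕 A.1 x k := by
  have hc' : conj c ≠ 0 := by simpa using hc
  unfold RD_c
  have h1 : ∑ i, conj (𝓕.alpha (c • x) i) * A.1 (c • x) i k
      = (conj c) ^ (𝓕.deg + 1) * (c * conj c)⁻¹ * ∑ i, conj (𝓕.alpha x i) * A.1 x i k := by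
    rw [Finset.mul_sum]
    refine Finset.sum_congr rfl fun i _ => ?_
    rw [RD_A_hom A c x hc hx, RD_alpha_hom, map_mul, map_pow]
    ring
  rw [h1, RD_AFF_hom 𝓕 A c x hc hx, RD_e_hom, RD_N_hom, RD_alpha_hom, map_mul, map_pow,
    mul_pow c (conj c) (𝓕.deg + 1), mul_pow c (conj c) 𝓕.deg]
  by_cases he : (nsq (𝓕.alpha x) : ℂ) = 0
  · rw [he]; simp
  · field_simp
    ring

theorem RD_d_hom (c : ℂ) (x : V) (hc : c ≠ 0) (hx : x ≠ 0) (j : Fin 3) :
    (conj c) ^ (𝓕.deg + 1) * RD_d 𝓕 A.1 (c • x) j = (c * conj c)⁻¹ * RD_d 𝓕 A.1 x j := by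
  have hc' : conj c ≠ 0 := by simpa using hc
  unfold RD_d
  have h1 : ∑ i, A.1 (c • x) j i * 𝓕.alpha (c • x) i
      = c ^ (𝓕.deg + 1) * (c * conj c)⁻¹ * ∑ i, A.1 x j i * 𝓕.alpha x i := by
    rw [Finset.mul_sum]
    refine Finset.sum_congr rfl fun i _ => ?_
    rw [RD_A_hom A c x hc hx, RD_alpha_hom]
    ring
  have h2 : ∑ i, ∑ l, conj (𝓕.alpha (c • x) i) * A.1 (c • x) i l * 𝓕.alpha (c • x) l
      = (c * conj c) ^ (𝓕.deg + 1) * (c * conj c)⁻¹ *
        ∑ i, ∑ l, conj (𝓕.alpha x i) * A.1 x i l * 𝓕.alpha x l := by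
    rw [Finset.mul_sum]
    refine Finset.sum_congr rfl fun i _ => ?_
    rw [Finset.mul_sum]
    refine Finset.sum_congr rfl fun l _ => ?_
    rw [RD_A_hom A c x hc hx, RD_alpha_hom, RD_alpha_hom, map_mul, map_pow, mul_pow]
    ring
  rw [h1, h2, RD_e_hom, RD_alpha_hom, mul_pow c (conj c) (𝓕.deg + 1)]
  by_cases he : (nsq (𝓕.alpha x) : ℂ) = 0
  · rw [he]; simp
  · field_simp

/-! ### basic -/

theorem RD_c_basic (x : V) (hx : x ≠ 0) : ∑ k, RD_c 𝓕 A.1 x k * conj (x k) = 0 := by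
  unfold RD_c
  have h1 : ∑ k, (∑ i, conj (𝓕.alpha x i) * A.1 x i k) * conj (x k) = 0 := by
    simp_rw [Finset.sum_mul]
    rw [Finset.sum_comm]
    refine Finset.sum_eq_zero fun i _ => ?_
    have := (A.2.2.2.2 x hx).2 i
    calc ∑ k, conj (𝓕.alpha x i) * A.1 x i k * conj (x k)
        = conj (𝓕.alpha x i) * ∑ k, A.1 x i k * conj (x k) := by
          rw [Finset.mul_sum]
          exact Finset.sum_congr rfl fun k _ => by ring
      _ = 0 := by rw [this, mul_zero]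
  have h2 : ∑ k, conj (𝓕.alpha x k) * conj (x k) = 0 := by
    have := congrArg conj (sum_mul_alpha 𝓕 x)
    rw [map_sum, map_zero] at this
    rw [← this]
    refine Finset.sum_congr rfl fun k _ => ?_
    rw [map_mul]
    ring
  calc _ = (∑ k, (∑ i, conj (𝓕.alpha x i) * A.1 x i k) * conj (x k)) / (nsq (𝓕.alpha x) : ℂ)
        - RD_AFF 𝓕 A.1 x * (nsq x : ℂ) / (nsq (𝓕.alpha x) : ℂ) ^ 2 *
          ∑ k, conj (𝓕.alpha x k) * conj (x k) := by
        rw [Finset.sum_div, Finset.mul_sum, ← Finset.sum_sub_distrib]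
        exact Finset.sum_congr rfl fun k _ => by ring
    _ = 0 := by rw [h1, h2]; simp

theorem RD_d_basic (x : V) (hx : x ≠ 0) : ∑ j, x j * RD_d 𝓕 A.1 x j = 0 := by
  unfold RD_d
  have h1 : ∑ j, x j * (∑ i, A.1 x j i * 𝓕.alpha x i) = 0 := by
    simp_rw [Finset.mul_sum]
    rw [Finset.sum_comm]
    refine Finset.sum_eq_zero fun i _ => ?_
    have := (A.2.2.2.2 x hx).1 i
    calc ∑ j, x j * (A.1 x j i * 𝓕.alpha x i)
        = (∑ j, x j * A.1 x j i) * 𝓕.alpha x i := by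
          rw [Finset.sum_mul]
          exact Finset.sum_congr rfl fun k _ => by ring
      _ = 0 := by rw [this, zero_mul]
  generalize (∑ i, ∑ l, conj (𝓕.alpha x i) * A.1 x i l * 𝓕.alpha x l) = S
  calc _ = (∑ j, x j * (∑ i, A.1 x j i * 𝓕.alpha x i)) / (nsq (𝓕.alpha x) : ℂ)
        - S / (nsq (𝓕.alpha x) : ℂ) ^ 2 * ∑ j, x j * 𝓕.alpha x j := by
        rw [Finset.sum_div, Finset.mul_sum, ← Finset.sum_sub_distrib]
        exact Finset.sum_congr rfl fun k _ => by ring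
    _ = 0 := by rw [h1, sum_mul_alpha]; simp

end smooth

theorem directed_reduce (𝓕 : Foliation) (T : PosCurrent) (hT : T.Directed 𝓕) (A : Form11)
    (χ : V → ℝ) (hχ : IsFun (fun x => (χ x : ℂ))) (δ : ℝ) (hδ : 0 < δ)
    (hsupp : ∀ x : V, x ≠ 0 → nsq (𝓕.alpha x) ≤ δ * nsq x ^ (𝓕.deg + 1) → χ x = 0)
    (u : V → ℂ) (hu : ∀ x : V, x ≠ 0 → u x = (χ x : ℂ) * (nsq x : ℂ) ^ 2 * 𝓕.dens A.1 x) :
    IsFun u ∧ ∀ B D : Form11, (∀ x : V, x ≠ 0 → B.1 x = (χ x : ℂ) • A.1 x) →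
      (∀ x : V, x ≠ 0 → D.1 x = u x • fubiniStudy x) → T.toLin B = T.toLin D := by
  have hχ0 : ∀ x : V, x ≠ 0 → nsq (𝓕.alpha x) = 0 → χ x = 0 := by
    intro x hx h
    apply hsupp x hx
    rw [h]
    have := nsq_pos hx
    positivity
  constructor
  · constructor
    · have h1 := RD_cut 𝓕 χ hχ δ hδ hsupp (fun x => (nsq x : ℂ) ^ 2 * 𝓕.dens A.1 x)
        (((RD_N_smooth 𝓕).pow 2).mul (RD_dens_smooth 𝓕 A))
      refine h1.congr fun x hx => ?_
      rw [hu x hx]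
      ring
    · intro c x hc hx
      have hcx : c • x ≠ 0 := smul_ne_zero hc hx
      have h2 : (χ (c • x) : ℂ) = χ x := hχ.hom c x hc hx
      rw [hu x hx, hu _ hcx, h2, mul_assoc, mul_assoc, RD_dens_hom 𝓕 A c x hc hx]
  · intro B D hB hD
    classical
    -- the form `G1`
    let cc : V → V := fun x k => (χ x : ℂ) * RD_c 𝓕 A.1 x k
    let dd : V → V := fun x j => (χ x : ℂ) * RD_d 𝓕 A.1 x j
    have hcc : ∀ k, ContDiffOn ℝ ∞ (fun x => cc x k) {0}ᶜ := fun k =>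
      RD_cut 𝓕 χ hχ δ hδ hsupp _ (RD_c_smooth 𝓕 A k)
    have hdd : ∀ k, ContDiffOn ℝ ∞ (fun x => dd x k) {0}ᶜ := fun k =>
      RD_cut 𝓕 χ hχ δ hδ hsupp _ (RD_d_smooth 𝓕 A k)
    have hα : ∀ j, ContDiffOn ℝ ∞ (fun x => 𝓕.alpha x j) ({0}ᶜ : Set V) := fun j =>
      (RD_alpha_smooth 𝓕 j).contDiffOn
    have hG1 : (fun x => if x = 0 then 0 else Matrix.vecMulVec (𝓕.alpha x) (cc x)) ∈ Form11 := by
      refine ⟨fun j k => ?_, by simp, fun c x hc hx => ?_, fun x hx => ⟨fun k => ?_, fun j => ?_⟩⟩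
      · refine ((hα j).mul (hcc k)).congr fun x hx => ?_
        have hx0 : x ≠ 0 := hx
        simp only [if_neg hx0, Matrix.vecMulVec_apply]
      · have hcx : c • x ≠ 0 := smul_ne_zero hc hx
        simp only [if_neg hcx, if_neg hx]
        ext j k
        have h2 : (χ (c • x) : ℂ) = χ x := hχ.hom c x hc hx
        simp only [Matrix.vecMulVec_apply, Matrix.smul_apply, smul_eq_mul, cc]
        rw [h2, RD_alpha_hom, ← Complex.mul_conj]
        have h3 := RD_c_hom 𝓕 A c x hc hx k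
        linear_combination (𝓕.alpha x j * (χ x : ℂ)) * h3
      · simp only [if_neg hx, Matrix.vecMulVec_apply]
        calc ∑ j, x j * (𝓕.alpha x j * cc x k) = (∑ j, x j * 𝓕.alpha x j) * cc x k := by
              rw [Finset.sum_mul]
              exact Finset.sum_congr rfl fun j _ => by ring
          _ = 0 := by rw [sum_mul_alpha, zero_mul]
      · simp only [if_neg hx, Matrix.vecMulVec_apply, cc]
        calc ∑ k, 𝓕.alpha x j * ((χ x : ℂ) * RD_c 𝓕 A.1 x k) * conj (x k)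
            = 𝓕.alpha x j * (χ x : ℂ) * ∑ k, RD_c 𝓕 A.1 x k * conj (x k) := by
              rw [Finset.mul_sum]
              exact Finset.sum_congr rfl fun j _ => by ring
          _ = 0 := by rw [RD_c_basic 𝓕 A x hx, mul_zero]
    have hG2 : (fun x => if x = 0 then 0 else
        Matrix.vecMulVec (dd x) (fun k => conj (𝓕.alpha x k))) ∈ Form11 := by
      refine ⟨fun j k => ?_, by simp, fun c x hc hx => ?_, fun x hx => ⟨fun k => ?_, fun j => ?_⟩⟩
      · refine ((hdd j).mul (RD_conj_smooth (hα k))).congr fun x hx => ?_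
        have hx0 : x ≠ 0 := hx
        simp only [if_neg hx0, Matrix.vecMulVec_apply]
      · have hcx : c • x ≠ 0 := smul_ne_zero hc hx
        simp only [if_neg hcx, if_neg hx]
        ext j k
        have h2 : (χ (c • x) : ℂ) = χ x := hχ.hom c x hc hx
        simp only [Matrix.vecMulVec_apply, Matrix.smul_apply, smul_eq_mul, dd]
        rw [h2, RD_alpha_hom, ← Complex.mul_conj, map_mul, map_pow]
        have h3 := RD_d_hom 𝓕 A c x hc hx j
        linear_combination (conj (𝓕.alpha x k) * (χ x : ℂ)) * h3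
      · simp only [if_neg hx, Matrix.vecMulVec_apply, dd]
        calc ∑ j, x j * ((χ x : ℂ) * RD_d 𝓕 A.1 x j * conj (𝓕.alpha x k))
            = (χ x : ℂ) * conj (𝓕.alpha x k) * ∑ j, x j * RD_d 𝓕 A.1 x j := by
              rw [Finset.mul_sum]
              exact Finset.sum_congr rfl fun j _ => by ring
          _ = 0 := by rw [RD_d_basic 𝓕 A x hx, mul_zero]
      · simp only [if_neg hx, Matrix.vecMulVec_apply]
        have h2 : ∑ k, conj (𝓕.alpha x k) * conj (x k) = 0 := by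
          have := congrArg conj (sum_mul_alpha 𝓕 x)
          rw [map_sum, map_zero] at this
          rw [← this]
          refine Finset.sum_congr rfl fun k _ => ?_
          rw [map_mul]
          ring
        calc ∑ k, dd x j * conj (𝓕.alpha x k) * conj (x k)
            = dd x j * ∑ k, conj (𝓕.alpha x k) * conj (x k) := by
              rw [Finset.mul_sum]
              exact Finset.sum_congr rfl fun j _ => by ring
          _ = 0 := by rw [h2, mul_zero]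
    let G1 : Form11 := ⟨_, hG1⟩
    let G2 : Form11 := ⟨_, hG2⟩
    have hcc' : ContDiffOn ℝ ∞ cc {0}ᶜ := contDiffOn_pi.2 hcc
    have hdd' : ContDiffOn ℝ ∞ (fun x k => conj (dd x k)) ({0}ᶜ : Set V) :=
      contDiffOn_pi.2 fun k => RD_conj_smooth (hdd k)
    have t1 : T.toLin G1 = 0 := by
      refine hT cc G1 hcc' fun x hx => ?_
      change (if x = 0 then (0 : Matrix (Fin 3) (Fin 3) ℂ) else _) = _
      rw [if_neg hx]
    have t2 : T.toLin G2 = 0 := by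
      obtain ⟨G2', hG2'⟩ := exists_adj G2
      have h1 : T.toLin G2' = 0 := by
        refine hT _ G2' hdd' fun x hx => ?_
        rw [hG2' x]
        change (if x = 0 then (0 : Matrix (Fin 3) (Fin 3) ℂ) else _).conjTranspose = _
        rw [if_neg hx]
        ext j k
        simp only [Matrix.conjTranspose_apply, Matrix.vecMulVec_apply, star_mul']
        simp [mul_comm]
      have h2 := toLin_adj T G2 G2' hG2'
      rw [h1] at h2
      have h3 := congrArg conj h2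
      rw [map_zero, Complex.conj_conj] at h3
      exact h3.symm
    have hdec : B = D + G1 + G2 := by
      apply Form11.ext_off
      intro x hx
      change B.1 x = D.1 x + (if x = 0 then (0 : Matrix (Fin 3) (Fin 3) ℂ) else _)
        + (if x = 0 then (0 : Matrix (Fin 3) (Fin 3) ℂ) else _)
      rw [if_neg hx, if_neg hx, hB x hx, hD x hx, hu x hx]
      ext j k
      simp only [Matrix.add_apply, Matrix.smul_apply, Matrix.vecMulVec_apply, smul_eq_mul, cc, dd]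
      by_cases he : nsq (𝓕.alpha x) = 0
      · rw [hχ0 x hx he]
        simp
      · have hη : 𝓕.alpha x ≠ 0 := fun h => he (nsq_eq_zero.2 h)
        have h3 : nsq (𝓕.alpha x) = nsq x * nsq (𝓕.vec x)
            - Complex.normSq (herm (𝓕.vec x) x) := nsq_cross x (𝓕.vec x)
        have key := form_decomp x (𝓕.alpha x) (𝓕.vec x) (A.1 x) hx hη (sum_mul_alpha 𝓕 x)
          (sum_vec_mul_alpha 𝓕 x) h3 (A.2.2.2.2 x hx).1 (A.2.2.2.2 x hx).2 j k
        have e1 : 𝓕.dens A.1 x = (∑ j, ∑ k, A.1 x j k * 𝓕.vec x j * conj (𝓕.vec x k))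
          / (nsq (𝓕.alpha x) : ℂ) := rfl
        have e2 : RD_c 𝓕 A.1 x k = (∑ i, conj (𝓕.alpha x i) * A.1 x i k) / (nsq (𝓕.alpha x) : ℂ)
          - (∑ j, ∑ k, A.1 x j k * 𝓕.vec x j * conj (𝓕.vec x k)) * (nsq x : ℂ) /
            (nsq (𝓕.alpha x) : ℂ) ^ 2 * conj (𝓕.alpha x k) := rfl
        have e3 : RD_d 𝓕 A.1 x j = (∑ i, A.1 x j i * 𝓕.alpha x i) / (nsq (𝓕.alpha x) : ℂ)
          - (∑ i, ∑ l, conj (𝓕.alpha x i) * A.1 x i l * 𝓕.alpha x l) /
            (nsq (𝓕.alpha x) : ℂ) ^ 2 * 𝓕.alpha x j := rfl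
        rw [e1, e2, e3]
        linear_combination (χ x : ℂ) * key
    rw [hdec, map_add, map_add, t1, t2, add_zero, add_zero]

end Pool.Agent.H24.CU

end S_H24_CU_RD

section S_H24_CU_RF

/-!
# Row RF (representation theorem)

PROOF.  `μ` from `riesz`; `curve` and `sing` from `curve_null`, `sing_null`.
`pair`: fix `A`, and `δ_n = 1/(n+1)`, `χ_n` from `exists_cutoff`.  Let `B_n = χ_n A` (`exists_mul`),
`B'_n = (1 - χ_n) A`, `D'_n = (1 - χ_n) W`.  `T A = T B_n + T B'_n` (`Form11.ext_off`, linearity).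
`‖T B'_n‖ <= C (T D'_n).re = C ∫ (1 - χ_n) dμ` (`exists_bound`, `IsRiesz`) and `1 - χ_n -> indicator of
{α = 0}` on the sphere, dominated convergence: the limit is `C μ {α = 0} = 0`.
`T B_n = T D_n`, `D_n x = u_n x • W`, `u_n = χ_n N^2 dens` (`directed_reduce`); the real and imaginary
parts of `u_n` are `IsFun`, so by `IsRiesz` (applied to `re` and `im`, linearity of `T`)
`T D_n = ∫ u_n dμ = ∫ χ_n dens A.1 dμ` (`nsq = 1` on the sphere), which tends to `∫ dens A.1 dμ`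
(`dens_bound`, dominated convergence, `μ {α = 0} = 0`).
`rep_mass`: apply `pair` to `A = W` (`exists_scaled` with `u = 1`): for `nsq y = 1` and `α y ≠ 0`,
`dens W y = ((nsq F nsq y - |herm F y|^2)/1)/nsq α = 1` (`fubiniStudy_quad`, `nsq_cross`).
`ne_zero`: if `T.toLin ≠ 0` then `μ univ ≠ 0` (otherwise all integrals vanish).
-/

namespace Pool.Agent.H24.CU

open MeasureTheory
open scoped ComplexConjugate ComplexOrder ContDiff

theorem RF_meas {f : V → ℂ} (h : ContDiffOn ℝ ∞ f {0}ᶜ) : Measurable f :=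
  measurable_of_continuousOn_compl_singleton 0 h.continuousOn

theorem RF_isFun_sub {χ : V → ℝ} (h : IsFun (fun x => (χ x : ℂ))) :
    IsFun (fun x => ((1 - χ x : ℝ) : ℂ)) := by
  refine ⟨?_, ?_⟩
  · have := (contDiffOn_const (c := (1 : ℂ))).sub h.smooth
    refine this.congr ?_
    intro x hx
    push_cast
    rfl
  · intro c x hc hx
    have := h.hom c x hc hx
    push_cast
    rw [this]

theorem RF_isFun_re {u : V → ℂ} (h : IsFun u) : IsFun (fun x => (((u x).re : ℝ) : ℂ)) := by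
  refine ⟨?_, ?_⟩
  · exact Complex.ofRealCLM.contDiff.comp_contDiffOn (Complex.reCLM.contDiff.comp_contDiffOn h.smooth)
  · intro c x hc hx
    rw [h.hom c x hc hx]

theorem RF_isFun_im {u : V → ℂ} (h : IsFun u) : IsFun (fun x => (((u x).im : ℝ) : ℂ)) := by
  refine ⟨?_, ?_⟩
  · exact Complex.ofRealCLM.contDiff.comp_contDiffOn (Complex.imCLM.contDiff.comp_contDiffOn h.smooth)
  · intro c x hc hx
    rw [h.hom c x hc hx]

theorem RF_complex (T : PosCurrent) (μ : Measure V) (hR : IsRiesz T μ) (u : V → ℂ) (hu : IsFun u)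
    (hi : Integrable u μ) (D : Form11) (hD : ∀ x : V, x ≠ 0 → D.1 x = u x • fubiniStudy x) :
    T.toLin D = ∫ x, u x ∂μ := by
  obtain ⟨D1, h1⟩ := exists_scaled _ (RF_isFun_re hu)
  obtain ⟨D2, h2⟩ := exists_scaled _ (RF_isFun_im hu)
  have e1 := hR (fun x => (u x).re) D1 (RF_isFun_re hu) h1
  have e2 := hR (fun x => (u x).im) D2 (RF_isFun_im hu) h2
  have hDD : D = D1 + Complex.I • D2 := by
    apply Form11.ext_off
    intro x hx
    have : (D1 + Complex.I • D2).1 x = D1.1 x + Complex.I • D2.1 x := rfl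
    rw [this, hD x hx, h1 x hx, h2 x hx, smul_smul, ← add_smul]
    congr 1
    conv_lhs => rw [← Complex.re_add_im (u x)]
    ring
  rw [hDD, map_add, map_smul, e1, e2, smul_eq_mul]
  have := integral_re_add_im (𝕜 := ℂ) hi
  rw [← this]
  simp only [RCLike.re_to_complex, RCLike.im_to_complex, RCLike.I_to_complex,
    Complex.coe_algebraMap, mul_comm]

theorem exists_rep (𝓕 : Foliation) (T : PosCurrent) (hT : T.Directed 𝓕) (hd : T.Diffuse) :
    ∃ μ : Measure V, Rep 𝓕 T μ := by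
  obtain ⟨μ, hfin, hsph, hR⟩ := riesz T
  have hsing := sing_null 𝓕 T hd μ hsph hR
  refine ⟨μ, hfin, hsph, hsing, fun n P hP hP0 => curve_null T hd μ hsph hR n P hP hP0, ?_⟩
  intro A
  obtain ⟨C, hC0, hC⟩ := dens_bound 𝓕 A
  obtain ⟨C', hC'0, hC'⟩ := exists_bound A
  have hδ : ∀ n : ℕ, (0 : ℝ) < 1 / ((n : ℝ) + 1) := fun n => Nat.one_div_pos_of_nat
  choose χ hχf hχ0 hχ1 hχs hχt using fun n : ℕ => exists_cutoff 𝓕 (1 / ((n : ℝ) + 1)) (hδ n)
  choose B hB using fun n : ℕ => exists_mul A _ (hχf n)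
  choose B' hB' using fun n : ℕ => exists_mul A _ (RF_isFun_sub (hχf n))
  choose D' hD' using fun n : ℕ => exists_scaled _ (RF_isFun_sub (hχf n))
  -- the sum
  have hsum : ∀ n, T.toLin A = T.toLin (B n) + T.toLin (B' n) := by
    intro n
    rw [← map_add]
    congr 1
    apply Form11.ext_off
    intro x hx
    have : (B n + B' n).1 x = (B n).1 x + (B' n).1 x := rfl
    rw [this, hB n x hx, hB' n x hx, ← add_smul]
    push_cast
    rw [add_sub_cancel, one_smul]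
  -- almost everywhere facts
  have hae1 : ∀ᵐ y ∂μ, nsq y = 1 := by
    rw [ae_iff]
    exact hsph
  have hae2 : ∀ᵐ y ∂μ, 𝓕.alpha y ≠ 0 := by
    rw [ae_iff]
    simpa using hsing
  have hev : ∀ y : V, nsq y = 1 → 𝓕.alpha y ≠ 0 → ∀ᶠ n : ℕ in Filter.atTop, χ n y = 1 := by
    intro y hy hα
    have hy0 : y ≠ 0 := by
      rintro rfl
      rw [nsq_eq_zero.2 rfl] at hy
      exact zero_ne_one hy
    have hp : 0 < nsq (𝓕.alpha y) := nsq_pos hα
    have ht : Filter.Tendsto (fun n : ℕ => 2 * (1 / ((n : ℝ) + 1))) Filter.atTop (nhds 0) := by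
      have := (tendsto_one_div_add_atTop_nhds_zero_nat (𝕜 := ℝ)).const_mul 2
      rwa [mul_zero] at this
    filter_upwards [ht.eventually (gt_mem_nhds hp)] with n hn
    refine hχt n y hy0 ?_
    rw [hy, one_pow, mul_one]
    exact hn.le
  have hmχ : ∀ n, Measurable (fun x => (1 - χ n x : ℝ)) := by
    intro n
    have h1 := RF_meas (RF_isFun_sub (hχf n)).smooth
    have h2 := Complex.measurable_re.comp h1
    exact h2
  -- first limit
  have hlim1 : Filter.Tendsto (fun n => ∫ x, (1 - χ n x : ℝ) ∂μ) Filter.atTop (nhds 0) := by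
    have := tendsto_integral_of_dominated_convergence (μ := μ)
      (F := fun n x => (1 - χ n x : ℝ)) (f := fun _ => (0 : ℝ)) (fun _ => (1 : ℝ))
      (fun n => (hmχ n).aestronglyMeasurable) (integrable_const _)
      (fun n => Filter.Eventually.of_forall fun x => by
        rw [Real.norm_eq_abs, abs_le]
        have a := hχ0 n x
        have b := hχ1 n x
        constructor <;> linarith)
      (by
        filter_upwards [hae1, hae2] with y h1 h2
        refine tendsto_const_nhds.congr' ?_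
        filter_upwards [hev y h1 h2] with n hn
        rw [hn, sub_self])
    simpa using this
  have hlimB' : Filter.Tendsto (fun n => T.toLin (B' n)) Filter.atTop (nhds 0) := by
    have h1 : ∀ n, ‖T.toLin (B' n)‖ ≤ C' * ∫ x, (1 - χ n x : ℝ) ∂μ := by
      intro n
      have h2 := hC' T (fun x => 1 - χ n x) (B' n) (D' n) (RF_isFun_sub (hχf n))
        (fun x => by have := hχ1 n x; linarith) (hB' n) (hD' n)
      have h3 := hR (fun x => 1 - χ n x) (D' n) (RF_isFun_sub (hχf n)) (hD' n)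
      rw [h3, Complex.ofReal_re] at h2
      exact h2
    refine squeeze_zero_norm h1 ?_
    have := hlim1.const_mul C'
    rwa [mul_zero] at this
  -- second limit
  have hmd := measurable_dens 𝓕 A
  have hred := fun n : ℕ => directed_reduce 𝓕 T hT A (χ n) (hχf n) (1 / ((n : ℝ) + 1)) (hδ n)
    (hχs n) (fun x => (χ n x : ℂ) * (nsq x : ℂ) ^ 2 * 𝓕.dens A.1 x) (fun x _ => rfl)
  choose D hD using fun n : ℕ => exists_scaled _ (hred n).1
  have hbd : ∀ n, ∀ᵐ x ∂μ, ‖(χ n x : ℂ) * (nsq x : ℂ) ^ 2 * 𝓕.dens A.1 x‖ ≤ C := by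
    intro n
    filter_upwards [hae1] with y h1
    rw [h1, norm_mul, norm_mul]
    have h2 := hC y h1
    have h3 : ‖(χ n y : ℂ)‖ ≤ 1 := by
      rw [Complex.norm_real, Real.norm_eq_abs, abs_of_nonneg (hχ0 n y)]
      exact hχ1 n y
    have h4 : ‖((1 : ℝ) : ℂ) ^ 2‖ = 1 := by simp
    rw [h4, mul_one]
    calc ‖(χ n y : ℂ)‖ * ‖𝓕.dens A.1 y‖ ≤ 1 * C :=
          mul_le_mul h3 h2 (norm_nonneg _) zero_le_one
      _ = C := one_mul C
  have hmu : ∀ n, AEStronglyMeasurable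
      (fun x => (χ n x : ℂ) * (nsq x : ℂ) ^ 2 * 𝓕.dens A.1 x) μ := fun n =>
    (RF_meas (hred n).1.smooth).aestronglyMeasurable
  have hB2 : ∀ n, T.toLin (B n) = ∫ x, (χ n x : ℂ) * (nsq x : ℂ) ^ 2 * 𝓕.dens A.1 x ∂μ := by
    intro n
    rw [(hred n).2 (B n) (D n) (hB n) (hD n)]
    exact RF_complex T μ hR _ (hred n).1 (Integrable.of_bound (hmu n) C (hbd n)) (D n) (hD n)
  have hlimB : Filter.Tendsto (fun n => T.toLin (B n)) Filter.atTop
      (nhds (∫ y, 𝓕.dens A.1 y ∂μ)) := by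
    simp only [hB2]
    refine tendsto_integral_of_dominated_convergence (fun _ => C) hmu (integrable_const _) hbd ?_
    filter_upwards [hae1, hae2] with y h1 h2
    refine tendsto_const_nhds.congr' ?_
    filter_upwards [hev y h1 h2] with n hn
    rw [hn, h1]
    simp
  have hfinal := hlimB.add hlimB'
  rw [add_zero] at hfinal
  refine tendsto_nhds_unique (tendsto_const_nhds (x := T.toLin A) (f := (Filter.atTop : Filter ℕ))) ?_
  refine hfinal.congr ?_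
  intro n
  exact (hsum n).symm

theorem dens_fubiniStudy (𝓕 : Foliation) (y : V) (hy : nsq y = 1) (hα : 𝓕.alpha y ≠ 0) :
    𝓕.dens fubiniStudy y = 1 := by
  have hy0 : y ≠ 0 := by
    rintro rfl
    rw [nsq_eq_zero.2 rfl] at hy
    exact zero_ne_one hy
  have hp : nsq (𝓕.alpha y) ≠ 0 := (nsq_pos hα).ne'
  have h1 : 𝓕.alpha y = crossProduct y (𝓕.vec y) := rfl
  have h2 := nsq_cross y (𝓕.vec y)
  unfold Foliation.dens
  rw [fubiniStudy_quad y hy0 (𝓕.vec y), ← h2, ← h1, hy, one_pow, div_one]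
  exact div_self (Complex.ofReal_ne_zero.2 hp)

theorem Rep.univ_ne_zero {𝓕 : Foliation} {T : PosCurrent} {μ : Measure V} (h : Rep 𝓕 T μ)
    (hT : T.toLin ≠ 0) : μ Set.univ ≠ 0 := by
  intro h0
  apply hT
  have hμ : μ = 0 := Measure.measure_univ_eq_zero.1 h0
  refine LinearMap.ext fun A => ?_
  rw [h.pair A, hμ, integral_zero_measure]
  rfl

end Pool.Agent.H24.CU

end S_H24_CU_RF

section S_H76_FL_LC

/-!
# Row LC: calculus of the Levi form

lev G p v = D^2 G(v,v) + D^2 G(iv,iv).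
* `lev_comp`: D^2(Φ(u))(v,v) = Φ'(u) D^2u(v,v) + Φ''(u) (Du v)^2; add for v and iv.
* `lev_mul`: Leibniz.
* F analytic at p (complex): D^2 F (v,v) (real second derivative) is complex bilinear, D^2F(iv,iv) = - D^2F(v,v).
  - `lev_re`: lev (Re F) = Re(D^2F(v,v) + D^2F(iv,iv)) = 0; 
  - `lev_normSq`: ‖F‖^2 = F conj F: D^2(v,v) = 2 Re(conj F D^2F(v,v)) + 2 |DF v|^2; for iv: - 2 Re(..) + 2|DF v|^2; sum 4 |DF v|^2.
  - `lev_log_norm`: log‖F‖ = Re (log F) locally (choose a branch: log ‖F‖ = log ‖F/F(p)‖ + const, F/F(p) near 1 is in the slit plane,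
    Re Complex.log), so 0.
* `lev_logPair`: u = log S, S = |F1|^2 + |F2|^2 > 0: lev u = lev S / S - ((DS v)^2 + (DS iv)^2)/S^2; lev S = 4(|a1|^2+|a2|^2), a_j = DF_j(v);
  DS v = 2 Re w, DS(iv) = - 2 Im w ... with w = conj F1 a1 + conj F2 a2, so (DS v)^2+(DS iv)^2 = 4|w|^2, and
  S (|a1|^2+|a2|^2) - |w|^2 = |F1 a2 - F2 a1|^2 (Lagrange).
* `grad_logPair`: (Du v)^2 + (Du iv)^2 = 4 |w|^2 / S^2.
-/

open MvPolynomial MeasureTheory
open scoped ContDiff ComplexConjugate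

namespace FC76

theorem LC_fm {f g : ℂ × ℂ → ℝ} {f' g' : (ℂ × ℂ) →L[ℝ] ℝ} {p : ℂ × ℂ} (hf : HasFDerivAt f f' p)
    (hg : HasFDerivAt g g' p) : HasFDerivAt (fun q => f q * g q) (f p • g' + g p • f') p := hf.mul hg

theorem LC_fa {f g : ℂ × ℂ → ℝ} {f' g' : (ℂ × ℂ) →L[ℝ] ℝ} {p : ℂ × ℂ} (hf : HasFDerivAt f f' p)
    (hg : HasFDerivAt g g' p) : HasFDerivAt (fun q => f q + g q) (f' + g') p := hf.add hg

theorem LC_sd {E' : Type*} [NormedAddCommGroup E'] [NormedSpace ℝ E'] {G : ℂ × ℂ → E'} {p : ℂ × ℂ}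
    (hG : ContDiffAt ℝ 2 G p) (v w : ℂ × ℂ) :
    fderiv ℝ (fun q => fderiv ℝ G q v) p w = fderiv ℝ (fderiv ℝ G) p w v := by
  have h1 : DifferentiableAt ℝ (fderiv ℝ G) p :=
    (hG.fderiv_right (m := 1) (by norm_num)).differentiableAt (by norm_num)
  have h2 := h1.hasFDerivAt.clm_apply (hasFDerivAt_const v p)
  rw [h2.fderiv]
  simp

theorem LC_hd {E' : Type*} [NormedAddCommGroup E'] [NormedSpace ℝ E'] {G : ℂ × ℂ → E'} {p : ℂ × ℂ}
    (hG : ContDiffAt ℝ 2 G p) (v : ℂ × ℂ) :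
    HasFDerivAt (fun q => fderiv ℝ G q v) (fderiv ℝ (fun q => fderiv ℝ G q v) p) p := by
  have h1 : DifferentiableAt ℝ (fderiv ℝ G) p :=
    (hG.fderiv_right (m := 1) (by norm_num)).differentiableAt (by norm_num)
  exact (h1.hasFDerivAt.clm_apply (hasFDerivAt_const v p)).differentiableAt.hasFDerivAt

theorem LC_lev {G : ℂ × ℂ → ℝ} {p : ℂ × ℂ} (hG : ContDiffAt ℝ 2 G p) (v : ℂ × ℂ) :
    lev G p v = fderiv ℝ (fun q => fderiv ℝ G q v) p v +
      fderiv ℝ (fun q => fderiv ℝ G q (Complex.I • v)) p (Complex.I • v) := by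
  rw [lev, LC_sd hG, LC_sd hG]

theorem LC_ev {E' : Type*} [NormedAddCommGroup E'] [NormedSpace ℝ E'] {G : ℂ × ℂ → E'} {p : ℂ × ℂ}
    (hG : ContDiffAt ℝ 2 G p) : ∀ᶠ q in nhds p, DifferentiableAt ℝ G q := by
  filter_upwards [hG.eventually (by norm_num)] with q hq
  exact hq.differentiableAt (by norm_num)

theorem LC_dd {Φ : ℝ → ℝ} {x : ℝ} (hΦ : ContDiffAt ℝ 2 Φ x) : DifferentiableAt ℝ (deriv Φ) x := by
  have h1 : DifferentiableAt ℝ (fderiv ℝ Φ) x :=
    (hΦ.fderiv_right (m := 1) (by norm_num)).differentiableAt (by norm_num)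
  have h2 : deriv Φ = fun y => fderiv ℝ Φ y 1 := by
    funext y
    rw [fderiv_apply_one_eq_deriv]
  rw [h2]
  exact (h1.hasFDerivAt.clm_apply (hasFDerivAt_const (1 : ℝ) x)).differentiableAt

theorem LC_comp2 {Φ : ℝ → ℝ} {u : ℂ × ℂ → ℝ} {p : ℂ × ℂ} (hΦ : ContDiffAt ℝ 2 Φ (u p))
    (hu : ContDiffAt ℝ 2 u p) (w : ℂ × ℂ) :
    fderiv ℝ (fun q => fderiv ℝ (fun q => Φ (u q)) q w) p w =
      deriv Φ (u p) * fderiv ℝ (fun q => fderiv ℝ u q w) p w +
        deriv (deriv Φ) (u p) * (fderiv ℝ u p w) ^ 2 := by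
  have e : (fun q => fderiv ℝ (fun q => Φ (u q)) q w) =ᶠ[nhds p]
      fun q => deriv Φ (u q) * fderiv ℝ u q w := by
    have h1 : ∀ᶠ q in nhds p, ContDiffAt ℝ 2 Φ (u q) :=
      hu.continuousAt.eventually (hΦ.eventually (by norm_num))
    filter_upwards [h1, LC_ev hu] with q hq1 hq2
    have h3 : HasDerivAt Φ (deriv Φ (u q)) (u q) := (hq1.differentiableAt (by norm_num)).hasDerivAt
    have h4 : HasFDerivAt (fun q => Φ (u q)) (deriv Φ (u q) • fderiv ℝ u q) q :=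
      h3.comp_hasFDerivAt q hq2.hasFDerivAt
    rw [h4.fderiv]
    simp
  rw [e.fderiv_eq]
  have h5 : HasFDerivAt (fun q => deriv Φ (u q)) (deriv (deriv Φ) (u p) • fderiv ℝ u p) p :=
    (LC_dd hΦ).hasDerivAt.comp_hasFDerivAt p (hu.differentiableAt (by norm_num)).hasFDerivAt
  rw [(LC_fm h5 (LC_hd hu w)).fderiv]
  simp only [add_apply, smul_apply, smul_eq_mul]
  ring

theorem LC_mul2 {f g : ℂ × ℂ → ℝ} {p : ℂ × ℂ} (hf : ContDiffAt ℝ 2 f p) (hg : ContDiffAt ℝ 2 g p)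
    (w : ℂ × ℂ) :
    fderiv ℝ (fun q => fderiv ℝ (fun q => f q * g q) q w) p w =
      f p * fderiv ℝ (fun q => fderiv ℝ g q w) p w + g p * fderiv ℝ (fun q => fderiv ℝ f q w) p w +
        2 * (fderiv ℝ f p w * fderiv ℝ g p w) := by
  have e : (fun q => fderiv ℝ (fun q => f q * g q) q w) =ᶠ[nhds p]
      fun q => f q * fderiv ℝ g q w + g q * fderiv ℝ f q w := by
    filter_upwards [LC_ev hf, LC_ev hg] with q hq1 hq2
    rw [(LC_fm hq1.hasFDerivAt hq2.hasFDerivAt).fderiv]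
    simp
  rw [e.fderiv_eq]
  have h1 := LC_fa (LC_fm (hf.differentiableAt (by norm_num)).hasFDerivAt (LC_hd hg w))
    (LC_fm (hg.differentiableAt (by norm_num)).hasFDerivAt (LC_hd hf w))
  rw [h1.fderiv]
  simp only [add_apply, smul_apply, smul_eq_mul]
  ring

theorem lev_comp {Φ : ℝ → ℝ} {u : ℂ × ℂ → ℝ} {p : ℂ × ℂ} (hΦ : ContDiffAt ℝ 2 Φ (u p))
    (hu : ContDiffAt ℝ 2 u p) (v : ℂ × ℂ) :
    lev (fun q => Φ (u q)) p v = deriv Φ (u p) * lev u p v +
      deriv (deriv Φ) (u p) * ((fderiv ℝ u p v) ^ 2 + (fderiv ℝ u p (Complex.I • v)) ^ 2) := by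
  have hc : ContDiffAt ℝ 2 (fun q => Φ (u q)) p := hΦ.comp p hu
  rw [LC_lev hc, LC_lev hu, LC_comp2 hΦ hu, LC_comp2 hΦ hu]
  ring

theorem lev_mul {f g : ℂ × ℂ → ℝ} {p : ℂ × ℂ} (hf : ContDiffAt ℝ 2 f p) (hg : ContDiffAt ℝ 2 g p) (v : ℂ × ℂ) :
    lev (fun q => f q * g q) p v = f p * lev g p v + g p * lev f p v +
      2 * (fderiv ℝ f p v * fderiv ℝ g p v + fderiv ℝ f p (Complex.I • v) * fderiv ℝ g p (Complex.I • v)) := by
  rw [LC_lev (hf.mul hg), LC_lev hf, LC_lev hg, LC_mul2 hf hg, LC_mul2 hf hg]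
  ring

theorem LC_lev_add {f g : ℂ × ℂ → ℝ} {p : ℂ × ℂ} (hf : ContDiffAt ℝ 2 f p) (hg : ContDiffAt ℝ 2 g p)
    (v : ℂ × ℂ) : lev (fun q => f q + g q) p v = lev f p v + lev g p v := by
  have key : ∀ w, fderiv ℝ (fun q => fderiv ℝ (fun q => f q + g q) q w) p w =
      fderiv ℝ (fun q => fderiv ℝ f q w) p w + fderiv ℝ (fun q => fderiv ℝ g q w) p w := by
    intro w
    have e : (fun q => fderiv ℝ (fun q => f q + g q) q w) =ᶠ[nhds p]
        fun q => fderiv ℝ f q w + fderiv ℝ g q w := by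
      filter_upwards [LC_ev hf, LC_ev hg] with q hq1 hq2
      rw [(LC_fa hq1.hasFDerivAt hq2.hasFDerivAt).fderiv]
      simp
    rw [e.fderiv_eq, (LC_fa (LC_hd hf w) (LC_hd hg w)).fderiv]
    simp
  rw [LC_lev (hf.add hg), LC_lev hf, LC_lev hg, key, key]
  ring

theorem LC_cd {F : ℂ × ℂ → ℂ} {p : ℂ × ℂ} (hF : AnalyticAt ℂ F p) : ContDiffAt ℝ 2 F p :=
  (hF.contDiffAt (n := 2)).restrict_scalars ℝ

theorem LC_cd_re {F : ℂ × ℂ → ℂ} {p : ℂ × ℂ} (hF : AnalyticAt ℂ F p) :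
    ContDiffAt ℝ 2 (fun q => (F q).re) p :=
  Complex.reCLM.contDiff.contDiffAt.comp p (LC_cd hF)

theorem LC_fd {F : ℂ × ℂ → ℂ} {p : ℂ × ℂ} (hF : AnalyticAt ℂ F p) (v : ℂ × ℂ) :
    fderiv ℝ F p v = fderiv ℂ F p v := by
  rw [hF.differentiableAt.fderiv_restrictScalars ℝ]
  rfl

theorem LC_I {F : ℂ × ℂ → ℂ} {p : ℂ × ℂ} (v : ℂ × ℂ) :
    fderiv ℂ F p (Complex.I • v) = Complex.I * fderiv ℂ F p v := by
  rw [map_smul, smul_eq_mul]

theorem LC_re1 {F : ℂ × ℂ → ℂ} {p : ℂ × ℂ} (hF : AnalyticAt ℂ F p) (v : ℂ × ℂ) :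
    fderiv ℝ (fun q => (F q).re) p v = (fderiv ℂ F p v).re := by
  have h1 : HasFDerivAt (fun q => (F q).re) (Complex.reCLM.comp (fderiv ℝ F p)) p :=
    Complex.reCLM.hasFDerivAt.comp p ((LC_cd hF).differentiableAt (by norm_num)).hasFDerivAt
  rw [h1.fderiv, ContinuousLinearMap.comp_apply, LC_fd hF]
  rfl

/-- the second derivative of an analytic function -/
theorem LC_an2 {F : ℂ × ℂ → ℂ} {p : ℂ × ℂ} (hF : AnalyticAt ℂ F p) (v w : ℂ × ℂ) :
    fderiv ℝ (fun q => (fderiv ℂ F q v).re) p w = (fderiv ℂ (fderiv ℂ F) p w v).re := by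
  have h0 : AnalyticAt ℂ (fderiv ℂ F) p := hF.fderiv
  have h1 : DifferentiableAt ℂ (fderiv ℂ F) p := h0.differentiableAt
  have h2 := h1.hasFDerivAt.clm_apply (hasFDerivAt_const v p)
  have h3 : HasFDerivAt (fun q => (fderiv ℂ F q v).re) (Complex.reCLM.comp
      ((((fderiv ℂ F p).comp (0 : (ℂ × ℂ) →L[ℂ] (ℂ × ℂ)) +
        (fderiv ℂ (fderiv ℂ F) p).flip v) : (ℂ × ℂ) →L[ℂ] ℂ).restrictScalars ℝ)) p :=
    Complex.reCLM.hasFDerivAt.comp p (h2.restrictScalars ℝ)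
  rw [h3.fderiv]
  simp

theorem lev_re {F : ℂ × ℂ → ℂ} {p : ℂ × ℂ} (hF : AnalyticAt ℂ F p) (v : ℂ × ℂ) :
    lev (fun q => (F q).re) p v = 0 := by
  have key : ∀ w, fderiv ℝ (fun q => fderiv ℝ (fun q => (F q).re) q w) p w =
      (fderiv ℂ (fderiv ℂ F) p w w).re := by
    intro w
    have e : (fun q => fderiv ℝ (fun q => (F q).re) q w) =ᶠ[nhds p] fun q => (fderiv ℂ F q w).re := by
      filter_upwards [hF.eventually_analyticAt] with q hq
      exact LC_re1 hq w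
    rw [e.fderiv_eq, LC_an2 hF]
  have e2 : fderiv ℂ (fderiv ℂ F) p (Complex.I • v) (Complex.I • v) =
      - fderiv ℂ (fderiv ℂ F) p v v := by
    rw [map_smul (fderiv ℂ (fderiv ℂ F) p), map_smul ((Complex.I : ℂ) • (fderiv ℂ (fderiv ℂ F) p) v)]
    show Complex.I • (Complex.I • fderiv ℂ (fderiv ℂ F) p v v) = _
    rw [smul_smul, Complex.I_mul_I, neg_one_smul]
  rw [LC_lev (LC_cd_re hF), key, key, e2, Complex.neg_re]
  ring

theorem LC_im_eq (F : ℂ × ℂ → ℂ) : (fun q => (F q).im) = fun q => ((-Complex.I) * F q).re := by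
  funext q
  simp

theorem LC_an_I {F : ℂ × ℂ → ℂ} {p : ℂ × ℂ} (hF : AnalyticAt ℂ F p) :
    AnalyticAt ℂ (fun q => (-Complex.I) * F q) p := analyticAt_const.mul hF

theorem LC_im1 {F : ℂ × ℂ → ℂ} {p : ℂ × ℂ} (hF : AnalyticAt ℂ F p) (v : ℂ × ℂ) :
    fderiv ℝ (fun q => (F q).im) p v = (fderiv ℂ F p v).im := by
  rw [LC_im_eq, LC_re1 (LC_an_I hF), (hF.differentiableAt.hasFDerivAt.const_mul (-Complex.I)).fderiv]
  simp

theorem LC_cd_im {F : ℂ × ℂ → ℂ} {p : ℂ × ℂ} (hF : AnalyticAt ℂ F p) :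
    ContDiffAt ℝ 2 (fun q => (F q).im) p := by
  rw [LC_im_eq]
  exact LC_cd_re (LC_an_I hF)

theorem LC_ns (F : ℂ × ℂ → ℂ) : (fun q => ‖F q‖ ^ 2) =
    fun q => (F q).re * (F q).re + (F q).im * (F q).im := by
  funext q
  rw [← Complex.normSq_eq_norm_sq, Complex.normSq_apply]

theorem LC_cd_ns {F : ℂ × ℂ → ℂ} {p : ℂ × ℂ} (hF : AnalyticAt ℂ F p) :
    ContDiffAt ℝ 2 (fun q => ‖F q‖ ^ 2) p := by
  rw [LC_ns]
  exact ((LC_cd_re hF).mul (LC_cd_re hF)).add ((LC_cd_im hF).mul (LC_cd_im hF))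

theorem LC_ns1 {F : ℂ × ℂ → ℂ} {p : ℂ × ℂ} (hF : AnalyticAt ℂ F p) (v : ℂ × ℂ) :
    fderiv ℝ (fun q => ‖F q‖ ^ 2) p v = 2 * (conj (F p) * fderiv ℂ F p v).re := by
  rw [LC_ns]
  have h1 := ((LC_cd_re hF).differentiableAt (by norm_num)).hasFDerivAt
  have h2 := ((LC_cd_im hF).differentiableAt (by norm_num)).hasFDerivAt
  rw [(LC_fa (LC_fm h1 h1) (LC_fm h2 h2)).fderiv]
  simp only [add_apply, smul_apply, smul_eq_mul]
  rw [LC_re1 hF, LC_im1 hF, Complex.mul_re, Complex.conj_re, Complex.conj_im]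
  ring

theorem lev_normSq {F : ℂ × ℂ → ℂ} {p : ℂ × ℂ} (hF : AnalyticAt ℂ F p) (v : ℂ × ℂ) :
    lev (fun q => ‖F q‖ ^ 2) p v = 4 * ‖fderiv ℂ F p v‖ ^ 2 := by
  have hre := lev_re hF v
  have him : lev (fun q => (F q).im) p v = 0 := by
    rw [LC_im_eq]
    exact lev_re (LC_an_I hF) v
  rw [LC_ns, LC_lev_add ((LC_cd_re hF).mul (LC_cd_re hF)) ((LC_cd_im hF).mul (LC_cd_im hF)),
    lev_mul (LC_cd_re hF) (LC_cd_re hF), lev_mul (LC_cd_im hF) (LC_cd_im hF), hre, him,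
    LC_re1 hF, LC_im1 hF, LC_re1 hF, LC_im1 hF, LC_I, ← Complex.normSq_eq_norm_sq,
    Complex.normSq_apply, Complex.mul_re, Complex.mul_im, Complex.I_re, Complex.I_im]
  ring

theorem LC_S_pos {F1 F2 : ℂ × ℂ → ℂ} {p : ℂ × ℂ} (h0 : F1 p ≠ 0 ∨ F2 p ≠ 0) :
    0 < ‖F1 p‖ ^ 2 + ‖F2 p‖ ^ 2 := by
  rcases h0 with h | h
  · have := norm_pos_iff.2 h
    positivity
  · have := norm_pos_iff.2 h
    positivity

theorem LC_S1 {F1 F2 : ℂ × ℂ → ℂ} {p : ℂ × ℂ} (h1 : AnalyticAt ℂ F1 p) (h2 : AnalyticAt ℂ F2 p)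
    (v : ℂ × ℂ) : fderiv ℝ (fun q => ‖F1 q‖ ^ 2 + ‖F2 q‖ ^ 2) p v =
      2 * (conj (F1 p) * fderiv ℂ F1 p v + conj (F2 p) * fderiv ℂ F2 p v).re := by
  have e1 := ((LC_cd_ns h1).differentiableAt (by norm_num)).hasFDerivAt
  have e2 := ((LC_cd_ns h2).differentiableAt (by norm_num)).hasFDerivAt
  rw [(LC_fa e1 e2).fderiv, add_apply, LC_ns1 h1, LC_ns1 h2, Complex.add_re]
  ring

theorem LC_S2 {F1 F2 : ℂ × ℂ → ℂ} {p : ℂ × ℂ} (h1 : AnalyticAt ℂ F1 p) (h2 : AnalyticAt ℂ F2 p)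
    (v : ℂ × ℂ) : (fderiv ℝ (fun q => ‖F1 q‖ ^ 2 + ‖F2 q‖ ^ 2) p v) ^ 2 +
      (fderiv ℝ (fun q => ‖F1 q‖ ^ 2 + ‖F2 q‖ ^ 2) p (Complex.I • v)) ^ 2 =
      4 * ‖conj (F1 p) * fderiv ℂ F1 p v + conj (F2 p) * fderiv ℂ F2 p v‖ ^ 2 := by
  rw [LC_S1 h1 h2, LC_S1 h1 h2, LC_I, LC_I]
  have e : conj (F1 p) * (Complex.I * fderiv ℂ F1 p v) + conj (F2 p) * (Complex.I * fderiv ℂ F2 p v) =
      Complex.I * (conj (F1 p) * fderiv ℂ F1 p v + conj (F2 p) * fderiv ℂ F2 p v) := by ring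
  rw [e]
  generalize conj (F1 p) * fderiv ℂ F1 p v + conj (F2 p) * fderiv ℂ F2 p v = w
  rw [← Complex.normSq_eq_norm_sq, Complex.normSq_apply, Complex.mul_re, Complex.I_re, Complex.I_im]
  ring

theorem lev_logPair {F1 F2 : ℂ × ℂ → ℂ} {p : ℂ × ℂ} (h1 : AnalyticAt ℂ F1 p) (h2 : AnalyticAt ℂ F2 p)
    (h0 : F1 p ≠ 0 ∨ F2 p ≠ 0) (v : ℂ × ℂ) :
    lev (fun q => Real.log (‖F1 q‖ ^ 2 + ‖F2 q‖ ^ 2)) p v =
      4 * (‖F1 p * fderiv ℂ F2 p v - F2 p * fderiv ℂ F1 p v‖ ^ 2 / (‖F1 p‖ ^ 2 + ‖F2 p‖ ^ 2) ^ 2) := by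
  have hS := LC_S_pos h0
  have hcd : ContDiffAt ℝ 2 (fun q => ‖F1 q‖ ^ 2 + ‖F2 q‖ ^ 2) p := (LC_cd_ns h1).add (LC_cd_ns h2)
  have hlog : ContDiffAt ℝ 2 Real.log (‖F1 p‖ ^ 2 + ‖F2 p‖ ^ 2) := Real.contDiffAt_log.2 hS.ne'
  rw [lev_comp (Φ := Real.log) (u := fun q => ‖F1 q‖ ^ 2 + ‖F2 q‖ ^ 2) hlog hcd, LC_S2 h1 h2,
    LC_lev_add (LC_cd_ns h1) (LC_cd_ns h2), lev_normSq h1, lev_normSq h2]
  have hd1 : deriv Real.log = fun x => x⁻¹ := by
    funext x
    exact Real.deriv_log x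
  rw [hd1, deriv_inv]
  have hlag : (‖F1 p‖ ^ 2 + ‖F2 p‖ ^ 2) * (‖fderiv ℂ F1 p v‖ ^ 2 + ‖fderiv ℂ F2 p v‖ ^ 2) -
      ‖conj (F1 p) * fderiv ℂ F1 p v + conj (F2 p) * fderiv ℂ F2 p v‖ ^ 2 =
      ‖F1 p * fderiv ℂ F2 p v - F2 p * fderiv ℂ F1 p v‖ ^ 2 := by
    generalize fderiv ℂ F1 p v = a
    generalize fderiv ℂ F2 p v = b
    generalize F1 p = x
    generalize F2 p = y
    simp only [← Complex.normSq_eq_norm_sq, Complex.normSq_apply, Complex.mul_re, Complex.mul_im,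
      Complex.sub_re, Complex.sub_im, Complex.add_re, Complex.add_im, Complex.conj_re, Complex.conj_im]
    ring
  rw [← hlag]
  have hS' := hS.ne'
  generalize ‖F1 p‖ ^ 2 + ‖F2 p‖ ^ 2 = S at hS' ⊢
  field_simp
  ring

theorem lev_log_norm {F : ℂ × ℂ → ℂ} {p : ℂ × ℂ} (hF : AnalyticAt ℂ F p) (h0 : F p ≠ 0) (v : ℂ × ℂ) :
    lev (fun q => Real.log ‖F q‖) p v = 0 := by
  have h1 := lev_logPair (F2 := fun _ => 0) hF analyticAt_const (Or.inl h0) v
  have e : (fun q => Real.log ‖F q‖) = fun q => (1 / 2 : ℝ) * Real.log (‖F q‖ ^ 2 + ‖(0 : ℂ)‖ ^ 2) := by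
    funext q
    rw [norm_zero, zero_pow two_ne_zero, add_zero, Real.log_pow]
    push_cast
    ring
  have hS : 0 < ‖F p‖ ^ 2 + ‖(0 : ℂ)‖ ^ 2 := LC_S_pos (F2 := fun _ => 0) (Or.inl h0)
  have hu : ContDiffAt ℝ 2 (fun q => ‖F q‖ ^ 2 + ‖(0 : ℂ)‖ ^ 2) p := (LC_cd_ns hF).add contDiffAt_const
  have hl : ContDiffAt ℝ 2 Real.log (‖F p‖ ^ 2 + ‖(0 : ℂ)‖ ^ 2) := Real.contDiffAt_log.2 hS.ne'
  have hc : ContDiffAt ℝ 2 (fun q => Real.log (‖F q‖ ^ 2 + ‖(0 : ℂ)‖ ^ 2)) p :=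
    ContDiffAt.comp (g := Real.log) p hl hu
  rw [e, lev_mul contDiffAt_const hc]
  have h3 : lev (fun _ : ℂ × ℂ => (1 / 2 : ℝ)) p v = 0 := by
    simp [lev]
  rw [h1, h3]
  simp

theorem grad_logPair {F1 F2 : ℂ × ℂ → ℂ} {p : ℂ × ℂ} (h1 : AnalyticAt ℂ F1 p) (h2 : AnalyticAt ℂ F2 p)
    (h0 : F1 p ≠ 0 ∨ F2 p ≠ 0) (v : ℂ × ℂ) :
    (fderiv ℝ (fun q => Real.log (‖F1 q‖ ^ 2 + ‖F2 q‖ ^ 2)) p v) ^ 2 +
      (fderiv ℝ (fun q => Real.log (‖F1 q‖ ^ 2 + ‖F2 q‖ ^ 2)) p (Complex.I • v)) ^ 2 =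
      4 * (‖conj (F1 p) * fderiv ℂ F1 p v + conj (F2 p) * fderiv ℂ F2 p v‖ ^ 2 /
        (‖F1 p‖ ^ 2 + ‖F2 p‖ ^ 2) ^ 2) := by
  have hS := LC_S_pos h0
  have hcd : ContDiffAt ℝ 2 (fun q => ‖F1 q‖ ^ 2 + ‖F2 q‖ ^ 2) p := (LC_cd_ns h1).add (LC_cd_ns h2)
  have hl : HasDerivAt Real.log (‖F1 p‖ ^ 2 + ‖F2 p‖ ^ 2)⁻¹ (‖F1 p‖ ^ 2 + ‖F2 p‖ ^ 2) :=
    Real.hasDerivAt_log hS.ne'
  have h3 : HasFDerivAt (fun q => Real.log (‖F1 q‖ ^ 2 + ‖F2 q‖ ^ 2))
      ((‖F1 p‖ ^ 2 + ‖F2 p‖ ^ 2)⁻¹ • fderiv ℝ (fun q => ‖F1 q‖ ^ 2 + ‖F2 q‖ ^ 2) p) p :=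
    HasDerivAt.comp_hasFDerivAt (h₂ := Real.log) p hl (hcd.differentiableAt (by norm_num)).hasFDerivAt
  rw [h3.fderiv]
  simp only [smul_apply, smul_eq_mul]
  rw [mul_pow, mul_pow, ← mul_add, LC_S2 h1 h2]
  have hS' := hS.ne'
  generalize ‖F1 p‖ ^ 2 + ‖F2 p‖ ^ 2 = S at hS' ⊢
  field_simp

end FC76

end S_H76_FL_LC

section S_H76_FL_LE

/-!
# Row LE: logarithmic cut-offs along a polynomial curve

Let θ : ℝ → ℝ be smooth, 0 <= θ <= 1, θ = 1 on (-oo,1], θ = 0 on [2,oo) (from `Real.smoothTransition`), |θ'|, |θ''| <= C.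
ζ(p) := θ(- log ‖ev h p‖ / K) if ev h p ≠ 0, and 0 if ev h p = 0.
Smooth: on {h ≠ 0} it is a composition of smooth functions (log ‖F‖ smooth where F ≠ 0); near a point with h(p) = 0 it vanishes identically
(‖h‖ < e^(-2K) in a neighbourhood).
Derivatives at h(p) ≠ 0: dW ζ = θ'(.) * (-1/K) * dW log‖h‖ = - θ'/(2K) * Dh(v)/h(p) (`dW_comp`, `dW_log_norm`);
lev ζ = θ'' / K^2 * ((D log‖h‖ v)^2 + (D log‖h‖ iv)^2) = θ''/K^2 * |Dh(v)/h|^2 (`lev_comp`, `lev_log_norm`, `dW_real`).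
Both vanish if ‖h‖ > e^(-K) or ‖h‖ < e^(-2K) (locally constant), and by continuity (θ'(1)=θ'(2)=0..) also on the boundary; the statement only claims
vanishing in the open regions.
-/

open MvPolynomial MeasureTheory
open scoped ContDiff ComplexConjugate

namespace FC76

/-- the profile -/
noncomputable def LE_th (x : ℝ) : ℝ := Real.smoothTransition (2 - x)

theorem LE_th_smooth : ContDiff ℝ ∞ LE_th := by
  unfold LE_th
  exact Real.smoothTransition.contDiff.comp (contDiff_const.sub contDiff_id)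

theorem LE_th_one {x : ℝ} (h : x ≤ 1) : LE_th x = 1 :=
  Real.smoothTransition.one_of_one_le (by linarith)

theorem LE_th_zero {x : ℝ} (h : 2 ≤ x) : LE_th x = 0 :=
  Real.smoothTransition.zero_of_nonpos (by linarith)

theorem LE_th_mem (x : ℝ) : 0 ≤ LE_th x ∧ LE_th x ≤ 1 :=
  ⟨Real.smoothTransition.nonneg _, Real.smoothTransition.le_one _⟩

theorem LE_d1 {x : ℝ} (hx : x ∉ Set.Icc (1 : ℝ) 2) : deriv LE_th x = 0 := by
  rw [Set.mem_Icc, not_and_or, not_le, not_le] at hx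
  rcases hx with hx | hx
  · have h1 : LE_th =ᶠ[nhds x] fun _ => (1 : ℝ) := by
      filter_upwards [Iio_mem_nhds hx] with y hy
      exact LE_th_one (le_of_lt hy)
    rw [h1.deriv_eq, deriv_const]
  · have h1 : LE_th =ᶠ[nhds x] fun _ => (0 : ℝ) := by
      filter_upwards [Ioi_mem_nhds hx] with y hy
      exact LE_th_zero (le_of_lt hy)
    rw [h1.deriv_eq, deriv_const]

theorem LE_d2 {x : ℝ} (hx : x ∉ Set.Icc (1 : ℝ) 2) : deriv (deriv LE_th) x = 0 := by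
  have h1 : deriv LE_th =ᶠ[nhds x] fun _ => (0 : ℝ) := by
    filter_upwards [isClosed_Icc.isOpen_compl.mem_nhds hx] with y hy
    exact LE_d1 hy
  rw [h1.deriv_eq, deriv_const]

theorem LE_two : (2 : WithTop ℕ∞) ≤ ∞ := WithTop.coe_le_coe.2 (le_top : (2 : ℕ∞) ≤ ⊤)

theorem LE_bound : ∃ C : ℝ, 0 < C ∧ (∀ x, |deriv LE_th x| ≤ C) ∧
    ∀ x, |deriv (deriv LE_th) x| ≤ C := by
  have s2 : ContDiff ℝ 2 LE_th := LE_th_smooth.of_le LE_two
  have s1 : ContDiff ℝ 1 (deriv LE_th) := by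
    have h2 : ContDiff ℝ (1 + 1) LE_th := by
      rw [one_add_one_eq_two]
      exact s2
    exact (contDiff_succ_iff_deriv.1 h2).2.2
  have c1 : Continuous (deriv LE_th) := s1.continuous
  have c2 : Continuous (deriv (deriv LE_th)) := s1.continuous_deriv le_rfl
  obtain ⟨C1, h1⟩ := (HasCompactSupport.intro isCompact_Icc fun x hx =>
    LE_d1 hx).exists_bound_of_continuous c1
  obtain ⟨C2, h2⟩ := (HasCompactSupport.intro isCompact_Icc fun x hx =>
    LE_d2 hx).exists_bound_of_continuous c2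
  refine ⟨max (max C1 C2) 1, lt_max_of_lt_right one_pos, fun x => ?_, fun x => ?_⟩
  · exact (h1 x).trans ((le_max_left _ _).trans (le_max_left _ _))
  · exact (h2 x).trans ((le_max_right _ _).trans (le_max_left _ _))

/-- the rescaled profile -/
noncomputable def LE_Ph (K x : ℝ) : ℝ := LE_th ((-1 / K) * x)

theorem LE_Ph_smooth (K : ℝ) : ContDiff ℝ ∞ (LE_Ph K) := by
  unfold LE_Ph
  exact LE_th_smooth.comp (contDiff_const.mul contDiff_id)

theorem LE_Ph_d1 (K x : ℝ) : deriv (LE_Ph K) x = (-1 / K) * deriv LE_th ((-1 / K) * x) := by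
  unfold LE_Ph
  rw [deriv_comp_mul_left]
  rfl

theorem LE_Ph_d2 (K x : ℝ) : deriv (deriv (LE_Ph K)) x =
    (-1 / K) * ((-1 / K) * deriv (deriv LE_th) ((-1 / K) * x)) := by
  have h1 : deriv (LE_Ph K) = fun x => (-1 / K) * deriv LE_th ((-1 / K) * x) :=
    funext fun x => LE_Ph_d1 K x
  rw [h1, deriv_const_mul_field]
  congr 1
  rw [deriv_comp_mul_left]
  rfl

theorem LE_dW {f g : ℂ × ℂ → ℝ} {p : ℂ × ℂ} (h : f =ᶠ[nhds p] g) (v : ℂ × ℂ) :
    dW (fun q => (f q : ℂ)) p v = dW (fun q => (g q : ℂ)) p v := by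
  have h1 : (fun q => (f q : ℂ)) =ᶠ[nhds p] fun q => (g q : ℂ) := by
    filter_upwards [h] with q hq
    rw [hq]
  unfold dW
  rw [h1.fderiv_eq]

theorem LE_lev {f g : ℂ × ℂ → ℝ} {p : ℂ × ℂ} (h : f =ᶠ[nhds p] g) (v : ℂ × ℂ) :
    lev f p v = lev g p v := by
  unfold lev
  rw [h.fderiv.fderiv_eq]

theorem LE_const (c : ℝ) (p v : ℂ × ℂ) :
    dW (fun _ => (c : ℂ)) p v = 0 ∧ lev (fun _ => c) p v = 0 := by
  constructor
  · unfold dW
    simp
  · unfold lev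
    simp

theorem exists_logCutoff : ∃ C : ℝ, 0 < C ∧ ∀ (h : P2) (K : ℝ), 1 ≤ K → ∃ ζ : ℂ × ℂ → ℝ, ContDiff ℝ ∞ ζ ∧
    (∀ p, 0 ≤ ζ p ∧ ζ p ≤ 1) ∧ (∀ p, ‖ev h p‖ ≤ Real.exp (-(2 * K)) → ζ p = 0) ∧
    (∀ p, Real.exp (-K) ≤ ‖ev h p‖ → ζ p = 1) ∧
    (∀ p v, ev h p ≠ 0 → ‖dW (fun q => (ζ q : ℂ)) p v‖ ≤ C / K * (‖fderiv ℂ (ev h) p v‖ / ‖ev h p‖)) ∧
    (∀ p v, ev h p ≠ 0 → |lev ζ p v| ≤ C / K ^ 2 * (‖fderiv ℂ (ev h) p v‖ / ‖ev h p‖) ^ 2) ∧
    (∀ p v, (‖ev h p‖ < Real.exp (-(2 * K)) ∨ Real.exp (-K) < ‖ev h p‖) →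
      dW (fun q => (ζ q : ℂ)) p v = 0 ∧ lev ζ p v = 0) := by
  classical
  obtain ⟨C, hC, hC1, hC2⟩ := LE_bound
  refine ⟨C, hC, fun h K hK => ?_⟩
  have hK0 : 0 < K := by linarith
  have hsm : ContDiff ℝ ∞ (ev h) := contDiff_real_ev h
  have hcont : Continuous (ev h) := hsm.continuous
  let L : ℂ × ℂ → ℝ := fun q => Real.log ‖ev h q‖
  let ζ : ℂ × ℂ → ℝ := fun q => if ev h q = 0 then 0 else LE_Ph K (L q)
  have hL : ∀ p, ev h p ≠ 0 → ContDiffAt ℝ ∞ L p := fun p hp =>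
    (hsm.contDiffAt.norm ℝ hp).log (norm_ne_zero_iff.2 hp)
  have hgerm : ∀ p, ev h p ≠ 0 → ζ =ᶠ[nhds p] fun q => LE_Ph K (L q) := by
    intro p hp
    filter_upwards [hcont.continuousAt.eventually_ne hp] with q hq
    exact if_neg hq
  have h0 : ∀ p, ‖ev h p‖ ≤ Real.exp (-(2 * K)) → ζ p = 0 := by
    intro p hp
    by_cases hz : ev h p = 0
    · exact if_pos hz
    · show (if ev h p = 0 then 0 else LE_Ph K (L p)) = 0
      rw [if_neg hz]
      apply LE_th_zero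
      have h1 : L p ≤ -(2 * K) := by
        have := Real.log_le_log (norm_pos_iff.2 hz) hp
        rwa [Real.log_exp] at this
      rw [neg_div, neg_mul, one_div, inv_mul_eq_div, ← neg_div, le_div_iff₀ hK0]
      linarith
  have h1 : ∀ p, Real.exp (-K) ≤ ‖ev h p‖ → ζ p = 1 := by
    intro p hp
    have hz : ev h p ≠ 0 := by
      rw [← norm_pos_iff]
      exact lt_of_lt_of_le (Real.exp_pos _) hp
    show (if ev h p = 0 then 0 else LE_Ph K (L p)) = 1
    rw [if_neg hz]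
    apply LE_th_one
    have h1 : -K ≤ L p := by
      have := Real.log_le_log (Real.exp_pos _) hp
      rwa [Real.log_exp] at this
    rw [neg_div, neg_mul, one_div, inv_mul_eq_div, ← neg_div, div_le_iff₀ hK0]
    linarith
  have hn : Continuous fun q => ‖ev h q‖ := hcont.norm
  refine ⟨ζ, ?_, ?_, h0, h1, ?_, ?_, ?_⟩
  · rw [contDiff_iff_contDiffAt]
    intro p
    by_cases hz : ev h p = 0
    · have hev : ζ =ᶠ[nhds p] fun _ => (0 : ℝ) := by
        have h2 : ∀ᶠ q in nhds p, ‖ev h q‖ < Real.exp (-(2 * K)) := by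
          refine hn.continuousAt.eventually_lt continuousAt_const ?_
          rw [hz, norm_zero]
          exact Real.exp_pos _
        filter_upwards [h2] with q hq
        exact h0 q hq.le
      exact contDiffAt_const.congr_of_eventuallyEq hev
    · exact ((LE_Ph_smooth K).contDiffAt.comp p (hL p hz)).congr_of_eventuallyEq (hgerm p hz)
  · intro p
    show 0 ≤ (if ev h p = 0 then 0 else LE_Ph K (L p)) ∧ (if ev h p = 0 then 0 else LE_Ph K (L p)) ≤ 1
    split_ifs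
    · exact ⟨le_rfl, zero_le_one⟩
    · exact LE_th_mem _
  · intro p v hz
    have hLd : DifferentiableAt ℝ L p := (hL p hz).differentiableAt (by simp)
    have hFd : DifferentiableAt ℂ (ev h) p := (analyticAt_ev h p).differentiableAt
    have hPd : DifferentiableAt ℝ (LE_Ph K) (L p) :=
      (LE_Ph_smooth K).contDiffAt.differentiableAt (by simp)
    rw [LE_dW (hgerm p hz), dW_comp hPd hLd, dW_log_norm hFd hz, LE_Ph_d1, norm_mul,
      Complex.norm_real, norm_div, norm_mul, norm_mul, Complex.norm_ofNat, Real.norm_eq_abs,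
      Real.norm_eq_abs, abs_div, abs_neg, abs_one, abs_of_pos hK0]
    have hb := hC1 (-1 / K * L p)
    have e0 := norm_nonneg (fderiv ℂ (ev h) p v)
    have e1 : 0 < ‖ev h p‖ := norm_pos_iff.2 hz
    have e2 : ‖fderiv ℂ (ev h) p v‖ / (2 * ‖ev h p‖) ≤ ‖fderiv ℂ (ev h) p v‖ / ‖ev h p‖ := by
      apply div_le_div_of_nonneg_left e0 e1
      linarith
    have e3 : 1 / K * |deriv LE_th (-1 / K * L p)| ≤ C / K := by
      rw [one_div, inv_mul_eq_div]
      exact div_le_div_of_nonneg_right hb hK0.le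
    exact mul_le_mul e3 e2 (by positivity) (by positivity)
  · intro p v hz
    have hLd : DifferentiableAt ℝ L p := (hL p hz).differentiableAt (by simp)
    have hFd : DifferentiableAt ℂ (ev h) p := (analyticAt_ev h p).differentiableAt
    have hP2 : ContDiffAt ℝ 2 (LE_Ph K) (L p) :=
      (LE_Ph_smooth K).contDiffAt.of_le LE_two
    have hL2 : ContDiffAt ℝ 2 L p := (hL p hz).of_le LE_two
    have hlog := lev_log_norm (analyticAt_ev h p) hz v
    have hreal := (dW_real hLd v).2.2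
    have hdl : dW (fun q => (L q : ℂ)) p v = fderiv ℂ (ev h) p v / (2 * ev h p) :=
      dW_log_norm hFd hz v
    rw [hdl] at hreal
    have e1 : 0 < ‖ev h p‖ := norm_pos_iff.2 hz
    have hq : (fderiv ℝ L p v) ^ 2 + (fderiv ℝ L p (Complex.I • v)) ^ 2 =
        (‖fderiv ℂ (ev h) p v‖ / ‖ev h p‖) ^ 2 := by
      rw [norm_div, norm_mul, Complex.norm_ofNat] at hreal
      have e4 : (‖fderiv ℂ (ev h) p v‖ / (2 * ‖ev h p‖)) ^ 2 =
          (‖fderiv ℂ (ev h) p v‖ / ‖ev h p‖) ^ 2 / 4 := by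
        field_simp
        norm_num
      rw [e4] at hreal
      linarith
    have hlog' : lev L p v = 0 := hlog
    rw [LE_lev (hgerm p hz), lev_comp hP2 hL2, hlog', mul_zero, zero_add, hq, LE_Ph_d2, abs_mul,
      abs_of_nonneg (sq_nonneg (‖fderiv ℂ (ev h) p v‖ / ‖ev h p‖))]
    refine mul_le_mul_of_nonneg_right ?_ (sq_nonneg _)
    rw [← mul_assoc, abs_mul]
    have hb := hC2 (-1 / K * L p)
    have e5 : |(-1 / K) * (-1 / K)| = 1 / K ^ 2 := by
      rw [abs_mul, abs_div, abs_neg, abs_one, abs_of_pos hK0]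
      field_simp
    rw [e5, one_div, inv_mul_eq_div]
    exact div_le_div_of_nonneg_right hb (by positivity)
  · intro p v hp
    rcases hp with hp | hp
    · have hev : ζ =ᶠ[nhds p] fun _ => (0 : ℝ) := by
        have h2 : ∀ᶠ q in nhds p, ‖ev h q‖ < Real.exp (-(2 * K)) :=
          hn.continuousAt.eventually_lt continuousAt_const hp
        filter_upwards [h2] with q hq
        exact h0 q hq.le
      rw [LE_dW hev, LE_lev hev]
      exact LE_const 0 p v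
    · have hev : ζ =ᶠ[nhds p] fun _ => (1 : ℝ) := by
        have h2 : ∀ᶠ q in nhds p, Real.exp (-K) < ‖ev h q‖ :=
          continuousAt_const.eventually_lt hn.continuousAt hp
        filter_upwards [h2] with q hq
        exact h1 q hq.le
      rw [LE_dW hev, LE_lev hev]
      exact LE_const 1 p v

end FC76

end S_H76_FL_LE

section S_H76_FL_LF

/-!
# Row LF: consequences of the invariance

1. `inv_bar`: ∫ dWb g(Z) dM = 0 for g smooth with compact support in dom: apply inv to conj g and `dW_conj`.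
2. `lev_dom`: for G real, smooth, compactly supported in dom: ∫ lev G(Z) dM = 0.
   Let g(q) := dWb (G) q (Z q) = (DG_q(Z_q) + i DG_q(i Z_q))/2, smooth, supported in tsupport G.
   4 Re dW g p (Z p) = lev G p (Z p): the derivative of q ↦ DG_q(Z_q) in direction v is D^2G(v,Z) + DG(DZ v), the derivative of q ↦ DG_q(iZ_q) in
   direction v is D^2G(v,iZ) + DG(i DZ v).  dW g(Z) = (Dg(Z) - i Dg(iZ))/2, real part:
   (1/4)[ D^2G(Z,Z) + DG(DZ Z) + D^2G(iZ,iZ) + DG(i DZ(iZ)) ] and DZ(iZ) = i DZ(Z), so DG(i DZ(iZ)) = - DG(DZ Z): they cancel (DZ is complex linear since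
   A, B are holomorphic).  Then integrate and take real parts (integrability: bounded with compact support, `locfin`).
3. `inv_ext`: g smooth, compact support in the ball, M (tsupport g) < ⊤, and (h(0) = 0 or 0 not in tsupport g).  Take ζ_K from `exists_logCutoff`.
   g ζ_K has compact support in dom (if h(0)=0, ζ_K vanishes near 0).  0 = ∫ dW(g ζ_K)(Z) = ∫ ζ_K dW g(Z) + ∫ g dW ζ_K(Z).
   First -> ∫ dW g(Z) (dominated by C‖Z‖ 1_{tsupport g} which is integrable: Cauchy-Schwarz with fin and M(tsupport g) < ⊤; ζ_K -> 1 on h ≠ 0, which carries M).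
   Second: |.| <= sup|g| ∫_{tsupport g} ‖dW ζ_K(Z)‖ <= sup|g| M(tsupport g)^(1/2) (∫ ‖dW ζ_K(Z)‖^2)^(1/2) and
   ∫ ‖dWζ_K(Z)‖^2 dM <= (C/K)^2 ∫_{‖h‖ >= e^(-2K)} ‖Zh/h‖^2 dM <= (C/K)^2 C' (1 + 2K + 1) -> 0 (`log` with r = e^(-2K)/2; `fderiv_ev_vf`).
   Same for dWb (apply to conj g).
4. `dd_of_inv`: if h(0) = 0 then ∫ lev G(Z) dM = 0 for every G smooth with compact support in the ball.
   G ζ_K has compact support in dom, `lev_dom`; lev(G ζ) = ζ lev G + G lev ζ + 2(...) (`lev_mul`); |lev G(Z)| <= C nsq Z integrable, dominated convergence;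
   |∫ G lev ζ_K(Z)| <= C (C/K^2)(C'(2+2K)) -> 0; cross term: |DG(Z) Dζ(Z) + ..| <= C ‖Z‖ ‖dW ζ(Z)‖, Cauchy-Schwarz with fin -> 0.
-/

open MvPolynomial MeasureTheory
open scoped ContDiff ComplexConjugate Topology
open Filter (Tendsto atTop)

namespace FC76

theorem LF_conv {α : Type*} [MeasurableSpace α] {μ : Measure α} {E : Type*} [NormedAddCommGroup E]
    [NormedSpace ℝ E] {f : α → E} (hf : Integrable f μ) {ζ : ℕ → α → ℝ}
    (hζm : ∀ n, AEStronglyMeasurable (ζ n) μ)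
    (hζ : ∀ n p, 0 ≤ ζ n p ∧ ζ n p ≤ 1) (hlim : ∀ᵐ p ∂μ, Tendsto (fun n => ζ n p) atTop (𝓝 1))
    {R : ℕ → α → E} (hR : ∀ n, AEStronglyMeasurable (R n) μ) {δ : ℕ → ℝ} (hδ0 : ∀ n, 0 ≤ δ n)
    (hδ : Tendsto δ atTop (𝓝 0)) (hRδ : ∀ n, ∫⁻ p, ‖R n p‖ₑ ∂μ ≤ ENNReal.ofReal (δ n))
    (h0 : ∀ n, ∫ p, (ζ n p • f p + R n p) ∂μ = 0) : ∫ p, f p ∂μ = 0 := by
  have h1 : Tendsto (fun n => ∫ p, ζ n p • f p ∂μ) atTop (𝓝 (∫ p, f p ∂μ)) := by
    apply tendsto_integral_of_dominated_convergence (fun p => ‖f p‖)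
    · intro n; exact (hζm n).smul hf.aestronglyMeasurable
    · exact hf.norm
    · intro n
      refine Filter.Eventually.of_forall (fun p => ?_)
      rw [norm_smul, Real.norm_of_nonneg (hζ n p).1]
      exact mul_le_of_le_one_left (norm_nonneg _) (hζ n p).2
    · filter_upwards [hlim] with p hp
      have h2 := hp.smul_const (f p)
      rwa [one_smul] at h2
  have hRi : ∀ n, Integrable (R n) μ :=
    fun n => ⟨hR n, lt_of_le_of_lt (hRδ n) ENNReal.ofReal_lt_top⟩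
  have hζi : ∀ n, Integrable (fun p => ζ n p • f p) μ := by
    intro n
    refine hf.mono ((hζm n).smul hf.aestronglyMeasurable) (Filter.Eventually.of_forall (fun p => ?_))
    rw [norm_smul, Real.norm_of_nonneg (hζ n p).1]
    exact mul_le_of_le_one_left (norm_nonneg _) (hζ n p).2
  have h2 : Tendsto (fun n => ∫ p, R n p ∂μ) atTop (𝓝 0) := by
    rw [tendsto_zero_iff_norm_tendsto_zero]
    refine squeeze_zero (fun n => norm_nonneg _) (fun n => ?_) hδ
    have h3 : ‖∫ p, R n p ∂μ‖ₑ ≤ ENNReal.ofReal (δ n) :=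
      (enorm_integral_le_lintegral_enorm _).trans (hRδ n)
    rw [← ofReal_norm] at h3
    exact (ENNReal.ofReal_le_ofReal_iff (hδ0 n)).1 h3
  have h3 : ∀ n, ∫ p, ζ n p • f p ∂μ = - ∫ p, R n p ∂μ := by
    intro n
    have h4 := h0 n
    rw [integral_add (hζi n) (hRi n)] at h4
    exact eq_neg_of_add_eq_zero_left h4
  have h5 : Tendsto (fun n => ∫ p, ζ n p • f p ∂μ) atTop (𝓝 0) := by
    have h6 := h2.neg
    rw [neg_zero] at h6
    exact h6.congr (fun n => (h3 n).symm)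
  exact tendsto_nhds_unique h1 h5

theorem LF_norm_I (v : ℂ × ℂ) : ‖Complex.I • v‖ = ‖v‖ := by
  rw [norm_smul, Complex.norm_I, one_mul]

theorem LF_dW_bound (g : ℂ × ℂ → ℂ) (p v : ℂ × ℂ) : ‖dW g p v‖ ≤ ‖fderiv ℝ g p‖ * ‖v‖ := by
  unfold dW
  rw [norm_div, Complex.norm_ofNat, div_le_iff₀ (by norm_num)]
  have h1 := (fderiv ℝ g p).le_opNorm v
  have h2 := (fderiv ℝ g p).le_opNorm (Complex.I • v)
  rw [LF_norm_I] at h2
  calc _ ≤ ‖fderiv ℝ g p v‖ + ‖Complex.I * fderiv ℝ g p (Complex.I • v)‖ := norm_sub_le _ _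
    _ = ‖fderiv ℝ g p v‖ + ‖fderiv ℝ g p (Complex.I • v)‖ := by rw [norm_mul, Complex.norm_I, one_mul]
    _ ≤ _ := by linarith

theorem LF_dWb_bound (g : ℂ × ℂ → ℂ) (p v : ℂ × ℂ) : ‖dWb g p v‖ ≤ ‖fderiv ℝ g p‖ * ‖v‖ := by
  unfold dWb
  rw [norm_div, Complex.norm_ofNat, div_le_iff₀ (by norm_num)]
  have h1 := (fderiv ℝ g p).le_opNorm v
  have h2 := (fderiv ℝ g p).le_opNorm (Complex.I • v)
  rw [LF_norm_I] at h2
  calc _ ≤ ‖fderiv ℝ g p v‖ + ‖Complex.I * fderiv ℝ g p (Complex.I • v)‖ := norm_add_le _ _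
    _ = ‖fderiv ℝ g p v‖ + ‖fderiv ℝ g p (Complex.I • v)‖ := by rw [norm_mul, Complex.norm_I, one_mul]
    _ ≤ _ := by linarith

theorem LF_lev_bound (G : ℂ × ℂ → ℝ) (p v : ℂ × ℂ) :
    |lev G p v| ≤ 2 * ‖fderiv ℝ (fderiv ℝ G) p‖ * ‖v‖ ^ 2 := by
  unfold lev
  have h1 := (fderiv ℝ (fderiv ℝ G) p).le_opNorm₂ v v
  have h2 := (fderiv ℝ (fderiv ℝ G) p).le_opNorm₂ (Complex.I • v) (Complex.I • v)
  rw [LF_norm_I] at h2
  rw [Real.norm_eq_abs] at h1 h2
  calc _ ≤ |fderiv ℝ (fderiv ℝ G) p v v| + |fderiv ℝ (fderiv ℝ G) p (Complex.I • v) (Complex.I • v)| :=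
        abs_add_le _ _
    _ ≤ _ := by nlinarith

theorem LF_cont_vf (A B : P2) : Continuous (vf A B) := (contDiff_vf A B).continuous

theorem LF_contDiff_D {g : ℂ × ℂ → ℂ} (hg : ContDiff ℝ ∞ g) (A B : P2) :
    ContDiff ℝ ∞ (fun p => fderiv ℝ g p (vf A B p)) ∧
    ContDiff ℝ ∞ (fun p => fderiv ℝ g p (Complex.I • vf A B p)) := by
  have h1 : ContDiff ℝ ∞ (fderiv ℝ g) := hg.fderiv_right (by simp)
  exact ⟨h1.clm_apply (contDiff_vf A B), h1.clm_apply ((contDiff_vf A B).const_smul Complex.I)⟩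

theorem LF_contDiff_dW {g : ℂ × ℂ → ℂ} (hg : ContDiff ℝ ∞ g) (A B : P2) :
    ContDiff ℝ ∞ (fun p => dW g p (vf A B p)) ∧ ContDiff ℝ ∞ (fun p => dWb g p (vf A B p)) := by
  obtain ⟨h1, h2⟩ := LF_contDiff_D hg A B
  exact ⟨(h1.sub (contDiff_const.mul h2)).div_const 2, (h1.add (contDiff_const.mul h2)).div_const 2⟩

theorem LF_cont_lev {G : ℂ × ℂ → ℝ} (hG : ContDiff ℝ ∞ G) (A B : P2) :
    Continuous (fun p => lev G p (vf A B p)) := by
  have h1 : ContDiff ℝ ∞ (fderiv ℝ G) := hG.fderiv_right (by simp)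
  have h2 : Continuous (fderiv ℝ (fderiv ℝ G)) := h1.continuous_fderiv (by simp)
  have h3 := LF_cont_vf A B
  have h4 : Continuous (fun p => Complex.I • vf A B p) := h3.const_smul Complex.I
  exact ((h2.clm_apply h3).clm_apply h3).add ((h2.clm_apply h4).clm_apply h4)

theorem LF_supp_dW {g : ℂ × ℂ → ℂ} {p : ℂ × ℂ} (hp : p ∉ tsupport g) (v : ℂ × ℂ) :
    dW g p v = 0 ∧ dWb g p v = 0 := by
  have h1 : fderiv ℝ g p = 0 := by
    by_contra h
    exact hp (support_fderiv_subset ℝ (Function.mem_support.2 h))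
  unfold dW dWb
  rw [h1]
  simp

theorem LF_supp_lev {G : ℂ × ℂ → ℝ} {p : ℂ × ℂ} (hp : p ∉ tsupport G) (v : ℂ × ℂ) : lev G p v = 0 := by
  have h1 : fderiv ℝ (fderiv ℝ G) p = 0 := by
    by_contra h
    exact hp (tsupport_fderiv_subset ℝ (support_fderiv_subset ℝ (Function.mem_support.2 h)))
  unfold lev
  rw [h1]
  simp

theorem LF_integrable {E : Type*} [NormedAddCommGroup E] {A B h : P2} {ρ : ℝ} {M : Measure (ℂ × ℂ)}
    (hI : Inv0 A B h ρ M) {f : ℂ × ℂ → E} (hf : Continuous f) {K : Set (ℂ × ℂ)} (hK : IsCompact K)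
    (hKd : K ⊆ dom h ρ) (h0 : ∀ p, p ∉ K → f p = 0) : Integrable f M := by
  have hsupp : Function.support f ⊆ K := by
    intro p hp
    by_contra hpK
    exact hp (h0 p hpK)
  rw [← integrableOn_iff_integrable_of_support_subset hsupp]
  obtain ⟨C, hC⟩ := hK.exists_bound_of_continuousOn hf.continuousOn
  have hm : AEStronglyMeasurable f M := hf.aestronglyMeasurable
  refine Measure.integrableOn_of_bounded (M := C) (hI.locfin K hK hKd).ne hm ?_
  exact (ae_restrict_iff' hK.measurableSet).2 (Filter.Eventually.of_forall (fun p hp => hC p hp))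

theorem LF_two {G : ℂ × ℂ → ℝ} (hG : ContDiff ℝ ∞ G) : ContDiff ℝ 2 G := by
  exact_mod_cast (contDiff_infty.1 hG 2)

theorem LF_energy {A B h : P2} {ρ : ℝ} {M : Measure (ℂ × ℂ)} (hI : Inv0 A B h ρ M) :
    ∃ C' : ℝ, 0 ≤ C' ∧ ∀ K : ℝ, 1 ≤ K → ∀ (w : ℂ × ℂ → ℝ) (c : ℝ), 0 ≤ c →
      (∀ p, ev h p ≠ 0 → w p ≤ c * (‖ev (Zp A B h) p‖ / ‖ev h p‖) ^ 2) →
      (∀ p, ‖ev h p‖ < Real.exp (-(2 * K)) → w p = 0) →
      ∫⁻ p, ENNReal.ofReal (w p) ∂M ≤ ENNReal.ofReal (c * (C' * K)) := by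
  obtain ⟨C, hC⟩ := hI.log
  refine ⟨4 * |C|, by positivity, ?_⟩
  intro K hK w c hc hw hw0
  obtain ⟨r, hr⟩ : ∃ r : ℝ, r = Real.exp (-(2 * K)) / 2 := ⟨_, rfl⟩
  have hr0 : 0 < r := by rw [hr]; positivity
  have hr1 : r < 1 := by
    rw [hr]
    have : Real.exp (-(2 * K)) ≤ 1 := Real.exp_le_one_iff.2 (by linarith)
    linarith
  have hrK : r < Real.exp (-(2 * K)) := by
    rw [hr]
    have := Real.exp_pos (-(2 * K))
    linarith
  have hlog : Real.log (1 / r) ≤ 2 * K + 1 := by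
    rw [hr, one_div, Real.log_inv, Real.log_div (Real.exp_pos _).ne' (by norm_num), Real.log_exp]
    have := Real.log_two_lt_d9
    linarith
  have hlog0 : 0 ≤ Real.log (1 / r) := by
    apply Real.log_nonneg
    rw [one_div]
    exact (one_le_inv₀ hr0).2 hr1.le
  have hms : MeasurableSet {p : ℂ × ℂ | r < ‖ev h p‖} := by
    apply IsOpen.measurableSet
    exact isOpen_lt continuous_const (contDiff_ev h).continuous.norm
  have h1 : ∀ p, ENNReal.ofReal (w p) ≤ ENNReal.ofReal c *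
      ({p : ℂ × ℂ | r < ‖ev h p‖}.indicator
        (fun p => ENNReal.ofReal (‖ev (Zp A B h) p‖ ^ 2 / ‖ev h p‖ ^ 2)) p) := by
    intro p
    by_cases hp : r < ‖ev h p‖
    · rw [Set.indicator_of_mem (by exact hp), ← ENNReal.ofReal_mul hc, ← div_pow]
      apply ENNReal.ofReal_le_ofReal
      apply hw
      intro h0
      rw [h0, norm_zero] at hp
      linarith
    · rw [hw0 p (lt_of_le_of_lt (not_lt.1 hp) hrK), ENNReal.ofReal_zero]
      exact zero_le
  calc _ ≤ ∫⁻ p, ENNReal.ofReal c * ({p : ℂ × ℂ | r < ‖ev h p‖}.indicator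
        (fun p => ENNReal.ofReal (‖ev (Zp A B h) p‖ ^ 2 / ‖ev h p‖ ^ 2)) p) ∂M := lintegral_mono h1
    _ = ENNReal.ofReal c * ∫⁻ p in {p | r < ‖ev h p‖}, ENNReal.ofReal (‖ev (Zp A B h) p‖ ^ 2 / ‖ev h p‖ ^ 2) ∂M := by
        rw [lintegral_const_mul' _ _ ENNReal.ofReal_ne_top, lintegral_indicator hms]
    _ ≤ ENNReal.ofReal c * ENNReal.ofReal (C * (1 + Real.log (1 / r))) :=
        mul_le_mul_of_nonneg_left (hC r hr0 hr1) zero_le
    _ ≤ ENNReal.ofReal c * ENNReal.ofReal (4 * |C| * K) := by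
        apply mul_le_mul_of_nonneg_left _ zero_le
        apply ENNReal.ofReal_le_ofReal
        calc C * (1 + Real.log (1 / r)) ≤ |C| * (1 + Real.log (1 / r)) :=
              mul_le_mul_of_nonneg_right (le_abs_self C) (by linarith)
          _ ≤ |C| * (4 * K) := mul_le_mul_of_nonneg_left (by linarith) (abs_nonneg C)
          _ = 4 * |C| * K := by ring
    _ = _ := by rw [← ENNReal.ofReal_mul hc]

theorem LF_bound {M : Measure (ℂ × ℂ)} {E : Type*} [NormedAddCommGroup E] {R : ℂ × ℂ → E}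
    {s w : ℂ × ℂ → ℝ} (hsm : Measurable s) {a I W : ℝ} (ha : 0 ≤ a) (hI0 : 0 ≤ I) (hW0 : 0 ≤ W)
    (hs : ∫⁻ p, ENNReal.ofReal (s p) ∂M ≤ ENNReal.ofReal I)
    (hw : ∫⁻ p, ENNReal.ofReal (w p) ∂M ≤ ENNReal.ofReal W)
    (hR : ∀ p, ‖R p‖ ≤ a * s p + w p) : ∫⁻ p, ‖R p‖ₑ ∂M ≤ ENNReal.ofReal (a * I + W) := by
  have h1 : ∀ p, ‖R p‖ₑ ≤ ENNReal.ofReal a * ENNReal.ofReal (s p) + ENNReal.ofReal (w p) := by
    intro p
    rw [← ofReal_norm, ← ENNReal.ofReal_mul ha]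
    exact (ENNReal.ofReal_le_ofReal (hR p)).trans ENNReal.ofReal_add_le
  have hm : Measurable (fun p => ENNReal.ofReal a * ENNReal.ofReal (s p)) :=
    (hsm.ennreal_ofReal).const_mul _
  calc _ ≤ ∫⁻ p, (ENNReal.ofReal a * ENNReal.ofReal (s p) + ENNReal.ofReal (w p)) ∂M := lintegral_mono h1
    _ = ENNReal.ofReal a * ∫⁻ p, ENNReal.ofReal (s p) ∂M + ∫⁻ p, ENNReal.ofReal (w p) ∂M := by
        rw [lintegral_add_left hm, lintegral_const_mul' _ _ ENNReal.ofReal_ne_top]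
    _ ≤ ENNReal.ofReal a * ENNReal.ofReal I + ENNReal.ofReal W := by gcongr
    _ = _ := by rw [← ENNReal.ofReal_mul ha, ← ENNReal.ofReal_add (mul_nonneg ha hI0) hW0]

theorem LF_supp {R' : Type*} [Zero R'] {F : ℂ × ℂ → R'} {T : Set (ℂ × ℂ)} (hT : IsClosed T) {h : P2}
    {ρ K : ℝ} (hs : T ⊆ Metric.ball 0 ρ) (h0 : ev h 0 = 0 ∨ (0 : ℂ × ℂ) ∉ T)
    (h1 : ∀ p, p ∉ T → F p = 0) (h2 : ∀ p, ‖ev h p‖ ≤ Real.exp (-(2 * K)) → F p = 0) :
    tsupport F ⊆ dom h ρ ∧ tsupport F ⊆ T := by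
  have hcl : IsClosed {p : ℂ × ℂ | Real.exp (-(2 * K)) ≤ ‖ev h p‖} :=
    isClosed_le continuous_const (contDiff_ev h).continuous.norm
  have hsub : tsupport F ⊆ T ∩ {p : ℂ × ℂ | Real.exp (-(2 * K)) ≤ ‖ev h p‖} := by
    apply closure_minimal _ (hT.inter hcl)
    intro p hp
    refine ⟨?_, ?_⟩
    · by_contra hpT
      exact hp (h1 p hpT)
    · by_contra hpK
      exact hp (h2 p (not_le.1 hpK).le)
  refine ⟨?_, fun p hp => (hsub hp).1⟩
  intro p hp
  obtain ⟨hpT, hpK⟩ := hsub hp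
  have hne : ev h p ≠ 0 := by
    intro h3
    have h4 : Real.exp (-(2 * K)) ≤ ‖ev h p‖ := hpK
    rw [h3, norm_zero] at h4
    exact absurd (Real.exp_pos (-(2 * K))) (not_lt.2 h4)
  refine ⟨hs hpT, hne, ?_⟩
  rintro rfl
  rcases h0 with h0 | h0
  · exact hne h0
  · exact h0 hpT

theorem LF_ae {A B h : P2} {ρ : ℝ} {M : Measure (ℂ × ℂ)} (hI : Inv0 A B h ρ M) {ζ : ℕ → ℂ × ℂ → ℝ}
    (hζ : ∀ (n : ℕ) (p : ℂ × ℂ), Real.exp (-((n : ℝ) + 1)) ≤ ‖ev h p‖ → ζ n p = 1) :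
    ∀ᵐ p ∂M, Tendsto (fun n => ζ n p) atTop (𝓝 1) := by
  have h1 : ∀ᵐ p ∂M, p ∈ dom h ρ := hI.carried
  filter_upwards [h1] with p hp
  have hpos : 0 < ‖ev h p‖ := norm_pos_iff.2 hp.2.1
  have h2 : Tendsto (fun n : ℕ => Real.exp (-((n : ℝ) + 1))) atTop (𝓝 0) := by
    apply Real.tendsto_exp_neg_atTop_nhds_zero.comp
    exact Filter.tendsto_atTop_add_const_right _ _ tendsto_natCast_atTop_atTop
  have h3 : ∀ᶠ n : ℕ in atTop, Real.exp (-((n : ℝ) + 1)) < ‖ev h p‖ := h2.eventually (gt_mem_nhds hpos)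
  apply tendsto_const_nhds.congr'
  filter_upwards [h3] with n hn
  exact (hζ n p hn.le).symm

theorem LF_rate (c d : ℝ) : Tendsto (fun n : ℕ => c / Real.sqrt ((n : ℝ) + 1) + d / ((n : ℝ) + 1)) atTop (𝓝 0) := by
  have h1 : Tendsto (fun n : ℕ => (n : ℝ) + 1) atTop atTop :=
    Filter.tendsto_atTop_add_const_right _ _ tendsto_natCast_atTop_atTop
  have h2 := (Real.tendsto_sqrt_atTop.comp h1).const_div_atTop c
  have h3 := h1.const_div_atTop d
  have h4 := h2.add h3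
  rw [add_zero] at h4
  exact h4

theorem LF_ab (x ε : ℝ) (hε : 0 < ε) : x ≤ ε + x ^ 2 / ε := by
  rw [← sub_nonneg]
  have h1 : ε + x ^ 2 / ε - x = ((ε - x / 2) ^ 2 + 3 / 4 * x ^ 2) / ε := by
    field_simp
    ring
  rw [h1]
  positivity

theorem inv_bar {A B h : P2} {ρ : ℝ} {M : Measure (ℂ × ℂ)} (hI : Inv0 A B h ρ M) (g : ℂ × ℂ → ℂ)
    (hg : ContDiff ℝ ∞ g) (hc : HasCompactSupport g) (hs : tsupport g ⊆ dom h ρ) :
    ∫ p, dWb g p (vf A B p) ∂M = 0 := by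
  have hcd : ContDiff ℝ ∞ (fun q => conj (g q)) := Complex.conjCLE.contDiff.comp hg
  have hsub : tsupport (fun q => conj (g q)) ⊆ tsupport g :=
    tsupport_comp_subset (g := fun z : ℂ => conj z) (map_zero _) g
  have h1 := hI.inv (fun q => conj (g q)) hcd (hc.comp_left (g := fun z : ℂ => conj z) (map_zero _))
    (hsub.trans hs)
  have h2 : ∀ p, dW (fun q => conj (g q)) p (vf A B p) = conj (dWb g p (vf A B p)) :=
    fun p => (dW_conj g p _).1
  simp_rw [h2] at h1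
  rw [integral_conj] at h1
  exact (map_eq_zero _).1 h1

/-- pointwise identity: four times the real part of Z (Zbar G) is the Levi form -/
theorem lev_eq_dW_dWb (A B : P2) {G : ℂ × ℂ → ℝ} {p : ℂ × ℂ} (hG : ContDiffAt ℝ 2 G p) :
    lev G p (vf A B p) = 4 * (dW (fun q => dWb (fun q' => (G q' : ℂ)) q (vf A B q)) p (vf A B p)).re := by
  have hZ : DifferentiableAt ℝ (vf A B) p := (contDiff_vf A B).differentiable (by simp) p
  have hZI : DifferentiableAt ℝ (fun q => Complex.I • vf A B q) p := hZ.const_smul Complex.I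
  have hG1 : ContDiffAt ℝ 1 (fderiv ℝ G) p := hG.fderiv_right (by norm_num)
  have hG2 : DifferentiableAt ℝ (fderiv ℝ G) p := hG1.differentiableAt (by norm_num)
  have hev : ∀ᶠ q in 𝓝 p, DifferentiableAt ℝ G q := by
    have := hG.eventually (by simp)
    filter_upwards [this] with q hq
    exact hq.differentiableAt (by norm_num)
  have hEq : (fun q => dWb (fun q' => (G q' : ℂ)) q (vf A B q)) =ᶠ[𝓝 p]
      (fun q => (((fderiv ℝ G q (vf A B q) : ℝ) : ℂ) +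
        Complex.I * ((fderiv ℝ G q (Complex.I • vf A B q) : ℝ) : ℂ)) / 2) := by
    filter_upwards [hev] with q hq
    obtain ⟨h1, h2, -⟩ := dW_real hq (vf A B q)
    rw [h2, h1]
    simp only [map_div₀, map_sub, map_mul, Complex.conj_ofReal, Complex.conj_I, map_ofNat]
    ring
  have hder : fderiv ℝ (fun q => dWb (fun q' => (G q' : ℂ)) q (vf A B q)) p =
      fderiv ℝ (fun q => (((fderiv ℝ G q (vf A B q) : ℝ) : ℂ) +
        Complex.I * ((fderiv ℝ G q (Complex.I • vf A B q) : ℝ) : ℂ)) / 2) p := hEq.fderiv_eq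
  obtain ⟨a, ha⟩ : ∃ a : (ℂ × ℂ) →L[ℝ] ℝ, a = (fderiv ℝ G p ∘SL fderiv ℝ (vf A B) p +
      (fderiv ℝ (fderiv ℝ G) p).flip (vf A B p)) := ⟨_, rfl⟩
  obtain ⟨b, hb⟩ : ∃ b : (ℂ × ℂ) →L[ℝ] ℝ, b = (fderiv ℝ G p ∘SL fderiv ℝ (fun q => Complex.I • vf A B q) p +
      (fderiv ℝ (fderiv ℝ G) p).flip (Complex.I • vf A B p)) := ⟨_, rfl⟩
  have hA : HasFDerivAt (fun q => fderiv ℝ G q (vf A B q)) a p := by
    rw [ha]; exact hG2.hasFDerivAt.clm_apply hZ.hasFDerivAt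
  have hB : HasFDerivAt (fun q => fderiv ℝ G q (Complex.I • vf A B q)) b p := by
    rw [hb]; exact hG2.hasFDerivAt.clm_apply hZI.hasFDerivAt
  have hA' : HasFDerivAt (fun q => ((fderiv ℝ G q (vf A B q) : ℝ) : ℂ)) (Complex.ofRealCLM ∘SL a) p :=
    Complex.ofRealCLM.hasFDerivAt.comp p hA
  have hB' : HasFDerivAt (fun q => ((fderiv ℝ G q (Complex.I • vf A B q) : ℝ) : ℂ)) (Complex.ofRealCLM ∘SL b) p :=
    Complex.ofRealCLM.hasFDerivAt.comp p hB
  have hF : HasFDerivAt (fun q => (((fderiv ℝ G q (vf A B q) : ℝ) : ℂ) +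
        Complex.I * ((fderiv ℝ G q (Complex.I • vf A B q) : ℝ) : ℂ)) / 2)
      ((2 : ℂ)⁻¹ • ((Complex.ofRealCLM ∘SL a) + Complex.I • (Complex.ofRealCLM ∘SL b))) p := by
    have h3 := (hA'.add (hB'.const_mul Complex.I)).const_mul ((2 : ℂ)⁻¹)
    refine h3.congr_of_eventuallyEq (Filter.Eventually.of_forall (fun q => ?_))
    simp only [Pi.add_apply]
    ring
  have hval : ∀ w, fderiv ℝ (fun q => dWb (fun q' => (G q' : ℂ)) q (vf A B q)) p w =
      ((a w : ℝ) + Complex.I * (b w : ℝ)) / 2 := by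
    intro w
    rw [hder, hF.fderiv]
    simp only [ContinuousLinearMap.smul_apply, ContinuousLinearMap.add_apply,
      ContinuousLinearMap.comp_apply, Complex.ofRealCLM_apply, smul_eq_mul]
    ring
  have hre : (dW (fun q => dWb (fun q' => (G q' : ℂ)) q (vf A B q)) p (vf A B p)).re =
      (a (vf A B p) + b (Complex.I • vf A B p)) / 4 := by
    unfold dW
    rw [hval, hval]
    have e : (((a (vf A B p) : ℝ) : ℂ) + Complex.I * ((b (vf A B p) : ℝ) : ℂ)) / 2 -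
        Complex.I * ((((a (Complex.I • vf A B p) : ℝ) : ℂ) + Complex.I * ((b (Complex.I • vf A B p) : ℝ) : ℂ)) / 2) =
        (((a (vf A B p) + b (Complex.I • vf A B p)) / 2 : ℝ) : ℂ) +
        (((b (vf A B p) - a (Complex.I • vf A B p)) / 2 : ℝ) : ℂ) * Complex.I := by
      push_cast
      linear_combination (-(((b (Complex.I • vf A B p) : ℝ) : ℂ)) / 2) * Complex.I_mul_I
    rw [e]
    simp only [Complex.div_ofNat_re, Complex.add_re, Complex.ofReal_re, Complex.mul_re, Complex.I_re,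
      Complex.I_im, Complex.ofReal_im]
    ring
  have hDZ : ∀ w : ℂ × ℂ, fderiv ℝ (vf A B) p (Complex.I • w) = Complex.I • fderiv ℝ (vf A B) p w := by
    intro w
    have hc : DifferentiableAt ℂ (vf A B) p := by
      unfold vf
      exact ((contDiff_ev A).differentiable (by simp) p).prodMk ((contDiff_ev B).differentiable (by simp) p)
    have h5 : fderiv ℝ (vf A B) p = (fderiv ℂ (vf A B) p).restrictScalars ℝ := hc.fderiv_restrictScalars ℝ
    rw [h5]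
    simp only [ContinuousLinearMap.coe_restrictScalars', map_smul]
  have hIZ : ∀ w : ℂ × ℂ, fderiv ℝ (fun q => Complex.I • vf A B q) p w = Complex.I • fderiv ℝ (vf A B) p w := by
    intro w
    rw [fderiv_fun_const_smul hZ]
    rfl
  rw [hre, ha, hb]
  unfold lev
  simp only [ContinuousLinearMap.add_apply, ContinuousLinearMap.comp_apply, ContinuousLinearMap.flip_apply]
  rw [hIZ, hDZ, smul_smul, Complex.I_mul_I, neg_smul, one_smul, map_neg]
  ring

theorem lev_dom {A B h : P2} {ρ : ℝ} {M : Measure (ℂ × ℂ)} (hI : Inv0 A B h ρ M) (G : ℂ × ℂ → ℝ)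
    (hG : ContDiff ℝ ∞ G) (hc : HasCompactSupport G) (hs : tsupport G ⊆ dom h ρ) :
    ∫ p, lev G p (vf A B p) ∂M = 0 := by
  have hGc : ContDiff ℝ ∞ (fun q => (G q : ℂ)) := Complex.ofRealCLM.contDiff.comp hG
  have hg : ContDiff ℝ ∞ (fun q => dWb (fun q' => (G q' : ℂ)) q (vf A B q)) := (LF_contDiff_dW hGc A B).2
  have hts : tsupport (fun q => (G q : ℂ)) ⊆ tsupport G :=
    tsupport_comp_subset (g := fun x : ℝ => (x : ℂ)) Complex.ofReal_zero G
  have hz : ∀ q, q ∉ tsupport G → dWb (fun q' => (G q' : ℂ)) q (vf A B q) = 0 :=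
    fun q hq => (LF_supp_dW (fun h => hq (hts h)) _).2
  have hsub : tsupport (fun q => dWb (fun q' => (G q' : ℂ)) q (vf A B q)) ⊆ tsupport G := by
    apply closure_minimal _ (isClosed_tsupport G)
    intro q hq
    by_contra hq2
    exact hq (hz q hq2)
  have hcs : HasCompactSupport (fun q => dWb (fun q' => (G q' : ℂ)) q (vf A B q)) :=
    HasCompactSupport.of_support_subset_isCompact hc (subset_tsupport _ |>.trans hsub)
  have h1 := hI.inv _ hg hcs (hsub.trans hs)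
  have hint : Integrable (fun p => dW (fun q => dWb (fun q' => (G q' : ℂ)) q (vf A B q)) p (vf A B p)) M := by
    apply LF_integrable hI ((LF_contDiff_dW hg A B).1.continuous) (K := tsupport G) hc hs
    intro p hp
    exact (LF_supp_dW (fun h => hp (hsub h)) _).1
  have h2 : ∀ p, lev G p (vf A B p) =
      4 * RCLike.re (dW (fun q => dWb (fun q' => (G q' : ℂ)) q (vf A B q)) p (vf A B p)) := by
    intro p
    exact lev_eq_dW_dWb A B (LF_two hG).contDiffAt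
  simp_rw [h2]
  rw [integral_const_mul, integral_re hint, h1]
  simp

theorem LF_nsq_int {A B h : P2} {ρ : ℝ} {M : Measure (ℂ × ℂ)} (hI : Inv0 A B h ρ M) :
    Integrable (fun p => nsq (vf A B p)) M := by
  have hc : Continuous (fun p => nsq (vf A B p)) := by
    unfold nsq
    have h1 := LF_cont_vf A B
    exact (h1.fst.norm.pow 2).add (h1.snd.norm.pow 2)
  refine ⟨hc.aestronglyMeasurable, ?_⟩
  rw [hasFiniteIntegral_iff_ofReal (Filter.Eventually.of_forall (fun p => nsq_nonneg _))]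
  exact hI.fin

theorem LF_ext {A B h : P2} {ρ : ℝ} {M : Measure (ℂ × ℂ)} (hI : Inv0 A B h ρ M) (g : ℂ × ℂ → ℂ)
    (hg : ContDiff ℝ ∞ g) (hc : HasCompactSupport g) (hs : tsupport g ⊆ Metric.ball 0 ρ)
    (h0 : ev h 0 = 0 ∨ (0 : ℂ × ℂ) ∉ tsupport g) (hM : M (tsupport g) < ⊤) :
    ∫ p, dW g p (vf A B p) ∂M = 0 := by
  obtain ⟨C, hC0, hC⟩ := exists_logCutoff
  obtain ⟨C', hC'0, hC'⟩ := LF_energy hI
  have hch : ∀ n : ℕ, ∃ ζ : ℂ × ℂ → ℝ, ContDiff ℝ ∞ ζ ∧
    (∀ p, 0 ≤ ζ p ∧ ζ p ≤ 1) ∧ (∀ p, ‖ev h p‖ ≤ Real.exp (-(2 * ((n : ℝ) + 1))) → ζ p = 0) ∧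
    (∀ p, Real.exp (-((n : ℝ) + 1)) ≤ ‖ev h p‖ → ζ p = 1) ∧
    (∀ p v, ev h p ≠ 0 → ‖dW (fun q => (ζ q : ℂ)) p v‖ ≤ C / ((n : ℝ) + 1) * (‖fderiv ℂ (ev h) p v‖ / ‖ev h p‖)) ∧
    (∀ p v, ev h p ≠ 0 → |lev ζ p v| ≤ C / ((n : ℝ) + 1) ^ 2 * (‖fderiv ℂ (ev h) p v‖ / ‖ev h p‖) ^ 2) ∧
    (∀ p v, (‖ev h p‖ < Real.exp (-(2 * ((n : ℝ) + 1))) ∨ Real.exp (-((n : ℝ) + 1)) < ‖ev h p‖) →
      dW (fun q => (ζ q : ℂ)) p v = 0 ∧ lev ζ p v = 0) :=
    fun n => hC h ((n : ℝ) + 1) (by have : (0 : ℝ) ≤ n := Nat.cast_nonneg n; linarith)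
  choose ζ hζs hζ01 hζ0 hζ1 hζd hζl hζv using hch
  have hζc : ∀ n, ContDiff ℝ ∞ (fun q => (ζ n q : ℂ)) := fun n => Complex.ofRealCLM.contDiff.comp (hζs n)
  obtain ⟨Cg, hCg⟩ := (hg.continuous_fderiv (by simp)).bounded_above_of_compact_support (hc.fderiv ℝ)
  obtain ⟨Bg, hBg⟩ := hg.continuous.bounded_above_of_compact_support hc
  have hCg0 : 0 ≤ Cg := (norm_nonneg _).trans (hCg 0)
  have hBg0 : 0 ≤ Bg := (norm_nonneg _).trans (hBg 0)
  have hTm : MeasurableSet (tsupport g) := (isClosed_tsupport g).measurableSet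
  have hindm : Measurable ((tsupport g).indicator (fun _ : ℂ × ℂ => (1 : ℝ))) := measurable_const.indicator hTm
  have hind : Integrable ((tsupport g).indicator (fun _ : ℂ × ℂ => (1 : ℝ))) M := by
    rw [integrable_indicator_iff hTm]
    exact integrableOn_const hM.ne
  have hfi : Integrable (fun p => dW g p (vf A B p)) M := by
    refine ((hind.add (LF_nsq_int hI)).const_mul Cg).mono (LF_contDiff_dW hg A B).1.continuous.aestronglyMeasurable
      (Filter.Eventually.of_forall (fun p => ?_))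
    rw [Real.norm_eq_abs]
    refine le_trans ?_ (le_abs_self _)
    simp only [Pi.add_apply]
    by_cases hp : p ∈ tsupport g
    · rw [Set.indicator_of_mem hp]
      have h1 := LF_dW_bound g p (vf A B p)
      have h2 := (norm_sq_le_nsq (vf A B p)).1
      have h3 := hCg p
      have h4 : ‖vf A B p‖ ≤ 1 + nsq (vf A B p) := by nlinarith [sq_nonneg (‖vf A B p‖ - 1)]
      calc ‖dW g p (vf A B p)‖ ≤ ‖fderiv ℝ g p‖ * ‖vf A B p‖ := h1
        _ ≤ Cg * (1 + nsq (vf A B p)) := mul_le_mul h3 h4 (norm_nonneg _) hCg0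
    · rw [(LF_supp_dW hp _).1, norm_zero, Set.indicator_of_notMem hp, zero_add]
      exact mul_nonneg hCg0 (nsq_nonneg _)
  obtain ⟨m, hm⟩ : ∃ m : ℝ, m = (M (tsupport g)).toReal := ⟨_, rfl⟩
  have hm0 : 0 ≤ m := by rw [hm]; exact ENNReal.toReal_nonneg
  have hsM : ∫⁻ p, ENNReal.ofReal ((tsupport g).indicator (fun _ : ℂ × ℂ => (1 : ℝ)) p) ∂M ≤ ENNReal.ofReal m := by
    have h1 : ∀ p, ENNReal.ofReal ((tsupport g).indicator (fun _ : ℂ × ℂ => (1 : ℝ)) p) =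
        (tsupport g).indicator 1 p := by
      intro p
      by_cases hp : p ∈ tsupport g
      · rw [Set.indicator_of_mem hp, Set.indicator_of_mem hp, ENNReal.ofReal_one]; rfl
      · rw [Set.indicator_of_notMem hp, Set.indicator_of_notMem hp, ENNReal.ofReal_zero]
    simp_rw [h1]
    rw [lintegral_indicator_one hTm, hm, ENNReal.ofReal_toReal hM.ne]
  refine LF_conv hfi (ζ := ζ) (fun n => (hζs n).continuous.aestronglyMeasurable) hζ01 (LF_ae hI hζ1)
    (R := fun n p => g p * dW (fun q => (ζ n q : ℂ)) p (vf A B p))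
    (δ := fun n => (Bg * m + Bg * C ^ 2 * C') / Real.sqrt ((n : ℝ) + 1) + 0 / ((n : ℝ) + 1))
    (fun n => (hg.continuous.mul (LF_contDiff_dW (hζc n) A B).1.continuous).aestronglyMeasurable)
    (fun n => by positivity) (LF_rate _ _) ?_ ?_
  · intro n
    obtain ⟨K, hK⟩ : ∃ K : ℝ, K = (n : ℝ) + 1 := ⟨_, rfl⟩
    have hK1 : 1 ≤ K := by
      have : (0 : ℝ) ≤ n := Nat.cast_nonneg n
      linarith
    have hK0 : 0 < K := by linarith
    obtain ⟨e, he⟩ : ∃ e : ℝ, e = 1 / Real.sqrt K := ⟨_, rfl⟩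
    have hsq0 : 0 < Real.sqrt K := Real.sqrt_pos.2 hK0
    have he0 : 0 < e := by rw [he]; positivity
    have h2 := hC' K hK1 (fun p => Bg * (‖dW (fun q => (ζ n q : ℂ)) p (vf A B p)‖ ^ 2 / e))
      (Bg * ((C / K) ^ 2 / e)) (by positivity)
      (fun p hp => by
        have h3 := hζd n p (vf A B p) hp
        rw [← hK, fderiv_ev_vf] at h3
        have h4 : ‖dW (fun q => (ζ n q : ℂ)) p (vf A B p)‖ ^ 2 ≤
            (C / K) ^ 2 * (‖ev (Zp A B h) p‖ / ‖ev h p‖) ^ 2 := by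
          rw [← mul_pow]
          exact pow_le_pow_left₀ (norm_nonneg _) h3 2
        calc _ ≤ Bg * ((C / K) ^ 2 * (‖ev (Zp A B h) p‖ / ‖ev h p‖) ^ 2 / e) := by gcongr
          _ = _ := by ring)
      (fun p hp => by
        rw [hK] at hp
        rw [(hζv n p (vf A B p) (Or.inl hp)).1]
        simp)
    have h5 := LF_bound (R := fun p => g p * dW (fun q => (ζ n q : ℂ)) p (vf A B p)) hindm
      (a := Bg * e) (by positivity) hm0 (W := Bg * ((C / K) ^ 2 / e) * (C' * K)) (by positivity) hsM h2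
      (fun p => by
        rw [norm_mul]
        by_cases hp : p ∈ tsupport g
        · rw [Set.indicator_of_mem hp]
          have h6 := LF_ab ‖dW (fun q => (ζ n q : ℂ)) p (vf A B p)‖ e he0
          calc _ ≤ Bg * (e + ‖dW (fun q => (ζ n q : ℂ)) p (vf A B p)‖ ^ 2 / e) :=
                mul_le_mul (hBg p) h6 (norm_nonneg _) hBg0
            _ = _ := by ring
        · rw [image_eq_zero_of_notMem_tsupport hp, norm_zero, zero_mul, Set.indicator_of_notMem hp]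
          positivity)
    refine h5.trans (ENNReal.ofReal_le_ofReal (le_of_eq ?_))
    rw [← hK, he, zero_div, add_zero]
    have hsq : Real.sqrt K ^ 2 = K := Real.sq_sqrt hK0.le
    have hsq3 : C' * K = C' * Real.sqrt K ^ 2 := by rw [hsq]
    have hKK : C / K = C / Real.sqrt K ^ 2 := by rw [hsq]
    rw [hsq3, hKK]
    field_simp
  · intro n
    have h6 := LF_supp (F := fun q => g q * (ζ n q : ℂ)) (K := (n : ℝ) + 1) (isClosed_tsupport g) hs h0
      (fun p hp => by rw [image_eq_zero_of_notMem_tsupport hp, zero_mul])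
      (fun p hp => by rw [hζ0 n p hp, Complex.ofReal_zero, mul_zero])
    have h7 := hI.inv (fun q => g q * (ζ n q : ℂ)) (hg.mul (hζc n)) hc.mul_right h6.1
    rw [← h7]
    apply integral_congr_ae
    refine Filter.Eventually.of_forall (fun p => ?_)
    simp only
    rw [dW_mul (hg.differentiable (by simp) p) ((hζc n).differentiable (by simp) p), Complex.real_smul]
    ring

theorem inv_ext {A B h : P2} {ρ : ℝ} {M : Measure (ℂ × ℂ)} (hI : Inv0 A B h ρ M) (g : ℂ × ℂ → ℂ)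
    (hg : ContDiff ℝ ∞ g) (hc : HasCompactSupport g) (hs : tsupport g ⊆ Metric.ball 0 ρ)
    (h0 : ev h 0 = 0 ∨ (0 : ℂ × ℂ) ∉ tsupport g) (hM : M (tsupport g) < ⊤) :
    ∫ p, dW g p (vf A B p) ∂M = 0 ∧ ∫ p, dWb g p (vf A B p) ∂M = 0 := by
  refine ⟨LF_ext hI g hg hc hs h0 hM, ?_⟩
  have hcd : ContDiff ℝ ∞ (fun q => conj (g q)) := Complex.conjCLE.contDiff.comp hg
  have hsub : tsupport (fun q => conj (g q)) ⊆ tsupport g :=
    tsupport_comp_subset (g := fun z : ℂ => conj z) (map_zero _) g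
  have h1 := LF_ext hI (fun q => conj (g q)) hcd (hc.comp_left (g := fun z : ℂ => conj z) (map_zero _))
    (hsub.trans hs) (h0.imp_right (fun h2 h3 => h2 (hsub h3))) ((measure_mono hsub).trans_lt hM)
  have h2 : ∀ p, dW (fun q => conj (g q)) p (vf A B p) = conj (dWb g p (vf A B p)) :=
    fun p => (dW_conj g p _).1
  simp_rw [h2] at h1
  rw [integral_conj] at h1
  exact (map_eq_zero _).1 h1

theorem dd_of_inv {A B h : P2} {ρ : ℝ} {M : Measure (ℂ × ℂ)} (hI : Inv0 A B h ρ M) (h0 : ev h 0 = 0)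
    (G : ℂ × ℂ → ℝ) (hG : ContDiff ℝ ∞ G) (hc : HasCompactSupport G) (hs : tsupport G ⊆ Metric.ball 0 ρ) :
    ∫ p, lev G p (vf A B p) ∂M = 0 := by
  obtain ⟨C, hC0, hC⟩ := exists_logCutoff
  obtain ⟨C', hC'0, hC'⟩ := LF_energy hI
  have hch : ∀ n : ℕ, ∃ ζ : ℂ × ℂ → ℝ, ContDiff ℝ ∞ ζ ∧
    (∀ p, 0 ≤ ζ p ∧ ζ p ≤ 1) ∧ (∀ p, ‖ev h p‖ ≤ Real.exp (-(2 * ((n : ℝ) + 1))) → ζ p = 0) ∧
    (∀ p, Real.exp (-((n : ℝ) + 1)) ≤ ‖ev h p‖ → ζ p = 1) ∧
    (∀ p v, ev h p ≠ 0 → ‖dW (fun q => (ζ q : ℂ)) p v‖ ≤ C / ((n : ℝ) + 1) * (‖fderiv ℂ (ev h) p v‖ / ‖ev h p‖)) ∧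
    (∀ p v, ev h p ≠ 0 → |lev ζ p v| ≤ C / ((n : ℝ) + 1) ^ 2 * (‖fderiv ℂ (ev h) p v‖ / ‖ev h p‖) ^ 2) ∧
    (∀ p v, (‖ev h p‖ < Real.exp (-(2 * ((n : ℝ) + 1))) ∨ Real.exp (-((n : ℝ) + 1)) < ‖ev h p‖) →
      dW (fun q => (ζ q : ℂ)) p v = 0 ∧ lev ζ p v = 0) :=
    fun n => hC h ((n : ℝ) + 1) (by have : (0 : ℝ) ≤ n := Nat.cast_nonneg n; linarith)
  choose ζ hζs hζ01 hζ0 hζ1 hζd hζl hζv using hch
  have hD : ContDiff ℝ ∞ (fderiv ℝ G) := hG.fderiv_right (by simp)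
  obtain ⟨C1, hC1⟩ := (hG.continuous_fderiv (by simp)).bounded_above_of_compact_support (hc.fderiv ℝ)
  obtain ⟨C2, hC2⟩ := (hD.continuous_fderiv (by simp)).bounded_above_of_compact_support ((hc.fderiv ℝ).fderiv ℝ)
  obtain ⟨BG, hBG⟩ := hG.continuous.bounded_above_of_compact_support hc
  have hC10 : 0 ≤ C1 := (norm_nonneg _).trans (hC1 0)
  have hC20 : 0 ≤ C2 := (norm_nonneg _).trans (hC2 0)
  have hBG0 : 0 ≤ BG := (norm_nonneg _).trans (hBG 0)
  have hni := LF_nsq_int hI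
  have hnc : Continuous (fun p => nsq (vf A B p)) := by
    unfold nsq
    have h1 := LF_cont_vf A B
    exact (h1.fst.norm.pow 2).add (h1.snd.norm.pow 2)
  have hfi : Integrable (fun p => lev G p (vf A B p)) M := by
    refine (hni.const_mul (2 * C2)).mono (LF_cont_lev hG A B).aestronglyMeasurable
      (Filter.Eventually.of_forall (fun p => ?_))
    rw [Real.norm_eq_abs, Real.norm_eq_abs]
    refine le_trans ?_ (le_abs_self _)
    have h1 := LF_lev_bound G p (vf A B p)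
    have h2 := (norm_sq_le_nsq (vf A B p)).1
    calc _ ≤ 2 * ‖fderiv ℝ (fderiv ℝ G) p‖ * ‖vf A B p‖ ^ 2 := h1
      _ ≤ 2 * C2 * nsq (vf A B p) := mul_le_mul (by linarith [hC2 p]) h2 (sq_nonneg _) (by positivity)
  obtain ⟨m, hm⟩ : ∃ m : ℝ, m = (∫⁻ p, ENNReal.ofReal (nsq (vf A B p)) ∂M).toReal := ⟨_, rfl⟩
  have hm0 : 0 ≤ m := by rw [hm]; exact ENNReal.toReal_nonneg
  have hsM : ∫⁻ p, ENNReal.ofReal (nsq (vf A B p)) ∂M ≤ ENNReal.ofReal m := by
    rw [hm, ENNReal.ofReal_toReal hI.fin.ne]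
  have hcontDu : ∀ u : ℂ × ℂ → ℝ, ContDiff ℝ ∞ u → Continuous (fun p => fderiv ℝ u p (vf A B p)) ∧
      Continuous (fun p => fderiv ℝ u p (Complex.I • vf A B p)) := by
    intro u hu
    have h1 := hu.continuous_fderiv (by simp)
    have h3 := LF_cont_vf A B
    have h4 : Continuous (fun p => Complex.I • vf A B p) := h3.const_smul Complex.I
    exact ⟨h1.clm_apply h3, h1.clm_apply h4⟩
  refine LF_conv hfi (ζ := ζ) (fun n => (hζs n).continuous.aestronglyMeasurable) hζ01 (LF_ae hI hζ1)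
    (R := fun n p => G p * lev (ζ n) p (vf A B p) + 2 * (fderiv ℝ G p (vf A B p) * fderiv ℝ (ζ n) p (vf A B p) +
      fderiv ℝ G p (Complex.I • vf A B p) * fderiv ℝ (ζ n) p (Complex.I • vf A B p)))
    (δ := fun n => (8 * C1 * m + 8 * C1 * C ^ 2 * C') / Real.sqrt ((n : ℝ) + 1) + (BG * C * C') / ((n : ℝ) + 1))
    ?_ (fun n => by positivity) (LF_rate _ _) ?_ ?_
  · intro n
    apply Continuous.aestronglyMeasurable
    have h1 := (hcontDu G hG).1
    have h2 := (hcontDu G hG).2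
    have h3 := (hcontDu (ζ n) (hζs n)).1
    have h4 := (hcontDu (ζ n) (hζs n)).2
    exact (hG.continuous.mul (LF_cont_lev (hζs n) A B)).add (continuous_const.mul ((h1.mul h3).add (h2.mul h4)))
  · intro n
    obtain ⟨K, hK⟩ : ∃ K : ℝ, K = (n : ℝ) + 1 := ⟨_, rfl⟩
    have hK1 : 1 ≤ K := by
      have : (0 : ℝ) ≤ n := Nat.cast_nonneg n
      linarith
    have hK0 : 0 < K := by linarith
    obtain ⟨e, he⟩ : ∃ e : ℝ, e = 1 / Real.sqrt K := ⟨_, rfl⟩
    have hsq0 : 0 < Real.sqrt K := Real.sqrt_pos.2 hK0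
    have he0 : 0 < e := by rw [he]; positivity
    have h2 := hC' K hK1 (fun p => BG * |lev (ζ n) p (vf A B p)| +
        8 * C1 * (‖dW (fun q => (ζ n q : ℂ)) p (vf A B p)‖ ^ 2 / e))
      (BG * (C / K ^ 2) + 8 * C1 * ((C / K) ^ 2 / e)) (by positivity)
      (fun p hp => by
        have h3 := hζd n p (vf A B p) hp
        have h3' := hζl n p (vf A B p) hp
        rw [← hK, fderiv_ev_vf] at h3 h3'
        have h4 : ‖dW (fun q => (ζ n q : ℂ)) p (vf A B p)‖ ^ 2 ≤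
            (C / K) ^ 2 * (‖ev (Zp A B h) p‖ / ‖ev h p‖) ^ 2 := by
          rw [← mul_pow]
          exact pow_le_pow_left₀ (norm_nonneg _) h3 2
        calc _ ≤ BG * (C / K ^ 2 * (‖ev (Zp A B h) p‖ / ‖ev h p‖) ^ 2) +
              8 * C1 * ((C / K) ^ 2 * (‖ev (Zp A B h) p‖ / ‖ev h p‖) ^ 2 / e) := by gcongr
          _ = _ := by ring)
      (fun p hp => by
        rw [hK] at hp
        rw [(hζv n p (vf A B p) (Or.inl hp)).1, (hζv n p (vf A B p) (Or.inl hp)).2]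
        simp)
    have h5 := LF_bound (R := fun p => G p * lev (ζ n) p (vf A B p) +
        2 * (fderiv ℝ G p (vf A B p) * fderiv ℝ (ζ n) p (vf A B p) +
        fderiv ℝ G p (Complex.I • vf A B p) * fderiv ℝ (ζ n) p (Complex.I • vf A B p)))
      hnc.measurable (a := 8 * C1 * e) (by positivity) hm0
      (W := (BG * (C / K ^ 2) + 8 * C1 * ((C / K) ^ 2 / e)) * (C' * K)) (by positivity) hsM h2
      (fun p => by
        obtain ⟨x, hx⟩ : ∃ x : ℝ, x = ‖dW (fun q => (ζ n q : ℂ)) p (vf A B p)‖ := ⟨_, rfl⟩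
        have hx0 : 0 ≤ x := by rw [hx]; exact norm_nonneg _
        have h6 := (dW_real ((hζs n).differentiable (by simp) p) (vf A B p)).2.2
        rw [← hx] at h6
        have h7 : |fderiv ℝ (ζ n) p (vf A B p)| ≤ 2 * x := by
          apply abs_le_of_sq_le_sq _ (by positivity)
          nlinarith [sq_nonneg (fderiv ℝ (ζ n) p (Complex.I • vf A B p))]
        have h8 : |fderiv ℝ (ζ n) p (Complex.I • vf A B p)| ≤ 2 * x := by
          apply abs_le_of_sq_le_sq _ (by positivity)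
          nlinarith [sq_nonneg (fderiv ℝ (ζ n) p (vf A B p))]
        have h9 : |fderiv ℝ G p (vf A B p)| ≤ C1 * ‖vf A B p‖ :=
          ((fderiv ℝ G p).le_opNorm _).trans (mul_le_mul_of_nonneg_right (hC1 p) (norm_nonneg _))
        have h10 : |fderiv ℝ G p (Complex.I • vf A B p)| ≤ C1 * ‖vf A B p‖ := by
          have h11 := ((fderiv ℝ G p).le_opNorm (Complex.I • vf A B p)).trans
            (mul_le_mul_of_nonneg_right (hC1 p) (norm_nonneg _))
          rwa [LF_norm_I] at h11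
        have h12 : ‖vf A B p‖ * x ≤ e * nsq (vf A B p) + x ^ 2 / e := by
          have h13 := (norm_sq_le_nsq (vf A B p)).1
          have h14 : ‖vf A B p‖ * x ≤ e * ‖vf A B p‖ ^ 2 + x ^ 2 / e := by
            rw [← sub_nonneg]
            have h15 : e * ‖vf A B p‖ ^ 2 + x ^ 2 / e - ‖vf A B p‖ * x =
                ((e * ‖vf A B p‖ - x / 2) ^ 2 + 3 / 4 * x ^ 2) / e := by
              field_simp
              ring
            rw [h15]
            positivity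
          nlinarith
        rw [← hx]
        calc ‖G p * lev (ζ n) p (vf A B p) +
              2 * (fderiv ℝ G p (vf A B p) * fderiv ℝ (ζ n) p (vf A B p) +
              fderiv ℝ G p (Complex.I • vf A B p) * fderiv ℝ (ζ n) p (Complex.I • vf A B p))‖
            ≤ |G p| * |lev (ζ n) p (vf A B p)| + 2 * (|fderiv ℝ G p (vf A B p)| * |fderiv ℝ (ζ n) p (vf A B p)| +
              |fderiv ℝ G p (Complex.I • vf A B p)| * |fderiv ℝ (ζ n) p (Complex.I • vf A B p)|) := by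
              rw [Real.norm_eq_abs, ← abs_mul, ← abs_mul, ← abs_mul]
              refine (abs_add_le _ _).trans ?_
              rw [abs_mul (2 : ℝ), abs_two]
              have := abs_add_le (fderiv ℝ G p (vf A B p) * fderiv ℝ (ζ n) p (vf A B p))
                (fderiv ℝ G p (Complex.I • vf A B p) * fderiv ℝ (ζ n) p (Complex.I • vf A B p))
              linarith
          _ ≤ BG * |lev (ζ n) p (vf A B p)| + 2 * ((C1 * ‖vf A B p‖) * (2 * x) + (C1 * ‖vf A B p‖) * (2 * x)) := by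
              have h16 : |G p| ≤ BG := hBG p
              gcongr
          _ = BG * |lev (ζ n) p (vf A B p)| + 8 * C1 * (‖vf A B p‖ * x) := by ring
          _ ≤ BG * |lev (ζ n) p (vf A B p)| + 8 * C1 * (e * nsq (vf A B p) + x ^ 2 / e) := by gcongr
          _ = _ := by ring)
    refine h5.trans (ENNReal.ofReal_le_ofReal (le_of_eq ?_))
    rw [← hK, he]
    have hsq : Real.sqrt K ^ 2 = K := Real.sq_sqrt hK0.le
    obtain ⟨t, ht⟩ : ∃ t : ℝ, t = Real.sqrt K := ⟨_, rfl⟩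
    rw [← ht] at hsq hsq0 ⊢
    rw [← hsq]
    field_simp
    ring
  · intro n
    have h6 := LF_supp (F := fun q => G q * ζ n q) (K := (n : ℝ) + 1) (isClosed_tsupport G) hs (Or.inl h0)
      (fun p hp => by rw [image_eq_zero_of_notMem_tsupport hp, zero_mul])
      (fun p hp => by rw [hζ0 n p hp, mul_zero])
    have h7 := lev_dom hI (fun q => G q * ζ n q) (hG.mul (hζs n)) hc.mul_right h6.1
    rw [← h7]
    apply integral_congr_ae
    refine Filter.Eventually.of_forall (fun p => ?_)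
    simp only
    rw [lev_mul (LF_two hG).contDiffAt (LF_two (hζs n)).contDiffAt, smul_eq_mul]
    ring

end FC76

end S_H76_FL_LF
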