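import Mathlib
import Pool.Agent.H24.M68.G01
import Pool.Agent.H24.M68.G02

/-! MP_6873ef_an: this file joins several modules to save build time. -/

section S_H24_CU_LC

/-!
# Row LC (calculus of the Levi form)

PROOFS.  `levi g p v` only depends on the second derivative of `g` at `p`: if `g` is `C^2` at `p`,
`fderiv ℝ (fun q => fderiv ℝ g q v) p w = (fderiv ℝ (fderiv ℝ g) p w) v` (`fderiv ℝ g` is
differentiable at `p`; `fderiv_clm_apply` or `HasFDerivAt.clm_apply`), a symmetric bilinear form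
(`ContDiffAt.isSymmSndFDerivAt` / `second_derivative_symmetric`).
(1) congr: `f =ᶠ[𝓝 p] g` gives `fderiv f =ᶠ fderiv g` (`Filter.EventuallyEq.fderiv`).
(2) add, const_mul, mul (product rule twice; `D²(fg)(v,v) = f D²g + g D²f + 2 Df(v) Dg(v)`), comp
(`D²(h∘f)(v,v) = h'(f) D²f(v,v) + h''(f) Df(v)^2`).
(3) smul of the vector: `c = a + i b`: `c v = a v + b (i v)`, `i c v = a (i v) - b v`, expand with symmetry:
the mixed terms cancel, `a^2 + b^2 = normSq c` remains.
(4) composition with a holomorphic map `H` (complex differentiable near `p`, hence smooth;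
`DifferentiableOn.contDiffOn`, or assume as stated that `H` is differentiable everywhere on `E'`; `E'` is
finite dimensional only in the applications: we assume `ContDiffAt ℝ 2 H p` separately):
`fderiv ℝ H q = (fderiv ℂ H q).restrictScalars ℝ`, so `D H (i v) = i D H v` and
`D²(g∘H)(v,v) = D²g(DH v, DH v) + Dg(D²H(v,v))`, with `D²H(iv,iv) = - D²H(v,v)`: differentiate
`DH_q(i v) = i DH_q(v)` in `q` in the direction `i v`: `D²H(iv, iv) = i D²H(iv, v) = i D²H(v, iv)
= i·i D²H(v,v)`.
(5) for a complex differentiable function `H : E → ℂ`: `levi (normSq ∘ H) = normSq (DH v)`: apply (4)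
to `g = normSq` on `ℂ` (`levi normSq ζ w = normSq w` by direct computation: `normSq` is a quadratic form).
`fderiv ℝ (normSq ∘ H) p v = 2 Re (conj (H p) (DH v))`.
-/

namespace Pool.Agent.H24.CU

open scoped ComplexConjugate ContDiff Topology

variable {E : Type*} [NormedAddCommGroup E] [NormedSpace ℂ E] [NormedSpace ℝ E]
  [IsScalarTower ℝ ℂ E]
  {E' : Type*} [NormedAddCommGroup E'] [NormedSpace ℂ E'] [NormedSpace ℝ E'] [IsScalarTower ℝ ℂ E']

set_option linter.unusedSectionVars false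

theorem LC_snd {F : Type*} [NormedAddCommGroup F] [NormedSpace ℝ F] {f : E → F} {p : E}
    (hf : ContDiffAt ℝ 2 f p) : DifferentiableAt ℝ (fderiv ℝ f) p :=
  (hf.fderiv_right (m := 1) (by norm_num)).differentiableAt one_ne_zero

theorem LC_ev {F : Type*} [NormedAddCommGroup F] [NormedSpace ℝ F] {f : E → F} {p : E}
    (hf : ContDiffAt ℝ 2 f p) : ∀ᶠ q in 𝓝 p, DifferentiableAt ℝ f q := by
  have h := (hf.eventually (by simp)).mono fun q hq => hq.differentiableAt (by simp)
  exact h

theorem LC_dapp {F : Type*} [NormedAddCommGroup F] [NormedSpace ℝ F] {f : E → F} {p : E}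
    (hf : ContDiffAt ℝ 2 f p) (v : E) : DifferentiableAt ℝ (fun q => fderiv ℝ f q v) p :=
  (LC_snd hf).clm_apply (differentiableAt_const v)

theorem LC_app {F : Type*} [NormedAddCommGroup F] [NormedSpace ℝ F] {f : E → F} {p : E}
    (hf : ContDiffAt ℝ 2 f p) (v w : E) :
    fderiv ℝ (fun q => fderiv ℝ f q v) p w = fderiv ℝ (fderiv ℝ f) p w v := by
  rw [fderiv_clm_apply (LC_snd hf) (differentiableAt_const v)]
  simp

theorem LC_symm {F : Type*} [NormedAddCommGroup F] [NormedSpace ℝ F] {f : E → F} {p : E}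
    (hf : ContDiffAt ℝ 2 f p) (v w : E) :
    fderiv ℝ (fderiv ℝ f) p w v = fderiv ℝ (fderiv ℝ f) p v w := by
  have h : IsSymmSndFDerivAt ℝ f p := hf.isSymmSndFDerivAt (by simp)
  exact h w v

omit [NormedSpace ℝ E] [IsScalarTower ℝ ℂ E] in
theorem LC_II (v : E) : Complex.I • Complex.I • v = -v := by
  rw [smul_smul, Complex.I_mul_I, neg_one_smul]

theorem LC_c (c : ℂ) (v : E) : c • v = c.re • v + c.im • (Complex.I • v) := by
  have h : ∀ (r : ℝ) (x : E), r • x = (r : ℂ) • x := by
    intro r x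
    have h1 : r • ((1 : ℂ) • x) = (r • (1 : ℂ)) • x := (smul_assoc r (1 : ℂ) x).symm
    rw [one_smul] at h1
    rw [h1, Complex.real_smul, mul_one]
  rw [h, h, smul_smul, ← add_smul, Complex.re_add_im]

theorem levi_congr {f g : E → ℝ} {p : E} (h : f =ᶠ[𝓝 p] g) (v : E) : levi f p v = levi g p v := by
  have h1 : ∀ w : E, (fun q => fderiv ℝ f q w) =ᶠ[𝓝 p] fun q => fderiv ℝ g q w := by
    intro w
    filter_upwards [h.fderiv (𝕜 := ℝ)] with q hq
    rw [hq]
  unfold levi
  rw [(h1 v).fderiv_eq, (h1 (Complex.I • v)).fderiv_eq]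

theorem gradm_congr {f g k : E → ℝ} {p : E} (h : f =ᶠ[𝓝 p] g) (v : E) :
    gradm f k p v = gradm g k p v := by
  unfold gradm
  rw [h.fderiv_eq]

theorem gradm_comm (f g : E → ℝ) (p v : E) : gradm f g p v = gradm g f p v := by
  unfold gradm
  ring

theorem gradm_self_nonneg (f : E → ℝ) (p v : E) : 0 ≤ gradm f f p v := by
  unfold gradm
  have h1 := mul_self_nonneg (fderiv ℝ f p v)
  have h2 := mul_self_nonneg (fderiv ℝ f p (Complex.I • v))
  linarith

theorem gradm_sq_le (f g : E → ℝ) (p v : E) :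
    gradm f g p v ^ 2 ≤ gradm f f p v * gradm g g p v := by
  unfold gradm
  nlinarith [sq_nonneg (fderiv ℝ f p v * fderiv ℝ g p (Complex.I • v) -
    fderiv ℝ f p (Complex.I • v) * fderiv ℝ g p v)]

theorem levi_const (c : ℝ) (p v : E) : levi (fun _ : E => c) p v = 0 := by
  unfold levi
  simp

theorem levi_add {f g : E → ℝ} {p : E} (hf : ContDiffAt ℝ 2 f p) (hg : ContDiffAt ℝ 2 g p) (v : E) :
    levi (fun q => f q + g q) p v = levi f p v + levi g p v := by
  have h1 : ∀ w : E, fderiv ℝ (fun q => fderiv ℝ (fun q => f q + g q) q w) p w =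
      fderiv ℝ (fun q => fderiv ℝ f q w) p w + fderiv ℝ (fun q => fderiv ℝ g q w) p w := by
    intro w
    have h2 : (fun q => fderiv ℝ (fun q => f q + g q) q w) =ᶠ[𝓝 p]
        fun q => fderiv ℝ f q w + fderiv ℝ g q w := by
      filter_upwards [LC_ev hf, LC_ev hg] with q h3 h4
      rw [fderiv_fun_add h3 h4]
      rfl
    rw [h2.fderiv_eq, fderiv_fun_add (LC_dapp hf w) (LC_dapp hg w)]
    rfl
  unfold levi
  rw [h1, h1]
  ring

theorem levi_mul {f g : E → ℝ} {p : E} (hf : ContDiffAt ℝ 2 f p) (hg : ContDiffAt ℝ 2 g p) (v : E) :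
    levi (fun q => f q * g q) p v = f p * levi g p v + g p * levi f p v + 2 * gradm f g p v := by
  have h1 : ∀ w : E, fderiv ℝ (fun q => fderiv ℝ (fun q => f q * g q) q w) p w =
      f p * fderiv ℝ (fun q => fderiv ℝ g q w) p w + g p * fderiv ℝ (fun q => fderiv ℝ f q w) p w +
        2 * (fderiv ℝ f p w * fderiv ℝ g p w) := by
    intro w
    have h2 : (fun q => fderiv ℝ (fun q => f q * g q) q w) =ᶠ[𝓝 p]
        fun q => f q * fderiv ℝ g q w + g q * fderiv ℝ f q w := by
      filter_upwards [LC_ev hf, LC_ev hg] with q h3 h4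
      rw [fderiv_fun_mul h3 h4]
      rfl
    have df : DifferentiableAt ℝ f p := hf.differentiableAt (by simp)
    have dg : DifferentiableAt ℝ g p := hg.differentiableAt (by simp)
    have d1 : DifferentiableAt ℝ (fun q => f q * fderiv ℝ g q w) p := df.mul (LC_dapp hg w)
    have d2 : DifferentiableAt ℝ (fun q => g q * fderiv ℝ f q w) p := dg.mul (LC_dapp hf w)
    rw [h2.fderiv_eq, fderiv_fun_add d1 d2,
      fderiv_fun_mul df (LC_dapp hg w), fderiv_fun_mul dg (LC_dapp hf w)]
    simp only [add_apply, smul_apply, smul_eq_mul]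
    ring
  unfold levi gradm
  rw [h1, h1]
  ring

theorem levi_const_mul {f : E → ℝ} {p : E} (hf : ContDiffAt ℝ 2 f p) (c : ℝ) (v : E) :
    levi (fun q => c * f q) p v = c * levi f p v := by
  rw [levi_mul (f := fun _ => c) contDiffAt_const hf, levi_const]
  unfold gradm
  simp

theorem levi_sub {f g : E → ℝ} {p : E} (hf : ContDiffAt ℝ 2 f p) (hg : ContDiffAt ℝ 2 g p) (v : E) :
    levi (fun q => f q - g q) p v = levi f p v - levi g p v := by
  have h : (fun q => f q - g q) = fun q => f q + (-1) * g q := by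
    funext q
    ring
  rw [h, levi_add hf (contDiffAt_const.mul hg), levi_const_mul hg]
  ring

theorem levi_comp {f : E → ℝ} {h : ℝ → ℝ} {p : E} (hf : ContDiffAt ℝ 2 f p)
    (hh : ContDiffAt ℝ 2 h (f p)) (v : E) :
    levi (fun q => h (f q)) p v =
      deriv h (f p) * levi f p v + deriv (deriv h) (f p) * gradm f f p v := by
  have hd : ∀ᶠ t in 𝓝 (f p), DifferentiableAt ℝ h t :=
    (hh.eventually (by simp)).mono fun q hq => hq.differentiableAt (by simp)
  have hd2 : ∀ᶠ q in 𝓝 p, DifferentiableAt ℝ h (f q) := hf.continuousAt.eventually hd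
  have hdd : DifferentiableAt ℝ (deriv h) (f p) := by
    have h3 : DifferentiableAt ℝ (fderiv ℝ h) (f p) :=
      (hh.fderiv_right (m := 1) (by norm_num)).differentiableAt one_ne_zero
    have h4 : deriv h = fun t => fderiv ℝ h t 1 := by
      funext t
      exact (fderiv_apply_one_eq_deriv).symm
    rw [h4]
    exact h3.clm_apply (differentiableAt_const _)
  have df : DifferentiableAt ℝ f p := hf.differentiableAt (by simp)
  have h1 : ∀ w : E, fderiv ℝ (fun q => fderiv ℝ (fun q => h (f q)) q w) p w =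
      deriv h (f p) * fderiv ℝ (fun q => fderiv ℝ f q w) p w +
        deriv (deriv h) (f p) * (fderiv ℝ f p w * fderiv ℝ f p w) := by
    intro w
    have h2 : (fun q => fderiv ℝ (fun q => h (f q)) q w) =ᶠ[𝓝 p]
        fun q => deriv h (f q) * fderiv ℝ f q w := by
      filter_upwards [LC_ev hf, hd2] with q h3 h4
      rw [show (fun q => h (f q)) = h ∘ f from rfl,
        (h4.hasDerivAt.comp_hasFDerivAt q h3.hasFDerivAt).fderiv]
      rfl
    have h5 : HasFDerivAt (fun q => deriv h (f q)) (deriv (deriv h) (f p) • fderiv ℝ f p) p :=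
      hdd.hasDerivAt.comp_hasFDerivAt p df.hasFDerivAt
    rw [h2.fderiv_eq, fderiv_fun_mul h5.differentiableAt (LC_dapp hf w), h5.fderiv]
    simp only [add_apply, smul_apply, smul_eq_mul]
    ring
  unfold levi gradm
  rw [h1, h1]
  ring

theorem gradm_comp_left {f k : E → ℝ} {h : ℝ → ℝ} {p : E} (hf : DifferentiableAt ℝ f p)
    (hh : DifferentiableAt ℝ h (f p)) (v : E) :
    gradm (fun q => h (f q)) k p v = deriv h (f p) * gradm f k p v := by
  have h1 : fderiv ℝ (fun q => h (f q)) p = deriv h (f p) • fderiv ℝ f p :=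
    (hh.hasDerivAt.comp_hasFDerivAt p hf.hasFDerivAt).fderiv
  unfold gradm
  rw [h1]
  simp only [smul_apply, smul_eq_mul]
  ring

theorem levi_smul_vec {f : E → ℝ} {p : E} (hf : ContDiffAt ℝ 2 f p) (c : ℂ) (v : E) :
    levi f p (c • v) = Complex.normSq c * levi f p v := by
  unfold levi
  rw [LC_app hf, LC_app hf, LC_app hf, LC_app hf]
  have e1 : c • v = c.re • v + c.im • (Complex.I • v) := LC_c c v
  have e2 : Complex.I • c • v = c.re • (Complex.I • v) - c.im • v := by
    rw [smul_comm, LC_c c (Complex.I • v), LC_II, smul_neg, sub_eq_add_neg]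
  rw [e1] at e2 ⊢
  rw [e2]
  simp only [map_add, map_sub, map_smul, add_apply, sub_apply, smul_apply, smul_eq_mul]
  rw [LC_symm hf (Complex.I • v) v, Complex.normSq_apply]
  ring

theorem gradm_smul_vec (f g : E → ℝ) (p : E) (c : ℂ) (v : E) :
    gradm f g p (c • v) = Complex.normSq c * gradm f g p v := by
  unfold gradm
  have e1 : c • v = c.re • v + c.im • (Complex.I • v) := LC_c c v
  have e2 : Complex.I • c • v = c.re • (Complex.I • v) - c.im • v := by
    rw [smul_comm, LC_c c (Complex.I • v), LC_II, smul_neg, sub_eq_add_neg]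
  rw [e1] at e2 ⊢
  rw [e2]
  simp only [map_add, map_sub, map_smul, smul_eq_mul]
  rw [Complex.normSq_apply]
  ring

theorem LC_hol {H : E' → E} {p : E'} (hH : DifferentiableAt ℂ H p) (v : E') :
    fderiv ℝ H p v = fderiv ℂ H p v := by
  rw [(hH.hasFDerivAt.restrictScalars ℝ).fderiv]
  rfl

theorem LC_holI {H : E' → E} {p : E'} (hH : DifferentiableAt ℂ H p) (v : E') :
    fderiv ℝ H p (Complex.I • v) = Complex.I • fderiv ℝ H p v := by
  rw [LC_hol hH, LC_hol hH, map_smul]

theorem LC_holD {H : E' → E} {p : E'} (hH : ∀ᶠ q in 𝓝 p, DifferentiableAt ℂ H q)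
    (hH2 : ContDiffAt ℝ 2 H p) (v w : E') :
    fderiv ℝ (fderiv ℝ H) p w (Complex.I • v) = Complex.I • fderiv ℝ (fderiv ℝ H) p w v := by
  rw [← LC_app hH2, ← LC_app hH2]
  have h1 : (fun q => fderiv ℝ H q (Complex.I • v)) =ᶠ[𝓝 p] fun q => Complex.I • fderiv ℝ H q v := by
    filter_upwards [hH] with q hq
    exact LC_holI hq v
  rw [h1.fderiv_eq, fderiv_fun_const_smul (LC_dapp hH2 v)]
  rfl

theorem levi_comp_hol {g : E → ℝ} {H : E' → E} {p : E'} (hH : ∀ᶠ q in 𝓝 p, DifferentiableAt ℂ H q)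
    (hH2 : ContDiffAt ℝ 2 H p) (hg : ContDiffAt ℝ 2 g (H p)) (v : E') :
    levi (fun q => g (H q)) p v = levi g (H p) (fderiv ℂ H p v) := by
  have hH0 : DifferentiableAt ℂ H p := hH.self_of_nhds
  have hg2 : ∀ᶠ q in 𝓝 p, DifferentiableAt ℝ g (H q) := hH2.continuousAt.eventually (LC_ev hg)
  have h1 : ∀ w : E', fderiv ℝ (fun q => fderiv ℝ (fun q => g (H q)) q w) p w =
      fderiv ℝ (fderiv ℝ g) (H p) (fderiv ℝ H p w) (fderiv ℝ H p w) +
        fderiv ℝ g (H p) (fderiv ℝ (fderiv ℝ H) p w w) := by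
    intro w
    have h2 : (fun q => fderiv ℝ (fun q => g (H q)) q w) =ᶠ[𝓝 p]
        fun q => fderiv ℝ g (H q) (fderiv ℝ H q w) := by
      filter_upwards [LC_ev hH2, hg2] with q h3 h4
      rw [show (fun q => g (H q)) = g ∘ H from rfl, fderiv_comp q h4 h3]
      rfl
    have h5 : HasFDerivAt (fun q => fderiv ℝ g (H q))
        ((fderiv ℝ (fderiv ℝ g) (H p)).comp (fderiv ℝ H p)) p :=
      (LC_snd hg).hasFDerivAt.comp p (hH2.differentiableAt (by simp)).hasFDerivAt
    rw [h2.fderiv_eq, fderiv_clm_apply h5.differentiableAt (LC_dapp hH2 w), h5.fderiv]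
    simp only [add_apply, ContinuousLinearMap.comp_apply,
      ContinuousLinearMap.flip_apply]
    rw [LC_app hH2]
    ring
  have h6 : fderiv ℝ (fderiv ℝ H) p (Complex.I • v) (Complex.I • v) =
      - fderiv ℝ (fderiv ℝ H) p v v := by
    rw [LC_holD hH hH2, LC_symm hH2, LC_holD hH hH2, LC_II]
  unfold levi
  rw [h1, h1, h6, map_neg, LC_holI hH0, ← LC_hol hH0, LC_app hg, LC_app hg]
  ring

theorem gradm_comp_hol {f g : E → ℝ} {H : E' → E} {p : E'} (hH : DifferentiableAt ℂ H p)
    (hf : DifferentiableAt ℝ f (H p)) (hg : DifferentiableAt ℝ g (H p)) (v : E') :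
    gradm (fun q => f (H q)) (fun q => g (H q)) p v = gradm f g (H p) (fderiv ℂ H p v) := by
  have h0 : DifferentiableAt ℝ H p := (hH.hasFDerivAt.restrictScalars ℝ).differentiableAt
  have h1 : ∀ w, fderiv ℝ (fun q => f (H q)) p w = fderiv ℝ f (H p) (fderiv ℝ H p w) := by
    intro w
    rw [show (fun q => f (H q)) = f ∘ H from rfl, fderiv_comp p hf h0]
    rfl
  have h2 : ∀ w, fderiv ℝ (fun q => g (H q)) p w = fderiv ℝ g (H p) (fderiv ℝ H p w) := by
    intro w
    rw [show (fun q => g (H q)) = g ∘ H from rfl, fderiv_comp p hg h0]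
    rfl
  unfold gradm
  rw [h1, h1, h2, h2, LC_holI hH, ← LC_hol hH]

theorem LC_levi_clm (l : E →L[ℝ] ℝ) (p v : E) : levi (fun q => l q) p v = 0 := by
  unfold levi
  have h : ∀ w : E, (fun q => fderiv ℝ (fun q => l q) q w) = fun _ => l w := by
    intro w
    funext q
    rw [l.fderiv]
  rw [h, h]
  simp

theorem LC_nsq (z w : ℂ) : levi (fun q : ℂ => Complex.normSq q) z w = Complex.normSq w := by
  have h0 : (fun q : ℂ => Complex.normSq q) =
      fun q => Complex.reCLM q * Complex.reCLM q + Complex.imCLM q * Complex.imCLM q := by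
    funext q
    rw [Complex.normSq_apply]
    rfl
  have c1 : ContDiffAt ℝ 2 (fun q : ℂ => Complex.reCLM q) z := Complex.reCLM.contDiff.contDiffAt
  have c2 : ContDiffAt ℝ 2 (fun q : ℂ => Complex.imCLM q) z := Complex.imCLM.contDiff.contDiffAt
  rw [h0, levi_add (c1.mul c1) (c2.mul c2), levi_mul c1 c1, levi_mul c2 c2, LC_levi_clm,
    LC_levi_clm]
  unfold gradm
  rw [show fderiv ℝ (fun q : ℂ => Complex.reCLM q) z = Complex.reCLM from Complex.reCLM.fderiv,
    show fderiv ℝ (fun q : ℂ => Complex.imCLM q) z = Complex.imCLM from Complex.imCLM.fderiv]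
  simp only [Complex.reCLM_apply, Complex.imCLM_apply, smul_eq_mul, Complex.mul_re, Complex.mul_im,
    Complex.I_re, Complex.I_im, Complex.normSq_apply]
  ring

theorem levi_normSq {H : E → ℂ} {p : E} (hH : ∀ᶠ q in 𝓝 p, DifferentiableAt ℂ H q)
    (hH2 : ContDiffAt ℝ 2 H p) (v : E) :
    levi (fun q => Complex.normSq (H q)) p v = Complex.normSq (fderiv ℂ H p v) := by
  have c1 : ContDiffAt ℝ 2 (fun q : ℂ => Complex.normSq q) (H p) := by
    have h0 : (fun q : ℂ => Complex.normSq q) =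
        fun q => Complex.reCLM q * Complex.reCLM q + Complex.imCLM q * Complex.imCLM q := by
      funext q
      rw [Complex.normSq_apply]
      rfl
    rw [h0]
    exact (Complex.reCLM.contDiff.contDiffAt.mul Complex.reCLM.contDiff.contDiffAt).add
      (Complex.imCLM.contDiff.contDiffAt.mul Complex.imCLM.contDiff.contDiffAt)
  rw [levi_comp_hol (g := fun q : ℂ => Complex.normSq q) hH hH2 c1, LC_nsq]

theorem fderiv_normSq {H : E → ℂ} {p : E} (hH : DifferentiableAt ℂ H p) (v : E) :
    fderiv ℝ (fun q => Complex.normSq (H q)) p v = 2 * (conj (H p) * fderiv ℂ H p v).re := by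
  have h0 : HasFDerivAt H ((fderiv ℂ H p).restrictScalars ℝ) p := hH.hasFDerivAt.restrictScalars ℝ
  have h1 : HasFDerivAt (fun q => Complex.reCLM (H q))
      (Complex.reCLM.comp ((fderiv ℂ H p).restrictScalars ℝ)) p :=
    Complex.reCLM.hasFDerivAt.comp p h0
  have h2 : HasFDerivAt (fun q => Complex.imCLM (H q))
      (Complex.imCLM.comp ((fderiv ℂ H p).restrictScalars ℝ)) p :=
    Complex.imCLM.hasFDerivAt.comp p h0
  have h3 : (fun q => Complex.normSq (H q)) =
      fun q => Complex.reCLM (H q) * Complex.reCLM (H q) + Complex.imCLM (H q) * Complex.imCLM (H q) := by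
    funext q
    rw [Complex.normSq_apply]
    rfl
  have h4 : HasFDerivAt (fun q => Complex.reCLM (H q) * Complex.reCLM (H q) +
      Complex.imCLM (H q) * Complex.imCLM (H q)) _ p := (h1.mul h1).add (h2.mul h2)
  rw [h3, h4.fderiv]
  simp only [add_apply, smul_apply,
    ContinuousLinearMap.comp_apply, ContinuousLinearMap.coe_restrictScalars', smul_eq_mul,
    Complex.reCLM_apply, Complex.imCLM_apply, Complex.mul_re, Complex.conj_re, Complex.conj_im]
  ring

end Pool.Agent.H24.CU

end S_H24_CU_LC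

section S_H24_CU_LW

/-!
# Row LW (Levi form and Wirtinger derivatives on `C^3`)

PROOFS.  (1) For real `f` differentiable at `x` and `v = ∑ v_j e_j`, `v_j = a_j + i b_j`:
`Df(v) = ∑ a_j Df(e_j) + b_j Df(i e_j)`, `Df(i v) = ∑ a_j Df(i e_j) - b_j Df(e_j)`, hence
`∑_j v_j dz j f = (Df(v) - i Df(i v))/2` and `∑_k conj(v_k) dzbar k f = (Df(v) + i Df(i v))/2`
(`f` real or complex valued).  Apply it twice to `u` (`C^2` at `x`):
`∑_jk dz j (dzbar k u) v_j conj v_k = (D_v - i D_iv)(D_v + i D_iv) u / 4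
 = (D²u(v,v) + D²u(iv,iv) + i (D²u(v,iv) - D²u(iv,v)))/4`, and the last bracket is `0` by symmetry.
(`e_j = Pi.single j 1`, `i e_j = Pi.single j I`.)
(2) `exists_leviForm`: define `A x j k = if x = 0 then 0 else dz j (dzbar k u) x`.
Smooth on `{0}ᶜ`: `u` is smooth on the open set, `fderiv` of a smooth function evaluated at a constant
vector is smooth.  Homogeneity: differentiate `u (c • x) = u x`: `fderiv u (c x) (c w) = fderiv u x w`,
so `dzbar k u (c x) = (conj c)⁻¹ dzbar k u x` and `dz j (dzbar k u) (c x) = c⁻¹ (conj c)⁻¹ dz j (dzbar k u) x`.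
Basic: `u (t x) = u x` for complex `t` near `1` gives `fderiv u x x = 0 = fderiv u x (i x)` for all
`x ≠ 0`, i.e. `∑_j x_j dz j u x = 0` and `∑_k conj x_k dzbar k u x = 0` on `{0}ᶜ`.  Apply `dzbar k` to the
first and `dz j` to the second identity, using `dzbar k x_j = 0`, `dz j (conj x_k) = 0` and the
commutation `dz j (dzbar k u) = dzbar k (dz j u)` (symmetry of the second derivative).
-/

namespace Pool.Agent.H24.CU

open scoped ComplexConjugate ContDiff

open Topology in
/-- the complex linear part of a real linear map, evaluated at `w` -/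
noncomputable def LW_a (ℓ : V →L[ℝ] ℂ) (w : V) : ℂ := (ℓ w - Complex.I * ℓ (Complex.I • w)) / 2

/-- the antilinear part -/
noncomputable def LW_b (ℓ : V →L[ℝ] ℂ) (w : V) : ℂ := (ℓ w + Complex.I * ℓ (Complex.I • w)) / 2

theorem LW_I (a : ℂ) (w : V) : Complex.I • a • w = a.re • (Complex.I • w) - a.im • w := by
  rw [smul_comm, LC_c a (Complex.I • w), LC_II, smul_neg, sub_eq_add_neg]

theorem LW_a_smul (ℓ : V →L[ℝ] ℂ) (a : ℂ) (w : V) : LW_a ℓ (a • w) = a * LW_a ℓ w := by
  have e1 : ℓ (a • w) = a.re * ℓ w + a.im * ℓ (Complex.I • w) := by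
    rw [LC_c a w, map_add, map_smul, map_smul, Complex.real_smul, Complex.real_smul]
  have e2 : ℓ (Complex.I • a • w) = a.re * ℓ (Complex.I • w) - a.im * ℓ w := by
    rw [LW_I, map_sub, ℓ.map_smul a.re, ℓ.map_smul a.im, Complex.real_smul, Complex.real_smul]
  unfold LW_a
  rw [e1, e2]
  have e3 : a = a.re + a.im * Complex.I := (Complex.re_add_im a).symm
  obtain ⟨α, hα⟩ : ∃ α : ℂ, α = (a.re : ℂ) := ⟨_, rfl⟩
  obtain ⟨β, hβ⟩ : ∃ β : ℂ, β = (a.im : ℂ) := ⟨_, rfl⟩
  rw [← hα, ← hβ] at e3 ⊢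
  rw [e3]
  linear_combination (β * ℓ (Complex.I • w) / 2) * Complex.I_sq

theorem LW_b_smul (ℓ : V →L[ℝ] ℂ) (a : ℂ) (w : V) : LW_b ℓ (a • w) = conj a * LW_b ℓ w := by
  have e1 : ℓ (a • w) = a.re * ℓ w + a.im * ℓ (Complex.I • w) := by
    rw [LC_c a w, map_add, map_smul, map_smul, Complex.real_smul, Complex.real_smul]
  have e2 : ℓ (Complex.I • a • w) = a.re * ℓ (Complex.I • w) - a.im * ℓ w := by
    rw [LW_I, map_sub, ℓ.map_smul a.re, ℓ.map_smul a.im, Complex.real_smul, Complex.real_smul]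
  unfold LW_b
  rw [e1, e2]
  have e3 : conj a = a.re - a.im * Complex.I := by
    apply Complex.ext <;> simp
  rw [e3]
  linear_combination ((a.im : ℂ) * ℓ (Complex.I • w) / 2) * Complex.I_sq

theorem LW_dec (v : V) : v = ∑ j, v j • (Pi.single j (1 : ℂ) : V) := by
  funext i
  simp [Finset.sum_apply, Pi.single_apply]

theorem LW_a_sum (ℓ : V →L[ℝ] ℂ) (v : V) :
    LW_a ℓ v = ∑ j, LW_a ℓ (Pi.single j 1) * v j := by
  have h : LW_a ℓ v = ∑ j, LW_a ℓ (v j • (Pi.single j (1 : ℂ) : V)) := by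
    conv_lhs => rw [LW_dec v]
    unfold LW_a
    rw [Finset.smul_sum, map_sum, map_sum, Finset.mul_sum, ← Finset.sum_sub_distrib,
      Finset.sum_div]
  rw [h]
  refine Finset.sum_congr rfl fun j _ => ?_
  rw [LW_a_smul, mul_comm]

theorem LW_b_sum (ℓ : V →L[ℝ] ℂ) (v : V) :
    LW_b ℓ v = ∑ j, LW_b ℓ (Pi.single j 1) * conj (v j) := by
  have h : LW_b ℓ v = ∑ j, LW_b ℓ (v j • (Pi.single j (1 : ℂ) : V)) := by
    conv_lhs => rw [LW_dec v]
    unfold LW_b
    rw [Finset.smul_sum, map_sum, map_sum, Finset.mul_sum, ← Finset.sum_add_distrib,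
      Finset.sum_div]
  rw [h]
  refine Finset.sum_congr rfl fun j _ => ?_
  rw [LW_b_smul, mul_comm]

theorem LW_single (j : Fin 3) : Complex.I • (Pi.single j (1 : ℂ) : V) = Pi.single j Complex.I := by
  funext i
  simp [Pi.single_apply]

theorem LW_dz (j : Fin 3) (f : V → ℂ) (x : V) :
    dz j f x = LW_a (fderiv ℝ f x) (Pi.single j 1) := by
  unfold dz LW_a
  rw [LW_single]

theorem LW_dzbar (j : Fin 3) (f : V → ℂ) (x : V) :
    dzbar j f x = LW_b (fderiv ℝ f x) (Pi.single j 1) := by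
  unfold dzbar LW_b
  rw [LW_single]

theorem LW_real {u : V → ℝ} {x : V} (hu : ContDiffAt ℝ 2 u x) (v w : V) :
    fderiv ℝ (fderiv ℝ (fun y => (u y : ℂ))) x w v =
      ((fderiv ℝ (fun q => fderiv ℝ u q v) x w : ℝ) : ℂ) := by
  have hU : ContDiffAt ℝ 2 (fun y => (u y : ℂ)) x :=
    Complex.ofRealCLM.contDiff.contDiffAt.comp x hu
  rw [← LC_app hU]
  have h1 : (fun q => fderiv ℝ (fun y => (u y : ℂ)) q v) =ᶠ[nhds x]
      fun q => ((fderiv ℝ u q v : ℝ) : ℂ) := by
    filter_upwards [LC_ev hu] with q hq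
    have h2 : HasFDerivAt (fun y => (u y : ℂ)) (Complex.ofRealCLM.comp (fderiv ℝ u q)) q :=
      Complex.ofRealCLM.hasFDerivAt.comp q hq.hasFDerivAt
    rw [h2.fderiv]
    rfl
  rw [h1.fderiv_eq]
  have h3 : HasFDerivAt (fun q => ((fderiv ℝ u q v : ℝ) : ℂ))
      (Complex.ofRealCLM.comp (fderiv ℝ (fun q => fderiv ℝ u q v) x)) x :=
    Complex.ofRealCLM.hasFDerivAt.comp x (LC_dapp hu v).hasFDerivAt
  rw [h3.fderiv]
  rfl

theorem LW_dbar_fderiv {U : V → ℂ} {x : V} (hU : ContDiffAt ℝ 2 U x) (k : Fin 3) (w : V) :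
    fderiv ℝ (dzbar k U) x w = LW_b (fderiv ℝ (fderiv ℝ U) x w) (Pi.single k 1) := by
  have h1 : dzbar k U = fun q => (fderiv ℝ U q (Pi.single k 1) +
      Complex.I * fderiv ℝ U q (Pi.single k Complex.I)) / 2 := rfl
  have d1 := LC_dapp hU (Pi.single k (1 : ℂ))
  have d2 := LC_dapp hU (Pi.single k Complex.I)
  have h2 : HasFDerivAt (fun q => (fderiv ℝ U q (Pi.single k 1) +
      Complex.I * fderiv ℝ U q (Pi.single k Complex.I)) * (2 : ℂ)⁻¹) _ x :=
    (d1.hasFDerivAt.add (d2.hasFDerivAt.const_mul Complex.I)).mul_const (2 : ℂ)⁻¹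
  have h3 : dzbar k U = fun q => (fderiv ℝ U q (Pi.single k 1) +
      Complex.I * fderiv ℝ U q (Pi.single k Complex.I)) * (2 : ℂ)⁻¹ := by
    rw [h1]
    funext q
    rw [div_eq_mul_inv]
  rw [h3, h2.fderiv]
  simp only [add_apply, smul_apply, smul_eq_mul]
  rw [LC_app hU, LC_app hU]
  unfold LW_b
  rw [LW_single]
  ring

theorem sum_dz_dzbar {u : V → ℝ} {x : V} (hu : ContDiffAt ℝ 2 u x) (v : V) :
    ∑ j, ∑ k, dz j (dzbar k (fun y => (u y : ℂ))) x * v j * conj (v k) =
      ((levi u x v : ℝ) : ℂ) := by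
  have hU : ContDiffAt ℝ 2 (fun y => (u y : ℂ)) x :=
    Complex.ofRealCLM.contDiff.contDiffAt.comp x hu
  rw [Finset.sum_comm]
  have h1 : ∀ k, ∑ j, dz j (dzbar k (fun y => (u y : ℂ))) x * v j * conj (v k) =
      LW_a (fderiv ℝ (dzbar k (fun y => (u y : ℂ))) x) v * conj (v k) := by
    intro k
    rw [LW_a_sum, Finset.sum_mul]
    refine Finset.sum_congr rfl fun j _ => ?_
    rw [LW_dz]
  rw [Finset.sum_congr rfl fun k _ => h1 k]
  have h2 : ∀ k, LW_a (fderiv ℝ (dzbar k (fun y => (u y : ℂ))) x) v * conj (v k) =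
      (LW_b (fderiv ℝ (fderiv ℝ (fun y => (u y : ℂ))) x v) (Pi.single k 1) * conj (v k) -
        Complex.I * (LW_b (fderiv ℝ (fderiv ℝ (fun y => (u y : ℂ))) x (Complex.I • v))
          (Pi.single k 1) * conj (v k))) / 2 := by
    intro k
    rw [LW_a, LW_dbar_fderiv hU, LW_dbar_fderiv hU]
    ring
  rw [Finset.sum_congr rfl fun k _ => h2 k, ← Finset.sum_div, Finset.sum_sub_distrib,
    ← Finset.mul_sum, ← LW_b_sum, ← LW_b_sum]
  unfold LW_b
  rw [LC_symm hU (Complex.I • v) v, LW_real hu, LW_real hu, LW_real hu]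
  unfold levi
  push_cast
  linear_combination (-(1 / 4 : ℂ) *
    ((fderiv ℝ (fun q => fderiv ℝ u q (Complex.I • v)) x (Complex.I • v) : ℝ) : ℂ)) * Complex.I_sq

theorem LW_open : IsOpen ({0}ᶜ : Set V) := isOpen_compl_singleton

theorem LW_chain {g : V → ℂ} {c μ : ℂ} (hc : c ≠ 0) (hg : ∀ y : V, y ≠ 0 → g (c • y) = μ * g y)
    (hd : ∀ y : V, y ≠ 0 → DifferentiableAt ℝ g y) {x : V} (hx : x ≠ 0) (w : V) :
    fderiv ℝ g (c • x) (c • w) = μ * fderiv ℝ g x w := by
  have hcx : c • x ≠ 0 := smul_ne_zero hc hx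
  obtain ⟨L, hL⟩ : ∃ L : V →L[ℝ] V, ∀ y, L y = c • y :=
    ⟨((c • ContinuousLinearMap.id ℂ V).restrictScalars ℝ), fun y => rfl⟩
  have h1 : HasFDerivAt (fun y => g (L y)) ((fderiv ℝ g (L x)).comp L) x :=
    HasFDerivAt.comp (g := g) x (by rw [hL]; exact (hd _ hcx).hasFDerivAt) L.hasFDerivAt
  have h2 : HasFDerivAt (fun y => μ * g y) (μ • fderiv ℝ g x) x :=
    (hd x hx).hasFDerivAt.const_mul μ
  have h3 : (fun y => g (L y)) =ᶠ[nhds x] fun y => μ * g y := by
    filter_upwards [LW_open.mem_nhds hx] with y hy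
    rw [hL]
    exact hg y hy
  have h4 := (h1.congr_of_eventuallyEq h3.symm).unique h2
  have h5 := DFunLike.congr_fun h4 w
  rw [ContinuousLinearMap.comp_apply, hL, hL] at h5
  exact h5

theorem LW_euler {g : V → ℂ} {m : ℂ → ℂ} (hg : ∀ (c : ℂ) (y : V), c ≠ 0 → y ≠ 0 →
      g (c • y) = m c * g y) {x : V} (hx : x ≠ 0)
    (hd : DifferentiableAt ℝ g x) (a m' : ℂ) (hm : HasDerivAt (fun t : ℝ => m (1 + t * a)) m' 0) :
    fderiv ℝ g x (a • x) = m' * g x := by
  have h1 : HasDerivAt (fun t : ℝ => g (x + t • (a • x))) (fderiv ℝ g x (a • x)) 0 := by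
    have h2 : HasDerivAt (fun t : ℝ => x + t • (a • x)) ((1 : ℝ) • (a • x)) 0 :=
      ((hasDerivAt_id (0 : ℝ)).smul_const (a • x)).const_add x
    rw [one_smul] at h2
    have h3 : HasFDerivAt g (fderiv ℝ g x) (x + (0 : ℝ) • (a • x)) := by
      rw [zero_smul, add_zero]
      exact hd.hasFDerivAt
    exact h3.comp_hasDerivAt 0 h2
  have h4 : HasDerivAt (fun t : ℝ => m (1 + t * a) * g x) (m' * g x) 0 := hm.mul_const _
  have h5 : (fun t : ℝ => g (x + t • (a • x))) =ᶠ[nhds 0] fun t : ℝ => m (1 + t * a) * g x := by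
    have h6 : ContinuousAt (fun t : ℝ => 1 + (t : ℂ) * a) 0 := by fun_prop
    have h7 : ∀ᶠ t : ℝ in nhds 0, 1 + (t : ℂ) * a ≠ 0 := h6.eventually_ne (by simp)
    filter_upwards [h7] with t ht
    rw [← hg _ x ht hx]
    congr 1
    rw [add_smul, one_smul, mul_smul]
    rfl
  exact (h1.congr_of_eventuallyEq h5.symm).unique h4

theorem LW_hom_a {g : V → ℂ} {c μ : ℂ} (hc : c ≠ 0) (hg : ∀ y : V, y ≠ 0 → g (c • y) = μ * g y)
    (hd : ∀ y : V, y ≠ 0 → DifferentiableAt ℝ g y) {x : V} (hx : x ≠ 0) (w : V) :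
    LW_a (fderiv ℝ g (c • x)) w = c⁻¹ * μ * LW_a (fderiv ℝ g x) w := by
  have h1 : ∀ w, fderiv ℝ g (c • x) w = μ * fderiv ℝ g x (c⁻¹ • w) := by
    intro w
    rw [← LW_chain hc hg hd hx, smul_smul, mul_inv_cancel₀ hc, one_smul]
  have h2 : LW_a (fderiv ℝ g (c • x)) w = μ * LW_a (fderiv ℝ g x) (c⁻¹ • w) := by
    unfold LW_a
    rw [h1, h1, smul_comm c⁻¹ Complex.I w]
    ring
  rw [h2, LW_a_smul]
  ring

theorem LW_hom_b {g : V → ℂ} {c μ : ℂ} (hc : c ≠ 0) (hg : ∀ y : V, y ≠ 0 → g (c • y) = μ * g y)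
    (hd : ∀ y : V, y ≠ 0 → DifferentiableAt ℝ g y) {x : V} (hx : x ≠ 0) (w : V) :
    LW_b (fderiv ℝ g (c • x)) w = (conj c)⁻¹ * μ * LW_b (fderiv ℝ g x) w := by
  have h1 : ∀ w, fderiv ℝ g (c • x) w = μ * fderiv ℝ g x (c⁻¹ • w) := by
    intro w
    rw [← LW_chain hc hg hd hx, smul_smul, mul_inv_cancel₀ hc, one_smul]
  have h2 : LW_b (fderiv ℝ g (c • x)) w = μ * LW_b (fderiv ℝ g x) (c⁻¹ • w) := by
    unfold LW_b
    rw [h1, h1, smul_comm c⁻¹ Complex.I w]
    ring
  rw [h2, LW_b_smul, map_inv₀]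
  ring

theorem LW_smooth_fd {g : V → ℂ} (hg : ContDiffOn ℝ ∞ g {0}ᶜ) (w : V) :
    ContDiffOn ℝ ∞ (fun x => fderiv ℝ g x w) {0}ᶜ :=
  (hg.fderiv_of_isOpen LW_open (by simp)).clm_apply contDiffOn_const

theorem LW_smooth_dzbar {g : V → ℂ} (hg : ContDiffOn ℝ ∞ g {0}ᶜ) (k : Fin 3) :
    ContDiffOn ℝ ∞ (dzbar k g) {0}ᶜ :=
  ((LW_smooth_fd hg _).add (contDiffOn_const.mul (LW_smooth_fd hg _))).div_const 2

theorem LW_smooth_dz {g : V → ℂ} (hg : ContDiffOn ℝ ∞ g {0}ᶜ) (k : Fin 3) :
    ContDiffOn ℝ ∞ (dz k g) {0}ᶜ :=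
  ((LW_smooth_fd hg _).sub (contDiffOn_const.mul (LW_smooth_fd hg _))).div_const 2

theorem LW_diff {g : V → ℂ} (hg : ContDiffOn ℝ ∞ g {0}ᶜ) (y : V) (hy : y ≠ 0) :
    DifferentiableAt ℝ g y :=
  (hg.differentiableOn (by simp)).differentiableAt (LW_open.mem_nhds hy)

theorem exists_leviForm (u : V → ℂ) (hu : IsFun u) :
    ∃ A : Form11, ∀ x : V, x ≠ 0 → ∀ j k, A.1 x j k = dz j (dzbar k u) x := by
  classical
  have hs := hu.smooth
  have hd := LW_diff hs
  have hsk : ∀ k, ContDiffOn ℝ ∞ (dzbar k u) {0}ᶜ := LW_smooth_dzbar hs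
  have hdk : ∀ k, ∀ y : V, y ≠ 0 → DifferentiableAt ℝ (dzbar k u) y := fun k => LW_diff (hsk k)
  have homk : ∀ (k : Fin 3) (c : ℂ) (y : V), c ≠ 0 → y ≠ 0 →
      dzbar k u (c • y) = (conj c)⁻¹ * dzbar k u y := by
    intro k c y hc hy
    rw [LW_dzbar, LW_dzbar, LW_hom_b (μ := 1) hc (fun z hz => by rw [one_mul]; exact hu.hom c z hc hz)
      hd hy, mul_one]
  refine ⟨⟨fun x => if x = 0 then 0 else Matrix.of fun j k => dz j (dzbar k u) x, ?_, ?_, ?_, ?_⟩, ?_⟩
  · intro j k
    refine (LW_smooth_dz (hsk k) j).congr ?_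
    intro x hx
    have hx' : x ≠ 0 := hx
    simp only [if_neg hx', Matrix.of_apply]
  · simp
  · intro c x hc hx
    have hcx : c • x ≠ 0 := smul_ne_zero hc hx
    simp only [if_neg hx, if_neg hcx]
    ext j k
    rw [Matrix.smul_apply, Matrix.of_apply, Matrix.of_apply, LW_dz, LW_dz,
      LW_hom_a hc (fun y hy => homk k c y hc hy) (hdk k) hx, smul_eq_mul, ← mul_inv,
      Complex.mul_conj]
  · intro x hx
    simp only [if_neg hx, Matrix.of_apply]
    constructor
    · intro k
      have h1 : ∑ j, x j * dz j (dzbar k u) x = LW_a (fderiv ℝ (dzbar k u) x) x := by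
        rw [LW_a_sum]
        refine Finset.sum_congr rfl fun j _ => ?_
        rw [LW_dz, mul_comm]
      have hmd : ∀ a : ℂ, HasDerivAt (fun t : ℝ => (conj (1 + (t : ℂ) * a))⁻¹) (-conj a) 0 := by
        intro a
        have h2 : HasDerivAt (fun t : ℝ => 1 + (t : ℂ) * conj a) (1 * conj a) 0 :=
          ((Complex.ofRealCLM.hasDerivAt (x := (0 : ℝ))).mul_const (conj a)).const_add 1
        have h3 := h2.inv (by simp)
        have h4 : (fun t : ℝ => (conj (1 + (t : ℂ) * a))⁻¹) =
            (fun t : ℝ => 1 + (t : ℂ) * conj a)⁻¹ := by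
          funext t
          simp
        rw [h4]
        refine h3.congr_deriv ?_
        simp
      have e1 := LW_euler (g := dzbar k u) (m := fun c => (conj c)⁻¹) (homk k) hx (hdk k x hx) 1 _
        (hmd 1)
      have e2 := LW_euler (g := dzbar k u) (m := fun c => (conj c)⁻¹) (homk k) hx (hdk k x hx)
        Complex.I _ (hmd Complex.I)
      rw [one_smul] at e1
      rw [h1, LW_a, e1, e2, Complex.conj_I, map_one]
      linear_combination (-(1 / 2 : ℂ) * dzbar k u x) * Complex.I_sq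
    · intro j
      have hG : (fun y : V => ∑ k, dzbar k u y * conj (y k)) =ᶠ[nhds x] fun _ => 0 := by
        filter_upwards [LW_open.mem_nhds hx] with y hy
        have hy' : y ≠ 0 := hy
        have h1 : ∑ k, dzbar k u y * conj (y k) = LW_b (fderiv ℝ u y) y := by
          rw [LW_b_sum]
          refine Finset.sum_congr rfl fun k _ => ?_
          rw [LW_dzbar]
        have e1 := LW_euler (g := u) (m := fun _ => 1)
          (fun c z hc hz => by rw [one_mul]; exact hu.hom c z hc hz) hy' (hd y hy') 1 0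
          (hasDerivAt_const _ _)
        have e2 := LW_euler (g := u) (m := fun _ => 1)
          (fun c z hc hz => by rw [one_mul]; exact hu.hom c z hc hz) hy' (hd y hy') Complex.I 0
          (hasDerivAt_const _ _)
        rw [one_smul] at e1
        rw [h1, LW_b, e1, e2]
        simp
      obtain ⟨c, hc⟩ : ∃ c : Fin 3 → (V →L[ℝ] ℂ), ∀ k y, c k y = conj (y k) :=
        ⟨fun k => (Complex.conjCLE : ℂ →L[ℝ] ℂ).comp
          ((ContinuousLinearMap.proj (R := ℂ) (φ := fun _ : Fin 3 => ℂ) k).restrictScalars ℝ),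
          fun k y => rfl⟩
      have hGd : HasFDerivAt (fun y : V => ∑ k, dzbar k u y * c k y)
          (∑ k, (dzbar k u x • c k + c k x • fderiv ℝ (dzbar k u) x)) x :=
        HasFDerivAt.fun_sum fun k _ => ((hdk k x hx).hasFDerivAt).mul (c k).hasFDerivAt
      have hG' : (fun y : V => ∑ k, dzbar k u y * c k y) =ᶠ[nhds x] fun _ => 0 := by
        refine hG.mono fun y hy => ?_
        rw [← hy]
        exact Finset.sum_congr rfl fun k _ => by rw [hc]
      have h0 := (hGd.congr_of_eventuallyEq hG'.symm).unique (hasFDerivAt_const (0 : ℂ) x)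
      have h1 : ∀ w : V, ∑ k, (dzbar k u x * conj (w k) +
          conj (x k) * fderiv ℝ (dzbar k u) x w) = 0 := by
        intro w
        have h2 := DFunLike.congr_fun h0 w
        rw [_root_.sum_apply] at h2
        simp only [add_apply, smul_apply, smul_eq_mul, hc, zero_apply] at h2
        exact h2
      have h3 := h1 (Pi.single j 1)
      have h4 := h1 (Complex.I • Pi.single j 1)
      have h5 : ∑ k, dz j (dzbar k u) x * conj (x k) =
          ((∑ k, (dzbar k u x * conj ((Pi.single j (1 : ℂ) : V) k) +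
          conj (x k) * fderiv ℝ (dzbar k u) x (Pi.single j 1))) - Complex.I *
          (∑ k, (dzbar k u x * conj ((Complex.I • (Pi.single j (1 : ℂ) : V)) k) +
          conj (x k) * fderiv ℝ (dzbar k u) x (Complex.I • Pi.single j 1)))) / 2 := by
        rw [Finset.mul_sum, ← Finset.sum_sub_distrib, Finset.sum_div]
        refine Finset.sum_congr rfl fun k _ => ?_
        rw [LW_dz, LW_a, Pi.smul_apply, smul_eq_mul, map_mul, Complex.conj_I]
        linear_combination (-(1 / 2 : ℂ) * dzbar k u x *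
          conj ((Pi.single j (1 : ℂ) : V) k)) * Complex.I_sq
      rw [h5, h3, h4]
      simp
  · intro x hx j k
    show (if x = 0 then (0 : Matrix (Fin 3) (Fin 3) ℂ) else
      Matrix.of fun j k => dz j (dzbar k u) x) j k = _
    rw [if_neg hx, Matrix.of_apply]

end Pool.Agent.H24.CU

end S_H24_CU_LW

section S_H85_DC_FrmA

/-!
# Row FrmA: examples of forms

`form_L`: entries `dz j (dzb k u) : Hom (-1) (-1)` (`dzb_hom`, `dz_hom`), so continuous off `0` and
homogeneous (`l^(-1) conj(l)^(-1) = (normSq l)⁻¹`); `∑ x_j dz j (dzb k u) = 0` by Euler since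
`dzb k u : Hom 0 (-1)`; `∑_k dz j (dzb k u) conj(x_k)`: by `dz_dzb_comm` equals `∑_k dzb k (dz j u) conj(x_k) = 0`,
Euler for `dz j u : Hom (-1) 0`.
`form_db`: entries `dzb k ζ_j : Hom (-1) (-1)`, `∑_k conj(x_k) dzb k ζ_j = 0` (Euler), `∑_j x_j dzb k ζ_j =
dzb k (∑_j x_j ζ_j) - 0 = 0` (product rule; `∑_j x_j ζ_j = 0` off `0`, `dzb_congr`).
`form_Wm`: direct computation.
`form_bound`: `chom_bound` for the 9 entries, `a + b = -2`, so `‖A x j k‖^2 ≤ C (N x)^(-2)`.
`continuousOn` of a matrix valued function: `continuousOn_pi`.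
`form_smul_fun`: multiplication by a continuous function of degree `0`.
`psd_Wm`: `∑ Wm_jk v_j conj(v_k) = (N v - |⟨v, x⟩|^2 / N x)/N x ≥ 0` by Cauchy-Schwarz. Here positivity of a
form is stated with `quad`: `0 ≤ (quad A w).re` for all `w` and `A.IsHermitian`.
-/

open MeasureTheory
open scoped ContDiff BigOperators ComplexConjugate Matrix

namespace Pool.Agent.H85.DC

theorem FrmA_inv (l : ℂ) :
    ((Complex.normSq l : ℂ))⁻¹ = l ^ (-1 : ℤ) * (conj l) ^ (-1 : ℤ) := by
  rw [← Complex.mul_conj, mul_inv, zpow_neg_one, zpow_neg_one]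

theorem FrmA_N (x : V) : (N x : ℂ) = ∑ j, x j * conj (x j) := by
  unfold N
  push_cast
  exact Finset.sum_congr rfl fun j _ => (Complex.mul_conj _).symm

theorem FrmA_cont {A : V → M3} (h : ∀ j k, ContinuousOn (fun x => A x j k) {0}ᶜ) :
    ContinuousOn A {0}ᶜ :=
  continuousOn_pi.2 fun j => continuousOn_pi.2 fun k => h j k

theorem FrmA_mk {A : V → M3} (h : ∀ j k, CHom (-1) (-1) (fun x => A x j k))
    (hl : ∀ x : V, x ≠ 0 → ∀ k, ∑ j, x j * A x j k = 0)
    (hr : ∀ x : V, x ≠ 0 → ∀ j, ∑ k, A x j k * conj (x k) = 0) : IsForm A := by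
  refine ⟨FrmA_cont fun j k => (h j k).cont, ?_, hl, hr⟩
  intro l x hl
  funext j k
  have h1 := (h j k).hom l x hl
  rw [← FrmA_inv] at h1
  exact h1

theorem form_chom {A : V → M3} (hA : IsForm A) (j k : Fin 3) : CHom (-1) (-1) (fun x => A x j k) := by
  refine ⟨?_, ?_⟩
  · exact (continuous_id.matrix_elem j k).comp_continuousOn hA.cont
  · intro l x hl
    have h1 := hA.hom l x hl
    rw [← FrmA_inv]
    show A (l • x) j k = _
    rw [h1]
    rfl

theorem form_bound {A : V → M3} (hA : IsForm A) :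
    ∃ C : ℝ, 0 ≤ C ∧ ∀ x : V, x ≠ 0 → ∀ j k, ‖A x j k‖ ≤ C / N x := by
  choose C hC0 hC using fun j k => chom_bound (form_chom hA j k)
  refine ⟨∑ j, ∑ k, Real.sqrt (C j k),
    Finset.sum_nonneg fun _ _ => Finset.sum_nonneg fun _ _ => Real.sqrt_nonneg _, ?_⟩
  intro x hx j k
  have hN := N_pos hx
  have h1 := hC j k x hx
  have h2 : (N x) ^ ((-1 : ℤ) + -1) = ((N x)⁻¹) ^ 2 := by
    rw [show ((-1 : ℤ) + -1) = -((2 : ℕ) : ℤ) by norm_num, zpow_neg, zpow_natCast, inv_pow]
  rw [h2] at h1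
  have h3 : ‖A x j k‖ ≤ Real.sqrt (C j k) * (N x)⁻¹ := by
    have h4 := Real.sqrt_le_sqrt h1
    rw [Real.sqrt_sq (norm_nonneg _), Real.sqrt_mul (hC0 j k), Real.sqrt_sq (inv_nonneg.2 hN.le)]
      at h4
    exact h4
  have h5 : Real.sqrt (C j k) ≤ ∑ j, ∑ k, Real.sqrt (C j k) := by
    refine le_trans ?_ (Finset.single_le_sum (f := fun j => ∑ k, Real.sqrt (C j k))
      (fun _ _ => Finset.sum_nonneg fun _ _ => Real.sqrt_nonneg _) (Finset.mem_univ j))
    exact Finset.single_le_sum (f := fun k => Real.sqrt (C j k))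
      (fun _ _ => Real.sqrt_nonneg _) (Finset.mem_univ k)
  rw [div_eq_mul_inv]
  exact h3.trans (mul_le_mul_of_nonneg_right h5 (inv_nonneg.2 hN.le))

theorem form_L {u : V → ℂ} (hu : IsFun u) : IsForm (L u) := by
  have h0 := isFun_iff.mp hu
  refine FrmA_mk ?_ ?_ ?_
  · intro j k
    have h1 := dz_hom j (dzb_hom k h0)
    have h2 : Hom (-1) (-1) (dz j (dzb k u)) := by simpa using h1
    exact h2.chom
  · intro x hx k
    have h1 := euler (dzb_hom k h0) hx
    have h2 : ∑ j, x j * L u x j k = ∑ j, x j * dz j (dzb k u) x := rfl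
    rw [h2, h1]
    simp
  · intro x hx j
    have h1 := eulerb (dz_hom j h0) hx
    have h2 : ∑ k, L u x j k * conj (x k) = ∑ k, conj (x k) * dzb k (dz j u) x := by
      refine Finset.sum_congr rfl fun k _ => ?_
      have h3 : L u x j k = dz j (dzb k u) x := rfl
      rw [h3, dz_dzb_comm j k hu.smooth hx]
      ring
    rw [h2, h1]
    simp

theorem herm_L {u : V → ℂ} (hu : IsFun u) (ru : IsRe u) : IsHerm (L u) := by
  intro x hx
  refine Matrix.IsHermitian.ext fun j k => ?_
  have h1 : L u x k j = dz k (dzb j u) x := rfl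
  have h2 : L u x j k = dz j (dzb k u) x := rfl
  have h3 : (fun y => conj (u y)) = u := funext ru
  have h4 : (fun y => conj (dzb j u y)) = dz j u := by
    funext y
    rw [conj_dzb, h3]
  rw [h1, h2]
  show conj (dz k (dzb j u) x) = _
  rw [conj_dz, h4, dz_dzb_comm j k hu.smooth hx]

theorem form_db {ζ : V → V} (hζ : IsCov ζ) : IsForm (db ζ) := by
  refine FrmA_mk ?_ ?_ ?_
  · intro j k
    have h1 := dzb_hom k (isCov_hom hζ j)
    have h2 : Hom (-1) (-1) (dzb k (fun x => ζ x j)) := by simpa using h1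
    exact h2.chom
  · intro x hx k
    have h1 : dzb k (fun y => ∑ j, y j * ζ y j) x = 0 := by
      rw [dzb_congr (g := fun _ => 0) k hx (fun y hy => hζ.kill y hy), dzb_const]
    have h2 : dzb k (fun y => ∑ j, y j * ζ y j) x = ∑ j, x j * dzb k (fun y => ζ y j) x := by
      rw [dzb_sum k Finset.univ (fun j y => y j * ζ y j) (fun j _ =>
        ((hom_coord j).diffAt hx).mul ((isCov_hom hζ j).diffAt hx))]
      refine Finset.sum_congr rfl fun j _ => ?_
      rw [dzb_mul k ((hom_coord j).diffAt hx) ((isCov_hom hζ j).diffAt hx), dzb_coord]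
      ring
    rw [h1] at h2
    exact h2.symm
  · intro x hx j
    have h1 := eulerb (isCov_hom hζ j) hx
    have h2 : ∑ k, db ζ x j k * conj (x k) = ∑ k, conj (x k) * dzb k (fun y => ζ y j) x :=
      Finset.sum_congr rfl fun k _ => mul_comm _ _
    rw [h2, h1]
    simp

theorem FrmA_Wm (x : V) (j k : Fin 3) :
    Wm x j k = ((if j = k then 1 else 0) - conj (x j) * x k / (N x : ℂ)) / (N x : ℂ) := rfl

theorem FrmA_N_ne {x : V} (hx : x ≠ 0) : (N x : ℂ) ≠ 0 :=
  Complex.ofReal_ne_zero.2 (N_pos hx).ne'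

theorem herm_Wm : IsHerm Wm := by
  intro x _
  refine Matrix.IsHermitian.ext fun j k => ?_
  show conj (Wm x k j) = Wm x j k
  rw [FrmA_Wm, FrmA_Wm]
  simp only [map_div₀, map_sub, map_mul, Complex.conj_conj, Complex.conj_ofReal]
  have h1 : conj (if k = j then (1 : ℂ) else 0) = if j = k then 1 else 0 := by
    by_cases h : j = k
    · rw [if_pos h, if_pos h.symm, map_one]
    · rw [if_neg h, if_neg (fun h' => h h'.symm), map_zero]
  rw [h1]
  ring

theorem form_Wm : IsForm Wm := by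
  have hkl : ∀ x : V, x ≠ 0 → ∀ k, ∑ j, x j * Wm x j k = 0 := by
    intro x hx k
    have hn := FrmA_N_ne hx
    have h1 : ∀ j, x j * Wm x j k = (x j * (if j = k then 1 else 0)) * (N x : ℂ)⁻¹ -
        (x j * conj (x j)) * (x k * ((N x : ℂ)⁻¹ * (N x : ℂ)⁻¹)) := by
      intro j
      rw [FrmA_Wm]
      ring
    simp only [h1, Finset.sum_sub_distrib, ← Finset.sum_mul]
    rw [← FrmA_N]
    simp only [mul_ite, mul_one, mul_zero, Finset.sum_ite_eq', Finset.mem_univ, if_true]
    field_simp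
    ring
  refine FrmA_mk ?_ hkl ?_
  · intro j k
    have h1 := hom_mul (hom_mul (hom_conj_coord j) (hom_coord k)) hom_Ninv
    have h2 : Hom 0 0 (fun x => conj (x j) * x k * ((N x : ℂ))⁻¹) := by simpa using h1
    have h3 := hom_mul (hom_add (hom_const (if j = k then (1 : ℂ) else 0)) (hom_neg h2)) hom_Ninv
    have h4 : Hom (-1) (-1) (fun x => ((if j = k then (1 : ℂ) else 0) +
      -(conj (x j) * x k * ((N x : ℂ))⁻¹)) * ((N x : ℂ))⁻¹) := by simpa using h3
    have h5 : (fun x => Wm x j k) = (fun x : V => ((if j = k then (1 : ℂ) else 0) +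
      -(conj (x j) * x k * ((N x : ℂ))⁻¹)) * ((N x : ℂ))⁻¹) := by
      funext x
      rw [FrmA_Wm]
      ring
    rw [h5]
    exact h4.chom
  · intro x hx j
    have h1 := congrArg (starRingEnd ℂ) (hkl x hx j)
    rw [map_sum, map_zero] at h1
    rw [← h1]
    refine Finset.sum_congr rfl fun k _ => ?_
    have h2 := (herm_Wm x hx).apply j k
    have h3 : conj (Wm x k j) = Wm x j k := h2
    rw [map_mul, h3]
    ring

theorem quad_Wm {x : V} (hx : x ≠ 0) (w : V) :
    quad (Wm x) w = (((N w - Complex.normSq (ip w x) / N x) / N x : ℝ) : ℂ) := by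
  have hn := FrmA_N_ne hx
  unfold quad
  have h1 : ∀ j k, Wm x j k * w j * conj (w k) =
      ((if j = k then 1 else 0) * (w j * conj (w k))) * (N x : ℂ)⁻¹ -
        (w j * conj (x j)) * (x k * conj (w k)) * ((N x : ℂ)⁻¹ * (N x : ℂ)⁻¹) := by
    intro j k
    rw [FrmA_Wm]
    ring
  simp only [h1, Finset.sum_sub_distrib, ← Finset.sum_mul]
  have h2 : ∑ j, ∑ k, (if j = k then (1 : ℂ) else 0) * (w j * conj (w k)) = (N w : ℂ) := by
    rw [FrmA_N]
    refine Finset.sum_congr rfl fun j _ => ?_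
    simp
  have h3 : ∑ j, ∑ k, (w j * conj (x j)) * (x k * conj (w k)) =
      ((Complex.normSq (ip w x) : ℝ) : ℂ) := by
    rw [← Complex.mul_conj]
    unfold ip
    rw [map_sum, Finset.sum_mul_sum]
    refine Finset.sum_congr rfl fun j _ => Finset.sum_congr rfl fun k _ => ?_
    rw [map_mul, Complex.conj_conj]
    ring
  rw [h2, h3]
  push_cast
  field_simp

theorem trace_Wm {x : V} (hx : x ≠ 0) : (Wm x).trace = 2 / (N x : ℂ) := by
  have hn := FrmA_N_ne hx
  rw [Matrix.trace]
  have h1 : ∀ j, Matrix.diag (Wm x) j = (N x : ℂ)⁻¹ -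
      (x j * conj (x j)) * ((N x : ℂ)⁻¹ * (N x : ℂ)⁻¹) := by
    intro j
    rw [Matrix.diag_apply, FrmA_Wm, if_pos rfl]
    ring
  simp only [h1, Finset.sum_sub_distrib, ← Finset.sum_mul]
  rw [← FrmA_N, Finset.sum_const, Finset.card_univ, Fintype.card_fin, nsmul_eq_mul]
  push_cast
  field_simp
  ring

theorem form_add {A B : V → M3} (hA : IsForm A) (hB : IsForm B) : IsForm (fun x => A x + B x) := by
  refine ⟨hA.cont.add hB.cont, ?_, ?_, ?_⟩
  · intro l x hl
    show A (l • x) + B (l • x) = _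
    rw [hA.hom l x hl, hB.hom l x hl, smul_add]
  · intro x hx k
    simp only [Matrix.add_apply, mul_add, Finset.sum_add_distrib]
    rw [hA.killl x hx k, hB.killl x hx k, add_zero]
  · intro x hx j
    simp only [Matrix.add_apply, add_mul, Finset.sum_add_distrib]
    rw [hA.killr x hx j, hB.killr x hx j, add_zero]

theorem form_sub {A B : V → M3} (hA : IsForm A) (hB : IsForm B) : IsForm (fun x => A x - B x) := by
  refine ⟨hA.cont.sub hB.cont, ?_, ?_, ?_⟩
  · intro l x hl
    show A (l • x) - B (l • x) = _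
    rw [hA.hom l x hl, hB.hom l x hl, smul_sub]
  · intro x hx k
    simp only [Matrix.sub_apply, mul_sub, Finset.sum_sub_distrib]
    rw [hA.killl x hx k, hB.killl x hx k, sub_zero]
  · intro x hx j
    simp only [Matrix.sub_apply, sub_mul, Finset.sum_sub_distrib]
    rw [hA.killr x hx j, hB.killr x hx j, sub_zero]

theorem form_smul_fun {A : V → M3} {φ : V → ℂ} (hA : IsForm A) (hφ : CHom 0 0 φ) :
    IsForm (fun x => φ x • A x) := by
  refine ⟨?_, ?_, ?_, ?_⟩
  · exact hφ.cont.smul hA.cont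
  · intro l x hl
    have h1 := hφ.hom l x hl
    rw [zpow_zero, zpow_zero, one_mul, one_mul] at h1
    show φ (l • x) • A (l • x) = _
    rw [h1, hA.hom l x hl, smul_comm]
  · intro x hx k
    have h1 : ∀ j, x j * (φ x • A x) j k = φ x * (x j * A x j k) := by
      intro j
      rw [Matrix.smul_apply, smul_eq_mul]
      ring
    simp only [h1, ← Finset.mul_sum]
    rw [hA.killl x hx k, mul_zero]
  · intro x hx j
    have h1 : ∀ k, (φ x • A x) j k * conj (x k) = φ x * (A x j k * conj (x k)) := by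
      intro k
      rw [Matrix.smul_apply, smul_eq_mul]
      ring
    simp only [h1, ← Finset.mul_sum]
    rw [hA.killr x hx j, mul_zero]

theorem form_smul {A : V → M3} (c : ℂ) (hA : IsForm A) : IsForm (fun x => c • A x) :=
  form_smul_fun hA (hom_const c).chom

theorem form_ct {A : V → M3} (hA : IsForm A) : IsForm (fun x => (A x)ᴴ) := by
  refine FrmA_mk ?_ ?_ ?_
  · intro j k
    have h1 := form_chom hA k j
    refine ⟨?_, ?_⟩
    · exact Complex.continuous_conj.comp_continuousOn h1.cont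
    · intro l x hl
      have h2 := h1.hom l x hl
      show conj (A (l • x) k j) = _ * conj (A x k j)
      have h3 : A (l • x) k j = l ^ (-1 : ℤ) * (conj l) ^ (-1 : ℤ) * A x k j := h2
      rw [h3, map_mul, map_mul, map_zpow₀, map_zpow₀, Complex.conj_conj]
      ring
  · intro x hx k
    have h1 := congrArg (starRingEnd ℂ) (hA.killr x hx k)
    rw [map_sum, map_zero] at h1
    rw [← h1]
    refine Finset.sum_congr rfl fun j _ => ?_
    rw [map_mul, Complex.conj_conj]
    show x j * conj (A x k j) = _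
    ring
  · intro x hx j
    have h1 := congrArg (starRingEnd ℂ) (hA.killl x hx j)
    rw [map_sum, map_zero] at h1
    rw [← h1]
    refine Finset.sum_congr rfl fun k _ => ?_
    rw [map_mul]
    show conj (A x k j) * conj (x k) = _
    ring

/-- The trace of a form times `N` is a continuous function of degree `0`. -/
theorem chom_Ntr {A : V → M3} (hA : IsForm A) : CHom 0 0 (fun x => (N x : ℂ) * (A x).trace) := by
  refine ⟨?_, ?_⟩
  · refine hom_N.chom.cont.mul ?_
    have h1 : ∀ x : V, (A x).trace = ∑ j, A x j j := fun x => rfl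
    simp only [h1]
    exact continuousOn_finset_sum _ fun j _ => (form_chom hA j j).cont
  · intro l x hl
    show (N (l • x) : ℂ) * (A (l • x)).trace = _
    rw [hA.hom l x hl, Matrix.trace_smul, N_smul, zpow_zero, zpow_zero, one_mul, one_mul,
      smul_eq_mul]
    have h1 : (Complex.normSq l : ℂ) ≠ 0 :=
      Complex.ofReal_ne_zero.2 (fun h => hl (Complex.normSq_eq_zero.1 h))
    push_cast
    field_simp

/-- Forms kill `x`: only the component orthogonal to `x` matters. -/
theorem quad_perp {A : V → M3} (hA : IsForm A) {x : V} (hx : x ≠ 0) (w : V) (c : ℂ) :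
    quad (A x) (w - c • x) = quad (A x) w := by
  unfold quad
  have h1 : ∀ j k, A x j k * (w - c • x) j * conj ((w - c • x) k) =
      A x j k * w j * conj (w k) - c * conj (w k) * (x j * A x j k) -
        (w j - c * x j) * conj c * (A x j k * conj (x k)) := by
    intro j k
    have e1 : (w - c • x) j = w j - c * x j := rfl
    have e2 : (w - c • x) k = w k - c * x k := rfl
    rw [e1, e2, map_sub, map_mul]
    ring
  simp only [h1, Finset.sum_sub_distrib]
  have h2 : ∑ j, ∑ k, c * conj (w k) * (x j * A x j k) = 0 := by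
    rw [Finset.sum_comm]
    refine Finset.sum_eq_zero fun k _ => ?_
    rw [← Finset.mul_sum, hA.killl x hx k, mul_zero]
  have h3 : ∑ j, ∑ k, (w j - c * x j) * conj c * (A x j k * conj (x k)) = 0 := by
    refine Finset.sum_eq_zero fun j _ => ?_
    rw [← Finset.mul_sum, hA.killr x hx j, mul_zero]
  rw [h2, h3, sub_zero, sub_zero]

end Pool.Agent.H85.DC

end S_H85_DC_FrmA

section S_H85_DC_GauA

/-!
# Row GauA: the Gaussian matrices `1 + ε G`

`gau G = π^{-9} exp(-∑ N (G i))`, `G : Fin 3 → V` the columns. `mat ε G j i = δ_ji + ε (G i j)`, so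
`(mat ε G).mulVec y = y + ε ∑_i y_i G_i` (`mat_mulVec`).
`gau_int`: `∫ gau = 1` (`int` of a product: `integral_fintype_prod_eq_prod`, `∫_V e^{-N} = π^3`, prove it here:
`∫_ℂ exp(-|z|^2) = π`); it is a product density.
`pair_law`: for an orthonormal pair `(y, w)` the image of `gau dG` under `G ↦ (∑ y_i G_i, ∑ w_i G_i) ∈ V × V` has
density `g(a) g(b)`, `g(a) = π^{-3} e^{-N a}`. Proof: complete `(y, w)` to a unitary matrix `U` (rows `y, w, v`; `v` e.g. the conjugate of the cross product
`conj (y × w)`, for which `N v = 1`, `ip y v = ip w v = 0`). The linear map `Φ : (Fin 3 → V) → (Fin 3 → V)`, `Φ(G)_a = ∑_i U_{ai} G_i` is a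
real-linear isomorphism preserving `∑ N (G_i)` (unitarity), so its real determinant has absolute value `1` and it preserves Lebesgue
measure: a linear map `T` of a finite dimensional real space which preserves a positive definite quadratic form has `|det T| = 1`
(image of the unit ball of the form is itself and has finite positive volume, `MeasureTheory.Measure.addHaar_image_linearMap`).
Then `∫ gau G φ(Φ(G)_0, Φ(G)_1) dG = ∫ gau H φ(H_0, H_1) dH` and integrate out `H_2` (Fubini; identify `Fin 3 → V` with `V × V × V`,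
`MeasureTheory.measurePreserving_piFinSuccAbove` or `measurePreserving_finTwoArrow`-type equivalences). State with `lintegral` for
nonnegative measurable `φ` (`pair_law`), and deduce the Bochner version `pair_law_c` for measurable `φ : V × V → ℂ` (split into
positive and negative parts of real and imaginary parts, or equality of measures `Measure.map`, `integral_map`).
`single_law`: for `N y = 1` the law of `y + ε ∑ y_i G_i` has density `gs ε (x - y)`; from `pair_law` (choose any `w`), or directly;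
`gs ε z = (π ε^2)^{-3} exp(-N z/ε^2)`; change of variable `x = y + ε a`, `dx = ε^6 da`.
`det_ae`: for every `y ≠ 0`, a.e. `G`: `(mat ε G).det ≠ 0`. The set `{G : det (mat ε G) = 0}` is null: e.g. for fixed `G_1, G_2`
with independent columns `c_1, c_2` the equation is a nontrivial affine-linear equation in `G_0`; or by the pair law:
`det ≠ 0` iff the columns are independent … any proof. (Simplest: the zero set of a nonzero real polynomial/analytic function is null if
available; otherwise Fubini three times: `{c_0 = 0}` null; for `c_0 ≠ 0`, `{c_1 ∈ ℂ c_0}` is contained in a proper subspace, null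
(`Measure.addHaar_submodule`, `addHaar_affineSubspace`); for independent `c_0, c_1`, `{c_2 ∈ span}` null. `c_i = e_i + ε G_i`.)
-/

open MeasureTheory
open scoped ContDiff BigOperators ComplexConjugate Matrix

namespace Pool.Agent.H85.DC

theorem GauA_N_nonneg (x : V) : 0 ≤ N x :=
  Finset.sum_nonneg fun _ _ => Complex.normSq_nonneg _

theorem GauA_contN : Continuous N := by
  unfold N
  exact continuous_finsetSum _ fun j _ => Complex.continuous_normSq.comp (continuous_apply j)

theorem mat_mulVec (ε : ℝ) (G : Fin 3 → V) (y : V) :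
    (mat ε G).mulVec y = y + (ε : ℂ) • ∑ i, y i • G i := by
  ext j
  simp only [Matrix.mulVec, dotProduct, mat, Pi.add_apply, Pi.smul_apply, Finset.sum_apply,
    smul_eq_mul, add_mul, Finset.sum_add_distrib, Finset.mul_sum]
  congr 1
  · simp
  · exact Finset.sum_congr rfl fun i _ => by ring

theorem gau_nonneg (G : Fin 3 → V) : 0 ≤ gau G := by
  unfold gau
  positivity

theorem GauA_contgau : Continuous gau := by
  unfold gau
  refine continuous_const.mul (Real.continuous_exp.comp (continuous_neg.comp ?_))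
  exact continuous_finsetSum _ fun j _ => GauA_contN.comp (continuous_apply j)

theorem gau_meas : Measurable gau := GauA_contgau.measurable

/-- The Gaussian density on `V`. -/
noncomputable def GauA_g (a : V) : ℝ := (Real.pi ^ 3)⁻¹ * Real.exp (-N a)

theorem GauA_g_nonneg (a : V) : 0 ≤ GauA_g a := by
  unfold GauA_g
  positivity

theorem GauA_g_meas : Measurable GauA_g := by
  unfold GauA_g
  exact (continuous_const.mul (Real.continuous_exp.comp
    (continuous_neg.comp GauA_contN))).measurable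

theorem GauA_int_C : ∫ z : ℂ, Real.exp (-Complex.normSq z) = Real.pi := by
  have h := GaussianFourier.integral_rexp_neg_mul_sq_norm (V := ℂ) (b := 1) one_pos
  have e : (fun z : ℂ => Real.exp (-Complex.normSq z)) =
      fun z : ℂ => Real.exp (-1 * ‖z‖ ^ 2) := by
    ext z
    rw [Complex.normSq_eq_norm_sq]
    ring_nf
  rw [e, h, Complex.finrank_real_complex]
  norm_num

theorem GauA_exp_prod (a : V) : Real.exp (-N a) = ∏ j, Real.exp (-Complex.normSq (a j)) := by
  rw [← Real.exp_sum]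
  congr 1
  simp [N]

theorem GauA_int_expN : ∫ a : V, Real.exp (-N a) = Real.pi ^ 3 := by
  simp_rw [GauA_exp_prod]
  rw [integral_fintype_prod_volume_eq_pow (ι := Fin 3) (fun z : ℂ => Real.exp (-Complex.normSq z)),
    GauA_int_C]
  simp

theorem GauA_int_g : ∫ a : V, GauA_g a = 1 := by
  unfold GauA_g
  rw [integral_const_mul, GauA_int_expN]
  exact inv_mul_cancel₀ (by positivity)

theorem GauA_g_integrable : Integrable GauA_g := by
  by_contra h
  have := integral_undef h
  rw [GauA_int_g] at this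
  exact one_ne_zero this

theorem GauA_lint_g : ∫⁻ a : V, ENNReal.ofReal (GauA_g a) = 1 := by
  rw [← ofReal_integral_eq_lintegral_ofReal GauA_g_integrable
    (Filter.Eventually.of_forall GauA_g_nonneg), GauA_int_g]
  simp

theorem GauA_gau_prod (G : Fin 3 → V) : gau G = ∏ i, GauA_g (G i) := by
  unfold gau GauA_g
  rw [Finset.prod_mul_distrib, ← Real.exp_sum]
  congr 1
  · simp
    ring
  · congr 1
    simp

theorem GauA_int_gau : ∫ G : Fin 3 → V, gau G = 1 := by
  simp_rw [GauA_gau_prod]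
  rw [integral_fintype_prod_volume_eq_pow (ι := Fin 3) GauA_g, GauA_int_g]
  simp

theorem gau_integrable : Integrable gau := by
  by_contra h
  have := integral_undef h
  rw [GauA_int_gau] at this
  exact one_ne_zero this

theorem gau_int : ∫⁻ G : Fin 3 → V, ENNReal.ofReal (gau G) = 1 := by
  rw [← ofReal_integral_eq_lintegral_ofReal gau_integrable
    (Filter.Eventually.of_forall gau_nonneg), GauA_int_gau]
  simp

/-- The linear map given by a matrix acting on the columns. -/
noncomputable def GauA_Phi (U : Fin 3 → V) : (Fin 3 → V) →ₗ[ℝ] (Fin 3 → V) where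
  toFun G := fun a => ∑ i, U a i • G i
  map_add' G H := by
    ext a j
    simp [smul_add, Finset.sum_add_distrib, mul_add]
  map_smul' c G := by
    ext a j
    simp only [Pi.smul_apply, Finset.sum_apply, smul_eq_mul, RingHom.id_apply, Complex.real_smul,
      Finset.mul_sum]
    exact Finset.sum_congr rfl fun i _ => by ring

theorem GauA_Phi_apply (U G : Fin 3 → V) (a : Fin 3) : GauA_Phi U G a = ∑ i, U a i • G i := rfl

/-- Unitary rows. -/
def GauA_Un (U : Fin 3 → V) : Prop := ∀ a b, ip (U a) (U b) = if a = b then 1 else 0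

theorem GauA_Un_col {U : Fin 3 → V} (hU : GauA_Un U) (i k : Fin 3) :
    ∑ a, conj (U a i) * U a k = if i = k then 1 else 0 := by
  have h1 : (Matrix.of U) * (Matrix.of U)ᴴ = 1 := by
    ext a b
    rw [Matrix.mul_apply, Matrix.one_apply, ← hU a b]
    rfl
  have h2 : (Matrix.of U)ᴴ * (Matrix.of U) = 1 := mul_eq_one_comm.1 h1
  have h3 := congrFun (congrFun h2 i) k
  rw [Matrix.mul_apply, Matrix.one_apply] at h3
  rw [← h3]
  rfl

theorem GauA_Phi_N {U : Fin 3 → V} (hU : GauA_Un U) (G : Fin 3 → V) :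
    ∑ a, N (GauA_Phi U G a) = ∑ i, N (G i) := by
  have key : ((∑ a, N (GauA_Phi U G a) : ℝ) : ℂ) = ((∑ i, N (G i) : ℝ) : ℂ) := by
    have e1 : ∀ x : V, ((N x : ℝ) : ℂ) = ∑ j, x j * conj (x j) := by
      intro x
      unfold N
      push_cast
      exact Finset.sum_congr rfl fun j _ => (Complex.mul_conj (x j)).symm
    push_cast
    simp_rw [e1, GauA_Phi_apply, Finset.sum_apply, Pi.smul_apply, smul_eq_mul, map_sum, map_mul]
    have e2 : ∀ a j : Fin 3, (∑ i, U a i * G i j) * (∑ i, conj (U a i) * conj (G i j)) =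
        ∑ i, ∑ k, (conj (U a i) * U a k) * (conj (G i j) * G k j) := by
      intro a j
      rw [mul_comm, Finset.sum_mul_sum]
      refine Finset.sum_congr rfl fun i _ => Finset.sum_congr rfl fun k _ => ?_
      ring
    simp_rw [e2]
    rw [Finset.sum_comm]
    have e3 : ∀ j : Fin 3, (∑ a, ∑ i, ∑ k, (conj (U a i) * U a k) * (conj (G i j) * G k j)) =
        ∑ i, conj (G i j) * G i j := by
      intro j
      rw [Finset.sum_comm]
      refine Finset.sum_congr rfl fun i _ => ?_
      rw [Finset.sum_comm]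
      simp_rw [← Finset.sum_mul, GauA_Un_col hU]
      simp
    simp_rw [e3]
    rw [Finset.sum_comm]
    exact Finset.sum_congr rfl fun i _ => Finset.sum_congr rfl fun j _ => mul_comm _ _
  exact_mod_cast key

theorem GauA_Phi_gau {U : Fin 3 → V} (hU : GauA_Un U) (G : Fin 3 → V) :
    gau (GauA_Phi U G) = gau G := by
  unfold gau
  rw [GauA_Phi_N hU]

theorem GauA_Phi_cont (U : Fin 3 → V) : Continuous (GauA_Phi U) :=
  LinearMap.continuous_of_finiteDimensional _

theorem GauA_Phi_inj {U : Fin 3 → V} (hU : GauA_Un U) : Function.Injective (GauA_Phi U) := by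
  rw [← LinearMap.ker_eq_bot, LinearMap.ker_eq_bot']
  intro G hG
  have h := GauA_Phi_N hU G
  rw [hG] at h
  have h0 : ∑ a : Fin 3, N ((0 : Fin 3 → V) a) = 0 := by simp [N]
  rw [h0] at h
  have h1 := (Finset.sum_eq_zero_iff_of_nonneg (fun i _ => GauA_N_nonneg (G i))).1 h.symm
  ext i j
  have h2 := (Finset.sum_eq_zero_iff_of_nonneg (fun j _ => Complex.normSq_nonneg (G i j))).1
    (h1 i (Finset.mem_univ i)) j (Finset.mem_univ j)
  simpa using h2

instance GauA_haar : (volume : Measure (Fin 3 → V)).IsAddHaarMeasure :=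
  Measure.pi.isAddHaarMeasure (fun _ : Fin 3 => (volume : Measure V))

theorem GauA_Phi_mp {U : Fin 3 → V} (hU : GauA_Un U) :
    MeasurePreserving (GauA_Phi U) (volume : Measure (Fin 3 → V)) volume := by
  have hdet : LinearMap.det (GauA_Phi U) ≠ 0 := by
    have := (LinearEquiv.ofInjectiveEndo (GauA_Phi U) (GauA_Phi_inj hU)).isUnit_det'
    exact this.ne_zero
  have hmap := Measure.map_linearMap_addHaar_eq_smul_addHaar
    (volume : Measure (Fin 3 → V)) hdet
  have hmeas : Measurable (GauA_Phi U) := (GauA_Phi_cont U).measurable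
  have h1 : ∫⁻ G : Fin 3 → V, ENNReal.ofReal (gau (GauA_Phi U G)) = 1 := by
    simp_rw [GauA_Phi_gau hU]
    exact gau_int
  have h2 := lintegral_map (μ := (volume : Measure (Fin 3 → V)))
    (f := fun G => ENNReal.ofReal (gau G)) (gau_meas.ennreal_ofReal) hmeas
  rw [hmap, lintegral_smul_measure, gau_int, h1] at h2
  have h3 : ENNReal.ofReal |(LinearMap.det (GauA_Phi U))⁻¹| = 1 := by simpa using h2
  refine ⟨hmeas, ?_⟩
  rw [hmap, h3, one_smul]

theorem GauA_law2 {φ : V × V → ENNReal} (hφ : Measurable φ) :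
    ∫⁻ H : Fin 3 → V, ENNReal.ofReal (gau H) * φ (H 0, H 1) =
      ∫⁻ q : V × V, ENNReal.ofReal (GauA_g q.1) * ENNReal.ofReal (GauA_g q.2) * φ q := by
  have mp1 := volume_preserving_piFinSuccAbove (fun _ : Fin 3 => V) 2
  have mp2 := volume_preserving_finTwoArrow V
  have e1 : ∀ H : Fin 3 → V, ENNReal.ofReal (gau H) * φ (H 0, H 1) =
      (fun p : V × (Fin 2 → V) => ENNReal.ofReal (GauA_g p.1) *
        (ENNReal.ofReal (GauA_g (p.2 0)) * ENNReal.ofReal (GauA_g (p.2 1)) * φ (p.2 0, p.2 1)))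
        (MeasurableEquiv.piFinSuccAbove (fun _ : Fin 3 => V) 2 H) := by
    intro H
    have a1 : (MeasurableEquiv.piFinSuccAbove (fun _ : Fin 3 => V) 2 H).1 = H 2 := rfl
    have a2 : (MeasurableEquiv.piFinSuccAbove (fun _ : Fin 3 => V) 2 H).2 0 = H 0 := rfl
    have a3 : (MeasurableEquiv.piFinSuccAbove (fun _ : Fin 3 => V) 2 H).2 1 = H 1 := rfl
    show _ = ENNReal.ofReal (GauA_g (MeasurableEquiv.piFinSuccAbove (fun _ : Fin 3 => V) 2 H).1) *
      (ENNReal.ofReal (GauA_g ((MeasurableEquiv.piFinSuccAbove (fun _ : Fin 3 => V) 2 H).2 0)) *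
        ENNReal.ofReal (GauA_g ((MeasurableEquiv.piFinSuccAbove (fun _ : Fin 3 => V) 2 H).2 1)) *
        φ ((MeasurableEquiv.piFinSuccAbove (fun _ : Fin 3 => V) 2 H).2 0,
          (MeasurableEquiv.piFinSuccAbove (fun _ : Fin 3 => V) 2 H).2 1))
    rw [a1, a2, a3, GauA_gau_prod, Fin.prod_univ_three, ENNReal.ofReal_mul
      (mul_nonneg (GauA_g_nonneg _) (GauA_g_nonneg _)), ENNReal.ofReal_mul (GauA_g_nonneg _)]
    ring
  simp_rw [e1]
  have hm : Measurable (fun p : V × (Fin 2 → V) => ENNReal.ofReal (GauA_g p.1) *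
        (ENNReal.ofReal (GauA_g (p.2 0)) * ENNReal.ofReal (GauA_g (p.2 1)) * φ (p.2 0, p.2 1))) := by
    have := GauA_g_meas
    fun_prop
  rw [mp1.lintegral_comp hm]
  have hm2 : Measurable (fun q : V × V =>
      ENNReal.ofReal (GauA_g q.1) * ENNReal.ofReal (GauA_g q.2) * φ q) := by
    have := GauA_g_meas
    fun_prop
  have e2 := lintegral_prod_mul (μ := (volume : Measure V)) (ν := (volume : Measure (Fin 2 → V)))
    (f := fun a => ENNReal.ofReal (GauA_g a))
    (g := fun b : Fin 2 → V => ENNReal.ofReal (GauA_g (b 0)) * ENNReal.ofReal (GauA_g (b 1)) *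
      φ (b 0, b 1)) (by have := GauA_g_meas; fun_prop) (by have := GauA_g_meas; fun_prop)
  rw [Measure.volume_eq_prod, e2, GauA_lint_g, one_mul]
  have e3 := mp2.lintegral_comp hm2
  rw [← e3]
  rfl

theorem GauA_cross {y w : V} (hy : N y = 1) (hw : N w = 1) (hyw : ip w y = 0) :
    ∃ U : Fin 3 → V, GauA_Un U ∧ U 0 = y ∧ U 1 = w := by
  have hy' : ip y y = 1 := by
    have : ((N y : ℝ) : ℂ) = ip y y := by
      unfold N ip
      push_cast
      exact Finset.sum_congr rfl fun j _ => (Complex.mul_conj (y j)).symm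
    rw [← this, hy]; simp
  have hw' : ip w w = 1 := by
    have : ((N w : ℝ) : ℂ) = ip w w := by
      unfold N ip
      push_cast
      exact Finset.sum_congr rfl fun j _ => (Complex.mul_conj (w j)).symm
    rw [← this, hw]; simp
  have hwy : ip y w = 0 := by
    have := congrArg conj hyw
    simp only [ip, map_sum, map_mul, Complex.conj_conj, map_zero] at this ⊢
    rw [← this]
    exact Finset.sum_congr rfl fun j _ => mul_comm _ _
  let v : V := ![conj (y 1 * w 2 - y 2 * w 1), conj (y 2 * w 0 - y 0 * w 2),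
    conj (y 0 * w 1 - y 1 * w 0)]
  have v0 : v 0 = conj (y 1 * w 2 - y 2 * w 1) := rfl
  have v1 : v 1 = conj (y 2 * w 0 - y 0 * w 2) := rfl
  have v2 : v 2 = conj (y 0 * w 1 - y 1 * w 0) := rfl
  have hvv : ip v v = 1 := by
    simp only [ip, Fin.sum_univ_three] at hy' hw' hwy hyw ⊢
    rw [v0, v1, v2]
    simp only [map_sub, map_mul, Complex.conj_conj]
    linear_combination (w 0 * conj (w 0) + w 1 * conj (w 1) + w 2 * conj (w 2)) * hy' + hw' -
      (y 0 * conj (w 0) + y 1 * conj (w 1) + y 2 * conj (w 2)) * hyw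
  have hvy : ip v y = 0 := by
    simp only [ip, Fin.sum_univ_three]
    rw [v0, v1, v2]
    simp only [map_sub, map_mul]
    ring
  have hvw : ip v w = 0 := by
    simp only [ip, Fin.sum_univ_three]
    rw [v0, v1, v2]
    simp only [map_sub, map_mul]
    ring
  have hyv : ip y v = 0 := by
    simp only [ip, Fin.sum_univ_three]
    rw [v0, v1, v2]
    simp only [map_sub, map_mul, Complex.conj_conj]
    ring
  have hwv : ip w v = 0 := by
    simp only [ip, Fin.sum_univ_three]
    rw [v0, v1, v2]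
    simp only [map_sub, map_mul, Complex.conj_conj]
    ring
  refine ⟨![y, w, v], ?_, rfl, rfl⟩
  intro a b
  fin_cases a <;> fin_cases b <;>
    simp [hy', hw', hwy, hyw, hvv, hvy, hvw, hyv, hwv]

theorem pair_law {y w : V} (hy : N y = 1) (hw : N w = 1) (hyw : ip w y = 0)
    {φ : V × V → ENNReal} (hφ : Measurable φ) :
    ∫⁻ G : Fin 3 → V, ENNReal.ofReal (gau G) * φ (∑ i, y i • G i, ∑ i, w i • G i) =
      ∫⁻ q : V × V, ENNReal.ofReal ((Real.pi ^ 3)⁻¹ * Real.exp (-N q.1)) *
        ENNReal.ofReal ((Real.pi ^ 3)⁻¹ * Real.exp (-N q.2)) * φ q := by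
  obtain ⟨U, hU, hU0, hU1⟩ := GauA_cross hy hw hyw
  have h := GauA_law2 hφ
  have hm : Measurable (fun H : Fin 3 → V => ENNReal.ofReal (gau H) * φ (H 0, H 1)) := by
    have := gau_meas
    fun_prop
  rw [← (GauA_Phi_mp hU).lintegral_comp hm] at h
  simp_rw [GauA_Phi_gau hU, GauA_Phi_apply, hU0, hU1] at h
  exact h

theorem GauA_pair_meas (y w : V) :
    Measurable (fun G : Fin 3 → V => (∑ i, y i • G i, ∑ i, w i • G i)) := by
  have : Continuous (fun G : Fin 3 → V => ((∑ i, y i • G i, ∑ i, w i • G i) : V × V)) := by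
    fun_prop
  exact this.measurable

theorem GauA_pair_map {y w : V} (hy : N y = 1) (hw : N w = 1) (hyw : ip w y = 0) :
    Measure.map (fun G : Fin 3 → V => ((∑ i, y i • G i, ∑ i, w i • G i) : V × V))
      ((volume : Measure (Fin 3 → V)).withDensity (fun G => ENNReal.ofReal (gau G))) =
    (volume : Measure (V × V)).withDensity (fun q => ENNReal.ofReal (GauA_g q.1 * GauA_g q.2)) := by
  ext s hs
  rw [Measure.map_apply (GauA_pair_meas y w) hs,
    withDensity_apply _ (GauA_pair_meas y w hs), withDensity_apply _ hs]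
  have h := pair_law hy hw hyw (φ := s.indicator 1) (measurable_one.indicator hs)
  rw [← lintegral_indicator (GauA_pair_meas y w hs), ← lintegral_indicator hs]
  have e1 : ∀ G : Fin 3 → V, ((fun G : Fin 3 → V =>
      ((∑ i, y i • G i, ∑ i, w i • G i) : V × V)) ⁻¹' s).indicator
        (fun G => ENNReal.ofReal (gau G)) G =
      ENNReal.ofReal (gau G) * s.indicator 1 ((∑ i, y i • G i, ∑ i, w i • G i) : V × V) := by
    intro G
    by_cases hG : ((∑ i, y i • G i, ∑ i, w i • G i) : V × V) ∈ s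
    · rw [Set.indicator_of_mem (by exact hG), Set.indicator_of_mem hG]
      simp
    · rw [Set.indicator_of_notMem (by exact hG), Set.indicator_of_notMem hG]
      simp
  have e2 : ∀ q : V × V, s.indicator (fun q : V × V =>
        ENNReal.ofReal (GauA_g q.1 * GauA_g q.2)) q =
      ENNReal.ofReal ((Real.pi ^ 3)⁻¹ * Real.exp (-N q.1)) *
        ENNReal.ofReal ((Real.pi ^ 3)⁻¹ * Real.exp (-N q.2)) * s.indicator 1 q := by
    intro q
    by_cases hq : q ∈ s
    · rw [Set.indicator_of_mem hq, Set.indicator_of_mem hq, ENNReal.ofReal_mul (GauA_g_nonneg _)]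
      simp [GauA_g]
    · rw [Set.indicator_of_notMem hq, Set.indicator_of_notMem hq]
      simp
  simp_rw [e1, e2]
  exact h

theorem pair_law_c {y w : V} (hy : N y = 1) (hw : N w = 1) (hyw : ip w y = 0)
    {φ : V × V → ℂ} (hφ : Measurable φ) :
    ∫ G : Fin 3 → V, (gau G : ℂ) * φ (∑ i, y i • G i, ∑ i, w i • G i) =
      ∫ q : V × V, (((Real.pi ^ 3)⁻¹ * Real.exp (-N q.1) : ℝ) : ℂ) *
        (((Real.pi ^ 3)⁻¹ * Real.exp (-N q.2) : ℝ) : ℂ) * φ q := by
  have h := GauA_pair_map hy hw hyw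
  have h1 := integral_map (μ := (volume : Measure (Fin 3 → V)).withDensity
    (fun G => ENNReal.ofReal (gau G))) (GauA_pair_meas y w).aemeasurable
    (f := φ) hφ.aestronglyMeasurable
  rw [h] at h1
  rw [integral_withDensity_eq_integral_toReal_smul (by
      have := GauA_g_meas
      fun_prop) (Filter.Eventually.of_forall fun _ => ENNReal.ofReal_lt_top),
    integral_withDensity_eq_integral_toReal_smul (gau_meas.ennreal_ofReal)
      (Filter.Eventually.of_forall fun _ => ENNReal.ofReal_lt_top)] at h1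
  have e1 : ∀ G : Fin 3 → V, (ENNReal.ofReal (gau G)).toReal •
      φ ((∑ i, y i • G i, ∑ i, w i • G i) : V × V) =
      (gau G : ℂ) * φ (∑ i, y i • G i, ∑ i, w i • G i) := by
    intro G
    rw [ENNReal.toReal_ofReal (gau_nonneg G), Complex.real_smul]
  have e2 : ∀ q : V × V, (ENNReal.ofReal (GauA_g q.1 * GauA_g q.2)).toReal • φ q =
      (((Real.pi ^ 3)⁻¹ * Real.exp (-N q.1) : ℝ) : ℂ) *
        (((Real.pi ^ 3)⁻¹ * Real.exp (-N q.2) : ℝ) : ℂ) * φ q := by
    intro q
    rw [ENNReal.toReal_ofReal (mul_nonneg (GauA_g_nonneg _) (GauA_g_nonneg _)),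
      Complex.real_smul]
    unfold GauA_g
    push_cast
    ring
  simp_rw [e1, e2] at h1
  exact h1.symm

theorem GauA_finrank : Module.finrank ℝ V = 6 := by
  show Module.finrank ℝ (Fin 3 → ℂ) = 6
  rw [Module.finrank_pi_fintype]
  simp

theorem GauA_subst {ε : ℝ} (hε : 0 < ε) (y : V) {φ : V → ENNReal} (hφ : Measurable φ) :
    ∫⁻ a : V, ENNReal.ofReal (GauA_g a) * φ (y + (ε : ℂ) • a) =
      ∫⁻ x : V, ENNReal.ofReal (gs ε (x - y)) * φ x := by
  have hgs : Measurable (fun z : V => gs ε z) := by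
    unfold gs
    exact (continuous_const.mul (Real.continuous_exp.comp
      ((continuous_neg.comp GauA_contN).div_const _))).measurable
  have hT : ∫⁻ x : V, ENNReal.ofReal (gs ε (x - y)) * φ x =
      ∫⁻ x : V, ENNReal.ofReal (gs ε x) * φ (y + x) := by
    have := lintegral_add_left_eq_self (μ := (volume : Measure V))
      (fun x : V => ENNReal.ofReal (gs ε (x - y)) * φ x) y
    rw [← this]
    refine lintegral_congr fun x => ?_
    rw [add_sub_cancel_left]
  rw [hT]
  have hmap := Measure.map_addHaar_smul (volume : Measure V) hε.ne'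
  have hm : Measurable (fun x : V => ENNReal.ofReal (gs ε x) * φ (y + x)) := by
    fun_prop
  have h2 := lintegral_map (μ := (volume : Measure V))
    (f := fun x : V => ENNReal.ofReal (gs ε x) * φ (y + x)) hm
    (g := fun a : V => ε • a) (measurable_const_smul ε)
  rw [hmap, lintegral_smul_measure, GauA_finrank] at h2
  have e1 : ∀ a : V, ENNReal.ofReal (gs ε (ε • a)) * φ (y + ε • a) =
      ENNReal.ofReal |(ε ^ 6)⁻¹| * (ENNReal.ofReal (GauA_g a) * φ (y + (ε : ℂ) • a)) := by
    intro a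
    have s1 : (ε : ℂ) • a = ε • a := by
      ext j
      simp
    have s2 : gs ε (ε • a) = |(ε ^ 6)⁻¹| * GauA_g a := by
      have s3 : N (ε • a) = ε ^ 2 * N a := by
        unfold N
        rw [Finset.mul_sum]
        refine Finset.sum_congr rfl fun j _ => ?_
        simp only [Pi.smul_apply, Complex.real_smul, Complex.normSq_mul, Complex.normSq_ofReal]
        ring
      unfold gs GauA_g
      rw [s3, abs_of_pos (by positivity)]
      have s4 : -(ε ^ 2 * N a) / ε ^ 2 = -N a := by
        field_simp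
      rw [s4, mul_pow, mul_inv]
      ring
    rw [s1, s2, ENNReal.ofReal_mul (abs_nonneg _), mul_assoc]
  simp_rw [e1] at h2
  rw [lintegral_const_mul' _ _ ENNReal.ofReal_ne_top] at h2
  have h3 : ENNReal.ofReal |(ε ^ 6)⁻¹| ≠ 0 := by
    rw [Ne, ENNReal.ofReal_eq_zero, not_le]
    positivity
  rw [smul_eq_mul] at h2
  exact ((ENNReal.mul_right_inj h3 ENNReal.ofReal_ne_top).1 h2).symm

theorem GauA_orth (y : V) : ∃ w : V, N w = 1 ∧ ip w y = 0 := by
  have key : ∃ w : V, 0 < N w ∧ ip w y = 0 := by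
    by_cases h : y 0 = 0 ∧ y 1 = 0
    · refine ⟨![1, 0, 0], ?_, ?_⟩
      · simp [N, Fin.sum_univ_three]
      · simp [ip, Fin.sum_univ_three, h.1]
    · refine ⟨![conj (y 1), -conj (y 0), 0], ?_, ?_⟩
      · simp only [N, Fin.sum_univ_three, Matrix.cons_val_zero, Matrix.cons_val_one,
          Matrix.cons_val_two, Complex.normSq_neg, Complex.normSq_conj]
        have h0 := Complex.normSq_nonneg (y 0)
        have h1 := Complex.normSq_nonneg (y 1)
        rcases not_and_or.1 h with h | h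
        · have := Complex.normSq_pos.2 h
          simp
          linarith
        · have := Complex.normSq_pos.2 h
          simp
          linarith
      · simp [ip, Fin.sum_univ_three]
        ring
  obtain ⟨w, hw, hwy⟩ := key
  refine ⟨((Real.sqrt (N w))⁻¹ : ℂ) • w, ?_, ?_⟩
  · have : N (((Real.sqrt (N w))⁻¹ : ℂ) • w) = ((Real.sqrt (N w))⁻¹) ^ 2 * N w := by
      unfold N
      rw [Finset.mul_sum]
      refine Finset.sum_congr rfl fun j _ => ?_
      rw [Pi.smul_apply, smul_eq_mul, Complex.normSq_mul, ← Complex.ofReal_inv,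
        Complex.normSq_ofReal, sq]
    rw [this, inv_pow, Real.sq_sqrt hw.le]
    exact inv_mul_cancel₀ hw.ne'
  · have : ip (((Real.sqrt (N w))⁻¹ : ℂ) • w) y = ((Real.sqrt (N w))⁻¹ : ℂ) * ip w y := by
      unfold ip
      rw [Finset.mul_sum]
      refine Finset.sum_congr rfl fun j _ => ?_
      rw [Pi.smul_apply, smul_eq_mul, mul_assoc]
    rw [this, hwy, mul_zero]

theorem single_law {ε : ℝ} (hε : 0 < ε) {y : V} (hy : N y = 1)
    {φ : V → ENNReal} (hφ : Measurable φ) :
    ∫⁻ G : Fin 3 → V, ENNReal.ofReal (gau G) * φ ((mat ε G).mulVec y) =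
      ∫⁻ x : V, ENNReal.ofReal (gs ε (x - y)) * φ x := by
  obtain ⟨w, hw, hwy⟩ := GauA_orth y
  have hc : Continuous (fun a : V => y + (ε : ℂ) • a) := by fun_prop
  have hm : Measurable (fun a : V => φ (y + (ε : ℂ) • a)) := hφ.comp hc.measurable
  have h := pair_law hy hw hwy (φ := fun q : V × V => φ (y + (ε : ℂ) • q.1))
    (hm.comp measurable_fst)
  simp_rw [mat_mulVec]
  rw [h, ← GauA_subst hε y hφ]
  have e1 : ∀ q : V × V, ENNReal.ofReal ((Real.pi ^ 3)⁻¹ * Real.exp (-N q.1)) *
        ENNReal.ofReal ((Real.pi ^ 3)⁻¹ * Real.exp (-N q.2)) * φ (y + (ε : ℂ) • q.1) =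
      (ENNReal.ofReal (GauA_g q.1) * φ (y + (ε : ℂ) • q.1)) * ENNReal.ofReal (GauA_g q.2) := by
    intro q
    unfold GauA_g
    ring
  simp_rw [e1]
  have e2 := lintegral_prod_mul (μ := (volume : Measure V)) (ν := (volume : Measure V))
    (f := fun a => ENNReal.ofReal (GauA_g a) * φ (y + (ε : ℂ) • a))
    (g := fun b : V => ENNReal.ofReal (GauA_g b))
    (by
      have := GauA_g_meas
      exact (this.ennreal_ofReal.mul hm).aemeasurable) (GauA_g_meas.ennreal_ofReal.aemeasurable)
  rw [Measure.volume_eq_prod, e2, GauA_lint_g, mul_one]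

theorem det_ae {ε : ℝ} (hε : 0 < ε) : ∀ᵐ G : Fin 3 → V, (mat ε G).det ≠ 0 := by
  let A : Fin 3 → V := fun i => Pi.single i 1
  have hcont : Continuous (fun G : Fin 3 → V => (mat ε G).det) := by
    refine Continuous.matrix_det ?_
    refine continuous_pi fun j => continuous_pi fun i => ?_
    unfold mat
    fun_prop
  have hfin : ∀ G : Fin 3 → V, ∀ᵐ t : ℝ, (mat ε (G + t • A)).det ≠ 0 := by
    intro G
    let B : Matrix (Fin 3) (Fin 3) ℂ := fun j i => -((ε : ℂ) * G i j)
    have hB : ∀ t : ℝ, (mat ε (G + t • A)).det = B.charpoly.eval ((1 + ε * t : ℝ) : ℂ) := by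
      intro t
      rw [Matrix.eval_charpoly]
      congr 1
      ext j i
      have hs : ((Matrix.scalar (Fin 3)) ((1 + ε * t : ℝ) : ℂ) - B) j i =
          (if j = i then ((1 + ε * t : ℝ) : ℂ) else 0) + (ε : ℂ) * G i j := by
        rw [Matrix.sub_apply, Matrix.scalar_apply, Matrix.diagonal_apply]
        simp only [B]
        ring
      rw [hs]
      simp only [mat, A, Pi.add_apply, Pi.smul_apply, Pi.single_apply, Complex.real_smul]
      by_cases hji : j = i
      · subst hji
        simp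
        ring
      · simp [hji]
    have hf : Set.Finite {t : ℝ | (mat ε (G + t • A)).det = 0} := by
      have h1 : Set.Finite {z : ℂ | B.charpoly.IsRoot z} :=
        Polynomial.finite_setOfPred_isRoot (Matrix.charpoly_monic B).ne_zero
      have h2 : Set.InjOn (fun t : ℝ => ((1 + ε * t : ℝ) : ℂ))
          ((fun t : ℝ => ((1 + ε * t : ℝ) : ℂ)) ⁻¹' {z : ℂ | B.charpoly.IsRoot z}) := by
        intro s _ t _ hst
        have h3 : 1 + ε * s = 1 + ε * t := Complex.ofReal_injective hst
        have h4 : ε * s = ε * t := by linarith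
        exact mul_left_cancel₀ hε.ne' h4
      refine (h1.preimage h2).subset ?_
      intro t ht
      show B.charpoly.IsRoot ((1 + ε * t : ℝ) : ℂ)
      rw [Polynomial.IsRoot, ← hB t]
      exact ht
    have h0 : volume {t : ℝ | (mat ε (G + t • A)).det = 0} = 0 := hf.measure_zero _
    rw [ae_iff]
    simpa using h0
  have hmeas : MeasurableSet {q : (Fin 3 → V) × ℝ | (mat ε (q.1 + q.2 • A)).det ≠ 0} := by
    have hc : Continuous (fun q : (Fin 3 → V) × ℝ => (mat ε (q.1 + q.2 • A)).det) :=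
      hcont.comp (by fun_prop)
    exact (hc.measurable (measurableSet_singleton 0)).compl
  have h1 : ∀ᵐ G : Fin 3 → V, ∀ᵐ t : ℝ, (mat ε (G + t • A)).det ≠ 0 :=
    Filter.Eventually.of_forall hfin
  rw [Measure.ae_ae_comm (p := fun (G : Fin 3 → V) (t : ℝ) => (mat ε (G + t • A)).det ≠ 0)
    hmeas] at h1
  obtain ⟨t, ht⟩ := h1.exists
  have h2 : MeasurableSet {G : Fin 3 → V | (mat ε G).det = 0} :=
    hcont.measurable (measurableSet_singleton 0)
  rw [ae_iff] at ht ⊢
  have h3 := measure_preimage_add_right (volume : Measure (Fin 3 → V)) (t • A)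
    {G : Fin 3 → V | (mat ε G).det = 0}
  have e1 : {G : Fin 3 → V | ¬(mat ε G).det ≠ 0} = {G : Fin 3 → V | (mat ε G).det = 0} := by
    ext G
    simp
  rw [e1, ← h3]
  have e2 : (fun G : Fin 3 → V => G + t • A) ⁻¹' {G : Fin 3 → V | (mat ε G).det = 0} =
      {G : Fin 3 → V | ¬(mat ε (G + t • A)).det ≠ 0} := by
    ext G
    simp
  rw [e2]
  exact ht

theorem gs_int {ε : ℝ} (hε : 0 < ε) (y : V) : ∫⁻ x : V, ENNReal.ofReal (gs ε (x - y)) = 1 := by
  have h := GauA_subst hε y (φ := fun _ => 1) measurable_const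
  simp only [mul_one] at h
  rw [← h, GauA_lint_g]

end Pool.Agent.H85.DC

end S_H85_DC_GauA

section S_H85_DC_FrmB

/-!
# Row FrmB: the bilinear form `qq`

`ee A B = A.trace * B.trace - (A * B).trace` is bilinear and symmetric (`Matrix.trace_mul_comm`),
`ee Aᴴ Bᴴ = conj (ee A B)` (`Matrix.trace_conjTranspose`, `Matrix.conjTranspose_mul`).
`ee_int`: `x ↦ ee (A x) (B x)` is a finite sum of products of two functions `CHom (-1) (-1)`, so a
`CHom (-2) (-2)` function (`ee_chom`), integrable against `wt` by `chom_integrable` (`-4 ≥ -5`), also times a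
bounded measurable function (`chom_integrable_bdd`).
`qq_Wm`: `A` kills `x` on both sides, so `(A x * Wm x).trace = (A x).trace / N x`
(`A * (1 - conj(x) x^T/N)/N`; `∑_{j,k} A_jk conj(x_k) x_j = 0`), `trace (Wm x) = 2 / N x`, so
`ee (A x) (Wm x) = (A x).trace / N x`.
`hs_int`: `hs (A x) = ∑ |A_jk|^2` with `CHom (-1) (-1)` entries.
`nn_eq`: for Hermitian forms `ee (A x) (B x)` is real off `0`.
-/

open MeasureTheory
open scoped ContDiff BigOperators ComplexConjugate Matrix

namespace Pool.Agent.H85.DC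

theorem FrmB_mul {a b c d : ℤ} {f g : V → ℂ} (hf : CHom a b f) (hg : CHom c d g) :
    CHom (a + c) (b + d) (fun x => f x * g x) := by
  refine ⟨hf.cont.mul hg.cont, ?_⟩
  intro l x hl
  have hc : conj l ≠ 0 := fun h => hl ((map_eq_zero _).1 h)
  simp only [hf.hom l x hl, hg.hom l x hl]
  rw [zpow_add₀ hl, zpow_add₀ hc]
  ring

theorem FrmB_add {a b : ℤ} {f g : V → ℂ} (hf : CHom a b f) (hg : CHom a b g) :
    CHom a b (fun x => f x + g x) := by
  refine ⟨hf.cont.add hg.cont, ?_⟩
  intro l x hl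
  simp only [hf.hom l x hl, hg.hom l x hl]
  ring

theorem FrmB_sub {a b : ℤ} {f g : V → ℂ} (hf : CHom a b f) (hg : CHom a b g) :
    CHom a b (fun x => f x - g x) := by
  refine ⟨hf.cont.sub hg.cont, ?_⟩
  intro l x hl
  simp only [hf.hom l x hl, hg.hom l x hl]
  ring

theorem FrmB_cmul {a b : ℤ} {f : V → ℂ} (c : ℂ) (hf : CHom a b f) :
    CHom a b (fun x => c * f x) := by
  refine ⟨continuousOn_const.mul hf.cont, ?_⟩
  intro l x hl
  simp only [hf.hom l x hl]
  ring

theorem FrmB_conj {a b : ℤ} {f : V → ℂ} (hf : CHom a b f) : CHom b a (fun x => conj (f x)) := by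
  refine ⟨Complex.continuous_conj.comp_continuousOn hf.cont, ?_⟩
  intro l x hl
  simp only [hf.hom l x hl]
  rw [map_mul, map_mul, map_zpow₀, map_zpow₀, Complex.conj_conj]
  ring

theorem FrmB_sum {a b : ℤ} (f : Fin 3 → V → ℂ) (h : ∀ i, CHom a b (f i)) :
    CHom a b (fun x => ∑ i, f i x) := by
  have h1 := FrmB_add (FrmB_add (h 0) (h 1)) (h 2)
  have h2 : (fun x => ∑ i, f i x) = (fun x => f 0 x + f 1 x + f 2 x) := by
    funext x
    rw [Fin.sum_univ_three]
  rw [h2]
  exact h1

theorem FrmB_ae : ∀ᵐ x ∂(volume : Measure V), x ≠ 0 := by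
  have h : (volume : Measure V) {(0 : V)} = 0 := measure_singleton _
  exact measure_eq_zero_iff_ae_notMem.mp h

theorem FrmB_trmul (A B : M3) : (A * B).trace = ∑ j, ∑ k, A j k * B k j := by
  rw [Matrix.trace]
  refine Finset.sum_congr rfl fun j _ => ?_
  rw [Matrix.diag_apply, Matrix.mul_apply]

theorem FrmB_tr {A : V → M3} (hA : IsForm A) : CHom (-1) (-1) (fun x => (A x).trace) :=
  FrmB_sum (fun j x => A x j j) fun j => form_chom hA j j

theorem ee_comm (A B : M3) : ee A B = ee B A := by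
  unfold ee
  rw [Matrix.trace_mul_comm, mul_comm]

theorem ee_add_left (A B C : M3) : ee (A + B) C = ee A C + ee B C := by
  unfold ee
  rw [Matrix.trace_add, Matrix.add_mul, Matrix.trace_add]
  ring

theorem ee_smul_left (c : ℂ) (A B : M3) : ee (c • A) B = c * ee A B := by
  unfold ee
  rw [Matrix.trace_smul, Matrix.smul_mul, Matrix.trace_smul, smul_eq_mul, smul_eq_mul]
  ring

theorem ee_ct (A B : M3) : ee Aᴴ Bᴴ = conj (ee A B) := by
  unfold ee
  rw [← Matrix.conjTranspose_mul, Matrix.trace_conjTranspose, Matrix.trace_conjTranspose,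
    Matrix.trace_conjTranspose, Matrix.trace_mul_comm B A, map_sub, map_mul]
  rfl

theorem ee_real {A B : M3} (hA : A.IsHermitian) (hB : B.IsHermitian) :
    ((ee A B).re : ℂ) = ee A B := by
  have h1 := ee_ct A B
  rw [hA.eq, hB.eq] at h1
  exact Complex.conj_eq_iff_re.1 h1.symm

theorem ee_chom {A B : V → M3} (hA : IsForm A) (hB : IsForm B) :
    CHom (-2) (-2) (fun x => ee (A x) (B x)) := by
  have h1 : CHom ((-1) + (-1)) ((-1) + (-1)) (fun x => (A x).trace * (B x).trace) :=
    FrmB_mul (FrmB_tr hA) (FrmB_tr hB)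
  have h2 : CHom ((-1) + (-1)) ((-1) + (-1)) (fun x => ∑ j, ∑ k, A x j k * B x k j) :=
    FrmB_sum _ fun j => FrmB_sum _ fun k => FrmB_mul (form_chom hA j k) (form_chom hB k j)
  have h3 := FrmB_sub h1 h2
  have h4 : (fun x => ee (A x) (B x)) =
      (fun x => (A x).trace * (B x).trace - ∑ j, ∑ k, A x j k * B x k j) := by
    funext x
    unfold ee
    rw [FrmB_trmul]
  rw [h4]
  exact h3

theorem ee_int {A B : V → M3} (hA : IsForm A) (hB : IsForm B) :
    Integrable (fun x => ee (A x) (B x) * (wt x : ℂ)) :=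
  chom_integrable (ee_chom hA hB) (by norm_num)

theorem ee_int_bdd {A B : V → M3} (hA : IsForm A) (hB : IsForm B) {φ : V → ℂ}
    (hφ : AEStronglyMeasurable φ (volume : Measure V)) {b : ℝ} (hb : ∀ x, ‖φ x‖ ≤ b) :
    Integrable (fun x => φ x * ee (A x) (B x) * (wt x : ℂ)) :=
  chom_integrable_bdd (ee_chom hA hB) (by norm_num) hφ hb

theorem hs_int {A : V → M3} (hA : IsForm A) : Integrable (fun x => hs (A x) * wt x) := by
  have h1 : CHom ((-1) + (-1)) ((-1) + (-1)) (fun x => ∑ j, ∑ k, A x j k * conj (A x j k)) :=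
    FrmB_sum _ fun j => FrmB_sum _ fun k => FrmB_mul (form_chom hA j k)
      (FrmB_conj (form_chom hA j k))
  have h2 := (chom_integrable h1 (by norm_num)).re
  refine h2.congr (Filter.Eventually.of_forall fun x => ?_)
  show ((∑ j, ∑ k, A x j k * conj (A x j k)) * (wt x : ℂ)).re = hs (A x) * wt x
  have h3 : ∑ j, ∑ k, A x j k * conj (A x j k) = ((hs (A x) : ℝ) : ℂ) := by
    unfold hs
    push_cast
    exact Finset.sum_congr rfl fun j _ => Finset.sum_congr rfl fun k _ => Complex.mul_conj _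
  rw [h3, Complex.re_mul_ofReal, Complex.ofReal_re]

theorem tr_int {A : V → M3} (hA : IsForm A) :
    Integrable (fun x => ((A x).trace).re ^ 2 * wt x) := by
  have h0 : CHom (-1) (-1) (fun x => (A x).trace + conj (A x).trace) :=
    FrmB_add (FrmB_tr hA) (FrmB_conj (FrmB_tr hA))
  have h1 : CHom ((-1) + (-1)) ((-1) + (-1)) (fun x => ((A x).trace + conj (A x).trace) *
      ((A x).trace + conj (A x).trace)) := FrmB_mul h0 h0
  have h2 := ((chom_integrable h1 (by norm_num)).re).const_mul (1 / 4)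
  refine h2.congr (Filter.Eventually.of_forall fun x => ?_)
  show 1 / 4 * ((((A x).trace + conj (A x).trace) * ((A x).trace + conj (A x).trace)) *
    (wt x : ℂ)).re = ((A x).trace).re ^ 2 * wt x
  rw [Complex.add_conj, ← Complex.ofReal_mul, ← Complex.ofReal_mul, Complex.ofReal_re]
  ring

theorem qq_comm (A B : V → M3) : qq A B = qq B A := by
  unfold qq
  simp only [ee_comm]

theorem qq_add_left {A B C : V → M3} (hA : IsForm A) (hB : IsForm B) (hC : IsForm C) :
    qq (fun x => A x + B x) C = qq A C + qq B C := by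
  unfold qq
  rw [← integral_add (ee_int hA hC) (ee_int hB hC)]
  refine integral_congr_ae (Filter.Eventually.of_forall fun x => ?_)
  simp only [ee_add_left, add_mul]

theorem qq_smul_left (c : ℂ) (A B : V → M3) : qq (fun x => c • A x) B = c * qq A B := by
  unfold qq
  rw [← integral_const_mul]
  refine integral_congr_ae (Filter.Eventually.of_forall fun x => ?_)
  simp only [ee_smul_left, mul_assoc]

theorem qq_sub_left {A B C : V → M3} (hA : IsForm A) (hB : IsForm B) (hC : IsForm C) :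
    qq (fun x => A x - B x) C = qq A C - qq B C := by
  have h1 := qq_add_left hA (form_smul (-1) hB) hC
  have h2 := qq_smul_left (-1) B C
  have h3 : (fun x => A x - B x) = (fun x => A x + (-1 : ℂ) • B x) := by
    funext x
    rw [neg_one_smul, sub_eq_add_neg]
  rw [h3, h1, h2]
  ring

theorem qq_ct (A B : V → M3) :
    qq (fun x => (A x)ᴴ) (fun x => (B x)ᴴ) = conj (qq A B) := by
  unfold qq
  rw [← integral_conj]
  refine integral_congr_ae (Filter.Eventually.of_forall fun x => ?_)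
  simp only [ee_ct, map_mul, Complex.conj_ofReal]

/-- For real forms `qq` is real. -/
theorem qq_real {A B : V → M3} (hA : IsHerm A) (hB : IsHerm B) : ((qq A B).re : ℂ) = qq A B := by
  apply Complex.conj_eq_iff_re.1
  rw [← qq_ct]
  unfold qq
  refine integral_congr_ae ?_
  filter_upwards [FrmB_ae] with x hx
  rw [(hA x hx).eq, (hB x hx).eq]

theorem ee_Wm {A : V → M3} (hA : IsForm A) {x : V} (hx : x ≠ 0) :
    ee (A x) (Wm x) = (A x).trace / (N x : ℂ) := by
  have hn : (N x : ℂ) ≠ 0 := Complex.ofReal_ne_zero.2 (N_pos hx).ne'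
  unfold ee
  rw [trace_Wm hx, FrmB_trmul]
  have h1 : ∀ j k, A x j k * Wm x k j = (A x j k * (if k = j then 1 else 0)) * (N x : ℂ)⁻¹ -
      (x j * A x j k) * (conj (x k) * ((N x : ℂ)⁻¹ * (N x : ℂ)⁻¹)) := by
    intro j k
    show A x j k * (((if k = j then 1 else 0) - conj (x k) * x j / (N x : ℂ)) / (N x : ℂ)) = _
    ring
  have h2 : ∑ j, ∑ k, (A x j k * (if k = j then (1 : ℂ) else 0)) * (N x : ℂ)⁻¹ =
      (A x).trace * (N x : ℂ)⁻¹ := by
    rw [Matrix.trace, Finset.sum_mul]
    refine Finset.sum_congr rfl fun j _ => ?_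
    rw [← Finset.sum_mul]
    simp [Matrix.diag_apply]
  have h3 : ∑ j, ∑ k, (x j * A x j k) * (conj (x k) * ((N x : ℂ)⁻¹ * (N x : ℂ)⁻¹)) = 0 := by
    rw [Finset.sum_comm]
    refine Finset.sum_eq_zero fun k _ => ?_
    rw [← Finset.sum_mul, hA.killl x hx k, zero_mul]
  simp only [h1, Finset.sum_sub_distrib]
  rw [h2, h3]
  field_simp
  ring

theorem nn_comm (A B : V → M3) : nn A B = nn B A := by
  unfold nn
  rw [qq_comm]

theorem nn_add_left {A B C : V → M3} (hA : IsForm A) (hB : IsForm B) (hC : IsForm C) :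
    nn (fun x => A x + B x) C = nn A C + nn B C := by
  unfold nn
  rw [qq_add_left hA hB hC, Complex.add_re]
  ring

theorem nn_sub_left {A B C : V → M3} (hA : IsForm A) (hB : IsForm B) (hC : IsForm C) :
    nn (fun x => A x - B x) C = nn A C - nn B C := by
  unfold nn
  rw [qq_sub_left hA hB hC, Complex.sub_re]
  ring

theorem nn_smul_left (c : ℝ) (A B : V → M3) :
    nn (fun x => (c : ℂ) • A x) B = c * nn A B := by
  unfold nn
  rw [qq_smul_left, Complex.re_ofReal_mul]
  ring

theorem herm_add {A B : V → M3} (hA : IsHerm A) (hB : IsHerm B) : IsHerm (fun x => A x + B x) :=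
  fun x hx => (hA x hx).add (hB x hx)

theorem herm_sub {A B : V → M3} (hA : IsHerm A) (hB : IsHerm B) : IsHerm (fun x => A x - B x) :=
  fun x hx => (hA x hx).sub (hB x hx)

theorem herm_smul {A : V → M3} (c : ℝ) (hA : IsHerm A) : IsHerm (fun x => (c : ℂ) • A x) := by
  intro x hx
  show ((c : ℂ) • A x)ᴴ = (c : ℂ) • A x
  rw [Matrix.conjTranspose_smul, (hA x hx).eq]
  congr 1
  exact Complex.conj_ofReal c

end Pool.Agent.H85.DC

end S_H85_DC_FrmB

section S_H85_DC_Scl

/-!
# Row Scl: change of variables for functions of degree `-4`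

Let `h : CHom (-2) (-2)`, `det M ≠ 0`. Put `G x = N (M⁻¹ x)`, a continuous positive function on `V \ {0}`,
`G (l x) = |l|^2 G x`, `c N ≤ G ≤ C N`.
Step 1 (linear change of variables `x = M y`, real Jacobian `|det M|^2`, `LinearMap.det_restrictScalars`,
`Algebra.norm_complex_apply`; e.g. `MeasureTheory.Measure.addHaar_preimage_linearMap` /
`integral_comp…` or `map_linearMap_addHaar_eq_smul_addHaar`):
`∫ h (M y) |det M|^2 (N y / N (M y)) e^{-N y} dy = ∫ h x (G x / N x) e^{-G x} dx`.
Step 2 `∫ h (G/N) e^{-G} dx = ∫ h e^{-N} dx`. Polar coordinates: for `g : V → ℂ`,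
`∫ g = ∫_{ω} ∫_0^∞ r^5 g(r ω) dr dσ(ω)` with `σ = (volume).toSphere` on the unit sphere of the (sup) norm
(`MeasureTheory.Measure.measurePreserving_homeomorphUnitSphereProd`, `volumeIoiPow`). For `g = h (G/N) e^{-G}`:
`h(rω) = r^{-4} h ω`, `G(rω) = r^2 G ω`, inner integral `h ω (G ω/N ω) ∫_0^∞ r e^{-r^2 G ω} dr = h ω /(2 N ω)`, which does not
depend on `G`; the same with `G = N`. Alternative without polar coordinates: `∫_0^∞ N e^{-tN} dt = 1`, Fubini, scaling
`x ↦ x/√t` (`dx → t^{-3} dx`), giving `∫ h (G/N) e^{-G} = ∫_0^∞ ∫ h G e^{-G - tN} = ∫_0^∞ t^{-2} ∫ h G e^{-G/t - N}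
= ∫ h e^{-N}`, since `∫_0^∞ t^{-2} e^{-G/t} dt = 1/G` (all absolutely convergent since `|h| ≤ C N^{-2}`,
`integrable_N_rpow`).
-/

open MeasureTheory
open scoped ContDiff BigOperators ComplexConjugate Matrix

namespace Pool.Agent.H85.DC

theorem mulVec_ne {M : M3} (hM : M.det ≠ 0) {y : V} (hy : y ≠ 0) : M.mulVec y ≠ 0 := by
  intro h
  exact hy (Matrix.eq_zero_of_mulVec_eq_zero hM h)

theorem Scl_finrank : Module.finrank ℝ V = 6 := by
  show Module.finrank ℝ (Fin 3 → ℂ) = 6
  rw [Module.finrank_pi_fintype]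
  simp

theorem Scl_polar {g : V → ℂ} (hg : Integrable g) :
    ∫ x, g x = ∫ q : Metric.sphere (0 : V) 1,
      (∫ r in Set.Ioi (0 : ℝ), ((r ^ 5 : ℝ) : ℂ) * g (r • (q : V)))
        ∂((volume : Measure V).toSphere) := by
  have mp := (volume : Measure V).measurePreserving_homeomorphUnitSphereProd
  have emb : MeasurableEmbedding (homeomorphUnitSphereProd V) := Homeomorph.measurableEmbedding _
  rw [Scl_finrank] at mp
  have hpt : ∀ x : ({0}ᶜ : Set V), g (((homeomorphUnitSphereProd V x).2 : ℝ) •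
      ((homeomorphUnitSphereProd V x).1 : V)) = g x := by
    intro x
    congr 1
    rw [homeomorphUnitSphereProd_apply_snd_coe, homeomorphUnitSphereProd_apply_fst_coe]
    have hx : ‖(x : V)‖ ≠ 0 := norm_ne_zero_iff.2 x.2
    rw [smul_smul, mul_inv_cancel₀ hx, one_smul]
  have s1 : ∫ x, g x = ∫ x : ({0}ᶜ : Set V), g x.1 ∂((volume : Measure V).comap (↑)) := by
    rw [integral_subtype_comap (measurableSet_singleton _).compl g,
      restrict_compl_singleton]
  have s2 : ∫ x : ({0}ᶜ : Set V), g x.1 ∂((volume : Measure V).comap (↑)) =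
      ∫ p : Metric.sphere (0 : V) 1 × Set.Ioi (0 : ℝ), g ((p.2 : ℝ) • (p.1 : V))
        ∂((volume : Measure V).toSphere.prod (Measure.volumeIoiPow 5)) := by
    have := mp.integral_comp emb
      (fun p : Metric.sphere (0 : V) 1 × Set.Ioi (0 : ℝ) => g ((p.2 : ℝ) • (p.1 : V)))
    rw [← this]
    exact integral_congr_ae (Filter.Eventually.of_forall fun x => (hpt x).symm)
  have hi : Integrable (fun p : Metric.sphere (0 : V) 1 × Set.Ioi (0 : ℝ) =>
      g ((p.2 : ℝ) • (p.1 : V)))
        ((volume : Measure V).toSphere.prod (Measure.volumeIoiPow 5)) := by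
    rw [← mp.integrable_comp_emb emb]
    have h1 : Integrable (fun x : ({0}ᶜ : Set V) => g x.1) ((volume : Measure V).comap (↑)) :=
      (integrableOn_iff_comap_subtypeVal (measurableSet_singleton _).compl).1 hg.integrableOn
    exact h1.congr (Filter.Eventually.of_forall fun x => (hpt x).symm)
  rw [s1, s2, integral_prod _ hi]
  refine integral_congr_ae (Filter.Eventually.of_forall fun q => ?_)
  simp only
  rw [Measure.volumeIoiPow, integral_withDensity_eq_integral_toReal_smul
    (by fun_prop) (Filter.Eventually.of_forall fun _ => ENNReal.ofReal_lt_top)]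
  rw [← integral_subtype_comap measurableSet_Ioi
    (fun r : ℝ => ((r ^ 5 : ℝ) : ℂ) * g (r • (q : V)))]
  refine integral_congr_ae (Filter.Eventually.of_forall fun r => ?_)
  have hr : 0 < (r : ℝ) := r.2
  simp only
  rw [ENNReal.toReal_ofReal (by positivity), Complex.real_smul]

theorem Scl_half {h : V → ℂ} (hh : CHom (-2) (-2) h) {G : V → ℝ}
    (hG : ∀ (r : ℝ) (x : V), 0 < r → G (r • x) = r ^ 2 * G x) (hp : ∀ x, x ≠ 0 → 0 < G x)
    (hi : Integrable (fun x => h x * ((G x / N x : ℝ) : ℂ) * ((Real.exp (-G x) : ℝ) : ℂ))) :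
    ∫ x, h x * ((G x / N x : ℝ) : ℂ) * ((Real.exp (-G x) : ℝ) : ℂ) =
      ∫ q : Metric.sphere (0 : V) 1, h q * ((2 * N (q : V) : ℝ) : ℂ)⁻¹
        ∂((volume : Measure V).toSphere) := by
  rw [Scl_polar hi]
  refine integral_congr_ae (Filter.Eventually.of_forall fun q => ?_)
  simp only
  have hq : (q : V) ≠ 0 := by
    intro h0
    have h1 := q.2
    rw [mem_sphere_zero_iff_norm, h0, norm_zero] at h1
    exact zero_ne_one h1
  have hGp := hp _ hq
  have hNp := N_pos hq
  have e : ∀ r ∈ Set.Ioi (0 : ℝ), ((r ^ 5 : ℝ) : ℂ) * (h (r • (q : V)) *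
      ((G (r • (q : V)) / N (r • (q : V)) : ℝ) : ℂ) *
      ((Real.exp (-G (r • (q : V))) : ℝ) : ℂ)) =
      (h q * ((G q / N (q : V) : ℝ) : ℂ)) *
        ((r : ℂ) * Complex.exp (-(G q : ℂ) * (r : ℂ) ^ 2)) := by
    intro r hr
    have hr0 : 0 < r := hr
    have hrc : (r : ℂ) ≠ 0 := Complex.ofReal_ne_zero.2 hr0.ne'
    have e1 : r • (q : V) = (r : ℂ) • (q : V) := by
      ext j
      simp
    have e2 : h (r • (q : V)) = ((r : ℂ) ^ 4)⁻¹ * h q := by
      rw [e1, hh.hom _ _ hrc, Complex.conj_ofReal]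
      congr 1
      rw [← zpow_add₀ hrc]
      norm_num
    have e3 : N (r • (q : V)) = r ^ 2 * N (q : V) := by
      rw [e1, N_smul, Complex.normSq_ofReal]
      ring
    have e4 : G (r • (q : V)) / N (r • (q : V)) = G q / N (q : V) := by
      rw [hG r _ hr0, e3]
      field_simp
    rw [e4, e2, hG r _ hr0, Complex.ofReal_exp]
    push_cast
    have e5 : -((r : ℂ) ^ 2 * (G q : ℂ)) = -(G q : ℂ) * (r : ℂ) ^ 2 := by ring
    rw [e5]
    field_simp
  rw [setIntegral_congr_fun measurableSet_Ioi e, integral_const_mul,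
    integral_mul_cexp_neg_mul_sq (b := (G q : ℂ)) (by simpa using hGp)]
  have c1 : (G q : ℂ) ≠ 0 := Complex.ofReal_ne_zero.2 hGp.ne'
  have c2 : (N (q : V) : ℂ) ≠ 0 := Complex.ofReal_ne_zero.2 hNp.ne'
  push_cast
  field_simp

theorem Scl_N_mulVec (A : M3) (x : V) : N (A.mulVec x) ≤ hs A * N x := by
  unfold N hs
  rw [Finset.sum_mul]
  refine Finset.sum_le_sum fun j _ => ?_
  have h1 : Complex.normSq (A.mulVec x j) = ‖∑ k, A j k * x k‖ ^ 2 := by
    rw [Complex.normSq_eq_norm_sq]
    rfl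
  rw [h1]
  have h2 : ‖∑ k, A j k * x k‖ ≤ ∑ k, ‖A j k‖ * ‖x k‖ := by
    refine (norm_sum_le _ _).trans (le_of_eq ?_)
    exact Finset.sum_congr rfl fun k _ => norm_mul _ _
  have h3 : (∑ k, ‖A j k‖ * ‖x k‖) ^ 2 ≤ (∑ k, ‖A j k‖ ^ 2) * ∑ k, ‖x k‖ ^ 2 :=
    Finset.sum_mul_sq_le_sq_mul_sq _ _ _
  have h4 : ‖∑ k, A j k * x k‖ ^ 2 ≤ (∑ k, ‖A j k‖ * ‖x k‖) ^ 2 := by
    gcongr
  simp_rw [Complex.normSq_eq_norm_sq]
  exact h4.trans h3

theorem scl {h : V → ℂ} (hh : CHom (-2) (-2) h) {M : M3} (hM : M.det ≠ 0) :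
    ∫ y, h (M.mulVec y) * ((Complex.normSq M.det * (N y / N (M.mulVec y)) : ℝ) : ℂ) * (wt y : ℂ) =
      ∫ x, h x * (wt x : ℂ) := by
  have hMu : IsUnit M.det := isUnit_iff_ne_zero.2 hM
  -- the linear map
  let f : V →ₗ[ℝ] V := (Matrix.toLin' M).restrictScalars ℝ
  have hf : ∀ y, f y = M.mulVec y := fun y => rfl
  have hdet : LinearMap.det f = Complex.normSq M.det := by
    show LinearMap.det ((Matrix.toLin' M).restrictScalars ℝ) = _
    rw [LinearMap.det_restrictScalars, LinearMap.det_toLin', Algebra.norm_complex_apply]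
  have hd0 : 0 < Complex.normSq M.det := Complex.normSq_pos.2 hM
  have hdet0 : LinearMap.det f ≠ 0 := by
    rw [hdet]
    exact hd0.ne'
  have hmap := Measure.map_linearMap_addHaar_eq_smul_addHaar (volume : Measure V) hdet0
  rw [hdet, abs_of_pos (inv_pos.2 hd0)] at hmap
  have hinv1 : ∀ y : V, M⁻¹.mulVec (M.mulVec y) = y := by
    intro y
    rw [Matrix.mulVec_mulVec, Matrix.nonsing_inv_mul M hMu, Matrix.one_mulVec]
  have hinv2 : ∀ y : V, M.mulVec (M⁻¹.mulVec y) = y := by
    intro y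
    rw [Matrix.mulVec_mulVec, Matrix.mul_nonsing_inv M hMu, Matrix.one_mulVec]
  have hfc : Continuous f := LinearMap.continuous_of_finiteDimensional _
  let g : V →ₗ[ℝ] V := (Matrix.toLin' M⁻¹).restrictScalars ℝ
  have hgc : Continuous g := LinearMap.continuous_of_finiteDimensional _
  let e : V ≃ₜ V :=
    { toFun := f
      invFun := g
      left_inv := hinv1
      right_inv := hinv2
      continuous_toFun := hfc
      continuous_invFun := hgc }
  have hemb : MeasurableEmbedding f := e.measurableEmbedding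
  let G : V → ℝ := fun x => N (M⁻¹.mulVec x)
  have hM1 : (M⁻¹).det ≠ 0 := by
    rw [Matrix.det_nonsing_inv]
    simpa using hM
  have hG : ∀ (r : ℝ) (x : V), 0 < r → G (r • x) = r ^ 2 * G x := by
    intro r x _
    have e1 : r • x = (r : ℂ) • x := by
      ext j
      simp
    show N (M⁻¹.mulVec (r • x)) = _
    rw [e1, Matrix.mulVec_smul, N_smul, Complex.normSq_ofReal]
    show r * r * G x = _
    ring
  have hp : ∀ x, x ≠ 0 → 0 < G x := fun x hx => N_pos (mulVec_ne hM1 hx)
  let F : V → ℂ := fun x => h x * ((G x / N x : ℝ) : ℂ) * ((Real.exp (-G x) : ℝ) : ℂ)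
  have hFf : ∀ y, F (f y) = ((N y / N (M.mulVec y) : ℝ) : ℂ) * h (M.mulVec y) * (wt y : ℂ) := by
    intro y
    show h (M.mulVec y) * ((N (M⁻¹.mulVec (M.mulVec y)) / N (M.mulVec y) : ℝ) : ℂ) *
      ((Real.exp (-N (M⁻¹.mulVec (M.mulVec y))) : ℝ) : ℂ) = _
    rw [hinv1]
    unfold wt
    ring
  have hch : CHom (-2) (-2) (fun y => h (M.mulVec y)) := by
    refine ⟨?_, ?_⟩
    · refine hh.cont.comp (hfc.continuousOn (s := {0}ᶜ)) ?_
      intro y hy
      exact mulVec_ne hM hy
    · intro l x hl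
      show h (M.mulVec (l • x)) = _
      rw [Matrix.mulVec_smul, hh.hom l _ hl]
  have hintf : Integrable (fun y => F (f y)) := by
    have hFf' : (fun y => F (f y)) =
      fun y => ((N y / N (M.mulVec y) : ℝ) : ℂ) * h (M.mulVec y) * (wt y : ℂ) := funext hFf
    rw [hFf']
    refine chom_integrable_bdd hch (by norm_num) (B := hs M⁻¹) ?_ ?_
    · refine Measurable.aestronglyMeasurable ?_
      exact Complex.measurable_ofReal.comp
        (continuous_N.measurable.div (continuous_N.comp hfc).measurable)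
    · intro y
      rw [Complex.norm_real, Real.norm_of_nonneg (div_nonneg (N_nonneg _) (N_nonneg _))]
      have hs0 : 0 ≤ hs M⁻¹ := Finset.sum_nonneg fun _ _ => Finset.sum_nonneg fun _ _ =>
        Complex.normSq_nonneg _
      refine div_le_of_le_mul₀ (N_nonneg _) hs0 ?_
      have := Scl_N_mulVec M⁻¹ (M.mulVec y)
      rwa [hinv1] at this
  have hd1 : ENNReal.ofReal (Complex.normSq M.det)⁻¹ ≠ 0 := by
    rw [Ne, ENNReal.ofReal_eq_zero, not_le]
    positivity
  have hintF : Integrable F := by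
    have h1 : Integrable F (Measure.map f volume) := (hemb.integrable_map_iff).2 hintf
    rw [hmap] at h1
    exact (integrable_smul_measure hd1 ENNReal.ofReal_ne_top).1 h1
  have hchange : ∫ y, F (f y) = (Complex.normSq M.det)⁻¹ • ∫ x, F x := by
    rw [← hemb.integral_map, hmap, integral_smul_measure, ENNReal.toReal_ofReal (by positivity)]
  have hL : ∫ y, h (M.mulVec y) * ((Complex.normSq M.det * (N y / N (M.mulVec y)) : ℝ) : ℂ) *
      (wt y : ℂ) = ∫ x, F x := by
    have e1 : ∀ y, h (M.mulVec y) * ((Complex.normSq M.det * (N y / N (M.mulVec y)) : ℝ) : ℂ) *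
      (wt y : ℂ) = (Complex.normSq M.det : ℂ) * F (f y) := by
      intro y
      rw [hFf]
      push_cast
      ring
    simp_rw [e1]
    rw [integral_const_mul, hchange, Complex.real_smul, ← mul_assoc, ← Complex.ofReal_mul,
      mul_inv_cancel₀ hd0.ne']
    simp
  have hintN : Integrable (fun x => h x * ((N x / N x : ℝ) : ℂ) * ((Real.exp (-N x) : ℝ) : ℂ)) := by
    refine (chom_integrable hh (by norm_num)).congr ?_
    have h0 : ∀ᵐ x : V, x ≠ 0 := by
      rw [ae_iff]
      simp
    filter_upwards [h0] with x hx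
    rw [div_self (N_pos hx).ne']
    simp [wt]
  have hR : ∫ x, h x * (wt x : ℂ) =
      ∫ x, h x * ((N x / N x : ℝ) : ℂ) * ((Real.exp (-N x) : ℝ) : ℂ) := by
    refine integral_congr_ae ?_
    have h0 : ∀ᵐ x : V, x ≠ 0 := by
      rw [ae_iff]
      simp
    filter_upwards [h0] with x hx
    rw [div_self (N_pos hx).ne']
    simp [wt]
  rw [hL, hR]
  have r1 := Scl_half hh hG hp hintF
  have r2 := Scl_half hh (G := N) (fun r x _ => by
    have e1 : r • x = (r : ℂ) • x := by
      ext j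
      simp
    rw [e1, N_smul, Complex.normSq_ofReal]
    ring) (fun x hx => N_pos hx) hintN
  exact r1.trans r2.symm

end Pool.Agent.H85.DC

end S_H85_DC_Scl
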