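import Mathlib
import Pool.Agent.H24.M68.G02
import Pool.Agent.H24.M68.G03
import Pool.Agent.H24.M68.G05

/-! MP_6873ef_an: this file joins several modules to save build time. -/

section S_H24_CU_RH

/-!
# Row RH (the measure of a dd^c-closed directed current)

PROOF.  Given real `u` with `IsFun u`, take `A` of `exists_leviForm`; `T.toLin A = 0` by `DdcClosed`,
so `∫ dens A.1 dμ = 0` by `pair`.  For `y ≠ 0`, `dens A.1 y = levi u y (vec y) / nsq (α y)` as a complex
number (`sum_dz_dzbar`; `u` is `C^2` at `y`), and `μ {0} = 0` (sphere), so the real integral is `0`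
(`integral_congr_ae`, `integral_ofReal`).
`bounded`: the same identity and `dens_bound`.  `integrable` follows (finite measure, measurability
from `measurable_dens`, real part).
-/

namespace Pool.Agent.H24.CU

open MeasureTheory
open scoped ComplexConjugate ContDiff

theorem RH_eq (𝓕 : Foliation) {u : V → ℝ} (hu : IsFun (fun x => (u x : ℂ))) {A : Form11}
    (hA : ∀ x : V, x ≠ 0 → ∀ j k, A.1 x j k = dz j (dzbar k (fun y => (u y : ℂ))) x)
    {y : V} (hy : y ≠ 0) :
    𝓕.dens A.1 y = ((levi u y (𝓕.vec y) / nsq (𝓕.alpha y) : ℝ) : ℂ) := by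
  have h1 : ContDiffAt ℝ ∞ (fun x => (u x : ℂ)) y :=
    hu.smooth.contDiffAt (isOpen_compl_singleton.mem_nhds hy)
  have h2 : ContDiffAt ℝ ∞ u y := Complex.reCLM.contDiff.contDiffAt.comp y h1
  have h3 : ContDiffAt ℝ 2 u y := h2.of_le (by norm_cast)
  unfold Foliation.dens
  rw [Complex.ofReal_div, ← sum_dz_dzbar h3 (𝓕.vec y)]
  congr 1
  refine Finset.sum_congr rfl fun j _ => Finset.sum_congr rfl fun k _ => ?_
  rw [hA y hy j k]

theorem RH_ae {μ : Measure V} (hs : μ {x | nsq x ≠ 1} = 0) : ∀ᵐ x ∂μ, nsq x = 1 := hs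

theorem Rep.toHarm {𝓕 : Foliation} {T : PosCurrent} {μ : Measure V} (h : Rep 𝓕 T μ)
    (hT : T.DdcClosed) : Harm 𝓕 μ := by
  refine ⟨h.fin, h.sph, h.sing, fun u hu => ?_⟩
  obtain ⟨A, hA⟩ := exists_leviForm _ hu
  have h1 : T.toLin A = 0 := hT _ hu A hA
  rw [h.pair A] at h1
  have h2 : ∫ y, 𝓕.dens A.1 y ∂μ =
      ∫ y, ((levi u y (𝓕.vec y) / nsq (𝓕.alpha y) : ℝ) : ℂ) ∂μ := by
    refine integral_congr_ae ?_
    filter_upwards [RH_ae h.sph] with y hy
    exact RH_eq 𝓕 hu hA (RN_sphere_ne hy)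
  rw [h2, integral_complex_ofReal] at h1
  exact_mod_cast h1

theorem levi_div_bound (𝓕 : Foliation) (u : V → ℝ) (hu : IsFun (fun x => (u x : ℂ))) :
    ∃ C : ℝ, 0 ≤ C ∧ ∀ y : V, nsq y = 1 → |levi u y (𝓕.vec y) / nsq (𝓕.alpha y)| ≤ C := by
  obtain ⟨A, hA⟩ := exists_leviForm _ hu
  obtain ⟨C, hC, hb⟩ := dens_bound 𝓕 A
  refine ⟨C, hC, fun y hy => ?_⟩
  have h1 := hb y hy
  rw [RH_eq 𝓕 hu hA (RN_sphere_ne hy), Complex.norm_real, Real.norm_eq_abs] at h1
  exact h1

theorem integrable_levi_div (𝓕 : Foliation) (μ : Measure V) [IsFiniteMeasure μ]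
    (hs : μ {x | nsq x ≠ 1} = 0) (u : V → ℝ) (hu : IsFun (fun x => (u x : ℂ))) :
    Integrable (fun y => levi u y (𝓕.vec y) / nsq (𝓕.alpha y)) μ := by
  obtain ⟨A, hA⟩ := exists_leviForm _ hu
  obtain ⟨C, hC, hb⟩ := levi_div_bound 𝓕 u hu
  have hm : Measurable fun y => (𝓕.dens A.1 y).re :=
    Complex.measurable_re.comp (measurable_dens 𝓕 A)
  have hae : (fun y => (𝓕.dens A.1 y).re) =ᵐ[μ]
      fun y => levi u y (𝓕.vec y) / nsq (𝓕.alpha y) := by
    filter_upwards [RH_ae hs] with y hy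
    rw [RH_eq 𝓕 hu hA (RN_sphere_ne hy), Complex.ofReal_re]
  refine Integrable.of_bound (hm.aestronglyMeasurable.congr hae) C ?_
  filter_upwards [RH_ae hs] with y hy
  rw [Real.norm_eq_abs]
  exact hb y hy

end Pool.Agent.H24.CU

end S_H24_CU_RH

section S_H76_FL_LD

/-!
# Row LD: a smooth convex cut-off of the line

Let ρ be a smooth bump, ρ >= 0, ρ = 0 outside (0,3), ρ = 1 on [1,2] (`ContDiffBump` centered at 3/2 with radii 1/2, 3/2), I = ∫ ρ > 0.
Φ'(t) = (∫_0^t ρ)/I, Φ(t) = ∫_0^t Φ'.  Then Φ = 0 for t <= 0, 0 <= Φ' <= 1, Φ'' = ρ/I >= 0, Φ'' >= 1/I on [1,2], Φ' = 1 for t >= 3, and for t >= 0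
0 <= t - Φ(t) = ∫_0^t (1 - Φ') <= 3.
-/

open scoped ContDiff

namespace FC76

/-- the bump -/
noncomputable def LD_b : ContDiffBump (3 / 2 : ℝ) where
  rIn := 1 / 2
  rOut := 3 / 2
  rIn_pos := by norm_num
  rIn_lt_rOut := by norm_num

theorem LD_zero {x : ℝ} (hx : x ≤ 0 ∨ 3 ≤ x) : LD_b x = 0 := by
  apply LD_b.zero_of_le_dist
  change (3 / 2 : ℝ) ≤ dist x (3 / 2)
  rw [Real.dist_eq]
  rcases hx with h | h
  · rw [abs_of_neg (by linarith)]
    linarith
  · rw [abs_of_nonneg (by linarith)]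
    linarith

theorem LD_one {x : ℝ} (h1 : 1 ≤ x) (h2 : x ≤ 2) : LD_b x = 1 := by
  apply LD_b.one_of_mem_closedBall
  rw [Metric.mem_closedBall, Real.dist_eq]
  change |x - 3 / 2| ≤ 1 / 2
  rw [abs_le]
  constructor <;> linarith

theorem LD_cont : Continuous (fun x : ℝ => LD_b x) := LD_b.continuous

/-- the mass -/
noncomputable def LD_I : ℝ := ∫ x in (0 : ℝ)..3, LD_b x

theorem LD_pos : 0 < LD_I := by
  have h1 : ∫ x in (0 : ℝ)..3, LD_b x = (∫ x in (0 : ℝ)..1, LD_b x) + ∫ x in (1 : ℝ)..3, LD_b x :=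
    (intervalIntegral.integral_add_adjacent_intervals (LD_cont.intervalIntegrable _ _)
      (LD_cont.intervalIntegrable _ _)).symm
  have h2 : ∫ x in (1 : ℝ)..3, LD_b x = (∫ x in (1 : ℝ)..2, LD_b x) + ∫ x in (2 : ℝ)..3, LD_b x :=
    (intervalIntegral.integral_add_adjacent_intervals (LD_cont.intervalIntegrable _ _)
      (LD_cont.intervalIntegrable _ _)).symm
  have h3 : ∫ x in (1 : ℝ)..2, LD_b x = 1 := by
    rw [intervalIntegral.integral_congr (g := fun _ => (1 : ℝ))]
    · simp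
      norm_num
    · intro x hx
      rw [Set.uIcc_of_le (by norm_num)] at hx
      exact LD_one hx.1 hx.2
  have h4 : 0 ≤ ∫ x in (0 : ℝ)..1, LD_b x :=
    intervalIntegral.integral_nonneg (by norm_num) fun x _ => LD_b.nonneg
  have h5 : 0 ≤ ∫ x in (2 : ℝ)..3, LD_b x :=
    intervalIntegral.integral_nonneg (by norm_num) fun x _ => LD_b.nonneg
  unfold LD_I
  rw [h1, h2, h3]
  linarith

/-- the derivative of the cut-off -/
noncomputable def LD_g (t : ℝ) : ℝ := (∫ x in (0 : ℝ)..t, LD_b x) / LD_I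

theorem LD_gder (t : ℝ) : HasDerivAt LD_g (LD_b t / LD_I) t := by
  unfold LD_g
  exact (LD_cont.integral_hasStrictDerivAt 0 t).hasDerivAt.div_const _

theorem LD_gcont : Continuous LD_g :=
  continuous_iff_continuousAt.2 fun t => (LD_gder t).continuousAt

theorem LD_g_mono : Monotone LD_g :=
  monotone_of_deriv_nonneg (fun t => (LD_gder t).differentiableAt) fun t => by
    rw [(LD_gder t).deriv]
    exact div_nonneg LD_b.nonneg LD_pos.le

theorem LD_g_zero {t : ℝ} (ht : t ≤ 0) : LD_g t = 0 := by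
  unfold LD_g
  rw [intervalIntegral.integral_congr (g := fun _ => (0 : ℝ))]
  · simp
  · intro x hx
    rw [Set.uIcc_of_ge ht] at hx
    exact LD_zero (Or.inl hx.2)

theorem LD_g_one {t : ℝ} (ht : 3 ≤ t) : LD_g t = 1 := by
  unfold LD_g
  rw [← intervalIntegral.integral_add_adjacent_intervals (b := 3) (LD_cont.intervalIntegrable _ _)
    (LD_cont.intervalIntegrable _ _)]
  have : ∫ x in (3 : ℝ)..t, LD_b x = 0 := by
    rw [intervalIntegral.integral_congr (g := fun _ => (0 : ℝ))]
    · simp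
    · intro x hx
      rw [Set.uIcc_of_le ht] at hx
      exact LD_zero (Or.inr hx.1)
  rw [this, add_zero]
  exact div_self LD_pos.ne'

theorem LD_g_nonneg (t : ℝ) : 0 ≤ LD_g t := by
  rcases le_total t 0 with h | h
  · rw [LD_g_zero h]
  · rw [← LD_g_zero le_rfl]
    exact LD_g_mono h

theorem LD_g_le (t : ℝ) : LD_g t ≤ 1 := by
  rcases le_total 3 t with h | h
  · rw [LD_g_one h]
  · rw [← LD_g_one le_rfl]
    exact LD_g_mono h

theorem LD_g_smooth : ContDiff ℝ ∞ LD_g := by
  rw [contDiff_infty_iff_deriv]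
  refine ⟨fun t => (LD_gder t).differentiableAt, ?_⟩
  have : deriv LD_g = fun t => LD_b t / LD_I := funext fun t => (LD_gder t).deriv
  rw [this]
  exact LD_b.contDiff.div_const _

/-- the cut-off -/
noncomputable def LD_F (t : ℝ) : ℝ := ∫ x in (0 : ℝ)..t, LD_g x

theorem LD_Fder (t : ℝ) : HasDerivAt LD_F (LD_g t) t :=
  (LD_gcont.integral_hasStrictDerivAt 0 t).hasDerivAt

theorem LD_Fd : deriv LD_F = LD_g := funext fun t => (LD_Fder t).deriv

theorem exists_convexCutoff : ∃ Φ : ℝ → ℝ, ContDiff ℝ ∞ Φ ∧ (∀ t ≤ 0, Φ t = 0) ∧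
    (∀ t, 0 ≤ deriv Φ t ∧ deriv Φ t ≤ 1) ∧ (∀ t, 0 ≤ deriv (deriv Φ) t) ∧
    (∃ c > 0, ∀ t ∈ Set.Icc (1 : ℝ) 2, c ≤ deriv (deriv Φ) t) ∧ (∀ t, 3 ≤ t → deriv Φ t = 1) ∧
    (∀ t, 0 ≤ t → |Φ t - t| ≤ 3) := by
  refine ⟨LD_F, ?_, ?_, ?_, ?_, ⟨1 / LD_I, div_pos one_pos LD_pos, ?_⟩, ?_, ?_⟩
  · rw [contDiff_infty_iff_deriv]
    refine ⟨fun t => (LD_Fder t).differentiableAt, ?_⟩
    rw [LD_Fd]
    exact LD_g_smooth
  · intro t ht
    unfold LD_F
    rw [intervalIntegral.integral_congr (g := fun _ => (0 : ℝ))]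
    · simp
    · intro x hx
      rw [Set.uIcc_of_ge ht] at hx
      exact LD_g_zero hx.2
  · intro t
    rw [LD_Fd]
    exact ⟨LD_g_nonneg t, LD_g_le t⟩
  · intro t
    rw [LD_Fd, (LD_gder t).deriv]
    exact div_nonneg LD_b.nonneg LD_pos.le
  · intro t ht
    rw [LD_Fd, (LD_gder t).deriv, LD_one ht.1 ht.2]
  · intro t ht
    rw [LD_Fd]
    exact LD_g_one ht
  · intro t ht
    have h0 : LD_F 0 = 0 := intervalIntegral.integral_same
    have hd : ∀ s, HasDerivAt (fun s => s - LD_F s) (1 - LD_g s) s := fun s =>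
      (hasDerivAt_id s).sub (LD_Fder s)
    have hm : Monotone fun s => s - LD_F s :=
      monotone_of_deriv_nonneg (fun s => (hd s).differentiableAt) fun s => by
        rw [(hd s).deriv]
        linarith [LD_g_le s]
    have hm' : Monotone LD_F :=
      monotone_of_deriv_nonneg (fun s => (LD_Fder s).differentiableAt) fun s => by
        rw [(LD_Fder s).deriv]
        exact LD_g_nonneg s
    have h1 : 0 ≤ t - LD_F t := by
      have := hm ht
      simp only [h0] at this
      linarith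
    have h2 : t - LD_F t ≤ 3 := by
      rcases le_total t 3 with h | h
      · have := hm' ht
        rw [h0] at this
        linarith
      · have h3 : LD_F t = LD_F 3 + (t - 3) := by
          unfold LD_F
          rw [← intervalIntegral.integral_add_adjacent_intervals (b := 3)
            (LD_gcont.intervalIntegrable _ _) (LD_gcont.intervalIntegrable _ _)]
          congr 1
          rw [intervalIntegral.integral_congr (g := fun _ => (1 : ℝ))]
          · simp
          · intro x hx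
            rw [Set.uIcc_of_le h] at hx
            exact LD_g_one hx.1
        have h4 := hm' (show (0 : ℝ) ≤ 3 by norm_num)
        rw [h0] at h4
        linarith
    rw [abs_le]
    constructor <;> linarith

end FC76

end S_H76_FL_LD

section S_H24_CU_DBF

/-!
# Row DBF (the form dbar z of a smooth (1,0)-form; closed implies dd^c-closed)

PROOFS.  `exists_dbForm`: for `z` with `IsForm10 z` the matrix field `A x j k = dzbar k z_j (x)` for `x ≠ 0`, `A 0 = 0`, is in `Form11`.  Smooth: `fderiv` of a smooth function on the open set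
`{0}ᶜ` evaluated at a constant vector.  Homogeneity: differentiate `z (c • x) = c⁻¹ • z x` in `x`: `fderiv z_j (c x) (c w) = c⁻¹ fderiv z_j x w`, so
`dzbar k z_j (c x) = c⁻¹ (conj c)⁻¹ dzbar k z_j x`.  Basic: `∑_j x_j dzbar k z_j = dzbar k (∑ x_j z_j) = 0` (the coordinates are holomorphic: `dzbar k x_j = 0`).
`∑_k conj(x_k) dzbar k z_j (x) = (D z_j(x)(x) + i D z_j(x)(i x))/2` (see `LW`: `∑_k conj(v_k) dzbar k f = (Df(v) + i Df(iv))/2`), and the derivatives at `s = 1` of
`s ↦ z_j(s x) = s⁻¹ z_j(x)` in the directions `1`, `i` are `D z_j(x)(x) = - z_j(x)`, `D z_j(x)(i x) = - i z_j(x)`: the sum is `0`.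
`PosCurrent.Closed.ddc`: for `u` with `IsFun u` put `z x = (dz j u x)_j`; `IsForm10 z`: smooth, `dz j u (c x) = c⁻¹ dz j u x` (differentiate `u (c x) = u x`), `∑ x_j dz j u x = 0`
(`u (s x) = u x`), and `dzbar k (dz j u) x = dz j (dzbar k u) x` at `x ≠ 0` (symmetry of the second derivative); use the first half of `Closed`.
-/

namespace Pool.Agent.H24.CU

open scoped ComplexConjugate ContDiff

theorem DBF_inv (a : ℂ) : HasDerivAt (fun t : ℝ => (1 + (t : ℂ) * a)⁻¹) (-a) 0 := by
  have h2 : HasDerivAt (fun t : ℝ => 1 + (t : ℂ) * a) (1 * a) 0 :=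
    ((Complex.ofRealCLM.hasDerivAt (x := (0 : ℝ))).mul_const a).const_add 1
  have h3 := h2.inv (by simp)
  have h4 : (fun t : ℝ => (1 + (t : ℂ) * a)⁻¹) = (fun t : ℝ => 1 + (t : ℂ) * a)⁻¹ := rfl
  rw [h4]
  refine h3.congr_deriv ?_
  simp

theorem exists_dbForm (z : V → V) (hz : IsForm10 z) :
    ∃ A : Form11, ∀ x : V, x ≠ 0 → ∀ j k, A.1 x j k = dzbar k (fun y => z y j) x := by
  classical
  have hs : ∀ j, ContDiffOn ℝ ∞ (fun y => z y j) {0}ᶜ := fun j => contDiffOn_pi.1 hz.smooth j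
  have hd : ∀ j, ∀ y : V, y ≠ 0 → DifferentiableAt ℝ (fun y => z y j) y := fun j => LW_diff (hs j)
  have hh : ∀ (j : Fin 3) (c : ℂ) (y : V), c ≠ 0 → y ≠ 0 →
      (fun y => z y j) (c • y) = c⁻¹ * (fun y => z y j) y := by
    intro j c y hc hy
    beta_reduce
    rw [hz.hom c y hc hy, Pi.smul_apply, smul_eq_mul]
  refine ⟨⟨fun x => if x = 0 then 0 else Matrix.of fun j k => dzbar k (fun y => z y j) x,
    ?_, ?_, ?_, ?_⟩, ?_⟩
  · intro j k
    refine (LW_smooth_dzbar (hs j) k).congr ?_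
    intro x hx
    have hx' : x ≠ 0 := hx
    simp only [if_neg hx', Matrix.of_apply]
  · simp
  · intro c x hc hx
    have hcx : c • x ≠ 0 := smul_ne_zero hc hx
    simp only [if_neg hx, if_neg hcx]
    ext j k
    rw [Matrix.smul_apply, Matrix.of_apply, Matrix.of_apply, LW_dzbar, LW_dzbar,
      LW_hom_b hc (fun y hy => hh j c y hc hy) (hd j) hx, smul_eq_mul, ← mul_inv,
      mul_comm (conj c) c, Complex.mul_conj]
  · intro x hx
    simp only [if_neg hx, Matrix.of_apply]
    constructor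
    · intro k
      obtain ⟨c, hc⟩ : ∃ c : Fin 3 → (V →L[ℝ] ℂ), ∀ j y, c j y = y j :=
        ⟨fun j => (ContinuousLinearMap.proj (R := ℂ) (φ := fun _ : Fin 3 => ℂ) j).restrictScalars ℝ,
          fun j y => rfl⟩
      have hGd : HasFDerivAt (fun y : V => ∑ j, c j y * z y j)
          (∑ j, (c j x • fderiv ℝ (fun y => z y j) x + z x j • c j)) x :=
        HasFDerivAt.fun_sum fun j _ => ((c j).hasFDerivAt).mul (hd j x hx).hasFDerivAt
      have hG : (fun y : V => ∑ j, c j y * z y j) =ᶠ[nhds x] fun _ => 0 := by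
        filter_upwards [LW_open.mem_nhds hx] with y hy
        rw [← hz.basic y hy]
        exact Finset.sum_congr rfl fun j _ => by rw [hc]
      have h0 := (hGd.congr_of_eventuallyEq hG.symm).unique (hasFDerivAt_const (0 : ℂ) x)
      have h1 : ∀ w : V, ∑ j, (x j * fderiv ℝ (fun y => z y j) x w + z x j * w j) = 0 := by
        intro w
        have h2 := DFunLike.congr_fun h0 w
        rw [_root_.sum_apply] at h2
        simp only [add_apply, smul_apply, smul_eq_mul, hc, zero_apply] at h2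
        exact h2
      have h3 := h1 (Pi.single k 1)
      have h4 := h1 (Complex.I • Pi.single k 1)
      have h5 : ∑ j, x j * dzbar k (fun y => z y j) x =
          ((∑ j, (x j * fderiv ℝ (fun y => z y j) x (Pi.single k 1) +
            z x j * (Pi.single k (1 : ℂ) : V) j)) + Complex.I *
          (∑ j, (x j * fderiv ℝ (fun y => z y j) x (Complex.I • Pi.single k 1) +
            z x j * (Complex.I • (Pi.single k (1 : ℂ) : V)) j))) / 2 := by
        rw [Finset.mul_sum, ← Finset.sum_add_distrib, Finset.sum_div]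
        refine Finset.sum_congr rfl fun j _ => ?_
        rw [LW_dzbar, LW_b, Pi.smul_apply, smul_eq_mul]
        linear_combination (-(1 / 2 : ℂ) * z x j * (Pi.single k (1 : ℂ) : V) j) * Complex.I_sq
      rw [h5, h3, h4]
      simp
    · intro j
      have h1 : ∑ k, dzbar k (fun y => z y j) x * conj (x k) =
          LW_b (fderiv ℝ (fun y => z y j) x) x := by
        rw [LW_b_sum]
        refine Finset.sum_congr rfl fun k _ => ?_
        rw [LW_dzbar]
      have e1 := LW_euler (g := fun y => z y j) (m := fun c => c⁻¹) (hh j) hx (hd j x hx) 1 _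
        (DBF_inv 1)
      have e2 := LW_euler (g := fun y => z y j) (m := fun c => c⁻¹) (hh j) hx (hd j x hx)
        Complex.I _ (DBF_inv Complex.I)
      rw [one_smul] at e1
      rw [h1, LW_b, e1, e2]
      linear_combination (-(1 / 2 : ℂ) * z x j) * Complex.I_sq
  · intro x hx j k
    show (if x = 0 then (0 : Matrix (Fin 3) (Fin 3) ℂ) else
      Matrix.of fun j k => dzbar k (fun y => z y j) x) j k = _
    rw [if_neg hx, Matrix.of_apply]

theorem DBF_d_fderiv {U : V → ℂ} {x : V} (hU : ContDiffAt ℝ 2 U x) (k : Fin 3) (w : V) :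
    fderiv ℝ (dz k U) x w = LW_a (fderiv ℝ (fderiv ℝ U) x w) (Pi.single k 1) := by
  have d1 := LC_dapp hU (Pi.single k (1 : ℂ))
  have d2 := LC_dapp hU (Pi.single k Complex.I)
  have h2 : HasFDerivAt (fun q => (fderiv ℝ U q (Pi.single k 1) -
      Complex.I * fderiv ℝ U q (Pi.single k Complex.I)) * (2 : ℂ)⁻¹) _ x :=
    (d1.hasFDerivAt.sub (d2.hasFDerivAt.const_mul Complex.I)).mul_const (2 : ℂ)⁻¹
  have h3 : dz k U = fun q => (fderiv ℝ U q (Pi.single k 1) -
      Complex.I * fderiv ℝ U q (Pi.single k Complex.I)) * (2 : ℂ)⁻¹ := by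
    funext q
    show (fderiv ℝ U q (Pi.single k 1) - Complex.I * fderiv ℝ U q (Pi.single k Complex.I)) / 2 = _
    rw [div_eq_mul_inv]
  rw [h3, h2.fderiv]
  simp only [sub_apply, smul_apply, smul_eq_mul]
  rw [LC_app hU, LC_app hU]
  unfold LW_a
  rw [LW_single]
  ring

theorem DBF_comm {U : V → ℂ} {x : V} (hU : ContDiffAt ℝ 2 U x) (j k : Fin 3) :
    dz j (dzbar k U) x = dzbar k (dz j U) x := by
  rw [LW_dz, LW_dzbar, LW_a, LW_b, LW_dbar_fderiv hU, LW_dbar_fderiv hU, DBF_d_fderiv hU,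
    DBF_d_fderiv hU]
  unfold LW_a LW_b
  obtain ⟨a, ha⟩ : ∃ a : V, a = Pi.single j 1 := ⟨_, rfl⟩
  obtain ⟨b, hb⟩ : ∃ b : V, b = Pi.single k 1 := ⟨_, rfl⟩
  rw [← ha, ← hb]
  have s1 := LC_symm hU a b
  have s2 := LC_symm hU (Complex.I • a) b
  have s3 := LC_symm hU a (Complex.I • b)
  have s4 := LC_symm hU (Complex.I • a) (Complex.I • b)
  rw [s1, s2, s3, s4]
  ring

theorem DBF_form10 {u : V → ℂ} (hu : IsFun u) : IsForm10 (fun x j => dz j u x) where
  smooth := contDiffOn_pi.2 fun j => LW_smooth_dz hu.smooth j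
  hom := by
    intro c x hc hx
    funext j
    rw [Pi.smul_apply, smul_eq_mul, LW_dz, LW_dz,
      LW_hom_a (μ := 1) hc (fun z hz => by rw [one_mul]; exact hu.hom c z hc hz)
        (LW_diff hu.smooth) hx, mul_one]
  basic := by
    intro x hx
    have h1 : ∑ j, x j * dz j u x = LW_a (fderiv ℝ u x) x := by
      rw [LW_a_sum]
      refine Finset.sum_congr rfl fun j _ => ?_
      rw [LW_dz, mul_comm]
    have e1 := LW_euler (g := u) (m := fun _ => 1)
      (fun c z hc hz => by rw [one_mul]; exact hu.hom c z hc hz) hx (LW_diff hu.smooth x hx) 1 0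
      (hasDerivAt_const _ _)
    have e2 := LW_euler (g := u) (m := fun _ => 1)
      (fun c z hc hz => by rw [one_mul]; exact hu.hom c z hc hz) hx (LW_diff hu.smooth x hx)
      Complex.I 0 (hasDerivAt_const _ _)
    rw [one_smul] at e1
    rw [h1, LW_a, e1, e2]
    simp

theorem PosCurrent.Closed.ddc {T : PosCurrent} (hT : T.Closed) : T.DdcClosed := by
  intro u hu A hA
  refine (hT (fun x j => dz j u x) (DBF_form10 hu)).1 A ?_
  intro x hx j k
  rw [hA x hx j k]
  have hU : ContDiffAt ℝ 2 u x :=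
    (hu.smooth.contDiffAt (LW_open.mem_nhds hx)).of_le ENat.LEInfty.out
  exact DBF_comm hU j k

end Pool.Agent.H24.CU

end S_H24_CU_DBF

section S_H85_DC_Defs2

/-!
# MP_6873ef_an: curvature quantities of the foliation, hypothesis (E). Definitions only (helper85).
`cr` is the bilinear cross product (`TauM`).
-/

open MeasureTheory
open scoped ContDiff BigOperators ComplexConjugate Matrix

namespace Pool.Agent.H85.DC

/-- `K_y² = |Dη_y(v_y) ∧ η_y|² / |η_y|⁴` with `v_y = conj(η_y)/|η_y|`. -/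
noncomputable def K2 (F : Fin 3 → MvPolynomial (Fin 3) ℂ) (y : V) : ℝ :=
  N (cr (fderiv ℂ (eta F) y (fun j => conj (eta F y j))) (eta F y)) / N (eta F y) ^ 3

/-- `II_y² = |Dη_y(w_y) ∧ η_y|² / |η_y|⁴`, `w_y` the unit tangent vector. -/
noncomputable def II2 (F : Fin 3 → MvPolynomial (Fin 3) ℂ) (y : V) : ℝ :=
  N (cr (fderiv ℂ (eta F) y (wv F y)) (eta F y)) / N (eta F y) ^ 2

/-- Hypothesis (E): logarithmic growth of the energy of `K` at the singular set. -/
def EnergyE (F : Fin 3 → MvPolynomial (Fin 3) ℂ) (μ : Measure V) : Prop :=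
  ∃ C : ℝ, ∀ r : ℝ, 0 < r → r < 1 →
    ∫⁻ y in {y | r ≤ N (eta F y)}, ENNReal.ofReal (K2 F y) ∂μ ≤
      ENNReal.ofReal (C * (1 + Real.log (1 / r)))

/-- Zero Lelong numbers at every point off the singular set. -/
def ZeroLelongAll (F : Fin 3 → MvPolynomial (Fin 3) ℂ) (μ : Measure V) : Prop :=
  ∀ y : V, N y = 1 → eta F y ≠ 0 →
    Filter.Tendsto (fun s : ℝ => (μ {y' | tau y y' < s ^ 2}).toReal / s ^ 2)
      (nhdsWithin 0 (Set.Ioi 0)) (nhds 0)

end Pool.Agent.H85.DC

end S_H85_DC_Defs2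

section S_H85_DC_Wv

/-!
# Row Wv: the direction of the foliation

`eta F y = cr y (Zf F y)` (`TauM.cr`). For `N y = 1`: `N (Zf - ip Zf y • y) = N Zf - |ip Zf y|^2 = N (cr y Zf) = N (eta F y)`
(`tau_cross`, `|ip y Z| = |ip Z y|`), so for `eta F y ≠ 0` the vector `wv F y` has norm `1`, is orthogonal to `y`, and
`cr y (wv F y) = (√N(eta))⁻¹ • eta F y` (`cr` is bilinear, `cr y y = 0`).
`pr_eq`: for a form `A`: `quad (A y) (wv F y) = (N eta)⁻¹ quad (A y) (Zf - c y) = (N eta)⁻¹ quad (A y) Zf` (`quad_perp`).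
Measurability: `Zf F`, `eta F` are continuous (polynomials: `MvPolynomial.continuous_eval`), `wv` measurable.
`eta_hom`: if all `F j` are homogeneous of degree `d`: `eta F (l • y) = l^(d+1) • eta F y` (`MvPolynomial.IsHomogeneous.eval₂`/
`IsHomogeneous` evaluation at `l • y`; `eval (l • y) (F j) = l^d * eval y (F j)`).
`eta_lip`: polynomial maps are Lipschitz on the compact ball `{N ≤ 1}`: `N (eta F y - eta F y') ≤ C N (y - y')` for `N y = N y' = 1`
(continuously differentiable on a convex compact set; or by induction on polynomials: the set of functions bounded and Lipschitz on the ball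
is closed under sums, products and contains constants and coordinates).
`pr_ct`: `pr F (Aᴴ) = conj (pr F A)`. `pr_add` etc. are linear. `pr_Wm`: `pr F Wm y = 1` for `N y = 1`, `eta F y ≠ 0` (`quad_Wm`).
-/

open MeasureTheory
open scoped ContDiff BigOperators ComplexConjugate Matrix

namespace Pool.Agent.H85.DC

theorem cr_self (x : V) : cr x x = 0 := by
  unfold cr
  ext j
  fin_cases j <;> simp <;> ring

theorem cr_add_left (x y z : V) : cr (x + y) z = cr x z + cr y z := by
  unfold cr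
  ext j
  fin_cases j <;> simp <;> ring

theorem cr_sub_left (x y z : V) : cr (x - y) z = cr x z - cr y z := by
  unfold cr
  ext j
  fin_cases j <;> simp <;> ring

theorem cr_sub_right (x y z : V) : cr x (y - z) = cr x y - cr x z := by
  unfold cr
  ext j
  fin_cases j <;> simp <;> ring

theorem cr_smul_left (c : ℂ) (x y : V) : cr (c • x) y = c • cr x y := by
  unfold cr
  ext j
  fin_cases j <;> simp <;> ring

theorem cr_smul_right (c : ℂ) (x y : V) : cr x (c • y) = c • cr x y := by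
  unfold cr
  ext j
  fin_cases j <;> simp <;> ring

theorem eta_cr (F : Fin 3 → MvPolynomial (Fin 3) ℂ) (y : V) : eta F y = cr y (Zf F y) := rfl

private theorem wvN_nonneg (x : V) : 0 ≤ N x := Finset.sum_nonneg fun _ _ => Complex.normSq_nonneg _

private theorem wvN_eq_zero {x : V} (h : N x = 0) : x = 0 := by
  funext j
  have := (Finset.sum_eq_zero_iff_of_nonneg (fun i _ => Complex.normSq_nonneg (x i))).1 h j
    (Finset.mem_univ j)
  exact Complex.normSq_eq_zero.1 this

private theorem wvN_smul (l : ℂ) (x : V) : N (l • x) = Complex.normSq l * N x := by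
  simp only [N, Pi.smul_apply, smul_eq_mul, map_mul, Finset.mul_sum]

private theorem wvN_zero : N (0 : V) = 0 := by simp [N]

private theorem wvN_sub_smul (z y : V) (c : ℂ) :
    N (z - c • y) = N z - 2 * (conj c * ip z y).re + Complex.normSq c * N y := by
  simp only [N, ip, Fin.sum_univ_three, Complex.normSq_apply, Pi.sub_apply, Pi.smul_apply,
    smul_eq_mul, Complex.sub_re, Complex.sub_im, Complex.mul_re, Complex.mul_im, Complex.add_re,
    Complex.add_im, Complex.conj_re, Complex.conj_im]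
  ring

private theorem wv_normSq_ip (x y : V) : Complex.normSq (ip x y) = Complex.normSq (ip y x) := by
  have : ip y x = conj (ip x y) := by
    simp only [ip, map_sum, map_mul, Complex.conj_conj]
    exact Finset.sum_congr rfl fun j _ => mul_comm _ _
  rw [this, Complex.normSq_conj]

private theorem wvN_proj (z y : V) (hy : N y = 1) :
    N (z - ip z y • y) = N z - Complex.normSq (ip z y) := by
  rw [wvN_sub_smul, hy, mul_comm (conj _), Complex.mul_conj, Complex.ofReal_re]
  ring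

private theorem wvN_eta (F : Fin 3 → MvPolynomial (Fin 3) ℂ) {y : V} (hy : N y = 1) :
    N (Zf F y - ip (Zf F y) y • y) = N (eta F y) := by
  rw [wvN_proj _ _ hy, eta_cr, tau_cross, hy, one_mul, wv_normSq_ip]

private theorem wv_ip_self (y : V) : ip y y = (N y : ℂ) := by
  simp only [ip, N, Complex.mul_conj, Complex.ofReal_sum]

private theorem wv_s_sq {t : ℝ} (ht : 0 ≤ t) :
    Complex.normSq ((Real.sqrt t : ℂ)⁻¹) = t⁻¹ := by
  rw [map_inv₀, Complex.normSq_ofReal, Real.mul_self_sqrt ht]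

theorem wv_unit {F : Fin 3 → MvPolynomial (Fin 3) ℂ} {y : V} (hy : N y = 1) (h : eta F y ≠ 0) :
    N (wv F y) = 1 := by
  unfold wv
  rw [wvN_smul, wv_s_sq (wvN_nonneg _), wvN_eta F hy]
  exact inv_mul_cancel₀ fun h0 => h (wvN_eq_zero h0)

theorem wv_orth {F : Fin 3 → MvPolynomial (Fin 3) ℂ} {y : V} (hy : N y = 1) :
    ip (wv F y) y = 0 := by
  have h1 : ∀ (s c : ℂ) (z : V), ip (s • (z - c • y)) y = s * (ip z y - c * ip y y) := by
    intro s c z
    simp only [ip, Pi.smul_apply, Pi.sub_apply, smul_eq_mul, Fin.sum_univ_three]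
    ring
  unfold wv
  rw [h1, wv_ip_self, hy]
  simp

theorem wv_cr {F : Fin 3 → MvPolynomial (Fin 3) ℂ} (y : V) :
    cr y (wv F y) = ((Real.sqrt (N (eta F y)))⁻¹ : ℂ) • eta F y := by
  unfold wv
  rw [cr_smul_right, cr_sub_right, cr_smul_right, cr_self, smul_zero, sub_zero, ← eta_cr]

private theorem wv_ne {y : V} (hy : N y = 1) : y ≠ 0 := by
  rintro rfl
  rw [wvN_zero] at hy
  exact zero_ne_one hy

private theorem quad_smul (B : M3) (s : ℂ) (v : V) :
    quad B (s • v) = (Complex.normSq s : ℂ) * quad B v := by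
  unfold quad
  simp only [Pi.smul_apply, smul_eq_mul, map_mul, Finset.mul_sum]
  refine Finset.sum_congr rfl fun j _ => Finset.sum_congr rfl fun k _ => ?_
  rw [← Complex.mul_conj]
  ring

theorem pr_eq {F : Fin 3 → MvPolynomial (Fin 3) ℂ} {A : V → M3} (hA : IsForm A) {y : V}
    (hy : N y = 1) : pr F A y = quad (A y) (wv F y) := by
  unfold wv
  rw [quad_smul, quad_perp hA (wv_ne hy), wv_s_sq (wvN_nonneg _)]
  unfold pr quad
  rw [div_eq_inv_mul, Complex.ofReal_inv]

theorem continuous_Zf (F : Fin 3 → MvPolynomial (Fin 3) ℂ) : Continuous (Zf F) := by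
  unfold Zf
  exact continuous_pi fun j => MvPolynomial.continuous_eval (F j)

/-- The polynomials of `eta`. -/
private noncomputable def etaP (F : Fin 3 → MvPolynomial (Fin 3) ℂ) : Fin 3 → MvPolynomial (Fin 3) ℂ :=
  ![MvPolynomial.X 1 * F 2 - MvPolynomial.X 2 * F 1, MvPolynomial.X 2 * F 0 - MvPolynomial.X 0 * F 2,
    MvPolynomial.X 0 * F 1 - MvPolynomial.X 1 * F 0]

private theorem eta_etaP (F : Fin 3 → MvPolynomial (Fin 3) ℂ) (y : V) (j : Fin 3) :
    eta F y j = MvPolynomial.eval y (etaP F j) := by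
  unfold eta etaP Zf
  fin_cases j <;> simp

theorem continuous_eta (F : Fin 3 → MvPolynomial (Fin 3) ℂ) : Continuous (eta F) := by
  refine continuous_pi fun j => ?_
  simp only [eta_etaP]
  exact MvPolynomial.continuous_eval _

private theorem wv_continuous_N : Continuous N := by
  unfold N
  exact continuous_finset_sum _ fun j _ => Complex.continuous_normSq.comp (continuous_apply j)

theorem measurable_wv (F : Fin 3 → MvPolynomial (Fin 3) ℂ) : Measurable (wv F) := by
  unfold wv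
  have h1 : Measurable fun y : V => ((Real.sqrt (N (eta F y)) : ℂ))⁻¹ :=
    (Complex.measurable_ofReal.comp
      (Real.continuous_sqrt.comp (wv_continuous_N.comp (continuous_eta F))).measurable).inv
  have h2 : Measurable fun y : V => Zf F y - ip (Zf F y) y • y := by
    have hip : Continuous fun y : V => ip (Zf F y) y := by
      unfold ip
      exact continuous_finset_sum _ fun j _ =>
        ((continuous_apply j).comp (continuous_Zf F)).mul (Complex.continuous_conj.comp (continuous_apply j))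
    exact ((continuous_Zf F).sub (hip.smul continuous_id)).measurable
  exact h1.smul h2

theorem eta_hom {F : Fin 3 → MvPolynomial (Fin 3) ℂ} {d : ℕ} (hF : ∀ j, (F j).IsHomogeneous d)
    (l : ℂ) (y : V) : eta F (l • y) = l ^ (d + 1) • eta F y := by
  have hZ : Zf F (l • y) = l ^ d • Zf F y := by
    funext j
    simp only [Zf, Pi.smul_apply, smul_eq_mul]
    have h := hF j
    rw [MvPolynomial.eval_eq, MvPolynomial.eval_eq, Finset.mul_sum]
    refine Finset.sum_congr rfl fun s hs => ?_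
    have hd : ∑ i ∈ s.support, s i = d := by
      have := h (MvPolynomial.mem_support_iff.1 hs)
      rw [Finsupp.weight_apply, Finsupp.sum] at this
      simpa using this
    simp only [Pi.smul_apply, smul_eq_mul, mul_pow, Finset.prod_mul_distrib, Finset.prod_pow_eq_pow_sum]
    rw [hd]
    ring
  rw [eta_cr, hZ, cr_smul_left, cr_smul_right, smul_smul, ← eta_cr, pow_succ']

private theorem wv_norm_le (y : V) : ‖y‖ ^ 2 ≤ N y := by
  have h : ‖y‖ ≤ Real.sqrt (N y) := by
    refine (pi_norm_le_iff_of_nonneg (Real.sqrt_nonneg _)).2 fun j => ?_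
    refine Real.le_sqrt_of_sq_le ?_
    rw [← Complex.normSq_eq_norm_sq]
    exact Finset.single_le_sum (f := fun i => Complex.normSq (y i))
      (fun i _ => Complex.normSq_nonneg _) (Finset.mem_univ j)
  calc ‖y‖ ^ 2 ≤ Real.sqrt (N y) ^ 2 := by gcongr
    _ = N y := Real.sq_sqrt (wvN_nonneg _)

private theorem poly_lip (p : MvPolynomial (Fin 3) ℂ) : ∃ C : ℝ, 0 ≤ C ∧
    (∀ y : V, ‖y‖ ≤ 1 → ‖MvPolynomial.eval y p‖ ≤ C) ∧
    (∀ y y' : V, ‖y‖ ≤ 1 → ‖y'‖ ≤ 1 →
      ‖MvPolynomial.eval y p - MvPolynomial.eval y' p‖ ≤ C * ‖y - y'‖) := by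
  induction p using MvPolynomial.induction_on with
  | C a =>
    refine ⟨‖a‖, norm_nonneg _, fun y _ => by simp, fun y y' _ _ => ?_⟩
    simp only [MvPolynomial.eval_C, sub_self, norm_zero]
    positivity
  | add p q hp hq =>
    obtain ⟨C, hC, h1, h2⟩ := hp
    obtain ⟨D, hD, h3, h4⟩ := hq
    refine ⟨C + D, by positivity, fun y hy => ?_, fun y y' hy hy' => ?_⟩
    · rw [map_add]
      exact (norm_add_le _ _).trans (add_le_add (h1 y hy) (h3 y hy))
    · rw [map_add, map_add, add_sub_add_comm, add_mul]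
      exact (norm_add_le _ _).trans (add_le_add (h2 y y' hy hy') (h4 y y' hy hy'))
  | mul_X p i hp =>
    obtain ⟨C, hC, h1, h2⟩ := hp
    refine ⟨2 * C, by positivity, fun y hy => ?_, fun y y' hy hy' => ?_⟩
    · rw [map_mul, MvPolynomial.eval_X, norm_mul]
      have : ‖y i‖ ≤ 1 := (norm_le_pi_norm y i).trans hy
      nlinarith [h1 y hy, norm_nonneg (y i), norm_nonneg (MvPolynomial.eval y p)]
    · rw [map_mul, map_mul, MvPolynomial.eval_X, MvPolynomial.eval_X]
      have e : MvPolynomial.eval y p * y i - MvPolynomial.eval y' p * y' i =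
          (MvPolynomial.eval y p - MvPolynomial.eval y' p) * y i +
            MvPolynomial.eval y' p * ((y - y') i) := by
        simp only [Pi.sub_apply]; ring
      rw [e]
      refine (norm_add_le _ _).trans ?_
      rw [norm_mul, norm_mul]
      have a1 : ‖y i‖ ≤ 1 := (norm_le_pi_norm y i).trans hy
      have a2 : ‖(y - y') i‖ ≤ ‖y - y'‖ := norm_le_pi_norm (y - y') i
      have a3 := h2 y y' hy hy'
      have a4 := h1 y' hy'
      have b1 : ‖MvPolynomial.eval y p - MvPolynomial.eval y' p‖ * ‖y i‖ ≤ C * ‖y - y'‖ * 1 := by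
        gcongr
      have b2 : ‖MvPolynomial.eval y' p‖ * ‖(y - y') i‖ ≤ C * ‖y - y'‖ := by
        gcongr
      linarith

theorem eta_lip (F : Fin 3 → MvPolynomial (Fin 3) ℂ) :
    ∃ C : ℝ, 0 < C ∧ ∀ y y' : V, N y = 1 → N y' = 1 → N (eta F y - eta F y') ≤ C * N (y - y') := by
  choose C hC h1 h2 using fun j => poly_lip (etaP F j)
  refine ⟨∑ j, C j ^ 2 + 1, by positivity, fun y y' hy hy' => ?_⟩
  have ny : ‖y‖ ≤ 1 := by
    have := wv_norm_le y
    rw [hy] at this
    nlinarith [norm_nonneg y]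
  have ny' : ‖y'‖ ≤ 1 := by
    have := wv_norm_le y'
    rw [hy'] at this
    nlinarith [norm_nonneg y']
  have e : N (eta F y - eta F y') = ∑ j, ‖eta F y j - eta F y' j‖ ^ 2 := by
    unfold N
    exact Finset.sum_congr rfl fun j _ => by rw [Complex.normSq_eq_norm_sq]; rfl
  have hn := wv_norm_le (y - y')
  rw [e]
  calc ∑ j, ‖eta F y j - eta F y' j‖ ^ 2 ≤ ∑ j, C j ^ 2 * N (y - y') := by
        refine Finset.sum_le_sum fun j _ => ?_
        rw [eta_etaP, eta_etaP]
        calc ‖MvPolynomial.eval y (etaP F j) - MvPolynomial.eval y' (etaP F j)‖ ^ 2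
            ≤ (C j * ‖y - y'‖) ^ 2 := by
              have := h2 j y y' ny ny'
              gcongr
          _ = C j ^ 2 * ‖y - y'‖ ^ 2 := by ring
          _ ≤ C j ^ 2 * N (y - y') := by gcongr
    _ = (∑ j, C j ^ 2) * N (y - y') := by rw [Finset.sum_mul]
    _ ≤ (∑ j, C j ^ 2 + 1) * N (y - y') := by
        have := wvN_nonneg (y - y')
        nlinarith

theorem eta_bdd (F : Fin 3 → MvPolynomial (Fin 3) ℂ) :
    ∃ C : ℝ, 0 < C ∧ ∀ y : V, N y = 1 → N (eta F y) ≤ C := by
  choose C hC h1 h2 using fun j => poly_lip (etaP F j)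
  refine ⟨∑ j, C j ^ 2 + 1, by positivity, fun y hy => ?_⟩
  have ny : ‖y‖ ≤ 1 := by
    have := wv_norm_le y
    rw [hy] at this
    nlinarith [norm_nonneg y]
  calc N (eta F y) = ∑ j, ‖MvPolynomial.eval y (etaP F j)‖ ^ 2 := by
        unfold N
        exact Finset.sum_congr rfl fun j _ => by rw [Complex.normSq_eq_norm_sq, eta_etaP]
    _ ≤ ∑ j, C j ^ 2 := by
        refine Finset.sum_le_sum fun j _ => ?_
        have := h1 j y ny
        gcongr
    _ ≤ _ := by linarith

theorem pr_Wm {F : Fin 3 → MvPolynomial (Fin 3) ℂ} {y : V} (hy : N y = 1) (h : eta F y ≠ 0) :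
    pr F Wm y = 1 := by
  rw [pr_eq form_Wm hy, quad_Wm (wv_ne hy), wv_unit hy h, wv_orth hy, hy]
  simp

theorem pr_ct (F : Fin 3 → MvPolynomial (Fin 3) ℂ) (A : V → M3) (y : V) :
    pr F (fun x => (A x)ᴴ) y = conj (pr F A y) := by
  unfold pr
  rw [map_div₀, Complex.conj_ofReal]
  congr 1
  rw [map_sum, Finset.sum_comm]
  refine Finset.sum_congr rfl fun j _ => ?_
  rw [map_sum]
  refine Finset.sum_congr rfl fun k _ => ?_
  simp only [Matrix.conjTranspose_apply, map_mul, Complex.conj_conj]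
  change conj (A y j k) * _ * _ = _
  ring

/-- Forms are bounded on the unit sphere, so `pr F A` is bounded and integrable. -/
theorem pr_bound {F : Fin 3 → MvPolynomial (Fin 3) ℂ} {A : V → M3} {C : ℝ}
    (hC : ∀ x : V, x ≠ 0 → ∀ j k, ‖A x j k‖ ≤ C / N x) (hA : IsForm A) {y : V}
    (hy : N y = 1) : ‖pr F A y‖ ≤ 3 * C := by
  have hb : ∀ j k, ‖A y j k‖ ≤ C := fun j k => by
    have := hC y (wv_ne hy) j k
    rwa [hy, div_one] at this
  have hC0 : 0 ≤ C := (norm_nonneg _).trans (hb 0 0)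
  have hw : N (wv F y) ≤ 1 := by
    by_cases h : eta F y = 0
    · have : wv F y = 0 := by
        unfold wv
        rw [h, wvN_zero]
        simp
      rw [this, wvN_zero]
      exact zero_le_one
    · rw [wv_unit hy h]
  rw [pr_eq hA hy]
  set w := wv F y
  have hN : N w = ‖w 0‖ ^ 2 + ‖w 1‖ ^ 2 + ‖w 2‖ ^ 2 := by
    simp only [N, Fin.sum_univ_three, Complex.normSq_eq_norm_sq]
  calc ‖quad (A y) w‖ ≤ ∑ j, ∑ k, C * (‖w j‖ * ‖w k‖) := by
        unfold quad
        refine (norm_sum_le _ _).trans (Finset.sum_le_sum fun j _ => ?_)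
        refine (norm_sum_le _ _).trans (Finset.sum_le_sum fun k _ => ?_)
        rw [norm_mul, norm_mul, Complex.norm_conj, mul_assoc]
        gcongr
        exact hb j k
    _ = C * (‖w 0‖ + ‖w 1‖ + ‖w 2‖) ^ 2 := by
        simp only [Fin.sum_univ_three]; ring
    _ ≤ C * 3 := by
        refine mul_le_mul_of_nonneg_left ?_ hC0
        nlinarith [sq_nonneg (‖w 0‖ - ‖w 1‖), sq_nonneg (‖w 0‖ - ‖w 2‖), sq_nonneg (‖w 1‖ - ‖w 2‖)]
    _ = 3 * C := by ring

private theorem measurable_pr {F : Fin 3 → MvPolynomial (Fin 3) ℂ} {A : V → M3} (hA : IsForm A) :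
    Measurable (pr F A) := by
  have hA' : ∀ j k, Measurable fun y => A y j k := by
    intro j k
    refine measurable_of_continuousOn_compl_singleton (0 : V) ?_
    have h1 : ContinuousOn (fun y => A y j) {0}ᶜ := (continuousOn_pi.1 hA.cont) j
    exact (continuousOn_pi.1 h1) k
  have hZ : ∀ j, Measurable fun y => Zf F y j := fun j =>
    ((continuous_apply j).comp (continuous_Zf F)).measurable
  have hN : Measurable fun y : V => (N (eta F y) : ℂ) :=
    Complex.measurable_ofReal.comp (wv_continuous_N.comp (continuous_eta F)).measurable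
  unfold pr
  refine Measurable.div ?_ hN
  refine Finset.measurable_fun_sum _ fun j _ => Finset.measurable_fun_sum _ fun k _ => ?_
  exact ((hA' j k).mul (hZ j)).mul (Complex.continuous_conj.measurable.comp (hZ k))

theorem pr_int {F : Fin 3 → MvPolynomial (Fin 3) ℂ} {A : V → M3} (hA : IsForm A)
    {μ : Measure V} (hμ : IsCur F μ) : Integrable (pr F A) μ := by
  obtain ⟨C, hC0, hC⟩ := form_bound hA
  haveI : IsFiniteMeasure μ := ⟨by rw [hμ.prob]; exact ENNReal.one_lt_top⟩
  refine Integrable.of_bound (measurable_pr hA).aestronglyMeasurable (3 * C) ?_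
  filter_upwards [hμ.sphere] with y hy
  exact pr_bound hC hA hy

end Pool.Agent.H85.DC

end S_H85_DC_Wv

section S_H85_DC_SmA

/-!
# Row SmA: the smoothed current is a positive form

`Kx = smK ε y w x = ((kk ε (tau x y)/N x)) * ((N w' + ε^2) (1 - conj(x) x^T/N x) - conj(w') w'^T)`, `w' = perp x w = w - (ip w x/N x) x`,
so `sm F μ ε x j k = ∫ smK ε y (wv F y) x j k dμ(y)` (definitional).
For `N y = 1`, `N w = 1`, `x ≠ 0`, `0 < ε ≤ 1`: `0 ≤ N w' ≤ 1` (`N w' = N w - |ip w x|^2/N x`), `0 ≤ kk ε t ≤ 2 ε^{-4}` for `t ∈ [0,1]` (`π^3 ≥ 1`), so the entries are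
bounded by `6 ε^{-4}·2/N x`, integrable in `y`; measurable in `y` (`measurable_wv`, `measurable_tau`).
`smK_killl`: `∑_j x_j (δ_jk - conj(x_j) x_k/N) = x_k - x_k = 0` and `∑_j x_j conj(w'_j) = conj (ip w' x) = 0` (`ip w' x = ip w x - ip w x = 0`); `smK_killr` the same.
`smK_pos`: `quad` of the bracket at `v`, with `v' = perp x v`: `(N w' + ε^2) N v' - |ip v w'|^2` where `ip v w' = ip v' w'`, `≥ ε^2 N v' ≥ 0` (Cauchy-Schwarz `cs_ip`).
(`∑ (δ_jk - conj(x_j)x_k/N) v_j conj(v_k) = N v - |ip v x|^2/N = N v'`; `∑ conj(w'_j) w'_k v_j conj(v_k) = |ip v w'|^2`.)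
`smK_tr`: trace of the bracket: `2 (N w' + ε^2) - N w' = N w' + 2 ε^2`.
`form_sm`: homogeneity in `x`: `tau (l x) y = tau x y`, `perp (l x) w = perp x w`, `N (l x) = |l|^2 N x` for `l ≠ 0`; `x = 0` gives `0` (division by `0`).
Continuity on `{0}ᶜ`: for fixed `y, w` the entries are continuous in `x ≠ 0`; dominated convergence (locally in `x` the bound `C_ε/N x` is bounded):
`continuousOn_of_dominated` on `{0}ᶜ`, or `continuousAt_of_dominated` at each point.
`herm_sm`, `pos_sm`: integrals of Hermitian (positive) matrices; `tr_sm`: integral of the trace.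
-/

open MeasureTheory
open scoped ContDiff BigOperators ComplexConjugate Matrix

namespace Pool.Agent.H85.DC

/-- The kernel of the smoothing. -/
noncomputable def smK (ε : ℝ) (y w x : V) : M3 := fun j k =>
  ((kk ε (tau x y) / N x : ℝ) : ℂ) *
    (((N (perp x w) + ε ^ 2 : ℝ) : ℂ) * ((if j = k then 1 else 0) - conj (x j) * x k / (N x : ℂ)) -
      conj (perp x w j) * perp x w k)

theorem sm_eq (F : Fin 3 → MvPolynomial (Fin 3) ℂ) (μ : Measure V) (ε : ℝ) (x : V) (j k : Fin 3) :
    sm F μ ε x j k = ∫ y, smK ε y (wv F y) x j k ∂μ := rfl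

theorem SmA_Npos {x : V} (hx : x ≠ 0) : 0 < N x := by
  unfold N
  have h0 : ∀ j ∈ (Finset.univ : Finset (Fin 3)), 0 ≤ Complex.normSq (x j) :=
    fun j _ => Complex.normSq_nonneg _
  refine lt_of_le_of_ne (Finset.sum_nonneg h0) fun h => hx ?_
  have h1 := (Finset.sum_eq_zero_iff_of_nonneg h0).1 h.symm
  funext j
  exact Complex.normSq_eq_zero.1 (h1 j (Finset.mem_univ j))

theorem SmA_Nnn (x : V) : 0 ≤ N x := by
  unfold N
  exact Finset.sum_nonneg fun j _ => Complex.normSq_nonneg _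

theorem SmA_ip_self (x : V) : ip x x = (N x : ℂ) := by
  unfold ip N
  push_cast
  exact Finset.sum_congr rfl fun j _ => Complex.mul_conj (x j)

theorem SmA_ip_sub (x y z : V) : ip (x - y) z = ip x z - ip y z := by
  unfold ip
  rw [← Finset.sum_sub_distrib]
  exact Finset.sum_congr rfl fun j _ => by rw [Pi.sub_apply, sub_mul]

theorem SmA_ip_smul (c : ℂ) (x z : V) : ip (c • x) z = c * ip x z := by
  unfold ip
  rw [Finset.mul_sum]
  exact Finset.sum_congr rfl fun j _ => by rw [Pi.smul_apply, smul_eq_mul, mul_assoc]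

theorem SmA_ip_conj (x y : V) : conj (ip x y) = ip y x := by
  unfold ip
  rw [map_sum]
  exact Finset.sum_congr rfl fun j _ => by rw [map_mul, Complex.conj_conj, mul_comm]

theorem SmA_ip_sub_right (x y z : V) : ip x (y - z) = ip x y - ip x z := by
  rw [← SmA_ip_conj, SmA_ip_sub, map_sub, SmA_ip_conj, SmA_ip_conj]

theorem SmA_ip_smul_right (c : ℂ) (x z : V) : ip x (c • z) = conj c * ip x z := by
  rw [← SmA_ip_conj, SmA_ip_smul, map_mul, SmA_ip_conj]

theorem SmA_ip_mul_conj (x y : V) : ip x y * ip y x = (Complex.normSq (ip x y) : ℂ) := by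
  rw [← SmA_ip_conj x y, Complex.mul_conj]

theorem perp_orth {x w : V} (hx : x ≠ 0) : ip (perp x w) x = 0 := by
  have hN : (N x : ℂ) ≠ 0 := by exact_mod_cast (SmA_Npos hx).ne'
  unfold perp
  rw [SmA_ip_sub, SmA_ip_smul, SmA_ip_self]
  field_simp
  ring

theorem SmA_perp_ip {x w v : V} (hx : x ≠ 0) :
    ip (perp x w) v = ip w v - ip w x * ip x v / (N x : ℂ) := by
  unfold perp
  rw [SmA_ip_sub, SmA_ip_smul]
  ring

theorem perp_le {x w : V} (hx : x ≠ 0) : N (perp x w) = N w - Complex.normSq (ip w x) / N x := by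
  have h1 : ip (perp x w) (perp x w) = ip (perp x w) w := by
    conv_lhs => rw [show perp x w = w - (ip w x / (N x : ℂ)) • x from rfl]
    rw [← show perp x w = w - (ip w x / (N x : ℂ)) • x from rfl]
    rw [show ip (perp x w) (perp x w) = ip (perp x w) (w - (ip w x / (N x : ℂ)) • x) from rfl,
      SmA_ip_sub_right, SmA_ip_smul_right, perp_orth hx, mul_zero, sub_zero]
  have h2 : ((N (perp x w) : ℝ) : ℂ) = ((N w - Complex.normSq (ip w x) / N x : ℝ) : ℂ) := by
    rw [← SmA_ip_self, h1, SmA_perp_ip hx, SmA_ip_mul_conj, SmA_ip_self]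
    push_cast
    ring
  exact_mod_cast h2

theorem kk_nonneg {ε t : ℝ} (ht : t ≤ 1) : 0 ≤ kk ε t := by
  unfold kk
  have h1 : 0 ≤ 1 - t + ε ^ 2 := by nlinarith [sq_nonneg ε]
  have h2 : 0 < Real.exp (-t / ε ^ 2) := Real.exp_pos _
  have h3 : 0 ≤ Real.pi ^ 3 * ε ^ 4 := by
    have := Real.pi_pos
    positivity
  exact div_nonneg (mul_nonneg h1 h2.le) h3

theorem kk_le {ε t : ℝ} (hε : 0 < ε) (h1 : ε ≤ 1) (h0 : 0 ≤ t) :
    kk ε t ≤ 2 * ε⁻¹ ^ 4 * Real.exp (-t / ε ^ 2) := by
  unfold kk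
  have h2 : 0 < Real.exp (-t / ε ^ 2) := Real.exp_pos _
  have h3 : 1 - t + ε ^ 2 ≤ 2 := by nlinarith
  have hpi : 1 ≤ Real.pi ^ 3 := by
    have := Real.pi_gt_three
    exact one_le_pow₀ (by linarith)
  have h4 : (0 : ℝ) < ε ^ 4 := by positivity
  calc (1 - t + ε ^ 2) * Real.exp (-t / ε ^ 2) / (Real.pi ^ 3 * ε ^ 4)
      ≤ 2 * Real.exp (-t / ε ^ 2) / (Real.pi ^ 3 * ε ^ 4) := by
        gcongr
    _ ≤ 2 * Real.exp (-t / ε ^ 2) / (1 * ε ^ 4) := by
        gcongr
    _ = 2 * ε⁻¹ ^ 4 * Real.exp (-t / ε ^ 2) := by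
        field_simp

theorem SmA_kk_le2 {ε t : ℝ} (hε : 0 < ε) (h1 : ε ≤ 1) (h0 : 0 ≤ t) :
    kk ε t ≤ 2 * ε⁻¹ ^ 4 := by
  refine (kk_le hε h1 h0).trans ?_
  have h2 : Real.exp (-t / ε ^ 2) ≤ 1 := by
    rw [Real.exp_le_one_iff]
    have : 0 ≤ t / ε ^ 2 := by positivity
    rw [neg_div]
    linarith
  have h3 : (0 : ℝ) ≤ 2 * ε⁻¹ ^ 4 := by positivity
  nlinarith

theorem SmA_N_smul (l : ℂ) (x : V) : N (l • x) = Complex.normSq l * N x := by
  unfold N
  rw [Finset.mul_sum]
  exact Finset.sum_congr rfl fun j _ => by rw [Pi.smul_apply, smul_eq_mul, Complex.normSq_mul]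

theorem SmA_perp_smul {l : ℂ} (hl : l ≠ 0) (x w : V) : perp (l • x) w = perp x w := by
  unfold perp
  congr 1
  rw [SmA_ip_smul_right, SmA_N_smul, smul_smul]
  congr 1
  have hl2 : conj l ≠ 0 := (map_ne_zero _).2 hl
  rw [Complex.ofReal_mul, ← Complex.mul_conj]
  field_simp

theorem SmA_cont_N : Continuous N := continuous_N

theorem SmA_cont_perp (w : V) : ContinuousOn (fun x => perp x w) {0}ᶜ := by
  have h2 : Continuous fun x : V => ip w x := by
    unfold ip
    refine continuous_finsetSum _ fun j _ => ?_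
    have h1 : Continuous fun a : V => conj (a j) :=
      Complex.continuous_conj.comp (continuous_apply j)
    exact continuous_const.mul h1
  have h3 : ContinuousOn (fun x : V => ip w x / (N x : ℂ)) {0}ᶜ := by
    refine ContinuousOn.div h2.continuousOn
      (Complex.continuous_ofReal.comp continuous_N).continuousOn ?_
    intro x hx
    exact_mod_cast (SmA_Npos hx).ne'
  show ContinuousOn (fun x : V => w - (ip w x / (N x : ℂ)) • x) {0}ᶜ
  exact continuousOn_const.sub (h3.smul continuousOn_id)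

theorem SmA_sum_a {x : V} (hx : x ≠ 0) (k : Fin 3) :
    ∑ j, x j * ((if j = k then 1 else 0) - conj (x j) * x k / (N x : ℂ)) = 0 := by
  have hN : (N x : ℂ) ≠ 0 := by exact_mod_cast (SmA_Npos hx).ne'
  have h1 : ∑ j, x j * conj (x j) = (N x : ℂ) := SmA_ip_self x
  have h2 : ∑ j, x j * ((if j = k then 1 else 0) - conj (x j) * x k / (N x : ℂ))
      = ∑ j, (if j = k then x j else 0) - (∑ j, x j * conj (x j)) * (x k / (N x : ℂ)) := by
    rw [Finset.sum_mul, ← Finset.sum_sub_distrib]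
    refine Finset.sum_congr rfl fun j _ => ?_
    split_ifs <;> ring
  rw [h2, h1, Finset.sum_ite_eq' Finset.univ k, if_pos (Finset.mem_univ k)]
  field_simp
  ring

theorem SmA_sum_b {x : V} (hx : x ≠ 0) (j : Fin 3) :
    ∑ k, ((if j = k then 1 else 0) - conj (x j) * x k / (N x : ℂ)) * conj (x k) = 0 := by
  have hN : (N x : ℂ) ≠ 0 := by exact_mod_cast (SmA_Npos hx).ne'
  have h1 : ∑ j, x j * conj (x j) = (N x : ℂ) := SmA_ip_self x
  have h2 : ∑ k, ((if j = k then 1 else 0) - conj (x j) * x k / (N x : ℂ)) * conj (x k)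
      = ∑ k, (if j = k then conj (x k) else 0) - (∑ j, x j * conj (x j)) * (conj (x j) / (N x : ℂ)) := by
    rw [Finset.sum_mul, ← Finset.sum_sub_distrib]
    refine Finset.sum_congr rfl fun k _ => ?_
    split_ifs <;> ring
  rw [h2, h1, Finset.sum_ite_eq Finset.univ j, if_pos (Finset.mem_univ j)]
  field_simp
  ring

theorem SmA_smK_apply (ε : ℝ) (y w x : V) (j k : Fin 3) : smK ε y w x j k =
    ((kk ε (tau x y) / N x : ℝ) : ℂ) *
    (((N (perp x w) + ε ^ 2 : ℝ) : ℂ) * ((if j = k then 1 else 0) - conj (x j) * x k / (N x : ℂ)) -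
      conj (perp x w j) * perp x w k) := rfl

theorem SmA_hom (ε : ℝ) (y w : V) (l : ℂ) (x : V) (hl : l ≠ 0) :
    smK ε y w (l • x) = ((Complex.normSq l : ℂ))⁻¹ • smK ε y w x := by
  ext j k
  rw [Matrix.smul_apply, SmA_smK_apply, SmA_smK_apply, tau_smul_left hl, SmA_perp_smul hl,
    SmA_N_smul, smul_eq_mul]
  have hl2 : (Complex.normSq l : ℂ) ≠ 0 := by
    exact_mod_cast (Complex.normSq_pos.2 hl).ne'
  by_cases hx : x = 0
  · subst hx
    have h0 : N (0 : V) = 0 := by simp [N]
    rw [h0]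
    simp
  have hN : (N x : ℂ) ≠ 0 := by exact_mod_cast (SmA_Npos hx).ne'
  have h3 : conj ((l • x) j) * (l • x) k = (Complex.normSq l : ℂ) * (conj (x j) * x k) := by
    rw [Pi.smul_apply, Pi.smul_apply, smul_eq_mul, smul_eq_mul, map_mul, ← Complex.mul_conj]
    ring
  rw [h3]
  push_cast
  field_simp

theorem SmA_cont (ε : ℝ) (y w : V) (j k : Fin 3) : ContinuousOn (fun x => smK ε y w x j k) {0}ᶜ := by
  have hNc : ContinuousOn (fun x : V => (N x : ℂ)) {0}ᶜ :=
    (Complex.continuous_ofReal.comp continuous_N).continuousOn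
  have hN0 : ∀ x ∈ ({0}ᶜ : Set V), (N x : ℂ) ≠ 0 := fun x hx => by
    exact_mod_cast (SmA_Npos hx).ne'
  have hp := SmA_cont_perp w
  have hpj : ∀ i : Fin 3, ContinuousOn (fun x => perp x w i) {0}ᶜ := fun i =>
    (continuous_apply i).comp_continuousOn hp
  have hkk : Continuous (kk ε) := by
    unfold kk
    fun_prop
  have h1 : ContinuousOn (fun x : V => kk ε (tau x y) / N x) {0}ᶜ := by
    refine ContinuousOn.div (hkk.comp_continuousOn (continuousOn_tau y)) continuous_N.continuousOn ?_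
    intro x hx
    exact (SmA_Npos hx).ne'
  have h2 : ContinuousOn (fun x : V => N (perp x w) + ε ^ 2) {0}ᶜ :=
    (continuous_N.comp_continuousOn hp).add continuousOn_const
  have h3 : ContinuousOn (fun x : V => ((if j = k then 1 else 0) - conj (x j) * x k / (N x : ℂ))) {0}ᶜ := by
    refine ContinuousOn.sub continuousOn_const (ContinuousOn.div ?_ hNc hN0)
    exact ((Complex.continuous_conj.comp (continuous_apply j)).mul (continuous_apply k)).continuousOn
  show ContinuousOn (fun x => ((kk ε (tau x y) / N x : ℝ) : ℂ) *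
    (((N (perp x w) + ε ^ 2 : ℝ) : ℂ) * ((if j = k then 1 else 0) - conj (x j) * x k / (N x : ℂ)) -
      conj (perp x w j) * perp x w k)) {0}ᶜ
  exact (Complex.continuous_ofReal.comp_continuousOn h1).mul
    (((Complex.continuous_ofReal.comp_continuousOn h2).mul h3).sub
      ((Complex.continuous_conj.comp_continuousOn (hpj j)).mul (hpj k)))

theorem SmA_killl {ε : ℝ} (y w : V) {x : V} (hx : x ≠ 0) (k : Fin 3) :
    ∑ j, x j * smK ε y w x j k = 0 := by
  have h1 : ∑ j, x j * conj (perp x w j) = 0 := by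
    have h := perp_orth (w := w) hx
    have h2 : conj (ip (perp x w) x) = 0 := by rw [h, map_zero]
    rw [SmA_ip_conj] at h2
    exact h2
  have h2 : ∑ j, x j * smK ε y w x j k = ((kk ε (tau x y) / N x : ℝ) : ℂ) *
      (((N (perp x w) + ε ^ 2 : ℝ) : ℂ) *
        (∑ j, x j * ((if j = k then 1 else 0) - conj (x j) * x k / (N x : ℂ))) -
      (∑ j, x j * conj (perp x w j)) * perp x w k) := by
    rw [Finset.mul_sum, Finset.sum_mul, ← Finset.sum_sub_distrib, Finset.mul_sum]
    refine Finset.sum_congr rfl fun j _ => ?_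
    rw [SmA_smK_apply]
    ring
  rw [h2, SmA_sum_a hx, h1]
  ring

theorem SmA_killr {ε : ℝ} (y w : V) {x : V} (hx : x ≠ 0) (j : Fin 3) :
    ∑ k, smK ε y w x j k * conj (x k) = 0 := by
  have h1 : ∑ k, perp x w k * conj (x k) = 0 := perp_orth (w := w) hx
  have h2 : ∑ k, smK ε y w x j k * conj (x k) = ((kk ε (tau x y) / N x : ℝ) : ℂ) *
      (((N (perp x w) + ε ^ 2 : ℝ) : ℂ) *
        (∑ k, ((if j = k then 1 else 0) - conj (x j) * x k / (N x : ℂ)) * conj (x k)) -
      conj (perp x w j) * (∑ k, perp x w k * conj (x k))) := by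
    rw [Finset.mul_sum, Finset.mul_sum, ← Finset.sum_sub_distrib, Finset.mul_sum]
    refine Finset.sum_congr rfl fun k _ => ?_
    rw [SmA_smK_apply]
    ring
  rw [h2, SmA_sum_b hx, h1]
  ring

theorem smK_form {ε : ℝ} (y w : V) : IsForm (smK ε y w) where
  cont := by
    refine continuousOn_pi.2 fun j => continuousOn_pi.2 fun k => SmA_cont ε y w j k
  hom := SmA_hom ε y w
  killl := fun x hx k => SmA_killl y w hx k
  killr := fun x hx j => SmA_killr y w hx j

theorem smK_herm {ε : ℝ} (y w : V) : IsHerm (smK ε y w) := by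
  intro x hx
  ext j k
  rw [Matrix.conjTranspose_apply, SmA_smK_apply, SmA_smK_apply]
  show conj _ = _
  rw [map_mul, map_sub, map_mul, map_sub, map_div₀, map_mul, map_mul, Complex.conj_ofReal,
    Complex.conj_ofReal, Complex.conj_ofReal, Complex.conj_conj, Complex.conj_conj]
  have h1 : conj (if k = j then (1 : ℂ) else 0) = if j = k then 1 else 0 := by
    by_cases h : j = k
    · rw [if_pos h, if_pos h.symm, map_one]
    · rw [if_neg h, if_neg (Ne.symm h), map_zero]
  rw [h1]
  ring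

theorem SmA_quad {ε : ℝ} (y w : V) {x : V} (hx : x ≠ 0) (v : V) :
    quad (smK ε y w x) v = ((kk ε (tau x y) / N x *
      ((N (perp x w) + ε ^ 2) * N (perp x v) - Complex.normSq (ip v (perp x w))) : ℝ) : ℂ) := by
  have hN : (N x : ℂ) ≠ 0 := by exact_mod_cast (SmA_Npos hx).ne'
  have e1 : ∑ j, ∑ k, (if j = k then (1 : ℂ) else 0) * v j * conj (v k) = (N v : ℂ) := by
    rw [← SmA_ip_self]
    unfold ip
    refine Finset.sum_congr rfl fun j _ => ?_
    rw [Finset.sum_eq_single j]
    · rw [if_pos rfl, one_mul]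
    · intro k _ hk
      rw [if_neg (Ne.symm hk)]
      ring
    · intro h
      exact absurd (Finset.mem_univ j) h
  have e2 : ∑ j, ∑ k, (conj (x j) * x k) * v j * conj (v k) = (Complex.normSq (ip v x) : ℂ) := by
    rw [← SmA_ip_mul_conj]
    unfold ip
    rw [Finset.sum_mul_sum]
    refine Finset.sum_congr rfl fun j _ => Finset.sum_congr rfl fun k _ => ?_
    ring
  have e3 : ∑ j, ∑ k, (conj (perp x w j) * perp x w k) * v j * conj (v k)
      = (Complex.normSq (ip v (perp x w)) : ℂ) := by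
    rw [← SmA_ip_mul_conj]
    unfold ip
    rw [Finset.sum_mul_sum]
    refine Finset.sum_congr rfl fun j _ => Finset.sum_congr rfl fun k _ => ?_
    ring
  have e4 : quad (smK ε y w x) v = ((kk ε (tau x y) / N x : ℝ) : ℂ) *
      (((N (perp x w) + ε ^ 2 : ℝ) : ℂ) *
        (∑ j, ∑ k, (if j = k then (1 : ℂ) else 0) * v j * conj (v k) -
          (∑ j, ∑ k, (conj (x j) * x k) * v j * conj (v k)) / (N x : ℂ)) -
        ∑ j, ∑ k, (conj (perp x w j) * perp x w k) * v j * conj (v k)) := by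
    unfold quad
    rw [Finset.sum_div, ← Finset.sum_sub_distrib, Finset.mul_sum, ← Finset.sum_sub_distrib,
      Finset.mul_sum]
    refine Finset.sum_congr rfl fun j _ => ?_
    rw [Finset.sum_div, ← Finset.sum_sub_distrib, Finset.mul_sum, ← Finset.sum_sub_distrib,
      Finset.mul_sum]
    refine Finset.sum_congr rfl fun k _ => ?_
    rw [SmA_smK_apply]
    ring
  rw [e4, e1, e2, e3, perp_le (w := v) hx]
  push_cast
  ring

theorem smK_pos {ε : ℝ} (y w : V) {x : V} (hx : x ≠ 0) (v : V) :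
    0 ≤ (quad (smK ε y w x) v).re := by
  rw [SmA_quad y w hx v, Complex.ofReal_re]
  have h1 : 0 ≤ kk ε (tau x y) / N x := div_nonneg (kk_nonneg (tau_le_one x y)) (SmA_Nnn x)
  have h2 : ip v (perp x w) = ip (perp x v) (perp x w) := by
    have h3 : ip x (perp x w) = 0 := by
      rw [← SmA_ip_conj, perp_orth hx, map_zero]
    unfold perp at h3 ⊢
    rw [SmA_ip_sub v, SmA_ip_smul, h3]
    ring
  have h4 := cs_ip (perp x v) (perp x w)
  rw [← h2] at h4
  refine mul_nonneg h1 ?_
  have h5 : 0 ≤ ε ^ 2 * N (perp x v) := mul_nonneg (sq_nonneg ε) (SmA_Nnn _)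
  nlinarith

theorem smK_tr {ε : ℝ} (y w : V) {x : V} (hx : x ≠ 0) :
    (smK ε y w x).trace = ((kk ε (tau x y) / N x * (N (perp x w) + 2 * ε ^ 2) : ℝ) : ℂ) := by
  have hN : (N x : ℂ) ≠ 0 := by exact_mod_cast (SmA_Npos hx).ne'
  have h1 : ∑ j, x j * conj (x j) = (N x : ℂ) := SmA_ip_self x
  have h2 : ∑ j, perp x w j * conj (perp x w j) = (N (perp x w) : ℂ) := SmA_ip_self _
  have h3 : (smK ε y w x).trace = ((kk ε (tau x y) / N x : ℝ) : ℂ) *
      (((N (perp x w) + ε ^ 2 : ℝ) : ℂ) * (3 - (∑ j, x j * conj (x j)) / (N x : ℂ)) -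
        ∑ j, perp x w j * conj (perp x w j)) := by
    unfold Matrix.trace
    have h4 : (3 : ℂ) = ∑ j : Fin 3, 1 := by simp
    rw [h4, Finset.sum_div, ← Finset.sum_sub_distrib, Finset.mul_sum, ← Finset.sum_sub_distrib,
      Finset.mul_sum]
    refine Finset.sum_congr rfl fun j _ => ?_
    rw [Matrix.diag_apply, SmA_smK_apply, if_pos rfl]
    ring
  rw [h3, h1, h2, div_self hN]
  push_cast
  ring

theorem SmA_normSq_le (x : V) (j : Fin 3) : Complex.normSq (x j) ≤ N x := by
  unfold N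
  exact Finset.single_le_sum (f := fun j => Complex.normSq (x j))
    (fun j _ => Complex.normSq_nonneg _) (Finset.mem_univ j)

theorem SmA_norm_mul (x : V) (j k : Fin 3) : ‖conj (x j) * x k‖ ≤ N x := by
  have h1 := SmA_normSq_le x j
  have h2 := SmA_normSq_le x k
  rw [Complex.normSq_eq_norm_sq] at h1 h2
  rw [norm_mul, Complex.norm_conj]
  nlinarith [sq_nonneg (‖x j‖ - ‖x k‖)]

theorem smK_bound {ε : ℝ} (hε : 0 < ε) (h1 : ε ≤ 1) {y w x : V} (hw : N w ≤ 1)
    (hx : x ≠ 0) (j k : Fin 3) : ‖smK ε y w x j k‖ ≤ 12 * ε⁻¹ ^ 4 / N x := by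
  have hNp := SmA_Npos hx
  have hkk := SmA_kk_le2 hε h1 (tau_nonneg x y)
  have hkk0 : 0 ≤ kk ε (tau x y) := kk_nonneg (tau_le_one x y)
  have hp1 : N (perp x w) ≤ 1 := by
    rw [perp_le hx]
    have : 0 ≤ Complex.normSq (ip w x) / N x := div_nonneg (Complex.normSq_nonneg _) hNp.le
    linarith
  have hp0 := SmA_Nnn (perp x w)
  have h2 : ‖((kk ε (tau x y) / N x : ℝ) : ℂ)‖ ≤ 2 * ε⁻¹ ^ 4 / N x := by
    rw [Complex.norm_real, Real.norm_of_nonneg (div_nonneg hkk0 hNp.le)]
    gcongr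
  have h3 : ‖((if j = k then 1 else 0) - conj (x j) * x k / (N x : ℂ))‖ ≤ 2 := by
    refine (norm_sub_le _ _).trans ?_
    have h4 : ‖(if j = k then (1 : ℂ) else 0)‖ ≤ 1 := by
      split_ifs
      · rw [norm_one]
      · rw [norm_zero]; norm_num
    have h5 : ‖conj (x j) * x k / (N x : ℂ)‖ ≤ 1 := by
      rw [norm_div, Complex.norm_real, Real.norm_of_nonneg hNp.le, div_le_one hNp]
      exact SmA_norm_mul x j k
    linarith
  have h6 : ‖((N (perp x w) + ε ^ 2 : ℝ) : ℂ)‖ ≤ 2 := by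
    rw [Complex.norm_real, Real.norm_of_nonneg (by positivity)]
    nlinarith
  have h7 : ‖conj (perp x w j) * perp x w k‖ ≤ 1 := (SmA_norm_mul _ j k).trans hp1
  have h8 : ‖((N (perp x w) + ε ^ 2 : ℝ) : ℂ) *
      ((if j = k then 1 else 0) - conj (x j) * x k / (N x : ℂ)) -
      conj (perp x w j) * perp x w k‖ ≤ 6 := by
    refine (norm_sub_le _ _).trans ?_
    rw [norm_mul]
    have := mul_le_mul h6 h3 (norm_nonneg _) (by norm_num : (0 : ℝ) ≤ 2)
    linarith
  rw [SmA_smK_apply, norm_mul]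
  calc _ ≤ (2 * ε⁻¹ ^ 4 / N x) * 6 := mul_le_mul h2 h8 (norm_nonneg _) (by positivity)
    _ = 12 * ε⁻¹ ^ 4 / N x := by ring

theorem smK_meas (F : Fin 3 → MvPolynomial (Fin 3) ℂ) (ε : ℝ) (j k : Fin 3) :
    Measurable (fun q : V × V => smK ε q.2 (wv F q.2) q.1 j k) := by
  have hw : Measurable (fun q : V × V => wv F q.2) := (measurable_wv F).comp measurable_snd
  have hwj : ∀ i : Fin 3, Measurable (fun q : V × V => wv F q.2 i) := fun i =>
    (measurable_pi_apply i).comp hw
  have hxj : ∀ i : Fin 3, Measurable (fun q : V × V => q.1 i) := fun i =>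
    (measurable_pi_apply i).comp measurable_fst
  have hconj : Measurable (fun z : ℂ => conj z) := Complex.continuous_conj.measurable
  have hNx : Measurable (fun q : V × V => N q.1) := continuous_N.measurable.comp measurable_fst
  have hNxc : Measurable (fun q : V × V => (N q.1 : ℂ)) := Complex.measurable_ofReal.comp hNx
  have hip : Measurable (fun q : V × V => ip (wv F q.2) q.1) := by
    unfold ip
    exact Finset.measurable_sum _ fun i _ => (hwj i).mul (hconj.comp (hxj i))
  have hpj : ∀ i : Fin 3, Measurable (fun q : V × V => perp q.1 (wv F q.2) i) := by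
    intro i
    have h1 : (fun q : V × V => perp q.1 (wv F q.2) i) = fun q : V × V =>
        wv F q.2 i - ip (wv F q.2) q.1 / (N q.1 : ℂ) * q.1 i := rfl
    rw [h1]
    exact (hwj i).sub ((hip.div hNxc).mul (hxj i))
  have hp : Measurable (fun q : V × V => perp q.1 (wv F q.2)) := measurable_pi_iff.2 hpj
  have hNp : Measurable (fun q : V × V => N (perp q.1 (wv F q.2))) := continuous_N.measurable.comp hp
  have hkk : Continuous (kk ε) := by
    unfold kk
    fun_prop
  have h1 : Measurable (fun q : V × V => kk ε (tau q.1 q.2) / N q.1) :=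
    (hkk.measurable.comp measurable_tau).div hNx
  show Measurable (fun q : V × V => ((kk ε (tau q.1 q.2) / N q.1 : ℝ) : ℂ) *
    (((N (perp q.1 (wv F q.2)) + ε ^ 2 : ℝ) : ℂ) *
      ((if j = k then 1 else 0) - conj (q.1 j) * q.1 k / (N q.1 : ℂ)) -
      conj (perp q.1 (wv F q.2) j) * perp q.1 (wv F q.2) k))
  exact (Complex.measurable_ofReal.comp h1).mul
    (((Complex.measurable_ofReal.comp (hNp.add measurable_const)).mul
      (measurable_const.sub (((hconj.comp (hxj j)).mul (hxj k)).div hNxc))).sub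
      ((hconj.comp (hpj j)).mul (hpj k)))

theorem SmA_unit {F : Fin 3 → MvPolynomial (Fin 3) ℂ} {μ : Measure V} (hμ : IsCur F μ) :
    ∀ᵐ y ∂μ, N (wv F y) ≤ 1 := by
  filter_upwards [hμ.sphere, hμ.sing] with y h1 h2
  exact (wv_unit h1 h2).le

theorem SmA_finite {F : Fin 3 → MvPolynomial (Fin 3) ℂ} {μ : Measure V} (hμ : IsCur F μ) :
    IsFiniteMeasure μ := ⟨by rw [hμ.prob]; exact ENNReal.one_lt_top⟩

theorem SmA_meas1 (F : Fin 3 → MvPolynomial (Fin 3) ℂ) (ε : ℝ) (j k : Fin 3) (x : V) :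
    Measurable (fun y : V => smK ε y (wv F y) x j k) := by
  have h0 : Measurable (fun y : V => ((x, y) : V × V)) := measurable_const.prodMk measurable_id
  have h := (smK_meas F ε j k).comp h0
  exact h

theorem SmA_int {F : Fin 3 → MvPolynomial (Fin 3) ℂ} {μ : Measure V} (hμ : IsCur F μ) {ε : ℝ}
    (hε : 0 < ε) (h1 : ε ≤ 1) {x : V} (hx : x ≠ 0) (j k : Fin 3) :
    Integrable (fun y : V => smK ε y (wv F y) x j k) μ := by
  have := SmA_finite hμ
  refine Integrable.of_bound (SmA_meas1 F ε j k x).aestronglyMeasurable (12 * ε⁻¹ ^ 4 / N x) ?_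
  filter_upwards [SmA_unit hμ] with y hy
  exact smK_bound hε h1 hy hx j k

theorem SmA_contAt {F : Fin 3 → MvPolynomial (Fin 3) ℂ} {μ : Measure V} (hμ : IsCur F μ) {ε : ℝ}
    (hε : 0 < ε) (h1 : ε ≤ 1) (j k : Fin 3) {x : V} (hx : x ≠ 0) :
    ContinuousAt (fun x => sm F μ ε x j k) x := by
  have := SmA_finite hμ
  have hNp := SmA_Npos hx
  have hnear : ∀ᶠ z in nhds x, N x / 2 < N z := by
    refine continuous_N.continuousAt.eventually_const_lt ?_
    linarith
  have h2 : (fun x => sm F μ ε x j k) = fun x => ∫ y, smK ε y (wv F y) x j k ∂μ := rfl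
  rw [h2]
  refine MeasureTheory.continuousAt_of_dominated (bound := fun _ => 12 * ε⁻¹ ^ 4 / (N x / 2))
    ?_ ?_ ?_ ?_
  · exact Filter.Eventually.of_forall fun z => (SmA_meas1 F ε j k z).aestronglyMeasurable
  · filter_upwards [hnear] with z hz
    filter_upwards [SmA_unit hμ] with y hy
    have hz0 : z ≠ 0 := by
      rintro rfl
      have h0 : N (0 : V) = 0 := by simp [N]
      rw [h0] at hz
      linarith
    refine (smK_bound hε h1 hy hz0 j k).trans ?_
    gcongr
  · exact integrable_const _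
  · refine Filter.Eventually.of_forall fun y => ?_
    exact (SmA_cont ε y (wv F y) j k).continuousAt (isOpen_compl_singleton.mem_nhds hx)

theorem form_sm {F : Fin 3 → MvPolynomial (Fin 3) ℂ} {μ : Measure V} (hμ : IsCur F μ) {ε : ℝ}
    (hε : 0 < ε) (h1 : ε ≤ 1) : IsForm (sm F μ ε) where
  cont := by
    refine continuousOn_pi.2 fun j => continuousOn_pi.2 fun k => ?_
    intro x hx
    exact (SmA_contAt hμ hε h1 j k hx).continuousWithinAt
  hom := by
    intro l x hl
    ext j k
    rw [Matrix.smul_apply, sm_eq, sm_eq, smul_eq_mul, ← integral_const_mul]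
    congr 1
    funext y
    rw [SmA_hom ε y (wv F y) l x hl, Matrix.smul_apply, smul_eq_mul]
  killl := by
    intro x hx k
    have h2 : ∀ j, x j * sm F μ ε x j k = ∫ y, x j * smK ε y (wv F y) x j k ∂μ := fun j => by
      rw [sm_eq, integral_const_mul]
    simp only [h2]
    rw [← integral_finsetSum _ fun j _ => (SmA_int hμ hε h1 hx j k).const_mul (x j)]
    simp only [SmA_killl _ _ hx k]
    exact integral_zero _ _
  killr := by
    intro x hx j
    have h2 : ∀ k, sm F μ ε x j k * conj (x k) = ∫ y, smK ε y (wv F y) x j k * conj (x k) ∂μ :=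
      fun k => by rw [sm_eq, integral_mul_const]
    simp only [h2]
    rw [← integral_finsetSum _ fun k _ => (SmA_int hμ hε h1 hx j k).mul_const (conj (x k))]
    simp only [SmA_killr _ _ hx j]
    exact integral_zero _ _

theorem herm_sm {F : Fin 3 → MvPolynomial (Fin 3) ℂ} {μ : Measure V} (hμ : IsCur F μ) {ε : ℝ}
    (hε : 0 < ε) (h1 : ε ≤ 1) : IsHerm (sm F μ ε) := by
  intro x hx
  ext j k
  rw [Matrix.conjTranspose_apply, sm_eq, sm_eq]
  show conj _ = _
  rw [← integral_conj]
  congr 1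
  funext y
  have h2 := (smK_herm (ε := ε) y (wv F y) x hx)
  have h3 := congrFun (congrFun h2 j) k
  rw [Matrix.conjTranspose_apply] at h3
  exact h3

theorem pos_sm {F : Fin 3 → MvPolynomial (Fin 3) ℂ} {μ : Measure V} (hμ : IsCur F μ) {ε : ℝ}
    (hε : 0 < ε) (h1 : ε ≤ 1) {x : V} (hx : x ≠ 0) (v : V) :
    0 ≤ (quad (sm F μ ε x) v).re := by
  have hint : ∀ j k, Integrable (fun y => smK ε y (wv F y) x j k * v j * conj (v k)) μ := fun j k =>
    ((SmA_int hμ hε h1 hx j k).mul_const (v j)).mul_const (conj (v k))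
  have h2 : quad (sm F μ ε x) v = ∫ y, quad (smK ε y (wv F y) x) v ∂μ := by
    unfold quad
    rw [integral_finsetSum _ fun j _ => integrable_finsetSum _ fun k _ => hint j k]
    refine Finset.sum_congr rfl fun j _ => ?_
    rw [integral_finsetSum _ fun k _ => hint j k]
    refine Finset.sum_congr rfl fun k _ => ?_
    rw [sm_eq, integral_mul_const, integral_mul_const]
  have h3 : ∀ y, quad (smK ε y (wv F y) x) v = (((quad (smK ε y (wv F y) x) v).re : ℝ) : ℂ) := by
    intro y
    rw [SmA_quad y (wv F y) hx v, Complex.ofReal_re]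
  have h4 : ∫ y, quad (smK ε y (wv F y) x) v ∂μ
      = ∫ y, (((quad (smK ε y (wv F y) x) v).re : ℝ) : ℂ) ∂μ :=
    integral_congr_ae (Filter.Eventually.of_forall h3)
  rw [h2, h4, integral_complex_ofReal, Complex.ofReal_re]
  exact integral_nonneg fun y => smK_pos y (wv F y) hx v

theorem tr_sm {F : Fin 3 → MvPolynomial (Fin 3) ℂ} {μ : Measure V} (hμ : IsCur F μ) {ε : ℝ}
    (hε : 0 < ε) (h1 : ε ≤ 1) {x : V} (hx : x ≠ 0) :
    (sm F μ ε x).trace =
      ((∫ y, kk ε (tau x y) / N x * (N (perp x (wv F y)) + 2 * ε ^ 2) ∂μ : ℝ) : ℂ) := by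
  rw [← integral_complex_ofReal]
  have h2 : ∀ y, ((kk ε (tau x y) / N x * (N (perp x (wv F y)) + 2 * ε ^ 2) : ℝ) : ℂ)
      = ∑ j, smK ε y (wv F y) x j j := fun y => (smK_tr y (wv F y) hx).symm
  simp_rw [h2]
  rw [integral_finsetSum _ fun j _ => SmA_int hμ hε h1 hx j j]
  rfl

theorem tr_sm_le {F : Fin 3 → MvPolynomial (Fin 3) ℂ} {μ : Measure V} (hμ : IsCur F μ) {ε : ℝ}
    (hε : 0 < ε) (h1 : ε ≤ 1) {x : V} (hx : x ≠ 0) :
    N x * ((sm F μ ε x).trace).re ≤ 3 * ∫ y, kk ε (tau x y) ∂μ := by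
  have := SmA_finite hμ
  have hNp := SmA_Npos hx
  have hkk : Continuous (kk ε) := by
    unfold kk
    fun_prop
  have hkm : Measurable (fun y : V => kk ε (tau x y)) := by
    have h0 : Measurable (fun y : V => ((x, y) : V × V)) := measurable_const.prodMk measurable_id
    have h := hkk.measurable.comp (measurable_tau.comp h0)
    exact h
  have hki : Integrable (fun y : V => kk ε (tau x y)) μ := by
    refine Integrable.of_bound hkm.aestronglyMeasurable (2 * ε⁻¹ ^ 4) ?_
    refine Filter.Eventually.of_forall fun y => ?_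
    rw [Real.norm_of_nonneg (kk_nonneg (tau_le_one x y))]
    exact SmA_kk_le2 hε h1 (tau_nonneg x y)
  rw [tr_sm hμ hε h1 hx, Complex.ofReal_re, ← integral_const_mul, ← integral_const_mul]
  refine integral_mono_of_nonneg ?_ (hki.const_mul 3) ?_
  · refine Filter.Eventually.of_forall fun y => ?_
    have h2 : 0 ≤ kk ε (tau x y) := kk_nonneg (tau_le_one x y)
    have h3 := SmA_Nnn (perp x (wv F y))
    show 0 ≤ N x * (kk ε (tau x y) / N x * (N (perp x (wv F y)) + 2 * ε ^ 2))
    positivity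
  · filter_upwards [SmA_unit hμ] with y hy
    have h2 : 0 ≤ kk ε (tau x y) := kk_nonneg (tau_le_one x y)
    have hp1 : N (perp x (wv F y)) ≤ 1 := by
      rw [perp_le hx]
      have : 0 ≤ Complex.normSq (ip (wv F y) x) / N x := div_nonneg (Complex.normSq_nonneg _) hNp.le
      linarith
    have h4 : N x * (kk ε (tau x y) / N x * (N (perp x (wv F y)) + 2 * ε ^ 2))
        = kk ε (tau x y) * (N (perp x (wv F y)) + 2 * ε ^ 2) := by
      field_simp
    show N x * (kk ε (tau x y) / N x * (N (perp x (wv F y)) + 2 * ε ^ 2)) ≤ 3 * kk ε (tau x y)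
    rw [h4]
    have h5 : N (perp x (wv F y)) + 2 * ε ^ 2 ≤ 3 := by nlinarith
    calc kk ε (tau x y) * (N (perp x (wv F y)) + 2 * ε ^ 2) ≤ kk ε (tau x y) * 3 :=
          mul_le_mul_of_nonneg_left h5 h2
      _ = 3 * kk ε (tau x y) := by ring

end Pool.Agent.H85.DC

end S_H85_DC_SmA

section S_H85_DC_Pol

/-!
# Row Pol: integration along complex lines

Let `φ : CHom (-1) (-1)` and `g = gs ε (· - y)`, `N y = 1`.
(1) `∫ g φ dx = ∫ φ(x) N(x) Γ(x) e^{-N x} dx` with `Γ(x) = π^{-1} ∫_ℂ |s|^2 g(s x) ds`.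
Proof: `(N x/π) ∫_ℂ e^{-|s|^2 N x} ds = 1` for `x ≠ 0`; so `∫ g φ = ∫∫ g(x) φ(x) (N x/π) e^{-|s|^2 N x} ds dx`; Fubini; for fixed `s ≠ 0`
substitute `x = z/s` where now … : put `z = s x`, i.e. `x = s^{-1} z`, `dx = |s|^{-6} dz`, `φ(s^{-1} z) = |s|^2 φ(z)`, `N(s^{-1}z) = N(z)/|s|^2`:
inner integral `= ∫ g(s^{-1} z) |s|^2 φ(z) N(z) |s|^{-2} π^{-1} e^{-N z} |s|^{-6} dz = π^{-1} ∫ φ(z) N(z) e^{-N z} |s|^{-6} g(s^{-1}z) dz`.
Integrate in `s` and substitute `s = 1/s'` (`ds = |s'|^{-4} ds'`): `∫ |s|^{-6} g(s^{-1}z) ds = ∫ |s'|^2 g(s' z) ds'`.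
(To avoid the inversion of `ℂ`: start instead from `∫_ℂ |s|^{-4} N e^{-N/|s|^2} ds = π`, or read the identity from right to left:
RHS `= π^{-1} ∫∫ φ(x) N(x) |s|^2 g(s x) e^{-N x} ds dx`; for fixed `s` substitute `x = z/s`: `= π^{-1} ∫∫ |s|^2 φ(z) |s|^{-2} N(z) |s|^2 g(z) e^{-N z/|s|^2} |s|^{-6} dz ds
= ∫ φ(z) g(z) [π^{-1} ∫ N(z) |s|^{-4} e^{-N z/|s|^2} ds] dz`, and the bracket is `1`: polar coordinates `2π ∫_0^∞ r^{-3} e^{-N/r^2} dr = π/N`,
with antiderivative `e^{-N/r^2}/(2N)`; Mathlib: `Complex.integral_comp_polarCoord_symm`, `integral_Ioi_of_hasDerivAt_of_tendsto`.)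
Absolute convergence: `|φ| ≤ C/N`, `∫ g/N < ∞`.
(2) `Γ(x) = (1 - τ + ε^2) e^{-τ/ε^2}/(π^3 ε^4 (N x)^2)`, `τ = tau x y`. With `n = N x`, `c = conj (ip x y)/n`:
`N (s x - y) = n |s|^2 - 2 Re (s ip x y) + 1 = n |s - c|^2 + 1 - |ip x y|^2/n = n |s - c|^2 + τ`. And
`∫_ℂ |s|^2 e^{-n |s-c|^2/ε^2} ds = (π ε^2/n)(|c|^2 + ε^2/n)` (shift, `∫ e^{-a|z|^2} = π/a`, `∫ |z|^2 e^{-a|z|^2} = π/a^2`, odd terms vanish), `|c|^2 = |ip|^2/n^2 = (1-τ)/n`.
So `Γ = π^{-1} (π ε^2)^{-3} e^{-τ/ε^2} (π ε^2/n^2)(1 - τ + ε^2)`.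
Hence `N Γ = kk ε τ/N`.
-/

open MeasureTheory
open scoped ContDiff BigOperators ComplexConjugate Matrix

namespace Pool.Agent.H85.DC

private theorem pN_pos {x : V} (hx : x ≠ 0) : 0 < N x := N_pos hx

private theorem int_cplx {a : ℝ} (ha : 0 < a) :
    ∫ z : ℂ, Real.exp (-a * Complex.normSq z) = Real.pi / a := by
  have h := Complex.integral_rpow_mul_exp_neg_mul_rpow (p := 2) (q := 0) (b := a) (by norm_num)
    (by norm_num) ha
  rw [show (-(0 + 2) / 2 : ℝ) = -1 by norm_num, show ((0 + 2) / 2 : ℝ) = 1 by norm_num,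
    Real.Gamma_one, Real.rpow_neg_one] at h
  rw [show (2 * Real.pi / 2 * a⁻¹ * 1 : ℝ) = Real.pi / a by ring] at h
  rw [← h]
  congr 1
  funext z
  rw [Real.rpow_zero, one_mul, Complex.normSq_eq_norm_sq, Real.rpow_two]

private theorem int_cplx2 {a : ℝ} (ha : 0 < a) :
    ∫ z : ℂ, Complex.normSq z * Real.exp (-a * Complex.normSq z) = Real.pi / a ^ 2 := by
  have h := Complex.integral_rpow_mul_exp_neg_mul_rpow (p := 2) (q := 2) (b := a) (by norm_num)
    (by norm_num) ha
  rw [show (-(2 + 2) / 2 : ℝ) = -2 by norm_num, show ((2 + 2) / 2 : ℝ) = 2 by norm_num,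
    Real.Gamma_two, Real.rpow_neg ha.le, Real.rpow_two] at h
  rw [show (2 * Real.pi / 2 * (a ^ 2)⁻¹ * 1 : ℝ) = Real.pi / a ^ 2 by ring] at h
  rw [← h]
  congr 1
  funext z
  rw [Real.rpow_two, Complex.normSq_eq_norm_sq]

private theorem int_cplx_shift {a : ℝ} (ha : 0 < a) (c : ℂ) :
    ∫ s : ℂ, Complex.normSq s * Real.exp (-a * Complex.normSq (s - c)) =
      Real.pi / a ^ 2 + Complex.normSq c * (Real.pi / a) := by
  have hpi := Real.pi_pos
  have i0 : Integrable fun z : ℂ => Real.exp (-a * Complex.normSq z) := by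
    by_contra h
    have := integral_undef h
    rw [int_cplx ha] at this
    have h2 : 0 < Real.pi / a := by positivity
    exact h2.ne' this
  have i2 : Integrable fun z : ℂ => Complex.normSq z * Real.exp (-a * Complex.normSq z) := by
    by_contra h
    have := integral_undef h
    rw [int_cplx2 ha] at this
    have h2 : 0 < Real.pi / a ^ 2 := by positivity
    exact h2.ne' this
  have hcn : Continuous Complex.normSq := Complex.continuous_normSq
  have bd : ∀ z w : ℂ, Complex.normSq (z + w) ≤ 2 * Complex.normSq z + 2 * Complex.normSq w := by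
    intro z w
    simp only [Complex.normSq_apply, Complex.add_re, Complex.add_im]
    nlinarith [sq_nonneg (z.re - w.re), sq_nonneg (z.im - w.im)]
  have e1 : ∫ s : ℂ, Complex.normSq s * Real.exp (-a * Complex.normSq (s - c)) =
      ∫ z : ℂ, Complex.normSq (z + c) * Real.exp (-a * Complex.normSq z) := by
    rw [← integral_add_right_eq_self _ c]
    simp only [add_sub_cancel_right]
  have i3 : ∀ c : ℂ, Integrable fun z : ℂ => Complex.normSq (z + c) * Real.exp (-a * Complex.normSq z) := by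
    intro c
    refine Integrable.mono' ((i2.const_mul 2).add (i0.const_mul (2 * Complex.normSq c))) ?_ ?_
    · refine Continuous.aestronglyMeasurable ?_
      fun_prop
    · refine Filter.Eventually.of_forall fun z => ?_
      rw [Real.norm_eq_abs, abs_of_nonneg (mul_nonneg (Complex.normSq_nonneg _) (Real.exp_pos _).le)]
      simp only [Pi.add_apply]
      have := bd z c
      have he := Real.exp_pos (-a * Complex.normSq z)
      nlinarith
  have e2 : ∫ z : ℂ, Complex.normSq (z + c) * Real.exp (-a * Complex.normSq z) =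
      ∫ z : ℂ, Complex.normSq (z - c) * Real.exp (-a * Complex.normSq z) := by
    rw [← integral_neg_eq_self]
    congr 1
    funext z
    rw [Complex.normSq_neg]
    congr 1
    rw [show -z + c = -(z - c) by ring, Complex.normSq_neg]
  have e3 : (∫ z : ℂ, Complex.normSq (z + c) * Real.exp (-a * Complex.normSq z)) +
      (∫ z : ℂ, Complex.normSq (z - c) * Real.exp (-a * Complex.normSq z)) =
      2 * (Real.pi / a ^ 2 + Complex.normSq c * (Real.pi / a)) := by
    rw [← integral_add (i3 c) (by simpa only [sub_eq_add_neg] using i3 (-c)), ← int_cplx ha, ← int_cplx2 ha,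
      ← integral_const_mul, ← integral_add i2 (i0.const_mul _), ← integral_const_mul]
    congr 1
    funext z
    simp only [Complex.normSq_apply, Complex.add_re, Complex.add_im, Complex.sub_re, Complex.sub_im]
    ring
  rw [e1]
  linarith

private theorem N_line {x y : V} (hx : x ≠ 0) (hy : N y = 1) (s : ℂ) :
    N (s • x - y) = N x * Complex.normSq (s - conj (ip x y) / N x) + tau x y := by
  have hn := (pN_pos hx).ne'
  have h1 : N (s • x - y) = Complex.normSq s * N x - 2 * (s * ip x y).re + N y := by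
    simp only [N, ip, Fin.sum_univ_three, Complex.normSq_apply, Pi.sub_apply, Pi.smul_apply,
      smul_eq_mul, Complex.sub_re, Complex.sub_im, Complex.mul_re, Complex.mul_im, Complex.add_re,
      Complex.add_im, Complex.conj_re, Complex.conj_im]
    ring
  rw [h1, hy]
  unfold tau
  rw [hy]
  generalize ip x y = p
  generalize N x = n at hn
  have h2 : (conj p / (n : ℂ)) = ((p.re / n : ℝ) : ℂ) + ((-p.im / n : ℝ) : ℂ) * Complex.I := by
    apply Complex.ext
    · simp [Complex.div_ofReal_re]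
    · simp [Complex.div_ofReal_im]
  rw [h2]
  simp only [Complex.normSq_apply, Complex.sub_re, Complex.sub_im, Complex.mul_re, Complex.mul_im,
    Complex.add_re, Complex.add_im, Complex.ofReal_re, Complex.ofReal_im, Complex.I_re, Complex.I_im]
  field_simp
  ring

theorem gam {ε : ℝ} (hε : 0 < ε) {x y : V} (hx : x ≠ 0) (hy : N y = 1) :
    ∫ s : ℂ, Complex.normSq s * gs ε (s • x - y) = Real.pi * kk ε (tau x y) / (N x) ^ 2 := by
  have hn := pN_pos hx
  have hpi := Real.pi_pos
  have e1 : ∀ s : ℂ, Complex.normSq s * gs ε (s • x - y) =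
      (((Real.pi * ε ^ 2) ^ 3)⁻¹ * Real.exp (-tau x y / ε ^ 2)) *
        (Complex.normSq s * Real.exp (-(N x / ε ^ 2) * Complex.normSq (s - conj (ip x y) / N x))) := by
    intro s
    unfold gs
    rw [N_line hx hy, show -(N x * Complex.normSq (s - conj (ip x y) / N x) + tau x y) / ε ^ 2 =
      -tau x y / ε ^ 2 + -(N x / ε ^ 2) * Complex.normSq (s - conj (ip x y) / N x) by ring, Real.exp_add]
    ring
  simp only [e1]
  rw [integral_const_mul, int_cplx_shift (by positivity)]
  have hc : Complex.normSq (conj (ip x y) / N x) = (1 - tau x y) / N x := by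
    unfold tau
    rw [hy, map_div₀, Complex.normSq_conj, Complex.normSq_ofReal]
    field_simp
    ring
  rw [hc]
  unfold kk
  field_simp
  ring

private theorem int_inv {b : ℝ} (hb : 0 < b) :
    ∫ s : ℂ, ((Complex.normSq s) ^ 2)⁻¹ * Real.exp (-b / Complex.normSq s) = Real.pi / b := by
  have e0 : ∀ s : ℂ, ((Complex.normSq s) ^ 2)⁻¹ * Real.exp (-b / Complex.normSq s) =
      (fun r : ℝ => (r ^ 4)⁻¹ * Real.exp (-b / r ^ 2)) ‖s‖ := by
    intro s
    simp only [Complex.normSq_eq_norm_sq]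
    ring_nf
  rw [integral_congr_ae (Filter.Eventually.of_forall e0),
    integral_fun_norm_addHaar (volume : Measure ℂ) (fun r : ℝ => (r ^ 4)⁻¹ * Real.exp (-b / r ^ 2))]
  have hball : (volume : Measure ℂ).real (Metric.ball 0 1) = Real.pi := by
    rw [Measure.real, Complex.volume_ball]
    simp
  rw [hball, Complex.finrank_real_complex]
  have h1 := integral_comp_rpow_Ioi (fun u : ℝ => Real.exp (-b * u)) (p := -2) (by norm_num)
  rw [integral_exp_mul_Ioi (by linarith)] at h1
  have h2 : ∫ y in Set.Ioi (0 : ℝ), y ^ (2 - 1) • ((y ^ 4)⁻¹ * Real.exp (-b / y ^ 2)) =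
      (1 / 2) * ∫ x in Set.Ioi (0 : ℝ), (|(-2 : ℝ)| * x ^ ((-2 : ℝ) - 1)) • Real.exp (-b * x ^ (-2 : ℝ)) := by
    rw [← integral_const_mul]
    refine setIntegral_congr_fun measurableSet_Ioi fun r hr => ?_
    have hr' : 0 < r := hr
    have hr2 : r ^ (-2 : ℝ) = (r ^ 2)⁻¹ := by
      rw [Real.rpow_neg hr'.le]; norm_num
    have hr3 : r ^ ((-2 : ℝ) - 1) = (r ^ 3)⁻¹ := by
      rw [show ((-2 : ℝ) - 1) = -((3 : ℕ) : ℝ) by norm_num, Real.rpow_neg hr'.le, Real.rpow_natCast]
    simp only [smul_eq_mul]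
    rw [hr2, hr3, show (-b / r ^ 2) = -b * (r ^ 2)⁻¹ by ring, show |(-2 : ℝ)| = 2 by norm_num]
    field_simp
    rw [show 2 - 1 = 1 from rfl, pow_one]
  rw [h2, h1]
  simp only [mul_zero, Real.exp_zero, smul_eq_mul, nsmul_eq_mul]
  push_cast
  field_simp

private theorem int_smul {s : ℂ} (hs : s ≠ 0) (F : V → ℂ) :
    ∫ x : V, F (s • x) = (((Complex.normSq s ^ 3)⁻¹ : ℝ) : ℂ) * ∫ x, F x := by
  have hn : 0 < Complex.normSq s := Complex.normSq_pos.2 hs
  set L : V →ₗ[ℝ] V := (s • (LinearMap.id : V →ₗ[ℂ] V)).restrictScalars ℝ with hL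
  have hdet : LinearMap.det L = Complex.normSq s ^ 3 := by
    rw [hL, LinearMap.det_restrictScalars, Algebra.norm_complex_apply, LinearMap.det_smul,
      LinearMap.det_id, mul_one, map_pow]
    simp
  have hmap := Measure.map_linearMap_addHaar_eq_smul_addHaar (volume : Measure V) (f := L)
    (by rw [hdet]; positivity)
  have hLs : (L : V → V) = fun x => s • x := by
    funext x
    rfl
  have h1 : ∫ x : V, F (s • x) = ∫ x, F x ∂(Measure.map (fun x : V => s • x) volume) := by
    exact ((Homeomorph.smulOfNeZero s hs).measurableEmbedding.integral_map F).symm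
  rw [h1, ← hLs, hmap, hdet, integral_smul_measure, ENNReal.toReal_ofReal (abs_nonneg _),
    abs_of_pos (by positivity)]
  rw [Complex.real_smul]

private theorem N_cont' : Continuous N := continuous_N

private theorem gs_pos {ε : ℝ} (hε : 0 < ε) (z : V) : 0 < gs ε z := by
  unfold gs
  have := Real.pi_pos
  positivity

private theorem gs_cont {ε : ℝ} : Continuous (gs ε) := by
  unfold gs
  have := continuous_N
  fun_prop

private theorem phi_bound {φ : V → ℂ} (hφ : CHom (-1) (-1) φ) :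
    ∃ C : ℝ, 0 ≤ C ∧ ∀ x : V, x ≠ 0 → ‖φ x‖ ≤ C / N x := by
  obtain ⟨C, hC, h⟩ := chom_bound hφ
  refine ⟨Real.sqrt C, Real.sqrt_nonneg _, fun x hx => ?_⟩
  have hn := pN_pos hx
  have h1 := h x hx
  refine abs_le_of_sq_le_sq' ?_ (by positivity) |>.2
  rw [div_pow, Real.sq_sqrt hC]
  refine h1.trans (le_of_eq ?_)
  rw [show ((-1 : ℤ) + -1) = -2 by norm_num, zpow_neg, div_eq_mul_inv]
  norm_cast

private theorem phi_meas {φ : V → ℂ} (hφ : CHom (-1) (-1) φ) : Measurable φ :=
  measurable_of_continuousOn_compl_singleton (0 : V) hφ.cont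

private theorem ae_ne : ∀ᵐ x : V, x ≠ 0 := by
  rw [ae_iff]
  simp

private theorem kk_pos {ε : ℝ} (hε : 0 < ε) (x y : V) : 0 < kk ε (tau x y) := by
  unfold kk
  have := Real.pi_pos
  have h1 := tau_le_one x y
  have h2 : 0 < 1 - tau x y + ε ^ 2 := by
    have : 0 < ε ^ 2 := by positivity
    linarith
  positivity

private theorem kk_bdd {ε : ℝ} (hε : 0 < ε) (x y : V) :
    kk ε (tau x y) ≤ (1 + ε ^ 2) / (Real.pi ^ 3 * ε ^ 4) := by
  unfold kk
  have := Real.pi_pos
  have h0 := tau_nonneg x y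
  have h1 := tau_le_one x y
  have h4 : 0 < ε ^ 2 := by positivity
  have h2 : Real.exp (-tau x y / ε ^ 2) ≤ 1 := by
    rw [Real.exp_le_one_iff]
    exact div_nonpos_of_nonpos_of_nonneg (by linarith) h4.le
  have h3 : 0 < Real.exp (-tau x y / ε ^ 2) := Real.exp_pos _
  have h5 : (1 - tau x y + ε ^ 2) * Real.exp (-tau x y / ε ^ 2) ≤ (1 + ε ^ 2) * 1 :=
    mul_le_mul (by linarith) h2 h3.le (by linarith)
  rw [mul_one] at h5
  exact div_le_div_of_nonneg_right h5 (by positivity)

private theorem kk_meas (ε : ℝ) (y : V) : Measurable fun x : V => kk ε (tau x y) := by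
  have h0 : Measurable fun x : V => ((x, y) : V × V) := measurable_id.prodMk measurable_const
  have h : Measurable fun x : V => tau x y := by
    have h := measurable_tau.comp h0
    exact h
  have h1 : Measurable fun t : ℝ => kk ε t := by
    unfold kk
    refine Continuous.measurable ?_
    fun_prop
  exact h1.comp h

/-- The double integrand before the substitution. -/
private noncomputable def G1 (φ : V → ℂ) (ε : ℝ) (y : V) (x : V) (s : ℂ) : ℂ :=
  φ x * ((N x * wt x * (Complex.normSq s * gs ε (s • x - y)) : ℝ) : ℂ)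

/-- The double integrand after the substitution. -/
private noncomputable def G2 (φ : V → ℂ) (ε : ℝ) (y : V) (z : V) (s : ℂ) : ℂ :=
  φ z * ((gs ε (z - y) * N z *
    (((Complex.normSq s) ^ 2)⁻¹ * Real.exp (-N z / Complex.normSq s)) : ℝ) : ℂ)

private theorem wt_pos (x : V) : 0 < wt x := Real.exp_pos _

private theorem G1_int {φ : V → ℂ} (hφ : CHom (-1) (-1) φ) {ε : ℝ} (hε : 0 < ε) {y : V} (hy : N y = 1) :
    Integrable (Function.uncurry (G1 φ ε y)) ((volume : Measure V).prod (volume : Measure ℂ)) := by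
  have hpi := Real.pi_pos
  have hm := phi_meas hφ
  have hg := gs_cont (ε := ε)
  have hNc := continuous_N
  have hmeas : Measurable (Function.uncurry (G1 φ ε y)) := by
    have h1 : Measurable fun p : V × ℂ => φ p.1 := hm.comp measurable_fst
    have h2 : Continuous fun p : V × ℂ => (N p.1 * wt p.1 * (Complex.normSq p.2 * gs ε (p.2 • p.1 - y)) : ℝ) := by
      unfold wt
      have := Complex.continuous_normSq
      fun_prop
    exact h1.mul (Complex.measurable_ofReal.comp h2.measurable)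
  have hnorm : ∀ x s, ‖G1 φ ε y x s‖ = ‖φ x‖ * (N x * wt x) * (Complex.normSq s * gs ε (s • x - y)) := by
    intro x s
    unfold G1
    have h0 : 0 ≤ N x * wt x * (Complex.normSq s * gs ε (s • x - y)) :=
      mul_nonneg (mul_nonneg (N_nonneg x) (wt_pos x).le)
        (mul_nonneg (Complex.normSq_nonneg s) (gs_pos hε (s • x - y)).le)
    rw [norm_mul, Complex.norm_real, Real.norm_eq_abs, abs_of_nonneg h0]
    ring
  rw [integrable_prod_iff hmeas.aestronglyMeasurable]
  constructor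
  · filter_upwards [ae_ne] with x hx
    have hi : Integrable fun s : ℂ => Complex.normSq s * gs ε (s • x - y) := by
      by_contra h
      have h0 := integral_undef h
      rw [gam hε hx hy] at h0
      have h1 := kk_pos hε x y
      have h2 := pN_pos hx
      have h3 : 0 < Real.pi * kk ε (tau x y) / N x ^ 2 := by positivity
      exact h3.ne' h0
    have : Integrable fun s : ℂ => φ x * (((N x * wt x * (Complex.normSq s * gs ε (s • x - y)) : ℝ)) : ℂ) :=
      ((hi.const_mul (N x * wt x)).ofReal).const_mul (φ x)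
    exact this
  · have e : ∀ᵐ x : V, ‖((kk ε (tau x y) : ℝ) : ℂ) * (φ x * ((N x : ℂ))⁻¹) * (wt x : ℂ)‖ * Real.pi =
        ∫ s : ℂ, ‖Function.uncurry (G1 φ ε y) (x, s)‖ := by
      filter_upwards [ae_ne] with x hx
      simp only [Function.uncurry, hnorm]
      rw [integral_const_mul, gam hε hx hy, norm_mul, norm_mul, norm_mul, norm_inv, Complex.norm_real,
        Complex.norm_real, Complex.norm_real, Real.norm_eq_abs, Real.norm_eq_abs, Real.norm_eq_abs,
        abs_of_pos (kk_pos hε x y), abs_of_pos (pN_pos hx), abs_of_pos (wt_pos x)]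
      have := (pN_pos hx).ne'
      field_simp
    refine (Integrable.mul_const ?_ Real.pi).congr e
    refine Integrable.norm ?_
    have hC : CHom (-2) (-2) (fun x => φ x * ((N x : ℂ))⁻¹) := by
      refine ⟨?_, fun l x hl => ?_⟩
      · refine hφ.cont.mul (ContinuousOn.inv₀ ?_ ?_)
        · exact (Complex.continuous_ofReal.comp continuous_N).continuousOn
        · intro x hx
          exact_mod_cast (pN_pos hx).ne'
      · rw [hφ.hom l x hl, N_smul]
        have h1 : (conj l) ≠ 0 := (map_ne_zero _).2 hl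
        rw [Complex.ofReal_mul, ← Complex.mul_conj, mul_inv, mul_inv,
          show (-2 : ℤ) = -1 + -1 by norm_num, zpow_add₀ hl, zpow_add₀ h1, zpow_neg_one, zpow_neg_one]
        ring
    refine chom_integrable_bdd hC (by norm_num) ?_ (B := (1 + ε ^ 2) / (Real.pi ^ 3 * ε ^ 4)) ?_
    · exact (Complex.measurable_ofReal.comp (kk_meas ε y)).aestronglyMeasurable
    · intro x
      rw [Complex.norm_real, Real.norm_eq_abs, abs_of_pos (kk_pos hε x y)]
      exact kk_bdd hε x y

private theorem gs_le {ε : ℝ} (hε : 0 < ε) {y : V} (hy : N y = 1) (z : V) :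
    gs ε (z - y) ≤ ((Real.pi * ε ^ 2) ^ 3)⁻¹ * Real.exp (1 / ε ^ 2) * Real.exp (-(1 / (2 * ε ^ 2)) * N z) := by
  unfold gs
  have hpi := Real.pi_pos
  rw [mul_assoc, ← Real.exp_add]
  have h1 : N z / 2 - 1 ≤ N (z - y) := by
    rw [← hy]
    simp only [N, Fin.sum_univ_three, Complex.normSq_apply, Pi.sub_apply, Complex.sub_re, Complex.sub_im]
    nlinarith [sq_nonneg ((z 0).re - 2 * (y 0).re), sq_nonneg ((z 0).im - 2 * (y 0).im),
      sq_nonneg ((z 1).re - 2 * (y 1).re), sq_nonneg ((z 1).im - 2 * (y 1).im),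
      sq_nonneg ((z 2).re - 2 * (y 2).re), sq_nonneg ((z 2).im - 2 * (y 2).im)]
  have h2 : 0 < ε ^ 2 := by positivity
  have h3 : -N (z - y) / ε ^ 2 ≤ 1 / ε ^ 2 + -(1 / (2 * ε ^ 2)) * N z := by
    rw [show 1 / ε ^ 2 + -(1 / (2 * ε ^ 2)) * N z = (1 - N z / 2) / ε ^ 2 by field_simp; ring]
    gcongr
    linarith
  gcongr

private theorem G2_int {φ : V → ℂ} (hφ : CHom (-1) (-1) φ) {ε : ℝ} (hε : 0 < ε) {y : V} (hy : N y = 1) :
    Integrable (Function.uncurry (G2 φ ε y)) ((volume : Measure V).prod (volume : Measure ℂ)) := by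
  have hpi := Real.pi_pos
  have hm := phi_meas hφ
  have hg := gs_cont (ε := ε)
  have hNc := continuous_N
  have hmeas : Measurable (Function.uncurry (G2 φ ε y)) := by
    have h1 : Measurable fun p : V × ℂ => φ p.1 := hm.comp measurable_fst
    have h2 : Measurable fun p : V × ℂ => gs ε (p.1 - y) * N p.1 := by
      refine Continuous.measurable ?_
      fun_prop
    have hns : Measurable fun p : V × ℂ => Complex.normSq p.2 :=
      Complex.continuous_normSq.measurable.comp measurable_snd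
    have hN2 : Measurable fun p : V × ℂ => N p.1 := hNc.measurable.comp measurable_fst
    have h3 : Measurable fun p : V × ℂ => ((Complex.normSq p.2) ^ 2)⁻¹ * Real.exp (-N p.1 / Complex.normSq p.2) :=
      ((hns.pow_const 2).inv).mul (Real.measurable_exp.comp (hN2.neg.div hns))
    exact h1.mul (Complex.measurable_ofReal.comp (h2.mul h3))
  have hnorm : ∀ z s, ‖G2 φ ε y z s‖ = ‖φ z‖ * (gs ε (z - y) * N z) *
      (((Complex.normSq s) ^ 2)⁻¹ * Real.exp (-N z / Complex.normSq s)) := by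
    intro z s
    unfold G2
    have h0 : 0 ≤ gs ε (z - y) * N z * (((Complex.normSq s) ^ 2)⁻¹ * Real.exp (-N z / Complex.normSq s)) :=
      mul_nonneg (mul_nonneg (gs_pos hε (z - y)).le (N_nonneg z))
        (mul_nonneg (inv_nonneg.2 (sq_nonneg _)) (Real.exp_pos _).le)
    rw [norm_mul, Complex.norm_real, Real.norm_eq_abs, abs_of_nonneg h0]
    ring
  rw [integrable_prod_iff hmeas.aestronglyMeasurable]
  constructor
  · filter_upwards [ae_ne] with z hz
    have hi : Integrable fun s : ℂ => ((Complex.normSq s) ^ 2)⁻¹ * Real.exp (-N z / Complex.normSq s) := by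
      by_contra h
      have h0 := integral_undef h
      rw [int_inv (pN_pos hz)] at h0
      have h2 := pN_pos hz
      have h3 : 0 < Real.pi / N z := by positivity
      exact h3.ne' h0
    have : Integrable fun s : ℂ => φ z * (((gs ε (z - y) * N z *
        (((Complex.normSq s) ^ 2)⁻¹ * Real.exp (-N z / Complex.normSq s)) : ℝ)) : ℂ) :=
      ((hi.const_mul (gs ε (z - y) * N z)).ofReal).const_mul (φ z)
    exact this
  · have e : ∀ᵐ z : V, (‖φ z‖ * gs ε (z - y)) * Real.pi =
        ∫ s : ℂ, ‖Function.uncurry (G2 φ ε y) (z, s)‖ := by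
      filter_upwards [ae_ne] with z hz
      simp only [Function.uncurry, hnorm]
      rw [integral_const_mul, int_inv (pN_pos hz)]
      have := (pN_pos hz).ne'
      field_simp
    refine (Integrable.mul_const ?_ Real.pi).congr e
    obtain ⟨C, hC0, hC⟩ := phi_bound hφ
    have hI := (integrable_N_rpow (s := -1) (c := 1 / (2 * ε ^ 2)) (by norm_num) (by positivity)).const_mul
      (C * (((Real.pi * ε ^ 2) ^ 3)⁻¹ * Real.exp (1 / ε ^ 2)))
    refine hI.mono' ?_ ?_
    · exact (hm.norm.mul (hg.comp (continuous_id.sub continuous_const)).measurable).aestronglyMeasurable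
    · filter_upwards [ae_ne] with z hz
      have h1 := (gs_pos hε (z - y)).le
      rw [Real.norm_eq_abs, abs_of_nonneg (by positivity)]
      have h2 := hC z hz
      have h3 := gs_le hε hy z
      have hn := pN_pos hz
      calc ‖φ z‖ * gs ε (z - y) ≤ (C / N z) * (((Real.pi * ε ^ 2) ^ 3)⁻¹ * Real.exp (1 / ε ^ 2) *
            Real.exp (-(1 / (2 * ε ^ 2)) * N z)) := by gcongr
        _ = _ := by
          rw [Real.rpow_neg_one]
          ring

theorem pol {φ : V → ℂ} (hφ : CHom (-1) (-1) φ) {ε : ℝ} (hε : 0 < ε) {y : V} (hy : N y = 1) :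
    ∫ x, (gs ε (x - y) : ℂ) * φ x =
      ∫ x, φ x * ((kk ε (tau x y) / N x : ℝ) : ℂ) * (wt x : ℂ) := by
  have hpi := Real.pi_pos
  have a1 : ∫ x, (gs ε (x - y) : ℂ) * φ x = ∫ z, (((Real.pi)⁻¹ : ℝ) : ℂ) * ∫ s, G2 φ ε y z s := by
    refine integral_congr_ae ?_
    filter_upwards [ae_ne] with z hz
    simp only [G2]
    rw [integral_const_mul, integral_complex_ofReal, integral_const_mul, int_inv (pN_pos hz)]
    have hn : (N z : ℂ) ≠ 0 := by exact_mod_cast (pN_pos hz).ne'
    have hp : (Real.pi : ℂ) ≠ 0 := by exact_mod_cast hpi.ne'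
    push_cast
    field_simp
  have a2 : ∫ x, φ x * ((kk ε (tau x y) / N x : ℝ) : ℂ) * (wt x : ℂ) =
      ∫ x, (((Real.pi)⁻¹ : ℝ) : ℂ) * ∫ s, G1 φ ε y x s := by
    refine integral_congr_ae ?_
    filter_upwards [ae_ne] with x hx
    simp only [G1]
    rw [integral_const_mul, integral_complex_ofReal, integral_const_mul, gam hε hx hy]
    have hn : (N x : ℂ) ≠ 0 := by exact_mod_cast (pN_pos hx).ne'
    have hp : (Real.pi : ℂ) ≠ 0 := by exact_mod_cast hpi.ne'
    push_cast
    field_simp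
  rw [a1, a2, integral_const_mul, integral_const_mul]
  congr 1
  rw [integral_integral_swap (G2_int hφ hε hy), integral_integral_swap (G1_int hφ hε hy)]
  refine integral_congr_ae ?_
  have hs0 : ∀ᵐ s : ℂ, s ≠ 0 := by
    rw [ae_iff]
    simp
  filter_upwards [hs0] with s hs
  have hn : 0 < Complex.normSq s := Complex.normSq_pos.2 hs
  have hc : (Complex.normSq s : ℂ) ≠ 0 := by exact_mod_cast hn.ne'
  have e1 : ∀ x : V, G1 φ ε y x s = ((Complex.normSq s : ℂ)) ^ 3 * (fun z => G2 φ ε y z s) (s • x) := by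
    intro x
    simp only [G1, G2]
    have hz : s ^ (-1 : ℤ) * (conj s) ^ (-1 : ℤ) = ((Complex.normSq s : ℂ))⁻¹ := by
      rw [zpow_neg_one, zpow_neg_one, ← mul_inv, Complex.mul_conj]
    have hex : -(Complex.normSq s * N x) / Complex.normSq s = -N x := by
      field_simp
    rw [hφ.hom s x hs, N_smul, hz, hex]
    unfold wt
    push_cast
    field_simp
  rw [integral_congr_ae (Filter.Eventually.of_forall e1), integral_const_mul,
    int_smul hs (fun z => G2 φ ε y z s)]
  rw [← mul_assoc]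
  push_cast
  rw [mul_inv_cancel₀ (pow_ne_zero _ hc), one_mul]

end Pool.Agent.H85.DC

end S_H85_DC_Pol
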