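import Mathlib
import Pool.Agent.H24.M68.G01
import Pool.Agent.H24.M68.G03
import Pool.Agent.H24.M68.G05
import Pool.Agent.H24.M68.G06

/-! MP_6873ef_an: this file joins several modules to save build time. -/

section S_H24_CU_CH

/-!
# Row CH (existence of the chart)

PROOF.  `a = vec y₀`, `b = conj (α y₀)`.  The vectors `y₀, a, b` are linearly independent:
`det (y₀, a, b) = ∑ (y₀ × a)_j b_j = ∑ α_j conj α_j = nsq (α y₀) ≠ 0`.  Let `D = nsq (α y₀)` and the
linear forms (dual basis) `ℓ0 x = det(x,a,b)/D`, `ℓ1 x = det(y₀,x,b)/D`, `ℓ2 x = det(y₀,a,x)/D`;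
`x = ℓ0 x • y₀ + ℓ1 x • a + ℓ2 x • b` (Cramer).  `psi p = y₀ + p_1 a + p_2 b`, `ℓ0 (psi p) = 1`,
`ℓ1 (psi p) = p_1`, `ℓ2 (psi p) = p_2`; `psi p ≠ 0`.
`c₀ p = ℓ0 (vec (psi p))`, `X p = (ℓ1 (vec (psi p)) - p_1 c₀ p, ℓ2 (vec (psi p)) - p_2 c₀ p)`:
polynomial, hence complex differentiable; `vec` holds by the expansion in the basis; `X 0 = (1,0)`
because `vec (psi 0) = a`.
`reg`: `p ↦ α (psi p)` is continuous and nonzero at `p = 0` (`psi 0 = y₀`): choose `r`.
MEASURE.  `π y = (ℓ1 y / ℓ0 y, ℓ2 y / ℓ0 y)`, measurable.  `C = cone y₀ (ball 0 r)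
= {y | nsq y = 1, ℓ0 y ≠ 0, π y ∈ ball 0 r}` (if `y = t • psi p` then `ℓ0 y = t`, `π y = p`),
measurable.  `w y = normSq (ℓ0 y) ^ deg / normSq (ℓ0 y) / nsq (α y)`;
`M = Measure.map π ((μ.restrict C).withDensity (fun y => ENNReal.ofReal (w y)))`.
For `E ⊆ ball 0 r` measurable, `cone E = C ∩ π⁻¹ E`.  For `y ∈ C`, `y = ℓ0 y • psi (π y)`, so
`Φ y = normSq (ℓ0 y)^deg / normSq (ℓ0 y) Φ (psi (π y))`, i.e. `Φ y / nsq (α y) = w y Φ (psi (π y))`; now use
`lintegral_map`, `lintegral_withDensity_eq_lintegral_mul`, respectively `integral_map`,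
`integral_withDensity_eq_integral_toReal_smul` (`Φ ∘ psi` is measurable).
Finite: on `C`, `ℓ0 y` is bounded above and below (`1 = nsq y = normSq (ℓ0 y) nsq (psi (π y))` and
`nsq (psi p)` is bounded above and below on the compact closed ball) and `nsq (α y) =
normSq (ℓ0 y)^(deg+1) nsq (α (psi (π y)))` is bounded below by `reg` and compactness; so `w` is bounded.
`compare`: apply `transfer` (lintegral part) with `Φ y = nsq (α y) / nsq y ^ 2` (weight `deg + 1 - 2`):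
on the sphere `Φ / nsq α = 1` off `{α = 0}`, so `μ (cone E) = ∫⁻_E ofReal (nsq (α (psi p)) / nsq (psi p)^2) dM`
(the cone over the ball does not meet `{α = 0}`), and the integrand is between two positive constants on
the closed ball (compactness, `reg`).
`cone_of_tau`: write `y = c y₀ + v`, `v` orthogonal to `y₀` (`c = herm y y₀`), `normSq c + nsq v = 1`,
`tau y₀ y = nsq v < s^2`, so `|c| >= 1/2` for `s <= 1/2`; `ℓ1 y = ℓ1 v`, `ℓ2 y = ℓ2 v` are `O(s)`,
`ℓ0 y = c + ℓ0 v` has modulus `>= 1/4` for small `s`; hence `π y` has norm `< K s` and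
`y = ℓ0 y • psi (π y)`.
-/

namespace Pool.Agent.H24.CU

open MeasureTheory
open scoped ComplexConjugate ContDiff

theorem CH_eval_diff (P : MvPolynomial (Fin 3) ℂ) :
    Differentiable ℂ (fun x : V => MvPolynomial.eval x P) := by
  induction P using MvPolynomial.induction_on with
  | C a => simp
  | add p q hp hq =>
    simp only [map_add]
    exact hp.add hq
  | mul_X p i hp =>
    have h : Differentiable ℂ (fun x : V => x i) := differentiable_apply i
    simp only [map_mul, MvPolynomial.eval_X]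
    exact hp.mul h

theorem CH_vec_diff (𝓕 : Foliation) : Differentiable ℂ 𝓕.vec :=
  differentiable_pi.2 fun j => CH_eval_diff (𝓕.F j)

theorem CH_vec_cont (𝓕 : Foliation) : Continuous 𝓕.vec := (CH_vec_diff 𝓕).continuous

theorem CH_alpha_cont (𝓕 : Foliation) : Continuous 𝓕.alpha := by
  obtain ⟨Q, -, hQ, -⟩ := exists_alpha_poly 𝓕
  refine continuous_pi fun j => ?_
  have : (fun x => 𝓕.alpha x j) = fun x : V => MvPolynomial.eval x (Q j) := funext fun x => hQ x j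
  rw [this]
  exact (CH_eval_diff (Q j)).continuous

theorem CH_nsq_cont : Continuous nsq := by
  unfold nsq
  exact continuous_finsetSum _ fun j _ => Complex.continuous_normSq.comp (continuous_apply j)

theorem CH_psi_diff (𝓕 : Foliation) (y₀ : V) : Differentiable ℂ (𝓕.psi y₀) := by
  unfold Foliation.psi
  exact ((differentiable_const y₀).add (differentiable_fst.smul_const _)).add
    (differentiable_snd.smul_const _)

theorem CH_psi_zero (𝓕 : Foliation) (y₀ : V) : 𝓕.psi y₀ 0 = y₀ := by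
  simp [Foliation.psi]

/-- the dual basis of `y₀, vec y₀, conj (alpha y₀)` -/
structure CH_Dual (𝓕 : Foliation) (y₀ : V) (l : Fin 3 → V →L[ℂ] ℂ) : Prop where
  exp : ∀ x, x = l 0 x • y₀ + l 1 x • 𝓕.vec y₀ + l 2 x • (fun j => conj (𝓕.alpha y₀ j))
  l00 : l 0 y₀ = 1
  l01 : l 0 (𝓕.vec y₀) = 0
  l02 : l 0 (fun j => conj (𝓕.alpha y₀ j)) = 0
  l10 : l 1 y₀ = 0
  l11 : l 1 (𝓕.vec y₀) = 1
  l12 : l 1 (fun j => conj (𝓕.alpha y₀ j)) = 0
  l20 : l 2 y₀ = 0
  l21 : l 2 (𝓕.vec y₀) = 0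
  l22 : l 2 (fun j => conj (𝓕.alpha y₀ j)) = 1

theorem CH_dual (𝓕 : Foliation) (y₀ : V) (h0 : 𝓕.alpha y₀ ≠ 0) : ∃ l, CH_Dual 𝓕 y₀ l := by
  obtain ⟨b, hb⟩ : ∃ b : V, b = fun j => conj (𝓕.alpha y₀ j) := ⟨_, rfl⟩
  obtain ⟨a, ha⟩ : ∃ a : V, a = 𝓕.vec y₀ := ⟨_, rfl⟩
  have hdet : (Matrix.of ![y₀, a, b]).det ≠ 0 := by
    have e : (Matrix.of ![y₀, a, b]).det = ∑ j, 𝓕.alpha y₀ j * b j := by
      have hα : 𝓕.alpha y₀ = crossProduct y₀ a := by rw [ha]; rfl
      rw [hα, Matrix.det_fin_three, Fin.sum_univ_three, cross_apply]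
      simp only [Matrix.of_apply, Matrix.cons_val_zero, Matrix.cons_val_one, Matrix.cons_val]
      ring
    have e2 : ∑ j, 𝓕.alpha y₀ j * b j = (nsq (𝓕.alpha y₀) : ℂ) := by
      unfold nsq
      push_cast
      refine Finset.sum_congr rfl fun i _ => ?_
      rw [hb, Complex.mul_conj]
    rw [e, e2]
    exact_mod_cast (nsq_pos h0).ne'
  have hli : LinearIndependent ℂ (![y₀, a, b] : Fin 3 → V) :=
    Matrix.linearIndependent_rows_of_det_ne_zero hdet
  obtain ⟨bas, hbas⟩ : ∃ bas : Module.Basis (Fin 3) ℂ V, ⇑bas = ![y₀, a, b] :=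
    ⟨basisOfLinearIndependentOfCardEqFinrank hli (by simp),
      coe_basisOfLinearIndependentOfCardEqFinrank hli (by simp)⟩
  have b0 : bas 0 = y₀ := by rw [hbas]; rfl
  have b1 : bas 1 = a := by rw [hbas]; rfl
  have b2 : bas 2 = b := by rw [hbas]; rfl
  have hc : ∀ i j, bas.coord i (bas j) = if i = j then 1 else 0 := by
    intro i j
    rw [Module.Basis.coord_apply, Module.Basis.repr_self, Finsupp.single_apply]
    by_cases h : i = j
    · simp [h]
    · simp [h, Ne.symm h]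
  refine ⟨fun i => LinearMap.toContinuousLinearMap (bas.coord i), ?_, ?_, ?_, ?_, ?_, ?_, ?_, ?_, ?_, ?_⟩
  · intro x
    have h := bas.sum_repr x
    rw [Fin.sum_univ_three, b0, b1, b2] at h
    rw [← ha, ← hb]
    exact h.symm
  · exact (by rw [← b0]; exact hc 0 0 : bas.coord 0 y₀ = 1)
  · rw [← ha]
    exact (by rw [← b1]; exact hc 0 1 : bas.coord 0 a = 0)
  · rw [← hb]
    exact (by rw [← b2]; exact hc 0 2 : bas.coord 0 b = 0)
  · exact (by rw [← b0]; exact hc 1 0 : bas.coord 1 y₀ = 0)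
  · rw [← ha]
    exact (by rw [← b1]; exact hc 1 1 : bas.coord 1 a = 1)
  · rw [← hb]
    exact (by rw [← b2]; exact hc 1 2 : bas.coord 1 b = 0)
  · exact (by rw [← b0]; exact hc 2 0 : bas.coord 2 y₀ = 0)
  · rw [← ha]
    exact (by rw [← b1]; exact hc 2 1 : bas.coord 2 a = 0)
  · rw [← hb]
    exact (by rw [← b2]; exact hc 2 2 : bas.coord 2 b = 1)

/-- the affine coordinates of a vector -/
noncomputable def CH_pi (l : Fin 3 → V →L[ℂ] ℂ) (y : V) : ℂ × ℂ := (l 1 y / l 0 y, l 2 y / l 0 y)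

section dual

variable {𝓕 : Foliation} {y₀ : V} {l : Fin 3 → V →L[ℂ] ℂ}

theorem CH_Dual.psi (hl : CH_Dual 𝓕 y₀ l) (p : ℂ × ℂ) :
    l 0 (𝓕.psi y₀ p) = 1 ∧ l 1 (𝓕.psi y₀ p) = p.1 ∧ l 2 (𝓕.psi y₀ p) = p.2 := by
  unfold Foliation.psi
  refine ⟨?_, ?_, ?_⟩
  · rw [map_add, map_add, map_smul, map_smul, hl.l00, hl.l01, hl.l02]; simp
  · rw [map_add, map_add, map_smul, map_smul, hl.l10, hl.l11, hl.l12]; simp
  · rw [map_add, map_add, map_smul, map_smul, hl.l20, hl.l21, hl.l22]; simp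

theorem CH_Dual.rec' (hl : CH_Dual 𝓕 y₀ l) {y : V} (h : l 0 y ≠ 0) :
    y = l 0 y • 𝓕.psi y₀ (CH_pi l y) := by
  conv_lhs => rw [hl.exp y]
  unfold Foliation.psi CH_pi
  simp only [smul_add, smul_smul]
  rw [mul_div_cancel₀ _ h, mul_div_cancel₀ _ h]

theorem CH_Dual.mem_cone (hl : CH_Dual 𝓕 y₀ l) (E : Set (ℂ × ℂ)) (y : V) :
    y ∈ 𝓕.cone y₀ E ↔ nsq y = 1 ∧ l 0 y ≠ 0 ∧ CH_pi l y ∈ E := by
  constructor
  · rintro ⟨h1, p, hp, t, ht, rfl⟩
    obtain ⟨h2, h3, h4⟩ := hl.psi p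
    have h5 : l 0 (t • 𝓕.psi y₀ p) = t := by rw [map_smul, h2, smul_eq_mul, mul_one]
    refine ⟨h1, by rw [h5]; exact ht, ?_⟩
    have h6 : CH_pi l (t • 𝓕.psi y₀ p) = p := by
      unfold CH_pi
      rw [h5, map_smul, map_smul, h3, h4, smul_eq_mul, smul_eq_mul, mul_div_cancel_left₀ _ ht,
        mul_div_cancel_left₀ _ ht]
    rw [h6]
    exact hp
  · rintro ⟨h1, h2, h3⟩
    exact ⟨h1, CH_pi l y, h3, l 0 y, h2, hl.rec' h2⟩

theorem CH_pi_meas (l : Fin 3 → V →L[ℂ] ℂ) : Measurable (CH_pi l) := by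
  unfold CH_pi
  exact (((l 1).continuous.measurable).div ((l 0).continuous.measurable)).prodMk
    (((l 2).continuous.measurable).div ((l 0).continuous.measurable))

theorem CH_Dual.cone_meas (hl : CH_Dual 𝓕 y₀ l) {E : Set (ℂ × ℂ)} (hE : MeasurableSet E) :
    MeasurableSet (𝓕.cone y₀ E) := by
  have h : 𝓕.cone y₀ E = {y | nsq y = 1} ∩ ({y | l 0 y ≠ 0} ∩ CH_pi l ⁻¹' E) := by
    ext y
    exact hl.mem_cone E y
  rw [h]
  refine MeasurableSet.inter ?_ (MeasurableSet.inter ?_ (CH_pi_meas l hE))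
  · exact (isClosed_eq CH_nsq_cont continuous_const).measurableSet
  · exact (isOpen_ne_fun (l 0).continuous continuous_const).measurableSet

/-- the density -/
noncomputable def CH_w (𝓕 : Foliation) (l : Fin 3 → V →L[ℂ] ℂ) (y : V) : ℝ :=
  Complex.normSq (l 0 y) ^ 𝓕.deg / Complex.normSq (l 0 y) / nsq (𝓕.alpha y)

theorem CH_w_nonneg (𝓕 : Foliation) (l : Fin 3 → V →L[ℂ] ℂ) (y : V) : 0 ≤ CH_w 𝓕 l y := by
  unfold CH_w
  exact div_nonneg (div_nonneg (pow_nonneg (Complex.normSq_nonneg _) _) (Complex.normSq_nonneg _))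
    (nsq_nonneg _)

theorem CH_w_meas (𝓕 : Foliation) (l : Fin 3 → V →L[ℂ] ℂ) : Measurable (CH_w 𝓕 l) := by
  unfold CH_w
  have h1 : Measurable fun y : V => Complex.normSq (l 0 y) :=
    (Complex.continuous_normSq.comp (l 0).continuous).measurable
  have h2 : Measurable fun y : V => nsq (𝓕.alpha y) := (CH_nsq_cont.comp (CH_alpha_cont 𝓕)).measurable
  exact ((h1.pow_const _).div h1).div h2

theorem CH_Dual.w_eq (hl : CH_Dual 𝓕 y₀ l) {y : V} (h1 : nsq y = 1) (h0 : l 0 y ≠ 0)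
    (hα : 𝓕.alpha (𝓕.psi y₀ (CH_pi l y)) ≠ 0) :
    CH_w 𝓕 l y = nsq (𝓕.psi y₀ (CH_pi l y)) ^ 2 / nsq (𝓕.alpha (𝓕.psi y₀ (CH_pi l y))) := by
  have hT : Complex.normSq (l 0 y) ≠ 0 := fun h => h0 (Complex.normSq_eq_zero.1 h)
  have hA : nsq (𝓕.alpha (𝓕.psi y₀ (CH_pi l y))) ≠ 0 := (nsq_pos hα).ne'
  have e1 : nsq y = Complex.normSq (l 0 y) * nsq (𝓕.psi y₀ (CH_pi l y)) := by
    conv_lhs => rw [hl.rec' h0]
    rw [nsq_smul]
  have e2 : nsq (𝓕.alpha y) =
      Complex.normSq (l 0 y) ^ (𝓕.deg + 1) * nsq (𝓕.alpha (𝓕.psi y₀ (CH_pi l y))) := by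
    conv_lhs => rw [hl.rec' h0]
    rw [alpha_smul, nsq_smul, map_pow]
  have e3 : nsq (𝓕.psi y₀ (CH_pi l y)) = (Complex.normSq (l 0 y))⁻¹ := by
    rw [e1] at h1
    exact eq_inv_of_mul_eq_one_right h1
  unfold CH_w
  rw [e2, e3]
  field_simp
  ring

theorem CH_Dual.phi_eq (hl : CH_Dual 𝓕 y₀ l) {Φ : V → ℝ}
    (hΦ : ∀ (t : ℂ) (y : V), t ≠ 0 → y ≠ 0 →
      Φ (t • y) = Complex.normSq t ^ 𝓕.deg / Complex.normSq t * Φ y)
    {y : V} (h0 : l 0 y ≠ 0) :
    Φ y / nsq (𝓕.alpha y) = CH_w 𝓕 l y * Φ (𝓕.psi y₀ (CH_pi l y)) := by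
  have hne : 𝓕.psi y₀ (CH_pi l y) ≠ 0 := by
    intro h
    have := (hl.psi (CH_pi l y)).1
    rw [h, map_zero] at this
    exact zero_ne_one this
  have e := hΦ (l 0 y) _ h0 hne
  rw [← hl.rec' h0] at e
  rw [e]
  unfold CH_w
  ring

end dual

theorem exists_chart (𝓕 : Foliation) (μ : Measure V) [IsFiniteMeasure μ] (y₀ : V)
    (h0 : 𝓕.alpha y₀ ≠ 0) : ∃ X c₀ r M, Chart 𝓕 μ y₀ X c₀ r M := by
  obtain ⟨l, hl⟩ := CH_dual 𝓕 y₀ h0
  have hψd := CH_psi_diff 𝓕 y₀
  have hψc : Continuous (𝓕.psi y₀) := hψd.continuous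
  have hvd : Differentiable ℂ fun p => 𝓕.vec (𝓕.psi y₀ p) := (CH_vec_diff 𝓕).comp hψd
  have hl0 : Differentiable ℂ fun p => l 0 (𝓕.vec (𝓕.psi y₀ p)) := (l 0).differentiable.comp hvd
  have hl1 : Differentiable ℂ fun p => l 1 (𝓕.vec (𝓕.psi y₀ p)) := (l 1).differentiable.comp hvd
  have hl2 : Differentiable ℂ fun p => l 2 (𝓕.vec (𝓕.psi y₀ p)) := (l 2).differentiable.comp hvd
  -- the radius
  have hac : Continuous fun p => 𝓕.alpha (𝓕.psi y₀ p) := (CH_alpha_cont 𝓕).comp hψc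
  have hr : ∃ r : ℝ, 0 < r ∧ ∀ p ∈ Metric.closedBall (0 : ℂ × ℂ) r, 𝓕.alpha (𝓕.psi y₀ p) ≠ 0 := by
    have h1 : ∀ᶠ p in nhds (0 : ℂ × ℂ), 𝓕.alpha (𝓕.psi y₀ p) ≠ 0 := by
      refine hac.continuousAt.eventually_ne ?_
      rw [CH_psi_zero]
      exact h0
    obtain ⟨r, hr0, hr⟩ := Metric.nhds_basis_closedBall.eventually_iff.1 h1
    exact ⟨r, hr0, fun p hp => hr hp⟩
  obtain ⟨r, hr0, hr⟩ := hr
  set C := 𝓕.cone y₀ (Metric.ball 0 r) with hC
  have hCm : MeasurableSet C := hl.cone_meas Metric.isOpen_ball.measurableSet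
  have hwm : Measurable fun y => ENNReal.ofReal (CH_w 𝓕 l y) := (CH_w_meas 𝓕 l).ennreal_ofReal
  set ν := (μ.restrict C).withDensity (fun y => ENNReal.ofReal (CH_w 𝓕 l y)) with hν
  have hπ := CH_pi_meas l
  refine ⟨fun p => (l 1 (𝓕.vec (𝓕.psi y₀ p)) - p.1 * l 0 (𝓕.vec (𝓕.psi y₀ p)),
    l 2 (𝓕.vec (𝓕.psi y₀ p)) - p.2 * l 0 (𝓕.vec (𝓕.psi y₀ p))),
    fun p => l 0 (𝓕.vec (𝓕.psi y₀ p)), r, Measure.map (CH_pi l) ν, ?_⟩
  have hcone : ∀ E : Set (ℂ × ℂ), E ⊆ Metric.ball 0 r → CH_pi l ⁻¹' E ∩ C = 𝓕.cone y₀ E := by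
    intro E hE
    ext y
    rw [Set.mem_inter_iff, hC, hl.mem_cone, hl.mem_cone, Set.mem_preimage]
    constructor
    · rintro ⟨h1, h2, h3, -⟩
      exact ⟨h2, h3, h1⟩
    · rintro ⟨h1, h2, h3⟩
      exact ⟨h3, h1, h2, hE h3⟩
  refine ⟨hr0, ?_, hl0, ?_, ?_, ?_, hr, ?_, ?_⟩
  · exact (hl1.sub (differentiable_fst.mul hl0)).prodMk (hl2.sub (differentiable_snd.mul hl0))
  · show (l 1 (𝓕.vec (𝓕.psi y₀ 0)) - (0 : ℂ × ℂ).1 * l 0 (𝓕.vec (𝓕.psi y₀ 0)),
      l 2 (𝓕.vec (𝓕.psi y₀ 0)) - (0 : ℂ × ℂ).2 * l 0 (𝓕.vec (𝓕.psi y₀ 0))) = ((1, 0) : ℂ × ℂ)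
    rw [CH_psi_zero, hl.l11, hl.l21, hl.l01]
    simp
  · -- finiteness
    refine ⟨?_⟩
    rw [Measure.map_apply hπ MeasurableSet.univ, Set.preimage_univ, hν, withDensity_apply _ MeasurableSet.univ,
      Measure.restrict_univ]
    have hcont : ContinuousOn (fun p => nsq (𝓕.psi y₀ p) ^ 2 / nsq (𝓕.alpha (𝓕.psi y₀ p)))
        (Metric.closedBall (0 : ℂ × ℂ) r) := by
      refine ContinuousOn.div ((CH_nsq_cont.comp hψc).pow 2).continuousOn
        (CH_nsq_cont.comp hac).continuousOn ?_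
      intro p hp
      exact (nsq_pos (hr p hp)).ne'
    obtain ⟨W, hW⟩ := (isCompact_closedBall (0 : ℂ × ℂ) r).exists_bound_of_continuousOn hcont
    have hle : ∫⁻ y in C, ENNReal.ofReal (CH_w 𝓕 l y) ∂μ ≤ ∫⁻ _ in C, ENNReal.ofReal W ∂μ := by
      refine setLIntegral_mono' hCm ?_
      intro y hy
      apply ENNReal.ofReal_le_ofReal
      rw [hC, hl.mem_cone] at hy
      obtain ⟨h1, h2, h3⟩ := hy
      have h4 := Metric.ball_subset_closedBall h3
      rw [hl.w_eq h1 h2 (hr _ h4)]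
      exact (Real.le_norm_self _).trans (hW _ h4)
    refine lt_of_le_of_lt hle ?_
    rw [setLIntegral_const]
    exact ENNReal.mul_lt_top ENNReal.ofReal_lt_top (measure_lt_top _ _)
  · intro p h
    have := (hl.psi p).1
    rw [h, map_zero] at this
    exact zero_ne_one this
  · intro p
    conv_lhs => rw [hl.exp (𝓕.vec (𝓕.psi y₀ p))]
    show _ = l 0 (𝓕.vec (𝓕.psi y₀ p)) • (y₀ + p.1 • 𝓕.vec y₀ + p.2 • (fun j => conj (𝓕.alpha y₀ j))) +
      (l 1 (𝓕.vec (𝓕.psi y₀ p)) - p.1 * l 0 (𝓕.vec (𝓕.psi y₀ p))) • 𝓕.vec y₀ +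
      (l 2 (𝓕.vec (𝓕.psi y₀ p)) - p.2 * l 0 (𝓕.vec (𝓕.psi y₀ p))) • (fun j => conj (𝓕.alpha y₀ j))
    funext j
    simp only [Pi.add_apply, Pi.smul_apply, smul_eq_mul]
    ring
  · intro Φ hΦm hΦ E hE hEr
    have hcm : MeasurableSet (𝓕.cone y₀ E) := hl.cone_meas hE
    constructor
    · have hm : Measurable fun p => Φ (𝓕.psi y₀ p) := hΦm.comp hψc.measurable
      rw [setIntegral_map hE hm.aestronglyMeasurable hπ.aemeasurable, hν,
        setIntegral_withDensity_eq_setIntegral_toReal_smul hwm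
          (Filter.Eventually.of_forall fun _ => ENNReal.ofReal_lt_top) _ (hπ hE),
        Measure.restrict_restrict (hπ hE), hcone E hEr]
      refine setIntegral_congr_fun hcm ?_
      intro y hy
      obtain ⟨h1, h2, h3⟩ := (hl.mem_cone E y).1 hy
      show Φ y / nsq (𝓕.alpha y) = (ENNReal.ofReal (CH_w 𝓕 l y)).toReal • Φ (𝓕.psi y₀ (CH_pi l y))
      rw [ENNReal.toReal_ofReal (CH_w_nonneg 𝓕 l y), smul_eq_mul]
      exact hl.phi_eq hΦ h2
    · have hm : Measurable fun p => ENNReal.ofReal (Φ (𝓕.psi y₀ p)) :=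
        (hΦm.comp hψc.measurable).ennreal_ofReal
      have hm2 : Measurable fun y => ENNReal.ofReal (Φ (𝓕.psi y₀ (CH_pi l y))) := hm.comp hπ
      rw [setLIntegral_map hE hm hπ, hν,
        setLIntegral_withDensity_eq_setLIntegral_mul _ hwm hm2 (hπ hE),
        Measure.restrict_restrict (hπ hE), hcone E hEr]
      refine setLIntegral_congr_fun hcm ?_
      intro y hy
      obtain ⟨h1, h2, h3⟩ := (hl.mem_cone E y).1 hy
      show ENNReal.ofReal (Φ y / nsq (𝓕.alpha y)) =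
        ENNReal.ofReal (CH_w 𝓕 l y) * ENNReal.ofReal (Φ (𝓕.psi y₀ (CH_pi l y)))
      rw [← ENNReal.ofReal_mul (CH_w_nonneg 𝓕 l y), hl.phi_eq hΦ h2]

theorem Chart.compare {𝓕 : Foliation} {μ : Measure V} [IsFiniteMeasure μ] {y₀ : V}
    {X : ℂ × ℂ → ℂ × ℂ} {c₀ : ℂ × ℂ → ℂ} {r : ℝ} {M : Measure (ℂ × ℂ)}
    (h : Chart 𝓕 μ y₀ X c₀ r M) :
    ∃ c C : ℝ, 0 < c ∧ 0 < C ∧ ∀ E : Set (ℂ × ℂ), MeasurableSet E → E ⊆ Metric.ball 0 r →
      c * (M E).toReal ≤ (μ (𝓕.cone y₀ E)).toReal ∧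
      (μ (𝓕.cone y₀ E)).toReal ≤ C * (M E).toReal := by
  have h0 : 𝓕.alpha y₀ ≠ 0 := by
    have := h.reg 0 (Metric.mem_closedBall_self h.r_pos.le)
    rwa [CH_psi_zero] at this
  obtain ⟨l, hl⟩ := CH_dual 𝓕 y₀ h0
  have hfin := h.fin
  have hψc : Continuous (𝓕.psi y₀) := (CH_psi_diff 𝓕 y₀).continuous
  have hac : Continuous fun p => 𝓕.alpha (𝓕.psi y₀ p) := (CH_alpha_cont 𝓕).comp hψc
  have hN : ∀ p, 0 < nsq (𝓕.psi y₀ p) := fun p => nsq_pos (h.psi_ne p)
  set Φ : V → ℝ := fun y => nsq (𝓕.alpha y) / nsq y ^ 2 with hΦ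
  have hg : ContinuousOn (fun p => Φ (𝓕.psi y₀ p)) (Metric.closedBall (0 : ℂ × ℂ) r) := by
    refine ContinuousOn.div (CH_nsq_cont.comp hac).continuousOn
      ((CH_nsq_cont.comp hψc).pow 2).continuousOn ?_
    intro p _
    exact pow_ne_zero 2 (hN p).ne'
  have hpos : ∀ p ∈ Metric.closedBall (0 : ℂ × ℂ) r, 0 < Φ (𝓕.psi y₀ p) := fun p hp =>
    div_pos (nsq_pos (h.reg p hp)) (pow_pos (hN p) 2)
  have hcomp := isCompact_closedBall (0 : ℂ × ℂ) r
  have hne : (Metric.closedBall (0 : ℂ × ℂ) r).Nonempty := ⟨0, Metric.mem_closedBall_self h.r_pos.le⟩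
  obtain ⟨p₁, hp₁, hmin⟩ := hcomp.exists_isMinOn hne hg
  obtain ⟨p₂, hp₂, hmax⟩ := hcomp.exists_isMaxOn hne hg
  refine ⟨Φ (𝓕.psi y₀ p₁), Φ (𝓕.psi y₀ p₂), hpos _ hp₁, hpos _ hp₂, ?_⟩
  intro E hE hEr
  have hΦm : Measurable Φ :=
    (CH_nsq_cont.comp (CH_alpha_cont 𝓕)).measurable.div (CH_nsq_cont.measurable.pow_const 2)
  have hΦh : ∀ (t : ℂ) (y : V), t ≠ 0 → y ≠ 0 →
      Φ (t • y) = Complex.normSq t ^ 𝓕.deg / Complex.normSq t * Φ y := by
    intro t y ht hy
    have hT : Complex.normSq t ≠ 0 := fun h => ht (Complex.normSq_eq_zero.1 h)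
    have hy' : nsq y ≠ 0 := (nsq_pos hy).ne'
    show nsq (𝓕.alpha (t • y)) / nsq (t • y) ^ 2 =
      Complex.normSq t ^ 𝓕.deg / Complex.normSq t * (nsq (𝓕.alpha y) / nsq y ^ 2)
    rw [alpha_smul, nsq_smul, nsq_smul, map_pow]
    field_simp
    ring
  have ht := (h.transfer Φ hΦm hΦh E hE hEr).2
  have hl1 : ∫⁻ y in 𝓕.cone y₀ E, ENNReal.ofReal (Φ y / nsq (𝓕.alpha y)) ∂μ =
      μ (𝓕.cone y₀ E) := by
    have e : ∫⁻ y in 𝓕.cone y₀ E, ENNReal.ofReal (Φ y / nsq (𝓕.alpha y)) ∂μ =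
        ∫⁻ _ in 𝓕.cone y₀ E, 1 ∂μ := by
      refine setLIntegral_congr_fun (hl.cone_meas hE) ?_
      intro y hy
      obtain ⟨h1, h2, h3⟩ := (hl.mem_cone E y).1 hy
      have h4 : 𝓕.alpha y ≠ 0 := by
        rw [hl.rec' h2, alpha_smul]
        exact smul_ne_zero (pow_ne_zero _ h2)
          (h.reg _ (Metric.ball_subset_closedBall (hEr h3)))
      have h5 : nsq (𝓕.alpha y) ≠ 0 := (nsq_pos h4).ne'
      show ENNReal.ofReal (nsq (𝓕.alpha y) / nsq y ^ 2 / nsq (𝓕.alpha y)) = 1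
      rw [h1]
      have : nsq (𝓕.alpha y) / 1 ^ 2 / nsq (𝓕.alpha y) = 1 := by
        rw [one_pow, div_one, div_self h5]
      rw [this, ENNReal.ofReal_one]
    rw [e, setLIntegral_one]
  rw [hl1] at ht
  have hlow : ENNReal.ofReal (Φ (𝓕.psi y₀ p₁)) * M E ≤ μ (𝓕.cone y₀ E) := by
    rw [ht, ← setLIntegral_const]
    refine setLIntegral_mono' hE fun p hp => ?_
    exact ENNReal.ofReal_le_ofReal (hmin (Metric.ball_subset_closedBall (hEr hp)))
  have hupp : μ (𝓕.cone y₀ E) ≤ ENNReal.ofReal (Φ (𝓕.psi y₀ p₂)) * M E := by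
    rw [ht, ← setLIntegral_const]
    refine setLIntegral_mono' hE fun p hp => ?_
    exact ENNReal.ofReal_le_ofReal (hmax (Metric.ball_subset_closedBall (hEr hp)))
  constructor
  · have h1 := ENNReal.toReal_mono (measure_ne_top μ _) hlow
    rwa [ENNReal.toReal_mul, ENNReal.toReal_ofReal (hpos _ hp₁).le] at h1
  · have h1 := ENNReal.toReal_mono
      (ENNReal.mul_ne_top ENNReal.ofReal_ne_top (measure_ne_top M E)) hupp
    rwa [ENNReal.toReal_mul, ENNReal.toReal_ofReal (hpos _ hp₂).le] at h1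

theorem CH_norm_le (v : V) : ‖v‖ ≤ Real.sqrt (nsq v) := by
  refine (pi_norm_le_iff_of_nonneg (Real.sqrt_nonneg _)).2 fun j => ?_
  apply Real.le_sqrt_of_sq_le
  rw [← Complex.normSq_eq_norm_sq]
  exact Finset.single_le_sum (f := fun j => Complex.normSq (v j))
    (fun i _ => Complex.normSq_nonneg _) (Finset.mem_univ j)

/-- Points close to `y₀` in the Fubini-Study distance lie over a small bidisc. -/
theorem cone_of_tau (𝓕 : Foliation) (y₀ : V) (h1 : nsq y₀ = 1) (h0 : 𝓕.alpha y₀ ≠ 0) :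
    ∃ K s₀ : ℝ, 0 < K ∧ 0 < s₀ ∧ ∀ s : ℝ, 0 < s → s < s₀ → ∀ y : V, nsq y = 1 →
      tau y₀ y < s ^ 2 → y ∈ 𝓕.cone y₀ (Metric.ball 0 (K * s)) := by
  obtain ⟨l, hl⟩ := CH_dual 𝓕 y₀ h0
  set L : ℝ := ‖l 0‖ + ‖l 1‖ + ‖l 2‖ + 1 with hL
  have n0 := norm_nonneg (l 0)
  have n1 := norm_nonneg (l 1)
  have n2 := norm_nonneg (l 2)
  have hL1 : 1 ≤ L := by linarith
  refine ⟨4 * L, 1 / (4 * L), by linarith, by positivity, ?_⟩
  intro s hs hs0 y hy hτ
  rw [lt_div_iff₀ (by positivity)] at hs0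
  have hLs : L * s < 1 / 4 := by linarith
  have hs4 : s < 1 / 4 := by nlinarith
  obtain ⟨c, hc⟩ : ∃ c : ℂ, c = herm y y₀ := ⟨_, rfl⟩
  obtain ⟨v, hv⟩ : ∃ v : V, v = y - c • y₀ := ⟨_, rfl⟩
  have hyv : y = c • y₀ + v := by rw [hv]; simp
  have hcc : Complex.normSq c = Complex.normSq (herm y₀ y) := by
    have : herm y₀ y = conj c := by
      rw [hc]
      unfold herm
      rw [map_sum]
      refine Finset.sum_congr rfl fun j _ => ?_
      rw [map_mul, Complex.conj_conj, mul_comm]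
    rw [this, Complex.normSq_conj]
  have hnv : nsq v = 1 - Complex.normSq c := by
    have e1 : (nsq v : ℂ) = (nsq y : ℂ) - c * conj (herm y y₀) - conj c * herm y y₀ +
        c * conj c * (nsq y₀ : ℂ) := by
      rw [hv]
      unfold nsq herm
      push_cast
      simp only [Fin.sum_univ_three, Pi.sub_apply, Pi.smul_apply, smul_eq_mul,
        Complex.normSq_eq_conj_mul_self, map_sub, map_add, map_mul, Complex.conj_conj]
      ring
    rw [← hc, hy, h1] at e1
    have e2 : (nsq v : ℂ) = ((1 - Complex.normSq c : ℝ) : ℂ) := by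
      rw [e1]
      push_cast
      rw [← Complex.mul_conj]
      ring
    exact_mod_cast e2
  have hnv2 : nsq v < s ^ 2 := by
    unfold tau at hτ
    rw [h1, hy, ← hcc] at hτ
    rw [hnv]
    simpa using hτ
  have hvn : ‖v‖ < s := by
    refine lt_of_le_of_lt (CH_norm_le v) ?_
    rw [Real.sqrt_lt' hs]
    exact hnv2
  have hb : ∀ i, ‖l i‖ ≤ L → ‖l i v‖ ≤ L * s := by
    intro i hi
    refine ((l i).le_opNorm v).trans ?_
    exact mul_le_mul hi hvn.le (norm_nonneg _) (by linarith)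
  have hb0 := hb 0 (by linarith)
  have hb1 : ‖l 1 v‖ < L * s := by
    refine lt_of_le_of_lt ((l 1).le_opNorm v) ?_
    have h2 : ‖l 1‖ * ‖v‖ ≤ ‖l 1‖ * s := mul_le_mul_of_nonneg_left hvn.le n1
    nlinarith
  have hb2 : ‖l 2 v‖ < L * s := by
    refine lt_of_le_of_lt ((l 2).le_opNorm v) ?_
    have h2 : ‖l 2‖ * ‖v‖ ≤ ‖l 2‖ * s := mul_le_mul_of_nonneg_left hvn.le n2
    nlinarith
  have e0 : l 0 y = c + l 0 v := by
    conv_lhs => rw [hyv]
    rw [map_add, map_smul, hl.l00, smul_eq_mul, mul_one]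
  have e1 : l 1 y = l 1 v := by
    conv_lhs => rw [hyv]
    rw [map_add, map_smul, hl.l10, smul_eq_mul, mul_zero, zero_add]
  have e2 : l 2 y = l 2 v := by
    conv_lhs => rw [hyv]
    rw [map_add, map_smul, hl.l20, smul_eq_mul, mul_zero, zero_add]
  have hcn : 1 / 2 ≤ ‖c‖ := by
    have h2 : ‖c‖ ^ 2 = 1 - nsq v := by rw [← Complex.normSq_eq_norm_sq, hnv]; ring
    have h3 := norm_nonneg c
    by_contra hcon
    push Not at hcon
    nlinarith
  have hl0 : 1 / 4 ≤ ‖l 0 y‖ := by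
    rw [e0]
    have h2 : ‖c‖ ≤ ‖c + l 0 v‖ + ‖l 0 v‖ := by
      have : c = (c + l 0 v) - l 0 v := by ring
      calc ‖c‖ = ‖(c + l 0 v) - l 0 v‖ := by rw [← this]
        _ ≤ _ := norm_sub_le _ _
    linarith
  have hl0' : l 0 y ≠ 0 := by
    intro h
    rw [h, norm_zero] at hl0
    linarith
  refine (hl.mem_cone _ y).2 ⟨hy, hl0', ?_⟩
  rw [Metric.mem_ball, dist_zero_right, Prod.norm_def]
  have hp0 : 0 < ‖l 0 y‖ := by linarith
  refine max_lt ?_ ?_
  · show ‖l 1 y / l 0 y‖ < 4 * L * s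
    rw [norm_div, e1, div_lt_iff₀ hp0]
    have : 0 < L * s := by positivity
    nlinarith
  · show ‖l 2 y / l 0 y‖ < 4 * L * s
    rw [norm_div, e2, div_lt_iff₀ hp0]
    have : 0 < L * s := by positivity
    nlinarith

end Pool.Agent.H24.CU

end S_H24_CU_CH

section S_H24_CU_CL

/-!
# Row CL (radial lemma; the chart measure is harmonic)

PROOFS.  (1) `levi_psi`: `f` is real, `C^2` off `0`, and `f (t • y) = f y + m * log (normSq t)` for all
`t ≠ 0`, `y ≠ 0` (`m` real; `m = 0` for conic functions).  Let `H : (ℂ × ℂ) × ℂ → V`,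
`H (p, t) = (1 + t) • psi p`, complex differentiable, `fderiv ℂ H (p, 0) (v, c) = c • psi p + v.1 • vec y₀
+ v.2 • conj α(y₀)`; with `v = X p`, `c = c₀ p` this is `vec (psi p)` (`Chart.vec`).  By `levi_comp_hol`,
`levi f (psi p) (vec (psi p)) = levi (f ∘ H) (p,0) (X p, c₀ p)`.  Near `(p,0)`,
`f (H (q,t)) = f (psi q) + m log (normSq (1 + t))`; `levi` of the second summand is `0` (`log |1+t|^2` is
harmonic in `t`: `levi_comp_hol` with the projection to `t`, and `levi (log ∘ normSq) 1 w = 0` by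
`levi_comp`, `levi_normSq`: `1 * normSq w - 1 * normSq w = 0` at the point `1`, as
`gradm normSq normSq ζ w = normSq ζ * normSq w`), and `levi` of the first is `levi (f ∘ psi) p (X p)`
(`levi_comp_hol` with the projection to `q`).
(2) `levi_weight`: from `f (t • y) = f y + m log(normSq t)` for fixed `t`: `levi f (t y) (t v) = levi f y v`
(`levi_comp_hol` with the linear map `t •`), so
`levi f (t y) (vec (t y)) = levi f (t y) (t • (t^(deg) / t • vec y)) = (normSq t)^deg / normSq t * levi f y (vec y)`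
(`vec_smul`, `levi_smul_vec`).
(3) `Chart.loc`: let `g` be smooth with compact support in `ball 0 r`.  `u y = g (π y)` if `ℓ0 y ≠ 0` and
`0` otherwise (notation of row CH; here take: `u y = g p` if there are `p ∈ tsupport g` and `t ≠ 0` with
`y = t • psi p`, else `0`; the pair `(p,t)` is unique).  `IsFun u`: off `0` it is smooth: the cone
over the compact set `tsupport g` is closed in `{0}ᶜ`, and on the open set `{ℓ0 ≠ 0}` it is `g ∘ π`.
`Φ y = levi u y (vec y)` has the right weight by (2) (at `y ≠ 0`), is measurable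
(it is continuous on `{0}ᶜ`; modify at `0`), and vanishes outside the cone over `tsupport g` (there `u` is
locally `0`).  So `0 = ∫ levi u y (vec y) / nsq α dμ = ∫_{cone (ball 0 r)} .. = ∫_{ball 0 r} levi u (psi p) (vec (psi p)) dM
= ∫_{ball 0 r} levi g p (X p) dM` by (1) (`u ∘ psi = g` near `p` in the ball), and `levi g p = 0` outside
`tsupport g`.
-/

namespace Pool.Agent.H24.CU

open MeasureTheory
open scoped ComplexConjugate ContDiff

variable {𝓕 : Foliation} {μ : Measure V} {y₀ : V} {X : ℂ × ℂ → ℂ × ℂ} {c₀ : ℂ × ℂ → ℂ} {r : ℝ}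
  {M : Measure (ℂ × ℂ)}

/-- the homotopy -/
noncomputable def CL_H (𝓕 : Foliation) (y₀ : V) (z : (ℂ × ℂ) × ℂ) : V :=
  (1 + z.2) • 𝓕.psi y₀ z.1

lemma CL_psi_contDiff (𝓕 : Foliation) (y₀ : V) {n : WithTop ℕ∞} :
    ContDiff ℂ n (fun p : ℂ × ℂ => 𝓕.psi y₀ p) := by
  unfold Foliation.psi
  exact (contDiff_const.add (contDiff_fst.smul contDiff_const)).add
    (contDiff_snd.smul contDiff_const)

lemma CL_psi_contDiffR (𝓕 : Foliation) (y₀ : V) {n : WithTop ℕ∞} :
    ContDiff ℝ n (fun p : ℂ × ℂ => 𝓕.psi y₀ p) := (CL_psi_contDiff 𝓕 y₀).restrict_scalars ℝ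

lemma CL_psi_deriv (𝓕 : Foliation) (y₀ : V) (p v : ℂ × ℂ) :
    fderiv ℂ (fun p : ℂ × ℂ => 𝓕.psi y₀ p) p v =
      v.1 • 𝓕.vec y₀ + v.2 • (fun j => conj (𝓕.alpha y₀ j)) := by
  have h : HasFDerivAt (fun p : ℂ × ℂ => 𝓕.psi y₀ p)
      (((0 : ℂ × ℂ →L[ℂ] V) + (ContinuousLinearMap.fst ℂ ℂ ℂ).smulRight (𝓕.vec y₀)) +
        (ContinuousLinearMap.snd ℂ ℂ ℂ).smulRight (fun j => conj (𝓕.alpha y₀ j))) p :=
    ((hasFDerivAt_const y₀ p).add ((hasFDerivAt_fst).smul_const (𝓕.vec y₀))).add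
      ((hasFDerivAt_snd).smul_const _)
  rw [h.fderiv]
  simp

lemma CL_H_contDiff (𝓕 : Foliation) (y₀ : V) {n : WithTop ℕ∞} :
    ContDiff ℂ n (CL_H 𝓕 y₀) := by
  unfold CL_H
  exact (contDiff_const.add contDiff_snd).smul ((CL_psi_contDiff 𝓕 y₀).comp contDiff_fst)

lemma CL_H_deriv (𝓕 : Foliation) (y₀ : V) (p v : ℂ × ℂ) (c : ℂ) :
    fderiv ℂ (CL_H 𝓕 y₀) (p, 0) (v, c) =
      c • 𝓕.psi y₀ p + v.1 • 𝓕.vec y₀ + v.2 • (fun j => conj (𝓕.alpha y₀ j)) := by
  have hp : HasFDerivAt (fun z : (ℂ × ℂ) × ℂ => 𝓕.psi y₀ z.1)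
      ((fderiv ℂ (fun p : ℂ × ℂ => 𝓕.psi y₀ p) p).comp (ContinuousLinearMap.fst ℂ (ℂ × ℂ) ℂ))
      (p, (0 : ℂ)) := by
    have h1 : HasFDerivAt (fun p : ℂ × ℂ => 𝓕.psi y₀ p)
        (fderiv ℂ (fun p : ℂ × ℂ => 𝓕.psi y₀ p) p) ((p, (0 : ℂ)) : (ℂ × ℂ) × ℂ).1 :=
      (((CL_psi_contDiff 𝓕 y₀ (n := 1)).differentiable (by simp)) p).hasFDerivAt
    have h2 : HasFDerivAt (Prod.fst : (ℂ × ℂ) × ℂ → ℂ × ℂ)
        (ContinuousLinearMap.fst ℂ (ℂ × ℂ) ℂ) (p, (0 : ℂ)) := hasFDerivAt_fst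
    exact h1.comp (p, (0 : ℂ)) h2
  have ht : HasFDerivAt (fun z : (ℂ × ℂ) × ℂ => 1 + z.2)
      (0 + ContinuousLinearMap.snd ℂ (ℂ × ℂ) ℂ) (p, (0 : ℂ)) :=
    (hasFDerivAt_const 1 _).add hasFDerivAt_snd
  have h := (ht.smul hp).fderiv
  have h2 : fderiv ℂ (CL_H 𝓕 y₀) (p, 0) = _ := h
  rw [h2]
  simp only [add_apply, ContinuousLinearMap.comp_apply, ContinuousLinearMap.smulRight_apply, ContinuousLinearMap.coe_fst', ContinuousLinearMap.coe_snd',
    CL_psi_deriv, add_zero, one_smul, zero_add]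
  abel

lemma CL_normSq_contDiff {n : WithTop ℕ∞} : ContDiff ℝ n (fun t : ℂ => Complex.normSq t) := by
  have h0 : (fun q : ℂ => Complex.normSq q) =
      fun q => Complex.reCLM q * Complex.reCLM q + Complex.imCLM q * Complex.imCLM q := by
    funext q
    rw [Complex.normSq_apply]
    rfl
  rw [h0]
  exact (Complex.reCLM.contDiff.mul Complex.reCLM.contDiff).add
    (Complex.imCLM.contDiff.mul Complex.imCLM.contDiff)

lemma CL_log (w : ℂ) : levi (fun t : ℂ => Real.log (Complex.normSq t)) 1 w = 0 := by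
  have c1 : ContDiffAt ℝ 2 (fun t : ℂ => Complex.normSq t) 1 := CL_normSq_contDiff.contDiffAt
  have c2 : ContDiffAt ℝ 2 Real.log (Complex.normSq 1) :=
    Real.contDiffAt_log.2 (by simp)
  rw [levi_comp (h := Real.log) c1 c2, LC_nsq]
  have e1 : deriv Real.log (Complex.normSq 1) = 1 := by
    rw [Real.deriv_log]; simp
  have e2 : deriv (deriv Real.log) (Complex.normSq 1) = -1 := by
    have : deriv Real.log = fun x => x⁻¹ := by
      funext x
      exact Real.deriv_log x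
    rw [this, deriv_inv]
    simp
  have e3 : gradm (fun t : ℂ => Complex.normSq t) (fun t : ℂ => Complex.normSq t) 1 w =
      Complex.normSq w := by
    unfold gradm
    have hd : ∀ v : ℂ, fderiv ℝ (fun t : ℂ => Complex.normSq t) 1 v = 2 * v.re := by
      intro v
      have := fderiv_normSq (H := fun t : ℂ => t) (p := 1) differentiableAt_id v
      rw [this]
      have e : fderiv ℂ (fun t : ℂ => t) 1 = ContinuousLinearMap.id ℂ ℂ := fderiv_fun_id
      rw [e]
      simp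
    rw [hd, hd, Complex.normSq_apply]
    simp
    ring
  rw [e1, e2, e3]
  ring

theorem Chart.levi_psi (h : Chart 𝓕 μ y₀ X c₀ r M) (f : V → ℝ) (hf : ContDiffOn ℝ 2 f {0}ᶜ) (m : ℝ)
    (hom : ∀ (t : ℂ) (y : V), t ≠ 0 → y ≠ 0 → f (t • y) = f y + m * Real.log (Complex.normSq t))
    (p : ℂ × ℂ) :
    levi f (𝓕.psi y₀ p) (𝓕.vec (𝓕.psi y₀ p)) = levi (fun q => f (𝓕.psi y₀ q)) p (X p) := by
  have hfat : ∀ y : V, y ≠ 0 → ContDiffAt ℝ 2 f y := fun y hy =>
    hf.contDiffAt (isOpen_compl_singleton.mem_nhds hy)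
  have hH0 : CL_H 𝓕 y₀ (p, 0) = 𝓕.psi y₀ p := by
    simp [CL_H]
  have e1 : 𝓕.vec (𝓕.psi y₀ p) = fderiv ℂ (CL_H 𝓕 y₀) (p, 0) (X p, c₀ p) := by
    rw [CL_H_deriv, h.vec]
  have hHd : ∀ᶠ q in nhds (p, (0 : ℂ)), DifferentiableAt ℂ (CL_H 𝓕 y₀) q :=
    Filter.Eventually.of_forall fun q => (CL_H_contDiff 𝓕 y₀ (n := 1)).differentiable (by simp) q
  have hH2 : ContDiffAt ℝ 2 (CL_H 𝓕 y₀) (p, (0 : ℂ)) :=
    ((CL_H_contDiff 𝓕 y₀).restrict_scalars ℝ).contDiffAt
  have e2 := levi_comp_hol (g := f) hHd hH2 (by rw [hH0]; exact hfat _ (h.psi_ne p)) (X p, c₀ p)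
  rw [← e1, hH0] at e2
  rw [← e2]
  have e3 : (fun q => f (CL_H 𝓕 y₀ q)) =ᶠ[nhds (p, (0 : ℂ))]
      fun z => f (𝓕.psi y₀ z.1) + m * Real.log (Complex.normSq (1 + z.2)) := by
    have ho : ∀ᶠ z : (ℂ × ℂ) × ℂ in nhds (p, (0 : ℂ)), 1 + z.2 ≠ 0 := by
      have hc : ContinuousAt (fun z : (ℂ × ℂ) × ℂ => 1 + z.2) (p, (0 : ℂ)) := by fun_prop
      exact hc.eventually_ne (by simp)
    filter_upwards [ho] with z hz
    exact hom _ _ hz (h.psi_ne z.1)
  rw [levi_congr e3]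
  have c1 : ContDiffAt ℝ 2 (fun q : ℂ × ℂ => f (𝓕.psi y₀ q)) p :=
    (hfat _ (h.psi_ne p)).comp p (CL_psi_contDiffR 𝓕 y₀).contDiffAt
  have c2 : ContDiffAt ℝ 2 (fun z : (ℂ × ℂ) × ℂ => f (𝓕.psi y₀ z.1)) (p, (0 : ℂ)) :=
    ContDiffAt.comp (p, (0 : ℂ)) (g := fun q : ℂ × ℂ => f (𝓕.psi y₀ q)) c1 contDiffAt_fst
  have g1 : ContDiffAt ℝ 2 (fun t : ℂ => Real.log (Complex.normSq t)) 1 :=
    ContDiffAt.log CL_normSq_contDiff.contDiffAt (by simp)
  have hk : ContDiffAt ℂ 2 (fun z : (ℂ × ℂ) × ℂ => 1 + z.2) (p, (0 : ℂ)) :=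
    contDiffAt_const.add contDiffAt_snd
  have hkR : ContDiffAt ℝ 2 (fun z : (ℂ × ℂ) × ℂ => 1 + z.2) (p, (0 : ℂ)) :=
    contDiffAt_const.add contDiffAt_snd
  have c3 : ContDiffAt ℝ 2 (fun z : (ℂ × ℂ) × ℂ => Real.log (Complex.normSq (1 + z.2)))
      (p, (0 : ℂ)) := by
    refine ContDiffAt.log ?_ (by simp)
    exact ContDiffAt.comp (p, (0 : ℂ)) (g := fun t : ℂ => Complex.normSq t)
      CL_normSq_contDiff.contDiffAt hkR
  rw [levi_add c2 (contDiffAt_const.mul c3), levi_const_mul c3]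
  have e4 : levi (fun z : (ℂ × ℂ) × ℂ => f (𝓕.psi y₀ z.1)) (p, (0 : ℂ)) (X p, c₀ p) =
      levi (fun q => f (𝓕.psi y₀ q)) p (X p) := by
    have hfst : ∀ᶠ q in nhds (p, (0 : ℂ)), DifferentiableAt ℂ (Prod.fst : (ℂ × ℂ) × ℂ → ℂ × ℂ) q :=
      Filter.Eventually.of_forall fun q => differentiableAt_fst
    have h5 := levi_comp_hol (g := fun q : ℂ × ℂ => f (𝓕.psi y₀ q)) (p := (p, (0 : ℂ)))
      hfst contDiffAt_fst c1 (X p, c₀ p)
    rw [h5, fderiv_fst]
    rfl
  have e5 : levi (fun z : (ℂ × ℂ) × ℂ => Real.log (Complex.normSq (1 + z.2))) (p, (0 : ℂ))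
      (X p, c₀ p) = 0 := by
    have hfst : ∀ᶠ q in nhds (p, (0 : ℂ)),
        DifferentiableAt ℂ (fun z : (ℂ × ℂ) × ℂ => 1 + z.2) q :=
      Filter.Eventually.of_forall fun q => by fun_prop
    have h5 := levi_comp_hol (g := fun t : ℂ => Real.log (Complex.normSq t)) (p := (p, (0 : ℂ)))
      hfst hkR (by simpa using g1) (X p, c₀ p)
    rw [h5]
    simp only [add_zero]
    exact CL_log _
  rw [e4, e5]
  ring

theorem levi_weight (𝓕 : Foliation) (f : V → ℝ) (hf : ContDiffOn ℝ 2 f {0}ᶜ) (m : ℝ)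
    (hom : ∀ (t : ℂ) (y : V), t ≠ 0 → y ≠ 0 → f (t • y) = f y + m * Real.log (Complex.normSq t))
    (t : ℂ) (y : V) (ht : t ≠ 0) (hy : y ≠ 0) :
    levi f (t • y) (𝓕.vec (t • y)) =
      Complex.normSq t ^ 𝓕.deg / Complex.normSq t * levi f y (𝓕.vec y) := by
  have hfat : ∀ y : V, y ≠ 0 → ContDiffAt ℝ 2 f y := fun y hy =>
    hf.contDiffAt (isOpen_compl_singleton.mem_nhds hy)
  have hty : t • y ≠ 0 := smul_ne_zero ht hy
  have e0 : 𝓕.vec (t • y) = (t ^ 𝓕.deg / t) • (t • 𝓕.vec y) := by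
    rw [vec_smul, smul_smul, div_mul_cancel₀ _ ht]
  rw [e0, levi_smul_vec (hfat _ hty), map_div₀, map_pow]
  congr 1
  have hl : ∀ᶠ q in nhds y, DifferentiableAt ℂ (fun q : V => t • q) q :=
    Filter.Eventually.of_forall fun q => by fun_prop
  have hl2 : ContDiffAt ℝ 2 (fun q : V => t • q) y :=
    (((contDiff_id (𝕜 := ℂ) (n := 2)).const_smul t).restrict_scalars ℝ).contDiffAt
  have e1 := levi_comp_hol (g := f) (H := fun q : V => t • q) (p := y) hl hl2 (hfat _ hty)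
    (𝓕.vec y)
  have e2 : fderiv ℂ (fun q : V => t • q) y (𝓕.vec y) = t • 𝓕.vec y := by
    have h3 : HasFDerivAt (fun q : V => t • q) (t • ContinuousLinearMap.id ℂ V) y :=
      (hasFDerivAt_id y).const_smul t
    rw [h3.fderiv]
    rfl
  rw [e2] at e1
  rw [← e1]
  have e3 : (fun q => f (t • q)) =ᶠ[nhds y] fun q => f q + m * Real.log (Complex.normSq t) := by
    filter_upwards [isOpen_compl_singleton.mem_nhds hy] with q hq
    exact hom t q ht hq
  rw [levi_congr e3, levi_add (hfat y hy) contDiffAt_const, levi_const, add_zero]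

/-- the frame is linearly independent -/
lemma CL_indep (𝓕 : Foliation) {y₀ : V} (h0 : 𝓕.alpha y₀ ≠ 0) :
    LinearIndependent ℂ ![y₀, 𝓕.vec y₀, (fun j => conj (𝓕.alpha y₀ j))] := by
  rw [Fintype.linearIndependent_iff]
  intro g hg
  rw [Fin.sum_univ_three] at hg
  simp only [Matrix.cons_val_zero, Matrix.cons_val_one, Matrix.cons_val] at hg
  have hN : ∑ j, conj (𝓕.alpha y₀ j) * 𝓕.alpha y₀ j ≠ 0 := by
    have e : ∑ j, conj (𝓕.alpha y₀ j) * 𝓕.alpha y₀ j = ((nsq (𝓕.alpha y₀) : ℝ) : ℂ) := by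
      unfold nsq
      push_cast
      refine Finset.sum_congr rfl fun j _ => ?_
      rw [mul_comm, Complex.mul_conj]
    rw [e]
    exact_mod_cast (nsq_pos h0).ne'
  have hg2 : g 2 = 0 := by
    have h1 : ∑ j, (g 0 • y₀ + g 1 • 𝓕.vec y₀ + g 2 • (fun j => conj (𝓕.alpha y₀ j))) j *
        𝓕.alpha y₀ j = 0 := by
      rw [hg]
      simp
    have h2 : ∑ j, (g 0 • y₀ + g 1 • 𝓕.vec y₀ + g 2 • (fun j => conj (𝓕.alpha y₀ j))) j *
        𝓕.alpha y₀ j = g 0 * ∑ j, y₀ j * 𝓕.alpha y₀ j + g 1 * ∑ j, 𝓕.vec y₀ j * 𝓕.alpha y₀ j +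
          g 2 * ∑ j, conj (𝓕.alpha y₀ j) * 𝓕.alpha y₀ j := by
      rw [Finset.mul_sum, Finset.mul_sum, Finset.mul_sum, ← Finset.sum_add_distrib,
        ← Finset.sum_add_distrib]
      refine Finset.sum_congr rfl fun j _ => ?_
      simp only [Pi.add_apply, Pi.smul_apply, smul_eq_mul]
      ring
    rw [h2, sum_mul_alpha, sum_vec_mul_alpha, mul_zero, mul_zero, zero_add, zero_add] at h1
    exact (mul_eq_zero.1 h1).resolve_right hN
  rw [hg2, zero_smul, add_zero] at hg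
  have hg1 : g 1 = 0 := by
    have h1 : crossProduct y₀ (g 0 • y₀ + g 1 • 𝓕.vec y₀) = g 1 • 𝓕.alpha y₀ := by
      rw [map_add, map_smul, map_smul, cross_self, smul_zero, zero_add]
      rfl
    rw [hg, map_zero] at h1
    exact (smul_eq_zero.1 h1.symm).resolve_right h0
  rw [hg1, zero_smul, add_zero] at hg
  have hy0 : y₀ ≠ 0 := by
    rintro rfl
    apply h0
    unfold Foliation.alpha
    rw [map_zero]
    rfl
  have hg0 : g 0 = 0 := (smul_eq_zero.1 hg).resolve_right hy0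
  intro i
  fin_cases i
  · exact hg0
  · exact hg1
  · exact hg2

/-- coordinates with respect to the frame -/
lemma CL_coord (𝓕 : Foliation) {y₀ : V} (h0 : 𝓕.alpha y₀ ≠ 0) :
    ∃ e : V ≃L[ℂ] (Fin 3 → ℂ), (∀ p : ℂ × ℂ, e (𝓕.psi y₀ p) = ![1, p.1, p.2]) ∧
      ∀ y : V, e y 0 ≠ 0 → y = e y 0 • 𝓕.psi y₀ (e y 1 / e y 0, e y 2 / e y 0) := by
  let b : Module.Basis (Fin 3) ℂ V := basisOfLinearIndependentOfCardEqFinrank (CL_indep 𝓕 h0)
    (by simp [V])
  have hb : ∀ i, b i = ![y₀, 𝓕.vec y₀, (fun j => conj (𝓕.alpha y₀ j))] i := by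
    intro i
    rw [show b = basisOfLinearIndependentOfCardEqFinrank (CL_indep 𝓕 h0) (by simp [V]) from rfl,
      coe_basisOfLinearIndependentOfCardEqFinrank]
  have hb0 : b 0 = y₀ := hb 0
  have hb1 : b 1 = 𝓕.vec y₀ := hb 1
  have hb2 : b 2 = (fun j => conj (𝓕.alpha y₀ j)) := hb 2
  have hpsi : ∀ p : ℂ × ℂ, 𝓕.psi y₀ p = ∑ i, (![1, p.1, p.2] : Fin 3 → ℂ) i • b i := by
    intro p
    rw [Fin.sum_univ_three, hb0, hb1, hb2]
    simp [Foliation.psi]
  have he : ∀ p : ℂ × ℂ, b.equivFun (𝓕.psi y₀ p) = ![1, p.1, p.2] := by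
    intro p
    rw [hpsi, ← b.equivFun_symm_apply, LinearEquiv.apply_symm_apply]
  refine ⟨b.equivFun.toContinuousLinearEquiv, he, fun y hy => ?_⟩
  have hy' : b.equivFun y 0 ≠ 0 := hy
  change y = b.equivFun y 0 • 𝓕.psi y₀ (b.equivFun y 1 / b.equivFun y 0,
    b.equivFun y 2 / b.equivFun y 0)
  apply b.equivFun.injective
  rw [map_smul, he]
  funext i
  fin_cases i
  · change b.equivFun y 0 = b.equivFun y 0 * 1
    rw [mul_one]
  · change b.equivFun y 1 = b.equivFun y 0 * (b.equivFun y 1 / b.equivFun y 0)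
    field_simp
  · change b.equivFun y 2 = b.equivFun y 0 * (b.equivFun y 2 / b.equivFun y 0)
    field_simp

lemma CL_levi_cont {f : V → ℝ} (hf : ContDiffOn ℝ 2 f {0}ᶜ) {w : V → V} (hw : Continuous w) :
    ContinuousOn (fun y => levi f y (w y)) {0}ᶜ := by
  have hfat : ∀ y : V, y ≠ 0 → ContDiffAt ℝ 2 f y := fun y hy =>
    hf.contDiffAt (isOpen_compl_singleton.mem_nhds hy)
  intro y hy
  apply ContinuousAt.continuousWithinAt
  have hc : ContinuousAt (fderiv ℝ (fderiv ℝ f)) y := by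
    have h1 : ContDiffAt ℝ 1 (fderiv ℝ f) y := (hfat y hy).fderiv_right (by norm_num)
    have h2 : ContDiffAt ℝ 0 (fderiv ℝ (fderiv ℝ f)) y := h1.fderiv_right (by norm_num)
    exact h2.continuousAt
  have he : (fun y => levi f y (w y)) =ᶠ[nhds y] fun y =>
      (fderiv ℝ (fderiv ℝ f) y (w y) (w y) +
        fderiv ℝ (fderiv ℝ f) y (Complex.I • w y) (Complex.I • w y)) / 4 := by
    filter_upwards [isOpen_compl_singleton.mem_nhds hy] with q hq
    unfold levi
    rw [LC_app (hfat q hq), LC_app (hfat q hq)]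
  refine ContinuousAt.congr ?_ he.symm
  have hw1 : ContinuousAt w y := hw.continuousAt
  have hw2 : ContinuousAt (fun y => Complex.I • w y) y :=
    (continuous_const_smul Complex.I).continuousAt.comp hw1
  exact (((hc.clm_apply hw1).clm_apply hw1).add ((hc.clm_apply hw2).clm_apply hw2)).div_const _

lemma CL_vec_cont (𝓕 : Foliation) : Continuous 𝓕.vec := by
  unfold Foliation.vec
  exact continuous_pi fun j => MvPolynomial.continuous_eval (𝓕.F j)

theorem Chart.loc (h : Chart 𝓕 μ y₀ X c₀ r M) (hμ : Harm 𝓕 μ) : Loc X r M := by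
  refine ⟨h.r_pos, h.hol, h.zero, h.fin, fun g hg hgc hgs => ?_⟩
  have h0 : 𝓕.alpha y₀ ≠ 0 := by
    have := h.reg 0 (Metric.mem_closedBall_self h.r_pos.le)
    simpa [Foliation.psi] using this
  obtain ⟨e, he, hey⟩ := CL_coord 𝓕 h0
  have hecont : ∀ i, Continuous fun y : V => e y i := fun i =>
    (continuous_apply i).comp e.continuous
  -- the projection
  let π : V → ℂ × ℂ := fun y => (e y 1 / e y 0, e y 2 / e y 0)
  let u : V → ℝ := fun y => if e y 0 = 0 then 0 else g (π y)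
  have hupsi : ∀ q, u (𝓕.psi y₀ q) = g q := by
    intro q
    have h1 := he q
    have e0 : e (𝓕.psi y₀ q) 0 = 1 := by rw [h1]; rfl
    have e1 : e (𝓕.psi y₀ q) 1 = q.1 := by rw [h1]; rfl
    have e2 : e (𝓕.psi y₀ q) 2 = q.2 := by rw [h1]; rfl
    simp only [u, π, e0, e1, e2, one_ne_zero, if_false, div_one]
  have huhom : ∀ (t : ℂ) (y : V), t ≠ 0 → u (t • y) = u y := by
    intro t y ht
    have e1 : ∀ i, e (t • y) i = t * e y i := fun i => by rw [map_smul]; rfl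
    simp only [u, π, e1, mul_eq_zero, ht, false_or]
    rw [mul_div_mul_left _ _ ht, mul_div_mul_left _ _ ht]
  -- g vanishes outside of the ball
  have hg0 : ∀ q, q ∉ Metric.ball (0 : ℂ × ℂ) r → g q = 0 := fun q hq => by
    by_contra hne
    exact hq (hgs (subset_tsupport g hne))
  -- u vanishes near the points outside of the cone
  have hu0 : ∀ y : V, y ≠ 0 → (e y 0 = 0 ∨ π y ∉ tsupport g) → u =ᶠ[nhds y] fun _ => 0 := by
    intro y hy hor
    by_cases h00 : e y 0 = 0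
    · have hmax : 0 < max ‖e y 1‖ ‖e y 2‖ := by
        by_contra hcon
        rw [not_lt] at hcon
        have h1 : ‖e y 1‖ ≤ 0 := (le_max_left _ _).trans hcon
        have h2 : ‖e y 2‖ ≤ 0 := (le_max_right _ _).trans hcon
        have h3 : e y = 0 := by
          funext i
          fin_cases i
          · exact h00
          · exact norm_le_zero_iff.1 h1
          · exact norm_le_zero_iff.1 h2
        exact hy ((map_eq_zero_iff e e.injective).1 h3)
      have hopen : ∀ᶠ q in nhds y, r * ‖e q 0‖ < max ‖e q 1‖ ‖e q 2‖ := by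
        have hc1 : Continuous fun q : V => r * ‖e q 0‖ := continuous_const.mul (hecont 0).norm
        have hc2 : Continuous fun q : V => max ‖e q 1‖ ‖e q 2‖ :=
          (hecont 1).norm.max (hecont 2).norm
        refine (isOpen_lt hc1 hc2).mem_nhds ?_
        change r * ‖e y 0‖ < max ‖e y 1‖ ‖e y 2‖
        rw [h00, norm_zero, mul_zero]
        exact hmax
      filter_upwards [hopen] with q hq
      by_cases hq0 : e q 0 = 0
      · simp only [u, hq0, if_true]
      · simp only [u, hq0, if_false]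
        apply hg0
        rw [Metric.mem_ball, dist_zero_right, not_lt, Prod.norm_def]
        have hn : 0 < ‖e q 0‖ := norm_pos_iff.2 hq0
        change r ≤ max ‖e q 1 / e q 0‖ ‖e q 2 / e q 0‖
        rw [norm_div, norm_div, max_div_div_right hn.le, le_div_iff₀ hn]
        exact hq.le
    · have hπ : π y ∉ tsupport g := hor.resolve_left h00
      have hπc : ContinuousAt π y :=
        ((hecont 1).continuousAt.div (hecont 0).continuousAt h00).prodMk
          ((hecont 2).continuousAt.div (hecont 0).continuousAt h00)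
      have h1 : ∀ᶠ q in nhds y, π q ∉ tsupport g :=
        hπc.eventually ((isClosed_tsupport g).isOpen_compl.mem_nhds hπ)
      filter_upwards [h1] with q hq
      simp only [u]
      split_ifs with h3
      · rfl
      · exact image_eq_zero_of_notMem_tsupport hq
  -- smoothness
  have husm : ContDiffOn ℝ ∞ u {0}ᶜ := by
    intro y hy
    apply ContDiffAt.contDiffWithinAt
    by_cases h00 : e y 0 = 0
    · exact contDiffAt_const.congr_of_eventuallyEq (hu0 y hy (Or.inl h00))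
    · have h1 : u =ᶠ[nhds y] fun q => g (π q) := by
        filter_upwards [(hecont 0).continuousAt.eventually_ne h00] with q hq
        simp only [u, hq, if_false]
      refine ContDiffAt.congr_of_eventuallyEq ?_ h1
      have hei : ∀ i, ContDiffAt ℂ ∞ (fun q : V => e q i) y := by
        intro i
        exact ((contDiff_apply ℂ ℂ i).comp e.contDiff).contDiffAt
      have hπs : ContDiffAt ℝ ∞ π y :=
        (((hei 1).div (hei 0) h00).prodMk ((hei 2).div (hei 0) h00)).restrict_scalars ℝ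
      exact hg.contDiffAt.comp y hπs
  have hfun : IsFun (fun x => (u x : ℂ)) := by
    refine ⟨Complex.ofRealCLM.contDiff.comp_contDiffOn husm, fun c x hc _ => ?_⟩
    change ((u (c • x) : ℝ) : ℂ) = (u x : ℂ)
    rw [huhom c x hc]
  have hu2 : ContDiffOn ℝ 2 u {0}ᶜ := husm.of_le (by
    change ((2 : ℕ∞) : WithTop ℕ∞) ≤ ((⊤ : ℕ∞) : WithTop ℕ∞)
    exact WithTop.coe_le_coe.2 le_top)
  have hom0 : ∀ (t : ℂ) (y : V), t ≠ 0 → y ≠ 0 →
      u (t • y) = u y + 0 * Real.log (Complex.normSq t) := by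
    intro t y ht _
    rw [huhom t y ht, zero_mul, add_zero]
  classical
  let Φ : V → ℝ := Set.piecewise {(0 : V)}ᶜ (fun y => levi u y (𝓕.vec y)) (fun _ => 0)
  have hΦ : ∀ y : V, y ≠ 0 → Φ y = levi u y (𝓕.vec y) := fun y hy =>
    Set.piecewise_eq_of_mem _ _ _ hy
  have hΦm : Measurable Φ :=
    (CL_levi_cont hu2 (CL_vec_cont 𝓕)).measurable_piecewise continuousOn_const
      (measurableSet_singleton (0 : V)).compl
  have hw : ∀ (t : ℂ) (y : V), t ≠ 0 → y ≠ 0 →
      Φ (t • y) = Complex.normSq t ^ 𝓕.deg / Complex.normSq t * Φ y := by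
    intro t y ht hy
    rw [hΦ _ (smul_ne_zero ht hy), hΦ _ hy]
    exact levi_weight 𝓕 u hu2 0 hom0 t y ht hy
  have htr := (h.transfer Φ hΦm hw (Metric.ball 0 r) Metric.isOpen_ball.measurableSet
    subset_rfl).1
  have hlev0 : ∀ {y : V} {v : V}, u =ᶠ[nhds y] (fun _ => 0) → levi u y v = 0 := by
    intro y v hy
    rw [levi_congr hy, levi_const]
  have hae : ∀ᵐ y ∂μ, nsq y = 1 := by
    rw [ae_iff]
    exact hμ.sph
  have hne : ∀ y : V, nsq y = 1 → y ≠ 0 := by
    rintro y hy rfl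
    simp [nsq] at hy
  have hL : ∫ y in 𝓕.cone y₀ (Metric.ball 0 r), Φ y / nsq (𝓕.alpha y) ∂μ = 0 := by
    rw [setIntegral_eq_integral_of_ae_compl_eq_zero]
    · rw [← hμ.harm u hfun]
      refine integral_congr_ae ?_
      filter_upwards [hae] with y hy
      rw [hΦ y (hne y hy)]
    · filter_upwards [hae] with y hy hyc
      have hy0 := hne y hy
      have hor : e y 0 = 0 ∨ π y ∉ tsupport g := by
        by_contra hcon
        rw [not_or, not_not] at hcon
        exact hyc ⟨hy, π y, hgs hcon.2, e y 0, hcon.1, hey y hcon.1⟩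
      rw [hΦ y hy0, hlev0 (hu0 y hy0 hor), zero_div]
  have hR : ∫ p in Metric.ball (0 : ℂ × ℂ) r, Φ (𝓕.psi y₀ p) ∂M =
      ∫ p, levi g p (X p) ∂M := by
    have h1 : ∀ p, Φ (𝓕.psi y₀ p) = levi g p (X p) := by
      intro p
      rw [hΦ _ (h.psi_ne p), h.levi_psi u hu2 0 hom0 p]
      simp only [hupsi]
    simp only [h1]
    refine setIntegral_eq_integral_of_forall_compl_eq_zero fun p hp => ?_
    have hpt : p ∉ tsupport g := fun hin => hp (hgs hin)
    have h2 : g =ᶠ[nhds p] fun _ => 0 := by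
      filter_upwards [(isClosed_tsupport g).isOpen_compl.mem_nhds hpt] with q hq
      exact image_eq_zero_of_notMem_tsupport hq
    rw [levi_congr h2, levi_const]
  rw [← hR, ← htr, hL]

end Pool.Agent.H24.CU

end S_H24_CU_CL

section S_H24_CU_GI

/-!
# Row GI (global degree inequality)

PROOF.  `P` homogeneous of degree `k`, `s > 0`, `f y = log (normSq (P y) + s^2 nsq y ^ k)` for `y ≠ 0`
(the argument is positive), smooth off `0`, `f (t y) = f y + k log (normSq t)`.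
`v y = f y - k log (nsq y)` is `IsFun` (degree 0).  (1) levi of `log ∘ nsq`:
`levi (log nsq) y w = (nsq y nsq w - |herm w y|^2)/nsq y^2` (`levi_comp`, `nsq = ∑ normSq (y_j)`,
`levi nsq y w = nsq w`, `gradm nsq nsq y w = |herm w y|^2`), so for `w = vec y` it is `nsq (α y)/nsq y^2`
(`nsq_cross`), and `levi (log nsq) y (vec y) / nsq (α y) = 1` if `nsq y = 1`, `α y ≠ 0`.
(2) `levi f y w >= 0` for `y ≠ 0`: it is `log` of a sum of squares of moduli of holomorphic functions: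
`nsq y ^ k = ∑_I |y^I|^2 (multinomial)`; simplest: with `A = normSq (P y)`, `B = s^2 nsq y^k = s^2 exp (k log nsq y)`,
`levi A = |a'|^2`, `gradm A A = A |a'|^2`, `levi B >= gradm B B / B` (because `log B` has `levi >= 0`), and
`(A + B)(levi A + levi B) >= gradm (A+B) (A+B)` by `gradm A B <= sqrt(gradm A A gradm B B) <= sqrt (A B |a'|^2 β)`,
`β = gradm B B / B`, AM-GM (`A β + B |a'|^2 >= 2 sqrt(A β B |a'|^2)`).  So `levi (log (A+B)) >= 0`.
(3) `0 = ∫ levi v y (vec y)/nsq α dμ` (`Harm.harm`), integrable (`integrable_levi_div`), and on the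
sphere off `{α = 0}`: `levi f y (vec y)/nsq α = levi v y (vec y)/nsq α + k >= 0`.  Therefore
`∫⁻ ofReal (levi f y (vec y)/nsq (α y)) dμ = ofReal (k μ univ)`; restrict to `cone E`, use the lintegral part
of `transfer` with `Φ y = levi f y (vec y)` (weight: `levi_weight`; measurability: continuous off `0`; to
have the weight at all `y ≠ 0` nothing else is needed) and `levi_psi`.
-/

namespace Pool.Agent.H24.CU

open MeasureTheory
open scoped ComplexConjugate ContDiff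

variable {𝓕 : Foliation} {μ : Measure V} {y₀ : V} {X : ℂ × ℂ → ℂ × ℂ} {c₀ : ℂ × ℂ → ℂ} {r : ℝ}
  {M : Measure (ℂ × ℂ)}

theorem GI_two_le : (2 : WithTop ℕ∞) ≤ ∞ := WithTop.coe_le_coe.2 le_top

theorem GI_fderiv_apply (j : Fin 3) (y w : V) : fderiv ℂ (fun y : V => y j) y w = w j := by
  rw [(hasFDerivAt_apply (𝕜 := ℂ) j y).fderiv]
  rfl

theorem GI_diff_apply (j : Fin 3) (y : V) : DifferentiableAt ℂ (fun y : V => y j) y :=
  (hasFDerivAt_apply (𝕜 := ℂ) j y).differentiableAt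

theorem GI_cd (j : Fin 3) (y : V) : ContDiffAt ℝ 2 (fun y : V => Complex.normSq (y j)) y :=
  ((RN_normSq_contDiff.comp (contDiff_apply ℝ ℂ j)).of_le GI_two_le).contDiffAt

theorem GI_nsq2 (y : V) : ContDiffAt ℝ 2 nsq y :=
  (RN_nsq_contDiff.of_le GI_two_le).contDiffAt

theorem GI_levi_nsq (y w : V) : levi nsq y w = nsq w := by
  have h0 : nsq = fun y : V =>
      (Complex.normSq (y 0) + Complex.normSq (y 1)) + Complex.normSq (y 2) := by
    funext y
    simp [nsq, Fin.sum_univ_three]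
  have l : ∀ j : Fin 3, levi (fun y : V => Complex.normSq (y j)) y w =
      Complex.normSq (w j) := by
    intro j
    have h1 := levi_normSq (H := fun y : V => y j) (p := y)
      (Filter.Eventually.of_forall fun q => GI_diff_apply j q)
      ((contDiff_apply ℝ ℂ j).contDiffAt) w
    rw [h1, GI_fderiv_apply]
  rw [h0, levi_add ((GI_cd 0 y).add (GI_cd 1 y)) (GI_cd 2 y), levi_add (GI_cd 0 y) (GI_cd 1 y),
    l, l, l]

theorem GI_fderiv_nsq (y w : V) : fderiv ℝ nsq y w = 2 * (herm w y).re := by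
  have h0 : nsq = fun y : V => ∑ j, Complex.normSq (y j) := rfl
  have hd : ∀ j : Fin 3, DifferentiableAt ℝ (fun y : V => Complex.normSq (y j)) y := fun j =>
    (GI_cd j y).differentiableAt (by simp)
  rw [h0, fderiv_fun_sum fun j _ => hd j]
  simp only [sum_apply]
  have h1 : ∀ j : Fin 3, fderiv ℝ (fun y : V => Complex.normSq (y j)) y w =
      2 * (conj (y j) * w j).re := by
    intro j
    rw [fderiv_normSq (H := fun y : V => y j) (GI_diff_apply j y) w, GI_fderiv_apply]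
  simp only [h1]
  unfold herm
  rw [← Finset.mul_sum, Complex.re_sum]
  congr 1
  exact Finset.sum_congr rfl fun j _ => by rw [mul_comm]

theorem GI_herm_smul (c : ℂ) (w y : V) : herm (c • w) y = c * herm w y := by
  unfold herm
  rw [Finset.mul_sum]
  exact Finset.sum_congr rfl fun j _ => by simp [mul_assoc]

theorem GI_gradm_nsq (y w : V) : gradm nsq nsq y w = Complex.normSq (herm w y) := by
  unfold gradm
  rw [GI_fderiv_nsq, GI_fderiv_nsq, GI_herm_smul, Complex.normSq_apply]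
  simp only [Complex.mul_re, Complex.I_re, Complex.I_im]
  ring

/-- Levi form of a logarithm. -/
theorem GI_levi_log {g : V → ℝ} {y : V} (hg : ContDiffAt ℝ 2 g y) (h0 : g y ≠ 0) (w : V) :
    levi (fun x => Real.log (g x)) y w =
      (g y * levi g y w - gradm g g y w) / g y ^ 2 := by
  rw [levi_comp hg (Real.contDiffAt_log.2 h0)]
  have h1 : deriv Real.log (g y) = (g y)⁻¹ := Real.deriv_log _
  have h2 : deriv (deriv Real.log) (g y) = - ((g y) ^ 2)⁻¹ := by
    rw [Real.deriv_log']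
    exact deriv_inv
  rw [h1, h2]
  field_simp
  ring

theorem levi_log_nsq (y w : V) (hy : y ≠ 0) :
    levi (fun x => Real.log (nsq x)) y w =
      (nsq y * nsq w - Complex.normSq (herm w y)) / nsq y ^ 2 := by
  rw [GI_levi_log (GI_nsq2 y) (nsq_pos hy).ne', GI_levi_nsq, GI_gradm_nsq]

theorem GI_evalhom (P : MvPolynomial (Fin 3) ℂ) (n : ℕ) (hP : P.IsHomogeneous n) (c : ℂ)
    (x : V) : MvPolynomial.eval (c • x) P = c ^ n * MvPolynomial.eval x P := by
  rw [MvPolynomial.eval_eq', MvPolynomial.eval_eq', Finset.mul_sum]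
  refine Finset.sum_congr rfl fun d hd => ?_
  have h1 := hP (MvPolynomial.mem_support_iff.1 hd)
  have h2 : ∑ i, d i = n := by
    rw [← h1, Finsupp.weight_apply, Finsupp.sum_fintype _ _ (by simp)]
    simp
  have h3 : ∏ i, (c • x) i ^ d i = c ^ n * ∏ i, x i ^ d i := by
    rw [← h2, ← Finset.prod_pow_eq_pow_sum, ← Finset.prod_mul_distrib]
    refine Finset.prod_congr rfl fun i _ => ?_
    rw [Pi.smul_apply, smul_eq_mul, mul_pow]
  rw [h3]
  ring

/-- Quadratic inequality: plurisubharmonicity of the logarithm of a sum. -/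
theorem GI_add {A B : V → ℝ} {y : V} (hA : ContDiffAt ℝ 2 A y) (hB : ContDiffAt ℝ 2 B y)
    (hA0 : 0 ≤ A y) (hB0 : 0 < B y) (w : V) (hlA : 0 ≤ levi A y w)
    (h1 : gradm A A y w ≤ A y * levi A y w) (h2 : gradm B B y w ≤ B y * levi B y w) :
    0 ≤ levi (fun x => Real.log (A x + B x)) y w := by
  have hAB : ContDiffAt ℝ 2 (fun x => A x + B x) y := hA.add hB
  have hpos : 0 < A y + B y := by linarith
  rw [GI_levi_log hAB hpos.ne', levi_add hA hB]
  have hg : gradm (fun x => A x + B x) (fun x => A x + B x) y w =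
      gradm A A y w + 2 * gradm A B y w + gradm B B y w := by
    unfold gradm
    rw [fderiv_fun_add (hA.differentiableAt (by simp)) (hB.differentiableAt (by simp))]
    simp only [add_apply]
    ring
  rw [hg]
  refine div_nonneg ?_ (by positivity)
  have h3 := gradm_sq_le A B y w
  have h4 := gradm_self_nonneg A y w
  have h5 := gradm_self_nonneg B y w
  have h6 : 0 ≤ levi B y w := by
    by_contra hneg
    push Not at hneg
    have := mul_neg_of_pos_of_neg hB0 hneg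
    linarith
  have h7 : 2 * gradm A B y w ≤ A y * levi B y w + B y * levi A y w := by
    have h8 : (2 * gradm A B y w) ^ 2 ≤ (A y * levi B y w + B y * levi A y w) ^ 2 := by
      have h9 : gradm A A y w * gradm B B y w ≤ (A y * levi A y w) * (B y * levi B y w) :=
        mul_le_mul h1 h2 h5 (mul_nonneg hA0 hlA)
      nlinarith [sq_nonneg (A y * levi B y w - B y * levi A y w)]
    exact (abs_le_of_sq_le_sq' h8 (by positivity)).2
  nlinarith

theorem GI_normSq_eval (P : MvPolynomial (Fin 3) ℂ) (y w : V) :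
    0 ≤ levi (fun x => Complex.normSq (MvPolynomial.eval x P)) y w ∧
    gradm (fun x => Complex.normSq (MvPolynomial.eval x P))
      (fun x => Complex.normSq (MvPolynomial.eval x P)) y w =
      Complex.normSq (MvPolynomial.eval y P) *
        levi (fun x => Complex.normSq (MvPolynomial.eval x P)) y w := by
  have hd : ∀ q : V, DifferentiableAt ℂ (fun x : V => MvPolynomial.eval x P) q := by
    intro q
    have h1 := (AnalyticOnNhd.eval_mvPolynomial (𝕜 := ℂ) P) q (Set.mem_univ q)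
    exact h1.differentiableAt
  have hc : ContDiffAt ℝ 2 (fun x : V => MvPolynomial.eval x P) y :=
    ((RN_poly_contDiff P).of_le GI_two_le).contDiffAt
  have h1 := levi_normSq (H := fun x : V => MvPolynomial.eval x P) (p := y)
    (Filter.Eventually.of_forall hd) hc w
  rw [h1]
  refine ⟨Complex.normSq_nonneg _, ?_⟩
  have h2 := fderiv_normSq (H := fun x : V => MvPolynomial.eval x P) (hd y)
  unfold gradm
  rw [h2, h2, map_smul, ← Complex.normSq_conj (MvPolynomial.eval y P), ← Complex.normSq_mul,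
    Complex.normSq_apply (_ * _)]
  simp only [smul_eq_mul, Complex.mul_re, Complex.mul_im, Complex.I_re, Complex.I_im]
  ring

/-- The plurisubharmonic weight. -/
noncomputable def GI_f (P : MvPolynomial (Fin 3) ℂ) (s : ℝ) (k : ℕ) (y : V) : ℝ :=
  Real.log (Complex.normSq (MvPolynomial.eval y P) + s ^ 2 * nsq y ^ k)

theorem GI_arg_pos (P : MvPolynomial (Fin 3) ℂ) (s : ℝ) (hs : 0 < s) (k : ℕ) {y : V}
    (hy : y ≠ 0) : 0 < Complex.normSq (MvPolynomial.eval y P) + s ^ 2 * nsq y ^ k := by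
  have h1 := nsq_pos hy
  have h2 := Complex.normSq_nonneg (MvPolynomial.eval y P)
  positivity

theorem GI_arg_smooth (P : MvPolynomial (Fin 3) ℂ) (s : ℝ) (k : ℕ) :
    ContDiff ℝ ∞ (fun y : V => Complex.normSq (MvPolynomial.eval y P) + s ^ 2 * nsq y ^ k) :=
  (RN_normSq_contDiff.comp (RN_poly_contDiff P)).add
    (contDiff_const.mul (RN_nsq_contDiff.pow k))

theorem GI_f_smooth (P : MvPolynomial (Fin 3) ℂ) (s : ℝ) (hs : 0 < s) (k : ℕ) :
    ContDiffOn ℝ ∞ (GI_f P s k) {0}ᶜ := by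
  intro y hy
  exact ((Real.contDiffAt_log.2 (GI_arg_pos P s hs k hy).ne').comp y
    (GI_arg_smooth P s k).contDiffAt).contDiffWithinAt

theorem GI_f_at (P : MvPolynomial (Fin 3) ℂ) (s : ℝ) (hs : 0 < s) (k : ℕ) {y : V}
    (hy : y ≠ 0) : ContDiffAt ℝ 2 (GI_f P s k) y :=
  ((GI_f_smooth P s hs k).contDiffAt (isOpen_compl_singleton.mem_nhds hy)).of_le
    GI_two_le

theorem GI_f_hom (P : MvPolynomial (Fin 3) ℂ) (s : ℝ) (hs : 0 < s) (k : ℕ)
    (hP : P.IsHomogeneous k) (t : ℂ) (y : V) (ht : t ≠ 0) (hy : y ≠ 0) :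
    GI_f P s k (t • y) = GI_f P s k y + k * Real.log (Complex.normSq t) := by
  unfold GI_f
  have h1 : MvPolynomial.eval (t • y) P = t ^ k * MvPolynomial.eval y P := by
    exact GI_evalhom P k hP t y
  have h3 : 0 < Complex.normSq t := Complex.normSq_pos.2 ht
  rw [h1, nsq_smul, Complex.normSq_mul, map_pow, mul_pow]
  have h4 : Complex.normSq t ^ k * Complex.normSq (MvPolynomial.eval y P) +
      s ^ 2 * (Complex.normSq t ^ k * nsq y ^ k) =
      Complex.normSq t ^ k *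
        (Complex.normSq (MvPolynomial.eval y P) + s ^ 2 * nsq y ^ k) := by ring
  rw [h4, Real.log_mul (pow_pos h3 k).ne' (GI_arg_pos P s hs k hy).ne', Real.log_pow]
  ring

theorem GI_f_levi_nonneg (P : MvPolynomial (Fin 3) ℂ) (s : ℝ) (hs : 0 < s) (k : ℕ) {y : V}
    (hy : y ≠ 0) (w : V) : 0 ≤ levi (GI_f P s k) y w := by
  have hn := nsq_pos hy
  obtain ⟨a1, a2⟩ := GI_normSq_eval P y w
  have hA : ContDiffAt ℝ 2 (fun x : V => Complex.normSq (MvPolynomial.eval x P)) y :=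
    ((RN_normSq_contDiff.comp (RN_poly_contDiff P)).of_le
      GI_two_le).contDiffAt
  have hBs : ContDiff ℝ ∞ (fun x : V => s ^ 2 * nsq x ^ k) :=
    contDiff_const.mul (RN_nsq_contDiff.pow k)
  have hB : ContDiffAt ℝ 2 (fun x : V => s ^ 2 * nsq x ^ k) y :=
    (hBs.of_le GI_two_le).contDiffAt
  have hB0 : 0 < s ^ 2 * nsq y ^ k := by positivity
  refine GI_add hA hB (Complex.normSq_nonneg _) hB0 w a1 a2.le ?_
  have h1 := GI_levi_log hB hB0.ne' w
  have h2 : levi (fun x : V => Real.log (s ^ 2 * nsq x ^ k)) y w =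
      k * levi (fun x => Real.log (nsq x)) y w := by
    have h3 : (fun x : V => Real.log (s ^ 2 * nsq x ^ k)) =ᶠ[nhds y]
        fun x => Real.log (s ^ 2) + k * Real.log (nsq x) := by
      filter_upwards [isOpen_compl_singleton.mem_nhds hy] with x hx
      rw [Real.log_mul (by positivity) (pow_pos (nsq_pos hx) k).ne', Real.log_pow (x := nsq x) k]
    have h4 : ContDiffAt ℝ 2 (fun x : V => Real.log (nsq x)) y :=
      (Real.contDiffAt_log.2 hn.ne').comp y (GI_nsq2 y)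
    rw [levi_congr h3, levi_add contDiffAt_const (contDiffAt_const.mul h4), levi_const,
      levi_const_mul h4, zero_add]
  have h5 : 0 ≤ levi (fun x => Real.log (nsq x)) y w := by
    rw [levi_log_nsq y w hy]
    refine div_nonneg ?_ (by positivity)
    rw [← nsq_cross]
    exact nsq_nonneg _
  rw [h2] at h1
  have h6 : 0 ≤ ((s ^ 2 * nsq y ^ k) * levi (fun x : V => s ^ 2 * nsq x ^ k) y w -
      gradm (fun x : V => s ^ 2 * nsq x ^ k) (fun x : V => s ^ 2 * nsq x ^ k) y w) /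
      (s ^ 2 * nsq y ^ k) ^ 2 := by
    rw [← h1]
    positivity
  have h7 : 0 < (s ^ 2 * nsq y ^ k) ^ 2 := by positivity
  have h8 := (div_nonneg_iff.1 h6).resolve_right (fun h => absurd h.2 (not_le.2 h7))
  linarith [h8.1]

theorem GI_measurable (g : V → ℝ) (hg : ContDiffOn ℝ ∞ g {0}ᶜ) (𝓕 : Foliation) :
    Measurable fun y => levi g y (𝓕.vec y) := by
  refine measurable_of_continuousOn_compl_singleton 0 ?_
  have h1 : ContDiffOn ℝ ∞ (fderiv ℝ g) {0}ᶜ :=
    hg.fderiv_of_isOpen isOpen_compl_singleton (by simp)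
  have h2 : ContinuousOn (fderiv ℝ (fderiv ℝ g)) {0}ᶜ :=
    (h1.fderiv_of_isOpen isOpen_compl_singleton (m := ∞) (by simp)).continuousOn
  have hv : ContinuousOn 𝓕.vec {0}ᶜ := (RN_vec_contDiff 𝓕).continuous.continuousOn
  have hv2 : ContinuousOn (fun y => Complex.I • 𝓕.vec y) {0}ᶜ := by
    have h := hv.const_smul Complex.I
    exact h
  have h3 : ContinuousOn (fun y => (fderiv ℝ (fderiv ℝ g) y (𝓕.vec y) (𝓕.vec y) +
      fderiv ℝ (fderiv ℝ g) y (Complex.I • 𝓕.vec y) (Complex.I • 𝓕.vec y)) / 4) {0}ᶜ :=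
    (((h2.clm_apply hv).clm_apply hv).add ((h2.clm_apply hv2).clm_apply hv2)).div_const 4
  refine h3.congr fun y hy => ?_
  have h4 : ContDiffAt ℝ 2 g y :=
    (hg.contDiffAt (isOpen_compl_singleton.mem_nhds hy)).of_le GI_two_le
  change levi g y (𝓕.vec y) = _
  unfold levi
  rw [LC_app h4, LC_app h4]

theorem global_ineq (h : Chart 𝓕 μ y₀ X c₀ r M) (hμ : Harm 𝓕 μ) (k : ℕ)
    (P : MvPolynomial (Fin 3) ℂ) (hP : P.IsHomogeneous k) (s : ℝ) (hs : 0 < s)
    (E : Set (ℂ × ℂ)) (hE : MeasurableSet E) (hE2 : E ⊆ Metric.ball 0 r) :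
    ∫⁻ p in E, ENNReal.ofReal (levi (fun q => Real.log (Complex.normSq
        (MvPolynomial.eval (𝓕.psi y₀ q) P) + s ^ 2 * nsq (𝓕.psi y₀ q) ^ k)) p (X p)) ∂M ≤
      ENNReal.ofReal (k * (μ Set.univ).toReal) := by
  have hfin : IsFiniteMeasure μ := hμ.fin
  set f : V → ℝ := GI_f P s k with hf
  have hfs := GI_f_smooth P s hs k
  have hf2 : ContDiffOn ℝ 2 f {0}ᶜ := hfs.of_le GI_two_le
  have hhom : ∀ (t : ℂ) (y : V), t ≠ 0 → y ≠ 0 →
      f (t • y) = f y + (k : ℝ) * Real.log (Complex.normSq t) := fun t y ht hy =>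
    GI_f_hom P s hs k hP t y ht hy
  have hL : ∀ y : V, y ≠ 0 → ContDiffAt ℝ 2 (fun x : V => Real.log (nsq x)) y := fun y hy =>
    (Real.contDiffAt_log.2 (nsq_pos hy).ne').comp y (GI_nsq2 y)
  -- the function on the projective plane
  have hv : IsFun (fun x => (((f x - k * Real.log (nsq x) : ℝ)) : ℂ)) := by
    constructor
    · have h1 : ContDiffOn ℝ ∞ (fun x : V => Real.log (nsq x)) {0}ᶜ := fun y hy =>
        ((Real.contDiffAt_log.2 (nsq_pos hy).ne').comp y
          RN_nsq_contDiff.contDiffAt).contDiffWithinAt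
      exact Complex.ofRealCLM.contDiff.comp_contDiffOn (hfs.sub (contDiffOn_const.mul h1))
    · intro c x hc hx
      have h1 : 0 < Complex.normSq c := Complex.normSq_pos.2 hc
      rw [hhom c x hc hx, nsq_smul, Real.log_mul h1.ne' (nsq_pos hx).ne']
      congr 1
      ring
  have h0 := hμ.harm (fun x => f x - k * Real.log (nsq x)) hv
  have hi := integrable_levi_div 𝓕 μ hμ.sph (fun x => f x - k * Real.log (nsq x)) hv
  have hae : ∀ᵐ y ∂μ, levi f y (𝓕.vec y) / nsq (𝓕.alpha y) =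
      levi (fun x => f x - k * Real.log (nsq x)) y (𝓕.vec y) / nsq (𝓕.alpha y) + k := by
    have e1 : ∀ᵐ y ∂μ, nsq y = 1 := hμ.sph
    have e2 : ∀ᵐ y ∂μ, 𝓕.alpha y ≠ 0 := by
      have h3 : μ {y | ¬ (𝓕.alpha y ≠ 0)} = 0 := by
        simpa only [not_not] using hμ.sing
      exact h3
    filter_upwards [e1, e2] with y hy1 hy2
    have hy0 : y ≠ 0 := RN_sphere_ne hy1
    have hL0 := hL y hy0
    have hfy : ContDiffAt ℝ 2 f y := GI_f_at P s hs k hy0
    rw [levi_sub hfy (contDiffAt_const.mul hL0), levi_const_mul hL0, levi_log_nsq y _ hy0,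
      ← nsq_cross, hy1]
    have h4 : crossProduct y (𝓕.vec y) = 𝓕.alpha y := rfl
    rw [h4]
    have h5 : nsq (𝓕.alpha y) ≠ 0 := (nsq_pos hy2).ne'
    field_simp
    ring
  have hnn : ∀ᵐ y ∂μ, 0 ≤ levi f y (𝓕.vec y) / nsq (𝓕.alpha y) := by
    have e1 : ∀ᵐ y ∂μ, nsq y = 1 := hμ.sph
    filter_upwards [e1] with y hy1
    exact div_nonneg (GI_f_levi_nonneg P s hs k (RN_sphere_ne hy1) _) (nsq_nonneg _)
  have hif : Integrable (fun y => levi f y (𝓕.vec y) / nsq (𝓕.alpha y)) μ :=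
    (hi.add (integrable_const (k : ℝ))).congr (by
      filter_upwards [hae] with y hy
      rw [hy]
      rfl)
  have hint : ∫ y, levi f y (𝓕.vec y) / nsq (𝓕.alpha y) ∂μ = k * (μ Set.univ).toReal := by
    rw [integral_congr_ae hae, integral_add hi (integrable_const _), h0, integral_const,
      zero_add, smul_eq_mul, mul_comm]
    rfl
  have htot : ∫⁻ y, ENNReal.ofReal (levi f y (𝓕.vec y) / nsq (𝓕.alpha y)) ∂μ =
      ENNReal.ofReal (k * (μ Set.univ).toReal) := by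
    rw [← hint, ofReal_integral_eq_lintegral_ofReal hif hnn]
  have htr := (h.transfer (fun y => levi f y (𝓕.vec y)) (GI_measurable f hfs 𝓕)
    (fun t y ht hy => levi_weight 𝓕 f hf2 k hhom t y ht hy) E hE hE2).2
  have hps : ∀ p : ℂ × ℂ, levi f (𝓕.psi y₀ p) (𝓕.vec (𝓕.psi y₀ p)) =
      levi (fun q => Real.log (Complex.normSq
        (MvPolynomial.eval (𝓕.psi y₀ q) P) + s ^ 2 * nsq (𝓕.psi y₀ q) ^ k)) p (X p) :=
    fun p => h.levi_psi f hf2 k hhom p
  simp only [hps] at htr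
  rw [← htr, ← htot]
  exact setLIntegral_le_lintegral _ _

end Pool.Agent.H24.CU

end S_H24_CU_GI

section S_H65_HolC

/-! # Holomorphic maps between finite dimensional complex spaces are smooth

After `Pool.Agent.H85.KM.HolSm` (helper85), for general finite dimensional spaces. -/

open MeasureTheory Metric Set
open scoped Topology ContDiff

namespace H65

variable {E G : Type*} [NormedAddCommGroup E] [NormedSpace ℂ E] [FiniteDimensional ℂ E]
  [NormedAddCommGroup G] [NormedSpace ℂ G] [FiniteDimensional ℂ G]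

omit [FiniteDimensional ℂ E] in
theorem holC_deriv {F : E → G} {z v : E} {r : ℝ} (hr : 0 < r)
    (hF : ∀ ζ : ℂ, ‖ζ‖ ≤ r → DifferentiableAt ℂ F (z + ζ • v)) :
    DiffContOnCl ℂ (fun ζ : ℂ => F (z + ζ • v)) (ball 0 r) ∧
    deriv (fun ζ : ℂ => F (z + ζ • v)) 0 = fderiv ℂ F z v ∧
    fderiv ℂ F z v = (2 * Real.pi * Complex.I : ℂ)⁻¹ •
      ∫ θ in (0 : ℝ)..(2 * Real.pi),
        (deriv (circleMap 0 r) θ * (1 / (circleMap 0 r θ) ^ 2)) •
          F (z + circleMap 0 r θ • v) := by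
  have : CompleteSpace G := FiniteDimensional.complete ℂ G
  have hd : ∀ ζ : ℂ, ‖ζ‖ ≤ r → DifferentiableAt ℂ (fun ζ : ℂ => F (z + ζ • v)) ζ := by
    intro ζ hζ
    have h1 : DifferentiableAt ℂ (fun ζ : ℂ => z + ζ • v) ζ := by fun_prop
    exact DifferentiableAt.comp (g := F) ζ (hF ζ hζ) h1
  have hc : DiffContOnCl ℂ (fun ζ : ℂ => F (z + ζ • v)) (ball 0 r) := by
    refine DifferentiableOn.diffContOnCl ?_
    intro ζ hζ
    refine (hd ζ ?_).differentiableWithinAt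
    have : ζ ∈ closedBall (0 : ℂ) r := Metric.closure_ball_subset_closedBall hζ
    simpa using this
  have h1 := hc.deriv_eq_smul_circleIntegral hr
  have h2 : deriv (fun ζ : ℂ => F (z + ζ • v)) 0 = fderiv ℂ F z v := by
    have h3 : HasFDerivAt F (fderiv ℂ F z) (z + (0 : ℂ) • v) := by
      have := hF 0 (by simpa using hr.le)
      simp only [zero_smul, add_zero] at this ⊢
      exact this.hasFDerivAt
    have h4 : HasDerivAt (fun ζ : ℂ => z + ζ • v) v 0 := by
      simpa using ((hasDerivAt_id (0 : ℂ)).smul_const v).const_add z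
    exact (h3.comp_hasDerivAt 0 h4).deriv
  refine ⟨hc, h2, ?_⟩
  have h5 : (2 * Real.pi * Complex.I : ℂ) ≠ 0 := by
    simp [Real.pi_ne_zero]
  rw [← h2, eq_comm, inv_smul_eq_iff₀ h5, ← h1, circleIntegral]
  refine intervalIntegral.integral_congr fun θ _ => ?_
  simp [smul_smul]

omit [FiniteDimensional ℂ E] in
/-- Cauchy estimate for the Frechet derivative -/
theorem holC_cauchy {F : E → G} {w : E} {R M : ℝ} (hR : 0 < R)
    (hF : ∀ z ∈ closedBall w R, DifferentiableAt ℂ F z) (hM : ∀ z ∈ closedBall w R, ‖F z‖ ≤ M) :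
    ‖fderiv ℂ F w‖ ≤ M / R := by
  have : CompleteSpace G := FiniteDimensional.complete ℂ G
  have hM0 : 0 ≤ M := (norm_nonneg _).trans (hM w (mem_closedBall_self hR.le))
  refine ContinuousLinearMap.opNorm_le_of_unit_norm (by positivity) ?_
  intro v hv
  have hmem : ∀ ζ : ℂ, ‖ζ‖ ≤ R → w + ζ • v ∈ closedBall w R := by
    intro ζ hζ
    rw [mem_closedBall, dist_eq_norm, add_sub_cancel_left, norm_smul, hv, mul_one]
    exact hζ
  obtain ⟨h1, h2, -⟩ := holC_deriv (z := w) (v := v) hR (fun ζ hζ => hF _ (hmem ζ hζ))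
  rw [← h2]
  refine Complex.norm_deriv_le_of_forall_mem_sphere_norm_le hR h1 ?_
  intro ζ hζ
  exact hM _ (hmem ζ (by simpa using (mem_sphere.1 hζ).le))

theorem holC_diff {Ω : Set E} (hΩ : IsOpen Ω) {F : E → G}
    (hF : DifferentiableOn ℂ F Ω) (v : E) :
    DifferentiableOn ℂ (fun z => fderiv ℂ F z v) Ω := by
  intro z0 hz0
  refine DifferentiableAt.differentiableWithinAt ?_
  have : CompleteSpace G := FiniteDimensional.complete ℂ G
  have : ProperSpace E := FiniteDimensional.proper ℂ E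
  have : ProperSpace G := FiniteDimensional.proper ℂ G
  borelize E
  borelize G
  have hFd : ∀ z ∈ Ω, DifferentiableAt ℂ F z := fun z hz => hF.differentiableAt (hΩ.mem_nhds hz)
  obtain ⟨R, hR, hRΩ⟩ := Metric.isOpen_iff.1 hΩ z0 hz0
  have hL : closedBall z0 (R / 2) ⊆ Ω := (closedBall_subset_ball (by linarith)).trans hRΩ
  obtain ⟨M, hM⟩ := (isCompact_closedBall z0 (R / 2)).exists_bound_of_continuousOn
    (hF.continuousOn.mono hL)
  -- radius of the circle
  set r : ℝ := R / (8 * (‖v‖ + 1)) with hr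
  have hr0 : 0 < r := by positivity
  have hrv : r * ‖v‖ ≤ R / 8 := by
    rw [hr, div_mul_eq_mul_div, div_le_div_iff₀ (by positivity) (by norm_num)]
    nlinarith [norm_nonneg v]
  have hmem : ∀ z ∈ ball z0 (R / 8), ∀ ζ : ℂ, ‖ζ‖ ≤ r → z + ζ • v ∈ closedBall z0 (R / 4) := by
    intro z hz ζ hζ
    rw [mem_closedBall, dist_eq_norm]
    rw [mem_ball, dist_eq_norm] at hz
    have h1 : z + ζ • v - z0 = (z - z0) + ζ • v := by abel
    rw [h1]
    refine (norm_add_le _ _).trans ?_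
    rw [norm_smul]
    have : ‖ζ‖ * ‖v‖ ≤ r * ‖v‖ := by gcongr
    linarith
  have hL4 : closedBall z0 (R / 4) ⊆ Ω :=
    (closedBall_subset_closedBall (by linarith)).trans hL
  have hbound : ∀ w ∈ closedBall z0 (R / 4), ‖fderiv ℂ F w‖ ≤ M / (R / 4) := by
    intro w hw
    have hsub : closedBall w (R / 4) ⊆ closedBall z0 (R / 2) := by
      refine closedBall_subset_closedBall' ?_
      rw [mem_closedBall] at hw
      linarith
    exact holC_cauchy (by positivity) (fun z hz => hFd z (hL (hsub hz)))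
      (fun z hz => hM z (hsub hz))
  have hcn : ∀ θ : ℝ, ‖circleMap 0 r θ‖ ≤ r := by
    intro θ
    simp [abs_of_pos hr0]
  -- the integrand
  set s : ℝ → ℂ := fun θ => deriv (circleMap 0 r) θ * (1 / (circleMap 0 r θ) ^ 2) with hs
  have hsc : Continuous s := by
    have h1 : ∀ θ, circleMap 0 r θ ≠ 0 := fun θ => circleMap_ne_center hr0.ne'
    have h2 : Continuous (circleMap (0 : ℂ) r) := continuous_circleMap 0 r
    have h3 : s = fun θ => circleMap 0 r θ * Complex.I * (1 / (circleMap 0 r θ) ^ 2) := by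
      funext θ
      simp [hs]
    rw [h3]
    refine (h2.mul continuous_const).mul (continuous_const.div (h2.pow 2) ?_)
    intro θ
    exact pow_ne_zero 2 (h1 θ)
  obtain ⟨S, hS⟩ : ∃ S : ℝ, ∀ θ, ‖s θ‖ ≤ S := by
    refine ⟨1 / r, fun θ => ?_⟩
    simp only [hs, deriv_circleMap, norm_mul, norm_div, norm_pow, norm_one, Complex.norm_I,
      mul_one]
    simp only [norm_circleMap_zero, abs_of_pos hr0]
    apply le_of_eq
    field_simp
  have hS0 : 0 ≤ S := (norm_nonneg _).trans (hS 0)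
  have : ProperSpace (E →L[ℂ] G) := FiniteDimensional.proper ℂ _
  have hcz : ∀ z : E, Continuous (fun θ : ℝ => z + circleMap 0 r θ • v) := by
    intro z
    have : Continuous (circleMap (0 : ℂ) r) := continuous_circleMap 0 r
    fun_prop
  have hFc : ∀ z ∈ ball z0 (R / 8), Continuous (fun θ : ℝ => s θ • F (z + circleMap 0 r θ • v)) := by
    intro z hz
    refine hsc.smul ?_
    refine hF.continuousOn.comp_continuous (hcz z) fun θ => hL4 (hmem z hz _ (hcn θ))
  have hmeas : Measurable (fderiv ℂ F) := measurable_fderiv ℂ F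
  have key := intervalIntegral.hasFDerivAt_integral_of_dominated_of_fderiv_le (𝕜 := ℂ)
    (μ := volume) (a := 0) (b := 2 * Real.pi) (s := ball z0 (R / 8))
    (F := fun z θ => s θ • F (z + circleMap 0 r θ • v))
    (F' := fun z θ => s θ • fderiv ℂ F (z + circleMap 0 r θ • v)) (x₀ := z0)
    (bound := fun _ => S * (M / (R / 4))) (ball_mem_nhds z0 (by positivity))
    (by
      filter_upwards [ball_mem_nhds z0 (show 0 < R / 8 by positivity)] with z hz
      exact (hFc z hz).aestronglyMeasurable)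
    ((hFc z0 (mem_ball_self (by positivity))).intervalIntegrable _ _)
    (by
      refine AEStronglyMeasurable.smul hsc.aestronglyMeasurable ?_
      exact (hmeas.comp (hcz z0).measurable).aestronglyMeasurable)
    (by
      refine Filter.Eventually.of_forall fun θ _ z hz => ?_
      rw [norm_smul]
      exact mul_le_mul (hS θ) (hbound _ (hmem z hz _ (hcn θ))) (norm_nonneg _) hS0)
    (by simp)
    (by
      refine Filter.Eventually.of_forall fun θ _ z hz => ?_
      have h1 : HasFDerivAt F (fderiv ℂ F (z + circleMap 0 r θ • v))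
          (z + circleMap 0 r θ • v) := (hFd _ (hL4 (hmem z hz _ (hcn θ)))).hasFDerivAt
      have h2 : HasFDerivAt (fun z : E => z + circleMap 0 r θ • v)
          (ContinuousLinearMap.id ℂ E) z := (hasFDerivAt_id z).add_const _
      have h3 := h1.comp z h2
      rw [ContinuousLinearMap.comp_id] at h3
      exact h3.const_smul (s θ))
  have h4 : (fun z => fderiv ℂ F z v) =ᶠ[𝓝 z0] fun z =>
      (2 * Real.pi * Complex.I : ℂ)⁻¹ • ∫ θ in (0 : ℝ)..(2 * Real.pi),
        s θ • F (z + circleMap 0 r θ • v) := by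
    filter_upwards [ball_mem_nhds z0 (show 0 < R / 8 by positivity)] with z hz
    exact (holC_deriv hr0 (fun ζ hζ => hFd _ (hL4 (hmem z hz ζ hζ)))).2.2
  have h5 : DifferentiableAt ℂ (fun z => (2 * Real.pi * Complex.I : ℂ)⁻¹ •
      ∫ θ in (0 : ℝ)..(2 * Real.pi), s θ • F (z + circleMap 0 r θ • v)) z0 :=
    key.differentiableAt.fun_const_smul _
  exact h5.congr_of_eventuallyEq h4

/-- A complex differentiable map on an open set of a finite dimensional space is smooth. -/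
theorem holC_contDiffOn {Ω : Set E} (hΩ : IsOpen Ω) {F : E → G}
    (hF : DifferentiableOn ℂ F Ω) : ContDiffOn ℂ ∞ F Ω := by
  have key : ∀ k : ℕ, ∀ F : E → G, DifferentiableOn ℂ F Ω → ContDiffOn ℂ k F Ω := by
    intro k
    induction k with
    | zero =>
      intro F hF
      exact contDiffOn_zero.2 hF.continuousOn
    | succ k ih =>
      intro F hF
      rw [Nat.cast_add, Nat.cast_one, contDiffOn_succ_iff_fderiv_of_isOpen hΩ]
      refine ⟨hF, fun h => by simp at h, ?_⟩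
      rw [contDiffOn_clm_apply]
      intro v
      exact ih _ (holC_diff hΩ hF v)
  exact contDiffOn_infty.2 fun k => key k F hF

/-- An entire map between finite dimensional complex spaces is smooth. -/
theorem holC_contDiff {F : E → G} (hF : Differentiable ℂ F) : ContDiff ℂ ∞ F := by
  rw [← contDiffOn_univ]
  exact holC_contDiffOn isOpen_univ hF.differentiableOn

end H65

end S_H65_HolC
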