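import Mathlib
import Pool.Agent.H24.M68.G02
import Pool.Agent.H24.M68.G03

/-! MP_6873ef_an: this file joins several modules to save build time. -/

section S_H85_DC_GrB

/-!
# Row GrB: derivatives of powers of `vv x y`

Fix `y ≠ 0`. `v x = vv x y = |ξ|^2/(N x N y)`, `ξ = ip x y = ∑ x_j conj(y_j)`. As complex function
`v = (N y)⁻¹ ξ ξ̄ N(x)⁻¹`, conic (`Hom 0 0`).
`dz j v = (N y)⁻¹ [conj(y_j) ξ̄ / N - ξ ξ̄ conj(x_j)/N^2]`, `dzb k v = conj (dz k v)` (`v` real).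
`grad_v`: `∑_j |dz j v|^2 = v (1 - v)/N x`: with `a_j = conj(y_j) ξ̄/(N N_y)`, `b_j = |ξ|^2 conj(x_j)/(N^2 N_y)`:
`∑|a_j|^2 = N_y |ξ|^2/(N^2 N_y^2) = v/N`, `∑|b_j|^2 = v^2/N`, `∑ a_j conj(b_j) = ξ̄ |ξ|^2 ξ/(N^3 N_y^2) = v^2/N`.
`tr L v`: `∑_j dz j (dzb j v)`. `dzb j v = (N y)⁻¹ [y_j ξ/N - |ξ|^2 x_j/N^2]`;
`dz j` of it: `(N y)⁻¹ [y_j conj(y_j)/N - y_j ξ conj(x_j)/N^2 - (conj(y_j) ξ̄ x_j + |ξ|^2)/N^2 + 2 |ξ|^2 x_j conj(x_j)/N^3]`;
sum over `j`: `(N y)⁻¹ [N_y/N - |ξ|^2/N^2 - |ξ|^2/N^2 - 3|ξ|^2/N^2 + 2|ξ|^2/N^2] = (1 - 3 v)/N`.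
Powers: `dz j (v^k) = k v^(k-1) dz j v`; `tr L (v^k) = k v^(k-1) tr L v + k (k-1) v^(k-2) ∑ |dz j v|^2`, so for `k ≥ 1`
`N tr L (v^k) = k v^(k-1) (1 - 3v) + k(k-1) v^(k-1) (1 - v) = k^2 v^(k-1) - k (k+2) v^k`.
-/

open MeasureTheory
open scoped ContDiff BigOperators ComplexConjugate Matrix

namespace Pool.Agent.H85.DC

theorem vv_eq (x y : V) : vv x y = 1 - tau x y := by
  unfold vv tau
  ring

theorem vv_nonneg (x y : V) : 0 ≤ vv x y := by
  unfold vv
  exact div_nonneg (Complex.normSq_nonneg _) (mul_nonneg (N_nonneg x) (N_nonneg y))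

theorem vv_le_one (x y : V) : vv x y ≤ 1 := by
  rw [vv_eq]
  have := tau_nonneg x y
  linarith

theorem GrB_sum (y x : V) : ip x y = x 0 * conj (y 0) + x 1 * conj (y 1) + x 2 * conj (y 2) := by
  simp [ip, Fin.sum_univ_three]

theorem GrB_N (x : V) : (N x : ℂ) = x 0 * conj (x 0) + x 1 * conj (x 1) + x 2 * conj (x 2) := by
  simp only [N, Fin.sum_univ_three, Complex.ofReal_add, Complex.mul_conj]

theorem GrB_cip (y x : V) :
    conj (ip x y) = conj (x 0) * y 0 + conj (x 1) * y 1 + conj (x 2) * y 2 := by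
  rw [GrB_sum]
  simp only [map_add, map_mul, Complex.conj_conj]

theorem GrB_ip_diff (y x : V) : DifferentiableAt ℝ (fun x => ip x y) x := by
  unfold ip
  fun_prop

theorem GrB_cip_diff (y x : V) : DifferentiableAt ℝ (fun x => conj (ip x y)) x :=
  Complex.conjCLE.differentiableAt.comp x (GrB_ip_diff y x)

theorem GrB_term_diff (y x : V) (k : Fin 3) : DifferentiableAt ℝ (fun x : V => conj (y k) * x k) x := by
  fun_prop

theorem GrB_ip_eq (y : V) : (fun x => ip x y) = fun x => ∑ k ∈ Finset.univ, conj (y k) * x k := by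
  funext x
  unfold ip
  exact Finset.sum_congr rfl fun k _ => mul_comm _ _

theorem GrB_ip_dz (j : Fin 3) (y x : V) : dz j (fun x => ip x y) x = conj (y j) := by
  rw [GrB_ip_eq, dz_sum j Finset.univ (fun k (x : V) => conj (y k) * x k)
    (fun k _ => GrB_term_diff y x k)]
  have h : ∀ k ∈ Finset.univ, dz j (fun x : V => conj (y k) * x k) x =
      conj (y k) * (if j = k then 1 else 0) := by
    intro k _
    rw [dz_const_mul j (conj (y k)) (f := fun x : V => x k) (by fun_prop), dz_coord]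
  rw [Finset.sum_congr rfl h]
  simp

theorem GrB_ip_dzb (j : Fin 3) (y x : V) : dzb j (fun x => ip x y) x = 0 := by
  rw [GrB_ip_eq, dzb_sum j Finset.univ (fun k (x : V) => conj (y k) * x k)
    (fun k _ => GrB_term_diff y x k)]
  refine Finset.sum_eq_zero fun k _ => ?_
  rw [dzb_const_mul j (conj (y k)) (f := fun x : V => x k) (by fun_prop), dzb_coord, mul_zero]

theorem GrB_cip_dz (j : Fin 3) (y x : V) : dz j (fun x => conj (ip x y)) x = 0 := by
  rw [← conj_dzb j (fun x => ip x y), GrB_ip_dzb, map_zero]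

theorem GrB_cip_dzb (j : Fin 3) (y x : V) : dzb j (fun x => conj (ip x y)) x = y j := by
  rw [← conj_dz j (fun x => ip x y), GrB_ip_dz, Complex.conj_conj]

theorem GrB_v (y x : V) :
    ((vv x y : ℝ) : ℂ) = (N y : ℂ)⁻¹ * ((ip x y * conj (ip x y)) * (N x : ℂ)⁻¹) := by
  unfold vv
  push_cast
  rw [Complex.mul_conj, div_eq_mul_inv, mul_inv]
  ring

theorem GrB_Nc {x : V} (hx : x ≠ 0) : (N x : ℂ) ≠ 0 := by
  exact_mod_cast (N_pos hx).ne'

theorem GrB_Ni_diff {x : V} (hx : x ≠ 0) : DifferentiableAt ℝ (fun x => (N x : ℂ)⁻¹) x :=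
  hom_Ninv.diffAt hx

theorem GrB_Ni_dz (j : Fin 3) {x : V} (hx : x ≠ 0) :
    dz j (fun x => (N x : ℂ)⁻¹) x = -conj (x j) * (N x : ℂ)⁻¹ ^ 2 := by
  rw [dz_inv j (f := fun x => (N x : ℂ)) (hom_N.diffAt hx) (GrB_Nc hx), dz_N]
  field_simp

theorem GrB_Ni_dzb (j : Fin 3) {x : V} (hx : x ≠ 0) :
    dzb j (fun x => (N x : ℂ)⁻¹) x = -x j * (N x : ℂ)⁻¹ ^ 2 := by
  rw [dzb_inv j (f := fun x => (N x : ℂ)) (hom_N.diffAt hx) (GrB_Nc hx), dzb_N]
  field_simp

theorem GrB_dz (j : Fin 3) {y x : V} (hx : x ≠ 0) : dz j (fun x => ((vv x y : ℝ) : ℂ)) x =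
    (N y : ℂ)⁻¹ * (conj (y j) * conj (ip x y) * (N x : ℂ)⁻¹ -
      ip x y * conj (ip x y) * conj (x j) * (N x : ℂ)⁻¹ ^ 2) := by
  have h1 := GrB_ip_diff y x
  have h2 := GrB_cip_diff y x
  have h3 := GrB_Ni_diff hx
  have e : (fun x => ((vv x y : ℝ) : ℂ)) =
      fun x => (N y : ℂ)⁻¹ * ((ip x y * conj (ip x y)) * (N x : ℂ)⁻¹) := funext (GrB_v y)
  rw [e, dz_const_mul j _ (f := fun x => (ip x y * conj (ip x y)) * (N x : ℂ)⁻¹) ((h1.mul h2).mul h3),
    dz_mul j (f := fun x => ip x y * conj (ip x y)) (g := fun x => (N x : ℂ)⁻¹) (h1.mul h2) h3,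
    dz_mul j (f := fun x => ip x y) (g := fun x => conj (ip x y)) h1 h2, GrB_ip_dz, GrB_cip_dz,
    GrB_Ni_dz j hx]
  ring

theorem GrB_dzb (j : Fin 3) {y x : V} (hx : x ≠ 0) : dzb j (fun x => ((vv x y : ℝ) : ℂ)) x =
    (N y : ℂ)⁻¹ * (y j * (ip x y * (N x : ℂ)⁻¹) -
      ip x y * conj (ip x y) * (x j * (N x : ℂ)⁻¹ ^ 2)) := by
  have h1 := GrB_ip_diff y x
  have h2 := GrB_cip_diff y x
  have h3 := GrB_Ni_diff hx
  have e : (fun x => ((vv x y : ℝ) : ℂ)) =
      fun x => (N y : ℂ)⁻¹ * ((ip x y * conj (ip x y)) * (N x : ℂ)⁻¹) := funext (GrB_v y)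
  rw [e, dzb_const_mul j _ (f := fun x => (ip x y * conj (ip x y)) * (N x : ℂ)⁻¹) ((h1.mul h2).mul h3),
    dzb_mul j (f := fun x => ip x y * conj (ip x y)) (g := fun x => (N x : ℂ)⁻¹) (h1.mul h2) h3,
    dzb_mul j (f := fun x => ip x y) (g := fun x => conj (ip x y)) h1 h2, GrB_ip_dzb, GrB_cip_dzb,
    GrB_Ni_dzb j hx]
  ring

theorem GrB_dd (j : Fin 3) {y x : V} (hx : x ≠ 0) :
    dz j (dzb j (fun x => ((vv x y : ℝ) : ℂ))) x =
    (N y : ℂ)⁻¹ * (y j * (conj (y j) * (N x : ℂ)⁻¹ - ip x y * conj (x j) * (N x : ℂ)⁻¹ ^ 2) -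
      (conj (y j) * conj (ip x y) * x j * (N x : ℂ)⁻¹ ^ 2 +
        ip x y * conj (ip x y) * (N x : ℂ)⁻¹ ^ 2 -
        2 * (ip x y * conj (ip x y)) * (x j * conj (x j)) * (N x : ℂ)⁻¹ ^ 3)) := by
  have h1 := GrB_ip_diff y x
  have h2 := GrB_cip_diff y x
  have h3 := GrB_Ni_diff hx
  have hc : DifferentiableAt ℝ (fun x : V => x j) x := by fun_prop
  have d7 : DifferentiableAt ℝ (fun x : V => (N x : ℂ)⁻¹ * (N x : ℂ)⁻¹) x := h3.mul h3
  rw [dz_congr j hx (g := fun x => (N y : ℂ)⁻¹ * (y j * (ip x y * (N x : ℂ)⁻¹) -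
      ip x y * conj (ip x y) * (x j * (N x : ℂ)⁻¹ ^ 2))) (fun z hz => GrB_dzb j hz)]
  have e : (fun x => (N y : ℂ)⁻¹ * (y j * (ip x y * (N x : ℂ)⁻¹) -
      ip x y * conj (ip x y) * (x j * (N x : ℂ)⁻¹ ^ 2))) =
      fun x => (N y : ℂ)⁻¹ * (y j * (ip x y * (N x : ℂ)⁻¹) +
      (-1) * (ip x y * conj (ip x y) * (x j * ((N x : ℂ)⁻¹ * (N x : ℂ)⁻¹)))) := by
    funext x
    ring
  have d1 : DifferentiableAt ℝ (fun x => ip x y * (N x : ℂ)⁻¹) x := h1.mul h3
  have d2 : DifferentiableAt ℝ (fun x : V => x j * ((N x : ℂ)⁻¹ * (N x : ℂ)⁻¹)) x := hc.mul (h3.mul h3)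
  have d3 : DifferentiableAt ℝ (fun x => ip x y * conj (ip x y)) x := h1.mul h2
  have d4 : DifferentiableAt ℝ (fun x => ip x y * conj (ip x y) *
    (x j * ((N x : ℂ)⁻¹ * (N x : ℂ)⁻¹))) x := d3.mul d2
  have d5 : DifferentiableAt ℝ (fun x => y j * (ip x y * (N x : ℂ)⁻¹)) x := d1.const_mul _
  have d6 : DifferentiableAt ℝ (fun x => (-1) * (ip x y * conj (ip x y) *
    (x j * ((N x : ℂ)⁻¹ * (N x : ℂ)⁻¹)))) x := d4.const_mul _
  rw [e, dz_const_mul j _ (f := fun x => y j * (ip x y * (N x : ℂ)⁻¹) +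
      (-1) * (ip x y * conj (ip x y) * (x j * ((N x : ℂ)⁻¹ * (N x : ℂ)⁻¹)))) (d5.add d6),
    dz_add j d5 d6, dz_const_mul j _ d1, dz_const_mul j _ d4, dz_mul j h1 h3, dz_mul j d3 d2,
    dz_mul j h1 h2, dz_mul j hc d7, dz_mul j h3 h3, GrB_ip_dz, GrB_cip_dz,
    GrB_Ni_dz j hx, dz_coord, if_pos rfl]
  ring

theorem GrB_trL {y x : V} (hx : x ≠ 0) (hy : y ≠ 0) :
    ∑ j, dz j (dzb j (fun x => ((vv x y : ℝ) : ℂ))) x =
      (1 - 3 * ((vv x y : ℝ) : ℂ)) * (N x : ℂ)⁻¹ := by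
  have hN := GrB_Nc hx
  have hM := GrB_Nc hy
  have a1 := GrB_N x
  have a2 := GrB_N y
  have a3 := GrB_sum y x
  have a4 := GrB_cip y x
  rw [Fin.sum_univ_three, GrB_dd 0 hx, GrB_dd 1 hx, GrB_dd 2 hx, GrB_v]
  generalize conj (ip x y) = cξ at *
  generalize ip x y = ξ at *
  generalize (N x : ℂ) = n at *
  generalize (N y : ℂ) = M at *
  field_simp
  linear_combination (-n ^ 2) * a2 + (n * ξ) * a4 + (n * cξ) * a3 - (2 * ξ * cξ) * a1

theorem GrB_conj (y : V) : (fun x => conj (((vv x y : ℝ) : ℂ))) = fun x => ((vv x y : ℝ) : ℂ) := by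
  funext x
  exact Complex.conj_ofReal _

theorem GrB_gr {y x : V} (hx : x ≠ 0) (hy : y ≠ 0) :
    ∑ j, dz j (fun x => ((vv x y : ℝ) : ℂ)) x * dzb j (fun x => ((vv x y : ℝ) : ℂ)) x =
      ((vv x y : ℝ) : ℂ) * (1 - ((vv x y : ℝ) : ℂ)) * (N x : ℂ)⁻¹ := by
  have hN := GrB_Nc hx
  have hM := GrB_Nc hy
  have a1 := GrB_N x
  have a2 := GrB_N y
  have a3 := GrB_sum y x
  have a4 := GrB_cip y x
  rw [Fin.sum_univ_three, GrB_dz 0 hx, GrB_dz 1 hx, GrB_dz 2 hx, GrB_dzb 0 hx, GrB_dzb 1 hx,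
    GrB_dzb 2 hx, GrB_v]
  generalize conj (ip x y) = cξ at *
  generalize ip x y = ξ at *
  generalize (N x : ℂ) = n at *
  generalize (N y : ℂ) = M at *
  field_simp
  linear_combination (-(ξ * cξ * n ^ 2)) * a2 + (ξ ^ 2 * cξ * n) * a4 + (ξ * cξ ^ 2 * n) * a3 -
    (ξ ^ 2 * cξ ^ 2) * a1

theorem GrB_diff {y x : V} (hx : x ≠ 0) : DifferentiableAt ℝ (fun x => vv x y) x := by
  have h1 := GrB_ip_diff y x
  have h2 := GrB_cip_diff y x
  have h3 := GrB_Ni_diff hx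
  have e : (fun x => vv x y) =
      fun x => ((N y : ℂ)⁻¹ * ((ip x y * conj (ip x y)) * (N x : ℂ)⁻¹)).re := by
    funext x
    rw [← GrB_v, Complex.ofReal_re]
  rw [e]
  exact Complex.reCLM.differentiableAt.comp x (((h1.mul h2).mul h3).const_mul _)

theorem isFun_vv (y : V) (k : ℕ) : IsFun (fun x => ((vv x y ^ k : ℝ) : ℂ)) := by
  rw [isFun_iff]
  have h1 : Hom 1 0 (fun x => ip x y) := by
    rw [GrB_ip_eq]
    exact hom_sum Finset.univ (fun k (x : V) => conj (y k) * x k)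
      (fun k _ => hom_const_mul _ (hom_coord k))
  have h2 : Hom 0 1 (fun x => conj (ip x y)) := hom_conj h1
  have h3 := hom_const_mul (N y : ℂ)⁻¹ (hom_mul (hom_mul h1 h2) hom_Ninv)
  have h4 := hom_pow k h3
  have e : (fun x => ((vv x y ^ k : ℝ) : ℂ)) = fun x =>
      ((N y : ℂ)⁻¹ * (ip x y * conj (ip x y) * (N x : ℂ)⁻¹)) ^ k := by
    funext x
    rw [Complex.ofReal_pow, GrB_v]
  rw [e]
  norm_num at h4
  exact h4

theorem grad_v {x y : V} (hx : x ≠ 0) (hy : y ≠ 0) :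
    gr (fun x => ((vv x y : ℝ) : ℂ)) x = vv x y * (1 - vv x y) / N x := by
  have h1 := GrB_gr hx hy
  have h2 : ((gr (fun x => ((vv x y : ℝ) : ℂ)) x : ℝ) : ℂ) =
      ∑ j, dz j (fun x => ((vv x y : ℝ) : ℂ)) x * dzb j (fun x => ((vv x y : ℝ) : ℂ)) x := by
    unfold gr
    rw [Complex.ofReal_sum]
    refine Finset.sum_congr rfl fun j _ => ?_
    have h3 := conj_dz j (fun x => ((vv x y : ℝ) : ℂ)) x
    rw [GrB_conj] at h3
    rw [← Complex.mul_conj, h3]
  rw [h1] at h2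
  have h4 : ((gr (fun x => ((vv x y : ℝ) : ℂ)) x : ℝ) : ℂ) =
      ((vv x y * (1 - vv x y) / N x : ℝ) : ℂ) := by
    rw [h2]
    push_cast
    rw [div_eq_mul_inv]
  exact_mod_cast h4

theorem dz_vpow (j : Fin 3) {x y : V} (hx : x ≠ 0) (k : ℕ) :
    dz j (fun x => ((vv x y ^ (k + 1) : ℝ) : ℂ)) x =
      (((k : ℝ) + 1 : ℝ) : ℂ) * ((vv x y ^ k : ℝ) : ℂ) * dz j (fun x => ((vv x y : ℝ) : ℂ)) x := by
  have h1 : HasDerivAt (fun t : ℝ => t ^ (k + 1)) ((((k + 1 : ℕ) : ℝ)) * vv x y ^ k) (vv x y) := by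
    have := hasDerivAt_pow (k + 1) (vv x y)
    rwa [Nat.add_sub_cancel] at this
  have h2 := dz_comp_real j (g := fun t : ℝ => t ^ (k + 1)) (u := fun x => vv x y) h1 (GrB_diff hx)
  rw [h2]
  push_cast
  ring

theorem trL_vpow {x y : V} (hx : x ≠ 0) (hy : y ≠ 0) (k : ℕ) :
    (N x : ℂ) * (L (fun x => ((vv x y ^ (k + 1) : ℝ) : ℂ)) x).trace =
      (((((k : ℝ) + 1) ^ 2 * vv x y ^ k - ((k : ℝ) + 1) * ((k : ℝ) + 3) * vv x y ^ (k + 1) : ℝ)) : ℂ) := by
  have hN := GrB_Nc hx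
  have hb : ∀ (j : Fin 3) (z : V), z ≠ 0 → dzb j (fun x => ((vv x y ^ (k + 1) : ℝ) : ℂ)) z =
      (((k : ℝ) + 1 : ℝ) : ℂ) * (((vv z y ^ k : ℝ) : ℂ) * dzb j (fun x => ((vv x y : ℝ) : ℂ)) z) := by
    intro j z hz
    have h1 : HasDerivAt (fun t : ℝ => t ^ (k + 1)) ((((k + 1 : ℕ) : ℝ)) * vv z y ^ k) (vv z y) := by
      have := hasDerivAt_pow (k + 1) (vv z y)
      rwa [Nat.add_sub_cancel] at this
    have h2 := dzb_comp_real j (g := fun t : ℝ => t ^ (k + 1)) (u := fun x => vv x y) h1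
      (GrB_diff hz)
    rw [h2]
    push_cast
    ring
  have hH : Hom 0 0 (fun x => ((vv x y : ℝ) : ℂ)) := by
    have := isFun_iff.1 (isFun_vv y 1)
    simpa using this
  have hk1 : DifferentiableAt ℝ (fun x => ((vv x y ^ k : ℝ) : ℂ)) x :=
    (isFun_iff.1 (isFun_vv y k)).diffAt hx
  have hk2 : ∀ j, DifferentiableAt ℝ (dzb j (fun x => ((vv x y : ℝ) : ℂ))) x := fun j =>
    (dzb_hom j hH).diffAt hx
  have hj : ∀ j, L (fun x => ((vv x y ^ (k + 1) : ℝ) : ℂ)) x j j = (((k : ℝ) + 1 : ℝ) : ℂ) *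
      (dz j (fun x => ((vv x y ^ k : ℝ) : ℂ)) x * dzb j (fun x => ((vv x y : ℝ) : ℂ)) x +
        ((vv x y ^ k : ℝ) : ℂ) * dz j (dzb j (fun x => ((vv x y : ℝ) : ℂ))) x) := by
    intro j
    show dz j (dzb j (fun x => ((vv x y ^ (k + 1) : ℝ) : ℂ))) x = _
    rw [dz_congr j hx (hb j), dz_const_mul j _ (f := fun z => ((vv z y ^ k : ℝ) : ℂ) *
      dzb j (fun x => ((vv x y : ℝ) : ℂ)) z) (hk1.mul (hk2 j)), dz_mul j hk1 (hk2 j)]
  have hs : ∑ j, dz j (fun x => ((vv x y ^ k : ℝ) : ℂ)) x * dzb j (fun x => ((vv x y : ℝ) : ℂ)) x =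
      (k : ℂ) * ((vv x y : ℝ) : ℂ) ^ k * (1 - ((vv x y : ℝ) : ℂ)) * (N x : ℂ)⁻¹ := by
    cases k with
    | zero =>
      have e : (fun x => ((vv x y ^ 0 : ℝ) : ℂ)) = fun _ => (1 : ℂ) := by
        funext x
        simp
      rw [e]
      simp [dz_const]
    | succ k =>
      have e : ∀ j, dz j (fun x => ((vv x y ^ (k + 1) : ℝ) : ℂ)) x *
          dzb j (fun x => ((vv x y : ℝ) : ℂ)) x = ((k : ℂ) + 1) * ((vv x y : ℝ) : ℂ) ^ k *
          (dz j (fun x => ((vv x y : ℝ) : ℂ)) x * dzb j (fun x => ((vv x y : ℝ) : ℂ)) x) := by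
        intro j
        rw [dz_vpow j hx k]
        push_cast
        ring
      rw [Finset.sum_congr rfl fun j _ => e j, ← Finset.mul_sum, GrB_gr hx hy]
      push_cast
      ring
  have ht : (L (fun x => ((vv x y ^ (k + 1) : ℝ) : ℂ)) x).trace =
      ∑ j, L (fun x => ((vv x y ^ (k + 1) : ℝ) : ℂ)) x j j := rfl
  rw [ht, Finset.sum_congr rfl fun j _ => hj j, ← Finset.mul_sum, Finset.sum_add_distrib, hs,
    ← Finset.mul_sum, GrB_trL hx hy]
  push_cast
  field_simp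
  ring

end Pool.Agent.H85.DC

end S_H85_DC_GrB

section S_H85_DC_GrA

/-!
# Row GrA: the regularised Green potential

`green n f x = -(π^3)⁻¹ ∑_{k<n} (k+2)/(k+1) ∫ vv x y^(k+1) f y dν(y)`. `f` is assumed measurable and bounded off `0`.

Finite expansion: for `x ≠ 0`, `y ≠ 0`, `vv x y = ∑_{a : Fin 3 × Fin 3} (x_{a.1} conj(x_{a.2})/N x) * (conj(y_{a.1}) y_{a.2}/N y)`, so
(`Fintype.sum_pow`) `vv x y^(k+1) = ∑_{p : Fin (k+1) → Fin 3 × Fin 3} m_p(x) * conj-type(y)`, with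
`m_p(x) = ∏_i x_{(p i).1} conj(x_{(p i).2})/N x` (`IsFun`: product of `Hom 0 0` functions) and `n_p(y) = ∏_i conj(y_{(p i).1}) y_{(p i).2}/N y`
(`|n_p| ≤ 1`). So as a complex function of `x ≠ 0`: `∫ vv x y^(k+1) f y dν(y) = ∑_p c_p m_p(x)`,
`c_p = ∫ n_p(y) f y dν(y)` (the sum, not each term, is real). This proves `isFun_green` (finite sum of `Hom 0 0`), and for every
`j`: `dz j (∫ vv · y^(k+1) f dν) x = ∑_p c_p dz j m_p x = ∫ (∑_p n_p(y) dz j m_p x) f y dν(y) = ∫ dz j (vv · y^(k+1)) x f y dν(y)`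
(`dz_sum`, `integral_finset_sum`; for `ν`-a.e. `y`, `y ≠ 0`), and the same for `L`. (`IsFun` also wants the homogeneity at
`x = 0`: `l • 0 = 0`, trivial.)
`green_re`: the value is a real number cast to `ℂ`.
`dz_green`: with `dz_vpow`: `dz j (green n f) x = -(π^3)⁻¹ ∑_{k<n} (k+2) ∫ vv^k dz j vv f dν`.
`trL_green`: with `trL_vpow`: `N tr L(green) = -(π^3)⁻¹ ∑_{k<n} ∫ [(k+2)(k+1) v^k - (k+2)(k+3) v^(k+1)] f dν`, telescoping
(`Finset.sum_range_sub'`) `= -(π^3)⁻¹ ∫ [2 - (n+1)(n+2) v^n] f dν`.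
-/

open MeasureTheory
open scoped ContDiff BigOperators ComplexConjugate Matrix

namespace Pool.Agent.H85.DC

theorem GrA_sep (k : ℕ) : ∃ (ι : Type) (s : Finset ι) (m n : ι → V → ℂ), (∀ i, Hom 0 0 (m i)) ∧
    (∀ i, Measurable (n i)) ∧ (∀ i y, ‖n i y‖ ≤ 1) ∧
    ∀ x y, ((vv x y ^ k : ℝ) : ℂ) = ∑ i ∈ s, n i y * m i x := by
  induction k with
  | zero =>
    refine ⟨Unit, Finset.univ, fun _ _ => 1, fun _ _ => 1, fun _ => hom_const 1,
      fun _ => measurable_const, fun _ _ => by simp, fun x y => by simp⟩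
  | succ k ih =>
    obtain ⟨ι, s, m, n, hm, hn, hb, he⟩ := ih
    refine ⟨ι × (Fin 3 × Fin 3), s ×ˢ Finset.univ,
      fun i x => m i.1 x * (x i.2.1 * conj (x i.2.2) * ((N x : ℂ))⁻¹),
      fun i y => n i.1 y * (conj (y i.2.1) * y i.2.2 * ((N y : ℂ))⁻¹), fun i => ?_, fun i => ?_,
      fun i y => ?_, fun x y => ?_⟩
    · have h1 := hom_mul (hm i.1) (hom_mul (hom_mul (hom_coord i.2.1) (hom_conj_coord i.2.2)) hom_Ninv)
      simpa using h1
    · have h1 : Measurable (fun y : V => y i.2.1) := measurable_pi_apply _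
      have h2 : Measurable (fun y : V => y i.2.2) := measurable_pi_apply _
      have h3 : Measurable (fun y : V => ((N y : ℝ) : ℂ)) :=
        (Complex.continuous_ofReal.comp TauM_continuous_N).measurable
      have h4 : Measurable (fun y : V => conj (y i.2.1)) :=
        (Complex.continuous_conj.measurable).comp h1
      exact (hn i.1).mul ((h4.mul h2).mul h3.inv)
    · rw [norm_mul]
      have h1 : ‖conj (y i.2.1) * y i.2.2 * ((N y : ℂ))⁻¹‖ ≤ 1 := by
        rw [norm_mul, norm_mul, norm_inv, Complex.norm_conj, Complex.norm_real,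
          Real.norm_of_nonneg (TauM_N_nonneg y)]
        by_cases hy : N y = 0
        · rw [hy]; simp
        · have hy' : 0 < N y := lt_of_le_of_ne (TauM_N_nonneg y) (Ne.symm hy)
          rw [mul_inv_le_iff₀ hy', one_mul]
          have h2 : ∀ j, ‖y j‖ ^ 2 ≤ N y := by
            intro j
            rw [← Complex.normSq_eq_norm_sq]
            unfold N
            exact Finset.single_le_sum (f := fun j => Complex.normSq (y j))
              (fun i _ => Complex.normSq_nonneg (y i)) (Finset.mem_univ j)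
          have h3 := h2 i.2.1
          have h4 := h2 i.2.2
          nlinarith [sq_nonneg (‖y i.2.1‖ - ‖y i.2.2‖)]
      have h2 := hb i.1 y
      have h3 := norm_nonneg (n i.1 y)
      have h4 := norm_nonneg (conj (y i.2.1) * y i.2.2 * ((N y : ℂ))⁻¹)
      calc ‖n i.1 y‖ * ‖conj (y i.2.1) * y i.2.2 * ((N y : ℂ))⁻¹‖ ≤ 1 * 1 :=
            mul_le_mul h2 h1 h4 zero_le_one
        _ = 1 := one_mul 1
    · have h1 : ((vv x y : ℝ) : ℂ) = ∑ a : Fin 3 × Fin 3,
          (conj (y a.1) * y a.2 * ((N y : ℂ))⁻¹) * (x a.1 * conj (x a.2) * ((N x : ℂ))⁻¹) := by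
        have h2 : ((vv x y : ℝ) : ℂ) = ip x y * conj (ip x y) * ((N x : ℂ))⁻¹ * ((N y : ℂ))⁻¹ := by
          rw [Complex.mul_conj]
          unfold vv
          push_cast
          rw [div_eq_mul_inv, mul_inv]
          ring
        rw [h2]
        unfold ip
        rw [map_sum, Finset.sum_mul_sum, Finset.sum_mul, Finset.sum_mul, Fintype.sum_prod_type]
        refine Finset.sum_congr rfl fun a _ => ?_
        rw [Finset.sum_mul, Finset.sum_mul]
        refine Finset.sum_congr rfl fun b _ => ?_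
        rw [map_mul, Complex.conj_conj]
        ring
      have h2 : ((vv x y ^ (k + 1) : ℝ) : ℂ) = ((vv x y ^ k : ℝ) : ℂ) * ((vv x y : ℝ) : ℂ) := by
        push_cast
        ring
      rw [h2, he, h1, Finset.sum_mul_sum, Finset.sum_product]
      refine Finset.sum_congr rfl fun a _ => Finset.sum_congr rfl fun b _ => ?_
      ring

theorem GrA_bd {f : V → ℝ} (hf : AEStronglyMeasurable f (volume : Measure V)) {b : ℝ}
    (hb : ∀ y : V, y ≠ 0 → |f y| ≤ b) {n : V → ℂ} (hn : Measurable n) (hn1 : ∀ y, ‖n y‖ ≤ 1) :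
    Integrable (fun y => n y * (f y : ℂ)) nuP :=
  Integrable.bdd_mul (c := 1) (integrable_nuP hf hb).ofReal hn.aestronglyMeasurable
    (Filter.Eventually.of_forall hn1)

/-- the integral of a power against a function -/
noncomputable def GrA_I (f : V → ℝ) (k : ℕ) (x : V) : ℂ :=
  ((∫ y, vv x y ^ k * f y ∂nuP : ℝ) : ℂ)

theorem GrA_sum {f : V → ℝ} (hf : AEStronglyMeasurable f (volume : Measure V)) {b : ℝ}
    (hb : ∀ y : V, y ≠ 0 → |f y| ≤ b) {k : ℕ} {ι : Type} {s : Finset ι} {m n : ι → V → ℂ}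
    (hn : ∀ i, Measurable (n i)) (hn1 : ∀ i y, ‖n i y‖ ≤ 1)
    (he : ∀ x y, ((vv x y ^ k : ℝ) : ℂ) = ∑ i ∈ s, n i y * m i x) (x : V) :
    GrA_I f k x = ∑ i ∈ s, (∫ y, n i y * (f y : ℂ) ∂nuP) * m i x := by
  unfold GrA_I
  rw [← integral_complex_ofReal]
  have h1 : (fun y => (((vv x y ^ k * f y : ℝ)) : ℂ)) =
      fun y => ∑ i ∈ s, (n i y * (f y : ℂ)) * m i x := by
    funext y
    rw [Complex.ofReal_mul, he, Finset.sum_mul]
    refine Finset.sum_congr rfl fun i _ => ?_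
    ring
  rw [h1, integral_finsetSum _ fun i _ => (GrA_bd hf hb (hn i) (hn1 i)).mul_const _]
  refine Finset.sum_congr rfl fun i _ => ?_
  rw [integral_mul_const]

theorem GrA_I_hom {f : V → ℝ} (hf : AEStronglyMeasurable f (volume : Measure V)) {b : ℝ}
    (hb : ∀ y : V, y ≠ 0 → |f y| ≤ b) (k : ℕ) : Hom 0 0 (GrA_I f k) := by
  obtain ⟨ι, s, m, n, hm, hn, hn1, he⟩ := GrA_sep k
  have h1 : GrA_I f k = fun x => ∑ i ∈ s, (∫ y, n i y * (f y : ℂ) ∂nuP) * m i x := by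
    funext x
    exact GrA_sum hf hb hn hn1 he x
  rw [h1]
  exact hom_sum s _ fun i _ => hom_const_mul _ (hm i)

/-- local linear operators -/
structure GrA_Op (D : (V → ℂ) → ℂ) : Prop where
  lin : ∀ {ι : Type} (s : Finset ι) (c : ι → ℂ) (m : ι → V → ℂ), (∀ i, Hom 0 0 (m i)) →
    D (fun x => ∑ i ∈ s, c i * m i x) = ∑ i ∈ s, c i * D (m i)

theorem GrA_op_dz (j : Fin 3) {x : V} (hx : x ≠ 0) : GrA_Op (fun u => dz j u x) := by
  refine ⟨fun s c m hm => ?_⟩
  show dz j (fun x => ∑ i ∈ s, c i * m i x) x = ∑ i ∈ s, c i * dz j (m i) x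
  rw [dz_sum j s (fun i x => c i * m i x)
    fun i _ => ((hm i).diffAt hx).const_mul (c i)]
  exact Finset.sum_congr rfl fun i _ => dz_const_mul j (c i) ((hm i).diffAt hx)

theorem GrA_op_L (j k : Fin 3) {x : V} (hx : x ≠ 0) : GrA_Op (fun u => dz j (dzb k u) x) := by
  refine ⟨fun s c m hm => ?_⟩
  show dz j (dzb k (fun x => ∑ i ∈ s, c i * m i x)) x = ∑ i ∈ s, c i * dz j (dzb k (m i)) x
  have h1 : dz j (dzb k (fun x => ∑ i ∈ s, c i * m i x)) x =
      dz j (fun x => ∑ i ∈ s, c i * dzb k (m i) x) x := by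
    refine dz_congr j hx fun y hy => ?_
    rw [dzb_sum k s (fun i x => c i * m i x)
      fun i _ => ((hm i).diffAt hy).const_mul (c i)]
    exact Finset.sum_congr rfl fun i _ => dzb_const_mul k (c i) ((hm i).diffAt hy)
  rw [h1, dz_sum j s (fun i x => c i * dzb k (m i) x)
    fun i _ => ((dzb_hom k (hm i)).diffAt hx).const_mul (c i)]
  exact Finset.sum_congr rfl fun i _ => dz_const_mul j (c i) ((dzb_hom k (hm i)).diffAt hx)

theorem GrA_op_tr {x : V} (hx : x ≠ 0) : GrA_Op (fun u => (L u x).trace) := by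
  refine ⟨fun s c m hm => ?_⟩
  have h0 : ∀ u : V → ℂ, (L u x).trace = ∑ j, dz j (dzb j u) x := fun u => rfl
  rw [h0]
  have h1 : ∀ j, dz j (dzb j (fun x => ∑ i ∈ s, c i * m i x)) x =
      ∑ i ∈ s, c i * dz j (dzb j (m i)) x := fun j => (GrA_op_L j j hx).lin s c m hm
  rw [Finset.sum_congr rfl fun j _ => h1 j, Finset.sum_comm]
  refine Finset.sum_congr rfl fun i _ => ?_
  rw [h0, Finset.mul_sum]

theorem GrA_int {D : (V → ℂ) → ℂ} (hD : GrA_Op D) {f : V → ℝ}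
    (hf : AEStronglyMeasurable f (volume : Measure V)) {b : ℝ}
    (hb : ∀ y : V, y ≠ 0 → |f y| ≤ b) (k : ℕ) :
    D (GrA_I f k) = ∫ y, D (fun x => ((vv x y ^ k : ℝ) : ℂ)) * (f y : ℂ) ∂nuP := by
  obtain ⟨ι, s, m, n, hm, hn, hn1, he⟩ := GrA_sep k
  have h1 : GrA_I f k = fun x => ∑ i ∈ s, (∫ y, n i y * (f y : ℂ) ∂nuP) * m i x := by
    funext x
    exact GrA_sum hf hb hn hn1 he x
  have h2 : ∀ y, D (fun x => ((vv x y ^ k : ℝ) : ℂ)) = ∑ i ∈ s, n i y * D (m i) := by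
    intro y
    have h3 : (fun x => ((vv x y ^ k : ℝ) : ℂ)) = fun x => ∑ i ∈ s, n i y * m i x := by
      funext x
      exact he x y
    rw [h3, hD.lin s (fun i => n i y) m hm]
  rw [h1, hD.lin s _ m hm]
  have h4 : (fun y => D (fun x => ((vv x y ^ k : ℝ) : ℂ)) * (f y : ℂ)) =
      fun y => ∑ i ∈ s, (n i y * (f y : ℂ)) * D (m i) := by
    funext y
    rw [h2, Finset.sum_mul]
    refine Finset.sum_congr rfl fun i _ => ?_
    ring
  rw [h4, integral_finsetSum _ fun i _ => (GrA_bd hf hb (hn i) (hn1 i)).mul_const _]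
  refine Finset.sum_congr rfl fun i _ => ?_
  rw [integral_mul_const]

/-- the integrands are integrable -/
theorem GrA_integrable {D : (V → ℂ) → ℂ} (hD : GrA_Op D) {f : V → ℝ}
    (hf : AEStronglyMeasurable f (volume : Measure V)) {b : ℝ}
    (hb : ∀ y : V, y ≠ 0 → |f y| ≤ b) (k : ℕ) :
    Integrable (fun y => D (fun x => ((vv x y ^ k : ℝ) : ℂ)) * (f y : ℂ)) nuP := by
  obtain ⟨ι, s, m, n, hm, hn, hn1, he⟩ := GrA_sep k
  have h4 : (fun y => D (fun x => ((vv x y ^ k : ℝ) : ℂ)) * (f y : ℂ)) =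
      fun y => ∑ i ∈ s, (n i y * (f y : ℂ)) * D (m i) := by
    funext y
    have h3 : (fun x => ((vv x y ^ k : ℝ) : ℂ)) = fun x => ∑ i ∈ s, n i y * m i x := by
      funext x
      exact he x y
    rw [h3, hD.lin s (fun i => n i y) m hm, Finset.sum_mul]
    refine Finset.sum_congr rfl fun i _ => ?_
    ring
  rw [h4]
  exact integrable_finsetSum _ fun i _ => (GrA_bd hf hb (hn i) (hn1 i)).mul_const _

theorem GrA_green (n : ℕ) (f : V → ℝ) : green n f = fun x => ∑ k ∈ Finset.range n,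
    ((-(Real.pi ^ 3)⁻¹ * (((k : ℝ) + 2) / ((k : ℝ) + 1)) : ℝ) : ℂ) * GrA_I f (k + 1) x := by
  funext x
  unfold green GrA_I
  rw [Finset.mul_sum, Complex.ofReal_sum]
  refine Finset.sum_congr rfl fun k _ => ?_
  rw [← Complex.ofReal_mul]
  congr 1
  ring

theorem GrA_D {D : (V → ℂ) → ℂ} (hD : GrA_Op D) (n : ℕ) {f : V → ℝ}
    (hf : AEStronglyMeasurable f (volume : Measure V)) {b : ℝ}
    (hb : ∀ y : V, y ≠ 0 → |f y| ≤ b) :
    D (green n f) = ∑ k ∈ Finset.range n,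
      ((-(Real.pi ^ 3)⁻¹ * (((k : ℝ) + 2) / ((k : ℝ) + 1)) : ℝ) : ℂ) *
        ∫ y, D (fun x => ((vv x y ^ (k + 1) : ℝ) : ℂ)) * (f y : ℂ) ∂nuP := by
  rw [GrA_green, hD.lin _ _ _ fun k => GrA_I_hom hf hb (k + 1)]
  refine Finset.sum_congr rfl fun k _ => ?_
  rw [GrA_int hD hf hb]

theorem GrA_ae : ∀ᵐ y ∂nuP, (y : V) ≠ 0 := nuP_ac.ae_le NuA_ae_ne

theorem GrA_vm (x : V) : Measurable (fun y : V => vv x y) := by
  have h1 : ∀ j : Fin 3, Measurable (fun y : V => y j) := fun j => measurable_pi_apply j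
  have h2 : Measurable (fun y : V => ip x y) := by
    unfold ip
    exact Finset.measurable_fun_sum _ fun j _ =>
      (Complex.continuous_conj.measurable.comp (h1 j)).const_mul (x j)
  have h3 : Measurable (fun y : V => Complex.normSq (ip x y)) :=
    Complex.continuous_normSq.measurable.comp h2
  have h4 : Measurable (fun y : V => N y) := TauM_continuous_N.measurable
  exact h3.div (h4.const_mul (N x))

theorem GrA_vint {f : V → ℝ} (hf : AEStronglyMeasurable f (volume : Measure V)) {b : ℝ}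
    (hb : ∀ y : V, y ≠ 0 → |f y| ≤ b) (x : V) (k : ℕ) :
    Integrable (fun y => vv x y ^ k * f y) nuP := by
  have hm : Measurable (fun y : V => vv x y) := GrA_vm x
  refine Integrable.bdd_mul (c := 1) (integrable_nuP hf hb) (hm.pow_const k).aestronglyMeasurable
    (Filter.Eventually.of_forall fun y => ?_)
  rw [norm_pow, Real.norm_of_nonneg (vv_nonneg x y)]
  exact pow_le_one₀ (vv_nonneg x y) (vv_le_one x y)

theorem isFun_green (n : ℕ) {f : V → ℝ} (hf : AEStronglyMeasurable f (volume : Measure V)) {b : ℝ}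
    (hb : ∀ y : V, y ≠ 0 → |f y| ≤ b) : IsFun (green n f) := by
  rw [isFun_iff, GrA_green]
  exact hom_sum _ _ fun k _ => hom_const_mul _ (GrA_I_hom hf hb (k + 1))

theorem isRe_green (n : ℕ) (f : V → ℝ) : IsRe (green n f) := by
  intro x
  unfold green
  exact Complex.conj_ofReal _

theorem dz_green (n : ℕ) {f : V → ℝ} (hf : AEStronglyMeasurable f (volume : Measure V)) {b : ℝ}
    (hb : ∀ y : V, y ≠ 0 → |f y| ≤ b) (j : Fin 3) {x : V} (hx : x ≠ 0) :
    dz j (green n f) x =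
      -((Real.pi ^ 3 : ℝ) : ℂ)⁻¹ * ∑ k ∈ Finset.range n, (((k : ℝ) + 2 : ℝ) : ℂ) *
        ∫ y, ((vv x y ^ k : ℝ) : ℂ) * dz j (fun x => ((vv x y : ℝ) : ℂ)) x * (f y : ℂ) ∂nuP := by
  have h1 := GrA_D (GrA_op_dz j hx) n hf hb
  have h2 : dz j (green n f) x = _ := h1
  rw [h2, Finset.mul_sum]
  refine Finset.sum_congr rfl fun k _ => ?_
  have h3 : (fun y => dz j (fun x => ((vv x y ^ (k + 1) : ℝ) : ℂ)) x * (f y : ℂ)) =
      fun y => (((k : ℝ) + 1 : ℝ) : ℂ) *
        (((vv x y ^ k : ℝ) : ℂ) * dz j (fun x => ((vv x y : ℝ) : ℂ)) x * (f y : ℂ)) := by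
    funext y
    rw [dz_vpow j hx k]
    ring
  have h4 : ∫ y, dz j (fun x => ((vv x y ^ (k + 1) : ℝ) : ℂ)) x * (f y : ℂ) ∂nuP =
      (((k : ℝ) + 1 : ℝ) : ℂ) *
        ∫ y, ((vv x y ^ k : ℝ) : ℂ) * dz j (fun x => ((vv x y : ℝ) : ℂ)) x * (f y : ℂ) ∂nuP := by
    rw [h3, integral_const_mul]
  rw [h4]
  generalize ∫ y, ((vv x y ^ k : ℝ) : ℂ) * dz j (fun x => ((vv x y : ℝ) : ℂ)) x * (f y : ℂ) ∂nuP = W
  have h5 : ((k : ℂ) + 1) ≠ 0 := by exact_mod_cast Nat.succ_ne_zero k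
  have h6 : ((Real.pi : ℝ) : ℂ) ^ 3 ≠ 0 := pow_ne_zero 3 (by exact_mod_cast Real.pi_pos.ne')
  push_cast
  field_simp

theorem trL_green (n : ℕ) {f : V → ℝ} (hf : AEStronglyMeasurable f (volume : Measure V)) {b : ℝ}
    (hb : ∀ y : V, y ≠ 0 → |f y| ≤ b) {x : V} (hx : x ≠ 0) :
    (N x : ℂ) * (L (green n f) x).trace =
      (((Real.pi ^ 3)⁻¹ * ∫ y, (((n : ℝ) + 1) * ((n : ℝ) + 2) * vv x y ^ n - 2) * f y ∂nuP : ℝ) : ℂ) := by
  have h1 := GrA_D (GrA_op_tr hx) n hf hb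
  have h2 : (L (green n f) x).trace = _ := h1
  rw [h2, Finset.mul_sum]
  have key : ∀ k ∈ Finset.range n, (N x : ℂ) *
      (((-(Real.pi ^ 3)⁻¹ * (((k : ℝ) + 2) / ((k : ℝ) + 1)) : ℝ) : ℂ) *
        ∫ y, (L (fun x => ((vv x y ^ (k + 1) : ℝ) : ℂ)) x).trace * (f y : ℂ) ∂nuP) =
      (((Real.pi ^ 3)⁻¹ * ((((k + 1 : ℕ) : ℝ) + 1) * (((k + 1 : ℕ) : ℝ) + 2) *
        ∫ y, vv x y ^ (k + 1) * f y ∂nuP) - (Real.pi ^ 3)⁻¹ * (((k : ℝ) + 1) * ((k : ℝ) + 2) *
        ∫ y, vv x y ^ k * f y ∂nuP) : ℝ) : ℂ) := by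
    intro k _
    have h3 : (N x : ℂ) * ∫ y, (L (fun x => ((vv x y ^ (k + 1) : ℝ) : ℂ)) x).trace * (f y : ℂ) ∂nuP =
        ((((k : ℝ) + 1) ^ 2 * (∫ y, vv x y ^ k * f y ∂nuP) -
          ((k : ℝ) + 1) * ((k : ℝ) + 3) * ∫ y, vv x y ^ (k + 1) * f y ∂nuP : ℝ) : ℂ) := by
      rw [← integral_const_mul, ← integral_const_mul, ← integral_const_mul,
        ← integral_sub ((GrA_vint hf hb x k).const_mul _) ((GrA_vint hf hb x (k + 1)).const_mul _),
        ← integral_complex_ofReal]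
      refine integral_congr_ae ?_
      filter_upwards [GrA_ae] with y hy
      rw [← mul_assoc, trL_vpow hx hy k]
      push_cast
      ring
    have h4 : (N x : ℂ) *
      (((-(Real.pi ^ 3)⁻¹ * (((k : ℝ) + 2) / ((k : ℝ) + 1)) : ℝ) : ℂ) *
        ∫ y, (L (fun x => ((vv x y ^ (k + 1) : ℝ) : ℂ)) x).trace * (f y : ℂ) ∂nuP) =
      ((-(Real.pi ^ 3)⁻¹ * (((k : ℝ) + 2) / ((k : ℝ) + 1)) : ℝ) : ℂ) *
      ((N x : ℂ) * ∫ y, (L (fun x => ((vv x y ^ (k + 1) : ℝ) : ℂ)) x).trace * (f y : ℂ) ∂nuP) := by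
      ring
    rw [h4, h3, ← Complex.ofReal_mul]
    congr 1
    generalize ∫ y, vv x y ^ k * f y ∂nuP = A
    generalize ∫ y, vv x y ^ (k + 1) * f y ∂nuP = B
    have h5 : ((k : ℝ) + 1) ≠ 0 := by positivity
    have h6 : Real.pi ^ 3 ≠ 0 := pow_ne_zero 3 Real.pi_pos.ne'
    push_cast
    field_simp
    ring
  rw [Finset.sum_congr rfl key, ← Complex.ofReal_sum]
  congr 1
  rw [Finset.sum_range_sub (fun k : ℕ => (Real.pi ^ 3)⁻¹ * (((k : ℝ) + 1) * ((k : ℝ) + 2) *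
        ∫ y, vv x y ^ k * f y ∂nuP)) n]
  have h7 : ∫ y, (((n : ℝ) + 1) * ((n : ℝ) + 2) * vv x y ^ n - 2) * f y ∂nuP =
      ((n : ℝ) + 1) * ((n : ℝ) + 2) * (∫ y, vv x y ^ n * f y ∂nuP) - 2 * ∫ y, f y ∂nuP := by
    rw [← integral_const_mul, ← integral_const_mul,
      ← integral_sub ((GrA_vint hf hb x n).const_mul _) ((integrable_nuP hf hb).const_mul _)]
    congr 1
    funext y
    ring
  rw [h7]
  simp only [Nat.cast_zero, pow_zero, one_mul, zero_add]
  ring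

end Pool.Agent.H85.DC

end S_H85_DC_GrA

section S_H85_DC_NuB

/-!
# Row NuB: the distribution of `τ(x, ·)` under `nuP`

Claim: for `x ≠ 0` the image of `nuP` under `tau x ·` is the measure `π^3 s ds` on `[0,1]`.
Proof. Both are finite measures carried by `[0,1]`. For every `n`,
`∫ (1 - s)^n d(image) = ∫ vv^n dν = π^3/((n+1)(n+2)) = π^3 ∫_0^1 (1-s)^n s ds` (`moment`; `tau = 1 - vv`;
`∫_0^1 (1-s)^n s ds = ∫_0^1 v^n (1-v) dv = 1/(n+1) - 1/(n+2)`). By linearity the integrals of all polynomials in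
`1 - s`, i.e. all polynomials, agree; by Weierstrass (`polynomialFunctions.topologicalClosure` or
`exists_polynomial_near_of_continuousOn`) the integrals of all bounded continuous functions agree (finite measures,
uniform approximation on `[0,1]`, which carries both), so the measures agree
(`MeasureTheory.ext_of_forall_integral_eq_of_IsFiniteMeasure`). Then `lintegral_map`.
The three consequences: `∫_{τ<b} τ^{-3/2} = π^3 ∫_0^b s^{-1/2} ds`, `∫_{τ ≥ b} τ^{-3} = π^3 ∫_b^1 s^{-2} ds ≤ π^3/b`,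
`∫ exp(-τ/a) = π^3 ∫ s e^{-s/a} ds ≤ π^3 a^2`, `nuP {τ < s} ≤ π^3 s^2`. All are stated with `lintegral`, so no
integrability is needed; compute the one-dimensional integrals with `ofReal_integral_eq_lintegral_ofReal`.
-/

open MeasureTheory
open scoped ContDiff BigOperators ComplexConjugate Matrix

namespace Pool.Agent.H85.DC

private theorem NuB_pow_int {μ : Measure ℝ} [IsFiniteMeasure μ] (hμ : μ (Set.Icc 0 1)ᶜ = 0) (n : ℕ) :
    Integrable (fun s : ℝ => (1 - s) ^ n) μ := by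
  refine Integrable.of_bound (by fun_prop) 1 ?_
  have h1 : ∀ᵐ s ∂μ, s ∈ Set.Icc (0 : ℝ) 1 := by
    rw [ae_iff]
    exact hμ
  filter_upwards [h1] with s hs
  rw [Real.norm_eq_abs, abs_of_nonneg (pow_nonneg (by linarith [hs.2]) n)]
  exact pow_le_one₀ (by linarith [hs.2]) (by linarith [hs.1])

private theorem NuB_ext {μ ν : Measure ℝ} [IsFiniteMeasure μ] [IsFiniteMeasure ν]
    (hμ : μ (Set.Icc 0 1)ᶜ = 0) (hν : ν (Set.Icc 0 1)ᶜ = 0)
    (h : ∀ n : ℕ, ∫ s, (1 - s) ^ n ∂μ = ∫ s, (1 - s) ^ n ∂ν) : μ = ν := by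
  refine ext_of_forall_integral_eq_of_IsFiniteMeasure fun f => ?_
  have hmon : ∀ q : Polynomial ℝ, ∫ s, q.eval (1 - s) ∂μ = ∫ s, q.eval (1 - s) ∂ν := by
    intro q
    have h1 : ∀ s : ℝ, q.eval (1 - s) =
        ∑ i ∈ Finset.range (q.natDegree + 1), q.coeff i * (1 - s) ^ i := fun s =>
      Polynomial.eval_eq_sum_range _
    simp only [h1]
    rw [integral_finsetSum _ fun i _ => (NuB_pow_int hμ i).const_mul _,
      integral_finsetSum _ fun i _ => (NuB_pow_int hν i).const_mul _]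
    refine Finset.sum_congr rfl fun i _ => ?_
    rw [integral_const_mul, integral_const_mul, h]
  have hqint : ∀ (μ : Measure ℝ) [IsFiniteMeasure μ] (_ : μ (Set.Icc 0 1)ᶜ = 0)
      (q : Polynomial ℝ), Integrable (fun s : ℝ => q.eval (1 - s)) μ := by
    intro μ _ hμ q
    have h1 : ∀ s : ℝ, q.eval (1 - s) =
        ∑ i ∈ Finset.range (q.natDegree + 1), q.coeff i * (1 - s) ^ i := fun s =>
      Polynomial.eval_eq_sum_range _
    simp only [h1]
    exact integrable_finsetSum _ fun i _ => (NuB_pow_int hμ i).const_mul _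
  have hclose : ∀ (μ : Measure ℝ) [IsFiniteMeasure μ] (_ : μ (Set.Icc 0 1)ᶜ = 0)
      (q : Polynomial ℝ) (e : ℝ), (∀ s ∈ Set.Icc (0 : ℝ) 1, |q.eval (1 - s) - f s| < e) →
      |∫ s, q.eval (1 - s) ∂μ - ∫ s, f s ∂μ| ≤ e * μ.real Set.univ := by
    intro μ _ hμ q e he
    rw [← integral_sub (hqint μ hμ q) (f.integrable μ), ← Real.norm_eq_abs]
    refine norm_integral_le_of_norm_le_const ?_
    have h1 : ∀ᵐ s ∂μ, s ∈ Set.Icc (0 : ℝ) 1 := by
      rw [ae_iff]
      exact hμ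
    filter_upwards [h1] with s hs
    rw [Real.norm_eq_abs]
    exact (he s hs).le
  by_contra hne
  have hpos : 0 < |∫ s, f s ∂μ - ∫ s, f s ∂ν| := abs_pos.2 (sub_ne_zero.2 hne)
  obtain ⟨C, hC⟩ : ∃ C : ℝ, C = μ.real Set.univ + ν.real Set.univ + 1 := ⟨_, rfl⟩
  have hCpos : 0 < C := by
    have := measureReal_nonneg (μ := μ) (s := Set.univ)
    have := measureReal_nonneg (μ := ν) (s := Set.univ)
    linarith
  obtain ⟨e, he⟩ : ∃ e : ℝ, e = |∫ s, f s ∂μ - ∫ s, f s ∂ν| / (2 * C) := ⟨_, rfl⟩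
  have hepos : 0 < e := by rw [he]; positivity
  obtain ⟨q, hq⟩ := exists_polynomial_near_of_continuousOn 0 1 (fun v => f (1 - v))
    (f.continuous.comp (continuous_const.sub continuous_id)).continuousOn e hepos
  have hq' : ∀ s ∈ Set.Icc (0 : ℝ) 1, |q.eval (1 - s) - f s| < e := by
    intro s hs
    have h1 := hq (1 - s) ⟨by linarith [hs.2], by linarith [hs.1]⟩
    rwa [sub_sub_cancel] at h1
  have h1 := hclose μ hμ q e hq'
  have h2 := hclose ν hν q e hq'
  rw [hmon q] at h1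
  have h3 : |∫ s, f s ∂μ - ∫ s, f s ∂ν| ≤ e * C := by
    have h4 : ∫ s, f s ∂μ - ∫ s, f s ∂ν = (∫ s, q.eval (1 - s) ∂ν - ∫ s, f s ∂ν) -
      (∫ s, q.eval (1 - s) ∂ν - ∫ s, f s ∂μ) := by ring
    rw [h4]
    refine (abs_sub _ _).trans ?_
    rw [hC]
    nlinarith [h1, h2, hepos]
  have h5 : e * C = |∫ s, f s ∂μ - ∫ s, f s ∂ν| / 2 := by
    rw [he]
    field_simp
  rw [h5] at h3
  linarith

private theorem NuB_tau_meas (x : V) : Measurable (fun y => tau x y) := by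
  have h : Measurable (fun y : V => (x, y)) := measurable_prodMk_left
  have h2 := measurable_tau.comp h
  exact h2

private theorem NuB_int (n : ℕ) : ∫ s in Set.Icc (0 : ℝ) 1, (1 - s) ^ n * s =
    1 / (((n : ℝ) + 1) * ((n : ℝ) + 2)) := by
  rw [integral_Icc_eq_integral_Ioc, ← intervalIntegral.integral_of_le zero_le_one]
  have h1 := intervalIntegral.integral_comp_sub_left (a := 0) (b := 1)
    (fun v : ℝ => v ^ n * (1 - v)) 1
  simp only [sub_sub_cancel, sub_self, sub_zero] at h1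
  rw [h1]
  have h2 : ∀ v : ℝ, v ^ n * (1 - v) = v ^ n - v ^ (n + 1) := fun v => by ring
  simp only [h2]
  rw [intervalIntegral.integral_sub (by simp) (by simp), integral_pow, integral_pow]
  have h3 : (n : ℝ) + 1 ≠ 0 := by positivity
  have h4 : (n : ℝ) + 2 ≠ 0 := by positivity
  have h5 : (((n + 1 : ℕ) : ℝ)) + 1 = (n : ℝ) + 2 := by push_cast; ring
  rw [h5]
  simp only [one_pow]
  rw [zero_pow (by omega), zero_pow (by omega)]
  field_simp
  ring

private theorem NuB_map {x : V} (hx : x ≠ 0) : nuP.map (tau x) =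
    (volume.restrict (Set.Icc (0 : ℝ) 1)).withDensity
      (fun s => ENNReal.ofReal (Real.pi ^ 3 * s)) := by
  have hm := NuB_tau_meas x
  have hf1 : IsFiniteMeasure (nuP.map (tau x)) := inferInstance
  have hint : Integrable (fun s : ℝ => Real.pi ^ 3 * s) (volume.restrict (Set.Icc (0 : ℝ) 1)) := by
    have : IntegrableOn (fun s : ℝ => Real.pi ^ 3 * s) (Set.Icc (0 : ℝ) 1) :=
      (continuous_const.mul continuous_id).continuousOn.integrableOn_Icc
    exact this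
  have hf2 : IsFiniteMeasure ((volume.restrict (Set.Icc (0 : ℝ) 1)).withDensity
      (fun s => ENNReal.ofReal (Real.pi ^ 3 * s))) := isFiniteMeasure_withDensity_ofReal hint.2
  refine NuB_ext ?_ ?_ fun n => ?_
  · rw [Measure.map_apply hm measurableSet_Icc.compl]
    have h1 : tau x ⁻¹' (Set.Icc 0 1)ᶜ = ∅ := by
      ext y
      simp only [Set.mem_preimage, Set.mem_compl_iff, Set.mem_empty_iff_false, iff_false, not_not]
      exact ⟨tau_nonneg x y, tau_le_one x y⟩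
    rw [h1, measure_empty]
  · apply withDensity_absolutelyContinuous
    rw [Measure.restrict_apply measurableSet_Icc.compl, Set.compl_inter_self, measure_empty]
  · rw [integral_map hm.aemeasurable (by fun_prop),
      integral_withDensity_eq_integral_toReal_smul (by fun_prop)
        (Filter.Eventually.of_forall fun _ => ENNReal.ofReal_lt_top)]
    have h1 : ∀ y, (1 - tau x y) ^ n = vv x y ^ n := by
      intro y
      rw [tau, sub_sub_cancel]
      rfl
    rw [integral_congr_ae (Filter.Eventually.of_forall h1), moment n hx]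
    have h2 : ∫ s in Set.Icc (0 : ℝ) 1, (ENNReal.ofReal (Real.pi ^ 3 * s)).toReal • (1 - s) ^ n =
        ∫ s in Set.Icc (0 : ℝ) 1, Real.pi ^ 3 * ((1 - s) ^ n * s) := by
      refine setIntegral_congr_fun measurableSet_Icc fun s hs => ?_
      show (ENNReal.ofReal (Real.pi ^ 3 * s)).toReal • (1 - s) ^ n = Real.pi ^ 3 * ((1 - s) ^ n * s)
      rw [ENNReal.toReal_ofReal (mul_nonneg (by positivity) hs.1), smul_eq_mul]
      ring
    rw [h2, integral_const_mul, NuB_int]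
    ring

theorem nu_tau {x : V} (hx : x ≠ 0) {g : ℝ → ENNReal} (hg : Measurable g) :
    ∫⁻ y, g (tau x y) ∂nuP =
      ENNReal.ofReal (Real.pi ^ 3) * ∫⁻ s in Set.Icc (0 : ℝ) 1, g s * ENNReal.ofReal s := by
  have h1 := lintegral_map (μ := nuP) hg (NuB_tau_meas x)
  rw [← h1, NuB_map hx, lintegral_withDensity_eq_lintegral_mul _ (by fun_prop) hg,
    ← lintegral_const_mul _ (by fun_prop)]
  refine setLIntegral_congr_fun measurableSet_Icc fun s hs => ?_
  simp only [Pi.mul_apply]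
  rw [ENNReal.ofReal_mul (by positivity)]
  ring

theorem nu_small {x : V} (hx : x ≠ 0) {s : ℝ} (hs : 0 ≤ s) :
    nuP {y | tau x y < s} ≤ ENNReal.ofReal (Real.pi ^ 3 * s ^ 2) := by
  have hms : MeasurableSet {y | tau x y < s} := measurableSet_lt (NuB_tau_meas x) measurable_const
  have h1 : nuP {y | tau x y < s} =
      ∫⁻ y, (Set.Iio s).indicator (fun _ => (1 : ENNReal)) (tau x y) ∂nuP := by
    have h2 : (fun y => (Set.Iio s).indicator (fun _ => (1 : ENNReal)) (tau x y)) =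
        {y | tau x y < s}.indicator (fun _ => (1 : ENNReal)) := by
      funext y
      by_cases h : tau x y < s
      · rw [Set.indicator_of_mem (show tau x y ∈ Set.Iio s from h),
          Set.indicator_of_mem (show y ∈ {y | tau x y < s} from h)]
      · rw [Set.indicator_of_notMem (show tau x y ∉ Set.Iio s from h),
          Set.indicator_of_notMem (show y ∉ {y | tau x y < s} from h)]
    rw [h2, lintegral_indicator hms, setLIntegral_one]
  rw [h1, nu_tau hx (measurable_const.indicator measurableSet_Iio), ENNReal.ofReal_mul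
    (by positivity)]
  refine mul_le_mul_right ?_ _
  have h3 : ∫⁻ s' in Set.Icc (0 : ℝ) 1, (Set.Iio s).indicator (fun _ => (1 : ENNReal)) s' *
      ENNReal.ofReal s' ≤ ∫⁻ s' in Set.Icc (0 : ℝ) s, ENNReal.ofReal s := by
    rw [← lintegral_indicator measurableSet_Icc, ← lintegral_indicator measurableSet_Icc]
    refine lintegral_mono fun s' => ?_
    by_cases h4 : s' ∈ Set.Icc (0 : ℝ) 1
    · rw [Set.indicator_of_mem h4]
      by_cases h5 : s' < s
      · rw [Set.indicator_of_mem (show s' ∈ Set.Iio s from h5), one_mul,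
          Set.indicator_of_mem (show s' ∈ Set.Icc (0 : ℝ) s from ⟨h4.1, h5.le⟩)]
        exact ENNReal.ofReal_le_ofReal h5.le
      · rw [Set.indicator_of_notMem (show s' ∉ Set.Iio s from h5), zero_mul]
        exact zero_le
    · rw [Set.indicator_of_notMem h4]
      exact zero_le
  refine h3.trans ?_
  rw [setLIntegral_const, Real.volume_Icc, sub_zero, ← ENNReal.ofReal_mul hs, sq]

theorem nu_sing {x : V} (hx : x ≠ 0) {b : ℝ} (hb : 0 ≤ b) :
    ∫⁻ y in {y | tau x y < b}, ENNReal.ofReal ((tau x y) ^ (-(3 / 2) : ℝ)) ∂nuP ≤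
      ENNReal.ofReal (2 * Real.pi ^ 3 * Real.sqrt b) := by
  have hms : MeasurableSet {y | tau x y < b} := measurableSet_lt (NuB_tau_meas x) measurable_const
  have hg : Measurable ((Set.Iio b).indicator fun s : ℝ => ENNReal.ofReal (s ^ (-(3 / 2) : ℝ))) := by
    refine Measurable.indicator ?_ measurableSet_Iio
    exact (measurable_id.pow_const _).ennreal_ofReal
  have h1 : ∫⁻ y in {y | tau x y < b}, ENNReal.ofReal ((tau x y) ^ (-(3 / 2) : ℝ)) ∂nuP =
      ∫⁻ y, (Set.Iio b).indicator (fun s : ℝ => ENNReal.ofReal (s ^ (-(3 / 2) : ℝ)))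
        (tau x y) ∂nuP := by
    rw [← lintegral_indicator hms]
    refine lintegral_congr fun y => ?_
    by_cases h : tau x y < b
    · rw [Set.indicator_of_mem (show tau x y ∈ Set.Iio b from h),
        Set.indicator_of_mem (show y ∈ {y | tau x y < b} from h)]
    · rw [Set.indicator_of_notMem (show tau x y ∉ Set.Iio b from h),
        Set.indicator_of_notMem (show y ∉ {y | tau x y < b} from h)]
  rw [h1, nu_tau hx hg]
  have h2 : ∫⁻ s in Set.Icc (0 : ℝ) 1, (Set.Iio b).indicator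
      (fun s : ℝ => ENNReal.ofReal (s ^ (-(3 / 2) : ℝ))) s * ENNReal.ofReal s ≤
      ∫⁻ s in Set.Ioc (0 : ℝ) b, ENNReal.ofReal (s ^ (-(1 / 2) : ℝ)) := by
    rw [← lintegral_indicator measurableSet_Icc, ← lintegral_indicator measurableSet_Ioc]
    refine lintegral_mono fun s => ?_
    by_cases h4 : s ∈ Set.Icc (0 : ℝ) 1
    · rw [Set.indicator_of_mem h4]
      by_cases h5 : s < b
      · rw [Set.indicator_of_mem (show s ∈ Set.Iio b from h5)]
        rcases h4.1.eq_or_lt with h6 | h6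
        · rw [← h6, ENNReal.ofReal_zero, mul_zero]
          exact zero_le
        · rw [Set.indicator_of_mem (show s ∈ Set.Ioc (0 : ℝ) b from ⟨h6, h5.le⟩),
            ← ENNReal.ofReal_mul (Real.rpow_nonneg h6.le _)]
          refine le_of_eq ?_
          congr 1
          have h7 : s ^ (-(3 / 2) : ℝ) * s = s ^ (-(3 / 2) : ℝ) * s ^ (1 : ℝ) := by
            rw [Real.rpow_one]
          rw [h7, ← Real.rpow_add h6]
          norm_num
      · rw [Set.indicator_of_notMem (show s ∉ Set.Iio b from h5), zero_mul]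
        exact zero_le
    · rw [Set.indicator_of_notMem h4]
      exact zero_le
  have h3 : ∫⁻ s in Set.Ioc (0 : ℝ) b, ENNReal.ofReal (s ^ (-(1 / 2) : ℝ)) =
      ENNReal.ofReal (2 * Real.sqrt b) := by
    have hi := intervalIntegral.intervalIntegrable_rpow' (a := 0) (b := b) (r := -(1 / 2))
      (by norm_num)
    rw [intervalIntegrable_iff_integrableOn_Ioc_of_le hb] at hi
    rw [← ofReal_integral_eq_lintegral_ofReal hi (by
      rw [Filter.EventuallyLE, ae_restrict_iff' measurableSet_Ioc]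
      exact Filter.Eventually.of_forall fun s hs => Real.rpow_nonneg hs.1.le _),
      ← intervalIntegral.integral_of_le hb, integral_rpow (Or.inl (by norm_num))]
    congr 1
    have h8 : (-(1 / 2) : ℝ) + 1 = 1 / 2 := by norm_num
    rw [h8, Real.zero_rpow (by norm_num), sub_zero, ← Real.sqrt_eq_rpow]
    ring
  calc _ ≤ ENNReal.ofReal (Real.pi ^ 3) * ENNReal.ofReal (2 * Real.sqrt b) := by
        refine mul_le_mul_right ?_ _
        rw [← h3]
        exact h2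
    _ = ENNReal.ofReal (2 * Real.pi ^ 3 * Real.sqrt b) := by
        rw [← ENNReal.ofReal_mul (by positivity)]
        congr 1
        ring

theorem nu_far {x : V} (hx : x ≠ 0) {b : ℝ} (hb : 0 < b) :
    ∫⁻ y in {y | b ≤ tau x y}, ENNReal.ofReal ((tau x y) ^ (-3 : ℝ)) ∂nuP ≤
      ENNReal.ofReal (Real.pi ^ 3 / b) := by
  have hms : MeasurableSet {y | b ≤ tau x y} := measurableSet_le measurable_const (NuB_tau_meas x)
  have hg : Measurable ((Set.Ici b).indicator fun s : ℝ => ENNReal.ofReal (s ^ (-3 : ℝ))) := by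
    refine Measurable.indicator ?_ measurableSet_Ici
    exact (measurable_id.pow_const _).ennreal_ofReal
  have h1 : ∫⁻ y in {y | b ≤ tau x y}, ENNReal.ofReal ((tau x y) ^ (-3 : ℝ)) ∂nuP =
      ∫⁻ y, (Set.Ici b).indicator (fun s : ℝ => ENNReal.ofReal (s ^ (-3 : ℝ)))
        (tau x y) ∂nuP := by
    rw [← lintegral_indicator hms]
    refine lintegral_congr fun y => ?_
    by_cases h : b ≤ tau x y
    · rw [Set.indicator_of_mem (show tau x y ∈ Set.Ici b from h),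
        Set.indicator_of_mem (show y ∈ {y | b ≤ tau x y} from h)]
    · rw [Set.indicator_of_notMem (show tau x y ∉ Set.Ici b from h),
        Set.indicator_of_notMem (show y ∉ {y | b ≤ tau x y} from h)]
  rw [h1, nu_tau hx hg]
  have h2 : ∫⁻ s in Set.Icc (0 : ℝ) 1, (Set.Ici b).indicator
      (fun s : ℝ => ENNReal.ofReal (s ^ (-3 : ℝ))) s * ENNReal.ofReal s ≤
      ∫⁻ s in Set.Ici b, ENNReal.ofReal (s ^ (-2 : ℝ)) := by
    rw [← lintegral_indicator measurableSet_Icc, ← lintegral_indicator measurableSet_Ici]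
    refine lintegral_mono fun s => ?_
    by_cases h4 : s ∈ Set.Icc (0 : ℝ) 1
    · rw [Set.indicator_of_mem h4]
      by_cases h5 : b ≤ s
      · have h6 : 0 < s := lt_of_lt_of_le hb h5
        rw [Set.indicator_of_mem (show s ∈ Set.Ici b from h5),
          Set.indicator_of_mem (show s ∈ Set.Ici b from h5),
          ← ENNReal.ofReal_mul (Real.rpow_nonneg h6.le _)]
        refine le_of_eq ?_
        congr 1
        have h7 : s ^ (-3 : ℝ) * s = s ^ (-3 : ℝ) * s ^ (1 : ℝ) := by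
          rw [Real.rpow_one]
        rw [h7, ← Real.rpow_add h6]
        norm_num
      · rw [Set.indicator_of_notMem (show s ∉ Set.Ici b from h5), zero_mul]
        exact zero_le
    · rw [Set.indicator_of_notMem h4]
      exact zero_le
  have h3 : ∫⁻ s in Set.Ici b, ENNReal.ofReal (s ^ (-2 : ℝ)) = ENNReal.ofReal (1 / b) := by
    rw [setLIntegral_congr Ioi_ae_eq_Ici.symm]
    have hi := integrableOn_Ioi_rpow_of_lt (a := -2) (by norm_num) hb
    rw [← ofReal_integral_eq_lintegral_ofReal hi (by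
      rw [Filter.EventuallyLE, ae_restrict_iff' measurableSet_Ioi]
      exact Filter.Eventually.of_forall fun s hs => Real.rpow_nonneg (hb.trans hs).le _),
      integral_Ioi_rpow_of_lt (by norm_num) hb]
    congr 1
    have h8 : (-2 : ℝ) + 1 = -1 := by norm_num
    rw [h8, Real.rpow_neg_one]
    field_simp
  calc _ ≤ ENNReal.ofReal (Real.pi ^ 3) * ENNReal.ofReal (1 / b) := by
        refine mul_le_mul_right ?_ _
        rw [← h3]
        exact h2
    _ = ENNReal.ofReal (Real.pi ^ 3 / b) := by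
        rw [← ENNReal.ofReal_mul (by positivity)]
        congr 1
        ring

theorem nu_exp {x : V} (hx : x ≠ 0) {a : ℝ} (ha : 0 < a) :
    ∫⁻ y, ENNReal.ofReal (Real.exp (-(tau x y) / a)) ∂nuP ≤ ENNReal.ofReal (Real.pi ^ 3 * a ^ 2) := by
  have hg : Measurable fun s : ℝ => ENNReal.ofReal (Real.exp (-s / a)) := by fun_prop
  have h1 := nu_tau hx hg
  rw [h1]
  have h2 : ∫⁻ s in Set.Icc (0 : ℝ) 1, ENNReal.ofReal (Real.exp (-s / a)) * ENNReal.ofReal s ≤
      ∫⁻ s in Set.Ioi (0 : ℝ), ENNReal.ofReal (s ^ ((2 : ℝ) - 1) * Real.exp (-(1 / a * s))) := by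
    rw [← lintegral_indicator measurableSet_Icc, ← lintegral_indicator measurableSet_Ioi]
    refine lintegral_mono fun s => ?_
    by_cases h4 : s ∈ Set.Icc (0 : ℝ) 1
    · rw [Set.indicator_of_mem h4]
      rcases h4.1.eq_or_lt with h6 | h6
      · rw [← h6, ENNReal.ofReal_zero, mul_zero]
        exact zero_le
      · rw [Set.indicator_of_mem (show s ∈ Set.Ioi (0 : ℝ) from h6),
          ← ENNReal.ofReal_mul (Real.exp_pos _).le]
        refine le_of_eq ?_
        congr 1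
        have h7 : (2 : ℝ) - 1 = 1 := by norm_num
        have h8 : -(1 / a * s) = -s / a := by ring
        rw [h7, Real.rpow_one, h8, mul_comm]
    · rw [Set.indicator_of_notMem h4]
      exact zero_le
  have h3 : ∫⁻ s in Set.Ioi (0 : ℝ), ENNReal.ofReal (s ^ ((2 : ℝ) - 1) *
      Real.exp (-(1 / a * s))) = ENNReal.ofReal (a ^ 2) := by
    have ha' : 0 < 1 / a := by positivity
    have hv := Real.integral_rpow_mul_exp_neg_mul_Ioi (a := 2) (r := 1 / a) (by norm_num) ha'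
    rw [Real.Gamma_two, mul_one, one_div_one_div] at hv
    have h9 : a ^ (2 : ℝ) = a ^ 2 := Real.rpow_two a
    rw [h9] at hv
    have hi : IntegrableOn (fun s : ℝ => s ^ ((2 : ℝ) - 1) * Real.exp (-(1 / a * s)))
        (Set.Ioi 0) := by
      by_contra hcon
      have h10 := integral_undef hcon
      rw [hv] at h10
      have : 0 < a ^ 2 := by positivity
      linarith
    rw [← ofReal_integral_eq_lintegral_ofReal hi (by
      rw [Filter.EventuallyLE, ae_restrict_iff' measurableSet_Ioi]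
      exact Filter.Eventually.of_forall fun s (hs : 0 < s) =>
        mul_nonneg (Real.rpow_nonneg hs.le _) (Real.exp_pos _).le), hv]
  calc _ ≤ ENNReal.ofReal (Real.pi ^ 3) * ENNReal.ofReal (a ^ 2) := by
        refine mul_le_mul_right ?_ _
        rw [← h3]
        exact h2
    _ = ENNReal.ofReal (Real.pi ^ 3 * a ^ 2) := by
        rw [← ENNReal.ofReal_mul (by positivity)]

/-- `τ(x, ·) > 0` almost everywhere. -/
theorem nu_tau_pos {x : V} (hx : x ≠ 0) : ∀ᵐ y ∂nuP, 0 < tau x y := by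
  rw [ae_iff]
  have h0 : {y : V | ¬ 0 < tau x y} = {y | tau x y ≤ 0} := by
    ext y
    exact not_lt
  have hms : MeasurableSet {y | tau x y ≤ 0} := measurableSet_le (NuB_tau_meas x) measurable_const
  have h1 : nuP {y | tau x y ≤ 0} =
      ∫⁻ y, (Set.Iic (0 : ℝ)).indicator (fun _ => (1 : ENNReal)) (tau x y) ∂nuP := by
    have h2 : (fun y => (Set.Iic (0 : ℝ)).indicator (fun _ => (1 : ENNReal)) (tau x y)) =
        {y | tau x y ≤ 0}.indicator (fun _ => (1 : ENNReal)) := by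
      funext y
      by_cases h : tau x y ≤ 0
      · rw [Set.indicator_of_mem (show tau x y ∈ Set.Iic (0 : ℝ) from h),
          Set.indicator_of_mem (show y ∈ {y | tau x y ≤ 0} from h)]
      · rw [Set.indicator_of_notMem (show tau x y ∉ Set.Iic (0 : ℝ) from h),
          Set.indicator_of_notMem (show y ∉ {y | tau x y ≤ 0} from h)]
    rw [h2, lintegral_indicator hms, setLIntegral_one]
  rw [h0, h1, nu_tau hx (measurable_const.indicator measurableSet_Iic)]
  have h3 : ∀ s : ℝ, (Set.Iic (0 : ℝ)).indicator (fun _ => (1 : ENNReal)) s * ENNReal.ofReal s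
      = 0 := by
    intro s
    by_cases h : s ≤ 0
    · rw [ENNReal.ofReal_of_nonpos h, mul_zero]
    · rw [Set.indicator_of_notMem (show s ∉ Set.Iic (0 : ℝ) from h), zero_mul]
  simp only [h3, lintegral_zero, mul_zero]

end Pool.Agent.H85.DC

end S_H85_DC_NuB

section S_H85_DC_GrC

/-!
# Row GrC: the trace of the Green potential approximates `f`; gradient bound

`green_approx`. `f : V → ℝ` continuous off `0`, `f (l • x) = f x` (`l ≠ 0`), `∫ f dν = 0`. By `trL_green`,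
`N tr L (green n f)(x) = (π^3)⁻¹ (n+1)(n+2) ∫ vv x y^n f y dν(y)`, and by `moment`
`(π^3)⁻¹ (n+1)(n+2) ∫ vv^n dν = 1`. So the difference with `f x` is `(π^3)⁻¹ (n+1)(n+2) ∫ vv^n (f y - f x) dν(y)`.
Uniform continuity: for `κ > 0` there is `s ∈ (0,1)` with `|f y - f x| ≤ κ/2` when `tau x y < s`, `x, y ≠ 0`
(if not: unit `x_i, y_i` with `tau → 0`, `|f - f| > κ/2`; by `tau_phase` we may multiply `y_i` by a phase so that
`N (x_i - y_i) → 0`; compactness of the unit sphere and continuity of `f` give a contradiction; or uniform continuity of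
`f` on the compact sphere, `IsCompact.uniformContinuousOn_of_continuous`).
Split: `tau < s`: contributes at most `κ/2`; `tau ≥ s`: `vv^n ≤ (1-s)^n`, contributes at most
`(π^3)⁻¹ (n+1)(n+2) (1-s)^n * 2B * π^3/2`, `→ 0` (`B` = bound of `|f|`), independent of `x`.

`gr_green`: `gr (green n f) x ≤ 4 (π^3)⁻² (N x)⁻¹ (∫ τ^{-3/2} |f| dν)^2`. From `dz_green`,
`dz j (green n f) x = -(π^3)⁻¹ ∫ S(y) dz j vv f dν`, `S = ∑_{k<n} (k+2) vv^k ≤ ∑_{k≥0} (k+2)(1-τ)^k = 1/τ^2 + 1/τ ≤ 2/τ^2`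
(finite partial sums of `∑ (k+1) r^k = 1/(1-r)^2`; for `τ > 0`, which holds a.e.: `nu_tau_pos`); so the vector
`(dz j)_j` has Euclidean norm at most `(π^3)⁻¹ ∫ S |∂v| |f| dν`, `|∂v| = (v(1-v)/N)^{1/2} ≤ τ^{1/2} N^{-1/2}`
(`grad_v`). (Norm of an integral at most the integral of the norm, in `EuclideanSpace ℂ (Fin 3)`, or: for unit `w`,
`|∑ w_j dz_j| ≤ …`, or Minkowski by hand.) The integral `∫ τ^{-3/2}|f|` converges (`nu_sing`, `f` bounded).
-/

open MeasureTheory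
open scoped ContDiff BigOperators ComplexConjugate Matrix

namespace Pool.Agent.H85.DC

theorem GrC_normSq_le (x : V) (j : Fin 3) : Complex.normSq (x j) ≤ N x := by
  unfold N
  exact Finset.single_le_sum (f := fun j => Complex.normSq (x j))
    (fun i _ => Complex.normSq_nonneg _) (Finset.mem_univ j)

theorem GrC_norm_lt {x : V} {δ : ℝ} (hδ : 0 < δ) (h : N x < δ ^ 2) : ‖x‖ < δ := by
  rw [pi_norm_lt_iff hδ]
  intro j
  have h1 : ‖x j‖ ^ 2 < δ ^ 2 := by
    rw [← Complex.normSq_eq_norm_sq]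
    exact lt_of_le_of_lt (GrC_normSq_le x j) h
  exact lt_of_pow_lt_pow_left₀ 2 hδ.le h1

theorem GrC_cont_N : Continuous N := by
  unfold N
  refine continuous_finsetSum _ (fun j _ => ?_)
  exact Complex.continuous_normSq.comp (continuous_apply j)

theorem GrC_compact : IsCompact {x : V | N x = 1} := by
  refine Metric.isCompact_of_isClosed_isBounded (isClosed_eq GrC_cont_N continuous_const) ?_
  refine (Metric.isBounded_ball (x := (0 : V)) (r := 2)).subset ?_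
  intro x hx
  rw [mem_ball_zero_iff]
  apply GrC_norm_lt (by norm_num)
  rw [Set.mem_ofPred_eq] at hx
  rw [hx]
  norm_num

/-- normalisation -/
theorem GrC_unit {x : V} (hx : x ≠ 0) :
    ∃ l : ℂ, l ≠ 0 ∧ N (l • x) = 1 := by
  have hN := N_pos hx
  refine ⟨((Real.sqrt (N x))⁻¹ : ℝ), ?_, ?_⟩
  · have : (Real.sqrt (N x))⁻¹ ≠ 0 := inv_ne_zero (Real.sqrt_pos.2 hN).ne'
    exact_mod_cast this
  · rw [N_smul, Complex.normSq_ofReal]
    have h1 : Real.sqrt (N x) * Real.sqrt (N x) = N x := Real.mul_self_sqrt hN.le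
    have h2 : (Real.sqrt (N x))⁻¹ * (Real.sqrt (N x))⁻¹ = (N x)⁻¹ := by
      rw [← mul_inv, h1]
    rw [h2]
    exact inv_mul_cancel₀ hN.ne'

theorem GrC_sphere_ne {x : V} (h : N x = 1) : x ≠ 0 := by
  intro h0
  rw [h0] at h
  unfold N at h
  simp at h

theorem unif_cont {f : V → ℝ} (hf : ContinuousOn f {0}ᶜ)
    (hh : ∀ (l : ℂ) (x : V), l ≠ 0 → f (l • x) = f x) {κ : ℝ} (hκ : 0 < κ) :
    ∃ s : ℝ, 0 < s ∧ ∀ x y : V, x ≠ 0 → y ≠ 0 → tau x y < s → |f x - f y| ≤ κ := by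
  have hsub : {x : V | N x = 1} ⊆ {0}ᶜ := fun x hx => GrC_sphere_ne hx
  have huc := GrC_compact.uniformContinuousOn_of_continuous (hf.mono hsub)
  rw [Metric.uniformContinuousOn_iff] at huc
  obtain ⟨δ, hδ, hδ2⟩ := huc κ hκ
  refine ⟨δ ^ 2 / 2, by positivity, ?_⟩
  intro x y hx hy hxy
  obtain ⟨a, ha, hxa⟩ := GrC_unit hx
  obtain ⟨b, hb, hyb⟩ := GrC_unit hy
  obtain ⟨l, hl, hl2⟩ := tau_phase hxa hyb
  rw [tau_smul_left ha, tau_smul_right hb] at hl2
  have hl0 : l ≠ 0 := by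
    intro h0
    rw [h0] at hl
    simp at hl
  have h1 : N (l • b • y) = 1 := by rw [N_smul, hl, hyb, one_mul]
  have h2 : dist (a • x) (l • b • y) < δ := by
    rw [dist_eq_norm]
    apply GrC_norm_lt hδ
    linarith
  have h3 := hδ2 (a • x) hxa (l • b • y) h1 h2
  rw [hh a x ha, hh l (b • y) hl0, hh b y hb, Real.dist_eq] at h3
  exact h3.le

theorem GrC_bdd {f : V → ℝ} (hf : ContinuousOn f {0}ᶜ)
    (hh : ∀ (l : ℂ) (x : V), l ≠ 0 → f (l • x) = f x) :
    ∃ B : ℝ, 0 ≤ B ∧ ∀ x : V, x ≠ 0 → |f x| ≤ B := by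
  have hsub : {x : V | N x = 1} ⊆ {0}ᶜ := fun x hx => GrC_sphere_ne hx
  obtain ⟨B, hB⟩ := GrC_compact.exists_bound_of_continuousOn (hf.mono hsub)
  refine ⟨|B|, abs_nonneg _, ?_⟩
  intro x hx
  obtain ⟨a, ha, hxa⟩ := GrC_unit hx
  have h1 := hB (a • x) hxa
  rw [hh a x ha, Real.norm_eq_abs] at h1
  exact h1.trans (le_abs_self B)

theorem GrC_ae_ne : ∀ᵐ y ∂nuP, y ≠ (0 : V) := by
  apply nuP_ac.ae_le
  exact compl_mem_ae_iff.2 (measure_singleton (0 : V))

theorem GrC_aesm {f : V → ℝ} (hf : ContinuousOn f {0}ᶜ) :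
    AEStronglyMeasurable f (volume : Measure V) := by
  have h1 := hf.aestronglyMeasurable (μ := (volume : Measure V)) (measurableSet_singleton (0 : V)).compl
  have h2 : (volume : Measure V).restrict {0}ᶜ = volume := by
    apply Measure.restrict_eq_self_of_ae_mem
    exact compl_mem_ae_iff.2 (measure_singleton (0 : V))
  rwa [h2] at h1

theorem GrC_meas_tau (x : V) : Measurable (fun y => tau x y) := by
  have h : Measurable (fun y : V => ((x, y) : V × V)) := measurable_prodMk_left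
  have h2 := measurable_tau.comp h
  exact h2

theorem GrC_meas_vv (x : V) : Measurable (fun y => vv x y) := by
  have : (fun y => vv x y) = fun y => 1 - tau x y := by
    funext y
    exact vv_eq x y
  rw [this]
  exact measurable_const.sub (GrC_meas_tau x)

theorem GrC_tendsto (B r : ℝ) (hB : 0 ≤ B) (hr0 : 0 ≤ r) (hr1 : r < 1) {κ : ℝ} (hκ : 0 < κ) :
    ∃ n : ℕ, ((n : ℝ) + 1) * ((n : ℝ) + 2) * B * r ^ n ≤ κ := by
  have h1 : Filter.Tendsto (fun n : ℕ => (n : ℝ) ^ 2 * r ^ n) Filter.atTop (nhds 0) :=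
    tendsto_pow_const_mul_const_pow_of_abs_lt_one 2 (by rw [abs_of_nonneg hr0]; exact hr1)
  have h2 : Filter.Tendsto (fun n : ℕ => 6 * B * ((n : ℝ) ^ 2 * r ^ n)) Filter.atTop (nhds 0) := by
    have := h1.const_mul (6 * B)
    rwa [mul_zero] at this
  have h3 : ∀ᶠ n : ℕ in Filter.atTop, 6 * B * ((n : ℝ) ^ 2 * r ^ n) < κ :=
    h2.eventually (gt_mem_nhds hκ)
  obtain ⟨n, hn1, hn2⟩ := (h3.and (Filter.eventually_ge_atTop 1)).exists
  refine ⟨n, ?_⟩
  have hn : (1 : ℝ) ≤ n := by exact_mod_cast hn2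
  have h4 : ((n : ℝ) + 1) * ((n : ℝ) + 2) ≤ 6 * (n : ℝ) ^ 2 := by nlinarith
  have h5 : 0 ≤ B * r ^ n := by positivity
  nlinarith [mul_le_mul_of_nonneg_right h4 h5]

theorem green_approx {f : V → ℝ} (hf : ContinuousOn f {0}ᶜ)
    (hh : ∀ (l : ℂ) (x : V), l ≠ 0 → f (l • x) = f x) (h0 : ∫ y, f y ∂nuP = 0)
    {κ : ℝ} (hκ : 0 < κ) :
    ∃ n : ℕ, ∀ x : V, x ≠ 0 →
      ‖(N x : ℂ) * (L (green n f) x).trace - (f x : ℂ)‖ ≤ κ := by
  obtain ⟨B, hB0, hB⟩ := GrC_bdd hf hh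
  have hm := GrC_aesm hf
  obtain ⟨s0, hs0, hs⟩ := unif_cont hf hh (half_pos hκ)
  obtain ⟨s, hsd⟩ : ∃ s : ℝ, s = min s0 (1 / 2) := ⟨_, rfl⟩
  have hs1 : 0 < s := by rw [hsd]; exact lt_min hs0 (by norm_num)
  have hs2 : s ≤ 1 / 2 := by rw [hsd]; exact min_le_right _ _
  have hs3 : s ≤ s0 := by rw [hsd]; exact min_le_left _ _
  obtain ⟨n, hn⟩ := GrC_tendsto B (1 - s) hB0 (by linarith) (by linarith) (half_pos hκ)
  refine ⟨n, fun x hx => ?_⟩
  rw [trL_green n hm hB hx, ← Complex.ofReal_sub, Complex.norm_real, Real.norm_eq_abs]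
  obtain ⟨c, hc⟩ : ∃ c : ℝ, c = (Real.pi ^ 3)⁻¹ * (((n : ℝ) + 1) * ((n : ℝ) + 2)) := ⟨_, rfl⟩
  have hc0 : 0 ≤ c := by rw [hc]; positivity
  have hpi : (0 : ℝ) < Real.pi ^ 3 := by positivity
  have hfi : Integrable f nuP := integrable_nuP hm hB
  have hvi : Integrable (fun y => vv x y ^ n) nuP := by
    refine Integrable.of_bound ((GrC_meas_vv x).pow_const n).aestronglyMeasurable 1 ?_
    refine Filter.Eventually.of_forall (fun y => ?_)
    rw [Real.norm_eq_abs, abs_of_nonneg (pow_nonneg (vv_nonneg x y) n)]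
    exact pow_le_one₀ (vv_nonneg x y) (vv_le_one x y)
  have hvfi : Integrable (fun y => vv x y ^ n * f y) nuP := by
    refine Integrable.of_bound (((GrC_meas_vv x).pow_const n).aestronglyMeasurable.mul
      (hm.mono_ac nuP_ac)) B ?_
    filter_upwards [GrC_ae_ne] with y hy
    rw [Real.norm_eq_abs, abs_mul, abs_of_nonneg (pow_nonneg (vv_nonneg x y) n)]
    calc vv x y ^ n * |f y| ≤ 1 * B := mul_le_mul (pow_le_one₀ (vv_nonneg x y) (vv_le_one x y))
          (hB y hy) (abs_nonneg _) zero_le_one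
      _ = B := one_mul B
  have hcv : c * ∫ y, vv x y ^ n ∂nuP = 1 := by
    rw [moment n hx, hc]
    field_simp
  have e1 : (Real.pi ^ 3)⁻¹ * ∫ y, (((n : ℝ) + 1) * ((n : ℝ) + 2) * vv x y ^ n - 2) * f y ∂nuP =
      c * ∫ y, vv x y ^ n * f y ∂nuP := by
    have e2 : ∀ y, (((n : ℝ) + 1) * ((n : ℝ) + 2) * vv x y ^ n - 2) * f y =
        (((n : ℝ) + 1) * ((n : ℝ) + 2)) * (vv x y ^ n * f y) - 2 * f y := by
      intro y; ring
    simp only [e2]
    rw [integral_sub (hvfi.const_mul _) (hfi.const_mul _), integral_const_mul, integral_const_mul,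
      h0, hc]
    ring
  have e3 : c * ∫ y, vv x y ^ n * f y ∂nuP - f x = c * ∫ y, vv x y ^ n * (f y - f x) ∂nuP := by
    have e4 : ∀ y, vv x y ^ n * (f y - f x) = vv x y ^ n * f y - vv x y ^ n * f x := by
      intro y; ring
    simp only [e4]
    rw [integral_sub hvfi (hvi.mul_const _), integral_mul_const, mul_sub, ← mul_assoc, hcv, one_mul]
  rw [e1, e3, abs_mul, abs_of_nonneg hc0]
  have hbound : |∫ y, vv x y ^ n * (f y - f x) ∂nuP| ≤
      ∫ y, (κ / 2 * vv x y ^ n + 2 * B * (1 - s) ^ n) ∂nuP := by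
    rw [← Real.norm_eq_abs]
    refine norm_integral_le_of_norm_le ((hvi.const_mul _).add (integrable_const _)) ?_
    filter_upwards [GrC_ae_ne] with y hy
    have hv0 : 0 ≤ vv x y ^ n := pow_nonneg (vv_nonneg x y) n
    have hs' : 0 ≤ (1 - s) ^ n := pow_nonneg (by linarith) n
    rw [Real.norm_eq_abs, abs_mul, abs_of_nonneg hv0]
    by_cases ht : tau x y < s
    · have h1 := hs x y hx hy (lt_of_lt_of_le ht hs3)
      rw [abs_sub_comm] at h1
      have h2 := mul_le_mul_of_nonneg_left h1 hv0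
      have h3 : 0 ≤ 2 * B * (1 - s) ^ n := by positivity
      linarith
    · push Not at ht
      have h1 : vv x y ≤ 1 - s := by rw [vv_eq]; linarith
      have h2 : vv x y ^ n ≤ (1 - s) ^ n := pow_le_pow_left₀ (vv_nonneg x y) h1 n
      have h3 : |f y - f x| ≤ 2 * B := by
        have := abs_sub (f y) (f x)
        have h4 := hB y hy
        have h5 := hB x hx
        linarith
      have h4 : vv x y ^ n * |f y - f x| ≤ (1 - s) ^ n * (2 * B) :=
        mul_le_mul h2 h3 (abs_nonneg _) hs'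
      have h5 : 0 ≤ κ / 2 * vv x y ^ n := by positivity
      linarith
  have hval : ∫ y, (κ / 2 * vv x y ^ n + 2 * B * (1 - s) ^ n) ∂nuP =
      κ / 2 * ∫ y, vv x y ^ n ∂nuP + 2 * B * (1 - s) ^ n * (Real.pi ^ 3 / 2) := by
    rw [integral_add (hvi.const_mul _) (integrable_const _), integral_const_mul, integral_const]
    have : nuP.real Set.univ = Real.pi ^ 3 / 2 := by
      rw [Measure.real, nuP_univ, ENNReal.toReal_ofReal (by positivity)]
    rw [this, smul_eq_mul]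
    ring
  rw [hval] at hbound
  calc c * |∫ y, vv x y ^ n * (f y - f x) ∂nuP|
      ≤ c * (κ / 2 * ∫ y, vv x y ^ n ∂nuP + 2 * B * (1 - s) ^ n * (Real.pi ^ 3 / 2)) :=
        mul_le_mul_of_nonneg_left hbound hc0
    _ = κ / 2 * (c * ∫ y, vv x y ^ n ∂nuP) +
        (Real.pi ^ 3)⁻¹ * Real.pi ^ 3 * (((n : ℝ) + 1) * ((n : ℝ) + 2) * B * (1 - s) ^ n) := by
        rw [hc]; ring
    _ = κ / 2 + ((n : ℝ) + 1) * ((n : ℝ) + 2) * B * (1 - s) ^ n := by
        rw [hcv, inv_mul_cancel₀ hpi.ne']; ring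
    _ ≤ κ := by linarith

theorem GrC_int_tau {x : V} (hx : x ≠ 0) :
    Integrable (fun y => (tau x y) ^ (-(3 / 2) : ℝ)) nuP := by
  have hmeas : Measurable (fun y => (tau x y) ^ (-(3 / 2) : ℝ)) := (GrC_meas_tau x).pow_const _
  refine ⟨hmeas.aestronglyMeasurable, ?_⟩
  rw [hasFiniteIntegral_iff_ofReal (Filter.Eventually.of_forall
    (fun y => Real.rpow_nonneg (tau_nonneg x y) _))]
  have h1 := nu_sing hx (b := 2) (by norm_num)
  have h2 : {y | tau x y < 2} = Set.univ := by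
    ext y
    simp only [Set.mem_ofPred_eq, Set.mem_univ, iff_true]
    exact lt_of_le_of_lt (tau_le_one x y) (by norm_num)
  rw [h2, Measure.restrict_univ] at h1
  exact lt_of_le_of_lt h1 ENNReal.ofReal_lt_top

theorem int_sing {x : V} (hx : x ≠ 0) {f : V → ℝ}
    (hf : AEStronglyMeasurable f (volume : Measure V)) {b : ℝ}
    (hb : ∀ y : V, y ≠ 0 → |f y| ≤ b) :
    Integrable (fun y => (tau x y) ^ (-(3 / 2) : ℝ) * |f y|) nuP := by
  refine ((GrC_int_tau hx).mul_const b).mono'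
    (((GrC_meas_tau x).pow_const _).aestronglyMeasurable.mul (hf.mono_ac nuP_ac).norm) ?_
  filter_upwards [GrC_ae_ne] with y hy
  have h1 : 0 ≤ (tau x y) ^ (-(3 / 2) : ℝ) := Real.rpow_nonneg (tau_nonneg x y) _
  rw [Real.norm_eq_abs, abs_mul, abs_of_nonneg h1, abs_abs]
  exact mul_le_mul_of_nonneg_left (hb y hy) h1

/-- closed form of the arithmetico-geometric sum -/
theorem GrC_sum (τ : ℝ) (n : ℕ) :
    τ ^ 2 * ∑ k ∈ Finset.range n, ((k : ℝ) + 2) * (1 - τ) ^ k =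
      (1 + τ) - (1 - τ) ^ n * (1 + τ + n * τ) := by
  induction n with
  | zero => simp
  | succ n ih =>
    rw [Finset.sum_range_succ, mul_add, ih]
    push_cast
    ring

theorem GrC_sum_le {τ : ℝ} (h0 : 0 < τ) (h1 : τ ≤ 1) (n : ℕ) :
    ∑ k ∈ Finset.range n, ((k : ℝ) + 2) * (1 - τ) ^ k ≤ 2 / τ ^ 2 := by
  rw [le_div_iff₀ (by positivity), mul_comm, GrC_sum]
  have h2 : 0 ≤ (1 - τ) ^ n := pow_nonneg (by linarith) n
  have h3 : 0 ≤ (1 - τ) ^ n * (1 + τ + n * τ) := by positivity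
  linarith

theorem GrC_meas_dz (j : Fin 3) {x : V} (hx : x ≠ 0) :
    Measurable (fun y => dz j (fun x => ((vv x y : ℝ) : ℂ)) x) := by
  have hd : ∀ y : V, DifferentiableAt ℝ (fun x => ((vv x y : ℝ) : ℂ)) x := by
    intro y
    have h1 := (isFun_vv y 1).smooth
    simp only [pow_one] at h1
    exact (h1.differentiableOn (by simp)).differentiableAt (isOpen_compl_singleton.mem_nhds hx)
  have hf : ∀ v : V, Measurable (fun y => fderiv ℝ (fun x => ((vv x y : ℝ) : ℂ)) x v) := by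
    intro v
    refine measurable_of_tendsto_metrizable
      (f := fun (n : ℕ) (y : V) => (n : ℝ) •
        (((vv (x + ((n : ℝ))⁻¹ • v) y : ℝ) : ℂ) - ((vv x y : ℝ) : ℂ))) ?_ ?_
    · intro n
      exact ((Complex.measurable_ofReal.comp (GrC_meas_vv _)).sub
        (Complex.measurable_ofReal.comp (GrC_meas_vv _))).const_smul (n : ℝ)
    · rw [tendsto_pi_nhds]
      intro y
      exact ((hd y).hasFDerivAt.lim_real v).comp tendsto_natCast_atTop_atTop
  unfold dz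
  exact ((hf _).sub ((hf _).const_mul _)).div_const _

theorem GrC_dz_le (j : Fin 3) {x y : V} (hx : x ≠ 0) (hy : y ≠ 0) :
    ‖dz j (fun x => ((vv x y : ℝ) : ℂ)) x‖ ≤ Real.sqrt ((N x)⁻¹) := by
  have hN := N_pos hx
  have h1 := grad_v hx hy
  have h2 : Complex.normSq (dz j (fun x => ((vv x y : ℝ) : ℂ)) x) ≤
      gr (fun x => ((vv x y : ℝ) : ℂ)) x := by
    unfold gr
    exact Finset.single_le_sum (f := fun j => Complex.normSq (dz j (fun x => ((vv x y : ℝ) : ℂ)) x))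
      (fun i _ => Complex.normSq_nonneg _) (Finset.mem_univ j)
  have h3 : vv x y * (1 - vv x y) / N x ≤ (N x)⁻¹ := by
    rw [div_eq_mul_inv]
    have h4 : vv x y * (1 - vv x y) ≤ 1 := by nlinarith [vv_nonneg x y, vv_le_one x y]
    exact mul_le_of_le_one_left (inv_nonneg.2 hN.le) h4
  apply Real.le_sqrt_of_sq_le
  rw [← Complex.normSq_eq_norm_sq]
  linarith

theorem GrC_rpow {τ : ℝ} (h : 0 < τ) : 2 / τ ^ 2 * Real.sqrt τ = 2 * τ ^ (-(3 / 2) : ℝ) := by
  have h1 : (-(3 / 2) : ℝ) = -2 + 1 / 2 := by norm_num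
  rw [h1, Real.rpow_add h, Real.rpow_neg h.le, Real.sqrt_eq_rpow]
  have h2 : τ ^ (2 : ℝ) = τ ^ 2 := by
    rw [← Real.rpow_natCast]
    norm_num
  rw [h2]
  ring

theorem gr_green (n : ℕ) {f : V → ℝ} (hf : AEStronglyMeasurable f (volume : Measure V)) {b : ℝ}
    (hb : ∀ y : V, y ≠ 0 → |f y| ≤ b) {x : V} (hx : x ≠ 0) :
    gr (green n f) x ≤
      4 * ((Real.pi ^ 3)⁻¹) ^ 2 * (N x)⁻¹ * (∫ y, (tau x y) ^ (-(3 / 2) : ℝ) * |f y| ∂nuP) ^ 2 := by
  have hN := N_pos hx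
  have hpi : (0 : ℝ) < Real.pi ^ 3 := by positivity
  obtain ⟨c, hc⟩ : ∃ c : ℝ, c = (Real.pi ^ 3)⁻¹ := ⟨_, rfl⟩
  have hc0 : 0 ≤ c := by rw [hc]; positivity
  rw [← hc]
  obtain ⟨I, hI⟩ : ∃ I : ℝ, I = ∫ y, (tau x y) ^ (-(3 / 2) : ℝ) * |f y| ∂nuP := ⟨_, rfl⟩
  rw [← hI]
  have hI0 : 0 ≤ I := by
    rw [hI]
    exact integral_nonneg (fun y => mul_nonneg (Real.rpow_nonneg (tau_nonneg x y) _) (abs_nonneg _))
  obtain ⟨a, ha⟩ : ∃ a : Fin 3 → ℂ, ∀ j, a j = dz j (green n f) x := ⟨_, fun _ => rfl⟩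
  obtain ⟨A, hA⟩ : ∃ A : ℝ, A = gr (green n f) x := ⟨_, rfl⟩
  have hA1 : A = ∑ j, Complex.normSq (a j) := by
    rw [hA]
    unfold gr
    exact Finset.sum_congr rfl (fun j _ => by rw [ha])
  have hA0 : 0 ≤ A := by
    rw [hA1]
    exact Finset.sum_nonneg (fun j _ => Complex.normSq_nonneg _)
  rw [← hA]
  obtain ⟨d, hd⟩ : ∃ d : Fin 3 → V → ℂ, ∀ j y, d j y = dz j (fun x => ((vv x y : ℝ) : ℂ)) x :=
    ⟨fun j y => dz j (fun x => ((vv x y : ℝ) : ℂ)) x, fun _ _ => rfl⟩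
  have hdm : ∀ j, Measurable (d j) := by
    intro j
    have := GrC_meas_dz j hx
    have e : d j = fun y => dz j (fun x => ((vv x y : ℝ) : ℂ)) x := funext (hd j)
    rw [e]
    exact this
  have hgint : ∀ (j : Fin 3) (k : ℕ), Integrable (fun y => ((vv x y ^ k : ℝ) : ℂ) * d j y * (f y : ℂ))
      nuP := by
    intro j k
    refine Integrable.of_bound (C := Real.sqrt ((N x)⁻¹) * b) ?_ ?_
    · refine AEStronglyMeasurable.mul (Measurable.aestronglyMeasurable ?_) ?_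
      · exact (Complex.measurable_ofReal.comp ((GrC_meas_vv x).pow_const k)).mul (hdm j)
      · exact Complex.continuous_ofReal.comp_aestronglyMeasurable (hf.mono_ac nuP_ac)
    · filter_upwards [GrC_ae_ne] with y hy
      rw [norm_mul, norm_mul, Complex.norm_real, Complex.norm_real, Real.norm_eq_abs,
        Real.norm_eq_abs, abs_of_nonneg (pow_nonneg (vv_nonneg x y) k), hd]
      have h1 : vv x y ^ k ≤ 1 := pow_le_one₀ (vv_nonneg x y) (vv_le_one x y)
      have h2 := GrC_dz_le j hx hy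
      have h3 := hb y hy
      have h4 : 0 ≤ ‖dz j (fun x => ((vv x y : ℝ) : ℂ)) x‖ := norm_nonneg _
      have h5 : vv x y ^ k * ‖dz j (fun x => ((vv x y : ℝ) : ℂ)) x‖ ≤ Real.sqrt ((N x)⁻¹) := by
        have := mul_le_mul h1 h2 h4 zero_le_one
        rwa [one_mul] at this
      exact mul_le_mul h5 h3 (abs_nonneg _) (Real.sqrt_nonneg _)
  have haj : ∀ j, a j = -((c : ℝ) : ℂ) * ∑ k ∈ Finset.range n, (((k : ℝ) + 2 : ℝ) : ℂ) *
        ∫ y, ((vv x y ^ k : ℝ) : ℂ) * d j y * (f y : ℂ) ∂nuP := by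
    intro j
    rw [ha, dz_green n hf hb j hx, hc]
    simp only [hd]
    push_cast
    rfl
  -- A as an integral
  have hAint : ((A : ℝ) : ℂ) = -((c : ℝ) : ℂ) * ∫ y, (∑ j, ∑ k ∈ Finset.range n,
      (conj (a j) * (((k : ℝ) + 2 : ℝ) : ℂ)) * (((vv x y ^ k : ℝ) : ℂ) * d j y * (f y : ℂ))) ∂nuP := by
    rw [integral_finsetSum _ (fun j _ => integrable_finsetSum _
      (fun k _ => (hgint j k).const_mul _))]
    have e1 : ∀ j, ∫ y, (∑ k ∈ Finset.range n, (conj (a j) * (((k : ℝ) + 2 : ℝ) : ℂ)) *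
        (((vv x y ^ k : ℝ) : ℂ) * d j y * (f y : ℂ))) ∂nuP =
        conj (a j) * ∑ k ∈ Finset.range n, (((k : ℝ) + 2 : ℝ) : ℂ) *
          ∫ y, ((vv x y ^ k : ℝ) : ℂ) * d j y * (f y : ℂ) ∂nuP := by
      intro j
      rw [integral_finsetSum _ (fun k _ => (hgint j k).const_mul _), Finset.mul_sum]
      refine Finset.sum_congr rfl (fun k _ => ?_)
      rw [integral_const_mul]
      ring
    simp only [e1]
    have e2 : ∀ j, ((Complex.normSq (a j) : ℝ) : ℂ) = -((c : ℝ) : ℂ) * (conj (a j) *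
        ∑ k ∈ Finset.range n, (((k : ℝ) + 2 : ℝ) : ℂ) *
          ∫ y, ((vv x y ^ k : ℝ) : ℂ) * d j y * (f y : ℂ) ∂nuP) := by
      intro j
      rw [Complex.normSq_eq_conj_mul_self]
      calc conj (a j) * a j = conj (a j) * (-((c : ℝ) : ℂ) * ∑ k ∈ Finset.range n,
            (((k : ℝ) + 2 : ℝ) : ℂ) * ∫ y, ((vv x y ^ k : ℝ) : ℂ) * d j y * (f y : ℂ) ∂nuP) := by
            rw [← haj j]
        _ = _ := by ring
    rw [hA1, Complex.ofReal_sum, Finset.mul_sum]
    exact Finset.sum_congr rfl (fun j _ => e2 j)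
  have hpt : ∀ᵐ y ∂nuP, ‖∑ j, ∑ k ∈ Finset.range n,
      (conj (a j) * (((k : ℝ) + 2 : ℝ) : ℂ)) * (((vv x y ^ k : ℝ) : ℂ) * d j y * (f y : ℂ))‖ ≤
      (Real.sqrt A * (2 * Real.sqrt ((N x)⁻¹))) * ((tau x y) ^ (-(3 / 2) : ℝ) * |f y|) := by
    filter_upwards [GrC_ae_ne, nu_tau_pos hx] with y hy ht
    have e1 : ∑ j, ∑ k ∈ Finset.range n,
        (conj (a j) * (((k : ℝ) + 2 : ℝ) : ℂ)) * (((vv x y ^ k : ℝ) : ℂ) * d j y * (f y : ℂ)) =
        ((∑ k ∈ Finset.range n, ((k : ℝ) + 2) * (1 - tau x y) ^ k : ℝ) : ℂ) *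
          (∑ j, conj (a j) * d j y) * (f y : ℂ) := by
      rw [Complex.ofReal_sum, Finset.sum_mul_sum, Finset.sum_comm, Finset.sum_mul]
      rw [Finset.sum_comm]
      rw [Finset.sum_comm]
      refine Finset.sum_congr rfl (fun k _ => ?_)
      rw [Finset.sum_mul]
      refine Finset.sum_congr rfl (fun j _ => ?_)
      rw [vv_eq]
      push_cast
      ring
    rw [e1, norm_mul, norm_mul, Complex.norm_real, Complex.norm_real, Real.norm_eq_abs,
      Real.norm_eq_abs]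
    have hS0 : 0 ≤ ∑ k ∈ Finset.range n, ((k : ℝ) + 2) * (1 - tau x y) ^ k := by
      refine Finset.sum_nonneg (fun k _ => ?_)
      have : 0 ≤ 1 - tau x y := by linarith [tau_le_one x y]
      positivity
    rw [abs_of_nonneg hS0]
    have hS := GrC_sum_le ht (tau_le_one x y) n
    have hCS : ‖∑ j, conj (a j) * d j y‖ ≤ Real.sqrt A * Real.sqrt (tau x y * (N x)⁻¹) := by
      have h1 : ‖∑ j, conj (a j) * d j y‖ ≤ ∑ j, ‖a j‖ * ‖d j y‖ := by
        refine (norm_sum_le _ _).trans (le_of_eq ?_)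
        refine Finset.sum_congr rfl (fun j _ => ?_)
        rw [norm_mul, RCLike.norm_conj]
      have h2 := Real.sum_mul_le_sqrt_mul_sqrt Finset.univ (fun j => ‖a j‖) (fun j => ‖d j y‖)
      have h3 : ∑ j, ‖a j‖ ^ 2 = A := by
        rw [hA1]
        exact Finset.sum_congr rfl (fun j _ => by rw [Complex.normSq_eq_norm_sq])
      have h4 : ∑ j, ‖d j y‖ ^ 2 ≤ tau x y * (N x)⁻¹ := by
        have h5 : ∑ j, ‖d j y‖ ^ 2 = gr (fun x => ((vv x y : ℝ) : ℂ)) x := by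
          unfold gr
          exact Finset.sum_congr rfl (fun j _ => by rw [Complex.normSq_eq_norm_sq, hd])
        rw [h5, grad_v hx hy, div_eq_mul_inv]
        refine mul_le_mul_of_nonneg_right ?_ (inv_nonneg.2 hN.le)
        have h6 := vv_eq x y
        have h7 := vv_nonneg x y
        have h8 := tau_nonneg x y
        rw [h6] at h7 ⊢
        nlinarith
      rw [h3] at h2
      exact h1.trans (h2.trans (mul_le_mul_of_nonneg_left (Real.sqrt_le_sqrt h4)
        (Real.sqrt_nonneg _)))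
    have h9 : 0 ≤ 2 / (tau x y) ^ 2 := by positivity
    calc (∑ k ∈ Finset.range n, ((k : ℝ) + 2) * (1 - tau x y) ^ k) *
          ‖∑ j, conj (a j) * d j y‖ * |f y|
        ≤ (2 / (tau x y) ^ 2) * (Real.sqrt A * Real.sqrt (tau x y * (N x)⁻¹)) * |f y| := by
          refine mul_le_mul_of_nonneg_right ?_ (abs_nonneg _)
          exact mul_le_mul hS hCS (norm_nonneg _) h9
      _ = (Real.sqrt A * Real.sqrt ((N x)⁻¹)) * (2 / (tau x y) ^ 2 * Real.sqrt (tau x y)) *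
          |f y| := by
          rw [Real.sqrt_mul (tau_nonneg x y)]
          ring
      _ = (Real.sqrt A * (2 * Real.sqrt ((N x)⁻¹))) * ((tau x y) ^ (-(3 / 2) : ℝ) * |f y|) := by
          rw [GrC_rpow ht]
          ring
  have hAle : A ≤ Real.sqrt A * (2 * c * Real.sqrt ((N x)⁻¹) * I) := by
    have h1 : A = ‖((A : ℝ) : ℂ)‖ := by
      rw [Complex.norm_real, Real.norm_eq_abs, abs_of_nonneg hA0]
    have h2 := norm_integral_le_of_norm_le (((int_sing hx hf hb).const_mul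
      (Real.sqrt A * (2 * Real.sqrt ((N x)⁻¹))))) hpt
    rw [integral_const_mul, ← hI] at h2
    rw [hAint, norm_mul, norm_neg, Complex.norm_real, Real.norm_eq_abs, abs_of_nonneg hc0] at h1
    calc A = _ := h1
      _ ≤ c * ((Real.sqrt A * (2 * Real.sqrt ((N x)⁻¹))) * I) := mul_le_mul_of_nonneg_left h2 hc0
      _ = Real.sqrt A * (2 * c * Real.sqrt ((N x)⁻¹) * I) := by ring
  have hR0 : 0 ≤ 2 * c * Real.sqrt ((N x)⁻¹) * I := by positivity
  have hsA : Real.sqrt A ≤ 2 * c * Real.sqrt ((N x)⁻¹) * I := by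
    by_cases h0 : Real.sqrt A = 0
    · rw [h0]; exact hR0
    · have hpos : 0 < Real.sqrt A := lt_of_le_of_ne (Real.sqrt_nonneg A) (Ne.symm h0)
      have h1 : Real.sqrt A * Real.sqrt A ≤ Real.sqrt A * (2 * c * Real.sqrt ((N x)⁻¹) * I) := by
        rw [Real.mul_self_sqrt hA0]
        exact hAle
      exact le_of_mul_le_mul_left h1 hpos
  have h1 : A = Real.sqrt A ^ 2 := (Real.sq_sqrt hA0).symm
  have h2 : Real.sqrt A ^ 2 ≤ (2 * c * Real.sqrt ((N x)⁻¹) * I) ^ 2 :=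
    pow_le_pow_left₀ (Real.sqrt_nonneg A) hsA 2
  have h3 : (2 * c * Real.sqrt ((N x)⁻¹) * I) ^ 2 = 4 * c ^ 2 * (N x)⁻¹ * I ^ 2 := by
    have h4 : Real.sqrt ((N x)⁻¹) ^ 2 = (N x)⁻¹ := Real.sq_sqrt (inv_nonneg.2 hN.le)
    calc (2 * c * Real.sqrt ((N x)⁻¹) * I) ^ 2 =
        4 * c ^ 2 * Real.sqrt ((N x)⁻¹) ^ 2 * I ^ 2 := by ring
      _ = _ := by rw [h4]
  linarith

end Pool.Agent.H85.DC

end S_H85_DC_GrC

section S_H85_DC_LocA

/-!
# Row LocA: the function `t_p = log (τ/(1-τ))`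

`N p = 1`, `x ≠ 0`, `0 < τ < 1`, `τ = tau x p`; `ξ = ip x p = ∑ x_j conj(p_j)`, `M = N x - |ξ|^2 = N x * τ = N (cr x p)`, `|ξ|^2 = N x (1 - τ)`.
Near `x`: `tt p = log M - log |ξ|^2` (cast to `ℂ`). `dz j |ξ|^2 = conj(p_j) conj ξ`, `dz j M = conj(x_j) - conj(p_j) conj ξ`.
`a_j := dz j (tt p) x = (conj(x_j) - conj(p_j) conj ξ)/M - conj(p_j)/ξ` (`dz_tt`). `dzb j (tt p) x = conj (a_j)` (`tt` is real, `conj_dz`).
`gr_tt`: `∑ |a_j|^2 = M/M^2 + 1/|ξ|^2 = N/(M |ξ|^2)` since `N (x - ξ p) = M`, `N p = 1` and the cross term is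
`∑_j (conj(x_j) - conj(p_j) conj ξ) p_j = conj ξ - conj ξ = 0`.
`L_tt`: `L (tt p) x j k = c_j conj(c_k)`, `c = (M)⁻¹ • cr p x`. Proof: `log |ξ|^2` is pluriharmonic: `dzb k (log |ξ|^2) = p_k/conj ξ`
which has `dz j` equal to `0`. For `log M`: `dzb k (log M) = (x_k - p_k ξ)/M`,
`dz j` of it `= (δ_jk - p_k conj(p_j))/M - (x_k - p_k ξ)(conj(x_j) - conj(p_j) conj ξ)/M^2`. It remains to check the algebraic identity
`M (δ_jk - conj(p_j) p_k) - (conj(x_j) - conj(p_j) conj ξ)(x_k - ξ p_k) = (cr p x)_j conj ((cr p x)_k)` using `N p = 1` (both sides are the Hermitian form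
of the projection onto the direction orthogonal to `p` and `x`; check the 9 entries: expand, use `N p = 1` to homogenise: multiply the left side by suitable powers of `N p`).
Orthogonality: `∑ c_j conj(a_j) = 0` and `∑ c_j x_j = 0`, `∑ a_j x_j = 0` (bilinear `cr p x` is orthogonal to `p` and `x`; `∑ x_j a_j = (N - |ξ|^2)/M - 1 = 0`).
`N c = M/M^2 = 1/M` (`tau_cross`).
Linear algebra: `b` with `∑ x_j b_j = 0` lies in the plane spanned by the orthogonal vectors `a, c` (complex dimension 2), so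
`N b = |⟨b,a⟩|^2/N a + |⟨b,c⟩|^2/N c` (`plane`). With `ee_rank1` (applied to conjugated vectors): `Q = N a N b - |⟨b,a⟩|^2`, `R = N c N b - |⟨b,c⟩|^2`; hence
`R = N c |⟨b,a⟩|^2/N a`, and `N a N b = Q + |⟨b,a⟩|^2 = Q + R N a/N c = Q + R/(1 - τ) ≤ Q + 2 R` for `τ ≤ 1/2` (`N a/N c = N x/|ξ|^2 = 1/(1-τ)`).
`R ≤ N c N b ≤ N a N b`.
-/

open MeasureTheory
open scoped ContDiff BigOperators ComplexConjugate Matrix

namespace Pool.Agent.H85.DC

theorem LocA_alg (p P x X : Fin 3 → ℂ) (h : p 0 * P 0 + p 1 * P 1 + p 2 * P 2 = 1) (j k : Fin 3) :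
    ((x 0 * X 0 + x 1 * X 1 + x 2 * X 2) -
        (x 0 * P 0 + x 1 * P 1 + x 2 * P 2) * (X 0 * p 0 + X 1 * p 1 + X 2 * p 2)) *
      ((if j = k then 1 else 0) - P j * p k) -
      (x k - (x 0 * P 0 + x 1 * P 1 + x 2 * P 2) * p k) *
        (X j - P j * (X 0 * p 0 + X 1 * p 1 + X 2 * p 2)) =
      cr p x j * cr P X k := by
  fin_cases j <;> fin_cases k <;> simp [cr]
  · linear_combination (x 0 * X 0 - (x 0 * X 0 + x 1 * X 1 + x 2 * X 2)) * h
  · linear_combination (x 1 * X 0) * h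
  · linear_combination (x 2 * X 0) * h
  · linear_combination (x 0 * X 1) * h
  · linear_combination (x 1 * X 1 - (x 0 * X 0 + x 1 * X 1 + x 2 * X 2)) * h
  · linear_combination (x 2 * X 1) * h
  · linear_combination (x 0 * X 2) * h
  · linear_combination (x 1 * X 2) * h
  · linear_combination (x 2 * X 2 - (x 0 * X 0 + x 1 * X 1 + x 2 * X 2)) * h

theorem LocA_N (y : V) : (N y : ℂ) = ∑ j, y j * conj (y j) := by
  unfold N
  push_cast
  exact Finset.sum_congr rfl fun j _ => (Complex.mul_conj (y j)).symm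

theorem LocA_dconj {f : V → ℂ} {x : V} (hf : DifferentiableAt ℝ f x) :
    DifferentiableAt ℝ (fun y => conj (f y)) x :=
  Complex.conjCLE.differentiableAt.comp x hf

theorem LocA_dip (p x : V) : DifferentiableAt ℝ (fun y => ip y p) x := by
  unfold ip
  fun_prop

theorem LocA_dN (x : V) : DifferentiableAt ℝ (fun y => (N y : ℂ)) x := by
  have h : (fun y : V => (N y : ℂ)) = fun y => ∑ j, y j * conj (y j) := funext LocA_N
  rw [h]
  have h2 : ∀ j ∈ (Finset.univ : Finset (Fin 3)),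
      DifferentiableAt ℝ (fun y : V => y j * conj (y j)) x := fun j _ =>
    DifferentiableAt.mul (by fun_prop) (LocA_dconj (by fun_prop))
  exact DifferentiableAt.fun_sum h2

theorem LocA_dz_ip (j : Fin 3) (p x : V) : dz j (fun y => ip y p) x = conj (p j) := by
  unfold ip
  rw [dz_sum j Finset.univ (fun i (y : V) => y i * conj (p i)) (fun i _ => by fun_prop)]
  have h : ∀ i : Fin 3, dz j (fun y : V => y i * conj (p i)) x =
      if j = i then conj (p i) else 0 := by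
    intro i
    rw [dz_mul j (by fun_prop) (by fun_prop), dz_coord, dz_const]
    split_ifs <;> simp
  rw [Finset.sum_congr rfl fun i _ => h i, Finset.sum_ite_eq]
  simp

theorem LocA_dzb_ip (j : Fin 3) (p x : V) : dzb j (fun y => ip y p) x = 0 := by
  unfold ip
  rw [dzb_sum j Finset.univ (fun i (y : V) => y i * conj (p i)) (fun i _ => by fun_prop)]
  refine Finset.sum_eq_zero fun i _ => ?_
  rw [dzb_mul j (by fun_prop) (by fun_prop), dzb_coord, dzb_const]
  simp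

theorem LocA_dz_cip (j : Fin 3) (p x : V) : dz j (fun y => conj (ip y p)) x = 0 := by
  rw [← conj_dzb, LocA_dzb_ip, map_zero]

theorem LocA_dzb_cip (j : Fin 3) (p x : V) : dzb j (fun y => conj (ip y p)) x = p j := by
  rw [← conj_dz, LocA_dz_ip, Complex.conj_conj]

theorem LocA_dz_ns (j : Fin 3) (p x : V) :
    dz j (fun y => ((Complex.normSq (ip y p) : ℝ) : ℂ)) x = conj (p j) * conj (ip x p) := by
  have h : (fun y : V => ((Complex.normSq (ip y p) : ℝ) : ℂ)) = fun y => ip y p * conj (ip y p) :=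
    funext fun y => (Complex.mul_conj _).symm
  rw [h, dz_mul j (LocA_dip p x) (LocA_dconj (LocA_dip p x)), LocA_dz_ip, LocA_dz_cip, mul_zero,
    add_zero]

theorem LocA_dns (p x : V) :
    DifferentiableAt ℝ (fun y => ((Complex.normSq (ip y p) : ℝ) : ℂ)) x := by
  have h : (fun y : V => ((Complex.normSq (ip y p) : ℝ) : ℂ)) = fun y => ip y p * conj (ip y p) :=
    funext fun y => (Complex.mul_conj _).symm
  rw [h]
  exact (LocA_dip p x).mul (LocA_dconj (LocA_dip p x))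

theorem LocA_dMM (p x : V) :
    DifferentiableAt ℝ (fun y => ((N y - Complex.normSq (ip y p) : ℝ) : ℂ)) x := by
  push_cast
  exact (LocA_dN x).sub (LocA_dns p x)

theorem LocA_dz_MM (j : Fin 3) (p x : V) :
    dz j (fun y => ((N y - Complex.normSq (ip y p) : ℝ) : ℂ)) x =
      conj (x j) - conj (p j) * conj (ip x p) := by
  have h : (fun y : V => ((N y - Complex.normSq (ip y p) : ℝ) : ℂ)) =
      fun y => (N y : ℂ) + (-1) * ((Complex.normSq (ip y p) : ℝ) : ℂ) := by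
    funext y
    push_cast
    ring
  rw [h, dz_add j (LocA_dN x) ((LocA_dns p x).const_mul _), dz_const_mul j _ (LocA_dns p x), dz_N,
    LocA_dz_ns]
  ring

theorem LocA_real {u : V → ℝ} {x : V} (h : DifferentiableAt ℝ (fun y => ((u y : ℝ) : ℂ)) x) :
    DifferentiableAt ℝ u x := by
  have h2 : u = fun y => (((u y : ℝ) : ℂ)).re := by
    funext y
    rw [Complex.ofReal_re]
  rw [h2]
  exact Complex.reCLM.differentiableAt.comp x h

/-- the open set where `tt p` is smooth -/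
def LocA_Om (p : V) : Set V := {y | y ≠ 0 ∧ 0 < tau y p ∧ tau y p < 1}

theorem LocA_open (p : V) : IsOpen (LocA_Om p) := by
  have h := (continuousOn_tau p).isOpen_inter_preimage isOpen_compl_singleton
    (isOpen_Ioo (a := (0 : ℝ)) (b := 1))
  have h2 : LocA_Om p = {0}ᶜ ∩ (fun x => tau x p) ⁻¹' Set.Ioo 0 1 := by
    ext y
    rfl
  rw [h2]
  exact h

theorem LocA_facts {p y : V} (hp : N p = 1) (hy : y ≠ 0) (h0 : 0 < tau y p) (h1 : tau y p < 1) :
    0 < N y ∧ N y * tau y p = N y - Complex.normSq (ip y p) ∧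
      N y * (1 - tau y p) = Complex.normSq (ip y p) ∧ 0 < Complex.normSq (ip y p) ∧
      0 < N y - Complex.normSq (ip y p) ∧ ip y p ≠ 0 := by
  have hN := N_pos hy
  have h2 : N y * (1 - tau y p) = Complex.normSq (ip y p) := by
    unfold tau
    rw [hp]
    field_simp
    ring
  have h3 : 0 < Complex.normSq (ip y p) := by
    rw [← h2]
    exact mul_pos hN (by linarith)
  have h4 : N y * tau y p = N y - Complex.normSq (ip y p) := by linarith
  refine ⟨hN, h4, h2, h3, ?_, Complex.normSq_pos.1 h3⟩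
  rw [← h4]
  exact mul_pos hN h0

theorem LocA_tt {p y : V} (hp : N p = 1) (hy : y ≠ 0) (h0 : 0 < tau y p) (h1 : tau y p < 1) :
    tt p y = ((Real.log (N y - Complex.normSq (ip y p)) : ℝ) : ℂ) +
      (-1) * ((Real.log (Complex.normSq (ip y p)) : ℝ) : ℂ) := by
  obtain ⟨hN, a1, a2, a3, a4, -⟩ := LocA_facts hp hy h0 h1
  unfold tt
  have h2 : tau y p / (1 - tau y p) = (N y - Complex.normSq (ip y p)) / Complex.normSq (ip y p) := by
    rw [← a1, ← a2, mul_div_mul_left _ _ hN.ne']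
  rw [h2, Real.log_div a4.ne' a3.ne']
  push_cast
  ring

theorem LocA_germ {p x : V} (hp : N p = 1) (hx : x ≠ 0) (h0 : 0 < tau x p) (h1 : tau x p < 1) :
    tt p =ᶠ[nhds x] fun y => ((Real.log (N y - Complex.normSq (ip y p)) : ℝ) : ℂ) +
      (-1) * ((Real.log (Complex.normSq (ip y p)) : ℝ) : ℂ) := by
  filter_upwards [(LocA_open p).mem_nhds (show x ∈ LocA_Om p from ⟨hx, h0, h1⟩)] with y hy
  exact LocA_tt hp hy.1 hy.2.1 hy.2.2

theorem LocA_dz_congr (j : Fin 3) {f g : V → ℂ} {x : V} (h : f =ᶠ[nhds x] g) :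
    dz j f x = dz j g x := by
  unfold dz
  rw [h.fderiv_eq]

/-- The rank one matrix `b_j conj(b_k)`. -/
noncomputable def rk (b : V) : M3 := fun j k => b j * conj (b k)

theorem dz_tt (j : Fin 3) {p x : V} (hp : N p = 1) (hx : x ≠ 0) (h0 : 0 < tau x p)
    (h1 : tau x p < 1) :
    dz j (tt p) x = (conj (x j) - conj (p j) * conj (ip x p)) / ((N x * tau x p : ℝ) : ℂ) -
      conj (p j) / ip x p := by
  obtain ⟨hN, a1, a2, a3, a4, a5⟩ := LocA_facts hp hx h0 h1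
  have u1 : DifferentiableAt ℝ (fun y => N y - Complex.normSq (ip y p)) x :=
    LocA_real (LocA_dMM p x)
  have u2 : DifferentiableAt ℝ (fun y => Complex.normSq (ip y p)) x := LocA_real (LocA_dns p x)
  have d1 : DifferentiableAt ℝ
      (fun y => ((Real.log (N y - Complex.normSq (ip y p)) : ℝ) : ℂ)) x :=
    Complex.ofRealCLM.differentiableAt.comp x (u1.log a4.ne')
  have d2 : DifferentiableAt ℝ
      (fun y => ((Real.log (Complex.normSq (ip y p)) : ℝ) : ℂ)) x :=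
    Complex.ofRealCLM.differentiableAt.comp x (u2.log a3.ne')
  rw [LocA_dz_congr j (LocA_germ hp hx h0 h1), dz_add j d1 (d2.const_mul _),
    dz_const_mul j _ d2,
    dz_comp_real j (g := Real.log) (u := fun y => N y - Complex.normSq (ip y p))
      (Real.hasDerivAt_log a4.ne') u1,
    dz_comp_real j (g := Real.log) (u := fun y => Complex.normSq (ip y p))
      (Real.hasDerivAt_log a3.ne') u2, LocA_dz_MM, LocA_dz_ns, a1]
  have e1 : ((Complex.normSq (ip x p) : ℝ) : ℂ) = ip x p * conj (ip x p) :=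
    (Complex.mul_conj _).symm
  have e2 : conj (ip x p) ≠ 0 := (map_ne_zero _).2 a5
  rw [Complex.ofReal_inv, Complex.ofReal_inv, e1, mul_inv, div_eq_mul_inv, div_eq_mul_inv]
  field_simp
  ring

theorem LocA_conj_tt (p : V) : (fun y => conj (tt p y)) = tt p := by
  funext y
  unfold tt
  exact Complex.conj_ofReal _

theorem LocA_dzb_tt (j : Fin 3) {p x : V} (hp : N p = 1) (hx : x ≠ 0) (h0 : 0 < tau x p)
    (h1 : tau x p < 1) :
    dzb j (tt p) x = (x j - ip x p * p j) * (((N x - Complex.normSq (ip x p) : ℝ) : ℂ))⁻¹ +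
      (-1) * (p j * (conj (ip x p))⁻¹) := by
  obtain ⟨hN, a1, a2, a3, a4, a5⟩ := LocA_facts hp hx h0 h1
  have h2 := conj_dz j (tt p) x
  rw [LocA_conj_tt, dz_tt j hp hx h0 h1, a1] at h2
  rw [← h2]
  simp only [map_sub, map_div₀, map_mul, Complex.conj_conj, Complex.conj_ofReal]
  rw [div_eq_mul_inv, div_eq_mul_inv]
  ring

theorem LocA_germ2 (k : Fin 3) {p x : V} (hp : N p = 1) (hx : x ≠ 0) (h0 : 0 < tau x p)
    (h1 : tau x p < 1) :
    dzb k (tt p) =ᶠ[nhds x] fun y =>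
      (y k + (-1) * (ip y p * p k)) * (((N y - Complex.normSq (ip y p) : ℝ) : ℂ))⁻¹ +
      (-1) * (p k * (conj (ip y p))⁻¹) := by
  filter_upwards [(LocA_open p).mem_nhds (show x ∈ LocA_Om p from ⟨hx, h0, h1⟩)] with y hy
  rw [LocA_dzb_tt k hp hy.1 hy.2.1 hy.2.2]
  ring

theorem smooth_tt {p x : V} (hp : N p = 1) (hx : x ≠ 0) (h0 : 0 < tau x p)
    (h1 : tau x p < 1) : ContDiffAt ℝ ∞ (tt p) x := by
  have hN := N_pos hx
  have c1 : ContDiffAt ℝ ∞ (fun y : V => N y) x := by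
    have : (fun y : V => N y) = fun y => ∑ j, ((y j).re * (y j).re + (y j).im * (y j).im) := by
      funext y
      rfl
    rw [this]
    refine ContDiffAt.sum fun j _ => ?_
    have r1 : ContDiffAt ℝ ∞ (fun y : V => (y j).re) x :=
      (Complex.reCLM.contDiff.comp (contDiff_apply ℝ ℂ j)).contDiffAt
    have r2 : ContDiffAt ℝ ∞ (fun y : V => (y j).im) x :=
      (Complex.imCLM.contDiff.comp (contDiff_apply ℝ ℂ j)).contDiffAt
    exact (r1.mul r1).add (r2.mul r2)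
  have c2 : ContDiffAt ℝ ∞ (fun y : V => ip y p) x := by
    unfold ip
    refine ContDiffAt.sum fun j _ => ?_
    exact (contDiff_apply ℝ ℂ j).contDiffAt.mul contDiffAt_const
  have c3 : ContDiffAt ℝ ∞ (fun y : V => Complex.normSq (ip y p)) x := by
    have r1 : ContDiffAt ℝ ∞ (fun y : V => (ip y p).re) x :=
      (Complex.reCLM.contDiff.contDiffAt).comp x c2
    have r2 : ContDiffAt ℝ ∞ (fun y : V => (ip y p).im) x :=
      (Complex.imCLM.contDiff.contDiffAt).comp x c2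
    exact (r1.mul r1).add (r2.mul r2)
  have c4 : ContDiffAt ℝ ∞ (fun y : V => tau y p) x := by
    unfold tau
    refine contDiffAt_const.sub (c3.div (c1.mul contDiffAt_const) ?_)
    rw [hp, mul_one]
    exact hN.ne'
  have c5 : ContDiffAt ℝ ∞ (fun y : V => tau y p / (1 - tau y p)) x :=
    c4.div (contDiffAt_const.sub c4) (by linarith)
  have c6 := c5.log (div_pos h0 (by linarith : 0 < 1 - tau x p)).ne'
  exact (Complex.ofRealCLM.contDiff.contDiffAt).comp x c6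

theorem LocA_sums (p P x X : Fin 3 → ℂ) (h : p 0 * P 0 + p 1 * P 1 + p 2 * P 2 = 1) {M : ℂ}
    (hM : M = (x 0 * X 0 + x 1 * X 1 + x 2 * X 2) -
        (x 0 * P 0 + x 1 * P 1 + x 2 * P 2) * (X 0 * p 0 + X 1 * p 1 + X 2 * p 2)) {ξ ξb : ℂ}
    (hξ : ξ = x 0 * P 0 + x 1 * P 1 + x 2 * P 2) (hξb : ξb = X 0 * p 0 + X 1 * p 1 + X 2 * p 2)
    (M0 : M ≠ 0) (x0 : ξ ≠ 0) (xb0 : ξb ≠ 0) :
    ∑ j, ((X j - P j * ξb) / M - P j / ξ) * ((x j - p j * ξ) / M - p j / ξb) =
      1 / M + 1 / (ξ * ξb) := by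
  rw [Fin.sum_univ_three]
  have hS : (X 0 - P 0 * ξb) * (x 0 - p 0 * ξ) + (X 1 - P 1 * ξb) * (x 1 - p 1 * ξ) +
      (X 2 - P 2 * ξb) * (x 2 - p 2 * ξ) = M := by
    rw [hM, hξ, hξb]
    linear_combination ((x 0 * P 0 + x 1 * P 1 + x 2 * P 2) *
      (X 0 * p 0 + X 1 * p 1 + X 2 * p 2)) * h
  have hT : (X 0 - P 0 * ξb) * p 0 + (X 1 - P 1 * ξb) * p 1 + (X 2 - P 2 * ξb) * p 2 = 0 := by
    rw [hξb]
    linear_combination (-(X 0 * p 0 + X 1 * p 1 + X 2 * p 2)) * h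
  have hT' : (x 0 - p 0 * ξ) * P 0 + (x 1 - p 1 * ξ) * P 1 + (x 2 - p 2 * ξ) * P 2 = 0 := by
    rw [hξ]
    linear_combination (-(x 0 * P 0 + x 1 * P 1 + x 2 * P 2)) * h
  have e : ∀ a b c d : ℂ, (a / M - b / ξ) * (c / M - d / ξb) =
      a * c / M ^ 2 - a * d / (M * ξb) - c * b / (M * ξ) + d * b / (ξ * ξb) := by
    intro a b c d
    field_simp
    ring
  rw [e, e, e]
  have e2 : (X 0 - P 0 * ξb) * (x 0 - p 0 * ξ) / M ^ 2 - (X 0 - P 0 * ξb) * p 0 / (M * ξb) -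
        (x 0 - p 0 * ξ) * P 0 / (M * ξ) + p 0 * P 0 / (ξ * ξb) +
      ((X 1 - P 1 * ξb) * (x 1 - p 1 * ξ) / M ^ 2 - (X 1 - P 1 * ξb) * p 1 / (M * ξb) -
        (x 1 - p 1 * ξ) * P 1 / (M * ξ) + p 1 * P 1 / (ξ * ξb)) +
      ((X 2 - P 2 * ξb) * (x 2 - p 2 * ξ) / M ^ 2 - (X 2 - P 2 * ξb) * p 2 / (M * ξb) -
        (x 2 - p 2 * ξ) * P 2 / (M * ξ) + p 2 * P 2 / (ξ * ξb)) =
      ((X 0 - P 0 * ξb) * (x 0 - p 0 * ξ) + (X 1 - P 1 * ξb) * (x 1 - p 1 * ξ) +
        (X 2 - P 2 * ξb) * (x 2 - p 2 * ξ)) / M ^ 2 -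
      ((X 0 - P 0 * ξb) * p 0 + (X 1 - P 1 * ξb) * p 1 + (X 2 - P 2 * ξb) * p 2) / (M * ξb) -
      ((x 0 - p 0 * ξ) * P 0 + (x 1 - p 1 * ξ) * P 1 + (x 2 - p 2 * ξ) * P 2) / (M * ξ) +
      (p 0 * P 0 + p 1 * P 1 + p 2 * P 2) / (ξ * ξb) := by ring
  rw [e2, hS, hT, hT', h]
  field_simp
  ring

theorem LocA_p {p : V} (hp : N p = 1) :
    p 0 * conj (p 0) + p 1 * conj (p 1) + p 2 * conj (p 2) = 1 := by
  have h := LocA_N p
  rw [hp, Fin.sum_univ_three] at h
  rw [← h]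
  simp

theorem LocA_ip (x p : V) : ip x p = x 0 * conj (p 0) + x 1 * conj (p 1) + x 2 * conj (p 2) := by
  unfold ip
  rw [Fin.sum_univ_three]

theorem LocA_cip (x p : V) :
    conj (ip x p) = conj (x 0) * p 0 + conj (x 1) * p 1 + conj (x 2) * p 2 := by
  rw [LocA_ip]
  simp

theorem LocA_M {p x : V} : ((N x - Complex.normSq (ip x p) : ℝ) : ℂ) =
    (x 0 * conj (x 0) + x 1 * conj (x 1) + x 2 * conj (x 2)) -
      (x 0 * conj (p 0) + x 1 * conj (p 1) + x 2 * conj (p 2)) *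
        (conj (x 0) * p 0 + conj (x 1) * p 1 + conj (x 2) * p 2) := by
  rw [Complex.ofReal_sub, LocA_N, Fin.sum_univ_three, ← Complex.mul_conj, LocA_cip, LocA_ip]

theorem gr_tt {p x : V} (hp : N p = 1) (hx : x ≠ 0) (h0 : 0 < tau x p) (h1 : tau x p < 1) :
    gr (tt p) x = 1 / (N x * (tau x p * (1 - tau x p))) := by
  obtain ⟨hN, a1, a2, a3, a4, a5⟩ := LocA_facts hp hx h0 h1
  have hξb : conj (ip x p) ≠ 0 := (map_ne_zero _).2 a5
  have hM0 : ((N x - Complex.normSq (ip x p) : ℝ) : ℂ) ≠ 0 := by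
    rw [Ne, Complex.ofReal_eq_zero]
    exact a4.ne'
  have key := LocA_sums p (fun j => conj (p j)) x (fun j => conj (x j)) (LocA_p hp)
    (LocA_M (p := p) (x := x)) (LocA_ip x p) (LocA_cip x p) hM0 a5 hξb
  have hc : ((gr (tt p) x : ℝ) : ℂ) = 1 / ((N x - Complex.normSq (ip x p) : ℝ) : ℂ) +
      1 / (ip x p * conj (ip x p)) := by
    rw [← key]
    unfold gr
    push_cast
    refine Finset.sum_congr rfl fun j _ => ?_
    rw [← Complex.mul_conj, dz_tt j hp hx h0 h1, a1]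
    have e5 : conj ((conj (x j) - conj (p j) * conj (ip x p)) /
        ((N x - Complex.normSq (ip x p) : ℝ) : ℂ) - conj (p j) / ip x p) =
        (x j - p j * ip x p) / ((N x - Complex.normSq (ip x p) : ℝ) : ℂ) -
          p j / conj (ip x p) := by
      rw [map_sub, map_div₀, map_div₀, map_sub, map_mul, Complex.conj_ofReal, Complex.conj_conj,
        Complex.conj_conj, Complex.conj_conj]
    rw [e5]
    push_cast
    rfl
  rw [Complex.mul_conj] at hc
  have hr : gr (tt p) x = 1 / (N x - Complex.normSq (ip x p)) + 1 / Complex.normSq (ip x p) := by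
    exact_mod_cast hc
  rw [hr, ← a1, ← a2]
  have b1 : 1 - tau x p ≠ 0 := by linarith
  field_simp
  ring

theorem L_tt {p x : V} (hp : N p = 1) (hx : x ≠ 0) (h0 : 0 < tau x p) (h1 : tau x p < 1) :
    L (tt p) x = rk ((((N x * tau x p)⁻¹ : ℝ) : ℂ) • cr p x) := by
  obtain ⟨hN, a1, a2, a3, a4, a5⟩ := LocA_facts hp hx h0 h1
  have hξb : conj (ip x p) ≠ 0 := (map_ne_zero _).2 a5
  have hM0 : ((N x - Complex.normSq (ip x p) : ℝ) : ℂ) ≠ 0 := by
    rw [Ne, Complex.ofReal_eq_zero]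
    exact a4.ne'
  funext j k
  show dz j (dzb k (tt p)) x = _
  have hxk : DifferentiableAt ℝ (fun y : V => y k) x := by fun_prop
  have hip := LocA_dip p x
  have hck : DifferentiableAt ℝ (fun _ : V => p k) x := differentiableAt_const _
  have d1 : DifferentiableAt ℝ (fun y : V => ip y p * p k) x := hip.mul hck
  have d2 : DifferentiableAt ℝ (fun y : V => y k + (-1) * (ip y p * p k)) x :=
    hxk.add (d1.const_mul _)
  have d3 : DifferentiableAt ℝ (fun y => (((N y - Complex.normSq (ip y p) : ℝ) : ℂ))⁻¹) x :=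
    (LocA_dMM p x).inv hM0
  have d4 : DifferentiableAt ℝ (fun y => (conj (ip y p))⁻¹) x := (LocA_dconj hip).inv hξb
  have d5 : DifferentiableAt ℝ (fun y => p k * (conj (ip y p))⁻¹) x := d4.const_mul _
  have d23 : DifferentiableAt ℝ (fun y : V => (y k + (-1) * (ip y p * p k)) *
      (((N y - Complex.normSq (ip y p) : ℝ) : ℂ))⁻¹) x := d2.mul d3
  have d6 : DifferentiableAt ℝ (fun y : V => (-1) * (p k * (conj (ip y p))⁻¹)) x :=
    d5.const_mul _
  have hlhs : dz j (dzb k (tt p)) x =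
      ((if j = k then 1 else 0) + (-1) * (conj (p j) * p k)) *
        (((N x - Complex.normSq (ip x p) : ℝ) : ℂ))⁻¹ +
      (x k + (-1) * (ip x p * p k)) * (-(conj (x j) - conj (p j) * conj (ip x p)) /
        ((N x - Complex.normSq (ip x p) : ℝ) : ℂ) ^ 2) := by
    rw [LocA_dz_congr j (LocA_germ2 k hp hx h0 h1), dz_add j d23 d6,
      dz_mul j d2 d3, dz_const_mul j _ d5, dz_const_mul j _ d4, dz_inv j (LocA_dconj hip) hξb,
      dz_inv j (LocA_dMM p x) hM0, dz_add j hxk (d1.const_mul _), dz_const_mul j _ d1,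
      dz_mul j hip hck, LocA_dz_ip, LocA_dz_cip, LocA_dz_MM, dz_coord, dz_const]
    ring
  rw [hlhs]
  have halg := LocA_alg p (fun j => conj (p j)) x (fun j => conj (x j)) (LocA_p hp) j k
  rw [← LocA_M, ← LocA_ip, ← LocA_cip] at halg
  have hcr : cr (fun j => conj (p j)) (fun j => conj (x j)) k = conj (cr p x k) := by
    fin_cases k <;> simp [cr]
  rw [hcr] at halg
  show _ = ((((N x * tau x p)⁻¹ : ℝ) : ℂ) * cr p x j) *
    conj ((((N x * tau x p)⁻¹ : ℝ) : ℂ) * cr p x k)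
  rw [map_mul, Complex.conj_ofReal, a1, Complex.ofReal_inv]
  obtain ⟨Mc, hMc⟩ : ∃ Mc : ℂ, Mc = ((N x - Complex.normSq (ip x p) : ℝ) : ℂ) := ⟨_, rfl⟩
  rw [← hMc] at halg hM0 ⊢
  have e1 : Mc⁻¹ * cr p x j * (Mc⁻¹ * conj (cr p x k)) =
      (cr p x j * conj (cr p x k)) / Mc ^ 2 := by
    field_simp
  rw [e1, ← halg]
  field_simp
  ring

theorem du2_tt {p x : V} (hp : N p = 1) (hx : x ≠ 0) (h0 : 0 < tau x p) (h1 : tau x p < 1) :
    du2 (tt p) x = rk (fun j => dz j (tt p) x) := by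
  funext j k
  show dz j (tt p) x * dzb k (tt p) x = dz j (tt p) x * conj (dz k (tt p) x)
  rw [conj_dz, LocA_conj_tt]

theorem LocA_ee (a b : V) : (ee (rk a) (rk b)).re = N a * N b - Complex.normSq (ip a b) := by
  have h := ee_rank1 (fun j => conj (a j)) (fun j => conj (b j))
  have e1 : (fun j k => conj (conj (a j)) * conj (a k) : M3) = rk a := by
    funext j k
    rw [Complex.conj_conj]
    rfl
  have e2 : (fun j k => conj (conj (b j)) * conj (b k) : M3) = rk b := by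
    funext j k
    rw [Complex.conj_conj]
    rfl
  rw [e1, e2] at h
  rw [h, Complex.ofReal_re]
  have e3 : ∀ c : V, N (fun j => conj (c j)) = N c := by
    intro c
    unfold N
    simp [Complex.normSq_conj]
  have e4 : ip (fun j => conj (a j)) (fun j => conj (b j)) = conj (ip a b) := by
    unfold ip
    simp
  rw [e3, e3, e4, Complex.normSq_conj]

theorem Q_nonneg {p x : V} (hp : N p = 1) (hx : x ≠ 0) (h0 : 0 < tau x p) (h1 : tau x p < 1)
    (b : V) : 0 ≤ (ee (du2 (tt p) x) (rk b)).re := by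
  rw [du2_tt hp hx h0 h1, LocA_ee]
  linarith [cs_ip (fun j => dz j (tt p) x) b]

theorem R_nonneg {p x : V} (hp : N p = 1) (hx : x ≠ 0) (h0 : 0 < tau x p) (h1 : tau x p < 1)
    (b : V) : 0 ≤ (ee (L (tt p) x) (rk b)).re := by
  rw [L_tt hp hx h0 h1, LocA_ee]
  linarith [cs_ip ((((N x * tau x p)⁻¹ : ℝ) : ℂ) • cr p x) b]

theorem LocA_gr (p x : V) : N (fun j => dz j (tt p) x) = gr (tt p) x := rfl

theorem Q_le {p x : V} (hp : N p = 1) (hx : x ≠ 0) (h0 : 0 < tau x p) (h1 : tau x p < 1)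
    (b : V) : (ee (du2 (tt p) x) (rk b)).re ≤ gr (tt p) x * N b := by
  rw [du2_tt hp hx h0 h1, LocA_ee, LocA_gr]
  linarith [Complex.normSq_nonneg (ip (fun j => dz j (tt p) x) b)]

theorem LocA_Nc {p x : V} (hp : N p = 1) (hx : x ≠ 0) (h0 : 0 < tau x p) (h1 : tau x p < 1) :
    N ((((N x * tau x p)⁻¹ : ℝ) : ℂ) • cr p x) = 1 / (N x * tau x p) := by
  have hN := N_pos hx
  have hp0 : p ≠ 0 := by
    rintro rfl
    unfold N at hp
    simp at hp
  rw [N_smul, tau_cross' hp0 hx, hp, tau_symm p x, Complex.normSq_ofReal]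
  field_simp

theorem R_le {p x : V} (hp : N p = 1) (hx : x ≠ 0) (h0 : 0 < tau x p) (h1 : tau x p < 1)
    (b : V) : (ee (L (tt p) x) (rk b)).re ≤ gr (tt p) x * N b := by
  have hN := N_pos hx
  rw [L_tt hp hx h0 h1, LocA_ee, LocA_Nc hp hx h0 h1, gr_tt hp hx h0 h1]
  have h2 := Complex.normSq_nonneg (ip ((((N x * tau x p)⁻¹ : ℝ) : ℂ) • cr p x) b)
  have h3 : 1 / (N x * tau x p) ≤ 1 / (N x * (tau x p * (1 - tau x p))) := by
    apply one_div_le_one_div_of_le
    · have : 0 < 1 - tau x p := by linarith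
      positivity
    · have h4 : 0 < N x * tau x p := mul_pos hN h0
      nlinarith
  have h4 := mul_le_mul_of_nonneg_right h3 (N_nonneg b)
  linarith

theorem LocA_bessel {a c b : V} (ha : 0 < N a) (hc : 0 < N c) (h : ip c a = 0) :
    Complex.normSq (ip a b) / N a + Complex.normSq (ip c b) / N c ≤ N b := by
  have hs : ∀ (l : ℂ) (y z : V), ip (l • y) z = l * ip y z := by
    intro l y z
    unfold ip
    rw [Finset.mul_sum]
    exact Finset.sum_congr rfl fun j _ => by simp [mul_assoc]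
  have hs' : ∀ (l : ℝ) (y z : V), ip y ((l : ℂ) • z) = l * ip y z := by
    intro l y z
    unfold ip
    rw [Finset.mul_sum]
    refine Finset.sum_congr rfl fun j _ => ?_
    simp only [Pi.smul_apply, smul_eq_mul, map_mul, Complex.conj_ofReal]
    ring
  have hn : ∀ y : V, 0 < N y → N ((((Real.sqrt (N y))⁻¹ : ℝ) : ℂ) • y) = 1 := by
    intro y hy
    rw [N_smul, Complex.normSq_ofReal, ← mul_inv, Real.mul_self_sqrt hy.le]
    exact inv_mul_cancel₀ hy.ne'
  have hd : ∀ y : V, 0 < N y →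
      Complex.normSq (ip ((((Real.sqrt (N y))⁻¹ : ℝ) : ℂ) • y) b) =
        Complex.normSq (ip y b) / N y := by
    intro y hy
    rw [hs, map_mul, Complex.normSq_ofReal, ← mul_inv, Real.mul_self_sqrt hy.le,
      inv_mul_eq_div]
  have key := bessel (x := (((Real.sqrt (N a))⁻¹ : ℝ) : ℂ) • a)
    (w := (((Real.sqrt (N c))⁻¹ : ℝ) : ℂ) • c) (y := b) (hn a ha) (hn c hc)
    (by rw [hs, hs', h, mul_zero, mul_zero])
  rw [hd a ha, hd c hc] at key
  exact key

theorem LocA_orth {p x : V} (hp : N p = 1) (hx : x ≠ 0) (h0 : 0 < tau x p) (h1 : tau x p < 1) :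
    ip ((((N x * tau x p)⁻¹ : ℝ) : ℂ) • cr p x) (fun j => dz j (tt p) x) = 0 := by
  unfold ip
  have h2 : ∀ j, conj (dz j (tt p) x) = dzb j (tt p) x := by
    intro j
    rw [conj_dz, LocA_conj_tt]
  rw [Fin.sum_univ_three, h2, h2, h2, LocA_dzb_tt 0 hp hx h0 h1, LocA_dzb_tt 1 hp hx h0 h1,
    LocA_dzb_tt 2 hp hx h0 h1]
  simp only [Pi.smul_apply, smul_eq_mul, cr, Matrix.cons_val_zero, Matrix.cons_val_one,
    Matrix.cons_val_two, Matrix.head_cons, Matrix.tail_cons, Matrix.cons_val]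
  ring

theorem loc_ineq {p x : V} (hp : N p = 1) (hx : x ≠ 0) (h0 : 0 < tau x p)
    (h1 : tau x p ≤ 1 / 2) {b : V} (hb : ∑ j, x j * b j = 0) :
    gr (tt p) x * N b ≤ (ee (du2 (tt p) x) (rk b)).re + 2 * (ee (L (tt p) x) (rk b)).re := by
  have h1' : tau x p < 1 := by linarith
  have hN := N_pos hx
  have hNc := LocA_Nc hp hx h0 h1'
  have hg := gr_tt hp hx h0 h1'
  have hb1 : 0 < 1 - tau x p := by linarith
  have hgp : 0 < gr (tt p) x := by
    rw [hg]
    positivity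
  have hcp : 0 < N ((((N x * tau x p)⁻¹ : ℝ) : ℂ) • cr p x) := by
    rw [hNc]
    positivity
  have key := LocA_bessel (b := b) (by rw [LocA_gr]; exact hgp) hcp (LocA_orth hp hx h0 h1')
  rw [LocA_gr] at key
  rw [du2_tt hp hx h0 h1', L_tt hp hx h0 h1', LocA_ee, LocA_ee, LocA_gr]
  obtain ⟨Nc, hNcd⟩ : ∃ Nc, Nc = N ((((N x * tau x p)⁻¹ : ℝ) : ℂ) • cr p x) := ⟨_, rfl⟩
  obtain ⟨A, hA⟩ : ∃ A, A = Complex.normSq (ip (fun j => dz j (tt p) x) b) := ⟨_, rfl⟩
  obtain ⟨C, hC⟩ : ∃ C, C = Complex.normSq (ip ((((N x * tau x p)⁻¹ : ℝ) : ℂ) • cr p x) b) :=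
    ⟨_, rfl⟩
  rw [← hNcd, ← hA, ← hC] at key ⊢
  rw [← hNcd] at hNc hcp
  have hA0 : 0 ≤ A := by rw [hA]; exact Complex.normSq_nonneg _
  -- multiply by Nc
  have e1 : Nc * (A / gr (tt p) x) = (1 - tau x p) * A := by
    rw [hNc, hg]
    field_simp
  have e2 : Nc * (C / Nc) = C := by
    field_simp
  have e3 : Nc * (A / gr (tt p) x + C / Nc) ≤ Nc * N b := mul_le_mul_of_nonneg_left key hcp.le
  rw [mul_add, e1, e2] at e3
  have e4 : A / 2 ≤ (1 - tau x p) * A := by nlinarith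
  linarith

end Pool.Agent.H85.DC

end S_H85_DC_LocA

section S_H85_DC_LocB

/-!
# Row LocB: the profile function (one real variable)

Fix smooth `χ, θ : ℝ → [0,1]`: `χ = Real.smoothTransition` (`0` on `s ≤ 0`, `1` on `s ≥ 1`, monotone), `ψ s = χ (6 s1 + 1 - s)` (`1` for `s ≤ 6 s1`, `0` for
`s ≥ 6 s1 + 1`, antitone). Let `B ≥ 1` bound `deriv χ` (continuous, zero outside `[0,1]`). Put `g s = χ s * ψ s/(s + s1)` for `s > -s1` — to be smooth on all of `ℝ`
note `χ s = 0` for `s ≤ 0`; e.g. replace `s + s1` by `s1 + s` multiplied only where `χ ≠ 0`, or use the smooth function `s ↦ χ s * (…)` and smoothness near each point.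
`c := ∫_0^{6 s1 + 1} g`. `c ≥ ∫_1^{6 s1} ds/(s + s1) = log (7 s1/(1 + s1)) ≥ log (7/2) ≥ 1` (`s1 ≥ 1`, `exp 1 < 3.5`).
`φ s = c⁻¹ ∫_0^s g`. Then `φ' = g/c`, smooth, `φ = 0` for `s ≤ 0`, `φ = 1` for `s ≥ 6 s1 + 1`, `0 ≤ φ' ≤ 1/(c (s + s1)) ≤ 1/s1`,
`φ'' = (χ' ψ + χ ψ')/(c (s + s1)) - χ ψ/(c (s + s1)^2)`. For `s ≥ 1`: `χ = 1`, `χ' = 0`, `ψ' ≤ 0`: `-φ'' ≥ ψ/(c (s+s1)^2) ≥ ψ^2/(c^2 (s+s1)^2) = φ'^2`
(`0 ≤ ψ ≤ 1 ≤ c`). Always `φ'' ≤ χ' ψ/(c (s + s1)) ≤ B/s1` (and `φ'' = 0` for `s ≤ 0`). So `c0 = B`.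
-/

open MeasureTheory
open scoped ContDiff BigOperators

namespace Pool.Agent.H85.DC

/-- Profile functions. -/
structure Prof (c0 s1 : ℝ) (φ : ℝ → ℝ) : Prop where
  smooth : ContDiff ℝ ∞ φ
  zero : ∀ s, s ≤ 0 → φ s = 0
  one : ∀ s, 6 * s1 + 1 ≤ s → φ s = 1
  mem : ∀ s, 0 ≤ φ s ∧ φ s ≤ 1
  d_nonneg : ∀ s, 0 ≤ deriv φ s
  d_le : ∀ s, deriv φ s ≤ 1 / s1
  dd_neg : ∀ s, 1 ≤ s → (deriv φ s) ^ 2 ≤ - deriv (deriv φ) s
  dd_le : ∀ s, deriv (deriv φ) s ≤ c0 / s1

theorem LocB_d1 {s : ℝ} (hs : 1 ≤ s) : deriv Real.smoothTransition s = 0 := by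
  apply IsLocalMax.deriv_eq_zero
  refine Filter.Eventually.of_forall fun x => ?_
  rw [Real.smoothTransition.one_of_one_le hs]
  exact Real.smoothTransition.le_one x

theorem LocB_d0 {s : ℝ} (hs : s ≤ 0) : deriv Real.smoothTransition s = 0 := by
  apply IsLocalMin.deriv_eq_zero
  refine Filter.Eventually.of_forall fun x => ?_
  rw [Real.smoothTransition.zero_of_nonpos hs]
  exact Real.smoothTransition.nonneg x

theorem LocB_cd : ContDiff ℝ ∞ Real.smoothTransition := Real.smoothTransition.contDiff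

theorem LocB_diff (s : ℝ) : HasDerivAt Real.smoothTransition (deriv Real.smoothTransition s) s :=
  ((LocB_cd.differentiable (by norm_num)) s).hasDerivAt

theorem LocB_bound : ∃ B : ℝ, 1 ≤ B ∧ ∀ s, deriv Real.smoothTransition s ≤ B := by
  have hc : Continuous (deriv Real.smoothTransition) :=
    (LocB_cd.continuous_deriv (by norm_num))
  obtain ⟨B, hB⟩ := (isCompact_Icc (a := (0 : ℝ)) (b := 1)).exists_bound_of_continuousOn hc.continuousOn
  refine ⟨max 1 B, le_max_left _ _, fun s => ?_⟩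
  by_cases h0 : s ≤ 0
  · rw [LocB_d0 h0]; exact zero_le_one.trans (le_max_left _ _)
  by_cases h1 : 1 ≤ s
  · rw [LocB_d1 h1]; exact zero_le_one.trans (le_max_left _ _)
  push Not at h0 h1
  exact ((le_abs_self _).trans (hB s ⟨h0.le, h1.le⟩)).trans (le_max_right _ _)

/-- the derivative of the profile up to a constant -/
noncomputable def LocB_g (s1 s : ℝ) : ℝ :=
  Real.smoothTransition s * Real.smoothTransition (6 * s1 + 1 - s) / (s + s1)

theorem LocB_g_zero {s1 s : ℝ} (hs : s ≤ 0) : LocB_g s1 s = 0 := by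
  rw [LocB_g, Real.smoothTransition.zero_of_nonpos hs, zero_mul, zero_div]

theorem LocB_g_end {s1 s : ℝ} (hs : 6 * s1 + 1 ≤ s) : LocB_g s1 s = 0 := by
  rw [LocB_g, Real.smoothTransition.zero_of_nonpos (x := 6 * s1 + 1 - s) (by linarith), mul_zero,
    zero_div]

theorem LocB_g_nonneg {s1 : ℝ} (h1 : 1 ≤ s1) (s : ℝ) : 0 ≤ LocB_g s1 s := by
  by_cases hs : s ≤ 0
  · rw [LocB_g_zero hs]
  · push Not at hs
    exact div_nonneg (mul_nonneg (Real.smoothTransition.nonneg _) (Real.smoothTransition.nonneg _))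
      (by linarith)

theorem LocB_g_le {s1 : ℝ} (h1 : 1 ≤ s1) (s : ℝ) : LocB_g s1 s ≤ 1 / s1 := by
  by_cases hs : s ≤ 0
  · rw [LocB_g_zero hs]; positivity
  · push Not at hs
    rw [LocB_g]
    have h2 : Real.smoothTransition s * Real.smoothTransition (6 * s1 + 1 - s) ≤ 1 :=
      mul_le_one₀ (Real.smoothTransition.le_one _) (Real.smoothTransition.nonneg _)
        (Real.smoothTransition.le_one _)
    calc Real.smoothTransition s * Real.smoothTransition (6 * s1 + 1 - s) / (s + s1) ≤ 1 / (s + s1) :=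
          div_le_div_of_nonneg_right h2 (by linarith)
      _ ≤ 1 / s1 := one_div_le_one_div_of_le (by linarith) (by linarith)

theorem LocB_g_smooth {s1 : ℝ} (h1 : 1 ≤ s1) : ContDiff ℝ ∞ (LocB_g s1) := by
  rw [contDiff_iff_contDiffAt]
  intro s
  by_cases hs : s < 0
  · have : LocB_g s1 =ᶠ[nhds s] fun _ => 0 := by
      filter_upwards [Iio_mem_nhds hs] with x hx
      exact LocB_g_zero (le_of_lt hx)
    exact contDiffAt_const.congr_of_eventuallyEq this
  · push Not at hs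
    have hc : ContDiff ℝ ∞ (fun x : ℝ => Real.smoothTransition (6 * s1 + 1 - x)) :=
      LocB_cd.comp (contDiff_const.sub contDiff_id)
    have hd : ContDiff ℝ ∞ (fun x : ℝ => x + s1) := contDiff_id.add contDiff_const
    exact (LocB_cd.contDiffAt.mul hc.contDiffAt).div hd.contDiffAt (by linarith)

theorem LocB_g_deriv {s1 s : ℝ} (h1 : 1 ≤ s1) (hs : 0 ≤ s) : deriv (LocB_g s1) s =
    ((deriv Real.smoothTransition s * Real.smoothTransition (6 * s1 + 1 - s) -
      Real.smoothTransition s * deriv Real.smoothTransition (6 * s1 + 1 - s)) * (s + s1) -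
      Real.smoothTransition s * Real.smoothTransition (6 * s1 + 1 - s)) / (s + s1) ^ 2 := by
  have e1 := LocB_diff s
  have e2 : HasDerivAt (fun x : ℝ => Real.smoothTransition (6 * s1 + 1 - x))
      (deriv Real.smoothTransition (6 * s1 + 1 - s) * (-1)) s := by
    have h := (LocB_diff (6 * s1 + 1 - s)).comp s ((hasDerivAt_id s).const_sub (6 * s1 + 1))
    exact h
  have e3 : HasDerivAt (fun x : ℝ => x + s1) 1 s := (hasDerivAt_id s).add_const s1
  have e4 := (e1.mul e2).div e3 (by linarith)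
  have e5 : HasDerivAt (LocB_g s1) _ s := e4
  rw [e5.deriv]
  congr 1
  show (deriv Real.smoothTransition s * Real.smoothTransition (6 * s1 + 1 - s) +
    Real.smoothTransition s * (deriv Real.smoothTransition (6 * s1 + 1 - s) * (-1))) * (s + s1) -
    (Real.smoothTransition s * Real.smoothTransition (6 * s1 + 1 - s)) * 1 = _
  ring

theorem LocB_int {s1 : ℝ} (h1 : 1 ≤ s1) (a b : ℝ) :
    IntervalIntegrable (LocB_g s1) MeasureTheory.volume a b :=
  (LocB_g_smooth h1).continuous.intervalIntegrable a b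

theorem LocB_c {s1 : ℝ} (h1 : 1 ≤ s1) : 1 ≤ ∫ t in (0 : ℝ)..(6 * s1 + 1), LocB_g s1 t := by
  have e1 := intervalIntegral.integral_add_adjacent_intervals (LocB_int h1 0 1) (LocB_int h1 1 (6 * s1))
  have e2 := intervalIntegral.integral_add_adjacent_intervals (LocB_int h1 0 (6 * s1))
    (LocB_int h1 (6 * s1) (6 * s1 + 1))
  have e3 : 0 ≤ ∫ t in (0 : ℝ)..1, LocB_g s1 t :=
    intervalIntegral.integral_nonneg (by norm_num) (fun x _ => LocB_g_nonneg h1 x)
  have e4 : 0 ≤ ∫ t in (6 * s1)..(6 * s1 + 1), LocB_g s1 t :=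
    intervalIntegral.integral_nonneg (by linarith) (fun x _ => LocB_g_nonneg h1 x)
  have e5 : ∫ t in (1 : ℝ)..(6 * s1), LocB_g s1 t = Real.log ((6 * s1 + s1) / (1 + s1)) := by
    have h2 : ∫ t in (1 : ℝ)..(6 * s1), LocB_g s1 t = ∫ t in (1 : ℝ)..(6 * s1), (t + s1)⁻¹ := by
      apply intervalIntegral.integral_congr
      intro t ht
      rw [Set.uIcc_of_le (by linarith)] at ht
      show LocB_g s1 t = (t + s1)⁻¹
      rw [LocB_g, Real.smoothTransition.one_of_one_le ht.1,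
        Real.smoothTransition.one_of_one_le (x := 6 * s1 + 1 - t) (by linarith [ht.2]), one_mul, one_div]
    rw [h2, intervalIntegral.integral_comp_add_right (fun x : ℝ => x⁻¹),
      integral_inv_of_pos (by linarith) (by linarith)]
  have e6 : Real.exp 1 ≤ (6 * s1 + s1) / (1 + s1) := by
    have := Real.exp_one_lt_d9
    rw [le_div_iff₀ (by linarith)]
    nlinarith
  have e7 : 1 ≤ Real.log ((6 * s1 + s1) / (1 + s1)) := by
    rw [Real.le_log_iff_exp_le (by positivity)]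
    exact e6
  linarith

theorem exists_prof : ∃ c0 : ℝ, 1 ≤ c0 ∧ ∀ s1 : ℝ, 1 ≤ s1 → ∃ φ : ℝ → ℝ, Prof c0 s1 φ := by
  obtain ⟨B, hB1, hB⟩ := LocB_bound
  refine ⟨B, hB1, fun s1 h1 => ?_⟩
  obtain ⟨c, hc⟩ : ∃ c : ℝ, c = ∫ t in (0 : ℝ)..(6 * s1 + 1), LocB_g s1 t := ⟨_, rfl⟩
  have hc1 : 1 ≤ c := by rw [hc]; exact LocB_c h1
  have hcpos : 0 < c := by linarith
  have hci : c⁻¹ ≤ 1 := inv_le_one_of_one_le₀ hc1
  have hci0 : 0 < c⁻¹ := inv_pos.2 hcpos
  have hs1 : 0 < s1 := by linarith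
  have hgs := LocB_g_smooth h1
  have hd : ∀ s, HasDerivAt (fun s => c⁻¹ * ∫ t in (0 : ℝ)..s, LocB_g s1 t) (c⁻¹ * LocB_g s1 s) s :=
    fun s => ((hgs.continuous.integral_hasStrictDerivAt 0 s).hasDerivAt).const_mul _
  have hderiv : deriv (fun s => c⁻¹ * ∫ t in (0 : ℝ)..s, LocB_g s1 t) = fun s => c⁻¹ * LocB_g s1 s :=
    funext fun s => (hd s).deriv
  have hdd : ∀ s, deriv (deriv (fun s => c⁻¹ * ∫ t in (0 : ℝ)..s, LocB_g s1 t)) s =
      c⁻¹ * deriv (LocB_g s1) s := by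
    intro s
    rw [hderiv]
    exact (((hgs.differentiable (by norm_num)) s).hasDerivAt.const_mul c⁻¹).deriv
  have hzero : ∀ s, s ≤ 0 → (c⁻¹ * ∫ t in (0 : ℝ)..s, LocB_g s1 t) = 0 := by
    intro s hs
    have : ∫ t in (0 : ℝ)..s, LocB_g s1 t = 0 := by
      rw [intervalIntegral.integral_congr (g := fun _ => (0 : ℝ))]
      · simp
      · intro t ht
        rw [Set.uIcc_of_ge hs] at ht
        exact LocB_g_zero ht.2
    rw [this, mul_zero]
  have hone : ∀ s, 6 * s1 + 1 ≤ s → (c⁻¹ * ∫ t in (0 : ℝ)..s, LocB_g s1 t) = 1 := by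
    intro s hs
    have h2 := intervalIntegral.integral_add_adjacent_intervals (LocB_int h1 0 (6 * s1 + 1))
      (LocB_int h1 (6 * s1 + 1) s)
    have h3 : ∫ t in (6 * s1 + 1)..s, LocB_g s1 t = 0 := by
      rw [intervalIntegral.integral_congr (g := fun _ => (0 : ℝ))]
      · simp
      · intro t ht
        rw [Set.uIcc_of_le hs] at ht
        exact LocB_g_end ht.1
    rw [← h2, h3, add_zero, ← hc, inv_mul_cancel₀ hcpos.ne']
  have hmono : Monotone (fun s => c⁻¹ * ∫ t in (0 : ℝ)..s, LocB_g s1 t) := by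
    apply monotone_of_deriv_nonneg (fun s => (hd s).differentiableAt)
    intro s
    rw [(hd s).deriv]
    exact mul_nonneg hci0.le (LocB_g_nonneg h1 s)
  refine ⟨fun s => c⁻¹ * ∫ t in (0 : ℝ)..s, LocB_g s1 t, ?_, hzero, hone, ?_, ?_, ?_, ?_, ?_⟩
  · rw [contDiff_infty_iff_deriv]
    refine ⟨fun s => (hd s).differentiableAt, ?_⟩
    rw [hderiv]
    exact contDiff_const.mul hgs
  · intro s
    constructor
    · have := hmono (min_le_left s 0)
      simp only at this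
      rw [hzero _ (min_le_right s 0)] at this
      exact this
    · have := hmono (le_max_left s (6 * s1 + 1))
      simp only at this
      rw [hone _ (le_max_right s (6 * s1 + 1))] at this
      exact this
  · intro s
    rw [(hd s).deriv]
    exact mul_nonneg hci0.le (LocB_g_nonneg h1 s)
  · intro s
    rw [(hd s).deriv]
    calc c⁻¹ * LocB_g s1 s ≤ 1 * (1 / s1) :=
          mul_le_mul hci (LocB_g_le h1 s) (LocB_g_nonneg h1 s) zero_le_one
      _ = 1 / s1 := one_mul _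
  · intro s hs
    rw [hdd s, (hd s).deriv, LocB_g_deriv h1 (by linarith), LocB_d1 hs, LocB_g,
      Real.smoothTransition.one_of_one_le hs]
    have hψ0 := Real.smoothTransition.nonneg (6 * s1 + 1 - s)
    have hψ1 := Real.smoothTransition.le_one (6 * s1 + 1 - s)
    have hψd : 0 ≤ deriv Real.smoothTransition (6 * s1 + 1 - s) :=
      Real.smoothTransition.monotone.deriv_nonneg
    generalize Real.smoothTransition (6 * s1 + 1 - s) = ψ at hψ0 hψ1
    generalize deriv Real.smoothTransition (6 * s1 + 1 - s) = ψ' at hψd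
    have hx : 0 < s + s1 := by linarith
    have e1 : (c⁻¹ * (1 * ψ / (s + s1))) ^ 2 = (c⁻¹ * ψ) ^ 2 / (s + s1) ^ 2 := by
      field_simp
    have e2 : -(c⁻¹ * (((0 * ψ - 1 * ψ') * (s + s1) - 1 * ψ) / (s + s1) ^ 2)) =
        (c⁻¹ * (ψ' * (s + s1) + ψ)) / (s + s1) ^ 2 := by
      field_simp
      ring
    rw [e1, e2]
    apply div_le_div_of_nonneg_right _ (by positivity)
    have h3 : 0 ≤ c⁻¹ * ψ := mul_nonneg hci0.le hψ0
    have h4 : c⁻¹ * ψ ≤ 1 := by nlinarith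
    have h5 : 0 ≤ c⁻¹ * (ψ' * (s + s1)) := by positivity
    nlinarith
  · intro s
    rw [hdd s]
    have hBs : 0 ≤ B / s1 := by positivity
    by_cases hs : s ≤ 0
    · have : deriv (LocB_g s1) s = 0 := by
        apply IsLocalMin.deriv_eq_zero
        refine Filter.Eventually.of_forall fun x => ?_
        rw [LocB_g_zero hs]
        exact LocB_g_nonneg h1 x
      rw [this, mul_zero]
      exact hBs
    · push Not at hs
      rw [LocB_g_deriv h1 hs.le]
      have hχ0 := Real.smoothTransition.nonneg s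
      have hχd : 0 ≤ deriv Real.smoothTransition s := Real.smoothTransition.monotone.deriv_nonneg
      have hχB := hB s
      have hψ0 := Real.smoothTransition.nonneg (6 * s1 + 1 - s)
      have hψ1 := Real.smoothTransition.le_one (6 * s1 + 1 - s)
      have hψd : 0 ≤ deriv Real.smoothTransition (6 * s1 + 1 - s) :=
        Real.smoothTransition.monotone.deriv_nonneg
      generalize Real.smoothTransition (6 * s1 + 1 - s) = ψ at hψ0 hψ1
      generalize deriv Real.smoothTransition (6 * s1 + 1 - s) = ψ' at hψd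
      generalize Real.smoothTransition s = χ at hχ0
      generalize deriv Real.smoothTransition s = χ' at hχd hχB
      have hx : 0 < s + s1 := by linarith
      have h6 : χ' * ψ ≤ B := by nlinarith
      have h7 : ((χ' * ψ - χ * ψ') * (s + s1) - χ * ψ) / (s + s1) ^ 2 ≤ B / s1 := by
        rw [div_le_div_iff₀ (by positivity) hs1]
        have h8 : 0 ≤ χ * ψ' := mul_nonneg hχ0 hψd
        have h9 : 0 ≤ χ * ψ := mul_nonneg hχ0 hψ0
        have h10 : ((χ' * ψ - χ * ψ') * (s + s1) - χ * ψ) ≤ B * (s + s1) := by nlinarith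
        calc ((χ' * ψ - χ * ψ') * (s + s1) - χ * ψ) * s1 ≤ B * (s + s1) * s1 :=
              mul_le_mul_of_nonneg_right h10 hs1.le
          _ ≤ B * (s + s1) * (s + s1) := mul_le_mul_of_nonneg_left (by linarith) (by positivity)
          _ = B * (s + s1) ^ 2 := by ring
      calc c⁻¹ * (((χ' * ψ - χ * ψ') * (s + s1) - χ * ψ) / (s + s1) ^ 2) ≤ c⁻¹ * (B / s1) :=
            mul_le_mul_of_nonneg_left h7 hci0.le
        _ ≤ 1 * (B / s1) := mul_le_mul_of_nonneg_right hci hBs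
        _ = B / s1 := one_mul _

end Pool.Agent.H85.DC

end S_H85_DC_LocB

section S_H85_DC_LocC

/-!
# Row LocC: the cut-off function at `p`

`cutF φ ρ p x = φ (log ρ^2 - log (τ/(1-τ)))` for `0 < τ < 1`, `1` at `τ = 0`, `0` at `τ = 1` (`τ = tau x p`; `tau 0 p = 1`).
`isFun_cutF`: invariance: `tau (l • x) p = tau x p` (`tau_smul_left`). Smoothness at `x ≠ 0`: if `0 < τ < 1`: composition (`smooth_tt`: near `x`,
`cutF = φ ∘ (log ρ^2 - tt p)`). If `τ = 0`: on the open set `{τ/(1-τ) < ρ^2 e^{-(6 s1+1)}, τ < 1}` the function is `1` (`Prof.one`). If `τ = 1`: on the open set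
`{τ > 1/2, τ/(1-τ) > ρ^2 or τ = 1}`, i.e. `{τ > ρ^2/(1+ρ^2)}`, the function is `0` (`Prof.zero`). (`continuousOn_tau`.)
`dz_cutF`, `L_cutF`: chain rule (`dz_comp_real`, `dzb_comp_real`), with `s = log ρ^2 - log(τ/(1-τ))`: `dz j F = -φ'(s) dz j (tt p)`,
`dz j (dzb k F) = -φ'(s) dz_j dzb_k (tt p) + φ''(s) dz j (tt p) dzb k (tt p)`. (The formula for `dzb k F` holds near `x`.)
-/

open MeasureTheory
open scoped ContDiff BigOperators ComplexConjugate Matrix

namespace Pool.Agent.H85.DC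

/-- The depth `s = log ρ² - log(τ/(1-τ))`. -/
noncomputable def dep (ρ : ℝ) (p x : V) : ℝ := Real.log (ρ ^ 2) - Real.log (tau x p / (1 - tau x p))

/-- The cut-off function. -/
noncomputable def cutF (φ : ℝ → ℝ) (ρ : ℝ) (p x : V) : ℂ :=
  if tau x p ≤ 0 then 1 else if 1 ≤ tau x p then 0 else ((φ (dep ρ p x) : ℝ) : ℂ)

theorem LocC_mid (φ : ℝ → ℝ) (ρ : ℝ) {p y : V} (h0 : 0 < tau y p) (h1 : tau y p < 1) :
    cutF φ ρ p y = ((φ (dep ρ p y) : ℝ) : ℂ) := by
  unfold cutF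
  rw [if_neg (not_le.2 h0), if_neg (not_le.2 h1)]

theorem LocC_dep (ρ : ℝ) (p y : V) :
    ((dep ρ p y : ℝ) : ℂ) = (Real.log (ρ ^ 2) : ℂ) + (-1) * tt p y := by
  unfold dep tt
  push_cast
  ring

theorem LocC_dep_smooth (ρ : ℝ) {p x : V} (hp : N p = 1) (hx : x ≠ 0) (h0 : 0 < tau x p)
    (h1 : tau x p < 1) : ContDiffAt ℝ ∞ (dep ρ p) x := by
  have h := smooth_tt hp hx h0 h1
  have h2 : dep ρ p = fun y => Real.log (ρ ^ 2) - (tt p y).re := by
    funext y
    unfold dep tt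
    rw [Complex.ofReal_re]
  rw [h2]
  exact contDiffAt_const.sub ((Complex.reCLM.contDiff.contDiffAt).comp x h)

theorem LocC_germ (φ : ℝ → ℝ) (ρ : ℝ) {p x : V} (hx : x ≠ 0) (h0 : 0 < tau x p)
    (h1 : tau x p < 1) :
    cutF φ ρ p =ᶠ[nhds x] fun y => ((φ (dep ρ p y) : ℝ) : ℂ) := by
  filter_upwards [(LocA_open p).mem_nhds (show x ∈ LocA_Om p from ⟨hx, h0, h1⟩)] with y hy
  exact LocC_mid φ ρ hy.2.1 hy.2.2

theorem LocC_cont (p : V) {x : V} (hx : x ≠ 0) : ContinuousAt (fun y => tau y p) x :=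
  (continuousOn_tau p).continuousAt (isOpen_compl_singleton.mem_nhds hx)

theorem isRe_cutF (φ : ℝ → ℝ) (ρ : ℝ) (p : V) : IsRe (cutF φ ρ p) := by
  intro x
  unfold cutF
  split_ifs
  · exact map_one _
  · exact map_zero _
  · exact Complex.conj_ofReal _

theorem cutF_mem {c0 s1 : ℝ} {φ : ℝ → ℝ} (hφ : Prof c0 s1 φ) (ρ : ℝ) (p x : V) :
    0 ≤ (cutF φ ρ p x).re ∧ (cutF φ ρ p x).re ≤ 1 := by
  unfold cutF
  split_ifs
  · simp
  · simp
  · rw [Complex.ofReal_re]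
    exact hφ.mem _

theorem cutF_one {c0 s1 : ℝ} {φ : ℝ → ℝ} (hφ : Prof c0 s1 φ) {ρ : ℝ} (hρ : 0 < ρ) {p x : V}
    (h : tau x p < ρ ^ 2 * Real.exp (-(6 * s1 + 1)) / 2) (h2 : tau x p < 1 / 2) :
    cutF φ ρ p x = 1 := by
  by_cases h0 : tau x p ≤ 0
  · unfold cutF
    rw [if_pos h0]
  · push Not at h0
    rw [LocC_mid φ ρ h0 (by linarith), hφ.one]
    · simp
    · have h3 : tau x p / (1 - tau x p) ≤ ρ ^ 2 * Real.exp (-(6 * s1 + 1)) := by
        rw [div_le_iff₀ (by linarith)]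
        have h4 : 0 < ρ ^ 2 * Real.exp (-(6 * s1 + 1)) := by positivity
        nlinarith
      have h5 : 0 < tau x p / (1 - tau x p) := div_pos h0 (by linarith)
      have h6 := Real.log_le_log h5 h3
      rw [Real.log_mul (by positivity) (Real.exp_pos _).ne', Real.log_exp] at h6
      unfold dep
      linarith

theorem cutF_zero {c0 s1 : ℝ} {φ : ℝ → ℝ} (hφ : Prof c0 s1 φ) {ρ : ℝ} (hρ : 0 < ρ) {p x : V}
    (h : ρ ^ 2 ≤ tau x p) : cutF φ ρ p x = 0 := by
  have hρ2 : 0 < ρ ^ 2 := by positivity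
  have h0 : 0 < tau x p := by linarith
  by_cases h1 : 1 ≤ tau x p
  · unfold cutF
    rw [if_neg (not_le.2 h0), if_pos h1]
  · push Not at h1
    rw [LocC_mid φ ρ h0 h1, hφ.zero]
    · simp
    · have h3 : ρ ^ 2 ≤ tau x p / (1 - tau x p) := by
        rw [le_div_iff₀ (by linarith)]
        nlinarith
      have h6 := Real.log_le_log hρ2 h3
      unfold dep
      linarith

theorem LocC_near0 {c0 s1 : ℝ} {φ : ℝ → ℝ} (hφ : Prof c0 s1 φ) {ρ : ℝ} (hρ : 0 < ρ) {p x : V}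
    (hx : x ≠ 0) (h : tau x p ≤ 0) : cutF φ ρ p =ᶠ[nhds x] fun _ => (1 : ℂ) := by
  have h1 : ∀ᶠ y in nhds x, tau y p < ρ ^ 2 * Real.exp (-(6 * s1 + 1)) / 2 :=
    (LocC_cont p hx).eventually_lt continuousAt_const (by
      have : 0 < ρ ^ 2 * Real.exp (-(6 * s1 + 1)) / 2 := by positivity
      linarith)
  have h2 : ∀ᶠ y in nhds x, tau y p < 1 / 2 :=
    (LocC_cont p hx).eventually_lt continuousAt_const (by linarith)
  filter_upwards [h1, h2] with y hy1 hy2
  exact cutF_one hφ hρ hy1 hy2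

theorem LocC_near1 {c0 s1 : ℝ} {φ : ℝ → ℝ} (hφ : Prof c0 s1 φ) {ρ : ℝ} (hρ : 0 < ρ) {p x : V}
    (hx : x ≠ 0) (h : 1 ≤ tau x p) : cutF φ ρ p =ᶠ[nhds x] fun _ => (0 : ℂ) := by
  have hρ2 : 0 < ρ ^ 2 := by positivity
  have h1 : ∀ᶠ y in nhds x, ρ ^ 2 / (1 + ρ ^ 2) < tau y p :=
    continuousAt_const.eventually_lt (LocC_cont p hx) (by
      have : ρ ^ 2 / (1 + ρ ^ 2) < 1 := by
        rw [div_lt_one (by positivity)]
        linarith
      linarith)
  filter_upwards [h1] with y hy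
  have hy0 : 0 < tau y p := lt_trans (by positivity) hy
  by_cases hy1 : 1 ≤ tau y p
  · unfold cutF
    rw [if_neg (not_le.2 hy0), if_pos hy1]
  · push Not at hy1
    rw [LocC_mid φ ρ hy0 hy1, hφ.zero]
    · simp
    · rw [div_lt_iff₀ (by positivity)] at hy
      have h3 : ρ ^ 2 ≤ tau y p / (1 - tau y p) := by
        rw [le_div_iff₀ (by linarith)]
        linarith
      have h6 := Real.log_le_log hρ2 h3
      unfold dep
      linarith

theorem isFun_cutF {c0 s1 : ℝ} {φ : ℝ → ℝ} (hφ : Prof c0 s1 φ) {ρ : ℝ} (hρ : 0 < ρ) {p : V}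
    (hp : N p = 1) : IsFun (cutF φ ρ p) := by
  constructor
  · intro x hx
    have hx0 : x ≠ 0 := hx
    apply ContDiffAt.contDiffWithinAt
    by_cases h0 : tau x p ≤ 0
    · exact contDiffAt_const.congr_of_eventuallyEq (LocC_near0 hφ hρ hx0 h0)
    · by_cases h1 : 1 ≤ tau x p
      · exact contDiffAt_const.congr_of_eventuallyEq (LocC_near1 hφ hρ hx0 h1)
      · push Not at h0 h1
        refine ContDiffAt.congr_of_eventuallyEq ?_ (LocC_germ φ ρ hx0 h0 h1)
        exact (Complex.ofRealCLM.contDiff.contDiffAt).comp x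
          ((hφ.smooth.contDiffAt).comp x (LocC_dep_smooth ρ hp hx0 h0 h1))
  · intro l x hl
    unfold cutF dep
    rw [tau_smul_left hl]

theorem LocC_ddep (ρ : ℝ) {p x : V} (hp : N p = 1) (hx : x ≠ 0) (h0 : 0 < tau x p)
    (h1 : tau x p < 1) : DifferentiableAt ℝ (dep ρ p) x :=
  (LocC_dep_smooth ρ hp hx h0 h1).differentiableAt (by simp)

theorem LocC_dtt {p x : V} (hp : N p = 1) (hx : x ≠ 0) (h0 : 0 < tau x p)
    (h1 : tau x p < 1) : DifferentiableAt ℝ (tt p) x :=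
  (smooth_tt hp hx h0 h1).differentiableAt (by simp)

theorem LocC_dz_dep (j : Fin 3) (ρ : ℝ) {p x : V} (hp : N p = 1) (hx : x ≠ 0) (h0 : 0 < tau x p)
    (h1 : tau x p < 1) : dz j (fun y => ((dep ρ p y : ℝ) : ℂ)) x = - dz j (tt p) x := by
  have ht := LocC_dtt hp hx h0 h1
  rw [show (fun y => ((dep ρ p y : ℝ) : ℂ)) = fun y => (Real.log (ρ ^ 2) : ℂ) + (-1) * tt p y from
    funext fun y => LocC_dep ρ p y, dz_add j (differentiableAt_const _) (ht.const_mul _),
    dz_const_mul j _ ht, dz_const]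
  ring

theorem LocC_dzb_dep (j : Fin 3) (ρ : ℝ) {p x : V} (hp : N p = 1) (hx : x ≠ 0) (h0 : 0 < tau x p)
    (h1 : tau x p < 1) : dzb j (fun y => ((dep ρ p y : ℝ) : ℂ)) x = - dzb j (tt p) x := by
  have ht := LocC_dtt hp hx h0 h1
  rw [show (fun y => ((dep ρ p y : ℝ) : ℂ)) = fun y => (Real.log (ρ ^ 2) : ℂ) + (-1) * tt p y from
    funext fun y => LocC_dep ρ p y, dzb_add j (differentiableAt_const _) (ht.const_mul _),
    dzb_const_mul j _ ht, dzb_const]
  ring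

theorem LocC_dzb_congr (j : Fin 3) {f g : V → ℂ} {x : V} (h : f =ᶠ[nhds x] g) :
    dzb j f x = dzb j g x := by
  unfold dzb
  rw [h.fderiv_eq]

theorem dz_cutF {c0 s1 : ℝ} {φ : ℝ → ℝ} (hφ : Prof c0 s1 φ) {ρ : ℝ} (hρ : 0 < ρ) {p x : V}
    (hp : N p = 1) (hx : x ≠ 0) (h0 : 0 < tau x p) (h1 : tau x p < 1) (j : Fin 3) :
    dz j (cutF φ ρ p) x = -((deriv φ (dep ρ p x) : ℝ) : ℂ) * dz j (tt p) x := by
  have hd : HasDerivAt φ (deriv φ (dep ρ p x)) (dep ρ p x) :=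
    ((hφ.smooth.differentiable (by simp)) _).hasDerivAt
  rw [LocA_dz_congr j (LocC_germ φ ρ hx h0 h1), dz_comp_real j hd (LocC_ddep ρ hp hx h0 h1),
    LocC_dz_dep j ρ hp hx h0 h1]
  ring

theorem LocC_dzb_cutF {c0 s1 : ℝ} {φ : ℝ → ℝ} (hφ : Prof c0 s1 φ) {ρ : ℝ} {p x : V}
    (hp : N p = 1) (hx : x ≠ 0) (h0 : 0 < tau x p) (h1 : tau x p < 1) (j : Fin 3) :
    dzb j (cutF φ ρ p) x = (-1) * (((deriv φ (dep ρ p x) : ℝ) : ℂ) * dzb j (tt p) x) := by
  have hd : HasDerivAt φ (deriv φ (dep ρ p x)) (dep ρ p x) :=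
    ((hφ.smooth.differentiable (by simp)) _).hasDerivAt
  rw [LocC_dzb_congr j (LocC_germ φ ρ hx h0 h1), dzb_comp_real j hd (LocC_ddep ρ hp hx h0 h1),
    LocC_dzb_dep j ρ hp hx h0 h1]
  ring

theorem LocC_ddzb (k : Fin 3) {p x : V} (hp : N p = 1) (hx : x ≠ 0) (h0 : 0 < tau x p)
    (h1 : tau x p < 1) : DifferentiableAt ℝ (dzb k (tt p)) x := by
  obtain ⟨hN, a1, a2, a3, a4, a5⟩ := LocA_facts hp hx h0 h1
  have hξb : conj (ip x p) ≠ 0 := (map_ne_zero _).2 a5
  have hM0 : ((N x - Complex.normSq (ip x p) : ℝ) : ℂ) ≠ 0 := by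
    rw [Ne, Complex.ofReal_eq_zero]
    exact a4.ne'
  refine DifferentiableAt.congr_of_eventuallyEq ?_ (LocA_germ2 k hp hx h0 h1)
  have hxk : DifferentiableAt ℝ (fun y : V => y k) x := by fun_prop
  have hip := LocA_dip p x
  have d1 : DifferentiableAt ℝ (fun y : V => ip y p * p k) x := hip.mul (differentiableAt_const _)
  have d2 : DifferentiableAt ℝ (fun y : V => y k + (-1) * (ip y p * p k)) x :=
    hxk.add (d1.const_mul _)
  have d3 : DifferentiableAt ℝ (fun y => (((N y - Complex.normSq (ip y p) : ℝ) : ℂ))⁻¹) x :=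
    (LocA_dMM p x).inv hM0
  have d4 : DifferentiableAt ℝ (fun y => (conj (ip y p))⁻¹) x := (LocA_dconj hip).inv hξb
  exact (d2.mul d3).add ((d4.const_mul _).const_mul _)

theorem L_cutF {c0 s1 : ℝ} {φ : ℝ → ℝ} (hφ : Prof c0 s1 φ) {ρ : ℝ} (hρ : 0 < ρ) {p x : V}
    (hp : N p = 1) (hx : x ≠ 0) (h0 : 0 < tau x p) (h1 : tau x p < 1) :
    L (cutF φ ρ p) x = (-((deriv φ (dep ρ p x) : ℝ) : ℂ)) • L (tt p) x +
      ((deriv (deriv φ) (dep ρ p x) : ℝ) : ℂ) • du2 (tt p) x := by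
  funext j k
  show dz j (dzb k (cutF φ ρ p)) x = (-((deriv φ (dep ρ p x) : ℝ) : ℂ)) * dz j (dzb k (tt p)) x +
    ((deriv (deriv φ) (dep ρ p x) : ℝ) : ℂ) * (dz j (tt p) x * dzb k (tt p) x)
  have hg : dzb k (cutF φ ρ p) =ᶠ[nhds x]
      fun y => (-1) * (((deriv φ (dep ρ p y) : ℝ) : ℂ) * dzb k (tt p) y) := by
    filter_upwards [(LocA_open p).mem_nhds (show x ∈ LocA_Om p from ⟨hx, h0, h1⟩)] with y hy
    exact LocC_dzb_cutF hφ hp hy.1 hy.2.1 hy.2.2 k
  have hs : ContDiff ℝ ∞ (deriv φ) := (contDiff_infty_iff_deriv.1 hφ.smooth).2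
  have hd : HasDerivAt (deriv φ) (deriv (deriv φ) (dep ρ p x)) (dep ρ p x) :=
    ((hs.differentiable (by simp)) _).hasDerivAt
  have hdd := LocC_ddep ρ hp hx h0 h1
  have e1 : DifferentiableAt ℝ (fun y => ((deriv φ (dep ρ p y) : ℝ) : ℂ)) x :=
    Complex.ofRealCLM.differentiableAt.comp x
      (((hs.differentiable (by simp)) (dep ρ p x)).comp x hdd)
  have e2 := LocC_ddzb k hp hx h0 h1
  have e3 : DifferentiableAt ℝ (fun y => ((deriv φ (dep ρ p y) : ℝ) : ℂ) * dzb k (tt p) y) x :=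
    e1.mul e2
  rw [LocA_dz_congr j hg, dz_const_mul j _ e3, dz_mul j e1 e2, dz_comp_real j hd hdd,
    LocC_dz_dep j ρ hp hx h0 h1]
  ring

/-- Where `τ = 0` or `τ = 1` the derivatives vanish. -/
theorem dz_cutF_out {c0 s1 : ℝ} {φ : ℝ → ℝ} (hφ : Prof c0 s1 φ) {ρ : ℝ} (hρ : 0 < ρ) {p x : V}
    (hp : N p = 1) (hx : x ≠ 0) (h : tau x p ≤ 0 ∨ 1 ≤ tau x p) (j : Fin 3) :
    dz j (cutF φ ρ p) x = 0 := by
  rcases h with h | h
  · rw [LocA_dz_congr j (LocC_near0 hφ hρ hx h), dz_const]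
  · rw [LocA_dz_congr j (LocC_near1 hφ hρ hx h), dz_const]

/-- `τ = 0` and `τ = 1` are null sets. -/
theorem ae_tau {p : V} (hp : N p = 1) : ∀ᵐ x : V, x ≠ 0 ∧ 0 < tau x p ∧ tau x p < 1 := by
  have hp0 : p ≠ 0 := by
    rintro rfl
    unfold N at hp
    simp at hp
  let S1 : Submodule ℝ V := (Submodule.span ℂ {p}).restrictScalars ℝ
  let lm : V →ₗ[ℂ] ℂ := ∑ j, (conj (p j)) • (LinearMap.proj j : V →ₗ[ℂ] ℂ)
  have hlm : ∀ x, lm x = ip x p := by
    intro x
    simp only [lm, LinearMap.sum_apply, LinearMap.smul_apply, LinearMap.proj_apply, smul_eq_mul, ip]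
    exact Finset.sum_congr rfl fun j _ => mul_comm _ _
  let S2 : Submodule ℝ V := (LinearMap.ker lm).restrictScalars ℝ
  have hS1 : S1 ≠ ⊤ := by
    intro h
    have h2 : Submodule.span ℂ {p} = ⊤ := by
      rw [Submodule.eq_top_iff']
      intro x
      have : x ∈ S1 := by rw [h]; exact Submodule.mem_top
      exact this
    have h3 := finrank_span_singleton (K := ℂ) hp0
    rw [h2, finrank_top, Module.finrank_fin_fun] at h3
    norm_num at h3
  have hS2 : S2 ≠ ⊤ := by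
    intro h
    have h2 : p ∈ S2 := by rw [h]; exact Submodule.mem_top
    have h3 : lm p = 0 := h2
    rw [hlm] at h3
    have h4 : ip p p = (N p : ℂ) := by
      rw [LocA_N]
      rfl
    rw [h4, hp] at h3
    norm_num at h3
  have m1 := Measure.addHaar_submodule (volume : Measure V) S1 hS1
  have m2 := Measure.addHaar_submodule (volume : Measure V) S2 hS2
  have a1 : ∀ᵐ x : V, x ∉ (S1 : Set V) := measure_eq_zero_iff_ae_notMem.1 m1
  have a2 : ∀ᵐ x : V, x ∉ (S2 : Set V) := measure_eq_zero_iff_ae_notMem.1 m2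
  filter_upwards [a1, a2] with x h1 h2
  have hx : x ≠ 0 := by
    rintro rfl
    exact h1 S1.zero_mem
  refine ⟨hx, lt_of_le_of_ne (tau_nonneg x p) fun h => ?_, lt_of_le_of_ne (tau_le_one x p) fun h => ?_⟩
  · obtain ⟨c, hc⟩ := tau_eq_zero hx hp0 h.symm
    apply h1
    show x ∈ Submodule.span ℂ {p}
    rw [hc]
    exact Submodule.smul_mem _ _ (Submodule.mem_span_singleton_self p)
  · apply h2
    show lm x = 0
    rw [hlm]
    unfold tau at h
    have hN := N_pos hx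
    rw [hp, mul_one] at h
    have h3 : Complex.normSq (ip x p) / N x = 0 := by linarith
    rw [div_eq_zero_iff] at h3
    exact Complex.normSq_eq_zero.1 (h3.resolve_right hN.ne')

end Pool.Agent.H85.DC

end S_H85_DC_LocC
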