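import Mathlib
import Pool.Agent.H24.M68.G03
import Pool.Agent.H24.M68.G05

/-! MP_6873ef_an: this file joins several modules to save build time. -/

section S_H85_DC_HFac

/-!
# Row HFac: the spaces `InH`, `InH0`

`qq_L_Wm`: `ee (L u x) (Wm x) = (L u x).trace / N x` (`ee_Wm`, `form_L`). `∫ dz j (dzb j u) N^{-1} wt
= -∫ dzb j u dz j (N^{-1}) wt + ∫ dzb j u N^{-1} conj(x_j) wt` (`ibp_z`), `dz j (N^{-1}) = - conj(x_j)/N^2`,
and `∑_j conj(x_j) dzb j u = 0` (`eulerb`). So `qq (L u) Wm = 0`.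
`inH0_L`: `form_L`, `herm_L`, `qLL`, `qq_L_Wm`, `qq_comm`.
`qq_WW`: `ee (Wm x) (Wm x) = (2 / N)/N`, `int_Nm2`: `2 * π^3/2`.
`inH0_shift`: for `A` in `H` with `qq Wm A = c` (`c` real): `A - (c/π^3) Wm` in `H0`.
`Bz ζ = (db ζ + (db ζ)ᴴ)/2`: a form (`form_db`, `form_ct`), Hermitian. For real conic `u`:
`qq (L u) (db ζ) = 0` (`s1`), `qq (L u) ((db ζ)ᴴ) = conj (qq (L u) (db ζ)) = 0` (`qq_ct`, `L u` Hermitian off `0`,
`qq_congr`). The condition `InH.ddc` is for ALL (complex) conic `u`: write `u = u₁ + i u₂` with real conic `u₁ = (u + ū)/2`,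
`u₂ = (u - ū)/(2i)` (`isFun_iff`, `hom_conj`), `L u = L u₁ + i L u₂` off `0` (`dz_add`, `dz_const_mul`, …); this is
`ddc_of_real`. Mass: `qq Wm (db ζ) = 0` (`s1W`) and its conjugate.
`nn_Bz`: `qq B B = (1/4)(qq a a + 2 qq a aᴴ + qq aᴴ aᴴ)`, `qq a a = 0` (`s2`), `qq aᴴ aᴴ = conj 0`, `s2c`:
`qq B B = (1/2) (-(1/2)) ∫ curl`, so `nn B B = (1/4) ∫ curl`.
`nn_Bz_left`: for Hermitian forms `E`: `qq E aᴴ = conj (qq E a)` so `qq E B = Re (qq E a)`.
-/

open MeasureTheory
open scoped ContDiff BigOperators ComplexConjugate Matrix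

namespace Pool.Agent.H85.DC

/-- The real form `(∂̄ζ + (∂̄ζ)ᴴ)/2`. -/
noncomputable def Bz (ζ : V → V) (x : V) : M3 := ((1 / 2 : ℂ)) • (db ζ x + (db ζ x)ᴴ)

theorem HFac_cov {u : V → ℂ} (hu : IsFun u) : IsCov (fun x j => dz j u x) := by
  have h0 : Hom 0 0 u := isFun_iff.mp hu
  have hj : ∀ j, Hom (-1) 0 (dz j u) := fun j => by
    have := dz_hom j h0
    simpa using this
  refine ⟨?_, ?_, ?_⟩
  · exact contDiffOn_pi.mpr fun j => (hj j).smooth
  · intro l x hl
    funext j
    have h1 := (hj j).hom l x hl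
    simp only [Pi.smul_apply, smul_eq_mul]
    rw [h1]
    simp
  · intro x hx
    have h1 := euler h0 hx
    simpa using h1

theorem HFac_L_eq {u : V → ℂ} (hu : IsFun u) (x : V) (hx : x ≠ 0) :
    L u x = db (fun x j => dz j u x) x := by
  funext j k
  exact dz_dzb_comm j k hu.smooth hx

theorem qq_L_Wm {u : V → ℂ} (hu : IsFun u) : qq (L u) Wm = 0 := by
  rw [qq_comm, qq_congr (A := Wm) (A' := Wm) (B := L u) (B' := db (fun x j => dz j u x))
    (fun _ _ => rfl) (HFac_L_eq hu)]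
  exact s1W (HFac_cov hu)

theorem ddc_of_real {A : V → M3} (hA : IsForm A)
    (h : ∀ u : V → ℂ, IsFun u → IsRe u → qq (L u) A = 0) :
    ∀ u : V → ℂ, IsFun u → qq (L u) A = 0 := by
  intro u hu
  have h0 : Hom 0 0 u := isFun_iff.mp hu
  have hc0 : Hom 0 0 (fun x => conj (u x)) := hom_conj h0
  set u1 : V → ℂ := fun x => (1 / 2 : ℂ) * (u x + conj (u x)) with hu1
  set u2 : V → ℂ := fun x => (-Complex.I / 2 : ℂ) * (u x + (-1 : ℂ) * conj (u x)) with hu2
  have H1 : Hom 0 0 u1 := hom_const_mul _ (hom_add h0 hc0)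
  have H2 : Hom 0 0 u2 := hom_const_mul _ (hom_add h0 (hom_const_mul _ hc0))
  have R1 : IsRe u1 := by
    intro x
    simp only [hu1, map_mul, map_add, Complex.conj_conj]
    have : conj (1 / 2 : ℂ) = 1 / 2 := by
      rw [map_div₀, map_one, map_ofNat]
    rw [this]
    ring
  have R2 : IsRe u2 := by
    intro x
    simp only [hu2, map_mul, map_add, Complex.conj_conj]
    have : conj (-Complex.I / 2 : ℂ) = Complex.I / 2 := by
      rw [map_div₀, map_neg, map_ofNat, Complex.conj_I, neg_neg]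
    rw [this]
    simp only [map_neg, map_one]
    ring
  have hsum : ∀ y : V, u y = u1 y + Complex.I * u2 y := by
    intro y
    simp only [hu1, hu2]
    have hI : Complex.I * Complex.I = -1 := Complex.I_mul_I
    linear_combination ((1 / 2 : ℂ) * (u y - conj (u y))) * hI
  have hsumf : u = fun y => u1 y + Complex.I * u2 y := funext hsum
  have hL : ∀ x : V, x ≠ 0 → L u x = (fun x => L u1 x + Complex.I • L u2 x) x := by
    intro x hx
    funext j k
    show dz j (dzb k u) x = dz j (dzb k u1) x + Complex.I * dz j (dzb k u2) x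
    have e1 : ∀ y : V, y ≠ 0 → dzb k u y = dzb k u1 y + Complex.I * dzb k u2 y := by
      intro y hy
      rw [hsumf, dzb_add k (H1.diffAt hy) ((hom_const_mul Complex.I H2).diffAt hy),
        dzb_const_mul k _ (H2.diffAt hy)]
    rw [dz_congr j hx e1, dz_add j ((dzb_hom k H1).diffAt hx)
      ((hom_const_mul Complex.I (dzb_hom k H2)).diffAt hx),
      dz_const_mul j _ ((dzb_hom k H2).diffAt hx)]
  have F1 : IsFun u1 := isFun_iff.mpr H1
  have F2 : IsFun u2 := isFun_iff.mpr H2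
  rw [qq_congr hL (fun x _ => rfl : ∀ x : V, x ≠ 0 → A x = A x),
    qq_add_left (form_L F1) (form_smul _ (form_L F2)) hA, qq_smul_left, h u1 F1 R1, h u2 F2 R2]
  simp

theorem inH_Wm : InH Wm := ⟨form_Wm, herm_Wm, fun _ hu => qq_L_Wm hu⟩

theorem inH0_L {u : V → ℂ} (hu : IsFun u) (ru : IsRe u) : InH0 (L u) :=
  ⟨⟨form_L hu, herm_L hu ru, fun _ hv => qLL hv hu⟩, by rw [qq_comm]; exact qq_L_Wm hu⟩

theorem inH_add {A B : V → M3} (hA : InH A) (hB : InH B) : InH (fun x => A x + B x) := by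
  refine ⟨form_add hA.form hB.form, herm_add hA.herm hB.herm, fun u hu => ?_⟩
  rw [qq_comm, qq_add_left hA.form hB.form (form_L hu), qq_comm A, qq_comm B, hA.ddc u hu,
    hB.ddc u hu, add_zero]

theorem inH_sub {A B : V → M3} (hA : InH A) (hB : InH B) : InH (fun x => A x - B x) := by
  refine ⟨form_sub hA.form hB.form, herm_sub hA.herm hB.herm, fun u hu => ?_⟩
  rw [qq_comm, qq_sub_left hA.form hB.form (form_L hu), qq_comm A, qq_comm B, hA.ddc u hu,
    hB.ddc u hu, sub_zero]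

theorem inH_smul {A : V → M3} (c : ℝ) (hA : InH A) : InH (fun x => (c : ℂ) • A x) := by
  refine ⟨form_smul _ hA.form, herm_smul c hA.herm, fun u hu => ?_⟩
  rw [qq_comm, qq_smul_left, qq_comm A, hA.ddc u hu, mul_zero]

theorem inH0_add {A B : V → M3} (hA : InH0 A) (hB : InH0 B) : InH0 (fun x => A x + B x) := by
  refine ⟨inH_add hA.toInH hB.toInH, ?_⟩
  rw [qq_comm, qq_add_left hA.form hB.form form_Wm, qq_comm A, qq_comm B, hA.mass,
    hB.mass, add_zero]

theorem inH0_sub {A B : V → M3} (hA : InH0 A) (hB : InH0 B) : InH0 (fun x => A x - B x) := by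
  refine ⟨inH_sub hA.toInH hB.toInH, ?_⟩
  rw [qq_comm, qq_sub_left hA.form hB.form form_Wm, qq_comm A, qq_comm B, hA.mass,
    hB.mass, sub_zero]

theorem inH0_smul {A : V → M3} (c : ℝ) (hA : InH0 A) : InH0 (fun x => (c : ℂ) • A x) := by
  refine ⟨inH_smul c hA.toInH, ?_⟩
  rw [qq_comm, qq_smul_left, qq_comm A, hA.mass, mul_zero]

theorem HFac_ae_ne : ∀ᵐ x ∂(volume : Measure V), x ≠ 0 := by
  have h : (volume : Measure V) {(0 : V)} = 0 := measure_singleton _
  exact measure_eq_zero_iff_ae_notMem.mp h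

theorem qq_WW : qq Wm Wm = ((Real.pi ^ 3 : ℝ) : ℂ) := by
  unfold qq
  have h1 : ∫ x, ee (Wm x) (Wm x) * (wt x : ℂ) =
      ∫ x : V, ((2 * ((N x) ^ (-2 : ℤ) * wt x) : ℝ) : ℂ) := by
    apply integral_congr_ae
    filter_upwards [HFac_ae_ne] with x hx
    rw [ee_Wm form_Wm hx, trace_Wm hx]
    have hN : (N x : ℂ) ≠ 0 := by
      exact_mod_cast (N_pos hx).ne'
    have hz : ((N x ^ (-2 : ℤ) : ℝ) : ℂ) = ((N x : ℂ) * (N x : ℂ))⁻¹ := by
      rw [zpow_neg, zpow_ofNat, pow_two]
      push_cast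
      ring
    rw [Complex.ofReal_mul, Complex.ofReal_mul, hz, div_div, div_eq_mul_inv, Complex.ofReal_ofNat]
    ring
  rw [h1, integral_complex_ofReal, integral_const_mul, int_Nm2]
  congr 1
  ring

theorem inH0_shift {A : V → M3} (hA : InH A) {c : ℝ} (hc : qq Wm A = (c : ℂ)) :
    InH0 (fun x => A x - ((c / Real.pi ^ 3 : ℝ) : ℂ) • Wm x) := by
  refine ⟨inH_sub hA (inH_smul _ inH_Wm), ?_⟩
  rw [qq_comm, qq_sub_left hA.form (form_smul _ form_Wm) form_Wm, qq_smul_left, qq_comm A, hc, qq_WW]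
  have hp : (Real.pi ^ 3 : ℝ) ≠ 0 := by positivity
  rw [← Complex.ofReal_mul, div_mul_cancel₀ _ hp, sub_self]

theorem HFac_ct_right {E A : V → M3} (hh : IsHerm E) :
    qq (fun x => (A x)ᴴ) E = conj (qq A E) := by
  rw [← qq_ct]
  exact qq_congr (fun _ _ => rfl) (fun x hx => (hh x hx).symm)

theorem HFac_form_Bz {ζ : V → V} (hζ : IsCov ζ) : IsForm (Bz ζ) :=
  form_smul _ (form_add (form_db hζ) (form_ct (form_db hζ)))

theorem HFac_herm_Bz (ζ : V → V) : IsHerm (Bz ζ) := by
  intro x _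
  show ((1 / 2 : ℂ) • (db ζ x + (db ζ x)ᴴ))ᴴ = (1 / 2 : ℂ) • (db ζ x + (db ζ x)ᴴ)
  rw [Matrix.conjTranspose_smul, Matrix.conjTranspose_add, Matrix.conjTranspose_conjTranspose,
    add_comm]
  congr 1
  simp

theorem HFac_qq_Bz {ζ : V → V} (hζ : IsCov ζ) {E : V → M3} (hE : IsForm E) :
    qq (Bz ζ) E = (1 / 2) * (qq (db ζ) E + qq (fun x => (db ζ x)ᴴ) E) := by
  have h : qq (Bz ζ) E = qq (fun x => (1 / 2 : ℂ) • (fun x => db ζ x + (db ζ x)ᴴ) x) E := rfl
  rw [h, qq_smul_left, qq_add_left (form_db hζ) (form_ct (form_db hζ)) hE]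

theorem HFac_qq_Bz_zero {ζ : V → V} (hζ : IsCov ζ) {E : V → M3} (hE : IsForm E) (hh : IsHerm E)
    (h : qq E (db ζ) = 0) : qq E (Bz ζ) = 0 := by
  rw [qq_comm, HFac_qq_Bz hζ hE, HFac_ct_right hh, qq_comm (db ζ), h]
  simp

theorem inH0_Bz {ζ : V → V} (hζ : IsCov ζ) : InH0 (Bz ζ) := by
  refine ⟨⟨HFac_form_Bz hζ, HFac_herm_Bz ζ, ?_⟩, ?_⟩
  · apply ddc_of_real (HFac_form_Bz hζ)
    intro u hu ru
    exact HFac_qq_Bz_zero hζ (form_L hu) (herm_L hu ru) (s1 hu hζ)
  · exact HFac_qq_Bz_zero hζ form_Wm herm_Wm (s1W hζ)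

theorem nn_Bz {ζ : V → V} (hζ : IsCov ζ) :
    nn (Bz ζ) (Bz ζ) = (1 / 4) * ∫ x, curl ζ x * wt x := by
  have ha := form_db hζ
  have hc := form_ct ha
  have hB := HFac_form_Bz hζ
  have h1 : qq (db ζ) (Bz ζ) = (1 / 2) * qq (db ζ) (fun x => (db ζ x)ᴴ) := by
    rw [qq_comm, HFac_qq_Bz hζ ha, s2 hζ hζ, qq_comm (fun x => (db ζ x)ᴴ)]
    ring
  have h2 : qq (fun x => (db ζ x)ᴴ) (Bz ζ) = (1 / 2) * qq (db ζ) (fun x => (db ζ x)ᴴ) := by
    rw [qq_comm, HFac_qq_Bz hζ hc, qq_ct, s2 hζ hζ]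
    simp
  have h3 : qq (Bz ζ) (Bz ζ) = ((-(1 / 4) * ∫ x, curl ζ x * wt x : ℝ) : ℂ) := by
    rw [HFac_qq_Bz hζ hB, h1, h2, s2c hζ]
    push_cast
    ring
  unfold nn
  rw [h3, Complex.ofReal_re]
  ring

theorem nn_Bz_left {E : V → M3} (hE : IsForm E) (hh : IsHerm E) {ζ : V → V} (hζ : IsCov ζ) :
    nn E (Bz ζ) = -(qq E (db ζ)).re := by
  unfold nn
  rw [qq_comm, HFac_qq_Bz hζ hE, HFac_ct_right hh, qq_comm (db ζ)]
  congr 1
  rw [Complex.add_conj]
  simp

/-- Adding `L u` does not change the intersection numbers with elements of `H`. -/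
theorem nn_sub_L {A : V → M3} (hA : InH A) {u : V → ℂ} (hu : IsFun u) (ru : IsRe u) :
    nn (fun x => A x - L u x) (fun x => A x - L u x) = nn A A := by
  have hL := form_L hu
  have hS := form_sub hA.form hL
  have z1 : qq (L u) A = 0 := hA.ddc u hu
  have z2 : qq (L u) (L u) = 0 := qLL hu hu
  have h1 : qq A (fun x => A x - L u x) = qq A A := by
    rw [qq_comm, qq_sub_left hA.form hL hA.form, z1, sub_zero]
  have h2 : qq (L u) (fun x => A x - L u x) = 0 := by
    rw [qq_comm, qq_sub_left hA.form hL hL, z2, qq_comm, z1, sub_zero]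
  have h3 : qq (fun x => A x - L u x) (fun x => A x - L u x) = qq A A := by
    rw [qq_sub_left hA.form hL hS, h1, h2, sub_zero]
  unfold nn
  rw [h3]

end Pool.Agent.H85.DC

end S_H85_DC_HFac

section S_H85_DC_Adj

/-!
# Row Adj: the wedge product of pulled back matrices

`e2 A = (1/2) (tr A)^2 - (1/2) tr (A*A)`, so `ee A B = e2 (A+B) - e2 A - e2 B`; and `e2 A = (adjugate A).trace`
(`3 × 3`, expand with `Matrix.adjugate_fin_three` or `Matrix.trace_fin_three`, `ring`).
`adj_kill`: if `∑_j x_j A_jk = 0` for all `k` and `∑_k A_jk conj(x_k) = 0` for all `j`, then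
`N x • adjugate A = (adjugate A).trace • (conj(x_j) x_k)_{jk}`.
Proof. Put `C = adjugate A`, `C_kj` = the `(j,k)` cofactor. From `∑_j x_j A_j• = 0` (rows of `A`):
`x_i C_kj = x_j C_ki` for all `i, j, k` (each is a `2 × 2` determinant identity: e.g. the rows `A_0, A_1, A_2`, `x_0 A_0 + x_1 A_1 + x_2 A_2 = 0`
gives `x_0 (A_0 × A_2) + x_1 (A_1 × A_2) = 0`; prove with `adjugate_fin_three` and `linear_combination` of the three linear
relations, coefficients = entries of `A`). From the columns: `conj(x_l) C_kj = conj(x_k) C_lj`. Hence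
`x_i conj(x_i) C_kj = x_j conj(x_i) C_ki = x_j conj(x_k) C_ii`, sum over `i`: `N x * C_kj = conj(x_k) x_j * tr C`.
`ee_pull_pt`: let `My = x ≠ 0` and let `A, B` kill `x` on both sides. `e2 (Mᵀ A M̄) = tr (adj M̄ * adj A * adj Mᵀ)`
(`Matrix.adjugate_mul_distrib`), and `N x * adj A = e2 A * conj(x) x^T`, so
`N x * e2 (Mᵀ A M̄) = e2 A * tr ((adj M̄ x̄) (x^T adj Mᵀ))`; `adj M̄ x̄ = adj M̄ M̄ ȳ = det M̄ ȳ`, `x^T adj Mᵀ = (adj M x)^T = det M y^T`;
so `N x * e2 (Mᵀ A M̄) = e2 A * |det M|^2 * N y`. Polarise (`A`, `B`, `A + B` all kill `x`).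
-/

open MeasureTheory
open scoped ContDiff BigOperators ComplexConjugate Matrix

namespace Pool.Agent.H85.DC

/-- The cross product. -/
noncomputable def Adj_cr (a b : V) : V :=
  ![a 1 * b 2 - a 2 * b 1, a 2 * b 0 - a 0 * b 2, a 0 * b 1 - a 1 * b 0]

theorem Adj_cr_prop {x a b : V} (ha : ∑ j, x j * a j = 0) (hb : ∑ j, x j * b j = 0) (i j : Fin 3) :
    x i * Adj_cr a b j = x j * Adj_cr a b i := by
  rw [Fin.sum_univ_three] at ha hb
  have e01 : x 0 * (a 2 * b 0 - a 0 * b 2) = x 1 * (a 1 * b 2 - a 2 * b 1) := by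
    linear_combination a 2 * hb - b 2 * ha
  have e12 : x 1 * (a 0 * b 1 - a 1 * b 0) = x 2 * (a 2 * b 0 - a 0 * b 2) := by
    linear_combination a 0 * hb - b 0 * ha
  have e20 : x 2 * (a 1 * b 2 - a 2 * b 1) = x 0 * (a 0 * b 1 - a 1 * b 0) := by
    linear_combination a 1 * hb - b 1 * ha
  unfold Adj_cr
  fin_cases i <;> fin_cases j <;>
    simp only [Fin.zero_eta, Fin.mk_one, Fin.reduceFinMk, Matrix.cons_val_zero,
      Matrix.cons_val_one, Matrix.cons_val] <;>
    first
      | exact e01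
      | exact e01.symm
      | exact e12
      | exact e12.symm
      | exact e20
      | exact e20.symm

theorem Adj_col {A : M3} {x : V} (hA : ∀ k, ∑ j, x j * A j k = 0) (i j k : Fin 3) :
    x i * Matrix.adjugate A k j = x j * Matrix.adjugate A k i := by
  have h0 : ∀ j, Matrix.adjugate A 0 j = Adj_cr (fun j => A j 1) (fun j => A j 2) j := by
    intro j
    rw [Matrix.adjugate_fin_three]
    unfold Adj_cr
    fin_cases j <;> simp <;> ring
  have h1 : ∀ j, Matrix.adjugate A 1 j = Adj_cr (fun j => A j 2) (fun j => A j 0) j := by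
    intro j
    rw [Matrix.adjugate_fin_three]
    unfold Adj_cr
    fin_cases j <;> simp <;> ring
  have h2 : ∀ j, Matrix.adjugate A 2 j = Adj_cr (fun j => A j 0) (fun j => A j 1) j := by
    intro j
    rw [Matrix.adjugate_fin_three]
    unfold Adj_cr
    fin_cases j <;> simp <;> ring
  fin_cases k
  · show x i * Matrix.adjugate A 0 j = x j * Matrix.adjugate A 0 i
    rw [h0, h0]
    exact Adj_cr_prop (hA 1) (hA 2) i j
  · show x i * Matrix.adjugate A 1 j = x j * Matrix.adjugate A 1 i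
    rw [h1, h1]
    exact Adj_cr_prop (hA 2) (hA 0) i j
  · show x i * Matrix.adjugate A 2 j = x j * Matrix.adjugate A 2 i
    rw [h2, h2]
    exact Adj_cr_prop (hA 0) (hA 1) i j

theorem Adj_row {A : M3} {x : V} (hA : ∀ j, ∑ k, A j k * x k = 0) (i j k : Fin 3) :
    x i * Matrix.adjugate A k j = x k * Matrix.adjugate A i j := by
  have h := Adj_col (A := Aᵀ) (x := x) (fun k => by
    rw [← hA k]
    exact Finset.sum_congr rfl fun j _ => mul_comm _ _) i k j
  rw [← Matrix.adjugate_transpose] at h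
  exact h

theorem Adj_kill {A : M3} {x : V} (hA : ∀ k, ∑ j, x j * A j k = 0)
    (hA' : ∀ j, ∑ k, A j k * conj (x k) = 0) :
    (N x : ℂ) • Matrix.adjugate A =
      (Matrix.adjugate A).trace • Matrix.vecMulVec (fun k => conj (x k)) x := by
  ext k j
  rw [Matrix.smul_apply, Matrix.smul_apply, Matrix.vecMulVec_apply, smul_eq_mul, smul_eq_mul,
    HomA_N, Matrix.trace, Finset.sum_mul, Finset.sum_mul]
  refine Finset.sum_congr rfl fun i _ => ?_
  have h1 := Adj_col hA i j k
  have h2 := Adj_row (x := fun k => conj (x k)) hA' i i k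
  simp only [Matrix.diag_apply]
  linear_combination conj (x i) * h1 + x j * h2

theorem Adj_ee (A B : M3) :
    ee A B = (Matrix.adjugate (A + B)).trace - (Matrix.adjugate A).trace -
      (Matrix.adjugate B).trace := by
  unfold ee
  rw [Matrix.adjugate_fin_three, Matrix.adjugate_fin_three, Matrix.adjugate_fin_three,
    Matrix.trace_fin_three_of, Matrix.trace_fin_three_of, Matrix.trace_fin_three_of,
    Matrix.trace_fin_three, Matrix.trace_fin_three, Matrix.trace_fin_three]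
  simp only [Matrix.mul_apply, Fin.sum_univ_three, Matrix.add_apply]
  ring

theorem Adj_e2 (M : M3) {x y : V} (hy : M.mulVec y = x) {A : M3}
    (hA : ∀ k, ∑ j, x j * A j k = 0) (hA' : ∀ j, ∑ k, A j k * conj (x k) = 0) :
    (N x : ℂ) * (Matrix.adjugate (Mᵀ * A * M.map conj)).trace =
      ((Complex.normSq M.det * N y : ℝ) : ℂ) * (Matrix.adjugate A).trace := by
  have h1 : (N x : ℂ) • Matrix.adjugate (Mᵀ * A * M.map conj) =
      (Matrix.adjugate A).trace • Matrix.vecMulVec
        ((Matrix.adjugate (M.map conj)).mulVec (fun k => conj (x k)))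
        ((Matrix.adjugate M).mulVec x) := by
    rw [Matrix.adjugate_mul_distrib, Matrix.adjugate_mul_distrib, ← Matrix.mul_smul,
      ← Matrix.smul_mul, Adj_kill hA hA', Matrix.smul_mul, Matrix.mul_smul,
      Matrix.vecMulVec_mul, Matrix.mul_vecMulVec, ← Matrix.adjugate_transpose,
      Matrix.vecMul_transpose]
  have h2 : (Matrix.adjugate M).mulVec x = M.det • y := by
    rw [← hy, Matrix.mulVec_mulVec, Matrix.adjugate_mul, Matrix.smul_mulVec, Matrix.one_mulVec]
  have h3 : (fun k => conj (x k)) = (M.map conj).mulVec (fun k => conj (y k)) := by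
    funext k
    rw [← hy]
    simp [Matrix.mulVec, dotProduct]
  have h4 : (M.map conj).det = conj M.det := by
    have := (RingHom.map_det (starRingEnd ℂ) M).symm
    exact this
  have h5 : (Matrix.adjugate (M.map conj)).mulVec (fun k => conj (x k)) =
      conj M.det • (fun k => conj (y k)) := by
    rw [h3, Matrix.mulVec_mulVec, Matrix.adjugate_mul, Matrix.smul_mulVec, Matrix.one_mulVec, h4]
  rw [h2, h5] at h1
  have h6 := congrArg Matrix.trace h1
  rw [Matrix.trace_smul, Matrix.trace_smul, smul_eq_mul, smul_eq_mul, Matrix.trace_vecMulVec] at h6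
  rw [h6]
  push_cast
  rw [← Complex.mul_conj, HomA_N, mul_comm]
  congr 1
  simp only [dotProduct, Pi.smul_apply, smul_eq_mul]
  rw [Finset.mul_sum]
  refine Finset.sum_congr rfl fun i _ => ?_
  ring

theorem ee_pull_pt (M : M3) {x y : V} (hy : M.mulVec y = x) (hx : x ≠ 0) {A B : M3}
    (hA : ∀ k, ∑ j, x j * A j k = 0) (hA' : ∀ j, ∑ k, A j k * conj (x k) = 0)
    (hB : ∀ k, ∑ j, x j * B j k = 0) (hB' : ∀ j, ∑ k, B j k * conj (x k) = 0) :
    ee (Mᵀ * A * M.map conj) (Mᵀ * B * M.map conj) =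
      ((Complex.normSq M.det * (N y / N x) : ℝ) : ℂ) * ee A B := by
  have hAB : ∀ k, ∑ j, x j * (A + B) j k = 0 := by
    intro k
    have h : ∑ j, x j * (A + B) j k = ∑ j, x j * A j k + ∑ j, x j * B j k := by
      rw [← Finset.sum_add_distrib]
      refine Finset.sum_congr rfl fun j _ => ?_
      rw [Matrix.add_apply, mul_add]
    rw [h, hA, hB, add_zero]
  have hAB' : ∀ j, ∑ k, (A + B) j k * conj (x k) = 0 := by
    intro j
    have h : ∑ k, (A + B) j k * conj (x k) = ∑ k, A j k * conj (x k) + ∑ k, B j k * conj (x k) := by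
      rw [← Finset.sum_add_distrib]
      refine Finset.sum_congr rfl fun k _ => ?_
      rw [Matrix.add_apply, add_mul]
    rw [h, hA', hB', add_zero]
  have e1 := Adj_e2 M hy hA hA'
  have e2 := Adj_e2 M hy hB hB'
  have e3 := Adj_e2 M hy hAB hAB'
  have hN : (N x : ℂ) ≠ 0 := by exact_mod_cast (N_pos hx).ne'
  have h7 : Mᵀ * (A + B) * M.map conj = Mᵀ * A * M.map conj + Mᵀ * B * M.map conj := by
    rw [Matrix.mul_add, Matrix.add_mul]
  rw [h7] at e3
  have h8 : ((Complex.normSq M.det * (N y / N x) : ℝ) : ℂ) =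
      ((Complex.normSq M.det * N y : ℝ) : ℂ) / (N x : ℂ) := by
    push_cast
    ring
  rw [h8, Adj_ee, Adj_ee, div_mul_eq_mul_div, eq_div_iff hN]
  linear_combination e3 - e1 - e2

end Pool.Agent.H85.DC

end S_H85_DC_Adj

section S_H85_DC_Inv

/-!
# Row Inv: invariance under linear maps

`pull M A y = Mᵀ * A (M.mulVec y) * M.map conj`.
`form_pull`: continuity: `y ↦ M y` maps `{0}ᶜ` to itself continuously (`mulVec_ne`); homogeneity: `M (l • y) = l • M y`;
`∑_j y_j (Mᵀ A M̄)_jk = ((M y)^T A M̄)_k = 0`, similarly on the right.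
`pull_L`: for `f` smooth off `0` and `M y ≠ 0`: `dz j (dzb k (f ∘ M)) y`; near `y`, `dzb k (f ∘ M) = ∑_b (dzb b f ∘ M) conj (M b k)`
(`dzb_comp_mulVec` at points near `y`, where `M z ≠ 0`; equality near `y` passes to derivatives: `Filter.EventuallyEq.fderiv_eq`), then
`dz_comp_mulVec`: `= ∑_{a,b} M a j * dz a (dzb b f) (M y) * conj (M b k)`.
`isFun_comp`: composition with a linear map preserving `{0}ᶜ`.
`qq_pull`: `ee_pull_pt` and `scl` with `h x = ee (A x) (B x)` (`ee_chom`).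
`pull_inv`: `pull M (pull M⁻¹ A) y = A y`.
`inH_pull`: `qq (L u) (pull M A) = qq (pull M (L (u ∘ M⁻¹))) (pull M A)` (`pull_L`: `pull M (L (u ∘ M⁻¹)) y = L u y` for `y ≠ 0`)
`= qq (L (u ∘ M⁻¹)) A = 0`.
`mass_pull`: for `A ∈ H`: `qq Wm (pull M A) = qq Wm A`. Let `w x = log (N (M⁻¹ x)/N x)` (real conic). `Wm = L (log N)` off `0`
(`dzb k (log N) = x_k / N`, `Wm_eq`, `dzb_comp_real`), so `pull M⁻¹ Wm = L (log N ∘ M⁻¹) = Wm + L w` off `0` (`pull_L`, `f = log N`
cast to `ℂ`), hence `qq Wm (pull M A) = qq (pull M (pull M⁻¹ Wm)) (pull M A) = qq (pull M⁻¹ Wm) A = qq Wm A + qq (L w) A = qq Wm A`.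
`nn_pull`: real part of `qq_pull`.
-/

open MeasureTheory
open scoped ContDiff BigOperators ComplexConjugate Matrix

namespace Pool.Agent.H85.DC

theorem Inv_apply (M : M3) (A : V → M3) (y : V) (j k : Fin 3) :
    pull M A y j k = ∑ b, (∑ a, M a j * A (M.mulVec y) a b) * conj (M b k) := by
  unfold pull
  rw [Matrix.mul_apply]
  refine Finset.sum_congr rfl fun b _ => ?_
  rw [Matrix.mul_apply, Matrix.map_apply]
  rfl

theorem Inv_cont (M : M3) : Continuous (fun y : V => M.mulVec y) :=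
  Continuous.matrix_mulVec continuous_const continuous_id

theorem Inv_mulVec_smul (M : M3) (l : ℂ) (x : V) : M.mulVec (l • x) = l • M.mulVec x :=
  Matrix.mulVec_smul M l x

theorem Inv_conj_mulVec (M : M3) (y : V) :
    (M.map conj).mulVec (fun k => conj (y k)) = fun k => conj (M.mulVec y k) := by
  funext j
  show ∑ k, conj (M j k) * conj (y k) = conj (∑ k, M j k * y k)
  rw [map_sum]
  refine Finset.sum_congr rfl fun k _ => ?_
  rw [map_mul]

theorem form_pull {A : V → M3} (hA : IsForm A) {M : M3} (hM : M.det ≠ 0) : IsForm (pull M A) := by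
  have hmaps : Set.MapsTo (fun y : V => M.mulVec y) {0}ᶜ {0}ᶜ := fun y hy => mulVec_ne hM hy
  refine ⟨?_, ?_, ?_, ?_⟩
  · have h1 : ContinuousOn (fun y : V => A (M.mulVec y)) {0}ᶜ :=
      hA.cont.comp (Inv_cont M).continuousOn hmaps
    exact (continuousOn_const.mul h1).mul continuousOn_const
  · intro l x hl
    unfold pull
    rw [Inv_mulVec_smul, hA.hom l _ hl, Matrix.mul_smul, Matrix.smul_mul]
  · intro x hx k
    have h1 : Matrix.vecMul (M.mulVec x) (A (M.mulVec x)) = 0 := by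
      funext b
      exact hA.killl (M.mulVec x) (mulVec_ne hM hx) b
    have h2 : Matrix.vecMul x (pull M A x) = 0 := by
      unfold pull
      rw [Matrix.mul_assoc, ← Matrix.vecMul_vecMul, Matrix.vecMul_transpose, ← Matrix.vecMul_vecMul,
        h1, Matrix.zero_vecMul]
    exact congrFun h2 k
  · intro x hx j
    have h1 : (A (M.mulVec x)).mulVec (fun k => conj (M.mulVec x k)) = 0 := by
      funext b
      exact hA.killr (M.mulVec x) (mulVec_ne hM hx) b
    have h2 : (pull M A x).mulVec (fun k => conj (x k)) = 0 := by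
      unfold pull
      rw [← Matrix.mulVec_mulVec, ← Matrix.mulVec_mulVec, Inv_conj_mulVec, h1, Matrix.mulVec_zero]
    exact congrFun h2 j

theorem Inv_ct (M : M3) : (M.map conj)ᴴ = Mᵀ := by
  ext j k
  rw [Matrix.conjTranspose_apply, Matrix.map_apply, Matrix.transpose_apply]
  exact Complex.conj_conj _

theorem herm_pull {A : V → M3} (hA : IsHerm A) {M : M3} (hM : M.det ≠ 0) : IsHerm (pull M A) := by
  intro x hx
  have h1 := Matrix.isHermitian_conjTranspose_mul_mul (M.map conj) (hA _ (mulVec_ne hM hx))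
  rw [Inv_ct] at h1
  exact h1

theorem Inv_ev (j : Fin 3) {f g : V → ℂ} {x : V} (h : f =ᶠ[nhds x] g) : dz j f x = dz j g x := by
  unfold dz
  rw [h.fderiv_eq]

theorem Inv_dzb_diff {f : V → ℂ} (hf : ContDiffOn ℝ ∞ f {0}ᶜ) (b : Fin 3) {x : V} (hx : x ≠ 0) :
    DifferentiableAt ℝ (dzb b f) x := by
  have hD := HomB_diff hf hx
  have h1 : ∀ w : V, DifferentiableAt ℝ (fun y => fderiv ℝ f y w) x := fun w =>
    hD.clm_apply (differentiableAt_const w)
  rw [HomB_dzb_fun]
  have h2 := (h1 (Pi.single b 1)).fun_add ((h1 (Pi.single b Complex.I)).const_mul Complex.I)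
  have h3 := h2.mul_const ((2 : ℂ)⁻¹)
  simpa only [div_eq_mul_inv] using h3

theorem Inv_diff {f : V → ℂ} (hf : ContDiffOn ℝ ∞ f {0}ᶜ) {x : V} (hx : x ≠ 0) :
    DifferentiableAt ℝ f x :=
  (hf.contDiffAt (isOpen_compl_singleton.mem_nhds hx)).differentiableAt (by simp)

theorem Inv_diff_comp (M : M3) {f : V → ℂ} {x : V} (hf : DifferentiableAt ℝ f (M.mulVec x)) :
    DifferentiableAt ℝ (fun y => f (M.mulVec y)) x := by
  obtain ⟨T, hT⟩ : ∃ T : V →L[ℝ] V, ∀ y, T y = M.mulVec y :=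
    ⟨((Matrix.mulVecLin M).restrictScalars ℝ).toContinuousLinearMap, fun y => rfl⟩
  have h0 : (fun y => f (M.mulVec y)) = f ∘ T := by
    funext y
    simp only [Function.comp_apply, hT]
  rw [← hT] at hf
  rw [h0]
  exact hf.comp x T.differentiableAt

theorem pull_L {f : V → ℂ} (hf : ContDiffOn ℝ ∞ f {0}ᶜ) (M : M3) {y : V} (hy : M.mulVec y ≠ 0) :
    pull M (L f) y = L (fun z => f (M.mulVec z)) y := by
  ext j k
  rw [Inv_apply]
  have h1 : dzb k (fun z => f (M.mulVec z)) =ᶠ[nhds y]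
      fun z => ∑ b ∈ (Finset.univ : Finset (Fin 3)), conj (M b k) * dzb b f (M.mulVec z) := by
    have hop : IsOpen {z : V | M.mulVec z ≠ 0} :=
      isOpen_ne.preimage (Inv_cont M)
    filter_upwards [hop.mem_nhds hy] with z hz
    rw [dzb_comp_mulVec M k (Inv_diff hf hz)]
    exact Finset.sum_congr rfl fun b _ => mul_comm _ _
  have hd : ∀ b, DifferentiableAt ℝ (fun z => dzb b f (M.mulVec z)) y := fun b =>
    Inv_diff_comp M (Inv_dzb_diff hf b hy)
  have h2 : L (fun z => f (M.mulVec z)) y j k =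
      ∑ b, conj (M b k) * ∑ a, dz a (dzb b f) (M.mulVec y) * M a j := by
    show dz j (dzb k (fun z => f (M.mulVec z))) y = _
    rw [Inv_ev j h1, dz_sum j _ (fun b z => conj (M b k) * dzb b f (M.mulVec z))
      (fun b _ => (hd b).const_mul _)]
    refine Finset.sum_congr rfl fun b _ => ?_
    rw [dz_const_mul j _ (hd b), dz_comp_mulVec M j (Inv_dzb_diff hf b hy)]
  rw [h2]
  refine Finset.sum_congr rfl fun b _ => ?_
  rw [mul_comm]
  congr 1
  refine Finset.sum_congr rfl fun a _ => ?_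
  rw [mul_comm]
  rfl

theorem Inv_smooth_comp {f : V → ℂ} (hf : ContDiffOn ℝ ∞ f {0}ᶜ) {M : M3} (hM : M.det ≠ 0) :
    ContDiffOn ℝ ∞ (fun z => f (M.mulVec z)) {0}ᶜ := by
  obtain ⟨T, hT⟩ : ∃ T : V →L[ℝ] V, ∀ y, T y = M.mulVec y :=
    ⟨((Matrix.mulVecLin M).restrictScalars ℝ).toContinuousLinearMap, fun y => rfl⟩
  have h0 : (fun y => f (M.mulVec y)) = f ∘ T := by
    funext y
    simp only [Function.comp_apply, hT]
  rw [h0]
  refine hf.comp T.contDiff.contDiffOn ?_
  intro y hy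
  show T y ∈ ({0}ᶜ : Set V)
  rw [hT]
  exact mulVec_ne hM hy

theorem isFun_comp {u : V → ℂ} (hu : IsFun u) {M : M3} (hM : M.det ≠ 0) :
    IsFun (fun z => u (M.mulVec z)) := by
  refine ⟨Inv_smooth_comp hu.smooth hM, fun l x hl => ?_⟩
  show u (M.mulVec (l • x)) = u (M.mulVec x)
  rw [Inv_mulVec_smul, hu.hom l _ hl]

theorem Inv_ae_ne : ∀ᵐ x ∂(volume : Measure V), x ≠ 0 := by
  have h : (volume : Measure V) {(0 : V)} = 0 := measure_singleton _
  exact measure_eq_zero_iff_ae_notMem.mp h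

theorem qq_pull {A B : V → M3} (hA : IsForm A) (hB : IsForm B) {M : M3} (hM : M.det ≠ 0) :
    qq (pull M A) (pull M B) = qq A B := by
  unfold qq
  rw [← scl (ee_chom hA hB) hM]
  apply integral_congr_ae
  filter_upwards [Inv_ae_ne] with y hy
  have hx := mulVec_ne hM hy
  have h1 := ee_pull_pt M (y := y) rfl hx (hA.killl _ hx) (hA.killr _ hx) (hB.killl _ hx)
    (hB.killr _ hx)
  show ee (Mᵀ * A (M.mulVec y) * M.map conj) (Mᵀ * B (M.mulVec y) * M.map conj) * (wt y : ℂ) = _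
  rw [h1]
  ring

theorem nn_pull {A B : V → M3} (hA : IsForm A) (hB : IsForm B) {M : M3} (hM : M.det ≠ 0) :
    nn (pull M A) (pull M B) = nn A B := by
  unfold nn
  rw [qq_pull hA hB hM]

theorem Inv_det {M : M3} (hM : M.det ≠ 0) : (M⁻¹).det ≠ 0 := by
  intro h0
  have h1 := Matrix.det_nonsing_inv_mul_det M (isUnit_iff_ne_zero.2 hM)
  rw [h0, zero_mul] at h1
  exact zero_ne_one h1

theorem Inv_left {M : M3} (hM : M.det ≠ 0) (z : V) : (M⁻¹).mulVec (M.mulVec z) = z := by
  rw [Matrix.mulVec_mulVec, Matrix.nonsing_inv_mul M (isUnit_iff_ne_zero.2 hM), Matrix.one_mulVec]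

theorem inH_pull {A : V → M3} (hA : InH A) {M : M3} (hM : M.det ≠ 0) : InH (pull M A) := by
  refine ⟨form_pull hA.form hM, herm_pull hA.herm hM, fun u hu => ?_⟩
  have hu' := isFun_comp hu (Inv_det hM)
  have h1 : ∀ y : V, y ≠ 0 → L u y = pull M (L (fun z => u ((M⁻¹).mulVec z))) y := by
    intro y hy
    rw [pull_L hu'.smooth M (mulVec_ne hM hy)]
    have h2 : (fun z => u ((M⁻¹).mulVec (M.mulVec z))) = u := by
      funext z
      rw [Inv_left hM]
    rw [h2]
  rw [qq_congr h1 (fun x _ => rfl : ∀ x : V, x ≠ 0 → pull M A x = pull M A x),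
    qq_pull (form_L hu') hA.form hM]
  exact hA.ddc _ hu'

theorem Inv_N_smooth : ContDiff ℝ ∞ N := by
  have h : N = fun x : V => ∑ j, ((x j).re * (x j).re + (x j).im * (x j).im) := by
    funext x
    unfold N
    exact Finset.sum_congr rfl fun j _ => Complex.normSq_apply _
  rw [h]
  refine ContDiff.sum fun j _ => ?_
  have h1 : ContDiff ℝ ∞ (fun x : V => (x j).re) :=
    Complex.reCLM.contDiff.comp (contDiff_apply ℝ ℂ j)
  have h2 : ContDiff ℝ ∞ (fun x : V => (x j).im) :=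
    Complex.imCLM.contDiff.comp (contDiff_apply ℝ ℂ j)
  exact (h1.mul h1).add (h2.mul h2)

/-- the function `log N` -/
noncomputable def Inv_lg (y : V) : ℂ := ((Real.log (N y) : ℝ) : ℂ)

theorem Inv_lg_smooth : ContDiffOn ℝ ∞ Inv_lg {0}ᶜ := by
  have h1 : ContDiffOn ℝ ∞ (fun y => Real.log (N y)) {0}ᶜ :=
    Inv_N_smooth.contDiffOn.log fun y hy => (N_pos hy).ne'
  exact Complex.ofRealCLM.contDiff.comp_contDiffOn h1

theorem Inv_dzb_lg (k : Fin 3) {y : V} (hy : y ≠ 0) : dzb k Inv_lg y = y k / (N y : ℂ) := by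
  have h1 : HasDerivAt Real.log (N y)⁻¹ (N y) := Real.hasDerivAt_log (N_pos hy).ne'
  have h2 : DifferentiableAt ℝ N y := Inv_N_smooth.contDiffAt.differentiableAt (by simp)
  have h3 := dzb_comp_real k h1 h2
  have h4 : dzb k Inv_lg y = (((N y)⁻¹ : ℝ) : ℂ) * dzb k (fun z => ((N z : ℝ) : ℂ)) y := h3
  rw [h4, dzb_N, Complex.ofReal_inv]
  ring

theorem Inv_L_lg {x : V} (hx : x ≠ 0) : L Inv_lg x = Wm x := by
  ext j k
  rw [Wm_eq hx]
  exact dz_congr j hx fun y hy => Inv_dzb_lg k hy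

theorem Inv_L_congr {f g : V → ℂ} {x : V} (hx : x ≠ 0) (h : ∀ y : V, y ≠ 0 → f y = g y) :
    L f x = L g x := by
  ext j k
  exact dz_congr j hx fun y hy => dzb_congr k hy h

theorem Inv_L_add {f g : V → ℂ} (hf : ContDiffOn ℝ ∞ f {0}ᶜ) (hg : ContDiffOn ℝ ∞ g {0}ᶜ) {x : V}
    (hx : x ≠ 0) : L (fun y => f y + g y) x = L f x + L g x := by
  ext j k
  show dz j (dzb k (fun y => f y + g y)) x = dz j (dzb k f) x + dz j (dzb k g) x
  rw [← dz_add j (Inv_dzb_diff hf k hx) (Inv_dzb_diff hg k hx)]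
  exact dz_congr j hx fun y hy => dzb_add k (Inv_diff hf hy) (Inv_diff hg hy)

/-- the function `log (N (M x) / N x)` -/
noncomputable def Inv_w (M : M3) (y : V) : ℂ := ((Real.log (N (M.mulVec y) / N y) : ℝ) : ℂ)

theorem Inv_w_fun {M : M3} (hM : M.det ≠ 0) : IsFun (Inv_w M) := by
  refine ⟨?_, fun l x hl => ?_⟩
  · have h0 : ContDiffOn ℝ ∞ (fun y : V => N (M.mulVec y)) {0}ᶜ := by
      obtain ⟨T, hT⟩ : ∃ T : V →L[ℝ] V, ∀ y, T y = M.mulVec y :=
        ⟨((Matrix.mulVecLin M).restrictScalars ℝ).toContinuousLinearMap, fun y => rfl⟩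
      have h1 : (fun y => N (M.mulVec y)) = N ∘ T := by
        funext y
        simp only [Function.comp_apply, hT]
      rw [h1]
      exact (Inv_N_smooth.comp T.contDiff).contDiffOn
    have h1 : ContDiffOn ℝ ∞ (fun y => Real.log (N (M.mulVec y) / N y)) {0}ᶜ := by
      refine (h0.div Inv_N_smooth.contDiffOn fun y hy => (N_pos hy).ne').log fun y hy => ?_
      exact div_ne_zero (N_pos (mulVec_ne hM hy)).ne' (N_pos hy).ne'
    exact Complex.ofRealCLM.contDiff.comp_contDiffOn h1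
  · unfold Inv_w
    rw [Inv_mulVec_smul, N_smul, N_smul, mul_div_mul_left]
    exact (Complex.normSq_pos.2 hl).ne'

theorem Inv_Wm_pull {M : M3} (hM : M.det ≠ 0) {x : V} (hx : x ≠ 0) :
    pull M Wm x = Wm x + L (Inv_w M) x := by
  have hMx := mulVec_ne hM hx
  have h1 : pull M Wm x = pull M (L Inv_lg) x := by
    unfold pull
    rw [Inv_L_lg hMx]
  have h2 : ∀ y : V, y ≠ 0 → Inv_lg (M.mulVec y) = Inv_lg y + Inv_w M y := by
    intro y hy
    unfold Inv_lg Inv_w
    rw [Real.log_div (N_pos (mulVec_ne hM hy)).ne' (N_pos hy).ne']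
    push_cast
    ring
  rw [h1, pull_L Inv_lg_smooth M hMx, Inv_L_congr hx h2,
    Inv_L_add Inv_lg_smooth (Inv_w_fun hM).smooth hx, Inv_L_lg hx]

theorem Inv_pull_inv {M : M3} (hM : M.det ≠ 0) (A : V → M3) (y : V) :
    pull M (pull M⁻¹ A) y = A y := by
  have hu : IsUnit M.det := isUnit_iff_ne_zero.2 hM
  have h1 : Mᵀ * (M⁻¹)ᵀ = 1 := by
    rw [← Matrix.transpose_mul, Matrix.nonsing_inv_mul M hu, Matrix.transpose_one]
  have h2 : (M⁻¹).map conj * M.map conj = 1 := by
    rw [← Matrix.map_mul, Matrix.nonsing_inv_mul M hu]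
    exact Matrix.map_one _ (map_zero _) (map_one _)
  unfold pull
  rw [Inv_left hM]
  calc Mᵀ * ((M⁻¹)ᵀ * A y * (M⁻¹).map conj) * M.map conj
      = (Mᵀ * (M⁻¹)ᵀ) * A y * ((M⁻¹).map conj * M.map conj) := by
        simp only [Matrix.mul_assoc]
    _ = A y := by rw [h1, h2, Matrix.one_mul, Matrix.mul_one]

theorem mass_pull {A : V → M3} (hA : InH A) {M : M3} (hM : M.det ≠ 0) :
    qq Wm (pull M A) = qq Wm A := by
  have hM' := Inv_det hM
  have hw := Inv_w_fun hM'
  have h1 : qq Wm (pull M A) = qq (pull M (pull M⁻¹ Wm)) (pull M A) :=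
    qq_congr (fun x _ => (Inv_pull_inv hM Wm x).symm) (fun x _ => rfl)
  rw [h1, qq_pull (form_pull form_Wm hM') hA.form hM]
  have h2 : qq (pull M⁻¹ Wm) A = qq (fun x => Wm x + L (Inv_w M⁻¹) x) A :=
    qq_congr (fun x hx => Inv_Wm_pull hM' hx) (fun x _ => rfl)
  rw [h2, qq_add_left form_Wm (form_L hw) hA.form, hA.ddc _ hw, add_zero]

theorem inH0_pull {A : V → M3} (hA : InH0 A) {M : M3} (hM : M.det ≠ 0) : InH0 (pull M A) :=
  ⟨inH_pull hA.toInH hM, (mass_pull hA.toInH hM).trans hA.mass⟩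

end Pool.Agent.H85.DC

end S_H85_DC_Inv

section S_H85_DC_GauB

/-!
# Row GauB: integrability for the average over the Gaussian matrices

`hsM M = ∑ |M_jk|^2`. For a form `A` with `|A_jk(x)| ≤ C/N x` (`form_bound`): `|pull M A y j k| ≤ 9 C hsM M / N (M y)` for `M y ≠ 0`
(each entry is a sum of 9 terms `M_aj A_ab conj(M_bk)`).
`gau_bound`: `K ε = ∫ gau G * hsM (mat ε G) / N ((mat ε G) y) dG < ∞` for every `ε > 0` and unit `y`, bounded independently of `y`: by
Cauchy-Schwarz (or `a b ≤ (a^2 + b^2)/2`): `hsM(M)/N(My) ≤ (hsM(M)^2 + N(My)^{-2})/2`. `∫ gau hsM(mat ε G)^2 < ∞`: polynomial growth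
times Gaussian (`hsM (mat ε G) ≤ 6 + 2 ε^2 ∑ N (G_i)`, and `s^2 e^{-s} ≤ C e^{-s/2}`); `∫ gau N(My)^{-2} dG = ∫ gs ε (x - y) N(x)^{-2} dx`
(`single_law`) `≤ (πε^2)^{-3} ∫_{N x ≤ 1} N^{-2} + 1 < ∞`. For general `y ≠ 0` scale: `N(M (l y)) = |l|^2 N(My)`.
So `∫ gau hsM(mat) / N (mat y) dG ≤ K ε / N y` for all `y ≠ 0`.
`pull_int`: for each `y ≠ 0`, entries of `gau G • pull (mat ε G) A y` are integrable in `G` (measurability in `G`:
`pull (mat ε G) A y j k` is measurable: `A` is continuous on the open set `{0}ᶜ`, extend by `0`: entries of `A` are measurable as functions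
if `A 0` is anything: a function continuous on `{0}ᶜ` is measurable (`measurable_of_continuousOn_compl_singleton`)).
`av_hom`, `av_kill`, `av_herm`: homogeneity and the kernel relations hold under the integral: `pull M A (l • y) = |l|^{-2} pull M A y` when
`M y ≠ 0`, etc.; a.e. `G` has `mat ε G` invertible (`det_ae`).
-/

open MeasureTheory
open scoped ContDiff BigOperators ComplexConjugate Matrix

namespace Pool.Agent.H85.DC

theorem form_meas {A : V → M3} (hA : IsForm A) (j k : Fin 3) : Measurable (fun x => A x j k) := by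
  refine measurable_of_continuousOn_compl_singleton 0 ?_
  exact (continuous_apply_apply j k).comp_continuousOn hA.cont

theorem GauB_pull_apply (M : M3) (A : V → M3) (y : V) (j k : Fin 3) :
    pull M A y j k = ∑ b, (∑ a, M a j * A (M.mulVec y) a b) * conj (M b k) := by
  simp only [pull, Matrix.mul_apply, Matrix.transpose_apply, Matrix.map_apply]

theorem GauB_hs_entry (M : M3) (a j : Fin 3) : ‖M a j‖ ^ 2 ≤ hs M := by
  have h1 : Complex.normSq (M a j) ≤ ∑ k, Complex.normSq (M a k) :=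
    Finset.single_le_sum (f := fun k => Complex.normSq (M a k))
      (fun k _ => Complex.normSq_nonneg _) (Finset.mem_univ j)
  have h2 : ∑ k, Complex.normSq (M a k) ≤ hs M :=
    Finset.single_le_sum (f := fun a => ∑ k, Complex.normSq (M a k))
      (fun a _ => Finset.sum_nonneg (fun k _ => Complex.normSq_nonneg _)) (Finset.mem_univ a)
  rw [← Complex.normSq_eq_norm_sq]
  exact h1.trans h2

theorem pull_norm {A : V → M3} {C : ℝ} (hC : ∀ x : V, x ≠ 0 → ∀ j k, ‖A x j k‖ ≤ C / N x)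
    (M : M3) {y : V} (hy : M.mulVec y ≠ 0) (j k : Fin 3) :
    ‖pull M A y j k‖ ≤ 9 * C * hs M / N (M.mulVec y) := by
  rw [GauB_pull_apply]
  have h0 : 0 ≤ C / N (M.mulVec y) := le_trans (norm_nonneg _) (hC _ hy 0 0)
  have hterm : ∀ a b : Fin 3, ‖M a j * A (M.mulVec y) a b * conj (M b k)‖ ≤
      hs M * (C / N (M.mulVec y)) := by
    intro a b
    rw [norm_mul, norm_mul, RCLike.norm_conj]
    have h1 := GauB_hs_entry M a j
    have h2 := GauB_hs_entry M b k
    have h3 : ‖M a j‖ * ‖M b k‖ ≤ hs M := by nlinarith [sq_nonneg (‖M a j‖ - ‖M b k‖)]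
    have h4 := hC _ hy a b
    have h5 : 0 ≤ hs M := le_trans (sq_nonneg _) h1
    calc ‖M a j‖ * ‖A (M.mulVec y) a b‖ * ‖M b k‖ = (‖M a j‖ * ‖M b k‖) * ‖A (M.mulVec y) a b‖ := by ring
      _ ≤ hs M * (C / N (M.mulVec y)) := mul_le_mul h3 h4 (norm_nonneg _) h5
  have h9 : ‖∑ b, (∑ a, M a j * A (M.mulVec y) a b) * conj (M b k)‖ ≤
      ∑ _b : Fin 3, ∑ _a : Fin 3, hs M * (C / N (M.mulVec y)) := by
    refine (norm_sum_le _ _).trans (Finset.sum_le_sum fun b _ => ?_)
    rw [Finset.sum_mul]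
    exact (norm_sum_le _ _).trans (Finset.sum_le_sum fun a _ => hterm a b)
  refine h9.trans (le_of_eq ?_)
  simp only [Finset.sum_const, Finset.card_univ, Fintype.card_fin, nsmul_eq_mul]
  push_cast
  ring

theorem GauB_hs_mat (ε : ℝ) (G : Fin 3 → V) : hs (mat ε G) ≤ 6 + 2 * ε ^ 2 * ∑ i, N (G i) := by
  have h1 : ∀ j i : Fin 3, Complex.normSq (mat ε G j i) ≤
      2 * (if j = i then 1 else 0) + 2 * ε ^ 2 * Complex.normSq (G i j) := by
    intro j i
    have h : ∀ a b : ℂ, Complex.normSq (a + b) ≤ 2 * Complex.normSq a + 2 * Complex.normSq b := by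
      intro a b
      simp only [Complex.normSq_apply, Complex.add_re, Complex.add_im]
      nlinarith [sq_nonneg (a.re - b.re), sq_nonneg (a.im - b.im)]
    refine (h _ _).trans (le_of_eq ?_)
    rw [Complex.normSq_mul, Complex.normSq_ofReal]
    split_ifs <;> simp <;> ring
  have h2 : hs (mat ε G) ≤ ∑ j : Fin 3, ∑ i : Fin 3,
      (2 * (if j = i then (1:ℝ) else 0) + 2 * ε ^ 2 * Complex.normSq (G i j)) :=
    Finset.sum_le_sum fun j _ => Finset.sum_le_sum fun i _ => h1 j i
  refine h2.trans (le_of_eq ?_)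
  simp only [N, Fin.sum_univ_three]
  simp
  ring

theorem GauB_N_cont : Continuous N := by
  unfold N
  exact continuous_finsetSum _ fun j _ => Complex.continuous_normSq.comp (continuous_apply j)

theorem GauB_mat_cont (ε : ℝ) (a b : Fin 3) : Continuous (fun G : Fin 3 → V => mat ε G a b) := by
  unfold mat
  fun_prop

theorem GauB_mulVec_cont (ε : ℝ) :
    Continuous (fun q : V × (Fin 3 → V) => (mat ε q.2).mulVec q.1) := by
  simp only [mat_mulVec]
  fun_prop

theorem pull_meas {A : V → M3} (hA : IsForm A) (ε : ℝ) (j k : Fin 3) :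
    Measurable (fun q : V × (Fin 3 → V) => pull (mat ε q.2) A q.1 j k) := by
  simp only [GauB_pull_apply]
  refine Finset.measurable_sum _ fun b _ => ?_
  refine Measurable.mul (Finset.measurable_sum _ fun a _ => ?_) ?_
  · refine Measurable.mul ?_ ?_
    · exact ((GauB_mat_cont ε a j).comp continuous_snd).measurable
    · exact (form_meas hA a b).comp (GauB_mulVec_cont ε).measurable
  · exact (Complex.continuous_conj.comp ((GauB_mat_cont ε b k).comp continuous_snd)).measurable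

theorem GauB_S_nonneg (G : Fin 3 → V) : 0 ≤ ∑ i, N (G i) :=
  Finset.sum_nonneg fun i _ => N_nonneg (G i)

theorem GauB_S_cont : Continuous (fun G : Fin 3 → V => ∑ i, N (G i)) :=
  continuous_finsetSum _ fun i _ => GauB_N_cont.comp (continuous_apply i)

theorem GauB_half : Integrable (fun G : Fin 3 → V => (Real.pi ^ 9)⁻¹ * Real.exp (-(∑ i, N (G i)) / 2)) := by
  have i1 : (volume : Measure V).IsAddHaarMeasure := by
    show (Measure.pi (fun _ : Fin 3 => (volume : Measure ℂ))).IsAddHaarMeasure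
    infer_instance
  have i2 : (volume : Measure (Fin 3 → V)).IsAddHaarMeasure :=
    MeasureTheory.Measure.pi.isAddHaarMeasure (fun _ : Fin 3 => (volume : Measure V))
  have h := gau_integrable.comp_smul (R := Real.sqrt (1 / 2)) (by positivity)
  refine h.congr (Filter.Eventually.of_forall fun G => ?_)
  have h1 : ∀ i, N ((Real.sqrt (1 / 2) • G) i) = N (G i) / 2 := by
    intro i
    have : (Real.sqrt (1 / 2) • G) i = ((Real.sqrt (1 / 2) : ℝ) : ℂ) • G i := by
      rw [Pi.smul_apply]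
      rfl
    rw [this, N_smul, Complex.normSq_ofReal, Real.mul_self_sqrt (by norm_num)]
    ring
  simp only [gau, h1]
  rw [← Finset.sum_div]
  congr 2
  ring

theorem GauB_intA (ε : ℝ) :
    Integrable (fun G : Fin 3 → V => gau G * (6 + 2 * ε ^ 2 * ∑ i, N (G i)) ^ 2) := by
  refine (GauB_half.const_mul (72 + 64 * ε ^ 4)).mono' ?_ (Filter.Eventually.of_forall fun G => ?_)
  · refine (gau_meas.mul ?_).aestronglyMeasurable
    exact ((continuous_const.add (continuous_const.mul GauB_S_cont)).pow 2).measurable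
  · have hS := GauB_S_nonneg G
    set s := ∑ i, N (G i) with hs
    have hg := gau_nonneg G
    rw [Real.norm_of_nonneg (by positivity)]
    have hgau : gau G = (Real.pi ^ 9)⁻¹ * (Real.exp (-s / 2) * Real.exp (-s / 2)) := by
      unfold gau
      rw [← Real.exp_add]
      congr 2
      rw [← hs]
      ring
    have hq := Real.quadratic_le_exp_of_nonneg (x := s / 2) (by positivity)
    have he : Real.exp (-s / 2) * Real.exp (s / 2) = 1 := by
      rw [← Real.exp_add]
      simp [neg_div]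
    have hpos : 0 < Real.exp (-s / 2) := Real.exp_pos _
    have hle : Real.exp (-s / 2) * (6 + 2 * ε ^ 2 * s) ^ 2 ≤ 72 + 64 * ε ^ 4 := by
      have h1 : (6 + 2 * ε ^ 2 * s) ^ 2 ≤ (72 + 64 * ε ^ 4) * Real.exp (s / 2) := by
        have h2 : (6 + 2 * ε ^ 2 * s) ^ 2 ≤ 72 + 8 * ε ^ 4 * s ^ 2 := by
          nlinarith [sq_nonneg (6 - 2 * ε ^ 2 * s)]
        have h3 : 72 + 8 * ε ^ 4 * s ^ 2 ≤ (72 + 64 * ε ^ 4) * (1 + s / 2 + (s / 2) ^ 2 / 2) := by
          have h4 : 0 ≤ ε ^ 4 := by positivity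
          nlinarith [mul_nonneg h4 hS, mul_nonneg h4 (sq_nonneg s), sq_nonneg s]
        exact h2.trans (h3.trans (mul_le_mul_of_nonneg_left hq (by positivity)))
      calc Real.exp (-s / 2) * (6 + 2 * ε ^ 2 * s) ^ 2
          ≤ Real.exp (-s / 2) * ((72 + 64 * ε ^ 4) * Real.exp (s / 2)) :=
            mul_le_mul_of_nonneg_left h1 hpos.le
        _ = (72 + 64 * ε ^ 4) * (Real.exp (-s / 2) * Real.exp (s / 2)) := by ring
        _ = 72 + 64 * ε ^ 4 := by rw [he, mul_one]
    rw [hgau]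
    have hpi : 0 ≤ (Real.pi ^ 9)⁻¹ * Real.exp (-s / 2) := by positivity
    calc (Real.pi ^ 9)⁻¹ * (Real.exp (-s / 2) * Real.exp (-s / 2)) * (6 + 2 * ε ^ 2 * s) ^ 2
        = ((Real.pi ^ 9)⁻¹ * Real.exp (-s / 2)) * (Real.exp (-s / 2) * (6 + 2 * ε ^ 2 * s) ^ 2) := by
          ring
      _ ≤ ((Real.pi ^ 9)⁻¹ * Real.exp (-s / 2)) * (72 + 64 * ε ^ 4) :=
          mul_le_mul_of_nonneg_left hle hpi
      _ = (72 + 64 * ε ^ 4) * ((Real.pi ^ 9)⁻¹ * Real.exp (-s / 2)) := by ring

theorem GauB_stepB {ε : ℝ} (hε : 0 < ε) : ∃ B : ℝ, 0 ≤ B ∧ ∀ y : V, N y = 1 →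
    ∫⁻ G : Fin 3 → V, ENNReal.ofReal (gau G) *
      ENNReal.ofReal (((N ((mat ε G).mulVec y))⁻¹) ^ 2) ≤ ENNReal.ofReal B := by
  have hI := (integrable_N_rpow (s := -2) (c := 1) (by norm_num) one_pos).const_mul
    ((((Real.pi * ε ^ 2) ^ 3)⁻¹) * Real.exp 1)
  have hfin := hI.lintegral_lt_top
  refine ⟨(1 + ∫⁻ x : V, ENNReal.ofReal ((((Real.pi * ε ^ 2) ^ 3)⁻¹) * Real.exp 1 *
    ((N x) ^ (-2 : ℝ) * Real.exp (-1 * N x)))).toReal, ENNReal.toReal_nonneg, fun y hy => ?_⟩
  have hφ : Measurable (fun x : V => ENNReal.ofReal (((N x)⁻¹) ^ 2)) :=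
    (GauB_N_cont.measurable.inv.pow_const 2).ennreal_ofReal
  rw [single_law hε hy hφ]
  rw [ENNReal.ofReal_toReal (ENNReal.add_ne_top.2 ⟨ENNReal.one_ne_top, hfin.ne⟩)]
  rw [← gs_int hε y, ← lintegral_add_right']
  · refine lintegral_mono fun x => ?_
    show ENNReal.ofReal (gs ε (x - y)) * ENNReal.ofReal (((N x)⁻¹) ^ 2) ≤
      ENNReal.ofReal (gs ε (x - y)) + ENNReal.ofReal ((((Real.pi * ε ^ 2) ^ 3)⁻¹) * Real.exp 1 *
        ((N x) ^ (-2 : ℝ) * Real.exp (-1 * N x)))
    have hgs : 0 ≤ gs ε (x - y) := by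
      unfold gs
      positivity
    have hgs1 : gs ε (x - y) ≤ ((Real.pi * ε ^ 2) ^ 3)⁻¹ := by
      unfold gs
      have : Real.exp (-N (x - y) / ε ^ 2) ≤ 1 := by
        rw [Real.exp_le_one_iff]
        exact div_nonpos_of_nonpos_of_nonneg (neg_nonpos.2 (N_nonneg _)) (sq_nonneg _)
      exact mul_le_of_le_one_right (by positivity) this
    rw [← ENNReal.ofReal_mul hgs]
    rcases le_or_gt (N x) 1 with h | h
    · refine le_trans ?_ le_add_self
      refine ENNReal.ofReal_le_ofReal ?_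
      rcases (N_nonneg x).eq_or_lt with h0 | h0
      · rw [← h0]
        simp
      · rw [Real.rpow_neg h0.le, Real.rpow_ofNat, ← inv_pow]
        have he : 1 ≤ Real.exp 1 * Real.exp (-1 * N x) := by
          rw [← Real.exp_add]
          exact Real.one_le_exp (by linarith)
        calc gs ε (x - y) * (N x)⁻¹ ^ 2 ≤ ((Real.pi * ε ^ 2) ^ 3)⁻¹ * (N x)⁻¹ ^ 2 :=
              mul_le_mul_of_nonneg_right hgs1 (by positivity)
          _ ≤ (((Real.pi * ε ^ 2) ^ 3)⁻¹ * (N x)⁻¹ ^ 2) * (Real.exp 1 * Real.exp (-1 * N x)) :=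
              le_mul_of_one_le_right (by positivity) he
          _ = _ := by ring
    · refine le_trans ?_ le_self_add
      refine ENNReal.ofReal_le_ofReal ?_
      refine mul_le_of_le_one_right hgs ?_
      exact pow_le_one₀ (by positivity) (inv_le_one_of_one_le₀ h.le)
  · exact hI.aestronglyMeasurable.aemeasurable.ennreal_ofReal

theorem gau_bound {ε : ℝ} (hε : 0 < ε) :
    ∃ K : ℝ, 0 ≤ K ∧ ∀ y : V, y ≠ 0 →
      ∫⁻ G : Fin 3 → V, ENNReal.ofReal (gau G * (hs (mat ε G) / N ((mat ε G).mulVec y))) ≤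
        ENNReal.ofReal (K / N y) := by
  obtain ⟨B, hB, hB2⟩ := GauB_stepB hε
  have hA := GauB_intA ε
  have hA0 : ∀ G : Fin 3 → V, 0 ≤ gau G * (6 + 2 * ε ^ 2 * ∑ i, N (G i)) ^ 2 :=
    fun G => mul_nonneg (gau_nonneg G) (sq_nonneg _)
  have hunit : ∀ y : V, N y = 1 →
      ∫⁻ G : Fin 3 → V, ENNReal.ofReal (gau G * (hs (mat ε G) / N ((mat ε G).mulVec y))) ≤
        ENNReal.ofReal ((∫ G : Fin 3 → V, gau G * (6 + 2 * ε ^ 2 * ∑ i, N (G i)) ^ 2) + B) := by
    intro y hy
    have h1 := hB2 y hy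
    rw [ENNReal.ofReal_add (integral_nonneg hA0) hB, 
      ofReal_integral_eq_lintegral_ofReal hA (Filter.Eventually.of_forall hA0)]
    refine le_trans ?_ (add_le_add le_rfl h1)
    rw [← lintegral_add_left' hA.aestronglyMeasurable.aemeasurable.ennreal_ofReal]
    refine lintegral_mono fun G => ?_
    show ENNReal.ofReal (gau G * (hs (mat ε G) / N ((mat ε G).mulVec y))) ≤
      ENNReal.ofReal (gau G * (6 + 2 * ε ^ 2 * ∑ i, N (G i)) ^ 2) +
        ENNReal.ofReal (gau G) * ENNReal.ofReal (((N ((mat ε G).mulVec y))⁻¹) ^ 2)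
    rw [← ENNReal.ofReal_mul (gau_nonneg G),
      ← ENNReal.ofReal_add (hA0 G) (mul_nonneg (gau_nonneg G) (sq_nonneg _))]
    refine ENNReal.ofReal_le_ofReal ?_
    rw [← mul_add]
    refine mul_le_mul_of_nonneg_left ?_ (gau_nonneg G)
    have h2 := GauB_hs_mat ε G
    have h3 : 0 ≤ hs (mat ε G) := le_trans (sq_nonneg _) (GauB_hs_entry (mat ε G) 0 0)
    have h4 : 0 ≤ (N ((mat ε G).mulVec y))⁻¹ := inv_nonneg.2 (N_nonneg _)
    rw [div_eq_mul_inv]
    nlinarith [sq_nonneg ((6 + 2 * ε ^ 2 * ∑ i, N (G i)) - (N ((mat ε G).mulVec y))⁻¹),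
      mul_le_mul_of_nonneg_right h2 h4, sq_nonneg (6 + 2 * ε ^ 2 * ∑ i, N (G i)),
      sq_nonneg ((N ((mat ε G).mulVec y))⁻¹)]
  refine ⟨(∫ G : Fin 3 → V, gau G * (6 + 2 * ε ^ 2 * ∑ i, N (G i)) ^ 2) + B,
    add_nonneg (integral_nonneg hA0) hB, fun y hy => ?_⟩
  obtain ⟨y', hy', hyy⟩ := exists_smul_sphere hy
  have hNy := N_pos hy
  have h1 : ∀ G : Fin 3 → V, gau G * (hs (mat ε G) / N ((mat ε G).mulVec y)) =
      (N y)⁻¹ * (gau G * (hs (mat ε G) / N ((mat ε G).mulVec y'))) := by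
    intro G
    have h2 : N ((mat ε G).mulVec y) = N y * N ((mat ε G).mulVec y') := by
      conv_lhs => rw [hyy]
      rw [Matrix.mulVec_smul, N_smul, Complex.normSq_ofReal, Real.mul_self_sqrt hNy.le]
    rw [h2, div_eq_mul_inv, div_eq_mul_inv, mul_inv]
    ring
  have h1' : ∀ G : Fin 3 → V, ENNReal.ofReal (gau G * (hs (mat ε G) / N ((mat ε G).mulVec y))) =
      ENNReal.ofReal ((N y)⁻¹) *
        ENNReal.ofReal (gau G * (hs (mat ε G) / N ((mat ε G).mulVec y'))) := by
    intro G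
    rw [h1 G, ENNReal.ofReal_mul (inv_nonneg.2 hNy.le)]
  simp_rw [h1']
  rw [lintegral_const_mul' _ _ ENNReal.ofReal_ne_top]
  rw [div_eq_mul_inv, mul_comm _ ((N y)⁻¹), ENNReal.ofReal_mul (inv_nonneg.2 hNy.le)]
  exact mul_le_mul_right (hunit y' hy') _

theorem GauB_mulVec_ne {ε : ℝ} (hε : 0 < ε) {y : V} (hy : y ≠ 0) :
    ∀ᵐ G : Fin 3 → V, (mat ε G).mulVec y ≠ 0 := by
  filter_upwards [det_ae hε] with G hG
  exact mulVec_ne hG hy

theorem GauB_mk (y : V) : Measurable (Prod.mk y : (Fin 3 → V) → V × (Fin 3 → V)) :=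
  measurable_prodMk_left

theorem GauB_meas1 {A : V → M3} (hA : IsForm A) (ε : ℝ) (y : V) (j k : Fin 3) :
    Measurable (fun G : Fin 3 → V => pull (mat ε G) A y j k) := by
  have h2 := (pull_meas hA ε j k).comp (GauB_mk y)
  rw [Function.comp_def] at h2
  exact h2

theorem GauB_meas2 {A : V → M3} (hA : IsForm A) (ε : ℝ) (y : V) (j k : Fin 3) :
    Measurable (fun G : Fin 3 → V => (gau G : ℂ) * pull (mat ε G) A y j k) :=
  (Complex.measurable_ofReal.comp gau_meas).mul (GauB_meas1 hA ε y j k)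

theorem GauB_meas3 (ε : ℝ) : Measurable (fun G : Fin 3 → V => hs (mat ε G)) := by
  unfold hs
  refine Finset.measurable_sum _ fun a _ => Finset.measurable_sum _ fun b _ => ?_
  exact (Complex.continuous_normSq.comp (GauB_mat_cont ε a b)).measurable

theorem GauB_meas4 (ε : ℝ) (y : V) :
    Measurable (fun G : Fin 3 → V => N ((mat ε G).mulVec y)) := by
  have h2 := (GauB_mulVec_cont ε).measurable.comp (GauB_mk y)
  rw [Function.comp_def] at h2
  exact GauB_N_cont.measurable.comp h2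

theorem GauB_meas5 (ε : ℝ) (y : V) : Measurable (fun G : Fin 3 → V =>
    gau G * (hs (mat ε G) / N ((mat ε G).mulVec y))) :=
  gau_meas.mul ((GauB_meas3 ε).div (GauB_meas4 ε y))

theorem GauB_int6 {ε : ℝ} (hε : 0 < ε) {y : V} (hy : y ≠ 0) :
    Integrable (fun G : Fin 3 → V => gau G * (hs (mat ε G) / N ((mat ε G).mulVec y))) := by
  obtain ⟨K, hK, hK2⟩ := gau_bound hε
  have hpos : ∀ G : Fin 3 → V, 0 ≤ gau G * (hs (mat ε G) / N ((mat ε G).mulVec y)) := fun G =>
    mul_nonneg (gau_nonneg G) (div_nonneg (le_trans (sq_nonneg _) (GauB_hs_entry (mat ε G) 0 0))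
      (N_nonneg _))
  refine ⟨(GauB_meas5 ε y).aestronglyMeasurable, ?_⟩
  rw [hasFiniteIntegral_iff_ofReal (Filter.Eventually.of_forall hpos)]
  exact lt_of_le_of_lt (hK2 y hy) ENNReal.ofReal_lt_top

theorem pull_int {A : V → M3} (hA : IsForm A) {ε : ℝ} (hε : 0 < ε) {y : V} (hy : y ≠ 0)
    (j k : Fin 3) :
    Integrable (fun G : Fin 3 → V => (gau G : ℂ) * pull (mat ε G) A y j k) := by
  obtain ⟨C, hC0, hC⟩ := form_bound hA
  have hI := (GauB_int6 hε hy).const_mul (9 * C)
  refine Integrable.mono' hI (GauB_meas2 hA ε y j k).aestronglyMeasurable ?_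
  filter_upwards [GauB_mulVec_ne hε hy] with G hG
  have h1 := pull_norm hC (mat ε G) hG j k
  have h2 : ‖(gau G : ℂ) * pull (mat ε G) A y j k‖ = gau G * ‖pull (mat ε G) A y j k‖ := by
    rw [norm_mul, Complex.norm_real, Real.norm_of_nonneg (gau_nonneg G)]
  rw [h2]
  refine (mul_le_mul_of_nonneg_left h1 (gau_nonneg G)).trans (le_of_eq ?_)
  generalize N ((mat ε G).mulVec y) = n
  generalize hs (mat ε G) = m
  ring

theorem av_hom {A : V → M3} (hA : IsForm A) {ε : ℝ} (hε : 0 < ε) (l : ℂ) (y : V) (hl : l ≠ 0) :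
    av ε A (l • y) = ((Complex.normSq l : ℂ))⁻¹ • av ε A y := by
  ext j k
  rw [Matrix.smul_apply, smul_eq_mul]
  unfold av
  rw [← integral_const_mul]
  refine integral_congr_ae (Filter.Eventually.of_forall fun G => ?_)
  show (gau G : ℂ) * pull (mat ε G) A (l • y) j k =
    ((Complex.normSq l : ℂ))⁻¹ * ((gau G : ℂ) * pull (mat ε G) A y j k)
  have h : pull (mat ε G) A (l • y) j k = ((Complex.normSq l : ℂ))⁻¹ * pull (mat ε G) A y j k := by
    rw [GauB_pull_apply, GauB_pull_apply, Matrix.mulVec_smul, hA.hom l _ hl, Finset.mul_sum]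
    refine Finset.sum_congr rfl fun b _ => ?_
    rw [← mul_assoc, Finset.mul_sum]
    congr 1
    refine Finset.sum_congr rfl fun a _ => ?_
    rw [Matrix.smul_apply, smul_eq_mul]
    ring
  rw [h]
  ring

theorem av_killl {A : V → M3} (hA : IsForm A) {ε : ℝ} (hε : 0 < ε) {y : V} (hy : y ≠ 0)
    (k : Fin 3) : ∑ j, y j * av ε A y j k = 0 := by
  unfold av
  simp_rw [← integral_const_mul]
  rw [← integral_finsetSum _ (fun j _ => (pull_int hA hε hy j k).const_mul (y j))]
  refine integral_eq_zero_of_ae ?_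
  filter_upwards [GauB_mulVec_ne hε hy] with G hG
  show ∑ j, y j * ((gau G : ℂ) * pull (mat ε G) A y j k) = 0
  have h := hA.killl _ hG
  have h1 : ∑ j, y j * pull (mat ε G) A y j k =
      ∑ b, (∑ a, (mat ε G).mulVec y a * A ((mat ε G).mulVec y) a b) * conj (mat ε G b k) := by
    simp only [GauB_pull_apply]
    simp only [Matrix.mulVec, dotProduct, Fin.sum_univ_three]
    ring
  have h2 : ∑ j, y j * pull (mat ε G) A y j k = 0 := by
    rw [h1]
    refine Finset.sum_eq_zero fun b _ => ?_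
    rw [h b, zero_mul]
  calc ∑ j, y j * ((gau G : ℂ) * pull (mat ε G) A y j k)
      = (gau G : ℂ) * ∑ j, y j * pull (mat ε G) A y j k := by
        rw [Finset.mul_sum]
        exact Finset.sum_congr rfl fun j _ => by ring
    _ = 0 := by rw [h2, mul_zero]

theorem av_killr {A : V → M3} (hA : IsForm A) {ε : ℝ} (hε : 0 < ε) {y : V} (hy : y ≠ 0)
    (j : Fin 3) : ∑ k, av ε A y j k * conj (y k) = 0 := by
  unfold av
  simp_rw [← integral_mul_const]
  rw [← integral_finsetSum _ (fun k _ => (pull_int hA hε hy j k).mul_const (conj (y k)))]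
  refine integral_eq_zero_of_ae ?_
  filter_upwards [GauB_mulVec_ne hε hy] with G hG
  show ∑ k, (gau G : ℂ) * pull (mat ε G) A y j k * conj (y k) = 0
  have h := hA.killr _ hG
  have h1 : ∑ k, pull (mat ε G) A y j k * conj (y k) =
      ∑ a, mat ε G a j * ∑ b, A ((mat ε G).mulVec y) a b * conj ((mat ε G).mulVec y b) := by
    have hc : ∀ b, conj ((mat ε G).mulVec y b) =
        ∑ k, conj (mat ε G b k) * conj (y k) := by
      intro b
      simp only [Matrix.mulVec, dotProduct, map_sum, map_mul]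
    simp only [GauB_pull_apply, hc]
    generalize A ((mat ε G).mulVec y) = B
    simp only [Fin.sum_univ_three]
    ring
  have h2 : ∑ k, pull (mat ε G) A y j k * conj (y k) = 0 := by
    rw [h1]
    refine Finset.sum_eq_zero fun a _ => ?_
    rw [h a, mul_zero]
  calc ∑ k, (gau G : ℂ) * pull (mat ε G) A y j k * conj (y k)
      = (gau G : ℂ) * ∑ k, pull (mat ε G) A y j k * conj (y k) := by
        rw [Finset.mul_sum]
        exact Finset.sum_congr rfl fun j _ => by ring
    _ = 0 := by rw [h2, mul_zero]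

theorem av_herm {A : V → M3} (hA : IsForm A) (hh : IsHerm A) {ε : ℝ} (hε : 0 < ε) :
    IsHerm (av ε A) := by
  intro y hy
  ext j k
  rw [Matrix.conjTranspose_apply]
  show conj (av ε A y k j) = av ε A y j k
  unfold av
  rw [← integral_conj]
  refine integral_congr_ae ?_
  filter_upwards [GauB_mulVec_ne hε hy] with G hG
  rw [map_mul, Complex.conj_ofReal]
  congr 1
  have h := hh _ hG
  have hab : ∀ a b, conj (A ((mat ε G).mulVec y) a b) = A ((mat ε G).mulVec y) b a := fun a b =>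
    h.apply b a
  rw [GauB_pull_apply, GauB_pull_apply]
  simp only [map_sum, map_mul, Complex.conj_conj, hab]
  generalize A ((mat ε G).mulVec y) = B
  simp only [Fin.sum_univ_three]
  ring

end Pool.Agent.H85.DC

end S_H85_DC_GauB

section S_H85_DC_GauC

/-!
# Row GauC: the average on orthonormal pairs

`quad A w = ∑ A_jk w_j conj(w_k)`. `quad (pull M A y) w = quad (A (M y)) (M w)` (`quad_pull`, expand).
`quad_av`: `(y, w)` orthonormal. `quad (av ε A y) w = ∫ gau G quad (A (y + ε a)) (w + ε b) dG`, `a = ∑ y_i G_i`, `b = ∑ w_i G_i`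
(`mat_mulVec`; the integral of a finite linear combination of integrable functions, `pull_int`). By `pair_law_c` it is
`∫∫ g(a) g(b) quad (A (y + ε a)) (w + ε b) da db`. For fixed `a`, `∫ g(b) quad B (w + ε b) db = quad B w + ε^2 tr B`, since
`∫ g = 1`, `∫ g b_j = 0` (odd), `∫ g b_j conj(b_k) = δ_jk` (`j ≠ k`: the change of variables `b_j ↦ - b_j`; `j = k`: `∫_ℂ |z|^2 e^{-|z|^2} = π`,
or by `ibp`/symmetry: `∫ N g = 3`, e.g. `moment_rec`-like; any proof) (`gauss_quad`). Then substitute `x = y + ε a`: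
`∫ gs ε (x - y) (quad (A x) w + ε^2 tr (A x)) dx`. (Fubini: the integrand is integrable on `V × V`, bound `C (N w + N b)/N(y+εa)`.)
`quad_av'`: `N y = 1`, `w` arbitrary, `w' = w - ip w y • y` (`⊥ y`): `quad (av ε A y) w = quad (av ε A y) w'` since `av ε A y` kills `y`
(`av_killl`, `av_killr`); if `w' = 0` both sides vanish (`quad (A x) 0 = 0`); otherwise apply `quad_av` to `w'/√(N w')` and scale.
`gs_div_int`: `x ↦ gs ε (x - y) / N x` is integrable (`N^{-1}` is integrable near `0`, `gs` bounded and integrable).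
-/

open MeasureTheory
open scoped ContDiff BigOperators ComplexConjugate Matrix

namespace Pool.Agent.H85.DC

theorem quad_pull (M : M3) (A : V → M3) (y w : V) :
    quad (pull M A y) w = quad (A (M.mulVec y)) (M.mulVec w) := by
  unfold pull
  generalize A (M.mulVec y) = B
  simp only [quad, Matrix.mul_apply, Matrix.mulVec, dotProduct, Fin.sum_univ_three,
    map_add, map_mul, Matrix.transpose_apply, Matrix.map_apply]
  ring

/-- The one dimensional Gaussian. -/
noncomputable def GauC_ga (z : ℂ) : ℂ := ((Real.pi⁻¹ * Real.exp (-Complex.normSq z) : ℝ) : ℂ)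

theorem GauC_ga_cont : Continuous GauC_ga := by
  unfold GauC_ga
  exact Complex.continuous_ofReal.comp (continuous_const.mul
    (Real.continuous_exp.comp (continuous_neg.comp Complex.continuous_normSq)))

theorem GauC_int0 : ∫ z : ℂ, GauC_ga z = 1 := by
  unfold GauC_ga
  rw [integral_complex_ofReal, integral_const_mul, GauA_int_C]
  rw [inv_mul_cancel₀ Real.pi_ne_zero]
  simp

theorem GauC_intb0 : Integrable GauC_ga := by
  by_contra h
  have := integral_undef h
  rw [GauC_int0] at this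
  exact one_ne_zero this

theorem GauC_int2 : ∫ z : ℂ, GauC_ga z * z * conj z = 1 := by
  have h := Complex.integral_rpow_mul_exp_neg_rpow (p := 2) (q := 2) (by norm_num) (by norm_num)
  have e : ∀ z : ℂ, GauC_ga z * z * conj z =
      ((Real.pi⁻¹ * (‖z‖ ^ (2 : ℝ) * Real.exp (-‖z‖ ^ (2 : ℝ))) : ℝ) : ℂ) := by
    intro z
    unfold GauC_ga
    rw [mul_assoc, Complex.mul_conj, Complex.normSq_eq_norm_sq, Real.rpow_two]
    push_cast
    ring
  simp_rw [e]
  rw [integral_complex_ofReal, integral_const_mul, h]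
  have g2 : Real.Gamma ((2 + 2) / 2) = 1 := by
    have : ((2 : ℝ) + 2) / 2 = (1 : ℕ) + 1 := by norm_num
    rw [this, Real.Gamma_nat_eq_factorial]
    simp
  rw [g2]
  have : Real.pi⁻¹ * (2 * Real.pi / 2 * 1) = 1 := by
    field_simp
  rw [this]
  simp

theorem GauC_intb2 : Integrable (fun z : ℂ => GauC_ga z * z * conj z) := by
  by_contra h
  have := integral_undef h
  rw [GauC_int2] at this
  exact one_ne_zero this

theorem GauC_int1 : ∫ z : ℂ, GauC_ga z * z = 0 := by
  have h := integral_neg_eq_self (fun z : ℂ => GauC_ga z * z) (volume : Measure ℂ)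
  have e : ∀ z : ℂ, GauC_ga (-z) * (-z) = -(GauC_ga z * z) := by
    intro z
    unfold GauC_ga
    rw [Complex.normSq_neg]
    ring
  simp_rw [e] at h
  rw [integral_neg] at h
  exact self_eq_neg.1 h.symm

theorem GauC_intb1 : Integrable (fun z : ℂ => GauC_ga z * z) := by
  refine (GauC_intb0.norm.add GauC_intb2.norm).mono'
    (GauC_ga_cont.mul continuous_id).aestronglyMeasurable (Filter.Eventually.of_forall fun z => ?_)
  simp only [Pi.add_apply, norm_mul, RCLike.norm_conj]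
  have h1 : 0 ≤ ‖GauC_ga z‖ := norm_nonneg _
  have h2 : ‖z‖ ≤ 1 + ‖z‖ * ‖z‖ := by nlinarith [sq_nonneg (‖z‖ - 1), norm_nonneg z]
  calc ‖GauC_ga z‖ * ‖z‖ ≤ ‖GauC_ga z‖ * (1 + ‖z‖ * ‖z‖) := by gcongr
    _ = ‖GauC_ga z‖ + ‖GauC_ga z‖ * ‖z‖ * ‖z‖ := by ring

theorem GauC_int1' : ∫ z : ℂ, GauC_ga z * conj z = 0 := by
  have h := integral_neg_eq_self (fun z : ℂ => GauC_ga z * conj z) (volume : Measure ℂ)
  have e : ∀ z : ℂ, GauC_ga (-z) * conj (-z) = -(GauC_ga z * conj z) := by
    intro z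
    unfold GauC_ga
    rw [Complex.normSq_neg, map_neg]
    ring
  simp_rw [e] at h
  rw [integral_neg] at h
  exact self_eq_neg.1 h.symm

theorem GauC_intb1' : Integrable (fun z : ℂ => GauC_ga z * conj z) := by
  refine GauC_intb1.mono
    (GauC_ga_cont.mul Complex.continuous_conj).aestronglyMeasurable
    (Filter.Eventually.of_forall fun z => ?_)
  simp only [norm_mul, RCLike.norm_conj]
  exact le_rfl

theorem GauC_g_prod (b : V) : ((GauA_g b : ℝ) : ℂ) = ∏ i, GauC_ga (b i) := by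
  unfold GauA_g GauC_ga
  rw [← Complex.ofReal_prod, Finset.prod_mul_distrib, GauA_exp_prod]
  simp

/-- The one dimensional factors. -/
noncomputable def GauC_F (p q : Prop) [Decidable p] [Decidable q] (z : ℂ) : ℂ :=
  GauC_ga z * (if p then z else 1) * (if q then conj z else 1)

theorem GauC_F_intb (p q : Prop) [Decidable p] [Decidable q] : Integrable (GauC_F p q) := by
  unfold GauC_F
  by_cases hp : p <;> by_cases hq : q <;> simp only [hp, hq, if_true, if_false, mul_one]
  · exact GauC_intb2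
  · exact GauC_intb1
  · exact GauC_intb1'
  · exact GauC_intb0

theorem GauC_F_int (p q : Prop) [Decidable p] [Decidable q] :
    ∫ z, GauC_F p q z = if (p ↔ q) then 1 else 0 := by
  unfold GauC_F
  by_cases hp : p <;> by_cases hq : q <;> simp only [hp, hq, if_true, if_false, mul_one]
  · simpa using GauC_int2
  · simpa using GauC_int1
  · simpa using GauC_int1'
  · simpa using GauC_int0

theorem GauC_g_F (j k : Fin 3) (b : V) :
    ((GauA_g b : ℝ) : ℂ) * b j * conj (b k) = ∏ i, GauC_F (i = j) (i = k) (b i) := by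
  unfold GauC_F
  rw [Finset.prod_mul_distrib, Finset.prod_mul_distrib, ← GauC_g_prod]
  simp

theorem GauC_g_F1 (j : Fin 3) (b : V) :
    ((GauA_g b : ℝ) : ℂ) * b j = ∏ i, GauC_F (i = j) False (b i) := by
  unfold GauC_F
  rw [Finset.prod_mul_distrib, Finset.prod_mul_distrib, ← GauC_g_prod]
  simp

theorem GauC_g_F1' (k : Fin 3) (b : V) :
    ((GauA_g b : ℝ) : ℂ) * conj (b k) = ∏ i, GauC_F False (i = k) (b i) := by
  unfold GauC_F
  rw [Finset.prod_mul_distrib, Finset.prod_mul_distrib, ← GauC_g_prod]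
  simp

theorem GauC_m2b (j k : Fin 3) :
    Integrable (fun b : V => ((GauA_g b : ℝ) : ℂ) * b j * conj (b k)) := by
  simp_rw [GauC_g_F]
  exact Integrable.fintype_prod (μ := fun _ : Fin 3 => (volume : Measure ℂ))
    (f := fun i => GauC_F (i = j) (i = k)) fun i => GauC_F_intb _ _

theorem GauC_m1b (j : Fin 3) : Integrable (fun b : V => ((GauA_g b : ℝ) : ℂ) * b j) := by
  simp_rw [GauC_g_F1]
  exact Integrable.fintype_prod (μ := fun _ : Fin 3 => (volume : Measure ℂ))
    (f := fun i => GauC_F (i = j) False) fun i => GauC_F_intb _ _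

theorem GauC_m1b' (k : Fin 3) : Integrable (fun b : V => ((GauA_g b : ℝ) : ℂ) * conj (b k)) := by
  simp_rw [GauC_g_F1']
  exact Integrable.fintype_prod (μ := fun _ : Fin 3 => (volume : Measure ℂ))
    (f := fun i => GauC_F False (i = k)) fun i => GauC_F_intb _ _

theorem GauC_m0b : Integrable (fun b : V => ((GauA_g b : ℝ) : ℂ)) := GauA_g_integrable.ofReal

theorem GauC_m2 (j k : Fin 3) :
    ∫ b : V, ((GauA_g b : ℝ) : ℂ) * b j * conj (b k) = if j = k then 1 else 0 := by
  simp_rw [GauC_g_F]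
  rw [integral_fintype_prod_volume_eq_prod (ι := Fin 3) (E := fun _ => ℂ)
    (fun i => GauC_F (i = j) (i = k))]
  simp_rw [GauC_F_int]
  by_cases h : j = k
  · subst h
    simp
  · rw [if_neg h]
    refine Finset.prod_eq_zero (Finset.mem_univ j) ?_
    simp [h]

theorem GauC_m1 (j : Fin 3) : ∫ b : V, ((GauA_g b : ℝ) : ℂ) * b j = 0 := by
  simp_rw [GauC_g_F1]
  rw [integral_fintype_prod_volume_eq_prod (ι := Fin 3) (E := fun _ => ℂ)
    (fun i => GauC_F (i = j) False)]
  simp_rw [GauC_F_int]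
  refine Finset.prod_eq_zero (Finset.mem_univ j) ?_
  simp

theorem GauC_m1' (k : Fin 3) : ∫ b : V, ((GauA_g b : ℝ) : ℂ) * conj (b k) = 0 := by
  simp_rw [GauC_g_F1']
  rw [integral_fintype_prod_volume_eq_prod (ι := Fin 3) (E := fun _ => ℂ)
    (fun i => GauC_F False (i = k))]
  simp_rw [GauC_F_int]
  refine Finset.prod_eq_zero (Finset.mem_univ k) ?_
  simp

theorem GauC_m0 : ∫ b : V, ((GauA_g b : ℝ) : ℂ) = 1 := by
  rw [integral_complex_ofReal, GauA_int_g]
  simp

/-- The second factor. -/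
noncomputable def GauC_H (w : V) (ε : ℝ) (j k : Fin 3) (b : V) : ℂ :=
  ((GauA_g b : ℝ) : ℂ) * (w j + (ε : ℂ) * b j) * conj (w k + (ε : ℂ) * b k)

theorem GauC_H_eq (w : V) (ε : ℝ) (j k : Fin 3) (b : V) :
    GauC_H w ε j k b = (w j * conj (w k)) * ((GauA_g b : ℝ) : ℂ) +
      ((ε : ℂ) * w j) * (((GauA_g b : ℝ) : ℂ) * conj (b k)) +
      ((ε : ℂ) * conj (w k)) * (((GauA_g b : ℝ) : ℂ) * b j) +
      ((ε : ℂ) ^ 2) * (((GauA_g b : ℝ) : ℂ) * b j * conj (b k)) := by
  unfold GauC_H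
  simp only [map_add, map_mul, Complex.conj_ofReal]
  ring

theorem GauC_add4 {a b c d : V → ℂ} (ha : Integrable a) (hb : Integrable b) (hc : Integrable c)
    (hd : Integrable d) :
    ∫ x, (a x + b x + c x + d x) = (∫ x, a x) + (∫ x, b x) + (∫ x, c x) + ∫ x, d x := by
  have h2 : Integrable (fun x => a x + b x) := ha.add hb
  have h3 : Integrable (fun x => a x + b x + c x) := h2.add hc
  rw [integral_add h3 hd, integral_add h2 hc, integral_add ha hb]

theorem GauC_H_intb (w : V) (ε : ℝ) (j k : Fin 3) : Integrable (GauC_H w ε j k) := by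
  have : GauC_H w ε j k = fun b => (w j * conj (w k)) * ((GauA_g b : ℝ) : ℂ) +
      ((ε : ℂ) * w j) * (((GauA_g b : ℝ) : ℂ) * conj (b k)) +
      ((ε : ℂ) * conj (w k)) * (((GauA_g b : ℝ) : ℂ) * b j) +
      ((ε : ℂ) ^ 2) * (((GauA_g b : ℝ) : ℂ) * b j * conj (b k)) :=
    funext fun b => GauC_H_eq w ε j k b
  rw [this]
  exact (((GauC_m0b.const_mul _).add ((GauC_m1b' k).const_mul _)).add
    ((GauC_m1b j).const_mul _)).add ((GauC_m2b j k).const_mul _)

theorem GauC_H_int (w : V) (ε : ℝ) (j k : Fin 3) :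
    ∫ b, GauC_H w ε j k b = w j * conj (w k) + ((ε ^ 2 : ℝ) : ℂ) * (if j = k then 1 else 0) := by
  simp_rw [GauC_H_eq]
  rw [GauC_add4 (GauC_m0b.const_mul _) ((GauC_m1b' k).const_mul _)
      ((GauC_m1b j).const_mul _) ((GauC_m2b j k).const_mul _),
    integral_const_mul, integral_const_mul, integral_const_mul, integral_const_mul,
    GauC_m0, GauC_m1, GauC_m1', GauC_m2]
  push_cast
  ring

theorem GauC_quad_H (B : M3) (w : V) (ε : ℝ) (b : V) :
    ((GauA_g b : ℝ) : ℂ) * quad B (w + (ε : ℂ) • b) =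
      ∑ j, ∑ k, B j k * GauC_H w ε j k b := by
  unfold quad GauC_H
  rw [Finset.mul_sum]
  refine Finset.sum_congr rfl fun j _ => ?_
  rw [Finset.mul_sum]
  refine Finset.sum_congr rfl fun k _ => ?_
  simp only [Pi.add_apply, Pi.smul_apply, smul_eq_mul]
  ring

theorem GauC_sumval (B : M3) (w : V) (ε : ℝ) :
    ∑ j, ∑ k, B j k * (w j * conj (w k) + ((ε ^ 2 : ℝ) : ℂ) * (if j = k then 1 else 0)) =
      quad B w + ((ε ^ 2 : ℝ) : ℂ) * B.trace := by
  simp only [quad, Matrix.trace, Matrix.diag, Fin.sum_univ_three, mul_add]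
  simp
  ring

theorem gauss_quad (B : M3) (w : V) (ε : ℝ) :
    ∫ b : V, (((Real.pi ^ 3)⁻¹ * Real.exp (-N b) : ℝ) : ℂ) * quad B (w + (ε : ℂ) • b) =
      quad B w + ((ε ^ 2 : ℝ) : ℂ) * B.trace := by
  have e : ∀ b : V, (((Real.pi ^ 3)⁻¹ * Real.exp (-N b) : ℝ) : ℂ) * quad B (w + (ε : ℂ) • b) =
      ∑ j, ∑ k, B j k * GauC_H w ε j k b := fun b => GauC_quad_H B w ε b
  simp_rw [e]
  rw [integral_finsetSum (f := fun (j : Fin 3) (b : V) => ∑ k, B j k * GauC_H w ε j k b) _
    fun j _ => integrable_finsetSum _ fun k _ => (GauC_H_intb w ε j k).const_mul _]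
  have e2 : ∀ j : Fin 3, ∫ b, ∑ k, B j k * GauC_H w ε j k b =
      ∑ k, B j k * (w j * conj (w k) + ((ε ^ 2 : ℝ) : ℂ) * (if j = k then 1 else 0)) := by
    intro j
    rw [integral_finsetSum (f := fun (k : Fin 3) (b : V) => B j k * GauC_H w ε j k b) _
      fun k _ => (GauC_H_intb w ε j k).const_mul _]
    refine Finset.sum_congr rfl fun k _ => ?_
    rw [integral_const_mul, GauC_H_int]
  simp_rw [e2]
  exact GauC_sumval B w ε

theorem GauC_gs_cont (ε : ℝ) (y : V) : Continuous (fun x : V => gs ε (x - y)) := by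
  unfold gs
  exact continuous_const.mul (Real.continuous_exp.comp
    ((continuous_neg.comp (GauA_contN.comp (continuous_id.sub continuous_const))).div_const _))

theorem GauC_gs_nonneg {ε : ℝ} (z : V) : 0 ≤ gs ε z := by
  unfold gs
  positivity

theorem GauC_gs_intb {ε : ℝ} (hε : 0 < ε) (y : V) : Integrable (fun x : V => gs ε (x - y)) := by
  refine ⟨(GauC_gs_cont ε y).aestronglyMeasurable, ?_⟩
  rw [hasFiniteIntegral_iff_ofReal (Filter.Eventually.of_forall fun x => GauC_gs_nonneg _),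
    gs_int hε y]
  exact ENNReal.one_lt_top

theorem gs_div_int {ε : ℝ} (hε : 0 < ε) (y : V) : Integrable (fun x : V => gs ε (x - y) / N x) := by
  set K : ℝ := ((Real.pi * ε ^ 2) ^ 3)⁻¹ with hK
  have hK0 : 0 ≤ K := by positivity
  have hgs : ∀ z : V, gs ε z ≤ K := by
    intro z
    unfold gs
    have : Real.exp (-N z / ε ^ 2) ≤ 1 := by
      rw [Real.exp_le_one_iff]
      exact div_nonpos_of_nonpos_of_nonneg (neg_nonpos.2 (GauA_N_nonneg z)) (by positivity)
    calc ((Real.pi * ε ^ 2) ^ 3)⁻¹ * Real.exp (-N z / ε ^ 2) ≤ K * 1 := by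
          rw [hK]; gcongr
      _ = K := mul_one _
  have h1 := (integrable_N_rpow (s := -1) (c := 1) (by norm_num) one_pos).const_mul
    (K * Real.exp 1)
  refine (h1.add (GauC_gs_intb hε y)).mono'
    ((GauC_gs_cont ε y).measurable.div GauA_contN.measurable).aestronglyMeasurable
    (Filter.Eventually.of_forall fun x => ?_)
  have hN := GauA_N_nonneg x
  have hg := GauC_gs_nonneg (ε := ε) (x - y)
  rw [Real.norm_of_nonneg (div_nonneg hg hN)]
  simp only [Pi.add_apply]
  have p1 : 0 ≤ K * Real.exp 1 * (N x ^ (-1 : ℝ) * Real.exp (-1 * N x)) := by positivity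
  by_cases h : N x ≤ 1
  · have h2 : gs ε (x - y) / N x ≤ K * Real.exp 1 * (N x ^ (-1 : ℝ) * Real.exp (-1 * N x)) := by
      rw [Real.rpow_neg_one, div_eq_mul_inv]
      have h3 : 1 ≤ Real.exp 1 * Real.exp (-1 * N x) := by
        rw [← Real.exp_add]
        apply Real.one_le_exp
        linarith
      have h4 : 0 ≤ (N x)⁻¹ := inv_nonneg.2 hN
      calc gs ε (x - y) * (N x)⁻¹ ≤ K * (N x)⁻¹ := by gcongr; exact hgs _
        _ = K * (N x)⁻¹ * 1 := (mul_one _).symm
        _ ≤ K * (N x)⁻¹ * (Real.exp 1 * Real.exp (-1 * N x)) := by gcongr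
        _ = K * Real.exp 1 * ((N x)⁻¹ * Real.exp (-1 * N x)) := by ring
    linarith
  · push Not at h
    have h2 : gs ε (x - y) / N x ≤ gs ε (x - y) := div_le_self hg h.le
    linarith

theorem GauC_shift_meas (ε : ℝ) (y : V) : Measurable (fun a : V => y + (ε : ℂ) • a) := by
  have : Continuous (fun a : V => y + (ε : ℂ) • a) := by fun_prop
  exact this.measurable

theorem GauC_gs_meas (ε : ℝ) (y : V) : Measurable (fun x : V => gs ε (x - y)) :=
  (GauC_gs_cont ε y).measurable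

theorem GauC_map {ε : ℝ} (hε : 0 < ε) (y : V) :
    Measure.map (fun a : V => y + (ε : ℂ) • a)
      ((volume : Measure V).withDensity (fun a => ENNReal.ofReal (GauA_g a))) =
    (volume : Measure V).withDensity (fun x => ENNReal.ofReal (gs ε (x - y))) := by
  ext s hs
  have hm := GauC_shift_meas ε y
  rw [Measure.map_apply hm hs, withDensity_apply _ (hm hs), withDensity_apply _ hs]
  have h := GauA_subst hε y (φ := s.indicator 1) (measurable_one.indicator hs)
  rw [← lintegral_indicator (hm hs), ← lintegral_indicator hs]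
  have e1 : ∀ a : V, ((fun a : V => y + (ε : ℂ) • a) ⁻¹' s).indicator
        (fun a => ENNReal.ofReal (GauA_g a)) a =
      ENNReal.ofReal (GauA_g a) * s.indicator 1 (y + (ε : ℂ) • a) := by
    intro a
    by_cases ha : y + (ε : ℂ) • a ∈ s
    · rw [Set.indicator_of_mem (by exact ha), Set.indicator_of_mem ha]
      simp
    · rw [Set.indicator_of_notMem (by exact ha), Set.indicator_of_notMem ha]
      simp
  have e2 : ∀ x : V, s.indicator (fun x : V => ENNReal.ofReal (gs ε (x - y))) x =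
      ENNReal.ofReal (gs ε (x - y)) * s.indicator 1 x := by
    intro x
    by_cases hx : x ∈ s
    · rw [Set.indicator_of_mem hx, Set.indicator_of_mem hx]
      simp
    · rw [Set.indicator_of_notMem hx, Set.indicator_of_notMem hx]
      simp
  simp_rw [e1, e2]
  exact h

theorem GauC_subst {ε : ℝ} (hε : 0 < ε) (y : V) {φ : V → ℂ} (hφ : Measurable φ) :
    ∫ a : V, ((GauA_g a : ℝ) : ℂ) * φ (y + (ε : ℂ) • a) =
      ∫ x : V, (gs ε (x - y) : ℂ) * φ x := by
  have h1 := integral_map (μ := (volume : Measure V).withDensity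
    (fun a => ENNReal.ofReal (GauA_g a))) (GauC_shift_meas ε y).aemeasurable
    (f := φ) hφ.aestronglyMeasurable
  rw [GauC_map hε y] at h1
  rw [integral_withDensity_eq_integral_toReal_smul (GauC_gs_meas ε y).ennreal_ofReal
      (Filter.Eventually.of_forall fun _ => ENNReal.ofReal_lt_top),
    integral_withDensity_eq_integral_toReal_smul (GauA_g_meas.ennreal_ofReal)
      (Filter.Eventually.of_forall fun _ => ENNReal.ofReal_lt_top)] at h1
  have e1 : ∀ a : V, (ENNReal.ofReal (GauA_g a)).toReal • φ (y + (ε : ℂ) • a) =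
      ((GauA_g a : ℝ) : ℂ) * φ (y + (ε : ℂ) • a) := by
    intro a
    rw [ENNReal.toReal_ofReal (GauA_g_nonneg a), Complex.real_smul]
  have e2 : ∀ x : V, (ENNReal.ofReal (gs ε (x - y))).toReal • φ x =
      (gs ε (x - y) : ℂ) * φ x := by
    intro x
    rw [ENNReal.toReal_ofReal (GauC_gs_nonneg _), Complex.real_smul]
  simp_rw [e1, e2] at h1
  exact h1.symm

theorem GauC_subst_intb {ε : ℝ} (hε : 0 < ε) (y : V) {φ : V → ℂ} (hφ : Measurable φ)
    (hi : Integrable (fun x : V => (gs ε (x - y) : ℂ) * φ x)) :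
    Integrable (fun a : V => ((GauA_g a : ℝ) : ℂ) * φ (y + (ε : ℂ) • a)) := by
  have h1 : Integrable φ ((volume : Measure V).withDensity
      (fun x => ENNReal.ofReal (gs ε (x - y)))) := by
    rw [integrable_withDensity_iff_integrable_smul' (GauC_gs_meas ε y).ennreal_ofReal
      (Filter.Eventually.of_forall fun _ => ENNReal.ofReal_lt_top)]
    refine hi.congr (Filter.Eventually.of_forall fun x => ?_)
    simp only
    rw [ENNReal.toReal_ofReal (GauC_gs_nonneg _), Complex.real_smul]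
  rw [← GauC_map hε y] at h1
  have h2 := h1.comp_measurable (GauC_shift_meas ε y)
  rw [integrable_withDensity_iff_integrable_smul' (GauA_g_meas.ennreal_ofReal)
      (Filter.Eventually.of_forall fun _ => ENNReal.ofReal_lt_top)] at h2
  refine h2.congr (Filter.Eventually.of_forall fun a => ?_)
  simp only [Function.comp]
  rw [ENNReal.toReal_ofReal (GauA_g_nonneg a), Complex.real_smul]

theorem GauC_gsA_intb {A : V → M3} (hA : IsForm A) {ε : ℝ} (hε : 0 < ε) (y : V) (j k : Fin 3) :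
    Integrable (fun x : V => (gs ε (x - y) : ℂ) * A x j k) := by
  obtain ⟨C, hC0, hC⟩ := form_bound hA
  refine ((gs_div_int hε y).const_mul C).mono'
    ((Complex.measurable_ofReal.comp (GauC_gs_meas ε y)).mul
      (form_meas hA j k)).aestronglyMeasurable ?_
  have h0 : ∀ᵐ x : V, x ≠ 0 := by
    rw [ae_iff]
    simp
  filter_upwards [h0] with x hx
  rw [norm_mul, Complex.norm_real, Real.norm_of_nonneg (GauC_gs_nonneg _)]
  calc gs ε (x - y) * ‖A x j k‖ ≤ gs ε (x - y) * (C / N x) := by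
        gcongr
        · exact GauC_gs_nonneg _
        · exact hC x hx j k
    _ = C * (gs ε (x - y) / N x) := by ring

theorem quad_av {A : V → M3} (hA : IsForm A) {ε : ℝ} (hε : 0 < ε) {y w : V} (hy : N y = 1)
    (hw : N w = 1) (hyw : ip w y = 0) :
    quad (av ε A y) w =
      ∫ x, (gs ε (x - y) : ℂ) * (quad (A x) w + ((ε ^ 2 : ℝ) : ℂ) * (A x).trace) := by
  have hy0 : y ≠ 0 := by
    rintro rfl
    simp [N] at hy
  -- step 1: under the integral
  have s1 : quad (av ε A y) w =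
      ∫ G : Fin 3 → V, (gau G : ℂ) * quad (pull (mat ε G) A y) w := by
    unfold quad av
    have e1 : ∀ G : Fin 3 → V, (gau G : ℂ) *
        ∑ j, ∑ k, pull (mat ε G) A y j k * w j * conj (w k) =
        ∑ j, ∑ k, ((gau G : ℂ) * pull (mat ε G) A y j k) * (w j * conj (w k)) := by
      intro G
      rw [Finset.mul_sum]
      refine Finset.sum_congr rfl fun j _ => ?_
      rw [Finset.mul_sum]
      exact Finset.sum_congr rfl fun k _ => by ring
    simp_rw [e1]
    rw [integral_finsetSum _ fun j _ => integrable_finsetSum _ fun k _ =>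
      (pull_int hA hε hy0 j k).mul_const _]
    refine Finset.sum_congr rfl fun j _ => ?_
    rw [integral_finsetSum _ fun k _ => (pull_int hA hε hy0 j k).mul_const _]
    refine Finset.sum_congr rfl fun k _ => ?_
    rw [integral_mul_const, mul_assoc]
  -- step 2: the pair law
  have hmφ : Measurable (fun q : V × V =>
      quad (A (y + (ε : ℂ) • q.1)) (w + (ε : ℂ) • q.2)) := by
    unfold quad
    refine Finset.measurable_fun_sum _ fun j _ => Finset.measurable_fun_sum _ fun k _ => ?_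
    have m1 : Measurable (fun q : V × V => A (y + (ε : ℂ) • q.1) j k) :=
      (form_meas hA j k).comp ((GauC_shift_meas ε y).comp measurable_fst)
    have m2 : Measurable (fun q : V × V => (w + (ε : ℂ) • q.2) j) :=
      (measurable_pi_apply j).comp ((GauC_shift_meas ε w).comp measurable_snd)
    have m3 : Measurable (fun q : V × V => conj ((w + (ε : ℂ) • q.2) k)) :=
      Complex.continuous_conj.measurable.comp
        ((measurable_pi_apply k).comp ((GauC_shift_meas ε w).comp measurable_snd))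
    exact (m1.mul m2).mul m3
  have s2 : ∫ G : Fin 3 → V, (gau G : ℂ) * quad (pull (mat ε G) A y) w =
      ∫ q : V × V, ((GauA_g q.1 : ℝ) : ℂ) * ((GauA_g q.2 : ℝ) : ℂ) *
        quad (A (y + (ε : ℂ) • q.1)) (w + (ε : ℂ) • q.2) := by
    have := pair_law_c hy hw hyw hmφ
    simp_rw [quad_pull, mat_mulVec]
    exact this
  have e3 : ∀ q : V × V, ((GauA_g q.1 : ℝ) : ℂ) * ((GauA_g q.2 : ℝ) : ℂ) *
        quad (A (y + (ε : ℂ) • q.1)) (w + (ε : ℂ) • q.2) =
      ∑ j, ∑ k, (((GauA_g q.1 : ℝ) : ℂ) * A (y + (ε : ℂ) • q.1) j k) * GauC_H w ε j k q.2 := by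
    intro q
    rw [mul_assoc, GauC_quad_H, Finset.mul_sum]
    refine Finset.sum_congr rfl fun j _ => ?_
    rw [Finset.mul_sum]
    exact Finset.sum_congr rfl fun k _ => by ring
  have hF : ∀ j k, Integrable (fun a : V => ((GauA_g a : ℝ) : ℂ) * A (y + (ε : ℂ) • a) j k) :=
    fun j k => GauC_subst_intb hε y (φ := fun x => A x j k) (form_meas hA j k)
      (GauC_gsA_intb hA hε y j k)
  have hP : ∀ j k, Integrable (fun q : V × V =>
      (((GauA_g q.1 : ℝ) : ℂ) * A (y + (ε : ℂ) • q.1) j k) * GauC_H w ε j k q.2) :=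
    fun j k => (hF j k).mul_prod (GauC_H_intb w ε j k)
  have s3 : ∫ q : V × V, ((GauA_g q.1 : ℝ) : ℂ) * ((GauA_g q.2 : ℝ) : ℂ) *
        quad (A (y + (ε : ℂ) • q.1)) (w + (ε : ℂ) • q.2) =
      ∑ j, ∑ k, (∫ a : V, ((GauA_g a : ℝ) : ℂ) * A (y + (ε : ℂ) • a) j k) *
        (w j * conj (w k) + ((ε ^ 2 : ℝ) : ℂ) * (if j = k then 1 else 0)) := by
    simp_rw [e3]
    rw [integral_finsetSum _ fun j _ => integrable_finsetSum _ fun k _ => hP j k]
    refine Finset.sum_congr rfl fun j _ => ?_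
    rw [integral_finsetSum _ fun k _ => hP j k]
    refine Finset.sum_congr rfl fun k _ => ?_
    rw [Measure.volume_eq_prod,
      integral_prod_mul (fun a : V => ((GauA_g a : ℝ) : ℂ) * A (y + (ε : ℂ) • a) j k)
        (GauC_H w ε j k), GauC_H_int]
  rw [s1, s2, s3]
  have e4 : ∀ j k, ∫ a : V, ((GauA_g a : ℝ) : ℂ) * A (y + (ε : ℂ) • a) j k =
      ∫ x : V, (gs ε (x - y) : ℂ) * A x j k :=
    fun j k => GauC_subst hε y (φ := fun x => A x j k) (form_meas hA j k)
  simp_rw [e4, ← integral_mul_const]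
  have hQ : ∀ j k, Integrable (fun x : V => ((gs ε (x - y) : ℂ) * A x j k) *
      (w j * conj (w k) + ((ε ^ 2 : ℝ) : ℂ) * (if j = k then 1 else 0))) :=
    fun j k => (GauC_gsA_intb hA hε y j k).mul_const _
  have e5 : ∀ j : Fin 3, ∑ k, ∫ x : V, ((gs ε (x - y) : ℂ) * A x j k) *
      (w j * conj (w k) + ((ε ^ 2 : ℝ) : ℂ) * (if j = k then 1 else 0)) =
      ∫ x : V, ∑ k, ((gs ε (x - y) : ℂ) * A x j k) *
      (w j * conj (w k) + ((ε ^ 2 : ℝ) : ℂ) * (if j = k then 1 else 0)) :=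
    fun j => (integral_finsetSum _ fun k _ => hQ j k).symm
  simp_rw [e5]
  rw [← integral_finsetSum _ fun j _ => integrable_finsetSum _ fun k _ => hQ j k]
  refine integral_congr_ae (Filter.Eventually.of_forall fun x => ?_)
  simp only
  rw [← GauC_sumval (A x) w ε, Finset.mul_sum]
  refine Finset.sum_congr rfl fun j _ => ?_
  rw [Finset.mul_sum]
  exact Finset.sum_congr rfl fun k _ => by ring

theorem GauC_quad_perp {A : M3} {y : V} (hl : ∀ k, ∑ j, y j * A j k = 0)
    (hr : ∀ j, ∑ k, A j k * conj (y k) = 0) (w : V) (c : ℂ) :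
    quad A (w - c • y) = quad A w := by
  simp only [quad, Fin.sum_univ_three, Pi.sub_apply, Pi.smul_apply, smul_eq_mul, map_sub,
    map_mul] at *
  linear_combination (-c * (conj (w 0) - conj c * conj (y 0))) * hl 0 + (-c * (conj (w 1) - conj c * conj (y 1))) * hl 1 +
    (-c * (conj (w 2) - conj c * conj (y 2))) * hl 2 - conj c * w 0 * hr 0 - conj c * w 1 * hr 1 -
    conj c * w 2 * hr 2

theorem GauC_quad_smul (A : M3) (c : ℂ) (w : V) :
    quad A (c • w) = (Complex.normSq c : ℂ) * quad A w := by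
  unfold quad
  rw [Finset.mul_sum]
  refine Finset.sum_congr rfl fun j _ => ?_
  rw [Finset.mul_sum]
  refine Finset.sum_congr rfl fun k _ => ?_
  simp only [Pi.smul_apply, smul_eq_mul, map_mul, ← Complex.mul_conj]
  ring

theorem quad_av' {A : V → M3} (hA : IsForm A) {ε : ℝ} (hε : 0 < ε) {y : V} (hy : N y = 1)
    (w : V) :
    quad (av ε A y) w =
      ∫ x, (gs ε (x - y) : ℂ) * (quad (A x) (w - ip w y • y) +
        ((ε ^ 2 * N (w - ip w y • y) : ℝ) : ℂ) * (A x).trace) := by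
  have hy0 : y ≠ 0 := by
    rintro rfl
    simp [N] at hy
  have hyy : ip y y = 1 := by
    have : ((N y : ℝ) : ℂ) = ip y y := by
      unfold N ip
      push_cast
      exact Finset.sum_congr rfl fun j _ => (Complex.mul_conj (y j)).symm
    rw [← this, hy]; simp
  have s1 : quad (av ε A y) w = quad (av ε A y) (w - ip w y • y) :=
    (GauC_quad_perp (av_killl hA hε hy0) (av_killr hA hε hy0) w _).symm
  rw [s1]
  set w' : V := w - ip w y • y with hw'
  have hort : ip w' y = 0 := by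
    have : ip w' y = ip w y - ip w y * ip y y := by
      rw [hw']
      unfold ip
      rw [Finset.mul_sum, ← Finset.sum_sub_distrib]
      refine Finset.sum_congr rfl fun j _ => ?_
      simp only [Pi.sub_apply, Pi.smul_apply, smul_eq_mul]
      ring
    rw [this, hyy]
    ring
  rcases eq_or_lt_of_le (GauA_N_nonneg w') with h0 | hpos
  · have hw0 : w' = 0 := by
      ext j
      have h2 := (Finset.sum_eq_zero_iff_of_nonneg
        (fun j _ => Complex.normSq_nonneg (w' j))).1 h0.symm j (Finset.mem_univ j)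
      simpa using h2
    have q0 : ∀ B : M3, quad B (0 : V) = 0 := by
      intro B
      simp [quad]
    rw [← h0, hw0]
    simp [q0]
  · have hs : 0 < Real.sqrt (N w') := Real.sqrt_pos.2 hpos
    have hsq : Real.sqrt (N w') * Real.sqrt (N w') = N w' := Real.mul_self_sqrt hpos.le
    set v : V := (((Real.sqrt (N w'))⁻¹ : ℝ) : ℂ) • w' with hv
    have hwv : w' = ((Real.sqrt (N w') : ℝ) : ℂ) • v := by
      rw [hv, smul_smul, ← Complex.ofReal_mul, mul_inv_cancel₀ hs.ne']
      simp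
    have hNv : N v = 1 := by
      have : N v = (Real.sqrt (N w'))⁻¹ * (Real.sqrt (N w'))⁻¹ * N w' := by
        rw [hv]
        conv_lhs => unfold N
        conv_rhs => rw [N]
        rw [Finset.mul_sum]
        refine Finset.sum_congr rfl fun j _ => ?_
        rw [Pi.smul_apply, smul_eq_mul, Complex.normSq_mul, Complex.normSq_ofReal]
      rw [this, ← mul_inv, hsq]
      exact inv_mul_cancel₀ hpos.ne'
    have hvy : ip v y = 0 := by
      have : ip v y = (((Real.sqrt (N w'))⁻¹ : ℝ) : ℂ) * ip w' y := by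
        rw [hv]
        unfold ip
        rw [Finset.mul_sum]
        refine Finset.sum_congr rfl fun j _ => ?_
        rw [Pi.smul_apply, smul_eq_mul, mul_assoc]
      rw [this, hort, mul_zero]
    have h := quad_av hA hε hy hNv hvy
    have c1 : ∀ B : M3, quad B w' = (N w' : ℂ) * quad B v := by
      intro B
      conv_lhs => rw [hwv, GauC_quad_smul, Complex.normSq_ofReal, hsq]
    rw [c1, h, ← integral_const_mul]
    refine integral_congr_ae (Filter.Eventually.of_forall fun x => ?_)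
    simp only
    rw [c1 (A x)]
    push_cast
    ring

/-- Polarisation: the entries from the values of `quad`. -/
theorem polar (A : M3) (j k : Fin 3) :
    A j k = (1 / 4 : ℂ) * (quad A (Pi.single j 1 + Pi.single k 1) - quad A (Pi.single j 1 - Pi.single k 1)
      + Complex.I * quad A (Pi.single j 1 + Complex.I • Pi.single k 1)
      - Complex.I * quad A (Pi.single j 1 - Complex.I • Pi.single k 1)) := by
  have key : ∀ u v : V, ∑ a, ∑ b, A a b * (u a * conj (v b)) =
      (1 / 4 : ℂ) * (quad A (u + v) - quad A (u - v)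
      + Complex.I * quad A (u + Complex.I • v) - Complex.I * quad A (u - Complex.I • v)) := by
    intro u v
    unfold quad
    simp only [Finset.mul_sum, ← Finset.sum_sub_distrib, ← Finset.sum_add_distrib]
    refine Finset.sum_congr rfl fun a _ => Finset.sum_congr rfl fun b _ => ?_
    simp only [Pi.add_apply, Pi.sub_apply, Pi.smul_apply, smul_eq_mul, map_add, map_sub, map_mul,
      Complex.conj_I]
    linear_combination (-(1 / 2 : ℂ) * A a b * (v a * conj (u b) - u a * conj (v b))) *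
      Complex.I_mul_I
  rw [← key]
  simp [Pi.single_apply]

end Pool.Agent.H85.DC

end S_H85_DC_GauC

section S_H85_DC_GauD

/-!
# Row GauD: the average of a form is a form; convergence

`form_av`: only the continuity on `{0}ᶜ` is not yet known (`av_hom`, `av_killl`, `av_killr`). For `y ≠ 0` put
`ŷ = (√(N y))⁻¹ • y` (continuous in `y ≠ 0`, `N ŷ = 1`), `av ε A y = (N y)⁻¹ • av ε A ŷ`; so it suffices that `y ↦ av ε A y` is
continuous on the unit sphere `{N y = 1}` (`ContinuousOn`), and by `polar` that `y ↦ quad (av ε A y) w` is, for fixed `w`. Use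
`quad_av'`: the integrand is continuous in `y` for each `x`, and for `y` in the unit sphere (compact) it is bounded by `C_w gs-sup(x)/N x`, where
`gs ε (x - y) ≤ (π ε^2)^{-3} exp(1/ε^2) exp(-N x/(2ε^2))` (`N (x - y) ≥ N x/2 - N y`), integrable: `continuousOn_of_dominated`.
`av_conv`. Fix `A`, `C` with `|A_jk| ≤ C/N`. By homogeneity assume `N y = 1` and bound `‖av ε A y j k - A y j k‖ ≤ δ`; by `polar` it suffices to bound
`|quad (av ε A y) w - quad (A y) w| ≤ δ/4` for the 4 vectors `w` (`N w ≤ 4`); `w' = w - ip w y • y`, `N w' ≤ 4`,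
`quad (A y) w = quad (A y) w'` (`quad_perp`), and the difference is
`∫ gs ε (x - y) [quad (A x) w' - quad (A y) w' + ε^2 N w' tr (A x)] dx` (`∫ gs = 1`). Let `κ > 0`; `A` is uniformly continuous on the compact shell
`{1/4 ≤ N ≤ 4}`: there is `r ∈ (0,1/4)` with `|A_jk(x) - A_jk(y)| ≤ κ` for `N (x-y) < r`, `N y = 1`. The part `N (x - y) < r` contributes at
most `9·4·κ` plus `ε^2·4·3·4C`. The part `N (x - y) ≥ r`: integrand at most `gs ε (x-y) C'(1 + 1/N x)`, and
`gs ε z ≤ 8·e^{-r/(2ε^2)} gs (√2 ε) z` for `N z ≥ r`, so it is at most `8 e^{-r/(2ε^2)} C' (1 + ∫ gs (√2 ε)(x - y)/N x dx)`, and the last integral is bounded by an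
absolute constant for `ε ≤ 1`: on `N x ≥ 1/4` by `4`; on `N x < 1/4`, `N (x-y) ≥ 1/4` and `gs (√2 ε) z ≤ (2πε^2)^{-3} e^{-1/(8ε^2)} ≤ C''`, times
`∫_{N<1/4} 1/N < ∞` (`gs_div_bdd`). So everything tends to `0` uniformly in `y`.
-/

open MeasureTheory
open scoped ContDiff BigOperators ComplexConjugate Matrix

namespace Pool.Agent.H85.DC

theorem GauD_gs_nonneg (ε : ℝ) (z : V) : 0 ≤ gs ε z := by
  unfold gs
  have := Real.pi_pos
  positivity

theorem GauD_gs_cont (ε : ℝ) : Continuous (gs ε) := by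
  unfold gs
  exact continuous_const.mul (Real.continuous_exp.comp ((continuous_N.neg).div_const _))

theorem GauD_gs_cont' (ε : ℝ) (y : V) : Continuous (fun x : V => gs ε (x - y)) :=
  (GauD_gs_cont ε).comp (continuous_id.sub continuous_const)

theorem GauD_gs_integrable {ε : ℝ} (hε : 0 < ε) (y : V) : Integrable (fun x : V => gs ε (x - y)) := by
  refine ⟨(GauD_gs_cont' ε y).aestronglyMeasurable, ?_⟩
  rw [hasFiniteIntegral_iff_ofReal (Filter.Eventually.of_forall fun x => GauD_gs_nonneg ε _),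
    gs_int hε y]
  exact ENNReal.one_lt_top

theorem GauD_gs_one {ε : ℝ} (hε : 0 < ε) (y : V) : ∫ x : V, gs ε (x - y) = 1 := by
  rw [integral_eq_lintegral_of_nonneg_ae (Filter.Eventually.of_forall fun x => GauD_gs_nonneg ε _)
    (GauD_gs_cont' ε y).aestronglyMeasurable, gs_int hε y]
  simp

theorem GauD_N_add (u v : V) : N (u + v) ≤ 2 * N u + 2 * N v := by
  unfold N
  rw [Finset.mul_sum, Finset.mul_sum, ← Finset.sum_add_distrib]
  refine Finset.sum_le_sum fun j _ => ?_
  rw [Pi.add_apply, Complex.normSq_apply, Complex.normSq_apply, Complex.normSq_apply,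
    Complex.add_re, Complex.add_im]
  nlinarith [sq_nonneg ((u j).re - (v j).re), sq_nonneg ((u j).im - (v j).im)]

theorem GauD_N_neg (u : V) : N (-u) = N u := by
  unfold N
  exact Finset.sum_congr rfl fun j _ => by rw [Pi.neg_apply, Complex.normSq_neg]

theorem GauD_N_sub (x y : V) : N y / 2 - N x ≤ N (x - y) := by
  have h1 := GauD_N_add x (-(x - y))
  rw [GauD_N_neg] at h1
  have h2 : x + -(x - y) = y := by abel
  rw [h2] at h1
  linarith

theorem GauD_N_sub' (x y : V) : N x / 2 - N y ≤ N (x - y) := by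
  have h1 := GauD_N_add (x - y) y
  rw [sub_add_cancel] at h1
  linarith

theorem GauD_ip_self (x : V) : ip x x = (N x : ℂ) := by
  unfold ip N
  push_cast
  exact Finset.sum_congr rfl fun j _ => Complex.mul_conj (x j)

theorem GauD_ip_sub (x y z : V) : ip (x - y) z = ip x z - ip y z := by
  unfold ip
  rw [← Finset.sum_sub_distrib]
  exact Finset.sum_congr rfl fun j _ => by rw [Pi.sub_apply, sub_mul]

theorem GauD_ip_smul (c : ℂ) (x z : V) : ip (c • x) z = c * ip x z := by
  unfold ip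
  rw [Finset.mul_sum]
  exact Finset.sum_congr rfl fun j _ => by rw [Pi.smul_apply, smul_eq_mul, mul_assoc]

theorem GauD_ip_conj (x y : V) : conj (ip x y) = ip y x := by
  unfold ip
  rw [map_sum]
  exact Finset.sum_congr rfl fun j _ => by rw [map_mul, Complex.conj_conj, mul_comm]

theorem GauD_perp_le {w y : V} (hy : N y = 1) : N (w - ip w y • y) ≤ N w := by
  have h1 : ip (w - ip w y • y) y = 0 := by
    rw [GauD_ip_sub, GauD_ip_smul, GauD_ip_self, hy]
    push_cast
    ring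
  have h1' : ip y (w - ip w y • y) = 0 := by rw [← GauD_ip_conj, h1, map_zero]
  have h2 : ip (w - ip w y • y) (w - ip w y • y) = ip w w - ip w y * ip y w := by
    rw [GauD_ip_sub, GauD_ip_smul, h1', mul_zero, sub_zero, ← GauD_ip_conj, GauD_ip_sub,
      GauD_ip_smul, map_sub, map_mul, GauD_ip_conj, GauD_ip_conj, GauD_ip_conj]
    ring
  rw [GauD_ip_self, GauD_ip_self, ← GauD_ip_conj w y, Complex.mul_conj] at h2
  have h3 : N (w - ip w y • y) = N w - Complex.normSq (ip w y) := by exact_mod_cast h2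
  rw [h3]
  have := Complex.normSq_nonneg (ip w y)
  linarith

theorem GauD_norm_le (w : V) (j k : Fin 3) : ‖w j‖ * ‖w k‖ ≤ N w := by
  have h0 : ∀ i, ‖w i‖ ^ 2 ≤ N w := fun i => by
    rw [← Complex.normSq_eq_norm_sq]
    unfold N
    exact Finset.single_le_sum (f := fun i => Complex.normSq (w i))
      (fun j _ => Complex.normSq_nonneg _) (Finset.mem_univ i)
  nlinarith [h0 j, h0 k, sq_nonneg (‖w j‖ - ‖w k‖)]

theorem GauD_quad_bound {B : M3} {c : ℝ} (hB : ∀ j k, ‖B j k‖ ≤ c) (w : V) :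
    ‖quad B w‖ ≤ 9 * c * N w := by
  have hc : 0 ≤ c := (norm_nonneg _).trans (hB 0 0)
  have h1 : ∀ j k, ‖B j k * w j * conj (w k)‖ ≤ c * N w := by
    intro j k
    rw [norm_mul, norm_mul, Complex.norm_conj, mul_assoc]
    exact mul_le_mul (hB j k) (GauD_norm_le w j k) (by positivity) hc
  unfold quad
  calc ‖∑ j, ∑ k, B j k * w j * conj (w k)‖ ≤ ∑ j : Fin 3, ∑ k : Fin 3, c * N w := by
        refine (norm_sum_le _ _).trans (Finset.sum_le_sum fun j _ => ?_)
        exact (norm_sum_le _ _).trans (Finset.sum_le_sum fun k _ => h1 j k)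
    _ = 9 * c * N w := by
        simp only [Finset.sum_const, Finset.card_univ, Fintype.card_fin, nsmul_eq_mul]
        push_cast
        ring

theorem GauD_trace_bound {B : M3} {c : ℝ} (hB : ∀ j k, ‖B j k‖ ≤ c) : ‖B.trace‖ ≤ 3 * c := by
  unfold Matrix.trace
  calc ‖∑ j, B.diag j‖ ≤ ∑ j : Fin 3, c :=
        (norm_sum_le _ _).trans (Finset.sum_le_sum fun j _ => hB j j)
    _ = 3 * c := by simp

theorem GauD_zero {A : V → M3} (hA : IsForm A) : A 0 = 0 := by
  have h1 := hA.hom 2 0 (by norm_num)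
  rw [smul_zero] at h1
  ext j k
  have h2 := congrFun (congrFun h1 j) k
  rw [Matrix.smul_apply, smul_eq_mul] at h2
  have h3 : (Complex.normSq (2 : ℂ) : ℂ) = 4 := by
    have : Complex.normSq (2 : ℂ) = 4 := by
      rw [Complex.normSq_apply]; norm_num
    rw [this]; norm_num
  rw [h3] at h2
  rw [Matrix.zero_apply]
  linear_combination (4 / 3 : ℂ) * h2

theorem GauD_bound {A : V → M3} (hA : IsForm A) :
    ∃ C : ℝ, 0 ≤ C ∧ ∀ x : V, ∀ j k, ‖A x j k‖ ≤ C / N x := by
  obtain ⟨C, hC, hb⟩ := form_bound hA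
  refine ⟨C, hC, fun x j k => ?_⟩
  by_cases hx : x = 0
  · rw [hx, GauD_zero hA]
    have h0 : N (0 : V) = 0 := by simp [N]
    rw [h0]
    simp
  · exact hb x hx j k

/-- the integrand -/
noncomputable def GauD_F (A : V → M3) (ε : ℝ) (w y x : V) : ℂ :=
  (gs ε (x - y) : ℂ) * (quad (A x) (w - ip w y • y) +
        ((ε ^ 2 * N (w - ip w y • y) : ℝ) : ℂ) * (A x).trace)

theorem GauD_quad_meas {A : V → M3} (hA : IsForm A) (w : V) : Measurable (fun x => quad (A x) w) := by
  unfold quad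
  exact Finset.measurable_sum _ fun j _ => Finset.measurable_sum _ fun k _ =>
    ((form_meas hA j k).mul_const _).mul_const _

theorem GauD_tr_meas {A : V → M3} (hA : IsForm A) : Measurable (fun x => (A x).trace) := by
  unfold Matrix.trace
  exact Finset.measurable_sum _ fun j _ => form_meas hA j j

theorem GauD_F_meas {A : V → M3} (hA : IsForm A) (ε : ℝ) (w y : V) :
    Measurable (GauD_F A ε w y) := by
  unfold GauD_F
  exact (Complex.measurable_ofReal.comp (GauD_gs_cont' ε y).measurable).mul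
    ((GauD_quad_meas hA _).add ((GauD_tr_meas hA).const_mul _))

theorem GauD_F_cont (A : V → M3) (ε : ℝ) (w x : V) : Continuous (fun y => GauD_F A ε w y x) := by
  have hip : Continuous fun y : V => ip w y := by
    unfold ip
    refine continuous_finsetSum _ fun j _ => ?_
    have h1 : Continuous fun a : V => conj (a j) :=
      Complex.continuous_conj.comp (continuous_apply j)
    exact continuous_const.mul h1
  have hw : Continuous fun y : V => w - ip w y • y := continuous_const.sub (hip.smul continuous_id)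
  have hwj : ∀ j : Fin 3, Continuous fun y : V => (w - ip w y • y) j := fun j =>
    (continuous_apply j).comp hw
  have hq : Continuous fun y : V => quad (A x) (w - ip w y • y) := by
    unfold quad
    refine continuous_finsetSum _ fun j _ => continuous_finsetSum _ fun k _ => ?_
    exact (continuous_const.mul (hwj j)).mul (Complex.continuous_conj.comp (hwj k))
  have hg : Continuous fun y : V => gs ε (x - y) :=
    (GauD_gs_cont ε).comp (continuous_const.sub continuous_id)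
  have hN : Continuous fun y : V => ε ^ 2 * N (w - ip w y • y) :=
    continuous_const.mul (continuous_N.comp hw)
  unfold GauD_F
  exact (Complex.continuous_ofReal.comp hg).mul
    (hq.add ((Complex.continuous_ofReal.comp hN).mul continuous_const))

theorem GauD_F_bound {A : V → M3} {C : ℝ} (hC : 0 ≤ C)
    (hb : ∀ x : V, ∀ j k, ‖A x j k‖ ≤ C / N x) {ε : ℝ} (hε : 0 < ε) (w : V) {y : V} (hy : N y = 1)
    (x : V) : ‖GauD_F A ε w y x‖ ≤
      (((Real.pi * ε ^ 2) ^ 3)⁻¹ * Real.exp (1 / ε ^ 2) * (9 * C * N w + ε ^ 2 * N w * (3 * C))) *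
        ((N x) ^ (-1 : ℝ) * Real.exp (-(1 / (2 * ε ^ 2)) * N x)) := by
  have hw := GauD_perp_le (w := w) hy
  have hw0 := N_nonneg (w - ip w y • y)
  have hNx := N_nonneg x
  have h1 := GauD_quad_bound (hb x) (w - ip w y • y)
  have h2 := GauD_trace_bound (hb x)
  have hCN : 0 ≤ C / N x := div_nonneg hC hNx
  have h3 : ‖quad (A x) (w - ip w y • y) +
      ((ε ^ 2 * N (w - ip w y • y) : ℝ) : ℂ) * (A x).trace‖
      ≤ (9 * C * N w + ε ^ 2 * N w * (3 * C)) * (N x) ^ (-1 : ℝ) := by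
    refine (norm_add_le _ _).trans ?_
    rw [norm_mul, Complex.norm_real, Real.norm_of_nonneg (by positivity), Real.rpow_neg_one]
    have h4 : 9 * (C / N x) * N (w - ip w y • y) ≤ 9 * (C / N x) * N w :=
      mul_le_mul_of_nonneg_left hw (by positivity)
    have h5 : ε ^ 2 * N (w - ip w y • y) * ‖(A x).trace‖ ≤ ε ^ 2 * N w * (3 * (C / N x)) := by
      apply mul_le_mul _ h2 (norm_nonneg _) (mul_nonneg (by positivity) (hw0.trans hw))
      exact mul_le_mul_of_nonneg_left hw (by positivity)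
    calc _ ≤ 9 * (C / N x) * N w + ε ^ 2 * N w * (3 * (C / N x)) := add_le_add (h1.trans h4) h5
      _ = (9 * C * N w + ε ^ 2 * N w * (3 * C)) * (N x)⁻¹ := by
        rw [div_eq_mul_inv]; ring
  have h6 : gs ε (x - y) ≤ ((Real.pi * ε ^ 2) ^ 3)⁻¹ * Real.exp (1 / ε ^ 2) *
      Real.exp (-(1 / (2 * ε ^ 2)) * N x) := by
    unfold gs
    rw [mul_assoc, ← Real.exp_add]
    have hpi := Real.pi_pos
    refine mul_le_mul_of_nonneg_left (Real.exp_le_exp.2 ?_) (by positivity)
    have h7 := GauD_N_sub' x y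
    rw [hy] at h7
    have h8 : 1 / ε ^ 2 + -(1 / (2 * ε ^ 2)) * N x = -(N x / 2 - 1) / ε ^ 2 := by
      field_simp
      ring
    rw [h8]
    gcongr
  have h9 : 0 ≤ (9 * C * N w + ε ^ 2 * N w * (3 * C)) * (N x) ^ (-1 : ℝ) :=
    (norm_nonneg _).trans h3
  unfold GauD_F
  rw [norm_mul, Complex.norm_real, Real.norm_of_nonneg (GauD_gs_nonneg ε _)]
  calc _ ≤ (((Real.pi * ε ^ 2) ^ 3)⁻¹ * Real.exp (1 / ε ^ 2) *
        Real.exp (-(1 / (2 * ε ^ 2)) * N x)) *
        ((9 * C * N w + ε ^ 2 * N w * (3 * C)) * (N x) ^ (-1 : ℝ)) :=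
        mul_le_mul h6 h3 (norm_nonneg _) ((GauD_gs_nonneg ε _).trans h6)
    _ = _ := by ring

theorem GauD_quad_cont {A : V → M3} (hA : IsForm A) {ε : ℝ} (hε : 0 < ε) (w : V) :
    ContinuousOn (fun y => quad (av ε A y) w) {y : V | N y = 1} := by
  obtain ⟨C, hC, hb⟩ := GauD_bound hA
  have h1 : ContinuousOn (fun y => ∫ x, GauD_F A ε w y x) {y : V | N y = 1} := by
    refine continuousOn_of_dominated (bound := fun x =>
      (((Real.pi * ε ^ 2) ^ 3)⁻¹ * Real.exp (1 / ε ^ 2) * (9 * C * N w + ε ^ 2 * N w * (3 * C))) *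
        ((N x) ^ (-1 : ℝ) * Real.exp (-(1 / (2 * ε ^ 2)) * N x))) ?_ ?_ ?_ ?_
    · intro y _
      exact (GauD_F_meas hA ε w y).aestronglyMeasurable
    · intro y hy
      exact Filter.Eventually.of_forall fun x => GauD_F_bound hC hb hε w hy x
    · exact (integrable_N_rpow (by norm_num) (by positivity)).const_mul _
    · exact Filter.Eventually.of_forall fun x => (GauD_F_cont A ε w x).continuousOn
  refine h1.congr fun y hy => ?_
  exact quad_av' hA hε hy w

theorem GauD_av_cont_sphere {A : V → M3} (hA : IsForm A) {ε : ℝ} (hε : 0 < ε) (j k : Fin 3) :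
    ContinuousOn (fun y => av ε A y j k) {y : V | N y = 1} := by
  have h1 : (fun y => av ε A y j k) = fun y => (1 / 4 : ℂ) *
      (quad (av ε A y) (Pi.single j 1 + Pi.single k 1) - quad (av ε A y) (Pi.single j 1 - Pi.single k 1)
      + Complex.I * quad (av ε A y) (Pi.single j 1 + Complex.I • Pi.single k 1)
      - Complex.I * quad (av ε A y) (Pi.single j 1 - Complex.I • Pi.single k 1)) :=
    funext fun y => polar (av ε A y) j k
  rw [h1]
  have hc := fun w => GauD_quad_cont hA hε w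
  exact continuousOn_const.mul ((((hc _).sub (hc _)).add (continuousOn_const.mul (hc _))).sub
    (continuousOn_const.mul (hc _)))

theorem GauD_hat {y : V} (hy : y ≠ 0) :
    N ((((Real.sqrt (N y))⁻¹ : ℝ) : ℂ) • y) = 1 := by
  have hN := N_pos hy
  rw [N_smul, Complex.normSq_ofReal, ← mul_inv, Real.mul_self_sqrt hN.le]
  exact inv_mul_cancel₀ hN.ne'

theorem GauD_normSq_inv {y : V} (hy : y ≠ 0) :
    ((Complex.normSq ((((Real.sqrt (N y))⁻¹ : ℝ) : ℂ)) : ℂ))⁻¹ = (N y : ℂ) := by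
  have hN := N_pos hy
  rw [Complex.normSq_ofReal, ← mul_inv, Real.mul_self_sqrt hN.le]
  push_cast
  rw [inv_inv]

theorem GauD_scale {B : V → M3}
    (hom : ∀ (l : ℂ) (x : V), l ≠ 0 → B (l • x) = ((Complex.normSq l : ℂ))⁻¹ • B x) {y : V}
    (hy : y ≠ 0) (j k : Fin 3) :
    B y j k = ((N y : ℂ))⁻¹ * B ((((Real.sqrt (N y))⁻¹ : ℝ) : ℂ) • y) j k := by
  have hN := N_pos hy
  have hl : (((Real.sqrt (N y))⁻¹ : ℝ) : ℂ) ≠ 0 := by
    have h1 : 0 < (Real.sqrt (N y))⁻¹ := inv_pos.2 (Real.sqrt_pos.2 hN)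
    exact_mod_cast h1.ne'
  rw [hom _ y hl, GauD_normSq_inv hy, Matrix.smul_apply, smul_eq_mul, ← mul_assoc,
    inv_mul_cancel₀ (by exact_mod_cast hN.ne'), one_mul]

theorem form_av {A : V → M3} (hA : IsForm A) {ε : ℝ} (hε : 0 < ε) : IsForm (av ε A) where
  cont := by
    refine continuousOn_pi.2 fun j => continuousOn_pi.2 fun k => ?_
    have h1 : ContinuousOn (fun y : V => ((N y : ℂ))⁻¹ *
        av ε A ((((Real.sqrt (N y))⁻¹ : ℝ) : ℂ) • y) j k) {0}ᶜ := by
      refine ContinuousOn.mul ?_ ?_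
      · refine ContinuousOn.inv₀ (Complex.continuous_ofReal.comp continuous_N).continuousOn ?_
        intro y hy
        exact_mod_cast (N_pos hy).ne'
      · refine (GauD_av_cont_sphere hA hε j k).comp ?_ ?_
        · have h2 : ContinuousOn (fun y : V => (Real.sqrt (N y))⁻¹) {0}ᶜ := by
            refine ContinuousOn.inv₀ (Real.continuous_sqrt.comp continuous_N).continuousOn ?_
            intro y hy
            exact (Real.sqrt_pos.2 (N_pos hy)).ne'
          have h3 : ContinuousOn (fun y : V => (((Real.sqrt (N y))⁻¹ : ℝ) : ℂ)) {0}ᶜ :=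
            Complex.continuous_ofReal.comp_continuousOn h2
          exact h3.smul continuousOn_id
        · intro y hy
          exact GauD_hat hy
    refine h1.congr fun y hy => ?_
    exact GauD_scale (av_hom hA hε) hy j k
  hom := av_hom hA hε
  killl := fun y hy k => av_killl hA hε hy k
  killr := fun y hy j => av_killr hA hε hy j

theorem GauD_gs_small {ε : ℝ} (hε : 0 < ε) {z : V} (hz : 1 / 4 ≤ N z) : gs ε z ≤ 384 := by
  unfold gs
  obtain ⟨t, ht⟩ : ∃ t : ℝ, t = 1 / (4 * ε ^ 2) := ⟨_, rfl⟩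
  have ht0 : 0 < t := by rw [ht]; positivity
  have hpi : 1 ≤ Real.pi := by have := Real.pi_gt_three; linarith
  have h1 : ((Real.pi * ε ^ 2) ^ 3)⁻¹ ≤ ((1 * ε ^ 2) ^ 3)⁻¹ := by gcongr
  have h2 : ((1 * ε ^ 2) ^ 3)⁻¹ = 64 * t ^ 3 := by
    rw [ht]; field_simp; norm_num
  have h3 : -N z / ε ^ 2 ≤ -t := by
    have : -t = -(1 / 4) / ε ^ 2 := by rw [ht]; field_simp
    rw [this]
    gcongr
  have h4 : t ^ 3 / 6 ≤ Real.exp t := by
    have := Real.pow_div_factorial_le_exp t ht0.le 3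
    have h5 : ((Nat.factorial 3 : ℕ) : ℝ) = 6 := by norm_num [Nat.factorial]
    rw [h5] at this
    exact this
  calc ((Real.pi * ε ^ 2) ^ 3)⁻¹ * Real.exp (-N z / ε ^ 2) ≤ (64 * t ^ 3) * Real.exp (-t) := by
        rw [← h2]
        exact mul_le_mul h1 (Real.exp_le_exp.2 h3) (Real.exp_pos _).le (by positivity)
    _ ≤ (64 * (6 * Real.exp t)) * Real.exp (-t) := by
        refine mul_le_mul_of_nonneg_right ?_ (Real.exp_pos _).le
        linarith
    _ = 384 := by
        rw [mul_assoc, mul_assoc, ← Real.exp_add, add_neg_cancel, Real.exp_zero]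
        norm_num

theorem gs_div_bdd : ∃ C : ℝ, 0 < C ∧ ∀ (ε : ℝ) (y : V), 0 < ε → ε ≤ 2 → N y = 1 →
    ∫ x : V, gs ε (x - y) / N x ≤ C := by
  have hI : Integrable (fun x : V => (N x) ^ (-1 : ℝ) * Real.exp (-1 * N x)) :=
    integrable_N_rpow (by norm_num) (by norm_num)
  have hI0 : 0 ≤ ∫ x : V, (N x) ^ (-1 : ℝ) * Real.exp (-1 * N x) := by
    refine integral_nonneg fun x => ?_
    exact mul_nonneg (Real.rpow_nonneg (N_nonneg x) _) (Real.exp_pos _).le
  refine ⟨4 + 768 * ∫ x : V, (N x) ^ (-1 : ℝ) * Real.exp (-1 * N x), by linarith, ?_⟩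
  intro ε y hε _ hy
  have hpt : ∀ x : V, gs ε (x - y) / N x ≤
      4 * gs ε (x - y) + 768 * ((N x) ^ (-1 : ℝ) * Real.exp (-1 * N x)) := by
    intro x
    have hg := GauD_gs_nonneg ε (x - y)
    have h0 : 0 ≤ (N x) ^ (-1 : ℝ) * Real.exp (-1 * N x) :=
      mul_nonneg (Real.rpow_nonneg (N_nonneg x) _) (Real.exp_pos _).le
    rcases le_or_gt (1 / 4) (N x) with h | h
    · have h1 : gs ε (x - y) / N x ≤ gs ε (x - y) / (1 / 4) := by gcongr
      linarith
    · rcases eq_or_lt_of_le (N_nonneg x) with h2 | h2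
      · rw [← h2, div_zero]
        rw [← h2] at h0
        linarith
      · have h3 := GauD_N_sub x y
        rw [hy] at h3
        have h4 := GauD_gs_small (ε := ε) hε (z := x - y) (by linarith)
        have h5 : 1 / 2 ≤ Real.exp (-1 * N x) := by
          have := Real.add_one_le_exp (-1 * N x)
          linarith
        rw [Real.rpow_neg_one]
        have h6 : gs ε (x - y) / N x ≤ 384 * (N x)⁻¹ := by
          rw [div_eq_mul_inv]
          exact mul_le_mul_of_nonneg_right h4 (inv_nonneg.2 h2.le)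
        have h7 : 0 < (N x)⁻¹ := inv_pos.2 h2
        nlinarith
  calc ∫ x : V, gs ε (x - y) / N x
      ≤ ∫ x : V, (4 * gs ε (x - y) + 768 * ((N x) ^ (-1 : ℝ) * Real.exp (-1 * N x))) :=
        integral_mono (gs_div_int hε y) (((GauD_gs_integrable hε y).const_mul 4).add
          (hI.const_mul 768)) hpt
    _ = 4 + 768 * ∫ x : V, (N x) ^ (-1 : ℝ) * Real.exp (-1 * N x) := by
        rw [integral_add ((GauD_gs_integrable hε y).const_mul 4) (hI.const_mul 768),
          integral_const_mul, integral_const_mul, GauD_gs_one hε y, mul_one]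

theorem GauD_unif {A : V → M3} (hA : IsForm A) {κ : ℝ} (hκ : 0 < κ) :
    ∃ r : ℝ, 0 < r ∧ ∀ y x : V, N y = 1 → N (x - y) < r → ∀ j k, ‖A x j k - A y j k‖ ≤ κ := by
  have hK : IsCompact {x : V | 1 / 4 ≤ N x ∧ N x ≤ 4} := by
    refine Metric.isCompact_of_isClosed_isBounded ?_ ?_
    · exact (isClosed_le continuous_const continuous_N).inter
        (isClosed_le continuous_N continuous_const)
    · refine (Metric.isBounded_closedBall (x := (0 : V)) (r := 2)).subset ?_
      rintro x ⟨-, hx⟩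
      rw [mem_closedBall_zero_iff]
      have h1 := norm_sq_le_N x
      nlinarith [norm_nonneg x]
  obtain ⟨f, hf⟩ : ∃ f : V → Fin 3 → Fin 3 → ℂ, f = fun x j k => A x j k := ⟨_, rfl⟩
  have hfc : ContinuousOn f {x : V | 1 / 4 ≤ N x ∧ N x ≤ 4} := by
    rw [hf]
    refine continuousOn_pi.2 fun j => continuousOn_pi.2 fun k => ?_
    have h1 := continuousOn_pi.1 (continuousOn_pi.1 hA.cont j) k
    refine h1.mono ?_
    rintro x ⟨hx, -⟩ h0
    rw [Set.mem_singleton_iff] at h0
    rw [h0] at hx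
    have h2 : N (0 : V) = 0 := by simp [N]
    rw [h2] at hx
    norm_num at hx
  have hu := hK.uniformContinuousOn_of_continuous hfc
  rw [Metric.uniformContinuousOn_iff] at hu
  obtain ⟨ρ, hρ, hρ2⟩ := hu κ hκ
  refine ⟨min (ρ ^ 2) (1 / 8), by positivity, ?_⟩
  intro y x hy hxy j k
  have h1 : N (x - y) < ρ ^ 2 := lt_of_lt_of_le hxy (min_le_left _ _)
  have h2 : N (x - y) < 1 / 8 := lt_of_lt_of_le hxy (min_le_right _ _)
  have h3 := GauD_N_sub x y
  have h4 := GauD_N_sub' x y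
  rw [hy] at h3 h4
  have h5 : ‖x - y‖ < ρ := by
    have := norm_sq_le_N (x - y)
    exact lt_of_pow_lt_pow_left₀ 2 hρ.le (lt_of_le_of_lt this h1)
  have h6 := hρ2 x ⟨by linarith, by linarith⟩ y ⟨by rw [hy]; norm_num, by rw [hy]; norm_num⟩
    (by rw [dist_eq_norm]; exact h5)
  have h7 : dist (f x j k) (f y j k) ≤ dist (f x) (f y) :=
    (dist_le_pi_dist (f x j) (f y j) k).trans (dist_le_pi_dist (f x) (f y) j)
  rw [dist_eq_norm, hf] at h7
  rw [hf] at h6
  exact h7.trans h6.le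

theorem GauD_gs_tail {ε r : ℝ} (hε : 0 < ε) {z : V} (hz : r ≤ N z) :
    gs ε z ≤ 8 * Real.exp (-r / (2 * ε ^ 2)) * gs (Real.sqrt 2 * ε) z := by
  unfold gs
  have h2 : (Real.sqrt 2 * ε) ^ 2 = 2 * ε ^ 2 := by
    rw [mul_pow, Real.sq_sqrt (by norm_num)]
  rw [h2]
  have hpi := Real.pi_pos
  have h3 : ((Real.pi * (2 * ε ^ 2)) ^ 3)⁻¹ = ((Real.pi * ε ^ 2) ^ 3)⁻¹ / 8 := by
    field_simp
    norm_num
  have h4 : Real.exp (-N z / ε ^ 2) ≤ Real.exp (-r / (2 * ε ^ 2)) * Real.exp (-N z / (2 * ε ^ 2)) := by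
    rw [← Real.exp_add]
    apply Real.exp_le_exp.2
    have h5 : -N z / ε ^ 2 = -N z / (2 * ε ^ 2) + -N z / (2 * ε ^ 2) := by
      field_simp
      ring
    rw [h5]
    have h6 : -N z / (2 * ε ^ 2) ≤ -r / (2 * ε ^ 2) := by gcongr
    linarith
  rw [h3]
  have h7 : 0 ≤ ((Real.pi * ε ^ 2) ^ 3)⁻¹ := by positivity
  calc ((Real.pi * ε ^ 2) ^ 3)⁻¹ * Real.exp (-N z / ε ^ 2)
      ≤ ((Real.pi * ε ^ 2) ^ 3)⁻¹ *
        (Real.exp (-r / (2 * ε ^ 2)) * Real.exp (-N z / (2 * ε ^ 2))) :=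
        mul_le_mul_of_nonneg_left h4 h7
    _ = _ := by ring

theorem GauD_F_int {A : V → M3} (hA : IsForm A) {ε : ℝ} (hε : 0 < ε) (w : V) {y : V}
    (hy : N y = 1) : Integrable (GauD_F A ε w y) := by
  obtain ⟨C, hC, hb⟩ := GauD_bound hA
  have h1 := (integrable_N_rpow (s := -1) (c := 1 / (2 * ε ^ 2)) (by norm_num)
    (by positivity)).const_mul
      (((Real.pi * ε ^ 2) ^ 3)⁻¹ * Real.exp (1 / ε ^ 2) * (9 * C * N w + ε ^ 2 * N w * (3 * C)))
  exact h1.mono' (GauD_F_meas hA ε w y).aestronglyMeasurable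
    (Filter.Eventually.of_forall fun x => GauD_F_bound hC hb hε w hy x)

theorem GauD_quad_sub (B B' : M3) (w : V) : quad (B - B') w = quad B w - quad B' w := by
  unfold quad
  rw [← Finset.sum_sub_distrib]
  refine Finset.sum_congr rfl fun j _ => ?_
  rw [← Finset.sum_sub_distrib]
  refine Finset.sum_congr rfl fun k _ => ?_
  rw [Matrix.sub_apply]
  ring

theorem GauD_diff {A : V → M3} (hA : IsForm A) {C C2 κ r ε : ℝ} (hC : 0 ≤ C)
    (hb : ∀ x : V, ∀ j k, ‖A x j k‖ ≤ C / N x) (hκ : 0 ≤ κ)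
    (hr2 : ∀ y x : V, N y = 1 → N (x - y) < r → ∀ j k, ‖A x j k - A y j k‖ ≤ κ)
    (hC2 : ∀ (ε : ℝ) (y : V), 0 < ε → ε ≤ 2 → N y = 1 → ∫ x : V, gs ε (x - y) / N x ≤ C2)
    (hε : 0 < ε) (hε1 : ε ≤ 1) {y w : V} (hy : N y = 1) (hw : N w ≤ 4) :
    ‖quad (av ε A y) w - quad (A y) w‖ ≤ 36 * κ + 12 * C * ε ^ 2 * C2 +
      288 * C * Real.exp (-r / (2 * ε ^ 2)) * (C2 + 1) := by
  have hy0 : y ≠ 0 := by
    rintro rfl
    have h0 : N (0 : V) = 0 := by simp [N]
    rw [h0] at hy
    exact zero_ne_one hy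
  have hs2 : 0 < Real.sqrt 2 * ε := by positivity
  have hs3 : Real.sqrt 2 * ε ≤ 2 := by
    have h1 : Real.sqrt 2 ≤ 2 := by
      rw [Real.sqrt_le_left (by norm_num)]; norm_num
    nlinarith [Real.sqrt_nonneg 2]
  have hwle : N (w - ip w y • y) ≤ 4 := (GauD_perp_le hy).trans hw
  have hw0 := N_nonneg (w - ip w y • y)
  -- constant term as an integral
  have hgc : Integrable (fun x : V => (gs ε (x - y) : ℂ) * quad (A y) (w - ip w y • y)) :=
    (GauD_gs_integrable hε y).ofReal.mul_const _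
  have h1 : quad (A y) w = ∫ x : V, (gs ε (x - y) : ℂ) * quad (A y) (w - ip w y • y) := by
    rw [integral_mul_const, integral_complex_ofReal, GauD_gs_one hε y, quad_perp hA hy0]
    push_cast
    ring
  have h2 : quad (av ε A y) w - quad (A y) w
      = ∫ x : V, (GauD_F A ε w y x - (gs ε (x - y) : ℂ) * quad (A y) (w - ip w y • y)) := by
    rw [integral_sub (GauD_F_int hA hε w hy) hgc, ← h1]
    congr 1
    exact quad_av' hA hε hy w
  rw [h2]
  have hgi := GauD_gs_integrable hε y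
  have hgi2 := GauD_gs_integrable hs2 y
  have hdi := gs_div_int hε y
  have hdi2 := gs_div_int hs2 y
  have hB1 : Integrable (fun x : V => 36 * κ * gs ε (x - y) +
      12 * C * ε ^ 2 * (gs ε (x - y) / N x)) := (hgi.const_mul _).add (hdi.const_mul _)
  have hB3 : Integrable (fun x : V =>
        gs (Real.sqrt 2 * ε) (x - y) / N x + gs (Real.sqrt 2 * ε) (x - y)) := hdi2.add hgi2
  have hB2 : Integrable (fun x : V => 288 * C * Real.exp (-r / (2 * ε ^ 2)) *
        (gs (Real.sqrt 2 * ε) (x - y) / N x + gs (Real.sqrt 2 * ε) (x - y))) :=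
    hB3.const_mul _
  have hB : Integrable (fun x : V => 36 * κ * gs ε (x - y) + 12 * C * ε ^ 2 * (gs ε (x - y) / N x)
      + 288 * C * Real.exp (-r / (2 * ε ^ 2)) *
        (gs (Real.sqrt 2 * ε) (x - y) / N x + gs (Real.sqrt 2 * ε) (x - y))) := hB1.add hB2
  refine (norm_integral_le_of_norm_le hB (Filter.Eventually.of_forall fun x => ?_)).trans ?_
  · -- pointwise bound
    have hg0 := GauD_gs_nonneg ε (x - y)
    have hg20 := GauD_gs_nonneg (Real.sqrt 2 * ε) (x - y)
    have hNx := N_nonneg x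
    have hCN : 0 ≤ C / N x := div_nonneg hC hNx
    have e1 : GauD_F A ε w y x - (gs ε (x - y) : ℂ) * quad (A y) (w - ip w y • y)
        = (gs ε (x - y) : ℂ) * (quad (A x - A y) (w - ip w y • y) +
          ((ε ^ 2 * N (w - ip w y • y) : ℝ) : ℂ) * (A x).trace) := by
      rw [GauD_quad_sub]
      unfold GauD_F
      ring
    rw [e1, norm_mul, Complex.norm_real, Real.norm_of_nonneg hg0]
    have e2 : ‖((ε ^ 2 * N (w - ip w y • y) : ℝ) : ℂ) * (A x).trace‖ ≤ 12 * C * ε ^ 2 * (1 / N x) := by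
      rw [norm_mul, Complex.norm_real, Real.norm_of_nonneg (by positivity)]
      have h3 := GauD_trace_bound (hb x)
      calc ε ^ 2 * N (w - ip w y • y) * ‖(A x).trace‖ ≤ (ε ^ 2 * 4) * (3 * (C / N x)) := by
            apply mul_le_mul _ h3 (norm_nonneg _) (by positivity)
            exact mul_le_mul_of_nonneg_left hwle (by positivity)
        _ = 12 * C * ε ^ 2 * (1 / N x) := by ring
    have e3 : gs ε (x - y) * ‖quad (A x - A y) (w - ip w y • y)‖ ≤ 36 * κ * gs ε (x - y) +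
        288 * C * Real.exp (-r / (2 * ε ^ 2)) *
        (gs (Real.sqrt 2 * ε) (x - y) / N x + gs (Real.sqrt 2 * ε) (x - y)) := by
      have hE := Real.exp_pos (-r / (2 * ε ^ 2))
      have hlast : 0 ≤ 288 * C * Real.exp (-r / (2 * ε ^ 2)) *
          (gs (Real.sqrt 2 * ε) (x - y) / N x + gs (Real.sqrt 2 * ε) (x - y)) := by positivity
      rcases lt_or_ge (N (x - y)) r with h | h
      · have h4 : ∀ j k, ‖(A x - A y) j k‖ ≤ κ := fun j k => by
          rw [Matrix.sub_apply]; exact hr2 y x hy h j k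
        have h5 := GauD_quad_bound h4 (w - ip w y • y)
        have h6 : 9 * κ * N (w - ip w y • y) ≤ 9 * κ * 4 :=
          mul_le_mul_of_nonneg_left hwle (by positivity)
        have h7 := mul_le_mul_of_nonneg_left (h5.trans h6) hg0
        linarith
      · have h4 : ∀ j k, ‖(A x - A y) j k‖ ≤ C / N x + C := fun j k => by
          rw [Matrix.sub_apply]
          refine (norm_sub_le _ _).trans ?_
          have h8 := hb y j k
          rw [hy, div_one] at h8
          exact add_le_add (hb x j k) h8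
        have h5 := GauD_quad_bound h4 (w - ip w y • y)
        have h6 : 9 * (C / N x + C) * N (w - ip w y • y) ≤ 9 * (C / N x + C) * 4 :=
          mul_le_mul_of_nonneg_left hwle (by positivity)
        have h7 := GauD_gs_tail (ε := ε) hε h
        have h9 : 0 ≤ 36 * κ * gs ε (x - y) := by positivity
        calc gs ε (x - y) * ‖quad (A x - A y) (w - ip w y • y)‖
            ≤ (8 * Real.exp (-r / (2 * ε ^ 2)) * gs (Real.sqrt 2 * ε) (x - y)) *
              (9 * (C / N x + C) * 4) :=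
              mul_le_mul h7 (h5.trans h6) (norm_nonneg _) (by positivity)
          _ = 288 * C * Real.exp (-r / (2 * ε ^ 2)) *
              (gs (Real.sqrt 2 * ε) (x - y) / N x + gs (Real.sqrt 2 * ε) (x - y)) := by ring
          _ ≤ _ := by linarith
    calc gs ε (x - y) * ‖quad (A x - A y) (w - ip w y • y) +
          ((ε ^ 2 * N (w - ip w y • y) : ℝ) : ℂ) * (A x).trace‖
        ≤ gs ε (x - y) * (‖quad (A x - A y) (w - ip w y • y)‖ + 12 * C * ε ^ 2 * (1 / N x)) :=
          mul_le_mul_of_nonneg_left ((norm_add_le _ _).trans (add_le_add le_rfl e2)) hg0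
      _ = gs ε (x - y) * ‖quad (A x - A y) (w - ip w y • y)‖ +
          12 * C * ε ^ 2 * (gs ε (x - y) / N x) := by ring
      _ ≤ _ := by linarith
  · rw [integral_add hB1 hB2,
      integral_add (hgi.const_mul _) (hdi.const_mul _), integral_const_mul, integral_const_mul,
      integral_const_mul, integral_add hdi2 hgi2, GauD_gs_one hε y, GauD_gs_one hs2 y, mul_one]
    have h3 := hC2 ε y hε (by linarith) hy
    have h4 := hC2 _ y hs2 hs3 hy
    have hE := Real.exp_pos (-r / (2 * ε ^ 2))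
    have h5 : 12 * C * ε ^ 2 * ∫ x : V, gs ε (x - y) / N x ≤ 12 * C * ε ^ 2 * C2 :=
      mul_le_mul_of_nonneg_left h3 (by positivity)
    have h6 : 288 * C * Real.exp (-r / (2 * ε ^ 2)) *
        ((∫ x : V, gs (Real.sqrt 2 * ε) (x - y) / N x) + 1) ≤
        288 * C * Real.exp (-r / (2 * ε ^ 2)) * (C2 + 1) :=
      mul_le_mul_of_nonneg_left (by linarith) (by positivity)
    linarith

theorem GauD_lim (C C2 r : ℝ) (hr : 0 < r) {δ : ℝ} (hδ : 0 < δ) :
    ∃ ε0 : ℝ, 0 < ε0 ∧ ε0 ≤ 1 ∧ ∀ ε : ℝ, 0 < ε → ε < ε0 →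
      12 * C * ε ^ 2 * C2 + 288 * C * Real.exp (-r / (2 * ε ^ 2)) * (C2 + 1) ≤ δ := by
  have h1 : Filter.Tendsto (fun ε : ℝ => 12 * C * ε ^ 2 * C2) (nhdsWithin 0 (Set.Ioi 0)) (nhds 0) := by
    have : Continuous (fun ε : ℝ => 12 * C * ε ^ 2 * C2) := by fun_prop
    have h2 := this.tendsto 0
    simp only [ne_eq, OfNat.ofNat_ne_zero, not_false_eq_true, zero_pow, mul_zero, zero_mul] at h2
    exact h2.mono_left nhdsWithin_le_nhds
  have h3 : Filter.Tendsto (fun ε : ℝ => 288 * C * Real.exp (-r / (2 * ε ^ 2)) * (C2 + 1))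
      (nhdsWithin 0 (Set.Ioi 0)) (nhds 0) := by
    have h4 : Filter.Tendsto (fun ε : ℝ => Real.exp (-r / (2 * ε ^ 2))) (nhdsWithin 0 (Set.Ioi 0))
        (nhds 0) := by
      refine Real.tendsto_exp_atBot.comp ?_
      have h5 : Filter.Tendsto (fun ε : ℝ => ε⁻¹) (nhdsWithin 0 (Set.Ioi 0)) Filter.atTop :=
        tendsto_inv_nhdsGT_zero
      have h6 : Filter.Tendsto (fun ε : ℝ => (-(r / 2)) * (ε⁻¹ * ε⁻¹)) (nhdsWithin 0 (Set.Ioi 0))
          Filter.atBot := by
        refine (Filter.Tendsto.const_mul_atTop_of_neg (by linarith) ?_)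
        exact h5.atTop_mul_atTop₀ h5
      refine h6.congr fun ε => ?_
      rw [div_eq_mul_inv (-r), mul_inv, sq, mul_inv]
      ring
    have h7 := (h4.const_mul (288 * C)).mul_const (C2 + 1)
    simpa using h7
  have h8 := h1.add h3
  rw [add_zero] at h8
  have h9 : ∀ᶠ ε in nhdsWithin (0 : ℝ) (Set.Ioi 0),
      12 * C * ε ^ 2 * C2 + 288 * C * Real.exp (-r / (2 * ε ^ 2)) * (C2 + 1) < δ :=
    h8.eventually_lt_const hδ
  rw [Filter.Eventually, mem_nhdsGT_iff_exists_Ioo_subset] at h9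
  obtain ⟨u, hu, hsub⟩ := h9
  refine ⟨min u 1, lt_min hu one_pos, min_le_right _ _, ?_⟩
  intro ε hε hε2
  exact (hsub ⟨hε, lt_of_lt_of_le hε2 (min_le_left _ _)⟩).le

theorem GauD_N_single (j k : Fin 3) (c : ℂ) (hc : Complex.normSq c = 1) :
    N (Pi.single j 1 + c • Pi.single k 1) ≤ 4 := by
  refine (GauD_N_add _ _).trans ?_
  have h1 : ∀ i : Fin 3, N (Pi.single i (1 : ℂ)) = 1 := by
    intro i
    unfold N
    rw [Finset.sum_eq_single i]
    · rw [Pi.single_eq_same, map_one]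
    · intro l _ hl
      rw [Pi.single_eq_of_ne hl, map_zero]
    · intro h
      exact absurd (Finset.mem_univ i) h
  rw [N_smul, h1, h1, hc]
  norm_num

theorem av_conv {A : V → M3} (hA : IsForm A) {δ : ℝ} (hδ : 0 < δ) :
    ∃ ε0 : ℝ, 0 < ε0 ∧ ∀ ε : ℝ, 0 < ε → ε < ε0 → ∀ y : V, y ≠ 0 → ∀ j k,
      ‖av ε A y j k - A y j k‖ ≤ δ / N y := by
  obtain ⟨C, hC, hb⟩ := GauD_bound hA
  obtain ⟨C2, -, hC2⟩ := gs_div_bdd
  obtain ⟨r, hr, hr2⟩ := GauD_unif hA (κ := δ / 72) (by positivity)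
  obtain ⟨ε0, hε0, hε01, hlim⟩ := GauD_lim C C2 r hr (δ := δ / 2) (by positivity)
  refine ⟨ε0, hε0, ?_⟩
  intro ε hε hε2 y hy j k
  have hunit : ∀ z : V, N z = 1 → ‖av ε A z j k - A z j k‖ ≤ δ := by
    intro z hz
    have hq : ∀ w : V, N w ≤ 4 → ‖quad (av ε A z) w - quad (A z) w‖ ≤ δ := by
      intro w hw
      have h1 := GauD_diff hA hC hb (κ := δ / 72) (by positivity) hr2 hC2 hε (by linarith) hz hw
      have h2 := hlim ε hε hε2
      linarith
    have hn1 : N (Pi.single j 1 + Pi.single k 1) ≤ 4 := by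
      have := GauD_N_single j k 1 (by rw [map_one])
      rwa [one_smul] at this
    have hn2 : N (Pi.single j 1 - Pi.single k 1) ≤ 4 := by
      have := GauD_N_single j k (-1) (by rw [Complex.normSq_neg, map_one])
      rwa [neg_smul, one_smul, ← sub_eq_add_neg] at this
    have hn3 : N (Pi.single j 1 + Complex.I • Pi.single k 1) ≤ 4 :=
      GauD_N_single j k Complex.I Complex.normSq_I
    have hn4 : N (Pi.single j 1 - Complex.I • Pi.single k 1) ≤ 4 := by
      have := GauD_N_single j k (-Complex.I) (by rw [Complex.normSq_neg, Complex.normSq_I])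
      rwa [neg_smul, ← sub_eq_add_neg] at this
    have e := polar (av ε A z) j k
    have e' := polar (A z) j k
    rw [e, e']
    have hsplit : ∀ a b c d a' b' c' d' : ℂ, (1 / 4 : ℂ) * (a - b + Complex.I * c - Complex.I * d) -
        (1 / 4 : ℂ) * (a' - b' + Complex.I * c' - Complex.I * d')
        = (1 / 4 : ℂ) * ((a - a') - (b - b') + Complex.I * (c - c') - Complex.I * (d - d')) := by
      intro a b c d a' b' c' d'
      ring
    rw [hsplit, norm_mul]
    have h4 : ‖(1 / 4 : ℂ)‖ = 1 / 4 := by norm_num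
    rw [h4]
    have h5 := hq _ hn1
    have h6 := hq _ hn2
    have h7 := hq _ hn3
    have h8 := hq _ hn4
    have hnorm : ∀ a b c d : ℂ, ‖a‖ ≤ δ → ‖b‖ ≤ δ → ‖c‖ ≤ δ → ‖d‖ ≤ δ →
        ‖a - b + Complex.I * c - Complex.I * d‖ ≤ 4 * δ := by
      intro a b c d ha hb hc hd
      have h9 : ‖Complex.I * c‖ ≤ δ := by rw [norm_mul, Complex.norm_I, one_mul]; exact hc
      have h10 : ‖Complex.I * d‖ ≤ δ := by rw [norm_mul, Complex.norm_I, one_mul]; exact hd
      calc _ ≤ ‖a - b + Complex.I * c‖ + ‖Complex.I * d‖ := norm_sub_le _ _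
        _ ≤ (‖a - b‖ + ‖Complex.I * c‖) + ‖Complex.I * d‖ := by
          gcongr; exact norm_add_le _ _
        _ ≤ ((‖a‖ + ‖b‖) + ‖Complex.I * c‖) + ‖Complex.I * d‖ := by
          gcongr; exact norm_sub_le _ _
        _ ≤ 4 * δ := by linarith
    have h9 := hnorm _ _ _ _ h5 h6 h7 h8
    linarith
  have hN := N_pos hy
  rw [GauD_scale (av_hom hA hε) hy j k, GauD_scale hA.hom hy j k, ← mul_sub, norm_mul, norm_inv,
    Complex.norm_real, Real.norm_of_nonneg hN.le]
  have h1 := hunit _ (GauD_hat hy)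
  calc (N y)⁻¹ * _ ≤ (N y)⁻¹ * δ := mul_le_mul_of_nonneg_left h1 (inv_nonneg.2 hN.le)
    _ = δ / N y := by rw [div_eq_mul_inv, mul_comm]

end Pool.Agent.H85.DC

end S_H85_DC_GauD
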