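import Mathlib
import Pool.Agent.H24.M68.G02
import Pool.Agent.H24.M68.G06
import Pool.Agent.H24.M68.G08
import Pool.Agent.H24.M68.G09

/-! MP_6873ef_an: this file joins several modules to save build time. -/

section S_H85_DC_Hod

/-!
# Row Hod: Hodge index inequality

`hodge`. `E ∈ H0`, `f x = (N x) * ((E x).trace).re` is continuous off `0`, of degree `0` (`chom_Ntr`), and
`∫ f dν = ∫ (tr E) N^{-1} wt = qq Wm E = 0` (`integral_nuP`, `ee_Wm`, `E` Hermitian so the trace is real). Given `κ > 0`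
take `n` from `green_approx`, `u = green n f` (real conic, `isFun_green`: `f` bounded off `0`, continuous on the open set
`{0}ᶜ` so a.e. strongly measurable). `E_n = E - L u` is a Hermitian form, kills `x`, and `|tr E_n| ≤ κ / N x`.
`nn E E = nn E_n E_n` (`nn_sub_L`), `(ee E_n E_n).re ≤ (tr E_n)^2/2 ≤ κ^2/(2 N^2)` (`ee_le`), so
`nn E E ≥ -(κ^2/2) ∫ N^{-2} wt = -(κ^2/2)(π^3/2)` (`int_Nm2`) for all `κ > 0`. `decomp` states the decomposition (used later):
`X = L u + (X - L u)` with `|N tr (X - L u)| ≤ κ`.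
`nn_cs`: `t ↦ nn (A + t B) (A + t B) = nn A A + 2 t nn A B + t^2 nn B B ≥ 0` for all real `t`: discriminant
(`discrim_le_zero`).
`ta`: for `E ∈ H0`, `ζ` covector: `‖qq E (db ζ)‖^2 ≤ nn E E * (1/4) ∫ curl ζ wt`. For a phase `c` (`|c| = 1`) with
`c qq E (db ζ) = ‖…‖ real`: `cζ` is a covector, `db (cζ) = c db ζ`, `curl (cζ) = curl ζ` off `0`; apply `nn_cs` to `E`,
`Bz (cζ)` with `nn_Bz_left`, `nn_Bz`.
`hs_split`: for `E ∈ H0` (Hermitian form): `∫ hs E wt = nn E E + ∫ (tr E)^2 wt` (`ee_hs`).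
-/

open MeasureTheory
open scoped ContDiff BigOperators ComplexConjugate Matrix

namespace Pool.Agent.H85.DC

theorem Hod_ae_ne : ∀ᵐ x ∂(volume : Measure V), x ≠ 0 := by
  have h : (volume : Measure V) {(0 : V)} = 0 := measure_singleton _
  exact measure_eq_zero_iff_ae_notMem.mp h

theorem Hod_f_eq (E : V → M3) (y : V) :
    N y * ((E y).trace).re = ((N y : ℂ) * (E y).trace).re := by
  rw [Complex.re_ofReal_mul]

theorem Hod_cont {E : V → M3} (hE : IsForm E) :
    ContinuousOn (fun y => N y * ((E y).trace).re) {0}ᶜ := by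
  have h := (chom_Ntr hE).cont
  have h2 : (fun y => N y * ((E y).trace).re) =
      fun y => ((N y : ℂ) * (E y).trace).re := funext (Hod_f_eq E)
  rw [h2]
  exact Complex.continuous_re.comp_continuousOn h

theorem Hod_hom {E : V → M3} (hE : IsForm E) (l : ℂ) (x : V) (hl : l ≠ 0) :
    (fun y => N y * ((E y).trace).re) (l • x) = (fun y => N y * ((E y).trace).re) x := by
  have h := (chom_Ntr hE).hom l x hl
  simp only [Hod_f_eq]
  rw [h]
  simp

theorem Hod_meas {E : V → M3} (hE : IsForm E) :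
    AEStronglyMeasurable (fun y => N y * ((E y).trace).re) (volume : Measure V) := by
  have h1 : MeasurableSet ({0}ᶜ : Set V) := (measurableSet_singleton _).compl
  have h := (Hod_cont hE).aestronglyMeasurable (μ := (volume : Measure V)) h1
  have h2 : (volume : Measure V).restrict ({0}ᶜ : Set V) = volume :=
    Measure.restrict_eq_self_of_ae_mem (Hod_ae_ne.mono fun x hx => hx)
  rwa [h2] at h

theorem Hod_bdd {E : V → M3} (hE : IsForm E) :
    ∃ b : ℝ, ∀ y : V, y ≠ 0 → |N y * ((E y).trace).re| ≤ b := by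
  obtain ⟨C, hC, h⟩ := chom_bound (chom_Ntr hE)
  refine ⟨Real.sqrt C, fun y hy => ?_⟩
  have h1 := h y hy
  rw [add_zero, zpow_zero, mul_one] at h1
  rw [Hod_f_eq]
  exact (Complex.abs_re_le_norm _).trans (Real.le_sqrt_of_sq_le h1)

theorem Hod_re_int {A B : V → M3} (hA : IsForm A) (hB : IsForm B) :
    (qq A B).re = ∫ x, (ee (A x) (B x)).re * wt x := by
  unfold qq
  have h := integral_re (ee_int hA hB)
  have h2 : ∀ x, RCLike.re (ee (A x) (B x) * (wt x : ℂ)) = (ee (A x) (B x)).re * wt x := by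
    intro x
    show (ee (A x) (B x) * (wt x : ℂ)).re = _
    rw [Complex.re_mul_ofReal]
  simp only [h2] at h
  rw [h]
  rfl

theorem Hod_re_integrable {A B : V → M3} (hA : IsForm A) (hB : IsForm B) :
    Integrable (fun x => (ee (A x) (B x)).re * wt x) := by
  have h := (ee_int hA hB).re
  refine h.congr (Filter.Eventually.of_forall fun x => ?_)
  show (ee (A x) (B x) * (wt x : ℂ)).re = _
  rw [Complex.re_mul_ofReal]

theorem Hod_int_zero {E : V → M3} (hE : InH0 E) :
    ∫ y, N y * ((E y).trace).re ∂nuP = 0 := by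
  rw [integral_nuP]
  have h1 : (qq E Wm).re = 0 := by
    rw [qq_comm, hE.mass]
    rfl
  rw [Hod_re_int hE.form form_Wm] at h1
  rw [← h1]
  apply integral_congr_ae
  filter_upwards [Hod_ae_ne] with x hx
  have hN : N x ≠ 0 := (N_pos hx).ne'
  rw [ee_Wm hE.form hx, Complex.div_ofReal_re]
  field_simp

theorem decomp {E : V → M3} (hE : InH0 E) {κ : ℝ} (hκ : 0 < κ) :
    ∃ n : ℕ, ∀ x : V, x ≠ 0 →
      ‖(N x : ℂ) * (E x - L (green n (fun y => N y * ((E y).trace).re)) x).trace‖ ≤ κ := by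
  obtain ⟨n, hn⟩ := green_approx (Hod_cont hE.form) (Hod_hom hE.form) (Hod_int_zero hE) hκ
  refine ⟨n, fun x hx => ?_⟩
  have h := hn x hx
  have h2 : ((E x).trace).im = 0 := Lin_tr_im (hE.herm x hx)
  have h3 : (((E x).trace).re : ℂ) = (E x).trace := by
    apply Complex.ext
    · simp
    · simp [h2]
  have h4 : (N x : ℂ) * (E x - L (green n (fun y => N y * ((E y).trace).re)) x).trace =
      -((N x : ℂ) * (L (green n (fun y => N y * ((E y).trace).re)) x).trace -
        ((N x * ((E x).trace).re : ℝ) : ℂ)) := by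
    rw [Matrix.trace_sub]
    push_cast
    rw [h3]
    ring
  rw [h4, norm_neg]
  exact h

theorem green_E {E : V → M3} (hE : InH0 E) (n : ℕ) :
    IsFun (green n (fun y => N y * ((E y).trace).re)) ∧
      IsRe (green n (fun y => N y * ((E y).trace).re)) := by
  obtain ⟨b, hb⟩ := Hod_bdd hE.form
  exact ⟨isFun_green n (Hod_meas hE.form) hb, isRe_green n _⟩

theorem Hod_nn_ge {A : V → M3} (hA : IsForm A) (hh : IsHerm A) {κ : ℝ}
    (h : ∀ x : V, x ≠ 0 → ‖(N x : ℂ) * (A x).trace‖ ≤ κ) :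
    -(κ ^ 2 / 2 * (Real.pi ^ 3 / 2)) ≤ nn A A := by
  unfold nn
  rw [Hod_re_int hA hA]
  apply neg_le_neg
  rw [← int_Nm2, ← integral_const_mul]
  have h2 : Integrable fun x : V => κ ^ 2 / 2 * (N x ^ (-2 : ℤ) * wt x) := by
    refine Integrable.const_mul ?_ _
    refine NuA_dens_int.congr (Filter.Eventually.of_forall fun x => ?_)
    show wt x / N x ^ 2 = N x ^ (-2 : ℤ) * wt x
    rw [zpow_neg, div_eq_mul_inv, mul_comm]
    rfl
  refine integral_mono_ae (Hod_re_integrable hA hA) h2 ?_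
  filter_upwards [Hod_ae_ne] with x hx
  have hN : 0 < N x := N_pos hx
  have h3 := ee_le (hh x hx) hx (hA.killl x hx)
  have h4 := h x hx
  rw [norm_mul, Complex.norm_real, Real.norm_of_nonneg hN.le] at h4
  have h5 : |((A x).trace).re| ≤ ‖(A x).trace‖ := Complex.abs_re_le_norm _
  have h6 : N x * |((A x).trace).re| ≤ κ := (mul_le_mul_of_nonneg_left h5 hN.le).trans h4
  have h7 : ((A x).trace).re ^ 2 ≤ κ ^ 2 / N x ^ 2 := by
    rw [le_div_iff₀ (by positivity)]
    have h8 : (N x * |((A x).trace).re|) ^ 2 ≤ κ ^ 2 :=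
      pow_le_pow_left₀ (by positivity) h6 2
    rw [mul_pow, sq_abs] at h8
    linarith
  have hw : 0 ≤ wt x := (Real.exp_pos _).le
  have h9 : (ee (A x) (A x)).re ≤ κ ^ 2 / 2 * N x ^ (-2 : ℤ) := by
    have e : κ ^ 2 / 2 * N x ^ (-2 : ℤ) = κ ^ 2 / N x ^ 2 / 2 := by
      rw [zpow_neg]
      have : N x ^ (2 : ℤ) = N x ^ 2 := rfl
      rw [this]
      ring
    rw [e]
    linarith
  have h10 := mul_le_mul_of_nonneg_right h9 hw
  show (ee (A x) (A x)).re * wt x ≤ κ ^ 2 / 2 * (N x ^ (-2 : ℤ) * wt x)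
  linarith

theorem hodge {E : V → M3} (hE : InH0 E) : 0 ≤ nn E E := by
  refine le_of_forall_pos_le_add fun ε hε => ?_
  have hpi : 0 < Real.pi ^ 3 := by positivity
  have hκ : 0 < Real.sqrt (4 * ε / Real.pi ^ 3) := Real.sqrt_pos.mpr (by positivity)
  obtain ⟨n, hn⟩ := decomp hE hκ
  obtain ⟨hu, ru⟩ := green_E hE n
  have h1 := Hod_nn_ge (form_sub hE.form (form_L hu)) (herm_sub hE.herm (herm_L hu ru)) hn
  rw [nn_sub_L hE.toInH hu ru, Real.sq_sqrt (by positivity)] at h1
  have h2 : 4 * ε / Real.pi ^ 3 / 2 * (Real.pi ^ 3 / 2) = ε := by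
    field_simp
    ring
  rw [h2] at h1
  linarith

theorem nn_cs {A B : V → M3} (hA : InH0 A) (hB : InH0 B) :
    (nn A B) ^ 2 ≤ nn A A * nn B B := by
  have h : ∀ t : ℝ, 0 ≤ nn B B * (t * t) + (2 * nn A B) * t + nn A A := by
    intro t
    have hb := form_smul (t : ℂ) hB.form
    have hS := form_add hA.form hb
    have h0 := hodge (inH0_add hA (inH0_smul t hB))
    have e1 := nn_add_left hA.form hb hS
    have e2 := nn_add_left hA.form hb hA.form
    have e3 := nn_add_left hA.form hb hB.form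
    have e4 := nn_smul_left t B (fun x => A x + (t : ℂ) • B x)
    have e5 := nn_smul_left t B A
    have e6 := nn_smul_left t B B
    rw [nn_comm A (fun x => A x + (t : ℂ) • B x), e2, e4, nn_comm B (fun x => A x + (t : ℂ) • B x),
      e3, e5, e6, nn_comm B A] at e1
    rw [e1] at h0
    linarith
  have hd := discrim_le_zero h
  unfold discrim at hd
  nlinarith

theorem Hod_cov_smul (c : ℂ) {ζ : V → V} (hζ : IsCov ζ) : IsCov (fun x => c • ζ x) := by
  refine ⟨hζ.smooth.const_smul c, ?_, ?_⟩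
  · intro l x hl
    rw [hζ.hom l x hl, smul_comm]
  · intro x hx
    have h := hζ.kill x hx
    have h2 : ∀ j, x j * (c • ζ x) j = c * (x j * ζ x j) := by
      intro j
      rw [Pi.smul_apply, smul_eq_mul]
      ring
    simp only [h2, ← Finset.mul_sum, h, mul_zero]

theorem Hod_db_smul (c : ℂ) {ζ : V → V} (hζ : IsCov ζ) {x : V} (hx : x ≠ 0) :
    db (fun x => c • ζ x) x = c • db ζ x := by
  funext j k
  show dzb k (fun y => c * ζ y j) x = c * dzb k (fun y => ζ y j) x
  exact dzb_const_mul k c ((isCov_hom hζ j).diffAt hx)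

theorem Hod_curl_smul {c : ℂ} (hc : Complex.normSq c = 1) {ζ : V → V} (hζ : IsCov ζ) {x : V}
    (hx : x ≠ 0) : curl (fun x => c • ζ x) x = curl ζ x := by
  unfold curl
  refine Finset.sum_congr rfl fun j _ => Finset.sum_congr rfl fun k _ => ?_
  have h1 : dz k (fun y => (c • ζ y) j) x = c * dz k (fun y => ζ y j) x :=
    dz_const_mul k c ((isCov_hom hζ j).diffAt hx)
  have h2 : dz j (fun y => (c • ζ y) k) x = c * dz j (fun y => ζ y k) x :=
    dz_const_mul j c ((isCov_hom hζ k).diffAt hx)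
  rw [h1, h2, ← mul_sub, Complex.normSq_mul, hc, one_mul]

theorem Hod_phase (z : ℂ) : ∃ c : ℂ, Complex.normSq c = 1 ∧ c * z = (‖z‖ : ℂ) := by
  by_cases hz : z = 0
  · exact ⟨1, by simp, by simp [hz]⟩
  · have hn : (‖z‖ : ℂ) ≠ 0 := by
      exact_mod_cast (norm_pos_iff.mpr hz).ne'
    refine ⟨conj z / (‖z‖ : ℂ), ?_, ?_⟩
    · rw [Complex.normSq_div, Complex.normSq_conj, Complex.normSq_ofReal,
        Complex.normSq_eq_norm_sq, ← pow_two]
      have : ‖z‖ ≠ 0 := by exact_mod_cast hn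
      field_simp
    · rw [div_mul_eq_mul_div, Complex.conj_mul']
      field_simp

theorem ta {E : V → M3} (hE : InH0 E) {ζ : V → V} (hζ : IsCov ζ) :
    ‖qq E (db ζ)‖ ^ 2 ≤ nn E E * ((1 / 4) * ∫ x, curl ζ x * wt x) := by
  obtain ⟨c, hc, hz⟩ := Hod_phase (qq E (db ζ))
  have hcov := Hod_cov_smul c hζ
  have h1 := nn_cs hE (inH0_Bz hcov)
  rw [nn_Bz hcov, nn_Bz_left hE.form hE.herm hcov] at h1
  have h2 : qq E (db fun x => c • ζ x) = (‖qq E (db ζ)‖ : ℂ) := by
    rw [← hz, qq_congr (A := E) (A' := E) (B := db fun x => c • ζ x) (B' := fun x => c • db ζ x)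
      (fun _ _ => rfl) (fun x hx => Hod_db_smul c hζ hx), qq_comm, qq_smul_left, qq_comm]
  have h3 : ∫ x, curl (fun x => c • ζ x) x * wt x = ∫ x, curl ζ x * wt x := by
    apply integral_congr_ae
    filter_upwards [Hod_ae_ne] with x hx
    rw [Hod_curl_smul hc hζ hx]
  rw [h2, h3, Complex.ofReal_re, neg_sq] at h1
  exact h1

theorem hs_split {E : V → M3} (hE : IsForm E) (hh : IsHerm E) :
    ∫ x, hs (E x) * wt x = nn E E + ∫ x, ((E x).trace).re ^ 2 * wt x := by
  unfold nn
  rw [Hod_re_int hE hE]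
  have h1 : ∫ x, (ee (E x) (E x)).re * wt x =
      ∫ x, (((E x).trace).re ^ 2 * wt x - hs (E x) * wt x) := by
    apply integral_congr_ae
    filter_upwards [Hod_ae_ne] with x hx
    rw [ee_hs (hh x hx)]
    ring
  rw [h1, integral_sub (tr_int hE) (hs_int hE)]
  ring

end Pool.Agent.H85.DC

end S_H85_DC_Hod

section S_H85_DC_GauE

/-!
# Row GauE: Fubini for the average, contraction

`qq_av`: `qq B (av ε A) = ∫_G gau G * qq B (pull (mat ε G) A)`. `ee (B y) (av ε A y) = ∫ gau G ee (B y) (pull (mat ε G) A y) dG`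
(finite linear combination of entries, `pull_int`), then exchange `∫ dy` and `∫ dG` (`integral_integral_swap`): joint measurability
`pull_meas`, `form_meas`; integrability: `|ee (B y) (pull M A y)| ≤ C'/N y * hs M/N (M y)` (`pull_norm`, `form_bound`, for a.e. `G`; for fixed `G`
with `det ≠ 0` all `y ≠ 0`) and `∫ gau hs M/N(My) dG ≤ K/N y` (`gau_bound`), `∫ N^{-2} wt < ∞`.
`inH_av`: form `form_av`, Hermitian `av_herm`; `qq (L u) (av ε A) = ∫ gau G qq (L u) (pull (mat ε G) A) dG = 0` (`inH_pull` for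
`det ≠ 0`, a.e. by `det_ae`). `inH0_av`: `mass_pull`.
`contraction`: `a = nn (av ε X) (av ε X) = ∫ gau G nn (av ε X) (pull M X) dG` (`qq_av` with `B = av ε X`, real parts), and for a.e. `G`,
`|nn (av ε X) (pull M X)| ≤ √a √(nn (pull M X) (pull M X)) = √a √(nn X X)` (`nn_cs`, `inH0_pull`, `nn_pull`); `∫ gau = 1`, so
`a ≤ √a √(nn X X)`, `a ≤ nn X X` (`hodge` for nonnegativity). Integrability of `G ↦ gau G * qq B (pull (mat ε G) A)` comes from Fubini
(`Integrable.integral_prod_right`).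
-/

open MeasureTheory
open scoped ContDiff BigOperators ComplexConjugate Matrix

namespace Pool.Agent.H85.DC

/-! ### The bound of the integrand -/

theorem GauE_mulVec {M : M3} (hM : M.det ≠ 0) {y : V} (hy : y ≠ 0) : M.mulVec y ≠ 0 := by
  intro h
  exact hM (Matrix.exists_mulVec_eq_zero_iff.mp ⟨y, hy, h⟩)

theorem GauE_ee_sum (A B : M3) :
    ee A B = ∑ j, ∑ k, (A j j * B k k - A j k * B k j) := by
  unfold ee Matrix.trace
  simp only [Matrix.diag_apply, Matrix.mul_apply]
  rw [Finset.sum_mul_sum, ← Finset.sum_sub_distrib]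
  refine Finset.sum_congr rfl fun j _ => ?_
  rw [← Finset.sum_sub_distrib]

theorem GauE_ee_norm {A B : M3} {a b : ℝ} (ha : 0 ≤ a) (hA : ∀ j k, ‖A j k‖ ≤ a)
    (hB : ∀ j k, ‖B j k‖ ≤ b) : ‖ee A B‖ ≤ 18 * (a * b) := by
  rw [GauE_ee_sum]
  have h : ∀ j k : Fin 3, ‖A j j * B k k - A j k * B k j‖ ≤ 2 * (a * b) := by
    intro j k
    refine (norm_sub_le _ _).trans ?_
    rw [norm_mul, norm_mul]
    have h1 := mul_le_mul (hA j j) (hB k k) (norm_nonneg _) ha
    have h2 := mul_le_mul (hA j k) (hB k j) (norm_nonneg _) ha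
    linarith
  refine (norm_sum_le _ _).trans ?_
  have h3 : ∀ j : Fin 3, ‖∑ k, (A j j * B k k - A j k * B k j)‖ ≤ 6 * (a * b) := by
    intro j
    refine (norm_sum_le _ _).trans ?_
    refine (Finset.sum_le_sum fun k _ => h j k).trans ?_
    simp
    linarith
  refine (Finset.sum_le_sum fun j _ => h3 j).trans ?_
  simp
  linarith

theorem GauE_contwt : Continuous wt := by
  unfold wt
  exact Real.continuous_exp.comp (continuous_neg.comp GauA_contN)

/-- The integrand on the product. -/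
noncomputable def GauE_Phi (A B : V → M3) (ε : ℝ) (q : V × (Fin 3 → V)) : ℂ :=
  (gau q.2 : ℂ) * (ee (B q.1) (pull (mat ε q.2) A q.1) * (wt q.1 : ℂ))

theorem GauE_Phi_meas {A B : V → M3} (hA : IsForm A) (hB : IsForm B) (ε : ℝ) :
    Measurable (GauE_Phi A B ε) := by
  unfold GauE_Phi
  refine Measurable.mul ?_ (Measurable.mul ?_ ?_)
  · exact Complex.measurable_ofReal.comp (gau_meas.comp measurable_snd)
  · simp only [GauE_ee_sum]
    refine Finset.measurable_fun_sum _ fun j _ => Finset.measurable_fun_sum _ fun k _ => ?_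
    exact (((form_meas hB j j).comp measurable_fst).mul (pull_meas hA ε k k)).sub
      (((form_meas hB j k).comp measurable_fst).mul (pull_meas hA ε k j))
  · exact Complex.measurable_ofReal.comp (GauE_contwt.measurable.comp measurable_fst)

theorem GauE_N2_int : Integrable (fun y : V => (N y) ^ (-2 : ℝ) * Real.exp (-(1 : ℝ) * N y)) :=
  integrable_N_rpow (by norm_num) one_pos

theorem GauE_Phi_int {A B : V → M3} (hA : IsForm A) (hB : IsForm B) {ε : ℝ} (hε : 0 < ε) :
    Integrable (GauE_Phi A B ε) ((volume : Measure V).prod (volume : Measure (Fin 3 → V))) := by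
  refine ⟨(GauE_Phi_meas hA hB ε).aestronglyMeasurable, ?_⟩
  rw [hasFiniteIntegral_iff_enorm, lintegral_prod _ (GauE_Phi_meas hA hB ε).enorm.aemeasurable]
  obtain ⟨CA, hCA0, hCA⟩ := form_bound hA
  obtain ⟨CB, hCB0, hCB⟩ := form_bound hB
  obtain ⟨K, hK0, hK⟩ := gau_bound hε
  have hne : ∀ᵐ y : V, y ≠ 0 := by
    have h := Measure.ae_ne (volume : Measure V) (0 : V)
    exact h
  have key : ∀ᵐ y : V, ∫⁻ G : Fin 3 → V, ‖GauE_Phi A B ε (y, G)‖ₑ ≤
      ENNReal.ofReal (162 * CA * CB * K * ((N y) ^ (-2 : ℝ) * Real.exp (-(1 : ℝ) * N y))) := by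
    filter_upwards [hne] with y hy
    have hN := N_pos hy
    have hwt : 0 ≤ wt y := (Real.exp_pos _).le
    have h1 : ∀ᵐ G : Fin 3 → V, ‖GauE_Phi A B ε (y, G)‖ₑ ≤
        ENNReal.ofReal (162 * CA * CB / N y * wt y) *
          ENNReal.ofReal (gau G * (hs (mat ε G) / N ((mat ε G).mulVec y))) := by
      filter_upwards [det_ae hε] with G hG
      have hMy := GauE_mulVec hG hy
      have hNM := N_pos hMy
      have hp := fun j k => pull_norm hCA (mat ε G) hMy j k
      have he := GauE_ee_norm (A := B y) (B := pull (mat ε G) A y)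
        (div_nonneg hCB0 hN.le) (hCB y hy) hp
      rw [← ENNReal.ofReal_mul (by positivity), ← ofReal_norm]
      apply ENNReal.ofReal_le_ofReal
      unfold GauE_Phi
      rw [norm_mul, norm_mul, Complex.norm_real, Complex.norm_real, Real.norm_of_nonneg hwt,
        Real.norm_of_nonneg (gau_nonneg G)]
      have h2 : gau G * (‖ee (B y) (pull (mat ε G) A y)‖ * wt y) ≤
          gau G * ((18 * (CB / N y * (9 * CA * hs (mat ε G) / N ((mat ε G).mulVec y)))) * wt y) :=
        mul_le_mul_of_nonneg_left (mul_le_mul_of_nonneg_right he hwt) (gau_nonneg G)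
      refine h2.trans (le_of_eq ?_)
      ring
    refine (lintegral_mono_ae h1).trans ?_
    rw [lintegral_const_mul' _ _ ENNReal.ofReal_ne_top]
    refine (mul_le_mul_right (hK y hy) _).trans ?_
    rw [← ENNReal.ofReal_mul (by positivity)]
    apply ENNReal.ofReal_le_ofReal
    have h3 : (N y) ^ (-2 : ℝ) = (N y)⁻¹ * (N y)⁻¹ := by
      rw [show (-2 : ℝ) = -((2 : ℕ) : ℝ) by norm_num, Real.rpow_neg hN.le, Real.rpow_natCast,
        ← mul_inv, sq]
    have h4 : Real.exp (-(1 : ℝ) * N y) = wt y := by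
      unfold wt
      congr 1
      ring
    rw [h3, h4]
    apply le_of_eq
    ring
  refine lt_of_le_of_lt (lintegral_mono_ae key) ?_
  exact (GauE_N2_int.const_mul (162 * CA * CB * K)).lintegral_lt_top

/-- The inner integral in `G`. -/
theorem GauE_inner {A B : V → M3} (hA : IsForm A) {ε : ℝ} (hε : 0 < ε)
    {y : V} (hy : y ≠ 0) :
    ∫ G : Fin 3 → V, GauE_Phi A B ε (y, G) = ee (B y) (av ε A y) * (wt y : ℂ) := by
  have hI : ∀ j k, Integrable (fun G : Fin 3 → V => (gau G : ℂ) * pull (mat ε G) A y j k) :=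
    fun j k => pull_int hA hε hy j k
  have h1 : ∀ G : Fin 3 → V, GauE_Phi A B ε (y, G) =
      ∑ j, ∑ k, ((B y j j * (wt y : ℂ)) * ((gau G : ℂ) * pull (mat ε G) A y k k) -
        (B y j k * (wt y : ℂ)) * ((gau G : ℂ) * pull (mat ε G) A y k j)) := by
    intro G
    unfold GauE_Phi
    rw [GauE_ee_sum, Finset.sum_mul, Finset.mul_sum]
    refine Finset.sum_congr rfl fun j _ => ?_
    rw [Finset.sum_mul, Finset.mul_sum]
    refine Finset.sum_congr rfl fun k _ => ?_
    ring
  simp_rw [h1]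
  have h2 : ∀ j k, Integrable (fun G : Fin 3 → V =>
      (B y j j * (wt y : ℂ)) * ((gau G : ℂ) * pull (mat ε G) A y k k) -
        (B y j k * (wt y : ℂ)) * ((gau G : ℂ) * pull (mat ε G) A y k j)) :=
    fun j k => ((hI k k).const_mul _).sub ((hI k j).const_mul _)
  rw [integral_finsetSum _ fun j _ => integrable_finsetSum _ fun k _ => h2 j k, GauE_ee_sum,
    Finset.sum_mul]
  refine Finset.sum_congr rfl fun j _ => ?_
  rw [integral_finsetSum _ fun k _ => h2 j k, Finset.sum_mul]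
  refine Finset.sum_congr rfl fun k _ => ?_
  rw [integral_sub ((hI k k).const_mul _) ((hI k j).const_mul _), integral_const_mul,
    integral_const_mul]
  unfold av
  ring

/-- The inner integral in `y`. -/
theorem GauE_outer (A B : V → M3) (ε : ℝ) (G : Fin 3 → V) :
    ∫ y : V, GauE_Phi A B ε (y, G) = (gau G : ℂ) * qq B (pull (mat ε G) A) := by
  unfold GauE_Phi qq
  rw [← integral_const_mul]

theorem qq_av_int {A B : V → M3} (hA : IsForm A) (hB : IsForm B) {ε : ℝ} (hε : 0 < ε) :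
    Integrable (fun G : Fin 3 → V => (gau G : ℂ) * qq B (pull (mat ε G) A)) := by
  have h := (GauE_Phi_int hA hB hε).integral_prod_right
  simp_rw [GauE_outer] at h
  exact h

theorem qq_av {A B : V → M3} (hA : IsForm A) (hB : IsForm B) {ε : ℝ} (hε : 0 < ε) :
    qq B (av ε A) = ∫ G : Fin 3 → V, (gau G : ℂ) * qq B (pull (mat ε G) A) := by
  have h := integral_integral_swap (f := fun (y : V) (G : Fin 3 → V) => GauE_Phi A B ε (y, G))
    (GauE_Phi_int hA hB hε)
  simp_rw [GauE_outer] at h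
  rw [← h]
  unfold qq
  apply integral_congr_ae
  filter_upwards [Measure.ae_ne (volume : Measure V) (0 : V)] with y hy
  exact (GauE_inner hA hε hy).symm

theorem inH_av {A : V → M3} (hA : InH A) {ε : ℝ} (hε : 0 < ε) : InH (av ε A) := by
  refine ⟨form_av hA.form hε, av_herm hA.form hA.herm hε, fun u hu => ?_⟩
  rw [qq_av hA.form (form_L hu) hε]
  have h : ∀ᵐ G : Fin 3 → V, (gau G : ℂ) * qq (L u) (pull (mat ε G) A) = 0 := by
    filter_upwards [det_ae hε] with G hG
    rw [(inH_pull hA hG).ddc u hu, mul_zero]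
  rw [integral_congr_ae h]
  simp

theorem inH0_av {A : V → M3} (hA : InH0 A) {ε : ℝ} (hε : 0 < ε) : InH0 (av ε A) := by
  refine ⟨inH_av hA.toInH hε, ?_⟩
  rw [qq_av hA.form form_Wm hε]
  have h : ∀ᵐ G : Fin 3 → V, (gau G : ℂ) * qq Wm (pull (mat ε G) A) = 0 := by
    filter_upwards [det_ae hε] with G hG
    rw [mass_pull hA.toInH hG, hA.mass, mul_zero]
  rw [integral_congr_ae h]
  simp

theorem contraction {X : V → M3} (hX : InH0 X) {ε : ℝ} (hε : 0 < ε) :
    nn (av ε X) (av ε X) ≤ nn X X := by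
  have hY := inH0_av hX hε
  set Y := av ε X with hYdef
  have ha := hodge hY
  have hb := hodge hX
  have hint := qq_av_int hX.form hY.form hε
  have h1 : nn Y Y = ∫ G : Fin 3 → V, gau G * nn Y (pull (mat ε G) X) := by
    have h2 : qq Y Y = ∫ G : Fin 3 → V, (gau G : ℂ) * qq Y (pull (mat ε G) X) := by
      conv_lhs => rw [hYdef]
      rw [← hYdef]
      exact qq_av hX.form hY.form hε
    have h3 : (qq Y Y).re = ∫ G : Fin 3 → V, ((gau G : ℂ) * qq Y (pull (mat ε G) X)).re := by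
      rw [h2]
      exact (integral_re hint).symm
    unfold nn
    rw [h3, ← integral_neg]
    apply integral_congr_ae
    refine Filter.Eventually.of_forall fun G => ?_
    simp only [Complex.re_ofReal_mul]
    ring
  have h4 : Integrable (fun G : Fin 3 → V => gau G * nn Y (pull (mat ε G) X)) := by
    have h5 := hint.re.neg
    refine h5.congr (Filter.Eventually.of_forall fun G => ?_)
    unfold nn
    simp only [Pi.neg_apply, RCLike.re_to_complex, Complex.re_ofReal_mul]
    ring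
  have h6 : ∀ᵐ G : Fin 3 → V, gau G * nn Y (pull (mat ε G) X) ≤
      gau G * (Real.sqrt (nn Y Y) * Real.sqrt (nn X X)) := by
    filter_upwards [det_ae hε] with G hG
    apply mul_le_mul_of_nonneg_left _ (gau_nonneg G)
    have h7 := nn_cs hY (inH0_pull hX hG)
    rw [nn_pull hX.form hX.form hG] at h7
    rw [← Real.sqrt_mul ha]
    exact Real.le_sqrt_of_sq_le h7
  have h8 : nn Y Y ≤ Real.sqrt (nn Y Y) * Real.sqrt (nn X X) := by
    calc nn Y Y = ∫ G : Fin 3 → V, gau G * nn Y (pull (mat ε G) X) := h1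
      _ ≤ ∫ G : Fin 3 → V, gau G * (Real.sqrt (nn Y Y) * Real.sqrt (nn X X)) :=
        integral_mono_ae h4 (gau_integrable.mul_const _) h6
      _ = Real.sqrt (nn Y Y) * Real.sqrt (nn X X) := by
        rw [integral_mul_const, GauA_int_gau, one_mul]
  rcases ha.lt_or_eq with h | h
  · have h9 : 0 < Real.sqrt (nn Y Y) := Real.sqrt_pos.mpr h
    have h10 : Real.sqrt (nn Y Y) * Real.sqrt (nn Y Y) ≤ Real.sqrt (nn Y Y) * Real.sqrt (nn X X) := by
      rw [Real.mul_self_sqrt ha]
      exact h8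
    have h11 := le_of_mul_le_mul_left h10 h9
    exact (Real.sqrt_le_sqrt_iff hb).mp h11
  · rw [← h]
    exact hb

end Pool.Agent.H85.DC

end S_H85_DC_GauE

section S_H85_DC_SmB

/-!
# Row SmB: pairing of the smoothed current

`ee_smK`: for a matrix `B` killing `x` on both sides (`x ≠ 0`), `w' = perp x w`:
`ee (smK ε y w x) B = (kk ε τ/N x) * (quad B w + ε^2 tr B)`. Indeed `ee (1 - conj(x)x^T/N) B = 2 tr B - tr B = tr B`,
`ee (conj(w') w'^T) B = N w' tr B - quad B w'` (`tr ((conj(w'_j) w'_k)_{jk} B) = ∑ conj(w'_j) w'_k B_kj = quad B w'`), so the bracket gives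
`(N w' + ε^2) tr B - N w' tr B + quad B w' = quad B w + ε^2 tr B` (`quad B w' = quad B w`).
`qq_smK`: for `(y, w)` orthonormal: `qq (smK ε y w) A = quad (av ε A y) w`: by `quad_av`, `pol` with
`φ x = quad (A x) w + ε^2 tr (A x)` (`CHom (-1) (-1)`), and `ee_smK`.
`qq_sm`: for `μ`-a.e. `y` (`N y = 1`, `eta F y ≠ 0`): `pr F (av ε A) y = quad (av ε A y) (wv F y)` (`pr_eq`, `form_av`) `= qq (smK ε y (wv F y)) A`;
`qq (sm F μ ε) A = ∫_x ∫_y ee (smK … x) (A x) wt x dμ(y) dx` (`ee` is linear in the first argument: integral of a finite sum) and Fubini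
(`integral_integral_swap`; bound `C_ε N^{-2} wt`, measurability `smK_meas`, `form_meas`).
-/

open MeasureTheory
open scoped ContDiff BigOperators ComplexConjugate Matrix

namespace Pool.Agent.H85.DC

theorem SmB_quad_sub {B : M3} {x : V} (hB : ∀ k, ∑ j, x j * B j k = 0)
    (hB' : ∀ j, ∑ k, B j k * conj (x k) = 0) (w : V) (c : ℂ) :
    quad B (w - c • x) = quad B w := by
  have h0 := hB 0
  have h1 := hB 1
  have h2 := hB 2
  have g0 := hB' 0
  have g1 := hB' 1
  have g2 := hB' 2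
  simp only [Fin.sum_univ_three] at h0 h1 h2 g0 g1 g2
  unfold quad
  simp only [Fin.sum_univ_three, Pi.sub_apply, Pi.smul_apply, smul_eq_mul, map_sub, map_mul]
  linear_combination (-c * (conj (w 0) - conj c * conj (x 0))) * h0 +
    (-c * (conj (w 1) - conj c * conj (x 1))) * h1 +
    (-c * (conj (w 2) - conj c * conj (x 2))) * h2 -
    conj c * w 0 * g0 - conj c * w 1 * g1 - conj c * w 2 * g2

theorem SmB_trP {B : M3} {x : V} (hB : ∀ k, ∑ j, x j * B j k = 0) :
    ∑ j, ∑ k, ((if j = k then (1 : ℂ) else 0) - conj (x j) * x k / (N x : ℂ)) * B k j =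
      B.trace := by
  have h0 := hB 0
  have h1 := hB 1
  have h2 := hB 2
  simp only [Fin.sum_univ_three] at h0 h1 h2
  rw [Matrix.trace]
  simp only [Fin.sum_univ_three, Matrix.diag_apply, div_eq_mul_inv]
  simp
  linear_combination (-conj (x 0) * (N x : ℂ)⁻¹) * h0 + (-conj (x 1) * (N x : ℂ)⁻¹) * h1 +
    (-conj (x 2) * (N x : ℂ)⁻¹) * h2

theorem ee_smK {ε : ℝ} (y w : V) {x : V} (hx : x ≠ 0) {B : M3}
    (hB : ∀ k, ∑ j, x j * B j k = 0) (hB' : ∀ j, ∑ k, B j k * conj (x k) = 0) :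
    ee (smK ε y w x) B =
      ((kk ε (tau x y) / N x : ℝ) : ℂ) * (quad B w + ((ε ^ 2 : ℝ) : ℂ) * B.trace) := by
  have hq : quad B (perp x w) = quad B w := SmB_quad_sub hB hB' w _
  have hK : ∑ j, ∑ k, conj (perp x w j) * perp x w k * B k j = quad B (perp x w) := by
    unfold quad
    rw [Finset.sum_comm]
    refine Finset.sum_congr rfl fun j _ => Finset.sum_congr rfl fun k _ => ?_
    ring
  have hm : (smK ε y w x * B).trace = ((kk ε (tau x y) / N x : ℝ) : ℂ) *
      (((N (perp x w) + ε ^ 2 : ℝ) : ℂ) * B.trace - quad B w) := by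
    rw [Lin_trmul, ← hq, ← hK, ← SmB_trP hB, Finset.mul_sum, ← Finset.sum_sub_distrib,
      Finset.mul_sum]
    refine Finset.sum_congr rfl fun j _ => ?_
    rw [Finset.mul_sum, ← Finset.sum_sub_distrib, Finset.mul_sum]
    refine Finset.sum_congr rfl fun k _ => ?_
    rw [SmA_smK_apply]
    ring
  unfold ee
  rw [hm, smK_tr y w hx]
  push_cast
  ring

/-- The null set `{0}`. -/
theorem SmB_ae : ∀ᵐ x : V, x ≠ 0 := by
  have h : (volume : Measure V) {0} = 0 := measure_singleton 0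
  exact compl_mem_ae_iff.mpr h

theorem SmB_phi {A : V → M3} (hA : IsForm A) (w : V) (c : ℂ) :
    CHom (-1) (-1) (fun x => quad (A x) w + c * (A x).trace) where
  cont := by
    have he : ∀ j k : Fin 3, ContinuousOn (fun x => A x j k) {0}ᶜ := fun j k =>
      (form_chom hA j k).cont
    unfold quad
    refine ContinuousOn.add ?_ ?_
    · refine continuousOn_finsetSum _ fun j _ => continuousOn_finsetSum _ fun k _ => ?_
      exact ((he j k).mul continuousOn_const).mul continuousOn_const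
    · refine continuousOn_const.mul ?_
      simp only [Matrix.trace, Matrix.diag_apply]
      exact continuousOn_finsetSum _ fun j _ => he j j
  hom := by
    intro l x hl
    have h1 := hA.hom l x hl
    have h2 : l ^ (-1 : ℤ) * (conj l) ^ (-1 : ℤ) = ((Complex.normSq l : ℂ))⁻¹ := by
      rw [zpow_neg_one, zpow_neg_one, ← mul_inv, Complex.mul_conj]
    simp only [h1, h2]
    unfold quad
    rw [Matrix.trace_smul, smul_eq_mul, mul_add, Finset.mul_sum]
    congr 1
    · refine Finset.sum_congr rfl fun j _ => ?_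
      rw [Finset.mul_sum]
      refine Finset.sum_congr rfl fun k _ => ?_
      rw [Matrix.smul_apply, smul_eq_mul]
      ring
    · ring

theorem qq_smK {A : V → M3} (hA : IsForm A) {ε : ℝ} (hε : 0 < ε) {y w : V} (hy : N y = 1)
    (hw : N w = 1) (hyw : ip w y = 0) : qq (smK ε y w) A = quad (av ε A y) w := by
  rw [quad_av hA hε hy hw hyw]
  have h := pol (SmB_phi hA w ((ε ^ 2 : ℝ) : ℂ)) hε hy
  rw [h]
  unfold qq
  refine integral_congr_ae ?_
  filter_upwards [SmB_ae] with x hx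
  rw [ee_smK y w hx (hA.killl x hx) (hA.killr x hx)]
  ring

/-- The coefficients of the linear form `B ↦ ee B C`. -/
noncomputable def SmB_cf (C : M3) (j k : Fin 3) : ℂ := (if j = k then C.trace else 0) - C k j

theorem SmB_ee (B C : M3) : ee B C = ∑ j, ∑ k, B j k * SmB_cf C j k := by
  unfold ee
  rw [Lin_trmul]
  have h1 : B.trace * C.trace = ∑ j, ∑ k, B j k * (if j = k then C.trace else 0) := by
    rw [Matrix.trace, Finset.sum_mul]
    refine Finset.sum_congr rfl fun j _ => ?_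
    simp
  rw [h1, ← Finset.sum_sub_distrib]
  refine Finset.sum_congr rfl fun j _ => ?_
  rw [← Finset.sum_sub_distrib]
  refine Finset.sum_congr rfl fun k _ => ?_
  unfold SmB_cf
  ring

theorem SmB_cf_meas {A : V → M3} (hA : IsForm A) (j k : Fin 3) :
    Measurable (fun x => SmB_cf (A x) j k) := by
  unfold SmB_cf
  refine Measurable.sub ?_ (form_meas hA k j)
  by_cases h : j = k
  · simp only [h, if_true]
    simp only [Matrix.trace, Matrix.diag_apply]
    exact Finset.measurable_sum _ fun i _ => form_meas hA i i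
  · simp only [h, if_false]
    exact measurable_const

theorem SmB_cf_bound {A : V → M3} {C : ℝ} (hC : ∀ x : V, x ≠ 0 → ∀ j k, ‖A x j k‖ ≤ C / N x)
    {x : V} (hx : x ≠ 0) (j k : Fin 3) : ‖SmB_cf (A x) j k‖ ≤ 4 * (C / N x) := by
  have h0 : 0 ≤ C / N x := (norm_nonneg _).trans (hC x hx j k)
  unfold SmB_cf
  have h1 : ‖(if j = k then (A x).trace else 0 : ℂ)‖ ≤ 3 * (C / N x) := by
    by_cases h : j = k
    · rw [if_pos h, Matrix.trace]
      refine (norm_sum_le _ _).trans ?_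
      refine (Finset.sum_le_sum fun i _ => hC x hx i i).trans ?_
      simp
    · rw [if_neg h, norm_zero]
      positivity
  refine (norm_sub_le _ _).trans ?_
  have h2 := hC x hx k j
  linarith

theorem SmB_ee_bound {F : Fin 3 → MvPolynomial (Fin 3) ℂ} {A : V → M3} {C : ℝ}
    (hC : ∀ x : V, x ≠ 0 → ∀ j k, ‖A x j k‖ ≤ C / N x) {ε : ℝ} (hε : 0 < ε) (h1 : ε ≤ 1)
    {x y : V} (hx : x ≠ 0) (hy : N (wv F y) ≤ 1) :
    ‖ee (smK ε y (wv F y) x) (A x)‖ ≤ (432 * ε⁻¹ ^ 4 * C) * (N x) ^ (-2 : ℝ) := by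
  have hN := SmA_Npos hx
  rw [SmB_ee]
  have hb : ∀ j k : Fin 3, ‖smK ε y (wv F y) x j k * SmB_cf (A x) j k‖ ≤
      (12 * ε⁻¹ ^ 4 / N x) * (4 * (C / N x)) := by
    intro j k
    rw [norm_mul]
    exact mul_le_mul (smK_bound hε h1 hy hx j k) (SmB_cf_bound hC hx j k) (norm_nonneg _)
      (by positivity)
  refine (norm_sum_le _ _).trans ?_
  refine (Finset.sum_le_sum fun j _ => (norm_sum_le _ _).trans
    (Finset.sum_le_sum fun k _ => hb j k)).trans ?_
  rw [Real.rpow_neg hN.le, Real.rpow_two]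
  simp only [Finset.sum_const, Finset.card_univ, Fintype.card_fin, nsmul_eq_mul]
  apply le_of_eq
  field_simp
  norm_num
  ring

theorem SmB_meas (F : Fin 3 → MvPolynomial (Fin 3) ℂ) {A : V → M3} (hA : IsForm A) (ε : ℝ) :
    Measurable (fun q : V × V => ee (smK ε q.2 (wv F q.2) q.1) (A q.1) * (wt q.1 : ℂ)) := by
  simp only [SmB_ee]
  refine Measurable.mul ?_ ?_
  · refine Finset.measurable_sum _ fun j _ => Finset.measurable_sum _ fun k _ => ?_
    exact (smK_meas F ε j k).mul ((SmB_cf_meas hA j k).comp measurable_fst)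
  · unfold wt
    have hc : Continuous fun q : V × V => ((Real.exp (-N q.1) : ℝ) : ℂ) :=
      Complex.continuous_ofReal.comp (Real.continuous_exp.comp
        ((continuous_N.comp continuous_fst).neg))
    exact hc.measurable

theorem SmB_prod {F : Fin 3 → MvPolynomial (Fin 3) ℂ} {μ : Measure V} (hμ : IsCur F μ)
    {A : V → M3} (hA : IsForm A) {ε : ℝ} (hε : 0 < ε) (h1 : ε ≤ 1) :
    Integrable (fun q : V × V => ee (smK ε q.2 (wv F q.2) q.1) (A q.1) * (wt q.1 : ℂ))
      ((volume : Measure V).prod μ) := by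
  have := SmA_finite hμ
  obtain ⟨C, hC0, hC⟩ := form_bound hA
  have hint : Integrable (fun x : V => (432 * ε⁻¹ ^ 4 * C) * ((N x) ^ (-2 : ℝ) *
      Real.exp (-1 * N x))) := (integrable_N_rpow (by norm_num) one_pos).const_mul _
  have hd := hint.comp_fst μ
  refine hd.mono' (SmB_meas F hA ε).aestronglyMeasurable ?_
  have ha : ∀ᵐ q : V × V ∂((volume : Measure V).prod μ), q.1 ≠ 0 :=
    Measure.quasiMeasurePreserving_fst.ae SmB_ae
  have hb : ∀ᵐ q : V × V ∂((volume : Measure V).prod μ), N (wv F q.2) ≤ 1 :=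
    Measure.quasiMeasurePreserving_snd.ae (SmA_unit hμ)
  filter_upwards [ha, hb] with q hq1 hq2
  rw [norm_mul]
  have hw : ‖(wt q.1 : ℂ)‖ = Real.exp (-1 * N q.1) := by
    unfold wt
    rw [Complex.norm_real, Real.norm_eq_abs, abs_of_nonneg (Real.exp_nonneg _)]
    congr 1
    ring
  rw [hw, ← mul_assoc]
  exact mul_le_mul_of_nonneg_right (SmB_ee_bound hC hε h1 hq1 hq2) (Real.exp_nonneg _)

theorem qq_sm {F : Fin 3 → MvPolynomial (Fin 3) ℂ} {μ : Measure V} (hμ : IsCur F μ)
    {A : V → M3} (hA : IsForm A) {ε : ℝ} (hε : 0 < ε) (h1 : ε ≤ 1) :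
    qq (sm F μ ε) A = ∫ y, pr F (av ε A) y ∂μ := by
  have := SmA_finite hμ
  have e1 : qq (sm F μ ε) A =
      ∫ x, ∫ y, ee (smK ε y (wv F y) x) (A x) * (wt x : ℂ) ∂μ := by
    unfold qq
    refine integral_congr_ae ?_
    filter_upwards [SmB_ae] with x hx
    rw [integral_mul_const, SmB_ee]
    congr 1
    simp only [SmB_ee]
    rw [integral_finsetSum _ fun j _ => integrable_finsetSum _ fun k _ =>
      (SmA_int hμ hε h1 hx j k).mul_const _]
    refine Finset.sum_congr rfl fun j _ => ?_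
    rw [integral_finsetSum _ fun k _ => (SmA_int hμ hε h1 hx j k).mul_const _]
    refine Finset.sum_congr rfl fun k _ => ?_
    rw [integral_mul_const, sm_eq]
  rw [e1, integral_integral_swap (SmB_prod hμ hA hε h1)]
  refine integral_congr_ae ?_
  filter_upwards [hμ.sphere, hμ.sing] with y hy hs
  rw [pr_eq (form_av hA hε) hy, ← qq_smK hA hε hy (wv_unit hy hs) (wv_orth hy)]
  rfl

/-- Convergence of the pairings. -/
theorem pr_av_tendsto {F : Fin 3 → MvPolynomial (Fin 3) ℂ} {μ : Measure V} (hμ : IsCur F μ)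
    {A : V → M3} (hA : IsForm A) :
    Filter.Tendsto (fun ε : ℝ => ∫ y, pr F (av ε A) y ∂μ) (nhdsWithin 0 (Set.Ioi 0))
      (nhds (∫ y, pr F A y ∂μ)) := by
  have := SmA_finite hμ
  rw [Metric.tendsto_nhds]
  intro δ hδ
  obtain ⟨ε0, h0, hε0⟩ := av_conv hA (δ := δ / 4) (by positivity)
  have hev : ∀ᶠ ε : ℝ in nhdsWithin 0 (Set.Ioi 0), 0 < ε ∧ ε < ε0 := by
    refine Filter.Eventually.and self_mem_nhdsWithin ?_
    exact mem_nhdsWithin_of_mem_nhds (Iio_mem_nhds h0)
  filter_upwards [hev] with ε hε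
  have hsub : IsForm (fun x => av ε A x - A x) := form_sub (form_av hA hε.1) hA
  have hpr : ∀ y, pr F (fun x => av ε A x - A x) y = pr F (av ε A) y - pr F A y := by
    intro y
    unfold pr
    rw [← sub_div, ← Finset.sum_sub_distrib]
    congr 1
    refine Finset.sum_congr rfl fun j _ => ?_
    rw [← Finset.sum_sub_distrib]
    refine Finset.sum_congr rfl fun k _ => ?_
    show (av ε A y j k - A y j k) * _ * _ = _
    ring
  rw [dist_eq_norm, ← integral_sub (pr_int (form_av hA hε.1) hμ) (pr_int hA hμ)]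
  have hb : ∀ᵐ y ∂μ, ‖pr F (av ε A) y - pr F A y‖ ≤ 3 * (δ / 4) := by
    filter_upwards [hμ.sphere] with y hy
    rw [← hpr y]
    refine pr_bound (C := δ / 4) ?_ hsub hy
    intro x hx j k
    rw [Matrix.sub_apply]
    exact hε0 ε hε.1 hε.2 x hx j k
  have hn := norm_integral_le_of_norm_le_const hb
  have hm : μ.real Set.univ = 1 := by
    rw [measureReal_def, hμ.prob, ENNReal.toReal_one]
  rw [hm, mul_one] at hn
  linarith

end Pool.Agent.H85.DC

end S_H85_DC_SmB

section S_H85_DC_SmF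

/-!
# Row SmF: the wedge product of two smoothed currents

`ee_smKK`: with `w' = perp x w`, `v' = perp x v` (orthogonal to `x`), brackets `X_w = (N w' + ε^2) Π - K(w')`, `K(a) = conj(a) a^T`, `Π = 1 - conj(x)x^T/N`.
`ee Π Π = 2`, `ee Π K(a) = N a` for `a ⊥ x`, `ee K(a) K(b) = N a N b - |ip a b|^2` (`ee_rank1`). So
`ee X_w X_v = 2 (N w' + ε^2)(N v' + ε^2) - (N w' + ε^2) N v' - (N v' + ε^2) N w' + N w' N v' - |ip w' v'|^2
= (N w' N v' - |ip w' v'|^2) + ε^2 (N w' + N v') + 2 ε^4`.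
`ee_smsm`: `ee` is bilinear: `ee (sm x) (sm' x) = ∫∫ ee (smK … y …) (smK … y' …) dμ' dμ` (finite sums of products of integrals; `integral_mul_left` etc.,
all integrands bounded for fixed `x`).
-/

open MeasureTheory
open scoped ContDiff BigOperators ComplexConjugate Matrix

namespace Pool.Agent.H85.DC

/-- `|a ∧ b|²`. -/
noncomputable def wed (a b : V) : ℝ := N a * N b - Complex.normSq (ip a b)

theorem SmF_ee (A B : M3) : ee A B = ∑ j, ∑ k, (A j j * B k k - A j k * B k j) := by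
  unfold ee
  simp only [Matrix.trace, Matrix.diag, Matrix.mul_apply, Finset.sum_mul_sum,
    Finset.sum_sub_distrib]

theorem SmF_comm (A B : M3) : ee A B = ee B A := by
  unfold ee
  rw [Matrix.trace_mul_comm, mul_comm]

theorem SmF_lin {μ : Measure V} (A : M3) {B : V → M3}
    (hB : ∀ j k, Integrable (fun y => B y j k) μ) :
    ∫ y, ee A (B y) ∂μ = ee A (fun j k => ∫ y, B y j k ∂μ) := by
  simp only [SmF_ee]
  have h1 : ∀ j k : Fin 3, Integrable (fun y => A j j * B y k k - A j k * B y k j) μ := fun j k =>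
    ((hB k k).const_mul _).sub ((hB k j).const_mul _)
  rw [integral_finsetSum _ fun j _ => integrable_finsetSum _ fun k _ => h1 j k]
  refine Finset.sum_congr rfl fun j _ => ?_
  rw [integral_finsetSum _ fun k _ => h1 j k]
  refine Finset.sum_congr rfl fun k _ => ?_
  rw [integral_sub ((hB k k).const_mul _) ((hB k j).const_mul _), integral_const_mul,
    integral_const_mul]

theorem ee_smKK {ε : ℝ} (y w y' v : V) {x : V} (hx : x ≠ 0) :
    ee (smK ε y w x) (smK ε y' v x) =
      ((kk ε (tau x y) * kk ε (tau x y') / (N x) ^ 2 *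
        (wed (perp x w) (perp x v) + ε ^ 2 * (N (perp x w) + N (perp x v)) + 2 * ε ^ 4) : ℝ) : ℂ) := by
  rw [ee_smK y w hx (fun k => SmA_killl y' v hx k) (fun j => SmA_killr y' v hx j),
    SmA_quad y' v hx w, smK_tr y' v hx]
  have h2 : ip w (perp x v) = ip (perp x w) (perp x v) := by
    have h3 : ip x (perp x v) = 0 := by
      rw [← SmA_ip_conj, perp_orth hx, map_zero]
    rw [show perp x w = w - (ip w x / (N x : ℂ)) • x from rfl, SmA_ip_sub w, SmA_ip_smul, h3]
    ring
  rw [h2]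
  unfold wed
  push_cast
  ring

theorem ee_smsm {F : Fin 3 → MvPolynomial (Fin 3) ℂ} {μ μ' : Measure V} (hμ : IsCur F μ)
    (hμ' : IsCur F μ') {ε : ℝ} (hε : 0 < ε) (h1 : ε ≤ 1) {x : V} (hx : x ≠ 0) :
    ee (sm F μ ε x) (sm F μ' ε x) =
      ((∫ y, ∫ y', kk ε (tau x y) * kk ε (tau x y') / (N x) ^ 2 *
        (wed (perp x (wv F y)) (perp x (wv F y')) +
          ε ^ 2 * (N (perp x (wv F y)) + N (perp x (wv F y'))) + 2 * ε ^ 4) ∂μ' ∂μ : ℝ) : ℂ) := by
  have hA : ∀ j k, Integrable (fun y : V => smK ε y (wv F y) x j k) μ := fun j k =>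
    SmA_int hμ hε h1 hx j k
  have hA' : ∀ j k, Integrable (fun y : V => smK ε y (wv F y) x j k) μ' := fun j k =>
    SmA_int hμ' hε h1 hx j k
  have e1 : ee (sm F μ ε x) (sm F μ' ε x) =
      ∫ y, ee (smK ε y (wv F y) x) (sm F μ' ε x) ∂μ := by
    have h := SmF_lin (sm F μ' ε x) hA
    rw [SmF_comm]
    rw [show (fun y => ee (smK ε y (wv F y) x) (sm F μ' ε x)) =
      fun y => ee (sm F μ' ε x) (smK ε y (wv F y) x) from funext fun y => SmF_comm _ _]
    exact h.symm
  have e2 : ∀ y, ee (smK ε y (wv F y) x) (sm F μ' ε x) =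
      ∫ y', ee (smK ε y (wv F y) x) (smK ε y' (wv F y') x) ∂μ' := fun y =>
    (SmF_lin (smK ε y (wv F y) x) hA').symm
  rw [e1]
  simp only [e2, ee_smKK _ _ _ _ hx]
  simp only [integral_complex_ofReal]

end Pool.Agent.H85.DC

end S_H85_DC_SmF

section S_H85_DC_Dir

/-!
# Row Dir: regularity of the direction field

`wed a b = N a N b - |ip a b|^2 = N (cr a b)` (`tau_cross`).
(1) `x` unit, `w, v` arbitrary, `w' = perp x w`, `v' = perp x v`. `cr x w = cr x w'`, and for vectors `w', v'` orthogonal to `x`: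
`wed w' v' = N (cr (cr x w) (cr x v))`: `(x × w) × (x × v) = det(x,w,v) x` (bilinear identity `cr (cr a b) (cr a c) = (a · cr b c) a`), so the right side is `|det(x,w,v)|^2 = |det (x,w',v')|^2`, and
`|det(x,w',v')|^2 = N (cr w' v')` when `N x = 1`, `w', v' ⊥ x` (`cr w' v'` is a multiple of `conj x`, as it is orthogonal (bilinearly) to `w'`, `v'`; or verify with `tau_cross` applied to
`A = cr x w'`, `B = cr x v'`: `N A = N w'`, `N B = N v'`, `|ip A B| = |ip w' v'|` since `ip (cr x a) (cr x b) = N x ip a b - ip a x ip x b` (Binet–Cauchy)). Best: prove Binet–Cauchy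
`ip (cr x a) (cr x b) = (N x) ip a b - ip a x * conj (ip b x)` by expansion, get `N (cr x w) = N w'`, `ip (cr x w)(cr x v) = ip w' v'`, so `wed w' v' = wed (cr x w) (cr x v) = N (cr (cr x w) (cr x v))`.
(2) `n_y := cr y (wv F y) = (√N(eta))⁻¹ eta F y`, a unit vector (`wv_cr`). Unit `x, y, y'`, `l, l'` phases with `N (x - l y) ≤ 2 tau x y`, `N (x - l' y') ≤ 2 tau x y'` (`tau_phase`). Put `A = cr x w_y`, `B = cr x w_{y'}`,
`N A ≤ 1`, `N B ≤ 1` (`N (cr a b) ≤ N a N b`). `A - l n_y = cr (x - l y) w_y`, norm² `≤ 2 tau x y`; same for `B`.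
`cr A B = cr (A - l n_y) B + cr (l n_y) (B - l' n_{y'}) + l l' cr n_y n_{y'}`, so `N (cr A B) ≤ 3 (2 tau x y + 2 tau x y' + N (cr n_y n_{y'}))`.
(3) `N (cr n_y n_{y'})`: phase `k` with `N (y - k y') ≤ 2 tau y y'`; `eta F (k y') = k^(d+1) eta F y'` (`eta_hom`), so `N (cr n_y n_{y'}) = N (cr (eta y) (eta (k y')))/(N(eta y) N(eta y')) = N (cr (eta y - eta (k y')) (eta (k y')))/…
≤ N (eta y - eta (k y'))/N (eta y) ≤ C N (y - k y')/N (eta y) ≤ 2 C tau y y'/N (eta y)` (`eta_lip`).
(4) General `x ≠ 0`: `perp (l x) w = perp x w` and `tau (l x) y = tau x y`: reduce to unit `x`.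
-/

open MeasureTheory
open scoped ContDiff BigOperators ComplexConjugate Matrix

namespace Pool.Agent.H85.DC

theorem binet (x a b : V) : ip (cr x a) (cr x b) = (N x : ℂ) * ip a b - ip a x * conj (ip b x) := by
  rw [← TauM_ip_self x]
  unfold ip cr
  simp only [Fin.sum_univ_three, Matrix.cons_val_zero, Matrix.cons_val_one, Matrix.cons_val,
    map_add, map_sub, map_mul, Complex.conj_conj]
  ring

theorem wed_le {a b : V} : wed a b ≤ N a * N b := by
  unfold wed
  have := Complex.normSq_nonneg (ip a b)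
  linarith

theorem wed_nonneg (a b : V) : 0 ≤ wed a b := by
  unfold wed
  have := cs_ip a b
  linarith

private theorem Dir_wed (a b : V) : wed a b = N (cr a b) := by
  unfold wed
  rw [tau_cross]

private theorem Dir_cr_le (a b : V) : N (cr a b) ≤ N a * N b := by
  rw [← Dir_wed]; exact wed_le

private theorem Dir_ip_sub (a b x : V) (s t : ℂ) :
    ip (a - s • x) (b - t • x) = ip a b - conj t * ip a x - s * conj (ip b x) +
      s * conj t * (N x : ℂ) := by
  rw [← TauM_ip_self x]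
  simp only [ip, Fin.sum_univ_three, Pi.sub_apply, Pi.smul_apply, smul_eq_mul, map_add, map_sub,
    map_mul, Complex.conj_conj]
  ring

private theorem Dir_perp {x : V} (hx : N x = 1) (w v : V) :
    ip (perp x w) (perp x v) = ip (cr x w) (cr x v) := by
  unfold perp
  rw [Dir_ip_sub, binet, hx, Complex.ofReal_one, div_one, div_one]
  ring

private theorem Dir_perpN {x : V} (hx : N x = 1) (w : V) : N (perp x w) = N (cr x w) := by
  have h := Dir_perp hx w w
  rw [TauM_ip_self, TauM_ip_self] at h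
  exact_mod_cast h

private theorem Dir_key {x : V} (hx : N x = 1) (w v : V) :
    wed (perp x w) (perp x v) = N (cr (cr x w) (cr x v)) := by
  rw [← Dir_wed]
  unfold wed
  rw [Dir_perp hx, Dir_perpN hx, Dir_perpN hx]

private theorem Dir_perp_smul {l : ℂ} (hl : l ≠ 0) {x : V} (hx : x ≠ 0) (w : V) :
    perp (l • x) w = perp x w := by
  unfold perp
  have h1 : (Complex.normSq l : ℂ) = l * conj l := (Complex.mul_conj l).symm
  have h2 : (N x : ℂ) ≠ 0 := by exact_mod_cast (TauM_N_pos hx).ne'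
  have h3 : conj l ≠ 0 := (map_ne_zero _).2 hl
  rw [TauM_ip_smul_right, TauM_N_smul, Complex.ofReal_mul, h1, smul_smul]
  congr 2
  field_simp

private theorem Dir_s {t : ℝ} (ht : 0 < t) : Complex.normSq (((Real.sqrt t)⁻¹ : ℂ)) = t⁻¹ := by
  rw [map_inv₀, Complex.normSq_ofReal, Real.mul_self_sqrt ht.le]

private theorem Dir_eta {F : Fin 3 → MvPolynomial (Fin 3) ℂ} {d : ℕ}
    (hF : ∀ j, (F j).IsHomogeneous d) {C : ℝ} (hC0 : 0 < C)
    (hC : ∀ y y' : V, N y = 1 → N y' = 1 → N (eta F y - eta F y') ≤ C * N (y - y')) {y y' : V}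
    (hy : N y = 1) (hy' : N y' = 1) (h : eta F y ≠ 0) (h' : eta F y' ≠ 0) :
    N (cr (cr y (wv F y)) (cr y' (wv F y'))) ≤ 2 * C * (tau y y' / N (eta F y)) := by
  obtain ⟨k, hk, hky⟩ := tau_phase hy hy'
  have p1 := TauM_N_pos h
  have p2 := TauM_N_pos h'
  have hky' : N (k • y') = 1 := by rw [TauM_N_smul, hk, hy', one_mul]
  have e1 : N (cr (eta F y) (eta F y')) = N (cr (eta F y) (eta F (k • y'))) := by
    rw [eta_hom hF, cr_smul_right, TauM_N_smul, map_pow, hk, one_pow, one_mul]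
  have e2 : cr (eta F y) (eta F (k • y')) = cr (eta F y - eta F (k • y')) (eta F (k • y')) := by
    rw [cr_sub_left, cr_self, sub_zero]
  have e3 : N (eta F (k • y')) = N (eta F y') := by
    rw [eta_hom hF, TauM_N_smul, map_pow, hk, one_pow, one_mul]
  have e4 : N (cr (eta F y) (eta F y')) ≤ 2 * C * tau y y' * N (eta F y') := by
    rw [e1, e2]
    refine (Dir_cr_le _ _).trans ?_
    rw [e3]
    refine mul_le_mul_of_nonneg_right ?_ p2.le
    have h1 := hC y (k • y') hy hky'
    nlinarith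
  rw [wv_cr, wv_cr, cr_smul_left, cr_smul_right, TauM_N_smul, TauM_N_smul, Dir_s p1, Dir_s p2]
  calc (N (eta F y))⁻¹ * ((N (eta F y'))⁻¹ * N (cr (eta F y) (eta F y')))
      ≤ (N (eta F y))⁻¹ * ((N (eta F y'))⁻¹ * (2 * C * tau y y' * N (eta F y'))) := by
        gcongr
    _ = 2 * C * (tau y y' / N (eta F y)) := by
        field_simp

private theorem Dir_unit {F : Fin 3 → MvPolynomial (Fin 3) ℂ} {d : ℕ}
    (hF : ∀ j, (F j).IsHomogeneous d) {C : ℝ} (hC0 : 0 < C)
    (hC : ∀ y y' : V, N y = 1 → N y' = 1 → N (eta F y - eta F y') ≤ C * N (y - y')) {x y y' : V}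
    (hx : N x = 1) (hy : N y = 1) (hy' : N y' = 1) (h : eta F y ≠ 0) (h' : eta F y' ≠ 0) :
    wed (perp x (wv F y)) (perp x (wv F y')) ≤
        (8 + 4 * C) * (tau x y + tau x y' + tau y y' / N (eta F y)) := by
  obtain ⟨l, hl, hly⟩ := tau_phase hx hy
  obtain ⟨l', hl', hly'⟩ := tau_phase hx hy'
  have w1 := wv_unit hy h
  have v1 := wv_unit hy' h'
  rw [Dir_key hx]
  obtain ⟨w, hw⟩ : ∃ w, w = wv F y := ⟨_, rfl⟩
  obtain ⟨v, hv⟩ : ∃ v, v = wv F y' := ⟨_, rfl⟩
  have h3 := Dir_eta hF hC0 hC hy hy' h h'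
  rw [← hw, ← hv] at h3 ⊢
  rw [← hw] at w1
  rw [← hv] at v1
  have e : cr (cr x w) (cr x v) = (cr (cr (x - l • y) w) (cr x v) +
      cr (l • cr y w) (cr (x - l' • y') v)) + cr (l • cr y w) (l' • cr y' v) := by
    have a1 : cr (x - l • y) w = cr x w - l • cr y w := by rw [cr_sub_left, cr_smul_left]
    have a2 : cr (x - l' • y') v = cr x v - l' • cr y' v := by rw [cr_sub_left, cr_smul_left]
    rw [a1, a2, cr_sub_left, cr_sub_right]
    abel
  have n1 : N (cr (cr (x - l • y) w) (cr x v)) ≤ 2 * tau x y := by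
    have b1 := Dir_cr_le (x - l • y) w
    have b2 := Dir_cr_le x v
    have b3 := Dir_cr_le (cr (x - l • y) w) (cr x v)
    rw [w1, mul_one] at b1
    rw [hx, v1, mul_one] at b2
    have b4 := TauM_N_nonneg (cr (x - l • y) w)
    have b5 := TauM_N_nonneg (cr x v)
    nlinarith
  have n2 : N (cr (l • cr y w) (cr (x - l' • y') v)) ≤ 2 * tau x y' := by
    have b1 := Dir_cr_le (x - l' • y') v
    have b2 := Dir_cr_le y w
    have b3 := Dir_cr_le (l • cr y w) (cr (x - l' • y') v)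
    rw [TauM_N_smul, hl, one_mul] at b3
    rw [v1, mul_one] at b1
    rw [hy, w1, mul_one] at b2
    have b4 := TauM_N_nonneg (cr (x - l' • y') v)
    have b5 := TauM_N_nonneg (cr y w)
    nlinarith
  have n3 : N (cr (l • cr y w) (l' • cr y' v)) ≤ 2 * C * (tau y y' / N (eta F y)) := by
    rw [cr_smul_left, cr_smul_right, TauM_N_smul, TauM_N_smul, hl, hl', one_mul, one_mul]
    exact h3
  have m1 := N_add_le (cr (cr (x - l • y) w) (cr x v)) (cr (l • cr y w) (cr (x - l' • y') v))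
  have m2 := N_add_le (cr (cr (x - l • y) w) (cr x v) +
      cr (l • cr y w) (cr (x - l' • y') v)) (cr (l • cr y w) (l' • cr y' v))
  rw [e]
  have t1 := tau_nonneg x y
  have t2 := tau_nonneg x y'
  have t3 : 0 ≤ tau y y' / N (eta F y) := div_nonneg (tau_nonneg y y') (TauM_N_nonneg _)
  nlinarith [mul_nonneg hC0.le t1, mul_nonneg hC0.le t2, mul_nonneg hC0.le t3]

theorem dir {F : Fin 3 → MvPolynomial (Fin 3) ℂ} {d : ℕ} (hF : ∀ j, (F j).IsHomogeneous d) :
    ∃ C : ℝ, 0 < C ∧ ∀ x y y' : V, x ≠ 0 → N y = 1 → N y' = 1 → eta F y ≠ 0 → eta F y' ≠ 0 →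
      wed (perp x (wv F y)) (perp x (wv F y')) ≤
        C * (tau x y + tau x y' + tau y y' / N (eta F y)) := by
  obtain ⟨C, hC0, hC⟩ := eta_lip F
  refine ⟨8 + 4 * C, by positivity, ?_⟩
  intro x y y' hx hy hy' h h'
  have hN := TauM_N_pos hx
  have hl : (((Real.sqrt (N x))⁻¹ : ℝ) : ℂ) ≠ 0 := by
    have : 0 < Real.sqrt (N x) := Real.sqrt_pos.2 hN
    exact_mod_cast (inv_pos.2 this).ne'
  have hu : N ((((Real.sqrt (N x))⁻¹ : ℝ) : ℂ) • x) = 1 := by
    rw [TauM_N_smul, Complex.normSq_ofReal, ← mul_inv, Real.mul_self_sqrt hN.le]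
    exact inv_mul_cancel₀ hN.ne'
  have key := Dir_unit hF hC0 hC hu hy hy' h h'
  rwa [Dir_perp_smul hl hx, Dir_perp_smul hl hx, tau_smul_left hl, tau_smul_left hl] at key

end Pool.Agent.H85.DC

end S_H85_DC_Dir

section S_H85_DC_Nst

/-!
# Row Nst: Łojasiewicz inequality from the Nullstellensatz

The components of `eta F y` are the values at `y` of polynomials `e_0, e_1, e_2 ∈ ℂ[X_0,X_1,X_2]` (`e_0 = X_1 F_2 - X_2 F_1`, …). For `p ∈ P` and `c : Fin 3` let
`l_{p,c} = ` the linear polynomial with value `cr y p c` at `y`. For every map `c : P → Fin 3` the polynomial `g_c = ∏_{p ∈ P} l_{p, c p}` vanishes at every common zero of the `e_i`: if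
`eta F y = 0` and `y ≠ 0` then `y = a • p` for some `p ∈ P` (`SingPts.zero`), so `cr y p = 0`; if `y = 0`, all `l_{p,c}` vanish there (when `P` is nonempty). If `P` is empty then the only common zero is `0`, and
`g = 1` does not vanish there: in that case use compactness directly: `N (eta F y)` is continuous and positive on the compact unit sphere. (Or multiply all `g_c` by each coordinate `X_i`.)
Hilbert's Nullstellensatz (`MvPolynomial.vanishingIdeal_zeroLocus_eq_radical`): `g_c^M ∈ (e_0,e_1,e_2)` for some `M`, the same for all (finitely many) `c` (take the maximum). So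
`g_c(y)^M = ∑ h_i(y) e_i(y)`, hence `|g_c(y)|^{2M} ≤ C N (eta F y)` for `N y = 1` (`h_i` bounded on the sphere). Sum over `c`: `∏_{p} N (cr y p) = ∑_c |g_c(y)|^2` (`Finset.prod_univ_sum`), so
`(∏_p N (cr y p))^M ≤ (#c)^M max_c |g_c|^{2M} ≤ C' N (eta F y)`, and `N (cr y p) = tau y p` for unit vectors (`tau_cross'`).
-/

open MeasureTheory
open scoped ContDiff BigOperators ComplexConjugate Matrix

namespace Pool.Agent.H85.DC

/-- the polynomials of `eta` -/
noncomputable def Nst_e (F : Fin 3 → MvPolynomial (Fin 3) ℂ) : Fin 3 → MvPolynomial (Fin 3) ℂ :=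
  ![MvPolynomial.X 1 * F 2 - MvPolynomial.X 2 * F 1, MvPolynomial.X 2 * F 0 - MvPolynomial.X 0 * F 2,
    MvPolynomial.X 0 * F 1 - MvPolynomial.X 1 * F 0]

theorem Nst_eval_e (F : Fin 3 → MvPolynomial (Fin 3) ℂ) (y : V) (j : Fin 3) :
    MvPolynomial.eval y (Nst_e F j) = eta F y j := by
  fin_cases j <;> simp [Nst_e, eta, Zf]

/-- the linear forms of the cross product -/
noncomputable def Nst_l (p : V) : Fin 3 → MvPolynomial (Fin 3) ℂ :=
  ![MvPolynomial.X 1 * MvPolynomial.C (p 2) - MvPolynomial.X 2 * MvPolynomial.C (p 1),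
    MvPolynomial.X 2 * MvPolynomial.C (p 0) - MvPolynomial.X 0 * MvPolynomial.C (p 2),
    MvPolynomial.X 0 * MvPolynomial.C (p 1) - MvPolynomial.X 1 * MvPolynomial.C (p 0)]

theorem Nst_eval_l (p y : V) (j : Fin 3) : MvPolynomial.eval y (Nst_l p j) = cr y p j := by
  fin_cases j <;> simp [Nst_l, cr]

/-- the products -/
noncomputable def Nst_g (P : Finset V) (a : Fin 3 × (P → Fin 3)) : MvPolynomial (Fin 3) ℂ :=
  MvPolynomial.X a.1 * ∏ p : P, Nst_l p.1 (a.2 p)

theorem Nst_eval_g (P : Finset V) (a : Fin 3 × (P → Fin 3)) (y : V) :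
    MvPolynomial.eval y (Nst_g P a) = y a.1 * ∏ p : P, cr y p.1 (a.2 p) := by
  rw [Nst_g, map_mul, MvPolynomial.eval_X, map_prod]
  simp only [Nst_eval_l]

theorem Nst_unit_ne {x : V} (h : N x = 1) : x ≠ 0 := by
  rintro rfl
  simp [N] at h

theorem Nst_rad {F : Fin 3 → MvPolynomial (Fin 3) ℂ} {P : Finset V} (hP : SingPts F P)
    (a : Fin 3 × (P → Fin 3)) : Nst_g P a ∈ (Ideal.span (Set.range (Nst_e F))).radical := by
  rw [← MvPolynomial.vanishingIdeal_zeroLocus_eq_radical (K := ℂ),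
    MvPolynomial.mem_vanishingIdeal_iff]
  intro y hy
  have h1 : ∀ j, eta F y j = 0 := by
    intro j
    have h2 := hy (Nst_e F j) (Ideal.subset_span ⟨j, rfl⟩)
    rw [← Nst_eval_e, ← MvPolynomial.coe_aeval_eq_eval]
    exact h2
  have h3 : MvPolynomial.eval y (Nst_g P a) = 0 := by
    rw [Nst_eval_g]
    by_cases hy0 : y = 0
    · rw [hy0]
      simp
    · obtain ⟨p, hp, c, rfl⟩ := (hP.zero y hy0).1 (funext h1)
      refine mul_eq_zero_of_right _ (Finset.prod_eq_zero (Finset.mem_univ (⟨p, hp⟩ : P)) ?_)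
      rw [cr_smul_left, cr_self, smul_zero]
      rfl
  rw [← MvPolynomial.coe_aeval_eq_eval] at h3
  exact h3

theorem Nst_normSq_add (a b : ℂ) :
    Complex.normSq (a + b) ≤ 2 * Complex.normSq a + 2 * Complex.normSq b := by
  have h := Complex.normSq_nonneg (a - b)
  rw [Complex.normSq_apply] at *
  simp only [Complex.normSq_apply, Complex.add_re, Complex.add_im, Complex.sub_re,
    Complex.sub_im] at *
  linarith

theorem Nst_coord (v : V) (i : Fin 3) : Complex.normSq (v i) ≤ N v :=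
  Finset.single_le_sum (f := fun j => Complex.normSq (v j)) (fun _ _ => Complex.normSq_nonneg _)
    (Finset.mem_univ i)

theorem Nst_max (v : V) : ∃ i, N v ≤ 3 * Complex.normSq (v i) := by
  obtain ⟨i, hi⟩ := Finite.exists_max (fun i => Complex.normSq (v i))
  refine ⟨i, ?_⟩
  have h := Finset.sum_le_card_nsmul (Finset.univ : Finset (Fin 3))
    (fun j => Complex.normSq (v j)) _ (fun j _ => hi j)
  rw [Finset.card_univ, Fintype.card_fin, nsmul_eq_mul] at h
  exact_mod_cast h

theorem Nst_bound {F : Fin 3 → MvPolynomial (Fin 3) ℂ} {f : MvPolynomial (Fin 3) ℂ}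
    (hf : f ∈ Ideal.span (Set.range (Nst_e F))) :
    ∃ C : ℝ, 0 ≤ C ∧ ∀ y : V, N y = 1 →
      Complex.normSq (MvPolynomial.eval y f) ≤ C * N (eta F y) := by
  refine Submodule.span_induction ?_ ?_ ?_ ?_ hf
  · rintro _ ⟨j, rfl⟩
    refine ⟨1, zero_le_one, fun y _ => ?_⟩
    rw [Nst_eval_e, one_mul]
    exact Nst_coord _ j
  · refine ⟨0, le_rfl, fun y _ => ?_⟩
    simp
  · rintro x z _ _ ⟨C, hC, h1⟩ ⟨D, hD, h2⟩
    refine ⟨2 * C + 2 * D, by positivity, fun y hy => ?_⟩
    rw [map_add]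
    have h3 := Nst_normSq_add (MvPolynomial.eval y x) (MvPolynomial.eval y z)
    have h4 := h1 y hy
    have h5 := h2 y hy
    linarith
  · rintro h x _ ⟨C, hC, h1⟩
    have hc : Continuous (fun y : V => Complex.normSq (MvPolynomial.eval y h)) :=
      Complex.continuous_normSq.comp (MvPolynomial.continuous_eval h)
    obtain ⟨B, hB⟩ := compact_sphere.exists_bound_of_continuousOn hc.continuousOn
    refine ⟨|B| * C, by positivity, fun y hy => ?_⟩
    rw [smul_eq_mul, map_mul, map_mul]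
    have h2 := hB y hy
    rw [Real.norm_eq_abs, abs_of_nonneg (Complex.normSq_nonneg _)] at h2
    have h3 := h1 y hy
    calc Complex.normSq (MvPolynomial.eval y h) * Complex.normSq (MvPolynomial.eval y x)
        ≤ |B| * (C * N (eta F y)) :=
          mul_le_mul (h2.trans (le_abs_self B)) h3 (Complex.normSq_nonneg _) (abs_nonneg B)
      _ = |B| * C * N (eta F y) := by ring

theorem Nst_lower {F : Fin 3 → MvPolynomial (Fin 3) ℂ} {P : Finset V} (hP : SingPts F P) {y : V}
    (hy : N y = 1) : ∃ a : Fin 3 × (P → Fin 3), ∏ p ∈ P, tau y p ≤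
      3 ^ (P.card + 1) * Complex.normSq (MvPolynomial.eval y (Nst_g P a)) := by
  obtain ⟨i, hi⟩ := Nst_max y
  choose c hc using fun p : P => Nst_max (cr y p.1)
  refine ⟨(i, c), ?_⟩
  have h1 : ∀ p : P, tau y p.1 = N (cr y p.1) := by
    intro p
    rw [tau_cross' (Nst_unit_ne hy) (Nst_unit_ne (hP.unit p.1 p.2)), hy, hP.unit p.1 p.2,
      one_mul, one_mul]
  rw [← Finset.prod_coe_sort, Nst_eval_g, map_mul, map_prod]
  have h2 : ∏ p : P, tau y p.1 ≤ ∏ p : P, 3 * Complex.normSq (cr y p.1 (c p)) := by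
    refine Finset.prod_le_prod (fun p _ => tau_nonneg _ _) (fun p _ => ?_)
    rw [h1 p]
    exact hc p
  rw [Finset.prod_mul_distrib, Finset.prod_const, Finset.card_univ, Fintype.card_coe] at h2
  refine h2.trans ?_
  rw [hy] at hi
  have h3 : 0 ≤ ∏ p : P, Complex.normSq (cr y p.1 (c p)) :=
    Finset.prod_nonneg fun p _ => Complex.normSq_nonneg _
  have h4 : 0 ≤ (3 : ℝ) ^ P.card * ∏ p : P, Complex.normSq (cr y p.1 (c p)) := by positivity
  calc (3 : ℝ) ^ P.card * ∏ p : P, Complex.normSq (cr y p.1 (c p))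
      = 1 * ((3 : ℝ) ^ P.card * ∏ p : P, Complex.normSq (cr y p.1 (c p))) := by rw [one_mul]
    _ ≤ 3 * Complex.normSq (y i) * ((3 : ℝ) ^ P.card * ∏ p : P, Complex.normSq (cr y p.1 (c p))) :=
        mul_le_mul_of_nonneg_right hi h4
    _ = 3 ^ (P.card + 1) * (Complex.normSq (y i) * ∏ p : P, Complex.normSq (cr y p.1 (c p))) := by
        rw [pow_succ]
        ring

theorem nullst {F : Fin 3 → MvPolynomial (Fin 3) ℂ} {P : Finset V} (hP : SingPts F P) :
    ∃ (c : ℝ) (m : ℕ), 0 < c ∧ ∀ y : V, N y = 1 → c * (∏ p ∈ P, tau y p) ^ m ≤ N (eta F y) := by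
  obtain ⟨M, hM⟩ := (Ideal.span (Set.range (Nst_e F))).exists_radical_pow_le_of_fg
    (Ideal.fg_of_isNoetherianRing _)
  have h1 : ∀ a : Fin 3 × (P → Fin 3), Nst_g P a ^ M ∈ Ideal.span (Set.range (Nst_e F)) :=
    fun a => hM (Ideal.pow_mem_pow (Nst_rad hP a) M)
  choose C hC0 hC using fun a => Nst_bound (h1 a)
  obtain ⟨D, hD, hCD⟩ : ∃ D : ℝ, 0 < D ∧ ∀ a, C a ≤ D := by
    refine ⟨∑ a, C a + 1, ?_, fun a => ?_⟩
    · have := Finset.sum_nonneg fun a (_ : a ∈ Finset.univ) => hC0 a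
      linarith
    · have := Finset.single_le_sum (f := C) (fun a _ => hC0 a) (Finset.mem_univ a)
      linarith
  refine ⟨((3 ^ (P.card + 1)) ^ M * D)⁻¹, M, by positivity, fun y hy => ?_⟩
  obtain ⟨a, ha⟩ := Nst_lower hP hy
  have h2 : 0 ≤ ∏ p ∈ P, tau y p := Finset.prod_nonneg fun p _ => tau_nonneg _ _
  have h3 := pow_le_pow_left₀ h2 ha M
  rw [mul_pow, ← map_pow, ← map_pow] at h3
  have h4 := hC a y hy
  have h5 : 0 ≤ N (eta F y) := Finset.sum_nonneg fun _ _ => Complex.normSq_nonneg _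
  have h6 : C a * N (eta F y) ≤ D * N (eta F y) := mul_le_mul_of_nonneg_right (hCD a) h5
  rw [inv_mul_le_iff₀ (by positivity)]
  calc (∏ p ∈ P, tau y p) ^ M
      ≤ (3 ^ (P.card + 1)) ^ M * Complex.normSq (MvPolynomial.eval y (Nst_g P a ^ M)) := h3
    _ ≤ (3 ^ (P.card + 1)) ^ M * (D * N (eta F y)) :=
        mul_le_mul_of_nonneg_left (h4.trans h6) (by positivity)
    _ = (3 ^ (P.card + 1)) ^ M * D * N (eta F y) := by ring

/-- Lower bound on `Kr P r`. -/
theorem nullst_Kr {F : Fin 3 → MvPolynomial (Fin 3) ℂ} {P : Finset V} (hP : SingPts F P) :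
    ∃ (c : ℝ) (m : ℕ), 0 < c ∧ ∀ (r : ℝ), 0 < r → r ≤ 1 → ∀ y ∈ Kr P r, c * r ^ m ≤ N (eta F y) := by
  obtain ⟨c, m, hc, h⟩ := nullst hP
  refine ⟨c, P.card * m, hc, fun r hr _ y hy => ?_⟩
  refine le_trans ?_ (h y hy.1)
  refine mul_le_mul_of_nonneg_left ?_ hc.le
  rw [pow_mul]
  refine pow_le_pow_left₀ (by positivity) ?_ m
  rw [← Finset.prod_const]
  exact Finset.prod_le_prod (fun _ _ => hr.le) (fun p hp => hy.2 p hp)

theorem Nst_pair_meas (p : V) : Measurable (fun y : V => (y, p)) :=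
  measurable_id.prodMk measurable_const

theorem Nst_comp_meas (p : V) :
    Measurable ((fun q : V × V => tau q.1 q.2) ∘ (fun y : V => (y, p))) :=
  measurable_tau.comp (Nst_pair_meas p)

theorem Nst_comp_eq (p : V) :
    ((fun q : V × V => tau q.1 q.2) ∘ (fun y : V => (y, p))) = fun y : V => tau y p := rfl

theorem Nst_tau_meas (p : V) : Measurable (fun y : V => tau y p) :=
  Nst_comp_eq p ▸ Nst_comp_meas p

theorem Nst_inter_meas (P : Finset V) (r : ℝ) : MeasurableSet (⋂ p ∈ P, {y : V | r ≤ tau y p}) :=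
  Finset.measurableSet_biInter P fun p _ => measurableSet_le measurable_const (Nst_tau_meas p)

theorem Nst_Kr_eq (P : Finset V) (r : ℝ) :
    Kr P r = {y | N y = 1} ∩ ⋂ p ∈ P, {y | r ≤ tau y p} := by
  ext y
  simp [Kr]

theorem Kr_meas (P : Finset V) (r : ℝ) : MeasurableSet (Kr P r) := by
  rw [Nst_Kr_eq]
  exact (isClosed_eq continuous_N continuous_const).measurableSet.inter (Nst_inter_meas P r)

/-- Every unit vector off the singular set lies in some `Kr P r`. -/
theorem mem_Kr {F : Fin 3 → MvPolynomial (Fin 3) ℂ} {P : Finset V} (hP : SingPts F P) {y : V}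
    (hy : N y = 1) (h : eta F y ≠ 0) : ∃ r : ℝ, 0 < r ∧ y ∈ Kr P r := by
  have h1 : ∀ p ∈ P, 0 < tau y p := by
    intro p hp
    refine lt_of_le_of_ne (tau_nonneg _ _) fun h2 => h ?_
    obtain ⟨c, hc⟩ := tau_eq_zero (Nst_unit_ne hy) (Nst_unit_ne (hP.unit p hp)) h2.symm
    exact (hP.zero y (Nst_unit_ne hy)).2 ⟨p, hp, c, hc⟩
  rcases P.eq_empty_or_nonempty with hE | hE
  · refine ⟨1, one_pos, hy, fun p hp => ?_⟩
    rw [hE] at hp
    exact absurd hp (Finset.notMem_empty p)
  · obtain ⟨p, hp, h2⟩ := Finset.exists_min_image P (fun p => tau y p) hE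
    exact ⟨tau y p, h1 p hp, hy, h2⟩

end Pool.Agent.H85.DC

end S_H85_DC_Nst
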