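import Mathlib
import Pool.Agent.H24.M68.G04
import Pool.Agent.H24.M68.G06
import Pool.Agent.H24.M68.G07
import Pool.Agent.H24.M68.G08
import Pool.Agent.H24.M68.G10

/-! MP_6873ef_an: this file joins several modules to save build time. -/

section S_H24_CU_KB

/-!
# Row KB (energy of `log |α|` off the singular set)

PROOF.  `Φ` from `FC76.exists_convexCutoff`: smooth, `Φ = 0` on `(-∞,0]`, `0 <= Φ' <= 1`, `Φ'' >= 0`, `Φ'' >= c > 0` on `[1,2]`.
For real `R`: `u y = Φ (la y + R)` if `α y ≠ 0`, `0` otherwise.  `IsFun u`: homogeneous of degree `0` (`alpha (t y) = t^(deg+1) alpha y`);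
smooth on `{α ≠ 0}`; near a zero of `α` (off the origin) `la → -∞`, so `u = 0` there.
`levi u = Φ'(la + R) levi la + Φ''(la + R) gradm la la` (`levi_comp`) where `α ≠ 0`.
`levi la y (vec y) = levi (log nsq α) y (vec y) - (deg+1) levi (log nsq) y (vec y)`, first term `>= 0` (`log` of the sum of the squares of
three holomorphic functions: `levi_comp`, `levi (nsq α) y v = nsq (Dα v)`, `gradm (nsq α)(nsq α) = |herm (Dα v) α|^2 <= nsq (Dα v) nsq α`),
second: `levi_log_nsq` and `nsq_cross`: `= nsq (α y) / nsq y^2`.  So on the unit sphere off `{α = 0}`: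
`levi u y (vec y)/nsq (α y) >= Φ''(la y + R) gradm la la y (vec y)/nsq (α y) - (deg + 1)`.
`∫ levi u y (vec y)/nsq (α y) dμ = 0` (`Harm.harm`; integrable by `integrable_levi_div`), so
`∫⁻_{1 <= la + R <= 2} ofReal (gradm la la y (vec y)/nsq (α y)) dμ <= ofReal ((deg + 1) μ(univ)/c)`.
On the sphere `la y = log nsq (α y)`; `{r <= nsq (α y)}` is covered by the sets `1 - R <= la <= 2 - R` with `R = 1 - log r - i`, `i = 0, 1, .., n`,
`n <= B + log (1/r) + 1`, `B >= log (sup nsq α) `, `B >= 0`.  Sum: `<= (n+1)(deg+1) μ(univ)/c <= C (1 + log (1/r))`.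
-/

namespace Pool.Agent.H24.CU

open MeasureTheory
open scoped ComplexConjugate ContDiff

theorem KB_add {A B : V → ℝ} {y w : V} (hA : ContDiffAt ℝ 2 A y) (hB : ContDiffAt ℝ 2 B y)
    (hA0 : 0 ≤ A y) (hB0 : 0 ≤ B y) (hlA : 0 ≤ levi A y w) (hlB : 0 ≤ levi B y w)
    (h1 : gradm A A y w ≤ A y * levi A y w) (h2 : gradm B B y w ≤ B y * levi B y w) :
    ContDiffAt ℝ 2 (fun x => A x + B x) y ∧ 0 ≤ A y + B y ∧ 0 ≤ levi (fun x => A x + B x) y w ∧
    gradm (fun x => A x + B x) (fun x => A x + B x) y w ≤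
      (A y + B y) * levi (fun x => A x + B x) y w := by
  have hAB : ContDiffAt ℝ 2 (fun x => A x + B x) y := hA.add hB
  have hg : gradm (fun x => A x + B x) (fun x => A x + B x) y w =
      gradm A A y w + 2 * gradm A B y w + gradm B B y w := by
    unfold gradm
    rw [fderiv_fun_add (hA.differentiableAt (by simp)) (hB.differentiableAt (by simp))]
    simp only [add_apply]
    ring
  have h3 := gradm_sq_le A B y w
  have h5 := gradm_self_nonneg B y w
  have h7 : 2 * gradm A B y w ≤ A y * levi B y w + B y * levi A y w := by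
    have h8 : (2 * gradm A B y w) ^ 2 ≤ (A y * levi B y w + B y * levi A y w) ^ 2 := by
      have h9 : gradm A A y w * gradm B B y w ≤ (A y * levi A y w) * (B y * levi B y w) :=
        mul_le_mul h1 h2 h5 (mul_nonneg hA0 hlA)
      nlinarith [sq_nonneg (A y * levi B y w - B y * levi A y w)]
    exact (abs_le_of_sq_le_sq' h8 (by positivity)).2
  refine ⟨hAB, add_nonneg hA0 hB0, ?_, ?_⟩
  · rw [levi_add hA hB]
    exact add_nonneg hlA hlB
  · rw [levi_add hA hB, hg]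
    nlinarith

theorem KB_nsq_alpha (𝓕 : Foliation) (y v : V) :
    ContDiffAt ℝ 2 (fun x => nsq (𝓕.alpha x)) y ∧
      gradm (fun x => nsq (𝓕.alpha x)) (fun x => nsq (𝓕.alpha x)) y v ≤
        nsq (𝓕.alpha y) * levi (fun x => nsq (𝓕.alpha x)) y v := by
  obtain ⟨Q, _, hQ, _⟩ := exists_alpha_poly 𝓕
  have h0 : (fun x => nsq (𝓕.alpha x)) = fun x =>
      ((Complex.normSq (MvPolynomial.eval x (Q 0)) + Complex.normSq (MvPolynomial.eval x (Q 1))) +
        Complex.normSq (MvPolynomial.eval x (Q 2))) := by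
    funext x
    unfold nsq
    rw [Fin.sum_univ_three, hQ, hQ, hQ]
  have hs : ∀ P : MvPolynomial (Fin 3) ℂ,
      ContDiffAt ℝ 2 (fun x : V => Complex.normSq (MvPolynomial.eval x P)) y := fun P =>
    ((RN_normSq_contDiff.comp (RN_poly_contDiff P)).of_le GI_two_le).contDiffAt
  have a0 := GI_normSq_eval (Q 0) y v
  have a1 := GI_normSq_eval (Q 1) y v
  have a2 := GI_normSq_eval (Q 2) y v
  obtain ⟨b1, b2, b3, b4⟩ := KB_add (hs (Q 0)) (hs (Q 1)) (Complex.normSq_nonneg _)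
    (Complex.normSq_nonneg _) a0.1 a1.1 a0.2.le a1.2.le
  obtain ⟨c1, _, _, c4⟩ := KB_add b1 (hs (Q 2)) b2 (Complex.normSq_nonneg _) b3 a2.1 b4 a2.2.le
  rw [h0]
  refine ⟨c1, ?_⟩
  have h1 : nsq (𝓕.alpha y) = (Complex.normSq (MvPolynomial.eval y (Q 0)) +
      Complex.normSq (MvPolynomial.eval y (Q 1))) +
        Complex.normSq (MvPolynomial.eval y (Q 2)) := congrFun h0 y
  rw [h1]
  exact c4

theorem levi_log_alpha_nonneg (𝓕 : Foliation) (y v : V) (h0 : 𝓕.alpha y ≠ 0) :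
    0 ≤ levi (fun x => Real.log (nsq (𝓕.alpha x))) y v := by
  obtain ⟨h1, h2⟩ := KB_nsq_alpha 𝓕 y v
  rw [GI_levi_log h1 (nsq_pos h0).ne']
  refine div_nonneg ?_ (by positivity)
  linarith

theorem KB_la_hom (𝓕 : Foliation) {c : ℂ} {x : V} (hc : c ≠ 0) (hx : x ≠ 0) (h0 : 𝓕.alpha x ≠ 0) :
    𝓕.la (c • x) = 𝓕.la x := by
  unfold Foliation.la
  have h1 : 0 < Complex.normSq c := Complex.normSq_pos.2 hc
  rw [alpha_smul, nsq_smul, nsq_smul, map_pow, Real.log_mul (pow_pos h1 _).ne' (nsq_pos h0).ne',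
    Real.log_mul h1.ne' (nsq_pos hx).ne', Real.log_pow]
  push_cast
  ring

theorem KB_alpha_ne (𝓕 : Foliation) {c : ℂ} {x : V} (hc : c ≠ 0) :
    𝓕.alpha (c • x) = 0 ↔ 𝓕.alpha x = 0 := by
  rw [alpha_smul]
  constructor
  · intro h
    rcases smul_eq_zero.1 h with h1 | h1
    · exact absurd h1 (pow_ne_zero _ hc)
    · exact h1
  · intro h
    rw [h, smul_zero]

theorem KB_la_smooth (𝓕 : Foliation) {y : V} (hy : y ≠ 0) (h0 : 𝓕.alpha y ≠ 0) :
    ContDiffAt ℝ ∞ 𝓕.la y := by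
  have h1 : ContDiffAt ℝ ∞ (fun x : V => nsq (𝓕.alpha x)) y :=
    (RN_nsq_contDiff.comp (RN_alpha_contDiff 𝓕)).contDiffAt
  have h2 : ContDiffAt ℝ ∞ (fun x : V => Real.log (nsq (𝓕.alpha x))) y :=
    h1.log (nsq_pos h0).ne'
  have h3 : ContDiffAt ℝ ∞ (fun x : V => Real.log (nsq x)) y :=
    RN_nsq_contDiff.contDiffAt.log (nsq_pos hy).ne'
  exact h2.sub (contDiffAt_const.mul h3)

open Classical in
/-- the test function -/
noncomputable def KB_u (𝓕 : Foliation) (Φ : ℝ → ℝ) (R : ℝ) (y : V) : ℝ :=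
  if 𝓕.alpha y = 0 then 0 else Φ (𝓕.la y + R)

theorem KB_near_ne (𝓕 : Foliation) {y : V} (h0 : 𝓕.alpha y ≠ 0) : ∀ᶠ x in nhds y, 𝓕.alpha x ≠ 0 :=
  (RN_alpha_contDiff 𝓕).continuous.continuousAt.eventually_ne h0

theorem KB_near_zero (𝓕 : Foliation) {Φ : ℝ → ℝ} (hΦ : ∀ t ≤ 0, Φ t = 0) (R : ℝ) {y : V}
    (hy : y ≠ 0) (h0 : 𝓕.alpha y = 0) : ∀ᶠ x in nhds y, KB_u 𝓕 Φ R x = 0 := by
  have hc : Continuous fun x : V => nsq (𝓕.alpha x) - Real.exp (-R) * nsq x ^ (𝓕.deg + 1) :=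
    (RN_nsq_contDiff.comp (RN_alpha_contDiff 𝓕)).continuous.sub
      (continuous_const.mul (RN_nsq_contDiff.continuous.pow _))
  have h1 : nsq (𝓕.alpha y) - Real.exp (-R) * nsq y ^ (𝓕.deg + 1) < 0 := by
    rw [h0, nsq_eq_zero.2 rfl]
    have := nsq_pos hy
    have h2 : 0 < Real.exp (-R) * nsq y ^ (𝓕.deg + 1) := by positivity
    linarith
  filter_upwards [hc.continuousAt.eventually_lt_const h1, isOpen_compl_singleton.mem_nhds hy]
    with x hx hx0
  unfold KB_u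
  split_ifs with h
  · rfl
  · refine hΦ _ ?_
    have hx0' : 0 < nsq x := nsq_pos hx0
    have ha : 0 < nsq (𝓕.alpha x) := nsq_pos h
    have h3 : nsq (𝓕.alpha x) ≤ Real.exp (-R) * nsq x ^ (𝓕.deg + 1) := by linarith
    have h4 := Real.log_le_log ha h3
    rw [Real.log_mul (Real.exp_pos _).ne' (pow_pos hx0' _).ne', Real.log_exp, Real.log_pow] at h4
    unfold Foliation.la
    push_cast at h4
    linarith

theorem KB_u_eq (𝓕 : Foliation) (Φ : ℝ → ℝ) (R : ℝ) {y : V} (h0 : 𝓕.alpha y ≠ 0) :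
    KB_u 𝓕 Φ R =ᶠ[nhds y] fun x => (fun t => Φ (t + R)) (𝓕.la x) := by
  filter_upwards [KB_near_ne 𝓕 h0] with x hx
  unfold KB_u
  rw [if_neg hx]

theorem KB_fun (𝓕 : Foliation) {Φ : ℝ → ℝ} (hs : ContDiff ℝ ∞ Φ) (hΦ : ∀ t ≤ 0, Φ t = 0) (R : ℝ) :
    IsFun (fun x => (KB_u 𝓕 Φ R x : ℂ)) where
  smooth := by
    intro y hy
    have h1 : ContDiffAt ℝ ∞ (KB_u 𝓕 Φ R) y := by
      by_cases h0 : 𝓕.alpha y = 0
      · refine ContDiffAt.congr_of_eventuallyEq (contDiffAt_const (c := (0 : ℝ))) ?_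
        exact KB_near_zero 𝓕 hΦ R hy h0
      · refine ContDiffAt.congr_of_eventuallyEq ?_ (KB_u_eq 𝓕 Φ R h0)
        have h2 : ContDiffAt ℝ ∞ (fun t : ℝ => Φ (t + R)) (𝓕.la y) :=
          (hs.comp (contDiff_id.add contDiff_const)).contDiffAt
        exact h2.comp y (KB_la_smooth 𝓕 hy h0)
    exact (Complex.ofRealCLM.contDiff.contDiffAt.comp y h1).contDiffWithinAt
  hom := by
    intro c x hc hx
    have h1 : KB_u 𝓕 Φ R (c • x) = KB_u 𝓕 Φ R x := by
      unfold KB_u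
      by_cases h0 : 𝓕.alpha x = 0
      · rw [if_pos h0, if_pos ((KB_alpha_ne 𝓕 hc).2 h0)]
      · rw [if_neg h0, if_neg (fun h => h0 ((KB_alpha_ne 𝓕 hc).1 h)), KB_la_hom 𝓕 hc hx h0]
    rw [h1]

theorem KB_levi_la (𝓕 : Foliation) {y : V} (hy : nsq y = 1) (h0 : 𝓕.alpha y ≠ 0) :
    -((𝓕.deg : ℝ) + 1) * nsq (𝓕.alpha y) ≤ levi 𝓕.la y (𝓕.vec y) := by
  have hy0 : y ≠ 0 := RN_sphere_ne hy
  have h1 : ContDiffAt ℝ 2 (fun x : V => Real.log (nsq (𝓕.alpha x))) y :=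
    ((RN_nsq_contDiff.comp (RN_alpha_contDiff 𝓕)).of_le GI_two_le).contDiffAt.log (nsq_pos h0).ne'
  have h3 : ContDiffAt ℝ 2 (fun x : V => Real.log (nsq x)) y :=
    (RN_nsq_contDiff.of_le GI_two_le).contDiffAt.log (nsq_pos hy0).ne'
  have h4 : levi 𝓕.la y (𝓕.vec y) = levi (fun x => Real.log (nsq (𝓕.alpha x))) y (𝓕.vec y) -
      ((𝓕.deg : ℝ) + 1) * levi (fun x => Real.log (nsq x)) y (𝓕.vec y) := by
    have h5 : 𝓕.la = fun x => Real.log (nsq (𝓕.alpha x)) -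
        ((𝓕.deg : ℝ) + 1) * Real.log (nsq x) := rfl
    rw [h5, levi_sub h1 (contDiffAt_const.mul h3), levi_const_mul h3]
  have h6 : levi (fun x => Real.log (nsq x)) y (𝓕.vec y) = nsq (𝓕.alpha y) := by
    rw [levi_log_nsq y _ hy0]
    have h7 : 𝓕.alpha y = crossProduct y (𝓕.vec y) := rfl
    rw [h7, nsq_cross, hy]
    ring
  have h8 := levi_log_alpha_nonneg 𝓕 y (𝓕.vec y) h0
  rw [h4, h6]
  linarith

theorem KB_point (𝓕 : Foliation) {Φ : ℝ → ℝ} (hs : ContDiff ℝ ∞ Φ)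
    (hΦ1 : ∀ t, 0 ≤ deriv Φ t ∧ deriv Φ t ≤ 1) (R : ℝ) {y : V} (hy : nsq y = 1)
    (h0 : 𝓕.alpha y ≠ 0) :
    deriv (deriv Φ) (𝓕.la y + R) * (gradm 𝓕.la 𝓕.la y (𝓕.vec y) / nsq (𝓕.alpha y)) ≤
      levi (KB_u 𝓕 Φ R) y (𝓕.vec y) / nsq (𝓕.alpha y) + ((𝓕.deg : ℝ) + 1) := by
  have hy0 : y ≠ 0 := RN_sphere_ne hy
  have hla : ContDiffAt ℝ 2 𝓕.la y := (KB_la_smooth 𝓕 hy0 h0).of_le GI_two_le
  have hh : ContDiffAt ℝ 2 (fun t : ℝ => Φ (t + R)) (𝓕.la y) :=
    ((hs.comp (contDiff_id.add contDiff_const)).of_le GI_two_le).contDiffAt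
  have h1 : levi (KB_u 𝓕 Φ R) y (𝓕.vec y) = deriv (fun t : ℝ => Φ (t + R)) (𝓕.la y) *
      levi 𝓕.la y (𝓕.vec y) + deriv (deriv (fun t : ℝ => Φ (t + R))) (𝓕.la y) *
        gradm 𝓕.la 𝓕.la y (𝓕.vec y) := by
    rw [levi_congr (KB_u_eq 𝓕 Φ R h0)]
    exact levi_comp hla hh (𝓕.vec y)
  have h2 : deriv (fun t : ℝ => Φ (t + R)) = fun t => deriv Φ (t + R) := by
    funext t
    exact deriv_comp_add_const Φ R t
  have h3 : deriv (fun t : ℝ => deriv Φ (t + R)) = fun t => deriv (deriv Φ) (t + R) := by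
    funext t
    exact deriv_comp_add_const (deriv Φ) R t
  rw [h2, h3] at h1
  have ha : 0 < nsq (𝓕.alpha y) := nsq_pos h0
  have h4 := KB_levi_la 𝓕 hy h0
  obtain ⟨h5, h6⟩ := hΦ1 (𝓕.la y + R)
  have h7 : -((𝓕.deg : ℝ) + 1) * nsq (𝓕.alpha y) ≤
      deriv Φ (𝓕.la y + R) * levi 𝓕.la y (𝓕.vec y) := by
    have h8 := mul_le_mul_of_nonneg_left h4 h5
    have h9 : deriv Φ (𝓕.la y + R) * (((𝓕.deg : ℝ) + 1) * nsq (𝓕.alpha y)) ≤
        1 * (((𝓕.deg : ℝ) + 1) * nsq (𝓕.alpha y)) :=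
      mul_le_mul_of_nonneg_right h6 (by positivity)
    linarith
  rw [h1, ← mul_div_assoc, ← sub_le_iff_le_add, ← mul_div_cancel_right₀ ((𝓕.deg : ℝ) + 1) ha.ne',
    ← sub_div]
  apply div_le_div_of_nonneg_right _ ha.le
  linarith

theorem KB_la_meas (𝓕 : Foliation) : Measurable 𝓕.la := by
  have h1 : Measurable fun x : V => nsq (𝓕.alpha x) :=
    (RN_nsq_contDiff.comp (RN_alpha_contDiff 𝓕)).continuous.measurable
  have h2 : Measurable fun x : V => nsq x := RN_nsq_contDiff.continuous.measurable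
  exact (Real.measurable_log.comp h1).sub ((Real.measurable_log.comp h2).const_mul _)

theorem KB_slab (𝓕 : Foliation) (μ : Measure V) (hμ : Harm 𝓕 μ) {Φ : ℝ → ℝ}
    (hs : ContDiff ℝ ∞ Φ) (hΦ : ∀ t ≤ 0, Φ t = 0)
    (hΦ1 : ∀ t, 0 ≤ deriv Φ t ∧ deriv Φ t ≤ 1) (hΦ2 : ∀ t, 0 ≤ deriv (deriv Φ) t) {c : ℝ}
    (hc : 0 < c) (hΦc : ∀ t ∈ Set.Icc (1 : ℝ) 2, c ≤ deriv (deriv Φ) t) (R : ℝ) :
    ∫⁻ y in {y | 1 ≤ 𝓕.la y + R ∧ 𝓕.la y + R ≤ 2},
        ENNReal.ofReal (gradm 𝓕.la 𝓕.la y (𝓕.vec y) / nsq (𝓕.alpha y)) ∂μ ≤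
      ENNReal.ofReal (((𝓕.deg : ℝ) + 1) * (μ Set.univ).toReal / c) := by
  have := hμ.fin
  have hfun := KB_fun 𝓕 hs hΦ R
  have hint := integrable_levi_div 𝓕 μ hμ.sph (KB_u 𝓕 Φ R) hfun
  have hsph : ∀ᵐ y ∂μ, nsq y = 1 := hμ.sph
  have hsing : ∀ᵐ y ∂μ, 𝓕.alpha y ≠ 0 := by
    have h1 := hμ.sing
    rw [ae_iff]
    simpa using h1
  have hmeas : MeasurableSet {y | 1 ≤ 𝓕.la y + R ∧ 𝓕.la y + R ≤ 2} := by
    have h1 : Measurable fun y => 𝓕.la y + R := (KB_la_meas 𝓕).add_const R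
    exact (measurableSet_le measurable_const h1).inter (measurableSet_le h1 measurable_const)
  have hint2 : Integrable (fun y => c⁻¹ * (levi (KB_u 𝓕 Φ R) y (𝓕.vec y) / nsq (𝓕.alpha y) +
      ((𝓕.deg : ℝ) + 1))) μ := (hint.add (integrable_const _)).const_mul _
  have hpos : ∀ᵐ y ∂μ, 0 ≤ c⁻¹ * (levi (KB_u 𝓕 Φ R) y (𝓕.vec y) / nsq (𝓕.alpha y) +
      ((𝓕.deg : ℝ) + 1)) := by
    filter_upwards [hsph, hsing] with y hy h0
    have h1 := KB_point 𝓕 hs hΦ1 R hy h0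
    have h2 : 0 ≤ gradm 𝓕.la 𝓕.la y (𝓕.vec y) / nsq (𝓕.alpha y) :=
      div_nonneg (gradm_self_nonneg _ _ _) (nsq_nonneg _)
    have h3 := mul_nonneg (hΦ2 (𝓕.la y + R)) h2
    exact mul_nonneg (inv_nonneg.2 hc.le) (h3.trans h1)
  calc ∫⁻ y in {y | 1 ≤ 𝓕.la y + R ∧ 𝓕.la y + R ≤ 2},
        ENNReal.ofReal (gradm 𝓕.la 𝓕.la y (𝓕.vec y) / nsq (𝓕.alpha y)) ∂μ
      ≤ ∫⁻ y in {y | 1 ≤ 𝓕.la y + R ∧ 𝓕.la y + R ≤ 2},
        ENNReal.ofReal (c⁻¹ * (levi (KB_u 𝓕 Φ R) y (𝓕.vec y) / nsq (𝓕.alpha y) +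
          ((𝓕.deg : ℝ) + 1))) ∂μ := by
        refine lintegral_mono_ae ?_
        filter_upwards [ae_restrict_mem hmeas, ae_restrict_of_ae hsph, ae_restrict_of_ae hsing]
          with y hy1 hy h0
        apply ENNReal.ofReal_le_ofReal
        have h1 := KB_point 𝓕 hs hΦ1 R hy h0
        have h2 : 0 ≤ gradm 𝓕.la 𝓕.la y (𝓕.vec y) / nsq (𝓕.alpha y) :=
          div_nonneg (gradm_self_nonneg _ _ _) (nsq_nonneg _)
        have h3 := mul_le_mul_of_nonneg_right (hΦc _ hy1) h2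
        have h4 := mul_le_mul_of_nonneg_left (h3.trans h1) (inv_nonneg.2 hc.le)
        rwa [← mul_assoc, inv_mul_cancel₀ hc.ne', one_mul] at h4
    _ ≤ ∫⁻ y, ENNReal.ofReal (c⁻¹ * (levi (KB_u 𝓕 Φ R) y (𝓕.vec y) / nsq (𝓕.alpha y) +
          ((𝓕.deg : ℝ) + 1))) ∂μ := setLIntegral_le_lintegral _ _
    _ = ENNReal.ofReal (∫ y, c⁻¹ * (levi (KB_u 𝓕 Φ R) y (𝓕.vec y) / nsq (𝓕.alpha y) +
          ((𝓕.deg : ℝ) + 1)) ∂μ) := (ofReal_integral_eq_lintegral_ofReal hint2 hpos).symm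
    _ = ENNReal.ofReal (((𝓕.deg : ℝ) + 1) * (μ Set.univ).toReal / c) := by
        rw [integral_const_mul, integral_add hint (integrable_const _), hμ.harm _ hfun,
          integral_const]
        congr 1
        simp only [smul_eq_mul, Measure.real]
        field_simp
        ring

theorem la_energy (𝓕 : Foliation) (μ : Measure V) (hμ : Harm 𝓕 μ) :
    ∃ C : ℝ, 0 ≤ C ∧ ∀ r : ℝ, 0 < r → r < 1 →
      ∫⁻ y in {y | r ≤ nsq (𝓕.alpha y)},
        ENNReal.ofReal (gradm 𝓕.la 𝓕.la y (𝓕.vec y) / nsq (𝓕.alpha y)) ∂μ ≤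
      ENNReal.ofReal (C * (1 + Real.log (1 / r))) := by
  obtain ⟨Φ, hs, hΦ, hΦ1, hΦ2, ⟨c, hc, hΦc⟩, _, _⟩ := FC76.exists_convexCutoff
  have := hμ.fin
  -- upper bound of `la`
  obtain ⟨B, hB0, hB⟩ : ∃ B : ℝ, 0 ≤ B ∧ ∀ y : V, nsq y = 1 → 𝓕.alpha y ≠ 0 → 𝓕.la y ≤ B := by
    have hcont : ContDiffOn ℝ ∞ (fun x : V => ((nsq (𝓕.alpha x) : ℝ) : ℂ)) {0}ᶜ :=
      (Complex.ofRealCLM.contDiff.comp (RN_nsq_contDiff.comp (RN_alpha_contDiff 𝓕))).contDiffOn
    obtain ⟨K, hK, hK2⟩ := RN_bounded hcont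
    refine ⟨Real.log (K + 1), Real.log_nonneg (by linarith), fun y hy h0 => ?_⟩
    unfold Foliation.la
    rw [hy, Real.log_one, mul_zero, sub_zero]
    refine Real.log_le_log (nsq_pos h0) ?_
    have h1 := hK2 y hy
    rw [Complex.norm_real, Real.norm_of_nonneg (nsq_nonneg _)] at h1
    linarith
  obtain ⟨K, hKdef⟩ : ∃ K : ℝ, K = ((𝓕.deg : ℝ) + 1) * (μ Set.univ).toReal / c := ⟨_, rfl⟩
  have hK0 : 0 ≤ K := by rw [hKdef]; positivity
  refine ⟨(B + 1) * K, by positivity, fun r hr hr1 => ?_⟩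
  have hlr : 0 ≤ Real.log (1 / r) := Real.log_nonneg (by rw [le_div_iff₀ hr]; linarith)
  have hlr2 : Real.log (1 / r) = -Real.log r := by rw [one_div, Real.log_inv]
  obtain ⟨n, hn⟩ : ∃ n : ℕ, n = ⌊B + Real.log (1 / r)⌋₊ := ⟨_, rfl⟩
  have hsph : ∀ᵐ y ∂μ, nsq y = 1 := hμ.sph
  have hsing : ∀ᵐ y ∂μ, 𝓕.alpha y ≠ 0 := by
    have h1 := hμ.sing
    rw [ae_iff]
    simpa using h1
  have hcover : {y | r ≤ nsq (𝓕.alpha y)} ≤ᵐ[μ] ⋃ i : Fin (n + 1),
      {y | 1 ≤ 𝓕.la y + (1 - Real.log r - i) ∧ 𝓕.la y + (1 - Real.log r - i) ≤ 2} := by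
    filter_upwards [hsph, hsing] with y hy h0
    intro hry
    have hry' : r ≤ nsq (𝓕.alpha y) := hry
    have h1 : 𝓕.la y = Real.log (nsq (𝓕.alpha y)) := by
      unfold Foliation.la
      rw [hy, Real.log_one, mul_zero, sub_zero]
    have h2 : 0 ≤ 𝓕.la y - Real.log r := by
      rw [h1]
      have := Real.log_le_log hr hry'
      linarith
    have h3 := hB y hy h0
    have h4 : ⌊𝓕.la y - Real.log r⌋₊ < n + 1 := by
      rw [hn]
      refine Nat.lt_succ_of_le (Nat.floor_le_floor ?_)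
      rw [hlr2]
      linarith
    refine Set.mem_iUnion.2 ⟨⟨⌊𝓕.la y - Real.log r⌋₊, h4⟩, ?_, ?_⟩
    · have := Nat.floor_le h2
      show 1 ≤ 𝓕.la y + (1 - Real.log r - (⌊𝓕.la y - Real.log r⌋₊ : ℝ))
      linarith
    · have := Nat.lt_floor_add_one (𝓕.la y - Real.log r)
      show 𝓕.la y + (1 - Real.log r - (⌊𝓕.la y - Real.log r⌋₊ : ℝ)) ≤ 2
      linarith
  calc ∫⁻ y in {y | r ≤ nsq (𝓕.alpha y)},
        ENNReal.ofReal (gradm 𝓕.la 𝓕.la y (𝓕.vec y) / nsq (𝓕.alpha y)) ∂μ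
      ≤ ∫⁻ y in ⋃ i : Fin (n + 1),
          {y | 1 ≤ 𝓕.la y + (1 - Real.log r - i) ∧ 𝓕.la y + (1 - Real.log r - i) ≤ 2},
        ENNReal.ofReal (gradm 𝓕.la 𝓕.la y (𝓕.vec y) / nsq (𝓕.alpha y)) ∂μ :=
        lintegral_mono_set' hcover
    _ ≤ ∑' i : Fin (n + 1), ∫⁻ y in
          {y | 1 ≤ 𝓕.la y + (1 - Real.log r - i) ∧ 𝓕.la y + (1 - Real.log r - i) ≤ 2},
        ENNReal.ofReal (gradm 𝓕.la 𝓕.la y (𝓕.vec y) / nsq (𝓕.alpha y)) ∂μ :=
        lintegral_iUnion_le _ _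
    _ ≤ ∑' _ : Fin (n + 1), ENNReal.ofReal K := by
        refine ENNReal.tsum_le_tsum fun i => ?_
        rw [hKdef]
        exact KB_slab 𝓕 μ hμ hs hΦ hΦ1 hΦ2 hc hΦc _
    _ = ENNReal.ofReal ((n + 1) * K) := by
        rw [tsum_fintype, Finset.sum_const, Finset.card_univ, Fintype.card_fin, nsmul_eq_mul,
          ENNReal.ofReal_mul (by positivity)]
        congr 1
        rw [show ((n : ℝ) + 1) = ((n + 1 : ℕ) : ℝ) by push_cast; rfl, ENNReal.ofReal_natCast]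
    _ ≤ ENNReal.ofReal ((B + 1) * K * (1 + Real.log (1 / r))) := by
        apply ENNReal.ofReal_le_ofReal
        have h1 : (n : ℝ) ≤ B + Real.log (1 / r) := by
          rw [hn]
          exact Nat.floor_le (by positivity)
        have h2 : (n : ℝ) + 1 ≤ (B + 1) * (1 + Real.log (1 / r)) := by nlinarith
        calc ((n : ℝ) + 1) * K ≤ ((B + 1) * (1 + Real.log (1 / r))) * K :=
              mul_le_mul_of_nonneg_right h2 hK0
          _ = (B + 1) * K * (1 + Real.log (1 / r)) := by ring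

end Pool.Agent.H24.CU

end S_H24_CU_KB

section S_H85_DC_SmC

/-!
# Row SmC: the smoothing of a `ddᶜ`-closed current is `ddᶜ`-closed

`inH_sm`: form, Hermitian: `form_sm`, `herm_sm`. For conic `u`: `qq (L u) (sm) = qq (sm) (L u) = ∫ pr F (av ε (L u)) y dμ(y)` (`qq_sm`).
For `N y = 1`: `pr F (av ε A) y = ∫ gau G pr F (pull (mat ε G) A) y dG` (`pr` is a finite linear combination of the entries, `pull_int`).
Fubini on `μ × dG` (`pull_meas`; `|pr F (pull M A) y| ≤ 9 · 9 C hs M/N (M y)` by `pull_norm` and `|Z_j|^2 …`: use `pr_eq`-type bound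
`|pr F B y| ≤ 3 max |B_jk|` for matrices `B` killing `y` on both sides; `gau_bound`; `μ` finite (`hμ.prob`)): it equals
`∫ gau G (∫ pr F (pull (mat ε G) (L u)) y dμ(y)) dG`. For a.e. `G`, `M = mat ε G` is invertible (`det_ae`) and
`pull M (L u) y = L (u ∘ M) y` for `y ≠ 0` (`pull_L`), `u ∘ M` is conic (`isFun_comp`), so the inner integral is `0` by `DdcClosed`.
-/

open MeasureTheory
open scoped ContDiff BigOperators ComplexConjugate Matrix

namespace Pool.Agent.H85.DC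

/-- The integrand. -/
noncomputable def SmC_Psi (F : Fin 3 → MvPolynomial (Fin 3) ℂ) (A : V → M3) (ε : ℝ)
    (q : V × (Fin 3 → V)) : ℂ :=
  (gau q.2 : ℂ) * pr F (pull (mat ε q.2) A) q.1

theorem SmC_meas (F : Fin 3 → MvPolynomial (Fin 3) ℂ) {A : V → M3} (hA : IsForm A) (ε : ℝ) :
    Measurable (SmC_Psi F A ε) := by
  unfold SmC_Psi pr
  have hZ : ∀ j, Measurable (fun q : V × (Fin 3 → V) => Zf F q.1 j) := fun j =>
    ((continuous_apply j).comp ((continuous_Zf F).comp continuous_fst)).measurable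
  refine Measurable.mul ?_ (Measurable.div ?_ ?_)
  · exact Complex.measurable_ofReal.comp (gau_meas.comp measurable_snd)
  · refine Finset.measurable_fun_sum _ fun j _ => Finset.measurable_fun_sum _ fun k _ => ?_
    exact ((pull_meas hA ε j k).mul (hZ j)).mul
      (Complex.continuous_conj.measurable.comp (hZ k))
  · exact Complex.measurable_ofReal.comp
      (continuous_N.comp ((continuous_eta F).comp continuous_fst)).measurable

theorem SmC_quad_norm {B : M3} {b : ℝ} (hB : ∀ j k, ‖B j k‖ ≤ b) {w : V} (hw : N w = 1) :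
    ‖quad B w‖ ≤ 9 * b := by
  have hb : 0 ≤ b := (norm_nonneg _).trans (hB 0 0)
  have hwj : ∀ j, ‖w j‖ ≤ 1 := by
    intro j
    have h1 : Complex.normSq (w j) ≤ N w :=
      Finset.single_le_sum (f := fun j => Complex.normSq (w j))
        (fun _ _ => Complex.normSq_nonneg _) (Finset.mem_univ j)
    rw [hw, Complex.normSq_eq_norm_sq] at h1
    nlinarith [norm_nonneg (w j)]
  have h2 : ∀ j k, ‖B j k * w j * conj (w k)‖ ≤ b := by
    intro j k
    rw [norm_mul, norm_mul, RCLike.norm_conj]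
    calc ‖B j k‖ * ‖w j‖ * ‖w k‖ ≤ b * 1 * 1 := by
          gcongr
          · exact hB j k
          · exact hwj j
          · exact hwj k
      _ = b := by ring
  unfold quad
  calc ‖∑ j, ∑ k, B j k * w j * conj (w k)‖ ≤ ∑ _j : Fin 3, ∑ _k : Fin 3, b := by
        refine (norm_sum_le _ _).trans (Finset.sum_le_sum fun j _ => ?_)
        exact (norm_sum_le _ _).trans (Finset.sum_le_sum fun k _ => h2 j k)
    _ = 9 * b := by
        simp only [Finset.sum_const, Finset.card_univ, Fintype.card_fin, nsmul_eq_mul]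
        push_cast
        ring

theorem SmC_ne {y : V} (hy : N y = 1) : y ≠ 0 := by
  rintro rfl
  have : N (0 : V) = 0 := by simp [N]
  rw [this] at hy
  exact zero_ne_one hy

theorem SmC_int (F : Fin 3 → MvPolynomial (Fin 3) ℂ) {μ : Measure V} (hμ : IsCur F μ)
    [IsFiniteMeasure μ] {A : V → M3} (hA : IsForm A) {ε : ℝ} (hε : 0 < ε) :
    Integrable (SmC_Psi F A ε) (μ.prod (volume : Measure (Fin 3 → V))) := by
  refine ⟨(SmC_meas F hA ε).aestronglyMeasurable, ?_⟩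
  rw [hasFiniteIntegral_iff_enorm, lintegral_prod _ (SmC_meas F hA ε).enorm.aemeasurable]
  obtain ⟨CA, hCA0, hCA⟩ := form_bound hA
  obtain ⟨K, hK0, hK⟩ := gau_bound hε
  have key : ∀ᵐ y ∂μ, ∫⁻ G : Fin 3 → V, ‖SmC_Psi F A ε (y, G)‖ₑ ≤
      ENNReal.ofReal (81 * CA * K) := by
    filter_upwards [hμ.sphere, hμ.sing] with y hy hy2
    have hy0 := SmC_ne hy
    have h1 : ∀ᵐ G : Fin 3 → V, ‖SmC_Psi F A ε (y, G)‖ₑ ≤
        ENNReal.ofReal (81 * CA) *
          ENNReal.ofReal (gau G * (hs (mat ε G) / N ((mat ε G).mulVec y))) := by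
      filter_upwards [det_ae hε] with G hG
      have hMy := GauE_mulVec hG hy0
      have hNM := N_pos hMy
      have hp := fun j k => pull_norm hCA (mat ε G) hMy j k
      have he := SmC_quad_norm hp (wv_unit hy hy2)
      rw [← pr_eq (form_pull hA hG) hy] at he
      rw [← ENNReal.ofReal_mul (by positivity), ← ofReal_norm]
      apply ENNReal.ofReal_le_ofReal
      unfold SmC_Psi
      rw [norm_mul, Complex.norm_real, Real.norm_of_nonneg (gau_nonneg G)]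
      refine (mul_le_mul_of_nonneg_left he (gau_nonneg G)).trans (le_of_eq ?_)
      ring
    refine (lintegral_mono_ae h1).trans ?_
    rw [lintegral_const_mul' _ _ ENNReal.ofReal_ne_top]
    refine (mul_le_mul_right (hK y hy0) _).trans ?_
    rw [← ENNReal.ofReal_mul (by positivity), hy, div_one]
  refine lt_of_le_of_lt (lintegral_mono_ae key) ?_
  rw [lintegral_const]
  exact ENNReal.mul_lt_top ENNReal.ofReal_lt_top (measure_lt_top μ _)

/-- The inner integral in `G`. -/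
theorem SmC_inner (F : Fin 3 → MvPolynomial (Fin 3) ℂ) {A : V → M3} (hA : IsForm A) {ε : ℝ}
    (hε : 0 < ε) {y : V} (hy : y ≠ 0) :
    ∫ G : Fin 3 → V, SmC_Psi F A ε (y, G) = pr F (av ε A) y := by
  have hI : ∀ j k, Integrable (fun G : Fin 3 → V => (gau G : ℂ) * pull (mat ε G) A y j k) :=
    fun j k => pull_int hA hε hy j k
  have h1 : ∀ G : Fin 3 → V, SmC_Psi F A ε (y, G) =
      ∑ j, ∑ k, (Zf F y j * conj (Zf F y k) / (N (eta F y) : ℂ)) *
        ((gau G : ℂ) * pull (mat ε G) A y j k) := by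
    intro G
    unfold SmC_Psi pr
    rw [Finset.sum_div, Finset.mul_sum]
    refine Finset.sum_congr rfl fun j _ => ?_
    rw [Finset.sum_div, Finset.mul_sum]
    refine Finset.sum_congr rfl fun k _ => ?_
    ring
  simp_rw [h1]
  have h2 : ∀ j k, Integrable (fun G : Fin 3 → V =>
      (Zf F y j * conj (Zf F y k) / (N (eta F y) : ℂ)) *
        ((gau G : ℂ) * pull (mat ε G) A y j k)) := fun j k => (hI j k).const_mul _
  rw [integral_finsetSum _ fun j _ => integrable_finsetSum _ fun k _ => h2 j k]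
  unfold pr
  rw [Finset.sum_div]
  refine Finset.sum_congr rfl fun j _ => ?_
  rw [integral_finsetSum _ fun k _ => h2 j k, Finset.sum_div]
  refine Finset.sum_congr rfl fun k _ => ?_
  rw [integral_const_mul]
  unfold av
  ring

theorem inH_sm {F : Fin 3 → MvPolynomial (Fin 3) ℂ} {μ : Measure V} (hμ : IsCur F μ)
    (hd : DdcClosed F μ) {ε : ℝ} (hε : 0 < ε) (h1 : ε ≤ 1) : InH (sm F μ ε) := by
  have hfin := SmA_finite hμ
  refine ⟨form_sm hμ hε h1, herm_sm hμ hε h1, fun u hu => ?_⟩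
  rw [qq_comm, qq_sm hμ (form_L hu) hε h1]
  have e1 : ∫ y, pr F (av ε (L u)) y ∂μ =
      ∫ y, (∫ G : Fin 3 → V, SmC_Psi F (L u) ε (y, G)) ∂μ := by
    refine integral_congr_ae ?_
    filter_upwards [hμ.sphere] with y hy
    exact (SmC_inner F (form_L hu) hε (SmC_ne hy)).symm
  have hint : Integrable (Function.uncurry fun y (G : Fin 3 → V) => SmC_Psi F (L u) ε (y, G))
      (μ.prod (volume : Measure (Fin 3 → V))) := SmC_int F hμ (form_L hu) hε
  rw [e1, integral_integral_swap hint]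
  refine (integral_congr_ae (g := fun _ => 0) ?_).trans (by simp)
  filter_upwards [det_ae hε] with G hG
  have e2 : ∀ᵐ y ∂μ, SmC_Psi F (L u) ε (y, G) =
      (gau G : ℂ) * pr F (L (fun z => u ((mat ε G).mulVec z))) y := by
    filter_upwards [hμ.sphere] with y hy
    have hy0 := SmC_ne hy
    have h3 := pull_L hu.smooth (mat ε G) (GauE_mulVec hG hy0)
    unfold SmC_Psi pr
    rw [h3]
  rw [integral_congr_ae e2, integral_const_mul, hd _ (isFun_comp hu hG), mul_zero]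

end Pool.Agent.H85.DC

end S_H85_DC_SmC

section S_H85_DC_SmD

/-!
# Row SmD: the mass of the smoothed current

`quad_av_Wm`: for orthonormal `(y, w)`: `quad (av ε Wm y) w = ∫ gs ε (x - y) [quad (Wm x) w + ε^2 tr (Wm x)] dx` (`quad_av`), with
`quad (Wm x) w = (N w - |ip w x|^2/N x)/N x`, `tr Wm = 2/N x`. For two orthonormal pairs there is a unitary matrix `U` (Mathlib: complete both to
orthonormal bases; here: rows; or use `U = ` product of the two unitary matrices `(y, w, conj(cr y w))`) with `U y = y₀`, `U w = w₀`; the change of variables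
`x ↦ U x` preserves Lebesgue measure, `N`, `ip` and so the integral. Alternatively avoid unitaries: `M ↦` … any proof that the integral
depends only on the Gram matrix of `(y, w)`. So `quad (av ε Wm y) w = c ε`, where `c ε` is the value for `y₀ = e_0`, `w₀ = e_1`.
`c ε ≥ 0` (the integrand is `≥ 0`), and for `ε ≤ 1`: `c ε ≤ ∫ gs ε (x - y) (1 + 2)/N x dx ≤ 3 C` (`gs_div_bdd`). It is real.
Then `qq Wm (sm F μ ε) = qq (sm) Wm = ∫ pr F (av ε Wm) dμ = ∫ c ε dμ = c ε` (`pr_eq`, `wv_unit`, `wv_orth`, `hμ.prob`).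
-/

open MeasureTheory
open scoped ContDiff BigOperators ComplexConjugate Matrix

namespace Pool.Agent.H85.DC

theorem SmD_ip (x y : V) :
    ip x y = x 0 * conj (y 0) + x 1 * conj (y 1) + x 2 * conj (y 2) := by
  simp [ip, Fin.sum_univ_three]

theorem SmD_N (x : V) :
    (N x : ℂ) = x 0 * conj (x 0) + x 1 * conj (x 1) + x 2 * conj (x 2) := by
  simp only [N, Fin.sum_univ_three, Complex.ofReal_add, Complex.mul_conj]

/-- the matrix with rows `conj y`, `conj w`, `cr y w` -/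
noncomputable def SmD_M (y w : V) : M3 :=
  Matrix.of ![fun k => conj (y k), fun k => conj (w k), fun k => cr y w k]

theorem SmD_mulVec (y w x : V) : (SmD_M y w).mulVec x =
    ![ip x y, ip x w, cr y w 0 * x 0 + cr y w 1 * x 1 + cr y w 2 * x 2] := by
  ext j
  fin_cases j <;> simp [SmD_M, Matrix.mulVec, dotProduct, Fin.sum_univ_three, SmD_ip, mul_comm]

theorem SmD_unit {y w : V} (hy : N y = 1) (hw : N w = 1) (hyw : ip w y = 0) :
    SmD_M y w * (SmD_M y w)ᴴ = 1 := by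
  have e1 : y 0 * conj (y 0) + y 1 * conj (y 1) + y 2 * conj (y 2) = 1 := by
    rw [← SmD_N, hy]; norm_num
  have e2 : w 0 * conj (w 0) + w 1 * conj (w 1) + w 2 * conj (w 2) = 1 := by
    rw [← SmD_N, hw]; norm_num
  have e3 : w 0 * conj (y 0) + w 1 * conj (y 1) + w 2 * conj (y 2) = 0 := by
    rw [← SmD_ip, hyw]
  have e4 : y 0 * conj (w 0) + y 1 * conj (w 1) + y 2 * conj (w 2) = 0 := by
    have := congrArg conj e3
    simp only [map_add, map_mul, Complex.conj_conj, map_zero] at this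
    linear_combination this
  have e5 : N (cr y w) = 1 := by
    rw [tau_cross, hy, hw]
    have : Complex.normSq (ip y w) = 0 := by
      rw [SmD_ip, e4]; simp
    rw [this]; norm_num
  have e6 : cr y w 0 * conj (cr y w 0) + cr y w 1 * conj (cr y w 1) + cr y w 2 * conj (cr y w 2) = 1 := by
    rw [← SmD_N, e5]; norm_num
  have c0 : cr y w 0 = y 1 * w 2 - y 2 * w 1 := rfl
  have c1 : cr y w 1 = y 2 * w 0 - y 0 * w 2 := rfl
  have c2 : cr y w 2 = y 0 * w 1 - y 1 * w 0 := rfl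
  ext i j
  fin_cases i <;> fin_cases j <;>
    simp [SmD_M, Matrix.mul_apply, Fin.sum_univ_three]
  · linear_combination e1
  · linear_combination e3
  · rw [c0, c1, c2]; simp only [map_sub, map_mul]; ring
  · linear_combination e4
  · linear_combination e2
  · rw [c0, c1, c2]; simp only [map_sub, map_mul]; ring
  · rw [c0, c1, c2]; ring
  · rw [c0, c1, c2]; ring
  · linear_combination e6

theorem SmD_N_mul {M : M3} (h : Mᴴ * M = 1) (x : V) : N (M.mulVec x) = N x := by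
  have key : ∀ z : V, (N z : ℂ) = star z ⬝ᵥ z := by
    intro z
    rw [SmD_N]
    simp [dotProduct, Fin.sum_univ_three, mul_comm]
  have h1 : (N (M.mulVec x) : ℂ) = (N x : ℂ) := by
    rw [key, key, Matrix.star_mulVec, ← Matrix.dotProduct_mulVec, Matrix.mulVec_mulVec, h,
      Matrix.one_mulVec]
  exact_mod_cast h1

theorem SmD_gs_meas (ε : ℝ) : Measurable (fun x : V => ENNReal.ofReal (gs ε (x - 0))) := by
  have h : Continuous (fun x : V => gs ε (x - 0)) := by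
    unfold gs
    have h1 : Continuous (fun x : V => N (x - 0)) :=
      continuous_N.comp (continuous_id.sub continuous_const)
    exact continuous_const.mul (Real.continuous_exp.comp ((h1.neg).div_const _))
  exact ENNReal.measurable_ofReal.comp h.measurable

theorem SmD_mp {M : M3} (h1 : M * Mᴴ = 1) (h2 : Mᴴ * M = 1) :
    MeasurePreserving (fun x : V => M.mulVec x) (volume : Measure V) volume := by
  obtain ⟨f, hf⟩ : ∃ f : V ≃ₗ[ℝ] V, ∀ x, f x = M.mulVec x :=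
    ⟨(Matrix.toLin'OfInv h2 h1).restrictScalars ℝ, fun x => rfl⟩
  have hdet : LinearMap.det (f : V →ₗ[ℝ] V) ≠ 0 := (LinearEquiv.isUnit_det' f).ne_zero
  have hcont : Continuous (f : V →ₗ[ℝ] V) := LinearMap.continuous_of_finiteDimensional _
  have hmap := Measure.map_linearMap_addHaar_eq_smul_addHaar (volume : Measure V) hdet
  obtain ⟨k, hk⟩ : ∃ k : ENNReal, k = ENNReal.ofReal |(LinearMap.det (f : V →ₗ[ℝ] V))⁻¹| := ⟨_, rfl⟩
  rw [← hk] at hmap
  have hg := gs_int (ε := 1) one_pos (0 : V)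
  have hfun : (fun x : V => ENNReal.ofReal (gs 1 ((f : V →ₗ[ℝ] V) x - 0))) =
      fun x : V => ENNReal.ofReal (gs 1 (x - 0)) := by
    funext x
    congr 1
    unfold gs
    have : N ((f : V →ₗ[ℝ] V) x - 0) = N (x - 0) := by
      rw [sub_zero, sub_zero]
      show N (f x) = N x
      rw [hf, SmD_N_mul h2]
    rw [this]
  have hk1 : k = 1 := by
    have e1 : ∫⁻ x : V, ENNReal.ofReal (gs 1 (x - 0)) ∂(Measure.map (f : V →ₗ[ℝ] V) volume) = 1 := by
      rw [lintegral_map (SmD_gs_meas 1) hcont.measurable, hfun]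
      exact hg
    rw [hmap, lintegral_smul_measure, hg, smul_eq_mul, mul_one] at e1
    exact e1
  rw [hk1, one_smul] at hmap
  refine ⟨?_, ?_⟩
  · have : (fun x : V => M.mulVec x) = (f : V →ₗ[ℝ] V) := funext fun x => (hf x).symm
    rw [this]; exact hcont.measurable
  · have : (fun x : V => M.mulVec x) = (f : V →ₗ[ℝ] V) := funext fun x => (hf x).symm
    rw [this]; exact hmap

/-- the first basis vector -/
def SmD_e : V := ![1, 0, 0]

theorem SmD_e_unit : N SmD_e = 1 := by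
  simp [N, SmD_e, Fin.sum_univ_three]

/-- the integrand for the standard pair -/
noncomputable def SmD_J (ε : ℝ) (x : V) : ℝ :=
  gs ε (x - SmD_e) * ((1 - Complex.normSq (x 1) / N x) / N x + ε ^ 2 * (2 / N x))

theorem SmD_gs_nonneg {ε : ℝ} (x : V) : 0 ≤ gs ε x := by
  unfold gs
  positivity

theorem SmD_coord_le (x : V) : Complex.normSq (x 1) ≤ N x := by
  rw [N, Fin.sum_univ_three]
  have h0 := Complex.normSq_nonneg (x 0)
  have h2 := Complex.normSq_nonneg (x 2)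
  linarith

theorem SmD_J_nonneg {ε : ℝ} (x : V) : 0 ≤ SmD_J ε x := by
  unfold SmD_J
  apply mul_nonneg (SmD_gs_nonneg _)
  have hN := N_nonneg x
  have h1 : Complex.normSq (x 1) / N x ≤ 1 := div_le_one_of_le₀ (SmD_coord_le x) hN
  have h2 : 0 ≤ (1 - Complex.normSq (x 1) / N x) / N x := div_nonneg (by linarith) hN
  have h3 : 0 ≤ ε ^ 2 * (2 / N x) := by positivity
  linarith

theorem SmD_J_le {ε : ℝ} (h1 : ε ≤ 1) (h0 : 0 < ε) (x : V) :
    SmD_J ε x ≤ 3 * (gs ε (x - SmD_e) / N x) := by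
  unfold SmD_J
  have hN := N_nonneg x
  have hg := SmD_gs_nonneg (ε := ε) (x - SmD_e)
  have h2 : 0 ≤ Complex.normSq (x 1) / N x := div_nonneg (Complex.normSq_nonneg _) hN
  have h3 : (1 - Complex.normSq (x 1) / N x) / N x ≤ 1 / N x :=
    div_le_div_of_nonneg_right (by linarith) hN
  have h4 : ε ^ 2 ≤ 1 := by nlinarith
  have h5 : 0 ≤ 1 / N x := by positivity
  have h6 : ε ^ 2 * (2 / N x) ≤ 2 * (1 / N x) := by
    have e : 2 / N x = 2 * (1 / N x) := by ring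
    rw [e]
    nlinarith
  calc gs ε (x - SmD_e) * ((1 - Complex.normSq (x 1) / N x) / N x + ε ^ 2 * (2 / N x))
      ≤ gs ε (x - SmD_e) * (3 * (1 / N x)) := mul_le_mul_of_nonneg_left (by linarith) hg
    _ = 3 * (gs ε (x - SmD_e) / N x) := by ring

theorem SmD_J_U {y w : V} (hy : N y = 1) (hw : N w = 1) (hyw : ip w y = 0) (ε : ℝ) (x : V) :
    SmD_J ε ((SmD_M y w).mulVec x) = gs ε (x - y) *
      ((N w - Complex.normSq (ip w x) / N x) / N x + ε ^ 2 * (2 / N x)) := by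
  have h1 := SmD_unit hy hw hyw
  have h2 : (SmD_M y w)ᴴ * SmD_M y w = 1 := mul_eq_one_comm.1 h1
  have hUy : (SmD_M y w).mulVec y = SmD_e := by
    rw [SmD_mulVec]
    have a0 : ip y y = 1 := by
      rw [SmD_ip, ← SmD_N, hy]; norm_num
    have a1 : ip y w = 0 := by
      have := congrArg conj hyw
      rw [SmD_ip] at this
      simp only [map_add, map_mul, Complex.conj_conj, map_zero] at this
      rw [SmD_ip]
      linear_combination this
    have a2 : cr y w 0 * y 0 + cr y w 1 * y 1 + cr y w 2 * y 2 = 0 := by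
      show (y 1 * w 2 - y 2 * w 1) * y 0 + (y 2 * w 0 - y 0 * w 2) * y 1 +
        (y 0 * w 1 - y 1 * w 0) * y 2 = 0
      ring
    rw [a0, a1, a2, SmD_e]
  have e1 : N ((SmD_M y w).mulVec x) = N x := SmD_N_mul h2 x
  have e2 : gs ε ((SmD_M y w).mulVec x - SmD_e) = gs ε (x - y) := by
    unfold gs
    rw [← hUy, ← Matrix.mulVec_sub, SmD_N_mul h2]
  have e3 : Complex.normSq ((SmD_M y w).mulVec x 1) = Complex.normSq (ip w x) := by
    have a3 : (SmD_M y w).mulVec x 1 = ip x w := by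
      rw [SmD_mulVec]; rfl
    have a4 : ip x w = conj (ip w x) := by
      rw [SmD_ip, SmD_ip]
      simp only [map_add, map_mul, Complex.conj_conj]
      ring
    rw [a3, a4, Complex.normSq_conj]
  unfold SmD_J
  rw [e1, e2, e3, hw]

theorem SmD_quad {y w : V} (hy : N y = 1) (hw : N w = 1) (hyw : ip w y = 0) {ε : ℝ} (hε : 0 < ε) :
    quad (av ε Wm y) w = ((∫ x, SmD_J ε x : ℝ) : ℂ) := by
  have h1 := SmD_unit hy hw hyw
  have h2 : (SmD_M y w)ᴴ * SmD_M y w = 1 := mul_eq_one_comm.1 h1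
  have hmp := SmD_mp h1 h2
  have hJm : AEStronglyMeasurable (SmD_J ε) (volume : Measure V) := by
    have g1 : Continuous (fun x : V => gs ε (x - SmD_e)) := by
      unfold gs
      have h1 : Continuous (fun x : V => N (x - SmD_e)) :=
        continuous_N.comp (continuous_id.sub continuous_const)
      exact continuous_const.mul (Real.continuous_exp.comp ((h1.neg).div_const _))
    have g2 : Measurable (fun x : V => Complex.normSq (x 1)) :=
      (Complex.continuous_normSq.comp (continuous_apply 1)).measurable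
    have g3 : Measurable N := continuous_N.measurable
    have g4 : Measurable (fun x : V => (1 - Complex.normSq (x 1) / N x) / N x + ε ^ 2 * (2 / N x)) :=
      (((measurable_const.sub (g2.div g3)).div g3).add
        (measurable_const.mul (measurable_const.div g3)))
    exact (g1.measurable.mul g4).aestronglyMeasurable
  have hmap : ∫ x, SmD_J ε x = ∫ x, SmD_J ε ((SmD_M y w).mulVec x) := by
    conv_lhs => rw [← hmp.map_eq]
    exact integral_map hmp.measurable.aemeasurable (by rw [hmp.map_eq]; exact hJm)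
  rw [quad_av form_Wm hε hy hw hyw, hmap, ← integral_complex_ofReal]
  apply integral_congr_ae
  have hne : ∀ᵐ x : V, x ≠ 0 := by
    have : (volume : Measure V) {0} = 0 := by simp
    rw [ae_iff]
    simpa using this
  filter_upwards [hne] with x hx
  rw [SmD_J_U hy hw hyw, quad_Wm hx, trace_Wm hx]
  push_cast
  rfl

theorem sm_mass : ∃ (c : ℝ → ℝ) (C : ℝ), 0 ≤ C ∧ (∀ ε, 0 < ε → ε ≤ 1 → 0 ≤ c ε ∧ c ε ≤ C) ∧
    ∀ (F : Fin 3 → MvPolynomial (Fin 3) ℂ) (μ : Measure V), IsCur F μ →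
      ∀ ε, 0 < ε → ε ≤ 1 → qq Wm (sm F μ ε) = (c ε : ℂ) := by
  obtain ⟨C, hC, hCb⟩ := gs_div_bdd
  refine ⟨fun ε => ∫ x, SmD_J ε x, 3 * C, by positivity, ?_, ?_⟩
  · intro ε hε h1
    refine ⟨integral_nonneg fun x => SmD_J_nonneg x, ?_⟩
    have h2 : ∫ x, SmD_J ε x ≤ ∫ x : V, 3 * (gs ε (x - SmD_e) / N x) := by
      apply integral_mono_of_nonneg (Filter.Eventually.of_forall fun x => SmD_J_nonneg x)
        ((gs_div_int hε SmD_e).const_mul 3)
        (Filter.Eventually.of_forall fun x => SmD_J_le h1 hε x)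
    rw [integral_const_mul] at h2
    have h3 := hCb ε SmD_e hε (by linarith) SmD_e_unit
    show ∫ x, SmD_J ε x ≤ 3 * C
    linarith
  · intro F μ hμ ε hε h1
    have : IsProbabilityMeasure μ := ⟨hμ.prob⟩
    rw [qq_comm, qq_sm hμ form_Wm hε h1]
    have h2 : ∫ y, pr F (av ε Wm) y ∂μ = ∫ _y : V, ((∫ x, SmD_J ε x : ℝ) : ℂ) ∂μ := by
      apply integral_congr_ae
      filter_upwards [hμ.sphere, hμ.sing] with y hy hη
      rw [pr_eq (form_av form_Wm hε) hy, SmD_quad hy (wv_unit hy hη) (wv_orth hy) hε]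
    rw [h2, integral_const]
    simp

end Pool.Agent.H85.DC

end S_H85_DC_SmD

section S_H85_DC_SmE

/-!
# Row SmE: the difference of two smoothed currents

`inH0_D`: `sm F μ ε - sm F μ' ε ∈ H` (`inH_sub`), mass `c ε - c ε = 0` (`sm_mass`).
`nn_sm`: for one current `S_ε = sm F μ ε`, put `S' = S_ε - (c ε/π^3) Wm ∈ H0` (`inH0_shift`). `ee (S_ε x) (S_ε x) ≥ 0` (`ee_pos`, `pos_sm`, `herm_sm`), so
`0 ≤ Re qq S_ε S_ε = Re qq S' S' + 2 (c/π^3) Re qq Wm S' + (c/π^3)^2 π^3 = - nn S' S' + c^2/π^3` (`qq_WW`, `inH0_shift` mass `0`), so `nn S' S' ≤ C^2/π^3`.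
`D = S'_1 - S'_2` off `0`… as functions `S_1 - S_2 = S'_1 - S'_2`; `nn D D ≤ 2 nn S'_1 S'_1 + 2 nn S'_2 S'_2` (since `nn (S'_1 + S'_2)(S'_1 + S'_2) ≥ 0`, `hodge`) `≤ 4 C^2/π^3`.
-/

open MeasureTheory
open scoped ContDiff BigOperators ComplexConjugate Matrix

namespace Pool.Agent.H85.DC

/-- The difference of the smoothed currents. -/
noncomputable def DD (F : Fin 3 → MvPolynomial (Fin 3) ℂ) (μ μ' : Measure V) (ε : ℝ) : V → M3 :=
  fun x => sm F μ ε x - sm F μ' ε x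

theorem SmE_pp {A B : V → M3} (hA : IsForm A) (hB : IsForm B) :
    nn (fun x => A x - B x) (fun x => A x - B x) + nn (fun x => A x + B x) (fun x => A x + B x) =
      2 * nn A A + 2 * nn B B := by
  have hS := form_sub hA hB
  have hT := form_add hA hB
  unfold nn
  rw [qq_sub_left hA hB hS, qq_add_left hA hB hT, qq_comm A (fun x => A x - B x),
    qq_comm B (fun x => A x - B x), qq_comm A (fun x => A x + B x),
    qq_comm B (fun x => A x + B x), qq_sub_left hA hB hA, qq_sub_left hA hB hB,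
    qq_add_left hA hB hA, qq_add_left hA hB hB]
  simp only [Complex.add_re, Complex.sub_re]
  ring

theorem SmE_le {A B : V → M3} (hA : InH0 A) (hB : InH0 B) :
    nn (fun x => A x - B x) (fun x => A x - B x) ≤ 2 * nn A A + 2 * nn B B := by
  have h1 := SmE_pp hA.toInH.form hB.toInH.form
  have h2 := hodge (inH0_add hA hB)
  linarith

theorem SmE_shift {A : V → M3} (hA : InH A) {c : ℝ} (hc : qq Wm A = (c : ℂ)) :
    nn (fun x => A x - ((c / Real.pi ^ 3 : ℝ) : ℂ) • Wm x)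
      (fun x => A x - ((c / Real.pi ^ 3 : ℝ) : ℂ) • Wm x) = -(qq A A).re + c ^ 2 / Real.pi ^ 3 := by
  have hp : (Real.pi ^ 3 : ℝ) ≠ 0 := by positivity
  have hW : IsForm (fun x => ((c / Real.pi ^ 3 : ℝ) : ℂ) • Wm x) := form_smul _ form_Wm
  have hS := form_sub hA.form hW
  have hc' : qq A Wm = (c : ℂ) := by rw [qq_comm]; exact hc
  have h1 : qq (fun x => A x - ((c / Real.pi ^ 3 : ℝ) : ℂ) • Wm x)
      (fun x => A x - ((c / Real.pi ^ 3 : ℝ) : ℂ) • Wm x) = qq A A - ((c ^ 2 / Real.pi ^ 3 : ℝ) : ℂ) := by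
    rw [qq_sub_left hA.form hW hS, qq_comm A, qq_sub_left hA.form hW hA.form, qq_smul_left,
      qq_smul_left, hc, qq_comm Wm, qq_sub_left hA.form hW form_Wm, qq_smul_left, hc', qq_WW]
    have e1 : ((c / Real.pi ^ 3 : ℝ) : ℂ) * (((c : ℝ) : ℂ) - ((c / Real.pi ^ 3 : ℝ) : ℂ) *
        ((Real.pi ^ 3 : ℝ) : ℂ)) = 0 := by
      rw [← Complex.ofReal_mul, div_mul_cancel₀ _ hp, sub_self, mul_zero]
    rw [e1, sub_zero]
    congr 1
    rw [← Complex.ofReal_mul]
    congr 1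
    ring
  unfold nn
  rw [h1, Complex.sub_re, Complex.ofReal_re]
  ring

theorem SmE_ae : ∀ᵐ x : V, x ≠ 0 := by
  have h : (volume : Measure V) {(0 : V)} = 0 := measure_singleton _
  exact measure_eq_zero_iff_ae_notMem.mp h

theorem SmE_pos {A : V → M3} (hA : IsForm A) (hh : IsHerm A)
    (hp : ∀ x, x ≠ 0 → ∀ v, 0 ≤ (quad (A x) v).re) : 0 ≤ (qq A A).re := by
  unfold qq
  have h1 : (∫ x, ee (A x) (A x) * (wt x : ℂ)).re = ∫ x, (ee (A x) (A x) * (wt x : ℂ)).re :=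
    (integral_re (ee_int hA hA)).symm
  rw [h1]
  apply integral_nonneg_of_ae
  filter_upwards [SmE_ae] with x hx
  show 0 ≤ (ee (A x) (A x) * (wt x : ℂ)).re
  rw [Complex.re_mul_ofReal]
  exact mul_nonneg (ee_pos (hh x hx) (hp x hx) (hh x hx) (hp x hx)) (Real.exp_pos _).le

theorem inH0_D {F : Fin 3 → MvPolynomial (Fin 3) ℂ} {μ μ' : Measure V} (hμ : IsCur F μ)
    (hμ' : IsCur F μ') (hd : DdcClosed F μ) (hd' : DdcClosed F μ') {ε : ℝ} (hε : 0 < ε)
    (h1 : ε ≤ 1) : InH0 (DD F μ μ' ε) := by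
  refine ⟨inH_sub (inH_sm hμ hd hε h1) (inH_sm hμ' hd' hε h1), ?_⟩
  obtain ⟨c, C, _, _, hc⟩ := sm_mass
  have hf := form_sm hμ hε h1
  have hf' := form_sm hμ' hε h1
  have e1 := hc F μ hμ ε hε h1
  have e2 := hc F μ' hμ' ε hε h1
  show qq Wm (fun x => sm F μ ε x - sm F μ' ε x) = 0
  rw [qq_comm, qq_sub_left hf hf' form_Wm, qq_comm (sm F μ ε), qq_comm (sm F μ' ε), e1, e2, sub_self]

theorem nn_D : ∃ C : ℝ, 0 ≤ C ∧ ∀ (F : Fin 3 → MvPolynomial (Fin 3) ℂ) (μ μ' : Measure V),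
    IsCur F μ → IsCur F μ' → DdcClosed F μ → DdcClosed F μ' → ∀ ε, 0 < ε → ε ≤ 1 →
      nn (DD F μ μ' ε) (DD F μ μ' ε) ≤ C := by
  obtain ⟨c, C, hC, hcC, hc⟩ := sm_mass
  have hp : (0 : ℝ) < Real.pi ^ 3 := by positivity
  refine ⟨4 * (C ^ 2 / Real.pi ^ 3), by positivity, ?_⟩
  intro F μ μ' hμ hμ' hd hd' ε hε h1
  obtain ⟨c0, cC⟩ := hcC ε hε h1
  have hcc : c ε ^ 2 ≤ C ^ 2 := pow_le_pow_left₀ c0 cC 2
  have key : ∀ ν : Measure V, IsCur F ν → DdcClosed F ν →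
      InH0 (fun x => sm F ν ε x - ((c ε / Real.pi ^ 3 : ℝ) : ℂ) • Wm x) ∧
      nn (fun x => sm F ν ε x - ((c ε / Real.pi ^ 3 : ℝ) : ℂ) • Wm x)
        (fun x => sm F ν ε x - ((c ε / Real.pi ^ 3 : ℝ) : ℂ) • Wm x) ≤ C ^ 2 / Real.pi ^ 3 := by
    intro ν hν hdν
    have hH := inH_sm hν hdν hε h1
    refine ⟨inH0_shift hH (hc F ν hν ε hε h1), ?_⟩
    rw [SmE_shift hH (hc F ν hν ε hε h1)]
    have h3 := SmE_pos hH.form hH.herm (fun x hx v => pos_sm hν hε h1 hx v)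
    have h4 : c ε ^ 2 / Real.pi ^ 3 ≤ C ^ 2 / Real.pi ^ 3 := div_le_div_of_nonneg_right hcc hp.le
    linarith
  obtain ⟨a1, b1⟩ := key μ hμ hd
  obtain ⟨a2, b2⟩ := key μ' hμ' hd'
  have h5 := SmE_le a1 a2
  have h6 : DD F μ μ' ε = fun x => (sm F μ ε x - ((c ε / Real.pi ^ 3 : ℝ) : ℂ) • Wm x) -
      (sm F μ' ε x - ((c ε / Real.pi ^ 3 : ℝ) : ℂ) • Wm x) := by
    funext x
    unfold DD
    abel
  rw [h6]
  linarith

end Pool.Agent.H85.DC

end S_H85_DC_SmE

section S_H85_DC_FinA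

/-!
# Row FinA: the difference functional on `H0`

`Dl A = ∫ pr F A dμ - ∫ pr F A dμ'` (complex; real for Hermitian forms: `pr_ct`, `pr F A = pr F Aᴴ` a.e. since `A y` is Hermitian for `y ≠ 0`; `integral_conj`).
`nn_DD`: `nn (DD ε) A = -(Dl (av ε A)).re` for forms `A` (`qq_sm` twice, `qq_sub_left`).
`dl_tendsto`: `(Dl (av ε A)).re → (Dl A).re` (`pr_av_tendsto`).
`dl_bdd`: for `A ∈ H0`: `(Dl (av ε A)).re^2 = nn (DD ε) A ^2 ≤ nn (DD ε)(DD ε) nn A A ≤ C nn A A` (`nn_cs`, `inH0_D`, `nn_D`), let `ε → 0`.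
`dl_self`: if `(Dl A).re^2 ≤ K nn A A` for all `A ∈ H0` (`K ≥ 0`) then `nn (DD ε)(DD ε) ≤ K`: `a = nn (DD)(DD) = -(Dl (av ε DD)).re ≤ √K √(nn (av ε DD)(av ε DD)) ≤ √K √a` (`inH0_av`, `contraction`).
`near_opt`: let `K = sSup {(Dl A).re^2 | A ∈ H0, nn A A ≤ 1}` (bounded above by `C`; nonempty: `A = 0`). Then `(Dl A).re^2 ≤ K nn A A` for all `A ∈ H0` (if `nn A A > 0` scale `A` by `(√(nn A A))⁻¹`; if `nn A A = 0` use
`dl_bdd`). Given `δ > 0` there is `A0 ∈ H0` with `(Dl A0).re = - nn A0 A0` and `nn A0 A0 ≥ K - δ`: take `A` with `(Dl A).re^2 ≥ K - δ`, `nn A A ≤ 1`. If `nn A A = 0` then `(Dl A).re = 0` (`dl_bdd`), `K ≤ δ`: `A0 = 0`.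
Otherwise `A1 = A/√(nn A A)`, `nn A1 A1 = 1`, `(Dl A1).re^2 ≥ K - δ`; `A0 = -(Dl A1).re • A1`. (`Dl` is linear: `pr` is linear in `A`.)
-/

open MeasureTheory
open scoped ContDiff BigOperators ComplexConjugate Matrix

namespace Pool.Agent.H85.DC

/-- The difference of the two currents. -/
noncomputable def Dl (F : Fin 3 → MvPolynomial (Fin 3) ℂ) (μ μ' : Measure V) (A : V → M3) : ℂ :=
  (∫ y, pr F A y ∂μ) - ∫ y, pr F A y ∂μ'

variable {F : Fin 3 → MvPolynomial (Fin 3) ℂ} {μ μ' : Measure V}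

theorem FinA_pr_smul (c : ℂ) (A : V → M3) (y : V) :
    pr F (fun x => c • A x) y = c * pr F A y := by
  unfold pr
  rw [← mul_div_assoc, Finset.mul_sum]
  congr 1
  refine Finset.sum_congr rfl fun j _ => ?_
  rw [Finset.mul_sum]
  refine Finset.sum_congr rfl fun k _ => ?_
  change (c * A y j k) * Zf F y j * conj (Zf F y k) = c * (A y j k * Zf F y j * conj (Zf F y k))
  ring

theorem FinA_pr_add (A B : V → M3) (y : V) :
    pr F (fun x => A x + B x) y = pr F A y + pr F B y := by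
  unfold pr
  rw [← add_div, ← Finset.sum_add_distrib]
  congr 1
  refine Finset.sum_congr rfl fun j _ => ?_
  rw [← Finset.sum_add_distrib]
  refine Finset.sum_congr rfl fun k _ => ?_
  change (A y j k + B y j k) * Zf F y j * conj (Zf F y k) =
    A y j k * Zf F y j * conj (Zf F y k) + B y j k * Zf F y j * conj (Zf F y k)
  ring

theorem dl_smul (c : ℂ) (A : V → M3) : Dl F μ μ' (fun x => c • A x) = c * Dl F μ μ' A := by
  unfold Dl
  rw [mul_sub, ← integral_const_mul, ← integral_const_mul]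
  congr 1
  · exact integral_congr_ae (Filter.Eventually.of_forall fun y => FinA_pr_smul c A y)
  · exact integral_congr_ae (Filter.Eventually.of_forall fun y => FinA_pr_smul c A y)

theorem nn_DD (hμ : IsCur F μ) (hμ' : IsCur F μ') {A : V → M3} (hA : IsForm A) {ε : ℝ}
    (hε : 0 < ε) (h1 : ε ≤ 1) : nn (DD F μ μ' ε) A = -(Dl F μ μ' (av ε A)).re := by
  unfold nn Dl
  have h2 : qq (DD F μ μ' ε) A = qq (sm F μ ε) A - qq (sm F μ' ε) A :=
    qq_sub_left (form_sm hμ hε h1) (form_sm hμ' hε h1) hA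
  rw [h2, qq_sm hμ hA hε h1, qq_sm hμ' hA hε h1]

theorem dl_tendsto (hμ : IsCur F μ) (hμ' : IsCur F μ') {A : V → M3} (hA : IsForm A) :
    Filter.Tendsto (fun ε : ℝ => (Dl F μ μ' (av ε A)).re) (nhdsWithin 0 (Set.Ioi 0))
      (nhds (Dl F μ μ' A).re) := by
  have h := (pr_av_tendsto hμ hA).sub (pr_av_tendsto hμ' hA)
  exact (Complex.continuous_re.tendsto _).comp h

theorem FinA_ev : ∀ᶠ ε : ℝ in nhdsWithin 0 (Set.Ioi 0), 0 < ε ∧ ε ≤ 1 := by
  have h1 : ∀ᶠ ε : ℝ in nhdsWithin 0 (Set.Ioi 0), 0 < ε := self_mem_nhdsWithin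
  have h2 : ∀ᶠ ε : ℝ in nhdsWithin 0 (Set.Ioi 0), ε < 1 :=
    mem_nhdsWithin_of_mem_nhds (Iio_mem_nhds one_pos)
  filter_upwards [h1, h2] with ε h3 h4
  exact ⟨h3, h4.le⟩

theorem dl_bdd (hμ : IsCur F μ) (hμ' : IsCur F μ') (hd : DdcClosed F μ) (hd' : DdcClosed F μ') :
    ∃ C : ℝ, 0 ≤ C ∧ ∀ A : V → M3, InH0 A → (Dl F μ μ' A).re ^ 2 ≤ C * nn A A := by
  obtain ⟨C, hC0, hC⟩ := nn_D
  refine ⟨C, hC0, fun A hA => ?_⟩
  have ht := (dl_tendsto (F := F) hμ hμ' hA.form).pow 2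
  refine le_of_tendsto ht ?_
  filter_upwards [FinA_ev] with ε hε
  have h1 := nn_DD (F := F) hμ hμ' hA.form hε.1 hε.2
  have h2 := nn_cs (inH0_D hμ hμ' hd hd' hε.1 hε.2) hA
  have h3 := hC F μ μ' hμ hμ' hd hd' ε hε.1 hε.2
  have h4 := hodge hA
  have h5 : (Dl F μ μ' (av ε A)).re ^ 2 = nn (DD F μ μ' ε) A ^ 2 := by
    rw [h1]
    ring
  rw [h5]
  exact h2.trans (mul_le_mul_of_nonneg_right h3 h4)

theorem dl_self (hμ : IsCur F μ) (hμ' : IsCur F μ') (hd : DdcClosed F μ) (hd' : DdcClosed F μ')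
    {K : ℝ} (hK : 0 ≤ K) (h : ∀ A : V → M3, InH0 A → (Dl F μ μ' A).re ^ 2 ≤ K * nn A A) {ε : ℝ}
    (hε : 0 < ε) (h1 : ε ≤ 1) : nn (DD F μ μ' ε) (DD F μ μ' ε) ≤ K := by
  have hD := inH0_D hμ hμ' hd hd' hε h1
  have h2 := nn_DD (F := F) hμ hμ' hD.form hε h1
  have h3 := h _ (inH0_av hD hε)
  have h4 := contraction hD hε
  have h5 := hodge hD
  obtain ⟨a, ha⟩ : ∃ a, a = nn (DD F μ μ' ε) (DD F μ μ' ε) := ⟨_, rfl⟩
  rw [← ha] at h2 h4 h5 ⊢
  have h6 : a ^ 2 ≤ K * a := by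
    have h7 : (Dl F μ μ' (av ε (DD F μ μ' ε))).re ^ 2 = a ^ 2 := by
      rw [h2]
      ring
    rw [← h7]
    exact h3.trans (mul_le_mul_of_nonneg_left h4 hK)
  by_contra hcon
  push Not at hcon
  have h8 : 0 < a := lt_of_le_of_lt hK hcon
  nlinarith

theorem FinA_nn_smul (c : ℝ) (A : V → M3) :
    nn (fun x => (c : ℂ) • A x) (fun x => (c : ℂ) • A x) = c ^ 2 * nn A A := by
  rw [nn_smul_left, nn_comm, nn_smul_left]
  ring

theorem FinA_dl_re (c : ℝ) (A : V → M3) :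
    (Dl F μ μ' (fun x => (c : ℂ) • A x)).re = c * (Dl F μ μ' A).re := by
  rw [dl_smul, Complex.re_ofReal_mul]

theorem near_opt (hμ : IsCur F μ) (hμ' : IsCur F μ') (hd : DdcClosed F μ) (hd' : DdcClosed F μ') :
    ∃ K : ℝ, 0 ≤ K ∧ (∀ A : V → M3, InH0 A → (Dl F μ μ' A).re ^ 2 ≤ K * nn A A) ∧
      ∀ δ : ℝ, 0 < δ → ∃ A0 : V → M3, InH0 A0 ∧ (Dl F μ μ' A0).re = -nn A0 A0 ∧
        K - δ ≤ nn A0 A0 := by
  obtain ⟨C, hC0, hC⟩ := dl_bdd hμ hμ' hd hd'
  obtain ⟨S, hS⟩ : ∃ S : Set ℝ, S = {t | ∃ A : V → M3, InH0 A ∧ nn A A ≤ 1 ∧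
      t = (Dl F μ μ' A).re ^ 2} := ⟨_, rfl⟩
  have hbdd : BddAbove S := by
    refine ⟨C, ?_⟩
    rw [hS]
    rintro t ⟨A, hA, h1, rfl⟩
    calc (Dl F μ μ' A).re ^ 2 ≤ C * nn A A := hC A hA
      _ ≤ C * 1 := mul_le_mul_of_nonneg_left h1 hC0
      _ = C := mul_one C
  -- the zero form
  have hX := inH0_D hμ hμ' hd hd' one_pos le_rfl
  obtain ⟨Z0, hZ0⟩ : ∃ Z0 : V → M3, Z0 = fun x => ((0 : ℝ) : ℂ) • DD F μ μ' 1 x := ⟨_, rfl⟩
  have hZ0H : InH0 Z0 := by
    rw [hZ0]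
    exact inH0_smul 0 hX
  have hZ0n : nn Z0 Z0 = 0 := by
    rw [hZ0, FinA_nn_smul]
    ring
  have hZ0d : (Dl F μ μ' Z0).re = 0 := by
    rw [hZ0, FinA_dl_re, zero_mul]
  have h0S : (0 : ℝ) ∈ S := by
    rw [hS]
    refine ⟨Z0, hZ0H, ?_, ?_⟩
    · rw [hZ0n]
      exact zero_le_one
    · rw [hZ0d]
      ring
  have hK0 : 0 ≤ sSup S := le_csSup hbdd h0S
  have hK : ∀ A : V → M3, InH0 A → (Dl F μ μ' A).re ^ 2 ≤ sSup S * nn A A := by
    intro A hA
    rcases (hodge hA).eq_or_lt with h1 | h1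
    · have h2 := hC A hA
      rw [← h1, mul_zero] at h2 ⊢
      exact h2
    · obtain ⟨t, ht⟩ : ∃ t : ℝ, t = (Real.sqrt (nn A A))⁻¹ := ⟨_, rfl⟩
      have ht2 : t ^ 2 * nn A A = 1 := by
        rw [ht, inv_pow, Real.sq_sqrt h1.le]
        exact inv_mul_cancel₀ h1.ne'
      have hm : t ^ 2 * (Dl F μ μ' A).re ^ 2 ∈ S := by
        rw [hS]
        refine ⟨fun x => (t : ℂ) • A x, inH0_smul t hA, ?_, ?_⟩
        · rw [FinA_nn_smul, ht2]
        · rw [FinA_dl_re]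
          ring
      have h3 := le_csSup hbdd hm
      calc (Dl F μ μ' A).re ^ 2 = (t ^ 2 * (Dl F μ μ' A).re ^ 2) * nn A A := by
            linear_combination (-(Dl F μ μ' A).re ^ 2) * ht2
        _ ≤ sSup S * nn A A := mul_le_mul_of_nonneg_right h3 h1.le
  refine ⟨sSup S, hK0, hK, fun δ hδ => ?_⟩
  obtain ⟨t, htS, ht⟩ := exists_lt_of_lt_csSup ⟨0, h0S⟩ (show sSup S - δ < sSup S by linarith)
  rw [hS] at htS
  obtain ⟨A, hA, h1, rfl⟩ := htS
  rcases (hodge hA).eq_or_lt with h2 | h2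
  · refine ⟨Z0, hZ0H, ?_, ?_⟩
    · rw [hZ0n, hZ0d, neg_zero]
    · have h3 := hK A hA
      rw [← h2, mul_zero] at h3
      rw [hZ0n]
      linarith
  · obtain ⟨r, hr⟩ : ∃ r : ℝ, r = -(Dl F μ μ' A).re / nn A A := ⟨_, rfl⟩
    have e1 : r * nn A A = -(Dl F μ μ' A).re := by
      rw [hr]
      exact div_mul_cancel₀ _ h2.ne'
    refine ⟨fun x => (r : ℂ) • A x, inH0_smul r hA, ?_, ?_⟩
    · rw [FinA_dl_re, FinA_nn_smul]
      linear_combination r * e1
    · rw [FinA_nn_smul]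
      have e2 : r ^ 2 * nn A A = (Dl F μ μ' A).re ^ 2 / nn A A := by
        rw [eq_div_iff h2.ne']
        linear_combination (r * nn A A - (Dl F μ μ' A).re) * e1
      rw [e2]
      refine ht.le.trans ?_
      rw [le_div_iff₀ h2]
      calc (Dl F μ μ' A).re ^ 2 * nn A A ≤ (Dl F μ μ' A).re ^ 2 * 1 :=
            mul_le_mul_of_nonneg_left h1 (sq_nonneg _)
        _ = (Dl F μ μ' A).re ^ 2 := mul_one _

theorem FinA_congr (hμ : IsCur F μ) {A B : V → M3} (h : ∀ y : V, y ≠ 0 → A y = B y) :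
    ∫ y, pr F A y ∂μ = ∫ y, pr F B y ∂μ := by
  refine integral_congr_ae ?_
  filter_upwards [hμ.sphere] with y hy
  have hy0 : y ≠ 0 := by
    rintro rfl
    simp [N] at hy
  unfold pr
  rw [h y hy0]

theorem FinA_Bz (hμ : IsCur F μ) {ζ : V → V} (hζ : IsCov ζ) :
    ∫ y, pr F (Bz ζ) y ∂μ = (((∫ y, pr F (db ζ) y ∂μ).re : ℝ) : ℂ) := by
  have hi := pr_int (form_db hζ) hμ
  have hi2 : Integrable (fun y => conj (pr F (db ζ) y)) μ := by
    refine (pr_int (form_ct (form_db hζ)) hμ).congr (Filter.Eventually.of_forall fun y => ?_)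
    exact pr_ct F (db ζ) y
  have h1 : ∀ y, pr F (Bz ζ) y = (1 / 2 : ℂ) * (pr F (db ζ) y + conj (pr F (db ζ) y)) := by
    intro y
    have h2 : pr F (Bz ζ) y = pr F (fun x => (1 / 2 : ℂ) • (db ζ x + (db ζ x)ᴴ)) y := rfl
    rw [h2, FinA_pr_smul (1 / 2 : ℂ) (fun x => db ζ x + (db ζ x)ᴴ) y,
      FinA_pr_add (db ζ) (fun x => (db ζ x)ᴴ) y, pr_ct]
  rw [integral_congr_ae (Filter.Eventually.of_forall h1), integral_const_mul,
    integral_add hi hi2, integral_conj, Complex.add_conj]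
  push_cast
  ring

theorem FinA_re (hμ : IsCur F μ) (hμ' : IsCur F μ')
    (h : ∀ A : V → M3, InH0 A → (Dl F μ μ' A).re = 0) {ζ : V → V} (hζ : IsCov ζ) :
    (Dl F μ μ' (db ζ)).re = 0 := by
  have h1 := h _ (inH0_Bz hζ)
  unfold Dl at h1 ⊢
  rw [FinA_Bz hμ hζ, FinA_Bz hμ' hζ, Complex.sub_re, Complex.ofReal_re, Complex.ofReal_re] at h1
  rw [Complex.sub_re]
  exact h1

theorem FinA_cov_I {ζ : V → V} (hζ : IsCov ζ) : IsCov (fun x => Complex.I • ζ x) where
  smooth := hζ.smooth.const_smul Complex.I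
  hom := by
    intro l x hl
    rw [hζ.hom l x hl, smul_comm]
  kill := by
    intro x hx
    have h := hζ.kill x hx
    have h2 : ∑ j, x j * (Complex.I • ζ x) j = Complex.I * ∑ j, x j * ζ x j := by
      rw [Finset.mul_sum]
      refine Finset.sum_congr rfl fun j _ => ?_
      rw [Pi.smul_apply, smul_eq_mul]
      ring
    rw [h2, h, mul_zero]

theorem FinA_db_I {ζ : V → V} (hζ : IsCov ζ) {x : V} (hx : x ≠ 0) :
    db (fun x => Complex.I • ζ x) x = Complex.I • db ζ x := by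
  ext j k
  rw [Matrix.smul_apply, smul_eq_mul]
  exact dzb_const_mul k Complex.I ((isCov_hom hζ j).diffAt hx)

/-- If the functional vanishes on `H0` then the difference of the currents is closed. -/
theorem closed_of_zero (hμ : IsCur F μ) (hμ' : IsCur F μ')
    (h : ∀ A : V → M3, InH0 A → (Dl F μ μ' A).re = 0) {ζ : V → V} (hζ : IsCov ζ) :
    ∫ y, pr F (db ζ) y ∂μ = ∫ y, pr F (db ζ) y ∂μ' := by
  have h1 := FinA_re hμ hμ' h hζ
  have h2 := FinA_re hμ hμ' h (FinA_cov_I hζ)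
  have h3 : Dl F μ μ' (db (fun x => Complex.I • ζ x)) = Complex.I * Dl F μ μ' (db ζ) := by
    rw [← dl_smul]
    unfold Dl
    rw [FinA_congr hμ fun y hy => FinA_db_I hζ hy, FinA_congr hμ' fun y hy => FinA_db_I hζ hy]
  rw [h3, Complex.I_mul_re] at h2
  have h4 : Dl F μ μ' (db ζ) = 0 := Complex.ext h1 (neg_eq_zero.1 h2)
  exact sub_eq_zero.1 h4

end Pool.Agent.H85.DC

end S_H85_DC_FinA

section S_H85_DC_Ker

/-!
# Row Ker: kernel estimates

All `x, y, z` nonzero, `0 < ε ≤ 1`; `kk ε t ≤ 2 ε^{-4} e^{-t/ε^2}` (`kk_le`); `d = √tau` is a metric (`tau_metric`). Use `NuB`: `nu_sing`, `nu_far`, `nu_exp`.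
`K0`: `∫ kk ε (tau y z) dν ≤ 2 ε^{-4} π^3 ε^4` (`nu_exp`, `a = ε^2`, `tau_symm`).
`K1`: `I(x,z) = ∫ tau(x,y)^{-3/2} kk ε (tau y z) dν(y)`.
(a) `I ≤ C ε^{-3}`: on `tau(x,y) < ε^2`: `kk ≤ 2 ε^{-4}`, `∫_{τ<ε^2} τ^{-3/2} ≤ 2π^3 ε`; on `tau(x,y) ≥ ε^2`: `τ^{-3/2} ≤ ε^{-3}` and `K0`.
(b) `I ≤ C tau(x,z)^{-3/2}` (`a := tau x z > 0`): where `tau(y,z) < a/4`, `√tau(x,y) ≥ √a/2`, so `τ(x,y)^{-3/2} ≤ 8 a^{-3/2}`, `K0`; where `tau(y,z) ≥ a/4`:
`kk ε (tau y z) ≤ 2 ε^{-4} e^{-a/(8ε^2)} e^{-tau(y,z)/(2ε^2)}`, and as in (a) `∫ τ(x,y)^{-3/2} ε^{-4} e^{-τ(y,z)/(2ε^2)} dν ≤ C ε^{-3}`, and `ε^{-3} e^{-a/(8ε^2)} ≤ C a^{-3/2}`.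
Combine: if `a ≤ ε^2` use (a): `ε^{-3} ≤ 2^{3/2} (a + ε^2)^{-3/2}`; otherwise (b): `a^{-3/2} ≤ 2^{3/2}(a + ε^2)^{-3/2}`.
`K2`: `J = ∫ (tau(x,z)+ε^2)^{-3/2}(tau(x,z')+ε^2)^{-3/2} dν(x)`, `a = tau z z'`, `b = max (a/4) ε^2`. Three regions: (i) `tau(x,z) < b`: the second factor is `≤ b^{-3/2}` (if `b = a/4`: `√tau(x,z') ≥ √a - √b = √b`;
if `b = ε^2`: it is `≤ ε^{-3}`), the first `≤ τ(x,z)^{-3/2}`, `nu_sing`: `≤ b^{-3/2} 2π^3 √b = 2π^3/b`. (ii) `tau(x,z') < b`: symmetric. (iii) both `≥ b`: product `≤ (τ(x,z)^{-3} + τ(x,z')^{-3})/2`, `nu_far`: `≤ π^3/b`.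
Total `≤ 5π^3/b` and `b ≥ (a + ε^2)/5`.
`K3`: for `tau` small: `∫_{tau(x,p) < s} kk ε (tau x y) dν(x)` is at most `C` always (`K0`) and at most `2ε^{-4} e^{-s/ε^2} π^3/2` if `tau(y,p) ≥ 4 s`
(`√tau(x,y) ≥ 2√s - √s`).
-/

open MeasureTheory
open scoped ContDiff BigOperators ComplexConjugate Matrix

namespace Pool.Agent.H85.DC

theorem Ker_mr (z : V) : Measurable fun y : V => tau y z := by
  have h0 : Measurable fun y : V => (y, z) := measurable_id.prodMk measurable_const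
  have h := measurable_tau.comp h0
  exact h

theorem Ker_ml (z : V) : Measurable fun y : V => tau z y := by
  have h0 : Measurable fun y : V => (z, y) := measurable_const.prodMk measurable_id
  have h := measurable_tau.comp h0
  exact h

theorem Ker_zero (z : V) : tau 0 z = 1 := by
  simp [tau, ip, N]

theorem Ker_split (f : V → ENNReal) (A : Set V) :
    ∫⁻ y, f y ∂nuP ≤ ∫⁻ y in A, f y ∂nuP + ∫⁻ y in Aᶜ, f y ∂nuP := by
  calc ∫⁻ y, f y ∂nuP = ∫⁻ y in A ∪ Aᶜ, f y ∂nuP := by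
        rw [Set.union_compl_self, Measure.restrict_univ]
    _ ≤ _ := lintegral_union_le f A Aᶜ

theorem Ker_cm {S : Set V} (hS : MeasurableSet S) {f g : V → ℝ} {c : ℝ} (hc : 0 ≤ c)
    (h : ∀ᵐ y ∂nuP, y ∈ S → f y ≤ c * g y) :
    ∫⁻ y in S, ENNReal.ofReal (f y) ∂nuP ≤
      ENNReal.ofReal c * ∫⁻ y in S, ENNReal.ofReal (g y) ∂nuP := by
  rw [← lintegral_const_mul' _ _ ENNReal.ofReal_ne_top]
  refine setLIntegral_mono_ae' hS ?_
  filter_upwards [h] with y hy hyS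
  rw [← ENNReal.ofReal_mul hc]
  exact ENNReal.ofReal_le_ofReal (hy hyS)

theorem Ker_exp {z : V} (hz : z ≠ 0) {a : ℝ} (ha : 0 < a) (S : Set V) :
    ∫⁻ y in S, ENNReal.ofReal (Real.exp (-(tau y z) / a)) ∂nuP ≤
      ENNReal.ofReal (Real.pi ^ 3 * a ^ 2) := by
  refine (setLIntegral_le_lintegral _ _).trans ?_
  rw [show (fun y => ENNReal.ofReal (Real.exp (-(tau y z) / a))) =
    fun y => ENNReal.ofReal (Real.exp (-(tau z y) / a)) from funext fun y => by rw [tau_symm]]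
  exact nu_exp hz ha

theorem Ker_kk {ε t : ℝ} (hε : 0 < ε) (h1 : ε ≤ 1) (h0 : 0 ≤ t) :
    kk ε t ≤ 2 * ((ε ^ 2) ^ 2)⁻¹ * Real.exp (-t / ε ^ 2) := by
  have h := kk_le hε h1 h0
  have e : ε⁻¹ ^ 4 = ((ε ^ 2) ^ 2)⁻¹ := by
    rw [inv_pow, ← pow_mul]
  rwa [e] at h

theorem Ker_K0 {ε : ℝ} {z : V} (hε : 0 < ε) (h1 : ε ≤ 1) (hz : z ≠ 0) (S : Set V) :
    ∫⁻ y in S, ENNReal.ofReal (kk ε (tau y z)) ∂nuP ≤ ENNReal.ofReal (2 * Real.pi ^ 3) := by
  refine (setLIntegral_le_lintegral _ _).trans ?_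
  rw [← setLIntegral_univ]
  have hc : 0 ≤ 2 * ((ε ^ 2) ^ 2)⁻¹ := by positivity
  calc ∫⁻ y in Set.univ, ENNReal.ofReal (kk ε (tau y z)) ∂nuP
      ≤ ENNReal.ofReal (2 * ((ε ^ 2) ^ 2)⁻¹) *
        ∫⁻ y in Set.univ, ENNReal.ofReal (Real.exp (-(tau y z) / ε ^ 2)) ∂nuP :=
        Ker_cm MeasurableSet.univ hc (Filter.Eventually.of_forall fun y _ =>
          Ker_kk hε h1 (tau_nonneg y z))
    _ ≤ ENNReal.ofReal (2 * ((ε ^ 2) ^ 2)⁻¹) * ENNReal.ofReal (Real.pi ^ 3 * (ε ^ 2) ^ 2) := by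
        gcongr
        exact Ker_exp hz (by positivity) _
    _ = ENNReal.ofReal (2 * Real.pi ^ 3) := by
        rw [← ENNReal.ofReal_mul hc]
        congr 1
        field_simp

theorem Ker_rp {s : ℝ} (hs : 0 < s) : s ^ (-(3 / 2) : ℝ) * s ^ 2 = Real.sqrt s := by
  rw [Real.sqrt_eq_rpow, ← Real.rpow_natCast s 2, ← Real.rpow_add hs]
  norm_num

theorem Ker_rp2 {s : ℝ} (hs : 0 < s) : (s ^ 2)⁻¹ * Real.sqrt s = s ^ (-(3 / 2) : ℝ) := by
  rw [← Ker_rp hs]
  field_simp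

theorem Ker_q4 {t : ℝ} (ht : 0 ≤ t) : (t / 4) ^ (-(3 / 2) : ℝ) = 8 * t ^ (-(3 / 2) : ℝ) := by
  rw [Real.div_rpow ht (by norm_num)]
  have h4 : (4 : ℝ) ^ (-(3 / 2) : ℝ) = 1 / 8 := by
    rw [show (4 : ℝ) = 2 ^ (2 : ℝ) by norm_num, ← Real.rpow_mul (by norm_num)]
    rw [show (2 * (-(3 / 2)) : ℝ) = -((3 : ℕ) : ℝ) by norm_num, Real.rpow_neg (by norm_num),
      Real.rpow_natCast]
    norm_num
  rw [h4]
  ring

theorem Ker_anti {s t : ℝ} (hs : 0 < s) (h : s ≤ t) :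
    t ^ (-(3 / 2) : ℝ) ≤ s ^ (-(3 / 2) : ℝ) :=
  Real.rpow_le_rpow_of_nonpos hs h (by norm_num)

theorem Ker_S {x z : V} (hx : x ≠ 0) (hz : z ≠ 0) {s δ : ℝ} (hs : 0 < s) (hδ : 0 < δ)
    (hδs : δ ≤ 2 * s) (S : Set V) :
    ∫⁻ y in S, ENNReal.ofReal ((tau x y) ^ (-(3 / 2) : ℝ) * Real.exp (-(tau y z) / δ)) ∂nuP ≤
      ENNReal.ofReal (6 * Real.pi ^ 3 * Real.sqrt s) := by
  refine (setLIntegral_le_lintegral _ _).trans ?_
  have hA : MeasurableSet {y : V | tau x y < s} := measurableSet_lt (Ker_ml x) measurable_const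
  refine (Ker_split _ {y : V | tau x y < s}).trans ?_
  have e1 : ∫⁻ y in {y : V | tau x y < s},
      ENNReal.ofReal ((tau x y) ^ (-(3 / 2) : ℝ) * Real.exp (-(tau y z) / δ)) ∂nuP ≤
      ENNReal.ofReal (2 * Real.pi ^ 3 * Real.sqrt s) := by
    refine (setLIntegral_mono' hA fun y _ => ENNReal.ofReal_le_ofReal ?_).trans (nu_sing hx hs.le)
    refine mul_le_of_le_one_right (Real.rpow_nonneg (tau_nonneg _ _) _) ?_
    rw [Real.exp_le_one_iff]
    exact div_nonpos_of_nonpos_of_nonneg (neg_nonpos.2 (tau_nonneg _ _)) hδ.le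
  have hsp : 0 ≤ s ^ (-(3 / 2) : ℝ) := Real.rpow_nonneg hs.le _
  have e2 : ∫⁻ y in {y : V | tau x y < s}ᶜ,
      ENNReal.ofReal ((tau x y) ^ (-(3 / 2) : ℝ) * Real.exp (-(tau y z) / δ)) ∂nuP ≤
      ENNReal.ofReal (4 * Real.pi ^ 3 * Real.sqrt s) := by
    calc ∫⁻ y in {y : V | tau x y < s}ᶜ,
        ENNReal.ofReal ((tau x y) ^ (-(3 / 2) : ℝ) * Real.exp (-(tau y z) / δ)) ∂nuP
        ≤ ENNReal.ofReal (s ^ (-(3 / 2) : ℝ)) *
          ∫⁻ y in {y : V | tau x y < s}ᶜ, ENNReal.ofReal (Real.exp (-(tau y z) / δ)) ∂nuP :=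
          Ker_cm hA.compl hsp (Filter.Eventually.of_forall fun y hy => by
            have h1 : s ≤ tau x y := not_lt.1 hy
            exact mul_le_mul_of_nonneg_right (Ker_anti hs h1) (Real.exp_pos _).le)
      _ ≤ ENNReal.ofReal (s ^ (-(3 / 2) : ℝ)) * ENNReal.ofReal (Real.pi ^ 3 * δ ^ 2) := by
          gcongr
          exact Ker_exp hz hδ _
      _ = ENNReal.ofReal (s ^ (-(3 / 2) : ℝ) * (Real.pi ^ 3 * δ ^ 2)) := (ENNReal.ofReal_mul hsp).symm
      _ ≤ ENNReal.ofReal (4 * Real.pi ^ 3 * Real.sqrt s) := by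
          apply ENNReal.ofReal_le_ofReal
          rw [← Ker_rp hs]
          have h2 : δ ^ 2 ≤ (2 * s) ^ 2 := pow_le_pow_left₀ hδ.le hδs 2
          have h3 : 0 ≤ s ^ (-(3 / 2) : ℝ) * Real.pi ^ 3 := by positivity
          calc s ^ (-(3 / 2) : ℝ) * (Real.pi ^ 3 * δ ^ 2) =
              (s ^ (-(3 / 2) : ℝ) * Real.pi ^ 3) * δ ^ 2 := by ring
            _ ≤ (s ^ (-(3 / 2) : ℝ) * Real.pi ^ 3) * (2 * s) ^ 2 := mul_le_mul_of_nonneg_left h2 h3
            _ = _ := by ring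
  calc _ ≤ ENNReal.ofReal (2 * Real.pi ^ 3 * Real.sqrt s) +
        ENNReal.ofReal (4 * Real.pi ^ 3 * Real.sqrt s) := add_le_add e1 e2
    _ = ENNReal.ofReal (6 * Real.pi ^ 3 * Real.sqrt s) := by
        rw [← ENNReal.ofReal_add (by positivity) (by positivity)]
        congr 1
        ring

theorem Ker_tri {x y z : V} (hx : x ≠ 0) (hy : y ≠ 0) (hz : z ≠ 0) {a : ℝ} (ha0 : 0 ≤ a)
    (ha : a ≤ tau x z) (h : tau y z ≤ a / 4) : a / 4 ≤ tau x y := by
  have h1 := tau_metric hx hy hz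
  have h2 : Real.sqrt a ≤ Real.sqrt (tau x z) := Real.sqrt_le_sqrt ha
  have h3 : (Real.sqrt a) ^ 2 = a := Real.sq_sqrt ha0
  have h4 : Real.sqrt (tau y z) ≤ Real.sqrt a / 2 := by
    rw [Real.sqrt_le_left (by positivity)]
    rw [div_pow, h3]
    linarith
  have h5 : Real.sqrt a / 2 ≤ Real.sqrt (tau x y) := by linarith
  have h6 : (Real.sqrt a / 2) ^ 2 ≤ (Real.sqrt (tau x y)) ^ 2 :=
    pow_le_pow_left₀ (by positivity) h5 2
  rw [Real.sq_sqrt (tau_nonneg x y), div_pow, h3] at h6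
  linarith

theorem K0 : ∃ C : ℝ, 0 < C ∧ ∀ (ε : ℝ) (z : V), 0 < ε → ε ≤ 1 → z ≠ 0 →
    ∫⁻ y, ENNReal.ofReal (kk ε (tau y z)) ∂nuP ≤ ENNReal.ofReal C := by
  refine ⟨2 * Real.pi ^ 3, by positivity, fun ε z hε h1 hz => ?_⟩
  rw [← setLIntegral_univ]
  exact Ker_K0 hε h1 hz _

theorem K1 : ∃ C : ℝ, 0 < C ∧ ∀ (ε : ℝ) (x z : V), 0 < ε → ε ≤ 1 → x ≠ 0 → z ≠ 0 →
    ∫⁻ y, ENNReal.ofReal ((tau x y) ^ (-(3 / 2) : ℝ) * kk ε (tau y z)) ∂nuP ≤
      ENNReal.ofReal (C * (tau x z + ε ^ 2) ^ (-(3 / 2) : ℝ)) := by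
  refine ⟨12416 * Real.pi ^ 3, by positivity, fun ε x z hε h1 hx hz => ?_⟩
  have hs : 0 < ε ^ 2 := by positivity
  have hk : ∀ y, kk ε (tau y z) ≤ 2 * ((ε ^ 2) ^ 2)⁻¹ * Real.exp (-(tau y z) / ε ^ 2) := fun y =>
    Ker_kk hε h1 (tau_nonneg y z)
  set s := ε ^ 2 with hsdef
  set a := tau x z with ha
  have ha0 : 0 ≤ a := tau_nonneg x z
  have hpi : 0 < Real.pi ^ 3 := by positivity
  have hs2 := Ker_rp2 hs
  have hsp : 0 < s ^ (-(3 / 2) : ℝ) := Real.rpow_pos_of_pos hs _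
  have hasp : 0 < (a + s) ^ (-(3 / 2) : ℝ) := Real.rpow_pos_of_pos (by linarith) _
  rcases le_or_gt a s with has | has
  · rw [← setLIntegral_univ]
    calc ∫⁻ y in Set.univ, ENNReal.ofReal ((tau x y) ^ (-(3 / 2) : ℝ) * kk ε (tau y z)) ∂nuP
        ≤ ENNReal.ofReal (2 * (s ^ 2)⁻¹) * ∫⁻ y in Set.univ,
          ENNReal.ofReal ((tau x y) ^ (-(3 / 2) : ℝ) * Real.exp (-(tau y z) / s)) ∂nuP := by
          refine Ker_cm MeasurableSet.univ (by positivity) (Filter.Eventually.of_forall fun y _ => ?_)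
          have h2 := mul_le_mul_of_nonneg_left (hk y)
            (Real.rpow_nonneg (tau_nonneg x y) (-(3 / 2) : ℝ))
          refine h2.trans (le_of_eq ?_)
          ring
      _ ≤ ENNReal.ofReal (2 * (s ^ 2)⁻¹) * ENNReal.ofReal (6 * Real.pi ^ 3 * Real.sqrt s) := by
          gcongr
          exact Ker_S hx hz hs hs (by linarith) _
      _ = ENNReal.ofReal (12 * Real.pi ^ 3 * s ^ (-(3 / 2) : ℝ)) := by
          rw [← ENNReal.ofReal_mul (by positivity), ← hs2]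
          congr 1
          ring
      _ ≤ ENNReal.ofReal (12416 * Real.pi ^ 3 * (a + s) ^ (-(3 / 2) : ℝ)) := by
          apply ENNReal.ofReal_le_ofReal
          have h2 : s ^ (-(3 / 2) : ℝ) ≤ 8 * (a + s) ^ (-(3 / 2) : ℝ) := by
            rw [← Ker_q4 (by linarith)]
            exact Ker_anti (by linarith) (by linarith)
          have h3 : 12 * Real.pi ^ 3 * s ^ (-(3 / 2) : ℝ) ≤
              12 * Real.pi ^ 3 * (8 * (a + s) ^ (-(3 / 2) : ℝ)) :=
            mul_le_mul_of_nonneg_left h2 (by positivity)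
          have h4 : 0 < Real.pi ^ 3 * (a + s) ^ (-(3 / 2) : ℝ) := by positivity
          nlinarith
  · have hB : MeasurableSet {y : V | tau y z < a / 4} :=
      measurableSet_lt (Ker_mr z) measurable_const
    have hap : 0 < a := hs.trans has
    have hapr : 0 < a ^ (-(3 / 2) : ℝ) := Real.rpow_pos_of_pos hap _
    refine (Ker_split _ {y : V | tau y z < a / 4}).trans ?_
    have e1 : ∫⁻ y in {y : V | tau y z < a / 4},
        ENNReal.ofReal ((tau x y) ^ (-(3 / 2) : ℝ) * kk ε (tau y z)) ∂nuP ≤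
        ENNReal.ofReal (16 * Real.pi ^ 3 * a ^ (-(3 / 2) : ℝ)) := by
      calc ∫⁻ y in {y : V | tau y z < a / 4},
          ENNReal.ofReal ((tau x y) ^ (-(3 / 2) : ℝ) * kk ε (tau y z)) ∂nuP
          ≤ ENNReal.ofReal (8 * a ^ (-(3 / 2) : ℝ)) * ∫⁻ y in {y : V | tau y z < a / 4},
            ENNReal.ofReal (kk ε (tau y z)) ∂nuP := by
            refine Ker_cm hB (by positivity) (Filter.Eventually.of_forall fun y hy => ?_)
            have hy' : tau y z < a / 4 := hy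
            have hy0 : y ≠ 0 := by
              rintro rfl
              rw [Ker_zero] at hy'
              have := tau_le_one x z
              linarith
            have h2 := Ker_tri hx hy0 hz ha0 le_rfl hy'.le
            rw [← Ker_q4 ha0]
            exact mul_le_mul_of_nonneg_right (Ker_anti (by linarith) h2) (kk_nonneg (tau_le_one y z))
        _ ≤ ENNReal.ofReal (8 * a ^ (-(3 / 2) : ℝ)) * ENNReal.ofReal (2 * Real.pi ^ 3) := by
            gcongr
            exact Ker_K0 hε h1 hz _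
        _ = _ := by
            rw [← ENNReal.ofReal_mul (by positivity)]
            congr 1
            ring
    have e2 : ∫⁻ y in {y : V | tau y z < a / 4}ᶜ,
        ENNReal.ofReal ((tau x y) ^ (-(3 / 2) : ℝ) * kk ε (tau y z)) ∂nuP ≤
        ENNReal.ofReal (1536 * Real.pi ^ 3 * a ^ (-(3 / 2) : ℝ)) := by
      calc ∫⁻ y in {y : V | tau y z < a / 4}ᶜ,
          ENNReal.ofReal ((tau x y) ^ (-(3 / 2) : ℝ) * kk ε (tau y z)) ∂nuP
          ≤ ENNReal.ofReal (2 * (s ^ 2)⁻¹ * Real.exp (-a / (8 * s))) *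
            ∫⁻ y in {y : V | tau y z < a / 4}ᶜ,
            ENNReal.ofReal ((tau x y) ^ (-(3 / 2) : ℝ) * Real.exp (-(tau y z) / (2 * s))) ∂nuP := by
            refine Ker_cm hB.compl (by positivity) (Filter.Eventually.of_forall fun y hy => ?_)
            have hy' : a / 4 ≤ tau y z := not_lt.1 hy
            have h2 : Real.exp (-(tau y z) / s) ≤
                Real.exp (-a / (8 * s)) * Real.exp (-(tau y z) / (2 * s)) := by
              rw [← Real.exp_add, Real.exp_le_exp]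
              rw [div_add_div _ _ (by positivity) (by positivity),
                div_le_div_iff₀ hs (by positivity)]
              nlinarith [mul_pos hs hs, mul_pos (mul_pos hs hs) hs,
                mul_le_mul_of_nonneg_left hy' (mul_pos hs hs).le]
            have h3 : kk ε (tau y z) ≤ 2 * (s ^ 2)⁻¹ *
                (Real.exp (-a / (8 * s)) * Real.exp (-(tau y z) / (2 * s))) :=
              (hk y).trans (mul_le_mul_of_nonneg_left h2 (by positivity))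
            have h4 := mul_le_mul_of_nonneg_left h3
              (Real.rpow_nonneg (tau_nonneg x y) (-(3 / 2) : ℝ))
            refine h4.trans (le_of_eq ?_)
            ring
        _ ≤ ENNReal.ofReal (2 * (s ^ 2)⁻¹ * Real.exp (-a / (8 * s))) *
              ENNReal.ofReal (6 * Real.pi ^ 3 * Real.sqrt s) := by
            gcongr
            exact Ker_S hx hz hs (by positivity) le_rfl _
        _ = ENNReal.ofReal (12 * Real.pi ^ 3 * (s ^ (-(3 / 2) : ℝ) * Real.exp (-a / (8 * s)))) := by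
            rw [← ENNReal.ofReal_mul (by positivity), ← hs2]
            congr 1
            ring
        _ ≤ _ := by
            apply ENNReal.ofReal_le_ofReal
            have h5 : s ^ (-(3 / 2) : ℝ) * Real.exp (-a / (8 * s)) ≤ 128 * a ^ (-(3 / 2) : ℝ) := by
              set w := a / s with hw
              have hw1 : 1 ≤ w := by
                rw [hw, le_div_iff₀ hs]
                linarith
              have hasw : a = w * s := by
                rw [hw]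
                field_simp
              have h6 : -a / (8 * s) = -(w / 8) := by
                rw [hasw]
                field_simp
              have h7 : w ^ 2 / 128 ≤ Real.exp (w / 8) := by
                have h8 := Real.quadratic_le_exp_of_nonneg (x := w / 8) (by linarith)
                nlinarith
              have h9 : Real.exp (-(w / 8)) ≤ 128 * w ^ (-(3 / 2) : ℝ) := by
                have h10 : (w ^ 2)⁻¹ ≤ w ^ (-(3 / 2) : ℝ) := by
                  rw [← Real.rpow_natCast w 2, ← Real.rpow_neg (by linarith)]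
                  exact Real.rpow_le_rpow_of_exponent_le hw1 (by norm_num)
                rw [Real.exp_neg]
                have h11 : (Real.exp (w / 8))⁻¹ ≤ (w ^ 2 / 128)⁻¹ :=
                  inv_anti₀ (by positivity) h7
                have h12 : (w ^ 2 / 128)⁻¹ = 128 * (w ^ 2)⁻¹ := by
                  field_simp
                rw [h12] at h11
                linarith
              rw [h6, hasw, Real.mul_rpow (by linarith) hs.le]
              have h13 := mul_le_mul_of_nonneg_left h9 hsp.le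
              linarith
            have h6 := mul_le_mul_of_nonneg_left h5 (show 0 ≤ 12 * Real.pi ^ 3 by positivity)
            linarith
    calc _ ≤ ENNReal.ofReal (16 * Real.pi ^ 3 * a ^ (-(3 / 2) : ℝ)) +
          ENNReal.ofReal (1536 * Real.pi ^ 3 * a ^ (-(3 / 2) : ℝ)) := add_le_add e1 e2
      _ = ENNReal.ofReal (1552 * Real.pi ^ 3 * a ^ (-(3 / 2) : ℝ)) := by
          rw [← ENNReal.ofReal_add (by positivity) (by positivity)]
          congr 1
          ring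
      _ ≤ _ := by
          apply ENNReal.ofReal_le_ofReal
          have h2 : a ^ (-(3 / 2) : ℝ) ≤ 8 * (a + s) ^ (-(3 / 2) : ℝ) := by
            rw [← Ker_q4 (by linarith)]
            exact Ker_anti (by linarith) (by linarith)
          have h3 := mul_le_mul_of_nonneg_left h2 (show 0 ≤ 1552 * Real.pi ^ 3 by positivity)
          linarith

theorem Ker_i {z z' : V} (hz : z ≠ 0) (hz' : z' ≠ 0) {s b : ℝ} (hs : 0 < s)
    (hb : b = max (tau z z' / 4) s) :
    ∫⁻ x in {x | tau x z < b}, ENNReal.ofReal ((tau x z + s) ^ (-(3 / 2) : ℝ) *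
        (tau x z' + s) ^ (-(3 / 2) : ℝ)) ∂nuP ≤ ENNReal.ofReal (2 * Real.pi ^ 3 / b) := by
  have hb0 : 0 < b := by
    rw [hb]
    exact lt_of_lt_of_le hs (le_max_right _ _)
  have hbp : 0 < b ^ (-(3 / 2) : ℝ) := Real.rpow_pos_of_pos hb0 _
  have hm : MeasurableSet {x : V | tau x z < b} := measurableSet_lt (Ker_mr z) measurable_const
  calc ∫⁻ x in {x | tau x z < b}, ENNReal.ofReal ((tau x z + s) ^ (-(3 / 2) : ℝ) *
        (tau x z' + s) ^ (-(3 / 2) : ℝ)) ∂nuP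
      ≤ ENNReal.ofReal (b ^ (-(3 / 2) : ℝ)) * ∫⁻ x in {x | tau x z < b},
        ENNReal.ofReal ((tau z x) ^ (-(3 / 2) : ℝ)) ∂nuP := by
        refine Ker_cm hm hbp.le ?_
        have hne : ∀ᵐ x ∂nuP, x ≠ 0 := by
          refine nuP_ac.ae_le ?_
          exact (Set.countable_singleton (0 : V)).ae_notMem _
        filter_upwards [nu_tau_pos hz, hne] with x hpos hx0 hxb
        have h1 : (tau x z + s) ^ (-(3 / 2) : ℝ) ≤ (tau z x) ^ (-(3 / 2) : ℝ) := by
          refine Ker_anti hpos ?_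
          rw [tau_symm z x]
          linarith
        have h2 : b ≤ tau x z' + s := by
          rcases le_total (tau z z' / 4) s with h | h
          · rw [hb, max_eq_right h]
            linarith [tau_nonneg x z']
          · have hxb' : tau x z < tau z z' / 4 := by
              have : tau x z < b := hxb
              rwa [hb, max_eq_left h] at this
            have h3 := Ker_tri (x := z') (y := x) (z := z) hz' hx0 hz (a := tau z z')
              (tau_nonneg _ _) (by rw [tau_symm]) hxb'.le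
            rw [tau_symm z' x] at h3
            rw [hb, max_eq_left h]
            linarith
        have h4 : (tau x z' + s) ^ (-(3 / 2) : ℝ) ≤ b ^ (-(3 / 2) : ℝ) := Ker_anti hb0 h2
        rw [mul_comm (b ^ (-(3 / 2) : ℝ))]
        exact mul_le_mul h1 h4 (Real.rpow_nonneg (by linarith [tau_nonneg x z']) _)
          (Real.rpow_nonneg (tau_nonneg _ _) _)
    _ ≤ ENNReal.ofReal (b ^ (-(3 / 2) : ℝ)) * ENNReal.ofReal (2 * Real.pi ^ 3 * Real.sqrt b) := by
        gcongr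
        have h5 : {x : V | tau x z < b} = {x : V | tau z x < b} := by
          ext x
          show tau x z < b ↔ tau z x < b
          rw [tau_symm]
        rw [h5]
        exact nu_sing hz hb0.le
    _ = ENNReal.ofReal (2 * Real.pi ^ 3 / b) := by
        rw [← ENNReal.ofReal_mul hbp.le]
        congr 1
        have h6 := Ker_rp2 hb0
        have h7 : Real.sqrt b * Real.sqrt b = b := Real.mul_self_sqrt hb0.le
        rw [← h6]
        have h8 : (b ^ 2)⁻¹ * Real.sqrt b * (2 * Real.pi ^ 3 * Real.sqrt b) =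
            (b ^ 2)⁻¹ * (2 * Real.pi ^ 3) * (Real.sqrt b * Real.sqrt b) := by ring
        rw [h8, h7]
        field_simp

theorem KK2 : ∃ C : ℝ, 0 < C ∧ ∀ (ε : ℝ) (z z' : V), 0 < ε → ε ≤ 1 → z ≠ 0 → z' ≠ 0 →
    ∫⁻ x, ENNReal.ofReal ((tau x z + ε ^ 2) ^ (-(3 / 2) : ℝ) *
        (tau x z' + ε ^ 2) ^ (-(3 / 2) : ℝ)) ∂nuP ≤
      ENNReal.ofReal (C * (tau z z' + ε ^ 2)⁻¹) := by
  refine ⟨25 * Real.pi ^ 3, by positivity, fun ε z z' hε h1 hz hz' => ?_⟩
  have hs : 0 < ε ^ 2 := by positivity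
  set s := ε ^ 2 with hsdef
  obtain ⟨b, hb⟩ : ∃ b, b = max (tau z z' / 4) s := ⟨_, rfl⟩
  have hb0 : 0 < b := by
    rw [hb]
    exact lt_of_lt_of_le hs (le_max_right _ _)
  have e1 := Ker_i hz hz' hs hb
  have e2 := Ker_i (z := z') (z' := z) (b := b) hz' hz hs (by rw [hb, tau_symm z z'])
  have mA : MeasurableSet {x : V | tau x z < b} := measurableSet_lt (Ker_mr z) measurable_const
  have mB : MeasurableSet {x : V | tau x z' < b} := measurableSet_lt (Ker_mr z') measurable_const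
  have hfar : ∀ w : V, w ≠ 0 → ∀ S : Set V, S ⊆ {x : V | b ≤ tau x w} →
      ∫⁻ x in S, ENNReal.ofReal ((tau x w) ^ (-3 : ℝ)) ∂nuP ≤
      ENNReal.ofReal (Real.pi ^ 3 / b) := by
    intro w hw S hS
    refine (lintegral_mono_set hS).trans ?_
    have h5 : {x : V | b ≤ tau x w} = {x : V | b ≤ tau w x} := by
      ext x
      show b ≤ tau x w ↔ b ≤ tau w x
      rw [tau_symm]
    rw [h5, show (fun x => ENNReal.ofReal ((tau x w) ^ (-3 : ℝ))) =
      fun x => ENNReal.ofReal ((tau w x) ^ (-3 : ℝ)) from funext fun x => by rw [tau_symm]]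
    exact nu_far hw hb0
  set S : Set V := {x | b ≤ tau x z ∧ b ≤ tau x z'} with hS
  have mS : MeasurableSet S :=
    (measurableSet_le measurable_const (Ker_mr z)).inter
      (measurableSet_le measurable_const (Ker_mr z'))
  have e3 : ∫⁻ x in S, ENNReal.ofReal ((tau x z + s) ^ (-(3 / 2) : ℝ) *
        (tau x z' + s) ^ (-(3 / 2) : ℝ)) ∂nuP ≤ ENNReal.ofReal (Real.pi ^ 3 / b) := by
    have hpt : ∀ t : ℝ, b ≤ t → ((t + s) ^ (-(3 / 2) : ℝ)) ^ 2 ≤ t ^ (-3 : ℝ) := by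
      intro t ht
      have ht0 : 0 < t := hb0.trans_le ht
      have h2 : (t + s) ^ (-(3 / 2) : ℝ) ≤ t ^ (-(3 / 2) : ℝ) := Ker_anti ht0 (by linarith)
      have h3 : (t ^ (-(3 / 2) : ℝ)) ^ 2 = t ^ (-3 : ℝ) := by
        rw [← Real.rpow_natCast, ← Real.rpow_mul ht0.le]
        norm_num
      rw [← h3]
      exact pow_le_pow_left₀ (Real.rpow_nonneg (by linarith) _) h2 2
    calc ∫⁻ x in S, ENNReal.ofReal ((tau x z + s) ^ (-(3 / 2) : ℝ) *
        (tau x z' + s) ^ (-(3 / 2) : ℝ)) ∂nuP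
        ≤ ∫⁻ x in S, (ENNReal.ofReal (1 / 2) * ENNReal.ofReal ((tau x z) ^ (-3 : ℝ)) +
          ENNReal.ofReal (1 / 2) * ENNReal.ofReal ((tau x z') ^ (-3 : ℝ))) ∂nuP := by
          refine setLIntegral_mono' mS fun x hx => ?_
          rw [← ENNReal.ofReal_mul (by norm_num), ← ENNReal.ofReal_mul (by norm_num),
            ← ENNReal.ofReal_add
              (mul_nonneg (by norm_num) (Real.rpow_nonneg (tau_nonneg _ _) _))
              (mul_nonneg (by norm_num) (Real.rpow_nonneg (tau_nonneg _ _) _))]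
          apply ENNReal.ofReal_le_ofReal
          have h2 := hpt _ hx.1
          have h3 := hpt _ hx.2
          nlinarith [sq_nonneg ((tau x z + s) ^ (-(3 / 2) : ℝ) - (tau x z' + s) ^ (-(3 / 2) : ℝ))]
      _ = ENNReal.ofReal (1 / 2) * ∫⁻ x in S, ENNReal.ofReal ((tau x z) ^ (-3 : ℝ)) ∂nuP +
          ENNReal.ofReal (1 / 2) * ∫⁻ x in S, ENNReal.ofReal ((tau x z') ^ (-3 : ℝ)) ∂nuP := by
          rw [lintegral_add_left, lintegral_const_mul' _ _ ENNReal.ofReal_ne_top,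
            lintegral_const_mul' _ _ ENNReal.ofReal_ne_top]
          exact (((Ker_mr z).pow_const _).ennreal_ofReal).const_mul _
      _ ≤ ENNReal.ofReal (1 / 2) * ENNReal.ofReal (Real.pi ^ 3 / b) +
          ENNReal.ofReal (1 / 2) * ENNReal.ofReal (Real.pi ^ 3 / b) := by
          gcongr
          · exact hfar z hz S fun x hx => hx.1
          · exact hfar z' hz' S fun x hx => hx.2
      _ = ENNReal.ofReal (Real.pi ^ 3 / b) := by
          rw [← ENNReal.ofReal_mul (by norm_num), ← ENNReal.ofReal_add (by positivity) (by positivity)]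
          congr 1
          ring
  have hcov : (Set.univ : Set V) = {x : V | tau x z < b} ∪ ({x : V | tau x z' < b} ∪ S) := by
    ext x
    simp only [Set.mem_univ, true_iff]
    by_cases h2 : tau x z < b
    · exact Or.inl h2
    · by_cases h3 : tau x z' < b
      · exact Or.inr (Or.inl h3)
      · exact Or.inr (Or.inr ⟨not_lt.1 h2, not_lt.1 h3⟩)
  rw [← setLIntegral_univ, hcov]
  refine (lintegral_union_le _ _ _).trans ?_
  refine (add_le_add_right (lintegral_union_le _ _ _) _).trans ?_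
  have e2' : ∫⁻ x in {x | tau x z' < b}, ENNReal.ofReal ((tau x z + s) ^ (-(3 / 2) : ℝ) *
        (tau x z' + s) ^ (-(3 / 2) : ℝ)) ∂nuP ≤ ENNReal.ofReal (2 * Real.pi ^ 3 / b) := by
    simp only [mul_comm ((tau _ z + s) ^ (-(3 / 2) : ℝ))]
    exact e2
  calc _ ≤ ENNReal.ofReal (2 * Real.pi ^ 3 / b) +
        (ENNReal.ofReal (2 * Real.pi ^ 3 / b) + ENNReal.ofReal (Real.pi ^ 3 / b)) :=
        add_le_add e1 (add_le_add e2' e3)
    _ = ENNReal.ofReal (5 * Real.pi ^ 3 / b) := by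
        rw [← ENNReal.ofReal_add (by positivity) (by positivity),
          ← ENNReal.ofReal_add (by positivity) (by positivity)]
        congr 1
        ring
    _ ≤ _ := by
        apply ENNReal.ofReal_le_ofReal
        have h2 : tau z z' + s ≤ 5 * b := by
          have h3 : tau z z' / 4 ≤ b := by
            rw [hb]
            exact le_max_left _ _
          have h4 : s ≤ b := by
            rw [hb]
            exact le_max_right _ _
          linarith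
        have h3 : 0 < tau z z' + s := by linarith [tau_nonneg z z']
        rw [← div_eq_mul_inv, div_le_div_iff₀ hb0 h3]
        have h4 : 0 < Real.pi ^ 3 := by positivity
        nlinarith

theorem K3 {ε s : ℝ} {p y : V} (hε : 0 < ε) (h1 : ε ≤ 1) (hs : 0 < s) (hp : p ≠ 0) (hy : y ≠ 0)
    (h : 4 * s ≤ tau y p) :
    ∫⁻ x in {x | tau x p < s}, ENNReal.ofReal (kk ε (tau x y)) ∂nuP ≤
      ENNReal.ofReal (ε⁻¹ ^ 4 * Real.exp (-s / ε ^ 2) * Real.pi ^ 3) := by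
  have hm : MeasurableSet {x : V | tau x p < s} := measurableSet_lt (Ker_mr p) measurable_const
  have h2 : ∀ x ∈ {x : V | tau x p < s}, ENNReal.ofReal (kk ε (tau x y)) ≤
      ENNReal.ofReal (2 * ε⁻¹ ^ 4 * Real.exp (-s / ε ^ 2)) := by
    intro x hx
    have hx' : tau x p < s := hx
    have hx0 : x ≠ 0 := by
      rintro rfl
      rw [Ker_zero] at hx'
      have := tau_le_one y p
      linarith
    have h3 : s ≤ tau x y := by
      have h4 := Ker_tri (x := y) (y := x) (z := p) hy hx0 hp (a := 4 * s) (by linarith) h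
        (by linarith)
      rw [tau_symm y x] at h4
      linarith
    apply ENNReal.ofReal_le_ofReal
    refine (kk_le hε h1 (tau_nonneg x y)).trans ?_
    refine mul_le_mul_of_nonneg_left ?_ (by positivity)
    rw [Real.exp_le_exp]
    exact div_le_div_of_nonneg_right (by linarith) (by positivity)
  calc ∫⁻ x in {x | tau x p < s}, ENNReal.ofReal (kk ε (tau x y)) ∂nuP
      ≤ ∫⁻ _x in {x | tau x p < s}, ENNReal.ofReal (2 * ε⁻¹ ^ 4 * Real.exp (-s / ε ^ 2)) ∂nuP :=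
        setLIntegral_mono' hm h2
    _ = ENNReal.ofReal (2 * ε⁻¹ ^ 4 * Real.exp (-s / ε ^ 2)) * nuP {x | tau x p < s} :=
        setLIntegral_const _ _
    _ ≤ ENNReal.ofReal (2 * ε⁻¹ ^ 4 * Real.exp (-s / ε ^ 2)) * ENNReal.ofReal (Real.pi ^ 3 / 2) := by
        gcongr
        rw [← nuP_univ]
        exact measure_mono (Set.subset_univ _)
    _ = _ := by
        rw [← ENNReal.ofReal_mul (by positivity)]
        congr 1
        ring

end Pool.Agent.H85.DC

end S_H85_DC_Ker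

section S_H85_DC_FinB

/-!
# Row FinB: small balls around the singular points

`B(p,ρ) = {x ≠ 0, tau x p ≤ ρ^2}`. `A0` a form, `|A0_jk| ≤ C/N` (`form_bound`), so `√(hs (A0 x)) ≤ 3 C/N x`.
`small_A0`: for `x ≠ 0`: `|ee (A0 x) (DD ε x)| ≤ 3 √(hs (A0 x)) (tr (sm μ) + tr (sm μ'))` (`ee_abs_pos`, `ee_sub`) `≤ (9C/N x)(3/N x) (∫ kk ε (tau x y) dμ + ∫ kk … dμ')` (`tr_sm_le`). So
`∫_{B(p,ρ)} |ee A0 DD| wt ≤ 27 C ∫ [∫_{tau x p < 2ρ^2} kk ε (tau x y) dν(x)] d(μ+μ')(y)` (Tonelli). For `tau y p ≥ 8ρ^2` the inner integral is at most `ε^{-4} e^{-2ρ^2/ε^2} π^3` (`K3` with `s = 2ρ^2`), otherwise at most the constant of `K0`. So the total is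
`≤ C' ((μ+μ'){tau y p < 8ρ^2} + ε^{-4} e^{-2ρ^2/ε^2})`. As `ρ → 0` the sets `{y | N y = 1, tau y p < 8ρ^2}` decrease to `{tau y p = 0}`, i.e. (`tau_eq_zero`) multiples of `p`, zeros of `eta F` (`SingPts.zero`), which are
`μ`-null and `μ'`-null (`IsCur.sing`): `tendsto_measure_iInter…`. Choose `ρ1` so that the first term is `≤ β/2` for `ρ ≤ ρ1`, then `ε0(ρ)`.
`small_AA`: `|ee (A0)(A0)| ≤ 4 hs (A0) ≤ 36 C^2/N^2`, `∫_{B(p,ρ)} N^{-2} wt = nuP {tau ≤ ρ^2} ≤ π^3 (2ρ^2)^2` (`nu_small`).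
-/

open MeasureTheory
open scoped ContDiff BigOperators ComplexConjugate Matrix

namespace Pool.Agent.H85.DC

theorem FinB_hs {A0 : V → M3} {C : ℝ} (hC0 : 0 ≤ C)
    (hC : ∀ x : V, x ≠ 0 → ∀ j k, ‖A0 x j k‖ ≤ C / N x) {x : V} (hx : x ≠ 0) :
    Real.sqrt (hs (A0 x)) ≤ 3 * C / N x := by
  have hN : 0 < N x := N_pos hx
  have h1 : hs (A0 x) ≤ (3 * C / N x) ^ 2 := by
    unfold hs
    calc ∑ j, ∑ k, Complex.normSq (A0 x j k) ≤ ∑ _j : Fin 3, ∑ _k : Fin 3, (C / N x) ^ 2 := by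
          refine Finset.sum_le_sum fun j _ => Finset.sum_le_sum fun k _ => ?_
          rw [Complex.normSq_eq_norm_sq]
          exact pow_le_pow_left₀ (norm_nonneg _) (hC x hx j k) 2
      _ = (3 * C / N x) ^ 2 := by
          simp only [Finset.sum_const, Finset.card_univ, Fintype.card_fin, nsmul_eq_mul]
          push_cast
          ring
  exact (Real.sqrt_le_sqrt h1).trans (Real.sqrt_sq (by positivity)).le

theorem FinB_kc (ε : ℝ) : Continuous (kk ε) := by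
  unfold kk
  fun_prop

theorem FinB_km (ε : ℝ) : Measurable (fun q : V × V => kk ε (tau q.1 q.2)) :=
  (FinB_kc ε).measurable.comp measurable_tau

theorem FinB_one {F : Fin 3 → MvPolynomial (Fin 3) ℂ} {μ : Measure V} (hμ : IsCur F μ)
    {A0 : V → M3} {C : ℝ} (hC0 : 0 ≤ C)
    (hC : ∀ x : V, x ≠ 0 → ∀ j k, ‖A0 x j k‖ ≤ C / N x) {ε : ℝ} (hε : 0 < ε) (h1 : ε ≤ 1)
    {x : V} (hx : x ≠ 0) :
    ‖ee (A0 x) (sm F μ ε x)‖ ≤ 27 * C / (N x) ^ 2 * ∫ y, kk ε (tau x y) ∂μ := by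
  have hN : 0 < N x := N_pos hx
  have h2 := ee_abs_pos (A0 x) (herm_sm hμ hε h1 x hx) (pos_sm hμ hε h1 hx)
  have h3 := tr_sm_le hμ hε h1 hx
  have h4 := FinB_hs hC0 hC hx
  have hI : 0 ≤ ∫ y, kk ε (tau x y) ∂μ := integral_nonneg fun y => kk_nonneg (tau_le_one x y)
  have h5 : (sm F μ ε x).trace.re ≤ 3 * (∫ y, kk ε (tau x y) ∂μ) / N x := by
    rw [le_div_iff₀ hN]
    linarith
  generalize (∫ y, kk ε (tau x y) ∂μ) = I at h3 hI h5 ⊢
  generalize (sm F μ ε x).trace.re = t at h2 h3 h5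
  have hr := Real.sqrt_nonneg (hs (A0 x))
  generalize Real.sqrt (hs (A0 x)) = r at h2 h4 hr
  generalize N x = n at hN h3 h4 h5 ⊢
  calc ‖ee (A0 x) (sm F μ ε x)‖ ≤ 3 * r * t := h2
    _ ≤ 3 * r * (3 * I / n) := mul_le_mul_of_nonneg_left h5 (by positivity)
    _ ≤ 3 * (3 * C / n) * (3 * I / n) := by
        refine mul_le_mul_of_nonneg_right ?_ (by positivity)
        linarith
    _ = 27 * C / n ^ 2 * I := by
        field_simp
        ring

theorem FinB_lint {μ : Measure V} (ε : ℝ) (x : V) :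
    ENNReal.ofReal (∫ y, kk ε (tau x y) ∂μ) ≤ ∫⁻ y, ENNReal.ofReal (kk ε (tau x y)) ∂μ := by
  have hp : Measurable fun y : V => ((x, y) : V × V) := measurable_const.prodMk measurable_id
  have hm : Measurable fun y : V => kk ε (tau x y) := by
    have h := (FinB_kc ε).measurable.comp (measurable_tau.comp hp)
    exact h
  rw [integral_eq_lintegral_of_nonneg_ae
    (Filter.Eventually.of_forall fun y => kk_nonneg (tau_le_one x y)) hm.aestronglyMeasurable]
  exact ENNReal.ofReal_toReal_le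

theorem FinB_two {F : Fin 3 → MvPolynomial (Fin 3) ℂ} {μ μ' : Measure V} (hμ : IsCur F μ)
    (hμ' : IsCur F μ') {A0 : V → M3} {C : ℝ} (hC0 : 0 ≤ C)
    (hC : ∀ x : V, x ≠ 0 → ∀ j k, ‖A0 x j k‖ ≤ C / N x) {ε : ℝ} (hε : 0 < ε) (h1 : ε ≤ 1)
    {x : V} (hx : x ≠ 0) :
    ENNReal.ofReal (‖ee (A0 x) (DD F μ μ' ε x)‖ * wt x) ≤
      ENNReal.ofReal (wt x / (N x) ^ 2) * (ENNReal.ofReal (27 * C) *
        ∫⁻ y, ENNReal.ofReal (kk ε (tau x y)) ∂(μ + μ')) := by
  have hN : 0 < N x := N_pos hx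
  have hw : 0 < wt x := Real.exp_pos _
  have hee : ee (A0 x) (DD F μ μ' ε x) = ee (A0 x) (sm F μ ε x) - ee (A0 x) (sm F μ' ε x) := by
    unfold ee DD
    rw [Matrix.trace_sub, Matrix.mul_sub, Matrix.trace_sub]
    ring
  have h2 := FinB_one hμ hC0 hC hε h1 hx
  have h3 := FinB_one hμ' hC0 hC hε h1 hx
  have h4 : ‖ee (A0 x) (DD F μ μ' ε x)‖ * wt x ≤ (wt x / (N x) ^ 2) * ((27 * C) *
      ((∫ y, kk ε (tau x y) ∂μ) + ∫ y, kk ε (tau x y) ∂μ')) := by
    calc ‖ee (A0 x) (DD F μ μ' ε x)‖ * wt x ≤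
        (27 * C / (N x) ^ 2 * (∫ y, kk ε (tau x y) ∂μ) +
          27 * C / (N x) ^ 2 * ∫ y, kk ε (tau x y) ∂μ') * wt x := by
          refine mul_le_mul_of_nonneg_right ?_ hw.le
          rw [hee]
          exact (norm_sub_le _ _).trans (add_le_add h2 h3)
      _ = _ := by ring
  refine (ENNReal.ofReal_le_ofReal h4).trans ?_
  rw [ENNReal.ofReal_mul (by positivity), ENNReal.ofReal_mul (by positivity)]
  refine mul_le_mul_right ?_ _
  refine mul_le_mul_right ?_ _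
  rw [lintegral_add_measure]
  refine ENNReal.ofReal_add_le.trans ?_
  exact add_le_add (FinB_lint ε x) (FinB_lint ε x)

theorem FinB_Bm (p : V) (ρ : ℝ) : MeasurableSet {x : V | x ≠ 0 ∧ tau x p ≤ ρ ^ 2} := by
  have hpm : Measurable fun x : V => ((x, p) : V × V) := measurable_id.prodMk measurable_const
  have h1 : Measurable fun x : V => tau x p := by
    have h := measurable_tau.comp hpm
    exact h
  have h2 : {x : V | x ≠ 0 ∧ tau x p ≤ ρ ^ 2} = {0}ᶜ ∩ {x : V | tau x p ≤ ρ ^ 2} := by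
    ext x
    simp
  rw [h2]
  exact (measurableSet_singleton (0 : V)).compl.inter (measurableSet_le h1 measurable_const)

theorem FinB_Sm (p : V) (ρ : ℝ) : MeasurableSet {y : V | N y = 1 ∧ tau y p < 8 * ρ ^ 2} := by
  have hpm : Measurable fun x : V => ((x, p) : V × V) := measurable_id.prodMk measurable_const
  have h1 : Measurable fun x : V => tau x p := by
    have h := measurable_tau.comp hpm
    exact h
  have h2 : {y : V | N y = 1 ∧ tau y p < 8 * ρ ^ 2} =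
      {y : V | N y = 1} ∩ {y : V | tau y p < 8 * ρ ^ 2} := by
    ext x
    simp
  rw [h2]
  exact (measurableSet_eq_fun TauM_continuous_N.measurable measurable_const).inter
    (measurableSet_lt h1 measurable_const)

theorem FinB_main {C0 : ℝ} (hK0 : ∀ (ε : ℝ) (z : V), 0 < ε → ε ≤ 1 → z ≠ 0 →
    ∫⁻ y, ENNReal.ofReal (kk ε (tau y z)) ∂nuP ≤ ENNReal.ofReal C0)
    {M : Measure V} [IsFiniteMeasure M] (hM : ∀ᵐ y ∂M, N y = 1) {ρ ε : ℝ} (hρ : 0 < ρ)
    (hε : 0 < ε) (h1 : ε ≤ 1) {p : V} (hp : N p = 1) :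
    ∫⁻ x in {x : V | x ≠ 0 ∧ tau x p ≤ ρ ^ 2}, ∫⁻ y, ENNReal.ofReal (kk ε (tau x y)) ∂M ∂nuP ≤
      ENNReal.ofReal C0 * M {y : V | N y = 1 ∧ tau y p < 8 * ρ ^ 2} +
      ENNReal.ofReal (ε⁻¹ ^ 4 * Real.exp (-(2 * ρ ^ 2) / ε ^ 2) * Real.pi ^ 3) * M Set.univ := by
  have hp0 : p ≠ 0 := by
    rintro rfl
    rw [TauM_N_zero] at hp
    exact zero_ne_one hp
  have hsf : SFinite nuP := by
    unfold nuP
    infer_instance
  rw [lintegral_lintegral_swap (FinB_km ε).ennreal_ofReal.aemeasurable]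
  have hin : ∀ᵐ y ∂M, ∫⁻ x in {x : V | x ≠ 0 ∧ tau x p ≤ ρ ^ 2},
      ENNReal.ofReal (kk ε (tau x y)) ∂nuP ≤
      {y : V | N y = 1 ∧ tau y p < 8 * ρ ^ 2}.indicator (fun _ => ENNReal.ofReal C0) y +
        ENNReal.ofReal (ε⁻¹ ^ 4 * Real.exp (-(2 * ρ ^ 2) / ε ^ 2) * Real.pi ^ 3) := by
    filter_upwards [hM] with y hy
    have hy0 : y ≠ 0 := by
      rintro rfl
      rw [TauM_N_zero] at hy
      exact zero_ne_one hy
    by_cases hlt : tau y p < 8 * ρ ^ 2
    · rw [Set.indicator_of_mem (show y ∈ {y : V | N y = 1 ∧ tau y p < 8 * ρ ^ 2} from ⟨hy, hlt⟩)]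
      exact (setLIntegral_le_lintegral _ _).trans ((hK0 ε y hε h1 hy0).trans le_self_add)
    · have h3 := K3 hε h1 (s := 2 * ρ ^ 2) (by positivity) hp0 hy0 (by linarith)
      refine le_trans ?_ (h3.trans le_add_self)
      refine lintegral_mono_set ?_
      rintro x ⟨_, hx⟩
      have : 0 < ρ ^ 2 := by positivity
      show tau x p < 2 * ρ ^ 2
      linarith
  refine (lintegral_mono_ae hin).trans ?_
  rw [lintegral_add_right _ measurable_const, lintegral_indicator_const (FinB_Sm p ρ),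
    lintegral_const]

theorem FinB_small {F : Fin 3 → MvPolynomial (Fin 3) ℂ} {P : Finset V} (hP : SingPts F P)
    {M : Measure V} [IsFiniteMeasure M] (hM : ∀ᵐ y ∂M, eta F y ≠ 0) {δ : ENNReal} (hδ : 0 < δ) :
    ∃ ρ1 : ℝ, 0 < ρ1 ∧ ∀ ρ : ℝ, 0 < ρ → ρ ≤ ρ1 → ∀ p ∈ P,
      M {y : V | N y = 1 ∧ tau y p < 8 * ρ ^ 2} ≤ δ := by
  have hmono : ∀ (p : V) (i j : ℝ), 0 < i → i ≤ j →
      {y : V | N y = 1 ∧ tau y p < 8 * i ^ 2} ⊆ {y : V | N y = 1 ∧ tau y p < 8 * j ^ 2} := by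
    rintro p i j hi hij y ⟨h1, h2⟩
    refine ⟨h1, lt_of_lt_of_le h2 ?_⟩
    have := pow_le_pow_left₀ hi.le hij 2
    linarith
  have hev : ∀ p ∈ P, ∀ᶠ ρ : ℝ in nhdsWithin 0 (Set.Ioi 0),
      M {y : V | N y = 1 ∧ tau y p < 8 * ρ ^ 2} ≤ δ := by
    intro p hp
    have ht := tendsto_measure_biInter_gt (μ := M)
      (s := fun ρ : ℝ => {y : V | N y = 1 ∧ tau y p < 8 * ρ ^ 2}) (a := 0)
      (fun r _ => (FinB_Sm p r).nullMeasurableSet) (fun i j hi hij => hmono p i j hi hij)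
      ⟨1, one_pos, measure_ne_top M _⟩
    have hzero : M (⋂ r > (0 : ℝ), {y : V | N y = 1 ∧ tau y p < 8 * r ^ 2}) = 0 := by
      refine measure_mono_null ?_ (ae_iff.1 hM)
      intro y hy
      rw [Set.mem_iInter₂] at hy
      have hN := (hy 1 one_pos).1
      have hy0 : y ≠ 0 := by
        rintro rfl
        rw [TauM_N_zero] at hN
        exact zero_ne_one hN
      have hp0 : p ≠ 0 := by
        rintro rfl
        have := hP.unit 0 hp
        rw [TauM_N_zero] at this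
        exact zero_ne_one this
      have htau : tau y p = 0 := by
        refine le_antisymm ?_ (tau_nonneg y p)
        by_contra hpos
        push Not at hpos
        have h1 := (hy (Real.sqrt (tau y p / 8)) (Real.sqrt_pos.2 (by positivity))).2
        rw [Real.sq_sqrt (by positivity)] at h1
        linarith
      show ¬ eta F y ≠ 0
      rw [not_not, hP.zero y hy0]
      obtain ⟨c, hc⟩ := tau_eq_zero hy0 hp0 htau
      exact ⟨p, hp, c, hc⟩
    rw [hzero] at ht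
    exact ht.eventually_le_const hδ
  have hall : ∀ᶠ ρ : ℝ in nhdsWithin 0 (Set.Ioi 0), ∀ p ∈ P,
      M {y : V | N y = 1 ∧ tau y p < 8 * ρ ^ 2} ≤ δ :=
    (Filter.eventually_all_finset P).2 hev
  obtain ⟨ρ1, h1, hρ1⟩ := (hall.and self_mem_nhdsWithin).exists
  refine ⟨ρ1, hρ1, fun ρ hρ hle p hp => ?_⟩
  exact (measure_mono (hmono p ρ ρ1 hρ hle)).trans (h1 p hp)

/-- from a bound of the upper integral to a bound of the integral over a ball -/
theorem FinB_fin {f : V → ℝ} (hf : ∀ x, 0 ≤ f x) {B : Set V} {β : ℝ} (hβ : 0 ≤ β)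
    (h : ∫⁻ x in B, ENNReal.ofReal (f x) ≤ ENNReal.ofReal β) : ∫ x in B, f x ≤ β := by
  have h1 := norm_integral_le_lintegral_norm (μ := (volume : Measure V).restrict B) f
  have h2 : ∫⁻ x in B, ENNReal.ofReal ‖f x‖ = ∫⁻ x in B, ENNReal.ofReal (f x) := by
    congr 1
    funext x
    rw [Real.norm_of_nonneg (hf x)]
  rw [h2] at h1
  exact (le_abs_self _).trans (h1.trans (ENNReal.toReal_le_of_le_ofReal hβ h))

theorem FinB_nuP {B : Set V} (hB : MeasurableSet B) (g : V → ENNReal) :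
    ∫⁻ x in B, ENNReal.ofReal (wt x / (N x) ^ 2) * g x = ∫⁻ x in B, g x ∂nuP := by
  have hm : Measurable fun y : V => ENNReal.ofReal (wt y / (N y) ^ 2) := by
    have h1 : Measurable N := TauM_continuous_N.measurable
    have h2 : Measurable wt := by
      unfold wt
      exact Real.measurable_exp.comp h1.neg
    exact (h2.div (h1.pow_const 2)).ennreal_ofReal
  unfold nuP
  rw [restrict_withDensity hB, lintegral_withDensity_eq_lintegral_mul_non_measurable _ hm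
    (Filter.Eventually.of_forall fun _ => ENNReal.ofReal_lt_top)]
  rfl

theorem small_A0 {F : Fin 3 → MvPolynomial (Fin 3) ℂ} {P : Finset V} (hP : SingPts F P)
    {μ μ' : Measure V} (hμ : IsCur F μ) (hμ' : IsCur F μ') {A0 : V → M3} (hA : IsForm A0)
    {β : ℝ} (hβ : 0 < β) :
    ∃ ρ1 : ℝ, 0 < ρ1 ∧ ∀ ρ : ℝ, 0 < ρ → ρ ≤ ρ1 → ∃ ε0 : ℝ, 0 < ε0 ∧ ∀ ε : ℝ, 0 < ε → ε < ε0 →
      ∀ p ∈ P, ∫ x in {x : V | x ≠ 0 ∧ tau x p ≤ ρ ^ 2}, ‖ee (A0 x) (DD F μ μ' ε x)‖ * wt x ≤ β := by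
  obtain ⟨C, hC0, hC⟩ := form_bound hA
  obtain ⟨C0, hC0p, hK0⟩ := K0
  have hfin : IsFiniteMeasure μ := ⟨by rw [hμ.prob]; exact ENNReal.one_lt_top⟩
  have hfin' : IsFiniteMeasure μ' := ⟨by rw [hμ'.prob]; exact ENNReal.one_lt_top⟩
  have hMs : ∀ᵐ y ∂(μ + μ'), N y = 1 := by
    rw [ae_add_measure_iff]
    exact ⟨hμ.sphere, hμ'.sphere⟩
  have hMe : ∀ᵐ y ∂(μ + μ'), eta F y ≠ 0 := by
    rw [ae_add_measure_iff]
    exact ⟨hμ.sing, hμ'.sing⟩
  have hMu : (μ + μ') Set.univ = ENNReal.ofReal 2 := by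
    rw [Measure.add_apply, hμ.prob, hμ'.prob]
    norm_num
  set δ : ℝ := β / (2 * (27 * C * C0 + 1)) with hδ
  have hden : 0 < 27 * C * C0 + 1 := by positivity
  have hδ0 : 0 < δ := by positivity
  obtain ⟨ρ1, hρ1, hsm⟩ := FinB_small hP hMe (ENNReal.ofReal_pos.2 hδ0)
  refine ⟨ρ1, hρ1, fun ρ hρ hle => ?_⟩
  set D : ℝ := 27 * C * Real.pi ^ 3 * 2 with hD
  have hD0 : 0 ≤ D := by positivity
  refine ⟨min 1 (β * ρ ^ 6 / (2 * (D + 1))), by positivity, fun ε hε hlt p hp => ?_⟩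
  have hε1 : ε ≤ 1 := (hlt.trans_le (min_le_left _ _)).le
  have hε2 : ε < β * ρ ^ 6 / (2 * (D + 1)) := hlt.trans_le (min_le_right _ _)
  have hexp : ε⁻¹ ^ 4 * Real.exp (-(2 * ρ ^ 2) / ε ^ 2) ≤ ε ^ 2 / ρ ^ 6 := by
    have hu : 0 < 2 * ρ ^ 2 / ε ^ 2 := by positivity
    have h1 := Real.pow_div_factorial_le_exp (2 * ρ ^ 2 / ε ^ 2) hu.le 3
    have h2 : (Nat.factorial 3 : ℝ) = 6 := by norm_num [Nat.factorial]
    rw [h2] at h1
    have h3 : Real.exp (-(2 * ρ ^ 2) / ε ^ 2) = (Real.exp (2 * ρ ^ 2 / ε ^ 2))⁻¹ := by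
      rw [← Real.exp_neg, neg_div]
    have h4 : (Real.exp (2 * ρ ^ 2 / ε ^ 2))⁻¹ ≤ ((2 * ρ ^ 2 / ε ^ 2) ^ 3 / 6)⁻¹ :=
      inv_anti₀ (by positivity) h1
    rw [h3]
    calc ε⁻¹ ^ 4 * (Real.exp (2 * ρ ^ 2 / ε ^ 2))⁻¹ ≤
        ε⁻¹ ^ 4 * ((2 * ρ ^ 2 / ε ^ 2) ^ 3 / 6)⁻¹ := mul_le_mul_of_nonneg_left h4 (by positivity)
      _ = 3 / 4 * (ε ^ 2 / ρ ^ 6) := by
          field_simp
          ring
      _ ≤ ε ^ 2 / ρ ^ 6 := by
          have : 0 ≤ ε ^ 2 / ρ ^ 6 := by positivity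
          linarith
  refine FinB_fin (fun x => mul_nonneg (norm_nonneg _) (Real.exp_pos _).le) hβ.le ?_
  have hpt : ∫⁻ x in {x : V | x ≠ 0 ∧ tau x p ≤ ρ ^ 2},
      ENNReal.ofReal (‖ee (A0 x) (DD F μ μ' ε x)‖ * wt x) ≤
      ∫⁻ x in {x : V | x ≠ 0 ∧ tau x p ≤ ρ ^ 2}, ENNReal.ofReal (wt x / (N x) ^ 2) *
        (ENNReal.ofReal (27 * C) * ∫⁻ y, ENNReal.ofReal (kk ε (tau x y)) ∂(μ + μ')) := by
    refine lintegral_mono_ae ((ae_restrict_iff' (FinB_Bm p ρ)).2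
      (Filter.Eventually.of_forall fun x hx => ?_))
    exact FinB_two hμ hμ' hC0 hC hε hε1 hx.1
  refine hpt.trans ?_
  rw [FinB_nuP (FinB_Bm p ρ), lintegral_const_mul' _ _ ENNReal.ofReal_ne_top]
  have hmain := FinB_main hK0 hMs hρ hε hε1 (hP.unit p hp)
  have hS := hsm ρ hρ hle p hp
  rw [hMu] at hmain
  calc ENNReal.ofReal (27 * C) * ∫⁻ x in {x : V | x ≠ 0 ∧ tau x p ≤ ρ ^ 2},
        ∫⁻ y, ENNReal.ofReal (kk ε (tau x y)) ∂(μ + μ') ∂nuP
      ≤ ENNReal.ofReal (27 * C) * (ENNReal.ofReal C0 * ENNReal.ofReal δ +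
        ENNReal.ofReal (ε⁻¹ ^ 4 * Real.exp (-(2 * ρ ^ 2) / ε ^ 2) * Real.pi ^ 3) *
          ENNReal.ofReal 2) := by
        refine mul_le_mul_right ?_ _
        refine hmain.trans (add_le_add ?_ le_rfl)
        exact mul_le_mul_right hS _
    _ = ENNReal.ofReal (27 * C * (C0 * δ +
        ε⁻¹ ^ 4 * Real.exp (-(2 * ρ ^ 2) / ε ^ 2) * Real.pi ^ 3 * 2)) := by
        rw [ENNReal.ofReal_mul (p := 27 * C) (by positivity),
          ENNReal.ofReal_add (p := C0 * δ) (by positivity) (by positivity),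
          ENNReal.ofReal_mul (p := C0) hC0p.le,
          ENNReal.ofReal_mul (p := ε⁻¹ ^ 4 * Real.exp (-(2 * ρ ^ 2) / ε ^ 2) * Real.pi ^ 3)
            (by positivity)]
    _ ≤ ENNReal.ofReal β := by
        refine ENNReal.ofReal_le_ofReal ?_
        have h1 : 27 * C * (C0 * δ) ≤ β / 2 := by
          rw [hδ]
          have : 27 * C * (C0 * (β / (2 * (27 * C * C0 + 1)))) =
              β / 2 * ((27 * C * C0) / (27 * C * C0 + 1)) := by
            field_simp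
          rw [this]
          have h2 : (27 * C * C0) / (27 * C * C0 + 1) ≤ 1 := by
            rw [div_le_one hden]
            linarith
          have h3 : 0 ≤ β / 2 := by positivity
          nlinarith
        have h2 : 27 * C * (ε⁻¹ ^ 4 * Real.exp (-(2 * ρ ^ 2) / ε ^ 2) * Real.pi ^ 3 * 2) ≤ β / 2 := by
          calc 27 * C * (ε⁻¹ ^ 4 * Real.exp (-(2 * ρ ^ 2) / ε ^ 2) * Real.pi ^ 3 * 2)
              = D * (ε⁻¹ ^ 4 * Real.exp (-(2 * ρ ^ 2) / ε ^ 2)) := by rw [hD]; ring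
            _ ≤ D * (ε ^ 2 / ρ ^ 6) := mul_le_mul_of_nonneg_left hexp hD0
            _ ≤ (D + 1) * (ε / ρ ^ 6) := by
                have h3 : ε ^ 2 ≤ ε := by nlinarith
                have h4 : ε ^ 2 / ρ ^ 6 ≤ ε / ρ ^ 6 := by gcongr
                have h5 : 0 ≤ ε / ρ ^ 6 := by positivity
                nlinarith
            _ ≤ β / 2 := by
                have h3 : ε * (2 * (D + 1)) ≤ β * ρ ^ 6 := by
                  rw [lt_div_iff₀ (by positivity)] at hε2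
                  exact hε2.le
                rw [mul_div_assoc', div_le_iff₀ (by positivity)]
                linarith
        linarith

theorem small_AA {A0 : V → M3} (hA : IsForm A0) {P : Finset V} (hP : ∀ p ∈ P, N p = 1)
    {β : ℝ} (hβ : 0 < β) :
    ∃ ρ1 : ℝ, 0 < ρ1 ∧ ∀ ρ : ℝ, 0 < ρ → ρ ≤ ρ1 →
      ∀ p ∈ P, ∫ x in {x : V | x ≠ 0 ∧ tau x p ≤ ρ ^ 2}, ‖ee (A0 x) (A0 x)‖ * wt x ≤ β := by
  obtain ⟨C, hC0, hC⟩ := form_bound hA
  set D : ℝ := 36 * C ^ 2 * (Real.pi ^ 3 * 4) with hD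
  have hD0 : 0 ≤ D := by positivity
  refine ⟨min 1 (β / (D + 1)), by positivity, fun ρ hρ hle p hp => ?_⟩
  have hρ1 : ρ ≤ 1 := hle.trans (min_le_left _ _)
  have hρ2 : ρ ≤ β / (D + 1) := hle.trans (min_le_right _ _)
  have hp0 : p ≠ 0 := by
    rintro rfl
    have := hP 0 hp
    rw [TauM_N_zero] at this
    exact zero_ne_one this
  refine FinB_fin (fun x => mul_nonneg (norm_nonneg _) (Real.exp_pos _).le) hβ.le ?_
  have hpt : ∫⁻ x in {x : V | x ≠ 0 ∧ tau x p ≤ ρ ^ 2},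
      ENNReal.ofReal (‖ee (A0 x) (A0 x)‖ * wt x) ≤
      ∫⁻ x in {x : V | x ≠ 0 ∧ tau x p ≤ ρ ^ 2}, ENNReal.ofReal (wt x / (N x) ^ 2) *
        ENNReal.ofReal (36 * C ^ 2) := by
    refine lintegral_mono_ae ((ae_restrict_iff' (FinB_Bm p ρ)).2
      (Filter.Eventually.of_forall fun x hx => ?_))
    have hN : 0 < N x := N_pos hx.1
    have hw : 0 < wt x := Real.exp_pos _
    rw [← ENNReal.ofReal_mul (by positivity)]
    refine ENNReal.ofReal_le_ofReal ?_
    have h1 := ee_abs (A0 x) (A0 x)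
    have h2 := FinB_hs hC0 hC hx.1
    have h3 := Real.sqrt_nonneg (hs (A0 x))
    have h4 : Real.sqrt (hs (A0 x)) * Real.sqrt (hs (A0 x)) ≤ (3 * C / N x) * (3 * C / N x) :=
      mul_le_mul h2 h2 h3 (by positivity)
    calc ‖ee (A0 x) (A0 x)‖ * wt x ≤ (4 * ((3 * C / N x) * (3 * C / N x))) * wt x := by
          refine mul_le_mul_of_nonneg_right ?_ hw.le
          linarith
      _ = wt x / (N x) ^ 2 * (36 * C ^ 2) := by
          field_simp
          ring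
  refine hpt.trans ?_
  rw [FinB_nuP (FinB_Bm p ρ), setLIntegral_const]
  have hnu : nuP {x : V | x ≠ 0 ∧ tau x p ≤ ρ ^ 2} ≤ ENNReal.ofReal (Real.pi ^ 3 * (2 * ρ ^ 2) ^ 2) := by
    refine le_trans (measure_mono ?_) (nu_small hp0 (s := 2 * ρ ^ 2) (by positivity))
    rintro x ⟨_, hx⟩
    have : 0 < ρ ^ 2 := by positivity
    show tau p x < 2 * ρ ^ 2
    rw [tau_symm]
    linarith
  refine (mul_le_mul_right hnu _).trans ?_
  rw [← ENNReal.ofReal_mul (by positivity)]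
  refine ENNReal.ofReal_le_ofReal ?_
  have h1 : ρ ^ 4 ≤ ρ := by
    have h2 : ρ ^ 4 ≤ ρ ^ 1 := pow_le_pow_of_le_one hρ.le hρ1 (by norm_num)
    rwa [pow_one] at h2
  calc 36 * C ^ 2 * (Real.pi ^ 3 * (2 * ρ ^ 2) ^ 2) = D * ρ ^ 4 := by rw [hD]; ring
    _ ≤ (D + 1) * ρ := by nlinarith [mul_le_mul_of_nonneg_left h1 hD0]
    _ ≤ β := by
        rw [le_div_iff₀ (by positivity)] at hρ2
        linarith

end Pool.Agent.H85.DC

end S_H85_DC_FinB

section S_H85_DC_EnA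

/-!
# Row EnA: the energy of the Green potential over an annulus

`P` is a finite set of unit vectors with `tau p p' > 0` for `p ≠ p'`. Let `δ = min_{p≠p'} tau p p'` (or `1`), `ρ0 = min (1/4) (√δ/4)`. Given `ρ ≤ ρ0`, `r := ρ^2/64` (so `√r = ρ/8`).
For `x ∈ Ann p ρ` (`ρ^2/e ≤ τ/(1-τ) ≤ ρ^2`, `τ = tau x p`): `τ ≤ ρ^2 ≤ 1/16`, `τ ≥ ρ^2/(e(1 + ρ^2/e)) ≥ ρ^2/4`, so `ρ/2 ≤ √τ ≤ ρ`.
For `z` unit, `z ∉ Kr P r`: there is `p' ∈ P` with `tau z p' < r`. If `p' = p`: `√tau(x,z) ≥ ρ/2 - ρ/8`. If `p' ≠ p`: `√tau(x,z) ≥ √δ - ρ - ρ/8 ≥ 4ρ - 9ρ/8 ≥ ρ`. So in any case `tau x z ≥ ρ^2/8`.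
Let `f` be as in the statement, `I(x) = ∫ τ(x,y)^{-3/2} |f y| dν(y)`. `gr_green`: `gr (green n f) x ≤ 4π^{-6} I(x)^2/N x`; `gr (tt p) x = 1/(N τ(1-τ)) ≤ 8/(ρ^2 N x)` (`gr_tt`).
So the left side is `≤ (32/ρ^2) ∫_{Ann} I(x)^2 N^{-2} wt dx = (32/ρ^2) ∫_{Ann} I^2 dν`.
`I(x) ≤ CA ∫ τ^{-3/2} dν + 3 ∫_z ∫_y τ(x,y)^{-3/2} kk ε (tau y z) dν(y) dm(z) ≤ C CA + C ∫ (tau x z + ε^2)^{-3/2} dm(z)` (Tonelli, `K1`, `nu_sing` with `b = 2`)
`≤ C CA + C m(V)(8/ρ^2)^{3/2} + C ∫_{Kr P r} (tau x z + ε^2)^{-3/2} dm(z)`. Square (`(a+b)^2 ≤ 2a^2+2b^2`), integrate, `(∫_{Kr} g dm)^2 = ∫∫ g g`, Tonelli and `K2`: `∫_{Ann} (∫_{Kr} …)^2 dν ≤ C ∫∫_{Kr²} (tau z z' + ε^2)^{-1} dm dm = C En`.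
(For the last Bochner integral `En`: the integrand is bounded by `ε^{-2}` and measurable, `m` finite; convert `lintegral` to `integral` by `ofReal_integral_eq_lintegral_ofReal`.)
The constant depends on `ρ, CA` only.
-/

open MeasureTheory
open scoped ContDiff BigOperators ComplexConjugate Matrix

namespace Pool.Agent.H85.DC

theorem EnA_ofReal_int {α : Type*} [MeasurableSpace α] {μ : Measure α} {g : α → ℝ}
    (hg : ∀ a, 0 ≤ g a) : ENNReal.ofReal (∫ a, g a ∂μ) ≤ ∫⁻ a, ENNReal.ofReal (g a) ∂μ := by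
  have h1 := norm_integral_le_lintegral_norm (μ := μ) g
  have h2 : (∫⁻ a, ENNReal.ofReal ‖g a‖ ∂μ) = ∫⁻ a, ENNReal.ofReal (g a) ∂μ := by
    refine lintegral_congr fun a => ?_
    rw [Real.norm_of_nonneg (hg a)]
  rw [h2] at h1
  calc ENNReal.ofReal (∫ a, g a ∂μ)
      ≤ ENNReal.ofReal (ENNReal.toReal (∫⁻ a, ENNReal.ofReal (g a) ∂μ)) :=
        ENNReal.ofReal_le_ofReal ((le_abs_self _).trans h1)
    _ ≤ _ := ENNReal.ofReal_toReal_le

theorem EnA_delta (P : Finset V) (hs : ∀ p ∈ P, ∀ p' ∈ P, p ≠ p' → 0 < tau p p') :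
    ∃ δ : ℝ, 0 < δ ∧ ∀ p ∈ P, ∀ p' ∈ P, p ≠ p' → δ ≤ tau p p' := by
  classical
  set S := (P ×ˢ P).filter (fun q => q.1 ≠ q.2) with hS
  rcases S.eq_empty_or_nonempty with he | hne
  · refine ⟨1, one_pos, fun p hp p' hp' hne => ?_⟩
    have : (p, p') ∈ S := Finset.mem_filter.2 ⟨Finset.mk_mem_product hp hp', hne⟩
    rw [he] at this
    exact absurd this (Finset.notMem_empty _)
  · obtain ⟨q, hq, hmin⟩ := S.exists_min_image (fun q => tau q.1 q.2) hne
    have hq' := Finset.mem_filter.1 hq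
    have hq'' := Finset.mem_product.1 hq'.1
    refine ⟨tau q.1 q.2, hs _ hq''.1 _ hq''.2 hq'.2, fun p hp p' hp' hne' => ?_⟩
    exact hmin (p, p') (Finset.mem_filter.2 ⟨Finset.mk_mem_product hp hp', hne'⟩)

theorem EnA_ne {z : V} (hz : N z = 1) : z ≠ 0 := by
  rintro rfl
  simp [N] at hz

theorem EnA_ann {p x : V} {ρ : ℝ} (hρ : 0 < ρ) (h4 : ρ ≤ 1 / 4) (hx : x ∈ Ann p ρ) :
    x ≠ 0 ∧ ρ ^ 2 / 4 ≤ tau x p ∧ tau x p ≤ ρ ^ 2 ∧ tau x p < 1 := by
  obtain ⟨h0, h1, h2⟩ := hx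
  have t0 := tau_nonneg x p
  have t1 := tau_le_one x p
  have he : (0.36 : ℝ) < Real.exp (-1) := by
    have := Real.exp_neg_one_gt_d9
    linarith
  have hρ2 : 0 < ρ ^ 2 := by positivity
  have hρ3 : ρ ^ 2 ≤ 1 / 16 := by nlinarith
  have hlt : tau x p < 1 := by
    rcases lt_or_eq_of_le t1 with h | h
    · exact h
    · exfalso
      rw [h, sub_self, div_zero] at h1
      have : 0 < ρ ^ 2 * Real.exp (-1) := by positivity
      linarith
  have hpos : 0 < 1 - tau x p := by linarith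
  rw [le_div_iff₀ hpos] at h1
  rw [div_le_iff₀ hpos] at h2
  have h3 : tau x p ≤ ρ ^ 2 := by nlinarith
  refine ⟨h0, ?_, h3, hlt⟩
  have h5 : (15 / 16 : ℝ) ≤ 1 - tau x p := by linarith
  have h6 : ρ ^ 2 * 0.36 * (15 / 16) ≤ ρ ^ 2 * Real.exp (-1) * (1 - tau x p) := by gcongr
  linarith

theorem EnA_far {P : Finset V} (hP : ∀ p ∈ P, N p = 1) {δ ρ : ℝ} (hρ : 0 < ρ) (h4 : ρ ≤ 1 / 4)
    (hδρ : 4 * ρ ≤ Real.sqrt δ) (hδ : ∀ p ∈ P, ∀ p' ∈ P, p ≠ p' → δ ≤ tau p p') {p x z : V}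
    (hp : p ∈ P) (hx : x ∈ Ann p ρ) (hz : N z = 1) (hzK : z ∉ Kr P (ρ ^ 2 / 64)) :
    ρ ^ 2 / 8 ≤ tau x z := by
  obtain ⟨hx0, h1, h2, h3⟩ := EnA_ann hρ h4 hx
  have hz0 := EnA_ne hz
  have hp0 := EnA_ne (hP p hp)
  have hex : ∃ p' ∈ P, tau z p' < ρ ^ 2 / 64 := by
    by_contra hcon
    push Not at hcon
    exact hzK ⟨hz, hcon⟩
  obtain ⟨p', hp', h5⟩ := hex
  have hp'0 := EnA_ne (hP p' hp')
  have s1 : Real.sqrt (tau z p') ≤ ρ / 8 := by
    rw [Real.sqrt_le_left (by positivity)]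
    have : (ρ / 8) ^ 2 = ρ ^ 2 / 64 := by ring
    linarith
  have key : ρ * 3 / 8 ≤ Real.sqrt (tau x z) := by
    by_cases hpp : p' = p
    · subst hpp
      have s2 : ρ / 2 ≤ Real.sqrt (tau x p') := by
        apply Real.le_sqrt_of_sq_le
        have : (ρ / 2) ^ 2 = ρ ^ 2 / 4 := by ring
        linarith
      have s3 := tau_metric hx0 hz0 hp'0
      linarith
    · have s4 : Real.sqrt δ ≤ Real.sqrt (tau p p') :=
        Real.sqrt_le_sqrt (hδ p hp p' hp' (Ne.symm hpp))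
      have s5 : Real.sqrt (tau x p) ≤ ρ := by
        rw [Real.sqrt_le_left (by positivity)]
        exact h2
      have s6 := tau_metric hp0 hx0 hp'0
      have s7 := tau_metric hx0 hz0 hp'0
      rw [tau_symm p x] at s6
      linarith
  have hsq := Real.sq_sqrt (tau_nonneg x z)
  nlinarith [Real.sqrt_nonneg (tau x z)]

theorem EnA_mN : Measurable N := by
  have : Continuous N := by
    unfold N
    exact continuous_finsetSum _ (fun j _ => Complex.continuous_normSq.comp (continuous_apply j))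
  exact this.measurable

theorem EnA_mtl (x : V) : Measurable (fun y : V => tau x y) := by
  have h : Measurable (fun y : V => ((x, y) : V × V)) := measurable_prodMk_left
  have h2 := Measurable.comp (g := fun q : V × V => tau q.1 q.2) measurable_tau h
  exact h2

theorem EnA_mtr (p : V) : Measurable (fun y : V => tau y p) := by
  have h : Measurable (fun y : V => ((y, p) : V × V)) := measurable_prodMk_right
  have h2 := Measurable.comp (g := fun q : V × V => tau q.1 q.2) measurable_tau h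
  exact h2

theorem EnA_mkk (ε : ℝ) : Measurable (kk ε) := by
  have : Continuous (kk ε) := by
    unfold kk
    fun_prop
  exact this.measurable

theorem EnA_mK (P : Finset V) (r : ℝ) : MeasurableSet (Kr P r) := by
  have h : Kr P r = {y | N y = 1} ∩ ⋂ p ∈ P, {y | r ≤ tau y p} := by
    ext y
    simp [Kr]
  rw [h]
  refine (measurableSet_eq_fun EnA_mN measurable_const).inter ?_
  exact Finset.measurableSet_biInter P (fun p _ => measurableSet_le measurable_const (EnA_mtr p))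

theorem EnA_mA (p : V) (ρ : ℝ) : MeasurableSet (Ann p ρ) := by
  have h : Ann p ρ = {x : V | x ≠ 0} ∩ ({x | ρ ^ 2 * Real.exp (-1) ≤ tau x p / (1 - tau x p)} ∩
      {x | tau x p / (1 - tau x p) ≤ ρ ^ 2}) := by
    ext y
    simp [Ann]
  rw [h]
  have hm : Measurable (fun x => tau x p / (1 - tau x p)) :=
    (EnA_mtr p).div (measurable_const.sub (EnA_mtr p))
  refine MeasurableSet.inter ?_ ((measurableSet_le measurable_const hm).inter
    (measurableSet_le hm measurable_const))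
  exact (measurableSet_singleton (0 : V)).compl

theorem EnA_nz : ∀ᵐ y ∂nuP, y ≠ 0 := by
  have h : ∀ᵐ y ∂(volume : Measure V), y ≠ 0 := by
    rw [ae_iff]
    have : {a : V | ¬ a ≠ 0} = {0} := by
      ext a
      simp
    rw [this]
    exact measure_singleton 0
  exact nuP_ac.ae_le h

/-- the kernel -/
noncomputable def EnA_w (ε : ℝ) (x z : V) : ENNReal :=
  ENNReal.ofReal ((tau x z + ε ^ 2) ^ (-(3 / 2) : ℝ))

theorem EnA_mw (ε : ℝ) : Measurable (fun q : V × V => EnA_w ε q.1 q.2) := by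
  unfold EnA_w
  exact ((measurable_tau.add_const _).pow_const _).ennreal_ofReal

theorem EnA_mwx (ε : ℝ) (x : V) : Measurable (fun z : V => EnA_w ε x z) := by
  have h : Measurable (fun y : V => ((x, y) : V × V)) := measurable_prodMk_left
  have h2 := Measurable.comp (g := fun q : V × V => EnA_w ε q.1 q.2) (EnA_mw ε) h
  exact h2

theorem EnA_mwz (ε : ℝ) (z : V) : Measurable (fun x : V => EnA_w ε x z) := by
  have h : Measurable (fun y : V => ((y, z) : V × V)) := measurable_prodMk_right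
  have h2 := Measurable.comp (g := fun q : V × V => EnA_w ε q.1 q.2) (EnA_mw ε) h
  exact h2

theorem EnA_J {C1 : ℝ} (hC1 : 0 < C1) (hK1 : ∀ (ε : ℝ) (x z : V), 0 < ε → ε ≤ 1 → x ≠ 0 → z ≠ 0 →
    ∫⁻ y, ENNReal.ofReal ((tau x y) ^ (-(3 / 2) : ℝ) * kk ε (tau y z)) ∂nuP ≤
      ENNReal.ofReal (C1 * (tau x z + ε ^ 2) ^ (-(3 / 2) : ℝ))) {CA ε : ℝ} (hCA : 0 ≤ CA)
    (hε : 0 < ε) (h1 : ε ≤ 1) {m : Measure V} [IsFiniteMeasure m] (hm1 : ∀ᵐ y ∂m, N y = 1)
    {f : V → ℝ} (hf : ∀ y : V, y ≠ 0 → |f y| ≤ CA + 3 * ∫ z, kk ε (tau y z) ∂m) {x : V}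
    (hx : x ≠ 0) :
    ∫⁻ y, ENNReal.ofReal ((tau x y) ^ (-(3 / 2) : ℝ) * |f y|) ∂nuP ≤
      ENNReal.ofReal (CA * (2 * Real.pi ^ 3 * Real.sqrt 2)) +
        ENNReal.ofReal (3 * C1) * ∫⁻ z, EnA_w ε x z ∂m := by
  have hkk : ∀ y z, 0 ≤ kk ε (tau y z) := fun y z => kk_nonneg (tau_le_one y z)
  have ht : ∀ y, 0 ≤ (tau x y) ^ (-(3 / 2) : ℝ) := fun y => Real.rpow_nonneg (tau_nonneg x y) _
  have hmt : Measurable (fun y => ENNReal.ofReal ((tau x y) ^ (-(3 / 2) : ℝ))) :=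
    ((EnA_mtl x).pow_const _).ennreal_ofReal
  have e1 : ∫⁻ y, ENNReal.ofReal ((tau x y) ^ (-(3 / 2) : ℝ) * |f y|) ∂nuP ≤
      ∫⁻ y, (ENNReal.ofReal CA * ENNReal.ofReal ((tau x y) ^ (-(3 / 2) : ℝ)) +
        3 * ∫⁻ z, ENNReal.ofReal ((tau x y) ^ (-(3 / 2) : ℝ) * kk ε (tau y z)) ∂m) ∂nuP := by
    refine lintegral_mono_ae ?_
    filter_upwards [EnA_nz] with y hy
    have hI : 0 ≤ ∫ z, kk ε (tau y z) ∂m := integral_nonneg fun z => hkk y z
    calc ENNReal.ofReal ((tau x y) ^ (-(3 / 2) : ℝ) * |f y|)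
        ≤ ENNReal.ofReal ((tau x y) ^ (-(3 / 2) : ℝ) * (CA + 3 * ∫ z, kk ε (tau y z) ∂m)) :=
          ENNReal.ofReal_le_ofReal (mul_le_mul_of_nonneg_left (hf y hy) (ht y))
      _ = ENNReal.ofReal (CA * (tau x y) ^ (-(3 / 2) : ℝ)) +
            ENNReal.ofReal (3 * ((tau x y) ^ (-(3 / 2) : ℝ) * ∫ z, kk ε (tau y z) ∂m)) := by
          rw [← ENNReal.ofReal_add (mul_nonneg hCA (ht y))
            (mul_nonneg (by norm_num) (mul_nonneg (ht y) hI))]
          congr 1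
          ring
      _ ≤ _ := by
          refine add_le_add (le_of_eq (ENNReal.ofReal_mul hCA)) ?_
          rw [ENNReal.ofReal_mul (by norm_num : (0 : ℝ) ≤ 3), ENNReal.ofReal_mul (ht y)]
          have h3 : ENNReal.ofReal 3 = 3 := by norm_num
          rw [h3]
          refine mul_le_mul_right ?_ _
          calc ENNReal.ofReal ((tau x y) ^ (-(3 / 2) : ℝ)) *
                ENNReal.ofReal (∫ z, kk ε (tau y z) ∂m)
              ≤ ENNReal.ofReal ((tau x y) ^ (-(3 / 2) : ℝ)) *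
                ∫⁻ z, ENNReal.ofReal (kk ε (tau y z)) ∂m :=
                mul_le_mul_right (EnA_ofReal_int (fun z => hkk y z)) _
            _ ≤ ∫⁻ z, ENNReal.ofReal ((tau x y) ^ (-(3 / 2) : ℝ)) *
                ENNReal.ofReal (kk ε (tau y z)) ∂m := lintegral_const_mul_le _ _
            _ = _ := by
                refine lintegral_congr fun z => ?_
                rw [ENNReal.ofReal_mul (ht y)]
  refine e1.trans ?_
  rw [lintegral_add_left (hmt.const_mul _), lintegral_const_mul' _ _ ENNReal.ofReal_ne_top,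
    lintegral_const_mul' _ _ (by norm_num)]
  refine add_le_add ?_ ?_
  · rw [ENNReal.ofReal_mul hCA]
    refine mul_le_mul_right ?_ _
    have h2 := nu_sing hx (b := 2) (by norm_num)
    have h3 : {y | tau x y < 2} = Set.univ := by
      ext y
      simp only [Set.mem_ofPred_eq, Set.mem_univ, iff_true]
      have := tau_le_one x y
      linarith
    rw [h3, setLIntegral_univ] at h2
    exact h2
  · have hmeas : AEMeasurable (Function.uncurry fun y z =>
        ENNReal.ofReal ((tau x y) ^ (-(3 / 2) : ℝ) * kk ε (tau y z))) (nuP.prod m) := by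
      apply Measurable.aemeasurable
      apply Measurable.ennreal_ofReal
      apply Measurable.mul
      · exact ((EnA_mtl x).comp measurable_fst).pow_const _
      · exact (EnA_mkk ε).comp measurable_tau
    rw [lintegral_lintegral_swap hmeas]
    calc 3 * ∫⁻ z, ∫⁻ y, ENNReal.ofReal ((tau x y) ^ (-(3 / 2) : ℝ) * kk ε (tau y z)) ∂nuP ∂m
        ≤ 3 * ∫⁻ z, ENNReal.ofReal C1 * EnA_w ε x z ∂m := by
          refine mul_le_mul_right (lintegral_mono_ae ?_) _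
          filter_upwards [hm1] with z hz
          have h5 := hK1 ε x z hε h1 hx (EnA_ne hz)
          rw [ENNReal.ofReal_mul hC1.le] at h5
          exact h5
      _ = _ := by
          rw [lintegral_const_mul' _ _ ENNReal.ofReal_ne_top, ← mul_assoc,
            ENNReal.ofReal_mul (by norm_num : (0 : ℝ) ≤ 3)]
          norm_num

theorem EnA_split {P : Finset V} {ρ ε : ℝ} (hρ : 0 < ρ) {m : Measure V} (hm : m Set.univ ≤ 2)
    (hm1 : ∀ᵐ y ∂m, N y = 1) {x : V}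
    (hfar : ∀ z : V, N z = 1 → z ∉ Kr P (ρ ^ 2 / 64) → ρ ^ 2 / 8 ≤ tau x z) :
    ∫⁻ z, EnA_w ε x z ∂m ≤ ENNReal.ofReal (2 * (ρ ^ 2 / 8) ^ (-(3 / 2) : ℝ)) +
      ∫⁻ z in Kr P (ρ ^ 2 / 64), EnA_w ε x z ∂m := by
  have hK := EnA_mK P (ρ ^ 2 / 64)
  rw [← lintegral_add_compl (fun z => EnA_w ε x z) hK, add_comm]
  refine add_le_add ?_ le_rfl
  have h1 : ∀ᵐ z ∂(m.restrict (Kr P (ρ ^ 2 / 64))ᶜ),
      EnA_w ε x z ≤ ENNReal.ofReal ((ρ ^ 2 / 8) ^ (-(3 / 2) : ℝ)) := by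
    filter_upwards [ae_restrict_of_ae hm1, ae_restrict_mem hK.compl] with z hz hzK
    unfold EnA_w
    apply ENNReal.ofReal_le_ofReal
    apply Real.rpow_le_rpow_of_nonpos (by positivity)
    · have := hfar z hz hzK
      have := sq_nonneg ε
      linarith
    · norm_num
  refine (lintegral_mono_ae h1).trans ?_
  rw [lintegral_const, Measure.restrict_apply_univ, mul_comm (2 : ℝ),
    ENNReal.ofReal_mul (by positivity)]
  refine mul_le_mul_right ?_ _
  have h3 : ENNReal.ofReal 2 = 2 := by norm_num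
  rw [h3]
  exact (measure_mono (Set.subset_univ _)).trans hm

theorem EnA_W2 {C2 : ℝ} (hC2 : 0 < C2) (hK2 : ∀ (ε : ℝ) (z z' : V), 0 < ε → ε ≤ 1 → z ≠ 0 →
    z' ≠ 0 → ∫⁻ x, ENNReal.ofReal ((tau x z + ε ^ 2) ^ (-(3 / 2) : ℝ) *
        (tau x z' + ε ^ 2) ^ (-(3 / 2) : ℝ)) ∂nuP ≤
      ENNReal.ofReal (C2 * (tau z z' + ε ^ 2)⁻¹)) {ε : ℝ} (hε : 0 < ε) (h1 : ε ≤ 1)
    {m : Measure V} [IsFiniteMeasure m] (hm1 : ∀ᵐ y ∂m, N y = 1) :
    ∫⁻ x, (∫⁻ z, EnA_w ε x z ∂m) ^ 2 ∂nuP ≤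
      ENNReal.ofReal C2 * ∫⁻ z, ∫⁻ z', ENNReal.ofReal ((tau z z' + ε ^ 2)⁻¹) ∂m ∂m := by
  have e1 : ∀ x, (∫⁻ z, EnA_w ε x z ∂m) ^ 2 =
      ∫⁻ z, ∫⁻ z', EnA_w ε x z * EnA_w ε x z' ∂m ∂m := by
    intro x
    have h2 : ∀ z, ∫⁻ z', EnA_w ε x z * EnA_w ε x z' ∂m = EnA_w ε x z * ∫⁻ z', EnA_w ε x z' ∂m :=
      fun z => lintegral_const_mul _ (EnA_mwx ε x)
    simp only [h2]
    rw [lintegral_mul_const _ (EnA_mwx ε x), sq]
  simp only [e1]
  have hm3 : Measurable (fun q : (V × V) × V => EnA_w ε q.1.1 q.1.2 * EnA_w ε q.1.1 q.2) := by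
    have h6 : Measurable (fun q : (V × V) × V => q.1) := measurable_fst
    have h3 := Measurable.comp (g := fun q : V × V => EnA_w ε q.1 q.2) (EnA_mw ε) h6
    have h5 : Measurable (fun q : (V × V) × V => ((q.1.1, q.2) : V × V)) :=
      (measurable_fst.comp measurable_fst).prodMk measurable_snd
    have h4 := Measurable.comp (g := fun q : V × V => EnA_w ε q.1 q.2) (EnA_mw ε) h5
    exact h3.mul h4
  have hm2 : Measurable (fun q : V × V => ∫⁻ z', EnA_w ε q.1 q.2 * EnA_w ε q.1 z' ∂m) :=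
    hm3.lintegral_prod_right'
  rw [lintegral_lintegral_swap (f := fun x z => ∫⁻ z', EnA_w ε x z * EnA_w ε x z' ∂m)
    hm2.aemeasurable, ← lintegral_const_mul' _ _ ENNReal.ofReal_ne_top]
  refine lintegral_mono_ae ?_
  filter_upwards [hm1] with z hz
  have hm4 : Measurable (fun q : V × V => EnA_w ε q.1 z * EnA_w ε q.1 q.2) := by
    have h6 : Measurable (fun q : V × V => q.1) := measurable_fst
    have h3 := Measurable.comp (g := fun x : V => EnA_w ε x z) (EnA_mwz ε z) h6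
    exact h3.mul (EnA_mw ε)
  rw [lintegral_lintegral_swap (f := fun x z' => EnA_w ε x z * EnA_w ε x z') hm4.aemeasurable,
    ← lintegral_const_mul' _ _ ENNReal.ofReal_ne_top]
  refine lintegral_mono_ae ?_
  filter_upwards [hm1] with z' hz'
  have h5 := hK2 ε z z' hε h1 (EnA_ne hz) (EnA_ne hz')
  rw [ENNReal.ofReal_mul hC2.le] at h5
  refine le_trans (le_of_eq ?_) h5
  refine lintegral_congr fun x => ?_
  unfold EnA_w
  rw [ENNReal.ofReal_mul]
  have := tau_nonneg x z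
  positivity

theorem EnA_bd {ε : ℝ} (hε : 0 < ε) (y z : V) : 0 ≤ (tau y z + ε ^ 2)⁻¹ ∧
    (tau y z + ε ^ 2)⁻¹ ≤ (ε ^ 2)⁻¹ := by
  have h := tau_nonneg y z
  have h2 : 0 < ε ^ 2 := by positivity
  constructor
  · positivity
  · exact inv_anti₀ h2 (by linarith)

theorem EnA_toEn {ε : ℝ} (hε : 0 < ε) {m : Measure V} [IsFiniteMeasure m] :
    ∫⁻ z, ∫⁻ z', ENNReal.ofReal ((tau z z' + ε ^ 2)⁻¹) ∂m ∂m =
      ENNReal.ofReal (∫ z, ∫ z', (tau z z' + ε ^ 2)⁻¹ ∂m ∂m) := by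
  have hmm : Measurable (fun q : V × V => (tau q.1 q.2 + ε ^ 2)⁻¹) :=
    (measurable_tau.add_const _).inv
  have hint : ∀ z, Integrable (fun z' => (tau z z' + ε ^ 2)⁻¹) m := by
    intro z
    have hmp : Measurable (fun y : V => ((z, y) : V × V)) := measurable_prodMk_left
    refine Integrable.of_bound (hmm.comp hmp).aestronglyMeasurable
      (ε ^ 2)⁻¹ (Filter.Eventually.of_forall fun z' => ?_)
    show ‖(tau z z' + ε ^ 2)⁻¹‖ ≤ _
    rw [Real.norm_of_nonneg (EnA_bd hε z z').1]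
    exact (EnA_bd hε z z').2
  have hint2 : Integrable (fun z => ∫ z', (tau z z' + ε ^ 2)⁻¹ ∂m) m := by
    have hsm : StronglyMeasurable (fun z => ∫ z', (tau z z' + ε ^ 2)⁻¹ ∂m) :=
      hmm.stronglyMeasurable.integral_prod_right'
    refine Integrable.of_bound hsm.aestronglyMeasurable ((ε ^ 2)⁻¹ * m.real Set.univ)
      (Filter.Eventually.of_forall fun z => ?_)
    refine (norm_integral_le_of_norm_le_const (C := (ε ^ 2)⁻¹) (Filter.Eventually.of_forall fun z' => ?_))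
    show ‖(tau z z' + ε ^ 2)⁻¹‖ ≤ _
    rw [Real.norm_of_nonneg (EnA_bd hε z z').1]
    exact (EnA_bd hε z z').2
  rw [ofReal_integral_eq_lintegral_ofReal hint2 (Filter.Eventually.of_forall fun z =>
    integral_nonneg fun z' => (EnA_bd hε z z').1)]
  refine lintegral_congr fun z => ?_
  rw [ofReal_integral_eq_lintegral_ofReal (hint z) (Filter.Eventually.of_forall fun z' =>
    (EnA_bd hε z z').1)]

theorem EnA_sq (a b : ENNReal) : (a + b) ^ 2 ≤ 4 * (a ^ 2 + b ^ 2) := by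
  rcases le_total a b with h | h
  · calc (a + b) ^ 2 ≤ (b + b) ^ 2 := by gcongr
      _ = 4 * b ^ 2 := by ring
      _ ≤ 4 * (a ^ 2 + b ^ 2) := by gcongr; exact le_add_self
  · calc (a + b) ^ 2 ≤ (a + a) ^ 2 := by gcongr
      _ = 4 * a ^ 2 := by ring
      _ ≤ 4 * (a ^ 2 + b ^ 2) := by gcongr; exact le_self_add

theorem EnA_gr_nonneg (u : V → ℂ) (x : V) : 0 ≤ gr u x :=
  Finset.sum_nonneg fun _ _ => Complex.normSq_nonneg _

theorem energy {P : Finset V} (hP : ∀ p ∈ P, N p = 1)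
    (hs : ∀ p ∈ P, ∀ p' ∈ P, p ≠ p' → 0 < tau p p') :
    ∃ ρ0 : ℝ, 0 < ρ0 ∧ ∀ ρ : ℝ, 0 < ρ → ρ ≤ ρ0 → ∃ r : ℝ, 0 < r ∧ ∀ CA : ℝ, 0 ≤ CA →
      ∃ C : ℝ, 0 < C ∧ ∀ (p : V), p ∈ P → ∀ (ε : ℝ), 0 < ε → ε ≤ 1 → ∀ (m : Measure V), m Set.univ ≤ 2 →
        (∀ᵐ y ∂m, N y = 1) → ∀ (f : V → ℝ) (n : ℕ), AEStronglyMeasurable f (volume : Measure V) →
        (∃ b : ℝ, ∀ y : V, y ≠ 0 → |f y| ≤ b) →
        (∀ y : V, y ≠ 0 → |f y| ≤ CA + 3 * ∫ z, kk ε (tau y z) ∂m) →
        ∫ x in Ann p ρ, gr (tt p) x * gr (green n f) x * wt x ≤ C * (1 + En m P r ε) := by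
  obtain ⟨C1, hC1, hK1⟩ := K1
  obtain ⟨C2, hC2, hK2⟩ := KK2
  obtain ⟨δ, hδ, hδm⟩ := EnA_delta P hs
  refine ⟨min (1 / 4) (Real.sqrt δ / 4), by positivity, ?_⟩
  intro ρ hρ hρ0
  have h4 : ρ ≤ 1 / 4 := hρ0.trans (min_le_left _ _)
  have hδρ : 4 * ρ ≤ Real.sqrt δ := by
    have := hρ0.trans (min_le_right _ _)
    linarith
  refine ⟨ρ ^ 2 / 64, by positivity, ?_⟩
  intro CA hCA
  set Kc : ℝ := 32 * ((Real.pi ^ 3)⁻¹) ^ 2 / ρ ^ 2 with hKc
  have hKc0 : 0 < Kc := by positivity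
  set b0 : ℝ := CA * (2 * Real.pi ^ 3 * Real.sqrt 2) +
    3 * C1 * (2 * (ρ ^ 2 / 8) ^ (-(3 / 2) : ℝ)) with hb0
  have hb00 : 0 ≤ b0 := by positivity
  refine ⟨Kc * (4 * (b0 ^ 2 * (Real.pi ^ 3 / 2) + (3 * C1) ^ 2 * C2)), by positivity, ?_⟩
  intro p hp ε hε h1 m hm hm1 f n hfm hfb hf
  obtain ⟨b, hb⟩ := hfb
  have hmf : IsFiniteMeasure m := ⟨lt_of_le_of_lt hm (by norm_num)⟩
  have hp1 := hP p hp
  set K := Kr P (ρ ^ 2 / 64) with hK
  have hEn0 : 0 ≤ En m P (ρ ^ 2 / 64) ε :=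
    integral_nonneg fun z => integral_nonneg fun z' => (EnA_bd hε z z').1
  have hAm := EnA_mA p ρ
  -- pointwise bound
  have hpt : ∀ x ∈ Ann p ρ, ENNReal.ofReal ‖gr (tt p) x * gr (green n f) x * wt x‖ ≤
      ENNReal.ofReal (wt x / (N x) ^ 2) * (ENNReal.ofReal Kc * (4 * (ENNReal.ofReal b0 ^ 2 +
        (ENNReal.ofReal (3 * C1) * ∫⁻ z in K, EnA_w ε x z ∂m) ^ 2))) := by
    intro x hx
    obtain ⟨hx0, t1, t2, t3⟩ := EnA_ann hρ h4 hx
    have hN := N_pos hx0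
    have hwt : 0 < wt x := Real.exp_pos _
    have hρ2 : 0 < ρ ^ 2 := by positivity
    have hρ3 : ρ ^ 2 ≤ 1 / 16 := by nlinarith
    have t0 : 0 < tau x p := by linarith
    set I : ℝ := ∫ y, (tau x y) ^ (-(3 / 2) : ℝ) * |f y| ∂nuP with hI
    have hI0 : 0 ≤ I := integral_nonneg fun y =>
      mul_nonneg (Real.rpow_nonneg (tau_nonneg x y) _) (abs_nonneg _)
    have g1 : gr (tt p) x ≤ 8 / (ρ ^ 2 * N x) := by
      rw [gr_tt hp1 hx0 t0 t3]
      rw [div_le_div_iff₀ (mul_pos hN (mul_pos t0 (by linarith))) (by positivity)]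
      have k1 : ρ ^ 2 / 4 * (15 / 16) ≤ tau x p * (1 - tau x p) := by
        apply mul_le_mul t1 (by linarith) (by norm_num) t0.le
      nlinarith
    have g2 := gr_green n hfm hb hx0
    have g3 : ‖gr (tt p) x * gr (green n f) x * wt x‖ ≤ wt x / (N x) ^ 2 * (Kc * I ^ 2) := by
      rw [Real.norm_of_nonneg (mul_nonneg (mul_nonneg (EnA_gr_nonneg _ _) (EnA_gr_nonneg _ _))
        hwt.le)]
      calc gr (tt p) x * gr (green n f) x * wt x
          ≤ 8 / (ρ ^ 2 * N x) * (4 * ((Real.pi ^ 3)⁻¹) ^ 2 * (N x)⁻¹ * I ^ 2) * wt x := by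
            refine mul_le_mul_of_nonneg_right ?_ hwt.le
            exact mul_le_mul g1 g2 (EnA_gr_nonneg _ _) (by positivity)
        _ = _ := by
            rw [hKc]
            field_simp
            ring
    have g4 : ENNReal.ofReal I ≤ ENNReal.ofReal b0 +
        ENNReal.ofReal (3 * C1) * ∫⁻ z in K, EnA_w ε x z ∂m := by
      calc ENNReal.ofReal I
          ≤ ∫⁻ y, ENNReal.ofReal ((tau x y) ^ (-(3 / 2) : ℝ) * |f y|) ∂nuP :=
            EnA_ofReal_int fun y => mul_nonneg (Real.rpow_nonneg (tau_nonneg x y) _) (abs_nonneg _)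
        _ ≤ ENNReal.ofReal (CA * (2 * Real.pi ^ 3 * Real.sqrt 2)) +
            ENNReal.ofReal (3 * C1) * ∫⁻ z, EnA_w ε x z ∂m := EnA_J hC1 hK1 hCA hε h1 hm1 hf hx0
        _ ≤ ENNReal.ofReal (CA * (2 * Real.pi ^ 3 * Real.sqrt 2)) +
            ENNReal.ofReal (3 * C1) * (ENNReal.ofReal (2 * (ρ ^ 2 / 8) ^ (-(3 / 2) : ℝ)) +
              ∫⁻ z in K, EnA_w ε x z ∂m) := by
            gcongr
            exact EnA_split hρ hm hm1 (fun z hz hzK => EnA_far hP hρ h4 hδρ hδm hp hx hz hzK)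
        _ = _ := by
            rw [mul_add, ← add_assoc, ← ENNReal.ofReal_mul (by positivity),
              ← ENNReal.ofReal_add (by positivity) (by positivity)]
    calc ENNReal.ofReal ‖gr (tt p) x * gr (green n f) x * wt x‖
        ≤ ENNReal.ofReal (wt x / (N x) ^ 2 * (Kc * I ^ 2)) := ENNReal.ofReal_le_ofReal g3
      _ = ENNReal.ofReal (wt x / (N x) ^ 2) * (ENNReal.ofReal Kc * ENNReal.ofReal I ^ 2) := by
          rw [ENNReal.ofReal_mul (by positivity), ENNReal.ofReal_mul hKc0.le,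
            ENNReal.ofReal_pow hI0]
      _ ≤ _ := by
          gcongr
          exact (pow_le_pow_left' g4 2).trans (EnA_sq _ _)
  -- integration
  have hW : ∫⁻ x, (∫⁻ z in K, EnA_w ε x z ∂m) ^ 2 ∂nuP ≤
      ENNReal.ofReal C2 * ENNReal.ofReal (En m P (ρ ^ 2 / 64) ε) := by
    have h5 := EnA_W2 hC2 hK2 hε h1 (m := m.restrict K) (ae_restrict_of_ae hm1)
    rw [EnA_toEn hε] at h5
    exact h5
  have hmW : Measurable (fun x => ∫⁻ z in K, EnA_w ε x z ∂m) :=
    (EnA_mw ε).lintegral_prod_right'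
  have hdm : Measurable (fun y => ENNReal.ofReal (wt y / (N y) ^ 2)) := by
    have hwm : Measurable wt := by
      unfold wt
      exact Real.measurable_exp.comp EnA_mN.neg
    exact (hwm.div (EnA_mN.pow_const 2)).ennreal_ofReal
  have htot : ∫⁻ x in Ann p ρ, ENNReal.ofReal ‖gr (tt p) x * gr (green n f) x * wt x‖ ≤
      ENNReal.ofReal (Kc * (4 * (b0 ^ 2 * (Real.pi ^ 3 / 2) +
        (3 * C1) ^ 2 * (C2 * En m P (ρ ^ 2 / 64) ε)))) := by
    calc ∫⁻ x in Ann p ρ, ENNReal.ofReal ‖gr (tt p) x * gr (green n f) x * wt x‖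
        ≤ ∫⁻ x in Ann p ρ, ENNReal.ofReal (wt x / (N x) ^ 2) * (ENNReal.ofReal Kc *
            (4 * (ENNReal.ofReal b0 ^ 2 +
              (ENNReal.ofReal (3 * C1) * ∫⁻ z in K, EnA_w ε x z ∂m) ^ 2))) :=
          setLIntegral_mono' hAm hpt
      _ ≤ ∫⁻ x, ENNReal.ofReal (wt x / (N x) ^ 2) * (ENNReal.ofReal Kc *
            (4 * (ENNReal.ofReal b0 ^ 2 +
              (ENNReal.ofReal (3 * C1) * ∫⁻ z in K, EnA_w ε x z ∂m) ^ 2))) :=
          setLIntegral_le_lintegral _ _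
      _ = ∫⁻ x, ENNReal.ofReal Kc * (4 * (ENNReal.ofReal b0 ^ 2 +
              (ENNReal.ofReal (3 * C1) * ∫⁻ z in K, EnA_w ε x z ∂m) ^ 2)) ∂nuP := by
          unfold nuP
          rw [lintegral_withDensity_eq_lintegral_mul_non_measurable _ hdm
            (Filter.Eventually.of_forall fun x => ENNReal.ofReal_lt_top)]
          rfl
      _ = ENNReal.ofReal Kc * (4 * (ENNReal.ofReal b0 ^ 2 * nuP Set.univ +
            ENNReal.ofReal (3 * C1) ^ 2 * ∫⁻ x, (∫⁻ z in K, EnA_w ε x z ∂m) ^ 2 ∂nuP)) := by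
          rw [lintegral_const_mul' _ _ ENNReal.ofReal_ne_top, lintegral_const_mul' _ _ (by norm_num),
            lintegral_add_left measurable_const, lintegral_const]
          simp only [mul_pow]
          rw [lintegral_const_mul' _ _ (ENNReal.pow_ne_top ENNReal.ofReal_ne_top)]
      _ ≤ ENNReal.ofReal Kc * (4 * (ENNReal.ofReal b0 ^ 2 * ENNReal.ofReal (Real.pi ^ 3 / 2) +
            ENNReal.ofReal (3 * C1) ^ 2 *
              (ENNReal.ofReal C2 * ENNReal.ofReal (En m P (ρ ^ 2 / 64) ε)))) := by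
          gcongr
          exact nuP_univ.le
      _ = _ := by
          have h3 : (4 : ENNReal) = ENNReal.ofReal 4 := by norm_num
          rw [h3, ← ENNReal.ofReal_pow hb00, ← ENNReal.ofReal_pow (by positivity),
            ← ENNReal.ofReal_mul (by positivity), ← ENNReal.ofReal_mul (by positivity),
            ← ENNReal.ofReal_mul (by positivity), ← ENNReal.ofReal_add (by positivity)
              (by positivity), ← ENNReal.ofReal_mul (by positivity),
            ← ENNReal.ofReal_mul (by positivity)]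
  have hfin := norm_integral_le_lintegral_norm (μ := (volume : Measure V).restrict (Ann p ρ))
    (fun x => gr (tt p) x * gr (green n f) x * wt x)
  have hfin2 := ENNReal.toReal_le_of_le_ofReal (by positivity) htot
  have hfin3 := (le_abs_self _).trans (hfin.trans hfin2)
  refine hfin3.trans ?_
  have e1 : 0 ≤ Kc * (4 * (b0 ^ 2 * (Real.pi ^ 3 / 2))) * En m P (ρ ^ 2 / 64) ε := by positivity
  have e2 : 0 ≤ Kc * (4 * ((3 * C1) ^ 2 * C2)) := by positivity
  nlinarith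

end Pool.Agent.H85.DC

end S_H85_DC_EnA

section S_H85_DC_Sng

/-!
# Row Sng: normalising the finite singular set

From `hsing`: finitely many vectors `P0` such that every zero `y` of `eta F` is a multiple of one of them. Keep the `q ∈ P0` with `q ≠ 0` and `eta F q = 0`, normalise `q ↦ (√(N q))⁻¹ • q`
(still a zero: `eta_hom`), and choose one representative of each class of proportional vectors (e.g. induction on the finset: insert `q` only if `tau q p > 0` for all `p` already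
present; `tau_eq_zero`: if `tau q p = 0` then `q` is a multiple of `p`). Then: unit; `tau p p' > 0` for different ones; a nonzero zero `y` of `eta F`: `y = c • q`, `q ∈ P0`, `c ≠ 0`, `q ≠ 0`, and
`eta F q = 0` by `eta_hom` with `l = c⁻¹`; `q` is a multiple of a chosen `p`. Conversely if `y = c • p ≠ 0` then `eta F y = c^(d+1) • eta F p = 0`.
-/

open MeasureTheory
open scoped ContDiff BigOperators ComplexConjugate Matrix

namespace Pool.Agent.H85.DC

theorem Sng_N_one_ne {x : V} (h : N x = 1) : x ≠ 0 := by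
  rintro rfl
  have h0 : N (0 : V) = 0 := by simp [N]
  rw [h0] at h
  exact zero_ne_one h

/-- Choose one representative of each class of proportional unit vectors. -/
theorem Sng_pick (T : Finset V) : (∀ q ∈ T, N q = 1) → ∃ P : Finset V, P ⊆ T ∧
    (∀ p ∈ P, ∀ p' ∈ P, p ≠ p' → 0 < tau p p') ∧ ∀ q ∈ T, ∃ p ∈ P, ∃ c : ℂ, q = c • p := by
  classical
  induction T using Finset.induction_on with
  | empty =>
    intro _
    exact ⟨∅, Finset.Subset.refl _, by simp, by simp⟩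
  | insert a T haT ih =>
    intro hT
    obtain ⟨P, hPT, hsep, hcov⟩ := ih fun q hq => hT q (Finset.mem_insert_of_mem hq)
    have ha : N a = 1 := hT a (Finset.mem_insert_self a T)
    by_cases h : ∃ p ∈ P, tau a p = 0
    · obtain ⟨p, hp, hap⟩ := h
      refine ⟨P, hPT.trans (Finset.subset_insert a T), hsep, fun q hq => ?_⟩
      rcases Finset.mem_insert.1 hq with rfl | hq
      · have hp1 : N p = 1 := hT p (Finset.mem_insert_of_mem (hPT hp))
        obtain ⟨c, hc⟩ := tau_eq_zero (Sng_N_one_ne ha) (Sng_N_one_ne hp1) hap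
        exact ⟨p, hp, c, hc⟩
      · exact hcov q hq
    · push Not at h
      have hpos : ∀ p ∈ P, 0 < tau a p := fun p hp => lt_of_le_of_ne (tau_nonneg a p) (h p hp).symm
      refine ⟨insert a P, Finset.insert_subset_insert a hPT, ?_, ?_⟩
      · intro p hp p' hp' hne
        rcases Finset.mem_insert.1 hp with h1 | h1
        · rcases Finset.mem_insert.1 hp' with h2 | h2
          · exact absurd (h1.trans h2.symm) hne
          · rw [h1]
            exact hpos p' h2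
        · rcases Finset.mem_insert.1 hp' with h2 | h2
          · rw [h2, tau_symm]
            exact hpos p h1
          · exact hsep p h1 p' h2 hne
      · intro q hq
        rcases Finset.mem_insert.1 hq with rfl | hq
        · exact ⟨q, Finset.mem_insert_self q P, 1, (one_smul ℂ q).symm⟩
        · obtain ⟨p, hp, c, hc⟩ := hcov q hq
          exact ⟨p, Finset.mem_insert_of_mem hp, c, hc⟩

theorem exists_singPts {F : Fin 3 → MvPolynomial (Fin 3) ℂ} {d : ℕ}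
    (hF : ∀ j, (F j).IsHomogeneous d)
    (hsing : ∃ P : Finset V, ∀ y : V, eta F y = 0 → ∃ p ∈ P, ∃ c : ℂ, y = c • p) :
    ∃ P : Finset V, SingPts F P := by
  classical
  obtain ⟨P0, hP0⟩ := hsing
  set S : Finset V := P0.filter fun q => q ≠ 0 ∧ eta F q = 0 with hS
  set nrm : V → V := fun q => ((Real.sqrt (N q) : ℂ)⁻¹) • q with hnrm
  have hpos : ∀ q : V, q ≠ 0 → 0 < N q := fun q hq => TauM_N_pos hq
  have hs0 : ∀ q : V, q ≠ 0 → ((Real.sqrt (N q) : ℝ) : ℂ) ≠ 0 := by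
    intro q hq
    exact_mod_cast (Real.sqrt_pos.2 (hpos q hq)).ne'
  have hunit : ∀ q : V, q ≠ 0 → N (nrm q) = 1 := by
    intro q hq
    rw [hnrm]
    simp only
    rw [TauM_N_smul, map_inv₀, Complex.normSq_ofReal, Real.mul_self_sqrt (hpos q hq).le]
    exact inv_mul_cancel₀ (hpos q hq).ne'
  have hT : ∀ q ∈ S.image nrm, N q = 1 := by
    intro q hq
    obtain ⟨r, hr, rfl⟩ := Finset.mem_image.1 hq
    exact hunit r (Finset.mem_filter.1 hr).2.1
  obtain ⟨P, hPT, hsep, hcov⟩ := Sng_pick (S.image nrm) hT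
  have heta : ∀ p ∈ P, eta F p = 0 := by
    intro p hp
    obtain ⟨r, hr, rfl⟩ := Finset.mem_image.1 (hPT hp)
    rw [hnrm]
    simp only
    rw [eta_hom hF, (Finset.mem_filter.1 hr).2.2, smul_zero]
  refine ⟨P, fun p hp => hT p (hPT hp), hsep, fun y hy => ⟨fun h => ?_, ?_⟩⟩
  · obtain ⟨q, hq, c, rfl⟩ := hP0 y h
    have hc : c ≠ 0 := by
      rintro rfl
      exact hy (zero_smul ℂ q)
    have hq0 : q ≠ 0 := by
      rintro rfl
      exact hy (smul_zero c)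
    have hq1 : eta F q = 0 := by
      have h1 := eta_hom hF c q
      rw [h] at h1
      exact (smul_eq_zero.1 h1.symm).resolve_left (pow_ne_zero _ hc)
    have hqS : nrm q ∈ S.image nrm :=
      Finset.mem_image_of_mem nrm (Finset.mem_filter.2 ⟨hq, hq0, hq1⟩)
    obtain ⟨p, hp, b, hb⟩ := hcov _ hqS
    refine ⟨p, hp, c * ((Real.sqrt (N q) : ℂ) * b), ?_⟩
    have h2 : q = (Real.sqrt (N q) : ℂ) • nrm q := by
      rw [hnrm]
      simp only
      rw [smul_smul, mul_inv_cancel₀ (hs0 q hq0), one_smul]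
    rw [mul_smul, mul_smul, ← hb, ← h2]
  · rintro ⟨p, hp, c, rfl⟩
    rw [eta_hom hF, heta p hp, smul_zero]

end Pool.Agent.H85.DC

end S_H85_DC_Sng
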