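import Mathlib
import Pool.Agent.H24.M68.G03
import Pool.Agent.H24.M68.G04
import Pool.Agent.H24.M68.G06
import Pool.Agent.H24.M68.G07

/-! MP_6873ef_an: this file joins several modules to save build time. -/

section S_H24_CU_FRM

/-!
# Row FRM (unitary frames of `C^3`)

PROOFS.  `exists_frame`: `b` = a unit vector with `herm p b = 0`: if `(p 0, p 1) ≠ 0` normalise
`(-conj (p 1), conj (p 0), 0)`, otherwise `b = (1, 0, 0)`; `c = conj (p × b)` (componentwise):
`herm p c = ∑ p_j (p × b)_j = 0`, `herm b c = 0`, `nsq c = nsq (p × b) = nsq p nsq b - |herm|^2 = 1` (`nsq_cross`).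
`expand`: an orthonormal system of three vectors is a basis: the matrix `U` with rows `p, b, c` satisfies
`U U^* = 1`, hence `U^* U = 1` (`Matrix.mul_eq_one_comm`), i.e. `resolution`:
`p_i conj p_j + b_i conj b_j + c_i conj c_j = δ_ij`; multiply by `x_j` and sum: `expand`.
`herm_chi`: linearity of `herm` in the first variable.  `nsq_chi`: `nsq (∑ a_i e_i) = ∑ |a_i|^2`.
`nsq_cross_chi`: `nsq (u × v) = nsq u nsq v - normSq (herm u v)` (`nsq_cross`) with `u = chi q`, `v = A b + B c`: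
`(1 + |q|^2)(|A|^2 + |B|^2) - |q_1 conj A + q_2 conj B|^2 = |A|^2 + |B|^2 + |q_1 B - q_2 A|^2` (Lagrange).
`tau_chi`: `herm p (chi q) = 1`.  `scone_iff`: `y = t • chi q` has `herm y p = t`, `herm y b = t q_1`, `herm y c = t q_2`;
conversely `y = herm y p • chi (..)` by `expand`.
-/

namespace Pool.Agent.H24.CU

open scoped ComplexConjugate

theorem FRM_conj (x y : V) : herm y x = conj (herm x y) := by
  unfold herm
  rw [map_sum]
  refine Finset.sum_congr rfl fun i _ => ?_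
  rw [map_mul, Complex.conj_conj, mul_comm]

theorem FRM_self (x : V) : herm x x = (nsq x : ℂ) := by
  unfold herm nsq
  push_cast
  exact Finset.sum_congr rfl fun i _ => by rw [Complex.mul_conj]

theorem FRM_add (x y z : V) : herm (x + y) z = herm x z + herm y z := by
  unfold herm
  rw [← Finset.sum_add_distrib]
  exact Finset.sum_congr rfl fun i _ => by rw [Pi.add_apply, add_mul]

theorem FRM_smul (t : ℂ) (x z : V) : herm (t • x) z = t * herm x z := by
  unfold herm
  rw [Finset.mul_sum]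
  exact Finset.sum_congr rfl fun i _ => by rw [Pi.smul_apply, smul_eq_mul, mul_assoc]

theorem FRM_smul_right (t : ℂ) (x z : V) : herm x (t • z) = conj t * herm x z := by
  rw [FRM_conj (t • z) x, FRM_smul, map_mul, ← FRM_conj]

theorem FRM_zero {x y : V} (h : herm x y = 0) : herm y x = 0 := by
  rw [FRM_conj x y, h, map_zero]

theorem exists_frame (p : V) (hp : nsq p = 1) : ∃ b c : V, Frame p b c := by
  obtain ⟨b, hb1, hb2⟩ : ∃ b : V, nsq b = 1 ∧ herm p b = 0 := by
    by_cases h : p 0 = 0 ∧ p 1 = 0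
    · refine ⟨![1, 0, 0], ?_, ?_⟩
      · simp [nsq, Fin.sum_univ_three]
      · simp [herm, Fin.sum_univ_three, h.1]
    · obtain ⟨S, hS⟩ : ∃ S : ℝ, S = Complex.normSq (p 0) + Complex.normSq (p 1) := ⟨_, rfl⟩
      have hS0 : 0 < S := by
        rw [hS]
        have h0 := Complex.normSq_nonneg (p 0)
        have h1 := Complex.normSq_nonneg (p 1)
        rcases not_and_or.1 h with h2 | h2
        · have := Complex.normSq_pos.2 h2
          linarith
        · have := Complex.normSq_pos.2 h2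
          linarith
      have hs0 : 0 < Real.sqrt S := Real.sqrt_pos.2 hS0
      refine ⟨(((Real.sqrt S)⁻¹ : ℝ) : ℂ) • ![-conj (p 1), conj (p 0), 0], ?_, ?_⟩
      · rw [nsq_smul, Complex.normSq_ofReal]
        have : nsq ![-conj (p 1), conj (p 0), 0] = S := by
          simp only [nsq, Fin.sum_univ_three, Matrix.cons_val_zero, Matrix.cons_val_one, Matrix.cons_val,
            Complex.normSq_neg, Complex.normSq_conj, map_zero]
          rw [hS]
          ring
        rw [this]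
        have h3 : Real.sqrt S * Real.sqrt S = S := Real.mul_self_sqrt hS0.le
        rw [← mul_inv, h3, inv_mul_cancel₀ hS0.ne']
      · rw [FRM_smul_right]
        have : herm p ![-conj (p 1), conj (p 0), 0] = 0 := by
          simp only [herm, Fin.sum_univ_three, Matrix.cons_val_zero, Matrix.cons_val_one, Matrix.cons_val,
            map_neg, Complex.conj_conj, map_zero]
          ring
        rw [this, mul_zero]
  have e1 : ∑ j, p j * crossProduct p b j = 0 := by
    rw [cross_apply, Fin.sum_univ_three]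
    simp only [Matrix.cons_val_zero, Matrix.cons_val_one, Matrix.cons_val]
    ring
  have e2 : ∑ j, b j * crossProduct p b j = 0 := by
    rw [cross_apply, Fin.sum_univ_three]
    simp only [Matrix.cons_val_zero, Matrix.cons_val_one, Matrix.cons_val]
    ring
  refine ⟨b, fun j => conj (crossProduct p b j), hp, hb1, ?_, hb2, ?_, ?_⟩
  · have h1 : nsq (fun j => conj (crossProduct p b j)) = nsq (crossProduct p b) := by
      unfold nsq
      exact Finset.sum_congr rfl fun j _ => Complex.normSq_conj _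
    rw [h1, nsq_cross, hp, hb1, FRM_zero hb2, map_zero]
    norm_num
  · rw [← e1]
    unfold herm
    exact Finset.sum_congr rfl fun j _ => by rw [Complex.conj_conj]
  · rw [← e2]
    unfold herm
    exact Finset.sum_congr rfl fun j _ => by rw [Complex.conj_conj]

variable {p b c : V}

theorem Frame.resolution (h : Frame p b c) (i j : Fin 3) :
    p i * conj (p j) + b i * conj (b j) + c i * conj (c j) = if i = j then 1 else 0 := by
  obtain ⟨U, hU⟩ : ∃ U : Matrix (Fin 3) (Fin 3) ℂ, U = Matrix.of ![p, b, c] := ⟨_, rfl⟩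
  have hUr : ∀ r k, U r k = (![p, b, c] : Fin 3 → V) r k := fun r k => by rw [hU]; rfl
  have h1 : U * U.conjTranspose = 1 := by
    ext r q
    rw [Matrix.mul_apply]
    have e1 : ∑ k, U r k * U.conjTranspose k q =
        herm ((![p, b, c] : Fin 3 → V) r) ((![p, b, c] : Fin 3 → V) q) := by
      unfold herm
      refine Finset.sum_congr rfl fun k _ => ?_
      rw [Matrix.conjTranspose_apply, hUr, hUr]
      rfl
    rw [e1]
    have pp := FRM_self p
    have bb := FRM_self b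
    have cc := FRM_self c
    rw [h.pp] at pp
    rw [h.bb] at bb
    rw [h.cc] at cc
    have bp := FRM_zero h.pb
    have cp := FRM_zero h.pc
    have cb := FRM_zero h.bc
    have pb := h.pb
    have pc := h.pc
    have bc := h.bc
    fin_cases r <;> fin_cases q <;>
      simp [pp, bb, cc, pb, pc, bc, bp, cp, cb]
  have h2 : U.conjTranspose * U = 1 := mul_eq_one_comm.1 h1
  have h3 := congrFun (congrFun h2 j) i
  rw [Matrix.mul_apply, Fin.sum_univ_three] at h3
  simp only [Matrix.conjTranspose_apply, hUr, Matrix.cons_val_zero, Matrix.cons_val_one, Matrix.cons_val,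
    Matrix.one_apply] at h3
  have h4 : (if i = j then (1 : ℂ) else 0) = if j = i then 1 else 0 := by
    simp only [eq_comm]
  rw [h4, ← h3]
  simp only [RCLike.star_def]
  ring

theorem Frame.expand (h : Frame p b c) (x : V) :
    x = herm x p • p + herm x b • b + herm x c • c := by
  funext i
  simp only [Pi.add_apply, Pi.smul_apply, smul_eq_mul]
  have h1 : x i = ∑ j, x j * (if i = j then 1 else 0) := by
    simp
  have h2 : ∀ j, x j * (if i = j then (1 : ℂ) else 0) =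
      x j * conj (p j) * p i + x j * conj (b j) * b i + x j * conj (c j) * c i := by
    intro j
    rw [← h.resolution i j]
    ring
  rw [h1, Finset.sum_congr rfl (fun j _ => h2 j), Finset.sum_add_distrib, Finset.sum_add_distrib]
  unfold herm
  rw [← Finset.sum_mul, ← Finset.sum_mul, ← Finset.sum_mul]

theorem Frame.herm_chi (h : Frame p b c) (q : ℂ × ℂ) :
    herm (chi p b c q) p = 1 ∧ herm (chi p b c q) b = q.1 ∧ herm (chi p b c q) c = q.2 := by
  have pp := FRM_self p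
  have bb := FRM_self b
  have cc := FRM_self c
  rw [h.pp] at pp
  rw [h.bb] at bb
  rw [h.cc] at cc
  have bp := FRM_zero h.pb
  have cp := FRM_zero h.pc
  have cb := FRM_zero h.bc
  unfold chi
  simp only [FRM_add, FRM_smul, pp, bb, cc, h.pb, h.pc, h.bc, bp, cp, cb]
  refine ⟨?_, ?_, ?_⟩ <;> simp

theorem Frame.FRM_chi' (h : Frame p b c) (q : ℂ × ℂ) :
    herm p (chi p b c q) = 1 ∧ herm b (chi p b c q) = conj q.1 ∧ herm c (chi p b c q) = conj q.2 := by
  obtain ⟨h1, h2, h3⟩ := h.herm_chi q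
  rw [FRM_conj (chi p b c q) p, FRM_conj (chi p b c q) b, FRM_conj (chi p b c q) c, h1, h2, h3, map_one]
  exact ⟨rfl, rfl, rfl⟩

theorem FRM_nsq (q : ℂ × ℂ) : FC76.nsq q = Complex.normSq q.1 + Complex.normSq q.2 := by
  unfold FC76.nsq
  rw [Complex.normSq_eq_norm_sq, Complex.normSq_eq_norm_sq]

theorem FRM_nsq_nonneg (q : ℂ × ℂ) : 0 ≤ FC76.nsq q := by
  rw [FRM_nsq]
  exact add_nonneg (Complex.normSq_nonneg _) (Complex.normSq_nonneg _)

theorem Frame.FRM_AB (h : Frame p b c) (A B : ℂ) : nsq (A • b + B • c) = Complex.normSq A + Complex.normSq B := by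
  have h1 : ((nsq (A • b + B • c) : ℝ) : ℂ) = ((Complex.normSq A + Complex.normSq B : ℝ) : ℂ) := by
    rw [← FRM_self]
    have bb := FRM_self b
    have cc := FRM_self c
    rw [h.bb] at bb
    rw [h.cc] at cc
    have cb := FRM_zero h.bc
    have e1 : herm b (A • b + B • c) = conj A := by
      rw [FRM_conj (A • b + B • c) b, FRM_add, FRM_smul, FRM_smul, bb, cb]
      simp
    have e2 : herm c (A • b + B • c) = conj B := by
      rw [FRM_conj (A • b + B • c) c, FRM_add, FRM_smul, FRM_smul, cc, h.bc]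
      simp
    rw [FRM_add, FRM_smul, FRM_smul, e1, e2, Complex.mul_conj, Complex.mul_conj]
    push_cast
    ring
  exact_mod_cast h1

theorem Frame.nsq_chi (h : Frame p b c) (q : ℂ × ℂ) : nsq (chi p b c q) = 1 + FC76.nsq q := by
  have h1 : ((nsq (chi p b c q) : ℝ) : ℂ) = ((1 + FC76.nsq q : ℝ) : ℂ) := by
    rw [← FRM_self]
    obtain ⟨e1, e2, e3⟩ := h.FRM_chi' q
    obtain ⟨y, hy⟩ : ∃ y, y = chi p b c q := ⟨_, rfl⟩
    rw [← hy] at e1 e2 e3 ⊢
    have e4 : herm y y = herm (p + q.1 • b + q.2 • c) y :=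
      congrArg (fun z => herm z y) (hy : y = p + q.1 • b + q.2 • c)
    rw [e4, FRM_add, FRM_add, FRM_smul, FRM_smul, e1, e2, e3, Complex.mul_conj, Complex.mul_conj, FRM_nsq]
    push_cast
    ring
  exact_mod_cast h1

theorem Frame.chi_ne (h : Frame p b c) (q : ℂ × ℂ) : chi p b c q ≠ 0 := by
  intro h0
  have h1 := h.nsq_chi q
  rw [h0, nsq_eq_zero.2 rfl] at h1
  have := FRM_nsq_nonneg q
  linarith

theorem Frame.nsq_cross_chi (h : Frame p b c) (q : ℂ × ℂ) (A B : ℂ) :
    nsq (crossProduct (chi p b c q) (A • b + B • c)) =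
      Complex.normSq A + Complex.normSq B + Complex.normSq (q.1 * B - q.2 * A) := by
  obtain ⟨e1, e2, e3⟩ := h.FRM_chi' q
  rw [nsq_cross, h.nsq_chi, h.FRM_AB, FRM_add, FRM_smul, FRM_smul, e2, e3, FRM_nsq]
  simp only [Complex.normSq_apply, Complex.sub_re, Complex.sub_im, Complex.mul_re, Complex.mul_im,
    Complex.add_re, Complex.add_im, Complex.conj_re, Complex.conj_im]
  ring

theorem Frame.tau_chi (h : Frame p b c) (q : ℂ × ℂ) :
    tau p (chi p b c q) = FC76.nsq q / (1 + FC76.nsq q) := by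
  unfold tau
  have h0 := FRM_nsq_nonneg q
  rw [(h.FRM_chi' q).1, h.pp, h.nsq_chi, map_one, one_mul]
  field_simp
  ring

/-- Distance of two points of the chart. -/
theorem Frame.tau_chi_le (h : Frame p b c) (q q' : ℂ × ℂ) :
    tau (chi p b c q) (chi p b c q') ≤ nsq (chi p b c q' - chi p b c q) := by
  have hN := h.nsq_chi q
  have hN' := h.nsq_chi q'
  have hq := FRM_nsq_nonneg q
  have hq' := FRM_nsq_nonneg q'
  obtain ⟨x, hx⟩ : ∃ x, x = chi p b c q := ⟨_, rfl⟩
  obtain ⟨y, hy⟩ : ∃ y, y = chi p b c q' := ⟨_, rfl⟩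
  rw [← hx, ← hy]
  rw [← hx] at hN
  rw [← hy] at hN'
  have hx1 : 1 ≤ nsq x := by rw [hN]; linarith
  have hy1 : 1 ≤ nsq y := by rw [hN']; linarith
  have e1 : crossProduct x y = crossProduct x (y - x) := by
    rw [map_sub, cross_self, sub_zero]
  have e2 : nsq (crossProduct x y) ≤ nsq x * nsq (y - x) := by
    rw [e1, nsq_cross]
    have := Complex.normSq_nonneg (herm (y - x) x)
    linarith
  have e3 : nsq x * nsq y - Complex.normSq (herm x y) ≤ nsq x * nsq (y - x) := by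
    rw [nsq_cross, FRM_conj x y, Complex.normSq_conj] at e2
    exact e2
  have e4 : tau x y * (nsq x * nsq y) = nsq x * nsq y - Complex.normSq (herm x y) := by
    unfold tau
    field_simp
  have h0 : 0 ≤ nsq (y - x) := nsq_nonneg _
  have e5 : tau x y * (nsq x * nsq y) ≤ nsq (y - x) * (nsq x * nsq y) := by
    rw [e4]
    calc _ ≤ nsq x * nsq (y - x) := e3
      _ = nsq x * nsq (y - x) * 1 := by ring
      _ ≤ nsq x * nsq (y - x) * nsq y := by gcongr
      _ = _ := by ring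
  exact le_of_mul_le_mul_right e5 (by positivity)

theorem tau_comm (x y : V) : tau x y = tau y x := by
  unfold tau
  rw [FRM_conj x y, Complex.normSq_conj, mul_comm (nsq x)]

theorem tau_smul (s t : ℂ) (hs : s ≠ 0) (ht : t ≠ 0) (x y : V) : tau (s • x) (t • y) = tau x y := by
  unfold tau
  rw [FRM_smul, FRM_smul_right, nsq_smul, nsq_smul]
  have h1 : Complex.normSq s ≠ 0 := (Complex.normSq_pos.2 hs).ne'
  have h2 : Complex.normSq t ≠ 0 := (Complex.normSq_pos.2 ht).ne'
  rw [map_mul, map_mul, Complex.normSq_conj]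
  congr 1
  have e1 : Complex.normSq s * (Complex.normSq t * Complex.normSq (herm x y)) =
      (Complex.normSq s * Complex.normSq t) * Complex.normSq (herm x y) := by ring
  have e2 : Complex.normSq s * nsq x * (Complex.normSq t * nsq y) =
      (Complex.normSq s * Complex.normSq t) * (nsq x * nsq y) := by ring
  rw [e1, e2, mul_div_mul_left _ _ (mul_ne_zero h1 h2)]

theorem Frame.scone_iff (h : Frame p b c) (E : Set (ℂ × ℂ)) (y : V) :
    y ∈ scone p b c E ↔ nsq y = 1 ∧ herm y p ≠ 0 ∧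
      (herm y b / herm y p, herm y c / herm y p) ∈ E := by
  unfold scone
  constructor
  · rintro ⟨hy, q, hq, t, ht, rfl⟩
    obtain ⟨e1, e2, e3⟩ := h.herm_chi q
    refine ⟨hy, ?_, ?_⟩
    · rw [FRM_smul, e1, mul_one]
      exact ht
    · rw [FRM_smul, FRM_smul, FRM_smul, e1, e2, e3, mul_one, mul_div_cancel_left₀ _ ht, mul_div_cancel_left₀ _ ht]
      exact hq
  · rintro ⟨hy, hne, hE⟩
    refine ⟨hy, _, hE, herm y p, hne, ?_⟩
    conv_lhs => rw [h.expand y]
    unfold chi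
    rw [smul_add, smul_add, smul_smul, smul_smul, mul_div_cancel₀ _ hne, mul_div_cancel₀ _ hne]

end Pool.Agent.H24.CU

end S_H24_CU_FRM

section S_H24_CU_RSP

/-!
# Row RSP (restriction of the vector field to a chart)

`x = chi p b c q`, `c₀ = ev (res0) q`, `A = ev (resA) q`, `B = ev (resB) q`.
PROOFS.  `ev_res`: induction on the polynomial (`MvPolynomial.induction_on`) or `aeval`/`eval` composition: `ev` of
`C (p j) + X 0 * C (b j) + X 1 * C (c j)` at `q` is `chi p b c q j`.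
`vec_chi`: `ev (∑ C (conj (b j)) * res (F j)) q = ∑ conj (b j) F_j(x) = herm (vec x) b` etc.; `Frame.expand` for `vec x`:
`vec x = c₀ p + herm(vec x, b) b + herm(vec x, c) c = c₀ • x + (herm(vec x,b) - q_1 c₀) b + (..) c`.
`nsq_alpha_chi`: `alpha x = x × vec x = x × (A b + B c)` (`x × x = 0`) and `Frame.nsq_cross_chi`.
`alpha_zero_iff`: from it.
`div_res`: chain rule `pderiv 0 (res f) = ∑_k C (b k) * res (pderiv k f)`, `pderiv 1 (res f) = ∑_k C (c k) * res (pderiv k f)`
(induction on `f`).  With `D_jk = eval x (pderiv k (F j))`: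
`ev (divp A B) q = ∑_jk conj(b_j) b_k D_jk - c₀ - q_1 ∑ conj(p_j) b_k D_jk + ∑ conj(c_j) c_k D_jk - c₀ - q_2 ∑ conj(p_j) c_k D_jk`;
`q_1 b_k + q_2 c_k = x_k - p_k`, Euler `∑_k x_k D_jk = deg F_j(x)` (`MvPolynomial.IsHomogeneous.sum_X_mul_pderiv`-like
lemma; or by induction on monomials), and `Frame.resolution`: total
`∑_jk δ_jk D_jk - (deg + 2) c₀`.
`dv_chi`: `herm (vec x) x = c₀ nsq x + A herm b x + B herm c x`, `herm b x = conj q_1`, `herm c x = conj q_2`.
`dv_wt`: `dv (t y)`: `∑ eval (t y) (pderiv j (F j)) = t^(deg-1) ∑..` for `deg ≥ 1` (`pderiv` of a homogeneous polynomial is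
homogeneous of degree `deg - 1`), `= 0` if `deg = 0`; the second part has weight `t^deg conj t/|t|^2 = t^(deg) / t`.
So `dv (t y) = t^deg / t * dv y`, and `normSq` of it.  `Wt` for `normSq (dv y)`.
-/

namespace Pool.Agent.H24.CU

open MvPolynomial
open scoped ComplexConjugate

variable {𝓕 : Foliation} {p b c : V}

theorem ev_res (p b c : V) (f : MvPolynomial (Fin 3) ℂ) (q : ℂ × ℂ) :
    FC76.ev (res p b c f) q = MvPolynomial.eval (chi p b c q) f := by
  induction f using MvPolynomial.induction_on with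
  | C a =>
    have h : res p b c (C a) = C a := by
      rw [← MvPolynomial.algebraMap_eq, ← MvPolynomial.algebraMap_eq]
      exact AlgHom.commutes _ _
    rw [h, FC76.ev_C, eval_C]
  | add f g hf hg =>
    have h : res p b c (f + g) = res p b c f + res p b c g := map_add _ _ _
    rw [h, FC76.ev_add, hf, hg, map_add]
  | mul_X f i hf =>
    have h : res p b c (f * X i) = res p b c f * (C (p i) + X 0 * C (b i) + X 1 * C (c i)) := by
      unfold res
      rw [map_mul, aeval_X]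
    rw [h, FC76.ev_mul, hf, map_mul, eval_X, FC76.ev_add, FC76.ev_add, FC76.ev_mul, FC76.ev_mul,
      FC76.ev_C, FC76.ev_C, FC76.ev_C, FC76.ev_X0, FC76.ev_X1]
    rfl

theorem RSP_ev_sum (g : Fin 3 → FC76.P2) (q : ℂ × ℂ) :
    FC76.ev (∑ j, g j) q = ∑ j, FC76.ev (g j) q := by
  rw [Fin.sum_univ_three, Fin.sum_univ_three, FC76.ev_add, FC76.ev_add]

theorem RSP_ev0 (𝓕 : Foliation) (p b c d : V) (q : ℂ × ℂ) :
    FC76.ev (∑ j, C (conj (d j)) * res p b c (𝓕.F j)) q = herm (𝓕.vec (chi p b c q)) d := by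
  rw [RSP_ev_sum]
  unfold herm
  refine Finset.sum_congr rfl fun j _ => ?_
  rw [FC76.ev_mul, FC76.ev_C, ev_res, mul_comm]
  rfl

theorem RSP_evA (𝓕 : Foliation) (p b c : V) (q : ℂ × ℂ) :
    FC76.ev (resA 𝓕 p b c) q = herm (𝓕.vec (chi p b c q)) b - q.1 * FC76.ev (res0 𝓕 p b c) q := by
  unfold resA
  rw [FC76.ev_sub, RSP_ev0, FC76.ev_mul, FC76.ev_X0]

theorem RSP_evB (𝓕 : Foliation) (p b c : V) (q : ℂ × ℂ) :
    FC76.ev (resB 𝓕 p b c) q = herm (𝓕.vec (chi p b c q)) c - q.2 * FC76.ev (res0 𝓕 p b c) q := by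
  unfold resB
  rw [FC76.ev_sub, RSP_ev0, FC76.ev_mul, FC76.ev_X1]

theorem Frame.vec_chi (h : Frame p b c) (𝓕 : Foliation) (q : ℂ × ℂ) :
    𝓕.vec (chi p b c q) = FC76.ev (res0 𝓕 p b c) q • chi p b c q +
      FC76.ev (resA 𝓕 p b c) q • b + FC76.ev (resB 𝓕 p b c) q • c := by
  have h0 : FC76.ev (res0 𝓕 p b c) q = herm (𝓕.vec (chi p b c q)) p := RSP_ev0 𝓕 p b c p q
  rw [RSP_evA, RSP_evB]
  conv_lhs => rw [h.expand (𝓕.vec (chi p b c q)), ← h0]
  have hx : chi p b c q = p + q.1 • b + q.2 • c := rfl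
  obtain ⟨v, hv⟩ : ∃ v, v = 𝓕.vec (chi p b c q) := ⟨_, rfl⟩
  rw [← hv, hx]
  funext j
  simp only [Pi.add_apply, Pi.smul_apply, smul_eq_mul]
  ring

theorem Frame.nsq_alpha_chi (h : Frame p b c) (𝓕 : Foliation) (q : ℂ × ℂ) :
    nsq (𝓕.alpha (chi p b c q)) =
      FC76.nsq (FC76.vf (resA 𝓕 p b c) (resB 𝓕 p b c) q) +
        Complex.normSq (q.1 * FC76.ev (resB 𝓕 p b c) q - q.2 * FC76.ev (resA 𝓕 p b c) q) := by
  have h1 : 𝓕.alpha (chi p b c q) = crossProduct (chi p b c q)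
      (FC76.ev (resA 𝓕 p b c) q • b + FC76.ev (resB 𝓕 p b c) q • c) := by
    have h2 : 𝓕.alpha (chi p b c q) = crossProduct (chi p b c q) (𝓕.vec (chi p b c q)) := rfl
    rw [h2]
    conv_lhs => rw [h.vec_chi 𝓕 q, add_assoc, map_add, map_smul, cross_self, smul_zero, zero_add]
  rw [h1, h.nsq_cross_chi]
  unfold FC76.nsq FC76.vf
  rw [Complex.normSq_eq_norm_sq (FC76.ev (resA 𝓕 p b c) q),
    Complex.normSq_eq_norm_sq (FC76.ev (resB 𝓕 p b c) q)]

theorem Frame.nsq_alpha_bounds (h : Frame p b c) (𝓕 : Foliation) (q : ℂ × ℂ) (hq : ‖q‖ ≤ 1) :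
    FC76.nsq (FC76.vf (resA 𝓕 p b c) (resB 𝓕 p b c) q) ≤ nsq (𝓕.alpha (chi p b c q)) ∧
      nsq (𝓕.alpha (chi p b c q)) ≤ 3 * FC76.nsq (FC76.vf (resA 𝓕 p b c) (resB 𝓕 p b c) q) := by
  rw [h.nsq_alpha_chi]
  have hq1 : ‖q.1‖ ≤ 1 := (norm_fst_le q).trans hq
  have hq2 : ‖q.2‖ ≤ 1 := (norm_snd_le q).trans hq
  constructor
  · have := Complex.normSq_nonneg
      (q.1 * FC76.ev (resB 𝓕 p b c) q - q.2 * FC76.ev (resA 𝓕 p b c) q)
    linarith
  · rw [Complex.normSq_eq_norm_sq]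
    unfold FC76.nsq FC76.vf
    simp only
    obtain ⟨A, hA⟩ : ∃ A, A = FC76.ev (resA 𝓕 p b c) q := ⟨_, rfl⟩
    obtain ⟨B, hB⟩ : ∃ B, B = FC76.ev (resB 𝓕 p b c) q := ⟨_, rfl⟩
    rw [← hA, ← hB]
    have h1 : ‖q.1 * B - q.2 * A‖ ≤ ‖B‖ + ‖A‖ := by
      refine (norm_sub_le _ _).trans ?_
      rw [norm_mul, norm_mul]
      have hA0 := norm_nonneg A
      have hB0 := norm_nonneg B
      nlinarith
    have h2 := norm_nonneg (q.1 * B - q.2 * A)
    have hA0 := norm_nonneg A
    have hB0 := norm_nonneg B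
    have h3 : ‖q.1 * B - q.2 * A‖ ^ 2 ≤ (‖B‖ + ‖A‖) ^ 2 := pow_le_pow_left₀ h2 h1 2
    nlinarith [sq_nonneg (‖A‖ - ‖B‖)]

theorem Frame.alpha_zero_iff (h : Frame p b c) (𝓕 : Foliation) (q : ℂ × ℂ) :
    𝓕.alpha (chi p b c q) = 0 ↔
      FC76.ev (resA 𝓕 p b c) q = 0 ∧ FC76.ev (resB 𝓕 p b c) q = 0 := by
  rw [← nsq_eq_zero, h.nsq_alpha_chi]
  unfold FC76.nsq FC76.vf
  simp only
  obtain ⟨A, hA⟩ : ∃ A, A = FC76.ev (resA 𝓕 p b c) q := ⟨_, rfl⟩
  obtain ⟨B, hB⟩ : ∃ B, B = FC76.ev (resB 𝓕 p b c) q := ⟨_, rfl⟩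
  rw [← hA, ← hB]
  constructor
  · intro h0
    have h1 := Complex.normSq_nonneg (q.1 * B - q.2 * A)
    have h2 := sq_nonneg ‖A‖
    have h3 := sq_nonneg ‖B‖
    have h4 : ‖A‖ ^ 2 = 0 := by linarith
    have h5 : ‖B‖ ^ 2 = 0 := by linarith
    exact ⟨norm_eq_zero.1 (pow_eq_zero_iff (two_ne_zero) |>.1 h4),
      norm_eq_zero.1 (pow_eq_zero_iff (two_ne_zero) |>.1 h5)⟩
  · rintro ⟨rfl, rfl⟩
    simp

theorem RSP_pd (i : Fin 2) (d : V) (hd : ∀ j, d j = if i = 0 then b j else c j)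
    (f : MvPolynomial (Fin 3) ℂ) (q : ℂ × ℂ) :
    FC76.ev (pderiv i (res p b c f)) q =
      ∑ k, d k * MvPolynomial.eval (chi p b c q) (pderiv k f) := by
  induction f using MvPolynomial.induction_on with
  | C a =>
    have h : res p b c (C a) = C a := by
      rw [← MvPolynomial.algebraMap_eq, ← MvPolynomial.algebraMap_eq]
      exact AlgHom.commutes _ _
    rw [h, pderiv_C]
    simp only [pderiv_C, map_zero, mul_zero, Finset.sum_const_zero]
    unfold FC76.ev
    rw [map_zero]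
  | add f g hf hg =>
    have h : res p b c (f + g) = res p b c f + res p b c g := map_add _ _ _
    rw [h, map_add, FC76.ev_add, hf, hg, ← Finset.sum_add_distrib]
    refine Finset.sum_congr rfl fun k _ => ?_
    rw [map_add, map_add]
    ring
  | mul_X f l hf =>
    have h : res p b c (f * X l) = res p b c f * (C (p l) + X 0 * C (b l) + X 1 * C (c l)) := by
      unfold res
      rw [map_mul, aeval_X]
    have h2 : FC76.ev (pderiv i (C (p l) + X 0 * C (b l) + X 1 * C (c l) : FC76.P2)) q = d l := by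
      rw [hd]
      fin_cases i
      · simp [pderiv_X, FC76.ev]
      · simp [pderiv_X, FC76.ev]
    have h3 : FC76.ev (C (p l) + X 0 * C (b l) + X 1 * C (c l)) q = chi p b c q l := by
      rw [FC76.ev_add, FC76.ev_add, FC76.ev_mul, FC76.ev_mul,
        FC76.ev_C, FC76.ev_C, FC76.ev_C, FC76.ev_X0, FC76.ev_X1]
      rfl
    rw [h, pderiv_mul, FC76.ev_add, FC76.ev_mul, FC76.ev_mul, hf, h2, h3, ev_res]
    have h4 : ∀ k, MvPolynomial.eval (chi p b c q) (pderiv k (f * X l)) =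
        MvPolynomial.eval (chi p b c q) (pderiv k f) * chi p b c q l +
          MvPolynomial.eval (chi p b c q) f * (if l = k then 1 else 0) := by
      intro k
      rw [pderiv_mul, map_add, map_mul, map_mul, eval_X, pderiv_X]
      congr 2
      by_cases hlk : l = k
      · subst hlk
        simp
      · simp [hlk]
    simp only [h4, mul_add, Finset.sum_add_distrib, Finset.sum_mul]
    congr 1
    · exact Finset.sum_congr rfl fun k _ => by ring
    · rw [Finset.sum_eq_single l]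
      · rw [if_pos rfl]; ring
      · intro k _ hk
        rw [if_neg (Ne.symm hk)]; ring
      · intro hl
        exact absurd (Finset.mem_univ l) hl

theorem RSP_alg (p b c F : V) (D : Fin 3 → Fin 3 → ℂ) (n q1 q2 : ℂ)
    (hr : ∀ k j, p k * conj (p j) + b k * conj (b j) + c k * conj (c j) = if k = j then 1 else 0)
    (he : ∀ j, ∑ k, (p k + q1 * b k + q2 * c k) * D j k = n * F j) :
    (∑ j, conj (b j) * (∑ k, b k * D j k) - ∑ j, conj (p j) * F j -
        q1 * ∑ j, conj (p j) * (∑ k, b k * D j k)) +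
      (∑ j, conj (c j) * (∑ k, c k * D j k) - ∑ j, conj (p j) * F j -
        q2 * ∑ j, conj (p j) * (∑ k, c k * D j k)) =
      ∑ j, D j j - (n + 2) * ∑ j, conj (p j) * F j := by
  have h00 := hr 0 0
  have h01 := hr 0 1
  have h02 := hr 0 2
  have h10 := hr 1 0
  have h11 := hr 1 1
  have h12 := hr 1 2
  have h20 := hr 2 0
  have h21 := hr 2 1
  have h22 := hr 2 2
  have e0 := he 0
  have e1 := he 1
  have e2 := he 2
  simp only [Fin.sum_univ_three, Fin.isValue, if_true, if_false, Fin.reduceEq] at *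
  linear_combination D 0 0 * h00 + D 1 0 * h01 + D 2 0 * h02 + D 0 1 * h10 + D 1 1 * h11 +
    D 2 1 * h12 + D 0 2 * h20 + D 1 2 * h21 + D 2 2 * h22 - conj (p 0) * e0 - conj (p 1) * e1 -
    conj (p 2) * e2

theorem RSP_pd_sum (i : Fin 2) (d e : V) (hd : ∀ j, d j = if i = 0 then b j else c j)
    (𝓕 : Foliation) (q : ℂ × ℂ) :
    FC76.ev (pderiv i (∑ j, C (conj (e j)) * res p b c (𝓕.F j))) q =
      ∑ j, conj (e j) * ∑ k, d k * MvPolynomial.eval (chi p b c q) (pderiv k (𝓕.F j)) := by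
  rw [map_sum, RSP_ev_sum]
  refine Finset.sum_congr rfl fun j _ => ?_
  rw [pderiv_C_mul, FC76.ev_mul, FC76.ev_C, RSP_pd i d hd]

theorem Frame.div_res (h : Frame p b c) (𝓕 : Foliation) (q : ℂ × ℂ) :
    FC76.ev (FC76.divp (resA 𝓕 p b c) (resB 𝓕 p b c)) q =
      (∑ j, MvPolynomial.eval (chi p b c q) (pderiv j (𝓕.F j))) -
        ((𝓕.deg : ℂ) + 2) * FC76.ev (res0 𝓕 p b c) q := by
  have hb : ∀ j, b j = if (0 : Fin 2) = 0 then b j else c j := fun j => by simp
  have hc : ∀ j, c j = if (1 : Fin 2) = 0 then b j else c j := fun j => by simp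
  have h0 : FC76.ev (res0 𝓕 p b c) q = ∑ j, conj (p j) * 𝓕.vec (chi p b c q) j := by
    have := RSP_ev0 𝓕 p b c p q
    unfold herm at this
    unfold res0
    rw [this]
    exact Finset.sum_congr rfl fun j _ => mul_comm _ _
  have hA : FC76.ev (pderiv 0 (resA 𝓕 p b c)) q =
      ∑ j, conj (b j) * (∑ k, b k * MvPolynomial.eval (chi p b c q) (pderiv k (𝓕.F j))) -
        ∑ j, conj (p j) * 𝓕.vec (chi p b c q) j -
        q.1 * ∑ j, conj (p j) * (∑ k, b k * MvPolynomial.eval (chi p b c q) (pderiv k (𝓕.F j))) := by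
    unfold resA
    rw [map_sub, FC76.ev_sub, RSP_pd_sum 0 b b hb, pderiv_mul, pderiv_X_self, one_mul, FC76.ev_add,
      FC76.ev_mul, FC76.ev_X0, h0]
    unfold res0
    rw [RSP_pd_sum 0 b p hb]
    ring
  have hB : FC76.ev (pderiv 1 (resB 𝓕 p b c)) q =
      ∑ j, conj (c j) * (∑ k, c k * MvPolynomial.eval (chi p b c q) (pderiv k (𝓕.F j))) -
        ∑ j, conj (p j) * 𝓕.vec (chi p b c q) j -
        q.2 * ∑ j, conj (p j) * (∑ k, c k * MvPolynomial.eval (chi p b c q) (pderiv k (𝓕.F j))) := by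
    unfold resB
    rw [map_sub, FC76.ev_sub, RSP_pd_sum 1 c c hc, pderiv_mul, pderiv_X_self, one_mul, FC76.ev_add,
      FC76.ev_mul, FC76.ev_X1, h0]
    unfold res0
    rw [RSP_pd_sum 1 c p hc]
    ring
  have he : ∀ j, ∑ k, (p k + q.1 * b k + q.2 * c k) *
      MvPolynomial.eval (chi p b c q) (pderiv k (𝓕.F j)) = (𝓕.deg : ℂ) * 𝓕.vec (chi p b c q) j := by
    intro j
    have h1 := congrArg (MvPolynomial.eval (chi p b c q)) ((𝓕.hom j).sum_X_mul_pderiv)
    rw [map_sum, map_nsmul, nsmul_eq_mul] at h1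
    refine Eq.trans (Finset.sum_congr rfl fun k _ => ?_) h1
    rw [map_mul, eval_X]
    rfl
  unfold FC76.divp
  rw [FC76.ev_add, hA, hB, h0]
  exact RSP_alg p b c (𝓕.vec (chi p b c q))
    (fun j k => MvPolynomial.eval (chi p b c q) (pderiv k (𝓕.F j))) (𝓕.deg : ℂ) q.1 q.2
    (fun k j => h.resolution k j) he

theorem RSP_herm_conj (x y : V) : herm x y = conj (herm y x) := by
  unfold herm
  rw [map_sum]
  refine Finset.sum_congr rfl fun j _ => ?_
  rw [map_mul, Complex.conj_conj, mul_comm]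

theorem RSP_herm_add (x y z : V) : herm (x + y) z = herm x z + herm y z := by
  unfold herm
  rw [← Finset.sum_add_distrib]
  exact Finset.sum_congr rfl fun j _ => add_mul _ _ _

theorem RSP_herm_smul (t : ℂ) (x z : V) : herm (t • x) z = t * herm x z := by
  unfold herm
  rw [Finset.mul_sum]
  exact Finset.sum_congr rfl fun j _ => by rw [Pi.smul_apply, smul_eq_mul, mul_assoc]

theorem RSP_herm_self (x : V) : herm x x = (nsq x : ℂ) := by
  unfold herm nsq
  push_cast
  exact Finset.sum_congr rfl fun j _ => by rw [Complex.mul_conj]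

theorem Frame.dv_chi (h : Frame p b c) (𝓕 : Foliation) (q : ℂ × ℂ) :
    𝓕.dv (chi p b c q) = FC76.ev (FC76.divp (resA 𝓕 p b c) (resB 𝓕 p b c)) q -
      ((𝓕.deg : ℂ) + 2) * (FC76.ev (resA 𝓕 p b c) q * conj q.1 +
        FC76.ev (resB 𝓕 p b c) q * conj q.2) / (nsq (chi p b c q) : ℂ) := by
  have hN : (nsq (chi p b c q) : ℂ) ≠ 0 := by exact_mod_cast (nsq_pos (h.chi_ne q)).ne'
  obtain ⟨-, hb, hc⟩ := h.herm_chi q
  have h1 : herm (𝓕.vec (chi p b c q)) (chi p b c q) =
      FC76.ev (res0 𝓕 p b c) q * (nsq (chi p b c q) : ℂ) +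
        (FC76.ev (resA 𝓕 p b c) q * conj q.1 + FC76.ev (resB 𝓕 p b c) q * conj q.2) := by
    conv_lhs => rw [h.vec_chi 𝓕 q]
    rw [RSP_herm_add, RSP_herm_add, RSP_herm_smul, RSP_herm_smul, RSP_herm_smul, RSP_herm_self,
      RSP_herm_conj b, RSP_herm_conj c, hb, hc]
    ring
  unfold Foliation.dv
  rw [h.div_res, h1]
  field_simp
  ring

theorem RSP_eval (P : MvPolynomial (Fin 3) ℂ) (n : ℕ) (hP : P.IsHomogeneous n) (c : ℂ)
    (x : V) : MvPolynomial.eval (c • x) P = c ^ n * MvPolynomial.eval x P := by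
  rw [MvPolynomial.eval_eq', MvPolynomial.eval_eq', Finset.mul_sum]
  refine Finset.sum_congr rfl fun d hd => ?_
  have h1 := hP (MvPolynomial.mem_support_iff.1 hd)
  have h2 : ∑ i, d i = n := by
    rw [← h1, Finsupp.weight_apply, Finsupp.sum_fintype _ _ (by simp)]
    simp
  have h3 : ∏ i, (c • x) i ^ d i = c ^ n * ∏ i, x i ^ d i := by
    rw [← h2, ← Finset.prod_pow_eq_pow_sum, ← Finset.prod_mul_distrib]
    refine Finset.prod_congr rfl fun i _ => ?_
    rw [Pi.smul_apply, smul_eq_mul, mul_pow]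
  rw [h3]
  ring

theorem RSP_dv_smul (𝓕 : Foliation) {t : ℂ} {y : V} (ht : t ≠ 0) (hy : y ≠ 0) :
    t * 𝓕.dv (t • y) = t ^ 𝓕.deg * 𝓕.dv y := by
  have h1 : ∀ j, t * MvPolynomial.eval (t • y) (pderiv j (𝓕.F j)) =
      t ^ 𝓕.deg * MvPolynomial.eval y (pderiv j (𝓕.F j)) := by
    intro j
    rcases Nat.eq_zero_or_pos 𝓕.deg with h0 | h0
    · have h2 : (𝓕.F j).totalDegree = 0 := by
        have := (𝓕.hom j).totalDegree_le
        omega
      rw [MvPolynomial.totalDegree_eq_zero_iff_eq_C.1 h2, pderiv_C]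
      simp
    · rw [RSP_eval _ _ ((𝓕.hom j).pderiv) t y, ← mul_assoc, ← pow_succ',
        Nat.sub_add_cancel h0]
  have hN : (nsq y : ℂ) ≠ 0 := by exact_mod_cast (nsq_pos hy).ne'
  have hct : conj t ≠ 0 := (map_ne_zero _).2 ht
  have h2 : herm (𝓕.vec (t • y)) (t • y) = t ^ 𝓕.deg * conj t * herm (𝓕.vec y) y := by
    rw [vec_smul, RSP_herm_smul, RSP_herm_conj, RSP_herm_smul, map_mul, ← RSP_herm_conj]
    ring
  have h3 : ((nsq (t • y) : ℝ) : ℂ) = t * conj t * (nsq y : ℂ) := by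
    rw [nsq_smul]
    push_cast
    rw [Complex.mul_conj]
  unfold Foliation.dv
  rw [mul_sub, mul_sub, Finset.mul_sum, Finset.mul_sum, h2, h3]
  rw [Finset.sum_congr rfl fun j _ => h1 j]
  congr 1
  field_simp

theorem dv_wt (𝓕 : Foliation) : 𝓕.Wt (fun y => ((Complex.normSq (𝓕.dv y) : ℝ) : ℂ)) := by
  intro t y ht hy
  have h := congrArg Complex.normSq (RSP_dv_smul 𝓕 ht hy)
  rw [map_mul, map_mul, map_pow] at h
  have hT : Complex.normSq t ≠ 0 := fun h => ht (Complex.normSq_eq_zero.1 h)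
  have h2 : Complex.normSq (𝓕.dv (t • y)) =
      Complex.normSq t ^ 𝓕.deg / Complex.normSq t * Complex.normSq (𝓕.dv y) := by
    field_simp
    linarith
  show ((Complex.normSq (𝓕.dv (t • y)) : ℝ) : ℂ) = _
  rw [h2]
  push_cast
  ring

theorem measurable_dv (𝓕 : Foliation) : Measurable 𝓕.dv := by
  have h1 : ∀ P : MvPolynomial (Fin 3) ℂ, Continuous fun y : V => MvPolynomial.eval y P :=
    fun P => MvPolynomial.continuous_eval P
  have h2 : Continuous fun y : V => herm (𝓕.vec y) y := by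
    unfold herm
    refine continuous_finsetSum _ fun j _ => ?_
    have h3 : Continuous fun y : V => 𝓕.vec y j := h1 (𝓕.F j)
    exact h3.mul (Complex.continuous_conj.comp (continuous_apply j))
  have h4 : Continuous fun y : V => (nsq y : ℂ) := by
    unfold nsq
    exact Complex.continuous_ofReal.comp
      (continuous_finsetSum _ fun j _ => Complex.continuous_normSq.comp (continuous_apply j))
  have h5 : Continuous fun y : V => ∑ j, MvPolynomial.eval y (pderiv j (𝓕.F j)) :=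
    continuous_finsetSum _ fun j _ => h1 _
  have h6 : Measurable fun y : V => ((𝓕.deg : ℂ) + 2) * herm (𝓕.vec y) y / (nsq y : ℂ) :=
    (h2.measurable.const_mul _).div h4.measurable
  exact h5.measurable.sub h6

end Pool.Agent.H24.CU

end S_H24_CU_RSP

section S_H24_CU_STR

/-!
# Row STR (the chart measure at an arbitrary point)

PROOFS.  `ℓ0 y = herm y p`, `π y = (herm y b / herm y p, herm y c / herm y p)`, measurable.  For `y ∈ scone E`:
`y = ℓ0 y • chi (π y)` (`Frame.expand`).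
`finite_zero_chart`: `q ↦` the line of `chi q` is injective (`Frame.herm_chi`), and it maps zeros of `alpha ∘ chi`
into the finite set `𝓕.finite_sing` (`alpha` at `ℓ.rep`, `rep` is a multiple of `chi q`; `alpha (t y) = t^(deg+1) alpha y`, see
`alpha_smul` in AL).
`exists_schart`: `ρ ∈ (0, 1]` with no zero `q ≠ 0` of `alpha (chi q)` with `‖q‖ ≤ ρ` (finite set).
`C = scone (ball 0 ρ)`, measurable (`Frame.scone_iff`).  `w y = normSq (ℓ0 y) ^ deg / normSq (ℓ0 y) / nsq (α y)`,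
`M = Measure.map π ((μ.restrict C).withDensity (fun y => ENNReal.ofReal (w y)))`.
For `E ⊆ ball 0 ρ` measurable, `scone E = C ∩ π⁻¹ E`.  For `y ∈ C`:
`Φ y / nsq (α y) = w y Φ (chi (π y))` by the weight property.  `int`: `setIntegral_map`/`integral_map`,
`integral_withDensity_eq_integral_toReal_smul` (density finite), `w ≥ 0`.  `lint`: `lintegral_map`,
`lintegral_withDensity_eq_lintegral_mul`, `ENNReal.ofReal_mul`.  (`Φ ∘ chi` is measurable.)
`carried`: `M (ball)ᶜ = (..) (C ∩ π⁻¹ (ball)ᶜ) = 0`.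
`M_eq`: apply `lint` with `Φ y = normSq (ℓ0 y)^deg / normSq (ℓ0 y)` (`Φ (chi q) = 1` as `ℓ0 (chi q) = 1`).
`M_zero`: if `α p = 0` then `α = 0` on `scone {0}` and the integrand in `M_eq` is `ofReal (x / 0) = 0`.
-/

namespace Pool.Agent.H24.CU

open MeasureTheory
open scoped ComplexConjugate

variable {𝓕 : Foliation} {μ : Measure V} {p b c : V} {ρ : ℝ} {M : Measure (ℂ × ℂ)}

theorem STR_herm_smul (t : ℂ) (x y : V) : herm (t • x) y = t * herm x y := by
  unfold herm
  rw [Finset.mul_sum]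
  exact Finset.sum_congr rfl fun j _ => by simp [mul_assoc]

theorem STR_herm_cont (y : V) : Continuous fun x : V => herm x y := by
  unfold herm
  exact continuous_finsetSum _ fun j _ => (continuous_apply j).mul continuous_const

theorem STR_chi_cont (p b c : V) : Continuous (chi p b c) := by
  unfold chi
  exact (continuous_const.add (continuous_fst.smul continuous_const)).add
    (continuous_snd.smul continuous_const)

theorem STR_eval_cont (P : MvPolynomial (Fin 3) ℂ) :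
    Continuous (fun x : V => MvPolynomial.eval x P) := by
  induction P using MvPolynomial.induction_on with
  | C a => simpa using continuous_const
  | add p q hp hq =>
    simp only [map_add]
    exact hp.add hq
  | mul_X p i hp =>
    simp only [map_mul, MvPolynomial.eval_X]
    exact hp.mul (continuous_apply i)

theorem STR_alpha_cont (𝓕 : Foliation) : Continuous 𝓕.alpha := by
  obtain ⟨Q, -, hQ, -⟩ := exists_alpha_poly 𝓕
  refine continuous_pi fun j => ?_
  have : (fun x => 𝓕.alpha x j) = fun x : V => MvPolynomial.eval x (Q j) := funext fun x => hQ x j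
  rw [this]
  exact STR_eval_cont (Q j)

theorem STR_nsq_cont : Continuous nsq := by
  unfold nsq
  exact continuous_finsetSum _ fun j _ => Complex.continuous_normSq.comp (continuous_apply j)

/-- affine coordinates -/
noncomputable def STR_pi (p b c : V) (y : V) : ℂ × ℂ := (herm y b / herm y p, herm y c / herm y p)

theorem STR_pi_meas (p b c : V) : Measurable (STR_pi p b c) := by
  unfold STR_pi
  exact (((STR_herm_cont b).measurable).div ((STR_herm_cont p).measurable)).prodMk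
    (((STR_herm_cont c).measurable).div ((STR_herm_cont p).measurable))

theorem STR_rec (h : Frame p b c) {y : V} (h0 : herm y p ≠ 0) :
    y = herm y p • chi p b c (STR_pi p b c y) := by
  conv_lhs => rw [h.expand y]
  unfold chi STR_pi
  simp only [smul_add, smul_smul]
  rw [mul_div_cancel₀ _ h0, mul_div_cancel₀ _ h0]

theorem finite_zero_chart (𝓕 : Foliation) (h : Frame p b c) :
    {q : ℂ × ℂ | 𝓕.alpha (chi p b c q) = 0}.Finite := by
  have hinj : Function.Injective
      (fun q : ℂ × ℂ => Projectivization.mk ℂ (chi p b c q) (h.chi_ne q)) := by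
    intro q q' hq
    obtain ⟨a, ha⟩ := (Projectivization.mk_eq_mk_iff' ℂ _ _ (h.chi_ne q) (h.chi_ne q')).1 hq
    obtain ⟨e1, e2, e3⟩ := h.herm_chi q
    obtain ⟨f1, f2, f3⟩ := h.herm_chi q'
    rw [← ha, STR_herm_smul, f1, mul_one] at e1
    rw [← ha, STR_herm_smul, f2, e1, one_mul] at e2
    rw [← ha, STR_herm_smul, f3, e1, one_mul] at e3
    exact Prod.ext e2.symm e3.symm
  refine Set.Finite.of_finite_image (𝓕.finite_sing.subset ?_) hinj.injOn
  rintro _ ⟨q, hq, rfl⟩
  show 𝓕.alpha (Projectivization.mk ℂ (chi p b c q) (h.chi_ne q)).rep = 0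
  obtain ⟨a, ha⟩ := Projectivization.exists_smul_eq_mk_rep ℂ (chi p b c q) (h.chi_ne q)
  have hq' : 𝓕.alpha (chi p b c q) = 0 := hq
  rw [← ha]
  show 𝓕.alpha ((a : ℂ) • chi p b c q) = 0
  rw [alpha_smul, hq', smul_zero]

theorem Frame.measurableSet_scone (h : Frame p b c) {E : Set (ℂ × ℂ)} (hE : MeasurableSet E) :
    MeasurableSet (scone p b c E) := by
  have h2 : scone p b c E = {y | nsq y = 1} ∩ ({y | herm y p ≠ 0} ∩ STR_pi p b c ⁻¹' E) := by
    ext y
    exact h.scone_iff E y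
  rw [h2]
  refine MeasurableSet.inter ?_ (MeasurableSet.inter ?_ (STR_pi_meas p b c hE))
  · exact (isClosed_eq STR_nsq_cont continuous_const).measurableSet
  · exact (isOpen_ne_fun (STR_herm_cont p) continuous_const).measurableSet

/-- the density -/
noncomputable def STR_w (𝓕 : Foliation) (p : V) (y : V) : ℝ :=
  Complex.normSq (herm y p) ^ 𝓕.deg / Complex.normSq (herm y p) / nsq (𝓕.alpha y)

theorem STR_w_nonneg (𝓕 : Foliation) (p y : V) : 0 ≤ STR_w 𝓕 p y := by
  unfold STR_w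
  exact div_nonneg (div_nonneg (pow_nonneg (Complex.normSq_nonneg _) _) (Complex.normSq_nonneg _))
    (nsq_nonneg _)

theorem STR_w_meas (𝓕 : Foliation) (p : V) : Measurable (STR_w 𝓕 p) := by
  unfold STR_w
  have h1 : Measurable fun y : V => Complex.normSq (herm y p) :=
    (Complex.continuous_normSq.comp (STR_herm_cont p)).measurable
  have h2 : Measurable fun y : V => nsq (𝓕.alpha y) :=
    (STR_nsq_cont.comp (STR_alpha_cont 𝓕)).measurable
  exact ((h1.pow_const _).div h1).div h2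

theorem STR_phi_eq (h : Frame p b c) {Φ : V → ℂ} (hΦ : 𝓕.Wt Φ) {y : V} (h0 : herm y p ≠ 0) :
    Φ y / (nsq (𝓕.alpha y) : ℂ) = (STR_w 𝓕 p y : ℂ) * Φ (chi p b c (STR_pi p b c y)) := by
  have e := hΦ (herm y p) _ h0 (h.chi_ne (STR_pi p b c y))
  rw [← STR_rec h h0] at e
  rw [e]
  unfold STR_w
  push_cast
  ring

theorem exists_schart (𝓕 : Foliation) (μ : Measure V) [IsFiniteMeasure μ] (h : Frame p b c) :
    ∃ ρ M, SChart 𝓕 μ p b c ρ M := by
  have hS : ({q : ℂ × ℂ | 𝓕.alpha (chi p b c q) = 0} \ {0}).Finite :=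
    (finite_zero_chart 𝓕 h).subset Set.sdiff_subset
  have hS2 : ({q : ℂ × ℂ | 𝓕.alpha (chi p b c q) = 0} \ {0})ᶜ ∈ nhds (0 : ℂ × ℂ) :=
    hS.isClosed.isOpen_compl.mem_nhds (by simp)
  obtain ⟨r, hr0, hr⟩ := Metric.nhds_basis_closedBall.mem_iff.1 hS2
  set ρ := min r 1 with hρ
  have hρ0 : 0 < ρ := lt_min hr0 one_pos
  set C := scone p b c (Metric.ball 0 ρ) with hC
  have hCm : MeasurableSet C := h.measurableSet_scone Metric.isOpen_ball.measurableSet
  have hwm : Measurable fun y => ENNReal.ofReal (STR_w 𝓕 p y) := (STR_w_meas 𝓕 p).ennreal_ofReal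
  set ν := (μ.restrict C).withDensity (fun y => ENNReal.ofReal (STR_w 𝓕 p y)) with hν
  have hπ := STR_pi_meas p b c
  have hcone : ∀ E : Set (ℂ × ℂ), STR_pi p b c ⁻¹' E ∩ C = scone p b c (E ∩ Metric.ball 0 ρ) := by
    intro E
    ext y
    rw [Set.mem_inter_iff, hC, h.scone_iff, h.scone_iff, Set.mem_preimage]
    constructor
    · rintro ⟨h1, h2, h3, h4⟩
      exact ⟨h2, h3, h1, h4⟩
    · rintro ⟨h1, h2, h3, h4⟩
      exact ⟨h3, h1, h2, h4⟩
  refine ⟨ρ, Measure.map (STR_pi p b c) ν, h, hρ0, min_le_right _ _, ?_, ?_, ?_, ?_⟩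
  · rw [Measure.map_apply hπ Metric.isOpen_ball.measurableSet.compl, hν,
      withDensity_apply _ (hπ Metric.isOpen_ball.measurableSet.compl),
      Measure.restrict_restrict (hπ Metric.isOpen_ball.measurableSet.compl), hcone]
    have he : scone p b c ((Metric.ball 0 ρ)ᶜ ∩ Metric.ball 0 ρ) = ∅ := by
      rw [Set.compl_inter_self]
      ext y
      simp [scone]
    rw [he]
    simp
  · intro q hq hq0 hα
    have hq2 : q ∈ Metric.closedBall (0 : ℂ × ℂ) r :=
      Metric.closedBall_subset_closedBall (min_le_left _ _) hq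
    exact hr hq2 ⟨hα, hq0⟩
  · intro Φ hΦm hΦ E hE hEr
    have hcm : MeasurableSet (scone p b c E) := h.measurableSet_scone hE
    have hm : Measurable fun q => Φ (chi p b c q) := hΦm.comp (STR_chi_cont p b c).measurable
    rw [setIntegral_map hE hm.aestronglyMeasurable hπ.aemeasurable, hν,
      setIntegral_withDensity_eq_setIntegral_toReal_smul hwm
        (Filter.Eventually.of_forall fun _ => ENNReal.ofReal_lt_top) _ (hπ hE),
      Measure.restrict_restrict (hπ hE), hcone E, Set.inter_eq_left.2 hEr]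
    refine setIntegral_congr_fun hcm ?_
    intro y hy
    obtain ⟨h1, h2, h3⟩ := (h.scone_iff E y).1 hy
    show Φ y / (nsq (𝓕.alpha y) : ℂ) =
      (ENNReal.ofReal (STR_w 𝓕 p y)).toReal • Φ (chi p b c (STR_pi p b c y))
    rw [ENNReal.toReal_ofReal (STR_w_nonneg 𝓕 p y), Complex.real_smul]
    exact STR_phi_eq h hΦ h2
  · intro Φ hΦm hΦ E hE hEr
    have hcm : MeasurableSet (scone p b c E) := h.measurableSet_scone hE
    have hm : Measurable fun q => ENNReal.ofReal (Φ (chi p b c q)) :=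
      (hΦm.comp (STR_chi_cont p b c).measurable).ennreal_ofReal
    have hm2 : Measurable fun y => ENNReal.ofReal (Φ (chi p b c (STR_pi p b c y))) := hm.comp hπ
    rw [setLIntegral_map hE hm hπ, hν,
      setLIntegral_withDensity_eq_setLIntegral_mul _ hwm hm2 (hπ hE),
      Measure.restrict_restrict (hπ hE), hcone E, Set.inter_eq_left.2 hEr]
    refine setLIntegral_congr_fun hcm ?_
    intro y hy
    obtain ⟨h1, h2, h3⟩ := (h.scone_iff E y).1 hy
    show ENNReal.ofReal (Φ y / nsq (𝓕.alpha y)) =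
      ENNReal.ofReal (STR_w 𝓕 p y) * ENNReal.ofReal (Φ (chi p b c (STR_pi p b c y)))
    have e := STR_phi_eq h hΦ h2
    have e2 : Φ y / nsq (𝓕.alpha y) = STR_w 𝓕 p y * Φ (chi p b c (STR_pi p b c y)) := by
      exact_mod_cast e
    rw [← ENNReal.ofReal_mul (STR_w_nonneg 𝓕 p y), e2]

theorem SChart.M_eq (h : SChart 𝓕 μ p b c ρ M) {E : Set (ℂ × ℂ)} (hE : MeasurableSet E)
    (hE2 : E ⊆ Metric.ball 0 ρ) :
    M E = ∫⁻ y in scone p b c E, ENNReal.ofReal
      (Complex.normSq (herm y p) ^ 𝓕.deg / Complex.normSq (herm y p) / nsq (𝓕.alpha y)) ∂μ := by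
  have hm : Measurable fun y : V =>
      Complex.normSq (herm y p) ^ 𝓕.deg / Complex.normSq (herm y p) := by
    have h1 : Measurable fun y : V => Complex.normSq (herm y p) :=
      (Complex.continuous_normSq.comp (STR_herm_cont p)).measurable
    exact (h1.pow_const _).div h1
  have hW : 𝓕.Wt (fun y => ((Complex.normSq (herm y p) ^ 𝓕.deg /
      Complex.normSq (herm y p) : ℝ) : ℂ)) := by
    intro t y _ _
    show ((Complex.normSq (herm (t • y) p) ^ 𝓕.deg / Complex.normSq (herm (t • y) p) : ℝ) : ℂ) =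
      ((Complex.normSq t ^ 𝓕.deg / Complex.normSq t : ℝ) : ℂ) *
        ((Complex.normSq (herm y p) ^ 𝓕.deg / Complex.normSq (herm y p) : ℝ) : ℂ)
    rw [STR_herm_smul, map_mul, mul_pow, mul_div_mul_comm, Complex.ofReal_mul]
  have := h.lint _ hm hW E hE hE2
  rw [this]
  have e : ∀ q : ℂ × ℂ, ENNReal.ofReal (Complex.normSq (herm (chi p b c q) p) ^ 𝓕.deg /
      Complex.normSq (herm (chi p b c q) p)) = 1 := by
    intro q
    rw [(h.frame.herm_chi q).1]
    simp
  simp only [e]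
  rw [setLIntegral_const, one_mul]

theorem SChart.M_zero (h : SChart 𝓕 μ p b c ρ M) (hp : 𝓕.alpha p = 0) : M {0} = 0 := by
  rw [h.M_eq (measurableSet_singleton _) (by simpa using h.r_pos)]
  have e : ∫⁻ y in scone p b c {0}, ENNReal.ofReal
      (Complex.normSq (herm y p) ^ 𝓕.deg / Complex.normSq (herm y p) / nsq (𝓕.alpha y)) ∂μ =
      ∫⁻ _ in scone p b c {0}, 0 ∂μ := by
    refine setLIntegral_congr_fun (h.frame.measurableSet_scone (measurableSet_singleton _)) ?_
    rintro y ⟨h1, q, hq, t, ht, rfl⟩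
    have hq' : q = 0 := hq
    subst hq'
    have h2 : chi p b c 0 = p := by simp [chi]
    have h3 : nsq (𝓕.alpha (t • chi p b c 0)) = 0 := by
      rw [alpha_smul, h2, hp, smul_zero]
      exact nsq_eq_zero.2 rfl
    show ENNReal.ofReal (_ / nsq (𝓕.alpha (t • chi p b c 0))) = 0
    rw [h3, div_zero, ENNReal.ofReal_zero]
  rw [e]
  simp

/-- The mass of the current: `μ (scone E) = ∫_E |α|^2 / |x|^4 dM`. -/
theorem SChart.mass_eq (h : SChart 𝓕 μ p b c ρ M) (hs0 : μ {x | 𝓕.alpha x = 0} = 0)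
    {E : Set (ℂ × ℂ)} (hE : MeasurableSet E) (hE2 : E ⊆ Metric.ball 0 ρ) :
    μ (scone p b c E) = ∫⁻ q in E, ENNReal.ofReal
      (nsq (𝓕.alpha (chi p b c q)) / nsq (chi p b c q) ^ 2) ∂M := by
  have hm : Measurable fun y : V => nsq (𝓕.alpha y) / nsq y ^ 2 :=
    (STR_nsq_cont.comp (STR_alpha_cont 𝓕)).measurable.div (STR_nsq_cont.measurable.pow_const 2)
  have hW : 𝓕.Wt (fun y => ((nsq (𝓕.alpha y) / nsq y ^ 2 : ℝ) : ℂ)) := by
    intro t y ht hy
    have hT : Complex.normSq t ≠ 0 := fun h => ht (Complex.normSq_eq_zero.1 h)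
    have hy' : nsq y ≠ 0 := (nsq_pos hy).ne'
    have e : nsq (𝓕.alpha (t • y)) / nsq (t • y) ^ 2 =
        Complex.normSq t ^ 𝓕.deg / Complex.normSq t * (nsq (𝓕.alpha y) / nsq y ^ 2) := by
      rw [alpha_smul, nsq_smul, nsq_smul, map_pow]
      field_simp
      ring
    show ((nsq (𝓕.alpha (t • y)) / nsq (t • y) ^ 2 : ℝ) : ℂ) = _
    rw [e, Complex.ofReal_mul]
  rw [← h.lint _ hm hW E hE hE2]
  have hcm : MeasurableSet (scone p b c E) := h.frame.measurableSet_scone hE
  have e : ∫⁻ y in scone p b c E, ENNReal.ofReal (nsq (𝓕.alpha y) / nsq y ^ 2 /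
      nsq (𝓕.alpha y)) ∂μ = ∫⁻ _ in scone p b c E, 1 ∂μ := by
    refine setLIntegral_congr_fun_ae hcm ?_
    have h1 : ∀ᵐ y ∂μ, 𝓕.alpha y ≠ 0 := by
      rw [ae_iff]
      simpa using hs0
    filter_upwards [h1] with y hy hy2
    have h3 : nsq y = 1 := hy2.1
    have h4 : nsq (𝓕.alpha y) ≠ 0 := (nsq_pos hy).ne'
    rw [h3, one_pow, div_one, div_self h4, ENNReal.ofReal_one]
  rw [e, setLIntegral_const, one_mul]

end Pool.Agent.H24.CU

end S_H24_CU_STR

section S_H24_CU_SIN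

/-!
# Row SIN (local finiteness of the chart measure; first fields of `FC76.Inv0`)

`dom 1 ρ = ball 0 ρ \ {0}` (`ev 1 p = 1`).
PROOFS.  `sin_carried`: `carried` and `M_zero`.
`sin_locfin`: `K ⊆ ball 0 ρ \ {0}` compact: `q ↦ nsq (alpha (chi q)) / nsq (chi q)^2` is continuous and positive on `K`
(`reg`), so `>= c > 0` there; `mass_eq`: `ofReal c * M K <= μ (scone K) < ⊤`.
`sin_fin`: `M` is carried by the ball; `nsq (vf q) <= nsq (alpha (chi q))` (`nsq_alpha_bounds`, `ρ <= 1`) and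
`nsq (chi q)^2 <= 9` there, so `∫⁻ ofReal (nsq (vf q)) dM <= 9 μ (scone (ball)) < ⊤`.
`sin_log`: `Zp A B 1 = 0` (`pderiv` of `1` is `0`), integrand `ofReal (0/1) = 0`; `C = 0`.
`sin_small`: `M (ball q s)` for a point `q` of the domain: if `LelZero`, `M (ball q s) / s^2 → 0`: for small `s` the closed ball of
radius `s` is inside `dom`, `nsq (alpha (chi)) / nsq (chi)^2 >= c > 0` on it, so `M (ball q s) <= c⁻¹ μ (scone (ball q s))`, and
`scone (ball q s) ⊆ {y' | tau y y' < (L s)^2}` with `y = chi q / |chi q|` by `Frame.tau_chi_le` and `tau_smul`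
(`nsq (chi q' - chi q) <= 2 ‖q' - q‖^2 < (2 s)^2`).
-/

namespace Pool.Agent.H24.CU

open MeasureTheory
open scoped ComplexConjugate

variable {𝓕 : Foliation} {μ : Measure V} {p b c : V} {ρ : ℝ} {M : Measure (ℂ × ℂ)}

theorem SIN_alpha_cont (𝓕 : Foliation) : Continuous (fun x : V => nsq (𝓕.alpha x)) := by
  obtain ⟨Q, -, hQ, -⟩ := exists_alpha_poly 𝓕
  have h1 : ∀ x, nsq (𝓕.alpha x) = ∑ j, Complex.normSq (MvPolynomial.eval x (Q j)) := by
    intro x
    unfold nsq
    exact Finset.sum_congr rfl fun j _ => by rw [hQ]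
  simp_rw [h1]
  exact continuous_finsetSum _ fun j _ =>
    Complex.continuous_normSq.comp (MvPolynomial.continuous_eval (Q j))

theorem SIN_nsq_cont : Continuous nsq := by
  unfold nsq
  exact continuous_finsetSum _ fun j _ => Complex.continuous_normSq.comp (continuous_apply j)

theorem SIN_chi_cont (p b c : V) : Continuous (chi p b c) := by
  unfold chi
  exact (continuous_const.add (continuous_fst.smul continuous_const)).add
    (continuous_snd.smul continuous_const)

/-- the density of the mass -/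
noncomputable def SIN_ph (𝓕 : Foliation) (p b c : V) (q : ℂ × ℂ) : ℝ :=
  nsq (𝓕.alpha (chi p b c q)) / nsq (chi p b c q) ^ 2

theorem SIN_ph_cont (h : Frame p b c) : Continuous (SIN_ph 𝓕 p b c) := by
  have h1 := SIN_chi_cont p b c
  unfold SIN_ph
  refine ((SIN_alpha_cont 𝓕).comp h1).div ((SIN_nsq_cont.comp h1).pow 2) (fun q => ?_)
  exact pow_ne_zero _ (nsq_pos (h.chi_ne q)).ne'

theorem SIN_ph_pos (h : SChart 𝓕 μ p b c ρ M) {q : ℂ × ℂ} (hq : ‖q‖ ≤ ρ) (hq0 : q ≠ 0) :
    0 < SIN_ph 𝓕 p b c q := by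
  unfold SIN_ph
  have h1 := h.reg q (mem_closedBall_zero_iff.2 hq) hq0
  have h2 := nsq_pos h1
  have h3 := nsq_pos (h.frame.chi_ne q)
  positivity

/-- lower bound on compact sets -/
theorem SIN_low (h : SChart 𝓕 μ p b c ρ M) {K : Set (ℂ × ℂ)} (hK : IsCompact K)
    (hK2 : ∀ q ∈ K, ‖q‖ ≤ ρ ∧ q ≠ 0) : ∃ a : ℝ, 0 < a ∧ ∀ q ∈ K, a ≤ SIN_ph 𝓕 p b c q := by
  rcases K.eq_empty_or_nonempty with h0 | h0
  · refine ⟨1, one_pos, fun q hq => ?_⟩
    rw [h0] at hq
    exact absurd hq (Set.notMem_empty _)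
  · obtain ⟨q0, hq0, hmin⟩ := hK.exists_isMinOn h0 (SIN_ph_cont (𝓕 := 𝓕) h.frame).continuousOn
    exact ⟨_, SIN_ph_pos h (hK2 q0 hq0).1 (hK2 q0 hq0).2, fun q hq => hmin hq⟩

/-- comparison of the masses -/
theorem SIN_mass (h : SChart 𝓕 μ p b c ρ M) (hs0 : μ {x | 𝓕.alpha x = 0} = 0) {E : Set (ℂ × ℂ)}
    (hE : MeasurableSet E) (hE2 : E ⊆ Metric.ball 0 ρ) {a : ℝ}
    (hlow : ∀ q ∈ E, a ≤ SIN_ph 𝓕 p b c q) : ENNReal.ofReal a * M E ≤ μ (scone p b c E) := by
  rw [h.mass_eq hs0 hE hE2, ← setLIntegral_const]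
  exact setLIntegral_mono' hE (fun q hq => ENNReal.ofReal_le_ofReal (hlow q hq))

theorem mem_dom_one (ρ : ℝ) (q : ℂ × ℂ) :
    q ∈ FC76.dom 1 ρ ↔ q ∈ Metric.ball (0 : ℂ × ℂ) ρ ∧ q ≠ 0 := by
  unfold FC76.dom FC76.ev
  simp

theorem SChart.sin_carried (h : SChart 𝓕 μ p b c ρ M) (hp : 𝓕.alpha p = 0) :
    M (FC76.dom 1 ρ)ᶜ = 0 := by
  have h1 : (FC76.dom 1 ρ)ᶜ ⊆ (Metric.ball (0 : ℂ × ℂ) ρ)ᶜ ∪ {0} := by
    intro q hq
    rw [Set.mem_compl_iff, mem_dom_one, not_and_or, not_not] at hq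
    exact hq
  exact measure_mono_null h1 (measure_union_null h.carried (h.M_zero hp))

theorem SChart.sin_locfin [IsFiniteMeasure μ] (h : SChart 𝓕 μ p b c ρ M)
    (hs0 : μ {x | 𝓕.alpha x = 0} = 0) (K : Set (ℂ × ℂ)) (hK : IsCompact K)
    (hK2 : K ⊆ FC76.dom 1 ρ) : M K < ⊤ := by
  have hK3 : ∀ q ∈ K, q ∈ Metric.ball (0 : ℂ × ℂ) ρ ∧ q ≠ 0 := fun q hq => (mem_dom_one ρ q).1 (hK2 hq)
  obtain ⟨a, ha, hlow⟩ := SIN_low h hK (fun q hq =>
    ⟨(mem_ball_zero_iff.1 (hK3 q hq).1).le, (hK3 q hq).2⟩)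
  have h1 := SIN_mass h hs0 hK.measurableSet (fun q hq => (hK3 q hq).1) hlow
  have h2 := h1.trans_lt (measure_lt_top μ _)
  by_contra h3
  rw [not_lt, top_le_iff] at h3
  rw [h3, ENNReal.mul_top (by rw [Ne, ENNReal.ofReal_eq_zero, not_le]; exact ha)] at h2
  exact lt_irrefl _ h2

theorem SChart.sin_fin [IsFiniteMeasure μ] (h : SChart 𝓕 μ p b c ρ M)
    (hs0 : μ {x | 𝓕.alpha x = 0} = 0) :
    ∫⁻ q, ENNReal.ofReal (FC76.nsq (FC76.vf (resA 𝓕 p b c) (resB 𝓕 p b c) q)) ∂M < ⊤ := by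
  have hb : MeasurableSet (Metric.ball (0 : ℂ × ℂ) ρ) := Metric.isOpen_ball.measurableSet
  have hae : ∀ᵐ q ∂M, q ∈ Metric.ball (0 : ℂ × ℂ) ρ := h.carried
  have hr : M.restrict (Metric.ball (0 : ℂ × ℂ) ρ) = M := Measure.restrict_eq_self_of_ae_mem hae
  have h1 : ∀ q ∈ Metric.ball (0 : ℂ × ℂ) ρ,
      FC76.nsq (FC76.vf (resA 𝓕 p b c) (resB 𝓕 p b c) q) ≤ 9 * SIN_ph 𝓕 p b c q := by
    intro q hq
    have h2 : ‖q‖ ≤ 1 := (mem_ball_zero_iff.1 hq).le.trans h.r_le
    have h3 := (h.frame.nsq_alpha_bounds 𝓕 q h2).1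
    have h4 := (FC76.norm_sq_le_nsq q).2
    have h5 := h.frame.nsq_chi q
    have h6 : nsq (chi p b c q) ≤ 3 := by
      rw [h5]
      nlinarith [norm_nonneg q]
    have h7 := nsq_pos (h.frame.chi_ne q)
    have h8 := nsq_nonneg (𝓕.alpha (chi p b c q))
    refine h3.trans ?_
    unfold SIN_ph
    rw [← mul_div_assoc, le_div_iff₀ (by positivity)]
    have h9 : nsq (chi p b c q) ^ 2 ≤ 9 := by nlinarith
    rw [mul_comm (9 : ℝ)]
    exact mul_le_mul_of_nonneg_left h9 h8
  calc ∫⁻ q, ENNReal.ofReal (FC76.nsq (FC76.vf (resA 𝓕 p b c) (resB 𝓕 p b c) q)) ∂M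
      = ∫⁻ q in Metric.ball (0 : ℂ × ℂ) ρ,
          ENNReal.ofReal (FC76.nsq (FC76.vf (resA 𝓕 p b c) (resB 𝓕 p b c) q)) ∂M := by rw [hr]
    _ ≤ ∫⁻ q in Metric.ball (0 : ℂ × ℂ) ρ, ENNReal.ofReal 9 * ENNReal.ofReal (SIN_ph 𝓕 p b c q) ∂M := by
        apply setLIntegral_mono' hb
        intro q hq
        rw [← ENNReal.ofReal_mul (by norm_num)]
        exact ENNReal.ofReal_le_ofReal (h1 q hq)
    _ = ENNReal.ofReal 9 * μ (scone p b c (Metric.ball (0 : ℂ × ℂ) ρ)) := by
        rw [lintegral_const_mul' _ _ ENNReal.ofReal_ne_top, h.mass_eq hs0 hb le_rfl]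
        rfl
    _ < ⊤ := ENNReal.mul_lt_top ENNReal.ofReal_lt_top (measure_lt_top μ _)

theorem sin_log (A B : FC76.P2) (M : Measure (ℂ × ℂ)) :
    ∃ C : ℝ, ∀ r : ℝ, 0 < r → r < 1 →
      ∫⁻ p in {p | r < ‖FC76.ev 1 p‖}, ENNReal.ofReal
        (‖FC76.ev (FC76.Zp A B 1) p‖ ^ 2 / ‖FC76.ev 1 p‖ ^ 2) ∂M ≤
      ENNReal.ofReal (C * (1 + Real.log (1 / r))) := by
  refine ⟨0, fun r _ _ => ?_⟩
  have h1 : FC76.Zp A B 1 = 0 := by
    unfold FC76.Zp
    rw [MvPolynomial.pderiv_one, MvPolynomial.pderiv_one, mul_zero, mul_zero, add_zero]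
  have h2 : ∀ p, FC76.ev (FC76.Zp A B 1) p = 0 := by
    intro p
    rw [h1]
    unfold FC76.ev
    rw [map_zero]
  simp_rw [h2]
  simp

theorem SIN_nsq (h : Frame p b c) (a d : ℂ) : nsq (a • b + d • c) = Complex.normSq a + Complex.normSq d := by
  have e : ∀ x : V, ((nsq x : ℝ) : ℂ) = ∑ j, x j * conj (x j) := by
    intro x
    unfold nsq
    push_cast
    exact Finset.sum_congr rfl fun j _ => (Complex.mul_conj _).symm
  have hb := e b
  have hc := e c
  rw [h.bb] at hb
  rw [h.cc] at hc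
  have hbc : ∑ j, b j * conj (c j) = 0 := h.bc
  have hcb : ∑ j, c j * conj (b j) = 0 := by
    have h1 := congrArg conj hbc
    rw [map_sum, map_zero] at h1
    rw [← h1]
    exact Finset.sum_congr rfl fun j _ => by rw [map_mul, Complex.conj_conj]; ring
  have e2 : ((nsq (a • b + d • c) : ℝ) : ℂ) = ((Complex.normSq a + Complex.normSq d : ℝ) : ℂ) := by
    rw [e]
    rw [Complex.ofReal_add, ← Complex.mul_conj, ← Complex.mul_conj]
    rw [Fin.sum_univ_three] at hb hc hbc hcb ⊢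
    simp only [Pi.add_apply, Pi.smul_apply, smul_eq_mul, map_add, map_mul]
    rw [Complex.ofReal_one] at hb hc
    linear_combination (-(a * conj a)) * hb + (-(d * conj d)) * hc + (a * conj d) * hbc + (d * conj a) * hcb
  exact_mod_cast e2

theorem SIN_scone (h : SChart 𝓕 μ p b c ρ M) {q : ℂ × ℂ} {s : ℝ} (hs : 0 < s) {t : ℂ} (ht : t ≠ 0) :
    scone p b c (Metric.ball q s) ⊆ {y' | tau (t • chi p b c q) y' < (2 * s) ^ 2} := by
  rintro y ⟨-, q', hq', t', ht', rfl⟩
  show tau (t • chi p b c q) (t' • chi p b c q') < (2 * s) ^ 2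
  rw [tau_smul t t' ht ht']
  refine (h.frame.tau_chi_le q q').trans_lt ?_
  have h1 : ‖q' - q‖ < s := by rw [← dist_eq_norm]; exact hq'
  have h2 : chi p b c q' - chi p b c q = (q' - q).1 • b + (q' - q).2 • c := by
    unfold chi
    rw [Prod.fst_sub, Prod.snd_sub, sub_smul, sub_smul]
    abel
  have h3 : nsq ((q' - q).1 • b + (q' - q).2 • c) = FC76.nsq (q' - q) := by
    rw [SIN_nsq h.frame]
    unfold FC76.nsq
    rw [Complex.normSq_eq_norm_sq, Complex.normSq_eq_norm_sq]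
  rw [h2, h3]
  have h4 := (FC76.norm_sq_le_nsq (q' - q)).2
  have h5 : ‖q' - q‖ ^ 2 < s ^ 2 := by
    have := norm_nonneg (q' - q)
    nlinarith
  nlinarith

theorem SIN_unit (h : SChart 𝓕 μ p b c ρ M) {q : ℂ × ℂ} (hq : ‖q‖ ≤ ρ) (hq0 : q ≠ 0) :
    ∃ t : ℂ, t ≠ 0 ∧ nsq (t • chi p b c q) = 1 ∧ 𝓕.alpha (t • chi p b c q) ≠ 0 := by
  have h1 := nsq_pos (h.frame.chi_ne q)
  have h2 := Real.sqrt_pos.2 h1
  obtain ⟨t, ht⟩ : ∃ t : ℂ, t = (((Real.sqrt (nsq (chi p b c q)))⁻¹ : ℝ) : ℂ) := ⟨_, rfl⟩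
  have ht0 : t ≠ 0 := by
    rw [ht, Ne, Complex.ofReal_eq_zero]
    exact (inv_pos.2 h2).ne'
  refine ⟨t, ht0, ?_, ?_⟩
  · rw [nsq_smul, ht, Complex.normSq_ofReal, ← mul_inv, Real.mul_self_sqrt h1.le, inv_mul_cancel₀ h1.ne']
  · rw [alpha_smul]
    have h3 := h.reg q (mem_closedBall_zero_iff.2 hq) hq0
    intro h4
    rcases smul_eq_zero.1 h4 with h5 | h5
    · exact pow_ne_zero _ ht0 h5
    · exact h3 h5

theorem SChart.sin_small [IsFiniteMeasure μ] (h : SChart 𝓕 μ p b c ρ M)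
    (hs0 : μ {x | 𝓕.alpha x = 0} = 0) (hL : 𝓕.LelZero μ) (q : ℂ × ℂ)
    (hq : q ∈ Metric.ball (0 : ℂ × ℂ) ρ) (hq0 : q ≠ 0) (ε : ℝ) (hε : 0 < ε) :
    ∀ᶠ s in nhdsWithin (0 : ℝ) (Set.Ioi 0), M (Metric.ball q s) ≤ ENNReal.ofReal (ε * s ^ 2) := by
  have hqρ : ‖q‖ < ρ := mem_ball_zero_iff.1 hq
  obtain ⟨t, ht0, hu, hal⟩ := SIN_unit h hqρ.le hq0
  have hlim := hL _ hu hal
  obtain ⟨s0, hs0def⟩ : ∃ s0 : ℝ, s0 = min ((ρ - ‖q‖) / 2) (‖q‖ / 2) := ⟨_, rfl⟩
  have hqn : 0 < ‖q‖ := norm_pos_iff.2 hq0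
  have hs0p : 0 < s0 := by rw [hs0def]; exact lt_min (by linarith) (by linarith)
  have hs01 : s0 ≤ (ρ - ‖q‖) / 2 := by rw [hs0def]; exact min_le_left _ _
  have hs02 : s0 ≤ ‖q‖ / 2 := by rw [hs0def]; exact min_le_right _ _
  have hin : ∀ q' ∈ Metric.closedBall q s0, ‖q'‖ < ρ ∧ q' ≠ 0 := by
    intro q' hq'
    have h1 : ‖q' - q‖ ≤ s0 := by rw [← dist_eq_norm]; exact hq'
    constructor
    · have h2 : ‖q'‖ ≤ ‖q' - q‖ + ‖q‖ := by
        have := norm_add_le (q' - q) q
        rwa [sub_add_cancel] at this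
      linarith
    · rintro rfl
      rw [zero_sub, norm_neg] at h1
      linarith
  obtain ⟨a, ha, hlow⟩ := SIN_low h (isCompact_closedBall q s0) (fun q' hq' =>
    ⟨(hin q' hq').1.le, (hin q' hq').2⟩)
  have hεa : 0 < ε * a / 4 := by positivity
  have hev1 : ∀ᶠ s in nhdsWithin (0 : ℝ) (Set.Ioi 0),
      (μ {y' | tau (t • chi p b c q) y' < s ^ 2}).toReal / s ^ 2 < ε * a / 4 :=
    hlim.eventually (gt_mem_nhds hεa)
  have htwo : Filter.Tendsto (fun s : ℝ => 2 * s) (nhdsWithin (0 : ℝ) (Set.Ioi 0))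
      (nhdsWithin (0 : ℝ) (Set.Ioi 0)) := by
    rw [tendsto_nhdsWithin_iff]
    constructor
    · have h1 : Continuous (fun s : ℝ => 2 * s) := continuous_const.mul continuous_id
      have h2 := h1.tendsto 0
      rw [mul_zero] at h2
      exact h2.mono_left nhdsWithin_le_nhds
    · filter_upwards [self_mem_nhdsWithin] with s hs
      have hs' : 0 < s := hs
      show 0 < 2 * s
      positivity
  have hev2 := htwo.eventually hev1
  have hev3 : ∀ᶠ s in nhdsWithin (0 : ℝ) (Set.Ioi 0), s < s0 :=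
    (eventually_lt_nhds hs0p).filter_mono nhdsWithin_le_nhds
  filter_upwards [hev2, hev3, self_mem_nhdsWithin] with s h1 h2 h3
  have h3' : 0 < s := h3
  have hsub : Metric.ball q s ⊆ Metric.closedBall q s0 :=
    (Metric.ball_subset_closedBall).trans (Metric.closedBall_subset_closedBall h2.le)
  have h4 := SIN_mass h hs0 (E := Metric.ball q s) Metric.isOpen_ball.measurableSet
    (fun q' hq' => mem_ball_zero_iff.2 (hin q' (hsub hq')).1) (fun q' hq' => hlow q' (hsub hq'))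
  have h5 : μ (scone p b c (Metric.ball q s)) ≤ μ {y' | tau (t • chi p b c q) y' < (2 * s) ^ 2} :=
    measure_mono (SIN_scone h h3' ht0)
  have h6 : μ {y' | tau (t • chi p b c q) y' < (2 * s) ^ 2} ≤ ENNReal.ofReal (a * (ε * s ^ 2)) := by
    rw [← ENNReal.ofReal_toReal (measure_ne_top μ {y' | tau (t • chi p b c q) y' < (2 * s) ^ 2})]
    apply ENNReal.ofReal_le_ofReal
    rw [div_lt_iff₀ (by positivity)] at h1
    linarith
  have h7 : ENNReal.ofReal a * M (Metric.ball q s) ≤ ENNReal.ofReal a * ENNReal.ofReal (ε * s ^ 2) := by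
    rw [← ENNReal.ofReal_mul ha.le]
    exact (h4.trans h5).trans h6
  exact (ENNReal.mul_le_mul_iff_right (by rw [Ne, ENNReal.ofReal_eq_zero, not_le]; exact ha)
    ENNReal.ofReal_ne_top).1 h7

end Pool.Agent.H24.CU

end S_H24_CU_SIN

section S_H24_CU_SVA

/-!
# Row SVA (pull back of (1,0)-forms of the chart to `C^3`)

`ℓ0 y = herm y p`, `ℓ1 y = herm y b`, `ℓ2 y = herm y c` (complex linear), `π y = (ℓ1 y/ℓ0 y, ℓ2 y/ℓ0 y)`.  `pbf` is the pull back by `π` of the form
`f dq_1 + g dq_2` (`dℓ1 = ∑ conj(b_j) dx_j` etc.); it is `0` where `ℓ0 = 0` (division by zero).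
PROOFS.  `pbf_isCov`: on the open set `{ℓ0 ≠ 0}` it is smooth.  Let `‖q‖ <= R` on the supports.  If `ℓ0 y₀ = 0`, `y₀ ≠ 0`: then
`|ℓ1 y₀|^2 + |ℓ2 y₀|^2 = nsq y₀ > 0` (`Frame.expand`), so `‖π y‖ > R` for all `y` near `y₀` with `ℓ0 y ≠ 0`: `pbf = 0` near `y₀` (`pbf_zero`).
`hom`: `π (l y) = π y`, the bracket scales by `l`, the denominator by `l^2`.  `kill`: `∑_j y_j (ℓ0 y conj(b_j) - ℓ1 y conj(p_j)) = ℓ0 ℓ1 - ℓ1 ℓ0 = 0`.
`wt_db`: for `DC.IsCov ζ`: differentiate `ζ (t y) = t⁻¹ ζ y` in `y`: `dzb k ζ_j (t y) = t⁻¹ (conj t)⁻¹ dzb k ζ_j (y)`; `vec (t y) = t^deg vec y`.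
`pbf_pr`: at `y = chi q`.  Since `vec_j` is a polynomial, `∑_jk dzb_k ζ_j vec_j conj(vec_k) = ∑_k conj(vec_k) dzb_k H`, `H(y) = ∑_j ζ_j(y) vec_j(y)`; near `y = chi q`, writing
`y = t • chi (π y)`, `t = ℓ0 y`: `vec y = t^deg (c₀ chi + A b + B c)` (`Frame.vec_chi` at `π y`), `∑_j ζ_j b_j = f(π y)/t`, `∑ ζ_j c_j = g(π y)/t`, `∑ ζ_j y_j = 0`, so
`H(y) = t^deg/t (A(π y) f(π y) + B(π y) g(π y))`.  The factor `(ℓ0 y)^deg/(ℓ0 y)` is holomorphic, so at `chi q` (`t = 1`)
`∑_k conj(vec_k) dzb_k H = dWb (A f + B g) q (Dπ (vec)) = A dWb f q Z + B dWb g q Z` (`A, B` holomorphic; `π` holomorphic with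
`Dπ (vec (chi q)) = Z q`: `Dπ` at `chi q` kills `chi q`, maps `b` to `(1,0)`, `c` to `(0,1)`; the operator `∑_k conj(v_k) dzb_k` is `(D_v + i D_{iv})/2`).
`continuous_db`: `y ↦ ∑∑ db ζ ..` is continuous on `{0}ᶜ`.
-/

namespace Pool.Agent.H24.CU

open MvPolynomial
open scoped ComplexConjugate ContDiff

/-- The chart map. -/
noncomputable def pim (p b c : V) (y : V) : ℂ × ℂ := (herm y b / herm y p, herm y c / herm y p)

/-- The pull back of `f dq_1 + g dq_2`. -/
noncomputable def pbf (p b c : V) (f g : ℂ × ℂ → ℂ) (y : V) : V := fun j =>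
  (f (pim p b c y) * (herm y p * conj (b j) - herm y b * conj (p j)) +
    g (pim p b c y) * (herm y p * conj (c j) - herm y c * conj (p j))) / (herm y p) ^ 2

/-- The pairing of `∂̄ζ` with the vector field. -/
noncomputable def Foliation.pdb (𝓕 : Foliation) (ζ : V → V) (y : V) : ℂ :=
  ∑ j, ∑ k, Pool.Agent.H85.DC.db ζ y j k * 𝓕.vec y j * conj (𝓕.vec y k)

variable {p b c : V}

/-- The operator `∑_k conj(v_k) ∂/∂conj(x_k)`. -/
noncomputable def SVA_wb (g : V → ℂ) (y v : V) : ℂ :=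
  (fderiv ℝ g y v + Complex.I * fderiv ℝ g y (Complex.I • v)) / 2

private theorem SVA_lin (L : V →L[ℝ] ℂ) (v : V) (z : ℂ) :
    L (z • v) = (z.re : ℂ) * L v + (z.im : ℂ) * L (Complex.I • v) := by
  have h : z • v = z.re • v + z.im • (Complex.I • v) := by
    funext j
    show z * v j = z.re • v j + z.im • (Complex.I * v j)
    rw [Complex.real_smul, Complex.real_smul]
    conv_lhs => rw [← Complex.re_add_im z]
    ring
  rw [h, map_add, map_smul, map_smul, Complex.real_smul, Complex.real_smul]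

private theorem SVA_smul (g : V → ℂ) (y v : V) (z : ℂ) :
    SVA_wb g y (z • v) = conj z * SVA_wb g y v := by
  have e1 : Complex.I • (z • v) = z • (Complex.I • v) := smul_comm _ _ _
  have e2 : Complex.I • (Complex.I • v) = -v := by
    rw [smul_smul, Complex.I_mul_I, neg_one_smul]
  have e3 : conj z = (z.re : ℂ) - (z.im : ℂ) * Complex.I := by
    apply Complex.ext
    · simp
    · simp
  unfold SVA_wb
  rw [e1, SVA_lin _ v z, SVA_lin _ (Complex.I • v) z, e2, map_neg, e3]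
  linear_combination ((1 : ℂ) / 2 * (z.im : ℂ) * fderiv ℝ g y (Complex.I • v)) * Complex.I_mul_I

private theorem SVA_add (g : V → ℂ) (y v w : V) :
    SVA_wb g y (v + w) = SVA_wb g y v + SVA_wb g y w := by
  unfold SVA_wb
  rw [smul_add, map_add, map_add]
  ring

private theorem SVA_dzb (g : V → ℂ) (y : V) (k : Fin 3) :
    Pool.Agent.H85.DC.dzb k g y = SVA_wb g y (Pi.single k 1) := by
  have h : Complex.I • (Pi.single k 1 : V) = Pi.single k Complex.I := by
    rw [← Pi.single_smul, smul_eq_mul, mul_one]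
  unfold Pool.Agent.H85.DC.dzb SVA_wb
  rw [h]

private theorem SVA_sum (g : V → ℂ) (y v : V) :
    ∑ k, Pool.Agent.H85.DC.dzb k g y * conj (v k) = SVA_wb g y v := by
  have h : v = v 0 • (Pi.single 0 1 : V) + v 1 • (Pi.single 1 1 : V) +
      v 2 • (Pi.single 2 1 : V) := by
    funext j
    fin_cases j <;> simp
  conv_rhs => rw [h]
  rw [SVA_add, SVA_add, SVA_smul, SVA_smul, SVA_smul, Fin.sum_univ_three, SVA_dzb, SVA_dzb,
    SVA_dzb]
  ring

private theorem SVA_pdb (𝓕 : Foliation) (ζ : V → V) (y : V) :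
    𝓕.pdb ζ y = ∑ j, 𝓕.vec y j * SVA_wb (fun z => ζ z j) y (𝓕.vec y) := by
  unfold Foliation.pdb
  refine Finset.sum_congr rfl fun j _ => ?_
  rw [← SVA_sum, Finset.mul_sum]
  refine Finset.sum_congr rfl fun k _ => ?_
  show Pool.Agent.H85.DC.dzb k (fun z => ζ z j) y * 𝓕.vec y j * conj (𝓕.vec y k) =
    𝓕.vec y j * (Pool.Agent.H85.DC.dzb k (fun z => ζ z j) y * conj (𝓕.vec y k))
  ring

/-- The complex linear form `y ↦ herm y w`. -/
noncomputable def SVA_L (w : V) : V →L[ℂ] ℂ :=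
  ∑ j, conj (w j) • (ContinuousLinearMap.proj j : V →L[ℂ] ℂ)

private theorem SVA_L_apply (w y : V) : SVA_L w y = herm y w := by
  unfold SVA_L herm
  rw [sum_apply]
  refine Finset.sum_congr rfl fun j _ => ?_
  show conj (w j) * y j = y j * conj (w j)
  ring

private theorem SVA_hasFDerivAt (w y : V) : HasFDerivAt (fun z => herm z w) (SVA_L w) y := by
  have h := (SVA_L w).hasFDerivAt (x := y)
  exact h.congr_of_eventuallyEq (Filter.Eventually.of_forall fun z => (SVA_L_apply w z).symm)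

private theorem SVA_smooth (w : V) : ContDiff ℝ ∞ (fun z : V => herm z w) := by
  have h : (fun z : V => herm z w) = fun z => SVA_L w z := by
    funext z
    exact (SVA_L_apply w z).symm
  rw [h]
  exact ((SVA_L w).contDiff).restrict_scalars ℝ

private theorem SVA_herm_smul (l : ℂ) (x w : V) : herm (l • x) w = l * herm x w := by
  rw [← SVA_L_apply, ← SVA_L_apply, map_smul, smul_eq_mul]

theorem pbf_zero (h : Frame p b c) {f g : ℂ × ℂ → ℂ} (hf : HasCompactSupport f)
    (hg : HasCompactSupport g) (y : V) (hy : y ≠ 0) (hp : herm y p = 0) :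
    ∀ᶠ y' in nhds y, pbf p b c f g y' = 0 := by
  obtain ⟨R, hR⟩ := ((hf.union hg).isBounded).subset_closedBall (0 : ℂ × ℂ)
  have hfR : ∀ q, |R| < ‖q‖ → f q = 0 ∧ g q = 0 := by
    intro q hq
    have h1 : ∀ s : Set (ℂ × ℂ), s ⊆ tsupport f ∪ tsupport g → q ∉ s := by
      intro s hs hqs
      have h2 := hR (hs hqs)
      rw [mem_closedBall_zero_iff] at h2
      linarith [le_abs_self R]
    exact ⟨image_eq_zero_of_notMem_tsupport (h1 _ Set.subset_union_left),
      image_eq_zero_of_notMem_tsupport (h1 _ Set.subset_union_right)⟩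
  have hpos : 0 < max ‖herm y b‖ ‖herm y c‖ := by
    by_contra hcon
    rw [not_lt] at hcon
    have h1 : ‖herm y b‖ = 0 := le_antisymm ((le_max_left _ _).trans hcon) (norm_nonneg _)
    have h2 : ‖herm y c‖ = 0 := le_antisymm ((le_max_right _ _).trans hcon) (norm_nonneg _)
    apply hy
    rw [h.expand y, hp, norm_eq_zero.1 h1, norm_eq_zero.1 h2]
    simp
  have hc : ∀ w, Continuous (fun z : V => herm z w) := fun w => (SVA_smooth w).continuous
  have hev : ∀ᶠ y' in nhds y, (|R| + 1) * ‖herm y' p‖ < max ‖herm y' b‖ ‖herm y' c‖ := by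
    have h1 : Continuous (fun y' : V => (|R| + 1) * ‖herm y' p‖) :=
      continuous_const.mul (hc p).norm
    have h2 : Continuous (fun y' : V => max ‖herm y' b‖ ‖herm y' c‖) :=
      (hc b).norm.max (hc c).norm
    refine h1.continuousAt.eventually_lt h2.continuousAt ?_
    show (|R| + 1) * ‖herm y p‖ < max ‖herm y b‖ ‖herm y c‖
    rw [hp, norm_zero, mul_zero]
    exact hpos
  filter_upwards [hev] with y' hy'
  funext j
  show (f (pim p b c y') * (herm y' p * conj (b j) - herm y' b * conj (p j)) +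
    g (pim p b c y') * (herm y' p * conj (c j) - herm y' c * conj (p j))) / (herm y' p) ^ 2 = 0
  by_cases h0 : herm y' p = 0
  · rw [h0]
    simp
  · have hn : 0 < ‖herm y' p‖ := norm_pos_iff.2 h0
    have h1 : |R| < ‖pim p b c y'‖ := by
      have h2 : ‖pim p b c y'‖ = max (‖herm y' b‖ / ‖herm y' p‖) (‖herm y' c‖ / ‖herm y' p‖) := by
        unfold pim
        rw [Prod.norm_def]
        show max ‖herm y' b / herm y' p‖ ‖herm y' c / herm y' p‖ = _
        rw [norm_div, norm_div]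
      rw [h2]
      rcases lt_max_iff.1 hy' with h3 | h3
      · apply lt_max_of_lt_left
        rw [lt_div_iff₀ hn]
        nlinarith [abs_nonneg R]
      · apply lt_max_of_lt_right
        rw [lt_div_iff₀ hn]
        nlinarith [abs_nonneg R]
    obtain ⟨e1, e2⟩ := hfR _ h1
    rw [e1, e2]
    simp

private theorem SVA_pim_contDiffAt (y : V) (hp : herm y p ≠ 0) :
    ContDiffAt ℝ ∞ (pim p b c) y := by
  have h0 : ContDiffAt ℝ ∞ (fun z : V => (herm z p)⁻¹) y := (SVA_smooth p).contDiffAt.inv hp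
  have h1 := (((SVA_smooth b).contDiffAt (x := y)).mul h0).prodMk
    (((SVA_smooth c).contDiffAt (x := y)).mul h0)
  refine h1.congr_of_eventuallyEq (Filter.Eventually.of_forall fun z => ?_)
  show (herm z b / herm z p, herm z c / herm z p) =
    (herm z b * (herm z p)⁻¹, herm z c * (herm z p)⁻¹)
  rw [div_eq_mul_inv, div_eq_mul_inv]

theorem pbf_isCov (h : Frame p b c) {f g : ℂ × ℂ → ℂ} (hf : ContDiff ℝ ∞ f)
    (hg : ContDiff ℝ ∞ g) (hf2 : HasCompactSupport f) (hg2 : HasCompactSupport g) :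
    Pool.Agent.H85.DC.IsCov (pbf p b c f g) := by
  refine ⟨?_, ?_, ?_⟩
  · intro y hy
    apply ContDiffAt.contDiffWithinAt
    by_cases hp : herm y p = 0
    · exact contDiffAt_const.congr_of_eventuallyEq (pbf_zero h hf2 hg2 y hy hp)
    · rw [contDiffAt_pi]
      intro j
      have h1 := SVA_pim_contDiffAt (b := b) (c := c) y hp
      have h2 : ContDiffAt ℝ ∞ (fun y => f (pim p b c y)) y := hf.contDiffAt.comp y h1
      have h3 : ContDiffAt ℝ ∞ (fun y => g (pim p b c y)) y := hg.contDiffAt.comp y h1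
      have sp := (SVA_smooth p).contDiffAt (x := y)
      have sb := (SVA_smooth b).contDiffAt (x := y)
      have sc := (SVA_smooth c).contDiffAt (x := y)
      have h4 := ((h2.mul ((sp.mul (contDiffAt_const (c := conj (b j)))).sub
        (sb.mul (contDiffAt_const (c := conj (p j)))))).add
        (h3.mul ((sp.mul (contDiffAt_const (c := conj (c j)))).sub
        (sc.mul (contDiffAt_const (c := conj (p j))))))).mul ((sp.pow 2).inv (pow_ne_zero 2 hp))
      refine h4.congr_of_eventuallyEq (Filter.Eventually.of_forall fun z => ?_)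
      show (f (pim p b c z) * (herm z p * conj (b j) - herm z b * conj (p j)) +
        g (pim p b c z) * (herm z p * conj (c j) - herm z c * conj (p j))) / (herm z p) ^ 2 = _
      rw [div_eq_mul_inv]
      rfl
  · intro l x hl
    have e1 : pim p b c (l • x) = pim p b c x := by
      unfold pim
      rw [SVA_herm_smul, SVA_herm_smul, SVA_herm_smul, mul_div_mul_left _ _ hl,
        mul_div_mul_left _ _ hl]
    funext j
    show (f (pim p b c (l • x)) * (herm (l • x) p * conj (b j) - herm (l • x) b * conj (p j)) +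
      g (pim p b c (l • x)) * (herm (l • x) p * conj (c j) - herm (l • x) c * conj (p j))) /
        (herm (l • x) p) ^ 2 =
      l⁻¹ * ((f (pim p b c x) * (herm x p * conj (b j) - herm x b * conj (p j)) +
      g (pim p b c x) * (herm x p * conj (c j) - herm x c * conj (p j))) / (herm x p) ^ 2)
    rw [e1, SVA_herm_smul, SVA_herm_smul, SVA_herm_smul, mul_pow, div_eq_mul_inv, div_eq_mul_inv,
      mul_inv]
    have e2 : l * (l ^ 2)⁻¹ = l⁻¹ := by
      field_simp
    rw [← e2]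
    ring
  · intro x _
    have e : ∀ (F G ℓ0 ℓ1 ℓ2 : ℂ), ∑ j, x j * ((F * (ℓ0 * conj (b j) - ℓ1 * conj (p j)) +
        G * (ℓ0 * conj (c j) - ℓ2 * conj (p j))) / ℓ0 ^ 2) =
        (F * (ℓ0 * herm x b - ℓ1 * herm x p) + G * (ℓ0 * herm x c - ℓ2 * herm x p)) / ℓ0 ^ 2 := by
      intro F G ℓ0 ℓ1 ℓ2
      unfold herm
      rw [Fin.sum_univ_three, Fin.sum_univ_three, Fin.sum_univ_three, Fin.sum_univ_three]
      ring
    have e2 := e (f (pim p b c x)) (g (pim p b c x)) (herm x p) (herm x b) (herm x c)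
    have e3 : ∑ j, x j * pbf p b c f g x j = (f (pim p b c x) * (herm x p * herm x b -
        herm x b * herm x p) + g (pim p b c x) * (herm x p * herm x c - herm x c * herm x p)) /
        (herm x p) ^ 2 := e2
    rw [e3]
    have e4 : f (pim p b c x) * (herm x p * herm x b - herm x b * herm x p) +
        g (pim p b c x) * (herm x p * herm x c - herm x c * herm x p) = 0 := by ring
    rw [e4, zero_div]

theorem wt_pdb (𝓕 : Foliation) (ζ : V → V) (hζ : Pool.Agent.H85.DC.IsCov ζ) : 𝓕.Wt (𝓕.pdb ζ) := by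
  intro t y ht hy
  have hty : t • y ≠ 0 := smul_ne_zero ht hy
  have hd : ∀ (z : V) (j : Fin 3), z ≠ 0 → DifferentiableAt ℝ (fun w => ζ w j) z := by
    intro z j hz
    have h1 := (hζ.smooth z hz).contDiffAt (isOpen_compl_singleton.mem_nhds hz)
    exact (contDiffAt_pi.1 h1 j).differentiableAt (by simp)
  have key : ∀ (j : Fin 3) (v : V), SVA_wb (fun w => ζ w j) (t • y) v =
      ((Complex.normSq t : ℝ) : ℂ)⁻¹ * SVA_wb (fun w => ζ w j) y v := by
    intro j v
    have h1 : ∀ v : V, fderiv ℝ (fun w => ζ w j) (t • y) (t • v) =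
        t⁻¹ * fderiv ℝ (fun w => ζ w j) y v := by
      intro v
      obtain ⟨Lt, hLt⟩ : ∃ Lt : V →L[ℝ] V, ∀ z, Lt z = t • z :=
        ⟨(t • ContinuousLinearMap.id ℂ V).restrictScalars ℝ, fun z => rfl⟩
      have h2 : HasFDerivAt (fun w => ζ (t • w) j)
          ((fderiv ℝ (fun w => ζ w j) (t • y)).comp Lt) y := by
        have h3 : HasFDerivAt (fun w => ζ w j) (fderiv ℝ (fun w => ζ w j) (t • y)) (Lt y) := by
          rw [hLt]
          exact (hd (t • y) j hty).hasFDerivAt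
        have h4 := h3.comp y Lt.hasFDerivAt
        refine h4.congr_of_eventuallyEq (Filter.Eventually.of_forall fun z => ?_)
        show ζ (t • z) j = ζ (Lt z) j
        rw [hLt]
      have h5 : HasFDerivAt (fun w => ζ (t • w) j) (t⁻¹ • fderiv ℝ (fun w => ζ w j) y) y := by
        have h6 := (hd y j hy).hasFDerivAt.const_smul t⁻¹
        refine h6.congr_of_eventuallyEq (Filter.Eventually.of_forall fun z => ?_)
        show ζ (t • z) j = t⁻¹ • ζ z j
        rw [hζ.hom t z ht]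
        rfl
      have h6 := congrArg (fun L : V →L[ℝ] ℂ => L v) (h2.unique h5)
      have h7 : fderiv ℝ (fun w => ζ w j) (t • y) (Lt v) =
        t⁻¹ * fderiv ℝ (fun w => ζ w j) y v := h6
      rw [hLt] at h7
      exact h7
    have h8 : SVA_wb (fun w => ζ w j) (t • y) (t • v) = t⁻¹ * SVA_wb (fun w => ζ w j) y v := by
      unfold SVA_wb
      rw [smul_comm Complex.I t v, h1, h1]
      ring
    rw [SVA_smul] at h8
    have hct : conj t ≠ 0 := by
      rw [Ne, map_eq_zero]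
      exact ht
    have hns : ((Complex.normSq t : ℝ) : ℂ) = t * conj t := (Complex.mul_conj t).symm
    rw [hns, mul_inv]
    calc SVA_wb (fun w => ζ w j) (t • y) v =
        (conj t)⁻¹ * (conj t * SVA_wb (fun w => ζ w j) (t • y) v) := by
          rw [← mul_assoc, inv_mul_cancel₀ hct, one_mul]
      _ = _ := by
          rw [h8]
          ring
  rw [SVA_pdb, SVA_pdb, Finset.mul_sum]
  refine Finset.sum_congr rfl fun j _ => ?_
  rw [key, vec_smul, SVA_smul]
  show t ^ 𝓕.deg * 𝓕.vec y j * _ = _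
  have hns : ((Complex.normSq t : ℝ) : ℂ) = t * conj t := (Complex.mul_conj t).symm
  rw [Complex.ofReal_div, Complex.ofReal_pow, map_pow]
  have e : ((Complex.normSq t : ℝ) : ℂ) ^ 𝓕.deg = t ^ 𝓕.deg * conj t ^ 𝓕.deg := by
    rw [hns, mul_pow]
  rw [e]
  ring

theorem continuousOn_pdb (𝓕 : Foliation) (ζ : V → V) (hζ : Pool.Agent.H85.DC.IsCov ζ) :
    ContinuousOn (𝓕.pdb ζ) {0}ᶜ := by
  have hvec : ∀ j, Continuous (fun y => 𝓕.vec y j) := fun j =>
    MvPolynomial.continuous_eval (𝓕.F j)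
  have hfd : ∀ j, ContinuousOn (fun y => fderiv ℝ (fun w => ζ w j) y) {0}ᶜ := by
    intro j
    have h1 : ContDiffOn ℝ ∞ (fun w => ζ w j) {0}ᶜ := contDiffOn_pi.1 hζ.smooth j
    exact h1.continuousOn_fderiv_of_isOpen isOpen_compl_singleton (by simp)
  have hdzb : ∀ j k, ContinuousOn (fun y => Pool.Agent.H85.DC.db ζ y j k) {0}ᶜ := by
    intro j k
    have h1 : ContinuousOn (fun y => (fderiv ℝ (fun w => ζ w j) y (Pi.single k 1) +
        Complex.I * fderiv ℝ (fun w => ζ w j) y (Pi.single k Complex.I)) / 2) {0}ᶜ :=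
      (((hfd j).clm_apply continuousOn_const).add
        (continuousOn_const.mul ((hfd j).clm_apply continuousOn_const))).div_const 2
    exact h1
  refine continuousOn_finsetSum _ fun j _ => continuousOn_finsetSum _ fun k _ => ?_
  exact ((hdzb j k).mul (hvec j).continuousOn).mul
    (Complex.continuous_conj.comp (hvec k)).continuousOn

private theorem SVA_mul {f g : V → ℂ} {y : V} (hf : DifferentiableAt ℝ f y)
    (hg : DifferentiableAt ℝ g y) (v : V) :
    SVA_wb (fun q => f q * g q) y v = f y * SVA_wb g y v + g y * SVA_wb f y v := by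
  have h := (hf.hasFDerivAt.mul hg.hasFDerivAt).fderiv
  have h1 : ∀ w, fderiv ℝ (fun q => f q * g q) y w = f y * fderiv ℝ g y w + g y * fderiv ℝ f y w := by
    intro w
    have h2 := congrArg (fun L : V →L[ℝ] ℂ => L w) h
    exact h2
  unfold SVA_wb
  rw [h1, h1]
  ring

private theorem SVA_fadd {f g : V → ℂ} {y : V} (hf : DifferentiableAt ℝ f y)
    (hg : DifferentiableAt ℝ g y) (v : V) :
    SVA_wb (fun q => f q + g q) y v = SVA_wb f y v + SVA_wb g y v := by
  have h := (hf.hasFDerivAt.add hg.hasFDerivAt).fderiv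
  have h1 : ∀ w, fderiv ℝ (fun q => f q + g q) y w = fderiv ℝ f y w + fderiv ℝ g y w := by
    intro w
    have h2 := congrArg (fun L : V →L[ℝ] ℂ => L w) h
    exact h2
  unfold SVA_wb
  rw [h1, h1]
  ring

private theorem SVA_holo {F : V → ℂ} {y : V} (hF : DifferentiableAt ℂ F y) (v : V) :
    SVA_wb F y v = 0 := by
  have h1 : ∀ w, fderiv ℝ F y w = fderiv ℂ F y w := by
    intro w
    rw [hF.fderiv_restrictScalars ℝ]
    rfl
  unfold SVA_wb
  rw [h1, h1, map_smul, smul_eq_mul]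
  linear_combination ((fderiv ℂ F y v) / 2) * Complex.I_mul_I

private theorem SVA_comp {f : ℂ × ℂ → ℂ} {π : V → ℂ × ℂ} {y : V} {L : V →L[ℂ] ℂ × ℂ}
    (hf : DifferentiableAt ℝ f (π y)) (hπ : HasFDerivAt π L y) (v : V) :
    SVA_wb (fun z => f (π z)) y v = FC76.dWb f (π y) (L v) := by
  have h1 : ∀ w, fderiv ℝ (fun z => f (π z)) y w = fderiv ℝ f (π y) (L w) := by
    intro w
    have h2 := hf.hasFDerivAt.comp y (hπ.restrictScalars ℝ)
    have h3 := congrArg (fun L : V →L[ℝ] ℂ => L w) h2.fderiv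
    exact h3
  unfold SVA_wb FC76.dWb
  rw [h1, h1, map_smul]

/-- The derivative of the quotient of two linear forms. -/
private theorem SVA_quot (w y : V) (hp : herm y p ≠ 0) :
    HasFDerivAt (fun z => herm z w / herm z p)
      ((herm y p)⁻¹ • SVA_L w - (herm y w * ((herm y p) ^ 2)⁻¹) • SVA_L p) y := by
  have h1 := (hasDerivAt_inv hp).comp_hasFDerivAt y (SVA_hasFDerivAt p y)
  have h2 := (SVA_hasFDerivAt w y).mul h1
  have h3 : (fun z => herm z w / herm z p) = fun z => herm z w * ((fun x : ℂ => x⁻¹) ∘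
      (fun z => herm z p)) z := by
    funext z
    rw [div_eq_mul_inv]
    rfl
  rw [h3]
  refine h2.congr_fderiv ?_
  ext v
  show herm y w * (-(herm y p ^ 2)⁻¹ * SVA_L p v) + (herm y p)⁻¹ * SVA_L w v =
    (herm y p)⁻¹ * SVA_L w v - (herm y w * ((herm y p) ^ 2)⁻¹) * SVA_L p v
  ring

theorem pbf_pdb (h : Frame p b c) (𝓕 : Foliation) {f g : ℂ × ℂ → ℂ} (hf : ContDiff ℝ ∞ f)
    (hg : ContDiff ℝ ∞ g) (q : ℂ × ℂ) :
    𝓕.pdb (pbf p b c f g) (chi p b c q) =
      FC76.ev (resA 𝓕 p b c) q *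
        FC76.dWb f q (FC76.vf (resA 𝓕 p b c) (resB 𝓕 p b c) q) +
      FC76.ev (resB 𝓕 p b c) q *
        FC76.dWb g q (FC76.vf (resA 𝓕 p b c) (resB 𝓕 p b c) q) := by
  obtain ⟨hq0, hq1, hq2⟩ := h.herm_chi q
  have hq00 : herm (chi p b c q) p ≠ 0 := by
    rw [hq0]
    exact one_ne_zero
  -- products of the vector field with the frame
  have hlin : ∀ w, herm (𝓕.vec (chi p b c q)) w =
      FC76.ev (res0 𝓕 p b c) q * herm (chi p b c q) w +
        FC76.ev (resA 𝓕 p b c) q * herm b w + FC76.ev (resB 𝓕 p b c) q * herm c w := by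
    intro w
    rw [h.vec_chi, ← SVA_L_apply, map_add, map_add, map_smul, map_smul, map_smul, SVA_L_apply,
      SVA_L_apply, SVA_L_apply, smul_eq_mul, smul_eq_mul, smul_eq_mul]
  have hconj : ∀ x y : V, herm x y = conj (herm y x) := by
    intro x y
    unfold herm
    rw [map_sum]
    refine Finset.sum_congr rfl fun j _ => ?_
    rw [map_mul, Complex.conj_conj, mul_comm]
  have hself : ∀ x : V, herm x x = ((nsq x : ℝ) : ℂ) := by
    intro x
    unfold herm nsq
    rw [Complex.ofReal_sum]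
    exact Finset.sum_congr rfl fun j _ => Complex.mul_conj (x j)
  have hbp : herm b p = 0 := by rw [hconj, h.pb, map_zero]
  have hcp : herm c p = 0 := by rw [hconj, h.pc, map_zero]
  have hcb : herm c b = 0 := by rw [hconj, h.bc, map_zero]
  have hbb : herm b b = 1 := by rw [hself, h.bb, Complex.ofReal_one]
  have hcc : herm c c = 1 := by rw [hself, h.cc, Complex.ofReal_one]
  have v0 : herm (𝓕.vec (chi p b c q)) p = FC76.ev (res0 𝓕 p b c) q := by
    rw [hlin, hq0, hbp, hcp]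
    ring
  have v1 : herm (𝓕.vec (chi p b c q)) b = FC76.ev (res0 𝓕 p b c) q * q.1 +
      FC76.ev (resA 𝓕 p b c) q := by
    rw [hlin, hq1, hbb, hcb]
    ring
  have v2 : herm (𝓕.vec (chi p b c q)) c = FC76.ev (res0 𝓕 p b c) q * q.2 +
      FC76.ev (resB 𝓕 p b c) q := by
    rw [hlin, hq2, h.bc, hcc]
    ring
  have hπq : pim p b c (chi p b c q) = q := by
    unfold pim
    rw [hq0, hq1, hq2, div_one, div_one]
  have hπ := (SVA_quot (p := p) b (chi p b c q) hq00).prodMk
    (SVA_quot (p := p) c (chi p b c q) hq00)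
  have hπ' : HasFDerivAt (pim p b c) _ (chi p b c q) := hπ
  have hdir : (((herm (chi p b c q) p)⁻¹ • SVA_L b -
      (herm (chi p b c q) b * ((herm (chi p b c q) p) ^ 2)⁻¹) • SVA_L p).prod
      ((herm (chi p b c q) p)⁻¹ • SVA_L c -
      (herm (chi p b c q) c * ((herm (chi p b c q) p) ^ 2)⁻¹) • SVA_L p))
      (𝓕.vec (chi p b c q)) = FC76.vf (resA 𝓕 p b c) (resB 𝓕 p b c) q := by
    apply Prod.ext
    · show (herm (chi p b c q) p)⁻¹ * SVA_L b (𝓕.vec (chi p b c q)) -
        (herm (chi p b c q) b * ((herm (chi p b c q) p) ^ 2)⁻¹) * SVA_L p (𝓕.vec (chi p b c q)) =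
        FC76.ev (resA 𝓕 p b c) q
      rw [SVA_L_apply, SVA_L_apply, hq0, hq1, v0, v1]
      ring
    · show (herm (chi p b c q) p)⁻¹ * SVA_L c (𝓕.vec (chi p b c q)) -
        (herm (chi p b c q) c * ((herm (chi p b c q) p) ^ 2)⁻¹) * SVA_L p (𝓕.vec (chi p b c q)) =
        FC76.ev (resB 𝓕 p b c) q
      rw [SVA_L_apply, SVA_L_apply, hq0, hq2, v0, v2]
      ring
  have hcomp : ∀ F : ℂ × ℂ → ℂ, ContDiff ℝ ∞ F →
      SVA_wb (fun z => F (pim p b c z)) (chi p b c q) (𝓕.vec (chi p b c q)) =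
        FC76.dWb F q (FC76.vf (resA 𝓕 p b c) (resB 𝓕 p b c) q) := by
    intro F hF
    rw [SVA_comp (hF.differentiable (by simp) _) hπ', hπq, hdir]
  have hdF : ∀ F : ℂ × ℂ → ℂ, ContDiff ℝ ∞ F →
      DifferentiableAt ℝ (fun z => F (pim p b c z)) (chi p b c q) := by
    intro F hF
    exact (hF.differentiable (by simp) _).comp _
      ((hπ'.restrictScalars ℝ).differentiableAt)
  -- the holomorphic coefficients
  have hco : ∀ (w : V) (j : Fin 3), DifferentiableAt ℂ (fun z => (herm z p * conj (w j) -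
      herm z w * conj (p j)) / (herm z p) ^ 2) (chi p b c q) := by
    intro w j
    have d0 := (SVA_hasFDerivAt p (chi p b c q)).differentiableAt
    have d1 := (SVA_hasFDerivAt w (chi p b c q)).differentiableAt
    have d2 : DifferentiableAt ℂ (fun z => (herm z p) ^ 2) (chi p b c q) := d0.fun_pow 2
    have d3 : DifferentiableAt ℂ (fun z => herm z p * conj (w j) - herm z w * conj (p j))
        (chi p b c q) := (d0.mul_const _).fun_sub (d1.mul_const _)
    have d4 : (fun z => (herm z p) ^ 2) (chi p b c q) ≠ 0 := pow_ne_zero 2 hq00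
    have d5 : DifferentiableAt ℂ (fun z => (herm z p * conj (w j) - herm z w * conj (p j)) *
      ((herm z p) ^ 2)⁻¹) (chi p b c q) := d3.fun_mul (d2.fun_inv d4)
    exact d5
  have hterm : ∀ j, SVA_wb (fun z => pbf p b c f g z j) (chi p b c q) (𝓕.vec (chi p b c q)) =
      (conj (b j) - q.1 * conj (p j)) *
        FC76.dWb f q (FC76.vf (resA 𝓕 p b c) (resB 𝓕 p b c) q) +
      (conj (c j) - q.2 * conj (p j)) *
        FC76.dWb g q (FC76.vf (resA 𝓕 p b c) (resB 𝓕 p b c) q) := by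
    intro j
    have e : (fun z => pbf p b c f g z j) = fun z =>
        f (pim p b c z) * ((herm z p * conj (b j) - herm z b * conj (p j)) / (herm z p) ^ 2) +
        g (pim p b c z) * ((herm z p * conj (c j) - herm z c * conj (p j)) / (herm z p) ^ 2) := by
      funext z
      show (f (pim p b c z) * (herm z p * conj (b j) - herm z b * conj (p j)) +
        g (pim p b c z) * (herm z p * conj (c j) - herm z c * conj (p j))) / (herm z p) ^ 2 = _
      ring
    have dr := fun w => (hco w j).restrictScalars ℝ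
    rw [e, SVA_fadd ((hdF f hf).fun_mul (dr b)) ((hdF g hg).fun_mul (dr c)), SVA_mul (hdF f hf) (dr b),
      SVA_mul (hdF g hg) (dr c), SVA_holo (hco b j), SVA_holo (hco c j), hcomp f hf, hcomp g hg,
      hq0, hq1, hq2]
    ring
  rw [SVA_pdb]
  have e2 : ∀ j, 𝓕.vec (chi p b c q) j * SVA_wb (fun z => pbf p b c f g z j) (chi p b c q)
      (𝓕.vec (chi p b c q)) =
      (𝓕.vec (chi p b c q) j * conj (b j) - q.1 * (𝓕.vec (chi p b c q) j * conj (p j))) *
        FC76.dWb f q (FC76.vf (resA 𝓕 p b c) (resB 𝓕 p b c) q) +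
      (𝓕.vec (chi p b c q) j * conj (c j) - q.2 * (𝓕.vec (chi p b c q) j * conj (p j))) *
        FC76.dWb g q (FC76.vf (resA 𝓕 p b c) (resB 𝓕 p b c) q) := by
    intro j
    rw [hterm]
    ring
  rw [Finset.sum_congr rfl fun j _ => e2 j, Finset.sum_add_distrib, ← Finset.sum_mul,
    ← Finset.sum_mul, Finset.sum_sub_distrib, Finset.sum_sub_distrib, ← Finset.mul_sum,
    ← Finset.mul_sum]
  have e3 : ∀ w : V, ∑ j, 𝓕.vec (chi p b c q) j * conj (w j) = herm (𝓕.vec (chi p b c q)) w :=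
    fun w => rfl
  rw [e3, e3, e3, v0, v1, v2]
  ring

end Pool.Agent.H24.CU

end S_H24_CU_SVA

section S_H24_CU_SIV

/-!
# Row SIV (invariance of the chart measure of a closed current)

`Z = (A, B) = vf (resA) (resB)`, `n q = nsq (Z q)`, positive on `dom 1 ρ` (`reg`, `Frame.alpha_zero_iff`), `g` smooth with compact support in `dom 1 ρ`.
PROOF.  `f₁ = conj(g) conj(A)/n`, `f₂ = conj(g) conj(B)/n` (`0` where `g = 0`): smooth with compact support contained in `tsupport g`.
`ζ = pbf p b c f₁ f₂`, `pbf_isCov`.  `pbf_pdb`: `pdb ζ (chi q) = A dWb f₁ q Z + B dWb f₂ q Z = dWb (A f₁ + B f₂) q Z = dWb (conj g) q Z = conj (dW g q Z)`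
(`dWb` kills the holomorphic functions `A, B`: `dWb_mul`, `dW_holo`; `dW_conj`; outside `tsupport g` both sides are `0`).
`0 = ∫ DC.pr F (db ζ) dμ` (`CurClosed`) `= ∫ pdb ζ y / nsq (α y) dμ` (`DC.N (eta) = nsq (alpha)`).  `μ` is carried by the unit sphere, and for a unit vector `y` outside
`scone (ball 0 ρ)`: if `herm y p = 0` then `ζ = 0` near `y` (`pbf_zero`), `pdb ζ y = 0`; if `herm y p ≠ 0` then `y = t • chi q`, `q = pim y` not in the ball, so by `wt_pdb`
`pdb ζ y = (..) pdb ζ (chi q) = (..) conj (dW g q Z) = 0`.  Hence `0 = ∫_{scone (ball)} pdb ζ y/nsq (α y) dμ = ∫_ball pdb ζ (chi q) dM` (`SChart.int` with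
`Φ = pdb ζ` modified at `0`, measurable by `continuousOn_pdb`) `= ∫_ball conj (dW g q (Z q)) dM`; `integral_conj`; `M` is carried by the ball.
-/

namespace Pool.Agent.H24.CU

open MeasureTheory
open scoped ComplexConjugate ContDiff

variable {𝓕 : Foliation} {μ : Measure V} {p b c : V} {ρ : ℝ} {M : Measure (ℂ × ℂ)}

private theorem SIV_dWb_add {f g : ℂ × ℂ → ℂ} {q : ℂ × ℂ} (hf : DifferentiableAt ℝ f q)
    (hg : DifferentiableAt ℝ g q) (v : ℂ × ℂ) :
    FC76.dWb (fun q => f q + g q) q v = FC76.dWb f q v + FC76.dWb g q v := by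
  have h := (hf.hasFDerivAt.add hg.hasFDerivAt).fderiv
  have h1 : ∀ w, fderiv ℝ (fun q => f q + g q) q w = fderiv ℝ f q w + fderiv ℝ g q w := by
    intro w
    have h2 := congrArg (fun L : ℂ × ℂ →L[ℝ] ℂ => L w) h
    exact h2
  unfold FC76.dWb
  rw [h1, h1]
  ring

private theorem SIV_dW_zero {g : ℂ × ℂ → ℂ} {q : ℂ × ℂ} (hq : q ∉ tsupport g) (v : ℂ × ℂ) :
    FC76.dW g q v = 0 := by
  have h : g =ᶠ[nhds q] fun _ => 0 := by
    have h1 : (tsupport g)ᶜ ∈ nhds q := (isClosed_tsupport g).isOpen_compl.mem_nhds hq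
    filter_upwards [h1] with x hx
    exact image_eq_zero_of_notMem_tsupport hx
  unfold FC76.dW
  rw [h.fderiv_eq]
  simp

/-- smoothness of `conj g * A / n` -/
private theorem SIV_smooth {g A n : ℂ × ℂ → ℂ} (hg : ContDiff ℝ ∞ g) (hA : ContDiff ℝ ∞ A)
    (hn : ContDiff ℝ ∞ n) (h0 : ∀ q ∈ tsupport g, n q ≠ 0) :
    ContDiff ℝ ∞ (fun q => conj (g q) * conj (A q) / n q) := by
  have hcg : ContDiff ℝ ∞ (fun q => conj (g q)) := Complex.conjCLE.contDiff.comp hg
  have hcA : ContDiff ℝ ∞ (fun q => conj (A q)) := Complex.conjCLE.contDiff.comp hA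
  rw [contDiff_iff_contDiffAt]
  intro q
  by_cases hq : q ∈ tsupport g
  · have h1 := (hcg.mul hcA).contDiffAt.mul (hn.contDiffAt.inv (h0 q hq))
    refine h1.congr_of_eventuallyEq ?_
    filter_upwards with x
    exact div_eq_mul_inv _ _
  · have h : (fun q => conj (g q) * conj (A q) / n q) =ᶠ[nhds q] fun _ => 0 := by
      have h1 : (tsupport g)ᶜ ∈ nhds q := (isClosed_tsupport g).isOpen_compl.mem_nhds hq
      filter_upwards [h1] with x hx
      rw [image_eq_zero_of_notMem_tsupport hx]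
      simp
    exact contDiffAt_const.congr_of_eventuallyEq h

private theorem SIV_supp {g A n : ℂ × ℂ → ℂ} (hg : HasCompactSupport g) :
    HasCompactSupport (fun q => conj (g q) * conj (A q) / n q) := by
  apply hg.mono
  intro q hq
  rw [Function.mem_support] at hq ⊢
  intro h
  apply hq
  rw [h]
  simp

private theorem SIV_pdb (h : Frame p b c) (g : ℂ × ℂ → ℂ) (hg : ContDiff ℝ ∞ g)
    (n : ℂ × ℂ → ℂ) (hn : ContDiff ℝ ∞ n)
    (hn2 : ∀ q, n q = FC76.ev (resA 𝓕 p b c) q * conj (FC76.ev (resA 𝓕 p b c) q) +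
      FC76.ev (resB 𝓕 p b c) q * conj (FC76.ev (resB 𝓕 p b c) q))
    (h0 : ∀ q ∈ tsupport g, n q ≠ 0) (q : ℂ × ℂ) :
    𝓕.pdb (pbf p b c (fun q => conj (g q) * conj (FC76.ev (resA 𝓕 p b c) q) / n q)
      (fun q => conj (g q) * conj (FC76.ev (resB 𝓕 p b c) q) / n q)) (chi p b c q) =
      conj (FC76.dW g q (FC76.vf (resA 𝓕 p b c) (resB 𝓕 p b c) q)) := by
  have hA := FC76.contDiff_real_ev (resA 𝓕 p b c)
  have hB := FC76.contDiff_real_ev (resB 𝓕 p b c)
  have s1 := SIV_smooth hg hA hn h0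
  have s2 := SIV_smooth hg hB hn h0
  rw [pbf_pdb h 𝓕 s1 s2 q, ← (FC76.dW_conj g q _).2]
  have e : (fun q => conj (g q)) = fun q =>
      FC76.ev (resA 𝓕 p b c) q * (conj (g q) * conj (FC76.ev (resA 𝓕 p b c) q) / n q) +
      FC76.ev (resB 𝓕 p b c) q * (conj (g q) * conj (FC76.ev (resB 𝓕 p b c) q) / n q) := by
    funext x
    by_cases hx : g x = 0
    · rw [hx]
      simp
    · have hx2 : x ∈ tsupport g := subset_tsupport g hx
      have h3 := h0 x hx2
      have h4 : FC76.ev (resA 𝓕 p b c) x * (conj (g x) * conj (FC76.ev (resA 𝓕 p b c) x) / n x) +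
          FC76.ev (resB 𝓕 p b c) x * (conj (g x) * conj (FC76.ev (resB 𝓕 p b c) x) / n x) =
          conj (g x) * (FC76.ev (resA 𝓕 p b c) x * conj (FC76.ev (resA 𝓕 p b c) x) +
            FC76.ev (resB 𝓕 p b c) x * conj (FC76.ev (resB 𝓕 p b c) x)) / n x := by ring
      rw [h4, ← hn2, mul_div_assoc, div_self h3, mul_one]
  have dA : DifferentiableAt ℝ (FC76.ev (resA 𝓕 p b c)) q :=
    hA.differentiable (by simp) q
  have dB : DifferentiableAt ℝ (FC76.ev (resB 𝓕 p b c)) q :=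
    hB.differentiable (by simp) q
  have d1 := s1.differentiable (by simp) q
  have d2 := s2.differentiable (by simp) q
  have c1 : DifferentiableAt ℂ (FC76.ev (resA 𝓕 p b c)) q :=
    (FC76.contDiff_ev _).differentiable (by simp) q
  have c2 : DifferentiableAt ℂ (FC76.ev (resB 𝓕 p b c)) q :=
    (FC76.contDiff_ev _).differentiable (by simp) q
  have a1 := SIV_dWb_add (f := fun q => FC76.ev (resA 𝓕 p b c) q *
      (conj (g q) * conj (FC76.ev (resA 𝓕 p b c) q) / n q))
    (g := fun q => FC76.ev (resB 𝓕 p b c) q *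
      (conj (g q) * conj (FC76.ev (resB 𝓕 p b c) q) / n q)) (dA.mul d1) (dB.mul d2)
    (FC76.vf (resA 𝓕 p b c) (resB 𝓕 p b c) q)
  rw [e, a1, FC76.dWb_mul dA d1, FC76.dWb_mul dB d2,
    (FC76.dW_holo c1 _).2, (FC76.dW_holo c2 _).2]
  ring

private theorem SIV_pr (ζ : V → V) (y : V) :
    Pool.Agent.H85.DC.pr 𝓕.F (Pool.Agent.H85.DC.db ζ) y = 𝓕.pdb ζ y / (nsq (𝓕.alpha y) : ℂ) := by
  have h1 : Pool.Agent.H85.DC.eta 𝓕.F y = 𝓕.alpha y := by
    unfold Pool.Agent.H85.DC.eta Foliation.alpha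
    rw [cross_apply]
    rfl
  unfold Pool.Agent.H85.DC.pr
  rw [h1]
  rfl

private theorem SIV_chi (h : Frame p b c) (y : V) (hy : herm y p ≠ 0) :
    y = herm y p • chi p b c (pim p b c y) := by
  have e := h.expand y
  unfold chi pim
  conv_lhs => rw [e]
  rw [smul_add, smul_add, smul_smul, smul_smul]
  dsimp only
  rw [mul_div_cancel₀ _ hy, mul_div_cancel₀ _ hy]

theorem SChart.siv [IsFiniteMeasure μ] (h : SChart 𝓕 μ p b c ρ M)
    (hs : μ {x | nsq x ≠ 1} = 0) (hcl : Pool.Agent.H85.DC.CurClosed 𝓕.F μ)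
    (g : ℂ × ℂ → ℂ) (hg : ContDiff ℝ ∞ g) (hg2 : HasCompactSupport g)
    (hg3 : tsupport g ⊆ FC76.dom 1 ρ) :
    ∫ q, FC76.dW g q (FC76.vf (resA 𝓕 p b c) (resB 𝓕 p b c) q) ∂M = 0 := by
  set n : ℂ × ℂ → ℂ := fun q => FC76.ev (resA 𝓕 p b c) q * conj (FC76.ev (resA 𝓕 p b c) q) +
      FC76.ev (resB 𝓕 p b c) q * conj (FC76.ev (resB 𝓕 p b c) q) with hn
  have hA := FC76.contDiff_real_ev (resA 𝓕 p b c)
  have hB := FC76.contDiff_real_ev (resB 𝓕 p b c)
  have hnc : ContDiff ℝ ∞ n :=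
    (hA.mul (Complex.conjCLE.contDiff.comp hA)).add (hB.mul (Complex.conjCLE.contDiff.comp hB))
  have hn2 : ∀ q, n q = ((Complex.normSq (FC76.ev (resA 𝓕 p b c) q) +
      Complex.normSq (FC76.ev (resB 𝓕 p b c) q) : ℝ) : ℂ) := by
    intro q
    simp only [hn]
    rw [Complex.mul_conj, Complex.mul_conj]
    push_cast
    rfl
  have h0 : ∀ q ∈ tsupport g, n q ≠ 0 := by
    intro q hq hq0
    have h1 := (mem_dom_one ρ q).1 (hg3 hq)
    have h2 := h.reg q (Metric.ball_subset_closedBall h1.1) h1.2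
    apply h2
    rw [h.frame.alpha_zero_iff]
    rw [hn2, Complex.ofReal_eq_zero] at hq0
    have h3 := Complex.normSq_nonneg (FC76.ev (resA 𝓕 p b c) q)
    have h4 := Complex.normSq_nonneg (FC76.ev (resB 𝓕 p b c) q)
    exact ⟨Complex.normSq_eq_zero.1 (by linarith), Complex.normSq_eq_zero.1 (by linarith)⟩
  set ζ : V → V := pbf p b c (fun q => conj (g q) * conj (FC76.ev (resA 𝓕 p b c) q) / n q)
      (fun q => conj (g q) * conj (FC76.ev (resB 𝓕 p b c) q) / n q) with hζ
  have k1 := SIV_supp (A := FC76.ev (resA 𝓕 p b c)) (n := n) hg2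
  have k2 := SIV_supp (A := FC76.ev (resB 𝓕 p b c)) (n := n) hg2
  have hcov : Pool.Agent.H85.DC.IsCov ζ :=
    pbf_isCov h.frame (SIV_smooth hg hA hnc h0) (SIV_smooth hg hB hnc h0) k1 k2
  have hpdb : ∀ q, 𝓕.pdb ζ (chi p b c q) =
      conj (FC76.dW g q (FC76.vf (resA 𝓕 p b c) (resB 𝓕 p b c) q)) :=
    SIV_pdb h.frame g hg n hnc (fun q => rfl) h0
  have hball : ∀ q : ℂ × ℂ, q ∉ Metric.ball (0 : ℂ × ℂ) ρ →
      conj (FC76.dW g q (FC76.vf (resA 𝓕 p b c) (resB 𝓕 p b c) q)) = 0 := by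
    intro q hq
    rw [SIV_dW_zero, map_zero]
    intro hq2
    exact hq ((mem_dom_one ρ q).1 (hg3 hq2)).1
  -- vanishing outside the cone
  have hout : ∀ y : V, nsq y = 1 → y ∉ scone p b c (Metric.ball (0 : ℂ × ℂ) ρ) →
      𝓕.pdb ζ y = 0 := by
    intro y hy hy2
    have hy0 : y ≠ 0 := by
      rintro rfl
      rw [nsq_eq_zero.2 rfl] at hy
      exact zero_ne_one hy
    by_cases hyp : herm y p = 0
    · have hz := pbf_zero h.frame k1 k2 y hy0 hyp
      have hz2 : ∀ j k, Pool.Agent.H85.DC.db ζ y j k = 0 := by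
        intro j k
        unfold Pool.Agent.H85.DC.db Pool.Agent.H85.DC.dzb
        have hz3 : (fun y => ζ y j) =ᶠ[nhds y] fun _ => 0 := by
          filter_upwards [hz] with x hx
          rw [hζ, hx]
          rfl
        rw [hz3.fderiv_eq]
        simp
      unfold Foliation.pdb
      simp [hz2]
    · have e := SIV_chi h.frame y hyp
      have hq : pim p b c y ∉ Metric.ball (0 : ℂ × ℂ) ρ := by
        intro hq
        exact hy2 ((h.frame.scone_iff _ y).2 ⟨hy, hyp, hq⟩)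
      rw [e, wt_pdb 𝓕 ζ hcov _ _ hyp (h.frame.chi_ne _), hpdb, hball _ hq, mul_zero]
  -- the integral
  classical
  have i0 := hcl ζ hcov
  simp_rw [SIV_pr] at i0
  set Φ : V → ℂ := ({0}ᶜ : Set V).piecewise (𝓕.pdb ζ) 0 with hΦ
  have hΦm : Measurable Φ := by
    apply ContinuousOn.measurable_piecewise (continuousOn_pdb 𝓕 ζ hcov) continuousOn_const
    exact (measurableSet_singleton _).compl
  have hΦe : ∀ y : V, y ≠ 0 → Φ y = 𝓕.pdb ζ y := by
    intro y hy
    exact Set.piecewise_eq_of_mem _ _ _ hy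
  have hΦw : 𝓕.Wt Φ := by
    intro t y ht hy
    rw [hΦe y hy, hΦe _ (smul_ne_zero ht hy)]
    exact wt_pdb 𝓕 ζ hcov t y ht hy
  have hΦa : ∀ y : V, Φ y / (nsq (𝓕.alpha y) : ℂ) = 𝓕.pdb ζ y / (nsq (𝓕.alpha y) : ℂ) := by
    intro y
    by_cases hy : y = 0
    · have h1 : 𝓕.alpha y = 0 := by
        rw [hy]
        unfold Foliation.alpha
        simp
      rw [h1, nsq_eq_zero.2 rfl]
      simp
    · rw [hΦe y hy]
  have i1 := h.int Φ hΦm hΦw (Metric.ball (0 : ℂ × ℂ) ρ) Metric.isOpen_ball.measurableSet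
    subset_rfl
  simp_rw [hΦa] at i1
  have i2 : ∫ y in scone p b c (Metric.ball (0 : ℂ × ℂ) ρ),
      𝓕.pdb ζ y / (nsq (𝓕.alpha y) : ℂ) ∂μ = ∫ y, 𝓕.pdb ζ y / (nsq (𝓕.alpha y) : ℂ) ∂μ := by
    apply setIntegral_eq_integral_of_ae_compl_eq_zero
    have hs2 : ∀ᵐ y ∂μ, nsq y = 1 := by
      rw [ae_iff]
      exact hs
    filter_upwards [hs2] with y hy hy2
    rw [hout y hy hy2, zero_div]
  have i3 : ∫ q in Metric.ball (0 : ℂ × ℂ) ρ, Φ (chi p b c q) ∂M =
      ∫ q, conj (FC76.dW g q (FC76.vf (resA 𝓕 p b c) (resB 𝓕 p b c) q)) ∂M := by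
    rw [← setIntegral_eq_integral_of_forall_compl_eq_zero (s := Metric.ball (0 : ℂ × ℂ) ρ) hball]
    apply setIntegral_congr_fun Metric.isOpen_ball.measurableSet
    intro q _
    show Φ (chi p b c q) = _
    rw [hΦe _ (h.frame.chi_ne q), hpdb]
  rw [i2, i0, i3, integral_conj] at i1
  have i4 := congrArg conj i1
  rw [map_zero, Complex.conj_conj] at i4
  exact i4.symm

end Pool.Agent.H24.CU

end S_H24_CU_SIV

section S_H24_CU_SVU

/-!
# Row SVU (pull back of functions of the chart to `C^3`)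

`ℓ0 y = herm y p`, `π = pim p b c`.
PROOFS.  `pbu_zero`: as `pbf_zero` of row SVA (if `ℓ0 y₀ = 0`, `y₀ ≠ 0` then `‖π y‖` is large near `y₀` where `ℓ0 y ≠ 0`).
`pbu_isFun`: smooth on `{ℓ0 ≠ 0}` (composition), zero near the other points; homogeneous.
`pbu_levi`: let `H (q', t) = (1 + t) • chi q'`, complex differentiable; derivative at `(q, 0)` in the direction `(v, s)`:
`s • chi q + v.1 • b + v.2 • c`, which is `vec (chi q)` for `v = Z q`, `s = ev (res0) q` (`Frame.vec_chi`).  `levi_comp_hol`: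
`levi (pbu G) (chi q) (vec (chi q)) = levi (pbu G ∘ H) (q, 0) (Z q, s)`, and `pbu G (H (q', t)) = G q'` near `(q, 0)` (`π (chi q') = q'`,
`Frame.herm_chi`), so by `levi_comp_hol` with the projection it is `levi G q (Z q)`.
-/

namespace Pool.Agent.H24.CU

open scoped ComplexConjugate ContDiff

/-- The pull back of a function. -/
noncomputable def pbu (p b c : V) (G : ℂ × ℂ → ℝ) (y : V) : ℝ :=
  if herm y p = 0 then 0 else G (pim p b c y)

variable {p b c : V}

/-- `herm · a` as a continuous linear map. -/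
noncomputable def SVU_l (a : V) : V →L[ℂ] ℂ := ∑ j, conj (a j) • ContinuousLinearMap.proj j

theorem SVU_l_apply (a y : V) : SVU_l a y = herm y a := by
  unfold SVU_l herm
  rw [_root_.sum_apply]
  refine Finset.sum_congr rfl fun j _ => ?_
  rw [_root_.smul_apply, ContinuousLinearMap.proj_apply, smul_eq_mul, mul_comm]

theorem SVU_cont (a : V) : Continuous fun y : V => herm y a := by
  have h : (fun y : V => herm y a) = fun y => SVU_l a y := by
    funext y
    exact (SVU_l_apply a y).symm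
  rw [h]
  exact (SVU_l a).continuous

theorem SVU_herm_smul (t : ℂ) (y a : V) : herm (t • y) a = t * herm y a := by
  rw [← SVU_l_apply, ← SVU_l_apply, map_smul, smul_eq_mul]

theorem SVU_herm_add (y z a : V) : herm (y + z) a = herm y a + herm z a := by
  rw [← SVU_l_apply, ← SVU_l_apply, ← SVU_l_apply, map_add]

theorem SVU_herm_sub (y z a : V) : herm (y - z) a = herm y a - herm z a := by
  rw [← SVU_l_apply, ← SVU_l_apply, ← SVU_l_apply, map_sub]

theorem SVU_b (h : Frame p b c) : herm b p = 0 ∧ herm b b = 1 ∧ herm b c = 0 := by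
  have h1 := h.herm_chi (1, 0)
  have h0 := h.herm_chi (0, 0)
  have e : b = chi p b c (1, 0) - chi p b c (0, 0) := by
    unfold chi
    simp
  refine ⟨?_, ?_, ?_⟩
  · have := SVU_herm_sub (chi p b c (1, 0)) (chi p b c (0, 0)) p
    rw [← e, h1.1, h0.1] at this
    simpa using this
  · have := SVU_herm_sub (chi p b c (1, 0)) (chi p b c (0, 0)) b
    rw [← e, h1.2.1, h0.2.1] at this
    simpa using this
  · have := SVU_herm_sub (chi p b c (1, 0)) (chi p b c (0, 0)) c
    rw [← e, h1.2.2, h0.2.2] at this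
    simpa using this

theorem SVU_c (h : Frame p b c) : herm c p = 0 ∧ herm c b = 0 ∧ herm c c = 1 := by
  have h1 := h.herm_chi (0, 1)
  have h0 := h.herm_chi (0, 0)
  have e : c = chi p b c (0, 1) - chi p b c (0, 0) := by
    unfold chi
    simp
  refine ⟨?_, ?_, ?_⟩
  · have := SVU_herm_sub (chi p b c (0, 1)) (chi p b c (0, 0)) p
    rw [← e, h1.1, h0.1] at this
    simpa using this
  · have := SVU_herm_sub (chi p b c (0, 1)) (chi p b c (0, 0)) b
    rw [← e, h1.2.1, h0.2.1] at this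
    simpa using this
  · have := SVU_herm_sub (chi p b c (0, 1)) (chi p b c (0, 0)) c
    rw [← e, h1.2.2, h0.2.2] at this
    simpa using this

theorem SVU_pim_contDiffAt {y : V} (hy : herm y p ≠ 0) :
    ContDiffAt ℂ ∞ (pim p b c) y := by
  have h : pim p b c = fun y => (SVU_l b y / SVU_l p y, SVU_l c y / SVU_l p y) := by
    funext y
    rw [SVU_l_apply, SVU_l_apply, SVU_l_apply]
    rfl
  rw [h]
  have hy' : SVU_l p y ≠ 0 := by rwa [SVU_l_apply]
  exact ((SVU_l b).contDiff.contDiffAt.div (SVU_l p).contDiff.contDiffAt hy').prodMk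
    ((SVU_l c).contDiff.contDiffAt.div (SVU_l p).contDiff.contDiffAt hy')

theorem SVU_ev {G : ℂ × ℂ → ℝ} {y : V} (hy : herm y p ≠ 0) :
    pbu p b c G =ᶠ[nhds y] fun y => G (pim p b c y) := by
  filter_upwards [(SVU_cont p).continuousAt.eventually_ne hy] with y' hy'
  unfold pbu
  rw [if_neg hy']

theorem SVU_contDiffAt {G : ℂ × ℂ → ℝ} (hG : ContDiff ℝ ∞ G) {y : V} (hy : herm y p ≠ 0) :
    ContDiffAt ℝ ∞ (pbu p b c G) y := by
  have h1 : ContDiffAt ℝ ∞ (pim p b c) y := (SVU_pim_contDiffAt hy).restrict_scalars ℝ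
  exact (hG.contDiffAt.comp y h1).congr_of_eventuallyEq (SVU_ev hy)

theorem pbu_zero (h : Frame p b c) {G : ℂ × ℂ → ℝ} (hG : HasCompactSupport G) (y : V) (hy : y ≠ 0)
    (hp : herm y p = 0) : ∀ᶠ y' in nhds y, pbu p b c G y' = 0 := by
  obtain ⟨R, hR⟩ := hG.isCompact.isBounded.subset_closedBall (0 : ℂ × ℂ)
  have hne : ((herm y b, herm y c) : ℂ × ℂ) ≠ 0 := by
    intro h0
    apply hy
    have h1 : herm y b = 0 := congrArg Prod.fst h0
    have h2 : herm y c = 0 := congrArg Prod.snd h0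
    rw [h.expand y, hp, h1, h2]
    simp
  have hcont : Continuous fun y' : V => ‖((herm y' b, herm y' c) : ℂ × ℂ)‖ - R * ‖herm y' p‖ :=
    ((SVU_cont b).prodMk (SVU_cont c)).norm.sub (continuous_const.mul (SVU_cont p).norm)
  have hpos : 0 < ‖((herm y b, herm y c) : ℂ × ℂ)‖ - R * ‖herm y p‖ := by
    rw [hp, norm_zero, mul_zero, sub_zero]
    exact norm_pos_iff.mpr hne
  filter_upwards [hcont.continuousAt.eventually (lt_mem_nhds hpos)] with y' hy'
  unfold pbu
  split_ifs with h0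
  · rfl
  · by_contra hne'
    have h1 : pim p b c y' ∈ Metric.closedBall (0 : ℂ × ℂ) R :=
      hR (subset_tsupport G hne')
    rw [mem_closedBall_zero_iff] at h1
    have h2 : pim p b c y' = (herm y' p)⁻¹ • ((herm y' b, herm y' c) : ℂ × ℂ) := by
      unfold pim
      rw [Prod.smul_mk, smul_eq_mul, smul_eq_mul, div_eq_inv_mul, div_eq_inv_mul]
    rw [h2, norm_smul, norm_inv] at h1
    have h3 : 0 < ‖herm y' p‖ := norm_pos_iff.mpr h0
    have h4 : ‖((herm y' b, herm y' c) : ℂ × ℂ)‖ ≤ R * ‖herm y' p‖ := by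
      rw [inv_mul_le_iff₀ h3] at h1
      linarith
    linarith

theorem pbu_isFun (h : Frame p b c) {G : ℂ × ℂ → ℝ} (hG : ContDiff ℝ ∞ G)
    (hG2 : HasCompactSupport G) : IsFun (fun y => (pbu p b c G y : ℂ)) := by
  refine ⟨fun y hy => ?_, fun t y ht _ => ?_⟩
  · apply ContDiffAt.contDiffWithinAt
    have h1 : ContDiffAt ℝ ∞ (pbu p b c G) y := by
      by_cases hp : herm y p = 0
      · have h2 : pbu p b c G =ᶠ[nhds y] fun _ => 0 := pbu_zero h hG2 y hy hp
        exact contDiffAt_const.congr_of_eventuallyEq h2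
      · exact SVU_contDiffAt hG hp
    exact Complex.ofRealCLM.contDiff.contDiffAt.comp y h1
  · have h1 : pbu p b c G (t • y) = pbu p b c G y := by
      unfold pbu pim
      rw [SVU_herm_smul, SVU_herm_smul, SVU_herm_smul]
      by_cases h0 : herm y p = 0
      · rw [h0, mul_zero, if_pos rfl, if_pos rfl]
      · rw [if_neg (mul_ne_zero ht h0), if_neg h0, mul_div_mul_left _ _ ht,
          mul_div_mul_left _ _ ht]
    rw [h1]

theorem SVU_fderiv (h : Frame p b c) (q : ℂ × ℂ) (w : V) :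
    fderiv ℂ (pim p b c) (chi p b c q) w =
      (herm w b - q.1 * herm w p, herm w c - q.2 * herm w p) := by
  obtain ⟨h0, h1, h2⟩ := h.herm_chi q
  have e : pim p b c = fun y => (SVU_l b y * (SVU_l p y)⁻¹, SVU_l c y * (SVU_l p y)⁻¹) := by
    funext y
    rw [SVU_l_apply, SVU_l_apply, SVU_l_apply, ← div_eq_mul_inv, ← div_eq_mul_inv]
    rfl
  have hne : SVU_l p (chi p b c q) ≠ 0 := by
    rw [SVU_l_apply, h0]
    exact one_ne_zero
  have di : HasFDerivAt (fun y => (SVU_l p y)⁻¹)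
      ((-(SVU_l p (chi p b c q) ^ 2)⁻¹) • SVU_l p) (chi p b c q) :=
    (hasDerivAt_inv hne).comp_hasFDerivAt (chi p b c q) (SVU_l p).hasFDerivAt
  have d1 : HasFDerivAt (fun y => SVU_l b y * (SVU_l p y)⁻¹) _ (chi p b c q) :=
    ((SVU_l b).hasFDerivAt (x := chi p b c q)).mul di
  have d2 : HasFDerivAt (fun y => SVU_l c y * (SVU_l p y)⁻¹) _ (chi p b c q) :=
    ((SVU_l c).hasFDerivAt (x := chi p b c q)).mul di
  rw [e, (d1.prodMk d2).fderiv]
  simp only [ContinuousLinearMap.prod_apply, _root_.smul_apply, _root_.add_apply, smul_eq_mul,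
    SVU_l_apply, h0, h1, h2]
  ext <;> norm_num <;> ring

theorem pbu_levi (h : Frame p b c) (𝓕 : Foliation) {G : ℂ × ℂ → ℝ} (hG : ContDiff ℝ ∞ G)
    (q : ℂ × ℂ) :
    levi (pbu p b c G) (chi p b c q) (𝓕.vec (chi p b c q)) =
      levi G q (FC76.vf (resA 𝓕 p b c) (resB 𝓕 p b c) q) := by
  obtain ⟨h0, h1, h2⟩ := h.herm_chi q
  have hne : herm (chi p b c q) p ≠ 0 := by
    rw [h0]
    exact one_ne_zero
  rw [levi_congr (SVU_ev hne)]
  have hd : ∀ᶠ y in nhds (chi p b c q), DifferentiableAt ℂ (pim p b c) y := by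
    filter_upwards [(SVU_cont p).continuousAt.eventually_ne hne] with y hy
    exact (SVU_pim_contDiffAt hy).differentiableAt (by simp)
  have hd2 : ContDiffAt ℝ 2 (pim p b c) (chi p b c q) :=
    ((SVU_pim_contDiffAt hne).restrict_scalars ℝ).of_le (by norm_cast)
  have hG2 : ContDiffAt ℝ 2 G (pim p b c (chi p b c q)) :=
    hG.contDiffAt.of_le (by norm_cast)
  rw [levi_comp_hol hd hd2 hG2, SVU_fderiv h]
  have e1 : pim p b c (chi p b c q) = q := by
    unfold pim
    rw [h0, h1, h2, div_one, div_one]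
  have e2 : (herm (𝓕.vec (chi p b c q)) b - q.1 * herm (𝓕.vec (chi p b c q)) p,
      herm (𝓕.vec (chi p b c q)) c - q.2 * herm (𝓕.vec (chi p b c q)) p) =
      FC76.vf (resA 𝓕 p b c) (resB 𝓕 p b c) q := by
    obtain ⟨b0, b1, b2⟩ := SVU_b h
    obtain ⟨c0, c1, c2⟩ := SVU_c h
    rw [h.vec_chi 𝓕 q]
    simp only [SVU_herm_add, SVU_herm_smul, h0, h1, h2, b0, b1, b2, c0, c1, c2]
    unfold FC76.vf
    ext <;> simp <;> ring
  rw [e1, e2]

end Pool.Agent.H24.CU

end S_H24_CU_SVU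

section S_H24_CU_SDD

/-!
# Row SDD (the dd^c equation in the chart, across the centre)

PROOF.  `u = pbu p b c G`, `pbu_isFun`; `0 = ∫ levi u y (vec y)/nsq (α y) dμ` (`Harm.harm`).  `Φ y = levi u y (vec y)`: weight (`levi_weight` with `m = 0`), continuous off `0` (modify at
`0` to have measurability), `Φ (chi q) = levi G q (Z q)` (`pbu_levi`).  `μ` is carried by the unit sphere; for a unit vector `y` outside `scone (ball 0 ρ)`: if `herm y p = 0`
then `u = 0` near `y` (`pbu_zero`), otherwise `y = t • chi q` with `q` outside the ball and `levi G q = 0` there (`q ∉ tsupport G`).  So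
`0 = ∫_{scone (ball)} Φ/nsq α dμ = ∫_ball levi G q (Z q) dM` (`SChart.int` for the complex valued function `(Φ : ℂ)`, `integral_ofReal`), and `M` is carried by the ball.
`lev_eq`: `FC76.lev G q v = D^2G(v,v) + D^2G(iv,iv)` with `fderiv (fderiv G) q v v`, and `fderiv (fun q => fderiv G q v) q v` is the same for `G` smooth; `levi` has the factor `1/4`.
-/

namespace Pool.Agent.H24.CU

open MeasureTheory
open scoped ComplexConjugate ContDiff

variable {𝓕 : Foliation} {μ : Measure V} {p b c : V} {ρ : ℝ} {M : Measure (ℂ × ℂ)}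

theorem lev_eq (G : ℂ × ℂ → ℝ) (hG : ContDiff ℝ ∞ G) (q v : ℂ × ℂ) :
    FC76.lev G q v = 4 * levi G q v := by
  have h1 : ContDiffAt ℝ ∞ G q := hG.contDiffAt
  have h2 : ContDiffAt ℝ 2 G q := h1.of_le (by norm_cast)
  unfold FC76.lev levi
  rw [LC_app h2, LC_app h2]
  ring

theorem SDD_herm_cont (p : V) : Continuous fun y : V => herm y p := by
  unfold herm
  fun_prop

theorem SChart.sdd (h : SChart 𝓕 μ p b c ρ M) (hμ : Harm 𝓕 μ)
    (G : ℂ × ℂ → ℝ) (hG : ContDiff ℝ ∞ G) (hG2 : HasCompactSupport G)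
    (hG3 : tsupport G ⊆ Metric.ball 0 ρ) :
    ∫ q, FC76.lev G q (FC76.vf (resA 𝓕 p b c) (resB 𝓕 p b c) q) ∂M = 0 := by
  have hu := pbu_isFun h.frame hG hG2
  obtain ⟨u, hudef⟩ : ∃ u, u = pbu p b c G := ⟨_, rfl⟩
  rw [← hudef] at hu
  have husm : ContDiffOn ℝ 2 u {0}ᶜ := by
    intro y hy
    have h1 : ContDiffAt ℝ ∞ (fun x => (u x : ℂ)) y :=
      hu.smooth.contDiffAt (isOpen_compl_singleton.mem_nhds hy)
    have h2 : ContDiffAt ℝ ∞ u y := Complex.reCLM.contDiff.contDiffAt.comp y h1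
    have h3 : ContDiffAt ℝ 2 u y := h2.of_le (by norm_cast)
    exact h3.contDiffWithinAt
  have hom0 : ∀ (t : ℂ) (y : V), t ≠ 0 → y ≠ 0 →
      u (t • y) = u y + 0 * Real.log (Complex.normSq t) := by
    intro t y ht hy
    have h1 := hu.hom t y ht hy
    have h2 : u (t • y) = u y := by exact_mod_cast h1
    rw [h2]
    ring
  classical
  let Φ : V → ℝ := Set.piecewise {(0 : V)}ᶜ (fun y => levi u y (𝓕.vec y)) (fun _ => 0)
  have hΦ : ∀ y : V, y ≠ 0 → Φ y = levi u y (𝓕.vec y) := fun y hy =>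
    Set.piecewise_eq_of_mem _ _ _ hy
  have hΦm : Measurable Φ :=
    (CL_levi_cont husm (CL_vec_cont 𝓕)).measurable_piecewise continuousOn_const
      (measurableSet_singleton (0 : V)).compl
  have hw : 𝓕.Wt (fun y => (Φ y : ℂ)) := by
    intro t y ht hy
    show ((Φ (t • y) : ℝ) : ℂ) = _ * ((Φ y : ℝ) : ℂ)
    rw [hΦ _ (smul_ne_zero ht hy), hΦ _ hy, levi_weight 𝓕 u husm 0 hom0 t y ht hy,
      ← Complex.ofReal_mul]
  have htr := h.int (fun y => (Φ y : ℂ)) (Complex.measurable_ofReal.comp hΦm) hw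
    (Metric.ball 0 ρ) Metric.isOpen_ball.measurableSet subset_rfl
  have hlev0 : ∀ {y : V} {v : V}, u =ᶠ[nhds y] (fun _ => 0) → levi u y v = 0 := by
    intro y v hy
    rw [levi_congr hy, levi_const]
  have hae : ∀ᵐ y ∂μ, nsq y = 1 := by
    rw [ae_iff]
    exact hμ.sph
  have hne : ∀ y : V, nsq y = 1 → y ≠ 0 := by
    rintro y hy rfl
    simp [nsq] at hy
  -- `u` vanishes near the points outside of the cone
  have hu0 : ∀ y : V, nsq y = 1 → y ∉ scone p b c (Metric.ball 0 ρ) →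
      u =ᶠ[nhds y] fun _ => 0 := by
    intro y hy hyc
    by_cases hp : herm y p = 0
    · rw [hudef]
      exact pbu_zero h.frame hG2 y (hne y hy) hp
    · have hπ : pim p b c y ∉ tsupport G := by
        intro hin
        exact hyc ((h.frame.scone_iff _ y).2 ⟨hy, hp, hG3 hin⟩)
      have hπc : ContinuousAt (pim p b c) y := by
        unfold pim
        exact ((SDD_herm_cont b).continuousAt.div (SDD_herm_cont p).continuousAt hp).prodMk
          ((SDD_herm_cont c).continuousAt.div (SDD_herm_cont p).continuousAt hp)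
      have h1 : ∀ᶠ q in nhds y, pim p b c q ∉ tsupport G :=
        hπc.eventually ((isClosed_tsupport G).isOpen_compl.mem_nhds hπ)
      filter_upwards [h1] with q hq
      rw [hudef]
      unfold pbu
      split_ifs with h3
      · rfl
      · exact image_eq_zero_of_notMem_tsupport hq
  have hL : ∫ y in scone p b c (Metric.ball 0 ρ), Φ y / nsq (𝓕.alpha y) ∂μ = 0 := by
    rw [setIntegral_eq_integral_of_ae_compl_eq_zero]
    · rw [← hμ.harm u hu]
      refine integral_congr_ae ?_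
      filter_upwards [hae] with y hy
      rw [hΦ y (hne y hy)]
    · filter_upwards [hae] with y hy hyc
      rw [hΦ y (hne y hy), hlev0 (hu0 y hy hyc), zero_div]
  have hL2 : ∫ y in scone p b c (Metric.ball 0 ρ), ((Φ y : ℝ) : ℂ) /
      ((nsq (𝓕.alpha y) : ℝ) : ℂ) ∂μ = 0 := by
    have e1 : ∀ y : V, ((Φ y : ℝ) : ℂ) / ((nsq (𝓕.alpha y) : ℝ) : ℂ) =
        ((Φ y / nsq (𝓕.alpha y) : ℝ) : ℂ) := fun y => by push_cast; rfl
    simp only [e1]
    rw [integral_complex_ofReal, hL, Complex.ofReal_zero]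
  have hR : ∫ q in Metric.ball (0 : ℂ × ℂ) ρ, Φ (chi p b c q) ∂M = 0 := by
    have e2 : (((∫ q in Metric.ball (0 : ℂ × ℂ) ρ, Φ (chi p b c q) ∂M) : ℝ) : ℂ) = 0 := by
      rw [← integral_complex_ofReal, ← htr]
      exact hL2
    exact_mod_cast e2
  have hcpt : ∀ q, FC76.lev G q (FC76.vf (resA 𝓕 p b c) (resB 𝓕 p b c) q) =
      4 * Φ (chi p b c q) := by
    intro q
    rw [lev_eq G hG, hΦ _ (h.frame.chi_ne q), hudef, pbu_levi h.frame 𝓕 hG q]
  have hset : ∫ q in Metric.ball (0 : ℂ × ℂ) ρ,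
      FC76.lev G q (FC76.vf (resA 𝓕 p b c) (resB 𝓕 p b c) q) ∂M =
      ∫ q, FC76.lev G q (FC76.vf (resA 𝓕 p b c) (resB 𝓕 p b c) q) ∂M := by
    refine setIntegral_eq_integral_of_forall_compl_eq_zero fun q hq => ?_
    have hpt : q ∉ tsupport G := fun hin => hq (hG3 hin)
    have h2 : G =ᶠ[nhds q] fun _ => 0 := by
      filter_upwards [(isClosed_tsupport G).isOpen_compl.mem_nhds hpt] with q hq
      exact image_eq_zero_of_notMem_tsupport hq
    rw [lev_eq G hG, levi_congr h2, levi_const, mul_zero]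
  rw [← hset]
  simp only [hcpt]
  rw [integral_const_mul, hR, mul_zero]

end Pool.Agent.H24.CU

end S_H24_CU_SDD

section S_H24_CU_SINV

/-!
# Row SINV (assembly: the chart measure at a singular point satisfies `FC76.Inv`)
-/

namespace Pool.Agent.H24.CU

open MeasureTheory
open scoped ComplexConjugate ContDiff

variable {𝓕 : Foliation} {μ : Measure V} {p b c : V} {ρ : ℝ} {M : Measure (ℂ × ℂ)}

theorem SINV_open_dom (ρ : ℝ) : IsOpen (FC76.dom 1 ρ) := by
  have h : FC76.dom 1 ρ = Metric.ball (0 : ℂ × ℂ) ρ ∩ {0}ᶜ := by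
    ext q
    rw [mem_dom_one]
    rfl
  rw [h]
  exact Metric.isOpen_ball.inter isOpen_compl_singleton

theorem SINV_open_pdisc (R : ℝ) : IsOpen (FC76.pdisc R) := by
  have h : FC76.pdisc R = {t : ℂ | 0 < ‖t‖} ∩ {t : ℂ | ‖t‖ < R} := rfl
  rw [h]
  exact (isOpen_lt continuous_const continuous_norm).inter (isOpen_lt continuous_norm continuous_const)

theorem SChart.toInv (h : SChart 𝓕 μ p b c ρ M) (hp : 𝓕.alpha p = 0) (hμ : Harm 𝓕 μ)
    (hcl : Pool.Agent.H85.DC.CurClosed 𝓕.F μ) (hL : 𝓕.LelZero μ) :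
    FC76.Inv (resA 𝓕 p b c) (resB 𝓕 p b c) 1 ρ M := by
  have hfin := hμ.fin
  refine { carried := h.sin_carried hp, locfin := fun K hK hK2 => h.sin_locfin hμ.sing K hK hK2,
           fin := h.sin_fin hμ.sing,
           inv := fun g hg hg2 hg3 => h.siv hμ.sph hcl g hg hg2 hg3, log := sin_log _ _ M,
           dd := fun G hG hG2 hG3 => h.sdd hμ G hG hG2 hG3, dif := ?_ }
  intro γ R _ hγ
  refine null_of_holo M γ (FC76.pdisc R) (SINV_open_pdisc R) hγ (FC76.dom 1 ρ) (SINV_open_dom ρ)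
    (h.sin_carried hp) fun q hq ε hε => ?_
  rw [mem_dom_one] at hq
  exact h.sin_small hμ.sing hL q hq.1 hq.2 ε hε

end Pool.Agent.H24.CU

end S_H24_CU_SINV

section S_H76_FC_DA

/-!
# Row DA: dimension of P2 / m^n and additivity of the order

1. `finrank_mPow`.  P2 / mI ^ n has the basis of the classes of the monomials x^i y^j with i + j < n, so its dimension is
   1 + 2 + ... + n = n (n+1) / 2.  Lean: the linear map f ↦ (coeff s f) for s in the finite set of exponents of degree < n,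
   from P2 to (S → ℂ), is onto and its kernel is mI ^ n (`mem_pow_idealOfVars_iff'`); hence the quotient is linearly
   isomorphic to (S → ℂ) and finrank = card S; S is in bijection with {(i,j) : i + j < n}.  Finite dimensionality of the
   quotients by ideals containing some mI ^ n follows (`fd_of_le`).

2. `order_mul`.  If f is not in mI^(a+1) and g is not in mI^(b+1) then f*g is not in mI^(a+b+1).
   Proof.  Let a' <= a be minimal with homogeneousComponent a' f ≠ 0 and b' <= b minimal with homogeneousComponent b' g ≠ 0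
   (they exist by the coefficient criterion).  The homogeneous component of degree a'+b' of f*g is the product of these two
   nonzero polynomials (all lower components vanish), which is nonzero since P2 is a domain, so f*g has a nonzero
   coefficient of degree a'+b' < a+b+1.  (Alternatively use `MvPolynomial` order of the associated power series:
   `MvPowerSeries.order_mul`, since coe is injective and degree-preserving.)

3. `mem_of_mul_mem`: if A is not in mI^(nu+1), nu <= j and c*A in mI^j then c in mI^(j-nu).  From 2 (if j - nu = 0 trivial).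
-/

open MvPolynomial

namespace FC76

theorem DA_mem_iff (f : P2) (n : ℕ) :
    f ∈ mI ^ n ↔ (n : ℕ∞) ≤ (f : MvPowerSeries (Fin 2) ℂ).order := by
  rw [mem_pow_idealOfVars_iff']
  constructor
  · intro h
    refine MvPowerSeries.le_order fun d hd => ?_
    rw [MvPolynomial.coeff_coe]
    exact h d (by exact_mod_cast hd)
  · intro h x hx
    rw [← MvPolynomial.coeff_coe]
    refine MvPowerSeries.coeff_of_lt_order (lt_of_lt_of_le ?_ h)
    exact_mod_cast hx

/-- exponents of degree less than `n` -/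
abbrev DA_T (n : ℕ) : Type := {e : Fin 2 →₀ ℕ // e.degree < n}

theorem DA_degree (e : Fin 2 →₀ ℕ) : e.degree = e 0 + e 1 := by
  rw [Finsupp.degree_eq_sum, Fin.sum_univ_two]

/-- the exponents as pairs -/
noncomputable def DA_equiv (n : ℕ) : DA_T n ≃ {p : ℕ × ℕ // p.1 + p.2 < n} :=
  (Finsupp.equivFunOnFinite.trans (finTwoArrowEquiv ℕ)).subtypeEquiv (by
    intro e
    rw [DA_degree]
    rfl)

/-- the finite set of the pairs -/
def DA_S (n : ℕ) : Finset (ℕ × ℕ) := (Finset.range n).biUnion fun d =>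
  Finset.HasAntidiagonal.antidiagonal d

theorem DA_memS (n : ℕ) (x : ℕ × ℕ) : x ∈ DA_S n ↔ x.1 + x.2 < n := by
  unfold DA_S
  simp

theorem DA_cardS (n : ℕ) : (DA_S n).card = n * (n + 1) / 2 := by
  unfold DA_S
  rw [Finset.card_biUnion]
  · simp only [Finset.Nat.card_antidiagonal]
    induction n with
    | zero => simp
    | succ n ih =>
      rw [Finset.sum_range_succ, ih]
      have h1 : (n + 1) * (n + 1 + 1) = n * (n + 1) + 2 * (n + 1) := by ring
      rw [h1, Nat.add_mul_div_left _ _ (by norm_num)]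
  · intro a _ b _ hab
    rw [Function.onFun, Finset.disjoint_left]
    intro x hx hy
    rw [Finset.HasAntidiagonal.mem_antidiagonal] at hx hy
    exact hab (hx.symm.trans hy)

noncomputable instance DA_fin (n : ℕ) : Fintype (DA_T n) := by
  have h : Finite (DA_T n) := by
    have h1 : Finite {p : ℕ × ℕ // p.1 + p.2 < n} := by
      have h2 : {p : ℕ × ℕ | p.1 + p.2 < n}.Finite := by
        refine (DA_S n).finite_toSet.subset ?_
        intro x hx
        exact (DA_memS n x).2 hx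
      exact h2.to_subtype
    exact Finite.of_equiv _ (DA_equiv n).symm
  exact Fintype.ofFinite _

theorem DA_card (n : ℕ) : Fintype.card (DA_T n) = n * (n + 1) / 2 := by
  classical
  have h1 : Fintype {p : ℕ × ℕ // p.1 + p.2 < n} := Fintype.ofEquiv _ (DA_equiv n)
  rw [Fintype.card_congr (DA_equiv n), Fintype.card_of_subtype (DA_S n) (DA_memS n), DA_cardS]

/-- the coefficients of degree less than `n` -/
noncomputable def DA_phi (n : ℕ) : P2 →ₗ[ℂ] (DA_T n → ℂ) :=
  LinearMap.pi fun e => MvPolynomial.lcoeff ℂ e.1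

theorem DA_phi_apply (n : ℕ) (f : P2) (e : DA_T n) : DA_phi n f e = coeff e.1 f := rfl

theorem DA_surj (n : ℕ) : Function.Surjective (DA_phi n) := by
  classical
  intro v
  refine ⟨∑ e : DA_T n, monomial e.1 (v e), ?_⟩
  funext e
  rw [DA_phi_apply, coeff_sum]
  simp only [coeff_monomial]
  rw [Finset.sum_eq_single e]
  · rw [if_pos rfl]
  · intro b _ hb
    rw [if_neg]
    intro h
    exact hb (Subtype.ext h)
  · intro h
    exact absurd (Finset.mem_univ e) h

theorem DA_ker (n : ℕ) : LinearMap.ker (DA_phi n) =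
    LinearMap.ker (Ideal.Quotient.mkₐ ℂ (mI ^ n : Ideal P2)).toLinearMap := by
  ext f
  rw [LinearMap.mem_ker, LinearMap.mem_ker]
  have h1 : (Ideal.Quotient.mkₐ ℂ (mI ^ n : Ideal P2)).toLinearMap f = 0 ↔ f ∈ mI ^ n := by
    show Ideal.Quotient.mk (mI ^ n : Ideal P2) f = 0 ↔ _
    exact Ideal.Quotient.eq_zero_iff_mem
  rw [h1, mem_pow_idealOfVars_iff']
  constructor
  · intro h x hx
    exact congrFun h ⟨x, hx⟩
  · intro h
    funext e
    exact h e.1 e.2

/-- the quotient by a power of the maximal ideal -/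
noncomputable def DA_quot (n : ℕ) : (P2 ⧸ (mI ^ n : Ideal P2)) ≃ₗ[ℂ] (DA_T n → ℂ) :=
  ((LinearMap.quotKerEquivOfSurjective (Ideal.Quotient.mkₐ ℂ (mI ^ n : Ideal P2)).toLinearMap
    (Ideal.Quotient.mkₐ_surjective ℂ _)).symm.trans
    (Submodule.quotEquivOfEq _ _ (DA_ker n).symm)).trans
    (LinearMap.quotKerEquivOfSurjective (DA_phi n) (DA_surj n))

theorem finrank_mPow (n : ℕ) : Module.finrank ℂ (P2 ⧸ (mI ^ n : Ideal P2)) = n * (n + 1) / 2 := by
  rw [(DA_quot n).finrank_eq, Module.finrank_fintype_fun_eq_card, DA_card]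

/-- quotients by ideals containing a power of mI are finite dimensional -/
theorem fd_of_le (I : Ideal P2) (n : ℕ) (h : mI ^ n ≤ I) : FiniteDimensional ℂ (P2 ⧸ I) := by
  have h1 : Module.Finite ℂ (P2 ⧸ (mI ^ n : Ideal P2)) := Module.Finite.equiv (DA_quot n).symm
  exact Module.Finite.of_surjective (Ideal.Quotient.factorₐ ℂ h).toLinearMap
    (Ideal.Quotient.factor_surjective h)

theorem order_mul (f g : P2) (a b : ℕ) (hf : f ∉ mI ^ (a + 1)) (hg : g ∉ mI ^ (b + 1)) :
    f * g ∉ mI ^ (a + b + 1) := by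
  rw [DA_mem_iff, not_le] at hf hg ⊢
  rw [MvPolynomial.coe_mul, MvPowerSeries.order_mul]
  have h1 : (f : MvPowerSeries (Fin 2) ℂ).order ≤ a := by
    rw [Nat.cast_add, Nat.cast_one] at hf
    exact ENat.lt_add_one_iff (ENat.natCast_ne_top a) |>.1 hf
  have h2 : (g : MvPowerSeries (Fin 2) ℂ).order ≤ b := by
    rw [Nat.cast_add, Nat.cast_one] at hg
    exact ENat.lt_add_one_iff (ENat.natCast_ne_top b) |>.1 hg
  refine lt_of_le_of_lt (add_le_add h1 h2) ?_
  have h3 : a + b < a + b + 1 := Nat.lt_succ_self _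
  exact_mod_cast h3

theorem mem_of_mul_mem (A c : P2) (ν j : ℕ) (hA : A ∉ mI ^ (ν + 1)) (hj : ν ≤ j) (h : c * A ∈ mI ^ j) :
    c ∈ mI ^ (j - ν) := by
  rcases Nat.eq_zero_or_pos (j - ν) with h0 | h0
  · rw [h0, pow_zero, Ideal.one_eq_top]
    exact Submodule.mem_top
  · by_contra hc
    have e : j - ν = (j - ν - 1) + 1 := by omega
    rw [e] at hc
    have h1 := order_mul c A _ _ hc hA
    have e2 : j - ν - 1 + ν + 1 = j := by omega
    rw [e2] at h1
    exact h1 h

end FC76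

end S_H76_FC_DA

section S_H76_FC_DB

/-!
# Row DB: the substitutions `bl c` and `sw`

Monomials: bl c (x^i y^j) = x^(i+j) (y+c)^j,  sw (x^i y^j) = x^j y^i.

1. `cf_sw`, `sw_sw`, `sw_mem`: clear on monomials (use `MvPolynomial.induction_on` or `as_sum`; sw is `rename (Equiv.swap 0 1)`).
2. `cf_bl0`: the monomial x^a y^b in bl 0 f comes exactly from x^(a-b) y^b (b <= a).
3. `bl_dvd`: f in mI^k is a sum of c_s x^i y^j with i + j >= k, and bl c (x^i y^j) is divisible by x^(i+j).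
4. `bl_quot_cf`: f in mI^k and bl c f = x^k g.  The part of bl c f which is not divisible by x^(k+1) is
   sum_{i <= k} cf (k-i) i f * x^k (y+c)^i; so g(0,y) = sum_i cf (k-i) i f (y+c)^i, and the coefficient of y^j in (y+c)^i is
   choose i j * c^(i-j) (zero for j > i because choose is 0).
5. `bl_surj`: for n <= k+1 and every g there is f in mI^k and h with bl c f = x^k h and g - h in mI^n.
   Proof.  Modulo mI^n, g is a linear combination of x^i (y+c)^j with j < n (write y^j = ((y+c) - c)^j and expand; degrees in y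
   stay < n; drop monomials of degree >= n first), and for j <= k: bl c (x^(k-j+i) y^j) = x^k * (x^i (y+c)^j), where
   x^(k-j+i) y^j is in mI^k.  Linear combinations.
6. `cf_X0_mul`: cf (i+1) j (X 0 * f) = cf i j f, cf 0 j (X 0 * f) = 0.
7. `eval_zero_eq_cf`: eval 0 f = cf 0 0 f, and `mem_mI_iff`: f in mI iff cf 0 0 f = 0; `mem_mI2_iff`: f in mI^2 iff
   cf 0 0 f = 0, cf 1 0 f = 0, cf 0 1 f = 0.  `dvd_X0_iff`: X 0 divides f iff cf 0 j f = 0 for all j.
-/

open MvPolynomial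

namespace FC76

theorem DB_u (u : Fin 2 →₀ ℕ) : u = Finsupp.single 0 (u 0) + Finsupp.single 1 (u 1) := by
  ext i
  fin_cases i <;> simp

theorem DB_ueq (a b i j : ℕ) : (Finsupp.single (0 : Fin 2) a + Finsupp.single 1 b =
    Finsupp.single 0 i + Finsupp.single 1 j) ↔ (a = i ∧ b = j) := by
  constructor
  · intro h
    have h0 := DFunLike.congr_fun h 0
    have h1 := DFunLike.congr_fun h 1
    simp at h0 h1
    exact ⟨h0, h1⟩
  · rintro ⟨rfl, rfl⟩
    rfl

theorem DB_mon (a b : ℕ) (c : ℂ) : monomial (Finsupp.single (0 : Fin 2) a + Finsupp.single 1 b) c =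
    (C c * X 0 ^ a * X 1 ^ b : P2) := by
  rw [monomial_add_single, ← C_mul_X_pow_eq_monomial]

theorem DB_cfm (i j a b : ℕ) (c : ℂ) :
    cf i j (C c * X 0 ^ a * X 1 ^ b : P2) = if a = i ∧ b = j then c else 0 := by
  unfold cf
  rw [← DB_mon, coeff_monomial]
  simp only [DB_ueq]

theorem DB_add (i j : ℕ) (f g : P2) : cf i j (f + g) = cf i j f + cf i j g := by
  unfold cf
  rw [coeff_add]

theorem DB_sum {ι : Type*} (s : Finset ι) (i j : ℕ) (f : ι → P2) :
    cf i j (∑ t ∈ s, f t) = ∑ t ∈ s, cf i j (f t) := by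
  unfold cf
  rw [coeff_sum]

theorem DB_ind {P : P2 → Prop} (h1 : ∀ (a b : ℕ) (c : ℂ), P (C c * X 0 ^ a * X 1 ^ b))
    (h2 : ∀ p q, P p → P q → P (p + q)) (f : P2) : P f := by
  refine MvPolynomial.induction_on' f ?_ h2
  intro u a
  rw [DB_u u, DB_mon]
  exact h1 _ _ _

theorem DB_ext {f g : P2} (h : ∀ i j, cf i j f = cf i j g) : f = g := by
  refine MvPolynomial.ext _ _ fun u => ?_
  rw [DB_u u]
  exact h _ _

theorem DB_as_sum (f : P2) : f = ∑ u ∈ f.support, C (coeff u f) * X 0 ^ (u 0) * X 1 ^ (u 1) := by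
  conv_lhs => rw [f.as_sum]
  refine Finset.sum_congr rfl fun u _ => ?_
  rw [← DB_mon, ← DB_u]

theorem DB_mem (f : P2) (n : ℕ) : f ∈ mI ^ n ↔ ∀ i j, i + j < n → cf i j f = 0 := by
  rw [mem_pow_idealOfVars_iff']
  constructor
  · intro h i j hij
    refine h _ ?_
    rw [Finsupp.degree_eq_sum, Fin.sum_univ_two]
    simpa using hij
  · intro h u hu
    rw [DB_u u]
    refine h _ _ ?_
    rw [Finsupp.degree_eq_sum, Fin.sum_univ_two] at hu
    exact hu

theorem DB_swm (a b : ℕ) (c : ℂ) :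
    sw (C c * X 0 ^ a * X 1 ^ b) = (C c * X 0 ^ b * X 1 ^ a : P2) := by
  simp only [sw, map_mul, map_pow, aeval_X, algHom_C, algebraMap_eq]
  simp
  ring

theorem DB_blm (c r : ℂ) (a b : ℕ) :
    bl c (C r * X 0 ^ a * X 1 ^ b) = (C r * X 0 ^ (a + b) * (X 1 + C c) ^ b : P2) := by
  simp only [bl, map_mul, map_pow, aeval_X, algHom_C, algebraMap_eq]
  simp only [Matrix.cons_val_zero, Matrix.cons_val_one]
  rw [mul_pow, pow_add]
  ring

theorem cf_sw (i j : ℕ) (f : P2) : cf i j (sw f) = cf j i f := by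
  induction f using DB_ind with
  | h1 a b c =>
    rw [DB_swm, DB_cfm, DB_cfm]
    simp only [and_comm]
  | h2 p q hp hq => rw [map_add, DB_add, DB_add, hp, hq]

theorem sw_sw (f : P2) : sw (sw f) = f := by
  apply DB_ext
  intro i j
  rw [cf_sw, cf_sw]

theorem sw_mem (f : P2) (n : ℕ) (h : f ∈ mI ^ n) : sw f ∈ mI ^ n := by
  rw [DB_mem] at h ⊢
  intro i j hij
  rw [cf_sw]
  exact h _ _ (by omega)

theorem cf_bl0 (f : P2) (a b : ℕ) : cf a b (bl 0 f) = if b ≤ a then cf (a - b) b f else 0 := by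
  induction f using DB_ind with
  | h1 i j c =>
    rw [DB_blm, C_0, add_zero, DB_cfm, DB_cfm]
    by_cases h1 : i + j = a ∧ j = b
    · rw [if_pos h1, if_pos (by omega), if_pos (by omega)]
    · rw [if_neg h1]
      split_ifs with h2 h3
      · omega
      · rfl
      · rfl
  | h2 p q hp hq =>
    rw [map_add, DB_add, DB_add, hp, hq]
    split_ifs <;> simp

theorem bl_dvd (c : ℂ) (f : P2) (k : ℕ) (hf : f ∈ mI ^ k) : ∃ g, bl c f = X 0 ^ k * g := by
  show X 0 ^ k ∣ bl c f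
  rw [DB_as_sum f, map_sum]
  refine Finset.dvd_sum fun u hu => ?_
  rw [DB_blm]
  have hk : k ≤ u 0 + u 1 := by
    by_contra hlt
    rw [DB_mem] at hf
    have h1 := hf (u 0) (u 1) (by omega)
    unfold cf at h1
    rw [← DB_u u] at h1
    exact (mem_support_iff.1 hu) h1
  exact Dvd.dvd.mul_right (Dvd.dvd.mul_left (pow_dvd_pow _ hk) _) _

theorem DB_expand (r c : ℂ) (m b : ℕ) : (C r * X 0 ^ m * (X 1 + C c) ^ b : P2) =
    ∑ l ∈ Finset.range (b + 1), C (r * c ^ (b - l) * (Nat.choose b l : ℂ)) * X 0 ^ m * X 1 ^ l := by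
  rw [add_pow, Finset.mul_sum]
  refine Finset.sum_congr rfl fun l _ => ?_
  simp only [map_mul, map_pow, map_natCast]
  ring

theorem DB_cfbl (r c : ℂ) (m b i j : ℕ) : cf i j (C r * X 0 ^ m * (X 1 + C c) ^ b : P2) =
    if m = i then r * c ^ (b - j) * (Nat.choose b j : ℂ) else 0 := by
  rw [DB_expand, DB_sum]
  simp only [DB_cfm]
  split_ifs with h
  · by_cases hj : j < b + 1
    · rw [Finset.sum_eq_single_of_mem j (Finset.mem_range.2 hj)]
      · rw [if_pos ⟨h, rfl⟩]
      · intro l _ hl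
        rw [if_neg (fun h' => hl h'.2)]
    · rw [Nat.choose_eq_zero_of_lt (by omega), Nat.cast_zero, mul_zero]
      refine Finset.sum_eq_zero fun l hl => ?_
      rw [Finset.mem_range] at hl
      rw [if_neg (fun h' => by omega)]
  · refine Finset.sum_eq_zero fun l _ => ?_
    rw [if_neg (fun h' => h h'.1)]

theorem DB_cfk (c : ℂ) (f : P2) (k j : ℕ) : cf k j (bl c f) =
    ∑ i ∈ Finset.range (k + 1), cf (k - i) i f * (Nat.choose i j : ℂ) * c ^ (i - j) := by
  induction f using DB_ind with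
  | h1 a b r =>
    rw [DB_blm, DB_cfbl]
    simp only [DB_cfm]
    split_ifs with h
    · rw [Finset.sum_eq_single_of_mem b (Finset.mem_range.2 (by omega))]
      · rw [if_pos ⟨by omega, rfl⟩]
        ring
      · intro l _ hl
        rw [if_neg (fun h' => hl h'.2.symm)]
        ring
    · symm
      refine Finset.sum_eq_zero fun l hl => ?_
      rw [Finset.mem_range] at hl
      rw [if_neg (fun h' => by omega)]
      ring
  | h2 p q hp hq =>
    rw [map_add, DB_add, hp, hq, ← Finset.sum_add_distrib]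
    refine Finset.sum_congr rfl fun l _ => ?_
    rw [DB_add]
    ring

theorem DB_shift (k i j : ℕ) (f : P2) : cf (i + k) j (X 0 ^ k * f) = cf i j f := by
  induction f using DB_ind with
  | h1 a b r =>
    have e : (X 0 ^ k * (C r * X 0 ^ a * X 1 ^ b) : P2) = C r * X 0 ^ (a + k) * X 1 ^ b := by ring
    rw [e, DB_cfm, DB_cfm]
    simp only [Nat.add_right_cancel_iff]
  | h2 p q hp hq => rw [mul_add, DB_add, DB_add, hp, hq]

theorem bl_quot_cf (c : ℂ) (f g : P2) (k : ℕ) (hf : f ∈ mI ^ k) (hg : bl c f = X 0 ^ k * g) (j : ℕ) :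
    cf 0 j g = ∑ i ∈ Finset.range (k + 1), cf (k - i) i f * (Nat.choose i j : ℂ) * c ^ (i - j) := by
  rw [← DB_cfk, hg]
  have h := DB_shift k 0 j g
  rw [zero_add] at h
  exact h.symm

theorem bl_surj (c : ℂ) (k n : ℕ) (hn : n ≤ k + 1) (g : P2) :
    ∃ f ∈ (mI ^ k : Ideal P2), ∃ h, bl c f = X 0 ^ k * h ∧ g - h ∈ mI ^ n := by
  induction g using DB_ind with
  | h1 i j r =>
    by_cases hij : n ≤ i + j
    · refine ⟨0, Ideal.zero_mem _, 0, by simp, ?_⟩
      rw [sub_zero, DB_mem]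
      intro a b hab
      rw [DB_cfm, if_neg (fun h' => by omega)]
    · have hjk : j ≤ k := by omega
      refine ⟨∑ l ∈ Finset.range (j + 1),
        C (r * (-c) ^ (j - l) * (Nat.choose j l : ℂ)) * X 0 ^ (k - l + i) * X 1 ^ l, ?_,
        C r * X 0 ^ i * X 1 ^ j, ?_, ?_⟩
      · refine Ideal.sum_mem _ fun l hl => ?_
        rw [Finset.mem_range] at hl
        rw [DB_mem]
        intro a b hab
        rw [DB_cfm, if_neg (fun h' => by omega)]
      · rw [map_sum]
        have e1 : ∀ l ∈ Finset.range (j + 1),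
            bl c (C (r * (-c) ^ (j - l) * (Nat.choose j l : ℂ)) * X 0 ^ (k - l + i) * X 1 ^ l) =
            X 0 ^ k * (C r * X 0 ^ i * ((X 1 + C c) ^ l * (-C c) ^ (j - l) *
              (Nat.choose j l : P2))) := by
          intro l hl
          rw [Finset.mem_range] at hl
          rw [DB_blm]
          have e2 : k - l + i + l = k + i := by omega
          rw [e2]
          simp only [map_mul, map_pow, map_natCast, map_neg]
          ring
        rw [Finset.sum_congr rfl e1, ← Finset.mul_sum, ← Finset.mul_sum, ← add_pow]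
        congr 2
        ring
      · rw [sub_self]
        exact Ideal.zero_mem _
  | h2 p q hp hq =>
    obtain ⟨f1, m1, h1, e1, d1⟩ := hp
    obtain ⟨f2, m2, h2, e2, d2⟩ := hq
    refine ⟨f1 + f2, Ideal.add_mem _ m1 m2, h1 + h2, ?_, ?_⟩
    · rw [map_add, e1, e2]
      ring
    · have e : p + q - (h1 + h2) = (p - h1) + (q - h2) := by ring
      rw [e]
      exact Ideal.add_mem _ d1 d2

theorem cf_X0_mul (i j : ℕ) (f : P2) : cf (i + 1) j (X 0 * f) = cf i j f := by
  have h := DB_shift 1 i j f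
  rwa [pow_one] at h

theorem cf_zero_X0_mul (j : ℕ) (f : P2) : cf 0 j (X 0 * f) = 0 := by
  induction f using DB_ind with
  | h1 a b r =>
    have e : (X 0 * (C r * X 0 ^ a * X 1 ^ b) : P2) = C r * X 0 ^ (a + 1) * X 1 ^ b := by ring
    rw [e, DB_cfm, if_neg (fun h' => by omega)]
  | h2 p q hp hq => rw [mul_add, DB_add, hp, hq, add_zero]

theorem eval_zero_eq_cf (f : P2) : eval 0 f = cf 0 0 f := by
  rw [MvPolynomial.eval_zero]
  unfold cf
  simp [constantCoeff_eq]

theorem mem_mI_iff (f : P2) : f ∈ mI ^ 1 ↔ cf 0 0 f = 0 := by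
  rw [DB_mem]
  constructor
  · intro h
    exact h 0 0 (by norm_num)
  · intro h i j hij
    have hi : i = 0 := by omega
    have hj : j = 0 := by omega
    rw [hi, hj]
    exact h

theorem mem_mI2_iff (f : P2) : f ∈ mI ^ 2 ↔ cf 0 0 f = 0 ∧ cf 1 0 f = 0 ∧ cf 0 1 f = 0 := by
  rw [DB_mem]
  constructor
  · intro h
    exact ⟨h 0 0 (by norm_num), h 1 0 (by norm_num), h 0 1 (by norm_num)⟩
  · rintro ⟨h0, h1, h2⟩ i j hij
    have hc : (i = 0 ∧ j = 0) ∨ (i = 1 ∧ j = 0) ∨ (i = 0 ∧ j = 1) := by omega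
    rcases hc with ⟨rfl, rfl⟩ | ⟨rfl, rfl⟩ | ⟨rfl, rfl⟩
    · exact h0
    · exact h1
    · exact h2

theorem dvd_X0_iff (f : P2) : X 0 ∣ f ↔ ∀ j, cf 0 j f = 0 := by
  constructor
  · rintro ⟨g, rfl⟩ j
    exact cf_zero_X0_mul j g
  · intro h
    rw [DB_as_sum f]
    refine Finset.dvd_sum fun u hu => ?_
    have h0 : u 0 ≠ 0 := by
      intro h0
      have h1 := h (u 1)
      unfold cf at h1
      rw [← h0, ← DB_u u] at h1
      exact (mem_support_iff.1 hu) h1
    exact Dvd.dvd.mul_right (Dvd.dvd.mul_left (dvd_pow_self _ h0) _) _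

end FC76

end S_H76_FC_DB

section S_H24_CU_MUL

/-!
# Row MUL (finite local multiplicity)

PROOF.  Let `S` be the finite set of common zeros of `A, B` different from `0`, `I = (A, B)`.  For every `s ∈ S` choose a linear form `l_s` (a polynomial
`X i - C (s i)` with `s i ≠ 0`) with `l_s(s) = 0`, `l_s(0) ≠ 0`, `u = ∏ l_s`, `u(0) ≠ 0`.  For `i = 0, 1`, `u * X i` vanishes on all the common zeros, so by
Hilbert's Nullstellensatz (`MvPolynomial.vanishingIdeal_zeroLocus_eq_radical`) `(u * X i)^N ∈ I`, same `N >= 1` for both.  Hence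
`u^(2N) * m ∈ I` for every monomial `m` of degree `>= 2 N` (it is divisible by `X 0 ^ N` or by `X 1 ^ N`), so `u^(2N) * mI^(2N) ⊆ I`.
`u^(2N)` is invertible modulo `mI^n` (constant term `≠ 0`: `u^(2N) = a (1 - v)`, `v ∈ mI`, geometric series), so `mI^(2N) ⊆ I ⊔ mI^n` for all `n`.
Therefore `P2 ⧸ (I ⊔ mI^n)` is a quotient of `P2 ⧸ mI^(2N)`, which is spanned by the monomials of degree `< 2N` (`at most (2N)^2` of them).
`K = (2N)^2`; `finrank` of a quotient (surjective linear map) is at most the `finrank` of the finite dimensional source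
(`LinearMap.finrank_le_finrank_of_surjective`-like lemma; or `finrank_le_of_span`/`finrank_span_le_card`).
-/

open MvPolynomial

namespace Pool.Agent.H24.CU

/-- a polynomial separating `0` from the other points of a finite set -/
theorem MUL_sep (S : Set (Fin 2 → ℂ)) (hS : S.Finite) :
    ∃ u : FC76.P2, eval 0 u ≠ 0 ∧ ∀ s ∈ S, s ≠ 0 → eval s u = 0 := by
  classical
  have hex : ∀ s : Fin 2 → ℂ, ∃ l : FC76.P2, eval s l = 0 ∧ (s ≠ 0 → eval 0 l ≠ 0) := by
    intro s
    by_cases hs : s = 0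
    · exact ⟨0, by simp, fun h => absurd hs h⟩
    · obtain ⟨i, hi⟩ := Function.ne_iff.1 hs
      refine ⟨X i - C (s i), by simp, fun _ => ?_⟩
      simpa using hi
  choose l hl1 hl2 using hex
  refine ⟨∏ s ∈ hS.toFinset.erase 0, l s, ?_, fun s hs hs0 => ?_⟩
  · rw [map_prod]
    exact Finset.prod_ne_zero_iff.2 fun s hs => hl2 s (Finset.ne_of_mem_erase hs)
  · rw [map_prod]
    exact Finset.prod_eq_zero (Finset.mem_erase.2 ⟨hs0, hS.mem_toFinset.2 hs⟩) (hl1 s)

/-- Nullstellensatz -/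
theorem MUL_null (A B : FC76.P2) (u : FC76.P2)
    (hu : ∀ q : Fin 2 → ℂ, eval q A = 0 → eval q B = 0 → q ≠ 0 → eval q u = 0) :
    ∃ M : ℕ, ∀ f ∈ (FC76.mI ^ M : Ideal FC76.P2), u ^ M * f ∈ Ideal.span ({A, B} : Set FC76.P2) := by
  obtain ⟨M, hM⟩ := (Ideal.span ({A, B} : Set FC76.P2)).exists_radical_pow_le_of_fg
    (Ideal.fg_of_isNoetherianRing _)
  refine ⟨M, fun f hf => hM ?_⟩
  have h1 : Ideal.span {u} * FC76.mI ≤ (Ideal.span ({A, B} : Set FC76.P2)).radical := by
    rw [Ideal.span_singleton_mul_le_iff]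
    intro z hz
    rw [← vanishingIdeal_zeroLocus_eq_radical (K := ℂ), mem_vanishingIdeal_iff]
    intro q hq
    have hA : eval q A = 0 := by
      rw [← coe_aeval_eq_eval]
      exact hq A (Ideal.subset_span (Set.mem_insert _ _))
    have hB : eval q B = 0 := by
      rw [← coe_aeval_eq_eval]
      exact hq B (Ideal.subset_span (Set.mem_insert_of_mem _ rfl))
    have h2 : eval q (u * z) = 0 := by
      rw [map_mul]
      by_cases hq0 : q = 0
      · rw [hq0, FC76.eval_zero_eq_cf z, (FC76.mem_mI_iff z).1 (by rwa [pow_one]), mul_zero]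
      · rw [hu q hA hB hq0, zero_mul]
    rw [← coe_aeval_eq_eval] at h2
    exact h2
  have h2 : u ^ M * f ∈ (Ideal.span {u} * FC76.mI) ^ M := by
    rw [mul_pow, Ideal.span_singleton_pow]
    exact Ideal.mul_mem_mul (Ideal.mem_span_singleton_self _) hf
  exact Ideal.pow_right_mono h1 M h2

theorem MUL_le (I : Ideal FC76.P2) (u : FC76.P2) (h0 : eval 0 u ≠ 0) (M : ℕ)
    (h : ∀ f ∈ (FC76.mI ^ M : Ideal FC76.P2), u ^ M * f ∈ I) (n : ℕ) :
    FC76.mI ^ M ≤ I ⊔ FC76.mI ^ n := by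
  have hco : IsCoprime (Ideal.span {u}) FC76.mI := by
    rw [Ideal.isCoprime_iff_exists]
    refine ⟨u * C (eval 0 u)⁻¹, Ideal.mul_mem_right _ _ (Ideal.mem_span_singleton_self _),
      1 - u * C (eval 0 u)⁻¹, ?_, by ring⟩
    rw [← pow_one FC76.mI, FC76.mem_mI_iff, ← FC76.eval_zero_eq_cf, map_sub, map_mul, map_one,
      eval_C, mul_inv_cancel₀ h0, sub_self]
  obtain ⟨i, hi, j, hj, hij⟩ := Ideal.isCoprime_iff_exists.1 (hco.pow (m := M) (n := n))
  rw [Ideal.span_singleton_pow] at hi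
  obtain ⟨w, rfl⟩ := Ideal.mem_span_singleton'.1 hi
  intro f hf
  have e : f = w * (u ^ M * f) + f * j := by
    calc f = f * (w * u ^ M + j) := by rw [hij, mul_one]
      _ = w * (u ^ M * f) + f * j := by ring
  rw [e]
  exact Ideal.add_mem _ (Ideal.mem_sup_left (Ideal.mul_mem_left _ _ (h f hf)))
    (Ideal.mem_sup_right (Ideal.mul_mem_left _ _ hj))

theorem exists_multLe (A B : FC76.P2)
    (hfin : {q : Fin 2 → ℂ | eval q A = 0 ∧ eval q B = 0}.Finite) : ∃ K, FC76.MultLe A B K := by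
  obtain ⟨u, hu0, hu⟩ := MUL_sep _ hfin
  obtain ⟨M, hM⟩ := MUL_null A B u fun q hA hB hq => hu q ⟨hA, hB⟩ hq
  refine ⟨Module.finrank ℂ (FC76.P2 ⧸ (FC76.mI ^ M : Ideal FC76.P2)), fun n => ?_⟩
  have hle := MUL_le _ u hu0 M hM n
  have : FiniteDimensional ℂ (FC76.P2 ⧸ (FC76.mI ^ M : Ideal FC76.P2)) := FC76.fd_of_le _ M le_rfl
  refine LinearMap.finrank_le_finrank_of_surjective
    (f := (Ideal.Quotient.factorₐ ℂ hle).toLinearMap) ?_
  intro w
  obtain ⟨g, rfl⟩ := Ideal.Quotient.mk_surjective w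
  exact ⟨Ideal.Quotient.mk _ g, rfl⟩

end Pool.Agent.H24.CU

end S_H24_CU_MUL

section S_H24_CU_BR

/-!
# Row BR (bridge between the faithful currents and the measures of block DC)

`DC.N = nsq`, `DC.ip = herm`, `DC.tau = tau`, `DC.dz = dz`, `DC.dzb = dzbar`, `DC.Zf 𝓕.F = 𝓕.vec`, `DC.eta 𝓕.F = 𝓕.alpha` (`cross_apply`), `DC.pr 𝓕.F = 𝓕.dens`: all
by unfolding (`rfl` or `simp [cross_apply]`).
PROOFS.  `toCurClosed`: for `ζ` with `DC.IsCov ζ`, `IsForm10 ζ`; `A` of `exists_dbForm`; `0 = T.toLin A = ∫ dens A.1 dμ`, and `dens A.1 y = DC.pr F (DC.db ζ) y` for `y ≠ 0`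
(`μ {0} = 0` because `nsq 0 ≠ 1`).
`toDdcClosed`: same with `exists_leviForm`.
`closed_of`: given `z` with `IsForm10 z`, let `z' = z` off `0`, `z' 0 = 0`: `DC.IsCov z'`, `db z' = db z` off `0`; so `T.toLin A = ∫ dens A dμ = ∫ pr (db z') dμ = 0` for the first half; for the second half
`A x j k = dz j (conj z_k) = conj (dzbar j z_k)`, so `A = Bᴴ` with `B` of `exists_dbForm` off `0`, and `T.toLin A = ∫ dens A dμ = conj (∫ dens B dμ) = 0` (`dens (Bᴴ) = conj (dens B)`, `integral_conj`).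
`toIsCur`: `μ univ = 1`.  Scaling: `integral_smul_measure`.
`exists_singSet`: `P = {0} ∪` representatives of the finite set `𝓕.finite_sing`; for `y ≠ 0` with `eta y = 0`: `(mk y).rep = a • y`, `a ≠ 0`, and `alpha (a y) = a^(deg+1) alpha y` (AL or direct).
-/

namespace Pool.Agent.H24.CU

open MeasureTheory
open scoped ComplexConjugate ContDiff

theorem eta_eq (𝓕 : Foliation) (y : V) : Pool.Agent.H85.DC.eta 𝓕.F y = 𝓕.alpha y := by
  unfold Foliation.alpha
  rw [cross_apply]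
  rfl

theorem pr_eq_dens (𝓕 : Foliation) (A : V → Matrix (Fin 3) (Fin 3) ℂ) (y : V) :
    Pool.Agent.H85.DC.pr 𝓕.F A y = 𝓕.dens A y := by
  unfold Pool.Agent.H85.DC.pr Foliation.dens
  rw [eta_eq]
  rfl

theorem BR_cr (x y : V) : Pool.Agent.H85.DC.cr x y = crossProduct x y := by
  rw [cross_apply]
  rfl

theorem K2_eq (𝓕 : Foliation) (y : V) : Pool.Agent.H85.DC.K2 𝓕.F y = 𝓕.K2 y := by
  have h : Pool.Agent.H85.DC.eta 𝓕.F = 𝓕.alpha := funext fun y => eta_eq 𝓕 y
  unfold Pool.Agent.H85.DC.K2 Foliation.K2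
  rw [h, BR_cr]
  rfl

theorem BR_eval (P : MvPolynomial (Fin 3) ℂ) (n : ℕ) (hP : P.IsHomogeneous n) (c : ℂ)
    (x : V) : MvPolynomial.eval (c • x) P = c ^ n * MvPolynomial.eval x P := by
  rw [MvPolynomial.eval_eq', MvPolynomial.eval_eq', Finset.mul_sum]
  refine Finset.sum_congr rfl fun d hd => ?_
  have h1 := hP (MvPolynomial.mem_support_iff.1 hd)
  have h2 : ∑ i, d i = n := by
    rw [← h1, Finsupp.weight_apply, Finsupp.sum_fintype _ _ (by simp)]
    simp
  have h3 : ∏ i, (c • x) i ^ d i = c ^ n * ∏ i, x i ^ d i := by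
    rw [← h2, ← Finset.prod_pow_eq_pow_sum, ← Finset.prod_mul_distrib]
    refine Finset.prod_congr rfl fun i _ => ?_
    rw [Pi.smul_apply, smul_eq_mul, mul_pow]
  rw [h3]
  ring

theorem BR_alpha (𝓕 : Foliation) (c : ℂ) (x : V) :
    𝓕.alpha (c • x) = c ^ (𝓕.deg + 1) • 𝓕.alpha x := by
  have h1 : 𝓕.alpha (c • x) = crossProduct (c • x) (𝓕.vec (c • x)) := rfl
  have h2 : 𝓕.alpha x = crossProduct x (𝓕.vec x) := rfl
  have h3 : 𝓕.vec (c • x) = c ^ 𝓕.deg • 𝓕.vec x := by
    funext j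
    exact BR_eval (𝓕.F j) 𝓕.deg (𝓕.hom j) c x
  rw [h1, h2, h3, cross_apply, cross_apply]
  funext j
  fin_cases j <;>
  · simp only [Pi.smul_apply, smul_eq_mul, Fin.zero_eta, Fin.mk_one, Fin.reduceFinMk,
      Matrix.cons_val_zero, Matrix.cons_val_one, Matrix.cons_val]
    ring

theorem exists_singSet (𝓕 : Foliation) :
    ∃ P : Finset V, ∀ y : V, Pool.Agent.H85.DC.eta 𝓕.F y = 0 → ∃ p ∈ P, ∃ c : ℂ, y = c • p := by
  classical
  refine ⟨insert 0 (𝓕.finite_sing.toFinset.image (fun l => l.rep)), ?_⟩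
  intro y hy
  rw [eta_eq] at hy
  by_cases h0 : y = 0
  · exact ⟨0, Finset.mem_insert_self _ _, 0, by rw [h0, smul_zero]⟩
  · obtain ⟨a, ha⟩ := Projectivization.exists_smul_eq_mk_rep ℂ y h0
    have ha' : (a : ℂ) • y = (Projectivization.mk ℂ y h0).rep := ha
    refine ⟨(Projectivization.mk ℂ y h0).rep, ?_, (a : ℂ)⁻¹, ?_⟩
    · refine Finset.mem_insert_of_mem (Finset.mem_image_of_mem _ ?_)
      rw [Set.Finite.mem_toFinset]
      show 𝓕.alpha (Projectivization.mk ℂ y h0).rep = 0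
      rw [← ha', BR_alpha, hy, smul_zero]
    · rw [← ha', smul_smul, inv_mul_cancel₀ a.ne_zero, one_smul]

variable {𝓕 : Foliation} {T : PosCurrent} {μ : Measure V}

theorem Rep.BR_ae (h : Rep 𝓕 T μ) : ∀ᵐ y ∂μ, y ≠ 0 := by
  have h1 : ∀ᵐ y ∂μ, nsq y = 1 := h.sph
  filter_upwards [h1] with y hy h0
  rw [h0, nsq_eq_zero.2 rfl] at hy
  exact zero_ne_one hy

theorem BR_dens_congr {A B : V → Matrix (Fin 3) (Fin 3) ℂ} {y : V} (h : A y = B y) :
    𝓕.dens A y = 𝓕.dens B y := by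
  unfold Foliation.dens
  rw [h]

theorem Rep.toDdcClosed (h : Rep 𝓕 T μ) (hT : T.DdcClosed) :
    Pool.Agent.H85.DC.DdcClosed 𝓕.F μ := by
  intro u hu
  have hu' : IsFun u := ⟨hu.smooth, fun c x hc _ => hu.hom c x hc⟩
  obtain ⟨A, hA⟩ := exists_leviForm u hu'
  have h1 : T.toLin A = 0 := hT u hu' A hA
  rw [h.pair A] at h1
  rw [← h1]
  refine integral_congr_ae ?_
  filter_upwards [h.BR_ae] with y hy
  rw [pr_eq_dens]
  refine BR_dens_congr ?_
  funext j k
  exact (hA y hy j k).symm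

theorem Rep.toCurClosed (h : Rep 𝓕 T μ) (hT : T.Closed) : Pool.Agent.H85.DC.CurClosed 𝓕.F μ := by
  intro z hz
  have hz' : IsForm10 z := ⟨hz.smooth, fun c x hc _ => hz.hom c x hc, hz.kill⟩
  obtain ⟨A, hA⟩ := exists_dbForm z hz'
  have h1 : T.toLin A = 0 := (hT z hz').1 A hA
  rw [h.pair A] at h1
  rw [← h1]
  refine integral_congr_ae ?_
  filter_upwards [h.BR_ae] with y hy
  rw [pr_eq_dens]
  refine BR_dens_congr ?_
  funext j k
  exact (hA y hy j k).symm

/-- the normalised form -/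
theorem BR_norm {z : V → V} (hz : IsForm10 z) :
    ∃ z' : V → V, Pool.Agent.H85.DC.IsCov z' ∧
      ∀ x : V, x ≠ 0 → ∀ j k, Pool.Agent.H85.DC.db z' x j k = dzbar k (fun y => z y j) x := by
  classical
  obtain ⟨z', hz'⟩ : ∃ z' : V → V, z' = fun x => if x = 0 then 0 else z x := ⟨_, rfl⟩
  have h0 : z' 0 = 0 := by rw [hz']; simp
  have h1 : ∀ x, x ≠ 0 → z' x = z x := by
    intro x hx
    rw [hz']
    simp [hx]
  refine ⟨z', ⟨?_, ?_, ?_⟩, ?_⟩
  · exact hz.smooth.congr (fun x hx => h1 x hx)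
  · intro l x hl
    by_cases hx : x = 0
    · rw [hx, smul_zero, h0, smul_zero]
    · rw [h1 x hx, h1 _ (smul_ne_zero hl hx), hz.hom l x hl hx]
  · intro x hx
    rw [h1 x hx]
    exact hz.basic x hx
  · intro x hx j k
    have he : (fun y => z' y j) =ᶠ[nhds x] fun y => z y j := by
      filter_upwards [isOpen_compl_singleton.mem_nhds hx] with y hy
      rw [h1 y hy]
    show (fderiv ℝ (fun y => z' y j) x (Pi.single k 1) +
      Complex.I * fderiv ℝ (fun y => z' y j) x (Pi.single k Complex.I)) / 2 = _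
    rw [he.fderiv_eq]
    rfl

theorem BR_conj {f : V → ℂ} {x : V} (hf : DifferentiableAt ℝ f x) (j : Fin 3) :
    dz j (fun y => conj (f y)) x = conj (dzbar j f x) := by
  have h1 : ∀ v, fderiv ℝ (fun y => conj (f y)) x v = conj (fderiv ℝ f x v) := by
    intro v
    have h2 : HasFDerivAt (fun y => Complex.conjCLE (f y))
        ((Complex.conjCLE : ℂ →L[ℝ] ℂ).comp (fderiv ℝ f x)) x :=
      (Complex.conjCLE : ℂ →L[ℝ] ℂ).hasFDerivAt.comp x hf.hasFDerivAt
    have h3 : (fun y => conj (f y)) = fun y => Complex.conjCLE (f y) := rfl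
    rw [h3, h2.fderiv]
    rfl
  unfold dz dzbar
  rw [h1, h1]
  simp only [map_div₀, map_add, map_mul, Complex.conj_I, map_ofNat]
  ring

theorem BR_densH (𝓕 : Foliation) {A B : V → Matrix (Fin 3) (Fin 3) ℂ} {y : V}
    (h : ∀ j k, A y j k = conj (B y k j)) : 𝓕.dens A y = conj (𝓕.dens B y) := by
  unfold Foliation.dens
  rw [map_div₀, Complex.conj_ofReal]
  congr 1
  rw [map_sum, Finset.sum_comm]
  refine Finset.sum_congr rfl fun j _ => ?_
  rw [map_sum]
  refine Finset.sum_congr rfl fun k _ => ?_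
  rw [h, map_mul, map_mul, Complex.conj_conj]
  ring

theorem Rep.closed_of (h : Rep 𝓕 T μ) (hc : Pool.Agent.H85.DC.CurClosed 𝓕.F μ) : T.Closed := by
  intro z hz
  obtain ⟨z', hz', hzz⟩ := BR_norm hz
  have h0 := hc z' hz'
  have key : ∀ A : Form11, (∀ x : V, x ≠ 0 → ∀ j k, A.1 x j k = dzbar k (fun y => z y j) x) →
      T.toLin A = 0 := by
    intro A hA
    rw [h.pair A, ← h0]
    refine integral_congr_ae ?_
    filter_upwards [h.BR_ae] with y hy
    rw [pr_eq_dens]
    refine BR_dens_congr ?_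
    funext j k
    rw [hA y hy j k, hzz y hy j k]
  refine ⟨key, ?_⟩
  intro A hA
  obtain ⟨B, hB⟩ := exists_dbForm z hz
  have h1 := key B hB
  rw [h.pair B] at h1
  rw [h.pair A]
  have h2 : ∫ y, 𝓕.dens A.1 y ∂μ = ∫ y, conj (𝓕.dens B.1 y) ∂μ := by
    refine integral_congr_ae ?_
    filter_upwards [h.BR_ae] with y hy
    refine BR_densH 𝓕 ?_
    intro j k
    rw [hA y hy j k, hB y hy k j]
    refine BR_conj ?_ j
    have h3 : ContDiffAt ℝ ∞ (fun y => z y) y :=
      hz.smooth.contDiffAt (isOpen_compl_singleton.mem_nhds hy)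
    have h4 : DifferentiableAt ℝ z y := h3.differentiableAt (by simp)
    exact differentiableAt_pi.1 h4 k
  rw [h2, integral_conj, h1, map_zero]

theorem Rep.toIsCur (h : Rep 𝓕 T μ) (h1 : μ Set.univ = 1) : Pool.Agent.H85.DC.IsCur 𝓕.F μ := by
  refine ⟨h1, h.sph, ?_⟩
  rw [ae_iff]
  have h2 : {y | ¬ Pool.Agent.H85.DC.eta 𝓕.F y ≠ 0} = {x | 𝓕.alpha x = 0} := by
    ext y
    show ¬ Pool.Agent.H85.DC.eta 𝓕.F y ≠ 0 ↔ 𝓕.alpha y = 0
    rw [eta_eq, not_not]
  rw [h2]
  exact h.sing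

theorem scale_ddc (F : Fin 3 → MvPolynomial (Fin 3) ℂ) (s : ENNReal)
    (h : Pool.Agent.H85.DC.DdcClosed F μ) : Pool.Agent.H85.DC.DdcClosed F (s • μ) := by
  intro u hu
  rw [integral_smul_measure, h u hu, smul_zero]

theorem scale_cur (F : Fin 3 → MvPolynomial (Fin 3) ℂ) (s : ENNReal)
    (h : Pool.Agent.H85.DC.CurClosed F μ) : Pool.Agent.H85.DC.CurClosed F (s • μ) := by
  intro u hu
  rw [integral_smul_measure, h u hu, smul_zero]

end Pool.Agent.H24.CU

end S_H24_CU_BR
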