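import Mathlib
import Pool.Agent.H24.M68.G03
import Pool.Agent.H24.M68.G04
import Pool.Agent.H24.M68.G05
import Pool.Agent.H24.M68.G11
import Pool.Agent.H24.M68.G12

/-! MP_6873ef_an: this file joins several modules to save build time. -/

section S_H24_CU_KA

/-!
# Row KA (pointwise inequality for the transversal variation)

Bilinear product `a·b = ∑ a_j b_j`, `det(u,v,w) = u·(v × w)`, `η = α(y) = y × F(y)`, `y` a unit vector, `d = deg`, `Dη(v) = fderiv ℂ alpha y v = v × F + y × DF(v)`.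
`w = (F - a y)/|η|`, `a = herm F y` (unit vector orthogonal to `y`: `nsq (F - a y) = nsq F - |a|^2 = nsq η`), `v = conj(η)/|η|`; `(y, w, v)` is an
orthonormal basis (`η·y = 0`, `η·F = 0`).  For every `x`: `nsq (x × η) = nsq x nsq η - |herm x η|^2` (`nsq_cross`), `herm x η = x·conj(η) = |η| (x·v)`,
`nsq x = |x·y|^2 + |x·w|^2 + |x·v|^2` (the conjugates form an orthonormal basis), so `nsq (x × η) = nsq η (|x·y|^2 + |x·w|^2)`.
With `x = Dη(v)`: `K2 y = nsq (Dη(conj η) × η)/nsq(η)^3 = (|x·y|^2 + |x·w|^2)/nsq η`.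
(i) `η(z)·z = 0` for all `z`; differentiate in the direction `v`: `x·y = -η·v = -|η|`, so the first term is `1`.
(ii) `x·w - Dη(w)·v = det(v,F,w) - det(w,F,v) + det(y,DF v,w) - det(y,DF w,v) = -2 det(F,v,w) + [det(y,DF v,w) + det(y,v,DF w)]`
`= -2 det(F,v,w) + tr(DF) det(y,v,w) - det(DF y, v, w) = (div F) det(y,v,w) - (d+2) det(F,v,w)` (Euler `DF y = d F`; the trace identity for a 3x3 matrix),
`det(F,v,w) = a det(y,v,w)`, `|det(y,v,w)| = 1`: `|x·w - Dη(w)·v| = |dv y|`.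
(iii) `Dη(w)·v = (Dη(w)·conj η)/|η| = |η| ∂_w log nsq η`, where `∂_w f = (D_w f - i D_{iw} f)/2` for real `f`, `|∂_w f|^2 = gradm f f y w`
(`∂_w nsq(η) = Dη(w)·conj(η)` because `η` is holomorphic).  `la = log nsq η - (d+1) log nsq`, `∂_w log nsq = herm w y / nsq y = 0` at `y`, and `∂_y la = 0` (`la` is
homogeneous of degree `0` under `C^*`), so `∂_F la = a ∂_y la + |η| ∂_w la = |η| ∂_w log nsq η`: `|Dη(w)·v|^2 = nsq η |∂_w la|^2 = gradm la la y F`.
Together: `|x·w|^2 <= 2 gradm la la y F + 2 |dv|^2`, `K2 <= 1 + 2 (gradm + |dv|^2)/nsq η`.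
-/

namespace Pool.Agent.H24.CU

open scoped ComplexConjugate ContDiff

theorem KA_eval (P : MvPolynomial (Fin 3) ℂ) (y : V) :
    HasFDerivAt (fun x : V => MvPolynomial.eval x P)
      (∑ k, MvPolynomial.eval y (MvPolynomial.pderiv k P) •
        (ContinuousLinearMap.proj k : V →L[ℂ] ℂ)) y := by
  induction P using MvPolynomial.induction_on with
  | C a =>
    have h : (fun x : V => MvPolynomial.eval x (MvPolynomial.C a)) = fun _ => a := by
      funext x
      simp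
    rw [h]
    refine (hasFDerivAt_const a y).congr_fderiv ?_
    ext v
    simp
  | add p q hp hq =>
    have h : (fun x : V => MvPolynomial.eval x (p + q)) =
        fun x => MvPolynomial.eval x p + MvPolynomial.eval x q := by
      funext x
      simp
    rw [h]
    refine (hp.add hq).congr_fderiv ?_
    ext v
    simp only [add_apply, sum_apply,
      smul_apply, map_add, smul_eq_mul, add_mul, Finset.sum_add_distrib]
  | mul_X p i hp =>
    have h : (fun x : V => MvPolynomial.eval x (p * MvPolynomial.X i)) =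
        fun x => MvPolynomial.eval x p * x i := by
      funext x
      simp
    rw [h]
    have hx : HasFDerivAt (fun x : V => x i) (ContinuousLinearMap.proj i : V →L[ℂ] ℂ) y :=
      (ContinuousLinearMap.proj i : V →L[ℂ] ℂ).hasFDerivAt
    refine (hp.mul hx).congr_fderiv ?_
    ext v
    simp only [MvPolynomial.pderiv_mul, MvPolynomial.pderiv_X, map_add, map_mul, MvPolynomial.eval_X,
      add_apply, smul_apply, sum_apply,
      ContinuousLinearMap.proj_apply, smul_eq_mul, add_mul, Finset.sum_add_distrib]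
    rw [add_comm]
    congr 1
    · rw [Finset.mul_sum]
      refine Finset.sum_congr rfl fun k _ => ?_
      ring
    · rw [Finset.sum_eq_single i]
      · simp
      · intro k _ hk
        simp [Pi.single_apply, hk, Ne.symm hk]
      · intro hi
        exact absurd (Finset.mem_univ i) hi

/-- the Jacobian matrix -/
noncomputable def KA_J (𝓕 : Foliation) (y : V) (j k : Fin 3) : ℂ :=
  MvPolynomial.eval y (MvPolynomial.pderiv k (𝓕.F j))

/-- the explicit derivative of `α` -/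
noncomputable def KA_D (J : Fin 3 → Fin 3 → ℂ) (y F v : V) : V :=
  crossProduct v F + crossProduct y (fun j => ∑ k, J j k * v k)

theorem KA_comp (𝓕 : Foliation) (y : V) (i j : Fin 3) :
    HasFDerivAt (fun x : V => x i * MvPolynomial.eval x (𝓕.F j))
      (y i • (∑ k, MvPolynomial.eval y (MvPolynomial.pderiv k (𝓕.F j)) •
        (ContinuousLinearMap.proj k : V →L[ℂ] ℂ)) +
        MvPolynomial.eval y (𝓕.F j) • (ContinuousLinearMap.proj i : V →L[ℂ] ℂ)) y :=
  ((ContinuousLinearMap.proj i : V →L[ℂ] ℂ).hasFDerivAt (x := y)).mul (KA_eval (𝓕.F j) y)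

theorem KA_alpha_eq (𝓕 : Foliation) : 𝓕.alpha = fun x : V => ![x 1 * MvPolynomial.eval x (𝓕.F 2) -
    x 2 * MvPolynomial.eval x (𝓕.F 1), x 2 * MvPolynomial.eval x (𝓕.F 0) -
    x 0 * MvPolynomial.eval x (𝓕.F 2), x 0 * MvPolynomial.eval x (𝓕.F 1) -
    x 1 * MvPolynomial.eval x (𝓕.F 0)] := by
  funext x
  unfold Foliation.alpha
  rw [cross_apply]

theorem KA_comp_deriv (𝓕 : Foliation) (y : V) (j : Fin 3) :
    ∃ L : V →L[ℂ] ℂ, HasFDerivAt (fun x : V => 𝓕.alpha x j) L y ∧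
      ∀ v, L v = KA_D (KA_J 𝓕 y) y (𝓕.vec y) v j := by
  have key : ∀ a b : Fin 3, ∃ L : V →L[ℂ] ℂ,
      HasFDerivAt (fun x : V => x a * MvPolynomial.eval x (𝓕.F b) -
        x b * MvPolynomial.eval x (𝓕.F a)) L y ∧
      ∀ v, L v = v a * 𝓕.vec y b - v b * 𝓕.vec y a +
        (y a * (∑ k, KA_J 𝓕 y b k * v k) - y b * ∑ k, KA_J 𝓕 y a k * v k) := by
    intro a b
    refine ⟨_, (KA_comp 𝓕 y a b).sub (KA_comp 𝓕 y b a), fun v => ?_⟩
    simp only [sub_apply, add_apply,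
      smul_apply, sum_apply,
      ContinuousLinearMap.proj_apply, smul_eq_mul, KA_J, Foliation.vec]
    ring
  unfold KA_D
  rw [KA_alpha_eq]
  simp only [cross_apply]
  fin_cases j
  · exact key 1 2
  · exact key 2 0
  · exact key 0 1

theorem KA_hasFD (𝓕 : Foliation) (y : V) : DifferentiableAt ℂ 𝓕.alpha y := by
  rw [differentiableAt_pi]
  intro j
  obtain ⟨L, hL, -⟩ := KA_comp_deriv 𝓕 y j
  exact hL.differentiableAt

theorem KA_fd_comp (𝓕 : Foliation) (y v : V) (j : Fin 3) :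
    fderiv ℂ (fun x => 𝓕.alpha x j) y v = KA_D (KA_J 𝓕 y) y (𝓕.vec y) v j := by
  obtain ⟨L, hL, hL2⟩ := KA_comp_deriv 𝓕 y j
  rw [hL.fderiv]
  exact hL2 v

theorem KA_fd (𝓕 : Foliation) (y v : V) :
    fderiv ℂ 𝓕.alpha y v = KA_D (KA_J 𝓕 y) y (𝓕.vec y) v := by
  funext j
  have h := hasFDerivAt_pi'.1 (KA_hasFD 𝓕 y).hasFDerivAt j
  rw [← KA_fd_comp, h.fderiv]
  rfl

theorem KA_bac (X y F : V) : crossProduct X (crossProduct y F) =
    (∑ j, X j * F j) • y - (∑ j, X j * y j) • F := by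
  rw [cross_apply, cross_apply]
  funext j
  simp only [Fin.sum_univ_three, Pi.sub_apply, Pi.smul_apply, smul_eq_mul]
  fin_cases j
  · simp only [Fin.zero_eta, Matrix.cons_val_zero, Matrix.cons_val_one, Matrix.cons_val]
    ring
  · simp only [Fin.mk_one, Matrix.cons_val_zero, Matrix.cons_val_one, Matrix.cons_val]
    ring
  · simp only [Fin.reduceFinMk, Matrix.cons_val_zero, Matrix.cons_val_one, Matrix.cons_val]
    ring

theorem KA_nsq (a b : ℂ) (y w : V) (h : herm w y = 0) :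
    nsq (a • y - b • w) = Complex.normSq a * nsq y + Complex.normSq b * nsq w := by
  have h1 : ∑ j, y j * conj (w j) = 0 := by
    have h2 := congrArg conj h
    unfold herm at h2
    rw [map_sum, map_zero] at h2
    rw [← h2]
    refine Finset.sum_congr rfl fun j _ => ?_
    rw [map_mul, Complex.conj_conj, mul_comm]
  have h3 : ∑ j, ((a * y j) * conj (b * w j)).re = 0 := by
    rw [← Complex.re_sum]
    have h4 : ∑ j, (a * y j) * conj (b * w j) = a * conj b * ∑ j, y j * conj (w j) := by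
      rw [Finset.mul_sum]
      refine Finset.sum_congr rfl fun j _ => ?_
      rw [map_mul]
      ring
    rw [h4, h1, mul_zero, Complex.zero_re]
  unfold nsq
  have h5 : ∀ j, Complex.normSq ((a • y - b • w) j) = Complex.normSq a * Complex.normSq (y j) +
      Complex.normSq b * Complex.normSq (w j) - 2 * ((a * y j) * conj (b * w j)).re := by
    intro j
    rw [Pi.sub_apply, Pi.smul_apply, Pi.smul_apply, smul_eq_mul, smul_eq_mul, Complex.normSq_sub,
      Complex.normSq_mul, Complex.normSq_mul]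
  rw [Finset.sum_congr rfl fun j _ => h5 j, Finset.sum_sub_distrib, Finset.sum_add_distrib,
    ← Finset.mul_sum, ← Finset.mul_sum, ← Finset.mul_sum, h3, mul_zero, sub_zero]

theorem KA_alg1 (J : Fin 3 → Fin 3 → ℂ) (y F c : V) :
    ∑ j, KA_D J y F c j * y j = -∑ j, c j * (crossProduct y F) j := by
  unfold KA_D
  rw [cross_apply, cross_apply, cross_apply]
  simp only [Fin.sum_univ_three, Pi.add_apply, Matrix.cons_val_zero, Matrix.cons_val_one,
    Matrix.cons_val]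
  ring

theorem KA_alg2 (J : Fin 3 → Fin 3 → ℂ) (y F c w : V) (a d : ℂ)
    (he : ∀ j, ∑ k, J j k * y k = d * F j) (hF : ∀ j, F j = a * y j + w j) :
    ∑ j, KA_D J y F c j * w j - ∑ j, c j * KA_D J y F w j =
      ((∑ j, J j j) - (d + 2) * a) * (-∑ j, c j * (crossProduct y F) j) := by
  have e0 := he 0
  have e1 := he 1
  have e2 := he 2
  have f0 := hF 0
  have f1 := hF 1
  have f2 := hF 2
  unfold KA_D
  rw [cross_apply, cross_apply, cross_apply, cross_apply, cross_apply]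
  simp only [Fin.sum_univ_three, Pi.add_apply, Matrix.cons_val_zero, Matrix.cons_val_one,
    Matrix.cons_val] at e0 e1 e2 ⊢
  rw [f0, f1, f2] at *
  linear_combination (-(c 1 * w 2 - c 2 * w 1)) * e0 + (-(c 2 * w 0 - c 0 * w 2)) * e1 +
    (-(c 0 * w 1 - c 1 * w 0)) * e2

theorem KA_alg3 (J : Fin 3 → Fin 3 → ℂ) (y F : V) (d : ℂ)
    (he : ∀ j, ∑ k, J j k * y k = d * F j) (j : Fin 3) :
    KA_D J y F y j = (d + 1) * (crossProduct y F) j := by
  unfold KA_D
  have h : (fun j => ∑ k, J j k * y k) = fun j => d * F j := funext he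
  rw [h, cross_apply, cross_apply]
  fin_cases j
  · simp only [Pi.add_apply, Fin.zero_eta, Matrix.cons_val_zero]
    ring
  · simp only [Pi.add_apply, Fin.mk_one, Matrix.cons_val_one, Matrix.cons_val_zero]
    ring
  · simp only [Pi.add_apply, Fin.reduceFinMk, Matrix.cons_val]
    ring

theorem KA_lin (J : Fin 3 → Fin 3 → ℂ) (y F : V) (a : ℂ) (v w : V) (j : Fin 3) :
    KA_D J y F (fun i => a * v i + w i) j = a * KA_D J y F v j + KA_D J y F w j := by
  unfold KA_D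
  rw [cross_apply, cross_apply, cross_apply, cross_apply, cross_apply, cross_apply]
  simp only [Fin.sum_univ_three, Pi.add_apply]
  fin_cases j
  · simp only [Fin.zero_eta, Matrix.cons_val_zero]
    ring
  · simp only [Fin.mk_one, Matrix.cons_val_one, Matrix.cons_val_zero]
    ring
  · simp only [Fin.reduceFinMk, Matrix.cons_val]
    ring

theorem KA_euler (𝓕 : Foliation) (y : V) (j : Fin 3) :
    ∑ k, KA_J 𝓕 y j k * y k = (𝓕.deg : ℂ) * 𝓕.vec y j := by
  have h := (𝓕.hom j).sum_X_mul_pderiv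
  have h2 := congrArg (MvPolynomial.eval y) h
  rw [map_sum, map_nsmul] at h2
  unfold KA_J Foliation.vec
  rw [nsmul_eq_mul] at h2
  rw [← h2]
  refine Finset.sum_congr rfl fun k _ => ?_
  rw [map_mul, MvPolynomial.eval_X, mul_comm]

theorem KA_normSq_diff {H : V → ℂ} {y : V} (hH : DifferentiableAt ℂ H y) :
    DifferentiableAt ℝ (fun q => Complex.normSq (H q)) y := by
  have h1 : DifferentiableAt ℝ H y := (hH.hasFDerivAt.restrictScalars ℝ).differentiableAt
  have h2 : (fun q => Complex.normSq (H q)) = fun q => ‖H q‖ ^ 2 := by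
    funext q
    exact Complex.normSq_eq_norm_sq _
  rw [h2]
  exact h1.norm_sq ℝ

theorem KA_nsq_deriv {H : V → V} {y : V} (hH : ∀ j, DifferentiableAt ℂ (fun q => H q j) y) :
    DifferentiableAt ℝ (fun q => nsq (H q)) y ∧ ∀ v, fderiv ℝ (fun q => nsq (H q)) y v =
      2 * (∑ j, conj (H y j) * fderiv ℂ (fun q => H q j) y v).re := by
  have h1 : ∀ j, DifferentiableAt ℝ (fun q => Complex.normSq (H q j)) y := fun j =>
    KA_normSq_diff (hH j)
  have h2 : (fun q => nsq (H q)) = fun q => ∑ j, Complex.normSq (H q j) := rfl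
  have h3 : HasFDerivAt (fun q => ∑ j, Complex.normSq (H q j))
      (∑ j, fderiv ℝ (fun q => Complex.normSq (H q j)) y) y :=
    HasFDerivAt.fun_sum fun j _ => (h1 j).hasFDerivAt
  constructor
  · rw [h2]
    exact h3.differentiableAt
  · intro v
    rw [h2, h3.fderiv, sum_apply, Complex.re_sum, Finset.mul_sum]
    refine Finset.sum_congr rfl fun j _ => ?_
    exact fderiv_normSq (hH j) v

theorem KA_la (𝓕 : Foliation) (y : V) (hy : nsq y = 1) (h0 : 𝓕.alpha y ≠ 0) (v : V) :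
    fderiv ℝ 𝓕.la y v = 2 * ((∑ j, conj (𝓕.alpha y j) * KA_D (KA_J 𝓕 y) y (𝓕.vec y) v j) /
      (nsq (𝓕.alpha y) : ℂ) - ((𝓕.deg : ℂ) + 1) * herm v y).re := by
  have hE := nsq_pos h0
  obtain ⟨d1, d2⟩ := KA_nsq_deriv (H := 𝓕.alpha) (y := y) (fun j => by
    obtain ⟨L, hL, -⟩ := KA_comp_deriv 𝓕 y j
    exact hL.differentiableAt)
  have hid : ∀ j : Fin 3, HasFDerivAt (fun q : V => q j) (ContinuousLinearMap.proj j : V →L[ℂ] ℂ) y :=
    fun j => (ContinuousLinearMap.proj j : V →L[ℂ] ℂ).hasFDerivAt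
  obtain ⟨e1, e2⟩ := KA_nsq_deriv (H := fun q : V => q) (y := y) (fun j => (hid j).differentiableAt)
  have e1' : DifferentiableAt ℝ nsq y := e1
  have hf : HasFDerivAt 𝓕.la ((nsq (𝓕.alpha y))⁻¹ • fderiv ℝ (fun q => nsq (𝓕.alpha q)) y -
      ((𝓕.deg : ℝ) + 1) • ((nsq y)⁻¹ • fderiv ℝ nsq y)) y :=
    (d1.hasFDerivAt.log hE.ne').sub ((e1'.hasFDerivAt.log (by rw [hy]; norm_num)).const_mul _)
  have e3 : fderiv ℝ nsq y v = 2 * (herm v y).re := by
    have := e2 v
    rw [show (fun q : V => nsq q) = nsq from rfl] at this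
    rw [this]
    unfold herm
    congr 2
    refine Finset.sum_congr rfl fun j _ => ?_
    rw [(hid j).fderiv, mul_comm]
    rfl
  rw [hf.fderiv]
  simp only [sub_apply, smul_apply, smul_eq_mul]
  rw [d2 v, e3, hy]
  simp only [KA_fd_comp]
  rw [Complex.sub_re]
  have h5 : ((∑ j, conj (𝓕.alpha y j) * KA_D (KA_J 𝓕 y) y (𝓕.vec y) v j) /
      (nsq (𝓕.alpha y) : ℂ)).re = (nsq (𝓕.alpha y))⁻¹ *
      (∑ j, conj (𝓕.alpha y j) * KA_D (KA_J 𝓕 y) y (𝓕.vec y) v j).re := by
    rw [Complex.div_ofReal_re]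
    ring
  have h6 : (((𝓕.deg : ℂ) + 1) * herm v y).re = ((𝓕.deg : ℝ) + 1) * (herm v y).re := by
    have : ((𝓕.deg : ℂ) + 1) = (((𝓕.deg : ℝ) + 1 : ℝ) : ℂ) := by push_cast; rfl
    rw [this, Complex.re_ofReal_mul]
  rw [h5, h6]
  ring

theorem KA_DI (J : Fin 3 → Fin 3 → ℂ) (y F v : V) (j : Fin 3) :
    KA_D J y F (Complex.I • v) j = Complex.I * KA_D J y F v j := by
  have h := KA_lin J y F Complex.I v 0 j
  have h2 : (fun i => Complex.I * v i + (0 : V) i) = Complex.I • v := by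
    funext i
    simp
  have h3 : KA_D J y F 0 j = 0 := by
    unfold KA_D
    have h4 : (fun j : Fin 3 => ∑ k, J j k * (0 : V) k) = 0 := by
      funext i
      simp
    rw [h4]
    simp
  rw [h2, h3, add_zero] at h
  exact h

theorem KA_gradm (𝓕 : Foliation) (y : V) (hy : nsq y = 1) (h0 : 𝓕.alpha y ≠ 0) (v : V) :
    gradm 𝓕.la 𝓕.la y v =
      Complex.normSq ((∑ j, conj (𝓕.alpha y j) * KA_D (KA_J 𝓕 y) y (𝓕.vec y) v j) /
      (nsq (𝓕.alpha y) : ℂ) - ((𝓕.deg : ℂ) + 1) * herm v y) := by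
  unfold gradm
  rw [KA_la 𝓕 y hy h0, KA_la 𝓕 y hy h0]
  have h1 : (∑ j, conj (𝓕.alpha y j) * KA_D (KA_J 𝓕 y) y (𝓕.vec y) (Complex.I • v) j) /
      (nsq (𝓕.alpha y) : ℂ) - ((𝓕.deg : ℂ) + 1) * herm (Complex.I • v) y = Complex.I *
      ((∑ j, conj (𝓕.alpha y j) * KA_D (KA_J 𝓕 y) y (𝓕.vec y) v j) /
      (nsq (𝓕.alpha y) : ℂ) - ((𝓕.deg : ℂ) + 1) * herm v y) := by
    have h2 : herm (Complex.I • v) y = Complex.I * herm v y := by
      unfold herm
      rw [Finset.mul_sum]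
      refine Finset.sum_congr rfl fun j _ => ?_
      rw [Pi.smul_apply, smul_eq_mul, mul_assoc]
    have h3 : ∑ j, conj (𝓕.alpha y j) * KA_D (KA_J 𝓕 y) y (𝓕.vec y) (Complex.I • v) j =
        Complex.I * ∑ j, conj (𝓕.alpha y j) * KA_D (KA_J 𝓕 y) y (𝓕.vec y) v j := by
      rw [Finset.mul_sum]
      refine Finset.sum_congr rfl fun j _ => ?_
      rw [KA_DI]
      ring
    rw [h2, h3]
    ring
  rw [h1, Complex.normSq_apply, Complex.I_mul_re]
  ring

theorem K2_le (𝓕 : Foliation) (y : V) (hy : nsq y = 1) (h0 : 𝓕.alpha y ≠ 0) :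
    𝓕.K2 y ≤ 3 * (1 + gradm 𝓕.la 𝓕.la y (𝓕.vec y) / nsq (𝓕.alpha y) +
      Complex.normSq (𝓕.dv y) / nsq (𝓕.alpha y)) := by
  have hE := nsq_pos h0
  set η := 𝓕.alpha y with hη
  set F := 𝓕.vec y with hFdef
  set J := KA_J 𝓕 y with hJ
  have hηF : η = crossProduct y F := rfl
  set a := herm F y with ha
  set w : V := fun j => F j - a * y j with hw
  set c : V := fun j => conj (η j) with hc
  set E := nsq η with hEd
  have hEc : (E : ℂ) ≠ 0 := by exact_mod_cast hE.ne'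
  have hFw : ∀ j, F j = a * y j + w j := by
    intro j
    simp only [hw]
    ring
  have hyy : ∑ j, y j * conj (y j) = 1 := by
    have h1 : ((nsq y : ℝ) : ℂ) = 1 := by
      rw [hy]
      norm_num
    rw [← h1]
    unfold nsq
    push_cast
    exact Finset.sum_congr rfl fun j _ => Complex.mul_conj _
  have hwy : herm w y = 0 := by
    unfold herm
    have h1 : ∀ j, w j * conj (y j) = F j * conj (y j) - a * (y j * conj (y j)) := by
      intro j
      simp only [hw]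
      ring
    rw [Finset.sum_congr rfl fun j _ => h1 j, Finset.sum_sub_distrib, ← Finset.mul_sum, hyy,
      mul_one]
    exact sub_self _
  have hcη : ∑ j, c j * η j = (E : ℂ) := by
    rw [hEd]
    unfold nsq
    push_cast
    refine Finset.sum_congr rfl fun j _ => ?_
    simp only [hc]
    rw [mul_comm, Complex.mul_conj]
  have he := KA_euler 𝓕 y
  -- norm of w
  have hnw : nsq w = E := by
    have h1 := KA_nsq a (-1) y w hwy
    have h2 : a • y - (-1 : ℂ) • w = F := by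
      funext j
      rw [Pi.sub_apply, Pi.smul_apply, Pi.smul_apply, smul_eq_mul, smul_eq_mul, hFw j]
      ring
    rw [h2, hy] at h1
    have h3 := nsq_cross y F
    rw [← hηF, hy] at h3
    have h4 : Complex.normSq (-1 : ℂ) = 1 := by simp
    rw [h4] at h1
    rw [hEd, h3, h1]
    ring
  set X := KA_D J y F c with hX
  have hXy : ∑ j, X j * y j = -(E : ℂ) := by
    rw [hX, KA_alg1, ← hηF, hcη]
  have hB := KA_alg2 J y F c w a (𝓕.deg : ℂ) he hFw
  rw [← hX, ← hηF, hcη] at hB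
  set B := ∑ j, c j * KA_D J y F w j with hBd
  have hdv : 𝓕.dv y = (∑ j, J j j) - ((𝓕.deg : ℂ) + 2) * a := by
    unfold Foliation.dv
    rw [hy]
    simp only [Complex.ofReal_one, div_one]
    rfl
  rw [← hdv] at hB
  -- K2
  have hK : 𝓕.K2 y = (E ^ 3 + Complex.normSq (∑ j, X j * w j)) / E ^ 3 := by
    unfold Foliation.K2
    rw [KA_fd]
    show nsq (crossProduct X η) / E ^ 3 = _
    rw [hηF, KA_bac]
    have h1 : (∑ j, X j * F j) • y - (∑ j, X j * y j) • F =
        (∑ j, X j * w j) • y - (∑ j, X j * y j) • w := by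
      have h2 : ∑ j, X j * F j = a * (∑ j, X j * y j) + ∑ j, X j * w j := by
        rw [Finset.mul_sum, ← Finset.sum_add_distrib]
        refine Finset.sum_congr rfl fun j _ => ?_
        rw [hFw j]
        ring
      funext j
      simp only [Pi.sub_apply, Pi.smul_apply, smul_eq_mul]
      rw [h2, hFw j]
      ring
    rw [h1, KA_nsq _ _ _ _ hwy, hy, hnw, hXy, Complex.normSq_neg, Complex.normSq_ofReal]
    congr 1
    ring
  -- gradm
  have hG : gradm 𝓕.la 𝓕.la y F * E ^ 2 = Complex.normSq B := by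
    rw [KA_gradm 𝓕 y hy h0]
    have h1 : (∑ j, conj (𝓕.alpha y j) * KA_D (KA_J 𝓕 y) y (𝓕.vec y) F j) =
        a * (((𝓕.deg : ℂ) + 1) * (E : ℂ)) + B := by
      have h2 : F = fun i => a * y i + w i := funext hFw
      have h3 : ∀ j, conj (𝓕.alpha y j) * KA_D (KA_J 𝓕 y) y (𝓕.vec y) F j =
          a * (((𝓕.deg : ℂ) + 1) * (c j * η j)) + c j * KA_D J y F w j := by
        intro j
        have h4 : KA_D (KA_J 𝓕 y) y (𝓕.vec y) F j = a * KA_D J y F y j + KA_D J y F w j := by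
          show KA_D J y F F j = _
          conv_lhs => rw [show KA_D J y F F j = KA_D J y F (fun i => a * y i + w i) j from by
            rw [← h2]]
          exact KA_lin J y F a y w j
        rw [h4, KA_alg3 J y F (𝓕.deg : ℂ) he j, ← hηF]
        show c j * _ = _
        ring
      rw [Finset.sum_congr rfl fun j _ => h3 j, Finset.sum_add_distrib, ← Finset.mul_sum,
        ← Finset.mul_sum, hcη]
    rw [h1]
    have h5 : (a * (((𝓕.deg : ℂ) + 1) * (E : ℂ)) + B) / (E : ℂ) - ((𝓕.deg : ℂ) + 1) * herm F y =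
        B / (E : ℂ) := by
      rw [← ha]
      field_simp
      ring
    rw [h5, map_div₀, Complex.normSq_ofReal]
    field_simp
  have hXw : ∑ j, X j * w j = B - 𝓕.dv y * (E : ℂ) := by
    linear_combination hB
  have hle : Complex.normSq (∑ j, X j * w j) ≤ 2 * Complex.normSq B +
      2 * (Complex.normSq (𝓕.dv y) * E ^ 2) := by
    rw [hXw]
    have h1 : ∀ z u : ℂ, Complex.normSq (z - u) ≤ 2 * Complex.normSq z + 2 * Complex.normSq u := by
      intro z u
      simp only [Complex.normSq_apply, Complex.sub_re, Complex.sub_im]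
      nlinarith [sq_nonneg (z.re + u.re), sq_nonneg (z.im + u.im)]
    have h2 := h1 B (𝓕.dv y * (E : ℂ))
    rw [Complex.normSq_mul, Complex.normSq_ofReal] at h2
    calc _ ≤ _ := h2
      _ = _ := by ring
  rw [← hG] at hle
  have hgn := gradm_self_nonneg 𝓕.la y F
  have hdn := Complex.normSq_nonneg (𝓕.dv y)
  rw [hK]
  rw [div_le_iff₀ (by positivity)]
  have h7 : 3 * (1 + gradm 𝓕.la 𝓕.la y F / E + Complex.normSq (𝓕.dv y) / E) * E ^ 3 =
      3 * E ^ 3 + 3 * (gradm 𝓕.la 𝓕.la y F * E ^ 2) + 3 * (Complex.normSq (𝓕.dv y) * E ^ 2) := by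
    field_simp
  rw [h7]
  have h8 : 0 ≤ gradm 𝓕.la 𝓕.la y F * E ^ 2 := by positivity
  have h9 : 0 ≤ Complex.normSq (𝓕.dv y) * E ^ 2 := by positivity
  have h10 : 0 ≤ E ^ 3 := by positivity
  linarith

theorem measurable_K2 (𝓕 : Foliation) : Measurable 𝓕.K2 := by
  have hev : ∀ P : MvPolynomial (Fin 3) ℂ, Continuous (fun x : V => MvPolynomial.eval x P) :=
    fun P => MvPolynomial.continuous_eval P
  have hal : ∀ j, Continuous (fun x : V => 𝓕.alpha x j) := by
    intro j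
    rw [KA_alpha_eq]
    fin_cases j
    · exact ((continuous_apply 1).mul (hev _)).sub ((continuous_apply 2).mul (hev _))
    · exact ((continuous_apply 2).mul (hev _)).sub ((continuous_apply 0).mul (hev _))
    · exact ((continuous_apply 0).mul (hev _)).sub ((continuous_apply 1).mul (hev _))
  have hcc : ∀ j, Continuous (fun x : V => conj (𝓕.alpha x j)) := fun j =>
    Complex.continuous_conj.comp (hal j)
  have hvec : ∀ j, Continuous (fun x : V => 𝓕.vec x j) := fun j => hev (𝓕.F j)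
  have hJ : ∀ j k, Continuous (fun x : V => KA_J 𝓕 x j k) := fun j k => hev _
  have hJc : ∀ j, Continuous (fun x : V => ∑ k, KA_J 𝓕 x j k * conj (𝓕.alpha x k)) := fun j =>
    continuous_finsetSum _ fun k _ => (hJ j k).mul (hcc k)
  have hX : ∀ j, Continuous (fun x : V =>
      KA_D (KA_J 𝓕 x) x (𝓕.vec x) (fun j => conj (𝓕.alpha x j)) j) := by
    intro j
    unfold KA_D
    simp only [cross_apply]
    fin_cases j
    · exact (((hcc 1).mul (hvec 2)).sub ((hcc 2).mul (hvec 1))).add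
        (((continuous_apply 1).mul (hJc 2)).sub ((continuous_apply 2).mul (hJc 1)))
    · exact (((hcc 2).mul (hvec 0)).sub ((hcc 0).mul (hvec 2))).add
        (((continuous_apply 2).mul (hJc 0)).sub ((continuous_apply 0).mul (hJc 2)))
    · exact (((hcc 0).mul (hvec 1)).sub ((hcc 1).mul (hvec 0))).add
        (((continuous_apply 0).mul (hJc 1)).sub ((continuous_apply 1).mul (hJc 0)))
  have hns : ∀ H : V → V, (∀ j, Continuous (fun x => H x j)) → Continuous (fun x => nsq (H x)) := by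
    intro H hH
    unfold nsq
    exact continuous_finsetSum _ fun j _ => Complex.continuous_normSq.comp (hH j)
  have hcr : ∀ j, Continuous (fun x : V => (crossProduct (KA_D (KA_J 𝓕 x) x (𝓕.vec x)
      (fun j => conj (𝓕.alpha x j))) (𝓕.alpha x)) j) := by
    intro j
    simp only [cross_apply]
    fin_cases j
    · exact ((hX 1).mul (hal 2)).sub ((hX 2).mul (hal 1))
    · exact ((hX 2).mul (hal 0)).sub ((hX 0).mul (hal 2))
    · exact ((hX 0).mul (hal 1)).sub ((hX 1).mul (hal 0))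
  have heq : 𝓕.K2 = fun y => nsq (crossProduct (KA_D (KA_J 𝓕 y) y (𝓕.vec y)
      (fun j => conj (𝓕.alpha y j))) (𝓕.alpha y)) / nsq (𝓕.alpha y) ^ 3 := by
    funext y
    unfold Foliation.K2
    rw [KA_fd]
  rw [heq]
  exact (hns _ hcr).measurable.div ((hns _ hal).pow 3).measurable

end Pool.Agent.H24.CU

end S_H24_CU_KA

section S_H24_CU_KC

/-!
# Row KC (the divergence near a singular point)

PROOF.  `Z = vf (resA) (resB)`, `EBound` gives `ρ', C`; put `ρ'' = min ρ' ρ`.  `tau p y < r₁` with `r₁ = ρ''^2/(1 + ρ''^2)` and `nsq y = 1` imply `herm y p ≠ 0` (`tau < 1`),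
`y ∈ scone (ball 0 ρ'')` (`Frame.scone_iff`; with `q = π y`: `tau p y = tau p (chi q) = |q|^2/(1+|q|^2)`, `|q|^2 = FC76.nsq q >= ‖q‖^2`).
If `r <= nsq (alpha y)`: `y = t • chi q`, `|t| <= 1` (`nsq (chi q) >= 1`), `nsq (alpha y) = |t|^(2(deg+1)) nsq (alpha (chi q)) <= 3 nsq (Z q)` (`nsq_alpha_bounds`) and `nsq (Z q) <= L ‖q‖^2` for `‖q‖ <= 1`
(`Z 0 = 0` by `alpha_zero_iff` at `0`, `chi 0 = p`; `Z` is `C^1`, hence Lipschitz on the unit ball), so `‖q‖ >= sqrt (r/(3L)) > r/L'` with `L' > 1` depending only on `L` (`r < 1`).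
So the set is contained in `scone E`, `E = {q ∈ ball 0 ρ'' | r/L' < ‖q‖}`; `lint` with
`Φ y = normSq (dv y)` (`dv_wt`, `measurable_dv`): the integral is `<= ∫⁻_E ofReal (normSq (dv (chi q))) dM`;
`Frame.dv_chi`: `normSq (dv (chi q)) <= 2 ‖ev divp q‖^2 + 2 (deg+2)^2 * 2 * nsq (Z q)` (`|A conj q_1 + B conj q_2|^2 <= nsq(Z) |q|^2`, `|q|^2 <= 2`, `nsq chi >= 1`);
`EBound` at `r/L'` (`ev 1 q = 1 > r/L'`) and `sin_fin`.  `log (L'/r) = log L' + log (1/r)`.
-/

namespace Pool.Agent.H24.CU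

open MeasureTheory
open scoped ComplexConjugate

variable {𝓕 : Foliation} {μ : Measure V} {p b c : V} {ρ : ℝ} {M : Measure (ℂ × ℂ)}

theorem KC_lip (f : FC76.P2) (h0 : FC76.ev f 0 = 0) :
    ∃ K : ℝ, 0 ≤ K ∧ ∀ q : ℂ × ℂ, ‖q‖ ≤ 1 → ‖FC76.ev f q‖ ≤ K * ‖q‖ := by
  have hc : ContinuousOn (fderiv ℂ (FC76.ev f)) (Metric.closedBall 0 1) :=
    ((FC76.contDiff_ev f).continuous_fderiv (by simp)).continuousOn
  obtain ⟨C, hC⟩ := (isCompact_closedBall (0 : ℂ × ℂ) 1).exists_bound_of_continuousOn hc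
  refine ⟨C, ?_, ?_⟩
  · exact (norm_nonneg _).trans (hC 0 (by simp))
  · intro q hq
    have h1 := Convex.norm_image_sub_le_of_norm_fderiv_le (𝕜 := ℂ) (f := FC76.ev f)
      (s := Metric.closedBall (0 : ℂ × ℂ) 1) (x := 0) (y := q) (C := C)
      (fun x _ => (FC76.contDiff_ev f).differentiable (by simp) x) hC
      (convex_closedBall _ _) (by simp) (by simpa using hq)
    rw [h0, sub_zero, sub_zero] at h1
    exact h1

theorem KC_cs (A B x y : ℂ) : ‖A * conj x + B * conj y‖ ^ 2 ≤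
    (‖A‖ ^ 2 + ‖B‖ ^ 2) * (‖x‖ ^ 2 + ‖y‖ ^ 2) := by
  have h1 : ‖A * conj x + B * conj y‖ ≤ ‖A‖ * ‖x‖ + ‖B‖ * ‖y‖ := by
    refine (norm_add_le _ _).trans ?_
    rw [norm_mul, norm_mul, RCLike.norm_conj, RCLike.norm_conj]
  have h2 := pow_le_pow_left₀ (norm_nonneg _) h1 2
  nlinarith [sq_nonneg (‖A‖ * ‖y‖ - ‖B‖ * ‖x‖)]

/-- a unit vector close to `p` is in the chart -/
theorem KC_mem (h : Frame p b c) {δ : ℝ} (hδ : 0 < δ) {y : V} (hy : nsq y = 1)
    (ht : tau p y < δ ^ 2 / (1 + δ ^ 2)) :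
    ∃ q : ℂ × ℂ, ‖q‖ < δ ∧ ∃ t : ℂ, t ≠ 0 ∧ y = t • chi p b c q ∧ Complex.normSq t ≤ 1 := by
  have hne : herm y p ≠ 0 := by
    intro h0
    have h1 : herm p y = 0 := by
      have h2 : herm p y = conj (herm y p) := by
        unfold herm
        rw [map_sum]
        refine Finset.sum_congr rfl fun j _ => ?_
        rw [map_mul, Complex.conj_conj, mul_comm]
      rw [h2, h0, map_zero]
    unfold tau at ht
    rw [h1, map_zero, zero_div, sub_zero, lt_div_iff₀ (by positivity)] at ht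
    linarith
  obtain ⟨q, hq⟩ : ∃ q : ℂ × ℂ, q = (herm y b / herm y p, herm y c / herm y p) := ⟨_, rfl⟩
  have hyq : y = herm y p • chi p b c q := by
    conv_lhs => rw [h.expand y]
    rw [hq]
    unfold chi
    rw [smul_add, smul_add, smul_smul, smul_smul, mul_div_cancel₀ _ hne, mul_div_cancel₀ _ hne]
  have hnq : 0 ≤ FC76.nsq q := FC76.nsq_nonneg q
  have htau : tau p y = FC76.nsq q / (1 + FC76.nsq q) := by
    have h1 : tau ((1 : ℂ) • p) (herm y p • chi p b c q) = tau p (chi p b c q) :=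
      tau_smul 1 _ one_ne_zero hne _ _
    rw [one_smul, ← hyq, h.tau_chi] at h1
    exact h1
  have hlt : FC76.nsq q < δ ^ 2 := by
    rw [htau, div_lt_div_iff₀ (by positivity) (by positivity)] at ht
    linarith
  refine ⟨q, ?_, herm y p, hne, hyq, ?_⟩
  · have h1 := (FC76.norm_sq_le_nsq q).1
    by_contra hcon
    push Not at hcon
    have h2 := pow_le_pow_left₀ hδ.le hcon 2
    linarith
  · have h1 : Complex.normSq (herm y p) * (1 + FC76.nsq q) = 1 := by
      rw [← h.nsq_chi q, ← nsq_smul, ← hyq, hy]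
    have h2 := Complex.normSq_nonneg (herm y p)
    nlinarith

theorem SChart.dv_bound [IsFiniteMeasure μ] (h : SChart 𝓕 μ p b c ρ M) (hp : 𝓕.alpha p = 0)
    (hs0 : μ {x | 𝓕.alpha x = 0} = 0)
    (hE : FC76.EBound (resA 𝓕 p b c) (resB 𝓕 p b c) 1 M) :
    ∃ r₁ C : ℝ, 0 < r₁ ∧ 0 ≤ C ∧ ∀ r : ℝ, 0 < r → r < 1 →
      ∫⁻ y in {y | nsq y = 1 ∧ tau p y < r₁ ∧ r ≤ nsq (𝓕.alpha y)},
        ENNReal.ofReal (Complex.normSq (𝓕.dv y) / nsq (𝓕.alpha y)) ∂μ ≤
      ENNReal.ofReal (C * (1 + Real.log (1 / r))) := by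
  obtain ⟨ρ', hρ', C, hC⟩ := hE
  have hF := h.frame
  -- notation
  obtain ⟨A, hA⟩ : ∃ A, A = resA 𝓕 p b c := ⟨_, rfl⟩
  obtain ⟨B, hB⟩ : ∃ B, B = resB 𝓕 p b c := ⟨_, rfl⟩
  have hfin := h.sin_fin hs0
  rw [← hA, ← hB] at hC hfin
  obtain ⟨S, hS⟩ : ∃ S : ENNReal, S = ∫⁻ q, ENNReal.ofReal (FC76.nsq (FC76.vf A B q)) ∂M := ⟨_, rfl⟩
  have hSt : S ≠ ⊤ := by rw [hS]; exact hfin.ne
  have hchi0 : chi p b c 0 = p := by
    unfold chi
    simp
  have hz := (hF.alpha_zero_iff 𝓕 0).1 (by rw [hchi0]; exact hp)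
  rw [← hA, ← hB] at hz
  obtain ⟨KA, hKA, hKA'⟩ := KC_lip A hz.1
  obtain ⟨KB, hKB, hKB'⟩ := KC_lip B hz.2
  obtain ⟨L, hL⟩ : ∃ L : ℝ, L = KA ^ 2 + KB ^ 2 + 1 := ⟨_, rfl⟩
  have hL1 : 1 ≤ L := by rw [hL]; nlinarith [sq_nonneg KA, sq_nonneg KB]
  have hZL : ∀ q : ℂ × ℂ, ‖q‖ ≤ 1 → FC76.nsq (FC76.vf A B q) ≤ L * ‖q‖ ^ 2 := by
    intro q hq
    have h1 := pow_le_pow_left₀ (norm_nonneg _) (hKA' q hq) 2
    have h2 := pow_le_pow_left₀ (norm_nonneg _) (hKB' q hq) 2
    show ‖FC76.ev A q‖ ^ 2 + ‖FC76.ev B q‖ ^ 2 ≤ L * ‖q‖ ^ 2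
    rw [hL]
    nlinarith [sq_nonneg ‖q‖]
  obtain ⟨δ, hδ⟩ : ∃ δ : ℝ, δ = min ρ' ρ := ⟨_, rfl⟩
  have hδ0 : 0 < δ := by rw [hδ]; exact lt_min hρ' h.r_pos
  have hδρ' : δ ≤ ρ' := by rw [hδ]; exact min_le_left _ _
  have hδρ : δ ≤ ρ := by rw [hδ]; exact min_le_right _ _
  have hδ1 : δ ≤ 1 := hδρ.trans h.r_le
  obtain ⟨L', hL'⟩ : ∃ L' : ℝ, L' = 3 * L + 1 := ⟨_, rfl⟩
  have hL'1 : 1 < L' := by rw [hL']; linarith
  have hlogL' : 0 ≤ Real.log L' := Real.log_nonneg hL'1.le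
  obtain ⟨D, hD⟩ : ∃ D : ℝ, D = 4 * ((𝓕.deg : ℝ) + 2) ^ 2 := ⟨_, rfl⟩
  have hD0 : 0 ≤ D := by rw [hD]; positivity
  refine ⟨δ ^ 2 / (1 + δ ^ 2), 2 * |C| * (1 + Real.log L') + D * S.toReal, by positivity,
    by positivity, ?_⟩
  intro r hr hr1
  have hlogr : 0 ≤ Real.log (1 / r) := Real.log_nonneg (by rw [le_div_iff₀ hr]; linarith)
  obtain ⟨E, hEd⟩ : ∃ E : Set (ℂ × ℂ), E = {q | q ∈ Metric.ball (0 : ℂ × ℂ) δ ∧ r / L' < ‖q‖} :=
    ⟨_, rfl⟩
  have hEm : MeasurableSet E := by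
    rw [hEd]
    exact Metric.isOpen_ball.measurableSet.inter
      (isOpen_lt continuous_const continuous_norm).measurableSet
  have hEρ : E ⊆ Metric.ball 0 ρ := by
    rw [hEd]
    rintro q ⟨hq, -⟩
    exact Metric.ball_subset_ball hδρ hq
  have hsub : {y | nsq y = 1 ∧ tau p y < δ ^ 2 / (1 + δ ^ 2) ∧ r ≤ nsq (𝓕.alpha y)} ⊆
      scone p b c E := by
    rintro y ⟨hy, hty, hry⟩
    obtain ⟨q, hq, t, ht0, hyt, ht1⟩ := KC_mem hF hδ0 hy hty
    refine ⟨hy, q, ?_, t, ht0, hyt⟩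
    rw [hEd]
    refine ⟨by rwa [mem_ball_zero_iff], ?_⟩
    have hq1 : ‖q‖ ≤ 1 := hq.le.trans hδ1
    have h1 := (hF.nsq_alpha_bounds 𝓕 q hq1).2
    rw [← hA, ← hB] at h1
    have h2 := hZL q hq1
    have h3 : nsq (𝓕.alpha y) ≤ nsq (𝓕.alpha (chi p b c q)) := by
      rw [hyt, alpha_smul, nsq_smul, map_pow]
      have h4 : Complex.normSq t ^ (𝓕.deg + 1) ≤ 1 := pow_le_one₀ (Complex.normSq_nonneg t) ht1
      exact mul_le_of_le_one_left (nsq_nonneg _) h4
    have h5 : r ≤ 3 * (L * ‖q‖ ^ 2) := by linarith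
    by_contra hcon
    push Not at hcon
    have hL'0 : 0 < L' := by linarith
    have h6 : ‖q‖ ^ 2 ≤ (r / L') ^ 2 := pow_le_pow_left₀ (norm_nonneg _) hcon 2
    have h7 : r * L' ^ 2 ≤ 3 * L * r ^ 2 := by
      have h8 : r ≤ 3 * (L * (r / L') ^ 2) := by nlinarith
      rw [div_pow] at h8
      have h9 : 3 * (L * (r ^ 2 / L' ^ 2)) = (3 * L * r ^ 2) / L' ^ 2 := by ring
      rw [h9, le_div_iff₀ (by positivity)] at h8
      exact h8
    have h8 : L' ^ 2 ≤ 3 * L * r := by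
      have : r * L' ^ 2 ≤ r * (3 * L * r) := by nlinarith
      exact le_of_mul_le_mul_left this hr
    rw [hL'] at h8
    nlinarith
  -- transfer to the chart
  have hlint := h.lint (fun y => Complex.normSq (𝓕.dv y))
    (by
      have h1 : (fun y => Complex.normSq (𝓕.dv y)) = fun y => ‖𝓕.dv y‖ ^ 2 := by
        funext y
        rw [Complex.normSq_eq_norm_sq]
      rw [h1]
      exact (measurable_dv 𝓕).norm.pow_const 2) (dv_wt 𝓕) E hEm hEρ
  have hAc : Continuous (FC76.ev A) := (FC76.contDiff_real_ev A).continuous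
  have hBc : Continuous (FC76.ev B) := (FC76.contDiff_real_ev B).continuous
  have hdc : Continuous (FC76.ev (FC76.divp A B)) := (FC76.contDiff_real_ev _).continuous
  have hpt : ∀ q ∈ E, ENNReal.ofReal (Complex.normSq (𝓕.dv (chi p b c q))) ≤
      2 * ENNReal.ofReal (‖FC76.ev (FC76.divp A B) q‖ ^ 2) +
        ENNReal.ofReal D * ENNReal.ofReal (FC76.nsq (FC76.vf A B q)) := by
    intro q hq
    rw [hEd] at hq
    have hq1 : ‖q‖ ≤ 1 := by
      have := mem_ball_zero_iff.1 hq.1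
      linarith
    have h2 : (2 : ENNReal) = ENNReal.ofReal 2 := by simp
    rw [h2, ← ENNReal.ofReal_mul (by norm_num), ← ENNReal.ofReal_mul hD0,
      ← ENNReal.ofReal_add (by positivity) (mul_nonneg hD0 (FC76.nsq_nonneg _))]
    refine ENNReal.ofReal_le_ofReal ?_
    rw [hF.dv_chi 𝓕 q, ← hA, ← hB, Complex.normSq_eq_norm_sq]
    obtain ⟨u, hu⟩ : ∃ u : ℂ, u = FC76.ev (FC76.divp A B) q := ⟨_, rfl⟩
    obtain ⟨w, hw⟩ : ∃ w : ℂ, w = ((𝓕.deg : ℂ) + 2) * (FC76.ev A q * conj q.1 +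
        FC76.ev B q * conj q.2) / (nsq (chi p b c q) : ℂ) := ⟨_, rfl⟩
    rw [← hu, ← hw]
    have h3 : ‖u - w‖ ^ 2 ≤ 2 * ‖u‖ ^ 2 + 2 * ‖w‖ ^ 2 := by
      have h4 := norm_sub_le u w
      have h5 := pow_le_pow_left₀ (norm_nonneg _) h4 2
      nlinarith [sq_nonneg (‖u‖ - ‖w‖)]
    have h6 : ‖w‖ ^ 2 ≤ ((𝓕.deg : ℝ) + 2) ^ 2 * (2 * FC76.nsq (FC76.vf A B q)) := by
      have h7 : 1 ≤ nsq (chi p b c q) := by
        rw [hF.nsq_chi]
        linarith [FC76.nsq_nonneg q]
      have h8 : ‖w‖ ≤ ‖((𝓕.deg : ℂ) + 2) * (FC76.ev A q * conj q.1 + FC76.ev B q * conj q.2)‖ := by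
        rw [hw, norm_div]
        refine div_le_self (norm_nonneg _) ?_
        rw [Complex.norm_real, Real.norm_of_nonneg (by linarith)]
        exact h7
      have h9 := pow_le_pow_left₀ (norm_nonneg _) h8 2
      refine h9.trans ?_
      rw [norm_mul, mul_pow]
      have h10 : ‖((𝓕.deg : ℂ) + 2)‖ = (𝓕.deg : ℝ) + 2 := by
        have : ((𝓕.deg : ℂ) + 2) = (((𝓕.deg : ℝ) + 2 : ℝ) : ℂ) := by push_cast; rfl
        rw [this, Complex.norm_real, Real.norm_of_nonneg (by positivity)]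
      rw [h10]
      refine mul_le_mul_of_nonneg_left ?_ (by positivity)
      refine (KC_cs _ _ _ _).trans ?_
      have h11 := (FC76.norm_sq_le_nsq q).2
      have h12 : ‖q.1‖ ^ 2 + ‖q.2‖ ^ 2 ≤ 2 := by
        have h13 : FC76.nsq q ≤ 2 := by nlinarith [norm_nonneg q]
        exact h13
      have h14 : 0 ≤ ‖FC76.ev A q‖ ^ 2 + ‖FC76.ev B q‖ ^ 2 := by positivity
      show (‖FC76.ev A q‖ ^ 2 + ‖FC76.ev B q‖ ^ 2) * (‖q.1‖ ^ 2 + ‖q.2‖ ^ 2) ≤
        2 * (‖FC76.ev A q‖ ^ 2 + ‖FC76.ev B q‖ ^ 2)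
      nlinarith
    rw [hD]
    linarith
  have hmd : Measurable (fun q : ℂ × ℂ => ENNReal.ofReal (‖FC76.ev (FC76.divp A B) q‖ ^ 2)) :=
    (hdc.norm.pow 2).measurable.ennreal_ofReal
  have hmn : Measurable (fun q : ℂ × ℂ => ENNReal.ofReal (FC76.nsq (FC76.vf A B q))) := by
    have h1 : Continuous (fun q : ℂ × ℂ => FC76.nsq (FC76.vf A B q)) := by
      unfold FC76.nsq FC76.vf
      exact (hAc.norm.pow 2).add (hBc.norm.pow 2)
    exact h1.measurable.ennreal_ofReal
  have hr' : 0 < r / L' := div_pos hr (by linarith)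
  have hr'1 : r / L' < 1 := by
    rw [div_lt_one (by linarith)]
    linarith
  have hCr := hC (r / L') hr' hr'1
  have hlog' : Real.log (1 / (r / L')) = Real.log L' + Real.log (1 / r) := by
    rw [one_div_div, Real.log_div (by linarith) hr.ne', one_div, Real.log_inv]
    ring
  calc ∫⁻ y in {y | nsq y = 1 ∧ tau p y < δ ^ 2 / (1 + δ ^ 2) ∧ r ≤ nsq (𝓕.alpha y)},
        ENNReal.ofReal (Complex.normSq (𝓕.dv y) / nsq (𝓕.alpha y)) ∂μ
      ≤ ∫⁻ y in scone p b c E, ENNReal.ofReal (Complex.normSq (𝓕.dv y) / nsq (𝓕.alpha y)) ∂μ :=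
        lintegral_mono_set hsub
    _ = ∫⁻ q in E, ENNReal.ofReal (Complex.normSq (𝓕.dv (chi p b c q))) ∂M := hlint
    _ ≤ ∫⁻ q in E, (2 * ENNReal.ofReal (‖FC76.ev (FC76.divp A B) q‖ ^ 2) +
        ENNReal.ofReal D * ENNReal.ofReal (FC76.nsq (FC76.vf A B q))) ∂M :=
        setLIntegral_mono' hEm hpt
    _ = 2 * ∫⁻ q in E, ENNReal.ofReal (‖FC76.ev (FC76.divp A B) q‖ ^ 2) ∂M +
        ENNReal.ofReal D * ∫⁻ q in E, ENNReal.ofReal (FC76.nsq (FC76.vf A B q)) ∂M := by
        rw [lintegral_add_left (hmd.const_mul _), lintegral_const_mul _ hmd,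
          lintegral_const_mul _ hmn]
    _ ≤ 2 * ENNReal.ofReal (|C| * (1 + (Real.log L' + Real.log (1 / r)))) +
        ENNReal.ofReal D * S := by
        refine add_le_add (mul_le_mul_right ?_ _) (mul_le_mul_right ?_ _)
        · refine le_trans (lintegral_mono_set ?_) (hCr.trans (ENNReal.ofReal_le_ofReal ?_))
          · rw [hEd]
            rintro q ⟨hq1, hq2⟩
            refine ⟨Metric.ball_subset_ball hδρ' hq1, ?_, hq2⟩
            have : FC76.ev 1 q = 1 := by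
              unfold FC76.ev
              simp
            rw [this, norm_one]
            exact hr'1
          · rw [hlog']
            refine mul_le_mul_of_nonneg_right (le_abs_self C) (by linarith)
        · rw [hS]
          exact setLIntegral_le_lintegral _ _
    _ = ENNReal.ofReal (2 * (|C| * (1 + (Real.log L' + Real.log (1 / r)))) + D * S.toReal) := by
        have h2 : (2 : ENNReal) = ENNReal.ofReal 2 := by simp
        rw [ENNReal.ofReal_add (by positivity) (by positivity), ENNReal.ofReal_mul (p := 2) (by norm_num),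
          ENNReal.ofReal_mul hD0, ENNReal.ofReal_toReal hSt, ← h2]
    _ ≤ ENNReal.ofReal ((2 * |C| * (1 + Real.log L') + D * S.toReal) * (1 + Real.log (1 / r))) := by
        refine ENNReal.ofReal_le_ofReal ?_
        have h1 : 0 ≤ D * S.toReal * Real.log (1 / r) := by positivity
        have h2 : 0 ≤ 2 * |C| * (Real.log L' * Real.log (1 / r)) := by positivity
        nlinarith

end Pool.Agent.H24.CU

end S_H24_CU_KC

section S_H24_CU_KD

/-!
# Row KD (the energy condition (E) for closed currents)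

PROOF.  `K2_le` on the unit sphere (which carries `μ`), off `{α = 0}`: three terms, on `{r <= nsq (alpha y)}`.
Term 1: `3 μ(univ)`.  Term 2: `la_energy`.
Term 3: let `P` be the finite set of unit vectors with `alpha p = 0`, one for each line (normalise the vectors of `exists_singSet`; `alpha (t y) = t^(deg+1) alpha y`); every unit zero of `alpha`
is a unimodular multiple of some `p ∈ P`.  For each `p ∈ P` a frame (`exists_frame`), a chart (`exists_schart`), `toInv`, `hgood` with `exists_multLe` (the common zeros of `resA, resB` are the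
`q` with `alpha (chi q) = 0`: `Frame.alpha_zero_iff`, finite by `finite_zero_chart`, transported by `q ↦ ![q.1, q.2]`), so `EBound`, and `dv_bound` gives `r₁(p) > 0, C(p)`.
The set of unit vectors `y` with `r₁(p) <= tau p y` for all `p ∈ P` is compact (closed subset of the unit sphere) and does not meet `{alpha = 0}` (`tau p (t • p) = 0`), so the
continuous function `normSq (dv y)/nsq (alpha y)` is bounded on it.  Sum over the finite set `P`.
Finally `DC.K2 𝓕.F y = 𝓕.K2 y` (`K2_eq`), `DC.N (DC.eta 𝓕.F y) = nsq (𝓕.alpha y)`.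
-/

namespace Pool.Agent.H24.CU

open MeasureTheory
open scoped ComplexConjugate

/-- The density of the third term. -/
noncomputable def KD_D (𝓕 : Foliation) (y : V) : ℝ := Complex.normSq (𝓕.dv y) / nsq (𝓕.alpha y)

theorem KD_D_nonneg (𝓕 : Foliation) (y : V) : 0 ≤ KD_D 𝓕 y :=
  div_nonneg (Complex.normSq_nonneg _) (nsq_nonneg _)

theorem KD_cont_nsq : Continuous nsq := by
  unfold nsq
  exact continuous_finsetSum _ fun j _ => Complex.continuous_normSq.comp (continuous_apply j)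

theorem KD_cont_herm (p : V) : Continuous (fun y : V => herm p y) := by
  unfold herm
  exact continuous_finsetSum _ fun j _ => continuous_const.mul
    (Complex.continuous_conj.comp (continuous_apply j))

theorem KD_cont_alpha (𝓕 : Foliation) : Continuous 𝓕.alpha := by
  obtain ⟨Q, -, hQ, -⟩ := exists_alpha_poly 𝓕
  refine continuous_pi fun j => ?_
  have h : (fun x => 𝓕.alpha x j) = fun x => MvPolynomial.eval x (Q j) := funext fun x => hQ x j
  rw [h]
  exact MvPolynomial.continuous_eval _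

theorem KD_cont_vec (𝓕 : Foliation) : Continuous 𝓕.vec := by
  unfold Foliation.vec
  exact continuous_pi fun j => MvPolynomial.continuous_eval _

theorem KD_cont_dv (𝓕 : Foliation) : ContinuousOn 𝓕.dv {y | nsq y = 1} := by
  unfold Foliation.dv
  refine ContinuousOn.sub ?_ ?_
  · exact (continuous_finsetSum _ fun j _ => MvPolynomial.continuous_eval _).continuousOn
  · refine ContinuousOn.div ?_ (Complex.continuous_ofReal.comp KD_cont_nsq).continuousOn ?_
    · refine (continuous_const.mul ?_).continuousOn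
      unfold herm
      exact continuous_finsetSum _ fun j _ => ((continuous_apply j).comp (KD_cont_vec 𝓕)).mul
        (Complex.continuous_conj.comp (continuous_apply j))
    · intro y hy
      rw [show nsq y = 1 from hy, Complex.ofReal_one]
      exact one_ne_zero

theorem KD_compact_sphere : IsCompact {y : V | nsq y = 1} := by
  refine Metric.isCompact_of_isClosed_isBounded (isClosed_singleton.preimage KD_cont_nsq) ?_
  refine (Metric.isBounded_closedBall (x := (0 : V)) (r := 1)).subset ?_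
  intro y hy
  rw [mem_closedBall_zero_iff]
  refine (pi_norm_le_iff_of_nonneg zero_le_one).2 fun j => ?_
  have h1 : Complex.normSq (y j) ≤ 1 := by
    rw [← show nsq y = 1 from hy]
    exact Finset.single_le_sum (f := fun j => Complex.normSq (y j))
      (fun i _ => Complex.normSq_nonneg _) (Finset.mem_univ j)
  rw [Complex.normSq_eq_norm_sq] at h1
  nlinarith [norm_nonneg (y j)]

theorem KD_tau_cont (p : V) (hp : nsq p = 1) :
    ContinuousOn (fun y => tau p y) {y : V | nsq y = 1} := by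
  unfold tau
  refine continuousOn_const.sub (ContinuousOn.div ?_ ?_ ?_)
  · exact (Complex.continuous_normSq.comp (KD_cont_herm p)).continuousOn
  · exact (continuous_const.mul KD_cont_nsq).continuousOn
  · intro y hy
    rw [hp, show nsq y = 1 from hy]
    norm_num

theorem KD_tau_self (p : V) (hp : nsq p = 1) (c : ℂ) (hc : c ≠ 0) : tau p (c • p) = 0 := by
  have h1 : herm p (c • p) = conj c := by
    unfold herm
    have h2 : ∑ j, p j * conj ((c • p) j) = conj c * ((nsq p : ℝ) : ℂ) := by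
      unfold nsq
      push_cast
      rw [Finset.mul_sum]
      refine Finset.sum_congr rfl fun j _ => ?_
      rw [Pi.smul_apply, smul_eq_mul, map_mul, ← Complex.mul_conj]
      ring
    rw [h2, hp]
    simp
  unfold tau
  rw [h1, nsq_smul, hp, Complex.normSq_conj, mul_one, one_mul, div_self, sub_self]
  exact fun h => hc (Complex.normSq_eq_zero.mp h)

/-- Unit representatives of the singular points. -/
theorem KD_P (𝓕 : Foliation) : ∃ Q : Finset V, (∀ p ∈ Q, nsq p = 1 ∧ 𝓕.alpha p = 0) ∧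
    ∀ y : V, nsq y = 1 → 𝓕.alpha y = 0 → ∃ p ∈ Q, ∃ c : ℂ, c ≠ 0 ∧ y = c • p := by
  classical
  obtain ⟨P, hP⟩ := exists_singSet 𝓕
  obtain ⟨n, hn⟩ : ∃ n : V → V, n = fun p => (((Real.sqrt (nsq p))⁻¹ : ℝ) : ℂ) • p := ⟨_, rfl⟩
  refine ⟨(P.filter fun p => p ≠ 0 ∧ 𝓕.alpha p = 0).image n, ?_, ?_⟩
  · intro p hp
    obtain ⟨p', hp', rfl⟩ := Finset.mem_image.mp hp
    obtain ⟨_, h0, h1⟩ := Finset.mem_filter.mp hp'
    have hpos := nsq_pos h0
    rw [hn]
    constructor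
    · show nsq (_ • p') = 1
      rw [nsq_smul, Complex.normSq_ofReal, ← mul_inv, Real.mul_self_sqrt hpos.le]
      exact inv_mul_cancel₀ hpos.ne'
    · show 𝓕.alpha (_ • p') = 0
      rw [alpha_smul, h1, smul_zero]
  · intro y hy h0
    obtain ⟨p, hp, c, hc⟩ := hP y ((eta_eq 𝓕 y).trans h0)
    have hc0 : c ≠ 0 := by
      rintro rfl
      rw [hc, zero_smul, nsq_eq_zero.mpr rfl] at hy
      exact zero_ne_one hy
    have hp0 : p ≠ 0 := by
      rintro rfl
      rw [hc, smul_zero, nsq_eq_zero.mpr rfl] at hy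
      exact zero_ne_one hy
    have hap : 𝓕.alpha p = 0 := by
      rw [hc, alpha_smul] at h0
      exact (smul_eq_zero.mp h0).resolve_left (pow_ne_zero _ hc0)
    have hpos := nsq_pos hp0
    have hsq : Real.sqrt (nsq p) ≠ 0 := (Real.sqrt_pos.mpr hpos).ne'
    refine ⟨n p, Finset.mem_image.mpr ⟨p, Finset.mem_filter.mpr ⟨hp, hp0, hap⟩, rfl⟩,
      c * ((Real.sqrt (nsq p) : ℝ) : ℂ), ?_, ?_⟩
    · refine mul_ne_zero hc0 ?_
      exact_mod_cast hsq
    · rw [hn, hc]
      show c • p = _ • (_ • p)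
      rw [smul_smul, mul_assoc, ← Complex.ofReal_mul, mul_inv_cancel₀ hsq, Complex.ofReal_one,
        mul_one]

theorem KD_loc (𝓕 : Foliation) (μ : Measure V) (hμ : Harm 𝓕 μ)
    (hcl : Pool.Agent.H85.DC.CurClosed 𝓕.F μ) (hL : 𝓕.LelZero μ)
    (hgood : ∀ A B : FC76.P2, (∃ K, FC76.MultLe A B K) → FC76.Good A B)
    (p : V) (hp : nsq p = 1 ∧ 𝓕.alpha p = 0) :
    ∃ r₁ C : ℝ, 0 < r₁ ∧ 0 ≤ C ∧ ∀ r : ℝ, 0 < r → r < 1 →
      ∫⁻ y in {y | nsq y = 1 ∧ tau p y < r₁ ∧ r ≤ nsq (𝓕.alpha y)},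
        ENNReal.ofReal (Complex.normSq (𝓕.dv y) / nsq (𝓕.alpha y)) ∂μ ≤
      ENNReal.ofReal (C * (1 + Real.log (1 / r))) := by
  have hfin := hμ.fin
  obtain ⟨b, c, hF⟩ := exists_frame p hp.1
  obtain ⟨ρ, M, hS⟩ := exists_schart 𝓕 μ hF
  have hI := hS.toInv hp.2 hμ hcl hL
  have hz : {q : Fin 2 → ℂ | MvPolynomial.eval q (resA 𝓕 p b c) = 0 ∧
      MvPolynomial.eval q (resB 𝓕 p b c) = 0}.Finite := by
    refine ((finite_zero_chart 𝓕 hF).image (fun q : ℂ × ℂ => ![q.1, q.2])).subset ?_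
    rintro q ⟨h1, h2⟩
    have he : (![q 0, q 1] : Fin 2 → ℂ) = q := by
      funext i
      fin_cases i <;> rfl
    refine ⟨(q 0, q 1), ?_, he⟩
    show 𝓕.alpha (chi p b c (q 0, q 1)) = 0
    rw [hF.alpha_zero_iff]
    unfold FC76.ev
    show MvPolynomial.eval ![q 0, q 1] _ = 0 ∧ MvPolynomial.eval ![q 0, q 1] _ = 0
    rw [he]
    exact ⟨h1, h2⟩
  have hE := hgood _ _ (exists_multLe _ _ hz) 1 ρ M hS.r_pos hI
  exact hS.dv_bound hp.2 hμ.sing hE

theorem KD_union (μ : Measure V) (f : V → ENNReal) (A : V → Set V) (K : Set V) (Q : Finset V) :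
    ∫⁻ y in K ∪ ⋃ p ∈ Q, A p, f y ∂μ ≤ ∫⁻ y in K, f y ∂μ + ∑ p ∈ Q, ∫⁻ y in A p, f y ∂μ := by
  classical
  induction Q using Finset.induction_on with
  | empty => simp
  | insert p Q hp ih =>
    have he : K ∪ ⋃ p' ∈ insert p Q, A p' = (K ∪ ⋃ p' ∈ Q, A p') ∪ A p := by
      rw [Finset.set_biUnion_insert, Set.union_assoc, Set.union_comm (⋃ p' ∈ Q, A p')]
    rw [he, Finset.sum_insert hp]
    refine (lintegral_union_le f _ _).trans ?_
    refine (add_le_add_left ih _).trans ?_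
    rw [add_assoc, add_comm (∑ p' ∈ Q, _)]

theorem KD_third (𝓕 : Foliation) (μ : Measure V) (hμ : Harm 𝓕 μ)
    (hcl : Pool.Agent.H85.DC.CurClosed 𝓕.F μ) (hL : 𝓕.LelZero μ)
    (hgood : ∀ A B : FC76.P2, (∃ K, FC76.MultLe A B K) → FC76.Good A B) :
    ∃ C : ℝ, 0 ≤ C ∧ ∀ r : ℝ, 0 < r → r < 1 →
      ∫⁻ y in {y | r ≤ nsq (𝓕.alpha y)}, ENNReal.ofReal (KD_D 𝓕 y) ∂μ ≤
      ENNReal.ofReal (C * (1 + Real.log (1 / r))) := by
  have hfin := hμ.fin
  obtain ⟨Q, hQ, hQ'⟩ := KD_P 𝓕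
  have hloc : ∀ p : V, ∃ r₁ C : ℝ, 0 < r₁ ∧ 0 ≤ C ∧ (p ∈ Q → ∀ r : ℝ, 0 < r → r < 1 →
      ∫⁻ y in {y | nsq y = 1 ∧ tau p y < r₁ ∧ r ≤ nsq (𝓕.alpha y)},
        ENNReal.ofReal (KD_D 𝓕 y) ∂μ ≤
      ENNReal.ofReal (C * (1 + Real.log (1 / r)))) := by
    intro p
    by_cases h : p ∈ Q
    · obtain ⟨r₁, C, h1, h2, h3⟩ := KD_loc 𝓕 μ hμ hcl hL hgood p (hQ p h)
      exact ⟨r₁, C, h1, h2, fun _ => h3⟩
    · exact ⟨1, 0, one_pos, le_rfl, fun h' => absurd h' h⟩
  choose r₁ C h1 h2 h3 using hloc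
  obtain ⟨K, hK⟩ : ∃ K : Set V, K = {y | nsq y = 1 ∧ ∀ p ∈ Q, r₁ p ≤ tau p y} := ⟨_, rfl⟩
  have hKs : K ⊆ {y | nsq y = 1} := by
    rw [hK]
    exact fun y hy => hy.1
  have hKc : IsCompact K := by
    have hS : IsClosed {y : V | nsq y = 1} := isClosed_singleton.preimage KD_cont_nsq
    have he : K = {y : V | nsq y = 1} ∩ ⋂ p ∈ Q, ({y : V | nsq y = 1} ∩
        (fun y => tau p y) ⁻¹' Set.Ici (r₁ p)) := by
      rw [hK]
      ext y
      constructor
      · rintro ⟨g1, g2⟩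
        exact ⟨g1, Set.mem_iInter₂.mpr fun p hp => ⟨g1, g2 p hp⟩⟩
      · rintro ⟨g1, g2⟩
        exact ⟨g1, fun p hp => (Set.mem_iInter₂.mp g2 p hp).2⟩
    refine KD_compact_sphere.of_isClosed_subset ?_ hKs
    rw [he]
    refine hS.inter (isClosed_biInter fun p hp => ?_)
    exact (KD_tau_cont p (hQ p hp).1).preimage_isClosed_of_isClosed hS isClosed_Ici
  have hne : ∀ y ∈ K, 𝓕.alpha y ≠ 0 := by
    intro y hy h0
    obtain ⟨p, hp, c, hc, he⟩ := hQ' y (hKs hy) h0
    rw [hK] at hy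
    have h5 := hy.2 p hp
    rw [he, KD_tau_self p (hQ p hp).1 c hc] at h5
    exact absurd (h1 p) (not_lt.mpr h5)
  have hcont : ContinuousOn (KD_D 𝓕) K := by
    unfold KD_D
    refine ContinuousOn.div ?_ ?_ ?_
    · exact Complex.continuous_normSq.comp_continuousOn ((KD_cont_dv 𝓕).mono hKs)
    · exact (KD_cont_nsq.comp (KD_cont_alpha 𝓕)).continuousOn
    · intro y hy
      exact (nsq_pos (hne y hy)).ne'
  obtain ⟨B, hB⟩ := hKc.exists_bound_of_continuousOn hcont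
  obtain ⟨m, hm⟩ : ∃ m : ℝ, m = (μ Set.univ).toReal := ⟨_, rfl⟩
  have hm0 : 0 ≤ m := by rw [hm]; exact ENNReal.toReal_nonneg
  have hmu : μ Set.univ = ENNReal.ofReal m := by
    rw [hm, ENNReal.ofReal_toReal (measure_ne_top _ _)]
  refine ⟨|B| * m + ∑ p ∈ Q, C p, ?_, ?_⟩
  · have := Finset.sum_nonneg fun p (_ : p ∈ Q) => h2 p
    positivity
  intro r hr hr1
  have hlog : 0 ≤ Real.log (1 / r) := Real.log_nonneg (by
    rw [le_div_iff₀ hr]
    linarith)
  have hs1 : ∫⁻ y in {y | r ≤ nsq (𝓕.alpha y)}, ENNReal.ofReal (KD_D 𝓕 y) ∂μ ≤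
      ∫⁻ y in K ∪ ⋃ p ∈ Q, {y | nsq y = 1 ∧ tau p y < r₁ p ∧ r ≤ nsq (𝓕.alpha y)},
        ENNReal.ofReal (KD_D 𝓕 y) ∂μ := by
    refine lintegral_mono' (Measure.restrict_mono_ae ?_) le_rfl
    have hsph : ∀ᵐ y ∂μ, nsq y = 1 := hμ.sph
    filter_upwards [hsph] with y hy hyr
    by_cases hc : ∃ p ∈ Q, tau p y < r₁ p
    · obtain ⟨p, hp, ht⟩ := hc
      right
      exact Set.mem_biUnion hp ⟨hy, ht, hyr⟩
    · left
      rw [hK]
      push Not at hc
      exact ⟨hy, hc⟩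
  refine hs1.trans ((KD_union μ _ _ K Q).trans ?_)
  have hs2 : ∫⁻ y in K, ENNReal.ofReal (KD_D 𝓕 y) ∂μ ≤ ENNReal.ofReal (|B| * m) := by
    have h5 : ∫⁻ y in K, ENNReal.ofReal (KD_D 𝓕 y) ∂μ ≤ ∫⁻ _ in K, ENNReal.ofReal |B| ∂μ := by
      refine setLIntegral_mono measurable_const fun y hy => ?_
      exact ENNReal.ofReal_le_ofReal ((Real.le_norm_self _).trans ((hB y hy).trans (le_abs_self _)))
    refine h5.trans ?_
    rw [setLIntegral_const, ENNReal.ofReal_mul (abs_nonneg _), ← hmu]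
    exact mul_le_mul' le_rfl (measure_mono (Set.subset_univ _))
  have hs3 : ∑ p ∈ Q, ∫⁻ y in {y | nsq y = 1 ∧ tau p y < r₁ p ∧ r ≤ nsq (𝓕.alpha y)},
      ENNReal.ofReal (KD_D 𝓕 y) ∂μ ≤ ENNReal.ofReal (∑ p ∈ Q, C p * (1 + Real.log (1 / r))) := by
    rw [ENNReal.ofReal_sum_of_nonneg fun p _ => mul_nonneg (h2 p) (by linarith)]
    exact Finset.sum_le_sum fun p hp => h3 p hp r hr hr1
  refine (add_le_add hs2 hs3).trans ?_
  have hsum : 0 ≤ ∑ p ∈ Q, C p * (1 + Real.log (1 / r)) :=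
    Finset.sum_nonneg fun p _ => mul_nonneg (h2 p) (by linarith)
  rw [← ENNReal.ofReal_add (by positivity) hsum]
  refine ENNReal.ofReal_le_ofReal ?_
  rw [← Finset.sum_mul, add_mul]
  have : |B| * m ≤ |B| * m * (1 + Real.log (1 / r)) :=
    le_mul_of_one_le_right (by positivity) (by linarith)
  linarith

theorem energyE (𝓕 : Foliation) (μ : Measure V) (hμ : Harm 𝓕 μ)
    (hcl : Pool.Agent.H85.DC.CurClosed 𝓕.F μ) (hL : 𝓕.LelZero μ)
    (hgood : ∀ A B : FC76.P2, (∃ K, FC76.MultLe A B K) → FC76.Good A B) :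
    Pool.Agent.H85.DC.EnergyE 𝓕.F μ := by
  have hfin := hμ.fin
  obtain ⟨C1, hC1, hb1⟩ := la_energy 𝓕 μ hμ
  obtain ⟨C2, hC2, hb2⟩ := KD_third 𝓕 μ hμ hcl hL hgood
  obtain ⟨m, hm⟩ : ∃ m : ℝ, m = (μ Set.univ).toReal := ⟨_, rfl⟩
  have hm0 : 0 ≤ m := by rw [hm]; exact ENNReal.toReal_nonneg
  have hmu : μ Set.univ = ENNReal.ofReal m := by
    rw [hm, ENNReal.ofReal_toReal (measure_ne_top _ _)]
  refine ⟨3 * (m + C2 + C1), fun r hr hr1 => ?_⟩
  have hlog : 0 ≤ Real.log (1 / r) := Real.log_nonneg (by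
    rw [le_div_iff₀ hr]
    linarith)
  have hset : {y | r ≤ Pool.Agent.H85.DC.N (Pool.Agent.H85.DC.eta 𝓕.F y)} =
      {y | r ≤ nsq (𝓕.alpha y)} := by
    ext y
    show r ≤ Pool.Agent.H85.DC.N (Pool.Agent.H85.DC.eta 𝓕.F y) ↔ r ≤ nsq (𝓕.alpha y)
    rw [eta_eq]
    rfl
  rw [hset]
  have hDm : Measurable fun y => ENNReal.ofReal (KD_D 𝓕 y) := by
    unfold KD_D
    refine ENNReal.measurable_ofReal.comp ?_
    exact (Complex.continuous_normSq.measurable.comp (measurable_dv 𝓕)).div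
      (KD_cont_nsq.comp (KD_cont_alpha 𝓕)).measurable
  have hs1 : ∫⁻ y in {y | r ≤ nsq (𝓕.alpha y)}, ENNReal.ofReal (Pool.Agent.H85.DC.K2 𝓕.F y) ∂μ ≤
      ∫⁻ y in {y | r ≤ nsq (𝓕.alpha y)}, ENNReal.ofReal 3 * ((1 + ENNReal.ofReal (KD_D 𝓕 y)) +
        ENNReal.ofReal (gradm 𝓕.la 𝓕.la y (𝓕.vec y) / nsq (𝓕.alpha y))) ∂μ := by
    refine lintegral_mono_ae (ae_restrict_of_ae ?_)
    have hsph : ∀ᵐ y ∂μ, nsq y = 1 := hμ.sph
    have hsing : ∀ᵐ y ∂μ, 𝓕.alpha y ≠ 0 := by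
      rw [ae_iff]
      simpa using hμ.sing
    filter_upwards [hsph, hsing] with y hy h0
    rw [K2_eq]
    have hg : 0 ≤ gradm 𝓕.la 𝓕.la y (𝓕.vec y) / nsq (𝓕.alpha y) := by
      refine div_nonneg ?_ (nsq_nonneg _)
      unfold gradm
      have a1 := mul_self_nonneg (fderiv ℝ 𝓕.la y (𝓕.vec y))
      have a2 := mul_self_nonneg (fderiv ℝ 𝓕.la y (Complex.I • 𝓕.vec y))
      linarith
    have hD := KD_D_nonneg 𝓕 y
    rw [← ENNReal.ofReal_one, ← ENNReal.ofReal_add zero_le_one hD,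
      ← ENNReal.ofReal_add (by linarith) hg, ← ENNReal.ofReal_mul (by norm_num)]
    refine ENNReal.ofReal_le_ofReal ((K2_le 𝓕 y hy h0).trans ?_)
    unfold KD_D
    linarith
  refine hs1.trans ?_
  have hDm2 : Measurable fun y => (1 : ENNReal) + ENNReal.ofReal (KD_D 𝓕 y) :=
    measurable_const.add hDm
  rw [lintegral_const_mul' _ _ ENNReal.ofReal_ne_top, lintegral_add_left hDm2,
    lintegral_add_left measurable_const]
  have e1 : ∫⁻ _ in {y | r ≤ nsq (𝓕.alpha y)}, (1 : ENNReal) ∂μ ≤ ENNReal.ofReal m := by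
    rw [setLIntegral_one, ← hmu]
    exact measure_mono (Set.subset_univ _)
  have e2 := hb2 r hr hr1
  have e3 := hb1 r hr hr1
  refine (mul_le_mul' le_rfl (add_le_add (add_le_add e1 e2) e3)).trans ?_
  have n2 : 0 ≤ C2 * (1 + Real.log (1 / r)) := mul_nonneg hC2 (by linarith)
  have n1 : 0 ≤ C1 * (1 + Real.log (1 / r)) := mul_nonneg hC1 (by linarith)
  rw [← ENNReal.ofReal_add hm0 n2, ← ENNReal.ofReal_add (by linarith) n1,
    ← ENNReal.ofReal_mul (by norm_num)]
  refine ENNReal.ofReal_le_ofReal ?_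
  have : m ≤ m * (1 + Real.log (1 / r)) := le_mul_of_one_le_right hm0 (by linarith)
  nlinarith

end Pool.Agent.H24.CU

end S_H24_CU_KD

section S_H76_FC_DC

/-!
# Row DC: first dimension inequality (restriction to the blow-up)

I' := (A', B') + m^n (in the chart, coordinates x, u with the point at the origin), J := m^(k-nu) (A,B) + m^(k+n).
Since A, B are in m^nu, J is contained in m^k, so  dim P2/J = dim P2/m^k + dim m^k/J.
Consider the map  m^k -> P2/I',  f ↦ class of g where bl c f = x^k g (`bl_dvd`; g is unique because P2 is a domain, so the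
map is linear).  It is onto by `bl_surj` (mI^n ⊆ I').  It kills J:
 * f = a*A with a in m^(k-nu): bl c a = x^(k-nu) a', so bl c f = x^k (a' * A') and g = a' A' in I'; same for B; m^(k-nu)*span{A,B}
   is generated by such products (`Submodule.mul_induction_on`, `Ideal.mem_span_pair`);
 * f in m^(k+n): bl c f = x^(k+n) g', so g = x^n g' in m^n.
Hence dim P2/I' <= dim m^k/J.   In Lean it is convenient to compare: the linear map Φ : (mI^k) →ₗ P2/I' has range ⊤ and kernel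
containing the comap of J, so finrank (P2/I') <= finrank ((mI^k) / comap J), and
finrank(P2/J) = finrank(P2/mI^k) + finrank(mI^k/comap J)  (`Submodule.finrank_quotient_add_finrank`, third isomorphism theorem,
or: rank-nullity for the map P2/J -> P2/mI^k whose kernel is the image of mI^k).  All spaces are finite dimensional (`fd_of_le`).
-/

open MvPolynomial

namespace FC76

/-- cancellation of the power of `x` -/
theorem DC_cancel (k : ℕ) {g h : P2} (e : (X 0 : P2) ^ k * g = X 0 ^ k * h) : g = h :=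
  mul_left_cancel₀ (pow_ne_zero k (X_ne_zero 0)) e

/-- linear algebra: comparison of the dimensions of two images of the same space -/
theorem DC_finrank_range {V W W' : Type*} [AddCommGroup V] [Module ℂ V] [AddCommGroup W] [Module ℂ W]
    [AddCommGroup W'] [Module ℂ W'] [FiniteDimensional ℂ W] (α : V →ₗ[ℂ] W) (β : V →ₗ[ℂ] W')
    (h : LinearMap.ker α ≤ LinearMap.ker β) (hs : Function.Surjective β) :
    Module.finrank ℂ W' ≤ Module.finrank ℂ (LinearMap.range α) := by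
  have e := α.quotKerEquivRange
  have : FiniteDimensional ℂ (V ⧸ LinearMap.ker α) := e.symm.finiteDimensional
  rw [← e.finrank_eq]
  have hs' : Function.Surjective ((LinearMap.ker α).liftQ β h) := by
    intro w
    obtain ⟨v, rfl⟩ := hs w
    exact ⟨Submodule.Quotient.mk v, by rw [Submodule.liftQ_apply]⟩
  exact LinearMap.finrank_le_finrank_of_surjective hs'

/-- the linear map `f ↦ g` where `bl c f = x^k g` -/
theorem DC_map (c : ℂ) (k : ℕ) :
    ∃ φ : (Submodule.restrictScalars ℂ (mI ^ k : Ideal P2)) →ₗ[ℂ] P2, ∀ f, bl c f.1 = X 0 ^ k * φ f := by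
  choose g hg using fun f : (Submodule.restrictScalars ℂ (mI ^ k : Ideal P2)) =>
    bl_dvd c f.1 k (Submodule.restrictScalars_mem ℂ (mI ^ k : Ideal P2) f.1 |>.1 f.2)
  refine ⟨{ toFun := g, map_add' := fun x y => ?_, map_smul' := fun r x => ?_ }, fun f => hg f⟩
  · apply DC_cancel k
    rw [← hg, mul_add, ← hg, ← hg, Submodule.coe_add, map_add]
  · apply DC_cancel k
    rw [← hg, RingHom.id_apply, mul_smul_comm, ← hg, Submodule.coe_smul, map_smul]

theorem DC_J_le (A B : P2) (ν k n : ℕ) (hν : ν ≤ k) (hA : A ∈ mI ^ ν) (hB : B ∈ mI ^ ν) :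
    mI ^ (k - ν) * Ideal.span ({A, B} : Set P2) ⊔ mI ^ (k + n) ≤ mI ^ k := by
  refine sup_le ?_ (Ideal.pow_le_pow_right (Nat.le_add_right k n))
  have h1 : Ideal.span ({A, B} : Set P2) ≤ mI ^ ν := by
    rw [Ideal.span_le]
    rintro x (rfl | rfl)
    · exact hA
    · exact hB
  calc mI ^ (k - ν) * Ideal.span ({A, B} : Set P2) ≤ mI ^ (k - ν) * mI ^ ν := Ideal.mul_mono_right h1
    _ = mI ^ k := by rw [← pow_add, Nat.sub_add_cancel hν]

/-- on `J` the quotient `g` lies in `I'` -/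
theorem DC_J_kill (A B A' B' : P2) (ν k n : ℕ) (c : ℂ) (hν : ν ≤ k)
    (hA' : bl c A = X 0 ^ ν * A') (hB' : bl c B = X 0 ^ ν * B') (f : P2)
    (hf : f ∈ mI ^ (k - ν) * Ideal.span ({A, B} : Set P2) ⊔ mI ^ (k + n)) :
    ∃ g ∈ (Ideal.span ({A', B'} : Set P2) ⊔ mI ^ n), X 0 ^ k * g = bl c f := by
  have key : mI ^ (k - ν) * Ideal.span ({A, B} : Set P2) ⊔ mI ^ (k + n) ≤
      Ideal.comap (bl c) (Ideal.span {(X 0 : P2) ^ k} * (Ideal.span ({A', B'} : Set P2) ⊔ mI ^ n)) := by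
    refine sup_le ?_ ?_
    · rw [Ideal.mul_le]
      intro r hr s hs
      rw [Ideal.mem_comap, Ideal.mem_span_singleton_mul]
      obtain ⟨r', hr'⟩ := bl_dvd c r (k - ν) hr
      obtain ⟨p, q, rfl⟩ := Ideal.mem_span_pair.1 hs
      refine ⟨r' * (bl c p * A' + bl c q * B'), ?_, ?_⟩
      · refine Ideal.mul_mem_left _ _ (Ideal.mem_sup_left ?_)
        exact Ideal.mem_span_pair.2 ⟨_, _, rfl⟩
      · have e : (X 0 : P2) ^ k = X 0 ^ (k - ν) * X 0 ^ ν := by rw [← pow_add, Nat.sub_add_cancel hν]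
        rw [map_mul, map_add, map_mul, map_mul, hr', hA', hB', e]
        ring
    · intro r hr
      rw [Ideal.mem_comap, Ideal.mem_span_singleton_mul]
      obtain ⟨r', hr'⟩ := bl_dvd c r (k + n) hr
      refine ⟨X 0 ^ n * r', ?_, ?_⟩
      · refine Ideal.mem_sup_right (Ideal.mul_mem_right _ _ (Ideal.pow_mem_pow ?_ n))
        exact Ideal.subset_span ⟨0, rfl⟩
      · rw [hr', pow_add, mul_assoc]
  have h2 := key hf
  rw [Ideal.mem_comap, Ideal.mem_span_singleton_mul] at h2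
  exact h2

theorem dimStep1 (A B A' B' : P2) (ν k n : ℕ) (c : ℂ) (hν : ν ≤ k) (hn : n ≤ k + 1)
    (hA : A ∈ mI ^ ν) (hB : B ∈ mI ^ ν)
    (hA' : bl c A = X 0 ^ ν * A') (hB' : bl c B = X 0 ^ ν * B') :
    Module.finrank ℂ (P2 ⧸ (Ideal.span ({A', B'} : Set P2) ⊔ mI ^ n)) +
        Module.finrank ℂ (P2 ⧸ (mI ^ k : Ideal P2)) ≤
      Module.finrank ℂ (P2 ⧸ (mI ^ (k - ν) * Ideal.span ({A, B} : Set P2) ⊔ mI ^ (k + n))) := by
  obtain ⟨φ, hφ⟩ := DC_map c k
  have hJk := DC_J_le A B ν k n hν hA hB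
  have hkill := DC_J_kill A B A' B' ν k n c hν hA' hB'
  generalize hJ : mI ^ (k - ν) * Ideal.span ({A, B} : Set P2) ⊔ mI ^ (k + n) = J at *
  generalize hI : Ideal.span ({A', B'} : Set P2) ⊔ mI ^ n = I' at *
  have : FiniteDimensional ℂ (P2 ⧸ J) := fd_of_le J (k + n) (hJ ▸ le_sup_right)
  have : FiniteDimensional ℂ (P2 ⧸ (mI ^ k : Ideal P2)) := fd_of_le _ k le_rfl
  let α : (Submodule.restrictScalars ℂ (mI ^ k : Ideal P2)) →ₗ[ℂ] (P2 ⧸ J) :=
    (Ideal.Quotient.mkₐ ℂ J).toLinearMap ∘ₗ (Submodule.restrictScalars ℂ (mI ^ k : Ideal P2)).subtype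
  let β : (Submodule.restrictScalars ℂ (mI ^ k : Ideal P2)) →ₗ[ℂ] (P2 ⧸ I') :=
    (Ideal.Quotient.mkₐ ℂ I').toLinearMap ∘ₗ φ
  let Ψ : (P2 ⧸ J) →ₗ[ℂ] (P2 ⧸ (mI ^ k : Ideal P2)) := (Ideal.Quotient.factorₐ ℂ hJk).toLinearMap
  have hα : ∀ f, α f = Ideal.Quotient.mk J f.1 := fun _ => rfl
  have hβ : ∀ f, β f = Ideal.Quotient.mk I' (φ f) := fun _ => rfl
  have hΨ : ∀ f, Ψ (Ideal.Quotient.mk J f) = Ideal.Quotient.mk (mI ^ k : Ideal P2) f := fun _ => rfl
  have h1 : LinearMap.ker α ≤ LinearMap.ker β := by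
    intro f hf
    rw [LinearMap.mem_ker, hα, Ideal.Quotient.eq_zero_iff_mem] at hf
    rw [LinearMap.mem_ker, hβ, Ideal.Quotient.eq_zero_iff_mem]
    obtain ⟨g, hg, hg'⟩ := hkill f.1 hf
    rw [hφ] at hg'
    rwa [← DC_cancel k hg']
  have h2 : Function.Surjective β := by
    intro w
    obtain ⟨g, rfl⟩ := Ideal.Quotient.mk_surjective w
    obtain ⟨f, hf, h, hfh, hgh⟩ := bl_surj c k n hn g
    refine ⟨⟨f, hf⟩, ?_⟩
    have h3 : φ ⟨f, hf⟩ = h := by
      apply DC_cancel k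
      rw [← hfh, ← hφ]
    rw [hβ, h3, eq_comm, Ideal.Quotient.eq]
    rw [← hI]
    exact Ideal.mem_sup_right hgh
  have h3 := DC_finrank_range α β h1 h2
  have h4 : LinearMap.range α ≤ LinearMap.ker Ψ := by
    rintro _ ⟨f, rfl⟩
    rw [LinearMap.mem_ker, hα, hΨ, Ideal.Quotient.eq_zero_iff_mem]
    exact f.2
  have h5 := Submodule.finrank_mono h4
  have h6 : LinearMap.range Ψ = ⊤ := by
    rw [LinearMap.range_eq_top]
    intro w
    obtain ⟨g, rfl⟩ := Ideal.Quotient.mk_surjective w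
    exact ⟨Ideal.Quotient.mk J g, hΨ g⟩
  have h7 := LinearMap.finrank_range_add_finrank_ker Ψ
  rw [h6, finrank_top] at h7
  omega

end FC76

end S_H76_FC_DC

section S_H76_FC_DD

/-!
# Row DD: second dimension inequality (Koszul syzygies)

I := span {A,B},  I_N := I + m^N,  J := m^j I + m^N (contained in I_N).
 dim P2/J = dim P2/I_N + dim I_N/J.
 The linear map  (P2/m^j) x (P2/m^j) -> I_N/J,  (a,b) ↦ a A + b B, is well defined (m^j A in J) and onto (an element of I_N is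
 a A + b B + r with r in m^N contained in J).
 The linear map  P2/m^(j-nu) -> (P2/m^j) x (P2/m^j),  a ↦ (a B, - a A), is well defined (A, B in m^nu), goes to the kernel of
 the previous one (a B A - a A B = 0) and is injective: if a B and a A are in m^j, and say A is not in m^(nu+1), then
 a in m^(j-nu) by `mem_of_mul_mem`.
 Rank-nullity:  dim I_N/J = 2 dim P2/m^j - dim kernel <= 2 dim P2/m^j - dim P2/m^(j-nu).
-/

open MvPolynomial

namespace FC76

/-- multiplication by `A` on quotients -/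
noncomputable def DD_mul (A : P2) (I J : Ideal P2) (h : ∀ a ∈ I, a * A ∈ J) : (P2 ⧸ I) →ₗ[ℂ] (P2 ⧸ J) :=
  (Submodule.mapQ I J (LinearMap.toSpanSingleton P2 P2 A) (fun a ha => by
    rw [Submodule.mem_comap, LinearMap.toSpanSingleton_apply, smul_eq_mul]
    exact h a ha)).restrictScalars ℂ

theorem DD_mul_mk (A : P2) (I J : Ideal P2) (h : ∀ a ∈ I, a * A ∈ J) (a : P2) :
    DD_mul A I J h (Ideal.Quotient.mk I a) = Ideal.Quotient.mk J (a * A) := rfl

theorem dimStep2 (A B : P2) (ν j N : ℕ) (hν : ν ≤ j) (hA : A ∈ mI ^ ν) (hB : B ∈ mI ^ ν)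
    (hmin : A ∉ mI ^ (ν + 1) ∨ B ∉ mI ^ (ν + 1)) :
    Module.finrank ℂ (P2 ⧸ (mI ^ j * Ideal.span ({A, B} : Set P2) ⊔ mI ^ N)) +
        Module.finrank ℂ (P2 ⧸ (mI ^ (j - ν) : Ideal P2)) ≤
      Module.finrank ℂ (P2 ⧸ (Ideal.span ({A, B} : Set P2) ⊔ mI ^ N)) +
        2 * Module.finrank ℂ (P2 ⧸ (mI ^ j : Ideal P2)) := by
  set K : Ideal P2 := Ideal.span ({A, B} : Set P2) ⊔ mI ^ N with hK
  set J : Ideal P2 := mI ^ j * Ideal.span ({A, B} : Set P2) ⊔ mI ^ N with hJ
  have hJK : J ≤ K := sup_le_sup_right Ideal.mul_le_right _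
  have hNJ : mI ^ N ≤ J := le_sup_right
  have f1 : FiniteDimensional ℂ (P2 ⧸ J) := fd_of_le J N hNJ
  have f2 : FiniteDimensional ℂ (P2 ⧸ K) := fd_of_le K N le_sup_right
  have f3 : FiniteDimensional ℂ (P2 ⧸ (mI ^ j : Ideal P2)) := fd_of_le _ j le_rfl
  have f4 : FiniteDimensional ℂ (P2 ⧸ (mI ^ (j - ν) : Ideal P2)) := fd_of_le _ (j - ν) le_rfl
  have hAs : A ∈ Ideal.span ({A, B} : Set P2) := Ideal.subset_span (by simp)
  have hBs : B ∈ Ideal.span ({A, B} : Set P2) := Ideal.subset_span (by simp)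
  have mA : ∀ a ∈ (mI ^ j : Ideal P2), a * A ∈ J := fun a ha =>
    Ideal.mem_sup_left (Ideal.mul_mem_mul ha hAs)
  have mB : ∀ a ∈ (mI ^ j : Ideal P2), a * B ∈ J := fun a ha =>
    Ideal.mem_sup_left (Ideal.mul_mem_mul ha hBs)
  have hpow : (mI ^ (j - ν) : Ideal P2) * mI ^ ν = mI ^ j := by
    rw [← pow_add, Nat.sub_add_cancel hν]
  have nA : ∀ a ∈ (mI ^ (j - ν) : Ideal P2), a * A ∈ (mI ^ j : Ideal P2) := fun a ha => by
    rw [← hpow]
    exact Ideal.mul_mem_mul ha hA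
  have nB : ∀ a ∈ (mI ^ (j - ν) : Ideal P2), a * B ∈ (mI ^ j : Ideal P2) := fun a ha => by
    rw [← hpow]
    exact Ideal.mul_mem_mul ha hB
  -- the projection
  let π : (P2 ⧸ J) →ₗ[ℂ] (P2 ⧸ K) := (Submodule.factor hJK).restrictScalars ℂ
  have hπmk : ∀ a : P2, π (Ideal.Quotient.mk J a) = Ideal.Quotient.mk K a := fun a => rfl
  have hπs : Function.Surjective π := by
    intro y
    obtain ⟨a, rfl⟩ := Ideal.Quotient.mk_surjective y
    exact ⟨Ideal.Quotient.mk J a, hπmk a⟩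
  -- the first map
  let Φ : ((P2 ⧸ (mI ^ j : Ideal P2)) × (P2 ⧸ (mI ^ j : Ideal P2))) →ₗ[ℂ] (P2 ⧸ J) :=
    (DD_mul A _ J mA).coprod (DD_mul B _ J mB)
  have hΦ : ∀ a b : P2, Φ (Ideal.Quotient.mk _ a, Ideal.Quotient.mk _ b) =
      Ideal.Quotient.mk J (a * A) + Ideal.Quotient.mk J (b * B) := fun a b => rfl
  have hker : LinearMap.ker π ≤ LinearMap.range Φ := by
    intro x hx
    obtain ⟨f, rfl⟩ := Ideal.Quotient.mk_surjective x
    rw [LinearMap.mem_ker, hπmk, Ideal.Quotient.eq_zero_iff_mem, hK, Submodule.mem_sup] at hx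
    obtain ⟨g, hg, r, hr, rfl⟩ := hx
    obtain ⟨a, b, rfl⟩ := Ideal.mem_span_pair.1 hg
    refine ⟨(Ideal.Quotient.mk _ a, Ideal.Quotient.mk _ b), ?_⟩
    rw [hΦ, map_add, map_add, Ideal.Quotient.eq_zero_iff_mem.2 (hNJ hr), add_zero]
  -- the second map
  let Ψ : (P2 ⧸ (mI ^ (j - ν) : Ideal P2)) →ₗ[ℂ]
      ((P2 ⧸ (mI ^ j : Ideal P2)) × (P2 ⧸ (mI ^ j : Ideal P2))) :=
    (DD_mul B _ _ nB).prod (-(DD_mul A _ _ nA))
  have hΨ : ∀ a : P2, Ψ (Ideal.Quotient.mk _ a) =
      (Ideal.Quotient.mk _ (a * B), -Ideal.Quotient.mk _ (a * A)) := fun a => rfl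
  have hΨi : Function.Injective Ψ := by
    rw [← LinearMap.ker_eq_bot, LinearMap.ker_eq_bot']
    intro x hx
    obtain ⟨a, rfl⟩ := Ideal.Quotient.mk_surjective x
    rw [hΨ, Prod.mk_eq_zero, neg_eq_zero, Ideal.Quotient.eq_zero_iff_mem,
      Ideal.Quotient.eq_zero_iff_mem] at hx
    rw [Ideal.Quotient.eq_zero_iff_mem]
    rcases hmin with h | h
    · exact mem_of_mul_mem A a ν j h hν hx.2
    · exact mem_of_mul_mem B a ν j h hν hx.1
  have hΨr : LinearMap.range Ψ ≤ LinearMap.ker Φ := by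
    rintro _ ⟨x, rfl⟩
    obtain ⟨a, rfl⟩ := Ideal.Quotient.mk_surjective x
    rw [LinearMap.mem_ker, hΨ, ← map_neg, hΦ, ← map_add, Ideal.Quotient.eq_zero_iff_mem]
    have e : a * B * A + -(a * A) * B = 0 := by ring
    rw [e]
    exact J.zero_mem
  have r1 := LinearMap.finrank_range_add_finrank_ker π
  have r2 := LinearMap.finrank_range_add_finrank_ker Φ
  rw [LinearMap.range_eq_top.2 hπs, finrank_top] at r1
  rw [Module.finrank_prod] at r2
  have r3 := Submodule.finrank_mono hker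
  have r4 := Submodule.finrank_mono hΨr
  rw [LinearMap.finrank_range_of_inj hΨi] at r4
  omega

end FC76

end S_H76_FC_DD

section S_H76_FC_DE

/-!
# Row DE: Noether's inequality

Given n put k := max (2 nu) n + 1 (so n <= k+1, 2 nu <= k), j := k - nu, N := k + n.  With D(t) = t(t+1)/2 (`finrank_mPow`):
 dimStep1:  mu'_n + D(k) <= dim P2/(m^(k-nu) I + m^(k+n)),
 dimStep2:  dim P2/(m^(k-nu) I + m^(k+n)) + D(k-2nu) <= mu_N + 2 D(k-nu) <= K + 2 D(k-nu).
 Hence mu'_n <= K + 2 D(k-nu) - D(k-2nu) - D(k) = K - nu^2  (the identity D(k) + D(k-2nu) = 2 D(k-nu) + nu^2, proved after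
 multiplying by 2 and writing k = 2 nu + t).  In particular nu^2 <= K.
-/

open MvPolynomial

namespace FC76

theorem DE_tri (a : ℕ) : 2 * (a * (a + 1) / 2) = a * (a + 1) :=
  Nat.mul_div_cancel' (Nat.even_mul_succ_self a).two_dvd

theorem DE_id (ν t : ℕ) : (2 * ν + t) * (2 * ν + t + 1) / 2 + t * (t + 1) / 2 =
    2 * ((ν + t) * (ν + t + 1) / 2) + ν ^ 2 := by
  have h1 := DE_tri (2 * ν + t)
  have h2 := DE_tri t
  have h3 := DE_tri (ν + t)
  have h4 : (2 * ν + t) * (2 * ν + t + 1) + t * (t + 1) = 2 * ((ν + t) * (ν + t + 1)) + 2 * ν ^ 2 := by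
    ring
  omega

theorem DE_step (A B A' B' : P2) (ν K : ℕ) (c : ℂ) (hA : A ∈ mI ^ ν) (hB : B ∈ mI ^ ν)
    (hmin : A ∉ mI ^ (ν + 1) ∨ B ∉ mI ^ (ν + 1))
    (hA' : bl c A = X 0 ^ ν * A') (hB' : bl c B = X 0 ^ ν * B') (hK : MultLe A B K) (n : ℕ) :
    Module.finrank ℂ (P2 ⧸ (Ideal.span ({A', B'} : Set P2) ⊔ mI ^ n)) + ν ^ 2 ≤ K := by
  obtain ⟨t, ht⟩ : ∃ t, t = n + 1 := ⟨_, rfl⟩
  have e1 : 2 * ν + t - ν = ν + t := by omega
  have e2 : ν + t - ν = t := by omega
  have h1 := dimStep1 A B A' B' ν (2 * ν + t) n c (by omega) (by omega) hA hB hA' hB'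
  have h2 := dimStep2 A B ν (ν + t) (2 * ν + t + n) (by omega) hA hB hmin
  have h3 := hK (2 * ν + t + n)
  rw [e1, finrank_mPow] at h1
  rw [e2, finrank_mPow, finrank_mPow] at h2
  have h4 := DE_id ν t
  omega

theorem noether (A B A' B' : P2) (ν K : ℕ) (c : ℂ) (hA : A ∈ mI ^ ν) (hB : B ∈ mI ^ ν)
    (hmin : A ∉ mI ^ (ν + 1) ∨ B ∉ mI ^ (ν + 1))
    (hA' : bl c A = X 0 ^ ν * A') (hB' : bl c B = X 0 ^ ν * B') (hK : MultLe A B K) :
    ν ^ 2 ≤ K ∧ MultLe A' B' (K - ν ^ 2) := by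
  have h := DE_step A B A' B' ν K c hA hB hmin hA' hB' hK
  refine ⟨(Nat.le_add_left _ _).trans (h 0), fun n => ?_⟩
  have := h n
  omega

end FC76

end S_H76_FC_DE

section S_H76_FC_DF

/-!
# Row DF: multiplicity with the exceptional line

`multLe_X`: if cf 0 i C ≠ 0 then the local multiplicity of (x, C) is at most i.
Proof.  Let i0 <= i be minimal with cf 0 i0 C ≠ 0.  Modulo x: C = y^{i0} U(y), U(0) ≠ 0.  Let I := (x, C) + m^n.
U is invertible modulo m^n (U = u0 (1 - w) with w in m, so (1-w)(1+w+...+w^(n-1)) = 1 - w^n), hence y^{i0} is in I.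
So every polynomial is congruent modulo I to a combination of 1, y, ..., y^{i0-1}: the quotient is spanned by i0 elements
(`finrank_le_of_span...`, e.g. `finrank_span_le_card` / `Module.finrank_le_of_surjective` from (Fin i0 → ℂ)).
-/

open MvPolynomial

namespace FC76

theorem DF_low (f : P2) (n i0 : ℕ) (hc : cf 0 i0 f ≠ 0) (hmin : ∀ j < i0, cf 0 j f = 0) (d : ℕ) :
    ∀ b, i0 ≤ b → n ≤ b + d →
      (X 1 ^ b : P2) ∈ (Ideal.span ({X 0, f} : Set P2) ⊔ mI ^ n : Ideal P2) := by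
  have hX0 : (X 0 : P2) ∈ (Ideal.span ({X 0, f} : Set P2) ⊔ mI ^ n : Ideal P2) :=
    Ideal.mem_sup_left (Ideal.subset_span (by simp))
  have hf : (f : P2) ∈ (Ideal.span ({X 0, f} : Set P2) ⊔ mI ^ n : Ideal P2) :=
    Ideal.mem_sup_left (Ideal.subset_span (by simp))
  induction d with
  | zero =>
    intro b _ hb
    refine Ideal.mem_sup_right ?_
    rw [DB_mem]
    intro i j hij
    have h := DB_cfm i j 0 b 1
    rw [C_1, pow_zero, one_mul, one_mul] at h
    rw [h, if_neg (fun h' => by omega)]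
  | succ d ih =>
    intro b hb hn
    have key : (f - C (cf 0 i0 f) * X 1 ^ i0) * X 1 ^ (b - i0) ∈
        (Ideal.span ({X 0, f} : Set P2) ⊔ mI ^ n : Ideal P2) := by
      obtain ⟨g, hg⟩ : ∃ g : P2, g = f - C (cf 0 i0 f) * X 1 ^ i0 := ⟨_, rfl⟩
      have hz : ∀ j ≤ i0, cf 0 j g = 0 := by
        intro j hj
        have h1 := DB_add 0 j g (C (cf 0 i0 f) * X 0 ^ 0 * X 1 ^ i0)
        rw [DB_cfm] at h1
        have h2 : g + C (cf 0 i0 f) * X 0 ^ 0 * X 1 ^ i0 = f := by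
          rw [hg, pow_zero, mul_one, sub_add_cancel]
        rw [h2] at h1
        rcases Nat.lt_or_eq_of_le hj with h3 | h3
        · rw [hmin j h3, if_neg (fun h' => by omega), add_zero] at h1
          exact h1.symm
        · rw [h3, if_pos ⟨rfl, rfl⟩] at h1
          rw [h3]
          exact left_eq_add.1 (by rw [add_comm]; exact h1)
      rw [← hg, DB_as_sum g, Finset.sum_mul]
      refine Ideal.sum_mem _ fun u hu => ?_
      by_cases h0 : u 0 = 0
      · have h1 : i0 < u 1 := by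
          by_contra hlt
          have h2 := hz (u 1) (by omega)
          unfold cf at h2
          rw [← h0, ← DB_u u] at h2
          exact (mem_support_iff.1 hu) h2
        have h3 : (C (coeff u g) * X 0 ^ u 0 * X 1 ^ u 1 * X 1 ^ (b - i0) : P2) =
            (C (coeff u g) * X 0 ^ u 0) * X 1 ^ (u 1 + (b - i0)) := by
          rw [pow_add]
          ring
        rw [h3]
        exact Ideal.mul_mem_left _ _ (ih _ (by omega) (by omega))
      · obtain ⟨a, ha⟩ := Nat.exists_eq_succ_of_ne_zero h0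
        have h3 : (C (coeff u g) * X 0 ^ u 0 * X 1 ^ u 1 * X 1 ^ (b - i0) : P2) =
            (C (coeff u g) * X 0 ^ a * X 1 ^ u 1 * X 1 ^ (b - i0)) * X 0 := by
          rw [ha, Nat.succ_eq_add_one, pow_succ]
          ring
        rw [h3]
        exact Ideal.mul_mem_left _ _ hX0
    have h1 : (C (cf 0 i0 f) * X 1 ^ b : P2) ∈
        (Ideal.span ({X 0, f} : Set P2) ⊔ mI ^ n : Ideal P2) := by
      have h2 : (C (cf 0 i0 f) * X 1 ^ b : P2) = X 1 ^ (b - i0) * f -
          (f - C (cf 0 i0 f) * X 1 ^ i0) * X 1 ^ (b - i0) := by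
        have h3 : (X 1 : P2) ^ b = X 1 ^ i0 * X 1 ^ (b - i0) := by
          rw [← pow_add]
          congr 1
          omega
        rw [h3]
        ring
      rw [h2]
      exact Ideal.sub_mem _ (Ideal.mul_mem_left _ _ hf) key
    have h2 : (X 1 ^ b : P2) = C (cf 0 i0 f)⁻¹ * (C (cf 0 i0 f) * X 1 ^ b) := by
      rw [← mul_assoc, ← C_mul, inv_mul_cancel₀ hc, C_1, one_mul]
    rw [h2]
    exact Ideal.mul_mem_left _ _ h1

theorem multLe_X (f : P2) (i : ℕ) (h : cf 0 i f ≠ 0) : MultLe (X 0) f i := by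
  intro n
  have hex : ∃ i0, cf 0 i0 f ≠ 0 := ⟨i, h⟩
  classical
  obtain ⟨i0, hi0⟩ : ∃ i0, i0 = Nat.find hex := ⟨_, rfl⟩
  have hc : cf 0 i0 f ≠ 0 := by
    rw [hi0]
    exact Nat.find_spec hex
  have hmin : ∀ j < i0, cf 0 j f = 0 := by
    intro j hj
    rw [hi0] at hj
    exact not_not.1 (Nat.find_min hex hj)
  have hle : i0 ≤ i := by
    rw [hi0]
    exact Nat.find_min' hex h
  have hlow : ∀ b, i0 ≤ b →
      (X 1 ^ b : P2) ∈ (Ideal.span ({X 0, f} : Set P2) ⊔ mI ^ n : Ideal P2) := fun b hb =>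
    DF_low f n i0 hc hmin n b hb (by omega)
  obtain ⟨I, hI⟩ : ∃ I : Ideal P2, I = (Ideal.span ({X 0, f} : Set P2) ⊔ mI ^ n : Ideal P2) :=
    ⟨_, rfl⟩
  rw [← hI]
  rw [← hI] at hlow
  have hX0 : (X 0 : P2) ∈ I := by
    rw [hI]
    exact Ideal.mem_sup_left (Ideal.subset_span (by simp))
  let φ : (Fin i → ℂ) →ₗ[ℂ] (P2 ⧸ I) :=
    ∑ j : Fin i, (LinearMap.proj j).smulRight ((Ideal.Quotient.mk I) (X 1 ^ (j : ℕ)))
  have hφ : ∀ v, φ v = ∑ j : Fin i, v j • (Ideal.Quotient.mk I) (X 1 ^ (j : ℕ)) := by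
    intro v
    simp [φ]
  have hsurj : Function.Surjective φ := by
    intro q
    obtain ⟨p, rfl⟩ := Ideal.Quotient.mk_surjective q
    show ((Ideal.Quotient.mk I) p) ∈ Set.range φ
    rw [← LinearMap.coe_range]
    show ((Ideal.Quotient.mk I) p) ∈ LinearMap.range φ
    induction p using DB_ind with
    | h1 a b c =>
      by_cases ha : a = 0
      · by_cases hb : b < i
        · refine ⟨Pi.single ⟨b, hb⟩ c, ?_⟩
          rw [hφ, Finset.sum_eq_single (⟨b, hb⟩ : Fin i)]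
          · rw [Pi.single_eq_same, ha, pow_zero, mul_one]
            rw [← Ideal.Quotient.mkₐ_eq_mk ℂ, ← map_smul, smul_eq_C_mul]
          · intro l _ hl
            rw [Pi.single_eq_of_ne hl, zero_smul]
          · intro hl
            exact absurd (Finset.mem_univ _) hl
        · have h1 : (Ideal.Quotient.mk I) (C c * X 0 ^ a * X 1 ^ b) = 0 := by
            rw [Ideal.Quotient.eq_zero_iff_mem]
            exact Ideal.mul_mem_left _ _ (hlow b (by omega))
          rw [h1]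
          exact Submodule.zero_mem _
      · have h1 : (Ideal.Quotient.mk I) (C c * X 0 ^ a * X 1 ^ b) = 0 := by
          rw [Ideal.Quotient.eq_zero_iff_mem]
          obtain ⟨a', ha'⟩ := Nat.exists_eq_succ_of_ne_zero ha
          have h3 : (C c * X 0 ^ a * X 1 ^ b : P2) = (C c * X 0 ^ a' * X 1 ^ b) * X 0 := by
            rw [ha', Nat.succ_eq_add_one, pow_succ]
            ring
          rw [h3]
          exact Ideal.mul_mem_left _ _ hX0
        rw [h1]
        exact Submodule.zero_mem _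
    | h2 p q hp hq =>
      rw [map_add]
      exact Submodule.add_mem _ hp hq
  have h1 := LinearMap.finrank_range_le φ
  rw [LinearMap.range_eq_top.2 hsurj, finrank_top, Module.finrank_fin_fun] at h1
  exact h1

end FC76

end S_H76_FC_DF

section S_H76_FC_DG

/-!
# Row DG: elementary properties of MultLe

1. `MultLe.mono`: trivial.
2. `MultLe.of_mem`: if A, B lie in span {A', B'} then span {A,B} + m^n is contained in span {A',B'} + m^n, so the quotient map is
   onto and the dimension decreases (`Submodule.finrank_le...`, `LinearMap.finrank_le_of_surjective`, finite dimensionality `fd_of_le`).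
3. `MultLe.mul`: P2/((f,C)+m^n) (multiplication by g) to P2/((f g,C)+m^n) to P2/((g,C)+m^n) to 0 is exact, so the middle
   dimension is at most the sum.  Lean: let Q = P2/((fg,C)+m^n), the subspace R = image of the ideal (g,C)+m^n in Q; dim Q = dim R + dim Q/R,
   Q/R = P2/((g,C)+m^n), and R is the image of P2/((f,C)+m^n) under multiplication by g (elements of (g,C)+m^n are a g + b C + r, and
   b C + r is 0 in Q; multiplication by g maps (f,C)+m^n into (fg,C)+m^n).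
4. `MultLe.sw`: sw is an involutive algebra automorphism (`sw_sw`) mapping m^n onto m^n (`sw_mem`) and span {A,B} onto
   span {sw A, sw B} = span {sw B, sw A}; it induces a linear isomorphism of the quotients.
5. `not_multLe_zero`: the quotient by (0,0) + m^n is P2/m^n, of dimension n(n+1)/2, unbounded.
6. `exists_order`: by 5 not both A, B vanish; a nonzero polynomial of total degree t is not in m^(t+1); take the largest nu with
   A, B in m^nu (Nat.findGreatest, or minimal n such that not (A in m^(n+1) and B in m^(n+1))).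
-/

open MvPolynomial

namespace FC76

theorem MultLe.mono {A B : P2} {K K' : ℕ} (h : MultLe A B K) (hK : K ≤ K') : MultLe A B K' :=
  fun n => (h n).trans hK

theorem DG_surj {I J : Ideal P2} (hI : FiniteDimensional ℂ (P2 ⧸ I)) (φ : P2 →ₐ[ℂ] P2)
    (hφ : Function.Surjective φ) (h : ∀ a ∈ I, φ a ∈ J) :
    Module.finrank ℂ (P2 ⧸ J) ≤ Module.finrank ℂ (P2 ⧸ I) := by
  have h1 : I ≤ J.comap φ := fun a ha => h a ha
  let ψ : (P2 ⧸ I) →ₐ[ℂ] (P2 ⧸ J) := Ideal.quotientMapₐ J φ h1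
  have hψ : Function.Surjective ψ.toLinearMap := by
    intro y
    obtain ⟨y, rfl⟩ := Ideal.Quotient.mk_surjective y
    obtain ⟨x, rfl⟩ := hφ y
    exact ⟨Ideal.Quotient.mk I x, rfl⟩
  have h2 := LinearMap.finrank_range_le (ψ.toLinearMap)
  rw [LinearMap.range_eq_top.2 hψ, finrank_top] at h2
  exact h2

theorem DG_le_span (f g : P2) (n : ℕ) : (mI ^ n : Ideal P2) ≤ Ideal.span ({f, g} : Set P2) ⊔ mI ^ n :=
  le_sup_right

theorem DG_mem {f g a : P2} {n : ℕ} (h : a ∈ Ideal.span ({f, g} : Set P2) ⊔ mI ^ n) :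
    ∃ x y r : P2, r ∈ (mI ^ n : Ideal P2) ∧ a = x * f + y * g + r := by
  obtain ⟨u, hu, r, hr, rfl⟩ := Submodule.mem_sup.1 h
  obtain ⟨x, y, hxy⟩ := Ideal.mem_span_pair.1 hu
  exact ⟨x, y, r, hr, by rw [hxy]⟩

theorem DG_mem' (f g x y : P2) {r : P2} {n : ℕ} (hr : r ∈ (mI ^ n : Ideal P2)) :
    x * f + y * g + r ∈ Ideal.span ({f, g} : Set P2) ⊔ mI ^ n :=
  Submodule.mem_sup.2 ⟨x * f + y * g, Ideal.mem_span_pair.2 ⟨x, y, rfl⟩, r, hr, rfl⟩

theorem MultLe.of_mem {A B A' B' : P2} {K : ℕ} (h : MultLe A B K)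
    (hA : A ∈ Ideal.span ({A', B'} : Set P2)) (hB : B ∈ Ideal.span ({A', B'} : Set P2)) :
    MultLe A' B' K := by
  intro n
  refine (DG_surj (fd_of_le _ n (DG_le_span A B n)) (AlgHom.id ℂ P2) (fun x => ⟨x, rfl⟩) ?_).trans (h n)
  intro a ha
  obtain ⟨x, y, r, hr, rfl⟩ := DG_mem ha
  show x * A + y * B + r ∈ _
  have h1 : x * A + y * B ∈ Ideal.span ({A', B'} : Set P2) :=
    Ideal.add_mem _ (Ideal.mul_mem_left _ _ hA) (Ideal.mul_mem_left _ _ hB)
  exact Submodule.mem_sup.2 ⟨_, h1, r, hr, rfl⟩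

theorem DG_exact {I1 I2 I3 : Ideal P2} (g : P2) (h1 : FiniteDimensional ℂ (P2 ⧸ I1))
    (h2 : FiniteDimensional ℂ (P2 ⧸ I2)) (h12 : ∀ a ∈ I1, g * a ∈ I2) (h23 : I2 ≤ I3)
    (hker : ∀ a ∈ I3, ∃ b, a - g * b ∈ I2) :
    Module.finrank ℂ (P2 ⧸ I2) ≤ Module.finrank ℂ (P2 ⧸ I1) + Module.finrank ℂ (P2 ⧸ I3) := by
  have h12' : (I1 : Submodule P2 P2) ≤ Submodule.comap (LinearMap.mulLeft P2 g) I2 := fun a ha => h12 a ha
  let φ : (P2 ⧸ I1) →ₗ[P2] (P2 ⧸ I2) := Submodule.mapQ I1 I2 (LinearMap.mulLeft P2 g) h12'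
  have h23' : (I2 : Submodule P2 P2) ≤ Submodule.comap LinearMap.id I3 := fun a ha => h23 ha
  let ψ : (P2 ⧸ I2) →ₗ[P2] (P2 ⧸ I3) := Submodule.mapQ I2 I3 LinearMap.id h23'
  let φ' : (P2 ⧸ I1) →ₗ[ℂ] (P2 ⧸ I2) := φ.restrictScalars ℂ
  let ψ' : (P2 ⧸ I2) →ₗ[ℂ] (P2 ⧸ I3) := ψ.restrictScalars ℂ
  have hψ : Function.Surjective ψ' := by
    intro y
    obtain ⟨y, rfl⟩ := Ideal.Quotient.mk_surjective y
    exact ⟨Ideal.Quotient.mk I2 y, rfl⟩
  have hk : LinearMap.ker ψ' ≤ LinearMap.range φ' := by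
    intro y hy
    obtain ⟨y, rfl⟩ := Ideal.Quotient.mk_surjective y
    have hy1 : (Ideal.Quotient.mk I3 y : P2 ⧸ I3) = 0 := hy
    rw [Ideal.Quotient.eq_zero_iff_mem] at hy1
    obtain ⟨b, hb⟩ := hker y hy1
    refine ⟨Ideal.Quotient.mk I1 b, ?_⟩
    show (Ideal.Quotient.mk I2 (g * b) : P2 ⧸ I2) = Ideal.Quotient.mk I2 y
    exact (Ideal.Quotient.eq.2 hb).symm
  have e1 := LinearMap.finrank_range_add_finrank_ker ψ'
  rw [LinearMap.range_eq_top.2 hψ, finrank_top] at e1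
  have e2 : Module.finrank ℂ (LinearMap.ker ψ') ≤ Module.finrank ℂ (LinearMap.range φ') :=
    Submodule.finrank_mono hk
  have e3 := LinearMap.finrank_range_le φ'
  omega

theorem MultLe.mul {f g Cc : P2} {K1 K2 : ℕ} (h1 : MultLe f Cc K1) (h2 : MultLe g Cc K2) :
    MultLe (f * g) Cc (K1 + K2) := by
  intro n
  refine (DG_exact (I1 := Ideal.span ({f, Cc} : Set P2) ⊔ mI ^ n)
    (I3 := Ideal.span ({g, Cc} : Set P2) ⊔ mI ^ n) g (fd_of_le _ n (DG_le_span _ _ n))
    (fd_of_le _ n (DG_le_span _ _ n)) ?_ ?_ ?_).trans (add_le_add (h1 n) (h2 n))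
  · intro a ha
    obtain ⟨x, y, r, hr, rfl⟩ := DG_mem ha
    have := DG_mem' (f * g) Cc x (g * y) (r := g * r) (n := n) (Ideal.mul_mem_left _ _ hr)
    convert this using 1
    ring
  · intro a ha
    obtain ⟨x, y, r, hr, rfl⟩ := DG_mem ha
    have := DG_mem' g Cc (x * f) y (n := n) hr
    convert this using 1
    ring
  · intro a ha
    obtain ⟨x, y, r, hr, rfl⟩ := DG_mem ha
    refine ⟨x, ?_⟩
    have := DG_mem' (f * g) Cc 0 y (n := n) hr
    convert this using 1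
    ring

theorem MultLe.sw {A B : P2} {K : ℕ} (h : MultLe A B K) : MultLe (FC76.sw B) (FC76.sw A) K := by
  intro n
  refine (DG_surj (fd_of_le _ n (DG_le_span A B n)) FC76.sw (fun x => ⟨FC76.sw x, sw_sw x⟩) ?_).trans (h n)
  intro a ha
  obtain ⟨x, y, r, hr, rfl⟩ := DG_mem ha
  have h1 := DG_mem' (FC76.sw B) (FC76.sw A) (FC76.sw y) (FC76.sw x) (sw_mem r n hr)
  have h2 : FC76.sw (x * A + y * B + r) =
      FC76.sw y * FC76.sw B + FC76.sw x * FC76.sw A + FC76.sw r := by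
    rw [map_add, map_add, map_mul, map_mul]
    ring
  rw [h2]
  exact h1

theorem not_multLe_zero (K : ℕ) : ¬ MultLe 0 0 K := by
  intro h
  have h1 := h (K + 1)
  have h2 : (Ideal.span ({0, 0} : Set P2) ⊔ mI ^ (K + 1) : Ideal P2) = mI ^ (K + 1) := by
    have : Ideal.span ({0, 0} : Set P2) = ⊥ := by
      rw [Ideal.span_eq_bot]
      intro x hx
      simpa using hx
    rw [this, bot_sup_eq]
  rw [h2, finrank_mPow] at h1
  have h3 : 2 * (K + 1) ≤ (K + 1) * (K + 1 + 1) := by nlinarith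
  omega

theorem DG_zero {A : P2} (h : ∀ n : ℕ, A ∈ (mI ^ n : Ideal P2)) : A = 0 := by
  ext s
  rw [coeff_zero]
  by_contra hs
  exact hs ((mem_pow_idealOfVars_iff' (s.degree + 1) A).1 (h (s.degree + 1)) s
    (Nat.lt_succ_self _))

theorem exists_order (A B : P2) (K : ℕ) (h : MultLe A B K) :
    ∃ ν : ℕ, A ∈ mI ^ ν ∧ B ∈ mI ^ ν ∧ (A ∉ mI ^ (ν + 1) ∨ B ∉ mI ^ (ν + 1)) := by
  classical
  have hex : ∃ n : ℕ, ¬ (A ∈ (mI ^ n : Ideal P2) ∧ B ∈ (mI ^ n : Ideal P2)) := by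
    by_contra hcon
    push Not at hcon
    have hA := DG_zero fun n => (hcon n).1
    have hB := DG_zero fun n => (hcon n).2
    subst hA hB
    exact not_multLe_zero K h
  have h0 : Nat.find hex ≠ 0 := by
    intro h0
    have h1 := Nat.find_spec hex
    rw [h0] at h1
    apply h1
    simp
  obtain ⟨ν, hν⟩ := Nat.exists_eq_succ_of_ne_zero h0
  have h1 := Nat.find_min hex (m := ν) (by omega)
  rw [not_not] at h1
  have h2 := Nat.find_spec hex
  rw [hν] at h2
  refine ⟨ν, h1.1, h1.2, ?_⟩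
  by_contra hcon
  push Not at hcon
  exact h2 hcon

end FC76

end S_H76_FC_DG

section S_H76_FC_RA

/-!
# Row RA: non-degenerate linear part or non-vanishing => isolated leading jet

`lj_of_ne`: k = 0: homogeneousComponent 0 f = C (coeff 0 f) and coeff 0 f = eval 0 f; the hypothesis on p is contradictory.
`lj_of_det`: k = 1: homogeneousComponent 1 f evaluated at p is cf 1 0 f * p 0 + cf 0 1 f * p 1; a linear system with nonzero
determinant.  A, B in mI^1 by `mem_mI_iff`, `eval_zero_eq_cf`.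
`lj_two`: k = 2: for f in mI^2: homogeneousComponent 2 f evaluated at p is
 cf 2 0 f * (p 0)^2 + cf 1 1 f * p 0 * p 1 + cf 0 2 f * (p 1)^2.   This is the form used later for degree two jets.
(General tool: `homogeneousComponent_apply` as a sum over the support filtered by degree; the exponents s : Fin 2 →₀ ℕ of degree 1
 are single 0 1, single 1 1, those of degree 2 are single 0 2, single 0 1 + single 1 1, single 1 2.)
-/

open MvPolynomial

namespace FC76

theorem RA_hc (n a b : ℕ) (c : ℂ) : homogeneousComponent n (C c * X 0 ^ a * X 1 ^ b : P2) =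
    if n = a + b then (C c * X 0 ^ a * X 1 ^ b : P2) else 0 := by
  apply homogeneousComponent_of_mem
  rw [mem_homogeneousSubmodule, ← DB_mon]
  apply isHomogeneous_monomial
  rw [map_add]
  simp

theorem eval_hc1 (f : P2) (p : Fin 2 → ℂ) :
    eval p (homogeneousComponent 1 f) = cf 1 0 f * p 0 + cf 0 1 f * p 1 := by
  induction f using DB_ind with
  | h1 a b c =>
    rw [RA_hc, DB_cfm, DB_cfm]
    by_cases h : 1 = a + b
    · have h2 : (a = 1 ∧ b = 0) ∨ (a = 0 ∧ b = 1) := by omega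
      rcases h2 with ⟨rfl, rfl⟩ | ⟨rfl, rfl⟩
      · simp
      · simp
    · rw [if_neg h, if_neg (by omega), if_neg (by omega)]
      simp
  | h2 f g hf hg =>
    rw [map_add, map_add, hf, hg, DB_add, DB_add]
    ring

theorem eval_hc2 (f : P2) (p : Fin 2 → ℂ) :
    eval p (homogeneousComponent 2 f) = cf 2 0 f * p 0 ^ 2 + cf 1 1 f * (p 0 * p 1) + cf 0 2 f * p 1 ^ 2 := by
  induction f using DB_ind with
  | h1 a b c =>
    rw [RA_hc, DB_cfm, DB_cfm, DB_cfm]
    by_cases h : 2 = a + b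
    · have h2 : (a = 2 ∧ b = 0) ∨ (a = 1 ∧ b = 1) ∨ (a = 0 ∧ b = 2) := by omega
      rcases h2 with ⟨rfl, rfl⟩ | ⟨rfl, rfl⟩ | ⟨rfl, rfl⟩
      · simp
      · simp
        ring
      · simp
    · rw [if_neg h, if_neg (by omega), if_neg (by omega), if_neg (by omega)]
      simp
  | h2 f g hf hg =>
    rw [map_add, map_add, hf, hg, DB_add, DB_add, DB_add]
    ring

theorem RA_hc0 (f : P2) (p : Fin 2 → ℂ) : eval p (homogeneousComponent 0 f) = eval 0 f := by
  induction f using DB_ind with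
  | h1 a b c =>
    rw [RA_hc]
    by_cases h : 0 = a + b
    · have h2 : a = 0 ∧ b = 0 := by omega
      obtain ⟨rfl, rfl⟩ := h2
      simp
    · rw [if_neg h]
      have h2 : a ≠ 0 ∨ b ≠ 0 := by omega
      rcases h2 with h2 | h2
      · simp [h2]
      · simp [h2]
  | h2 f g hf hg => rw [map_add, map_add, hf, hg, map_add]

theorem RA_00 (f : P2) : cf 0 0 f = eval 0 f := by
  induction f using DB_ind with
  | h1 a b c =>
    rw [DB_cfm]
    by_cases h : a = 0 ∧ b = 0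
    · rw [if_pos h, h.1, h.2]
      simp
    · rw [if_neg h]
      have h2 : a ≠ 0 ∨ b ≠ 0 := by omega
      rcases h2 with h2 | h2
      · simp [h2]
      · simp [h2]
  | h2 f g hf hg => rw [DB_add, hf, hg, map_add]

theorem lj_of_ne (A B : P2) (h : eval 0 A ≠ 0 ∨ eval 0 B ≠ 0) : LJ A B := by
  refine ⟨0, by simp, by simp, fun p h1 h2 => ?_⟩
  rw [RA_hc0] at h1 h2
  rcases h with h | h
  · exact absurd h1 h
  · exact absurd h2 h

theorem lj_of_det (A B : P2) (hA : eval 0 A = 0) (hB : eval 0 B = 0)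
    (hdet : cf 1 0 A * cf 0 1 B - cf 0 1 A * cf 1 0 B ≠ 0) : LJ A B := by
  have hm : ∀ f : P2, eval 0 f = 0 → f ∈ mI ^ 1 := by
    intro f hf
    rw [DB_mem]
    intro i j hij
    have h1 : i = 0 := by omega
    have h2 : j = 0 := by omega
    rw [h1, h2, RA_00, hf]
  refine ⟨1, hm A hA, hm B hB, fun p h1 h2 => ?_⟩
  rw [eval_hc1] at h1 h2
  have e0 : (cf 1 0 A * cf 0 1 B - cf 0 1 A * cf 1 0 B) * p 0 = 0 := by
    linear_combination cf 0 1 B * h1 - cf 0 1 A * h2
  have e1 : (cf 1 0 A * cf 0 1 B - cf 0 1 A * cf 1 0 B) * p 1 = 0 := by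
    linear_combination cf 1 0 A * h2 - cf 1 0 B * h1
  have f0 : p 0 = 0 := (mul_eq_zero.1 e0).resolve_left hdet
  have f1 : p 1 = 0 := (mul_eq_zero.1 e1).resolve_left hdet
  funext i
  fin_cases i
  · exact f0
  · exact f1

theorem lj_two (A B : P2) (hA : A ∈ mI ^ 2) (hB : B ∈ mI ^ 2)
    (h : ∀ x y : ℂ, cf 2 0 A * x ^ 2 + cf 1 1 A * (x * y) + cf 0 2 A * y ^ 2 = 0 →
      cf 2 0 B * x ^ 2 + cf 1 1 B * (x * y) + cf 0 2 B * y ^ 2 = 0 → x = 0 ∧ y = 0) : LJ A B := by
  refine ⟨2, hA, hB, fun p h1 h2 => ?_⟩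
  rw [eval_hc2] at h1 h2
  obtain ⟨f0, f1⟩ := h _ _ h1 h2
  funext i
  fin_cases i
  · exact f0
  · exact f1

end FC76

end S_H76_FC_RA

section S_H76_FC_RB

/-!
# Row RB: one blow-up at a point of order nu >= 2

Let A, B in m^nu, one of them not in m^(nu+1), nu >= 2, MultLe A B K, and IH: every vector field of multiplicity bound K' < K is in G.
Claim: G A B.

Put bl c A = x^nu A', bl c B = x^nu B' (`bl_dvd`).  Noether (`noether`): nu^2 <= K and MultLe A' B' (K - nu^2).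
Let D := B' - (X 1 + C c) A'.  span {A', D} = span {A', B'}, so MultLe A' D (K - nu^2) (`MultLe.of_mem`).
By `bl_quot_cf`, D(0,u) is the polynomial T(u + c) where
   T(t) = sum_{i<=nu} cf (nu-i) i B t^i - t * sum_{i<=nu} cf (nu-i) i A t^i        (degree <= nu+1, independent of c).
CASE T ≠ 0 (non dicritical), e := nu - 1:  A1 := X 0 * A', C1 := D:  BlTo A B c (nu-1) A1 C1:
   x^(nu-1) * (x A') = bl c A;  x^nu * D = bl c B - (X 1 + C c) bl c A.
   D(0,u) = T(u+c) is a nonzero polynomial of degree <= nu+1, so cf 0 i D ≠ 0 for some i <= nu+1: MultLe (X 0) D i (`multLe_X`), hence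
   MultLe (X 0 * A') D (nu + 1 + (K - nu^2)) (`MultLe.mul`, `MultLe.mono`), and nu + 1 + K - nu^2 < K because nu^2 >= nu + 2 (nu >= 2).
   IH: G A1 C1, so GE A1 C1 (toE).
CASE T = 0 (dicritical), e := nu:  D(0,u) = 0, so D = X 0 * D1 (`dvd_X0_iff`).  A1 := A', C1 := D1:  BlTo A B c nu A1 C1.
   MultLe A' D (K - nu^2) and D in span {A', D1}, so MultLe A' D1 (K - nu^2) (`MultLe.of_mem`), K - nu^2 < K (K >= nu^2 >= 4). IH.
The chart at infinity: apply the same construction to the vector field (sw B, sw A) at c = 0: it satisfies the same hypotheses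
(`sw_mem`, `sw_sw`, `MultLe.sw`) and its polynomial is T~(t) = sum cf (nu-i) i (sw A) t^i - t sum cf (nu-i) i (sw B) t^i with
cf (nu-i) i (sw A) = cf i (nu-i) A: T~(t) = - t^(nu+1) T(1/t) (reversal), so T~ = 0 iff T = 0: coefficient of t^j in T is
 cf (nu-j) j B - cf (nu-j+1) (j-1) A, and of t^(nu+1-j) in T~ is minus that.  State an auxiliary lemma for a general vector field
 (with a predicate 'all coefficients cf (nu-j) j B = cf (nu+1-j) (j-1) A ...' = dicritical) and use it twice.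
Conclude with `ResClosed.blow` with this e.
-/

open MvPolynomial

namespace FC76

/-- the polynomial f_nu(1, t) of the homogeneous component of degree nu -/
noncomputable def RB_P (f : P2) (ν : ℕ) : Polynomial ℂ :=
  ∑ i ∈ Finset.range (ν + 1), Polynomial.monomial i (cf (ν - i) i f)

/-- the tangent cone polynomial -/
noncomputable def RB_T (A B : P2) (ν : ℕ) : Polynomial ℂ :=
  RB_P B ν - Polynomial.X * RB_P A ν

theorem RB_P_coeff (f : P2) (ν j : ℕ) :
    (RB_P f ν).coeff j = if j ≤ ν then cf (ν - j) j f else 0 := by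
  unfold RB_P
  rw [Polynomial.finsetSum_coeff]
  simp only [Polynomial.coeff_monomial]
  rw [Finset.sum_ite_eq' (Finset.range (ν + 1)) j (fun i => cf (ν - i) i f)]
  simp only [Finset.mem_range, Nat.lt_succ_iff]

theorem RB_P_natDegree (f : P2) (ν : ℕ) : (RB_P f ν).natDegree ≤ ν := by
  rw [Polynomial.natDegree_le_iff_coeff_eq_zero]
  intro N hN
  rw [RB_P_coeff, if_neg (by omega)]

theorem RB_T_natDegree (A B : P2) (ν : ℕ) : (RB_T A B ν).natDegree ≤ ν + 1 := by
  unfold RB_T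
  refine (Polynomial.natDegree_sub_le _ _).trans ?_
  refine max_le ((RB_P_natDegree B ν).trans (by omega)) ?_
  refine Polynomial.natDegree_mul_le.trans ?_
  have h1 := RB_P_natDegree A ν
  have h2 : (Polynomial.X : Polynomial ℂ).natDegree ≤ 1 := Polynomial.natDegree_X_le
  omega

theorem RB_T_coeff_zero (A B : P2) (ν : ℕ) : (RB_T A B ν).coeff 0 = cf ν 0 B := by
  unfold RB_T
  rw [Polynomial.coeff_sub, Polynomial.coeff_X_mul_zero, sub_zero, RB_P_coeff,
    if_pos (Nat.zero_le _), Nat.sub_zero]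

theorem RB_T_coeff_succ (A B : P2) (ν j : ℕ) : (RB_T A B ν).coeff (j + 1) =
    (if j + 1 ≤ ν then cf (ν - (j + 1)) (j + 1) B else 0) -
      (if j ≤ ν then cf (ν - j) j A else 0) := by
  unfold RB_T
  rw [Polynomial.coeff_sub, Polynomial.coeff_X_mul, RB_P_coeff, RB_P_coeff]

/-- the exchange of the variables reverses the tangent cone polynomial -/
theorem RB_T_sw (A B : P2) (ν : ℕ) (h : RB_T A B ν = 0) : RB_T (sw B) (sw A) ν = 0 := by
  ext j
  rw [Polynomial.coeff_zero]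
  rcases j with _ | j
  · rw [RB_T_coeff_zero, cf_sw]
    have h1 : (RB_T A B ν).coeff (ν + 1) = 0 := by rw [h, Polynomial.coeff_zero]
    rw [RB_T_coeff_succ, if_neg (by omega), if_pos le_rfl, Nat.sub_self, zero_sub,
      neg_eq_zero] at h1
    exact h1
  · rw [RB_T_coeff_succ]
    by_cases hj : j + 1 ≤ ν
    · rw [if_pos hj, if_pos (by omega), cf_sw, cf_sw]
      have h1 : (RB_T A B ν).coeff ((ν - (j + 1)) + 1) = 0 := by rw [h, Polynomial.coeff_zero]
      rw [RB_T_coeff_succ, if_pos (by omega), if_pos (by omega)] at h1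
      have e1 : ν - (ν - (j + 1) + 1) = j := by omega
      have e2 : ν - (j + 1) + 1 = ν - j := by omega
      have e3 : ν - (ν - (j + 1)) = j + 1 := by omega
      rw [e1, e2, e3] at h1
      rw [← neg_eq_zero, neg_sub]
      exact h1
    · rw [if_neg hj]
      by_cases hj2 : j ≤ ν
      · have hjν : j = ν := by omega
        subst hjν
        rw [if_pos le_rfl, Nat.sub_self, cf_sw, zero_sub, neg_eq_zero]
        have h1 : (RB_T A B j).coeff 0 = 0 := by rw [h, Polynomial.coeff_zero]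
        rwa [RB_T_coeff_zero] at h1
      · rw [if_neg hj2, sub_zero]

theorem RB_taylor (c : ℂ) (f g : P2) (k : ℕ) (hf : f ∈ mI ^ k) (hg : bl c f = X 0 ^ k * g)
    (j : ℕ) : cf 0 j g = (Polynomial.taylor c (RB_P f k)).coeff j := by
  rw [bl_quot_cf c f g k hf hg j]
  unfold RB_P
  rw [map_sum, Polynomial.finsetSum_coeff]
  refine Finset.sum_congr rfl ?_
  intro i _
  rw [Polynomial.taylor_monomial, Polynomial.coeff_C_mul, Polynomial.coeff_X_add_C_pow]
  ring

theorem RB_cf_X1_mul (i j : ℕ) (f : P2) : cf i (j + 1) (X 1 * f) = cf i j f := by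
  have h1 : (X 1 * f : P2) = sw (X 0 * sw f) := by
    rw [map_mul, sw_sw]
    have : sw (X 0) = (X 1 : P2) := by
      unfold sw
      simp
    rw [this]
  rw [h1, cf_sw, cf_X0_mul, cf_sw]

theorem RB_cf_X1_mul_zero (i : ℕ) (f : P2) : cf i 0 (X 1 * f) = 0 := by
  have h1 : (X 1 * f : P2) = sw (X 0 * sw f) := by
    rw [map_mul, sw_sw]
    have : sw (X 0) = (X 1 : P2) := by
      unfold sw
      simp
    rw [this]
  rw [h1, cf_sw, cf_zero_X0_mul]

theorem RB_cf_sub (i j : ℕ) (f g : P2) : cf i j (f - g) = cf i j f - cf i j g := by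
  unfold cf
  rw [coeff_sub]

theorem RB_cf_add (i j : ℕ) (f g : P2) : cf i j (f + g) = cf i j f + cf i j g := by
  unfold cf
  rw [coeff_add]

theorem RB_cf_C_mul (i j : ℕ) (c : ℂ) (g : P2) : cf i j (C c * g) = c * cf i j g := by
  unfold cf
  rw [coeff_C_mul]

theorem RB_cfD (c : ℂ) (A B A' B' : P2) (ν : ℕ) (hA : A ∈ mI ^ ν) (hB : B ∈ mI ^ ν)
    (hA' : bl c A = X 0 ^ ν * A') (hB' : bl c B = X 0 ^ ν * B') (j : ℕ) :
    cf 0 j (B' - (X 1 + C c) * A') = (Polynomial.taylor c (RB_T A B ν)).coeff j := by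
  unfold RB_T
  rw [map_sub, Polynomial.coeff_sub, Polynomial.taylor_mul, Polynomial.taylor_X, add_mul, add_mul,
    Polynomial.coeff_add, Polynomial.coeff_C_mul, RB_cf_sub, RB_cf_add, RB_cf_C_mul,
    RB_taylor c B B' ν hB hB' j, RB_taylor c A A' ν hA hA' j]
  rcases j with _ | j
  · rw [RB_cf_X1_mul_zero, Polynomial.coeff_X_mul_zero]
  · rw [RB_cf_X1_mul, Polynomial.coeff_X_mul, RB_taylor c A A' ν hA hA' j]

theorem RB_aux {G GE : P2 → P2 → Prop} (h : ResClosed G GE) (A B : P2) (ν K : ℕ) (hν : 2 ≤ ν)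
    (hA : A ∈ mI ^ ν) (hB : B ∈ mI ^ ν) (hmin : A ∉ mI ^ (ν + 1) ∨ B ∉ mI ^ (ν + 1))
    (hK : MultLe A B K) (IH : ∀ K' < K, ∀ A B : P2, MultLe A B K' → G A B) (c : ℂ) :
    (RB_T A B ν ≠ 0 → ∃ A1 C1, BlTo A B c (ν - 1) A1 C1 ∧ GE A1 C1) ∧
      (RB_T A B ν = 0 → ∃ A1 C1, BlTo A B c ν A1 C1 ∧ GE A1 C1) := by
  obtain ⟨A', hA'⟩ := bl_dvd c A ν hA
  obtain ⟨B', hB'⟩ := bl_dvd c B ν hB
  obtain ⟨h1, h2⟩ := noether A B A' B' ν K c hA hB hmin hA' hB' hK
  have hsq : ν + 2 ≤ ν ^ 2 := by nlinarith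
  have hcf := RB_cfD c A B A' B' ν hA hB hA' hB'
  obtain ⟨D, hDdef⟩ : ∃ D : P2, D = B' - (X 1 + C c) * A' := ⟨_, rfl⟩
  rw [← hDdef] at hcf
  have hD : MultLe A' D (K - ν ^ 2) := by
    refine h2.of_mem (Ideal.subset_span (by simp)) ?_
    have hB2 : B' = D + (X 1 + C c) * A' := by rw [hDdef]; ring
    rw [hB2]
    exact Ideal.add_mem _ (Ideal.subset_span (by simp))
      (Ideal.mul_mem_left _ _ (Ideal.subset_span (by simp)))
  have hblB : bl c B - (X 1 + C c) * bl c A = X 0 ^ ν * D := by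
    rw [hA', hB', hDdef]; ring
  constructor
  · intro hT
    refine ⟨X 0 * A', D, ⟨?_, ?_⟩, ?_⟩
    · rw [hA', ← mul_assoc, ← pow_succ, Nat.sub_add_cancel (by omega : 1 ≤ ν)]
    · rw [hblB, Nat.sub_add_cancel (by omega : 1 ≤ ν)]
    · have hT2 : Polynomial.taylor c (RB_T A B ν) ≠ 0 := by
        intro h0
        apply hT
        apply Polynomial.taylor_injective c
        rw [h0, map_zero]
      have hdeg : (Polynomial.taylor c (RB_T A B ν)).natDegree ≤ ν + 1 := by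
        rw [Polynomial.natDegree_taylor]
        exact RB_T_natDegree A B ν
      have hne : cf 0 (Polynomial.taylor c (RB_T A B ν)).natDegree D ≠ 0 := by
        rw [hcf]
        exact Polynomial.leadingCoeff_ne_zero.mpr hT2
      have hX : MultLe (X 0) D (ν + 1) := (multLe_X D _ hne).mono hdeg
      have hm : MultLe (X 0 * A') D (ν + 1 + (K - ν ^ 2)) := hX.mul hD
      exact h.toE _ _ (IH _ (by omega) _ _ hm)
  · intro hT
    have hdvd : X 0 ∣ D := by
      rw [dvd_X0_iff]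
      intro j
      rw [hcf, hT, map_zero, Polynomial.coeff_zero]
    obtain ⟨D1, hD1⟩ := hdvd
    refine ⟨A', D1, ⟨hA'.symm, ?_⟩, ?_⟩
    · rw [hblB, hD1]; ring
    · have hm : MultLe A' D1 (K - ν ^ 2) := by
        refine hD.of_mem (Ideal.subset_span (by simp)) ?_
        rw [hD1]
        exact Ideal.mul_mem_left _ _ (Ideal.subset_span (by simp))
      exact h.toE _ _ (IH _ (by omega) _ _ hm)

theorem res_order_ge_two {G GE : P2 → P2 → Prop} (h : ResClosed G GE) (A B : P2) (ν K : ℕ) (hν : 2 ≤ ν)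
    (hA : A ∈ mI ^ ν) (hB : B ∈ mI ^ ν) (hmin : A ∉ mI ^ (ν + 1) ∨ B ∉ mI ^ (ν + 1))
    (hK : MultLe A B K) (IH : ∀ K' < K, ∀ A B : P2, MultLe A B K' → G A B) : G A B := by
  have hsw : ∀ f : P2, f ∉ mI ^ (ν + 1) → sw f ∉ mI ^ (ν + 1) := by
    intro f hf h1
    apply hf
    have := sw_mem _ _ h1
    rwa [sw_sw] at this
  have hmin2 : sw B ∉ mI ^ (ν + 1) ∨ sw A ∉ mI ^ (ν + 1) := by
    rcases hmin with h1 | h1
    · exact Or.inr (hsw A h1)
    · exact Or.inl (hsw B h1)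
  have hA2 := sw_mem _ _ hA
  have hB2 := sw_mem _ _ hB
  by_cases hT : RB_T A B ν = 0
  · exact h.blow A B ν (fun c => (RB_aux h A B ν K hν hA hB hmin hK IH c).2 hT)
      ((RB_aux h (sw B) (sw A) ν K hν hB2 hA2 hmin2 hK.sw IH 0).2 (RB_T_sw A B ν hT))
  · have hT2 : RB_T (sw B) (sw A) ν ≠ 0 := by
      intro h0
      apply hT
      have := RB_T_sw _ _ ν h0
      rwa [sw_sw, sw_sw] at this
    exact h.blow A B (ν - 1) (fun c => (RB_aux h A B ν K hν hA hB hmin hK IH c).1 hT)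
      ((RB_aux h (sw B) (sw A) ν K hν hB2 hA2 hmin2 hK.sw IH 0).1 hT2)

end FC76

end S_H76_FC_RB

section S_H76_FC_RC

/-!
# Row RC: the chain of blow-ups at a saddle-node (x^m a, B)

`snChain`: for all K, m >= 1, a, B with MultLe a B K, B(0) = 0, tau := cf 0 1 B ≠ 0:  GE (X 0 ^ m * a) B.
Induction on K (strong), for all m, a, B.
* a(0) ≠ 0, m = 1: the linear part of (x a, B) has determinant a(0) tau ≠ 0: `lj_of_det`, G, toE.
* a(0) ≠ 0, m >= 2: `ResClosed.sn`.
* a(0) = 0.  beta := cf 1 0 B.  We use toE (blow (x^m a) B 0 ...) i.e. e = 0.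
  Chart c:  bl c a = x a' (`bl_dvd`, k = 1), bl c B = x B'.  A1 := bl c (x^m a) = x^m * (x a') = x^(m+1) a';
   C1 := B' - (X 1 + C c) x^m a'  (x C1 = bl c B - (X 1 + C c) bl c A).  By `bl_quot_cf` (k = 1): cf 0 0 B' = beta + tau c, cf 0 1 B' = tau;
   since m >= 1 the same holds for C1: cf 0 0 C1 = beta + tau c, cf 0 1 C1 = tau (x^m divides the correction).
   If beta + tau c ≠ 0: `lj_of_ne` (eval 0 C1 ≠ 0).  If = 0: Noether with nu = 1 for (a, B) (B not in m^2 as cf 0 1 B ≠ 0):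
   1 <= K and MultLe a' B' (K-1); B' in span {a', C1}, a' too, so MultLe a' C1 (K-1) (`MultLe.of_mem`), and the induction hypothesis
   with m+1 gives GE (x^(m+1) a') C1.
  Chart at infinity: the field is (sw B, sw A), A = x^m a, c = 0.  A1 := bl 0 (sw B), C1 with x C1 = bl 0 (sw A) - y bl 0 (sw B).
   bl 0 (sw A) = (x y)^m bl 0 (sw a) and bl 0 (sw a) is divisible by x (sw a in m); bl 0 (sw B) = x b', b'(0,0) = cf 1 0 (sw B) = tau.
   So C1 = x^m y^m a'' - y b' with bl 0 (sw a) = x a'' .  Linear parts: cf 1 0 A1 = tau, cf 0 1 A1 = 0 (A1 = x b'); cf 0 1 C1 = - tau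
   (x^m y^m a'' is in m^2).  Determinant - tau^2 ≠ 0, C1(0)=0: `lj_of_det`.
   (Use `cf_bl0`, `cf_sw`, `cf_X0_mul` for the coefficients.)
-/

open MvPolynomial

namespace FC76

theorem RC_cf_sub (i j : ℕ) (f g : P2) : cf i j (f - g) = cf i j f - cf i j g := by
  simp [cf]

theorem RC_cf_X1 (i j : ℕ) (f : P2) : cf i (j + 1) (X 1 * f) = cf i j f := by
  have h1 : sw (X 1 * f) = X 0 * sw f := by
    rw [map_mul]
    congr 1
    simp [sw]
  rw [← cf_sw (j + 1) i, h1, cf_X0_mul, cf_sw]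

theorem RC_cf_X1_zero (i : ℕ) (f : P2) : cf i 0 (X 1 * f) = 0 := by
  have h1 : sw (X 1 * f) = X 0 * sw f := by
    rw [map_mul]
    congr 1
    simp [sw]
  rw [← cf_sw 0 i, h1, cf_zero_X0_mul]

theorem RC_bl_X0 (c : ℂ) : bl c (X 0) = X 0 := by simp [bl]

theorem RC_bl_X1 (c : ℂ) : bl c (X 1) = X 0 * (X 1 + C c) := by simp [bl]

theorem RC_sw_X0 : sw (X 0) = X 1 := by simp [sw]

theorem RC_cf_pow (m j : ℕ) (hm : 1 ≤ m) (f : P2) : cf 0 j (X 0 ^ m * f) = 0 := by
  obtain ⟨k, rfl⟩ : ∃ k, m = k + 1 := ⟨m - 1, by omega⟩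
  rw [pow_succ', mul_assoc, cf_zero_X0_mul]

theorem snChain {G GE : P2 → P2 → Prop} (h : ResClosed G GE) :
    ∀ (K m : ℕ) (a B : P2), 1 ≤ m → MultLe a B K → eval 0 B = 0 → cf 0 1 B ≠ 0 → GE (X 0 ^ m * a) B := by
  intro K
  induction K using Nat.strong_induction_on with
  | _ K ih =>
    intro m a B hm hK hB0 hτ
    by_cases ha0 : eval 0 a = 0
    · -- the blow-up
      have hBm : B ∈ mI ^ 1 := by rw [mem_mI_iff, ← eval_zero_eq_cf]; exact hB0
      have ham : a ∈ mI ^ 1 := by rw [mem_mI_iff, ← eval_zero_eq_cf]; exact ha0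
      have hB2 : B ∉ mI ^ 2 := fun hc => hτ ((mem_mI2_iff B).1 hc).2.2
      refine h.toE _ _ (h.blow _ _ 0 (fun c => ?_) ?_)
      · obtain ⟨a', ha'⟩ := bl_dvd c a 1 ham
        obtain ⟨B', hB'⟩ := bl_dvd c B 1 hBm
        have e1 : bl c (X 0 ^ m * a) = X 0 ^ (m + 1) * a' := by
          rw [map_mul, map_pow, RC_bl_X0, ha']
          ring
        refine ⟨X 0 ^ (m + 1) * a', B' - (X 1 + C c) * (X 0 ^ m * a'), ⟨?_, ?_⟩, ?_⟩
        · rw [e1, pow_zero, one_mul]
        · rw [e1, hB']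
          ring
        · have c1 : ∀ j, cf 0 j ((X 1 + C c) * (X 0 ^ m * a')) = 0 := by
            intro j
            rw [mul_left_comm]
            exact RC_cf_pow m j hm _
          have c2 := bl_quot_cf c B B' 1 hBm hB' 1
          rw [Finset.sum_range_succ, Finset.sum_range_one] at c2
          simp only [Nat.choose_self, Nat.cast_one, mul_one, Nat.sub_self, pow_zero,
            Nat.choose_zero_succ, Nat.cast_zero, mul_zero, zero_mul, zero_add] at c2
          set C1 := B' - (X 1 + C c) * (X 0 ^ m * a') with hC1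
          have c3 : cf 0 1 C1 = cf 0 1 B := by
            rw [hC1, RC_cf_sub, c1, sub_zero, c2]
          by_cases hC0 : eval 0 C1 = 0
          · have hN := noether a B a' B' 1 K c ham hBm (Or.inr hB2) ha' hB' hK
            obtain ⟨hN1, hN2⟩ := hN
            have hM : MultLe a' C1 (K - 1 ^ 2) := by
              refine hN2.of_mem (Ideal.subset_span (by simp)) ?_
              rw [Ideal.mem_span_pair]
              refine ⟨(X 1 + C c) * X 0 ^ m, 1, ?_⟩
              rw [hC1]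
              ring
            exact ih (K - 1 ^ 2) (by omega) (m + 1) a' C1 (by omega) hM hC0 (by rw [c3]; exact hτ)
          · exact h.toE _ _ (h.lj _ _ (lj_of_ne _ _ (Or.inr hC0)))
      · have hBs : sw B ∈ mI ^ 1 := sw_mem B 1 hBm
        have has : sw a ∈ mI ^ 1 := sw_mem a 1 ham
        obtain ⟨b', hb'⟩ := bl_dvd 0 (sw B) 1 hBs
        obtain ⟨a', ha'⟩ := bl_dvd 0 (sw a) 1 has
        have e1 : bl 0 (sw (X 0 ^ m * a)) = (X 0 * (X 1 + C 0)) ^ m * (X 0 ^ 1 * a') := by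
          rw [map_mul, map_mul, map_pow, map_pow, RC_sw_X0, RC_bl_X1, ha']
        obtain ⟨k, rfl⟩ : ∃ k, m = k + 1 := ⟨m - 1, by omega⟩
        refine ⟨X 0 * b', (X 0 * (X 1 + C 0)) ^ (k + 1) * a' - (X 1 + C 0) * b', ⟨?_, ?_⟩, ?_⟩
        · rw [hb', pow_zero, one_mul, pow_one]
        · rw [e1, hb']
          ring
        · have c2 := bl_quot_cf 0 (sw B) b' 1 hBs hb' 0
          rw [Finset.sum_range_succ, Finset.sum_range_one] at c2
          simp only [Nat.choose_zero_right, Nat.cast_one, mul_one, Nat.sub_self, Nat.sub_zero,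
            pow_zero, pow_one, mul_zero, add_zero, cf_sw] at c2
          have c3 : ∀ j, cf 0 j ((X 0 * (X 1 + C 0)) ^ (k + 1) * a') = 0 := by
            intro j
            rw [pow_succ', mul_assoc, mul_assoc, cf_zero_X0_mul]
          have c4 : (X 1 + C 0 : P2) * b' = X 1 * b' := by
            rw [C_0, add_zero]
          refine h.toE _ _ (h.lj _ _ (lj_of_det _ _ ?_ ?_ ?_))
          · rw [eval_zero_eq_cf, cf_zero_X0_mul]
          · rw [eval_zero_eq_cf, RC_cf_sub, c3, c4, RC_cf_X1_zero, sub_zero]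
          · rw [cf_zero_X0_mul, zero_mul, sub_zero, RC_cf_sub, c3, c4, RC_cf_X1, cf_X0_mul, c2]
            rw [zero_sub, mul_neg]
            exact neg_ne_zero.2 (mul_ne_zero hτ hτ)
    · rcases Nat.lt_or_ge m 2 with h2 | h2
      · have hm1 : m = 1 := by omega
        subst hm1
        rw [pow_one]
        refine h.toE _ _ (h.lj _ _ (lj_of_det _ _ ?_ hB0 ?_))
        · rw [eval_zero_eq_cf, cf_zero_X0_mul]
        · rw [cf_zero_X0_mul, zero_mul, sub_zero, cf_X0_mul, ← eval_zero_eq_cf]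
          exact mul_ne_zero ha0 hτ
      · exact h.sn m a B h2 ha0 hB0 hτ

end FC76

end S_H76_FC_RC

section S_H76_FC_RE

/-!
# Row RE: the second blow-up in the nilpotent case

Z1 = (A1, C1) with A1 = X 0 * A', A'(0) = 0, cf 0 1 A' = q ≠ 0, C1(0) = 0, cf 0 1 C1 = 0, cf 0 2 C1 = - q.
So A1 = x (q u + alpha x + ...), C1 = beta0 x - q u^2 + beta1 x u + beta2 x^2 + ... , beta0 = cf 1 0 C1.
Claim: G A1 C1, provided IH holds for K' < K and MultLe A' C1 (K - 1), 1 <= K   (then MultLe A1 C1 (K+1)).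

CASE beta0 ≠ 0.  blow with e = 0 (`ResClosed.blow`).
 Chart c: bl c C1 = x C', bl c A1 = x^2 A'' (A1 in m^2), so C2 := C' - (X 1 + C c) x A''; cf 0 0 C2 = cf 0 0 C' = beta0 (`bl_quot_cf`, k=1:
   cf 1 0 C1 + cf 0 1 C1 c = beta0): eval 0 C2 ≠ 0: `lj_of_ne`.
 Infinity: field (sw C1, sw A1), c = 0: A2 := bl 0 (sw C1), C2 with x C2 = bl 0 (sw A1) - y bl 0 (sw C1) (divisible by x since both
   bl 0 (sw ..) are).  Coefficients by `cf_bl0`, `cf_sw`:  cf a b (bl 0 (sw f)) = cf b (a-b) f if b <= a, else 0.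
   A2: cf 0 0 = 0, cf 1 0 = cf 0 1 C1 = 0, cf 0 1 = 0, cf 2 0 = cf 0 2 C1 = -q, cf 1 1 = cf 1 0 C1 = beta0, cf 0 2 = 0.
   C2: cf a b C2 = cf (a+1) b (x C2) = cf (a+1) b (bl 0 (sw A1)) - cf (a+1) (b-1) (bl 0 (sw C1)) [second term 0 if b = 0].
     cf 0 0 C2 = cf 0 1 A1 = 0;  cf 1 0 C2 = cf 0 2 A1 = 0; cf 0 1 C2 = cf 1 0 A1 - cf 0 1 C1 = 0; cf 2 0 C2 = cf 0 3 A1 = 0;
     cf 1 1 C2 = cf 1 1 A1 - cf 0 2 C1 = q + q = 2 q;  cf 0 2 C2 = 0 - cf 1 0 C1 = - beta0   [cf 1 2 (bl 0 (sw A1)) = 0 as 2 > 1;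
     cf 1 1 (bl 0 (sw C1)) = beta0].
   `lj_two`: x (beta0 y - q x) = 0 and y (2 q x - beta0 y) = 0 imply x = y = 0 (q, beta0 ≠ 0).
CASE beta0 = 0.  A1, C1 in m^2, C1 not in m^3 (cf 0 2 C1 ≠ 0).  blow with e = 1.
 Chart c: bl c A1 = x^2 A'', bl c C1 = x^2 C''.  A2 := x A'', C2 := C'' - (X 1 + C c) A'': BlTo A1 C1 c 1 A2 C2.
   C2(0,u) = T(u+c), T(t) = sum_{i<=2} cf (2-i) i C1 t^i - t sum_{i<=2} cf (2-i) i A1 t^i, degree 2 with coefficient of t^2 equal to
   cf 0 2 C1 - cf 1 1 A1 = - 2 q (and cf 0 2 A1 = 0); so cf 0 2 C2 = - 2 q ≠ 0 and MultLe (X 0) C2 2 (`multLe_X`).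
   MultLe A1 C1 (K+1): `MultLe.mul` of MultLe (X 0) C1 2 and MultLe A' C1 (K-1).  Noether (nu = 2): 4 <= K+1, MultLe A'' C'' (K+1-4), so
   MultLe A'' C2 (K-3), MultLe (X 0 * A'') C2 (2 + (K-3)) = K - 1 < K: IH, toE.
 Infinity: field (sw C1, sw A1), c = 0, e = 1: A2, C2 with x A2 = bl 0 (sw C1), x^2 C2 = bl 0 (sw A1) - y bl 0 (sw C1).
   cf a b A2 = cf (a+1) b (bl 0 (sw C1)): cf 0 0 A2 = cf 0 1 C1 = 0, cf 1 0 A2 = cf 0 2 C1 = - q, cf 0 1 A2 = cf 1 0 C1 = 0.
   cf a b C2 = cf (a+2) b (bl 0 (sw A1)) - cf (a+2) (b-1) (bl 0 (sw C1)): cf 0 0 C2 = cf 0 2 A1 = 0; cf 0 1 C2 = cf 1 1 A1 - cf 0 2 C1 = 2 q;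
   cf 1 0 C2 = cf 0 3 A1 = 0.  Determinant (-q)(2q) ≠ 0: `lj_of_det`.
(all cf 0 j A1 vanish because A1 = X 0 * A'; cf 1 0 A1 = cf 0 0 A' = 0, cf 1 1 A1 = cf 0 1 A' = q.)
-/

open MvPolynomial

namespace FC76

private theorem RE_cf_sub (i j : ℕ) (f g : P2) : cf i j (f - g) = cf i j f - cf i j g := by
  simp [cf]

private theorem RE_cf_add (i j : ℕ) (f g : P2) : cf i j (f + g) = cf i j f + cf i j g := by
  simp [cf]

private theorem RE_cf_C (i j : ℕ) (c : ℂ) (f : P2) : cf i j (C c * f) = c * cf i j f := by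
  simp [cf, coeff_C_mul]

private theorem RE_cf_X1_succ (i j : ℕ) (f : P2) : cf i (j + 1) (X 1 * f) = cf i j f := by
  unfold cf
  have h : (Finsupp.single 0 i + Finsupp.single 1 (j + 1) : Fin 2 →₀ ℕ) =
      Finsupp.single 1 1 + (Finsupp.single 0 i + Finsupp.single 1 j) := by
    rw [Finsupp.single_add]
    abel
  rw [h, coeff_X_mul]

private theorem RE_cf_X1_zero (i : ℕ) (f : P2) : cf i 0 (X 1 * f) = 0 := by
  unfold cf
  rw [coeff_X_mul']
  rw [if_neg]
  simp

private theorem RE_lin_zero (i : ℕ) (c : ℂ) (f : P2) :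
    cf i 0 ((X 1 + C c) * f) = c * cf i 0 f := by
  rw [add_mul, RE_cf_add, RE_cf_X1_zero, RE_cf_C, zero_add]

private theorem RE_lin_succ (i j : ℕ) (c : ℂ) (f : P2) :
    cf i (j + 1) ((X 1 + C c) * f) = cf i j f + c * cf i (j + 1) f := by
  rw [add_mul, RE_cf_add, RE_cf_X1_succ, RE_cf_C]

/-- coefficients of the quotient of `bl 0 (sw f)` by `x` -/
private theorem RE_q1 {f g : P2} (h : bl 0 (sw f) = X 0 ^ 1 * g) (a b : ℕ) :
    cf a b g = if b ≤ a + 1 then cf b (a + 1 - b) f else 0 := by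
  rw [← cf_X0_mul a b g]
  rw [pow_one] at h
  rw [← h, cf_bl0]
  split_ifs
  · rw [cf_sw]
  · rfl

private theorem RE_q2 {f g : P2} (h : bl 0 (sw f) = X 0 ^ 2 * g) (a b : ℕ) :
    cf a b g = if b ≤ a + 2 then cf b (a + 2 - b) f else 0 := by
  rw [← cf_X0_mul a b g, ← cf_X0_mul (a + 1) b (X 0 * g)]
  have h' : bl 0 (sw f) = X 0 * (X 0 * g) := by rw [h]; ring
  rw [← h', cf_bl0]
  split_ifs
  · rw [cf_sw]
  · rfl

private theorem RE_not_mem3 {f : P2} (h : cf 0 2 f ≠ 0) : f ∉ (mI ^ 3 : Ideal P2) := by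
  intro hf
  rw [mem_pow_idealOfVars_iff'] at hf
  apply h
  unfold cf
  apply hf
  simp [Finsupp.degree_single]

theorem res_nilpotent_second {G GE : P2 → P2 → Prop} (h : ResClosed G GE) (A' C1 : P2) (K : ℕ) (q : ℂ)
    (hq : q ≠ 0) (hA0 : cf 0 0 A' = 0) (hA1 : cf 0 1 A' = q) (hC0 : cf 0 0 C1 = 0) (hC1 : cf 0 1 C1 = 0)
    (hC2 : cf 0 2 C1 = - q) (hK1 : 1 ≤ K) (hK : MultLe A' C1 (K - 1))
    (IH : ∀ K' < K, ∀ A B : P2, MultLe A B K' → G A B) : G (X 0 * A') C1 := by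
  obtain ⟨A1, hA1d⟩ : ∃ A1 : P2, A1 = X 0 * A' := ⟨_, rfl⟩
  rw [← hA1d]
  have a0 : ∀ j, cf 0 j A1 = 0 := fun j => by rw [hA1d, cf_zero_X0_mul]
  have a10 : cf 1 0 A1 = 0 := by rw [hA1d, cf_X0_mul, hA0]
  have a11 : cf 1 1 A1 = q := by rw [hA1d, cf_X0_mul, hA1]
  have mA : A1 ∈ (mI ^ 2 : Ideal P2) := (mem_mI2_iff A1).2 ⟨a0 0, a10, a0 1⟩
  have mA1 : A1 ∈ (mI ^ 1 : Ideal P2) := (mem_mI_iff A1).2 (a0 0)
  have mC1 : C1 ∈ (mI ^ 1 : Ideal P2) := (mem_mI_iff C1).2 hC0
  by_cases hb : cf 1 0 C1 = 0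
  · -- second case
    have mC : C1 ∈ (mI ^ 2 : Ideal P2) := (mem_mI2_iff C1).2 ⟨hC0, hb, hC1⟩
    have hC2' : cf 0 2 C1 ≠ 0 := by
      rw [hC2]
      exact neg_ne_zero.2 hq
    have hM : MultLe A1 C1 (K + 1) := by
      have h1 := (multLe_X C1 2 hC2').mul hK
      rw [← hA1d] at h1
      have e : 2 + (K - 1) = K + 1 := by omega
      rw [e] at h1
      exact h1
    refine h.blow A1 C1 1 ?_ ?_
    · intro c
      obtain ⟨A'', hA''⟩ := bl_dvd c A1 2 mA
      obtain ⟨C'', hC''⟩ := bl_dvd c C1 2 mC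
      refine ⟨X 0 * A'', C'' - (X 1 + C c) * A'', ⟨?_, ?_⟩, ?_⟩
      · rw [hA'']; ring
      · rw [hA'', hC'']; ring
      apply h.toE
      apply IH (K - 1) (by omega)
      obtain ⟨n1, n2⟩ := noether A1 C1 A'' C'' 2 (K + 1) c mA mC (Or.inr (RE_not_mem3 hC2'))
        hA'' hC'' hM
      have c2 : cf 0 2 (C'' - (X 1 + C c) * A'') ≠ 0 := by
        have e1 := bl_quot_cf c C1 C'' 2 mC hC'' 2
        have e2 := bl_quot_cf c A1 A'' 2 mA hA'' 1
        have e3 := bl_quot_cf c A1 A'' 2 mA hA'' 2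
        simp only [Finset.sum_range_succ, Finset.sum_range_zero] at e1 e2 e3
        norm_num [Nat.choose, a0, a11, hC2] at e1 e2 e3
        rw [RE_cf_sub, RE_lin_succ 0 1, e1, e2, e3, mul_zero, add_zero]
        intro h0
        apply hq
        have : (2 : ℂ) * q = 0 := by linear_combination - h0
        simpa using this
      have h3 : MultLe A'' (C'' - (X 1 + C c) * A'') (K + 1 - 2 ^ 2) := by
        refine n2.of_mem (Ideal.subset_span (by simp)) ?_
        have e1 : C'' = (C'' - (X 1 + C c) * A'') + (X 1 + C c) * A'' := by ring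
        have e2 : (C'' - (X 1 + C c) * A'') + (X 1 + C c) * A'' ∈
            Ideal.span ({A'', C'' - (X 1 + C c) * A''} : Set P2) :=
          Ideal.add_mem _ (Ideal.subset_span (by simp))
            (Ideal.mul_mem_left _ _ (Ideal.subset_span (by simp)))
        rw [← e1] at e2
        exact e2
      have h4 := (multLe_X _ 2 c2).mul h3
      have e : 2 + (K + 1 - 2 ^ 2) = K - 1 := by omega
      rw [e] at h4
      exact h4
    · obtain ⟨g1, hg1⟩ := bl_dvd 0 (sw A1) 2 (sw_mem _ _ mA)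
      obtain ⟨g2, hg2⟩ := bl_dvd 0 (sw C1) 2 (sw_mem _ _ mC)
      refine ⟨X 0 * g2, g1 - (X 1 + C 0) * g2, ⟨?_, ?_⟩, ?_⟩
      · rw [hg2]; ring
      · rw [hg1, hg2]; ring
      apply h.toE
      apply h.lj
      have q1 := RE_q2 hg1
      have q2 := RE_q2 hg2
      have v1 : cf 0 0 g2 = - q := by
        rw [q2 0 0, if_pos (by omega)]
        exact hC2
      have v2 : cf 0 0 g1 = 0 := by
        rw [q1 0 0, if_pos (by omega)]
        exact a0 2
      have v3 : cf 0 1 g1 = q := by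
        rw [q1 0 1, if_pos (by omega)]
        exact a11
      have v4 : cf 1 0 g1 = 0 := by
        rw [q1 1 0, if_pos (by omega)]
        exact a0 3
      have w1 : cf 0 0 (X 0 * g2) = 0 := cf_zero_X0_mul 0 g2
      have w2 : cf 0 1 (X 0 * g2) = 0 := cf_zero_X0_mul 1 g2
      have w3 : cf 1 0 (X 0 * g2) = - q := by rw [cf_X0_mul, v1]
      have w4 : cf 0 0 (g1 - (X 1 + C 0) * g2) = 0 := by
        rw [RE_cf_sub, RE_lin_zero, v2]; ring
      have w5 : cf 0 1 (g1 - (X 1 + C 0) * g2) = 2 * q := by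
        rw [RE_cf_sub, RE_lin_succ 0 0, v3, v1]; ring
      apply lj_of_det
      · rw [eval_zero_eq_cf]; exact w1
      · rw [eval_zero_eq_cf]; exact w4
      · rw [w2, w3, w5, zero_mul, sub_zero]
        exact mul_ne_zero (neg_ne_zero.2 hq) (mul_ne_zero two_ne_zero hq)
  · -- first case
    refine h.blow A1 C1 0 ?_ ?_
    · intro c
      obtain ⟨A'', hA''⟩ := bl_dvd c A1 2 mA
      obtain ⟨C', hC'⟩ := bl_dvd c C1 1 mC1
      refine ⟨bl c A1, C' - (X 1 + C c) * (X 0 * A''), ⟨?_, ?_⟩, ?_⟩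
      · rw [pow_zero, one_mul]
      · rw [hA'', hC']; ring
      apply h.toE
      apply h.lj
      apply lj_of_ne
      right
      rw [eval_zero_eq_cf, RE_cf_sub, RE_lin_zero, cf_zero_X0_mul, mul_zero, sub_zero]
      have e1 := bl_quot_cf c C1 C' 1 mC1 hC' 0
      simp only [Finset.sum_range_succ, Finset.sum_range_zero] at e1
      norm_num [Nat.choose, hC1] at e1
      rw [e1]
      exact hb
    · obtain ⟨g1, hg1⟩ := bl_dvd 0 (sw A1) 1 (sw_mem _ _ mA1)
      obtain ⟨g2, hg2⟩ := bl_dvd 0 (sw C1) 1 (sw_mem _ _ mC1)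
      refine ⟨X 0 * g2, g1 - (X 1 + C 0) * g2, ⟨?_, ?_⟩, ?_⟩
      · rw [hg2]; ring
      · rw [hg1, hg2]; ring
      apply h.toE
      apply h.lj
      have q1 := RE_q1 hg1
      have q2 := RE_q1 hg2
      have u00 : cf 0 0 g2 = 0 := by
        rw [q2 0 0, if_pos (by omega)]
        exact hC1
      have u10 : cf 1 0 g2 = - q := by
        rw [q2 1 0, if_pos (by omega)]
        exact hC2
      have u01 : cf 0 1 g2 = cf 1 0 C1 := by
        rw [q2 0 1, if_pos (by omega)]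
      have v00 : cf 0 0 g1 = 0 := by
        rw [q1 0 0, if_pos (by omega)]
        exact a0 1
      have v10 : cf 1 0 g1 = 0 := by
        rw [q1 1 0, if_pos (by omega)]
        exact a0 2
      have v01 : cf 0 1 g1 = 0 := by
        rw [q1 0 1, if_pos (by omega)]
        exact a10
      have v20 : cf 2 0 g1 = 0 := by
        rw [q1 2 0, if_pos (by omega)]
        exact a0 3
      have v11 : cf 1 1 g1 = q := by
        rw [q1 1 1, if_pos (by omega)]
        exact a11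
      have v02 : cf 0 2 g1 = 0 := by
        rw [q1 0 2, if_neg (by omega)]
      have w20 : cf 2 0 (X 0 * g2) = - q := by rw [cf_X0_mul, u10]
      have w11 : cf 1 1 (X 0 * g2) = cf 1 0 C1 := by rw [cf_X0_mul, u01]
      have w02 : cf 0 2 (X 0 * g2) = 0 := cf_zero_X0_mul 2 g2
      have z20 : cf 2 0 (g1 - (X 1 + C 0) * g2) = 0 := by
        rw [RE_cf_sub, RE_lin_zero, v20]; ring
      have z11 : cf 1 1 (g1 - (X 1 + C 0) * g2) = 2 * q := by
        rw [RE_cf_sub, RE_lin_succ 1 0, v11, u10]; ring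
      have z02 : cf 0 2 (g1 - (X 1 + C 0) * g2) = - cf 1 0 C1 := by
        rw [RE_cf_sub, RE_lin_succ 0 1, v02, u01]; ring
      apply lj_two
      · rw [mem_mI2_iff]
        refine ⟨cf_zero_X0_mul 0 g2, ?_, cf_zero_X0_mul 1 g2⟩
        rw [cf_X0_mul, u00]
      · rw [mem_mI2_iff]
        refine ⟨?_, ?_, ?_⟩
        · rw [RE_cf_sub, RE_lin_zero, v00]; ring
        · rw [RE_cf_sub, RE_lin_zero, v10]; ring
        · rw [RE_cf_sub, RE_lin_succ 0 0, v01, u00]; ring
      · intro x y h1 h2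
        rw [w20, w11, w02] at h1
        rw [z20, z11, z02] at h2
        have k1 : x * (cf 1 0 C1 * y - q * x) = 0 := by linear_combination h1
        have k2 : y * (2 * q * x - cf 1 0 C1 * y) = 0 := by linear_combination h2
        rcases mul_eq_zero.1 k1 with hx | hx
        · subst hx
          refine ⟨rfl, ?_⟩
          rcases mul_eq_zero.1 k2 with hy | hy
          · exact hy
          · have : cf 1 0 C1 * y = 0 := by linear_combination - hy
            exact (mul_eq_zero.1 this).resolve_left hb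
        · rcases mul_eq_zero.1 k2 with hy | hy
          · subst hy
            refine ⟨?_, rfl⟩
            have : q * x = 0 := by linear_combination - hx
            exact (mul_eq_zero.1 this).resolve_left hq
          · have h3 : q * x = 0 := by linear_combination hx + hy
            have hx0 := (mul_eq_zero.1 h3).resolve_left hq
            subst hx0
            refine ⟨rfl, ?_⟩
            have : cf 1 0 C1 * y = 0 := by linear_combination hx
            exact (mul_eq_zero.1 this).resolve_left hb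

end FC76

end S_H76_FC_RE

section S_H76_FC_RF

/-!
# Row RF: nilpotent linear part

A, B vanish at 0, p = cf 1 0 A, q = cf 0 1 A, r = cf 1 0 B, s = cf 0 1 B, p + s = 0, p s - q r = 0, not all zero.  MultLe A B K, IH for K' < K.
Claim: G A B.
STEP 1: q ≠ 0.  blow with e = 0.  bl c A = x A', bl c B = x B'; A1 := x A', C1 := B' - (X 1 + C c) A'.
  By `bl_quot_cf` (k = 1): A'(0,u) = p + q(u+c), B'(0,u) = r + s(u+c):  C1(0,u) = r + s(u+c) - (u+c)(p + q(u+c)) = - q (u + c + p/q)^2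
  (uses s = -p, q r = - p^2).  So for c ≠ -p/q: cf 0 0 C1 = - q (c + p/q)^2 ≠ 0: `lj_of_ne`.
  For c = -p/q: cf 0 0 A' = 0, cf 0 1 A' = q, cf 0 0 C1 = 0, cf 0 1 C1 = 0, cf 0 2 C1 = - q; Noether (nu = 1, A not in m^2 because q ≠ 0):
  1 <= K, MultLe A' B' (K-1), so MultLe A' C1 (K-1) (`MultLe.of_mem`); `res_nilpotent_second`, then toE.
  Infinity: field (sw B, sw A), c = 0: bl 0 (sw B) = x b', bl 0 (sw A) = x a', C1 := a' - (X 1) b' (C 0 = 0), cf 0 0 C1 = cf 0 0 a' = cf 1 0 (sw A) = q ≠ 0.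
  (here A1 := bl 0 (sw B).)
STEP 2: q = 0.  Then p^2 = 0 (p s = 0, s = -p), so p = s = 0 and r ≠ 0.  The field (sw B, sw A) has cf 0 1 (sw B) = r ≠ 0 and satisfies all
  hypotheses (`cf_sw`, `MultLe.sw`), so G (sw B) (sw A) by step 1, and `ResClosed.swap` with `sw_sw` gives G A B.
-/

open MvPolynomial

namespace FC76

theorem RF_sub (i j : ℕ) (f g : P2) : cf i j (f - g) = cf i j f - cf i j g := by
  unfold cf
  rw [coeff_sub]

theorem RF_add (i j : ℕ) (f g : P2) : cf i j (f + g) = cf i j f + cf i j g := by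
  unfold cf
  rw [coeff_add]

theorem RF_C (i j : ℕ) (c : ℂ) (f : P2) : cf i j (C c * f) = c * cf i j f := by
  unfold cf
  rw [coeff_C_mul]

theorem RF_X1 (i j : ℕ) (f : P2) : cf i (j + 1) (X 1 * f) = cf i j f := by
  unfold cf
  rw [Finsupp.single_add, ← add_assoc, add_comm _ (Finsupp.single 1 1), coeff_X_mul]

theorem RF_mul (j : ℕ) (c : ℂ) (f : P2) :
    cf 0 (j + 1) ((X 1 + C c) * f) = cf 0 j f + c * cf 0 (j + 1) f := by
  rw [add_mul, RF_add, RF_X1, RF_C]

theorem RF_step {G GE : P2 → P2 → Prop} (h : ResClosed G GE) (A B : P2) (K : ℕ)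
    (hA : eval 0 A = 0) (hB : eval 0 B = 0) (hK : MultLe A B K)
    (hdet : cf 1 0 A * cf 0 1 B - cf 0 1 A * cf 1 0 B = 0) (htr : cf 1 0 A + cf 0 1 B = 0)
    (hq : cf 0 1 A ≠ 0)
    (IH : ∀ K' < K, ∀ A B : P2, MultLe A B K' → G A B) : G A B := by
  have mA : A ∈ mI ^ 1 := (mem_mI_iff A).2 (by rw [← eval_zero_eq_cf]; exact hA)
  have mB : B ∈ mI ^ 1 := (mem_mI_iff B).2 (by rw [← eval_zero_eq_cf]; exact hB)
  refine h.blow A B 0 ?_ ?_
  · intro c
    obtain ⟨A', hA'⟩ := bl_dvd c A 1 mA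
    obtain ⟨B', hB'⟩ := bl_dvd c B 1 mB
    have a0 : cf 0 0 A' = cf 1 0 A + cf 0 1 A * c := by
      rw [bl_quot_cf c A A' 1 mA hA' 0]
      simp [Finset.sum_range_succ]
    have a1 : cf 0 1 A' = cf 0 1 A := by
      rw [bl_quot_cf c A A' 1 mA hA' 1]
      simp [Finset.sum_range_succ]
    have a2 : cf 0 2 A' = 0 := by
      rw [bl_quot_cf c A A' 1 mA hA' 2]
      simp [Finset.sum_range_succ]
    have b0 : cf 0 0 B' = cf 1 0 B + cf 0 1 B * c := by
      rw [bl_quot_cf c B B' 1 mB hB' 0]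
      simp [Finset.sum_range_succ]
    have b1 : cf 0 1 B' = cf 0 1 B := by
      rw [bl_quot_cf c B B' 1 mB hB' 1]
      simp [Finset.sum_range_succ]
    have b2 : cf 0 2 B' = 0 := by
      rw [bl_quot_cf c B B' 1 mB hB' 2]
      simp [Finset.sum_range_succ]
    refine ⟨X 0 * A', B' - (X 1 + C c) * A', ⟨?_, ?_⟩, ?_⟩
    · rw [hA']; ring
    · rw [hA', hB']; ring
    · have e0 : cf 0 0 (B' - (X 1 + C c) * A') =
          cf 1 0 B + cf 0 1 B * c - c * (cf 1 0 A + cf 0 1 A * c) := by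
        rw [← a0, ← b0, ← eval_zero_eq_cf, ← eval_zero_eq_cf, ← eval_zero_eq_cf]
        simp
      have hs : cf 0 1 B = - cf 1 0 A := by linear_combination htr
      by_cases hc : cf 1 0 A + cf 0 1 A * c = 0
      · -- second blow-up
        have z0 : cf 0 0 (B' - (X 1 + C c) * A') = 0 := by
          rw [e0, hc, mul_zero, sub_zero]
          have h1 : cf 0 1 A * (cf 1 0 B + cf 0 1 B * c) = 0 := by
            linear_combination -hdet + cf 0 1 B * hc
          exact (mul_eq_zero.1 h1).resolve_left hq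
        have z1 : cf 0 1 (B' - (X 1 + C c) * A') = 0 := by
          rw [RF_sub, RF_mul 0, b1, zero_add, a1, a0]
          linear_combination htr - 2 * hc
        have z2 : cf 0 2 (B' - (X 1 + C c) * A') = - cf 0 1 A := by
          rw [RF_sub, RF_mul 1, b2, a1, a2]
          ring
        have hN := noether A B A' B' 1 K c mA mB
          (Or.inl (fun hm => hq ((mem_mI2_iff A).1 hm).2.2)) hA' hB' hK
        have hK1 : 1 ≤ K := by simpa using hN.1
        have hM : MultLe A' (B' - (X 1 + C c) * A') (K - 1) := by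
          have h2 : MultLe A' B' (K - 1) := by simpa using hN.2
          refine h2.of_mem (Ideal.subset_span (by simp)) ?_
          rw [Ideal.mem_span_pair]
          exact ⟨X 1 + C c, 1, by ring⟩
        exact h.toE _ _ (res_nilpotent_second h A' (B' - (X 1 + C c) * A') K (cf 0 1 A) hq
          (by rw [a0, hc]) a1 z0 z1 z2 hK1 hM IH)
      · -- leading jet of order zero
        refine h.toE _ _ (h.lj _ _ (lj_of_ne _ _ (Or.inr ?_)))
        rw [eval_zero_eq_cf, e0]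
        intro h0
        apply hc
        have h1 : (cf 1 0 A + cf 0 1 A * c) ^ 2 = 0 := by
          rw [hs] at h0 hdet
          linear_combination -hdet - cf 0 1 A * h0
        exact pow_eq_zero_iff two_ne_zero |>.1 h1
  · have msA := sw_mem A 1 mA
    have msB := sw_mem B 1 mB
    obtain ⟨a', ha'⟩ := bl_dvd 0 (sw A) 1 msA
    obtain ⟨b', hb'⟩ := bl_dvd 0 (sw B) 1 msB
    refine ⟨X 0 * b', a' - (X 1 + C 0) * b', ⟨?_, ?_⟩, ?_⟩
    · rw [hb']; ring
    · rw [ha', hb']; ring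
    · refine h.toE _ _ (h.lj _ _ (lj_of_ne _ _ (Or.inr ?_)))
      have e1 : eval 0 (a' - (X 1 + C 0) * b') = cf 0 0 a' := by
        rw [← eval_zero_eq_cf]
        simp
      rw [e1, bl_quot_cf 0 (sw A) a' 1 msA ha' 0]
      simpa [Finset.sum_range_succ, cf_sw] using hq

theorem res_nilpotent {G GE : P2 → P2 → Prop} (h : ResClosed G GE) (A B : P2) (K : ℕ)
    (hA : eval 0 A = 0) (hB : eval 0 B = 0) (hK : MultLe A B K)
    (hdet : cf 1 0 A * cf 0 1 B - cf 0 1 A * cf 1 0 B = 0) (htr : cf 1 0 A + cf 0 1 B = 0)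
    (hne : A ∉ mI ^ 2 ∨ B ∉ mI ^ 2)
    (IH : ∀ K' < K, ∀ A B : P2, MultLe A B K' → G A B) : G A B := by
  by_cases hq : cf 0 1 A = 0
  · rw [hq, zero_mul, sub_zero] at hdet
    have hs : cf 0 1 B = - cf 1 0 A := by linear_combination htr
    have hp : cf 1 0 A = 0 := by
      rw [hs] at hdet
      have h1 : cf 1 0 A ^ 2 = 0 := by linear_combination -hdet
      exact pow_eq_zero_iff two_ne_zero |>.1 h1
    have hs0 : cf 0 1 B = 0 := by rw [hs, hp, neg_zero]
    have hA0 : cf 0 0 A = 0 := by rw [← eval_zero_eq_cf]; exact hA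
    have hB0 : cf 0 0 B = 0 := by rw [← eval_zero_eq_cf]; exact hB
    have hr : cf 1 0 B ≠ 0 := by
      intro hr
      rcases hne with h1 | h1
      · exact h1 ((mem_mI2_iff A).2 ⟨hA0, hp, hq⟩)
      · exact h1 ((mem_mI2_iff B).2 ⟨hB0, hr, hs0⟩)
    have h2 : G (sw B) (sw A) := by
      refine RF_step h (sw B) (sw A) K ?_ ?_ hK.sw ?_ ?_ ?_ IH
      · rw [eval_zero_eq_cf, cf_sw]; exact hB0
      · rw [eval_zero_eq_cf, cf_sw]; exact hA0
      · rw [cf_sw, cf_sw, cf_sw, cf_sw, hs0, hp]; simp [hq]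
      · rw [cf_sw, cf_sw, hs0, hp, add_zero]
      · rw [cf_sw]; exact hr
    have h3 := h.swap _ _ h2
    rwa [sw_sw, sw_sw] at h3
  · exact RF_step h A B K hA hB hK hdet htr hq IH

end FC76

end S_H76_FC_RF

section S_H76_FC_DH

/-!
# Row DH: isolated zeros have finite multiplicity

Let s be a polynomial with s(0) ≠ 0 that vanishes at every common zero p ≠ 0 of A and B.  Then MultLe A B K for some K.
Proof.  X i * s vanishes on the zero set of the ideal (A,B) (at p = 0 because of X i, elsewhere because of s), so by the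
Nullstellensatz (`MvPolynomial.vanishingIdeal_zeroLocus_eq_radical`) (X i * s)^N is in (A,B) for some common N (i = 0,1).
Fix n.  Modulo m^n the polynomial s^N is invertible (nonzero constant term: s^N = s0 (1 - w), w in m, geometric series), so
(X i)^N is in I := (A,B) + m^n.  Hence the quotient P2/I is spanned by the N^2 monomials x^i y^j, i, j < N, and its dimension is
at most K := N^2, for every n.
-/

open MvPolynomial

namespace FC76

theorem DH_rad (A B s : P2)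
    (h : ∀ p : Fin 2 → ℂ, eval p A = 0 → eval p B = 0 → p ≠ 0 → eval p s = 0) (i : Fin 2) :
    ∃ N : ℕ, (X i * s) ^ N ∈ Ideal.span ({A, B} : Set P2) := by
  have h1 : X i * s ∈ (Ideal.span ({A, B} : Set P2)).radical := by
    rw [← vanishingIdeal_zeroLocus_eq_radical (K := ℂ), mem_vanishingIdeal_iff]
    intro p hp
    rw [mem_zeroLocus_iff] at hp
    have hA : eval p A = 0 := by
      have := hp A (Ideal.subset_span (by simp))
      rwa [aeval_eq_eval] at this
    have hB : eval p B = 0 := by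
      have := hp B (Ideal.subset_span (by simp))
      rwa [aeval_eq_eval] at this
    rw [aeval_eq_eval, map_mul, eval_X]
    by_cases h0 : p = 0
    · rw [h0, Pi.zero_apply, zero_mul]
    · rw [h p hA hB h0, mul_zero]
  exact h1

theorem DH_unit (s : P2) (hs : eval 0 s ≠ 0) (n : ℕ) (I : Ideal P2) (hI : mI ^ n ≤ I) :
    IsUnit (Ideal.Quotient.mk I s) := by
  have h1 : s - C (eval 0 s) ∈ mI ^ 1 := by
    rw [mem_pow_idealOfVars_iff']
    intro x hx
    have hx0 : x = 0 := by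
      have : Finsupp.degree x = 0 := by omega
      exact (Finsupp.degree_eq_zero_iff x).1 this
    rw [hx0, coeff_sub, coeff_C, if_pos rfl, ← constantCoeff_eq, eval_zero, sub_self]
  rw [pow_one] at h1
  have h2 : IsNilpotent (Ideal.Quotient.mk I (s - C (eval 0 s))) := by
    refine ⟨n, ?_⟩
    rw [← map_pow, Ideal.Quotient.eq_zero_iff_mem]
    exact hI (Ideal.pow_mem_pow h1 n)
  have h3 : IsUnit (Ideal.Quotient.mk I (C (eval 0 s))) := by
    have : IsUnit (C (eval 0 s) : P2) := (isUnit_iff_ne_zero.2 hs).map C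
    exact this.map _
  have h4 := h2.isUnit_add_left_of_commute h3 (Commute.all _ _)
  rw [← map_add] at h4
  have h5 : C (eval 0 s) + (s - C (eval 0 s)) = s := by ring
  rwa [h5] at h4

theorem DH_finrank (I : Ideal P2) (N : ℕ) (h : ∀ i : Fin 2, (X i : P2) ^ N ∈ I) :
    Module.finrank ℂ (P2 ⧸ I) ≤ N * N := by
  have h1 : Submodule.span ℂ (Set.range (fun v : Fin N × Fin N =>
      Ideal.Quotient.mk I (X 0 ^ (v.1 : ℕ) * X 1 ^ (v.2 : ℕ)))) = ⊤ := by
    rw [eq_top_iff]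
    rintro q -
    obtain ⟨p, rfl⟩ := Ideal.Quotient.mk_surjective q
    induction p using MvPolynomial.induction_on' with
    | monomial u a =>
      have h2 : (monomial u a : P2) = a • (X 0 ^ (u 0) * X 1 ^ (u 1)) := by
        rw [monomial_eq, Finsupp.prod_fintype _ _ (fun i => pow_zero _), Fin.prod_univ_two,
          smul_eq_C_mul]
      have h3 : Ideal.Quotient.mk I (monomial u a) =
          a • Ideal.Quotient.mk I (X 0 ^ (u 0) * X 1 ^ (u 1)) := by
        rw [h2]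
        rfl
      rw [h3]
      apply Submodule.smul_mem
      by_cases h4 : u 0 < N
      · by_cases h5 : u 1 < N
        · exact Submodule.subset_span ⟨(⟨u 0, h4⟩, ⟨u 1, h5⟩), rfl⟩
        · have h6 : (X 0 ^ (u 0) * X 1 ^ (u 1) : P2) ∈ I := by
            apply Ideal.mul_mem_left
            exact Ideal.pow_mem_of_pow_mem I (h 1) (not_lt.1 h5)
          rw [Ideal.Quotient.eq_zero_iff_mem.2 h6]
          exact Submodule.zero_mem _
      · have h6 : (X 0 ^ (u 0) * X 1 ^ (u 1) : P2) ∈ I := by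
          apply Ideal.mul_mem_right
          exact Ideal.pow_mem_of_pow_mem I (h 0) (not_lt.1 h4)
        rw [Ideal.Quotient.eq_zero_iff_mem.2 h6]
        exact Submodule.zero_mem _
    | add p q hp hq =>
      rw [map_add]
      exact Submodule.add_mem _ hp hq
  have h2 := finrank_range_le_card (R := ℂ) (fun v : Fin N × Fin N =>
      Ideal.Quotient.mk I (X 0 ^ (v.1 : ℕ) * X 1 ^ (v.2 : ℕ)))
  rw [Set.finrank, h1, finrank_top, Fintype.card_prod, Fintype.card_fin] at h2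
  exact h2

theorem exists_multLe (A B s : P2) (hs : eval 0 s ≠ 0)
    (h : ∀ p : Fin 2 → ℂ, eval p A = 0 → eval p B = 0 → p ≠ 0 → eval p s = 0) :
    ∃ K : ℕ, MultLe A B K := by
  obtain ⟨N0, h0⟩ := DH_rad A B s h 0
  obtain ⟨N1, h1⟩ := DH_rad A B s h 1
  refine ⟨(N0 + N1) * (N0 + N1), fun n => DH_finrank _ _ ?_⟩
  have key : ∀ i : Fin 2, (X i * s) ^ (N0 + N1) ∈ Ideal.span ({A, B} : Set P2) := by
    intro i
    fin_cases i
    · exact Ideal.pow_mem_of_pow_mem _ h0 (Nat.le_add_right _ _)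
    · exact Ideal.pow_mem_of_pow_mem _ h1 (Nat.le_add_left _ _)
  intro i
  have h2 := DH_unit s hs n (Ideal.span ({A, B} : Set P2) ⊔ mI ^ n) le_sup_right
  have h3 : (X i * s) ^ (N0 + N1) ∈ Ideal.span ({A, B} : Set P2) ⊔ mI ^ n :=
    Ideal.mem_sup_left (key i)
  rw [← Ideal.Quotient.eq_zero_iff_mem, mul_pow, map_mul, map_pow _ s] at h3
  rw [← Ideal.Quotient.eq_zero_iff_mem]
  exact ((h2.pow _).mul_left_eq_zero).1 h3

end FC76

end S_H76_FC_DH
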