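import Mathlib
import Pool.Agent.H24.M68.G01
import Pool.Agent.H24.M68.G04
import Pool.Agent.H24.M68.G05
import Pool.Agent.H24.M68.G07
import Pool.Agent.H24.M68.G14

/-! MP_6873ef_an: this file joins several modules to save build time. -/

section S_H24_CU_SB

/-!
# Row SB (a polynomial of finite order along the leaf)

NOTATION.  `Q q = eval (psi q) P` (holomorphic, polynomial), `φ q = k * log (nsq (psi q))` (smooth,
`psi q ≠ 0`), `a z = Q (z, Y z) = z^m f z` near `0`, `p = (z, Y z)`.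
PROOF.  (1) `levi φ p v >= 0`: `levi_comp_hol` with `psi` (affine map) and `levi_log_nsq`, Cauchy-Schwarz
`|herm w y|^2 <= nsq w nsq y`.
(2) chain rule: `a' z = fderiv ℂ Q p (1, Y' z)` and `X p = (X p).1 • (1, Y' z)` (`Leaf.ode`), so
`fderiv ℂ Q p (X p) = (X p).1 * a' z`.  `a'/a = m/z + f'/f`, `f'/f` bounded near `0`, hence
`|a' z / a z| >= m/(2|z|)` for small `z ≠ 0` (`m >= 1`).  `normSq (X p).1 >= 1/2` for small `z`.  So
`normSq (fderiv ℂ Q p (X p) / Q p)/2 >= (1/2)(1/2) m^2/(4|z|^2) = m^2/(16 |z|^2)`.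
`gradm φ φ p (X p)` is bounded near `0` (continuity), so `<= m^2/(32 |z|^2)` for small `z`.
(3) `normSq (Q p) exp(-φ p) = |z|^(2m) |f z|^2 exp(-φ p)`, the last two factors are between two positive
constants near `0`.
-/

namespace Pool.Agent.H24.CU

open MeasureTheory Filter
open scoped Topology ComplexConjugate

variable {𝓕 : Foliation} {μ : Measure V} {y₀ : V} {X : ℂ × ℂ → ℂ × ℂ} {c₀ : ℂ × ℂ → ℂ} {r : ℝ}
  {M : Measure (ℂ × ℂ)}

open scoped ContDiff in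
theorem SB_nsq : ContDiff ℝ ∞ nsq := by
  have h0 : nsq = fun x : V => ∑ j, ((x j).re * (x j).re + (x j).im * (x j).im) := by
    funext x
    exact Finset.sum_congr rfl fun j _ => Complex.normSq_apply _
  rw [h0]
  apply ContDiff.sum
  intro j _
  have h1 : ContDiff ℝ ∞ (fun x : V => x j) := contDiff_apply ℝ ℂ j
  have h2 : ContDiff ℝ ∞ (fun x : V => (x j).re) := Complex.reCLM.contDiff.comp h1
  have h3 : ContDiff ℝ ∞ (fun x : V => (x j).im) := Complex.imCLM.contDiff.comp h1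
  exact (h2.mul h2).add (h3.mul h3)

theorem SB_cs (w y : V) : Complex.normSq (herm w y) ≤ nsq y * nsq w := by
  have h1 : ‖herm w y‖ ≤ ∑ j, ‖w j‖ * ‖y j‖ := by
    unfold herm
    refine (norm_sum_le _ _).trans (le_of_eq ?_)
    exact Finset.sum_congr rfl fun j _ => by rw [norm_mul, RCLike.norm_conj]
  have h2 := Finset.sum_mul_sq_le_sq_mul_sq Finset.univ (fun j => ‖w j‖) (fun j => ‖y j‖)
  have h3 : ∀ x : V, nsq x = ∑ j, ‖x j‖ ^ 2 := by
    intro x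
    exact Finset.sum_congr rfl fun j _ => Complex.normSq_eq_norm_sq _
  rw [Complex.normSq_eq_norm_sq, h3, h3, mul_comm]
  exact (pow_le_pow_left₀ (norm_nonneg _) h1 2).trans h2

open scoped ContDiff in
theorem SB_psi (𝓕 : Foliation) (y₀ : V) : ContDiff ℂ ∞ (𝓕.psi y₀) := by
  unfold Foliation.psi
  exact (contDiff_const.add (contDiff_fst.smul contDiff_const)).add (contDiff_snd.smul contDiff_const)

open scoped ContDiff in
theorem SB_phi (h : Chart 𝓕 μ y₀ X c₀ r M) :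
    ContDiff ℝ ∞ (fun q => Real.log (nsq (𝓕.psi y₀ q))) := by
  have h1 : ContDiff ℝ ∞ (𝓕.psi y₀) := (SB_psi 𝓕 y₀).restrict_scalars ℝ
  exact (SB_nsq.comp h1).log (fun q => (nsq_pos (h.psi_ne q)).ne')

theorem levi_phi_nonneg (h : Chart 𝓕 μ y₀ X c₀ r M) (k : ℕ) (p v : ℂ × ℂ) :
    0 ≤ levi (fun q => (k : ℝ) * Real.log (nsq (𝓕.psi y₀ q))) p v := by
  have h2 : (2 : WithTop ℕ∞) ≤ ((⊤ : ℕ∞) : WithTop ℕ∞) := WithTop.coe_le_coe.2 (le_top : (2 : ℕ∞) ≤ ⊤)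
  have hphi : ContDiffAt ℝ 2 (fun q => Real.log (nsq (𝓕.psi y₀ q))) p := (SB_phi h).contDiffAt.of_le h2
  have hpsi : ContDiffAt ℝ 2 (𝓕.psi y₀) p := ((SB_psi 𝓕 y₀).restrict_scalars ℝ).contDiffAt.of_le h2
  have hd : ∀ᶠ q in 𝓝 p, DifferentiableAt ℂ (𝓕.psi y₀) q :=
    Filter.Eventually.of_forall fun q => (SB_psi 𝓕 y₀).differentiable (by simp) q
  have hg : ContDiffAt ℝ 2 (fun x : V => Real.log (nsq x)) (𝓕.psi y₀ p) :=
    (SB_nsq.contDiffAt.of_le h2).log (nsq_pos (h.psi_ne p)).ne'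
  rw [levi_const_mul hphi, levi_comp_hol (g := fun x : V => Real.log (nsq x)) hd hpsi hg,
    levi_log_nsq _ _ (h.psi_ne p)]
  refine mul_nonneg (Nat.cast_nonneg k) (div_nonneg ?_ (sq_nonneg _))
  have := SB_cs (fderiv ℂ (𝓕.psi y₀) p v) (𝓕.psi y₀ p)
  linarith

theorem SB_eval (P : MvPolynomial (Fin 3) ℂ) : Differentiable ℂ (fun x : V => MvPolynomial.eval x P) := by
  induction P using MvPolynomial.induction_on with
  | C a => simp
  | add p q hp hq =>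
    simp only [map_add]
    exact hp.add hq
  | mul_X p i hp =>
    simp only [map_mul, MvPolynomial.eval_X]
    exact hp.mul (differentiable_apply i)

/-- the logarithmic derivative along the leaf -/
theorem SB_chain {ρ : ℝ} {Y : ℂ → ℂ} (hY : Leaf X r ρ Y)
    (P : MvPolynomial (Fin 3) ℂ) {z : ℂ} (hz : z ∈ Metric.ball (0 : ℂ) ρ) :
    fderiv ℂ (fun q => MvPolynomial.eval (𝓕.psi y₀ q) P) (z, Y z) (X (z, Y z)) =
      (X (z, Y z)).1 * deriv (fun z => MvPolynomial.eval (𝓕.psi y₀ (z, Y z)) P) z := by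
  have hQ : DifferentiableAt ℂ (fun q => MvPolynomial.eval (𝓕.psi y₀ q) P) (z, Y z) :=
    (SB_eval P).comp ((SB_psi 𝓕 y₀).differentiable (by simp)) (z, Y z)
  have hYd : HasDerivAt Y (deriv Y z) z := (hY.hol.differentiableAt (Metric.isOpen_ball.mem_nhds hz)).hasDerivAt
  have h1 : HasDerivAt (fun z => (z, Y z)) ((1 : ℂ), deriv Y z) z := (hasDerivAt_id z).prodMk hYd
  have h2 := hQ.hasFDerivAt.comp_hasDerivAt z h1
  have h3 : X (z, Y z) = (X (z, Y z)).1 • ((1 : ℂ), deriv Y z) := by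
    refine Prod.ext ?_ ?_
    · show (X (z, Y z)).1 = (X (z, Y z)).1 * 1
      rw [mul_one]
    · show (X (z, Y z)).2 = (X (z, Y z)).1 * deriv Y z
      rw [← hY.ode z hz, mul_comm]
  have h4 : deriv (fun z => MvPolynomial.eval (𝓕.psi y₀ (z, Y z)) P) z =
      fderiv ℂ (fun q => MvPolynomial.eval (𝓕.psi y₀ q) P) (z, Y z) ((1 : ℂ), deriv Y z) := h2.deriv
  rw [h4]
  conv_lhs => rw [h3]
  rw [map_smul, smul_eq_mul]

theorem leaf_lower (h : Chart 𝓕 μ y₀ X c₀ r M) {ρ : ℝ} {Y : ℂ → ℂ} (hY : Leaf X r ρ Y) (k : ℕ)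
    (P : MvPolynomial (Fin 3) ℂ) (m : ℕ) (hm : 1 ≤ m) (f : ℂ → ℂ) (hf : AnalyticAt ℂ f 0)
    (hf0 : f 0 ≠ 0)
    (hfP : ∀ᶠ z in 𝓝 (0 : ℂ), MvPolynomial.eval (𝓕.psi y₀ (z, Y z)) P = z ^ m * f z) :
    ∃ rP cP CP : ℝ, 0 < rP ∧ rP < ρ ∧ 0 < cP ∧ 0 < CP ∧ ∀ z : ℂ, 0 < ‖z‖ → ‖z‖ < rP →
      MvPolynomial.eval (𝓕.psi y₀ (z, Y z)) P ≠ 0 ∧
      (m : ℝ) ^ 2 / (32 * ‖z‖ ^ 2) ≤
        Complex.normSq (fderiv ℂ (fun q => MvPolynomial.eval (𝓕.psi y₀ q) P) (z, Y z)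
          (X (z, Y z)) / MvPolynomial.eval (𝓕.psi y₀ (z, Y z)) P) / 2 -
        gradm (fun q => (k : ℝ) * Real.log (nsq (𝓕.psi y₀ q)))
          (fun q => (k : ℝ) * Real.log (nsq (𝓕.psi y₀ q))) (z, Y z) (X (z, Y z)) ∧
      cP * ‖z‖ ^ (2 * m) ≤ Complex.normSq (MvPolynomial.eval (𝓕.psi y₀ (z, Y z)) P) *
        Real.exp (- ((k : ℝ) * Real.log (nsq (𝓕.psi y₀ (z, Y z))))) ∧
      Complex.normSq (MvPolynomial.eval (𝓕.psi y₀ (z, Y z)) P) *
        Real.exp (- ((k : ℝ) * Real.log (nsq (𝓕.psi y₀ (z, Y z))))) ≤ CP * ‖z‖ ^ (2 * m) := by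
  have h2 : (2 : WithTop ℕ∞) ≤ ((⊤ : ℕ∞) : WithTop ℕ∞) := WithTop.coe_le_coe.2 (le_top : (2 : ℕ∞) ≤ ⊤)
  -- names
  let φ : ℂ × ℂ → ℝ := fun q => (k : ℝ) * Real.log (nsq (𝓕.psi y₀ q))
  let G : ℂ × ℂ → ℝ := fun q => gradm φ φ q (X q)
  let u : ℂ → ℂ := fun z => (X (z, Y z)).1 * ((m : ℂ) + z * (deriv f z / f z))
  let Θ : ℂ → ℝ := fun z => Complex.normSq (u z) / 2 - ‖z‖ ^ 2 * G (z, Y z)
  let L : ℂ → ℝ := fun z => Complex.normSq (f z) * Real.exp (- φ (z, Y z))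
  have hφ : ContDiff ℝ 2 φ := contDiff_const.mul ((SB_phi h).of_le h2)
  have hφd : Continuous (fderiv ℝ φ) := hφ.continuous_fderiv (by simp)
  have hXc : Continuous X := h.hol.continuous
  have hG : Continuous G := by
    have g1 : Continuous (fun q => fderiv ℝ φ q (X q)) := hφd.clm_apply hXc
    have g2 : Continuous (fun q => fderiv ℝ φ q (Complex.I • X q)) :=
      hφd.clm_apply (hXc.const_smul Complex.I)
    exact ((g1.mul g1).add (g2.mul g2)).div_const 4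
  have h00 : (0 : ℂ) ∈ Metric.ball (0 : ℂ) ρ := Metric.mem_ball_self hY.pos
  have hYc : ContinuousAt Y 0 := (hY.hol.differentiableAt (Metric.isOpen_ball.mem_nhds h00)).continuousAt
  have hYY : ContinuousAt (fun z => (z, Y z)) 0 := continuousAt_id.prodMk hYc
  have hfc : ContinuousAt f 0 := hf.continuousAt
  have hf'c : ContinuousAt (deriv f) 0 := hf.deriv.continuousAt
  have hu : ContinuousAt u 0 := by
    have u1 : ContinuousAt (fun z => (X (z, Y z)).1) 0 :=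
      (continuous_fst.comp hXc).continuousAt.comp (f := fun z => (z, Y z)) hYY
    exact u1.mul (continuousAt_const.add (continuousAt_id.mul (hf'c.div hfc hf0)))
  have hΘ : ContinuousAt Θ 0 := by
    have t1 : ContinuousAt (fun z => G (z, Y z)) 0 := hG.continuousAt.comp (f := fun z => (z, Y z)) hYY
    have t2 : ContinuousAt (fun z => Complex.normSq (u z)) 0 :=
      Complex.continuous_normSq.continuousAt.comp hu
    have t3 : ContinuousAt (fun z : ℂ => ‖z‖ ^ 2) 0 := (continuous_norm.pow 2).continuousAt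
    exact (t2.div_const 2).sub (t3.mul t1)
  have hL : ContinuousAt L 0 := by
    have t1 : ContinuousAt (fun z => φ (z, Y z)) 0 :=
      hφ.continuous.continuousAt.comp (f := fun z => (z, Y z)) hYY
    have t2 : ContinuousAt (fun z => Complex.normSq (f z)) 0 :=
      Complex.continuous_normSq.continuousAt.comp hfc
    exact t2.mul (Real.continuous_exp.continuousAt.comp t1.neg)
  have hm0 : (0 : ℝ) < (m : ℝ) ^ 2 := by
    have : (0 : ℝ) < m := by exact_mod_cast hm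
    positivity
  have hu0 : u 0 = m := by
    show (X (0, Y 0)).1 * ((m : ℂ) + 0 * (deriv f 0 / f 0)) = m
    have e1 : X ((0 : ℂ), Y 0) = (1, 0) := by
      rw [hY.zero]
      exact h.zero
    rw [e1]
    simp
  have hΘ0 : (m : ℝ) ^ 2 / 32 < Θ 0 := by
    show (m : ℝ) ^ 2 / 32 < Complex.normSq (u 0) / 2 - ‖(0 : ℂ)‖ ^ 2 * G (0, Y 0)
    rw [hu0, norm_zero, Complex.normSq_natCast]
    have : (m : ℝ) * m = m ^ 2 := by ring
    rw [this]
    linarith
  have hL0 : 0 < L 0 := mul_pos (Complex.normSq_pos.2 hf0) (Real.exp_pos _)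
  have ev1 : ∀ᶠ z in 𝓝 (0 : ℂ), (m : ℝ) ^ 2 / 32 < Θ z := hΘ.eventually (lt_mem_nhds hΘ0)
  have ev2 : ∀ᶠ z in 𝓝 (0 : ℂ), L 0 / 2 < L z := hL.eventually (lt_mem_nhds (by linarith))
  have ev3 : ∀ᶠ z in 𝓝 (0 : ℂ), L z < 2 * L 0 := hL.eventually (gt_mem_nhds (by linarith))
  have ev4 : ∀ᶠ z in 𝓝 (0 : ℂ), f z ≠ 0 := hfc.eventually_ne hf0
  have ev5 : ∀ᶠ z in 𝓝 (0 : ℂ), AnalyticAt ℂ f z := hf.eventually_analyticAt
  have ev6 : ∀ᶠ z in 𝓝 (0 : ℂ), ∀ᶠ w in 𝓝 z,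
      MvPolynomial.eval (𝓕.psi y₀ (w, Y w)) P = w ^ m * f w := eventually_eventually_nhds.2 hfP
  have evall := (ev1.and (ev2.and (ev3.and (ev4.and (ev5.and ev6)))))
  obtain ⟨r1, hr1, hball⟩ := Metric.eventually_nhds_iff_ball.1 evall
  refine ⟨min r1 ρ / 2, L 0 / 2, 2 * L 0, ?_, ?_, by linarith, by linarith, ?_⟩
  · have := lt_min hr1 hY.pos
    linarith
  · have h3 := min_le_right r1 ρ
    have h4 := hY.pos
    have h5 := lt_min hr1 hY.pos
    linarith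
  intro z hz0 hz
  have hzne : z ≠ 0 := norm_pos_iff.1 hz0
  have hzr : z ∈ Metric.ball (0 : ℂ) r1 := by
    rw [mem_ball_zero_iff]
    have h3 := min_le_left r1 ρ
    have h5 := lt_min hr1 hY.pos
    linarith
  have hzρ : z ∈ Metric.ball (0 : ℂ) ρ := by
    rw [mem_ball_zero_iff]
    have h3 := min_le_right r1 ρ
    have h5 := lt_min hr1 hY.pos
    linarith
  obtain ⟨q1, q2, q3, q4, q5, q6⟩ := hball z hzr
  have hQ : MvPolynomial.eval (𝓕.psi y₀ (z, Y z)) P = z ^ m * f z := q6.self_of_nhds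
  have hzm : z ^ m ≠ 0 := pow_ne_zero _ hzne
  have hder : deriv (fun z => MvPolynomial.eval (𝓕.psi y₀ (z, Y z)) P) z =
      (m : ℂ) * z ^ (m - 1) * f z + z ^ m * deriv f z := by
    rw [Filter.EventuallyEq.deriv_eq q6]
    have d1 : HasDerivAt (fun w : ℂ => w ^ m) ((m : ℂ) * z ^ (m - 1)) z := hasDerivAt_pow m z
    exact (d1.mul q5.differentiableAt.hasDerivAt).deriv
  have hratio : fderiv ℂ (fun q => MvPolynomial.eval (𝓕.psi y₀ q) P) (z, Y z) (X (z, Y z)) /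
      MvPolynomial.eval (𝓕.psi y₀ (z, Y z)) P = u z / z := by
    rw [SB_chain hY P hzρ, hder, hQ]
    show (X (z, Y z)).1 * ((m : ℂ) * z ^ (m - 1) * f z + z ^ m * deriv f z) / (z ^ m * f z) =
      (X (z, Y z)).1 * ((m : ℂ) + z * (deriv f z / f z)) / z
    obtain ⟨n, rfl⟩ : ∃ n, m = n + 1 := ⟨m - 1, by omega⟩
    have hzn : z ^ n ≠ 0 := pow_ne_zero _ hzne
    rw [Nat.add_sub_cancel]
    field_simp
    ring
  have hz2 : (0 : ℝ) < ‖z‖ ^ 2 := by positivity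
  refine ⟨?_, ?_, ?_, ?_⟩
  · rw [hQ]
    exact mul_ne_zero hzm q4
  · rw [hratio, map_div₀]
    show (m : ℝ) ^ 2 / (32 * ‖z‖ ^ 2) ≤ Complex.normSq (u z) / Complex.normSq z / 2 - G (z, Y z)
    rw [Complex.normSq_eq_norm_sq z]
    have e1 : Complex.normSq (u z) / ‖z‖ ^ 2 / 2 - G (z, Y z) = Θ z / ‖z‖ ^ 2 := by
      show Complex.normSq (u z) / ‖z‖ ^ 2 / 2 - G (z, Y z) =
        (Complex.normSq (u z) / 2 - ‖z‖ ^ 2 * G (z, Y z)) / ‖z‖ ^ 2
      field_simp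
    rw [e1, ← div_div]
    gcongr
  · rw [hQ, map_mul, map_pow, Complex.normSq_eq_norm_sq z, ← pow_mul]
    show L 0 / 2 * ‖z‖ ^ (2 * m) ≤ ‖z‖ ^ (2 * m) * Complex.normSq (f z) * Real.exp (- φ (z, Y z))
    have e1 : ‖z‖ ^ (2 * m) * Complex.normSq (f z) * Real.exp (- φ (z, Y z)) = L z * ‖z‖ ^ (2 * m) := by
      show ‖z‖ ^ (2 * m) * Complex.normSq (f z) * Real.exp (- φ (z, Y z)) =
        Complex.normSq (f z) * Real.exp (- φ (z, Y z)) * ‖z‖ ^ (2 * m)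
      ring
    rw [e1]
    gcongr
  · rw [hQ, map_mul, map_pow, Complex.normSq_eq_norm_sq z, ← pow_mul]
    show ‖z‖ ^ (2 * m) * Complex.normSq (f z) * Real.exp (- φ (z, Y z)) ≤ 2 * L 0 * ‖z‖ ^ (2 * m)
    have e1 : ‖z‖ ^ (2 * m) * Complex.normSq (f z) * Real.exp (- φ (z, Y z)) = L z * ‖z‖ ^ (2 * m) := by
      show ‖z‖ ^ (2 * m) * Complex.normSq (f z) * Real.exp (- φ (z, Y z)) =
        Complex.normSq (f z) * Real.exp (- φ (z, Y z)) * ‖z‖ ^ (2 * m)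
      ring
    rw [e1]
    gcongr

end Pool.Agent.H24.CU

end S_H24_CU_SB

section S_H24_CU_LP

/-!
# Row LP (pointwise lower bound)

PROOF.  `q = normSq (Q w) exp(-φ w) > 0` near `p`.  `log (normSq Q + s^2 exp φ) = φ + log (q + s^2)`.
`log q = log normSq Q - φ`, `levi (log normSq Q) p v = 0` (`levi_comp`, `levi_normSq`:
`(1/n) |Q'|^2 - (1/n^2) n |Q'|^2 = 0`, `n = normSq Q`, `gradm n n = n |Q'|^2` from `fderiv_normSq`), so
`levi (log q) = - levi φ`.  `log (q + s^2) = h (log q)`, `h t = log (exp t + s^2)`, `h' = q/(q+s^2)`,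
`h'' = q s^2/(q+s^2)^2`.  So
`levi (log (normSq Q + s^2 exp φ)) = levi φ - (q/(q+s^2)) levi φ + (s^2 q/(q+s^2)^2) gradm (log q)(log q)`
`= (s^2/(q+s^2)) levi φ + (s^2 q/(q+s^2)^2) G`, first term `>= 0`.
`G = gradm (log n - φ)(log n - φ) = gradm(log n)(log n) - 2 gradm (log n) φ + gradm φ φ
 >= (1/2) gradm (log n)(log n) - gradm φ φ` (`gradm_sq_le`, `2ab <= a²/2 + 2b²`), and
`gradm (log n)(log n) = |Q'|^2/n = normSq (Q'/Q)`.
-/

namespace Pool.Agent.H24.CU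

open scoped ContDiff ComplexConjugate

theorem LP_h (s : ℝ) (hs : 0 < s) :
    ContDiff ℝ 2 (fun t => Real.log (Real.exp t + s ^ 2)) ∧
    (∀ t, deriv (fun t => Real.log (Real.exp t + s ^ 2)) t = Real.exp t / (Real.exp t + s ^ 2)) ∧
    ∀ t, deriv (deriv (fun t => Real.log (Real.exp t + s ^ 2))) t =
      s ^ 2 * Real.exp t / (Real.exp t + s ^ 2) ^ 2 := by
  have hpos : ∀ t, Real.exp t + s ^ 2 ≠ 0 := fun t => by
    have := Real.exp_pos t
    positivity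
  have h1 : ∀ t, HasDerivAt (fun t => Real.exp t + s ^ 2) (Real.exp t) t := fun t =>
    (Real.hasDerivAt_exp t).add_const _
  have h2 : ∀ t, deriv (fun t => Real.log (Real.exp t + s ^ 2)) t =
      Real.exp t / (Real.exp t + s ^ 2) := fun t => ((h1 t).log (hpos t)).deriv
  refine ⟨(Real.contDiff_exp.add contDiff_const).log hpos, h2, ?_⟩
  intro t
  have h3 : deriv (fun t => Real.log (Real.exp t + s ^ 2)) = fun t =>
      Real.exp t / (Real.exp t + s ^ 2) := funext h2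
  rw [h3]
  have h4 := ((Real.hasDerivAt_exp t).div (h1 t) (hpos t)).deriv
  have h5 : deriv (fun t => Real.exp t / (Real.exp t + s ^ 2)) t =
      (Real.exp t * (Real.exp t + s ^ 2) - Real.exp t * Real.exp t) / (Real.exp t + s ^ 2) ^ 2 := h4
  rw [h5]
  congr 1
  ring

theorem levi_log_lower {Q : ℂ × ℂ → ℂ} (hQ : Differentiable ℂ Q) {φ : ℂ × ℂ → ℝ} {p : ℂ × ℂ}
    (hφ : ContDiffAt ℝ 2 φ p) (v : ℂ × ℂ) (hpos : 0 ≤ levi φ p v) (s : ℝ) (hs : 0 < s)
    (hQ0 : Q p ≠ 0) :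
    s ^ 2 * (Complex.normSq (Q p) * Real.exp (- φ p)) /
        (Complex.normSq (Q p) * Real.exp (- φ p) + s ^ 2) ^ 2 *
        (Complex.normSq (fderiv ℂ Q p v / Q p) / 2 - gradm φ φ p v) ≤
      levi (fun w => Real.log (Complex.normSq (Q w) + s ^ 2 * Real.exp (φ w))) p v := by
  have hQ2 : ContDiffAt ℝ 2 Q p := (((H65.holC_contDiff hQ).restrict_scalars ℝ).contDiffAt).of_le (by norm_cast)
  have hQev : ∀ᶠ q in nhds p, DifferentiableAt ℂ Q q := Filter.Eventually.of_forall fun q => hQ q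
  have hn0 : 0 < Complex.normSq (Q p) := Complex.normSq_pos.2 hQ0
  have hQne : ∀ᶠ q in nhds p, Q q ≠ 0 := hQ.continuous.continuousAt.eventually_ne hQ0
  have cn : ContDiffAt ℝ 2 (fun q => Complex.normSq (Q q)) p := by
    have h0 : (fun q => Complex.normSq (Q q)) =
        fun q => Complex.reCLM (Q q) * Complex.reCLM (Q q) + Complex.imCLM (Q q) * Complex.imCLM (Q q) := by
      funext q
      rw [Complex.normSq_apply]
      rfl
    rw [h0]
    have c1 : ContDiffAt ℝ 2 (fun q => Complex.reCLM (Q q)) p :=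
      Complex.reCLM.contDiff.contDiffAt.comp p hQ2
    have c2 : ContDiffAt ℝ 2 (fun q => Complex.imCLM (Q q)) p :=
      Complex.imCLM.contDiff.contDiffAt.comp p hQ2
    exact (c1.mul c1).add (c2.mul c2)
  have cl : ContDiffAt ℝ 2 (fun q => Real.log (Complex.normSq (Q q))) p := cn.log hn0.ne'
  have dn : DifferentiableAt ℝ (fun q => Complex.normSq (Q q)) p := cn.differentiableAt (by simp)
  have dl : DifferentiableAt ℝ (fun q => Real.log (Complex.normSq (Q q))) p :=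
    cl.differentiableAt (by simp)
  have dφ : DifferentiableAt ℝ φ p := hφ.differentiableAt (by simp)
  -- the first derivative of log n
  have hD : ∀ w, fderiv ℝ (fun q => Real.log (Complex.normSq (Q q))) p w =
      2 * (conj (Q p) * fderiv ℂ Q p w).re / Complex.normSq (Q p) := by
    intro w
    have h1 : fderiv ℝ (fun q => Real.log (Complex.normSq (Q q))) p =
        (Complex.normSq (Q p))⁻¹ • fderiv ℝ (fun q => Complex.normSq (Q q)) p :=
      (dn.hasFDerivAt.log hn0.ne').fderiv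
    rw [h1]
    show (Complex.normSq (Q p))⁻¹ * fderiv ℝ (fun q => Complex.normSq (Q q)) p w = _
    rw [fderiv_normSq (hQ p)]
    ring
  obtain ⟨z, hz⟩ : ∃ z : ℂ, z = conj (Q p) * fderiv ℂ Q p v := ⟨_, rfl⟩
  have hzv : fderiv ℝ (fun q => Real.log (Complex.normSq (Q q))) p v =
      2 * z.re / Complex.normSq (Q p) := by rw [hD, hz]
  have hziv : fderiv ℝ (fun q => Real.log (Complex.normSq (Q q))) p (Complex.I • v) =
      -(2 * z.im) / Complex.normSq (Q p) := by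
    rw [hD, map_smul, smul_eq_mul]
    have h1 : conj (Q p) * (Complex.I * fderiv ℂ Q p v) = Complex.I * z := by
      rw [hz]
      ring
    rw [h1, Complex.I_mul_re]
    ring
  have hzn : z.re ^ 2 + z.im ^ 2 = Complex.normSq (Q p) * Complex.normSq (fderiv ℂ Q p v) := by
    have h1 : Complex.normSq z = Complex.normSq (Q p) * Complex.normSq (fderiv ℂ Q p v) := by
      rw [hz, Complex.normSq_mul, Complex.normSq_conj]
    rw [← h1, Complex.normSq_apply]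
    ring
  have hll : gradm (fun q => Real.log (Complex.normSq (Q q)))
      (fun q => Real.log (Complex.normSq (Q q))) p v = Complex.normSq (fderiv ℂ Q p v / Q p) := by
    unfold gradm
    rw [hzv, hziv, Complex.normSq_div]
    have h1 : (2 * z.re / Complex.normSq (Q p) * (2 * z.re / Complex.normSq (Q p)) +
        -(2 * z.im) / Complex.normSq (Q p) * (-(2 * z.im) / Complex.normSq (Q p))) =
        4 * (z.re ^ 2 + z.im ^ 2) / Complex.normSq (Q p) ^ 2 := by ring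
    rw [h1, hzn]
    field_simp
  -- levi of log n vanishes
  have hl0 : levi (fun q => Real.log (Complex.normSq (Q q))) p v = 0 := by
    rw [levi_comp (h := Real.log) cn (Real.contDiffAt_log.2 hn0.ne') v, levi_normSq hQev hQ2]
    have h1 : deriv Real.log (Complex.normSq (Q p)) = (Complex.normSq (Q p))⁻¹ := by simp
    have h2 : deriv (deriv Real.log) (Complex.normSq (Q p)) = -(Complex.normSq (Q p) ^ 2)⁻¹ := by
      have h3 : deriv Real.log = fun x => x⁻¹ := by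
        funext x
        simp
      rw [h3]
      exact (hasDerivAt_inv hn0.ne').deriv
    have h4 : gradm (fun q => Complex.normSq (Q q)) (fun q => Complex.normSq (Q q)) p v =
        Complex.normSq (Q p) * Complex.normSq (fderiv ℂ Q p v) := by
      unfold gradm
      have h5 : fderiv ℝ (fun q => Complex.normSq (Q q)) p v = 2 * z.re := by
        rw [fderiv_normSq (hQ p), hz]
      have h6 : fderiv ℝ (fun q => Complex.normSq (Q q)) p (Complex.I • v) = -(2 * z.im) := by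
        rw [fderiv_normSq (hQ p), map_smul, smul_eq_mul]
        have h1 : conj (Q p) * (Complex.I * fderiv ℂ Q p v) = Complex.I * z := by
          rw [hz]
          ring
        rw [h1, Complex.I_mul_re]
        ring
      rw [h5, h6, ← hzn]
      ring
    rw [h1, h2, h4]
    field_simp
    ring
  obtain ⟨hh1, hh2, hh3⟩ := LP_h s hs
  have cψ : ContDiffAt ℝ 2 (fun q => Real.log (Complex.normSq (Q q)) - φ q) p := cl.sub hφ
  have hev : (fun w => Real.log (Complex.normSq (Q w) + s ^ 2 * Real.exp (φ w))) =ᶠ[nhds p]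
      fun w => φ w + Real.log (Real.exp (Real.log (Complex.normSq (Q w)) - φ w) + s ^ 2) := by
    filter_upwards [hQne] with w hw
    have hnw : 0 < Complex.normSq (Q w) := Complex.normSq_pos.2 hw
    have he := Real.exp_pos (φ w)
    have h1 : Complex.normSq (Q w) + s ^ 2 * Real.exp (φ w) =
        Real.exp (φ w) * (Real.exp (Real.log (Complex.normSq (Q w)) - φ w) + s ^ 2) := by
      rw [Real.exp_sub, Real.exp_log hnw]
      field_simp
    rw [h1, Real.log_mul he.ne' (by positivity), Real.log_exp]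
  have cc : ContDiffAt ℝ 2 (fun w => Real.log (Real.exp (Real.log (Complex.normSq (Q w)) - φ w) + s ^ 2)) p :=
    ContDiffAt.comp (g := fun t => Real.log (Real.exp t + s ^ 2)) p hh1.contDiffAt cψ
  rw [levi_congr hev, levi_add hφ cc,
    levi_comp (h := fun t => Real.log (Real.exp t + s ^ 2)) cψ hh1.contDiffAt v, hh2, hh3,
    levi_sub cl hφ, hl0]
  have hq : Real.exp (Real.log (Complex.normSq (Q p)) - φ p) =
      Complex.normSq (Q p) * Real.exp (-φ p) := by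
    rw [sub_eq_add_neg, Real.exp_add, Real.exp_log hn0]
  rw [hq]
  have hG : Complex.normSq (fderiv ℂ Q p v / Q p) / 2 - gradm φ φ p v ≤
      gradm (fun q => Real.log (Complex.normSq (Q q)) - φ q)
        (fun q => Real.log (Complex.normSq (Q q)) - φ q) p v := by
    rw [← hll]
    unfold gradm
    have h1 : fderiv ℝ (fun q => Real.log (Complex.normSq (Q q)) - φ q) p =
        fderiv ℝ (fun q => Real.log (Complex.normSq (Q q))) p - fderiv ℝ φ p :=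
      fderiv_fun_sub dl dφ
    rw [h1]
    simp only [sub_apply]
    nlinarith [sq_nonneg (fderiv ℝ (fun q => Real.log (Complex.normSq (Q q))) p v -
      2 * fderiv ℝ φ p v), sq_nonneg (fderiv ℝ (fun q => Real.log (Complex.normSq (Q q))) p
        (Complex.I • v) - 2 * fderiv ℝ φ p (Complex.I • v))]
  obtain ⟨q, hqd⟩ : ∃ q : ℝ, q = Complex.normSq (Q p) * Real.exp (-φ p) := ⟨_, rfl⟩
  have hqpos : 0 < q := by
    rw [hqd]
    have := Real.exp_pos (-φ p)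
    positivity
  rw [← hqd]
  have h1 : levi φ p v + (q / (q + s ^ 2) * (0 - levi φ p v) + s ^ 2 * q / (q + s ^ 2) ^ 2 *
      gradm (fun q => Real.log (Complex.normSq (Q q)) - φ q)
        (fun q => Real.log (Complex.normSq (Q q)) - φ q) p v) =
      s ^ 2 / (q + s ^ 2) * levi φ p v + s ^ 2 * q / (q + s ^ 2) ^ 2 *
      gradm (fun q => Real.log (Complex.normSq (Q q)) - φ q)
        (fun q => Real.log (Complex.normSq (Q q)) - φ q) p v := by
    have hne : q + s ^ 2 ≠ 0 := by positivity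
    have h2 : 1 - q / (q + s ^ 2) = s ^ 2 / (q + s ^ 2) := by
      field_simp
      ring
    rw [← h2]
    ring
  rw [h1]
  have h2 : 0 ≤ s ^ 2 / (q + s ^ 2) * levi φ p v := by positivity
  have h3 : 0 ≤ s ^ 2 * q / (q + s ^ 2) ^ 2 := by positivity
  have h4 := mul_le_mul_of_nonneg_left hG h3
  linarith

end Pool.Agent.H24.CU

end S_H24_CU_LP

section S_H24_CU_SM

/-!
# Row SM (the order along the leaf is bounded by the degree)

PROOF.  `Λ, c', t₀` as in the hypothesis (annuli), `m₀ = (μ univ).toReal`,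
`κ = c' log 2 / (800 (m₀ + 1) log Λ)`.  Fix `k, P, m, f` and `rP, cP, CP` of `leaf_lower`; choose
`t₁ <= t₀`, `t₁ < rP`, `t₁ < 1`, `CP t₁^(2m) < 1`.  For `J >= 1` let `t_j = t₁ Λ^-j`,
`A_j = {t_{j+1} < ‖p.1‖ <= t_j, p.2 = Y p.1}` (`j < J`, pairwise disjoint, measurable), `A = ⋃ A_j ⊆ ball 0 r`.
Let `q(p) = normSq (Q p) exp(-φ p)`.  On `A`: `cP (t_J)^(2m) <= q < 1`.
Let `n >= 1` be a natural number with `4^-n <= cP t_J^(2m)`; one can take
`n <= J m log Λ / log 2 + B`, `B` independent of `J` (`n = ⌈(2 m (J log Λ - log t₁) - log cP)/log 4⌉ + 1`, at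
least `1`).
For `i = 1..n`, `s_i = 2^-i`: `global_ineq` with `E = A` (the function there equals
`log (normSq Q + s^2 exp φ)`, `φ q = k log (nsq (psi q))`) and `levi_log_lower` + `leaf_lower` give
`∫⁻_A ofReal (s_i^2 q/(q+s_i^2)^2 * m^2/(32 ‖p.1‖^2)) dM <= ofReal (k m₀)`.
Sum over `i`: for `4^-n <= q < 1` there is `i ∈ {1..n}` with `s_i^2 <= q < 4 s_i^2`, and then
`s_i^2 q/(q+s_i^2)^2 >= s_i^4/(5 s_i^2)^2 = 1/25`.  So
`n k m₀ >= ∫_A (1/25) m^2/(32 ‖p.1‖^2) dM >= ∑_{j<J} (m^2/800) (1/t_j^2) M(A_j) >= (m^2/800) c' J`.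
With the bound for `n`: `(J m log Λ/log 2 + B) k m₀ >= m^2 c' J/800` for all `J >= 1`; divide by `J` and let
`J → ∞`: `k m₀ m log Λ/log 2 >= m^2 c'/800`, i.e. `κ m <= k` (`m₀ < m₀ + 1`, everything nonnegative).
-/

namespace Pool.Agent.H24.CU

open MeasureTheory Filter
open scoped Topology ComplexConjugate

variable {𝓕 : Foliation} {μ : Measure V} {y₀ : V} {X : ℂ × ℂ → ℂ × ℂ} {c₀ : ℂ × ℂ → ℂ} {r : ℝ}
  {M : Measure (ℂ × ℂ)}

theorem SM_psi (𝓕 : Foliation) (y₀ : V) (p : ℂ × ℂ) (j : Fin 3) :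
    𝓕.psi y₀ p j = y₀ j + p.1 * 𝓕.vec y₀ j + p.2 * conj (𝓕.alpha y₀ j) := by
  simp [Foliation.psi]

theorem SM_Q (𝓕 : Foliation) (y₀ : V) (P : MvPolynomial (Fin 3) ℂ) :
    Differentiable ℂ (fun q : ℂ × ℂ => MvPolynomial.eval (𝓕.psi y₀ q) P) := by
  induction P using MvPolynomial.induction_on with
  | C a =>
    simp only [MvPolynomial.eval_C]
    exact differentiable_const a
  | add p q hp hq =>
    simp only [map_add]
    exact hp.add hq
  | mul_X p j hp =>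
    simp only [map_mul, MvPolynomial.eval_X, SM_psi]
    exact hp.mul (((differentiable_const _).add (differentiable_fst.mul_const _)).add
      (differentiable_snd.mul_const _))

theorem SM_nsq : ContDiff ℝ 2 (fun x : V => nsq x) := by
  have h : (fun x : V => nsq x) = fun x : V => ∑ j, ((x j).re * (x j).re + (x j).im * (x j).im) := by
    funext x
    unfold nsq
    exact Finset.sum_congr rfl fun j _ => Complex.normSq_apply _
  rw [h]
  refine ContDiff.sum fun j _ => ?_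
  have h1 : ContDiff ℝ 2 (fun x : V => (x j).re) :=
    Complex.reCLM.contDiff.comp (contDiff_apply ℝ ℂ j)
  have h2 : ContDiff ℝ 2 (fun x : V => (x j).im) :=
    Complex.imCLM.contDiff.comp (contDiff_apply ℝ ℂ j)
  exact (h1.mul h1).add (h2.mul h2)

theorem SM_psi_smooth (𝓕 : Foliation) (y₀ : V) : ContDiff ℝ 2 (𝓕.psi y₀) := by
  rw [contDiff_pi]
  intro j
  simp only [SM_psi]
  exact (contDiff_const.add (contDiff_fst.mul contDiff_const)).add (contDiff_snd.mul contDiff_const)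

theorem SM_phi (h : Chart 𝓕 μ y₀ X c₀ r M) (k : ℕ) :
    ContDiff ℝ 2 (fun q : ℂ × ℂ => (k : ℝ) * Real.log (nsq (𝓕.psi y₀ q))) := by
  refine contDiff_const.mul ?_
  exact (SM_nsq.comp (SM_psi_smooth 𝓕 y₀)).log fun p => (nsq_pos (h.psi_ne p)).ne'

theorem SM_pointwise (h : Chart 𝓕 μ y₀ X c₀ r M) (k : ℕ) (P : MvPolynomial (Fin 3) ℂ) (m : ℕ)
    {s : ℝ} (hs : 0 < s) (p : ℂ × ℂ) {T : ℝ}
    (hQ0 : MvPolynomial.eval (𝓕.psi y₀ p) P ≠ 0)
    (hlow : T ≤ Complex.normSq (fderiv ℂ (fun q => MvPolynomial.eval (𝓕.psi y₀ q) P) p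
          (X p) / MvPolynomial.eval (𝓕.psi y₀ p) P) / 2 -
        gradm (fun q => (k : ℝ) * Real.log (nsq (𝓕.psi y₀ q)))
          (fun q => (k : ℝ) * Real.log (nsq (𝓕.psi y₀ q))) p (X p)) :
    s ^ 2 * (Complex.normSq (MvPolynomial.eval (𝓕.psi y₀ p) P) *
        Real.exp (- ((k : ℝ) * Real.log (nsq (𝓕.psi y₀ p))))) /
      (Complex.normSq (MvPolynomial.eval (𝓕.psi y₀ p) P) *
        Real.exp (- ((k : ℝ) * Real.log (nsq (𝓕.psi y₀ p)))) + s ^ 2) ^ 2 * T ≤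
      levi (fun q => Real.log (Complex.normSq
        (MvPolynomial.eval (𝓕.psi y₀ q) P) + s ^ 2 * nsq (𝓕.psi y₀ q) ^ k)) p (X p) := by
  have h1 := levi_log_lower (SM_Q 𝓕 y₀ P) (φ := fun q => (k : ℝ) * Real.log (nsq (𝓕.psi y₀ q)))
    (p := p) (SM_phi h k).contDiffAt (X p) (levi_phi_nonneg h k p (X p)) s hs hQ0
  have h2 : (fun q : ℂ × ℂ => Real.log (Complex.normSq (MvPolynomial.eval (𝓕.psi y₀ q) P) +
      s ^ 2 * Real.exp ((k : ℝ) * Real.log (nsq (𝓕.psi y₀ q))))) =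
      fun q => Real.log (Complex.normSq
        (MvPolynomial.eval (𝓕.psi y₀ q) P) + s ^ 2 * nsq (𝓕.psi y₀ q) ^ k) := by
    funext q
    rw [Real.exp_nat_mul, Real.exp_log (nsq_pos (h.psi_ne q))]
  rw [h2] at h1
  refine le_trans ?_ h1
  refine mul_le_mul_of_nonneg_left hlow ?_
  have h3 := Complex.normSq_nonneg (MvPolynomial.eval (𝓕.psi y₀ p) P)
  have h4 := (Real.exp_pos (- ((k : ℝ) * Real.log (nsq (𝓕.psi y₀ p))))).le
  positivity

theorem SM_dyadic {q : ℝ} {n : ℕ} (h1 : (1 / 4 : ℝ) ^ n ≤ q) (h2 : q < 1) :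
    ∃ i ∈ Finset.range n, 1 / 25 ≤ ((1 / 2 : ℝ) ^ (i + 1)) ^ 2 * q / (q + ((1 / 2 : ℝ) ^ (i + 1)) ^ 2) ^ 2 := by
  classical
  have hex : ∃ i : ℕ, (1 / 4 : ℝ) ^ i ≤ q := ⟨n, h1⟩
  obtain ⟨i₀, hi₀⟩ : ∃ i₀, i₀ = Nat.find hex := ⟨_, rfl⟩
  have h3 : (1 / 4 : ℝ) ^ i₀ ≤ q := by
    rw [hi₀]
    exact Nat.find_spec hex
  have h4 : i₀ ≤ n := by
    rw [hi₀]
    exact Nat.find_min' hex h1
  have h5 : i₀ ≠ 0 := by
    rintro h0
    rw [h0, pow_zero] at h3
    linarith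
  obtain ⟨i, rfl⟩ : ∃ i, i₀ = i + 1 := ⟨i₀ - 1, by omega⟩
  have h6 : q < (1 / 4 : ℝ) ^ i := by
    by_contra hcon
    have : i + 1 ≤ i := by
      conv_lhs => rw [hi₀]
      exact Nat.find_min' hex (not_lt.1 hcon)
    omega
  refine ⟨i, Finset.mem_range.2 (by omega), ?_⟩
  have h7 : ((1 / 2 : ℝ) ^ (i + 1)) ^ 2 = (1 / 4 : ℝ) ^ (i + 1) := by
    rw [← pow_mul, mul_comm, pow_mul]
    norm_num
  rw [h7]
  have h8 : (0 : ℝ) < (1 / 4 : ℝ) ^ (i + 1) := by positivity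
  have h9 : (1 / 4 : ℝ) ^ i = 4 * (1 / 4 : ℝ) ^ (i + 1) := by
    rw [pow_succ]
    ring
  rw [h9] at h6
  generalize (1 / 4 : ℝ) ^ (i + 1) = σ at *
  have hqpos : 0 < q := lt_of_lt_of_le h8 h3
  rw [div_le_div_iff₀ (by norm_num) (by positivity)]
  nlinarith [mul_nonneg (sub_nonneg.2 h3) (sub_nonneg.2 h6.le)]

theorem SM_meas {ρ : ℝ} {Y : ℂ → ℂ} (hY : Leaf X r ρ Y) {t a : ℝ} (ht : t < ρ) :
    MeasurableSet {p : ℂ × ℂ | a < ‖p.1‖ ∧ ‖p.1‖ ≤ t ∧ p.2 = Y p.1} := by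
  have h1 : IsCompact ((fun z : ℂ => (z, Y z)) '' Metric.closedBall 0 t) := by
    refine (isCompact_closedBall 0 t).image_of_continuousOn ?_
    exact continuousOn_id.prodMk (hY.hol.continuousOn.mono (Metric.closedBall_subset_ball ht))
  have h2 : {p : ℂ × ℂ | a < ‖p.1‖ ∧ ‖p.1‖ ≤ t ∧ p.2 = Y p.1} =
      {p : ℂ × ℂ | a < ‖p.1‖} ∩ ((fun z : ℂ => (z, Y z)) '' Metric.closedBall 0 t) := by
    ext ⟨z, w⟩
    constructor
    · rintro ⟨h3, h4, h5⟩
      exact ⟨h3, z, by simpa using h4, by rw [show w = Y z from h5]⟩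
    · rintro ⟨h3, z', h4, h5⟩
      rw [Prod.mk.injEq] at h5
      obtain ⟨rfl, rfl⟩ := h5
      exact ⟨h3, by simpa using h4, rfl⟩
  rw [h2]
  exact (isOpen_lt continuous_const (continuous_fst.norm)).measurableSet.inter h1.isClosed.measurableSet

theorem SM_final {Λ c' m₀ cP t₁ : ℝ} (hΛ : 1 < Λ) (hc : 0 < c') (hm₀ : 0 ≤ m₀) (hcP : 0 < cP)
    (ht₁ : 0 < t₁) {m k : ℕ} (hm : 1 ≤ m)
    (H : ∀ J n : ℕ, (1 / 4 : ℝ) ^ n ≤ cP * (t₁ / Λ ^ J) ^ (2 * m) →
      (J : ℝ) * ((m : ℝ) ^ 2 * c' / 800) ≤ n * (k * m₀)) :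
    c' * Real.log 2 / (800 * (m₀ + 1) * Real.log Λ) * m ≤ k := by
  have hL : 0 < Real.log Λ := Real.log_pos hΛ
  have h2 : 0 < Real.log 2 := Real.log_pos (by norm_num)
  have h4 : Real.log 4 = 2 * Real.log 2 := by
    rw [show (4 : ℝ) = 2 ^ 2 by norm_num, Real.log_pow]
    norm_num
  have hmr : (0 : ℝ) < m := by exact_mod_cast hm
  obtain ⟨b, hb⟩ : ∃ b : ℝ, b = |(-(2 * m * Real.log t₁) - Real.log cP) / Real.log 4| := ⟨_, rfl⟩
  have hb0 : 0 ≤ b := by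
    rw [hb]
    exact abs_nonneg _
  have key : ∀ J : ℕ, (J : ℝ) * ((m : ℝ) ^ 2 * c' / 800) ≤
      ((J : ℝ) * m * (Real.log Λ / Real.log 2) + b + 2) * (k * m₀) := by
    intro J
    have hy0 : 0 ≤ (J : ℝ) * m * (Real.log Λ / Real.log 2) + b := by positivity
    have h5 := H J (⌈(J : ℝ) * m * (Real.log Λ / Real.log 2) + b⌉₊ + 1) ?_
    · refine h5.trans (mul_le_mul_of_nonneg_right ?_ (by positivity))
      have h6 := Nat.ceil_lt_add_one hy0
      push_cast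
      linarith
    · have h6 : (J : ℝ) * m * (Real.log Λ / Real.log 2) + b ≤
          (⌈(J : ℝ) * m * (Real.log Λ / Real.log 2) + b⌉₊ : ℝ) := Nat.le_ceil _
      have hpos : 0 < cP * (t₁ / Λ ^ J) ^ (2 * m) := by
        have : 0 < Λ := by linarith
        positivity
      rw [← Real.log_le_log_iff (by positivity) hpos]
      have hΛ0 : Λ ≠ 0 := by linarith
      rw [Real.log_mul hcP.ne' (by positivity), Real.log_pow, Real.log_pow,
        Real.log_div ht₁.ne' (by positivity), Real.log_pow, one_div, Real.log_inv]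
      push_cast
      have h7 : -(2 * m * Real.log t₁) - Real.log cP ≤ b * Real.log 4 := by
        rw [hb]
        have h8 : (0 : ℝ) < Real.log 4 := by
          rw [h4]
          linarith
        calc -(2 * m * Real.log t₁) - Real.log cP
            = ((-(2 * m * Real.log t₁) - Real.log cP) / Real.log 4) * Real.log 4 := by
              field_simp
          _ ≤ _ := mul_le_mul_of_nonneg_right (le_abs_self _) h8.le
      have h9 : (J : ℝ) * m * (Real.log Λ / Real.log 2) * Real.log 4 = 2 * m * (J * Real.log Λ) := by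
        rw [h4]
        field_simp
      have h10 : ((J : ℝ) * m * (Real.log Λ / Real.log 2) + b) * Real.log 4 ≤
          (⌈(J : ℝ) * m * (Real.log Λ / Real.log 2) + b⌉₊ : ℝ) * Real.log 4 := by
        refine mul_le_mul_of_nonneg_right h6 ?_
        rw [h4]
        linarith
      have h11 : 0 < Real.log 4 := by
        rw [h4]
        linarith
      nlinarith
  have hmain : (m : ℝ) ^ 2 * c' / 800 ≤ m * (Real.log Λ / Real.log 2) * (k * m₀) := by
    by_contra hcon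
    push Not at hcon
    obtain ⟨J, hJ⟩ := exists_nat_gt ((b + 2) * (k * m₀) /
      ((m : ℝ) ^ 2 * c' / 800 - m * (Real.log Λ / Real.log 2) * (k * m₀)))
    rw [div_lt_iff₀ (by linarith)] at hJ
    have h5 := key J
    nlinarith
  have h6 : (m : ℝ) * (c' / 800) ≤ (Real.log Λ / Real.log 2) * (k * m₀) := by
    have h7 : (m : ℝ) * ((m : ℝ) * (c' / 800)) ≤ m * ((Real.log Λ / Real.log 2) * (k * m₀)) := by
      calc (m : ℝ) * ((m : ℝ) * (c' / 800)) = (m : ℝ) ^ 2 * c' / 800 := by ring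
        _ ≤ _ := hmain
        _ = _ := by ring
    exact le_of_mul_le_mul_left h7 hmr
  have h8 : (Real.log Λ / Real.log 2) * (k * m₀) ≤ (Real.log Λ / Real.log 2) * (k * (m₀ + 1)) := by
    refine mul_le_mul_of_nonneg_left ?_ (by positivity)
    refine mul_le_mul_of_nonneg_left (by linarith) (by positivity)
  have h9 : (m : ℝ) * (c' / 800) ≤ (Real.log Λ / Real.log 2) * (k * (m₀ + 1)) := h6.trans h8
  have h10 : c' * Real.log 2 / (800 * (m₀ + 1) * Real.log Λ) * m =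
      ((m : ℝ) * (c' / 800)) * (Real.log 2 / (Real.log Λ * (m₀ + 1))) := by
    have : m₀ + 1 ≠ 0 := by linarith
    field_simp
  rw [h10]
  have h11 : 0 ≤ Real.log 2 / (Real.log Λ * (m₀ + 1)) := by positivity
  calc ((m : ℝ) * (c' / 800)) * (Real.log 2 / (Real.log Λ * (m₀ + 1)))
      ≤ ((Real.log Λ / Real.log 2) * (k * (m₀ + 1))) * (Real.log 2 / (Real.log Λ * (m₀ + 1))) :=
        mul_le_mul_of_nonneg_right h9 h11
    _ = k := by
      have : m₀ + 1 ≠ 0 := by linarith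
      field_simp

theorem order_le (h : Chart 𝓕 μ y₀ X c₀ r M) (hμ : Harm 𝓕 μ) {ρ : ℝ} {Y : ℂ → ℂ}
    (hY : Leaf X r ρ Y) (Λ c' t₀ : ℝ) (hΛ : 1 < Λ) (hc : 0 < c') (ht : 0 < t₀) (htρ : t₀ < ρ)
    (hA : ∀ t : ℝ, 0 < t → t ≤ t₀ →
      c' * t ^ 2 ≤ (M {p : ℂ × ℂ | t / Λ < ‖p.1‖ ∧ ‖p.1‖ ≤ t ∧ p.2 = Y p.1}).toReal) :
    ∃ κ : ℝ, 0 < κ ∧ ∀ (k : ℕ) (P : MvPolynomial (Fin 3) ℂ), P.IsHomogeneous k →
      ∀ (m : ℕ), 1 ≤ m → ∀ f : ℂ → ℂ, AnalyticAt ℂ f 0 → f 0 ≠ 0 →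
        (∀ᶠ z in 𝓝 (0 : ℂ), MvPolynomial.eval (𝓕.psi y₀ (z, Y z)) P = z ^ m * f z) →
        κ * m ≤ k := by
  classical
  have hMfin := h.fin
  have hμfin := hμ.fin
  obtain ⟨m₀, hm₀⟩ : ∃ m₀ : ℝ, m₀ = (μ Set.univ).toReal := ⟨_, rfl⟩
  have hm₀0 : 0 ≤ m₀ := by
    rw [hm₀]
    exact ENNReal.toReal_nonneg
  have hL : 0 < Real.log Λ := Real.log_pos hΛ
  have h2 : 0 < Real.log 2 := Real.log_pos (by norm_num)
  have hΛ0 : 0 < Λ := by linarith
  refine ⟨c' * Real.log 2 / (800 * (m₀ + 1) * Real.log Λ), by positivity, ?_⟩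
  intro k P hP m hm f hf hf0 hfP
  obtain ⟨rP, cP, CP, hrP, hrPρ, hcP, hCP, hlow⟩ := leaf_lower h hY k P m hm f hf hf0 hfP
  -- the radius
  obtain ⟨t₁, ht₁, ht₁0, ht₁r, ht₁1, ht₁C⟩ : ∃ t₁ : ℝ, 0 < t₁ ∧ t₁ ≤ t₀ ∧ t₁ < rP ∧ t₁ < 1 ∧
      CP * t₁ ^ (2 * m) < 1 := by
    obtain ⟨a, ha⟩ : ∃ a : ℝ, a = 1 / (CP + 1) := ⟨_, rfl⟩
    have ha0 : 0 < a := by
      rw [ha]
      positivity
    have ht : 0 < min (min t₀ (rP / 2)) (min (1 / 2) a) :=
      lt_min (lt_min ht (by positivity)) (lt_min (by norm_num) ha0)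
    obtain ⟨t, htt⟩ : ∃ t : ℝ, t = min (min t₀ (rP / 2)) (min (1 / 2) a) := ⟨_, rfl⟩
    rw [← htt] at ht
    have h3 : t ≤ t₀ := by
      rw [htt]
      exact (min_le_left _ _).trans (min_le_left _ _)
    have h4 : t ≤ rP / 2 := by
      rw [htt]
      exact (min_le_left _ _).trans (min_le_right _ _)
    have h5 : t ≤ 1 / 2 := by
      rw [htt]
      exact (min_le_right _ _).trans (min_le_left _ _)
    have h6 : t ≤ a := by
      rw [htt]
      exact (min_le_right _ _).trans (min_le_right _ _)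
    refine ⟨t, ht, h3, by linarith, by linarith, ?_⟩
    have h7 : t ^ (2 * m) ≤ t := by
      calc t ^ (2 * m) ≤ t ^ 1 := pow_le_pow_of_le_one ht.le (by linarith) (by omega)
        _ = t := pow_one t
    calc CP * t ^ (2 * m) ≤ CP * a := mul_le_mul_of_nonneg_left (h7.trans h6) hCP.le
      _ < 1 := by
        rw [ha, mul_one_div, div_lt_one (by positivity)]
        linarith
  apply SM_final hΛ hc hm₀0 hcP ht₁ hm
  intro J n hn
  -- the annuli
  obtain ⟨τ, hτ⟩ : ∃ τ : ℕ → ℝ, ∀ j, τ j = t₁ / Λ ^ j := ⟨_, fun _ => rfl⟩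
  have hτ0 : ∀ j, 0 < τ j := fun j => by
    rw [hτ]
    positivity
  have hτanti : ∀ i j, i ≤ j → τ j ≤ τ i := by
    intro i j hij
    rw [hτ, hτ]
    exact div_le_div_of_nonneg_left ht₁.le (by positivity) (pow_le_pow_right₀ hΛ.le hij)
  have hτ1 : ∀ j, τ j ≤ t₁ := by
    intro j
    have := hτanti 0 j (Nat.zero_le j)
    rwa [hτ 0, pow_zero, div_one] at this
  have hτs : ∀ j, τ j / Λ = τ (j + 1) := by
    intro j
    rw [hτ, hτ, pow_succ, div_div]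
  obtain ⟨A, hAd⟩ : ∃ A : ℕ → Set (ℂ × ℂ), ∀ j, A j =
      {p : ℂ × ℂ | τ j / Λ < ‖p.1‖ ∧ ‖p.1‖ ≤ τ j ∧ p.2 = Y p.1} := ⟨_, fun _ => rfl⟩
  have hAmem : ∀ j p, p ∈ A j ↔ τ j / Λ < ‖p.1‖ ∧ ‖p.1‖ ≤ τ j ∧ p.2 = Y p.1 := by
    intro j p
    rw [hAd]
    rfl
  have hAmeas : ∀ j, MeasurableSet (A j) := by
    intro j
    rw [hAd]
    exact SM_meas hY (by linarith [hτ1 j])
  have hAmass : ∀ j, ENNReal.ofReal (c' * τ j ^ 2) ≤ M (A j) := by
    intro j
    have h3 := hA (τ j) (hτ0 j) ((hτ1 j).trans ht₁0)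
    rw [← hAd j] at h3
    calc ENNReal.ofReal (c' * τ j ^ 2) ≤ ENNReal.ofReal (M (A j)).toReal := ENNReal.ofReal_le_ofReal h3
      _ = M (A j) := ENNReal.ofReal_toReal (measure_ne_top M (A j))
  have hAdisj : Set.PairwiseDisjoint (Finset.range J : Set ℕ) A := by
    have h3 : ∀ i j, i < j → Disjoint (A i) (A j) := by
      intro i j hij
      rw [Set.disjoint_left]
      intro p hp hp'
      rw [hAmem] at hp hp'
      have h4 := hτanti (i + 1) j hij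
      rw [← hτs i] at h4
      linarith [hp.1, hp'.2.1]
    intro i _ j _ hij
    rcases lt_or_gt_of_ne hij with h4 | h4
    · exact h3 i j h4
    · exact (h3 j i h4).symm
  obtain ⟨B, hB⟩ : ∃ B : Set (ℂ × ℂ), B = ⋃ j ∈ Finset.range J, A j := ⟨_, rfl⟩
  have hBmeas : MeasurableSet B := by
    rw [hB]
    exact Finset.measurableSet_biUnion _ fun j _ => hAmeas j
  have hBp : ∀ p ∈ B, 0 < ‖p.1‖ ∧ t₁ / Λ ^ J < ‖p.1‖ ∧ ‖p.1‖ ≤ t₁ ∧ p.2 = Y p.1 := by
    intro p hp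
    rw [hB] at hp
    obtain ⟨j, hj, hpj⟩ := Set.mem_iUnion₂.1 hp
    rw [hAmem] at hpj
    have h3 : τ J ≤ τ j / Λ := by
      rw [hτs]
      exact hτanti _ _ (Finset.mem_range.1 hj)
    rw [hτ J] at h3
    have h4 : 0 < t₁ / Λ ^ J := by positivity
    exact ⟨by linarith [hpj.1], by linarith [hpj.1], hpj.2.1.trans (hτ1 j), hpj.2.2⟩
  have hBr : B ⊆ Metric.ball 0 r := by
    intro p hp
    obtain ⟨h3, -, h4, h5⟩ := hBp p hp
    have h6 : p = (p.1, Y p.1) := by rw [← h5]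
    rw [h6]
    exact hY.mem p.1 (by rw [mem_ball_zero_iff]; linarith)
  -- the function q
  obtain ⟨q, hq⟩ : ∃ q : ℂ × ℂ → ℝ, ∀ p, q p = Complex.normSq (MvPolynomial.eval (𝓕.psi y₀ p) P) *
        Real.exp (- ((k : ℝ) * Real.log (nsq (𝓕.psi y₀ p)))) := ⟨_, fun _ => rfl⟩
  have hqm : Measurable q := by
    have h3 : Continuous q := by
      have h4 : q = fun p => Complex.normSq (MvPolynomial.eval (𝓕.psi y₀ p) P) *
        Real.exp (- ((k : ℝ) * Real.log (nsq (𝓕.psi y₀ p)))) := funext hq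
      rw [h4]
      exact (Complex.continuous_normSq.comp (SM_Q 𝓕 y₀ P).continuous).mul
        (Real.continuous_exp.comp (SM_phi h k).continuous.neg)
    exact h3.measurable
  obtain ⟨G, hG⟩ : ∃ G : ℕ → ℂ × ℂ → ENNReal, ∀ i p, G i p =
      ENNReal.ofReal (((1 / 2 : ℝ) ^ (i + 1)) ^ 2 * q p / (q p + ((1 / 2 : ℝ) ^ (i + 1)) ^ 2) ^ 2 *
        ((m : ℝ) ^ 2 / (32 * ‖p.1‖ ^ 2))) := ⟨_, fun _ _ => rfl⟩
  have hGm : ∀ i, Measurable (G i) := by
    intro i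
    have h3 : G i = fun p => ENNReal.ofReal (((1 / 2 : ℝ) ^ (i + 1)) ^ 2 * q p /
        (q p + ((1 / 2 : ℝ) ^ (i + 1)) ^ 2) ^ 2 * ((m : ℝ) ^ 2 / (32 * ‖p.1‖ ^ 2))) := funext (hG i)
    rw [h3]
    have h4 : Measurable (fun p : ℂ × ℂ => ‖p.1‖) := measurable_fst.norm
    exact (((measurable_const.mul hqm).div ((hqm.add measurable_const).pow_const 2)).mul
      (measurable_const.div (measurable_const.mul (h4.pow_const 2)))).ennreal_ofReal
  -- upper bound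
  have hup : ∀ i, ∫⁻ p in B, G i p ∂M ≤ ENNReal.ofReal (k * m₀) := by
    intro i
    have h3 : (0 : ℝ) < (1 / 2 : ℝ) ^ (i + 1) := by positivity
    have h4 := global_ineq h hμ k P hP ((1 / 2 : ℝ) ^ (i + 1)) h3 B hBmeas hBr
    rw [← hm₀] at h4
    refine le_trans (setLIntegral_mono' hBmeas fun p hp => ?_) h4
    obtain ⟨h5, -, h6, h7⟩ := hBp p hp
    have h8 : p = (p.1, Y p.1) := by rw [← h7]
    obtain ⟨h9, h10, -, -⟩ := hlow p.1 h5 (by linarith)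
    rw [← h8] at h9 h10
    rw [hG, hq]
    exact ENNReal.ofReal_le_ofReal (SM_pointwise h k P m h3 p h9 h10)
  -- lower bound
  have hlo : ∀ p ∈ B, ENNReal.ofReal ((m : ℝ) ^ 2 / (800 * ‖p.1‖ ^ 2)) ≤
      ∑ i ∈ Finset.range n, G i p := by
    intro p hp
    obtain ⟨h5, h5', h6, h7⟩ := hBp p hp
    have h8 : p = (p.1, Y p.1) := by rw [← h7]
    obtain ⟨-, -, h11, h12⟩ := hlow p.1 h5 (by linarith)
    rw [← h8, ← hq] at h11 h12
    have h13 : (1 / 4 : ℝ) ^ n ≤ q p := by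
      refine hn.trans (le_trans ?_ h11)
      refine mul_le_mul_of_nonneg_left ?_ hcP.le
      exact pow_le_pow_left₀ (by positivity) h5'.le _
    have h14 : q p < 1 := by
      refine lt_of_le_of_lt h12 (lt_of_le_of_lt ?_ ht₁C)
      refine mul_le_mul_of_nonneg_left ?_ hCP.le
      exact pow_le_pow_left₀ h5.le h6 _
    obtain ⟨i, hi, hi2⟩ := SM_dyadic h13 h14
    refine le_trans ?_ (Finset.single_le_sum (f := fun i => G i p) (fun _ _ => zero_le) hi)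
    rw [hG]
    refine ENNReal.ofReal_le_ofReal ?_
    have h15 : (m : ℝ) ^ 2 / (800 * ‖p.1‖ ^ 2) = 1 / 25 * ((m : ℝ) ^ 2 / (32 * ‖p.1‖ ^ 2)) := by
      field_simp
      ring
    rw [h15]
    exact mul_le_mul_of_nonneg_right hi2 (by positivity)
  have hsum : ∫⁻ p in B, ENNReal.ofReal ((m : ℝ) ^ 2 / (800 * ‖p.1‖ ^ 2)) ∂M ≤
      ENNReal.ofReal (n * (k * m₀)) := by
    calc ∫⁻ p in B, ENNReal.ofReal ((m : ℝ) ^ 2 / (800 * ‖p.1‖ ^ 2)) ∂M
        ≤ ∫⁻ p in B, ∑ i ∈ Finset.range n, G i p ∂M := setLIntegral_mono' hBmeas hlo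
      _ = ∑ i ∈ Finset.range n, ∫⁻ p in B, G i p ∂M :=
          lintegral_finsetSum _ fun i _ => hGm i
      _ ≤ ∑ _i ∈ Finset.range n, ENNReal.ofReal (k * m₀) := Finset.sum_le_sum fun i _ => hup i
      _ = ENNReal.ofReal (n * (k * m₀)) := by
          rw [Finset.sum_const, Finset.card_range, nsmul_eq_mul,
            ENNReal.ofReal_mul (Nat.cast_nonneg n), ENNReal.ofReal_natCast]
  have hsum2 : ENNReal.ofReal ((J : ℝ) * ((m : ℝ) ^ 2 * c' / 800)) ≤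
      ∫⁻ p in B, ENNReal.ofReal ((m : ℝ) ^ 2 / (800 * ‖p.1‖ ^ 2)) ∂M := by
    have h3 : ∀ j, ENNReal.ofReal ((m : ℝ) ^ 2 * c' / 800) ≤
        ∫⁻ p in A j, ENNReal.ofReal ((m : ℝ) ^ 2 / (800 * ‖p.1‖ ^ 2)) ∂M := by
      intro j
      calc ENNReal.ofReal ((m : ℝ) ^ 2 * c' / 800)
          = ENNReal.ofReal ((m : ℝ) ^ 2 / (800 * τ j ^ 2)) * ENNReal.ofReal (c' * τ j ^ 2) := by
            rw [← ENNReal.ofReal_mul (by positivity)]
            congr 1
            have := (hτ0 j).ne'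
            field_simp
        _ ≤ ENNReal.ofReal ((m : ℝ) ^ 2 / (800 * τ j ^ 2)) * M (A j) := by
            gcongr
            exact hAmass j
        _ = ∫⁻ p in A j, ENNReal.ofReal ((m : ℝ) ^ 2 / (800 * τ j ^ 2)) ∂M := by
            rw [setLIntegral_const]
        _ ≤ _ := by
            refine setLIntegral_mono' (hAmeas j) fun p hp => ?_
            rw [hAmem] at hp
            have h4 : 0 < ‖p.1‖ := by
              have h5 : 0 < τ j / Λ := div_pos (hτ0 j) hΛ0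
              linarith [hp.1]
            refine ENNReal.ofReal_le_ofReal ?_
            refine div_le_div_of_nonneg_left (by positivity) (by positivity) ?_
            refine mul_le_mul_of_nonneg_left ?_ (by norm_num)
            exact pow_le_pow_left₀ h4.le hp.2.1 2
    rw [hB, lintegral_biUnion_finset hAdisj fun j _ => hAmeas j]
    calc ENNReal.ofReal ((J : ℝ) * ((m : ℝ) ^ 2 * c' / 800))
        = ∑ _j ∈ Finset.range J, ENNReal.ofReal ((m : ℝ) ^ 2 * c' / 800) := by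
          rw [Finset.sum_const, Finset.card_range, nsmul_eq_mul,
            ENNReal.ofReal_mul (Nat.cast_nonneg J), ENNReal.ofReal_natCast]
      _ ≤ _ := Finset.sum_le_sum fun j _ => h3 j
  have hfin := hsum2.trans hsum
  rwa [ENNReal.ofReal_le_ofReal_iff (by positivity)] at hfin

end Pool.Agent.H24.CU

end S_H24_CU_SM

section S_H24_CU_SA

/-!
# Row SA (annuli on the leaf)

PROOF.  `Γ t = {p | ‖p.1‖ <= t ∧ p.2 = Y p.1}`.  Lower bound `M (Γ t) >= c t^2` for `t < b₀`; upper bound: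
`|Y z| <= K |z|` for small `z` (`Y` holomorphic at `0`, `Y 0 = 0`: difference quotient bounded near `0`), so
`Γ t ⊆ ball 0 ((K + 2) t)` and `M (Γ t) <= C (K+2)^2 t^2` for small `t` (`hmass`).
Choose `Λ > 1` with `C (K+2)^2 / Λ^2 <= c/2`.  Then
`M (Γ t \ Γ (t/Λ)) >= c t^2 - C (K+2)^2 t^2/Λ^2 >= (c/2) t^2`.
-/

namespace Pool.Agent.H24.CU

open MeasureTheory

theorem annulus_mass {X : ℂ × ℂ → ℂ × ℂ} {r ρ : ℝ} {M : Measure (ℂ × ℂ)} [IsFiniteMeasure M]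
    {Y : ℂ → ℂ} (hY : Leaf X r ρ Y) (C r' : ℝ) (hC : 0 < C) (hr' : 0 < r')
    (hmass : ∀ s : ℝ, 0 < s → s < r' → (M (Metric.ball 0 s)).toReal ≤ C * s ^ 2)
    (c b₀ : ℝ) (hc : 0 < c) (hb : 0 < b₀) (hbρ : b₀ < ρ)
    (hp : ∀ b : ℝ, 0 < b → b < b₀ →
      c * b ^ 2 ≤ (M {p : ℂ × ℂ | ‖p.1‖ ≤ b ∧ p.2 = Y p.1}).toReal) :
    ∃ Λ c' t₀ : ℝ, 1 < Λ ∧ 0 < c' ∧ 0 < t₀ ∧ t₀ < b₀ ∧ ∀ t : ℝ, 0 < t → t ≤ t₀ →
      c' * t ^ 2 ≤ (M {p : ℂ × ℂ | t / Λ < ‖p.1‖ ∧ ‖p.1‖ ≤ t ∧ p.2 = Y p.1}).toReal := by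
  have hd : DifferentiableAt ℂ Y 0 :=
    hY.hol.differentiableAt (Metric.ball_mem_nhds 0 hY.pos)
  have hO := hd.hasFDerivAt.isBigO_sub
  obtain ⟨K, hK, hKO⟩ := hO.exists_nonneg
  rw [Asymptotics.isBigOWith_iff, Metric.eventually_nhds_iff] at hKO
  obtain ⟨δ, hδ, hKδ⟩ := hKO
  have hKz : ∀ z : ℂ, ‖z‖ < δ → ‖Y z‖ ≤ K * ‖z‖ := by
    intro z hz
    have := hKδ (y := z) (by simpa [dist_eq_norm] using hz)
    simpa [hY.zero] using this
  set Q : ℝ := C * (K + 2) ^ 2 with hQ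
  have hQ0 : 0 < Q := by positivity
  set Λ : ℝ := 1 + 2 * Q / c with hΛ
  have hΛ1 : 1 < Λ := by
    have : 0 < 2 * Q / c := by positivity
    linarith
  have hΛ0 : 0 < Λ := by linarith
  have hΛ2 : Q / Λ ^ 2 ≤ c / 2 := by
    rw [div_le_iff₀ (by positivity)]
    have h1 : Λ ≤ Λ ^ 2 := by nlinarith
    have h2 : 2 * Q / c ≤ Λ ^ 2 := by linarith
    have h3 : 2 * Q ≤ Λ ^ 2 * c := by rwa [div_le_iff₀ hc] at h2
    linarith
  set t₀ : ℝ := min (b₀ / 2) (min (δ / 2) (r' / (K + 2) / 2)) with ht₀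
  have hK2 : 0 < K + 2 := by linarith
  have ht₀0 : 0 < t₀ := by
    refine lt_min (by positivity) (lt_min (by positivity) (by positivity))
  have ht₀b : t₀ < b₀ := lt_of_le_of_lt (min_le_left _ _) (by linarith)
  have ht₀δ : t₀ < δ := lt_of_le_of_lt ((min_le_right _ _).trans (min_le_left _ _)) (by linarith)
  have ht₀r : (K + 2) * t₀ < r' := by
    have h1 : t₀ ≤ r' / (K + 2) / 2 := (min_le_right _ _).trans (min_le_right _ _)
    have h2 : (K + 2) * t₀ ≤ (K + 2) * (r' / (K + 2) / 2) := by gcongr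
    have h3 : (K + 2) * (r' / (K + 2) / 2) = r' / 2 := by field_simp
    linarith
  have hup : ∀ s : ℝ, 0 < s → s ≤ t₀ →
      (M {p : ℂ × ℂ | ‖p.1‖ ≤ s ∧ p.2 = Y p.1}).toReal ≤ Q * s ^ 2 := by
    intro s hs hst
    have hsub : {p : ℂ × ℂ | ‖p.1‖ ≤ s ∧ p.2 = Y p.1} ⊆ Metric.ball 0 ((K + 2) * s) := by
      rintro ⟨z, w⟩ ⟨h1, h2⟩
      simp only at h1 h2
      subst h2
      rw [mem_ball_zero_iff, Prod.norm_def, max_lt_iff]
      constructor
      · simp only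
        nlinarith
      · simp only
        have h3 := hKz z (by linarith)
        have h4 : K * ‖z‖ ≤ K * s := by gcongr
        nlinarith
    have h5 := hmass ((K + 2) * s) (by positivity) (by
      have : (K + 2) * s ≤ (K + 2) * t₀ := by gcongr
      linarith)
    have h6 : (M {p : ℂ × ℂ | ‖p.1‖ ≤ s ∧ p.2 = Y p.1}).toReal ≤
        (M (Metric.ball 0 ((K + 2) * s))).toReal :=
      ENNReal.toReal_mono (measure_ne_top _ _) (measure_mono hsub)
    calc _ ≤ _ := h6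
      _ ≤ C * ((K + 2) * s) ^ 2 := h5
      _ = Q * s ^ 2 := by rw [hQ]; ring
  refine ⟨Λ, c / 2, t₀, hΛ1, by positivity, ht₀0, ht₀b, ?_⟩
  intro t ht htt
  have hlow := hp t ht (by linarith)
  have htΛ : 0 < t / Λ := by positivity
  have htΛt : t / Λ ≤ t := div_le_self ht.le hΛ1.le
  have hupp := hup (t / Λ) htΛ (htΛt.trans htt)
  have hcov : {p : ℂ × ℂ | ‖p.1‖ ≤ t ∧ p.2 = Y p.1} ⊆
      {p : ℂ × ℂ | ‖p.1‖ ≤ t / Λ ∧ p.2 = Y p.1} ∪
        {p : ℂ × ℂ | t / Λ < ‖p.1‖ ∧ ‖p.1‖ ≤ t ∧ p.2 = Y p.1} := by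
    rintro p ⟨h1, h2⟩
    by_cases h : ‖p.1‖ ≤ t / Λ
    · exact Or.inl ⟨h, h2⟩
    · exact Or.inr ⟨not_le.1 h, h1, h2⟩
  have h7 : (M {p : ℂ × ℂ | ‖p.1‖ ≤ t ∧ p.2 = Y p.1}).toReal ≤
      (M {p : ℂ × ℂ | ‖p.1‖ ≤ t / Λ ∧ p.2 = Y p.1}).toReal +
        (M {p : ℂ × ℂ | t / Λ < ‖p.1‖ ∧ ‖p.1‖ ≤ t ∧ p.2 = Y p.1}).toReal := by
    rw [← ENNReal.toReal_add (measure_ne_top _ _) (measure_ne_top _ _)]
    exact ENNReal.toReal_mono (by finiteness) ((measure_mono hcov).trans (measure_union_le _ _))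
  have h8 : Q * (t / Λ) ^ 2 ≤ c / 2 * t ^ 2 := by
    have : Q * (t / Λ) ^ 2 = Q / Λ ^ 2 * t ^ 2 := by
      field_simp
    rw [this]
    gcongr
  linarith

end Pool.Agent.H24.CU

end S_H24_CU_SA

section S_H24_CU_B1

/-!
# Row B1 (a positive Lelong number at the origin charges the leaf)

PROOF.  `K, r₂` of `exists_test`, `C, r'` of `Loc.mass`; `Tube a b = {p | ‖p.1‖ <= b ∧ ‖p.2 - Y p.1‖ <= a}`
(closed in `{‖p.1‖ < ρ}`; measurable: `Y` is continuous on the closed disc of radius `2 r₂`; intersect with it).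
Let `b <= r₂` small, `s` small with `ν s^2 <= M(ball 0 s)`, `b' = s`, `a = 2 (1 + K) s` (`a <= r₂`, `b' <= b/2`).
(i) `ball 0 s ⊆ {‖p.1‖ <= b/2, ‖p.2 - Y p.1‖ <= a/2}` (`|Y p.1| <= K s`), and there
`b'^2/(normSq p.1 + b'^2)^2 >= 1/(4 s^2)`.
(ii) for `b' <= t <= b`: `Tube a b ∩ {‖p.1‖ <= t} ⊆ ball 0 (a + (K+2) t)` and `a <= 2(1+K) t`, so its mass is
`<= C (3K+4)^2 t^2 = C' t^2` if `(3K+4) b < r'`.  By `tube_integral`,
`∫_{Tube a b} 1/(‖p.1‖+b') dM <= 9 C' b`.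
(iii) `0 = ∫ levi G p (X p) dM = ∫_{Tube a b}`; on `ball 0 s` use the first lower bound, on the rest of
`{‖p.1‖ <= b/2, ‖W‖ <= a/2}` also (the main term is `>= 0`), elsewhere the second:
`0 >= (1/(8 s^2)) M (ball 0 s) - (K/b^2) M (Tube a b) - K ∫_{Tube a b} 1/(‖p.1‖+b') dM`
`>= ν/8 - (K/b^2) M (Tube a b) - 9 K C' b`  (`levi G` is bounded/continuous with compact support, so all
is integrable).  Hence `M (Tube a b) >= (b^2/K)(ν/8 - 9 K C' b) >= (ν/(16 K)) b^2` for `b <= b₀`.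
(iv) this holds for arbitrarily small `s`, i.e. for a sequence `a → 0`; the sets `Tube a b` decrease to
`{‖p.1‖ <= b, p.2 = Y p.1}`, so (continuity from above, `M` finite) its mass is `>= (ν/(16K)) b^2`.
-/

namespace Pool.Agent.H24.CU

open MeasureTheory Filter
open scoped Topology ContDiff

private theorem B1_levi_cont {G : ℂ × ℂ → ℝ} (hG : ContDiff ℝ ∞ G) {X : ℂ × ℂ → ℂ × ℂ}
    (hX : Continuous X) : Continuous (fun p => levi G p (X p)) := by
  have hG2 : ContDiff ℝ 2 G := by exact_mod_cast contDiff_infty.mp hG 2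
  have h1 : ∀ p v : ℂ × ℂ, fderiv ℝ (fun q => fderiv ℝ G q v) p v =
      fderiv ℝ (fderiv ℝ G) p v v := fun p v => LC_app hG2.contDiffAt v v
  have h2 : Continuous (fderiv ℝ (fderiv ℝ G)) := by
    have h3 : ContDiff ℝ 1 (fderiv ℝ G) := hG2.fderiv_right (m := 1) (by norm_num)
    exact h3.continuous_fderiv one_ne_zero
  have h4 : (fun p => levi G p (X p)) = fun p =>
      (fderiv ℝ (fderiv ℝ G) p (X p) (X p) +
        fderiv ℝ (fderiv ℝ G) p (Complex.I • X p) (Complex.I • X p)) / 4 := by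
    funext p
    unfold levi
    rw [h1, h1]
  rw [h4]
  have h5 : Continuous (fun p => Complex.I • X p) := by fun_prop
  exact (((h2.clm_apply hX).clm_apply hX).add ((h2.clm_apply h5).clm_apply h5)).div_const 4

private theorem B1_levi_supp {G : ℂ × ℂ → ℝ} (hG : HasCompactSupport G) {X : ℂ × ℂ → ℂ × ℂ} :
    HasCompactSupport (fun p => levi G p (X p)) := by
  refine HasCompactSupport.of_support_subset_isCompact (K := tsupport G) hG ?_
  intro p hp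
  by_contra hp2
  apply hp
  have h1 : G =ᶠ[𝓝 p] fun _ => (0 : ℝ) := notMem_tsupport_iff_eventuallyEq.mp hp2
  show levi G p (X p) = 0
  rw [levi_congr h1, levi_const]

private theorem B1_tube_closed {Y : ℂ → ℂ} {ρ a b : ℝ}
    (hY : DifferentiableOn ℂ Y (Metric.ball 0 ρ)) (hb : b < ρ) :
    IsClosed {p : ℂ × ℂ | ‖p.1‖ ≤ b ∧ ‖p.2 - Y p.1‖ ≤ a} := by
  have h1 : IsClosed {p : ℂ × ℂ | ‖p.1‖ ≤ b} := isClosed_le (by fun_prop) (by fun_prop)
  have h2 : ContinuousOn (fun p : ℂ × ℂ => ‖p.2 - Y p.1‖) {p : ℂ × ℂ | ‖p.1‖ ≤ b} := by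
    have h3 : ContinuousOn (fun p : ℂ × ℂ => Y p.1) {p : ℂ × ℂ | ‖p.1‖ ≤ b} := by
      refine hY.continuousOn.comp continuous_fst.continuousOn ?_
      intro p hp
      rw [mem_ball_zero_iff]
      exact lt_of_le_of_lt hp hb
    exact (continuous_snd.continuousOn.sub h3).norm
  exact h2.preimage_isClosed_of_isClosed h1 (isClosed_Iic (a := a))

private theorem B1_tube_mass {M : Measure (ℂ × ℂ)} {Y : ℂ → ℂ}
    [IsFiniteMeasure M] {K r₂ C r' s b : ℝ} (hK : 1 ≤ K) (hs : 0 < s)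
    (hb2 : b ≤ r₂) (hr₂ : 0 < r₂)
    (hYK : ∀ z : ℂ, ‖z‖ ≤ 2 * r₂ → ‖Y z‖ ≤ K * ‖z‖)
    (hC2 : ∀ s : ℝ, 0 < s → s < r' → (M (Metric.ball 0 s)).toReal ≤ C * s ^ 2)
    (hbr : (3 * K + 4) * b < r') (t : ℝ) (hst : s ≤ t) (htb : t ≤ b) :
    (M ({p : ℂ × ℂ | ‖p.1‖ ≤ b ∧ ‖p.2 - Y p.1‖ ≤ 2 * (1 + K) * s} ∩
      {p | ‖p.1‖ ≤ t})).toReal ≤ (C * (3 * K + 4) ^ 2) * t ^ 2 := by
  have ht : 0 < t := lt_of_lt_of_le hs hst
  have h1 : ({p : ℂ × ℂ | ‖p.1‖ ≤ b ∧ ‖p.2 - Y p.1‖ ≤ 2 * (1 + K) * s} ∩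
      {p | ‖p.1‖ ≤ t}) ⊆ Metric.ball 0 ((3 * K + 4) * t) := by
    rintro p ⟨⟨hp1, hp2⟩, hp3⟩
    have hp3' : ‖p.1‖ ≤ t := hp3
    rw [mem_ball_zero_iff, Prod.norm_def, max_lt_iff]
    have h2 := hYK p.1 (by linarith)
    have h3 : ‖p.2‖ ≤ ‖p.2 - Y p.1‖ + ‖Y p.1‖ := by
      have := norm_add_le (p.2 - Y p.1) (Y p.1)
      simpa using this
    have h4 : K * ‖p.1‖ ≤ K * t := mul_le_mul_of_nonneg_left hp3' (by linarith)
    have h5 : K * s ≤ K * t := mul_le_mul_of_nonneg_left hst (by linarith)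
    have h6 : 0 < K * t := by positivity
    constructor
    · nlinarith
    · nlinarith
  have h7 : (3 * K + 4) * t < r' := by
    have : (3 * K + 4) * t ≤ (3 * K + 4) * b := mul_le_mul_of_nonneg_left htb (by linarith)
    linarith
  have h8 := hC2 ((3 * K + 4) * t) (by positivity) h7
  have h9 : (M ({p : ℂ × ℂ | ‖p.1‖ ≤ b ∧ ‖p.2 - Y p.1‖ ≤ 2 * (1 + K) * s} ∩
      {p | ‖p.1‖ ≤ t})).toReal ≤ (M (Metric.ball 0 ((3 * K + 4) * t))).toReal :=
    ENNReal.toReal_mono (measure_ne_top _ _) (measure_mono h1)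
  calc _ ≤ _ := h9
    _ ≤ _ := h8
    _ = _ := by ring

private theorem B1_step {X : ℂ × ℂ → ℂ × ℂ} {r ρ : ℝ} {M : Measure (ℂ × ℂ)} {Y : ℂ → ℂ}
    (h : Loc X r M) (hY : Leaf X r ρ Y) {ν K r₂ C r' s b : ℝ} (hν : 0 < ν)
    (hK : 1 ≤ K) (hC : 0 < C) (hs : 0 < s)
    (hb2 : b ≤ r₂) (hr₂ : 0 < r₂) (hr₂ρ : 2 * r₂ < ρ)
    (hYK : ∀ z : ℂ, ‖z‖ ≤ 2 * r₂ → ‖Y z‖ ≤ K * ‖z‖)
    (htest : ∀ a b b' : ℝ, 0 < a → a ≤ r₂ → 0 < b' → b' ≤ b / 2 → b ≤ r₂ →
        ∃ G : ℂ × ℂ → ℝ, ContDiff ℝ ∞ G ∧ HasCompactSupport G ∧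
          tsupport G ⊆ Metric.ball 0 r ∧
          (∀ p : ℂ × ℂ, ‖p.1‖ ≤ b / 2 → ‖p.2 - Y p.1‖ ≤ a / 2 →
            1 / 2 * (b' ^ 2 / (Complex.normSq p.1 + b' ^ 2) ^ 2) - K / (‖p.1‖ + b') ≤
              levi G p (X p)) ∧
          (∀ p : ℂ × ℂ, ‖p.1‖ ≤ b → ‖p.2 - Y p.1‖ ≤ a →
            - (K / b ^ 2) - K / (‖p.1‖ + b') ≤ levi G p (X p)) ∧
          (∀ p : ℂ × ℂ, ¬ (‖p.1‖ ≤ b ∧ ‖p.2 - Y p.1‖ ≤ a) → levi G p (X p) = 0))
    (hC2 : ∀ s : ℝ, 0 < s → s < r' → (M (Metric.ball 0 s)).toReal ≤ C * s ^ 2)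
    (hbr : (3 * K + 4) * b < r') (hb : 0 < b)
    (hbν : 144 * K * (C * (3 * K + 4) ^ 2) * b ≤ ν)
    (hsb : s ≤ b / 2) (hsa : 2 * (1 + K) * s ≤ r₂)
    (hsν : ν * s ^ 2 ≤ (M (Metric.ball 0 s)).toReal) :
    ν / (16 * K) * b ^ 2 ≤
      (M {p : ℂ × ℂ | ‖p.1‖ ≤ b ∧ ‖p.2 - Y p.1‖ ≤ 2 * (1 + K) * s}).toReal := by
  have := h.fin
  obtain ⟨G, hG, hGc, hGr, hG1, hG2, hG3⟩ :=
    htest (2 * (1 + K) * s) b s (by positivity) hsa hs hsb hb2
  have hXc : Continuous X := h.hol.continuous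
  have hcont := B1_levi_cont hG hXc
  have hint : Integrable (fun p => levi G p (X p)) M :=
    hcont.integrable_of_hasCompactSupport (B1_levi_supp hGc)
  have hzero := h.harm G hG hGc hGr
  set T : Set (ℂ × ℂ) := {p : ℂ × ℂ | ‖p.1‖ ≤ b ∧ ‖p.2 - Y p.1‖ ≤ 2 * (1 + K) * s} with hT
  have hbρ : b < ρ := by linarith
  have hTm : MeasurableSet T := (B1_tube_closed hY.hol hbρ).measurableSet
  have hball : Metric.ball (0 : ℂ × ℂ) s ⊆
      {p : ℂ × ℂ | ‖p.1‖ ≤ b / 2 ∧ ‖p.2 - Y p.1‖ ≤ 2 * (1 + K) * s / 2} := by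
    intro p hp
    rw [mem_ball_zero_iff, Prod.norm_def, max_lt_iff] at hp
    have h2 := hYK p.1 (by linarith [hp.1])
    have h3 : ‖p.2 - Y p.1‖ ≤ ‖p.2‖ + ‖Y p.1‖ := norm_sub_le _ _
    have h4 : K * ‖p.1‖ ≤ K * s := mul_le_mul_of_nonneg_left hp.1.le (by linarith)
    refine ⟨by linarith [hp.1], ?_⟩
    have h5 := hp.2
    nlinarith
  have hballT : Metric.ball (0 : ℂ × ℂ) s ⊆ T := by
    intro p hp
    have h2 := hball hp
    refine ⟨?_, ?_⟩
    · have := h2.1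
      linarith
    · have h3 := h2.2
      have h4 : 0 < 2 * (1 + K) * s := by positivity
      linarith
  have hres : ∫ p in T, levi G p (X p) ∂M = 0 := by
    rw [← hzero]
    refine setIntegral_eq_integral_of_forall_compl_eq_zero ?_
    intro p hp
    exact hG3 p hp
  -- the lower bound function
  have hI1 : Integrable ((Metric.ball (0 : ℂ × ℂ) s).indicator (fun _ => 1 / (8 * s ^ 2))) M :=
    (integrable_const _).indicator Metric.isOpen_ball.measurableSet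
  have hcont2 : Continuous (fun p : ℂ × ℂ => 1 / (‖p.1‖ + s)) := by
    refine continuous_const.div (by fun_prop) ?_
    intro p
    have := norm_nonneg p.1
    positivity
  have hI2 : Integrable (fun p : ℂ × ℂ => 1 / (‖p.1‖ + s)) M := by
    refine Integrable.of_bound hcont2.aestronglyMeasurable (1 / s) ?_
    refine Filter.Eventually.of_forall fun p => ?_
    have h1 := norm_nonneg p.1
    rw [Real.norm_of_nonneg (by positivity)]
    exact one_div_le_one_div_of_le hs (by linarith)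
  have hI3 : Integrable (fun _ : ℂ × ℂ => K / b ^ 2) M := integrable_const _
  have hle : ∫ p in T, ((Metric.ball (0 : ℂ × ℂ) s).indicator (fun _ => 1 / (8 * s ^ 2)) p -
      K / b ^ 2 - K * (1 / (‖p.1‖ + s))) ∂M ≤ ∫ p in T, levi G p (X p) ∂M := by
    refine setIntegral_mono_on ?_ hint.integrableOn hTm ?_
    · exact ((hI1.sub hI3).sub (hI2.const_mul K)).integrableOn
    · intro p hp
      have hn := norm_nonneg p.1
      have hd : 0 < ‖p.1‖ + s := by positivity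
      have he : K * (1 / (‖p.1‖ + s)) = K / (‖p.1‖ + s) := by ring
      rw [he]
      by_cases hp2 : p ∈ Metric.ball (0 : ℂ × ℂ) s
      · rw [Set.indicator_of_mem hp2]
        have h1 := hball hp2
        have h2 := hG1 p h1.1 h1.2
        rw [mem_ball_zero_iff, Prod.norm_def, max_lt_iff] at hp2
        have h3 : Complex.normSq p.1 ≤ s ^ 2 := by
          rw [Complex.normSq_eq_norm_sq]
          exact pow_le_pow_left₀ hn hp2.1.le 2
        have h4 : 0 ≤ Complex.normSq p.1 := Complex.normSq_nonneg _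
        have h5 : 1 / (8 * s ^ 2) ≤ 1 / 2 * (s ^ 2 / (Complex.normSq p.1 + s ^ 2) ^ 2) := by
          have h6 : (Complex.normSq p.1 + s ^ 2) ^ 2 ≤ (2 * s ^ 2) ^ 2 :=
            pow_le_pow_left₀ (by positivity) (by linarith) 2
          have h7 : s ^ 2 / (2 * s ^ 2) ^ 2 ≤ s ^ 2 / (Complex.normSq p.1 + s ^ 2) ^ 2 :=
            div_le_div_of_nonneg_left (by positivity) (by positivity) h6
          have h8 : 1 / (8 * s ^ 2) = 1 / 2 * (s ^ 2 / (2 * s ^ 2) ^ 2) := by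
            field_simp
            ring
          rw [h8]
          linarith
        have h9 : 0 ≤ K / b ^ 2 := by positivity
        linarith
      · rw [Set.indicator_of_notMem hp2]
        have h2 := hG2 p hp.1 hp.2
        linarith
  rw [hres] at hle
  have hsplit : ∫ p in T, ((Metric.ball (0 : ℂ × ℂ) s).indicator (fun _ => 1 / (8 * s ^ 2)) p -
      K / b ^ 2 - K * (1 / (‖p.1‖ + s))) ∂M =
      (M (Metric.ball (0 : ℂ × ℂ) s)).toReal * (1 / (8 * s ^ 2)) -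
        (M T).toReal * (K / b ^ 2) - K * ∫ p in T, (1 / (‖p.1‖ + s)) ∂M := by
    have e1 : ∫ p in T, ((Metric.ball (0 : ℂ × ℂ) s).indicator (fun _ => 1 / (8 * s ^ 2)) p -
        K / b ^ 2 - K * (1 / (‖p.1‖ + s))) ∂M =
        (∫ p in T, ((Metric.ball (0 : ℂ × ℂ) s).indicator (fun _ => 1 / (8 * s ^ 2)) p -
        K / b ^ 2) ∂M) - ∫ p in T, K * (1 / (‖p.1‖ + s)) ∂M :=
      integral_sub (hI1.sub hI3).integrableOn (hI2.const_mul K).integrableOn
    have e2 : ∫ p in T, ((Metric.ball (0 : ℂ × ℂ) s).indicator (fun _ => 1 / (8 * s ^ 2)) p -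
        K / b ^ 2) ∂M = (∫ p in T, (Metric.ball (0 : ℂ × ℂ) s).indicator
          (fun _ => 1 / (8 * s ^ 2)) p ∂M) - ∫ _ in T, K / b ^ 2 ∂M :=
      integral_sub hI1.integrableOn hI3.integrableOn
    rw [e1, e2, integral_const_mul, setIntegral_const,
      setIntegral_indicator Metric.isOpen_ball.measurableSet, setIntegral_const,
      Set.inter_eq_right.mpr hballT]
    simp only [smul_eq_mul, measureReal_def]
  have hti : ∫ p in T, (1 / (‖p.1‖ + s)) ∂M ≤ 9 * (C * (3 * K + 4) ^ 2) * b := by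
    have h1 := tube_integral M T hTm (C * (3 * K + 4) ^ 2) b s (by positivity) hs (by linarith)
      (fun t ht1 ht2 => B1_tube_mass hK hs hb2 hr₂ hYK hC2 hbr t ht1 ht2)
    have h2 : T ∩ {p | ‖p.1‖ ≤ b} = T := by
      rw [Set.inter_eq_left]
      intro p hp
      exact hp.1
    rwa [h2] at h1
  rw [hsplit] at hle
  have h1 : ν / 8 ≤ (M (Metric.ball (0 : ℂ × ℂ) s)).toReal * (1 / (8 * s ^ 2)) := by
    have h2 : ν / 8 = (ν * s ^ 2) * (1 / (8 * s ^ 2)) := by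
      field_simp
    rw [h2]
    exact mul_le_mul_of_nonneg_right hsν (by positivity)
  have h3 : K * ∫ p in T, (1 / (‖p.1‖ + s)) ∂M ≤ ν / 16 := by
    have h4 : K * ∫ p in T, (1 / (‖p.1‖ + s)) ∂M ≤ K * (9 * (C * (3 * K + 4) ^ 2) * b) :=
      mul_le_mul_of_nonneg_left hti (by linarith)
    have h5 : K * (9 * (C * (3 * K + 4) ^ 2) * b) =
        (144 * K * (C * (3 * K + 4) ^ 2) * b) / 16 := by ring
    linarith
  have h6 : ν / 16 ≤ (M T).toReal * (K / b ^ 2) := by linarith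
  have h7 : ν / (16 * K) * b ^ 2 = (ν / 16) * (b ^ 2 / K) := by
    field_simp
  have h8 : (M T).toReal = ((M T).toReal * (K / b ^ 2)) * (b ^ 2 / K) := by
    have hK0 : K ≠ 0 := by linarith
    field_simp
  rw [h7, h8]
  exact mul_le_mul_of_nonneg_right h6 (by positivity)

theorem plaque_mass {X : ℂ × ℂ → ℂ × ℂ} {r ρ : ℝ} {M : Measure (ℂ × ℂ)} {Y : ℂ → ℂ}
    (h : Loc X r M) (hY : Leaf X r ρ Y) (ν : ℝ) (hν : 0 < ν)
    (hf : ∃ᶠ s in 𝓝[>] (0 : ℝ), ν * s ^ 2 ≤ (M (Metric.ball 0 s)).toReal) :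
    ∃ c b₀ : ℝ, 0 < c ∧ 0 < b₀ ∧ b₀ < ρ ∧ ∀ b : ℝ, 0 < b → b < b₀ →
      c * b ^ 2 ≤ (M {p : ℂ × ℂ | ‖p.1‖ ≤ b ∧ p.2 = Y p.1}).toReal := by
  have := h.fin
  obtain ⟨K, r₂, hK, hr₂, hr₂ρ, hYK, -, htest⟩ := exists_test h.hol h.zero h.r_pos hY
  obtain ⟨C, r', hC, hr', -, hC2⟩ := h.mass
  have hD : 0 < 144 * K * (C * (3 * K + 4) ^ 2) := by positivity
  refine ⟨ν / (16 * K), min r₂ (min (r' / (3 * K + 4)) (ν / (144 * K * (C * (3 * K + 4) ^ 2)))),
    by positivity, ?_, ?_, ?_⟩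
  · refine lt_min hr₂ (lt_min ?_ ?_)
    · positivity
    · positivity
  · exact lt_of_le_of_lt (min_le_left _ _) (by linarith)
  intro b hb hb0
  have hb1 : b < r₂ := lt_of_lt_of_le hb0 (min_le_left _ _)
  have hb2 : b < r' / (3 * K + 4) :=
    lt_of_lt_of_le hb0 ((min_le_right _ _).trans (min_le_left _ _))
  have hb3 : b < ν / (144 * K * (C * (3 * K + 4) ^ 2)) :=
    lt_of_lt_of_le hb0 ((min_le_right _ _).trans (min_le_right _ _))
  have hbr : (3 * K + 4) * b < r' := by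
    rw [lt_div_iff₀ (by positivity)] at hb2
    linarith
  have hbν : 144 * K * (C * (3 * K + 4) ^ 2) * b ≤ ν := by
    rw [lt_div_iff₀ hD] at hb3
    linarith
  have hbρ : b < ρ := by linarith
  -- every tube has the mass
  have hkey : ∀ a : ℝ, 0 < a → ν / (16 * K) * b ^ 2 ≤
      (M {p : ℂ × ℂ | ‖p.1‖ ≤ b ∧ ‖p.2 - Y p.1‖ ≤ a}).toReal := by
    intro a ha
    have hδ : 0 < min (b / 2) (min (r₂ / (2 * (1 + K))) (a / (2 * (1 + K)))) := by
      refine lt_min (by positivity) (lt_min (by positivity) (by positivity))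
    have hev : ∀ᶠ s in 𝓝[>] (0 : ℝ), 0 < s ∧
        s < min (b / 2) (min (r₂ / (2 * (1 + K))) (a / (2 * (1 + K)))) := by
      filter_upwards [Ioo_mem_nhdsGT hδ] with s hs
      exact hs
    obtain ⟨s, hs1, hs2, hs3⟩ := (hf.and_eventually hev).exists
    have hs4 : s < b / 2 := lt_of_lt_of_le hs3 (min_le_left _ _)
    have hs5 : s < r₂ / (2 * (1 + K)) :=
      lt_of_lt_of_le hs3 ((min_le_right _ _).trans (min_le_left _ _))
    have hs6 : s < a / (2 * (1 + K)) :=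
      lt_of_lt_of_le hs3 ((min_le_right _ _).trans (min_le_right _ _))
    have hs7 : 2 * (1 + K) * s ≤ r₂ := by
      rw [lt_div_iff₀ (by positivity)] at hs5
      linarith
    have hs8 : 2 * (1 + K) * s ≤ a := by
      rw [lt_div_iff₀ (by positivity)] at hs6
      linarith
    have h1 := B1_step h hY hν hK hC hs2 hb1.le hr₂ hr₂ρ hYK htest hC2 hbr hb hbν hs4.le hs7 hs1
    refine h1.trans ?_
    refine ENNReal.toReal_mono (measure_ne_top _ _) (measure_mono ?_)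
    rintro p ⟨hp1, hp2⟩
    exact ⟨hp1, hp2.trans hs8⟩
  -- continuity from above
  have hanti : Antitone (fun n : ℕ =>
      {p : ℂ × ℂ | ‖p.1‖ ≤ b ∧ ‖p.2 - Y p.1‖ ≤ 1 / ((n : ℝ) + 1)}) := by
    intro m n hmn p hp
    refine ⟨hp.1, hp.2.trans ?_⟩
    exact one_div_le_one_div_of_le (by positivity) (by exact_mod_cast Nat.succ_le_succ hmn)
  have hinter : (⋂ n : ℕ, {p : ℂ × ℂ | ‖p.1‖ ≤ b ∧ ‖p.2 - Y p.1‖ ≤ 1 / ((n : ℝ) + 1)}) =
      {p : ℂ × ℂ | ‖p.1‖ ≤ b ∧ p.2 = Y p.1} := by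
    ext p
    simp only [Set.mem_iInter, Set.mem_ofPred_eq]
    constructor
    · intro hp
      refine ⟨(hp 0).1, ?_⟩
      have h1 : ‖p.2 - Y p.1‖ ≤ 0 :=
        ge_of_tendsto' tendsto_one_div_add_atTop_nhds_zero_nat fun n => (hp n).2
      exact sub_eq_zero.mp (norm_le_zero_iff.mp h1)
    · rintro ⟨hp1, hp2⟩ n
      refine ⟨hp1, ?_⟩
      rw [hp2, sub_self, norm_zero]
      positivity
  have hlim := tendsto_measure_iInter_atTop (μ := M) (s := fun n : ℕ =>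
      {p : ℂ × ℂ | ‖p.1‖ ≤ b ∧ ‖p.2 - Y p.1‖ ≤ 1 / ((n : ℝ) + 1)})
      (fun n => ((B1_tube_closed hY.hol hbρ).measurableSet).nullMeasurableSet) hanti
      ⟨0, measure_ne_top _ _⟩
  rw [hinter] at hlim
  have hlim2 := (ENNReal.tendsto_toReal (measure_ne_top M _)).comp hlim
  refine ge_of_tendsto' hlim2 fun n => ?_
  exact hkey (1 / ((n : ℝ) + 1)) (by positivity)

end Pool.Agent.H24.CU

end S_H24_CU_B1

section S_H24_CU_LZ

/-!
# Row LZ (zero Lelong numbers off the singular set)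

PROOF.  Suppose not: there is `ν₁ > 0` with `ν₁ s^2 <= μ {tau y₀ y < s^2}` frequently as `s → 0+`
(the ratio is `>= 0`).  Chart at `y₀` (`exists_chart`, `Chart.loc`), `cone_of_tau` and `Chart.compare`:
`μ {tau < s^2} <= μ (cone (ball 0 (K s))) <= C M (ball 0 (K s))` for small `s` (`μ` is carried by the sphere),
so `ν s^2 <= M (ball 0 s)` frequently, `ν = ν₁/(C K^2)` (rescale `s`).
`exists_leaf`, `plaque_mass`, `Loc.mass`, `annulus_mass`, `order_le`: `κ > 0`.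
Choose `l` with `(l+1)^2 > m := ⌊2 l/κ⌋ + 1` (possible for large `l`), so `κ m > 2 l`.
`γ z = psi (z, Y z)` is analytic at `0` (`Y` is holomorphic near `0`).  `P` from `exists_poly_vanishing`
(degree `2 l`), `a z = eval (γ z) P` analytic at `0`, with `iteratedDeriv i a 0 = 0` for `i < m`.
Case 1: `a` is not eventually `0` at `0`: `a z = z^m' f z` near `0`, `f` analytic, `f 0 ≠ 0`
(`AnalyticAt.exists_eventuallyEq_pow_smul_nonzero_iff` or `analyticOrderAt`), and `m' >= m` because the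
derivatives of order `< m` vanish (if `m' < m` then `iteratedDeriv m' a 0 = m'! f 0 ≠ 0`), `m' >= 1`; `order_le`:
`κ m' <= 2 l < κ m <= κ m'`, a contradiction.
Case 2: `a = 0` near `0`: for small `b` the set `Γ b = {‖p.1‖ <= b, p.2 = Y p.1}` satisfies
`cone (Γ b) ⊆ {P = 0}` (homogeneity: `eval (t • psi p) P = t^(2l) eval (psi p) P`), and
`μ (cone (Γ b)) >= c₁ M (Γ b) > 0` (`Chart.compare`, `plaque_mass`), contradicting `hcurve`.
-/

namespace Pool.Agent.H24.CU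

open MeasureTheory Filter
open scoped Topology

private theorem LZ_eval (P : MvPolynomial (Fin 3) ℂ) (n : ℕ) (hP : P.IsHomogeneous n) (c : ℂ)
    (x : V) : MvPolynomial.eval (c • x) P = c ^ n * MvPolynomial.eval x P := by
  rw [MvPolynomial.eval_eq', MvPolynomial.eval_eq', Finset.mul_sum]
  refine Finset.sum_congr rfl fun d hd => ?_
  have h1 := hP (MvPolynomial.mem_support_iff.1 hd)
  have h2 : ∑ i, d i = n := by
    rw [← h1, Finsupp.weight_apply, Finsupp.sum_fintype _ _ (by simp)]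
    simp
  have h3 : ∏ i, (c • x) i ^ d i = c ^ n * ∏ i, x i ^ d i := by
    rw [← h2, ← Finset.prod_pow_eq_pow_sum, ← Finset.prod_mul_distrib]
    refine Finset.prod_congr rfl fun i _ => ?_
    rw [Pi.smul_apply, smul_eq_mul, mul_pow]
  rw [h3]
  ring

theorem lelong_zero (𝓕 : Foliation) (μ : Measure V) (hμ : Harm 𝓕 μ)
    (hcurve : ∀ (n : ℕ) (P : MvPolynomial (Fin 3) ℂ), P.IsHomogeneous n → P ≠ 0 →
      μ {x | MvPolynomial.eval x P = 0} = 0)
    (y₀ : V) (h1 : nsq y₀ = 1) (h0 : 𝓕.alpha y₀ ≠ 0) :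
    Tendsto (fun s : ℝ => (μ {y | tau y₀ y < s ^ 2}).toReal / s ^ 2) (𝓝[>] 0) (𝓝 0) := by
  have := hμ.fin
  obtain ⟨X, c₀, r, M, hC⟩ := exists_chart 𝓕 μ y₀ h0
  have := hC.fin
  have hL := hC.loc hμ
  obtain ⟨K, s₀, hK, hs₀, hcone⟩ := cone_of_tau 𝓕 y₀ h1 h0
  obtain ⟨c, C, hc, hC0, hcomp⟩ := hC.compare
  have hr := hC.r_pos
  rw [Metric.tendsto_nhds]
  intro ε hε
  by_contra hcon
  rw [Filter.not_eventually] at hcon
  -- the lower bound for `M`
  have hfreq : ∃ᶠ s in 𝓝[>] (0 : ℝ), ε / (C * K ^ 2) * s ^ 2 ≤ (M (Metric.ball 0 s)).toReal := by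
    have ht : Tendsto (fun s : ℝ => K * s) (𝓝[>] 0) (𝓝[>] 0) := by
      refine tendsto_nhdsWithin_iff.2 ⟨?_, ?_⟩
      · have h2 : Tendsto (fun s : ℝ => K * s) (𝓝 0) (𝓝 (K * 0)) :=
          (continuous_const.mul continuous_id).tendsto 0
        rw [mul_zero] at h2
        exact h2.mono_left nhdsWithin_le_nhds
      · filter_upwards [self_mem_nhdsWithin] with s hs
        exact mul_pos hK hs
    refine ht.frequently (hcon.mp ?_)
    have he1 : ∀ᶠ s in 𝓝[>] (0 : ℝ), 0 < s := self_mem_nhdsWithin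
    have he2 : ∀ᶠ s in 𝓝[>] (0 : ℝ), s < s₀ :=
      nhdsWithin_le_nhds (Iio_mem_nhds hs₀)
    have he3 : ∀ᶠ s in 𝓝[>] (0 : ℝ), s < r / K :=
      nhdsWithin_le_nhds (Iio_mem_nhds (div_pos hr hK))
    filter_upwards [he1, he2, he3] with s hs1 hs2 hs3 hs4
    have hsK : K * s < r := by
      rw [lt_div_iff₀ hK] at hs3
      linarith
    have hμle : (μ {y | tau y₀ y < s ^ 2}).toReal ≤ C * (M (Metric.ball 0 (K * s))).toReal := by
      refine le_trans ?_ (hcomp (Metric.ball 0 (K * s)) Metric.isOpen_ball.measurableSet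
        (Metric.ball_subset_ball hsK.le)).2
      refine ENNReal.toReal_mono (measure_ne_top _ _) ?_
      have hsub : {y | tau y₀ y < s ^ 2} ⊆ 𝓕.cone y₀ (Metric.ball 0 (K * s)) ∪ {x | nsq x ≠ 1} := by
        intro y hy
        by_cases hy1 : nsq y = 1
        · exact Or.inl (hcone s hs1 hs2 y hy1 hy)
        · exact Or.inr hy1
      refine (measure_mono hsub).trans ((measure_union_le _ _).trans ?_)
      rw [hμ.sph, add_zero]
    rw [Real.dist_eq, sub_zero, not_lt, abs_of_nonneg (by positivity)] at hs4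
    have hs5 : ε * s ^ 2 ≤ (μ {y | tau y₀ y < s ^ 2}).toReal := by
      rwa [le_div_iff₀ (by positivity)] at hs4
    have hs6 : ε / (C * K ^ 2) * (K * s) ^ 2 = ε * s ^ 2 / C := by
      field_simp
    rw [hs6, div_le_iff₀ hC0]
    linarith
  obtain ⟨ρ, Y, hY⟩ := exists_leaf X hC.hol hC.zero r hC.r_pos
  obtain ⟨c₂, b₀, hc₂, hb₀, hb₀ρ, hpl⟩ := plaque_mass hL hY _ (by positivity) hfreq
  obtain ⟨C₃, r', hC₃, hr', hr'r, hmass⟩ := hL.mass
  obtain ⟨Λ, c', t₀, hΛ, hc', ht₀, ht₀b, hann⟩ :=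
    annulus_mass hY C₃ r' hC₃ hr' hmass c₂ b₀ hc₂ hb₀ hb₀ρ hpl
  obtain ⟨κ, hκ, hord⟩ := order_le hC hμ hY Λ c' t₀ hΛ hc' ht₀ (ht₀b.trans hb₀ρ) hann
  -- the numbers
  obtain ⟨l, hl⟩ : ∃ l : ℕ, l = ⌈2 / κ⌉₊ + 1 := ⟨_, rfl⟩
  have hlκ : 2 / κ ≤ l := by
    rw [hl]
    push_cast
    linarith [Nat.le_ceil (2 / κ)]
  obtain ⟨m, hm⟩ : ∃ m : ℕ, m = ⌊2 * (l : ℝ) / κ⌋₊ + 1 := ⟨_, rfl⟩
  have hm1 : 1 ≤ m := by omega
  have hκm : 2 * (l : ℝ) < κ * m := by
    have h2 := Nat.lt_floor_add_one (2 * (l : ℝ) / κ)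
    rw [div_lt_iff₀ hκ] at h2
    rw [hm]
    push_cast
    linarith
  have hml : m < (l + 1) ^ 2 := by
    have hl1 : (1 : ℝ) ≤ l := by
      rw [hl]
      push_cast
      linarith [Nat.cast_nonneg (α := ℝ) ⌈2 / κ⌉₊]
    have h2 : (m : ℝ) < ((l : ℝ) + 1) ^ 2 := by
      rw [hm]
      push_cast
      have h3 : (⌊2 * (l : ℝ) / κ⌋₊ : ℝ) ≤ 2 * (l : ℝ) / κ := Nat.floor_le (by positivity)
      have h4 : 2 * (l : ℝ) / κ = l * (2 / κ) := by ring
      have h5 : (l : ℝ) * (2 / κ) ≤ l * l := mul_le_mul_of_nonneg_left hlκ (by linarith)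
      nlinarith
    exact_mod_cast h2
  have hYa : AnalyticAt ℂ Y 0 := hY.hol.analyticAt (Metric.ball_mem_nhds 0 hY.pos)
  have hγ : AnalyticAt ℂ (fun z => 𝓕.psi y₀ (z, Y z)) 0 := by
    unfold Foliation.psi
    exact (analyticAt_const.add (analyticAt_id.smul analyticAt_const)).add
      (hYa.smul analyticAt_const)
  obtain ⟨P, hPh, hP0, hPd⟩ := exists_poly_vanishing _ hγ m l hml
  have ha : AnalyticAt ℂ (fun z => MvPolynomial.eval (𝓕.psi y₀ (z, Y z)) P) 0 := by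
    have h2 := AnalyticAt.aeval_mvPolynomial (𝕜 := ℂ) (B := ℂ) (f := fun z => 𝓕.psi y₀ (z, Y z))
      (z := (0 : ℂ)) (fun i => by
        exact ((ContinuousLinearMap.proj (R := ℂ) (φ := fun _ : Fin 3 => ℂ) i).analyticAt _).comp
          hγ) P
    exact h2
  by_cases hz : ∀ᶠ z in 𝓝 (0 : ℂ), MvPolynomial.eval (𝓕.psi y₀ (z, Y z)) P = 0
  · -- the leaf is contained in the curve `P = 0`
    obtain ⟨δ, hδ, hδz⟩ := Metric.eventually_nhds_iff.1 hz
    obtain ⟨b, hb⟩ : ∃ b : ℝ, b = min δ b₀ / 2 := ⟨_, rfl⟩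
    have hmin : 0 < min δ b₀ := lt_min hδ hb₀
    have hb0 : 0 < b := by rw [hb]; linarith
    have hbδ : b < δ := by
      rw [hb]
      linarith [min_le_left δ b₀]
    have hbb : b < b₀ := by
      rw [hb]
      linarith [min_le_right δ b₀]
    have hsub : Metric.closedBall (0 : ℂ) b ⊆ Metric.ball 0 ρ :=
      Metric.closedBall_subset_ball (hbb.trans hb₀ρ)
    have hΓ : {p : ℂ × ℂ | ‖p.1‖ ≤ b ∧ p.2 = Y p.1} =
        (fun z => (z, Y z)) '' Metric.closedBall (0 : ℂ) b := by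
      ext p
      constructor
      · rintro ⟨h2, h3⟩
        refine ⟨p.1, mem_closedBall_zero_iff.2 h2, ?_⟩
        show (p.1, Y p.1) = p
        rw [← h3]
      · rintro ⟨z, hz1, rfl⟩
        exact ⟨mem_closedBall_zero_iff.1 hz1, rfl⟩
    have hΓc : IsCompact {p : ℂ × ℂ | ‖p.1‖ ≤ b ∧ p.2 = Y p.1} := by
      rw [hΓ]
      exact (isCompact_closedBall _ _).image_of_continuousOn
        (continuousOn_id.prodMk (hY.hol.continuousOn.mono hsub))
    have hΓr : {p : ℂ × ℂ | ‖p.1‖ ≤ b ∧ p.2 = Y p.1} ⊆ Metric.ball 0 r := by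
      rw [hΓ]
      rintro _ ⟨z, hz1, rfl⟩
      exact hY.mem z (hsub hz1)
    have h2 := (hcomp _ hΓc.isClosed.measurableSet hΓr).1
    have h3 : μ (𝓕.cone y₀ {p : ℂ × ℂ | ‖p.1‖ ≤ b ∧ p.2 = Y p.1}) = 0 := by
      refine measure_mono_null ?_ (hcurve (2 * l) P hPh hP0)
      rintro y ⟨-, p, hp, t, -, rfl⟩
      show MvPolynomial.eval (t • 𝓕.psi y₀ p) P = 0
      have h4 : p = (p.1, Y p.1) := by
        rw [← hp.2]
      rw [LZ_eval P _ hPh, h4, hδz (by rw [dist_zero_right]; exact hp.1.trans_lt hbδ), mul_zero]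
    rw [h3, ENNReal.toReal_zero] at h2
    have h4 := hpl b hb0 hbb
    have h5 : 0 < c₂ * b ^ 2 := by positivity
    have h6 : 0 < c * (M {p : ℂ × ℂ | ‖p.1‖ ≤ b ∧ p.2 = Y p.1}).toReal :=
      mul_pos hc (h5.trans_le h4)
    linarith
  · obtain ⟨m', f, hf, hf0, hfe⟩ := ha.exists_eventuallyEq_pow_smul_nonzero_iff.2 hz
    have hm' : m ≤ m' := by
      have h2 := (natCast_le_analyticOrderAt_iff_iteratedDeriv_eq_zero ha).2 hPd
      have h3 := (ha.analyticOrderAt_eq_natCast (n := m')).2 ⟨f, hf, hf0, hfe⟩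
      rw [h3] at h2
      exact_mod_cast h2
    have h2 := hord (2 * l) P hPh m' (hm1.trans hm') f hf hf0 (by
      filter_upwards [hfe] with z hz1
      rw [hz1, sub_zero, smul_eq_mul])
    push_cast at h2
    have h3 : κ * m ≤ κ * m' := mul_le_mul_of_nonneg_left (by exact_mod_cast hm') hκ.le
    linarith

end Pool.Agent.H24.CU

end S_H24_CU_LZ

section S_H76_FL_SDefs

/-!
# Saddle-node block: standing data

Z = (x^m a, B), m >= 2, a(0) = a0 ≠ 0, B(0) = 0, tau = cf 0 1 B ≠ 0, x divides h.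
K is a radius such that on the closed polydisc {‖x‖ <= K, ‖y‖ <= K} (K < ρ):
 * ‖a - a0‖ <= ‖a0‖/100,
 * ‖B - tau y‖ <= Cb ‖x‖ + (‖tau‖/100) ‖y‖,
 * β := B/a satisfies ‖β(x,y) - β(x,y') - (tau/a0)(y - y')‖ <= (‖tau/a0‖/4) ‖y - y'‖.
-/

open MvPolynomial MeasureTheory
open scoped ContDiff

namespace FC76

structure SNData (m : ℕ) (a B h : P2) (ρ : ℝ) (M : Measure (ℂ × ℂ)) (K Cb : ℝ) : Prop where
  hρ : 0 < ρ
  hm : 2 ≤ m
  ha : ev a 0 ≠ 0
  hB : ev B 0 = 0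
  hτ : cf 0 1 B ≠ 0
  hh : X 0 ∣ h
  inv : Inv (X 0 ^ m * a) B h ρ M
  hK : 0 < K
  hKρ : K < ρ
  hK1 : K ≤ 1
  hCb : 0 ≤ Cb
  ha' : ∀ p : ℂ × ℂ, ‖p‖ ≤ K → ‖ev a p - ev a 0‖ ≤ ‖ev a 0‖ / 100
  hB' : ∀ p : ℂ × ℂ, ‖p‖ ≤ K → ‖ev B p - cf 0 1 B * p.2‖ ≤ Cb * ‖p.1‖ + ‖cf 0 1 B‖ / 100 * ‖p.2‖
  hβ : ∀ x y y' : ℂ, ‖x‖ ≤ K → ‖y‖ ≤ K → ‖y'‖ ≤ K →
    ‖ev B (x, y) / ev a (x, y) - ev B (x, y') / ev a (x, y') - cf 0 1 B / ev a 0 * (y - y')‖ ≤
      ‖cf 0 1 B / ev a 0‖ / 4 * ‖y - y'‖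

/-- the polydisc region 0 < ‖x‖ < R, ‖y‖ < 3K/4 -/
def Pset (R K : ℝ) : Set (ℂ × ℂ) := {p | 0 < ‖p.1‖ ∧ ‖p.1‖ < R ∧ ‖p.2‖ < 3 * K / 4}

/-- M does not charge the annular region K/2 <= ‖y‖ <= 3K/4 over the punctured disc of radius R -/
def AnnZero (M : Measure (ℂ × ℂ)) (R K : ℝ) : Prop :=
  M {p : ℂ × ℂ | 0 < ‖p.1‖ ∧ ‖p.1‖ < R ∧ K / 2 ≤ ‖p.2‖ ∧ ‖p.2‖ ≤ 3 * K / 4} = 0

end FC76

end S_H76_FL_SDefs

section S_H76_FL_S0

/-!
# Row S0: existence of K

Continuity of ev a at 0; B - tau y is a polynomial with zero constant term and zero coefficient of y: B - tau y = x b1 + y^2 b2 (b1, b2 polynomials), so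
‖B - tau y‖ <= Cb ‖x‖ + C ‖y‖^2 on the unit polydisc, and C K <= ‖tau‖/100.  β = B/a is analytic near 0 with ∂β/∂y(0) = tau/a0 (B(0) = 0), so
‖∂β/∂y - tau/a0‖ <= ‖tau/a0‖/4 for ‖x‖,‖y‖ <= K small; mean value inequality on the segment from y' to y (`Convex.norm_image_sub_le_of_norm_deriv_le` applied to
y ↦ β(x,y) - (tau/a0) y on the closed ball).
-/

open MvPolynomial MeasureTheory
open scoped ContDiff

namespace FC76

theorem S0_cf (B : P2) : ev (pderiv 1 B) 0 = cf 0 1 B := by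
  rw [ev_zero]
  have h1 : eval (0 : Fin 2 → ℂ) (pderiv 1 B) = constantCoeff (pderiv 1 B) := by
    rw [MvPolynomial.eval_zero]
  rw [h1, MvPolynomial.constantCoeff_eq, MvPolynomial.coeff_pderiv]
  simp [cf]

theorem S0_strict (B : P2) : HasStrictFDerivAt (ev B) (ev (pderiv 0 B) 0 • ContinuousLinearMap.fst ℂ ℂ ℂ +
      cf 0 1 B • ContinuousLinearMap.snd ℂ ℂ ℂ) (0 : ℂ × ℂ) := by
  have h1 := (analyticAt_ev B 0).hasStrictFDerivAt
  rw [(LA_hasFDerivAt B 0).fderiv, S0_cf] at h1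
  exact h1

theorem S0_quot (a B : P2) (ha : ev a 0 ≠ 0) (hB : ev B 0 = 0) :
    HasStrictFDerivAt (fun p => ev B p / ev a p) ((ev a 0)⁻¹ • (ev (pderiv 0 B) 0 • ContinuousLinearMap.fst ℂ ℂ ℂ +
      cf 0 1 B • ContinuousLinearMap.snd ℂ ℂ ℂ)) (0 : ℂ × ℂ) := by
  have han : AnalyticAt ℂ (fun p => ev B p / ev a p) (0 : ℂ × ℂ) :=
    (analyticAt_ev B 0).div (analyticAt_ev a 0) ha
  have h1 := han.hasStrictFDerivAt
  have h2 := han.differentiableAt.hasFDerivAt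
  have h3 := h2.mul (LA_hasFDerivAt a 0)
  have hne : ∀ᶠ p in nhds (0 : ℂ × ℂ), ev a p ≠ 0 :=
    (analyticAt_ev a 0).continuousAt.eventually_ne ha
  have h4 : HasFDerivAt (ev B) _ (0 : ℂ × ℂ) := h3.congr_of_eventuallyEq (by
    filter_upwards [hne] with p hp
    show ev B p = ev B p / ev a p * ev a p
    field_simp)
  have h5 := h4.unique (S0_strict B).hasFDerivAt
  rw [hB, zero_div] at h5
  have h6 : fderiv ℂ (fun p => ev B p / ev a p) 0 =
      (ev a 0)⁻¹ • (ev (pderiv 0 B) 0 • ContinuousLinearMap.fst ℂ ℂ ℂ +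
      cf 0 1 B • ContinuousLinearMap.snd ℂ ℂ ℂ) := by
    apply ContinuousLinearMap.ext
    intro v
    have h7 := DFunLike.congr_fun h5 v
    simp only [ContinuousLinearMap.add_apply, ContinuousLinearMap.smul_apply, smul_eq_mul, zero_mul,
      zero_add] at h7 ⊢
    rw [← h7]
    field_simp
  rw [← h6]
  exact h1

theorem S0_bound {f : ℂ × ℂ → ℂ} {f' : ℂ × ℂ →L[ℂ] ℂ} (h : HasStrictFDerivAt f f' 0) {ε : ℝ}
    (hε : 0 < ε) : ∃ δ : ℝ, 0 < δ ∧ ∀ p q : ℂ × ℂ, ‖p‖ < δ → ‖q‖ < δ →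
      ‖f p - f q - f' (p - q)‖ ≤ ε * ‖p - q‖ := by
  have h1 := h.isLittleO.def hε
  rw [nhds_prod_eq, Metric.nhds_basis_ball.prod_self.eventually_iff] at h1
  obtain ⟨δ, hδ, h2⟩ := h1
  refine ⟨δ, hδ, fun p q hp hq => ?_⟩
  have h3 : (p, q) ∈ Metric.ball (0 : ℂ × ℂ) δ ×ˢ Metric.ball (0 : ℂ × ℂ) δ := by
    constructor
    · simpa using hp
    · simpa using hq
  exact h2 h3

theorem sn_exists_K (m : ℕ) (a B h : P2) (ρ : ℝ) (M : Measure (ℂ × ℂ)) (hρ : 0 < ρ) (hm : 2 ≤ m)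
    (ha : eval 0 a ≠ 0) (hB : eval 0 B = 0) (hτ : cf 0 1 B ≠ 0) (hh : X 0 ∣ h)
    (hI : Inv (X 0 ^ m * a) B h ρ M) : ∃ K Cb : ℝ, SNData m a B h ρ M K Cb := by
  have ha' : ev a 0 ≠ 0 := by rw [ev_zero]; exact ha
  have hB' : ev B 0 = 0 := by rw [ev_zero]; exact hB
  have hτ0 : 0 < ‖cf 0 1 B‖ := norm_pos_iff.2 hτ
  have ha0 : 0 < ‖ev a 0‖ := norm_pos_iff.2 ha'
  have hq : 0 < ‖cf 0 1 B / ev a 0‖ := norm_pos_iff.2 (div_ne_zero hτ ha')
  obtain ⟨δ1, hδ1, h1⟩ := S0_bound (S0_strict B) (ε := ‖cf 0 1 B‖ / 100) (by positivity)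
  obtain ⟨δ2, hδ2, h2⟩ := S0_bound (S0_quot a B ha' hB') (ε := ‖cf 0 1 B / ev a 0‖ / 4)
    (by positivity)
  obtain ⟨δ3, hδ3, h3⟩ := Metric.continuousAt_iff.1 (analyticAt_ev a 0).continuousAt
    (‖ev a 0‖ / 100) (by positivity)
  obtain ⟨K, hK⟩ : ∃ K, K = min (min (δ1 / 2) (δ2 / 2)) (min (min (δ3 / 2) (ρ / 2)) 1) := ⟨_, rfl⟩
  have hK0 : 0 < K := by
    rw [hK]
    simp only [lt_min_iff]
    refine ⟨⟨?_, ?_⟩, ⟨?_, ?_⟩, ?_⟩ <;> linarith
  have k1 : K ≤ δ1 / 2 := by rw [hK]; exact (min_le_left _ _).trans (min_le_left _ _)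
  have k2 : K ≤ δ2 / 2 := by rw [hK]; exact (min_le_left _ _).trans (min_le_right _ _)
  have k3 : K ≤ δ3 / 2 := by
    rw [hK]; exact (min_le_right _ _).trans ((min_le_left _ _).trans (min_le_left _ _))
  have k4 : K ≤ ρ / 2 := by
    rw [hK]; exact (min_le_right _ _).trans ((min_le_left _ _).trans (min_le_right _ _))
  have k5 : K ≤ 1 := by rw [hK]; exact (min_le_right _ _).trans (min_le_right _ _)
  refine ⟨K, ‖ev (pderiv 0 B) 0‖ + ‖cf 0 1 B‖ / 100, ?_⟩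
  refine
    { hρ := hρ
      hm := hm
      ha := ha'
      hB := hB'
      hτ := hτ
      hh := hh
      inv := hI
      hK := hK0
      hKρ := by linarith
      hK1 := k5
      hCb := by positivity
      ha' := ?_
      hB' := ?_
      hβ := ?_ }
  · intro p hp
    have h4 := h3 (x := p) (by rw [dist_zero_right]; linarith)
    rw [dist_eq_norm] at h4
    exact h4.le
  · intro p hp
    have h4 := h1 p 0 (by linarith) (by rw [norm_zero]; exact hδ1)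
    rw [hB', sub_zero, sub_zero] at h4
    have e1 : (ev (pderiv 0 B) 0 • ContinuousLinearMap.fst ℂ ℂ ℂ +
      cf 0 1 B • ContinuousLinearMap.snd ℂ ℂ ℂ) p = ev (pderiv 0 B) 0 * p.1 + cf 0 1 B * p.2 := by
      simp
    rw [e1] at h4
    have e2 : ev B p - cf 0 1 B * p.2 =
        (ev B p - (ev (pderiv 0 B) 0 * p.1 + cf 0 1 B * p.2)) + ev (pderiv 0 B) 0 * p.1 := by ring
    rw [e2]
    have h5 : ‖p‖ ≤ ‖p.1‖ + ‖p.2‖ := by
      rw [Prod.norm_def]
      exact max_le (by linarith [norm_nonneg p.2]) (by linarith [norm_nonneg p.1])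
    have h6 := norm_add_le (ev B p - (ev (pderiv 0 B) 0 * p.1 + cf 0 1 B * p.2))
      (ev (pderiv 0 B) 0 * p.1)
    rw [norm_mul] at h6
    have h7 : ‖cf 0 1 B‖ / 100 * ‖p‖ ≤ ‖cf 0 1 B‖ / 100 * (‖p.1‖ + ‖p.2‖) :=
      mul_le_mul_of_nonneg_left h5 (by positivity)
    nlinarith
  · intro x y y' hx hy hy'
    have h4 := h2 (x, y) (x, y') (by rw [Prod.norm_def]; exact max_lt (by simp only; linarith) (by simp only; linarith))
      (by rw [Prod.norm_def]; exact max_lt (by simp only; linarith) (by simp only; linarith))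
    have e1 : ((ev a 0)⁻¹ • (ev (pderiv 0 B) 0 • ContinuousLinearMap.fst ℂ ℂ ℂ +
      cf 0 1 B • ContinuousLinearMap.snd ℂ ℂ ℂ)) ((x, y) - (x, y')) =
        cf 0 1 B / ev a 0 * (y - y') := by
      simp
      field_simp
    have e2 : ‖((x, y) - (x, y') : ℂ × ℂ)‖ = ‖y - y'‖ := by
      rw [Prod.norm_def]
      simp
    rw [e1, e2] at h4
    exact h4

end FC76

end S_H76_FL_S0
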