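import Mathlib
import Pool.Agent.H24.M68.G15

/-! MP_6873ef_an: this file joins several modules to save build time. -/

section S_H76_FL_S1

/-!
# Row S1: the wedge identity in the annulus

Data D : SNData.  Put φ(x) := -1/((m-1) x^(m-1)) (x ≠ 0): holomorphic, φ'(x) = x^(-m).  Let κ be a unit complex number, G : ℝ → ℝ smooth and bounded, with bounded derivative, with G = 0 on
(-oo, T0], where T0 := 1/((m-1) R^(m-1)) and 0 < R <= K/2... , Cb R <= ‖tau‖ K/400.  Let χ : ℝ → ℝ be smooth with support in [K/4, 9K/10].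
CLAIM:   ∫_{0<‖x‖<R} G'(Re(κ φ(x))) χ(‖y‖) Im( κ a(p) conj(B(p)/y) ) dM = 0.
Proof.  q := B/y, holomorphic for y ≠ 0.  For L >= 1 let ζ = ζ_L be the log cut-off of h (`exists_logCutoff`).  F(p) := G(Re κφ(x)) χ(‖y‖) ζ(p) if 0 < ‖x‖ < R (and then extended by 0).
F is smooth with compact support in dom h ρ: near x = 0 the factor ζ vanishes (x divides h, so ‖h‖ <= C‖x‖ is small); for ‖x‖ >= R we have |Re κφ| <= T0, G = 0 (G is flat at T0: G = 0 on (-oo,T0] and G smooth; F is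
smooth on x ≠ 0 as a composition, without restriction to ‖x‖ < R, and it vanishes for ‖x‖ >= R); support in {‖h‖ >= e^(-2L)}, K/4 <= ‖y‖ <= 9K/10, ‖x‖ <= R.
By `inv` applied to g = F conj(q):  0 = ∫ dW(F conj q)(Z) dM = ∫ conj(q) dW F(Z) dM (dW conj q = conj(dWb q) = 0).
dW F(Z) = ζ χ G'(.) * (κ φ'(x) x^m a)/2 + ζ G χ'(‖y‖) ‖y‖ q/2 + G χ dW ζ(Z):
  dW(Re κφ)(Z) = κ φ' dx(Z)/2 = κ a/2 (`dW_re`),   dW ‖y‖ (Z) = ‖y‖ dW(log‖y‖)(Z) = ‖y‖ (B/y)/2 (`dW_log_norm`).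
Multiply by conj q and take imaginary parts: the second term gives a real number. So
  0 = ∫ ζ_L χ G' Im(κ a conj q)/2 dM + ∫ Im(G χ conj(q) dW ζ_L(Z)) dM.
Let L -> oo: the set E := {0<‖x‖<R, K/4 <= ‖y‖ <= 9K/10} has M(E) < oo because there nsq Z >= ‖B‖^2 >= (‖tau‖ K/5)^2 (`hB'`), and `fin`; q is bounded on E.  Second integral: <= C M(E)^(1/2) (∫ ‖dWζ_L(Z)‖^2)^(1/2) <= C/L (1+2L)^(1/2) -> 0 by
`log`.  First: dominated convergence, ζ_L -> 1 M-a.e. (h ≠ 0 M-a.e.).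
-/

open MvPolynomial MeasureTheory
open scoped ContDiff ComplexConjugate Topology
open Filter (Tendsto atTop)

namespace FC76

/-- the potential of the vector field in the first coordinate -/
noncomputable def S1_ph (m : ℕ) (κ : ℂ) (p : ℂ × ℂ) : ℂ := κ * (-1 / ((m - 1) * p.1 ^ (m - 1)))

/-- the test function -/
noncomputable def S1_g (m : ℕ) (κ : ℂ) (B : P2) (G χ : ℝ → ℝ) (ζ : ℂ × ℂ → ℝ) (p : ℂ × ℂ) : ℂ :=
  ((G (S1_ph m κ p).re : ℝ) : ℂ) * (((χ ‖p.2‖ : ℝ) : ℂ) * (((ζ p : ℝ) : ℂ) * conj (ev B p / p.2)))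

theorem S1_der {m : ℕ} (hm : 2 ≤ m) (κ : ℂ) {x : ℂ} (hx : x ≠ 0) :
    HasDerivAt (fun z : ℂ => κ * (-1 / ((m - 1) * z ^ (m - 1)))) (κ * (1 / x ^ m)) x := by
  obtain ⟨k, rfl⟩ : ∃ k, m = k + 2 := ⟨m - 2, by omega⟩
  have e1 : k + 2 - 1 = k + 1 := by omega
  rw [e1]
  have hk : ((k : ℂ) + 1) ≠ 0 := by exact_mod_cast Nat.succ_ne_zero k
  have h1 : HasDerivAt (fun z : ℂ => z ^ (k + 1)) (((k : ℂ) + 1) * x ^ k) x := by
    have h2 := hasDerivAt_pow (k + 1) x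
    simpa using h2
  have h2 : HasDerivAt (fun z : ℂ => (((k + 2 : ℕ) : ℂ) - 1) * z ^ (k + 1))
      ((((k + 2 : ℕ) : ℂ) - 1) * (((k : ℂ) + 1) * x ^ k)) x := h1.const_mul _
  have e2 : (((k + 2 : ℕ) : ℂ) - 1) = (k : ℂ) + 1 := by push_cast; ring
  have h3 : (((k + 2 : ℕ) : ℂ) - 1) * x ^ (k + 1) ≠ 0 := by
    rw [e2]
    exact mul_ne_zero hk (pow_ne_zero _ hx)
  have h4 := ((hasDerivAt_const x (-1 : ℂ)).div h2 h3).const_mul κ
  have e5 : κ * ((0 * ((((k + 2 : ℕ) : ℂ) - 1) * x ^ (k + 1)) - -1 * ((((k + 2 : ℕ) : ℂ) - 1) * (((k : ℂ) + 1) * x ^ k))) /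
      ((((k + 2 : ℕ) : ℂ) - 1) * x ^ (k + 1)) ^ 2) = κ * (1 / x ^ (k + 2)) := by
    rw [e2]
    field_simp
    ring
  exact h4.congr_deriv e5

theorem S1_fder {m : ℕ} (hm : 2 ≤ m) (κ : ℂ) (a B : P2) {p : ℂ × ℂ} (hx : p.1 ≠ 0) :
    DifferentiableAt ℂ (S1_ph m κ) p ∧
      fderiv ℂ (S1_ph m κ) p (vf (X 0 ^ m * a) B p) = κ * ev a p := by
  have h1 : HasFDerivAt (S1_ph m κ) ((κ * (1 / p.1 ^ m)) • ContinuousLinearMap.fst ℂ ℂ ℂ) p := by
    have h2 := (S1_der hm κ hx).comp_hasFDerivAt p (hasFDerivAt_fst (𝕜 := ℂ) (p := p))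
    exact h2
  refine ⟨h1.differentiableAt, ?_⟩
  rw [h1.fderiv]
  show κ * (1 / p.1 ^ m) * ev (X 0 ^ m * a) p = _
  rw [ev_mul, ev_pow, ev_X0]
  field_simp

theorem S1_cd {m : ℕ} (κ : ℂ) {p : ℂ × ℂ} (hm : 2 ≤ m) (hx : p.1 ≠ 0) :
    ContDiffAt ℝ ∞ (S1_ph m κ) p := by
  unfold S1_ph
  have hm1 : (m : ℂ) - 1 ≠ 0 := by
    have h0 : (m : ℂ) ≠ 1 := by exact_mod_cast (by omega : m ≠ 1)
    exact sub_ne_zero.2 h0
  have h1 : ContDiffAt ℂ ∞ (fun q : ℂ × ℂ => ((m : ℂ) - 1) * q.1 ^ (m - 1)) p :=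
    contDiffAt_const.mul (contDiffAt_fst.pow _)
  have h2 : ((m : ℂ) - 1) * p.1 ^ (m - 1) ≠ 0 := mul_ne_zero hm1 (pow_ne_zero _ hx)
  have h3 : ContDiffAt ℂ ∞ (fun _ : ℂ × ℂ => (-1 : ℂ)) p := contDiffAt_const
  have h4 : ContDiffAt ℂ ∞ (fun _ : ℂ × ℂ => κ) p := contDiffAt_const
  have h5 : ContDiffAt ℂ ∞ (fun q : ℂ × ℂ => (-1 : ℂ) / (((m : ℂ) - 1) * q.1 ^ (m - 1))) p := h3.div h1 h2
  exact (h4.mul h5).restrict_scalars ℝ

theorem S1_q {B : P2} {p : ℂ × ℂ} (hy : p.2 ≠ 0) :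
    DifferentiableAt ℂ (fun q : ℂ × ℂ => ev B q / q.2) p ∧
      ContDiffAt ℝ ∞ (fun q : ℂ × ℂ => conj (ev B q / q.2)) p := by
  constructor
  · have h1 : ContDiffAt ℂ ∞ (fun q : ℂ × ℂ => ev B q / q.2) p :=
      (contDiff_ev B).contDiffAt.div contDiffAt_snd hy
    exact h1.differentiableAt (by simp)
  · have h1 : ContDiffAt ℂ ∞ (fun q : ℂ × ℂ => ev B q / q.2) p :=
      (contDiff_ev B).contDiffAt.div contDiffAt_snd hy
    exact Complex.conjCLE.contDiff.contDiffAt.comp p (h1.restrict_scalars ℝ)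

theorem S1_chi {χ : ℝ → ℝ} (hχ : ContDiff ℝ ∞ χ) {p : ℂ × ℂ} (hy : p.2 ≠ 0) :
    ContDiffAt ℝ ∞ (fun q : ℂ × ℂ => χ ‖q.2‖) p := by
  have h1 : ContDiffAt ℝ ∞ (fun q : ℂ × ℂ => ‖q.2‖) p := contDiffAt_snd.norm ℝ hy
  exact hχ.contDiffAt.comp p h1

/-- derivative of the norm of the second coordinate -/
theorem S1_dchi {χ : ℝ → ℝ} (hχ : ContDiff ℝ ∞ χ) {p : ℂ × ℂ} (hy : p.2 ≠ 0) (v : ℂ × ℂ) :
    dW (fun q : ℂ × ℂ => ((χ ‖q.2‖ : ℝ) : ℂ)) p v =
      ((deriv χ ‖p.2‖ * (‖p.2‖ / 2) : ℝ) : ℂ) * (v.2 / p.2) := by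
  have hd : DifferentiableAt ℂ (fun q : ℂ × ℂ => q.2) p := differentiableAt_snd
  have h1 := dW_log_norm (F := fun q : ℂ × ℂ => q.2) hd hy v
  have hev : (fun q : ℂ × ℂ => ‖q.2‖) =ᶠ[nhds p] fun q => Real.exp (Real.log ‖q.2‖) := by
    have hc : ContinuousAt (fun q : ℂ × ℂ => q.2) p := hd.continuousAt
    filter_upwards [hc.eventually_ne hy] with q hq
    rw [Real.exp_log (norm_pos_iff.2 hq)]
  have hn : DifferentiableAt ℝ (fun q : ℂ × ℂ => ‖q.2‖) p :=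
    (contDiffAt_snd.norm ℝ hy : ContDiffAt ℝ ∞ (fun q : ℂ × ℂ => ‖q.2‖) p).differentiableAt (by simp)
  have hl : DifferentiableAt ℝ (fun q : ℂ × ℂ => Real.log ‖q.2‖) p := hn.log (norm_ne_zero_iff.2 hy)
  have h2 : dW (fun q : ℂ × ℂ => ((‖q.2‖ : ℝ) : ℂ)) p v = (‖p.2‖ : ℂ) * (v.2 / (2 * p.2)) := by
    rw [LE_dW hev, dW_comp (Φ := Real.exp) (u := fun q : ℂ × ℂ => Real.log ‖q.2‖)
      Real.differentiableAt_exp hl, h1, Real.deriv_exp, Real.exp_log (norm_pos_iff.2 hy)]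
    have h3 : fderiv ℂ (fun q : ℂ × ℂ => q.2) p v = v.2 := by
      rw [fderiv_snd]; rfl
    rw [h3]
  rw [dW_comp (Φ := χ) (u := fun q : ℂ × ℂ => ‖q.2‖) (hχ.differentiable (by simp) _) hn, h2]
  push_cast
  field_simp

/-- the imaginary part of the derivative of the test function -/
theorem S1_point {m : ℕ} (hm : 2 ≤ m) (κ : ℂ) (a B : P2) {G χ : ℝ → ℝ} (hG : ContDiff ℝ ∞ G)
    (hχ : ContDiff ℝ ∞ χ) {ζ : ℂ × ℂ → ℝ} (hζ : ContDiff ℝ ∞ ζ) {p : ℂ × ℂ} (hx : p.1 ≠ 0) (hy : p.2 ≠ 0) :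
    ContDiffAt ℝ ∞ (S1_g m κ B G χ ζ) p ∧
    (dW (S1_g m κ B G χ ζ) p (vf (X 0 ^ m * a) B p)).im =
      ζ p * (deriv G (S1_ph m κ p).re * χ ‖p.2‖ * (κ * ev a p * conj (ev B p / p.2)).im / 2) +
      (((G (S1_ph m κ p).re : ℝ) : ℂ) * ((χ ‖p.2‖ : ℝ) : ℂ) * conj (ev B p / p.2) *
        dW (fun q => (ζ q : ℂ)) p (vf (X 0 ^ m * a) B p)).im := by
  obtain ⟨hph, hphd⟩ := S1_fder hm κ a B hx
  have hphc := S1_cd κ hm hx
  obtain ⟨hqd, hqc⟩ := S1_q (B := B) hy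
  have hre : ContDiffAt ℝ ∞ (fun q => (S1_ph m κ q).re) p := Complex.reCLM.contDiff.contDiffAt.comp p hphc
  have c1 : ContDiffAt ℝ ∞ (fun q => ((G (S1_ph m κ q).re : ℝ) : ℂ)) p :=
    Complex.ofRealCLM.contDiff.contDiffAt.comp p (hG.contDiffAt.comp p hre)
  have c2 : ContDiffAt ℝ ∞ (fun q : ℂ × ℂ => ((χ ‖q.2‖ : ℝ) : ℂ)) p :=
    Complex.ofRealCLM.contDiff.contDiffAt.comp p (S1_chi hχ hy)
  have c3 : ContDiffAt ℝ ∞ (fun q => ((ζ q : ℝ) : ℂ)) p :=
    (Complex.ofRealCLM.contDiff.comp hζ).contDiffAt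
  have c34 := c3.mul hqc
  have c234 := c2.mul c34
  have d1 := c1.differentiableAt (by simp)
  have d2 := c2.differentiableAt (by simp)
  have d3 := c3.differentiableAt (by simp)
  have d4 := hqc.differentiableAt (by simp)
  have d34 := c34.differentiableAt (by simp)
  have d234 := c234.differentiableAt (by simp)
  refine ⟨c1.mul c234, ?_⟩
  have e1 : dW (fun q => ((G (S1_ph m κ q).re : ℝ) : ℂ)) p (vf (X 0 ^ m * a) B p) =
      ((deriv G (S1_ph m κ p).re : ℝ) : ℂ) * (κ * ev a p / 2) := by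
    rw [dW_comp (Φ := G) (u := fun q => (S1_ph m κ q).re) (hG.differentiable (by simp) _)
      (hre.differentiableAt (by simp)), dW_re hph, hphd]
  have e2 : dW (fun q : ℂ × ℂ => ((χ ‖q.2‖ : ℝ) : ℂ)) p (vf (X 0 ^ m * a) B p) =
      ((deriv χ ‖p.2‖ * (‖p.2‖ / 2) : ℝ) : ℂ) * (ev B p / p.2) := S1_dchi hχ hy _
  have e4 : dW (fun q : ℂ × ℂ => conj (ev B q / q.2)) p (vf (X 0 ^ m * a) B p) = 0 := by
    rw [(dW_conj _ p _).1, (dW_holo hqd _).2, map_zero]
  have e0 : dW (S1_g m κ B G χ ζ) p (vf (X 0 ^ m * a) B p) =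
      ((ζ p * (deriv G (S1_ph m κ p).re * χ ‖p.2‖ / 2) : ℝ) : ℂ) * (κ * ev a p * conj (ev B p / p.2)) +
      ((G (S1_ph m κ p).re * ζ p * (deriv χ ‖p.2‖ * (‖p.2‖ / 2)) : ℝ) : ℂ) *
        ((ev B p / p.2) * conj (ev B p / p.2)) +
      ((G (S1_ph m κ p).re : ℝ) : ℂ) * ((χ ‖p.2‖ : ℝ) : ℂ) * conj (ev B p / p.2) *
        dW (fun q => (ζ q : ℂ)) p (vf (X 0 ^ m * a) B p) := by
    unfold S1_g
    rw [dW_mul d1 d234, dW_mul d2 d34, dW_mul d3 d4, e1, e2, e4]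
    push_cast
    ring
  have e5 : (ev B p / p.2) * conj (ev B p / p.2) = ((Complex.normSq (ev B p / p.2) : ℝ) : ℂ) :=
    Complex.mul_conj _
  rw [e0, Complex.add_im, Complex.add_im, e5, ← Complex.ofReal_mul, Complex.ofReal_im,
    Complex.im_ofReal_mul, add_zero]
  ring


theorem S1_dG {G : ℝ → ℝ} (hG : ContDiff ℝ ∞ G) {T : ℝ} (h0 : ∀ t ≤ T, G t = 0) (t : ℝ) (ht : t ≤ T) :
    deriv G t = 0 := by
  have h1 : HasDerivAt G (deriv G t) t := (hG.differentiable (by simp) t).hasDerivAt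
  have h2 : HasDerivWithinAt G (deriv G t) (Set.Iic t) t := h1.hasDerivWithinAt
  have h3 : HasDerivWithinAt G 0 (Set.Iic t) t := by
    have h4 : HasDerivWithinAt (fun _ : ℝ => (0 : ℝ)) 0 (Set.Iic t) t := hasDerivWithinAt_const _ _ _
    refine h4.congr (fun y hy => h0 y (le_trans hy ht)) (h0 t ht)
  exact (uniqueDiffWithinAt_Iic t).eq_deriv _ h2 h3

theorem S1_T0 {m : ℕ} (hm : 2 ≤ m) {R : ℝ} (hR : 0 < R) : 0 < 1 / (((m : ℝ) - 1) * R ^ (m - 1)) := by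
  have h1 : (2 : ℝ) ≤ m := by exact_mod_cast hm
  have h2 : 0 < (m : ℝ) - 1 := by linarith
  positivity

theorem S1_zero0 {m : ℕ} (hm : 2 ≤ m) (κ : ℂ) {p : ℂ × ℂ} (h : p.1 = 0) : (S1_ph m κ p).re = 0 := by
  unfold S1_ph
  rw [h, zero_pow (by omega), mul_zero, div_zero, mul_zero, Complex.zero_re]

theorem S1_le {m : ℕ} (hm : 2 ≤ m) {κ : ℂ} (hκ : ‖κ‖ = 1) {R : ℝ} (hR : 0 < R) {p : ℂ × ℂ}
    (h : R ≤ ‖p.1‖) : (S1_ph m κ p).re ≤ 1 / (((m : ℝ) - 1) * R ^ (m - 1)) := by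
  refine (Complex.re_le_norm _).trans ?_
  have h1 : (2 : ℝ) ≤ m := by exact_mod_cast hm
  have h2 : 0 < (m : ℝ) - 1 := by linarith
  have h3 : ‖(m : ℂ) - 1‖ = (m : ℝ) - 1 := by
    have h4 : ((m : ℂ) - 1) = (((m : ℝ) - 1 : ℝ) : ℂ) := by push_cast; ring
    rw [h4, Complex.norm_real, Real.norm_of_nonneg h2.le]
  unfold S1_ph
  rw [norm_mul, hκ, one_mul, norm_div, norm_neg, norm_one, norm_mul, norm_pow, h3]
  have h5 : R ^ (m - 1) ≤ ‖p.1‖ ^ (m - 1) := pow_le_pow_left₀ hR.le h _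
  have h6 : 0 < R ^ (m - 1) := by positivity
  gcongr

/-- the annular set -/
def S1_E (R K : ℝ) : Set (ℂ × ℂ) :=
  {p : ℂ × ℂ | 0 < ‖p.1‖ ∧ ‖p.1‖ < R ∧ K / 4 < ‖p.2‖ ∧ ‖p.2‖ < 9 * K / 10}

/-- its closure -/
def S1_T (R K : ℝ) : Set (ℂ × ℂ) :=
  {p : ℂ × ℂ | ‖p.1‖ ≤ R ∧ K / 4 ≤ ‖p.2‖ ∧ ‖p.2‖ ≤ 9 * K / 10}

theorem S1_E_meas (R K : ℝ) : MeasurableSet (S1_E R K) := by
  have h1 : Continuous fun p : ℂ × ℂ => ‖p.1‖ := continuous_fst.norm
  have h2 : Continuous fun p : ℂ × ℂ => ‖p.2‖ := continuous_snd.norm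
  exact ((isOpen_lt continuous_const h1).inter ((isOpen_lt h1 continuous_const).inter
    ((isOpen_lt continuous_const h2).inter (isOpen_lt h2 continuous_const)))).measurableSet

theorem S1_T_closed (R K : ℝ) : IsClosed (S1_T R K) := by
  have h1 : Continuous fun p : ℂ × ℂ => ‖p.1‖ := continuous_fst.norm
  have h2 : Continuous fun p : ℂ × ℂ => ‖p.2‖ := continuous_snd.norm
  exact (isClosed_le h1 continuous_const).inter
    ((isClosed_le continuous_const h2).inter (isClosed_le h2 continuous_const))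

theorem S1_T_norm {R K : ℝ} (hK : 0 < K) (hRK : R ≤ K / 2) {p : ℂ × ℂ} (hp : p ∈ S1_T R K) :
    ‖p‖ ≤ 9 * K / 10 := by
  rw [Prod.norm_def]
  exact max_le (hp.1.trans (by linarith)) hp.2.2

theorem S1_T_compact {R K : ℝ} (hK : 0 < K) (hRK : R ≤ K / 2) : IsCompact (S1_T R K) := by
  refine Metric.isCompact_of_isClosed_isBounded (S1_T_closed R K) ?_
  refine (Metric.isBounded_closedBall (x := (0 : ℂ × ℂ)) (r := 9 * K / 10)).subset ?_
  intro p hp
  rw [mem_closedBall_zero_iff]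
  exact S1_T_norm hK hRK hp

theorem S1_E_T {R K : ℝ} : S1_E R K ⊆ S1_T R K := fun _ hp => ⟨hp.2.1.le, hp.2.2.1.le, hp.2.2.2.le⟩

/-- vanishing of the product outside the annular set -/
theorem S1_van {m : ℕ} (hm : 2 ≤ m) {κ : ℂ} (hκ : ‖κ‖ = 1) {R K : ℝ} (hR : 0 < R) {G χ : ℝ → ℝ}
    (hG0 : ∀ t ≤ 1 / (((m : ℝ) - 1) * R ^ (m - 1)), G t = 0)
    (hχ0 : ∀ t, (t ≤ K / 4 ∨ 9 * K / 10 ≤ t) → χ t = 0) {p : ℂ × ℂ} (hp : p ∉ S1_E R K) :
    G (S1_ph m κ p).re * χ ‖p.2‖ = 0 := by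
  by_cases h1 : 0 < ‖p.1‖
  · by_cases h2 : ‖p.1‖ < R
    · by_cases h3 : K / 4 < ‖p.2‖
      · by_cases h4 : ‖p.2‖ < 9 * K / 10
        · exact absurd ⟨h1, h2, h3, h4⟩ hp
        · rw [hχ0 _ (Or.inr (not_lt.1 h4)), mul_zero]
      · rw [hχ0 _ (Or.inl (not_lt.1 h3)), mul_zero]
    · rw [hG0 _ (S1_le hm hκ hR (not_lt.1 h2)), zero_mul]
  · have h5 : p.1 = 0 := norm_le_zero_iff.1 (not_lt.1 h1)
    rw [S1_zero0 hm κ h5, hG0 0 (S1_T0 hm hR).le, zero_mul]

theorem S1_ME {m : ℕ} {a B h : P2} {ρ : ℝ} {M : Measure (ℂ × ℂ)} {K Cb : ℝ} (D : SNData m a B h ρ M K Cb)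
    {R : ℝ} (hRK : R ≤ K / 2) (hR' : Cb * R ≤ ‖cf 0 1 B‖ * K / 400) : M (S1_E R K) < ⊤ := by
  have hK := D.hK
  have hτ : 0 < ‖cf 0 1 B‖ := norm_pos_iff.2 D.hτ
  obtain ⟨c, hc⟩ : ∃ c : ℝ, c = (‖cf 0 1 B‖ * K / 10) ^ 2 := ⟨_, rfl⟩
  have hc0 : 0 < c := by rw [hc]; positivity
  have h1 : ∀ p ∈ S1_E R K, c ≤ nsq (vf (X 0 ^ m * a) B p) := by
    intro p hp
    have h2 := D.hB' p ((S1_T_norm hK hRK (S1_E_T hp)).trans (by linarith))
    have h3 : ‖cf 0 1 B * p.2‖ ≤ ‖ev B p‖ + ‖ev B p - cf 0 1 B * p.2‖ := by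
      have h4 := norm_sub_norm_le (cf 0 1 B * p.2) (ev B p)
      rw [norm_sub_rev] at h4
      linarith
    rw [norm_mul] at h3
    have h5 : Cb * ‖p.1‖ ≤ Cb * R := mul_le_mul_of_nonneg_left hp.2.1.le D.hCb
    have h6 : ‖cf 0 1 B‖ * (K / 4) ≤ ‖cf 0 1 B‖ * ‖p.2‖ := mul_le_mul_of_nonneg_left hp.2.2.1.le hτ.le
    have h7 : ‖cf 0 1 B‖ * K / 10 ≤ ‖ev B p‖ := by nlinarith
    have h8 : (‖cf 0 1 B‖ * K / 10) ^ 2 ≤ ‖ev B p‖ ^ 2 := pow_le_pow_left₀ (by positivity) h7 2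
    rw [hc]
    unfold nsq vf
    nlinarith [sq_nonneg ‖ev (X 0 ^ m * a) p‖]
  have h9 : ENNReal.ofReal c * M (S1_E R K) ≤ ∫⁻ p, ENNReal.ofReal (nsq (vf (X 0 ^ m * a) B p)) ∂M := by
    rw [← lintegral_indicator_const (S1_E_meas R K)]
    apply lintegral_mono
    intro p
    by_cases hp : p ∈ S1_E R K
    · rw [Set.indicator_of_mem hp]
      exact ENNReal.ofReal_le_ofReal (h1 p hp)
    · rw [Set.indicator_of_notMem hp]
      exact zero_le
  have h10 := h9.trans_lt D.inv.fin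
  by_contra h11
  rw [not_lt, top_le_iff] at h11
  rw [h11, ENNReal.mul_top (by rw [Ne, ENNReal.ofReal_eq_zero, not_le]; exact hc0)] at h10
  exact absurd h10 (lt_irrefl _)

theorem S1_bdd {a B : P2} {R K : ℝ} (hK : 0 < K) (hRK : R ≤ K / 2) :
    ∃ C : ℝ, 0 ≤ C ∧ ∀ p ∈ S1_E R K, ‖ev a p‖ ≤ C ∧ ‖ev B p / p.2‖ ≤ C := by
  have hc := S1_T_compact hK hRK
  obtain ⟨C1, h1⟩ := hc.exists_bound_of_continuousOn (contDiff_ev a).continuous.continuousOn
  obtain ⟨C2, h2⟩ := hc.exists_bound_of_continuousOn (contDiff_ev B).continuous.continuousOn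
  refine ⟨max (max C1 (C2 / (K / 4))) 0, le_max_right _ _, fun p hp => ⟨?_, ?_⟩⟩
  · exact (h1 p (S1_E_T hp)).trans ((le_max_left _ _).trans (le_max_left _ _))
  · refine le_trans ?_ ((le_max_right _ _).trans (le_max_left _ _))
    rw [norm_div]
    have h3 := h2 p (S1_E_T hp)
    have h4 : 0 ≤ C2 := (norm_nonneg _).trans h3
    exact div_le_div₀ h4 h3 (by positivity) hp.2.2.1.le

theorem S1_chib {χ : ℝ → ℝ} (hχ : ContDiff ℝ ∞ χ) {K : ℝ}
    (hχ0 : ∀ t, (t ≤ K / 4 ∨ 9 * K / 10 ≤ t) → χ t = 0) : ∃ C : ℝ, 0 ≤ C ∧ ∀ t, |χ t| ≤ C := by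
  obtain ⟨C, hC⟩ := (isCompact_Icc (a := K / 4) (b := 9 * K / 10)).exists_bound_of_continuousOn
    hχ.continuous.continuousOn
  refine ⟨max C 0, le_max_right _ _, fun t => ?_⟩
  by_cases ht : t ∈ Set.Icc (K / 4) (9 * K / 10)
  · exact (hC t ht).trans (le_max_left _ _)
  · rw [Set.mem_Icc, not_and_or, not_le, not_le] at ht
    have h1 : χ t = 0 := by
      rcases ht with ht | ht
      · exact hχ0 t (Or.inl ht.le)
      · exact hχ0 t (Or.inr ht.le)
    rw [h1, abs_zero]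
    exact le_max_right _ _

theorem S1_ph_meas (m : ℕ) (κ : ℂ) : Measurable (S1_ph m κ) := by
  unfold S1_ph
  fun_prop

/-- the integrand -/
noncomputable def S1_f (m : ℕ) (κ : ℂ) (a B : P2) (G χ : ℝ → ℝ) (p : ℂ × ℂ) : ℝ :=
  deriv G (S1_ph m κ p).re * χ ‖p.2‖ * (κ * ev a p * conj (ev B p / p.2)).im / 2

theorem S1_q_meas (B : P2) : Measurable (fun p : ℂ × ℂ => conj (ev B p / p.2)) := by
  have h1 : Measurable (ev B) := (contDiff_ev B).continuous.measurable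
  exact Complex.continuous_conj.measurable.comp (h1.div measurable_snd)

theorem S1_f_meas (m : ℕ) (κ : ℂ) (a B : P2) {G χ : ℝ → ℝ} (hG : ContDiff ℝ ∞ G) (hχ : ContDiff ℝ ∞ χ) :
    Measurable (S1_f m κ a B G χ) := by
  have h1 : Measurable (deriv G) := (hG.continuous_deriv (by simp)).measurable
  have h2 : Measurable (fun p : ℂ × ℂ => deriv G (S1_ph m κ p).re) :=
    h1.comp (Complex.measurable_re.comp (S1_ph_meas m κ))
  have h3 : Measurable (fun p : ℂ × ℂ => χ ‖p.2‖) := hχ.continuous.measurable.comp measurable_snd.norm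
  have h4 : Measurable (ev a) := (contDiff_ev a).continuous.measurable
  have h5 : Measurable (fun p : ℂ × ℂ => (κ * ev a p * conj (ev B p / p.2)).im) :=
    Complex.measurable_im.comp ((h4.const_mul κ).mul (S1_q_meas B))
  exact ((h2.mul h3).mul h5).div_const 2

theorem S1_ind {R K : ℝ} {M : Measure (ℂ × ℂ)} (hM : M (S1_E R K) < ⊤) :
    Integrable ((S1_E R K).indicator (fun _ : ℂ × ℂ => (1 : ℝ))) M := by
  rw [integrable_indicator_iff (S1_E_meas R K)]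
  exact integrableOn_const hM.ne

theorem S1_f_int {m : ℕ} (hm : 2 ≤ m) {κ : ℂ} (hκ : ‖κ‖ = 1) {a B : P2} {R K : ℝ} (hR : 0 < R)
    (hK : 0 < K) (hRK : R ≤ K / 2) {M : Measure (ℂ × ℂ)} (hM : M (S1_E R K) < ⊤)
    {G χ : ℝ → ℝ} (hG : ContDiff ℝ ∞ G) (hχ : ContDiff ℝ ∞ χ) {C : ℝ} (hC : ∀ t, |deriv G t| ≤ C)
    (hG0 : ∀ t ≤ 1 / (((m : ℝ) - 1) * R ^ (m - 1)), G t = 0)
    (hχ0 : ∀ t, (t ≤ K / 4 ∨ 9 * K / 10 ≤ t) → χ t = 0) :
    Integrable (S1_f m κ a B G χ) M ∧ ∀ p, p ∉ S1_E R K → S1_f m κ a B G χ p = 0 := by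
  obtain ⟨Cx, hCx0, hCx⟩ := S1_chib hχ hχ0
  obtain ⟨C1, hC10, hC1⟩ := S1_bdd (a := a) (B := B) hK hRK
  have hC0 : 0 ≤ C := (abs_nonneg _).trans (hC 0)
  have hz : ∀ p, p ∉ S1_E R K → S1_f m κ a B G χ p = 0 := by
    intro p hp
    unfold S1_f
    have h1 := S1_van hm hκ hR (G := deriv G) (χ := χ) (S1_dG hG hG0) hχ0 hp
    rw [h1, zero_mul, zero_div]
  refine ⟨?_, hz⟩
  refine ((S1_ind hM).const_mul (C * Cx * (C1 * C1))).mono (S1_f_meas m κ a B hG hχ).aestronglyMeasurable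
    (Filter.Eventually.of_forall (fun p => ?_))
  by_cases hp : p ∈ S1_E R K
  · rw [Set.indicator_of_mem hp, mul_one]
    rw [Real.norm_of_nonneg (by positivity : 0 ≤ C * Cx * (C1 * C1))]
    unfold S1_f
    obtain ⟨h1, h2⟩ := hC1 p hp
    have h3 : |(κ * ev a p * conj (ev B p / p.2)).im| ≤ C1 * C1 := by
      refine (Complex.abs_im_le_norm _).trans ?_
      rw [norm_mul, norm_mul, hκ, one_mul, RCLike.norm_conj]
      exact mul_le_mul h1 h2 (norm_nonneg _) hC10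
    rw [Real.norm_eq_abs, abs_div, abs_mul, abs_mul, abs_two]
    have h4 : |deriv G (S1_ph m κ p).re| * |χ ‖p.2‖| * |(κ * ev a p * conj (ev B p / p.2)).im| ≤
        C * Cx * (C1 * C1) :=
      mul_le_mul (mul_le_mul (hC _) (hCx _) (abs_nonneg _) hC0) h3 (abs_nonneg _) (by positivity)
    have h5 : 0 ≤ |deriv G (S1_ph m κ p).re| * |χ ‖p.2‖| * |(κ * ev a p * conj (ev B p / p.2)).im| := by
      positivity
    linarith
  · rw [hz p hp, norm_zero]
    exact norm_nonneg _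

/-- smoothness of the test function -/
theorem S1_g_smooth {m : ℕ} (hm : 2 ≤ m) (κ : ℂ) (B : P2) {G χ : ℝ → ℝ} (hG : ContDiff ℝ ∞ G)
    (hχ : ContDiff ℝ ∞ χ) {ζ : ℂ × ℂ → ℝ} (hζ : ContDiff ℝ ∞ ζ) {K : ℝ} (hK : 0 < K)
    (hχ0 : ∀ t, (t ≤ K / 4 ∨ 9 * K / 10 ≤ t) → χ t = 0)
    (hz : ∀ p : ℂ × ℂ, p.1 = 0 → ζ =ᶠ[𝓝 p] fun _ => 0) :
    ContDiff ℝ ∞ (S1_g m κ B G χ ζ) ∧ ∀ p : ℂ × ℂ, p.2 = 0 → S1_g m κ B G χ ζ =ᶠ[𝓝 p] fun _ => 0 := by
  have hy0 : ∀ p : ℂ × ℂ, p.2 = 0 → S1_g m κ B G χ ζ =ᶠ[𝓝 p] fun _ => 0 := by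
    intro p hp
    have h1 : Continuous fun q : ℂ × ℂ => ‖q.2‖ := continuous_snd.norm
    have h2 : ∀ᶠ q in 𝓝 p, ‖q.2‖ < K / 4 := by
      apply h1.continuousAt.eventually_lt continuousAt_const
      show ‖p.2‖ < K / 4
      rw [hp, norm_zero]
      positivity
    filter_upwards [h2] with q hq
    unfold S1_g
    rw [hχ0 _ (Or.inl hq.le), Complex.ofReal_zero, zero_mul, mul_zero]
  refine ⟨?_, hy0⟩
  rw [contDiff_iff_contDiffAt]
  intro p
  by_cases hx : p.1 = 0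
  · have h1 : S1_g m κ B G χ ζ =ᶠ[𝓝 p] fun _ => 0 := by
      filter_upwards [hz p hx] with q hq
      unfold S1_g
      rw [hq, Complex.ofReal_zero, zero_mul, mul_zero, mul_zero]
    exact contDiffAt_const.congr_of_eventuallyEq h1
  · by_cases hy : p.2 = 0
    · exact contDiffAt_const.congr_of_eventuallyEq (hy0 p hy)
    · exact (S1_point hm κ 0 B hG hχ hζ hx hy).1

theorem S1_supp {m : ℕ} (hm : 2 ≤ m) {κ : ℂ} (hκ : ‖κ‖ = 1) (B : P2) {R K : ℝ} (hR : 0 < R)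
    {G χ : ℝ → ℝ} {ζ : ℂ × ℂ → ℝ}
    (hG0 : ∀ t ≤ 1 / (((m : ℝ) - 1) * R ^ (m - 1)), G t = 0)
    (hχ0 : ∀ t, (t ≤ K / 4 ∨ 9 * K / 10 ≤ t) → χ t = 0) {p : ℂ × ℂ} (hp : p ∉ S1_E R K) :
    S1_g m κ B G χ ζ p = 0 := by
  unfold S1_g
  have h1 := S1_van hm hκ hR hG0 hχ0 hp
  rw [← mul_assoc, ← Complex.ofReal_mul, h1, Complex.ofReal_zero, zero_mul]

theorem S1_hne {h : P2} (hh : X 0 ∣ h) {p : ℂ × ℂ} (hp : p.1 = 0) : ev h p = 0 := by
  obtain ⟨k, rfl⟩ := hh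
  rw [ev_mul, ev_X0, hp, zero_mul]

/-- the integral of the imaginary part for one cut-off -/
theorem S1_one {m : ℕ} {a B h : P2} {ρ : ℝ} {M : Measure (ℂ × ℂ)} {K Cb : ℝ} (D : SNData m a B h ρ M K Cb)
    {R : ℝ} (hR : 0 < R) (hRK : R ≤ K / 2) {κ : ℂ} (hκ : ‖κ‖ = 1) {G χ : ℝ → ℝ} (hG : ContDiff ℝ ∞ G)
    (hG0 : ∀ t ≤ 1 / (((m : ℝ) - 1) * R ^ (m - 1)), G t = 0) (hχ : ContDiff ℝ ∞ χ)
    (hχ0 : ∀ t, (t ≤ K / 4 ∨ 9 * K / 10 ≤ t) → χ t = 0) {ζ : ℂ × ℂ → ℝ} (hζ : ContDiff ℝ ∞ ζ) {k : ℝ}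
    (hζ0 : ∀ p, ‖ev h p‖ ≤ Real.exp (-(2 * k)) → ζ p = 0) :
    ∫ p, (ζ p • S1_f m κ a B G χ p + (((G (S1_ph m κ p).re : ℝ) : ℂ) * ((χ ‖p.2‖ : ℝ) : ℂ) *
      conj (ev B p / p.2) * dW (fun q => (ζ q : ℂ)) p (vf (X 0 ^ m * a) B p)).im) ∂M = 0 := by
  have hm := D.hm
  have hK := D.hK
  have hz : ∀ p : ℂ × ℂ, p.1 = 0 → ζ =ᶠ[𝓝 p] fun _ => 0 := by
    intro p hp
    have h1 : Continuous fun q : ℂ × ℂ => ‖ev h q‖ := (contDiff_ev h).continuous.norm
    have h2 : ∀ᶠ q in 𝓝 p, ‖ev h q‖ < Real.exp (-(2 * k)) := by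
      apply h1.continuousAt.eventually_lt continuousAt_const
      show ‖ev h p‖ < _
      rw [S1_hne D.hh hp, norm_zero]
      exact Real.exp_pos _
    filter_upwards [h2] with q hq
    exact hζ0 q hq.le
  obtain ⟨hgs, hg2⟩ := S1_g_smooth hm κ B hG hχ hζ hK hχ0 hz
  have hT : ∀ p, p ∉ S1_T R K → S1_g m κ B G χ ζ p = 0 :=
    fun p hp => S1_supp hm hκ B hR hG0 hχ0 (fun hE => hp (S1_E_T hE))
  have hTs : S1_T R K ⊆ Metric.ball 0 ρ := by
    intro p hp
    rw [mem_ball_zero_iff]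
    have h1 := S1_T_norm hK hRK hp
    have h2 := D.hKρ
    linarith
  have hT0 : (0 : ℂ × ℂ) ∉ S1_T R K := by
    intro h0
    have h1 : K / 4 ≤ ‖(0 : ℂ × ℂ).2‖ := h0.2.1
    rw [Prod.snd_zero, norm_zero] at h1
    linarith
  obtain ⟨hs1, hs2⟩ := LF_supp (F := S1_g m κ B G χ ζ) (h := h) (ρ := ρ) (K := k) (S1_T_closed R K) hTs
    (Or.inr hT0) hT (fun p hp => by
      unfold S1_g
      rw [hζ0 p hp, Complex.ofReal_zero, zero_mul, mul_zero, mul_zero])
  have hcs : HasCompactSupport (S1_g m κ B G χ ζ) :=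
    (S1_T_compact hK hRK).of_isClosed_subset (isClosed_tsupport _) hs2
  have h1 := D.inv.inv _ hgs hcs hs1
  have hint : Integrable (fun p => dW (S1_g m κ B G χ ζ) p (vf (X 0 ^ m * a) B p)) M :=
    LF_integrable D.inv.toInv0 (LF_contDiff_dW hgs _ _).1.continuous hcs hs1
      (fun p hp => (LF_supp_dW hp _).1)
  have h2 : ∫ p, (dW (S1_g m κ B G χ ζ) p (vf (X 0 ^ m * a) B p)).im ∂M = 0 := by
    have h3 := integral_im hint
    rw [h1] at h3
    simpa using h3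
  rw [← h2]
  apply integral_congr_ae
  have hcar : ∀ᵐ p ∂M, p ∈ dom h ρ := D.inv.carried
  filter_upwards [hcar] with p hp
  have hx : p.1 ≠ 0 := fun h0 => hp.2.1 (S1_hne D.hh h0)
  by_cases hy : p.2 = 0
  · have e1 : dW (S1_g m κ B G χ ζ) p (vf (X 0 ^ m * a) B p) = 0 := by
      unfold dW
      rw [(hg2 p hy).fderiv_eq]
      simp
    have e2 : χ ‖p.2‖ = 0 := by
      apply hχ0 _ (Or.inl _)
      rw [hy, norm_zero]
      positivity
    rw [e1]
    unfold S1_f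
    rw [e2]
    simp
  · rw [(S1_point hm κ a B hG hχ hζ hx hy).2, smul_eq_mul]
    rfl

theorem S1_lim {m : ℕ} {a B h : P2} {ρ : ℝ} {M : Measure (ℂ × ℂ)} {K Cb : ℝ} (D : SNData m a B h ρ M K Cb)
    {R : ℝ} (hR : 0 < R) (hRK : R ≤ K / 2) (hM : M (S1_E R K) < ⊤) {κ : ℂ} (hκ : ‖κ‖ = 1) {G χ : ℝ → ℝ}
    (hG : ContDiff ℝ ∞ G) {CG : ℝ} (hGb : ∀ t, |G t| ≤ CG ∧ |deriv G t| ≤ CG)
    (hG0 : ∀ t ≤ 1 / (((m : ℝ) - 1) * R ^ (m - 1)), G t = 0) (hχ : ContDiff ℝ ∞ χ)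
    (hχ0 : ∀ t, (t ≤ K / 4 ∨ 9 * K / 10 ≤ t) → χ t = 0) : ∫ p, S1_f m κ a B G χ p ∂M = 0 := by
  obtain ⟨hfi, hfz⟩ := S1_f_int (a := a) (B := B) D.hm hκ hR D.hK hRK hM hG hχ (fun t => (hGb t).2) hG0 hχ0
  obtain ⟨Cx, hCx0, hCx⟩ := S1_chib hχ hχ0
  obtain ⟨C1, hC10, hC1⟩ := S1_bdd (a := a) (B := B) D.hK hRK
  have hCG0 : 0 ≤ CG := (abs_nonneg _).trans (hGb 0).1
  obtain ⟨C, hC0, hC⟩ := exists_logCutoff
  obtain ⟨C', hC'0, hC'⟩ := LF_energy D.inv.toInv0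
  have hch : ∀ n : ℕ, ∃ ζ : ℂ × ℂ → ℝ, ContDiff ℝ ∞ ζ ∧
    (∀ p, 0 ≤ ζ p ∧ ζ p ≤ 1) ∧ (∀ p, ‖ev h p‖ ≤ Real.exp (-(2 * ((n : ℝ) + 1))) → ζ p = 0) ∧
    (∀ p, Real.exp (-((n : ℝ) + 1)) ≤ ‖ev h p‖ → ζ p = 1) ∧
    (∀ p v, ev h p ≠ 0 → ‖dW (fun q => (ζ q : ℂ)) p v‖ ≤ C / ((n : ℝ) + 1) * (‖fderiv ℂ (ev h) p v‖ / ‖ev h p‖)) ∧
    (∀ p v, ev h p ≠ 0 → |lev ζ p v| ≤ C / ((n : ℝ) + 1) ^ 2 * (‖fderiv ℂ (ev h) p v‖ / ‖ev h p‖) ^ 2) ∧
    (∀ p v, (‖ev h p‖ < Real.exp (-(2 * ((n : ℝ) + 1))) ∨ Real.exp (-((n : ℝ) + 1)) < ‖ev h p‖) →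
      dW (fun q => (ζ q : ℂ)) p v = 0 ∧ lev ζ p v = 0) :=
    fun n => hC h ((n : ℝ) + 1) (by have : (0 : ℝ) ≤ n := Nat.cast_nonneg n; linarith)
  choose ζ hζs hζ01 hζ0 hζ1 hζd hζl hζv using hch
  have hζc : ∀ n, ContDiff ℝ ∞ (fun q => (ζ n q : ℂ)) := fun n => Complex.ofRealCLM.contDiff.comp (hζs n)
  obtain ⟨Bg, hBg⟩ : ∃ Bg : ℝ, Bg = CG * Cx * C1 := ⟨_, rfl⟩
  have hBg0 : 0 ≤ Bg := by rw [hBg]; positivity
  have hindm : Measurable ((S1_E R K).indicator (fun _ : ℂ × ℂ => (1 : ℝ))) :=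
    measurable_const.indicator (S1_E_meas R K)
  obtain ⟨μ, hμ⟩ : ∃ μ : ℝ, μ = (M (S1_E R K)).toReal := ⟨_, rfl⟩
  have hμ0 : 0 ≤ μ := by rw [hμ]; exact ENNReal.toReal_nonneg
  have hsM : ∫⁻ p, ENNReal.ofReal ((S1_E R K).indicator (fun _ : ℂ × ℂ => (1 : ℝ)) p) ∂M ≤ ENNReal.ofReal μ := by
    have h1 : ∀ p, ENNReal.ofReal ((S1_E R K).indicator (fun _ : ℂ × ℂ => (1 : ℝ)) p) =
        (S1_E R K).indicator 1 p := by
      intro p
      by_cases hp : p ∈ S1_E R K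
      · rw [Set.indicator_of_mem hp, Set.indicator_of_mem hp, ENNReal.ofReal_one]; rfl
      · rw [Set.indicator_of_notMem hp, Set.indicator_of_notMem hp, ENNReal.ofReal_zero]
    simp_rw [h1]
    rw [lintegral_indicator_one (S1_E_meas R K), hμ, ENNReal.ofReal_toReal hM.ne]
  have hmeasR : ∀ n, Measurable (fun p => (((G (S1_ph m κ p).re : ℝ) : ℂ) * ((χ ‖p.2‖ : ℝ) : ℂ) *
      conj (ev B p / p.2) * dW (fun q => (ζ n q : ℂ)) p (vf (X 0 ^ m * a) B p)).im) := by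
    intro n
    have m1 : Measurable (fun p : ℂ × ℂ => ((G (S1_ph m κ p).re : ℝ) : ℂ)) :=
      Complex.measurable_ofReal.comp (hG.continuous.measurable.comp
        (Complex.measurable_re.comp (S1_ph_meas m κ)))
    have m2 : Measurable (fun p : ℂ × ℂ => ((χ ‖p.2‖ : ℝ) : ℂ)) :=
      Complex.measurable_ofReal.comp (hχ.continuous.measurable.comp measurable_snd.norm)
    have m3 := S1_q_meas B
    have m4 : Measurable (fun p => dW (fun q => (ζ n q : ℂ)) p (vf (X 0 ^ m * a) B p)) :=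
      (LF_contDiff_dW (hζc n) _ _).1.continuous.measurable
    exact Complex.measurable_im.comp (((m1.mul m2).mul m3).mul m4)
  refine LF_conv hfi (ζ := ζ) (fun n => (hζs n).continuous.aestronglyMeasurable) hζ01 (LF_ae D.inv.toInv0 hζ1)
    (R := fun n p => (((G (S1_ph m κ p).re : ℝ) : ℂ) * ((χ ‖p.2‖ : ℝ) : ℂ) *
      conj (ev B p / p.2) * dW (fun q => (ζ n q : ℂ)) p (vf (X 0 ^ m * a) B p)).im)
    (δ := fun n => (Bg * μ + Bg * C ^ 2 * C') / Real.sqrt ((n : ℝ) + 1) + 0 / ((n : ℝ) + 1))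
    (fun n => (hmeasR n).aestronglyMeasurable)
    (fun n => by positivity) (LF_rate _ _) ?_ ?_
  · intro n
    obtain ⟨L, hL⟩ : ∃ L : ℝ, L = (n : ℝ) + 1 := ⟨_, rfl⟩
    have hL1 : 1 ≤ L := by
      have : (0 : ℝ) ≤ n := Nat.cast_nonneg n
      linarith
    have hL0 : 0 < L := by linarith
    obtain ⟨e, he⟩ : ∃ e : ℝ, e = 1 / Real.sqrt L := ⟨_, rfl⟩
    have hsq0 : 0 < Real.sqrt L := Real.sqrt_pos.2 hL0
    have he0 : 0 < e := by rw [he]; positivity
    have h2 := hC' L hL1 (fun p => Bg * (‖dW (fun q => (ζ n q : ℂ)) p (vf (X 0 ^ m * a) B p)‖ ^ 2 / e))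
      (Bg * ((C / L) ^ 2 / e)) (by positivity)
      (fun p hp => by
        have h3 := hζd n p (vf (X 0 ^ m * a) B p) hp
        rw [← hL, fderiv_ev_vf] at h3
        have h4 : ‖dW (fun q => (ζ n q : ℂ)) p (vf (X 0 ^ m * a) B p)‖ ^ 2 ≤
            (C / L) ^ 2 * (‖ev (Zp (X 0 ^ m * a) B h) p‖ / ‖ev h p‖) ^ 2 := by
          rw [← mul_pow]
          exact pow_le_pow_left₀ (norm_nonneg _) h3 2
        calc _ ≤ Bg * ((C / L) ^ 2 * (‖ev (Zp (X 0 ^ m * a) B h) p‖ / ‖ev h p‖) ^ 2 / e) := by gcongr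
          _ = _ := by ring)
      (fun p hp => by
        rw [hL] at hp
        rw [(hζv n p (vf (X 0 ^ m * a) B p) (Or.inl hp)).1]
        simp)
    have h5 := LF_bound (R := fun p => (((G (S1_ph m κ p).re : ℝ) : ℂ) * ((χ ‖p.2‖ : ℝ) : ℂ) *
        conj (ev B p / p.2) * dW (fun q => (ζ n q : ℂ)) p (vf (X 0 ^ m * a) B p)).im) hindm
      (a := Bg * e) (by positivity) hμ0 (W := Bg * ((C / L) ^ 2 / e) * (C' * L)) (by positivity) hsM h2
      (fun p => by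
        rw [Real.norm_eq_abs]
        refine (Complex.abs_im_le_norm _).trans ?_
        rw [norm_mul]
        by_cases hp : p ∈ S1_E R K
        · rw [Set.indicator_of_mem hp]
          have h6 := LF_ab ‖dW (fun q => (ζ n q : ℂ)) p (vf (X 0 ^ m * a) B p)‖ e he0
          have h7 : ‖((G (S1_ph m κ p).re : ℝ) : ℂ) * ((χ ‖p.2‖ : ℝ) : ℂ) * conj (ev B p / p.2)‖ ≤ Bg := by
            rw [norm_mul, norm_mul, RCLike.norm_conj, Complex.norm_real, Complex.norm_real, hBg]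
            exact mul_le_mul (mul_le_mul (hGb _).1 (hCx _) (norm_nonneg _) hCG0) (hC1 p hp).2
              (norm_nonneg _) (by positivity)
          calc _ ≤ Bg * (e + ‖dW (fun q => (ζ n q : ℂ)) p (vf (X 0 ^ m * a) B p)‖ ^ 2 / e) :=
                mul_le_mul h7 h6 (norm_nonneg _) hBg0
            _ = _ := by ring
        · have h8 := S1_van D.hm hκ hR hG0 hχ0 hp
          rw [← Complex.ofReal_mul, h8, Complex.ofReal_zero, zero_mul, norm_zero, zero_mul,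
            Set.indicator_of_notMem hp]
          positivity)
    refine h5.trans (ENNReal.ofReal_le_ofReal (le_of_eq ?_))
    rw [← hL, he, zero_div, add_zero]
    have hsq : Real.sqrt L ^ 2 = L := Real.sq_sqrt hL0.le
    have hsq3 : C' * L = C' * Real.sqrt L ^ 2 := by rw [hsq]
    have hKK : C / L = C / Real.sqrt L ^ 2 := by rw [hsq]
    rw [hsq3, hKK]
    field_simp
  · intro n
    exact S1_one D hR hRK hκ hG hG0 hχ hχ0 (hζs n) (hζ0 n)

theorem sn_wedge {m : ℕ} {a B h : P2} {ρ : ℝ} {M : Measure (ℂ × ℂ)} {K Cb : ℝ} (D : SNData m a B h ρ M K Cb)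
    (R : ℝ) (hR : 0 < R) (hRK : R ≤ K / 2) (hR' : Cb * R ≤ ‖cf 0 1 B‖ * K / 400)
    (κ : ℂ) (hκ : ‖κ‖ = 1) (G χ : ℝ → ℝ) (hG : ContDiff ℝ ∞ G) (hGb : ∃ C, ∀ t, |G t| ≤ C ∧ |deriv G t| ≤ C)
    (hG0 : ∀ t ≤ 1 / ((m - 1) * R ^ (m - 1)), G t = 0) (hχ : ContDiff ℝ ∞ χ)
    (hχ0 : ∀ t, (t ≤ K / 4 ∨ 9 * K / 10 ≤ t) → χ t = 0) :
    ∫ p in {p : ℂ × ℂ | 0 < ‖p.1‖ ∧ ‖p.1‖ < R ∧ K / 4 < ‖p.2‖ ∧ ‖p.2‖ < 9 * K / 10},
      deriv G (κ * (-1 / ((m - 1) * p.1 ^ (m - 1)))).re * χ ‖p.2‖ * (κ * ev a p * conj (ev B p / p.2)).im ∂M = 0 := by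
  obtain ⟨CG, hCG⟩ := hGb
  have hM := S1_ME D hRK hR'
  have h1 := S1_lim D hR hRK hM hκ hG hCG hG0 hχ hχ0
  obtain ⟨hfi, hfz⟩ := S1_f_int (a := a) (B := B) D.hm hκ hR D.hK hRK hM hG hχ (fun t => (hCG t).2) hG0 hχ0
  have h2 : ∫ p in S1_E R K, S1_f m κ a B G χ p ∂M = ∫ p, S1_f m κ a B G χ p ∂M :=
    setIntegral_eq_integral_of_forall_compl_eq_zero hfz
  have h3 : ∀ p : ℂ × ℂ, deriv G (κ * (-1 / ((m - 1) * p.1 ^ (m - 1)))).re * χ ‖p.2‖ *
      (κ * ev a p * conj (ev B p / p.2)).im = 2 * S1_f m κ a B G χ p := by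
    intro p
    unfold S1_f S1_ph
    ring
  simp_rw [h3]
  rw [integral_const_mul]
  show 2 * ∫ p in S1_E R K, S1_f m κ a B G χ p ∂M = 0
  rw [h2, h1, mul_zero]

end FC76

end S_H76_FL_S1

section S_H76_FL_S2

/-!
# Row S2: M does not charge the annulus

CLAIM: there is R with 0 < R <= K/2, Cb R <= ‖tau‖K/400 and AnnZero M R K.
Proof.  R0 := min(K/2, ‖tau‖K/(400(Cb+1))).  On E := {0<‖x‖<R0, K/4 < ‖y‖ < 9K/10}: q := B/y satisfies ‖q - tau‖ <= Cb‖x‖/‖y‖ + ‖tau‖/100 <= ‖tau‖/50 and ‖a - a0‖ <= ‖a0‖/100, so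
 ‖κ a conj q - κ a0 conj tau‖ <= ‖a0 tau‖/10 (‖κ‖ = 1).  If |Im(κ a0 conj tau)| >= ‖a0 tau‖/2 then Im(κ a conj q) has constant sign on E and absolute value >= ‖a0 tau‖/4.
 Choose in `sn_wedge` χ >= 0, χ > 0 on [K/2, 3K/4] and G with G' >= 0, G = 0 on (-oo,T0], G' > 0 exactly on (T0, T0 + n) (a primitive of a smooth bump; bounded).  The integrand has constant sign, so it vanishes
 M-a.e. on E (`integral_eq_zero_iff_of_nonneg`..., integrable since bounded and M(E) < oo): M{p in E : T0 < Re(κ φ(x)) < T0 + n, K/2 <= ‖y‖ <= 3K/4} = 0; n -> oo (countable union).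
 Apply this to the finitely many κ = e^(i π j/6), j = 0..11, with |Im(κ a0 conj tau)| >= ‖a0 tau‖/2: for every complex φ ≠ 0 there is such a κ with Re(κ φ) >= ‖φ‖/2:
   the directions κ with Re(κφ) >= ‖φ‖/2 form an arc of length 2π/3 (closed), containing at least four of the twelve points with consecutive arguments (spacing π/6, total span π/2);
   the points with |sin(arg κ + α)| < 1/2 lie in two open arcs of length π/3 each (centres opposite), each containing at most two of the twelve points, and an arc of span π/2 meets only one of them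
   (the gap between the two bad arcs is 2π/3 > π/2), so at least two of the four points are good.
   (Alternative without trigonometry: use the four units κ = conj(u) * w with w in {±1, ±i}·... any finite family works; one may also take a family of 24 or more directions, or argue with two explicit vectors.)
 Hence M{p in E : ‖φ(x)‖ > 2 T0 + 2, K/2 <= ‖y‖ <= 3K/4} = 0.  Finally ‖φ(x)‖ = 1/((m-1)‖x‖^(m-1)) > 2T0+2 as soon as ‖x‖ < R for a suitable R (m-1 >= 1).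
-/

open MvPolynomial MeasureTheory
open scoped ContDiff ComplexConjugate

namespace FC76

lemma S2_hasDeriv (x : ℝ) : HasDerivAt expNegInvGlue ((x⁻¹) ^ 2 * expNegInvGlue x) x := by
  have h := expNegInvGlue.hasDerivAt_polynomial_eval_inv_mul 1 x
  simpa using h

lemma S2_glue_le (x : ℝ) : expNegInvGlue x ≤ 1 := by
  rcases le_or_gt x 0 with h | h
  · rw [expNegInvGlue.zero_of_nonpos h]; norm_num
  · have h1 : expNegInvGlue x = Real.exp (-x⁻¹) := by simp [expNegInvGlue, not_le.2 h]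
    rw [h1]
    apply Real.exp_le_one_iff.2
    have := inv_pos.2 h
    linarith

lemma S2_deriv_le (x : ℝ) : (x⁻¹) ^ 2 * expNegInvGlue x ≤ 2 := by
  rcases le_or_gt x 0 with h | h
  · rw [expNegInvGlue.zero_of_nonpos h]; norm_num
  · have h1 : expNegInvGlue x = Real.exp (-x⁻¹) := by simp [expNegInvGlue, not_le.2 h]
    rw [h1, Real.exp_neg]
    have h2 := Real.quadratic_le_exp_of_nonneg (inv_nonneg.2 h.le)
    rw [← div_eq_mul_inv, div_le_iff₀ (Real.exp_pos _)]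
    have h3 := inv_pos.2 h
    linarith

lemma S2_im {κ a q a0 τ : ℂ} (hκ : ‖κ‖ = 1) (ha : ‖a - a0‖ ≤ ‖a0‖ / 100) (hq : ‖q - τ‖ ≤ ‖τ‖ / 50) :
    |(κ * a * conj q).im - (κ * (a0 * conj τ)).im| ≤ ‖a0‖ * ‖τ‖ / 10 := by
  rw [← Complex.sub_im]
  refine (Complex.abs_im_le_norm _).trans ?_
  have e : κ * a * conj q - κ * (a0 * conj τ) = κ * ((a - a0) * conj q + a0 * conj (q - τ)) := by
    rw [map_sub]; ring
  rw [e, norm_mul, hκ, one_mul]
  refine (norm_add_le _ _).trans ?_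
  rw [norm_mul, norm_mul, Complex.norm_conj, Complex.norm_conj]
  have h1 : ‖q‖ ≤ ‖τ‖ * (51 / 50) := by
    have : q = τ + (q - τ) := by ring
    calc ‖q‖ = ‖τ + (q - τ)‖ := by rw [← this]
      _ ≤ ‖τ‖ + ‖q - τ‖ := norm_add_le _ _
      _ ≤ ‖τ‖ + ‖τ‖ / 50 := by linarith
      _ = ‖τ‖ * (51 / 50) := by ring
  have h0 := norm_nonneg a0
  have ht := norm_nonneg τ
  have h2 : ‖a - a0‖ * ‖q‖ ≤ ‖a0‖ / 100 * (‖τ‖ * (51 / 50)) :=
    mul_le_mul ha h1 (norm_nonneg _) (by positivity)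
  have h3 : ‖a0‖ * ‖q - τ‖ ≤ ‖a0‖ * (‖τ‖ / 50) := mul_le_mul_of_nonneg_left hq h0
  have h4 : 0 ≤ ‖a0‖ * ‖τ‖ := by positivity
  nlinarith

lemma S2_dir {α : ℂ} (hα : α ≠ 0) : ∃ κ : Bool × Bool → ℂ,
    (∀ i, ‖κ i‖ = 1 ∧ ‖α‖ / 2 ≤ |(κ i * α).im|) ∧ ∀ φ : ℂ, ∃ i, ‖φ‖ / 2 ≤ (κ i * φ).re := by
  have hn : (‖α‖ : ℝ) ≠ 0 := norm_ne_zero_iff.2 hα
  have hnc : ((‖α‖ : ℝ) : ℂ) ≠ 0 := by exact_mod_cast hn
  set u : ℂ := conj α / (‖α‖ : ℝ) with hu
  have hu1 : ‖u‖ = 1 := by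
    rw [hu, norm_div, Complex.norm_conj, Complex.norm_real, norm_norm, div_self hn]
  have huα : u * α = (‖α‖ : ℝ) := by
    rw [hu, div_mul_eq_mul_div, mul_comm, Complex.mul_conj, Complex.normSq_eq_norm_sq]
    push_cast
    field_simp
  set σ : Bool → ℝ := fun b => if b then 1 else -1 with hσ
  have hσ2 : ∀ b, σ b ^ 2 = 1 := by intro b; cases b <;> simp [hσ]
  have hσ1 : ∀ b, |σ b| = 1 := by intro b; cases b <;> simp [hσ]
  have hw : ∀ b c, ‖(⟨σ b * (4 / 5), σ c * (3 / 5)⟩ : ℂ)‖ = 1 := by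
    intro b c
    rw [Complex.norm_def, Complex.normSq_mk, Real.sqrt_eq_one]
    have h1 := hσ2 b
    have h2 := hσ2 c
    nlinarith
  refine ⟨fun i => ⟨σ i.1 * (4 / 5), σ i.2 * (3 / 5)⟩ * u, ?_, ?_⟩
  · intro i
    refine ⟨by rw [norm_mul, hw, hu1, mul_one], ?_⟩
    rw [mul_assoc, huα, Complex.mul_im]
    simp only [Complex.ofReal_im, Complex.ofReal_re, mul_zero, zero_add]
    rw [abs_mul, abs_mul, hσ1, abs_norm]
    have := norm_nonneg α
    rw [abs_of_pos (by norm_num : (0 : ℝ) < 3 / 5)]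
    linarith
  · intro φ
    set ψ := u * φ with hψ
    have hψn : ‖ψ‖ = ‖φ‖ := by rw [hψ, norm_mul, hu1, one_mul]
    have h1 : ∃ b, σ b * ψ.re = |ψ.re| := by
      rcases le_total 0 ψ.re with h | h
      · exact ⟨true, by simp [hσ, abs_of_nonneg h]⟩
      · exact ⟨false, by simp [hσ, abs_of_nonpos h]⟩
    have h2 : ∃ b, -(σ b * ψ.im) = |ψ.im| := by
      rcases le_total 0 ψ.im with h | h
      · exact ⟨false, by simp [hσ, abs_of_nonneg h]⟩
      · exact ⟨true, by simp [hσ, abs_of_nonpos h]⟩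
    obtain ⟨b, hb⟩ := h1
    obtain ⟨c, hc⟩ := h2
    refine ⟨(b, c), ?_⟩
    show ‖φ‖ / 2 ≤ ((⟨σ b * (4 / 5), σ c * (3 / 5)⟩ * u) * φ : ℂ).re
    rw [mul_assoc, ← hψ, Complex.mul_re]
    show ‖φ‖ / 2 ≤ σ b * (4 / 5) * ψ.re - σ c * (3 / 5) * ψ.im
    have h3 := Complex.norm_le_abs_re_add_abs_im ψ
    have h4 := norm_nonneg ψ
    have h5 := abs_nonneg ψ.re
    have h6 := abs_nonneg ψ.im
    rw [← hψn]
    nlinarith

/-- the region -/
def S2_E (R K : ℝ) : Set (ℂ × ℂ) :=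
  {p : ℂ × ℂ | 0 < ‖p.1‖ ∧ ‖p.1‖ < R ∧ K / 4 < ‖p.2‖ ∧ ‖p.2‖ < 9 * K / 10}

lemma S2_E_meas (R K : ℝ) : MeasurableSet (S2_E R K) := by
  unfold S2_E
  have h1 : IsOpen {p : ℂ × ℂ | 0 < ‖p.1‖} := isOpen_lt continuous_const continuous_fst.norm
  have h2 : IsOpen {p : ℂ × ℂ | ‖p.1‖ < R} := isOpen_lt continuous_fst.norm continuous_const
  have h3 : IsOpen {p : ℂ × ℂ | K / 4 < ‖p.2‖} := isOpen_lt continuous_const continuous_snd.norm
  have h4 : IsOpen {p : ℂ × ℂ | ‖p.2‖ < 9 * K / 10} := isOpen_lt continuous_snd.norm continuous_const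
  exact (h1.inter (h2.inter (h3.inter h4))).measurableSet

lemma S2_cont (f : P2) : Continuous (ev f) := (contDiff_real_ev f).continuous

variable {m : ℕ} {a B h : P2} {ρ : ℝ} {M : Measure (ℂ × ℂ)} {K Cb : ℝ}

lemma S2_q (D : SNData m a B h ρ M K Cb) {R : ℝ} (hRK : R ≤ K / 2)
    (hR' : Cb * R ≤ ‖cf 0 1 B‖ * K / 400) {p : ℂ × ℂ} (hp : p ∈ S2_E R K) :
    ‖ev a p - ev a 0‖ ≤ ‖ev a 0‖ / 100 ∧ ‖ev B p / p.2 - cf 0 1 B‖ ≤ ‖cf 0 1 B‖ / 50 ∧
      ‖cf 0 1 B‖ * K / 5 ≤ ‖ev B p‖ := by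
  obtain ⟨h1, h2, h3, h4⟩ := hp
  have hK := D.hK
  have hpK : ‖p‖ ≤ K := by
    rw [Prod.norm_def]
    exact max_le (by linarith) (by linarith)
  have hτ : 0 ≤ ‖cf 0 1 B‖ := norm_nonneg _
  have hB := D.hB' p hpK
  have hCb := D.hCb
  have hC : Cb * ‖p.1‖ ≤ ‖cf 0 1 B‖ * K / 400 :=
    (mul_le_mul_of_nonneg_left h2.le hCb).trans hR'
  have hy : 0 < ‖p.2‖ := by linarith
  have hy0 : p.2 ≠ 0 := norm_pos_iff.1 hy
  refine ⟨D.ha' p hpK, ?_, ?_⟩
  · have e : ev B p / p.2 - cf 0 1 B = (ev B p - cf 0 1 B * p.2) / p.2 := by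
      field_simp
    rw [e, norm_div, div_le_iff₀ hy]
    nlinarith
  · have h5 : ‖cf 0 1 B * p.2‖ ≤ ‖ev B p‖ + ‖ev B p - cf 0 1 B * p.2‖ := by
      have : cf 0 1 B * p.2 = ev B p - (ev B p - cf 0 1 B * p.2) := by ring
      calc ‖cf 0 1 B * p.2‖ = ‖ev B p - (ev B p - cf 0 1 B * p.2)‖ := by rw [← this]
        _ ≤ _ := norm_sub_le _ _
    rw [norm_mul] at h5
    nlinarith

lemma S2_fin (D : SNData m a B h ρ M K Cb) {R : ℝ} (hRK : R ≤ K / 2)
    (hR' : Cb * R ≤ ‖cf 0 1 B‖ * K / 400) : M (S2_E R K) < ⊤ := by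
  have hK := D.hK
  have hτ : 0 < ‖cf 0 1 B‖ := norm_pos_iff.2 D.hτ
  set c : ℝ := (‖cf 0 1 B‖ * K / 5) ^ 2 with hc
  have hc0 : 0 < c := by positivity
  have hmeas : Measurable fun p : ℂ × ℂ => ENNReal.ofReal (nsq (vf (X 0 ^ m * a) B p)) := by
    unfold nsq vf
    have h1 := (S2_cont (X 0 ^ m * a)).measurable
    have h2 := (S2_cont B).measurable
    exact ((h1.norm.pow_const 2).add (h2.norm.pow_const 2)).ennreal_ofReal
  have h1 := mul_meas_ge_le_lintegral hmeas (μ := M) (ENNReal.ofReal c)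
  have h2 := D.inv.fin
  have hsub : S2_E R K ⊆
      {p | ENNReal.ofReal c ≤ ENNReal.ofReal (nsq (vf (X 0 ^ m * a) B p))} := by
    intro p hp
    obtain ⟨-, -, h3⟩ := S2_q D hRK hR' hp
    apply ENNReal.ofReal_le_ofReal
    unfold nsq vf
    have h4 : c ≤ ‖ev B p‖ ^ 2 := by
      rw [hc]
      exact pow_le_pow_left₀ (by positivity) h3 2
    have h5 : 0 ≤ ‖ev (X 0 ^ m * a) p‖ ^ 2 := by positivity
    simp only
    linarith
  refine lt_of_le_of_lt (measure_mono hsub) ?_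
  have hc' : ENNReal.ofReal c ≠ 0 := by simpa using hc0
  by_contra htop
  rw [not_lt, top_le_iff] at htop
  rw [htop, ENNReal.mul_top hc'] at h1
  exact absurd (lt_of_le_of_lt h1 h2) (lt_irrefl _)

lemma S2_null (D : SNData m a B h ρ M K Cb) {R : ℝ} (hR : 0 < R) (hRK : R ≤ K / 2)
    (hR' : Cb * R ≤ ‖cf 0 1 B‖ * K / 400) {κ : ℂ} (hκ : ‖κ‖ = 1)
    (hκα : ‖ev a 0 * conj (cf 0 1 B)‖ / 2 ≤ |(κ * (ev a 0 * conj (cf 0 1 B))).im|) :
    M {p : ℂ × ℂ | p ∈ S2_E R K ∧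
      1 / ((m - 1) * R ^ (m - 1)) < (κ * (-1 / ((m - 1) * p.1 ^ (m - 1)))).re} = 0 := by
  have hK := D.hK
  set T0 : ℝ := 1 / ((m - 1) * R ^ (m - 1)) with hT0
  set G : ℝ → ℝ := fun t => expNegInvGlue (t - T0) with hG
  set χ : ℝ → ℝ := fun t => expNegInvGlue (t - K / 4) * expNegInvGlue (9 * K / 10 - t) with hχ
  have hGd : ∀ t, deriv G t = ((t - T0)⁻¹) ^ 2 * expNegInvGlue (t - T0) := by
    intro t
    have h1 := (S2_hasDeriv (t - T0)).comp t ((hasDerivAt_id t).sub_const T0)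
    have h2 := h1.deriv
    rw [mul_one] at h2
    exact h2
  have hGsm : ContDiff ℝ ∞ G := by
    rw [hG]
    exact expNegInvGlue.contDiff.comp (by fun_prop)
  have hχsm : ContDiff ℝ ∞ χ := by
    rw [hχ]
    exact (expNegInvGlue.contDiff.comp (by fun_prop)).mul (expNegInvGlue.contDiff.comp (by fun_prop))
  have hGd0 : ∀ t, 0 ≤ deriv G t := by
    intro t
    rw [hGd]
    exact mul_nonneg (sq_nonneg _) (expNegInvGlue.nonneg _)
  have hGd2 : ∀ t, deriv G t ≤ 2 := by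
    intro t
    rw [hGd]
    exact S2_deriv_le _
  have hχ0 : ∀ t, 0 ≤ χ t := fun t => mul_nonneg (expNegInvGlue.nonneg _) (expNegInvGlue.nonneg _)
  have hχ1 : ∀ t, χ t ≤ 1 := fun t =>
    mul_le_one₀ (S2_glue_le _) (expNegInvGlue.nonneg _) (S2_glue_le _)
  set f : ℂ × ℂ → ℝ := fun p =>
    deriv G (κ * (-1 / ((m - 1) * p.1 ^ (m - 1)))).re * χ ‖p.2‖ *
      (κ * ev a p * conj (ev B p / p.2)).im with hf
  have hint : ∫ p in S2_E R K, f p ∂M = 0 := by
    refine sn_wedge D R hR hRK hR' κ hκ G χ hGsm ⟨2, fun t => ⟨?_, ?_⟩⟩ ?_ hχsm ?_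
    · rw [abs_of_nonneg (expNegInvGlue.nonneg _)]
      have := S2_glue_le (t - T0)
      show expNegInvGlue (t - T0) ≤ 2
      linarith
    · rw [abs_of_nonneg (hGd0 t)]
      exact hGd2 t
    · intro t ht
      exact expNegInvGlue.zero_of_nonpos (by linarith)
    · intro t ht
      show expNegInvGlue (t - K / 4) * expNegInvGlue (9 * K / 10 - t) = 0
      rcases ht with ht | ht
      · rw [expNegInvGlue.zero_of_nonpos (by linarith), zero_mul]
      · rw [expNegInvGlue.zero_of_nonpos (x := 9 * K / 10 - t) (by linarith), mul_zero]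
  have hτ : 0 < ‖cf 0 1 B‖ := norm_pos_iff.2 D.hτ
  have ha0 : 0 < ‖ev a 0‖ := norm_pos_iff.2 D.ha
  have hpos : 0 < ‖ev a 0‖ * ‖cf 0 1 B‖ := mul_pos ha0 hτ
  rw [norm_mul, Complex.norm_conj] at hκα
  -- the sign
  have hsign : ∃ s : ℝ, (s = 1 ∨ s = -1) ∧ ∀ p ∈ S2_E R K,
      0 < s * (κ * ev a p * conj (ev B p / p.2)).im := by
    rcases le_total 0 (κ * (ev a 0 * conj (cf 0 1 B))).im with hs | hs
    · refine ⟨1, Or.inl rfl, fun p hp => ?_⟩
      obtain ⟨h1, h2, -⟩ := S2_q D hRK hR' hp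
      have h3 := abs_le.1 (S2_im hκ h1 h2)
      rw [abs_of_nonneg hs] at hκα
      linarith [h3.1]
    · refine ⟨-1, Or.inr rfl, fun p hp => ?_⟩
      obtain ⟨h1, h2, -⟩ := S2_q D hRK hR' hp
      have h3 := abs_le.1 (S2_im hκ h1 h2)
      rw [abs_of_nonpos hs] at hκα
      linarith [h3.2]
  obtain ⟨s, hs1, hs⟩ := hsign
  have hfm : Measurable f := by
    rw [hf]
    have m1 : Measurable (deriv G) := (hGsm.continuous_deriv (by simp)).measurable
    have m2 : Measurable χ := hχsm.continuous.measurable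
    have m3 : Measurable (ev a) := (S2_cont a).measurable
    have m4 : Measurable (ev B) := (S2_cont B).measurable
    have m5 : Measurable fun p : ℂ × ℂ => (κ * (-1 / ((m - 1) * p.1 ^ (m - 1)))).re := by
      refine Complex.measurable_re.comp ?_
      refine Measurable.const_mul ?_ κ
      refine Measurable.const_div ?_ (-1)
      exact Measurable.const_mul (measurable_fst.pow_const _) _
    have m6 : Measurable fun p : ℂ × ℂ => (κ * ev a p * conj (ev B p / p.2)).im := by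
      refine Complex.measurable_im.comp ?_
      refine (m3.const_mul κ).mul ?_
      exact Complex.continuous_conj.measurable.comp (m4.div measurable_snd)
    exact ((m1.comp m5).mul (m2.comp measurable_snd.norm)).mul m6
  have hfi : IntegrableOn f (S2_E R K) M := by
    refine Measure.integrableOn_of_bounded (M := 2 * 1 * (2 * (‖ev a 0‖ * ‖cf 0 1 B‖)))
      (S2_fin D hRK hR').ne hfm.aestronglyMeasurable ?_
    refine (ae_restrict_iff' (S2_E_meas R K)).2 (Filter.Eventually.of_forall fun p hp => ?_)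
    rw [hf]
    simp only [norm_mul, Real.norm_eq_abs]
    obtain ⟨h1, h2, -⟩ := S2_q D hRK hR' hp
    have h3 := abs_le.1 (S2_im hκ h1 h2)
    have h4 : |(κ * (ev a 0 * conj (cf 0 1 B))).im| ≤ ‖ev a 0‖ * ‖cf 0 1 B‖ := by
      refine (Complex.abs_im_le_norm _).trans ?_
      rw [norm_mul, norm_mul, hκ, one_mul, Complex.norm_conj]
    have h5 := abs_le.1 h4
    refine mul_le_mul (mul_le_mul ?_ ?_ (abs_nonneg _) (by norm_num)) ?_ (abs_nonneg _) (by norm_num)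
    · rw [abs_of_nonneg (hGd0 _)]
      exact hGd2 _
    · rw [abs_of_nonneg (hχ0 _)]
      exact hχ1 _
    · rw [abs_le]
      constructor <;> linarith [h3.1, h3.2, h5.1, h5.2]
  have hsf : ∫ p in S2_E R K, s * f p ∂M = 0 := by
    rw [integral_const_mul, hint, mul_zero]
  have hnn : 0 ≤ᵐ[M.restrict (S2_E R K)] fun p => s * f p := by
    refine (ae_restrict_iff' (S2_E_meas R K)).2 (Filter.Eventually.of_forall fun p hp => ?_)
    have h1 := hs p hp
    show 0 ≤ s * (deriv G (κ * (-1 / ((m - 1) * p.1 ^ (m - 1)))).re * χ ‖p.2‖ *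
      (κ * ev a p * conj (ev B p / p.2)).im)
    have h2 := mul_nonneg (hGd0 (κ * (-1 / ((m - 1) * p.1 ^ (m - 1)))).re) (hχ0 ‖p.2‖)
    have h3 := mul_nonneg h2 h1.le
    linarith
  have hae := (setIntegral_eq_zero_iff_of_nonneg_ae hnn (hfi.const_mul s)).1 hsf
  have hae2 := (ae_restrict_iff' (S2_E_meas R K)).1 hae
  refine measure_mono_null ?_ (ae_iff.1 hae2)
  rintro p ⟨hp, hT⟩
  simp only [Set.mem_ofPred_eq, Classical.not_imp]
  refine ⟨hp, ?_⟩
  have h1 := hs p hp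
  have h2 : 0 < deriv G (κ * (-1 / ((m - 1) * p.1 ^ (m - 1)))).re := by
    rw [hGd]
    have h3 : 0 < (κ * (-1 / ((m - 1) * p.1 ^ (m - 1)))).re - T0 := by linarith
    have h4 := expNegInvGlue.pos_of_pos h3
    positivity
  have h3 : 0 < χ ‖p.2‖ := by
    obtain ⟨-, -, h5, h6⟩ := hp
    exact mul_pos (expNegInvGlue.pos_of_pos (by linarith)) (expNegInvGlue.pos_of_pos (by linarith))
  have h4 := mul_pos (mul_pos h2 h3) h1
  show ¬ (s * (deriv G (κ * (-1 / ((m - 1) * p.1 ^ (m - 1)))).re * χ ‖p.2‖ *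
      (κ * ev a p * conj (ev B p / p.2)).im) = 0)
  intro h0
  have : deriv G (κ * (-1 / ((m - 1) * p.1 ^ (m - 1)))).re * χ ‖p.2‖ *
      (s * (κ * ev a p * conj (ev B p / p.2)).im) = 0 := by
    rw [← h0]; ring
  linarith

theorem sn_annZero {m : ℕ} {a B h : P2} {ρ : ℝ} {M : Measure (ℂ × ℂ)} {K Cb : ℝ} (D : SNData m a B h ρ M K Cb) :
    ∃ R : ℝ, 0 < R ∧ R ≤ K / 2 ∧ Cb * R ≤ ‖cf 0 1 B‖ * K / 400 ∧ AnnZero M R K := by
  have hK := D.hK
  have hCb := D.hCb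
  have hτ : 0 < ‖cf 0 1 B‖ := norm_pos_iff.2 D.hτ
  have hm := D.hm
  set R0 : ℝ := min (K / 2) (‖cf 0 1 B‖ * K / (400 * (Cb + 1))) with hR0
  have hR0p : 0 < R0 := lt_min (by linarith) (by positivity)
  have hR0K : R0 ≤ K / 2 := min_le_left _ _
  have hR0' : Cb * R0 ≤ ‖cf 0 1 B‖ * K / 400 := by
    have h1 : R0 ≤ ‖cf 0 1 B‖ * K / (400 * (Cb + 1)) := min_le_right _ _
    have h2 : Cb * R0 ≤ (Cb + 1) * R0 := by nlinarith
    have h3 : (Cb + 1) * R0 ≤ (Cb + 1) * (‖cf 0 1 B‖ * K / (400 * (Cb + 1))) :=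
      mul_le_mul_of_nonneg_left h1 (by linarith)
    have h4 : (Cb + 1) * (‖cf 0 1 B‖ * K / (400 * (Cb + 1))) = ‖cf 0 1 B‖ * K / 400 := by
      field_simp
    linarith
  have hα : ev a 0 * conj (cf 0 1 B) ≠ 0 :=
    mul_ne_zero D.ha ((map_ne_zero _).2 D.hτ)
  obtain ⟨κ, hκ1, hκ2⟩ := S2_dir hα
  have hnull := measure_iUnion_null (fun i => S2_null D hR0p hR0K hR0' (hκ1 i).1 (hκ1 i).2)
  refine ⟨R0 / 2, by linarith, by linarith, ?_, ?_⟩
  · have h1 : Cb * (R0 / 2) ≤ Cb * R0 := mul_le_mul_of_nonneg_left (by linarith) hCb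
    linarith
  · unfold AnnZero
    refine measure_mono_null ?_ hnull
    rintro p ⟨h1, h2, h3, h4⟩
    have hmr : (0 : ℝ) < (m : ℝ) - 1 := by
      have : (2 : ℝ) ≤ m := by exact_mod_cast hm
      linarith
    obtain ⟨i, hi⟩ := hκ2 (-1 / ((m - 1) * p.1 ^ (m - 1)))
    rw [Set.mem_iUnion]
    refine ⟨i, ⟨h1, by linarith, by linarith, by linarith⟩, ?_⟩
    refine lt_of_lt_of_le ?_ hi
    have hmc : ‖((m : ℂ) - 1)‖ = (m : ℝ) - 1 := by
      have e : ((m : ℂ) - 1) = (((m : ℝ) - 1 : ℝ) : ℂ) := by push_cast; ring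
      rw [e, Complex.norm_real, Real.norm_eq_abs, abs_of_pos hmr]
    rw [norm_div, norm_neg, norm_one, norm_mul, norm_pow, hmc]
    have h5 : ‖p.1‖ ^ (m - 1) < (R0 / 2) ^ (m - 1) :=
      pow_lt_pow_left₀ h2 h1.le (by omega)
    have h6 : (R0 / 2) ^ (m - 1) ≤ R0 ^ (m - 1) / 2 := by
      rw [div_pow]
      have h7 : (2 : ℝ) ≤ 2 ^ (m - 1) := by
        calc (2 : ℝ) = 2 ^ 1 := by norm_num
          _ ≤ 2 ^ (m - 1) := pow_le_pow_right₀ (by norm_num) (by omega)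
      exact div_le_div_of_nonneg_left (by positivity) (by norm_num) h7
    have h8 : 0 < ‖p.1‖ ^ (m - 1) := pow_pos h1 _
    have h9 : 0 < R0 ^ (m - 1) := pow_pos hR0p _
    rw [div_div, div_lt_div_iff₀ (by positivity) (by positivity)]
    nlinarith

end FC76

end S_H76_FL_S2

section S_H76_FL_S3

/-!
# Row S3: Weyl's lemma for the dbar operator

λ a measure on Ω, ξ : Ω → ℂ, w : Ω → ℂ measurable, ‖w‖ <= C, U open, λ(ξ⁻¹ U) < oo, and ∫ dbar χ(ξ) w dλ = 0 for every smooth complex χ with compact support in U.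
CLAIM: there is b holomorphic on U with ∫ χ(ξ) w dλ = ∫ χ b (Lebesgue) for all continuous χ with compact support in U.
Proof.  Let η >= 0 be a smooth radial bump on ℂ, supported in the unit ball, ∫ η = 1, η_ε(z) = ε^(-2) η(z/ε).
 For z in U with dist(z, U^c) > ε put b_ε(z) := ∫ η_ε(z - ξ) w dλ.  b_ε is smooth there (differentiate under the integral; finite measure) and dbar b_ε(z) = ∫ (dbar η_ε)(z - ξ) w dλ = - ∫ dbar[ζ ↦ η_ε(z - ζ)](ξ) w dλ = 0, so b_ε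
 is holomorphic on U_ε (real differentiable + Cauchy-Riemann = complex differentiable).
 For ε, δ: on U_(ε+δ): (b_ε * η_δ)(z) = ∫∫ η_ε(z - ζ - ξ) η_δ(ζ) w = (b_δ * η_ε)(z) (Fubini, symmetry of convolution), and b_ε * η_δ = b_ε by the mean value property of holomorphic functions (η_δ radial: polar coordinates,
 `circleAverage`, or: write b_ε as a power series; or use `DiffContOnCl.circleAverage`/Cauchy integral formula), similarly b_δ * η_ε = b_δ.  So b_ε = b_δ on U_(ε+δ): together they define b on U, holomorphic.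
 For χ continuous with compact support in U: ∫ χ(ξ) w dλ = lim_ε ∫ (χ * η_ε)(ξ) w dλ = lim_ε ∫ χ(z) b_ε(z) dz (Fubini; η_ε even) = ∫ χ b for ε small.

`weyl_real`: w = 1, U = pdisc R: then for real χ the integrals ∫ χ b are real, so b is real valued on pdisc R (continuity), a real valued holomorphic function on the connected open set pdisc R is constant
 (`isPreconnected` of the punctured disc; open mapping or derivative zero), and the constant k is >= 0 because λ is positive.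
-/

open MeasureTheory
open scoped ContDiff ComplexConjugate

namespace FC76

/-- profile: 0 for s <= 1, 1 for s >= 2 -/
noncomputable def S3_P (s : ℝ) : ℝ := Real.smoothTransition (s - 1)

theorem S3_P_smooth : ContDiff ℝ ∞ S3_P :=
  Real.smoothTransition.contDiff.comp (contDiff_id.sub contDiff_const)

theorem S3_P_zero {s : ℝ} (h : s ≤ 1) : S3_P s = 0 :=
  Real.smoothTransition.zero_of_nonpos (by linarith)

theorem S3_P_one {s : ℝ} (h : 2 ≤ s) : S3_P s = 1 :=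
  Real.smoothTransition.one_of_one_le (by linarith)

theorem S3_P_mono : Monotone S3_P := fun a b h =>
  Real.smoothTransition.monotone (by linarith)

/-- the mollifier -/
noncomputable def S3_E (ε : ℝ) (z : ℂ) : ℝ := deriv S3_P (‖z‖ ^ 2 / ε ^ 2) / ε ^ 2

/-- its dbar primitive -/
noncomputable def S3_G (ε : ℝ) (z : ℂ) : ℂ := (S3_P (‖z‖ ^ 2 / ε ^ 2) : ℂ) * z⁻¹

theorem S3_E_nonneg (ε : ℝ) (z : ℂ) : 0 ≤ S3_E ε z :=
  div_nonneg (S3_P_mono.deriv_nonneg) (by positivity)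

theorem S3_dP_smooth : ContDiff ℝ ∞ (deriv S3_P) := (contDiff_infty_iff_deriv.1 S3_P_smooth).2

theorem S3_E_smooth (ε : ℝ) : ContDiff ℝ ∞ (S3_E ε) :=
  (S3_dP_smooth.comp ((contDiff_norm_sq ℝ).div_const _)).div_const _

theorem S3_Ec_smooth (ε : ℝ) : ContDiff ℝ ∞ (fun z => (S3_E ε z : ℂ)) :=
  Complex.ofRealCLM.contDiff.comp (S3_E_smooth ε)

theorem S3_dP_zero {s : ℝ} (h : s < 1) : deriv S3_P s = 0 := by
  have h1 : S3_P =ᶠ[nhds s] fun _ => (0 : ℝ) := by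
    filter_upwards [Iio_mem_nhds h] with t ht
    exact S3_P_zero (le_of_lt ht)
  rw [h1.deriv_eq]
  simp

theorem S3_dP_zero' {s : ℝ} (h : 2 < s) : deriv S3_P s = 0 := by
  have h1 : S3_P =ᶠ[nhds s] fun _ => (1 : ℝ) := by
    filter_upwards [Ioi_mem_nhds h] with t ht
    exact S3_P_one (le_of_lt ht)
  rw [h1.deriv_eq]
  simp

theorem S3_big {ε : ℝ} (hε : 0 < ε) {z : ℂ} (h : 2 * ε ≤ ‖z‖) : 2 < ‖z‖ ^ 2 / ε ^ 2 := by
  rw [lt_div_iff₀ (by positivity)]
  nlinarith [norm_nonneg z]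

theorem S3_small {ε : ℝ} (hε : 0 < ε) {z : ℂ} (h : ‖z‖ < ε) : ‖z‖ ^ 2 / ε ^ 2 < 1 := by
  rw [div_lt_iff₀ (by positivity)]
  nlinarith [norm_nonneg z]

theorem S3_E_zero {ε : ℝ} (hε : 0 < ε) {z : ℂ} (h : 2 * ε ≤ ‖z‖) : S3_E ε z = 0 := by
  unfold S3_E
  rw [S3_dP_zero' (S3_big hε h), zero_div]

theorem S3_G_near {ε : ℝ} (hε : 0 < ε) {z : ℂ} (h : ‖z‖ < ε) : S3_G ε z = 0 := by
  unfold S3_G
  rw [S3_P_zero (S3_small hε h).le]
  simp

theorem S3_G_far {ε : ℝ} (hε : 0 < ε) {z : ℂ} (h : 2 * ε ≤ ‖z‖) : S3_G ε z = z⁻¹ := by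
  unfold S3_G
  rw [S3_P_one (S3_big hε h).le]
  simp

theorem S3_G_smooth {ε : ℝ} (hε : 0 < ε) : ContDiff ℝ ∞ (S3_G ε) := by
  rw [contDiff_iff_contDiffAt]
  intro z
  by_cases hz : z = 0
  · have h1 : S3_G ε =ᶠ[nhds z] fun _ => (0 : ℂ) := by
      filter_upwards [Metric.ball_mem_nhds z hε] with w hw
      refine S3_G_near hε ?_
      rwa [hz, Metric.mem_ball, dist_zero_right] at hw
    exact contDiffAt_const.congr_of_eventuallyEq h1
  · have h1 : ContDiff ℝ ∞ (fun z : ℂ => (S3_P (‖z‖ ^ 2 / ε ^ 2) : ℂ)) :=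
      Complex.ofRealCLM.contDiff.comp (S3_P_smooth.comp ((contDiff_norm_sq ℝ).div_const _))
    exact h1.contDiffAt.mul (contDiffAt_inv ℝ hz)

theorem S3_dbar_G {ε : ℝ} (hε : 0 < ε) (z : ℂ) : dbar (S3_G ε) z = (S3_E ε z : ℂ) := by
  by_cases hz : z = 0
  · have h1 : S3_G ε =ᶠ[nhds z] fun _ => (0 : ℂ) := by
      filter_upwards [Metric.ball_mem_nhds z hε] with w hw
      refine S3_G_near hε ?_
      rwa [hz, Metric.mem_ball, dist_zero_right] at hw
    have h2 : S3_E ε z = 0 := by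
      unfold S3_E
      rw [hz, S3_dP_zero, zero_div]
      simp
    unfold dbar
    rw [h1.fderiv_eq, h2]
    simp
  · have hq : HasFDerivAt (fun z : ℂ => ‖z‖ ^ 2 / ε ^ 2) ((ε ^ 2)⁻¹ • (2 • innerSL ℝ z)) z := by
      have h := (hasStrictFDerivAt_norm_sq z).hasFDerivAt.mul_const ((ε ^ 2)⁻¹)
      simpa only [div_eq_mul_inv] using h
    have hP : HasDerivAt S3_P (deriv S3_P (‖z‖ ^ 2 / ε ^ 2)) (‖z‖ ^ 2 / ε ^ 2) :=
      ((S3_P_smooth.differentiable (by simp)) _).hasDerivAt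
    have h1 := hP.comp_hasFDerivAt z hq
    have h2 := Complex.ofRealCLM.hasFDerivAt.comp z h1
    have h3 : HasFDerivAt (fun z : ℂ => z⁻¹)
        ((ContinuousLinearMap.toSpanSingleton ℂ (-(z ^ 2)⁻¹)).restrictScalars ℝ) z :=
      ((hasDerivAt_inv hz).hasFDerivAt).restrictScalars ℝ
    have h4 := h2.mul h3
    have h5 : HasFDerivAt (S3_G ε) _ z := h4
    unfold dbar
    rw [h5.fderiv]
    unfold S3_E
    have hzz : z⁻¹ * z = 1 := inv_mul_cancel₀ hz
    have hre : (z.re : ℂ) + z.im * Complex.I = z := Complex.re_add_im z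
    simp [Complex.inner]
    linear_combination (-((S3_P (‖z‖ ^ 2 / ε ^ 2) : ℝ) : ℂ) * (z ^ 2)⁻¹ / 2) * Complex.I_sq +
      (z⁻¹ * ((deriv S3_P (‖z‖ ^ 2 / ε ^ 2) : ℝ) : ℂ) * ((ε : ℂ) ^ 2)⁻¹) * hre +
      (((deriv S3_P (‖z‖ ^ 2 / ε ^ 2) : ℝ) : ℂ) * ((ε : ℂ) ^ 2)⁻¹) * hzz

theorem S3_E_cs {ε : ℝ} (hε : 0 < ε) : HasCompactSupport (S3_E ε) := by
  refine HasCompactSupport.intro (isCompact_closedBall (0 : ℂ) (2 * ε)) fun z hz => ?_
  rw [Metric.mem_closedBall, dist_zero_right, not_le] at hz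
  exact S3_E_zero hε hz.le

theorem S3_Ec_cs {ε : ℝ} (hε : 0 < ε) : HasCompactSupport (fun z => (S3_E ε z : ℂ)) := by
  refine HasCompactSupport.intro (isCompact_closedBall (0 : ℂ) (2 * ε)) fun z hz => ?_
  rw [Metric.mem_closedBall, dist_zero_right, not_le] at hz
  rw [S3_E_zero hε hz.le]
  rfl

/-- the total mass of the mollifier -/
noncomputable def S3_c : ℝ := ∫ z : ℂ, S3_E 1 z

theorem S3_c_pos : 0 < S3_c := by
  obtain ⟨s, hs, hs'⟩ := exists_deriv_eq_slope S3_P (by norm_num : (1 : ℝ) < 2)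
    S3_P_smooth.continuous.continuousOn (S3_P_smooth.differentiable (by simp)).differentiableOn
  rw [S3_P_one le_rfl, S3_P_zero le_rfl] at hs'
  have hs0 : 0 ≤ s := by linarith [hs.1]
  have h0 : S3_E 1 ((Real.sqrt s : ℝ) : ℂ) ≠ 0 := by
    unfold S3_E
    rw [Complex.norm_real, Real.norm_eq_abs, sq_abs, Real.sq_sqrt hs0]
    norm_num
    rw [hs']
    norm_num
  exact (S3_E_smooth 1).continuous.integral_pos_of_hasCompactSupport_nonneg_nonzero
    (S3_E_cs one_pos) (S3_E_nonneg 1) h0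

theorem S3_int_E {ε : ℝ} (hε : 0 < ε) : ∫ z : ℂ, S3_E ε z = S3_c := by
  have h1 : ∀ z : ℂ, S3_E ε z = (ε ^ 2)⁻¹ * S3_E 1 (ε⁻¹ • z) := by
    intro z
    unfold S3_E
    rw [norm_smul, Real.norm_eq_abs, mul_pow, sq_abs]
    have e : ε⁻¹ ^ 2 * ‖z‖ ^ 2 / 1 ^ 2 = ‖z‖ ^ 2 / ε ^ 2 := by
      rw [inv_pow]
      ring
    rw [e]
    ring
  simp only [h1]
  rw [integral_const_mul, Measure.integral_comp_inv_smul_of_nonneg volume _ hε.le,
    Complex.finrank_real_complex, smul_eq_mul, ← mul_assoc, inv_mul_cancel₀ (by positivity),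
    one_mul]
  rfl

theorem S3_int_E' {ε : ℝ} (hε : 0 < ε) (x : ℂ) : ∫ z : ℂ, S3_E ε (z - x) = S3_c := by
  rw [integral_sub_right_eq_self (fun z => S3_E ε z) x]
  exact S3_int_E hε

theorem S3_dbar_comp {f : ℂ → ℂ} {z x : ℂ} (hf : DifferentiableAt ℝ f (z - x)) :
    HasFDerivAt (fun y => f (z - y)) (-(fderiv ℝ f (z - x))) x := by
  have h1 : HasFDerivAt (fun y : ℂ => z - y) (-(ContinuousLinearMap.id ℝ ℂ)) x :=
    (hasFDerivAt_id x).const_sub z
  have h2 := hf.hasFDerivAt.comp x h1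
  have e : (fderiv ℝ f (z - x)).comp (-(ContinuousLinearMap.id ℝ ℂ)) = -(fderiv ℝ f (z - x)) := by
    ext v
    simp
  rw [e] at h2
  exact h2

theorem S3_dbar_comp' {f : ℂ → ℂ} (hf : Differentiable ℝ f) (z x : ℂ) :
    dbar (fun y => f (z - y)) x = - dbar f (z - x) := by
  unfold dbar
  rw [(S3_dbar_comp (hf _)).fderiv]
  simp only [neg_apply]
  ring

section finite

variable {Ω : Type*} [MeasurableSpace Ω] (lam : Measure Ω) [IsFiniteMeasure lam]
  (ξ w : Ω → ℂ) (hξ : Measurable ξ) (hw : Measurable w)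
  (C : ℝ) (hwb : ∀ o, ‖w o‖ ≤ C)

include hξ hw hwb in
theorem S3_integ {f : ℂ → ℂ} (hf : Continuous f) (B : ℝ) (hB : ∀ x, ‖f x‖ ≤ B) :
    Integrable (fun o => f (ξ o) * w o) lam := by
  refine Integrable.of_bound ((hf.measurable.comp hξ).mul hw).aestronglyMeasurable (B * C) ?_
  refine Filter.Eventually.of_forall fun o => ?_
  rw [norm_mul]
  exact mul_le_mul (hB _) (hwb o) (norm_nonneg _) ((norm_nonneg _).trans (hB (ξ o)))

theorem S3_E_bd {ε : ℝ} (hε : 0 < ε) : ∃ B : ℝ, ∀ x : ℂ, ‖(S3_E ε x : ℂ)‖ ≤ B :=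
  (S3_Ec_cs hε).exists_bound_of_continuous (S3_Ec_smooth ε).continuous

include hξ hw hwb in
theorem S3_integE {ε : ℝ} (hε : 0 < ε) (z : ℂ) :
    Integrable (fun o => (S3_E ε (z - ξ o) : ℂ) * w o) lam := by
  obtain ⟨B, hB⟩ := S3_E_bd hε
  exact S3_integ lam ξ w hξ hw C hwb (f := fun x => (S3_E ε (z - x) : ℂ))
    ((S3_Ec_smooth ε).continuous.comp (continuous_const.sub continuous_id)) B (fun x => hB _)

theorem S3_ts {f : ℂ → ℂ} {z : ℂ} {r : ℝ} (h : ∀ x, r < ‖z - x‖ → f x = 0) :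
    HasCompactSupport f ∧ tsupport f ⊆ Metric.closedBall z r := by
  have h1 : ∀ x, x ∉ Metric.closedBall z r → f x = 0 := by
    intro x hx
    rw [Metric.mem_closedBall, not_le, dist_comm, dist_eq_norm] at hx
    exact h x hx
  constructor
  · exact HasCompactSupport.intro (isCompact_closedBall z r) h1
  · refine closure_minimal ?_ Metric.isClosed_closedBall
    intro x hx
    by_contra h2
    exact hx (h1 x h2)

variable (U : Set ℂ)
  (h : ∀ χ : ℂ → ℂ, ContDiff ℝ ∞ χ → HasCompactSupport χ → tsupport χ ⊆ U →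
    ∫ o, dbar χ (ξ o) * w o ∂lam = 0)

include hξ hw hwb h in
theorem S3_indep {ε δ : ℝ} (hε : 0 < ε) (hδ : 0 < δ) {z : ℂ}
    (hz : Metric.closedBall z (2 * max ε δ) ⊆ U) :
    ∫ o, (S3_E ε (z - ξ o) : ℂ) * w o ∂lam = ∫ o, (S3_E δ (z - ξ o) : ℂ) * w o ∂lam := by
  have d1 : Differentiable ℝ (S3_G ε) := (S3_G_smooth hε).differentiable (by simp)
  have d2 : Differentiable ℝ (S3_G δ) := (S3_G_smooth hδ).differentiable (by simp)
  have hs : ContDiff ℝ ∞ (fun x => S3_G ε (z - x) - S3_G δ (z - x)) :=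
    ((S3_G_smooth hε).comp (contDiff_const.sub contDiff_id)).sub
      ((S3_G_smooth hδ).comp (contDiff_const.sub contDiff_id))
  have ht := S3_ts (f := fun x => S3_G ε (z - x) - S3_G δ (z - x)) (z := z)
    (r := 2 * max ε δ) (by
      intro x hx
      have h1 : 2 * ε ≤ ‖z - x‖ := by
        have := le_max_left ε δ
        linarith
      have h2 : 2 * δ ≤ ‖z - x‖ := by
        have := le_max_right ε δ
        linarith
      rw [S3_G_far hε h1, S3_G_far hδ h2, sub_self])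
  have h1 := h _ hs ht.1 (ht.2.trans hz)
  have h2 : ∀ x, dbar (fun x => S3_G ε (z - x) - S3_G δ (z - x)) x =
      (S3_E δ (z - x) : ℂ) - (S3_E ε (z - x) : ℂ) := by
    intro x
    have e1 := S3_dbar_comp (z := z) (x := x) (d1 _)
    have e2 := S3_dbar_comp (z := z) (x := x) (d2 _)
    have e3 := e1.sub e2
    have g1 := S3_dbar_G hε (z - x)
    have g2 := S3_dbar_G hδ (z - x)
    unfold dbar at g1 g2 ⊢
    have e4 : fderiv ℝ (fun x => S3_G ε (z - x) - S3_G δ (z - x)) x =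
      -(fderiv ℝ (S3_G ε) (z - x)) - -(fderiv ℝ (S3_G δ) (z - x)) := e3.fderiv
    rw [e4, ← g1, ← g2]
    simp only [sub_apply, neg_apply]
    ring
  simp only [h2, sub_mul] at h1
  rw [integral_sub (S3_integE lam ξ w hξ hw C hwb hδ z) (S3_integE lam ξ w hξ hw C hwb hε z),
    sub_eq_zero] at h1
  exact h1.symm

include hξ hw hwb h in
theorem S3_hol {ε : ℝ} (hε : 0 < ε) {z : ℂ} (hz : Metric.closedBall z (2 * ε) ⊆ U) :
    DifferentiableAt ℂ (fun z => ∫ o, (S3_E ε (z - ξ o) : ℂ) * w o ∂lam) z := by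
  have hEs := S3_Ec_smooth ε
  have hEd : Differentiable ℝ (fun z => (S3_E ε z : ℂ)) := hEs.differentiable (by simp)
  have hfc : Continuous (fderiv ℝ (fun z => (S3_E ε z : ℂ))) := hEs.continuous_fderiv (by simp)
  obtain ⟨B, hB⟩ := ((S3_Ec_cs hε).fderiv ℝ).exists_bound_of_continuous hfc
  have hB0 : 0 ≤ B := (norm_nonneg _).trans (hB 0)
  have hm : ∀ z : ℂ, StronglyMeasurable
      (fun o => w o • fderiv ℝ (fun z => (S3_E ε z : ℂ)) (z - ξ o)) := by
    intro z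
    exact hw.stronglyMeasurable.smul
      (hfc.comp_stronglyMeasurable ((measurable_const.sub hξ).stronglyMeasurable))
  have hbd : ∀ (z : ℂ) (o : Ω), ‖w o • fderiv ℝ (fun z => (S3_E ε z : ℂ)) (z - ξ o)‖ ≤ C * B := by
    intro z o
    rw [norm_smul]
    exact mul_le_mul (hwb o) (hB _) (norm_nonneg _) ((norm_nonneg _).trans (hwb o))
  have key := hasFDerivAt_integral_of_dominated_of_fderiv_le (μ := lam) (x₀ := z)
    (F := fun z o => (S3_E ε (z - ξ o) : ℂ) * w o)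
    (F' := fun z o => w o • fderiv ℝ (fun z => (S3_E ε z : ℂ)) (z - ξ o))
    (bound := fun _ => C * B) (s := Set.univ) Filter.univ_mem
    (Filter.Eventually.of_forall fun z => (S3_integE lam ξ w hξ hw C hwb hε z).aestronglyMeasurable)
    (S3_integE lam ξ w hξ hw C hwb hε z) (hm z).aestronglyMeasurable
    (Filter.Eventually.of_forall fun o z _ => hbd z o) (integrable_const _)
    (Filter.Eventually.of_forall fun o z _ => by
      have h1 : HasFDerivAt (fun y : ℂ => y - ξ o) (ContinuousLinearMap.id ℝ ℂ) z :=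
        (hasFDerivAt_id z).sub_const _
      have h2 := (hEd (z - ξ o)).hasFDerivAt.comp z h1
      rw [ContinuousLinearMap.comp_id] at h2
      exact h2.mul_const (w o))
  have hI : Integrable (fun o => w o • fderiv ℝ (fun z => (S3_E ε z : ℂ)) (z - ξ o)) lam :=
    Integrable.of_bound (hm z).aestronglyMeasurable (C * B)
      (Filter.Eventually.of_forall fun o => hbd z o)
  rw [differentiableAt_complex_iff_differentiableAt_real]
  refine ⟨key.differentiableAt, ?_⟩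
  rw [key.fderiv, ContinuousLinearMap.integral_apply hI, ContinuousLinearMap.integral_apply hI,
    smul_eq_mul]
  -- the dbar derivative vanishes
  have ht := S3_ts (f := fun x => (S3_E ε (z - x) : ℂ)) (z := z) (r := 2 * ε) (by
      intro x hx
      rw [S3_E_zero hε hx.le]
      rfl)
  have h1 := h (fun x => (S3_E ε (z - x) : ℂ)) (hEs.comp (contDiff_const.sub contDiff_id))
    ht.1 (ht.2.trans hz)
  have h0 : ∀ x, dbar (fun x => (S3_E ε (z - x) : ℂ)) x =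
      -dbar (fun z => (S3_E ε z : ℂ)) (z - x) := fun x => S3_dbar_comp' hEd z x
  simp only [h0] at h1
  have i1 : Integrable (fun o => (w o • fderiv ℝ (fun z => (S3_E ε z : ℂ)) (z - ξ o)) 1) lam :=
    hI.apply_continuousLinearMap 1
  have i2 : Integrable (fun o => (w o • fderiv ℝ (fun z => (S3_E ε z : ℂ)) (z - ξ o)) Complex.I)
      lam := hI.apply_continuousLinearMap Complex.I
  have h2 : ∫ o, -dbar (fun z => (S3_E ε z : ℂ)) (z - ξ o) * w o ∂lam =
      -(1 / 2) * (∫ o, (w o • fderiv ℝ (fun z => (S3_E ε z : ℂ)) (z - ξ o)) 1 ∂lam +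
      Complex.I * ∫ o, (w o • fderiv ℝ (fun z => (S3_E ε z : ℂ)) (z - ξ o)) Complex.I ∂lam) := by
    rw [← integral_const_mul, ← integral_add i1 (i2.const_mul _), ← integral_const_mul]
    refine integral_congr_ae (Filter.Eventually.of_forall fun o => ?_)
    simp only [dbar, smul_apply, smul_eq_mul]
    ring
  rw [h1] at h2
  have h3 := mul_eq_zero.1 h2.symm
  have h4 : (∫ o, (w o • fderiv ℝ (fun z => (S3_E ε z : ℂ)) (z - ξ o)) 1 ∂lam +
      Complex.I * ∫ o, (w o • fderiv ℝ (fun z => (S3_E ε z : ℂ)) (z - ξ o)) Complex.I ∂lam) = 0 := by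
    rcases h3 with h3 | h3
    · norm_num at h3
    · exact h3
  linear_combination (-Complex.I) * h4 +
    (∫ o, (w o • fderiv ℝ (fun z => (S3_E ε z : ℂ)) (z - ξ o)) Complex.I ∂lam) * Complex.I_sq

include hξ hw hwb in
theorem S3_fub {ε : ℝ} (hε : 0 < ε) {χ : ℂ → ℂ} (hχ : Continuous χ) (hcs : HasCompactSupport χ) :
    ∫ z, χ z * ∫ o, (S3_E ε (z - ξ o) : ℂ) * w o ∂lam =
      ∫ o, (∫ z, χ z * (S3_E ε (z - ξ o) : ℂ)) * w o ∂lam := by
  obtain ⟨B, hB⟩ := S3_E_bd hε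
  have hB0 : 0 ≤ B := (norm_nonneg _).trans (hB 0)
  have hC0 : ∀ o, 0 ≤ C := fun o => (norm_nonneg _).trans (hwb o)
  have hint : Integrable (Function.uncurry fun (z : ℂ) (o : Ω) =>
      χ z * ((S3_E ε (z - ξ o) : ℂ) * w o)) (volume.prod lam) := by
    have h1 : Integrable (fun q : ℂ × Ω => ‖χ q.1‖ * (B * C)) (volume.prod lam) :=
      (hχ.integrable_of_hasCompactSupport hcs).norm.mul_prod (integrable_const (B * C))
    refine h1.mono' ?_ ?_
    · refine Measurable.aestronglyMeasurable ?_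
      exact (hχ.measurable.comp measurable_fst).mul
        (((S3_Ec_smooth ε).continuous.measurable.comp
          (measurable_fst.sub (hξ.comp measurable_snd))).mul (hw.comp measurable_snd))
    · refine Filter.Eventually.of_forall fun q => ?_
      show ‖χ q.1 * ((S3_E ε (q.1 - ξ q.2) : ℂ) * w q.2)‖ ≤ _
      rw [norm_mul, norm_mul]
      exact mul_le_mul_of_nonneg_left (mul_le_mul (hB _) (hwb _) (norm_nonneg _) hB0)
        (norm_nonneg _)
  have h2 := integral_integral_swap hint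
  simp only [← integral_const_mul]
  rw [h2]
  refine integral_congr_ae (Filter.Eventually.of_forall fun o => ?_)
  simp only
  rw [← integral_mul_const]
  refine integral_congr_ae (Filter.Eventually.of_forall fun z => ?_)
  simp only
  ring

theorem S3_mol {ε : ℝ} (hε : 0 < ε) {χ : ℂ → ℂ} (hχ : Continuous χ)
    {κ : ℝ} (hκ : ∀ z x : ℂ, ‖z - x‖ ≤ 2 * ε → ‖χ z - χ x‖ ≤ κ) (x : ℂ) :
    ‖(∫ z, χ z * (S3_E ε (z - x) : ℂ)) - χ x * S3_c‖ ≤ κ * S3_c := by
  have hEc : Continuous (fun z => (S3_E ε (z - x) : ℂ)) :=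
    (S3_Ec_smooth ε).continuous.comp (continuous_id.sub continuous_const)
  have hEcs : HasCompactSupport (fun z => (S3_E ε (z - x) : ℂ)) := by
    refine HasCompactSupport.intro (isCompact_closedBall x (2 * ε)) fun z hz => ?_
    rw [Metric.mem_closedBall, not_le, dist_eq_norm] at hz
    rw [S3_E_zero hε hz.le]
    rfl
  have hEr : Integrable (fun z => S3_E ε (z - x)) := by
    have h1 : Integrable (fun z => (S3_E ε (z - x) : ℂ)) volume :=
      hEc.integrable_of_hasCompactSupport hEcs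
    exact h1.re
  have e1 : χ x * S3_c = ∫ z, χ x * (S3_E ε (z - x) : ℂ) := by
    rw [integral_const_mul, integral_complex_ofReal, S3_int_E' hε]
  have i1 : Integrable (fun z => χ z * (S3_E ε (z - x) : ℂ)) :=
    (hχ.mul hEc).integrable_of_hasCompactSupport hEcs.mul_left
  have i2 : Integrable (fun z => χ x * (S3_E ε (z - x) : ℂ)) :=
    (hEc.integrable_of_hasCompactSupport hEcs).const_mul _
  rw [e1, ← integral_sub i1 i2]
  calc ‖∫ z, (χ z * (S3_E ε (z - x) : ℂ) - χ x * (S3_E ε (z - x) : ℂ))‖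
      ≤ ∫ z, κ * S3_E ε (z - x) := by
        refine norm_integral_le_of_norm_le (hEr.const_mul _) ?_
        refine Filter.Eventually.of_forall fun z => ?_
        rw [← sub_mul, norm_mul, Complex.norm_real, Real.norm_eq_abs,
          abs_of_nonneg (S3_E_nonneg _ _)]
        by_cases hz : ‖z - x‖ ≤ 2 * ε
        · exact mul_le_mul_of_nonneg_right (hκ z x hz) (S3_E_nonneg _ _)
        · rw [S3_E_zero hε (not_le.1 hz).le]
          simp
    _ = κ * S3_c := by rw [integral_const_mul, S3_int_E' hε]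

include hξ hw hwb h in
/-- Weyl's lemma for a finite measure -/
theorem S3_weyl (hU : IsOpen U) :
    ∃ b : ℂ → ℂ, DifferentiableOn ℂ b U ∧
      (∀ χ : ℂ → ℂ, Continuous χ → HasCompactSupport χ → tsupport χ ⊆ U →
        ∫ o, χ (ξ o) * w o ∂lam = ∫ z, χ z * b z) ∧
      ∀ z, ∃ ε : ℝ, b z = (∫ o, (S3_E ε (z - ξ o) : ℂ) * w o ∂lam) / S3_c := by
  classical
  have hex : ∀ z : ℂ, ∃ ε : ℝ, 0 < ε ∧ (z ∈ U → Metric.closedBall z (2 * ε) ⊆ U) := by
    intro z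
    by_cases hz : z ∈ U
    · obtain ⟨r, hr, hr'⟩ := Metric.isOpen_iff.1 hU z hz
      refine ⟨r / 4, by positivity, fun _ => ?_⟩
      exact (Metric.closedBall_subset_ball (by linarith)).trans hr'
    · exact ⟨1, one_pos, fun h => absurd h hz⟩
  choose e he0 he using hex
  have hc := S3_c_pos
  have hc' : (S3_c : ℂ) ≠ 0 := Complex.ofReal_ne_zero.2 hc.ne'
  obtain ⟨b, hb⟩ : ∃ b : ℂ → ℂ, ∀ z, b z =
      (∫ o, (S3_E (e z) (z - ξ o) : ℂ) * w o ∂lam) / S3_c := ⟨_, fun _ => rfl⟩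
  have hbe : ∀ z ∈ U, ∀ ε : ℝ, 0 < ε → Metric.closedBall z (2 * ε) ⊆ U →
      b z = (∫ o, (S3_E ε (z - ξ o) : ℂ) * w o ∂lam) / S3_c := by
    intro z hz ε hε hzε
    rw [hb z, S3_indep lam ξ w hξ hw C hwb U h (he0 z) hε]
    rcases le_total (e z) ε with h1 | h1
    · rw [max_eq_right h1]
      exact hzε
    · rw [max_eq_left h1]
      exact he z hz
  refine ⟨b, ?_, ?_, fun z => ⟨e z, hb z⟩⟩
  · intro z hz
    refine DifferentiableAt.differentiableWithinAt ?_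
    obtain ⟨r, hr⟩ : ∃ r, r = e z := ⟨_, rfl⟩
    have hr0 : 0 < r := by rw [hr]; exact he0 z
    have h2 : Metric.closedBall z (2 * r) ⊆ U := by rw [hr]; exact he z hz
    -- on a small ball b is given by one mollifier
    have h3 : b =ᶠ[nhds z] fun z => (∫ o, (S3_E (r / 2) (z - ξ o) : ℂ) * w o ∂lam) / S3_c := by
      filter_upwards [Metric.ball_mem_nhds z hr0] with x hx
      rw [Metric.mem_ball] at hx
      refine hbe x (h2 ?_) (r / 2) (by positivity) ?_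
      · rw [Metric.mem_closedBall]
        linarith
      · refine (Metric.closedBall_subset_closedBall' ?_).trans h2
        linarith
    refine DifferentiableAt.congr_of_eventuallyEq ?_ h3
    refine DifferentiableAt.div_const ?_ _
    refine S3_hol lam ξ w hξ hw C hwb U h (by positivity) ?_
    refine (Metric.closedBall_subset_closedBall ?_).trans h2
    linarith
  · intro χ hχ hcs hsupp
    obtain ⟨δ, hδ, hδU⟩ := hcs.exists_cthickening_subset_open hU hsupp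
    have huc := hcs.uniformContinuous_of_continuous hχ
    have hCn : ∀ o, 0 ≤ C := fun o => (norm_nonneg _).trans (hwb o)
    obtain ⟨B0, hB0⟩ := hcs.exists_bound_of_continuous hχ
    have key : ∀ κ : ℝ, 0 < κ →
        ‖(∫ z, χ z * b z) - ∫ o, χ (ξ o) * w o ∂lam‖ ≤ κ * (|C| * lam.real Set.univ) := by
      intro κ hκ
      obtain ⟨δ', hδ', hd⟩ := Metric.uniformContinuous_iff.1 huc κ hκ
      obtain ⟨ε, hε⟩ : ∃ ε, ε = min δ δ' / 4 := ⟨_, rfl⟩
      have hm : 0 < min δ δ' := lt_min hδ hδ'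
      have hε0 : 0 < ε := by rw [hε]; positivity
      have hε1 : 2 * ε ≤ δ := by
        have := min_le_left δ δ'
        rw [hε]
        linarith
      have hε2 : 2 * ε < δ' := by
        have := min_le_right δ δ'
        rw [hε]
        linarith
      have hκ' : ∀ z x : ℂ, ‖z - x‖ ≤ 2 * ε → ‖χ z - χ x‖ ≤ κ := by
        intro z x hzx
        have h1 := @hd z x (by rw [dist_eq_norm]; linarith)
        rw [dist_eq_norm] at h1
        exact h1.le
      have e1 : ∀ z, χ z * b z =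
          (χ z * ∫ o, (S3_E ε (z - ξ o) : ℂ) * w o ∂lam) * (S3_c : ℂ)⁻¹ := by
        intro z
        by_cases hz : χ z = 0
        · rw [hz]
          ring
        · have hz1 : z ∈ tsupport χ := subset_tsupport _ hz
          rw [hbe z (hsupp hz1) ε hε0 ?_]
          · ring
          · refine Set.Subset.trans ?_ hδU
            exact (Metric.closedBall_subset_closedBall hε1).trans
              (Metric.closedBall_subset_cthickening hz1 δ)
      have e2 : ∫ z, χ z * b z =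
          ∫ o, ((∫ z, χ z * (S3_E ε (z - ξ o) : ℂ)) * (S3_c : ℂ)⁻¹) * w o ∂lam := by
        simp only [e1]
        rw [integral_mul_const, S3_fub lam ξ w hξ hw C hwb hε0 hχ hcs, ← integral_mul_const]
        refine integral_congr_ae (Filter.Eventually.of_forall fun o => ?_)
        simp only
        ring
      have hmol : ∀ x : ℂ, ‖(∫ z, χ z * (S3_E ε (z - x) : ℂ)) * (S3_c : ℂ)⁻¹ - χ x‖ ≤ κ := by
        intro x
        have h1 := S3_mol hε0 hχ hκ' x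
        have h2 : (∫ z, χ z * (S3_E ε (z - x) : ℂ)) * (S3_c : ℂ)⁻¹ - χ x =
            ((∫ z, χ z * (S3_E ε (z - x) : ℂ)) - χ x * S3_c) * (S3_c : ℂ)⁻¹ := by
          rw [sub_mul, mul_assoc (χ x), mul_inv_cancel₀ hc', mul_one]
        rw [h2, norm_mul, norm_inv, Complex.norm_real, Real.norm_eq_abs, abs_of_pos hc,
          ← div_eq_mul_inv, div_le_iff₀ hc]
        exact h1
      have i1 : Integrable (fun o => χ (ξ o) * w o) lam :=
        S3_integ lam ξ w hξ hw C hwb hχ B0 hB0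
      have m1 : Measurable (fun x : ℂ => ∫ z, χ z * (S3_E ε (z - x) : ℂ)) := by
        have h1 : StronglyMeasurable (Function.uncurry fun (x z : ℂ) =>
            χ z * (S3_E ε (z - x) : ℂ)) := by
          refine Continuous.stronglyMeasurable ?_
          have h2 := (S3_Ec_smooth ε).continuous
          exact (hχ.comp continuous_snd).mul (h2.comp (continuous_snd.sub continuous_fst))
        exact h1.integral_prod_right.measurable
      have i2 : Integrable (fun o =>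
          ((∫ z, χ z * (S3_E ε (z - ξ o) : ℂ)) * (S3_c : ℂ)⁻¹) * w o) lam := by
        refine Integrable.of_bound ((((m1.comp hξ)).mul_const _).mul hw).aestronglyMeasurable
          ((κ + B0) * C) ?_
        refine Filter.Eventually.of_forall fun o => ?_
        rw [norm_mul]
        refine mul_le_mul ?_ (hwb o) (norm_nonneg _) ?_
        · have h1 := hmol (ξ o)
          have h2 := hB0 (ξ o)
          have h3 := norm_sub_norm_le ((∫ z, χ z * (S3_E ε (z - ξ o) : ℂ)) * (S3_c : ℂ)⁻¹)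
            (χ (ξ o))
          show ‖(∫ z, χ z * (S3_E ε (z - ξ o) : ℂ)) * (S3_c : ℂ)⁻¹‖ ≤ κ + B0
          linarith
        · have h2 := (norm_nonneg _).trans (hB0 (ξ o))
          linarith
      rw [e2, ← integral_sub i2 i1]
      refine (norm_integral_le_of_norm_le (integrable_const (κ * |C|))
        (Filter.Eventually.of_forall fun o => ?_)).trans_eq ?_
      · rw [← sub_mul, norm_mul]
        exact mul_le_mul (hmol _) ((hwb o).trans (le_abs_self C)) (norm_nonneg _) hκ.le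
      · rw [integral_const, smul_eq_mul]
        ring
    have h0 : ‖(∫ z, χ z * b z) - ∫ o, χ (ξ o) * w o ∂lam‖ ≤ 0 := by
      by_contra hcon
      rw [not_le] at hcon
      obtain ⟨N, hN⟩ : ∃ N, N = ‖(∫ z, χ z * b z) - ∫ o, χ (ξ o) * w o ∂lam‖ := ⟨_, rfl⟩
      obtain ⟨D, hD⟩ : ∃ D, D = |C| * lam.real Set.univ := ⟨_, rfl⟩
      have hD0 : 0 ≤ D := by rw [hD]; positivity
      rw [← hN] at hcon
      have h1 := key (N / (2 * (D + 1))) (by positivity)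
      rw [← hN, ← hD, div_mul_eq_mul_div, le_div_iff₀ (by positivity)] at h1
      nlinarith
    have h1 := norm_le_zero_iff.1 h0
    exact (sub_eq_zero.1 h1).symm

end finite

theorem S3_dbar_zero {χ : ℂ → ℂ} {x : ℂ} (hx : x ∉ tsupport χ) : dbar χ x = 0 := by
  unfold dbar
  rw [fderiv_of_notMem_tsupport ℝ hx]
  simp

theorem S3_weyl' {Ω : Type*} [MeasurableSpace Ω] (lam : Measure Ω) (ξ w : Ω → ℂ)
    (hξ : Measurable ξ) (hw : Measurable w)
    (C : ℝ) (hwb : ∀ o, ‖w o‖ ≤ C) (U : Set ℂ) (hU : IsOpen U) (hfin : lam (ξ ⁻¹' U) < ⊤)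
    (h : ∀ χ : ℂ → ℂ, ContDiff ℝ ∞ χ → HasCompactSupport χ → tsupport χ ⊆ U →
      ∫ o, dbar χ (ξ o) * w o ∂lam = 0) :
    ∃ b : ℂ → ℂ, DifferentiableOn ℂ b U ∧
      (∀ χ : ℂ → ℂ, Continuous χ → HasCompactSupport χ → tsupport χ ⊆ U →
        ∫ o, χ (ξ o) * w o ∂lam = ∫ z, χ z * b z) ∧
      ∀ z, ∃ ε : ℝ, b z = (∫ o, (S3_E ε (z - ξ o) : ℂ) * w o ∂(lam.restrict (ξ ⁻¹' U))) / S3_c := by
  have _ : IsFiniteMeasure (lam.restrict (ξ ⁻¹' U)) :=
    ⟨by rw [Measure.restrict_apply_univ]; exact hfin⟩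
  obtain ⟨b, h1, h2, h3⟩ := S3_weyl (lam.restrict (ξ ⁻¹' U)) ξ w hξ hw C hwb U (by
    intro χ hχ hcs hs
    rw [setIntegral_eq_integral_of_forall_compl_eq_zero]
    · exact h χ hχ hcs hs
    · intro o ho
      rw [S3_dbar_zero (fun hx => ho (hs hx)), zero_mul]) hU
  refine ⟨b, h1, ?_, h3⟩
  intro χ hχ hcs hs
  rw [← h2 χ hχ hcs hs]
  symm
  apply setIntegral_eq_integral_of_forall_compl_eq_zero
  intro o ho
  rw [image_eq_zero_of_notMem_tsupport (fun hx => ho (hs hx)), zero_mul]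

theorem weyl {Ω : Type*} [MeasurableSpace Ω] (lam : Measure Ω) (ξ w : Ω → ℂ) (hξ : Measurable ξ) (hw : Measurable w)
    (C : ℝ) (hwb : ∀ o, ‖w o‖ ≤ C) (U : Set ℂ) (hU : IsOpen U) (hfin : lam (ξ ⁻¹' U) < ⊤)
    (h : ∀ χ : ℂ → ℂ, ContDiff ℝ ∞ χ → HasCompactSupport χ → tsupport χ ⊆ U → ∫ o, dbar χ (ξ o) * w o ∂lam = 0) :
    ∃ b : ℂ → ℂ, DifferentiableOn ℂ b U ∧
      ∀ χ : ℂ → ℂ, Continuous χ → HasCompactSupport χ → tsupport χ ⊆ U → ∫ o, χ (ξ o) * w o ∂lam = ∫ z, χ z * b z := by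
  obtain ⟨b, h1, h2, -⟩ := S3_weyl' lam ξ w hξ hw C hwb U hU hfin h
  exact ⟨b, h1, h2⟩

theorem S3_pdisc (R : ℝ) (hR : 0 < R) : pdisc R = Complex.exp '' {s : ℂ | s.re < Real.log R} := by
  ext z
  constructor
  · rintro ⟨h1, h2⟩
    refine ⟨Complex.log z, ?_, Complex.exp_log (norm_pos_iff.1 h1)⟩
    show (Complex.log z).re < Real.log R
    rw [Complex.log_re]
    exact Real.log_lt_log h1 h2
  · rintro ⟨s, hs, rfl⟩
    have hs' : s.re < Real.log R := hs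
    constructor
    · exact norm_pos_iff.2 (Complex.exp_ne_zero s)
    · rw [Complex.norm_exp]
      exact (Real.lt_log_iff_exp_lt hR).1 hs'

theorem S3_pdisc_open (R : ℝ) : IsOpen (pdisc R) :=
  (isOpen_lt continuous_const continuous_norm).inter (isOpen_lt continuous_norm continuous_const)

theorem S3_pdisc_conn (R : ℝ) (hR : 0 < R) : IsPreconnected (pdisc R) := by
  rw [S3_pdisc R hR]
  have hc : Convex ℝ {s : ℂ | s.re < Real.log R} := convex_halfSpace_re_lt _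
  exact hc.isPreconnected.image _ Complex.continuous_exp.continuousOn

theorem weyl_real {Ω : Type*} [MeasurableSpace Ω] (lam : Measure Ω) (ξ : Ω → ℂ) (hξ : Measurable ξ)
    (R : ℝ) (hR : 0 < R) (hfin : lam (ξ ⁻¹' (pdisc R)) < ⊤)
    (h : ∀ χ : ℂ → ℂ, ContDiff ℝ ∞ χ → HasCompactSupport χ → tsupport χ ⊆ pdisc R → ∫ o, dbar χ (ξ o) ∂lam = 0) :
    ∃ k : ℝ, 0 ≤ k ∧
      ∀ χ : ℂ → ℂ, Continuous χ → HasCompactSupport χ → tsupport χ ⊆ pdisc R →
        ∫ o, χ (ξ o) ∂lam = (k : ℂ) * ∫ z, χ z := by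
  obtain ⟨b, h1, h2, h3⟩ := S3_weyl' lam ξ (fun _ => 1) hξ measurable_const 1
    (fun _ => by simp) (pdisc R) (S3_pdisc_open R) hfin (by
      intro χ hχ hcs hs
      simp only [mul_one]
      exact h χ hχ hcs hs)
  have hpos : ∀ z, ∃ k : ℝ, 0 ≤ k ∧ b z = (k : ℂ) := by
    intro z
    obtain ⟨ε, hε⟩ := h3 z
    refine ⟨(∫ o, S3_E ε (z - ξ o) ∂(lam.restrict (ξ ⁻¹' pdisc R))) / S3_c,
      div_nonneg (integral_nonneg fun o => S3_E_nonneg _ _) S3_c_pos.le, ?_⟩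
    rw [hε]
    simp only [mul_one]
    rw [integral_complex_ofReal]
    push_cast
    rfl
  have ha : AnalyticOnNhd ℂ b (pdisc R) := h1.analyticOnNhd (S3_pdisc_open R)
  have hconst : ∃ k : ℂ, ∀ z ∈ pdisc R, b z = k := by
    rcases ha.is_constant_or_isOpen (S3_pdisc_conn R hR) with h4 | h4
    · exact h4
    · exfalso
      have hz : ((R / 2 : ℝ) : ℂ) ∈ pdisc R := by
        constructor
        · rw [Complex.norm_real, Real.norm_eq_abs, abs_of_pos (by positivity)]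
          positivity
        · rw [Complex.norm_real, Real.norm_eq_abs, abs_of_pos (by positivity)]
          linarith
      have h5 := h4 (pdisc R) le_rfl (S3_pdisc_open R)
      obtain ⟨r, hr, hr'⟩ := Metric.isOpen_iff.1 h5 _ ⟨_, hz, rfl⟩
      have h6 : b ((R / 2 : ℝ) : ℂ) + ((r / 2 : ℝ) : ℂ) * Complex.I ∈
          Metric.ball (b ((R / 2 : ℝ) : ℂ)) r := by
        rw [Metric.mem_ball, dist_eq_norm, add_sub_cancel_left, norm_mul, Complex.norm_I, mul_one,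
          Complex.norm_real, Real.norm_eq_abs, abs_of_pos (by positivity)]
        linarith
      obtain ⟨x, -, hx⟩ := hr' h6
      obtain ⟨k1, -, hk1⟩ := hpos x
      obtain ⟨k2, -, hk2⟩ := hpos ((R / 2 : ℝ) : ℂ)
      rw [hk1, hk2] at hx
      have h7 := congrArg Complex.im hx
      simp at h7
      linarith
  obtain ⟨k0, hk0⟩ := hconst
  obtain ⟨z0, hz0⟩ : ∃ z0, z0 ∈ pdisc R := by
    refine ⟨((R / 2 : ℝ) : ℂ), ?_⟩
    constructor
    · rw [Complex.norm_real, Real.norm_eq_abs, abs_of_pos (by positivity)]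
      positivity
    · rw [Complex.norm_real, Real.norm_eq_abs, abs_of_pos (by positivity)]
      linarith
  obtain ⟨k, hk, hk'⟩ := hpos z0
  refine ⟨k, hk, ?_⟩
  intro χ hχ hcs hs
  have h4 := h2 χ hχ hcs hs
  simp only [mul_one] at h4
  rw [h4, ← integral_const_mul]
  refine integral_congr_ae (Filter.Eventually.of_forall fun z => ?_)
  by_cases hz : χ z = 0
  · simp only [hz]
    ring
  · have h5 : z ∈ pdisc R := hs (subset_tsupport _ hz)
    simp only [hk0 z h5]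
    rw [← hk0 z0 hz0, hk', mul_comm]

end FC76

end S_H76_FL_S3

section S_H76_FL_S4

/-!
# Row S4: moments over the x-disc

Data D, R with 0 < R <= K/2 and AnnZero M R K.  A := ev (X 0 ^ m * a) = x^m a.
1. `sn_moment`: for χ smooth, complex valued, compactly supported in pdisc R and F a polynomial: ∫_{Pset R K} dbar χ(x) F(p) ‖A(p)‖^2 dM = 0.
   Proof: g(p) := χ(x) A(p) F(p) κ(‖y‖) with κ smooth, 1 for t <= 5K/8... choose κ = 1 on (-oo, 11K/20], 0 on [7K/10, oo) (smooth in y because constant near y = 0).  g is smooth with compact support in the ball ρ, contained in {x ≠ 0}, on which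
   nsq Z >= ‖A‖^2 >= c > 0, so M(tsupport g) < oo by `fin`; `inv_ext` (second part): ∫ dWb g(Z) dM = 0.  dWb g(Z) = A F κ dbar χ(x) conj(A) + χ A F dWb(κ)(Z) (`dWb_fst`, `dW_holo`; first component of Z is A), and the last term is nonzero only
   for 11K/20 <= ‖y‖ <= 7K/10, where M = 0 (AnnZero, K/2 <= 11K/20, 7K/10 <= 3K/4); on Pset minus the annulus κ = 1 and outside Pset but ‖y‖ >= 3K/4: κ = 0.
2. `sn_mean`: EITHER M (Pset R K) = 0, OR there are k > 0 and b holomorphic on pdisc R, ‖b‖ <= K there, with for all continuous χ : ℂ → ℂ compactly supported in pdisc R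
     (i) ∫_{Pset} χ(x) ‖A‖^2 dM = k ∫ χ,     (ii) ∫_{Pset} χ(x) (y - b(x)) ‖A‖^2 dM = 0.
   Proof: λ := (M.restrict (Pset R K)).withDensity ‖A‖^2, finite (‖A‖^2 <= nsq Z).  ξ = fst.  `weyl_real` (F = 1) gives k; `weyl` with w = y (bounded by K on Pset; truncate w outside) and F = X 1 gives b1 with ∫ χ y dλ = ∫ χ b1.
   If k = 0 then ∫ χ(x) dλ = 0 for all χ >= 0, so λ = 0, and ‖A‖^2 > 0 on Pset (x ≠ 0, a ≠ 0), so M(Pset) = 0.  If k > 0, b := b1/k; |∫ χ b| k = |∫ χ y dλ| <= K ∫ |χ| dλ = K k ∫|χ| for all χ, so ‖b‖ <= K (continuity of b).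
   (ii): ∫ χ y dλ = k ∫ χ b = ∫ (χ b)(x) dλ by (i) applied to the continuous function χ b.
-/

open MvPolynomial MeasureTheory
open scoped ContDiff ComplexConjugate

namespace FC76

private theorem S4_meas_Pset (R K : ℝ) : MeasurableSet (Pset R K) := by
  have h1 : Measurable (fun p : ℂ × ℂ => ‖p.1‖) := by fun_prop
  have h2 : Measurable (fun p : ℂ × ℂ => ‖p.2‖) := by fun_prop
  exact (measurableSet_lt measurable_const h1).inter
    ((measurableSet_lt h1 measurable_const).inter (measurableSet_lt h2 measurable_const))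

private theorem S4_dbar {χ : ℂ → ℂ} {x : ℂ} (h : x ∉ tsupport χ) : dbar χ x = 0 := by
  have h1 : fderiv ℝ χ x = 0 := by
    by_contra hne
    exact h (support_fderiv_subset ℝ (Function.mem_support.2 hne))
  unfold dbar
  rw [h1]
  simp

private theorem S4_dWb_const {g : ℂ × ℂ → ℂ} {p : ℂ × ℂ} (c : ℂ) (h : g =ᶠ[nhds p] fun _ => c)
    (v : ℂ × ℂ) : dWb g p v = 0 := by
  unfold dWb
  rw [h.fderiv_eq]
  simp

private theorem S4_a_ne {m : ℕ} {a B h : P2} {ρ : ℝ} {M : Measure (ℂ × ℂ)} {K Cb : ℝ}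
    (D : SNData m a B h ρ M K Cb) {p : ℂ × ℂ} (hp : ‖p‖ ≤ K) (h1 : p.1 ≠ 0) :
    ev (X 0 ^ m * a) p ≠ 0 := by
  rw [ev_mul, ev_pow, ev_X0]
  refine mul_ne_zero (pow_ne_zero _ h1) fun h0 => ?_
  have h2 := D.ha' p hp
  rw [h0, zero_sub, norm_neg] at h2
  have h3 : 0 < ‖ev a 0‖ := norm_pos_iff.2 D.ha
  linarith

theorem sn_moment {m : ℕ} {a B h : P2} {ρ : ℝ} {M : Measure (ℂ × ℂ)} {K Cb : ℝ} (D : SNData m a B h ρ M K Cb)
    (R : ℝ) (hR : 0 < R) (hRK : R ≤ K / 2) (hann : AnnZero M R K) (F : P2)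
    (χ : ℂ → ℂ) (hχ : ContDiff ℝ ∞ χ) (hc : HasCompactSupport χ) (hs : tsupport χ ⊆ pdisc R) :
    ∫ p in Pset R K, dbar χ p.1 * (ev F p * ((‖ev (X 0 ^ m * a) p‖ ^ 2 : ℝ) : ℂ)) ∂M = 0 := by
  have hK := D.hK
  obtain ⟨κ, hκi, hκo⟩ : ∃ κ : ContDiffBump (0 : ℂ), κ.rIn = 11 * K / 20 ∧ κ.rOut = 7 * K / 10 :=
    ⟨⟨11 * K / 20, 7 * K / 10, by linarith, by linarith⟩, rfl, rfl⟩
  obtain ⟨A, hA⟩ : ∃ A : P2, A = X 0 ^ m * a := ⟨_, rfl⟩
  obtain ⟨k, hk⟩ : ∃ k : ℂ → ℂ, k = fun y => ((κ y : ℝ) : ℂ) := ⟨_, rfl⟩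
  have hks : ContDiff ℝ ∞ k := by
    rw [hk]
    exact Complex.ofRealCLM.contDiff.comp κ.contDiff
  obtain ⟨g, hg⟩ : ∃ g : ℂ × ℂ → ℂ, g = fun p => χ p.1 * (ev (A * F) p * k p.2) := ⟨_, rfl⟩
  have hχ1 : ContDiff ℝ ∞ (fun p : ℂ × ℂ => χ p.1) := hχ.comp contDiff_fst
  have hk1 : ContDiff ℝ ∞ (fun p : ℂ × ℂ => k p.2) := hks.comp contDiff_snd
  have hev : ContDiff ℝ ∞ (fun p : ℂ × ℂ => ev (A * F) p * k p.2) :=
    (contDiff_real_ev (A * F)).mul hk1
  have hgs : ContDiff ℝ ∞ g := by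
    rw [hg]
    exact hχ1.mul hev
  obtain ⟨T, hT⟩ : ∃ T : Set (ℂ × ℂ), T = tsupport χ ×ˢ Metric.closedBall (0 : ℂ) (7 * K / 10) :=
    ⟨_, rfl⟩
  have hTc : IsCompact T := by
    rw [hT]
    exact IsCompact.prod hc (isCompact_closedBall _ _)
  have hTg : tsupport g ⊆ T := by
    refine closure_minimal ?_ hTc.isClosed
    intro p hp
    rw [Function.mem_support, hg] at hp
    rw [hT]
    refine ⟨?_, ?_⟩
    · apply subset_tsupport
      intro h0
      exact hp (by simp only [h0, zero_mul])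
    · by_contra hcon
      rw [Metric.mem_closedBall, not_le] at hcon
      have h0 : k p.2 = 0 := by
        rw [hk]
        show ((κ p.2 : ℝ) : ℂ) = 0
        rw [κ.zero_of_le_dist (by rw [hκo]; exact hcon.le), Complex.ofReal_zero]
      exact hp (by simp only [h0, mul_zero])
  have hTp : ∀ p ∈ T, p.1 ∈ pdisc R ∧ ‖p.2‖ ≤ 7 * K / 10 := by
    intro p hp
    rw [hT] at hp
    refine ⟨hs hp.1, ?_⟩
    have := hp.2
    rwa [mem_closedBall_zero_iff] at this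
  have hTK : ∀ p ∈ T, ‖p‖ ≤ K := by
    intro p hp
    obtain ⟨h1, h2⟩ := hTp p hp
    rw [Prod.norm_def]
    exact max_le (by linarith [h1.2]) (by linarith)
  have hAc : Continuous (fun p => ‖ev A p‖ ^ 2) := (contDiff_real_ev A).continuous.norm.pow 2
  have hMT : M T < ⊤ := by
    rcases T.eq_empty_or_nonempty with he | hne
    · rw [he, measure_empty]
      exact ENNReal.zero_lt_top
    · obtain ⟨p0, hp0, hmin⟩ := hTc.exists_isMinOn hne hAc.continuousOn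
      have hc0 : 0 < ‖ev A p0‖ ^ 2 := by
        have h1 : ev A p0 ≠ 0 := by
          rw [hA]
          exact S4_a_ne D (hTK p0 hp0) (norm_pos_iff.1 (hTp p0 hp0).1.1)
        exact pow_pos (norm_pos_iff.2 h1) 2
      have hsub : T ⊆ {p | ENNReal.ofReal (‖ev A p0‖ ^ 2) ≤ ENNReal.ofReal (nsq (vf A B p))} := by
        intro p hp
        apply ENNReal.ofReal_le_ofReal
        have h1 : ‖ev A p0‖ ^ 2 ≤ ‖ev A p‖ ^ 2 := hmin hp
        have h2 : nsq (vf A B p) = ‖ev A p‖ ^ 2 + ‖ev B p‖ ^ 2 := rfl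
        rw [h2]
        nlinarith [sq_nonneg ‖ev B p‖]
      have hmeas : Measurable (fun p => ENNReal.ofReal (nsq (vf A B p))) := by
        apply Measurable.ennreal_ofReal
        apply Continuous.measurable
        have h1 := LF_cont_vf A B
        unfold nsq
        exact (h1.fst.norm.pow 2).add (h1.snd.norm.pow 2)
      refine (measure_mono hsub).trans_lt ((meas_ge_le_lintegral_div hmeas.aemeasurable
        (ENNReal.ofReal_pos.2 hc0).ne' ENNReal.ofReal_ne_top).trans_lt ?_)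
      have hfin := D.inv.fin
      rw [← hA] at hfin
      exact ENNReal.div_lt_top hfin.ne (ENNReal.ofReal_pos.2 hc0).ne'
  have h0T : (0 : ℂ × ℂ) ∉ T := fun h0 => by
    have := (hTp 0 h0).1.1
    simp at this
  have hinv := D.inv.toInv0
  rw [← hA] at hinv
  have key := (inv_ext hinv g hgs (hTc.of_isClosed_subset (isClosed_tsupport g) hTg)
    (hTg.trans fun p hp => by
      rw [mem_ball_zero_iff]
      exact (hTK p hp).trans_lt D.hKρ) (Or.inr fun h0 => h0T (hTg h0))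
    ((measure_mono hTg).trans_lt hMT)).2
  rw [← integral_indicator (S4_meas_Pset R K), ← key]
  refine integral_congr_ae ?_
  have hae : ∀ᵐ p ∂M, p ∉ {p : ℂ × ℂ | 0 < ‖p.1‖ ∧ ‖p.1‖ < R ∧ K / 2 ≤ ‖p.2‖ ∧
      ‖p.2‖ ≤ 3 * K / 4} := by
    have h1 := hann
    unfold AnnZero at h1
    rw [← compl_mem_ae_iff] at h1
    exact h1
  filter_upwards [hae] with p hp
  -- the derivative of `g`
  have hder : dWb g p (vf A B p) = χ p.1 * (ev (A * F) p * dWb (fun q => k q.2) p (vf A B p)) +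
      ev (A * F) p * k p.2 * (dbar χ p.1 * conj (ev A p)) := by
    have d1 : DifferentiableAt ℝ (fun q : ℂ × ℂ => χ q.1) p := hχ1.differentiable (by simp) p
    have d2 : DifferentiableAt ℝ (fun q : ℂ × ℂ => ev (A * F) q * k q.2) p :=
      hev.differentiable (by simp) p
    have d3 : DifferentiableAt ℝ (ev (A * F)) p :=
      (contDiff_real_ev (A * F)).differentiable (by simp) p
    have d4 : DifferentiableAt ℝ (fun q : ℂ × ℂ => k q.2) p := hk1.differentiable (by simp) p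
    have d5 : DifferentiableAt ℝ χ p.1 := hχ.differentiable (by simp) p.1
    rw [hg, dWb_mul d1 d2, dWb_mul d3 d4, (dW_holo (analyticAt_ev (A * F) p).differentiableAt _).2,
      dWb_fst d5]
    show _ = χ p.1 * (ev (A * F) p * dWb (fun q => k q.2) p (vf A B p)) +
      ev (A * F) p * k p.2 * (dbar χ p.1 * conj (ev A p))
    have e1 : (vf A B p).1 = ev A p := rfl
    rw [e1]
    ring
  rw [hder]
  by_cases hx : p.1 ∈ tsupport χ
  · have hpx := hs hx
    have hkval : ∀ y : ℂ, ‖y‖ ≤ 11 * K / 20 → k y = 1 := fun y hy => by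
      rw [hk]
      show ((κ y : ℝ) : ℂ) = 1
      rw [κ.one_of_mem_closedBall (by rw [hκi, mem_closedBall_zero_iff]; exact hy),
        Complex.ofReal_one]
    have hkval0 : ∀ y : ℂ, 7 * K / 10 ≤ ‖y‖ → k y = 0 := fun y hy => by
      rw [hk]
      show ((κ y : ℝ) : ℂ) = 0
      rw [κ.zero_of_le_dist (by rw [hκo, dist_zero_right]; exact hy), Complex.ofReal_zero]
    rcases lt_or_ge ‖p.2‖ (K / 2) with hy | hy
    · have hev1 : (fun q : ℂ × ℂ => k q.2) =ᶠ[nhds p] fun _ => 1 := by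
        have h1 : ∀ᶠ q : ℂ × ℂ in nhds p, ‖q.2‖ < 11 * K / 20 :=
          (continuous_snd.norm.continuousAt (x := p)).eventually_lt continuousAt_const
            (by linarith)
        filter_upwards [h1] with q hq
        exact hkval q.2 hq.le
      rw [S4_dWb_const 1 hev1, hkval p.2 (by linarith), Set.indicator_of_mem
        (show p ∈ Pset R K from ⟨hpx.1, hpx.2, by linarith⟩), mul_zero, mul_zero, zero_add,
        mul_one, ← hA, ev_mul A F]
      have e2 : ((‖ev A p‖ ^ 2 : ℝ) : ℂ) = ev A p * conj (ev A p) := by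
        rw [Complex.mul_conj, Complex.normSq_eq_norm_sq]
      rw [e2]
      ring
    · have hy2 : 3 * K / 4 < ‖p.2‖ := by
        by_contra hcon
        rw [not_lt] at hcon
        exact hp ⟨hpx.1, hpx.2, hy, hcon⟩
      have hev1 : (fun q : ℂ × ℂ => k q.2) =ᶠ[nhds p] fun _ => 0 := by
        have h1 : ∀ᶠ q : ℂ × ℂ in nhds p, 7 * K / 10 < ‖q.2‖ :=
          continuousAt_const.eventually_lt (continuous_snd.norm.continuousAt (x := p))
            (by linarith)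
        filter_upwards [h1] with q hq
        exact hkval0 q.2 hq.le
      rw [S4_dWb_const 0 hev1, hkval0 p.2 (by linarith), Set.indicator_of_notMem
        (fun hpP : p ∈ Pset R K => absurd hpP.2.2 (by linarith))]
      ring
  · have hz : χ p.1 = 0 := image_eq_zero_of_notMem_tsupport hx
    rw [S4_dbar hx, hz]
    have h1 : (Pset R K).indicator (fun p => dbar χ p.1 *
        (ev F p * ((‖ev (X 0 ^ m * a) p‖ ^ 2 : ℝ) : ℂ))) p = 0 := by
      by_cases hpP : p ∈ Pset R K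
      · rw [Set.indicator_of_mem hpP, S4_dbar hx, zero_mul]
      · exact Set.indicator_of_notMem hpP _
    rw [h1]
    ring

private theorem S4_cont {U : Set ℂ} (hU : IsOpen U) {F : Type*} [NormedRing F] {f b : ℂ → F}
    (hf : Continuous f) (hs : tsupport f ⊆ U) (hb : ContinuousOn b U) :
    Continuous (fun z => f z * b z) := by
  rw [continuous_iff_continuousAt]
  intro z
  by_cases hz : z ∈ tsupport f
  · exact hf.continuousAt.mul (hb.continuousAt (hU.mem_nhds (hs hz)))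
  · have h1 : (fun z => f z * b z) =ᶠ[nhds z] fun _ => 0 := by
      have h2 := (isClosed_tsupport f).isOpen_compl.mem_nhds hz
      filter_upwards [h2] with y hy
      rw [image_eq_zero_of_notMem_tsupport hy, zero_mul]
    exact continuousAt_const.congr h1.symm

private theorem S4_open (R : ℝ) : IsOpen (pdisc R) := by
  have h1 : Continuous (fun t : ℂ => ‖t‖) := continuous_norm
  exact (isOpen_lt continuous_const h1).inter (isOpen_lt h1 continuous_const)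

noncomputable def S4_lam (A : P2) (M : Measure (ℂ × ℂ)) (R K : ℝ) : Measure (ℂ × ℂ) :=
  (M.restrict (Pset R K)).withDensity (fun p => ((‖ev A p‖₊ ^ 2 : NNReal) : ENNReal))

private theorem S4_dens_meas (A : P2) : Measurable (fun p : ℂ × ℂ => (‖ev A p‖₊ ^ 2 : NNReal)) :=
  ((contDiff_real_ev A).continuous.nnnorm.pow 2).measurable

private theorem S4_int (A : P2) (M : Measure (ℂ × ℂ)) (R K : ℝ) (G : ℂ × ℂ → ℂ) :
    ∫ p, G p ∂(S4_lam A M R K) = ∫ p in Pset R K, G p * ((‖ev A p‖ ^ 2 : ℝ) : ℂ) ∂M := by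
  unfold S4_lam
  rw [integral_withDensity_eq_integral_smul (S4_dens_meas A)]
  refine integral_congr_ae (Filter.Eventually.of_forall fun p => ?_)
  show (‖ev A p‖₊ ^ 2 : NNReal) • G p = G p * ((‖ev A p‖ ^ 2 : ℝ) : ℂ)
  rw [NNReal.smul_def, Complex.real_smul, mul_comm]
  rfl

private theorem S4_fin (A B : P2) (M : Measure (ℂ × ℂ)) (R K : ℝ)
    (hfin : ∫⁻ p, ENNReal.ofReal (nsq (vf A B p)) ∂M < ⊤) : S4_lam A M R K Set.univ < ⊤ := by
  unfold S4_lam
  rw [withDensity_apply _ MeasurableSet.univ, Measure.restrict_univ]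
  refine lt_of_le_of_lt ((setLIntegral_le_lintegral _ _).trans (lintegral_mono fun p => ?_)) hfin
  have h1 : ((‖ev A p‖₊ ^ 2 : NNReal) : ENNReal) = ENNReal.ofReal (‖ev A p‖ ^ 2) := by
    rw [ENNReal.ofReal]
    congr 1
    ext
    rw [Real.coe_toNNReal _ (by positivity)]
    rfl
  show ((‖ev A p‖₊ ^ 2 : NNReal) : ENNReal) ≤ ENNReal.ofReal (nsq (vf A B p))
  rw [h1]
  apply ENNReal.ofReal_le_ofReal
  have h2 : nsq (vf A B p) = ‖ev A p‖ ^ 2 + ‖ev B p‖ ^ 2 := rfl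
  rw [h2]
  nlinarith [sq_nonneg ‖ev B p‖]

private theorem S4_null (A : P2) (M : Measure (ℂ × ℂ)) (R K : ℝ)
    (h0 : S4_lam A M R K (Pset R K) = 0) (hA : ∀ p ∈ Pset R K, ev A p ≠ 0) :
    M (Pset R K) = 0 := by
  unfold S4_lam at h0
  rw [withDensity_apply_eq_zero' (S4_dens_meas A).coe_nnreal_ennreal.aemeasurable] at h0
  have h1 : ({x | ((‖ev A x‖₊ ^ 2 : NNReal) : ENNReal) ≠ 0} ∩ Pset R K) = Pset R K := by
    apply Set.inter_eq_right.2
    intro p hp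
    show ((‖ev A p‖₊ ^ 2 : NNReal) : ENNReal) ≠ 0
    rw [ENNReal.coe_ne_zero]
    exact pow_ne_zero _ (nnnorm_ne_zero_iff.2 (hA p hp))
  rw [h1, Measure.restrict_apply (S4_meas_Pset R K), Set.inter_self] at h0
  exact h0

private theorem S4_zero (lam : Measure (ℂ × ℂ)) [IsFiniteMeasure lam] (R K : ℝ)
    (h : ∀ χ : ℂ → ℂ, Continuous χ → HasCompactSupport χ → tsupport χ ⊆ pdisc R →
      ∫ p, χ p.1 ∂lam = 0) : lam (Pset R K) = 0 := by
  obtain ⟨f, hf⟩ : ∃ f : ℕ → ℂ → ℝ, f = fun (n : ℕ) (x : ℂ) =>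
      max 0 (min (‖x‖ - 1 / ((n : ℝ) + 1)) (R - 1 / ((n : ℝ) + 1) - ‖x‖)) := ⟨_, rfl⟩
  have hfc : ∀ n, Continuous (f n) := fun n => by
    rw [hf]
    show Continuous fun x : ℂ => max (0 : ℝ)
      (min (‖x‖ - 1 / ((n : ℝ) + 1)) (R - 1 / ((n : ℝ) + 1) - ‖x‖))
    fun_prop
  have hf0 : ∀ n x, 0 ≤ f n x := fun n x => by
    rw [hf]
    exact le_max_left _ _
  have hfR : ∀ n x, f n x ≤ |R| := fun n x => by
    rw [hf]
    show max (0 : ℝ) (min (‖x‖ - 1 / ((n : ℝ) + 1)) (R - 1 / ((n : ℝ) + 1) - ‖x‖)) ≤ |R|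
    have h1 : (0 : ℝ) < 1 / ((n : ℝ) + 1) := by positivity
    refine max_le (abs_nonneg _) ((min_le_right _ _).trans ?_)
    have := le_abs_self R
    have := norm_nonneg x
    linarith
  have hfs : ∀ n, tsupport (fun z => ((f n z : ℝ) : ℂ)) ⊆ {x : ℂ | 1 / ((n : ℝ) + 1) ≤ ‖x‖ ∧
      ‖x‖ ≤ R - 1 / ((n : ℝ) + 1)} := fun n => by
    refine closure_minimal ?_ ((isClosed_le continuous_const continuous_norm).inter
      (isClosed_le continuous_norm continuous_const))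
    intro x hx
    rw [Function.mem_support] at hx
    have h1 : f n x ≠ 0 := fun h0 => hx (by simp only [h0, Complex.ofReal_zero])
    rw [hf] at h1
    have h2 : 0 < min (‖x‖ - 1 / ((n : ℝ) + 1)) (R - 1 / ((n : ℝ) + 1) - ‖x‖) := by
      by_contra hcon
      rw [not_lt] at hcon
      exact h1 (max_eq_left hcon)
    have h3 := lt_min_iff.1 h2
    exact ⟨by linarith [h3.1], by linarith [h3.2]⟩
  have hz : ∀ n, lam {p : ℂ × ℂ | f n p.1 ≠ 0} = 0 := fun n => by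
    have hcs : HasCompactSupport (fun z => ((f n z : ℝ) : ℂ)) := by
      refine HasCompactSupport.of_support_subset_isCompact (isCompact_closedBall (0 : ℂ) |R|) ?_
      intro x hx
      have h1 := (hfs n (subset_tsupport _ hx)).2
      rw [mem_closedBall_zero_iff]
      have h2 : (0 : ℝ) < 1 / ((n : ℝ) + 1) := by positivity
      have := le_abs_self R
      linarith
    have h1 := h (fun z => ((f n z : ℝ) : ℂ)) (Complex.continuous_ofReal.comp (hfc n)) hcs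
      ((hfs n).trans fun x hx => by
        have h2 : (0 : ℝ) < 1 / ((n : ℝ) + 1) := by positivity
        exact ⟨h2.trans_le hx.1, by linarith [hx.2]⟩)
    have h2 : ∫ p : ℂ × ℂ, f n p.1 ∂lam = 0 := by
      have h3 : ((∫ p : ℂ × ℂ, f n p.1 ∂lam : ℝ) : ℂ) = 0 := by
        rw [← h1, ← integral_complex_ofReal]
      exact_mod_cast h3
    have hfm : Continuous (fun p : ℂ × ℂ => f n p.1) := (hfc n).comp continuous_fst
    have hint : Integrable (fun p : ℂ × ℂ => f n p.1) lam := by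
      refine Integrable.of_bound hfm.aestronglyMeasurable |R|
        (Filter.Eventually.of_forall fun p : ℂ × ℂ => ?_)
      rw [Real.norm_of_nonneg (hf0 n p.1)]
      exact hfR n p.1
    have h3 := (integral_eq_zero_iff_of_nonneg (fun p : ℂ × ℂ => hf0 n p.1) hint).1 h2
    have h4 : ∀ᵐ p ∂lam, f n p.1 = 0 := h3
    rw [ae_iff] at h4
    exact h4
  refine measure_mono_null (t := ⋃ n, {p : ℂ × ℂ | f n p.1 ≠ 0}) ?_ (measure_iUnion_null hz)
  intro p hp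
  obtain ⟨n, hn⟩ := exists_nat_one_div_lt (K := ℝ)
    (show (0 : ℝ) < min ‖p.1‖ (R - ‖p.1‖) from lt_min hp.1 (by linarith [hp.2.1]))
  refine Set.mem_iUnion.2 ⟨n, ?_⟩
  have h1 := lt_min_iff.1 hn
  show f n p.1 ≠ 0
  rw [hf]
  have h2 : 0 < min (‖p.1‖ - 1 / ((n : ℝ) + 1)) (R - 1 / ((n : ℝ) + 1) - ‖p.1‖) :=
    lt_min (by linarith [h1.1]) (by linarith [h1.2])
  exact (lt_of_lt_of_le h2 (le_max_right _ _)).ne'

private theorem S4_bound (lam : Measure (ℂ × ℂ)) [IsFiniteMeasure lam] (R K k : ℝ) (hk : 0 < k)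
    (hK : 0 < K) (w : ℂ × ℂ → ℂ) (hw : ∀ p, ‖w p‖ ≤ K) (b : ℂ → ℂ)
    (hb : ContinuousOn b (pdisc R))
    (h1 : ∀ χ : ℂ → ℂ, Continuous χ → HasCompactSupport χ → tsupport χ ⊆ pdisc R →
      ∫ p, χ p.1 ∂lam = (k : ℂ) * ∫ z, χ z)
    (h2 : ∀ χ : ℂ → ℂ, Continuous χ → HasCompactSupport χ → tsupport χ ⊆ pdisc R →
      ∫ p, χ p.1 * w p ∂lam = ∫ z, χ z * ((k : ℂ) * b z)) (x : ℂ) (hx : x ∈ pdisc R) :
    ‖b x‖ ≤ K := by
  by_contra hcon
  rw [not_le] at hcon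
  have hV : IsOpen (pdisc R ∩ (fun z => ‖b z‖) ⁻¹' (Set.Ioi K)) :=
    hb.norm.isOpen_inter_preimage (S4_open R) isOpen_Ioi
  obtain ⟨r, hr, hrV⟩ := Metric.isOpen_iff.1 hV x ⟨hx, hcon⟩
  obtain ⟨η, hηi, hηo⟩ : ∃ η : ContDiffBump x, η.rIn = r / 4 ∧ η.rOut = r / 2 :=
    ⟨⟨r / 4, r / 2, by linarith, by linarith⟩, rfl, rfl⟩
  have hηs : tsupport η ⊆ pdisc R ∩ (fun z => ‖b z‖) ⁻¹' (Set.Ioi K) := by
    rw [η.tsupport_eq, hηo]
    exact (Metric.closedBall_subset_ball (by linarith)).trans hrV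
  have hηc : Continuous (fun z => η z) := η.continuous
  have hηcs : HasCompactSupport (fun z => η z) := η.hasCompactSupport
  obtain ⟨χ, hχ⟩ : ∃ χ : ℂ → ℂ, χ = fun z => ((η z : ℝ) : ℂ) * conj (b z) := ⟨_, rfl⟩
  have hes : tsupport (fun z => ((η z : ℝ) : ℂ)) ⊆ tsupport η := by
    refine closure_mono fun z hz => ?_
    rw [Function.mem_support] at hz ⊢
    intro h0
    exact hz (by simp only [h0, Complex.ofReal_zero])
  have hcb : ContinuousOn (fun z => conj (b z)) (pdisc R) :=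
    Complex.continuous_conj.comp_continuousOn hb
  have hχc : Continuous χ := by
    rw [hχ]
    exact S4_cont (S4_open R) (Complex.continuous_ofReal.comp hηc)
      (hes.trans (hηs.trans Set.inter_subset_left)) hcb
  have hχs : tsupport χ ⊆ tsupport η := by
    refine closure_mono fun z hz => ?_
    rw [Function.mem_support] at hz ⊢
    intro h0
    exact hz (by rw [hχ]; simp only [h0, Complex.ofReal_zero, zero_mul])
  have hχcs : HasCompactSupport χ := hηcs.of_isClosed_subset (isClosed_tsupport χ) hχs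
  have hχn : ∀ z, ‖χ z‖ = η z * ‖b z‖ := fun z => by
    rw [hχ]
    show ‖((η z : ℝ) : ℂ) * conj (b z)‖ = η z * ‖b z‖
    rw [norm_mul, RCLike.norm_conj, Complex.norm_real, Real.norm_of_nonneg η.nonneg]
  -- continuity and integrability of the two real functions
  have hc1 : Continuous (fun z => η z * ‖b z‖) := by
    have h3 := hχc.norm
    simp_rw [hχn] at h3
    exact h3
  have hc2 : Continuous (fun z => η z * ‖b z‖ ^ 2) :=
    S4_cont (S4_open R) hηc (hηs.trans Set.inter_subset_left) (hb.norm.pow 2)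
  have hcs1 : HasCompactSupport (fun z => η z * ‖b z‖) := hηcs.mul_right
  have hcs2 : HasCompactSupport (fun z => η z * ‖b z‖ ^ 2) := hηcs.mul_right
  have hi1 : Integrable (fun z => η z * ‖b z‖) volume := hc1.integrable_of_hasCompactSupport hcs1
  have hi2 : Integrable (fun z => η z * ‖b z‖ ^ 2) volume :=
    hc2.integrable_of_hasCompactSupport hcs2
  -- left side
  have hL : ∫ z, χ z * ((k : ℂ) * b z) = ((k * ∫ z, η z * ‖b z‖ ^ 2 : ℝ) : ℂ) := by
    rw [← integral_const_mul, ← integral_complex_ofReal]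
    refine integral_congr_ae (Filter.Eventually.of_forall fun z => ?_)
    show χ z * ((k : ℂ) * b z) = ((k * (η z * ‖b z‖ ^ 2) : ℝ) : ℂ)
    rw [hχ]
    show ((η z : ℝ) : ℂ) * conj (b z) * ((k : ℂ) * b z) = ((k * (η z * ‖b z‖ ^ 2) : ℝ) : ℂ)
    rw [Complex.ofReal_mul, Complex.ofReal_mul, Complex.ofReal_pow]
    have h3 : conj (b z) * b z = ((‖b z‖ : ℝ) : ℂ) ^ 2 := by
      rw [mul_comm, Complex.mul_conj, Complex.normSq_eq_norm_sq, Complex.ofReal_pow]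
    rw [← h3]
    ring
  -- right side
  have hR : ∫ p : ℂ × ℂ, ‖χ p.1‖ ∂lam = k * ∫ z, η z * ‖b z‖ := by
    have h3 := h1 (fun z => ((‖χ z‖ : ℝ) : ℂ)) (Complex.continuous_ofReal.comp hχc.norm)
      (hχcs.norm.comp_left (g := fun t : ℝ => (t : ℂ)) Complex.ofReal_zero) (by
        refine Set.Subset.trans (closure_mono fun z hz => ?_)
          ((hχs.trans hηs).trans Set.inter_subset_left)
        rw [Function.mem_support] at hz ⊢
        intro h0
        exact hz (by simp only [h0, norm_zero, Complex.ofReal_zero]))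
    have h4 : ((∫ p : ℂ × ℂ, ‖χ p.1‖ ∂lam : ℝ) : ℂ) = ((k * ∫ z, ‖χ z‖ : ℝ) : ℂ) := by
      rw [← integral_complex_ofReal, h3, Complex.ofReal_mul, ← integral_complex_ofReal]
    have h5 : ∫ p : ℂ × ℂ, ‖χ p.1‖ ∂lam = k * ∫ z, ‖χ z‖ := by exact_mod_cast h4
    rw [h5]
    simp_rw [hχn]
  have hle : k * ∫ z, η z * ‖b z‖ ^ 2 ≤ K * (k * ∫ z, η z * ‖b z‖) := by
    have h3 : k * ∫ z, η z * ‖b z‖ ^ 2 = ‖∫ p, χ p.1 * w p ∂lam‖ := by
      rw [h2 χ hχc hχcs ((hχs.trans hηs).trans Set.inter_subset_left), hL, Complex.norm_real,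
        Real.norm_of_nonneg]
      refine mul_nonneg hk.le (integral_nonneg fun z => ?_)
      exact mul_nonneg η.nonneg (sq_nonneg _)
    rw [h3, ← hR, ← integral_const_mul]
    refine (norm_integral_le_integral_norm _).trans (integral_mono_of_nonneg
      (Filter.Eventually.of_forall fun p => norm_nonneg _) ?_
      (Filter.Eventually.of_forall fun p => ?_))
    · obtain ⟨C, hC⟩ := hχcs.exists_bound_of_continuous hχc
      refine Integrable.const_mul (Integrable.of_bound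
        (hχc.norm.comp continuous_fst).aestronglyMeasurable C
        (Filter.Eventually.of_forall fun p => ?_)) _
      show ‖‖χ p.1‖‖ ≤ C
      rw [norm_norm]
      exact hC p.1
    · show ‖χ p.1 * w p‖ ≤ K * ‖χ p.1‖
      rw [norm_mul, mul_comm]
      exact mul_le_mul_of_nonneg_right (hw p) (norm_nonneg _)
  have hle2 : ∫ z, η z * ‖b z‖ ^ 2 ≤ K * ∫ z, η z * ‖b z‖ := by
    have h3 : k * ∫ z, η z * ‖b z‖ ^ 2 ≤ k * (K * ∫ z, η z * ‖b z‖) := by
      calc _ ≤ _ := hle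
        _ = _ := by ring
    exact le_of_mul_le_mul_left h3 hk
  have hpos : 0 < ∫ z, (η z * ‖b z‖ ^ 2 - K * (η z * ‖b z‖)) := by
    refine Continuous.integral_pos_of_hasCompactSupport_nonneg_nonzero (x := x)
      (hc2.sub (continuous_const.mul hc1)) (hcs2.sub hcs1.mul_left) ?_ ?_
    · intro z
      show 0 ≤ η z * ‖b z‖ ^ 2 - K * (η z * ‖b z‖)
      by_cases hz : z ∈ tsupport η
      · have h3 : K < ‖b z‖ := (hηs hz).2
        have h4 : 0 ≤ η z := η.nonneg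
        have h5 : η z * ‖b z‖ ^ 2 - K * (η z * ‖b z‖) = η z * (‖b z‖ * (‖b z‖ - K)) := by ring
        rw [h5]
        exact mul_nonneg h4 (mul_nonneg (norm_nonneg _) (by linarith))
      · have h3 : η z = 0 := image_eq_zero_of_notMem_tsupport hz
        rw [h3]
        simp
    · show η x * ‖b x‖ ^ 2 - K * (η x * ‖b x‖) ≠ 0
      have h3 : η x = 1 := η.one_of_mem_closedBall (by
        rw [hηi]; exact Metric.mem_closedBall_self (by linarith))
      rw [h3]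
      have h4 : (1 : ℝ) * ‖b x‖ ^ 2 - K * (1 * ‖b x‖) = ‖b x‖ * (‖b x‖ - K) := by ring
      rw [h4]
      have h5 : 0 < ‖b x‖ := hK.trans hcon
      exact (mul_pos h5 (by linarith)).ne'
  rw [integral_sub hi2 (hi1.const_mul K), integral_const_mul] at hpos
  linarith

theorem sn_mean {m : ℕ} {a B h : P2} {ρ : ℝ} {M : Measure (ℂ × ℂ)} {K Cb : ℝ} (D : SNData m a B h ρ M K Cb)
    (R : ℝ) (hR : 0 < R) (hRK : R ≤ K / 2) (hann : AnnZero M R K) :
    M (Pset R K) = 0 ∨ ∃ (k : ℝ) (b : ℂ → ℂ), 0 < k ∧ DifferentiableOn ℂ b (pdisc R) ∧ (∀ x ∈ pdisc R, ‖b x‖ ≤ K) ∧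
      (∀ χ : ℂ → ℂ, Continuous χ → HasCompactSupport χ → tsupport χ ⊆ pdisc R →
        ∫ p in Pset R K, χ p.1 * ((‖ev (X 0 ^ m * a) p‖ ^ 2 : ℝ) : ℂ) ∂M = (k : ℂ) * ∫ z, χ z) ∧
      (∀ χ : ℂ → ℂ, Continuous χ → HasCompactSupport χ → tsupport χ ⊆ pdisc R →
        ∫ p in Pset R K, χ p.1 * ((p.2 - b p.1) * ((‖ev (X 0 ^ m * a) p‖ ^ 2 : ℝ) : ℂ)) ∂M = 0) := by
  have hK := D.hK
  obtain ⟨A, hA⟩ : ∃ A : P2, A = X 0 ^ m * a := ⟨_, rfl⟩
  have hfin0 := D.inv.fin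
  rw [← hA] at hfin0
  have hfin := S4_fin A B M R K hfin0
  have hFM : IsFiniteMeasure (S4_lam A M R K) := ⟨hfin⟩
  have hAne : ∀ p ∈ Pset R K, ev A p ≠ 0 := by
    intro p hp
    rw [hA]
    refine S4_a_ne D ?_ (norm_pos_iff.1 hp.1)
    rw [Prod.norm_def]
    exact max_le (by linarith [hp.2.1]) (by linarith [hp.2.2])
  have hmom := sn_moment D R hR hRK hann
  rw [← hA] at hmom ⊢
  obtain ⟨k, hk0, hk⟩ := weyl_real (S4_lam A M R K) Prod.fst measurable_fst R hR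
    ((measure_mono (Set.subset_univ _)).trans_lt hfin) (by
      intro χ hχ hc hs
      have h1 := S4_int A M R K (fun p => dbar χ p.1)
      rw [h1]
      have h2 := hmom (C 1) χ hχ hc hs
      simp_rw [ev_C, one_mul] at h2
      exact h2)
  obtain ⟨w, hw⟩ : ∃ w : ℂ × ℂ → ℂ, w = fun p => if ‖p.2‖ ≤ K then p.2 else 0 := ⟨_, rfl⟩
  have hwb : ∀ p, ‖w p‖ ≤ K := by
    intro p
    rw [hw]
    show ‖(if ‖p.2‖ ≤ K then p.2 else 0)‖ ≤ K
    split_ifs with h1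
    · exact h1
    · rw [norm_zero]
      exact hK.le
  have hwm : Measurable w := by
    rw [hw]
    exact Measurable.ite (measurableSet_le measurable_snd.norm measurable_const) measurable_snd
      measurable_const
  have hwP : ∀ p ∈ Pset R K, w p = p.2 := by
    intro p hp
    rw [hw]
    exact if_pos (by linarith [hp.2.2])
  obtain ⟨b1, hb1, hb1i⟩ := weyl (S4_lam A M R K) Prod.fst w measurable_fst hwm K hwb (pdisc R)
    (S4_open R) ((measure_mono (Set.subset_univ _)).trans_lt hfin) (by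
      intro χ hχ hc hs
      have h1 := S4_int A M R K (fun p => dbar χ p.1 * w p)
      rw [h1]
      have h2 := hmom (X 1) χ hχ hc hs
      rw [← h2]
      refine setIntegral_congr_fun (S4_meas_Pset R K) fun p hp => ?_
      show dbar χ p.1 * w p * ((‖ev A p‖ ^ 2 : ℝ) : ℂ) =
        dbar χ p.1 * (ev (X 1) p * ((‖ev A p‖ ^ 2 : ℝ) : ℂ))
      rw [hwP p hp, ev_X1, mul_assoc])
  rcases hk0.eq_or_lt with hk1 | hk1
  · left
    refine S4_null A M R K (S4_zero _ R K fun χ hc hcs hs => ?_) hAne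
    rw [hk χ hc hcs hs, ← hk1, Complex.ofReal_zero, zero_mul]
  · right
    have hkc : (k : ℂ) ≠ 0 := Complex.ofReal_ne_zero.2 hk1.ne'
    obtain ⟨b, hb⟩ : ∃ b : ℂ → ℂ, b = fun z => b1 z / (k : ℂ) := ⟨_, rfl⟩
    have hb1b : ∀ z, b1 z = (k : ℂ) * b z := fun z => by
      rw [hb]
      show b1 z = (k : ℂ) * (b1 z / (k : ℂ))
      rw [mul_div_cancel₀ _ hkc]
    have hbd : DifferentiableOn ℂ b (pdisc R) := by
      rw [hb]
      exact hb1.div_const _
    have h2 : ∀ χ : ℂ → ℂ, Continuous χ → HasCompactSupport χ → tsupport χ ⊆ pdisc R →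
        ∫ p, χ p.1 * w p ∂(S4_lam A M R K) = ∫ z, χ z * ((k : ℂ) * b z) := by
      intro χ hc hcs hs
      rw [hb1i χ hc hcs hs]
      simp_rw [hb1b]
    refine ⟨k, b, hk1, hbd, fun x hx => S4_bound (S4_lam A M R K) R K k hk1 hK w hwb b
      hbd.continuousOn hk h2 x hx, ?_, ?_⟩
    · intro χ hc hcs hs
      rw [← hk χ hc hcs hs]
      exact (S4_int A M R K (fun p => χ p.1)).symm
    · intro χ hc hcs hs
      have hψc : Continuous (fun z => χ z * b z) := S4_cont (S4_open R) hc hs hbd.continuousOn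
      have hψcs : HasCompactSupport (fun z => χ z * b z) := hcs.mul_right
      have hψs : tsupport (fun z => χ z * b z) ⊆ pdisc R :=
        (tsupport_mul_subset_left).trans hs
      have h3 : ∫ p in Pset R K, χ p.1 * ((p.2 - b p.1) * ((‖ev A p‖ ^ 2 : ℝ) : ℂ)) ∂M =
          ∫ p, (χ p.1 * w p - χ p.1 * b p.1) ∂(S4_lam A M R K) := by
        rw [S4_int A M R K (fun p => χ p.1 * w p - χ p.1 * b p.1)]
        refine setIntegral_congr_fun (S4_meas_Pset R K) fun p hp => ?_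
        show χ p.1 * ((p.2 - b p.1) * ((‖ev A p‖ ^ 2 : ℝ) : ℂ)) =
          (χ p.1 * w p - χ p.1 * b p.1) * ((‖ev A p‖ ^ 2 : ℝ) : ℂ)
        rw [hwP p hp]
        ring
      rw [h3, integral_sub]
      · have h4 := hk (fun z => χ z * b z) hψc hψcs hψs
        have h5 : ∫ p : ℂ × ℂ, χ p.1 * b p.1 ∂(S4_lam A M R K) =
            (k : ℂ) * ∫ z, χ z * b z := h4
        rw [h2 χ hc hcs hs, h5, ← integral_const_mul, sub_eq_zero]
        refine integral_congr_ae (Filter.Eventually.of_forall fun z => ?_)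
        show χ z * ((k : ℂ) * b z) = (k : ℂ) * (χ z * b z)
        ring
      · obtain ⟨Cχ, hCχ⟩ := hcs.exists_bound_of_continuous hc
        refine Integrable.of_bound (C := Cχ * K) ?_ (Filter.Eventually.of_forall fun p => ?_)
        · exact ((hc.comp continuous_fst).measurable.mul hwm).aestronglyMeasurable
        · rw [norm_mul]
          exact mul_le_mul (hCχ p.1) (hwb p) (norm_nonneg _) ((norm_nonneg _).trans (hCχ p.1))
      · obtain ⟨Cψ, hCψ⟩ := hψcs.exists_bound_of_continuous hψc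
        exact Integrable.of_bound (hψc.comp continuous_fst).aestronglyMeasurable Cψ
          (Filter.Eventually.of_forall fun p => hCψ p.1)

end FC76

end S_H76_FL_S4

section S_H76_FL_S5

/-!
# Row S5: second moments, integration by parts

Data D, R with 0 < R <= K/2, AnnZero M R K; b holomorphic on pdisc R.  A := ev (X 0 ^ m * a), t(p) := - log ‖x‖.
CLAIM: for χ : ℝ → ℝ smooth with compact support in (-log R, oo) and l real:
   ∫_{Pset} χ''(t) ‖x‖^l ‖y - b(x)‖^2 ‖A/x‖^2 dM = 4 ∫_{Pset} χ(t) ‖x‖^l ‖ (B - A b'(x)) + (l/2)(A/x)(y - b(x)) ‖^2 dM.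
Proof.  W(p) := ‖x‖^l ‖y - b(x)‖^2, smooth on 0 < ‖x‖ < R.  lev W (Z) = 4 ‖x‖^l ‖Z(y-b) + (l/2)(A/x)(y-b)‖^2 : near a point x0 choose a holomorphic branch of x^(l/2); W = ‖x^(l/2)(y - b(x))‖^2 and `lev_normSq`; Z(y-b) = B - A b'.
 Let κ be a smooth cut-off in ‖y‖, κ = 1 on (-oo, 11K/20], 0 on [7K/10,oo), and c(p) := χ(t(p)) κ(‖y‖), smooth, compactly supported in {x ≠ 0}, ‖x‖ < R, ‖y‖ <= 7K/10; M(tsupport c) < oo (nsq Z >= ‖A‖^2 >= const > 0 there).
 g := c * dWb W(.)(Z) - W * dWb c(.)(Z) (extended by zero) is smooth with compact support in the ball; `inv_ext` : ∫ dW g(Z) dM = 0.  dW g(Z) = c * dW(dWb W(Z))(Z) - W dW(dWb c(Z))(Z) + [dW c conj(dW W) - dW W conj(dW c)] ; the bracket is purely imaginary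
 (dWb of a real function is the conjugate of dW, `dW_real`); real part with `lev_eq_dW_dWb`:  ∫ (c lev W(Z) - W lev c(Z)) dM = 0.
 M-almost everywhere on tsupport c we are in Pset with ‖y‖ < K/2 (AnnZero), where κ = 1 near p; there lev c(Z) = lev(χ(t))(Z) = χ''(t) ((Dt Z)^2 + (Dt iZ)^2) + χ'(t) lev t = χ''(t) ‖A/x‖^2 (`lev_comp`, `lev_log_norm`, (D log‖x‖)... = ‖dx(Z)/x‖^2).
-/

open MvPolynomial MeasureTheory
open scoped ContDiff ComplexConjugate

namespace FC76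

theorem S5_int {E : Type*} [NormedAddCommGroup E] {M : Measure (ℂ × ℂ)} {f : ℂ × ℂ → E}
    (hf : Continuous f) {T : Set (ℂ × ℂ)} (hT : IsCompact T) (hM : M T < ⊤)
    (h0 : ∀ p, p ∉ T → f p = 0) : Integrable f M := by
  have hsupp : Function.support f ⊆ T := by
    intro p hp
    by_contra hpK
    exact hp (h0 p hpK)
  rw [← integrableOn_iff_integrable_of_support_subset hsupp]
  obtain ⟨C, hC⟩ := hT.exists_bound_of_continuousOn hf.continuousOn
  have hm : AEStronglyMeasurable f M := hf.aestronglyMeasurable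
  refine Measure.integrableOn_of_bounded (M := C) hM.ne hm ?_
  exact (ae_restrict_iff' hT.measurableSet).2 (Filter.Eventually.of_forall (fun p hp => hC p hp))

theorem S5_D {A B : P2} {W : ℂ × ℂ → ℝ} {p : ℂ × ℂ} (hW : ContDiffAt ℝ ∞ W p) :
    ContDiffAt ℝ ∞ (fun q => dWb (fun q' => (W q' : ℂ)) q (vf A B q)) p := by
  have h1 : ContDiffAt ℝ ∞ (fun q => (W q : ℂ)) p :=
    Complex.ofRealCLM.contDiff.contDiffAt.comp p hW
  have h2 : ContDiffAt ℝ ∞ (fderiv ℝ (fun q => (W q : ℂ))) p := h1.fderiv_right (by simp)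
  have h3 : ContDiffAt ℝ ∞ (fun q => fderiv ℝ (fun q' => (W q' : ℂ)) q (vf A B q)) p :=
    h2.clm_apply (contDiff_vf A B).contDiffAt
  have h4 : ContDiffAt ℝ ∞ (fun q => fderiv ℝ (fun q' => (W q' : ℂ)) q (Complex.I • vf A B q)) p :=
    h2.clm_apply ((contDiff_vf A B).const_smul Complex.I).contDiffAt
  exact (h3.add (contDiffAt_const.mul h4)).div_const 2

theorem S5_lev_cont {A B : P2} {W : ℂ × ℂ → ℝ} {p : ℂ × ℂ} (hW : ContDiffAt ℝ ∞ W p) :
    ContinuousAt (fun q => lev W q (vf A B q)) p := by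
  have h1 : ContDiffAt ℝ ∞ (fderiv ℝ W) p := hW.fderiv_right (by simp)
  have h2 : ContDiffAt ℝ ∞ (fderiv ℝ (fderiv ℝ W)) p := h1.fderiv_right (by simp)
  have h3 : ContDiffAt ℝ ∞ (fun q => fderiv ℝ (fderiv ℝ W) q (vf A B q) (vf A B q)) p :=
    (h2.clm_apply (contDiff_vf A B).contDiffAt).clm_apply (contDiff_vf A B).contDiffAt
  have h4 : ContDiffAt ℝ ∞ (fun q => fderiv ℝ (fderiv ℝ W) q (Complex.I • vf A B q)
      (Complex.I • vf A B q)) p :=
    (h2.clm_apply ((contDiff_vf A B).const_smul Complex.I).contDiffAt).clm_apply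
      ((contDiff_vf A B).const_smul Complex.I).contDiffAt
  exact (h3.add h4).continuousAt

/-- the integration by parts -/
theorem S5_ibp {A B h : P2} {ρ : ℝ} {M : Measure (ℂ × ℂ)} (hI : Inv0 A B h ρ M) {U : Set (ℂ × ℂ)}
    {W c : ℂ × ℂ → ℝ} (hW : ∀ p ∈ U, ContDiffAt ℝ ∞ W p) (hc : ContDiff ℝ ∞ c)
    (hcs : HasCompactSupport c) (hcU : tsupport c ⊆ U) (hb : tsupport c ⊆ Metric.ball 0 ρ)
    (h0 : ev h 0 = 0) (hM : M (tsupport c) < ⊤) :
    ∫ p, c p * lev W p (vf A B p) ∂M = ∫ p, W p * lev c p (vf A B p) ∂M := by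
  have hcC : ContDiff ℝ ∞ (fun q => (c q : ℂ)) := Complex.ofRealCLM.contDiff.comp hc
  have hts : tsupport (fun q => (c q : ℂ)) ⊆ tsupport c :=
    tsupport_comp_subset (g := fun x : ℝ => (x : ℂ)) Complex.ofReal_zero c
  let DW : ℂ × ℂ → ℂ := fun q => dWb (fun q' => (W q' : ℂ)) q (vf A B q)
  let Dc : ℂ × ℂ → ℂ := fun q => dWb (fun q' => (c q' : ℂ)) q (vf A B q)
  have hDc : ContDiff ℝ ∞ Dc := (LF_contDiff_dW hcC A B).2
  have hDW : ∀ p ∈ U, ContDiffAt ℝ ∞ DW p := fun p hp => S5_D (hW p hp)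
  have hWC : ∀ p ∈ U, ContDiffAt ℝ ∞ (fun q => (W q : ℂ)) p := fun p hp =>
    Complex.ofRealCLM.contDiff.contDiffAt.comp p (hW p hp)
  have hDc0 : ∀ q, q ∉ tsupport c → Dc q = 0 := fun q hq => (LF_supp_dW (fun h => hq (hts h)) _).2
  let g : ℂ × ℂ → ℂ := fun q => (c q : ℂ) * DW q - (W q : ℂ) * Dc q
  have hg0 : ∀ q, q ∉ tsupport c → g q = 0 := by
    intro q hq
    show (c q : ℂ) * DW q - (W q : ℂ) * Dc q = 0
    rw [image_eq_zero_of_notMem_tsupport hq, hDc0 q hq]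
    simp
  have hgev : ∀ p, p ∉ tsupport c → g =ᶠ[nhds p] fun _ => 0 := by
    intro p hp
    filter_upwards [(isClosed_tsupport c).isOpen_compl.mem_nhds hp] with q hq
    exact hg0 q hq
  have hgs : ContDiff ℝ ∞ g := by
    rw [contDiff_iff_contDiffAt]
    intro p
    by_cases hp : p ∈ tsupport c
    · exact (hcC.contDiffAt.mul (hDW p (hcU hp))).sub ((hWC p (hcU hp)).mul hDc.contDiffAt)
    · exact contDiffAt_const.congr_of_eventuallyEq (hgev p hp)
  have hsub : tsupport g ⊆ tsupport c := by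
    apply closure_minimal _ (isClosed_tsupport c)
    intro q hq
    by_contra hq2
    exact hq (hg0 q hq2)
  have hgc : HasCompactSupport g :=
    HasCompactSupport.of_support_subset_isCompact hcs (subset_tsupport _ |>.trans hsub)
  have h1 := (inv_ext hI g hgs hgc (hsub.trans hb) (Or.inl h0)
    (lt_of_le_of_lt (measure_mono hsub) hM)).1
  have hint : Integrable (fun p => dW g p (vf A B p)) M := by
    refine S5_int (LF_contDiff_dW hgs A B).1.continuous hcs hM ?_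
    intro p hp
    exact (LF_supp_dW (fun h => hp (hsub h)) _).1
  have key : ∀ p, RCLike.re (dW g p (vf A B p)) =
      (c p * lev W p (vf A B p) - W p * lev c p (vf A B p)) / 4 := by
    intro p
    by_cases hp : p ∈ tsupport c
    · have hpU := hcU hp
      have d1 : DifferentiableAt ℝ (fun q => (c q : ℂ)) p := hcC.differentiable (by simp) p
      have d2 : DifferentiableAt ℝ DW p := (hDW p hpU).differentiableAt (by simp)
      have d3 : DifferentiableAt ℝ (fun q => (W q : ℂ)) p := (hWC p hpU).differentiableAt (by simp)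
      have d4 : DifferentiableAt ℝ Dc p := hDc.differentiable (by simp) p
      have e1 : dW g p (vf A B p) = dW (fun q => (c q : ℂ) * DW q) p (vf A B p) -
          dW (fun q => (W q : ℂ) * Dc q) p (vf A B p) := by
        have hs : fderiv ℝ g p = fderiv ℝ (fun q => (c q : ℂ) * DW q) p -
            fderiv ℝ (fun q => (W q : ℂ) * Dc q) p := fderiv_fun_sub (d1.mul d2) (d3.mul d4)
        unfold dW
        rw [hs]
        simp only [sub_apply]
        ring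
      have l1 := lev_eq_dW_dWb A B (G := W) (p := p) ((hW p hpU).of_le LE_two)
      have l2 := lev_eq_dW_dWb A B (G := c) (p := p) (hc.contDiffAt.of_le LE_two)
      have r1 := (dW_real (u := W) (p := p) ((hW p hpU).differentiableAt (by simp)) (vf A B p)).2.1
      have r2 := (dW_real (u := c) (p := p) (hc.differentiable (by simp) p) (vf A B p)).2.1
      rw [e1, dW_mul d1 d2, dW_mul d3 d4, l1, l2]
      show ((c p : ℂ) * dW DW p (vf A B p) + dWb (fun q' => (W q' : ℂ)) p (vf A B p) *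
        dW (fun q => (c q : ℂ)) p (vf A B p) - ((W p : ℂ) * dW Dc p (vf A B p) +
        dWb (fun q' => (c q' : ℂ)) p (vf A B p) * dW (fun q => (W q : ℂ)) p (vf A B p))).re =
        (c p * (4 * (dW DW p (vf A B p)).re) - W p * (4 * (dW Dc p (vf A B p)).re)) / 4
      rw [r1, r2]
      simp only [Complex.sub_re, Complex.add_re, Complex.mul_re, Complex.ofReal_re, Complex.ofReal_im,
        Complex.conj_re, Complex.conj_im]
      ring
    · rw [(LF_supp_dW (fun h => hp (hsub h)) _).1, image_eq_zero_of_notMem_tsupport hp,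
        LF_supp_lev hp]
      simp
  have i1 : Integrable (fun p => c p * lev W p (vf A B p)) M := by
    refine S5_int ?_ hcs hM (fun p hp => by rw [image_eq_zero_of_notMem_tsupport hp, zero_mul])
    rw [continuous_iff_continuousAt]
    intro p
    by_cases hp : p ∈ tsupport c
    · exact hc.continuous.continuousAt.mul (S5_lev_cont (hW p (hcU hp)))
    · have e : (fun p => c p * lev W p (vf A B p)) =ᶠ[nhds p] fun _ => 0 := by
        filter_upwards [(isClosed_tsupport c).isOpen_compl.mem_nhds hp] with q hq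
        rw [image_eq_zero_of_notMem_tsupport hq, zero_mul]
      exact continuousAt_const.congr e.symm
  have i2 : Integrable (fun p => W p * lev c p (vf A B p)) M := by
    refine S5_int ?_ hcs hM (fun p hp => by rw [LF_supp_lev hp, mul_zero])
    rw [continuous_iff_continuousAt]
    intro p
    by_cases hp : p ∈ tsupport c
    · exact (hW p (hcU hp)).continuousAt.mul (LF_cont_lev hc A B).continuousAt
    · have e : (fun p => W p * lev c p (vf A B p)) =ᶠ[nhds p] fun _ => 0 := by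
        filter_upwards [(isClosed_tsupport c).isOpen_compl.mem_nhds hp] with q hq
        rw [LF_supp_lev hq, mul_zero]
      exact continuousAt_const.congr e.symm
  have h2 : ∫ p, (c p * lev W p (vf A B p) - W p * lev c p (vf A B p)) / 4 ∂M = 0 := by
    have h3 := integral_re hint
    rw [h1] at h3
    simp_rw [key] at h3
    rw [h3]
    simp
  rw [integral_div, integral_sub i1 i2] at h2
  linarith

/-- the weight -/
noncomputable def S5_W (l : ℝ) (b : ℂ → ℂ) (q : ℂ × ℂ) : ℝ := ‖q.1‖ ^ l * ‖q.2 - b q.1‖ ^ 2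

/-- a holomorphic square root of the weight, near a point -/
noncomputable def S5_F (l : ℝ) (b : ℂ → ℂ) (x0 : ℂ) (q : ℂ × ℂ) : ℂ :=
  ((‖x0‖ ^ (l / 2) : ℝ) : ℂ) * Complex.exp (((l / 2 : ℝ) : ℂ) * Complex.log (x0⁻¹ * q.1)) * (q.2 - b q.1)

theorem S5_WF {l : ℝ} {b : ℂ → ℂ} {x0 : ℂ} (hx0 : x0 ≠ 0) {q : ℂ × ℂ} (hq : q.1 ≠ 0) :
    S5_W l b q = ‖S5_F l b x0 q‖ ^ 2 := by
  have hx : 0 < ‖x0‖ := norm_pos_iff.2 hx0
  have hy : 0 < ‖q.1‖ := norm_pos_iff.2 hq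
  unfold S5_W S5_F
  rw [norm_mul, norm_mul, Complex.norm_exp, Complex.re_ofReal_mul, Complex.log_re, norm_mul, norm_inv,
    Complex.norm_real, Real.norm_of_nonneg (Real.rpow_nonneg hx.le _), mul_pow, mul_pow]
  congr 1
  rw [Real.log_mul (inv_ne_zero hx.ne') hy.ne', Real.log_inv, Real.rpow_def_of_pos hx, Real.rpow_def_of_pos hy,
    ← Real.exp_nat_mul, ← Real.exp_nat_mul, ← Real.exp_add]
  congr 1
  push_cast
  ring

theorem S5_Fan {l : ℝ} {b : ℂ → ℂ} {R : ℝ} (hb : DifferentiableOn ℂ b (pdisc R)) {p : ℂ × ℂ}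
    (hp : 0 < ‖p.1‖ ∧ ‖p.1‖ < R) : AnalyticAt ℂ (S5_F l b p.1) p := by
  have hp0 : p.1 ≠ 0 := norm_pos_iff.1 hp.1
  have ho : IsOpen (pdisc R) :=
    (isOpen_lt continuous_const continuous_norm).inter (isOpen_lt continuous_norm continuous_const)
  have hba : AnalyticAt ℂ b p.1 := hb.analyticAt (ho.mem_nhds hp)
  have h1 : AnalyticAt ℂ (fun q : ℂ × ℂ => b q.1) p := hba.comp_of_eq analyticAt_fst rfl
  have h2 : AnalyticAt ℂ (fun q : ℂ × ℂ => p.1⁻¹ * q.1) p := analyticAt_const.mul analyticAt_fst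
  have h3 : AnalyticAt ℂ (fun q : ℂ × ℂ => Complex.log (p.1⁻¹ * q.1)) p := by
    refine h2.clog ?_
    rw [inv_mul_cancel₀ hp0]
    exact Complex.one_mem_slitPlane
  have h4 : AnalyticAt ℂ (fun q : ℂ × ℂ => Complex.exp (((l / 2 : ℝ) : ℂ) * Complex.log (p.1⁻¹ * q.1))) p :=
    (analyticAt_const.mul h3).cexp
  exact (analyticAt_const.mul h4).mul (analyticAt_snd.sub h1)

theorem S5_Fd {l : ℝ} {b : ℂ → ℂ} {R : ℝ} (hb : DifferentiableOn ℂ b (pdisc R)) {p : ℂ × ℂ}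
    (hp : 0 < ‖p.1‖ ∧ ‖p.1‖ < R) (v : ℂ × ℂ) : fderiv ℂ (S5_F l b p.1) p v =
      ((‖p.1‖ ^ (l / 2) : ℝ) : ℂ) *
        ((v.2 - v.1 * deriv b p.1) + ((l / 2 : ℝ) : ℂ) * (v.1 / p.1) * (p.2 - b p.1)) := by
  have hp0 : p.1 ≠ 0 := norm_pos_iff.1 hp.1
  have ho : IsOpen (pdisc R) :=
    (isOpen_lt continuous_const continuous_norm).inter (isOpen_lt continuous_norm continuous_const)
  have hbd : HasDerivAt b (deriv b p.1) p.1 := ((hb p.1 hp).differentiableAt (ho.mem_nhds hp)).hasDerivAt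
  have f1 : HasFDerivAt (fun q : ℂ × ℂ => q.1) (ContinuousLinearMap.fst ℂ ℂ ℂ) p := hasFDerivAt_fst
  have f2 : HasFDerivAt (fun q : ℂ × ℂ => q.2) (ContinuousLinearMap.snd ℂ ℂ ℂ) p := hasFDerivAt_snd
  have h1 : HasFDerivAt (fun q : ℂ × ℂ => b q.1) (deriv b p.1 • ContinuousLinearMap.fst ℂ ℂ ℂ) p :=
    hbd.comp_hasFDerivAt p f1
  have h2 : HasFDerivAt (fun q : ℂ × ℂ => p.1⁻¹ * q.1) (p.1⁻¹ • ContinuousLinearMap.fst ℂ ℂ ℂ) p :=
    f1.const_mul p.1⁻¹
  have e1 : p.1⁻¹ * p.1 = 1 := inv_mul_cancel₀ hp0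
  have h3 : HasFDerivAt (fun q : ℂ × ℂ => Complex.log (p.1⁻¹ * q.1))
      ((p.1⁻¹ * p.1)⁻¹ • (p.1⁻¹ • ContinuousLinearMap.fst ℂ ℂ ℂ)) p := by
    refine h2.clog ?_
    rw [e1]
    exact Complex.one_mem_slitPlane
  have h4 := (h3.const_mul ((l / 2 : ℝ) : ℂ)).cexp
  have h5 := (h4.const_mul ((‖p.1‖ ^ (l / 2) : ℝ) : ℂ)).mul (f2.sub h1)
  have h6 : HasFDerivAt (S5_F l b p.1) _ p := h5
  rw [h6.fderiv, e1, Complex.log_one]
  simp only [add_apply, smul_apply, sub_apply, smul_eq_mul, ContinuousLinearMap.coe_fst',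
    ContinuousLinearMap.coe_snd', mul_zero, Complex.exp_zero, inv_one, one_mul, mul_one, Pi.sub_apply]
  field_simp

theorem S5_Wsm {l : ℝ} {b : ℂ → ℂ} {R : ℝ} (hb : DifferentiableOn ℂ b (pdisc R)) {p : ℂ × ℂ}
    (hp : 0 < ‖p.1‖ ∧ ‖p.1‖ < R) : ContDiffAt ℝ ∞ (S5_W l b) p := by
  have hp0 : p.1 ≠ 0 := norm_pos_iff.1 hp.1
  have e : S5_W l b =ᶠ[nhds p] fun q => ‖S5_F l b p.1 q‖ ^ 2 := by
    filter_upwards [continuous_fst.continuousAt.eventually_ne hp0] with q hq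
    exact S5_WF hp0 hq
  have h1 : ContDiffAt ℝ ∞ (S5_F l b p.1) p :=
    ((S5_Fan (l := l) hb hp).contDiffAt (n := ∞)).restrict_scalars ℝ
  exact (h1.norm_sq ℝ).congr_of_eventuallyEq e

theorem S5_Wlev {l : ℝ} {b : ℂ → ℂ} {R : ℝ} (hb : DifferentiableOn ℂ b (pdisc R)) {p : ℂ × ℂ}
    (hp : 0 < ‖p.1‖ ∧ ‖p.1‖ < R) (v : ℂ × ℂ) : lev (S5_W l b) p v =
      4 * (‖p.1‖ ^ l * ‖(v.2 - v.1 * deriv b p.1) + ((l / 2 : ℝ) : ℂ) * (v.1 / p.1) * (p.2 - b p.1)‖ ^ 2) := by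
  have hp0 : p.1 ≠ 0 := norm_pos_iff.1 hp.1
  have e : S5_W l b =ᶠ[nhds p] fun q => ‖S5_F l b p.1 q‖ ^ 2 := by
    filter_upwards [continuous_fst.continuousAt.eventually_ne hp0] with q hq
    exact S5_WF hp0 hq
  rw [LE_lev e, lev_normSq (S5_Fan (l := l) hb hp), S5_Fd hb hp, norm_mul, mul_pow, Complex.norm_real,
    Real.norm_of_nonneg (Real.rpow_nonneg hp.1.le _)]
  congr 2
  rw [← Real.rpow_natCast, ← Real.rpow_mul hp.1.le]
  congr 1
  push_cast
  ring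

theorem S5_T {χ : ℝ → ℝ} {s : ℝ} (hc : HasCompactSupport χ) (hs : tsupport χ ⊆ Set.Ioi s) :
    ∃ T1 T2 : ℝ, s < T1 ∧ ∀ t, χ t ≠ 0 → T1 ≤ t ∧ t ≤ T2 := by
  have hK : IsCompact (tsupport χ) := hc
  obtain ⟨T2, hT2⟩ := hK.bddAbove
  rcases (tsupport χ).eq_empty_or_nonempty with he | he
  · refine ⟨s + 1, T2, by linarith, fun t ht => ?_⟩
    have h1 : t ∈ tsupport χ := subset_tsupport _ ht
    rw [he] at h1
    exact absurd h1 (Set.notMem_empty t)
  · obtain ⟨T1, hT1⟩ := hK.exists_isLeast he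
    refine ⟨T1, T2, hs hT1.1, fun t ht => ?_⟩
    have h1 : t ∈ tsupport χ := subset_tsupport _ ht
    exact ⟨hT1.2 h1, hT2 h1⟩

/-- the derivative of the cut-off where the second factor is constant -/
theorem S5_levc {χ : ℝ → ℝ} (hχ : ContDiff ℝ ∞ χ) {p : ℂ × ℂ} (hp0 : p.1 ≠ 0) (v : ℂ × ℂ) :
    lev (fun q => χ (-Real.log ‖q.1‖)) p v = deriv (deriv χ) (-Real.log ‖p.1‖) * ‖v.1 / p.1‖ ^ 2 := by
  have hf : AnalyticAt ℂ (fun q : ℂ × ℂ => q.1) p := analyticAt_fst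
  have hu : ContDiffAt ℝ 2 (fun q : ℂ × ℂ => Real.log ‖q.1‖) p :=
    ((LC_cd hf).norm ℝ hp0).log (norm_ne_zero_iff.2 hp0)
  have hχ2 : ContDiff ℝ 2 χ := hχ.of_le LE_two
  have hn : ContDiff ℝ 2 (fun x : ℝ => χ (-x)) := hχ2.comp contDiff_neg
  have h1 := lev_comp (Φ := fun x => χ (-x)) (u := fun q : ℂ × ℂ => Real.log ‖q.1‖) (p := p)
    hn.contDiffAt hu v
  have h2 := lev_log_norm hf hp0 v
  have h3 : deriv (deriv (fun x : ℝ => χ (-x))) = fun x => deriv (deriv χ) (-x) := by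
    have h4 : deriv (fun x : ℝ => χ (-x)) = fun x => -deriv χ (-x) := by
      funext x
      exact deriv_comp_neg χ x
    rw [h4]
    funext x
    rw [deriv.fun_neg, deriv_comp_neg (deriv χ) x, neg_neg]
  have h5 := (dW_real (u := fun q : ℂ × ℂ => Real.log ‖q.1‖) (p := p)
    (hu.differentiableAt (by norm_num)) v).2.2
  rw [dW_log_norm hf.differentiableAt hp0] at h5
  have h6 : fderiv ℂ (fun q : ℂ × ℂ => q.1) p v = v.1 := by
    have : HasFDerivAt (fun q : ℂ × ℂ => q.1) (ContinuousLinearMap.fst ℂ ℂ ℂ) p := hasFDerivAt_fst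
    rw [this.fderiv]
    rfl
  rw [h6] at h5
  have h7 : v.1 / (2 * p.1) = (v.1 / p.1) / 2 := by
    field_simp
  rw [h7, norm_div, Complex.norm_ofNat, div_pow] at h5
  rw [h1, h2, h3, mul_zero, zero_add]
  congr 1
  linarith

theorem sn_second {m : ℕ} {a B h : P2} {ρ : ℝ} {M : Measure (ℂ × ℂ)} {K Cb : ℝ} (D : SNData m a B h ρ M K Cb)
    (R : ℝ) (hR : 0 < R) (hRK : R ≤ K / 2) (hann : AnnZero M R K) (b : ℂ → ℂ) (hb : DifferentiableOn ℂ b (pdisc R))
    (l : ℝ) (χ : ℝ → ℝ) (hχ : ContDiff ℝ ∞ χ) (hc : HasCompactSupport χ) (hs : tsupport χ ⊆ Set.Ioi (-Real.log R)) :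
    ∫ p in Pset R K, deriv (deriv χ) (-Real.log ‖p.1‖) *
        (‖p.1‖ ^ l * ‖p.2 - b p.1‖ ^ 2 * ‖ev (X 0 ^ m * a) p / p.1‖ ^ 2) ∂M =
    4 * ∫ p in Pset R K, χ (-Real.log ‖p.1‖) * (‖p.1‖ ^ l *
        ‖(ev B p - ev (X 0 ^ m * a) p * deriv b p.1) + (l / 2 : ℝ) * (ev (X 0 ^ m * a) p / p.1) * (p.2 - b p.1)‖ ^ 2) ∂M := by
  obtain ⟨T1, T2, hT1, hT⟩ := S5_T hc hs
  have hK := D.hK
  have hI : Inv0 (X 0 ^ m * a) B h ρ M := D.inv.toInv0
  have hR1 : R < 1 := by linarith [D.hK1]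
  have hlogR : 0 < -Real.log R := by
    have := Real.log_neg hR hR1
    linarith
  have hχ0 : χ 0 = 0 := by
    by_contra h0
    have := (hT 0 h0).1
    linarith
  -- the cut-off
  let κ : ContDiffBump (0 : ℂ) := ⟨11 * K / 20, 7 * K / 10, by positivity, by linarith⟩
  let c : ℂ × ℂ → ℝ := fun q => χ (-Real.log ‖q.1‖) * κ q.2
  let T : Set (ℂ × ℂ) := {q | Real.exp (-T2) ≤ ‖q.1‖ ∧ ‖q.1‖ ≤ Real.exp (-T1) ∧ ‖q.2‖ ≤ 7 * K / 10}
  have hT1R : Real.exp (-T1) < R := by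
    rw [← Real.exp_log hR]
    exact Real.exp_lt_exp.2 (by linarith)
  have hTnorm : ∀ q ∈ T, ‖q‖ ≤ K := by
    intro q hq
    rw [Prod.norm_def]
    exact max_le (by linarith [hq.2.1]) (by linarith [hq.2.2])
  have hTcl : IsClosed T :=
    (isClosed_le continuous_const continuous_fst.norm).inter
      ((isClosed_le continuous_fst.norm continuous_const).inter
        (isClosed_le continuous_snd.norm continuous_const))
  have hTc : IsCompact T := by
    refine (isCompact_closedBall (0 : ℂ × ℂ) K).of_isClosed_subset hTcl (fun q hq => ?_)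
    rw [mem_closedBall_zero_iff]
    exact hTnorm q hq
  have hTP : T ⊆ Pset R K := by
    intro q hq
    exact ⟨lt_of_lt_of_le (Real.exp_pos _) hq.1, lt_of_le_of_lt hq.2.1 hT1R, by linarith [hq.2.2]⟩
  have hc0 : ∀ q, q ∉ T → c q = 0 := by
    intro q hq
    show χ (-Real.log ‖q.1‖) * κ q.2 = 0
    by_contra h1
    have h2 : χ (-Real.log ‖q.1‖) ≠ 0 := left_ne_zero_of_mul h1
    have h3 : κ q.2 ≠ 0 := right_ne_zero_of_mul h1
    apply hq
    have h4 : q.1 ≠ 0 := by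
      intro h5
      rw [h5, norm_zero, Real.log_zero, neg_zero] at h2
      exact h2 hχ0
    have h5 : 0 < ‖q.1‖ := norm_pos_iff.2 h4
    have h6 := hT _ h2
    refine ⟨?_, ?_, ?_⟩
    · rw [← Real.exp_log h5]
      exact Real.exp_le_exp.2 (by linarith)
    · rw [← Real.exp_log h5]
      exact Real.exp_le_exp.2 (by linarith)
    · by_contra h7
      apply h3
      apply κ.zero_of_le_dist
      rw [dist_zero_right]
      exact (not_le.1 h7).le
  have hcsub : tsupport c ⊆ T := by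
    apply closure_minimal _ hTcl
    intro q hq
    by_contra hq2
    exact hq (hc0 q hq2)
  have hcsm : ContDiff ℝ ∞ c := by
    rw [contDiff_iff_contDiffAt]
    intro p
    by_cases hp : p.1 = 0
    · have e : c =ᶠ[nhds p] fun _ => 0 := by
        have h1 : ‖p.1‖ < Real.exp (-T2) := by
          rw [hp, norm_zero]
          exact Real.exp_pos _
        filter_upwards [(continuous_fst.norm.continuousAt).eventually_lt continuousAt_const h1] with q hq
        exact hc0 q (fun hqT => absurd hqT.1 (not_le.2 hq))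
      exact contDiffAt_const.congr_of_eventuallyEq e
    · have h1 : ContDiffAt ℝ ∞ (fun q : ℂ × ℂ => Real.log ‖q.1‖) p :=
        (contDiffAt_fst.norm ℝ hp).log (norm_ne_zero_iff.2 hp)
      have h2 : ContDiffAt ℝ ∞ (fun q : ℂ × ℂ => χ (-Real.log ‖q.1‖)) p :=
        hχ.contDiffAt.comp p h1.neg
      have h3 : ContDiffAt ℝ ∞ (fun q : ℂ × ℂ => κ q.2) p := κ.contDiff.contDiffAt.comp p contDiffAt_snd
      exact h2.mul h3
  have hcs : HasCompactSupport c := HasCompactSupport.intro hTc hc0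
  have hMT : M T < ⊤ := by
    have hpos : 0 < (Real.exp (-T2) ^ m * (‖ev a 0‖ * (99 / 100))) ^ 2 := by
      have h1 : 0 < ‖ev a 0‖ := norm_pos_iff.2 D.ha
      have h2 := Real.exp_pos (-T2)
      positivity
    refine lt_of_le_of_lt (measure_mono (fun q hq => ?_)) ((LF_nsq_int hI).measure_ge_lt_top hpos)
    show (Real.exp (-T2) ^ m * (‖ev a 0‖ * (99 / 100))) ^ 2 ≤ nsq (vf (X 0 ^ m * a) B q)
    have h1 := D.ha' q (hTnorm q hq)
    have h2 : ‖ev a 0‖ * (99 / 100) ≤ ‖ev a q‖ := by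
      have h3 := norm_sub_norm_le (ev a 0) (ev a q)
      rw [norm_sub_rev] at h3
      linarith
    have h3 : ‖ev (X 0 ^ m * a) q‖ = ‖q.1‖ ^ m * ‖ev a q‖ := by
      rw [ev_mul, ev_pow, ev_X0, norm_mul, norm_pow]
    have h4 : Real.exp (-T2) ^ m * (‖ev a 0‖ * (99 / 100)) ≤ ‖ev (X 0 ^ m * a) q‖ := by
      rw [h3]
      have h5 := Real.exp_pos (-T2)
      have h6 := hq.1
      have h7 := norm_nonneg (ev a 0)
      gcongr
    have h5 : (Real.exp (-T2) ^ m * (‖ev a 0‖ * (99 / 100))) ^ 2 ≤ ‖ev (X 0 ^ m * a) q‖ ^ 2 := by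
      have h6 := Real.exp_pos (-T2)
      have h7 := norm_nonneg (ev a 0)
      exact pow_le_pow_left₀ (by positivity) h4 2
    have h6 : nsq (vf (X 0 ^ m * a) B q) = ‖ev (X 0 ^ m * a) q‖ ^ 2 + ‖ev B q‖ ^ 2 := rfl
    rw [h6]
    have h7 := sq_nonneg ‖ev B q‖
    linarith
  have hh0 : ev h 0 = 0 := by
    obtain ⟨k, hk⟩ := D.hh
    rw [hk, ev_mul, ev_X0]
    simp
  have hPo : IsOpen (Pset R K) :=
    (isOpen_lt continuous_const continuous_fst.norm).inter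
      ((isOpen_lt continuous_fst.norm continuous_const).inter
        (isOpen_lt continuous_snd.norm continuous_const))
  have main := S5_ibp hI (U := Pset R K) (W := S5_W l b) (c := c)
    (fun p hp => S5_Wsm hb ⟨hp.1, hp.2.1⟩) hcsm hcs (hcsub.trans hTP)
    (fun q hq => by
      rw [mem_ball_zero_iff]
      exact lt_of_le_of_lt (hTnorm q (hcsub hq)) D.hKρ) hh0
    (lt_of_le_of_lt (measure_mono hcsub) hMT)
  have hout : ∀ p, p ∉ Pset R K → p ∉ tsupport c := fun p hp h1 => hp (hTP (hcsub h1))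
  have r1 : ∫ p in Pset R K, c p * lev (S5_W l b) p (vf (X 0 ^ m * a) B p) ∂M =
      ∫ p, c p * lev (S5_W l b) p (vf (X 0 ^ m * a) B p) ∂M :=
    setIntegral_eq_integral_of_forall_compl_eq_zero
      (fun p hp => by rw [image_eq_zero_of_notMem_tsupport (hout p hp), zero_mul])
  have r2 : ∫ p in Pset R K, S5_W l b p * lev c p (vf (X 0 ^ m * a) B p) ∂M =
      ∫ p, S5_W l b p * lev c p (vf (X 0 ^ m * a) B p) ∂M :=
    setIntegral_eq_integral_of_forall_compl_eq_zero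
      (fun p hp => by rw [LF_supp_lev (hout p hp), mul_zero])
  have hae : ∀ᵐ p ∂(M.restrict (Pset R K)), p ∈ Pset R K ∧ ‖p.2‖ < 11 * K / 20 := by
    rw [ae_restrict_iff' hPo.measurableSet]
    have h1 : ∀ᵐ p ∂M, ¬ (0 < ‖p.1‖ ∧ ‖p.1‖ < R ∧ K / 2 ≤ ‖p.2‖ ∧ ‖p.2‖ ≤ 3 * K / 4) :=
      measure_eq_zero_iff_ae_notMem.1 hann
    filter_upwards [h1] with p hp hpP
    refine ⟨hpP, ?_⟩
    by_contra h2
    exact hp ⟨hpP.1, hpP.2.1, by linarith, hpP.2.2.le⟩
  have hcev : ∀ p : ℂ × ℂ, ‖p.2‖ < 11 * K / 20 → c =ᶠ[nhds p] fun q => χ (-Real.log ‖q.1‖) := by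
    intro p hp
    filter_upwards [(continuous_snd.norm.continuousAt).eventually_lt continuousAt_const hp] with q hq
    show χ (-Real.log ‖q.1‖) * κ q.2 = χ (-Real.log ‖q.1‖)
    rw [κ.one_of_mem_closedBall (by rw [mem_closedBall_zero_iff]; exact hq.le), mul_one]
  have s1 : ∫ p in Pset R K, deriv (deriv χ) (-Real.log ‖p.1‖) *
        (‖p.1‖ ^ l * ‖p.2 - b p.1‖ ^ 2 * ‖ev (X 0 ^ m * a) p / p.1‖ ^ 2) ∂M =
      ∫ p in Pset R K, S5_W l b p * lev c p (vf (X 0 ^ m * a) B p) ∂M := by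
    apply integral_congr_ae
    filter_upwards [hae] with p hp
    have hp0 : p.1 ≠ 0 := norm_pos_iff.1 hp.1.1
    rw [LE_lev (hcev p hp.2), S5_levc hχ hp0]
    unfold S5_W vf
    ring
  have s2 : ∫ p in Pset R K, c p * lev (S5_W l b) p (vf (X 0 ^ m * a) B p) ∂M =
      ∫ p in Pset R K, 4 * (χ (-Real.log ‖p.1‖) * (‖p.1‖ ^ l *
        ‖(ev B p - ev (X 0 ^ m * a) p * deriv b p.1) +
          (l / 2 : ℝ) * (ev (X 0 ^ m * a) p / p.1) * (p.2 - b p.1)‖ ^ 2)) ∂M := by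
    apply integral_congr_ae
    filter_upwards [hae] with p hp
    rw [S5_Wlev hb ⟨hp.1.1, hp.1.2.1⟩, (hcev p hp.2).self_of_nhds]
    unfold vf
    ring
  rw [s1, r2, ← main, ← r1, s2, integral_const_mul]

end FC76

end S_H76_FL_S5

section S_H76_FL_S6

/-!
# Row S6: variance inequality

Data D, R as before, b holomorphic on pdisc R with ‖b‖ <= K and the orthogonality (ii) of row S4.  A := ev (X 0 ^ m * a).
CLAIM: there is c > 0 such that for every continuous χ >= 0 on ℝ with compact support in (-log R, oo):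
   ∫_{Pset} χ(t) ‖B - A b'(x)‖^2 dM >= c ∫_{Pset} χ(t) e^((2m-2) t) ‖y - b(x)‖^2 ‖A/x‖^2 dM,   t = - log‖x‖.
Proof.  β := B/a.  B - A b' = a (β - x^m b'(x)).  With β1 := tau/a0 and `hβ`: β(x,y) = β(x,b(x)) + β1 (y - b(x)) + E, ‖E‖ <= (‖β1‖/4) ‖y - b‖ (‖x‖,‖y‖,‖b(x)‖ <= K).  u0(x) := β(x,b(x)) - x^m b'(x) depends only on x.
 ‖β - x^m b'‖^2 = ‖u0 + β1(y-b) + E‖^2 >= (1/2)‖u0 + β1(y-b)‖^2 - ‖E‖^2.  So
 ∫ χ ‖B - A b'‖^2 dM >= (1/2)∫ χ ‖a‖^2 ‖u0 + β1(y-b)‖^2 dM - (‖β1‖^2/16) ∫ χ ‖a‖^2 ‖y-b‖^2 dM, and expanding the square the cross term is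
 2 Re ∫ χ(t) conj(u0(x)) β1 (y - b(x)) ‖a‖^2 dM = 2 Re ∫ [χ(t) conj(u0(x)) β1 ‖x‖^(-2m)] (y - b(x)) ‖A‖^2 dM = 0 by (ii) (the bracket is a continuous function of x with compact support in pdisc R).
 Hence >= (1/2 - 1/16) ‖β1‖^2 ∫ χ ‖a‖^2 ‖y-b‖^2 dM, and ‖a‖^2 = ‖A/x‖^2 ‖x‖^(2-2m) = ‖A/x‖^2 e^((2m-2)t).
 All integrals are over bounded integrands on a set {δ <= ‖x‖ < R, ‖y‖ < K} of finite M-measure (nsq Z >= ‖A‖^2 >= const there).
-/

open MvPolynomial MeasureTheory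
open scoped ContDiff ComplexConjugate

namespace FC76

theorem S6_open (R : ℝ) : IsOpen (pdisc R) := by
  have h : pdisc R = {t : ℂ | 0 < ‖t‖} ∩ {t : ℂ | ‖t‖ < R} := rfl
  rw [h]
  exact (isOpen_lt continuous_const continuous_norm).inter (isOpen_lt continuous_norm continuous_const)

theorem S6_Pset_open (R K : ℝ) : IsOpen (Pset R K) := by
  have h : Pset R K = {p : ℂ × ℂ | 0 < ‖p.1‖} ∩ ({p : ℂ × ℂ | ‖p.1‖ < R} ∩
      {p : ℂ × ℂ | ‖p.2‖ < 3 * K / 4}) := rfl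
  rw [h]
  refine (isOpen_lt continuous_const (continuous_fst.norm)).inter
    ((isOpen_lt continuous_fst.norm continuous_const).inter
      (isOpen_lt continuous_snd.norm continuous_const))

theorem S6_cont {Y G : Type*} [TopologicalSpace Y] [NormedAddCommGroup G] [NormedSpace ℝ G]
    {pr : Y → ℂ} (hpr : Continuous pr) {ψ : ℂ → ℝ} {C : Set ℂ} {R : ℝ}
    (hψ : ContinuousOn ψ (pdisc R)) (hC : IsClosed C) (h0 : ∀ x, x ∉ C → ψ x = 0)
    (hCR : C ⊆ pdisc R) {φ : Y → G} (hφ : ContinuousOn φ (pr ⁻¹' pdisc R)) :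
    Continuous (fun p => ψ (pr p) • φ p) := by
  rw [continuous_iff_continuousAt]
  intro p
  by_cases hp : pr p ∈ pdisc R
  · have hop : IsOpen (pr ⁻¹' pdisc R) := (S6_open R).preimage hpr
    have h1 : ContinuousAt φ p := hφ.continuousAt (hop.mem_nhds hp)
    have h2 : ContinuousAt (fun q => ψ (pr q)) p :=
      ContinuousAt.comp (f := pr) (hψ.continuousAt ((S6_open R).mem_nhds hp)) hpr.continuousAt
    exact h2.smul h1
  · have hpC : pr p ∉ C := fun h => hp (hCR h)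
    have hop : IsOpen (pr ⁻¹' Cᶜ) := hC.isOpen_compl.preimage hpr
    have hev : (fun p => ψ (pr p) • φ p) =ᶠ[nhds p] fun _ => (0 : G) := by
      filter_upwards [hop.mem_nhds hpC] with q hq
      rw [h0 _ hq, zero_smul]
    exact (continuousAt_const (y := (0 : G))).congr hev.symm

theorem S6_int {G : Type*} [NormedAddCommGroup G] {M : Measure (ℂ × ℂ)} {R K : ℝ} {C : Set ℂ}
    (hC : IsCompact C) (hM : M (C ×ˢ Metric.closedBall (0 : ℂ) (3 * K / 4)) < ⊤)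
    {f : ℂ × ℂ → G} (hf : Continuous f) (h0 : ∀ p : ℂ × ℂ, p.1 ∉ C → f p = 0) :
    IntegrableOn f (Pset R K) M := by
  have hK : IsCompact (C ×ˢ Metric.closedBall (0 : ℂ) (3 * K / 4)) :=
    hC.prod (isCompact_closedBall _ _)
  obtain ⟨c, hc⟩ := hK.exists_bound_of_continuousOn hf.continuousOn
  have h1 : IntegrableOn f (C ×ˢ Metric.closedBall (0 : ℂ) (3 * K / 4)) M := by
    refine Measure.integrableOn_of_bounded hM.ne hf.aestronglyMeasurable (M := c) ?_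
    rw [ae_restrict_iff' hK.isClosed.measurableSet]
    exact Filter.Eventually.of_forall hc
  refine h1.of_forall_sdiff_eq_zero (S6_Pset_open R K).measurableSet ?_
  rintro p ⟨hp, hpn⟩
  refine h0 p (fun hpC => hpn ⟨hpC, ?_⟩)
  rw [mem_closedBall_zero_iff]
  exact hp.2.2.le

/-- the support of the radial cut-off -/
theorem S6_C {R : ℝ} (hR : 0 < R) (hR1 : R < 1) {χ : ℝ → ℝ} (hχc : Continuous χ) (hχ : HasCompactSupport χ)
    (hχs : tsupport χ ⊆ Set.Ioi (-Real.log R)) :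
    ContinuousOn (fun x : ℂ => χ (-Real.log ‖x‖)) (pdisc R) ∧
    ∃ C : Set ℂ, IsCompact C ∧ C ⊆ pdisc R ∧ ∀ x, x ∉ C → χ (-Real.log ‖x‖) = 0 := by
  have hlog : 0 < -Real.log R := by
    have := Real.log_neg hR hR1
    linarith
  have hcont : ∀ s : Set ℂ, (∀ x ∈ s, 0 < ‖x‖) → ContinuousOn (fun x : ℂ => -Real.log ‖x‖) s := by
    intro s hs
    refine ContinuousOn.neg (ContinuousOn.log continuous_norm.continuousOn ?_)
    intro x hx
    exact (hs x hx).ne'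
  refine ⟨hχc.comp_continuousOn (hcont _ (fun x hx => hx.1)), ?_⟩
  obtain ⟨t2, ht2⟩ : ∃ t2, ∀ t ∈ tsupport χ, t ≤ t2 := by
    obtain ⟨b, hb⟩ := hχ.isCompact.isBounded.bddAbove
    exact ⟨b, fun t ht => hb ht⟩
  obtain ⟨S, hS⟩ : ∃ S : Set ℂ, S = {x : ℂ | Real.exp (-t2) ≤ ‖x‖ ∧ ‖x‖ ≤ R} := ⟨_, rfl⟩
  have hSc : IsClosed S := by
    rw [hS]
    exact (isClosed_le continuous_const continuous_norm).inter
      (isClosed_le continuous_norm continuous_const)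
  have hS0 : ∀ x ∈ S, 0 < ‖x‖ := by
    intro x hx
    rw [hS] at hx
    exact lt_of_lt_of_le (Real.exp_pos _) hx.1
  have hScomp : IsCompact S := by
    refine (isCompact_closedBall (0 : ℂ) R).of_isClosed_subset hSc ?_
    intro x hx
    rw [hS] at hx
    rw [mem_closedBall_zero_iff]
    exact hx.2
  have hCc : IsClosed (S ∩ (fun x : ℂ => -Real.log ‖x‖) ⁻¹' tsupport χ) :=
    (hcont S hS0).preimage_isClosed_of_isClosed hSc (isClosed_tsupport χ)
  refine ⟨S ∩ (fun x : ℂ => -Real.log ‖x‖) ⁻¹' tsupport χ,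
    hScomp.of_isClosed_subset hCc Set.inter_subset_left, ?_, ?_⟩
  · rintro x ⟨hx, hxt⟩
    have h1 : -Real.log R < -Real.log ‖x‖ := hχs hxt
    refine ⟨hS0 x hx, ?_⟩
    have h2 : Real.log ‖x‖ < Real.log R := by linarith
    exact (Real.log_lt_log_iff (hS0 x hx) hR).1 h2
  · intro x hx
    by_contra hne
    apply hx
    have ht : -Real.log ‖x‖ ∈ tsupport χ := subset_tsupport _ hne
    have h1 : -Real.log R < -Real.log ‖x‖ := hχs ht
    have h0 : 0 < ‖x‖ := by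
      rcases (norm_nonneg x).eq_or_lt with h | h
      · rw [← h, Real.log_zero] at h1
        linarith
      · exact h
    refine ⟨?_, ht⟩
    rw [hS]
    refine ⟨?_, ?_⟩
    · have h2 := ht2 _ ht
      calc Real.exp (-t2) ≤ Real.exp (Real.log ‖x‖) := Real.exp_le_exp.2 (by linarith)
        _ = ‖x‖ := Real.exp_log h0
    · have h2 : Real.log ‖x‖ < Real.log R := by linarith
      exact ((Real.log_lt_log_iff h0 hR).1 h2).le

/-- the elementary inequality -/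
theorem S6_ineq (u β w E : ℂ) (hE : ‖E‖ ≤ ‖β‖ / 4 * ‖w‖) :
    7 / 16 * ‖β‖ ^ 2 * ‖w‖ ^ 2 + (conj u * β * w).re ≤ ‖u + β * w + E‖ ^ 2 := by
  have h1 : ‖u + β * w‖ ^ 2 ≤ 2 * ‖u + β * w + E‖ ^ 2 + 2 * ‖E‖ ^ 2 := by
    have h2 : ‖u + β * w‖ ≤ ‖u + β * w + E‖ + ‖E‖ := by
      have h3 : u + β * w = (u + β * w + E) - E := by ring
      calc ‖u + β * w‖ = ‖(u + β * w + E) - E‖ := by rw [← h3]
        _ ≤ _ := norm_sub_le _ _
    have h4 := norm_nonneg (u + β * w)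
    have h5 := norm_nonneg (u + β * w + E)
    have h6 := norm_nonneg E
    nlinarith [sq_nonneg (‖u + β * w + E‖ - ‖E‖), pow_le_pow_left₀ h4 h2 2]
  have h2 : ‖u + β * w‖ ^ 2 = ‖u‖ ^ 2 + 2 * (conj u * β * w).re + ‖β‖ ^ 2 * ‖w‖ ^ 2 := by
    rw [← mul_pow, ← norm_mul]
    simp only [← Complex.normSq_eq_norm_sq, Complex.normSq_apply, Complex.mul_re, Complex.mul_im,
      Complex.add_re, Complex.add_im, Complex.conj_re, Complex.conj_im]
    ring
  have h3 : ‖E‖ ^ 2 ≤ 1 / 16 * (‖β‖ ^ 2 * ‖w‖ ^ 2) := by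
    calc ‖E‖ ^ 2 ≤ (‖β‖ / 4 * ‖w‖) ^ 2 := pow_le_pow_left₀ (norm_nonneg _) hE 2
      _ = _ := by ring
  have h4 := sq_nonneg ‖u‖
  linarith

theorem sn_variance {m : ℕ} {a B h : P2} {ρ : ℝ} {M : Measure (ℂ × ℂ)} {K Cb : ℝ} (D : SNData m a B h ρ M K Cb)
    (R : ℝ) (hR : 0 < R) (hRK : R ≤ K / 2) (b : ℂ → ℂ) (hb : DifferentiableOn ℂ b (pdisc R))
    (hbK : ∀ x ∈ pdisc R, ‖b x‖ ≤ K)
    (horth : ∀ χ : ℂ → ℂ, Continuous χ → HasCompactSupport χ → tsupport χ ⊆ pdisc R →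
        ∫ p in Pset R K, χ p.1 * ((p.2 - b p.1) * ((‖ev (X 0 ^ m * a) p‖ ^ 2 : ℝ) : ℂ)) ∂M = 0) :
    ∃ c : ℝ, 0 < c ∧ ∀ χ : ℝ → ℝ, Continuous χ → HasCompactSupport χ → tsupport χ ⊆ Set.Ioi (-Real.log R) →
      (∀ t, 0 ≤ χ t) →
      c * ∫ p in Pset R K, χ (-Real.log ‖p.1‖) * (Real.exp ((2 * m - 2) * (-Real.log ‖p.1‖)) *
          (‖p.2 - b p.1‖ ^ 2 * ‖ev (X 0 ^ m * a) p / p.1‖ ^ 2)) ∂M ≤
      ∫ p in Pset R K, χ (-Real.log ‖p.1‖) * ‖ev B p - ev (X 0 ^ m * a) p * deriv b p.1‖ ^ 2 ∂M := by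
  have hK0 := D.hK
  have hK1 := D.hK1
  have hm := D.hm
  have hR1 : R < 1 := by linarith
  have hev : ∀ p : ℂ × ℂ, ev (X 0 ^ m * a) p = p.1 ^ m * ev a p := by
    intro p
    rw [ev_mul, ev_pow, ev_X0]
  have hca : Continuous (ev a) := (contDiff_real_ev a).continuous
  have hcB : Continuous (ev B) := (contDiff_real_ev B).continuous
  have hcA : Continuous (ev (X 0 ^ m * a)) := (contDiff_real_ev _).continuous
  -- lower bound of a
  have ha0 : 0 < ‖ev a 0‖ := norm_pos_iff.2 D.ha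
  have halow : ∀ p : ℂ × ℂ, ‖p‖ ≤ K → ‖ev a 0‖ / 2 ≤ ‖ev a p‖ := by
    intro p hp
    have h1 := D.ha' p hp
    have h2 : ‖ev a 0‖ ≤ ‖ev a p‖ + ‖ev a p - ev a 0‖ := by
      have h3 : ev a 0 = ev a p - (ev a p - ev a 0) := by ring
      calc ‖ev a 0‖ = ‖ev a p - (ev a p - ev a 0)‖ := by rw [← h3]
        _ ≤ _ := norm_sub_le _ _
    linarith
  have hane : ∀ p : ℂ × ℂ, ‖p‖ ≤ K → ev a p ≠ 0 := by
    intro p hp h0
    have := halow p hp
    rw [h0, norm_zero] at this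
    linarith
  have hnorm : ∀ x y : ℂ, ‖x‖ ≤ K → ‖y‖ ≤ K → ‖((x, y) : ℂ × ℂ)‖ ≤ K := by
    intro x y hx hy
    rw [Prod.norm_def]
    exact max_le hx hy
  obtain ⟨β1, hβ1⟩ : ∃ β1 : ℂ, β1 = cf 0 1 B / ev a 0 := ⟨_, rfl⟩
  have hβ1pos : 0 < ‖β1‖ := by
    rw [hβ1]
    exact norm_pos_iff.2 (div_ne_zero D.hτ D.ha)
  obtain ⟨u0, hu0⟩ : ∃ u0 : ℂ → ℂ, u0 = fun x => ev B (x, b x) / ev a (x, b x) - x ^ m * deriv b x :=
    ⟨_, rfl⟩
  have hbc : ContinuousOn b (pdisc R) := hb.continuousOn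
  have hb'c : ContinuousOn (deriv b) (pdisc R) := (hb.deriv (S6_open R)).continuousOn
  have hpairc : ContinuousOn (fun x : ℂ => ((x, b x) : ℂ × ℂ)) (pdisc R) := continuousOn_id.prodMk hbc
  have hpd : ∀ x ∈ pdisc R, ‖x‖ ≤ K := by
    intro x hx
    have := hx.2
    linarith
  have hu0c : ContinuousOn u0 (pdisc R) := by
    rw [hu0]
    refine ContinuousOn.sub (ContinuousOn.div (hcB.comp_continuousOn hpairc)
      (hca.comp_continuousOn hpairc) ?_) ((continuousOn_id.pow m).mul hb'c)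
    intro x hx
    exact hane _ (hnorm _ _ (hpd x hx) (hbK x hx))
  refine ⟨7 / 16 * ‖β1‖ ^ 2, by positivity, ?_⟩
  intro χ hχc hχ hχs hχ0
  obtain ⟨hψc, C, hC, hCR, hC0⟩ := S6_C hR hR1 hχc hχ hχs
  obtain ⟨ψ, hψ⟩ : ∃ ψ : ℂ → ℝ, ψ = fun x => χ (-Real.log ‖x‖) := ⟨_, rfl⟩
  have hψx : ∀ x, ψ x = χ (-Real.log ‖x‖) := fun x => by rw [hψ]
  have hψc' : ContinuousOn ψ (pdisc R) := by rw [hψ]; exact hψc
  have hψ0 : ∀ x, x ∉ C → ψ x = 0 := by
    intro x hx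
    rw [hψx]
    exact hC0 x hx
  -- finite measure
  have hM : M (C ×ˢ Metric.closedBall (0 : ℂ) (3 * K / 4)) < ⊤ := by
    have hcomp : IsCompact (C ×ˢ Metric.closedBall (0 : ℂ) (3 * K / 4)) :=
      hC.prod (isCompact_closedBall _ _)
    obtain ⟨δ, hδ, hδ'⟩ : ∃ δ : ℝ, 0 < δ ∧
        ∀ p ∈ C ×ˢ Metric.closedBall (0 : ℂ) (3 * K / 4), δ ≤ nsq (vf (X 0 ^ m * a) B p) := by
      rcases (C ×ˢ Metric.closedBall (0 : ℂ) (3 * K / 4)).eq_empty_or_nonempty with he | hne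
      · refine ⟨1, one_pos, ?_⟩
        intro p hp
        rw [he] at hp
        exact absurd hp (Set.notMem_empty p)
      · have hc : ContinuousOn (fun p => nsq (vf (X 0 ^ m * a) B p))
            (C ×ˢ Metric.closedBall (0 : ℂ) (3 * K / 4)) := by
          unfold nsq vf
          exact ((hcA.norm.pow 2).add (hcB.norm.pow 2)).continuousOn
        obtain ⟨p0, hp0, hmin⟩ := hcomp.exists_isMinOn hne hc
        refine ⟨nsq (vf (X 0 ^ m * a) B p0), ?_, fun p hp => hmin hp⟩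
        have h1 : ev (X 0 ^ m * a) p0 ≠ 0 := by
          rw [hev]
          refine mul_ne_zero (pow_ne_zero _ ?_) (hane p0 ?_)
          · exact norm_pos_iff.1 (hCR hp0.1).1
          · have h2 : ‖p0.2‖ ≤ 3 * K / 4 := mem_closedBall_zero_iff.1 hp0.2
            exact hnorm p0.1 p0.2 (hpd _ (hCR hp0.1)) (by linarith)
        unfold nsq vf
        have h3 : 0 < ‖ev (X 0 ^ m * a) p0‖ := norm_pos_iff.2 h1
        positivity
    have h2 : ENNReal.ofReal δ * M (C ×ˢ Metric.closedBall (0 : ℂ) (3 * K / 4)) ≤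
        ∫⁻ p, ENNReal.ofReal (nsq (vf (X 0 ^ m * a) B p)) ∂M := by
      rw [← setLIntegral_const]
      refine le_trans (setLIntegral_mono' hcomp.isClosed.measurableSet (fun p hp => ?_))
        (setLIntegral_le_lintegral _ _)
      exact ENNReal.ofReal_le_ofReal (hδ' p hp)
    have h3 := lt_of_le_of_lt h2 D.inv.fin
    by_contra hcon
    rw [not_lt, top_le_iff] at hcon
    rw [hcon, ENNReal.mul_top (by simpa using hδ)] at h3
    exact lt_irrefl _ h3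
  -- the three functions
  obtain ⟨φ1, hφ1⟩ : ∃ φ1 : ℂ × ℂ → ℝ, φ1 = fun p => ‖p.2 - b p.1‖ ^ 2 * ‖ev a p‖ ^ 2 := ⟨_, rfl⟩
  obtain ⟨φ2, hφ2⟩ : ∃ φ2 : ℂ × ℂ → ℝ, φ2 = fun p =>
      ‖ev B p - ev (X 0 ^ m * a) p * deriv b p.1‖ ^ 2 := ⟨_, rfl⟩
  obtain ⟨γ, hγ⟩ : ∃ γ : ℂ → ℂ, γ = fun x => conj (u0 x) * β1 * (((‖x‖ ^ (2 * m))⁻¹ : ℝ) : ℂ) := ⟨_, rfl⟩
  have hb1 : ContinuousOn (fun p : ℂ × ℂ => b p.1) (Prod.fst ⁻¹' pdisc R) :=
    hbc.comp continuous_fst.continuousOn (fun p hp => hp)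
  have hb2 : ContinuousOn (fun p : ℂ × ℂ => deriv b p.1) (Prod.fst ⁻¹' pdisc R) :=
    hb'c.comp continuous_fst.continuousOn (fun p hp => hp)
  have hφ1c : ContinuousOn φ1 (Prod.fst ⁻¹' pdisc R) := by
    rw [hφ1]
    exact ((continuous_snd.continuousOn.sub hb1).norm.pow 2).mul (hca.norm.pow 2).continuousOn
  have hφ2c : ContinuousOn φ2 (Prod.fst ⁻¹' pdisc R) := by
    rw [hφ2]
    exact (hcB.continuousOn.sub (hcA.continuousOn.mul hb2)).norm.pow 2
  have hγc : ContinuousOn γ (pdisc R) := by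
    rw [hγ]
    refine ContinuousOn.mul ((Complex.continuous_conj.comp_continuousOn hu0c).mul continuousOn_const) ?_
    refine Complex.continuous_ofReal.comp_continuousOn ?_
    refine ContinuousOn.inv₀ (continuous_norm.pow _).continuousOn ?_
    intro x hx
    exact (pow_pos hx.1 _).ne'
  have hφ3c : ContinuousOn (fun p : ℂ × ℂ => γ p.1 * ((p.2 - b p.1) *
      ((‖ev (X 0 ^ m * a) p‖ ^ 2 : ℝ) : ℂ))) (Prod.fst ⁻¹' pdisc R) := by
    refine ContinuousOn.mul (hγc.comp continuous_fst.continuousOn (fun p hp => hp)) ?_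
    refine ContinuousOn.mul (continuous_snd.continuousOn.sub hb1) ?_
    exact (Complex.continuous_ofReal.comp (hcA.norm.pow 2)).continuousOn
  have hf1 := S6_cont continuous_fst hψc' hC.isClosed hψ0 hCR hφ1c
  have hf2 := S6_cont continuous_fst hψc' hC.isClosed hψ0 hCR hφ2c
  have hf3 := S6_cont continuous_fst hψc' hC.isClosed hψ0 hCR hφ3c
  have hg : Continuous (fun x : ℂ => ψ x • γ x) :=
    S6_cont continuous_id hψc' hC.isClosed hψ0 hCR hγc
  have hi1 : IntegrableOn (fun p : ℂ × ℂ => ψ p.1 • φ1 p) (Pset R K) M :=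
    S6_int hC hM hf1 (fun p hp => by
      show ψ p.1 • φ1 p = 0
      rw [hψ0 _ hp, zero_smul])
  have hi2 : IntegrableOn (fun p : ℂ × ℂ => ψ p.1 • φ2 p) (Pset R K) M :=
    S6_int hC hM hf2 (fun p hp => by
      show ψ p.1 • φ2 p = 0
      rw [hψ0 _ hp, zero_smul])
  have hi3 : IntegrableOn (fun p : ℂ × ℂ => ψ p.1 • (γ p.1 * ((p.2 - b p.1) *
      ((‖ev (X 0 ^ m * a) p‖ ^ 2 : ℝ) : ℂ)))) (Pset R K) M :=
    S6_int hC hM hf3 (fun p hp => by
      show ψ p.1 • (γ p.1 * ((p.2 - b p.1) * ((‖ev (X 0 ^ m * a) p‖ ^ 2 : ℝ) : ℂ))) = 0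
      rw [hψ0 _ hp, zero_smul])
  -- the orthogonality
  have hgs : Function.support (fun x : ℂ => ψ x • γ x) ⊆ C := by
    intro x hx
    by_contra hxC
    apply hx
    show ψ x • γ x = 0
    rw [hψ0 x hxC, zero_smul]
  have hgt : tsupport (fun x : ℂ => ψ x • γ x) ⊆ C := closure_minimal hgs hC.isClosed
  have hgcs : HasCompactSupport (fun x : ℂ => ψ x • γ x) :=
    hC.of_isClosed_subset (isClosed_tsupport _) hgt
  have horth' := horth _ hg hgcs (hgt.trans hCR)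
  have h0 : ∫ p in Pset R K, (ψ p.1 • (γ p.1 * ((p.2 - b p.1) *
      ((‖ev (X 0 ^ m * a) p‖ ^ 2 : ℝ) : ℂ)))).re ∂M = 0 := by
    have h1 := integral_re hi3
    have h2 : ∫ p in Pset R K, ψ p.1 • (γ p.1 * ((p.2 - b p.1) *
      ((‖ev (X 0 ^ m * a) p‖ ^ 2 : ℝ) : ℂ))) ∂M = 0 := by
      rw [← horth']
      refine integral_congr_ae (Filter.Eventually.of_forall fun p => ?_)
      show ψ p.1 • (γ p.1 * _) = ψ p.1 • γ p.1 * _
      rw [smul_mul_assoc]
    rw [h2] at h1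
    simpa using h1
  have hPm : MeasurableSet (Pset R K) := (S6_Pset_open R K).measurableSet
  have e1 : ∫ p in Pset R K, χ (-Real.log ‖p.1‖) * (Real.exp ((2 * m - 2) * (-Real.log ‖p.1‖)) *
          (‖p.2 - b p.1‖ ^ 2 * ‖ev (X 0 ^ m * a) p / p.1‖ ^ 2)) ∂M =
      ∫ p in Pset R K, ψ p.1 • φ1 p ∂M := by
    refine setIntegral_congr_fun hPm ?_
    intro p hp
    have hx0 : 0 < ‖p.1‖ := hp.1
    show χ (-Real.log ‖p.1‖) * (Real.exp ((2 * m - 2) * (-Real.log ‖p.1‖)) *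
          (‖p.2 - b p.1‖ ^ 2 * ‖ev (X 0 ^ m * a) p / p.1‖ ^ 2)) = ψ p.1 • φ1 p
    rw [hψx, hφ1, smul_eq_mul, hev]
    congr 1
    have h1 : Real.exp ((2 * m - 2) * (-Real.log ‖p.1‖)) = (‖p.1‖ ^ (2 * (m - 1)))⁻¹ := by
      have h2 : ((2 * m - 2 : ℝ)) * (-Real.log ‖p.1‖) = -(((2 * (m - 1) : ℕ) : ℝ) * Real.log ‖p.1‖) := by
        have h3 : ((2 * (m - 1) : ℕ) : ℝ) = 2 * m - 2 := by
          rw [Nat.cast_mul, Nat.cast_sub (by omega)]
          push_cast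
          ring
        rw [h3]
        ring
      rw [h2, Real.exp_neg, Real.exp_nat_mul, Real.exp_log hx0]
    have h3 : ‖p.1 ^ m * ev a p / p.1‖ ^ 2 = ‖p.1‖ ^ (2 * (m - 1)) * ‖ev a p‖ ^ 2 := by
      obtain ⟨k, rfl⟩ : ∃ k, m = k + 1 := ⟨m - 1, by omega⟩
      have hx : p.1 ≠ 0 := norm_pos_iff.1 hx0
      have h4 : p.1 ^ (k + 1) * ev a p / p.1 = p.1 ^ k * ev a p := by
        rw [pow_succ]
        field_simp
      rw [h4, norm_mul, norm_pow, mul_pow, ← pow_mul]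
      congr 2
      simp [mul_comm]
    rw [h1, h3]
    have h5 : (0 : ℝ) < ‖p.1‖ ^ (2 * (m - 1)) := pow_pos hx0 _
    field_simp
  have e2 : ∫ p in Pset R K, χ (-Real.log ‖p.1‖) * ‖ev B p - ev (X 0 ^ m * a) p * deriv b p.1‖ ^ 2 ∂M =
      ∫ p in Pset R K, ψ p.1 • φ2 p ∂M := by
    rw [hφ2, hψ]
    rfl
  rw [e1, e2]
  have hi3r : IntegrableOn (fun p : ℂ × ℂ => (ψ p.1 • (γ p.1 * ((p.2 - b p.1) *
      ((‖ev (X 0 ^ m * a) p‖ ^ 2 : ℝ) : ℂ)))).re) (Pset R K) M := hi3.re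
  have e3 : 7 / 16 * ‖β1‖ ^ 2 * ∫ p in Pset R K, ψ p.1 • φ1 p ∂M =
      ∫ p in Pset R K, (7 / 16 * ‖β1‖ ^ 2 * (ψ p.1 • φ1 p) + (ψ p.1 • (γ p.1 * ((p.2 - b p.1) *
      ((‖ev (X 0 ^ m * a) p‖ ^ 2 : ℝ) : ℂ)))).re) ∂M := by
    rw [integral_add (hi1.const_mul _) hi3r, integral_const_mul, h0, add_zero]
  rw [e3]
  refine setIntegral_mono_on ((hi1.const_mul _).add hi3r) hi2 hPm ?_
  intro p hp
  obtain ⟨x, y⟩ := p
  obtain ⟨hx0, hxR, hy⟩ := hp
  have hx0' : 0 < ‖x‖ := hx0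
  have hxR' : ‖x‖ < R := hxR
  have hy' : ‖y‖ < 3 * K / 4 := hy
  have hxp : x ∈ pdisc R := ⟨hx0', hxR'⟩
  have hxK : ‖x‖ ≤ K := hpd x hxp
  have hyK : ‖y‖ ≤ K := by linarith
  have hψpos : 0 ≤ ψ x := by
    rw [hψx]
    exact hχ0 _
  have hE := D.hβ x y (b x) hxK hyK (hbK x hxp)
  rw [← hβ1] at hE
  have key := S6_ineq (u0 x) β1 (y - b x) _ hE
  have haxy : ev a (x, y) ≠ 0 := hane _ (hnorm _ _ hxK hyK)
  have haxb : ev a (x, b x) ≠ 0 := hane _ (hnorm _ _ hxK (hbK x hxp))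
  show 7 / 16 * ‖β1‖ ^ 2 * (ψ x • φ1 (x, y)) + (ψ x • (γ x * ((y - b x) *
      ((‖ev (X 0 ^ m * a) (x, y)‖ ^ 2 : ℝ) : ℂ)))).re ≤ ψ x • φ2 (x, y)
  have g1 : (ψ x • (γ x * ((y - b x) * ((‖ev (X 0 ^ m * a) (x, y)‖ ^ 2 : ℝ) : ℂ)))).re =
      ψ x * (‖ev a (x, y)‖ ^ 2 * (conj (u0 x) * β1 * (y - b x)).re) := by
    rw [Complex.smul_re, smul_eq_mul]
    congr 1
    have h1 : γ x * ((y - b x) * ((‖ev (X 0 ^ m * a) (x, y)‖ ^ 2 : ℝ) : ℂ)) =
        ((‖ev a (x, y)‖ ^ 2 : ℝ) : ℂ) * (conj (u0 x) * β1 * (y - b x)) := by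
      have h2 : ((((‖x‖ ^ (2 * m))⁻¹ : ℝ) : ℂ)) * ((‖ev (X 0 ^ m * a) (x, y)‖ ^ 2 : ℝ) : ℂ) =
          ((‖ev a (x, y)‖ ^ 2 : ℝ) : ℂ) := by
        rw [← Complex.ofReal_mul]
        congr 1
        rw [hev]
        show (‖x‖ ^ (2 * m))⁻¹ * ‖x ^ m * ev a (x, y)‖ ^ 2 = ‖ev a (x, y)‖ ^ 2
        rw [norm_mul, norm_pow, mul_pow, ← pow_mul, mul_comm m 2]
        have h5 : (0 : ℝ) < ‖x‖ ^ (2 * m) := pow_pos hx0' _
        field_simp
      rw [hγ, ← h2]
      ring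
    rw [h1, Complex.re_ofReal_mul]
  have g2 : φ2 (x, y) = ‖ev a (x, y)‖ ^ 2 * ‖u0 x + β1 * (y - b x) +
      (ev B (x, y) / ev a (x, y) - ev B (x, b x) / ev a (x, b x) - β1 * (y - b x))‖ ^ 2 := by
    have h1 : φ2 (x, y) = ‖ev B (x, y) - ev (X 0 ^ m * a) (x, y) * deriv b x‖ ^ 2 := by rw [hφ2]
    have h2 : ev (X 0 ^ m * a) (x, y) = x ^ m * ev a (x, y) := hev (x, y)
    have h3 : u0 x = ev B (x, b x) / ev a (x, b x) - x ^ m * deriv b x := by rw [hu0]
    rw [h1, ← mul_pow, ← norm_mul, h2, h3]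
    congr 2
    have h4 : ev B (x, y) = ev a (x, y) * (ev B (x, y) / ev a (x, y)) := by
      rw [mul_div_cancel₀ _ haxy]
    calc ev B (x, y) - x ^ m * ev a (x, y) * deriv b x =
        ev a (x, y) * (ev B (x, y) / ev a (x, y)) - x ^ m * ev a (x, y) * deriv b x := by rw [← h4]
      _ = _ := by ring
  rw [g1, g2, hφ1, smul_eq_mul, smul_eq_mul]
  show 7 / 16 * ‖β1‖ ^ 2 * (ψ x * (‖y - b x‖ ^ 2 * ‖ev a (x, y)‖ ^ 2)) +
    ψ x * (‖ev a (x, y)‖ ^ 2 * (conj (u0 x) * β1 * (y - b x)).re) ≤ _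
  calc 7 / 16 * ‖β1‖ ^ 2 * (ψ x * (‖y - b x‖ ^ 2 * ‖ev a (x, y)‖ ^ 2)) +
      ψ x * (‖ev a (x, y)‖ ^ 2 * (conj (u0 x) * β1 * (y - b x)).re) =
      ψ x * (‖ev a (x, y)‖ ^ 2 * (7 / 16 * ‖β1‖ ^ 2 * ‖y - b x‖ ^ 2 +
        (conj (u0 x) * β1 * (y - b x)).re)) := by ring
    _ ≤ _ := mul_le_mul_of_nonneg_left (mul_le_mul_of_nonneg_left key (by positivity)) hψpos

end FC76

end S_H76_FL_S6

section S_H76_FL_S7

/-!
# Row S7: an ordinary differential inequality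

v >= 0 of class C^2 on (T, oo), bounded, v'^2 <= v v'' and v'' >= c e^(βt) v with c, β > 0.  CLAIM: v = 0 on (T, oo).
Proof.  v'' >= 0, so v' is nondecreasing on (T,oo); if v'(t1) > 0 for some t1 then v would be unbounded: v' <= 0.  Suppose v(t0) > 0.  Claim v > 0 on [t0, oo): otherwise let t1 be the first zero; on [t0,t1) ψ := log v satisfies
ψ'' = (v v'' - v'^2)/v^2 >= 0, so ψ(t) >= ψ(t0) + ψ'(t0)(t - t0) on [t0,t1), bounded below, contradiction with v(t) -> 0 (alternatively: v(t) >= v(t0) exp(v'(t0)/v(t0) (t - t0)), e.g. because (v e^(-σ t)) ... ).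
Now on [t0,oo): ψ' = v'/v <= 0 is nondecreasing (ψ'' >= 0), so ψ'^2 <= ψ'(t0)^2 =: s; ψ'' = v''/v - ψ'^2 >= c e^(βt) - s.  Integrate: ψ'(t) >= ψ'(t0) + (c/β)(e^(βt) - e^(βt0)) - s (t - t0) -> +oo, contradiction with ψ' <= 0.
-/

namespace FC76

theorem S7_mono {f f' : ℝ → ℝ} {a : ℝ} (h : ∀ t, a ≤ t → HasDerivAt f (f' t) t)
    (h' : ∀ t, a ≤ t → 0 ≤ f' t) {s t : ℝ} (hs : a ≤ s) (hst : s ≤ t) : f s ≤ f t := by
  have h1 : MonotoneOn f (Set.Ici a) := by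
    apply monotoneOn_of_deriv_nonneg (convex_Ici a)
    · intro x hx
      exact (h x hx).continuousAt.continuousWithinAt
    · intro x hx
      rw [interior_Ici] at hx
      exact (h x (le_of_lt hx)).differentiableAt.differentiableWithinAt
    · intro x hx
      rw [interior_Ici] at hx
      rw [(h x (le_of_lt hx)).deriv]
      exact h' x (le_of_lt hx)
  exact h1 hs (hs.trans hst) hst

theorem ode_zero (v : ℝ → ℝ) (T β c Cv : ℝ) (hβ : 0 < β) (hc : 0 < c)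
    (hv : ContDiffOn ℝ 2 v (Set.Ioi T)) (h0 : ∀ t, T < t → 0 ≤ v t) (hb : ∀ t, T < t → v t ≤ Cv)
    (h1 : ∀ t, T < t → (deriv v t) ^ 2 ≤ v t * deriv (deriv v) t)
    (h2 : ∀ t, T < t → c * Real.exp (β * t) * v t ≤ deriv (deriv v) t) : ∀ t, T < t → v t = 0 := by
  have hd1 : ∀ t, T < t → HasDerivAt v (deriv v t) t := by
    intro t ht
    exact ((hv.differentiableOn (by norm_num)).differentiableAt (Ioi_mem_nhds ht)).hasDerivAt
  have hv' : ContDiffOn ℝ 1 (deriv v) (Set.Ioi T) := by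
    have h3 : ContDiffOn ℝ (1 + 1) v (Set.Ioi T) := by
      have e : (1 + 1 : WithTop ℕ∞) = 2 := by norm_num
      rw [e]
      exact hv
    exact ((contDiffOn_succ_iff_deriv_of_isOpen isOpen_Ioi).1 h3).2.2
  have hd2 : ∀ t, T < t → HasDerivAt (deriv v) (deriv (deriv v) t) t := by
    intro t ht
    exact ((hv'.differentiableOn (by norm_num)).differentiableAt (Ioi_mem_nhds ht)).hasDerivAt
  have hpp : ∀ t, T < t → 0 ≤ deriv (deriv v) t := by
    intro t ht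
    refine le_trans ?_ (h2 t ht)
    have := h0 t ht
    positivity
  -- the derivative is nonpositive
  have hneg : ∀ t, T < t → deriv v t ≤ 0 := by
    intro t1 ht1
    by_contra hcon
    push Not at hcon
    have hmono : ∀ t, t1 ≤ t → deriv v t1 ≤ deriv v t := fun t ht =>
      S7_mono (fun s hs => hd2 s (ht1.trans_le hs)) (fun s hs => hpp s (ht1.trans_le hs)) le_rfl ht
    have hlin : ∀ t, t1 ≤ t → v t1 - deriv v t1 * t1 ≤ v t - deriv v t1 * t := fun t ht =>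
      S7_mono (f := fun s => v s - deriv v t1 * s) (f' := fun s => deriv v s - deriv v t1 * 1)
        (fun s hs => (hd1 s (ht1.trans_le hs)).sub ((hasDerivAt_id s).const_mul _))
        (fun s hs => by have := hmono s hs; linarith) le_rfl ht
    obtain ⟨t, ht⟩ : ∃ t, t = t1 + (Cv + 1) / deriv v t1 := ⟨_, rfl⟩
    have hCv : 0 ≤ Cv := (h0 t1 ht1).trans (hb t1 ht1)
    have htt : t1 ≤ t := by
      rw [ht]
      have : 0 ≤ (Cv + 1) / deriv v t1 := by positivity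
      linarith
    have h3 := hlin t htt
    have h4 := hb t (ht1.trans_le htt)
    have h5 := h0 t1 ht1
    have h6 : deriv v t1 * t = deriv v t1 * t1 + (Cv + 1) := by
      rw [ht]
      field_simp
    linarith
  intro t0 ht0
  by_contra hne
  have hpos : 0 < v t0 := lt_of_le_of_ne (h0 t0 ht0) (Ne.symm hne)
  -- comparison
  obtain ⟨σ, hσ⟩ : ∃ σ, σ = -(deriv v t0 / v t0) := ⟨_, rfl⟩
  have hσ0 : 0 ≤ σ := by
    rw [hσ, neg_nonneg]
    exact div_nonpos_of_nonpos_of_nonneg (hneg t0 ht0) hpos.le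
  have hcmp : ∀ t, t0 ≤ t → -σ * v t ≤ deriv v t := by
    intro t ht
    have hTt : T < t := ht0.trans_le ht
    have hε : ∀ ε : ℝ, 0 < ε → deriv v t0 * (v t + ε) ≤ deriv v t * (v t0 + ε) := by
      intro ε hε
      have h3 : deriv v t0 / (v t0 + ε) ≤ deriv v t / (v t + ε) :=
        S7_mono (f := fun s => deriv v s / (v s + ε))
          (f' := fun s => (deriv (deriv v) s * (v s + ε) - deriv v s * deriv v s) / (v s + ε) ^ 2)
          (fun s hs => by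
            have hTs : T < s := ht0.trans_le hs
            have h5 := h0 s hTs
            exact (hd2 s hTs).div ((hd1 s hTs).add_const ε) (by linarith))
          (fun s hs => by
            have hTs : T < s := ht0.trans_le hs
            have h5 := h1 s hTs
            have h6 := hpp s hTs
            apply div_nonneg _ (sq_nonneg _)
            nlinarith) le_rfl ht
      have h5 := h0 t hTt
      rw [div_le_div_iff₀ (by linarith) (by linarith)] at h3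
      linarith
    have hlim : deriv v t0 * v t ≤ deriv v t * v t0 := by
      by_contra hcon
      push Not at hcon
      obtain ⟨D, hD⟩ : ∃ D, D = deriv v t0 * v t - deriv v t * v t0 := ⟨_, rfl⟩
      have hD0 : 0 < D := by rw [hD]; linarith
      obtain ⟨ε, hεd⟩ : ∃ ε, ε = D / (2 * (1 - deriv v t0)) := ⟨_, rfl⟩
      have hn0 := hneg t0 ht0
      have hnt := hneg t hTt
      have h7 : 0 < 1 - deriv v t0 := by linarith
      have hε0 : 0 < ε := by rw [hεd]; positivity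
      have h8 := hε ε hε0
      have h9 : ε * (1 - deriv v t0) = D / 2 := by
        rw [hεd]
        field_simp
      nlinarith
    rw [hσ, neg_neg, div_mul_eq_mul_div, div_le_iff₀ hpos]
    exact hlim
  -- positivity
  have hexp : ∀ t, t0 ≤ t → 0 < v t := by
    intro t ht
    have h3 : v t0 * Real.exp (σ * t0) ≤ v t * Real.exp (σ * t) :=
      S7_mono (f := fun s => v s * Real.exp (σ * s))
        (f' := fun s => deriv v s * Real.exp (σ * s) + v s * (Real.exp (σ * s) * (σ * 1)))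
        (fun s hs => (hd1 s (ht0.trans_le hs)).mul
          (((hasDerivAt_id s).const_mul σ).exp))
        (fun s hs => by
          have h4 := hcmp s hs
          have h5 := Real.exp_pos (σ * s)
          have h6 : deriv v s * Real.exp (σ * s) + v s * (Real.exp (σ * s) * (σ * 1)) =
            (deriv v s + σ * v s) * Real.exp (σ * s) := by ring
          rw [h6]
          apply mul_nonneg _ h5.le
          linarith) le_rfl ht
    have h4 : 0 < v t0 * Real.exp (σ * t0) := mul_pos hpos (Real.exp_pos _)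
    exact pos_of_mul_pos_left (lt_of_lt_of_le h4 h3) (Real.exp_pos _).le
  -- the quotient
  have hw1 : ∀ t, t0 ≤ t → -σ ≤ deriv v t / v t := by
    intro t ht
    rw [le_div_iff₀ (hexp t ht)]
    exact hcmp t ht
  have hw2 : ∀ t, t0 ≤ t → deriv v t / v t ≤ 0 := fun t ht =>
    div_nonpos_of_nonpos_of_nonneg (hneg t (ht0.trans_le ht)) (hexp t ht).le
  obtain ⟨t2, ht2⟩ : ∃ t2, t2 = max t0 ((σ ^ 2 + 1) / (c * β)) := ⟨_, rfl⟩
  have ht02 : t0 ≤ t2 := by rw [ht2]; exact le_max_left _ _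
  have hbig : ∀ t, t2 ≤ t → σ ^ 2 + 1 ≤ c * Real.exp (β * t) := by
    intro t ht
    have h3 : (σ ^ 2 + 1) / (c * β) ≤ t := by
      refine le_trans ?_ ht
      rw [ht2]
      exact le_max_right _ _
    rw [div_le_iff₀ (by positivity)] at h3
    have h4 := Real.add_one_le_exp (β * t)
    nlinarith
  have hfin : ∀ t, t2 ≤ t → deriv v t2 / v t2 - t2 ≤ deriv v t / v t - t := fun t ht =>
    S7_mono (f := fun s => deriv v s / v s - s)
      (f' := fun s => (deriv (deriv v) s * v s - deriv v s * deriv v s) / v s ^ 2 - 1)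
      (fun s hs => by
        have hs0 : t0 ≤ s := ht02.trans hs
        exact ((hd2 s (ht0.trans_le hs0)).div (hd1 s (ht0.trans_le hs0)) (hexp s hs0).ne').sub
          (hasDerivAt_id s))
      (fun s hs => by
        have hs0 : t0 ≤ s := ht02.trans hs
        have hTs := ht0.trans_le hs0
        have h3 := hexp s hs0
        have h4 := hw1 s hs0
        have h5 := hw2 s hs0
        have h6 : (deriv v s / v s) ^ 2 ≤ σ ^ 2 := by nlinarith
        have h7 : (deriv (deriv v) s * v s - deriv v s * deriv v s) / v s ^ 2 =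
            deriv (deriv v) s / v s - (deriv v s / v s) ^ 2 := by
          field_simp
        have h8 : c * Real.exp (β * s) ≤ deriv (deriv v) s / v s := by
          rw [le_div_iff₀ h3]
          exact h2 s hTs
        have h9 := hbig s hs
        rw [h7]
        linarith) le_rfl ht
  have h3 := hfin (t2 + σ + 1) (by linarith)
  have h4 := hw1 t2 ht02
  have h5 := hw2 (t2 + σ + 1) (by linarith)
  linarith

end FC76

end S_H76_FL_S7
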