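import Mathlib
import Pool.Agent.H24.M68.G04
import Pool.Agent.H24.M68.G06
import Pool.Agent.H24.M68.G12

/-! MP_6873ef_an: this file joins several modules to save build time. -/

section S_H76_FL_LH

/-!
# Row LH: energy estimates with plurisubharmonic weights

S := ‖f1‖^2 + ‖f2‖^2 (evaluated), u := log S.  Choose Φ, c from `exists_convexCutoff`, and a smooth χ, 0 <= χ <= 1, χ = 1 on the closed ball ρ1/2, compact
support in the ball ρ1 (sup norm ball of ℂ x ℂ; `exists_contDiff_tsupport_subset` or ContDiffBump in a normed space with smooth norm is not available for sup norm: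
use products of bumps in each coordinate, or `exists_smooth_zero_one_of_isClosed` / `exists_contMDiff...`).  For R real put R' := R + 2 and
 Ψ_R(p) := Φ(log S(p) + R') if S(p) > 0, 0 if S(p) = 0.   Ψ_R is smooth (it vanishes where S < e^(-R')).
 G_R := χ (Ψ_R - R'), smooth with compact support in ball ρ: 0 = ∫ lev G_R(Z) dM (`Inv.dd`).
 lev G_R = χ lev Ψ_R + (Ψ_R - R') lev χ + 2 (Dχ DΨ_R + Dχ(i.) DΨ_R(i.)) (`lev_mul`).
 At S > 0: lev Ψ_R = Φ'(u+R') lev u + Φ''(u+R') |grad u|^2 = 4 Φ' E1 + 4 Φ'' E2, with E1 = ‖f1 Zf2 - f2 Zf1‖^2/S^2, E2 = ‖conj f1 Zf1 + conj f2 Zf2‖^2/S^2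
 (`lev_comp`, `lev_logPair`, `grad_logPair`, `fderiv_ev_vf`); at S = 0 both lev Ψ_R and E1, E2 (division by zero) vanish.
 On the set where Dχ or lev χ is nonzero (ρ1/2 <= ‖p‖ <= ρ1, compact) c1 <= S <= c2 with c1 > 0, and the derivatives of u are bounded.
 Let R0 be such that S < e^(R0) on the ball ρ1.  For R >= -R0 - 2:  |Ψ_R - R'| <= C there: if u + R' >= 0 then |Φ(u+R') - (u+R')| <= 3, |u| bounded;
 if u + R' < 0 then Ψ = 0 and R' < -u is bounded above, and below by -R0.  |DΨ_R(Z)| <= |Du(Z)| <= C ‖Z‖.  |lev χ(Z)|, |Dχ(Z)| <= C ‖Z‖^2, C‖Z‖.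
 Hence ∫ χ (4 Φ' E1 + 4 Φ'' E2) dM <= C ∫ nsq Z dM =: C0 < oo for all R >= -R0-2 (all integrals finite: integrands bounded by C_R nsq Z).
 (a) R -> oo: Φ'(u+R') -> 1 where S > 0: Fatou (or monotone) gives ∫_{ball ρ1/2} E1 <= C0/4.
 (b) on {e^(-(R+1)) <= S <= e^(-R)}: u + R' in [1,2], Φ'' >= c: ∫ E2 <= C0/(4c).  For R < -R0 - 2 that set is empty in the ball.
-/

open MvPolynomial MeasureTheory
open scoped ContDiff ComplexConjugate

namespace FC76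

theorem LH_two : (2 : WithTop ℕ∞) ≤ ∞ := ENat.LEInfty.out

theorem LH_congr {G G' : ℂ × ℂ → ℝ} {p : ℂ × ℂ} (h : G =ᶠ[nhds p] G') (v : ℂ × ℂ) :
    lev G p v = lev G' p v := by
  unfold lev
  rw [h.fderiv.fderiv_eq]

theorem LH_const (c : ℝ) (p v : ℂ × ℂ) : lev (fun _ => c) p v = 0 := by
  unfold lev
  simp

theorem LH_cont (A B : P2) {G : ℂ × ℂ → ℝ} (hG : ContDiff ℝ ∞ G) :
    Continuous fun p => lev G p (vf A B p) := by
  have h1 : ContDiff ℝ ∞ (fderiv ℝ G) := hG.fderiv_right (by simp)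
  have h2 : Continuous (fderiv ℝ (fderiv ℝ G)) := h1.continuous_fderiv (by simp)
  have hZ := (contDiff_vf A B).continuous
  have hZI : Continuous fun p => Complex.I • vf A B p := hZ.const_smul Complex.I
  unfold lev
  exact ((h2.clm_apply hZ).clm_apply hZ).add ((h2.clm_apply hZI).clm_apply hZI)

theorem LH_contD (A B : P2) {G : ℂ × ℂ → ℝ} (hG : ContDiff ℝ ∞ G) :
    Continuous (fun p => fderiv ℝ G p (vf A B p)) ∧
      Continuous fun p => fderiv ℝ G p (Complex.I • vf A B p) := by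
  have h2 : Continuous (fderiv ℝ G) := hG.continuous_fderiv (by simp)
  have hZ := (contDiff_vf A B).continuous
  have hZI : Continuous fun p => Complex.I • vf A B p := hZ.const_smul Complex.I
  exact ⟨h2.clm_apply hZ, h2.clm_apply hZI⟩

theorem LH_I (v : ℂ × ℂ) : ‖Complex.I • v‖ = ‖v‖ := by
  rw [norm_smul, Complex.norm_I, one_mul]

theorem LH_off {G : ℂ × ℂ → ℝ} {p : ℂ × ℂ} (hp : p ∉ tsupport G) :
    fderiv ℝ G p = 0 ∧ fderiv ℝ (fderiv ℝ G) p = 0 := by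
  have h1 : G =ᶠ[nhds p] 0 := notMem_tsupport_iff_eventuallyEq.1 hp
  have h2 : G =ᶠ[nhds p] fun _ => (0 : ℝ) := h1
  constructor
  · rw [h2.fderiv_eq]
    simp
  · rw [h2.fderiv.fderiv_eq]
    simp

theorem LH_lev_le {G : ℂ × ℂ → ℝ} {p : ℂ × ℂ} {C : ℝ} (h : ‖fderiv ℝ (fderiv ℝ G) p‖ ≤ C)
    (v : ℂ × ℂ) : |lev G p v| ≤ 2 * C * ‖v‖ ^ 2 := by
  have h3 : ∀ v : ℂ × ℂ, |fderiv ℝ (fderiv ℝ G) p v v| ≤ C * ‖v‖ ^ 2 := by
    intro v
    have h4 : ‖fderiv ℝ (fderiv ℝ G) p v v‖ ≤ ‖fderiv ℝ (fderiv ℝ G) p v‖ * ‖v‖ :=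
      (fderiv ℝ (fderiv ℝ G) p v).le_opNorm v
    have h5 : ‖fderiv ℝ (fderiv ℝ G) p v‖ ≤ ‖fderiv ℝ (fderiv ℝ G) p‖ * ‖v‖ :=
      (fderiv ℝ (fderiv ℝ G) p).le_opNorm v
    rw [Real.norm_eq_abs] at h4
    have h6 : ‖fderiv ℝ (fderiv ℝ G) p v‖ * ‖v‖ ≤ C * ‖v‖ * ‖v‖ :=
      mul_le_mul_of_nonneg_right (h5.trans (mul_le_mul_of_nonneg_right h (norm_nonneg v)))
        (norm_nonneg v)
    refine h4.trans (h6.trans (le_of_eq ?_))
    ring
  have h4 := h3 v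
  have h5 := h3 (Complex.I • v)
  rw [LH_I] at h5
  unfold lev
  refine (abs_add_le _ _).trans ?_
  linarith

theorem LH_normc {E F X : Type*} [NormedAddCommGroup E] [NormedSpace ℝ E]
    [NormedAddCommGroup F] [NormedSpace ℝ F] [TopologicalSpace X] {f : X → E →L[ℝ] F}
    (hf : Continuous f) : Continuous fun p => ‖f p‖ := hf.norm

theorem LH_bound {G : ℂ × ℂ → ℝ} (hG : ContDiff ℝ ∞ G) (hc : HasCompactSupport G) :
    ∃ C : ℝ, 0 ≤ C ∧ ∀ p v, |lev G p v| ≤ C * ‖v‖ ^ 2 ∧ ‖fderiv ℝ G p‖ ≤ C := by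
  have h1 : ContDiff ℝ ∞ (fderiv ℝ G) := hG.fderiv_right (by simp)
  have h2 : Continuous (fderiv ℝ (fderiv ℝ G)) := h1.continuous_fderiv (by simp)
  have g1 : Continuous fun p => ‖fderiv ℝ G p‖ := LH_normc h1.continuous
  have g2 : Continuous fun p => ‖fderiv ℝ (fderiv ℝ G) p‖ := LH_normc h2
  have hK : IsCompact (tsupport G) := hc
  obtain ⟨C1, hC1⟩ := hK.exists_bound_of_continuousOn g1.continuousOn
  obtain ⟨C2, hC2⟩ := hK.exists_bound_of_continuousOn g2.continuousOn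
  have e1 : ∀ p, ‖fderiv ℝ G p‖ ≤ max C1 0 := by
    intro p
    by_cases hp : p ∈ tsupport G
    · have := hC1 p hp
      rw [norm_norm] at this
      exact this.trans (le_max_left _ _)
    · rw [(LH_off hp).1, norm_zero]
      exact le_max_right _ _
  have e2 : ∀ p, ‖fderiv ℝ (fderiv ℝ G) p‖ ≤ max C2 0 := by
    intro p
    by_cases hp : p ∈ tsupport G
    · exact (Real.le_norm_self _).trans ((hC2 p hp).trans (le_max_left _ _))
    · rw [(LH_off hp).2]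
      exact ContinuousLinearMap.opNorm_zero.le.trans (le_max_right _ _)
  have p1 : 0 ≤ max C1 0 := le_max_right _ _
  have p2 : 0 ≤ max C2 0 := le_max_right _ _
  refine ⟨max C1 0 + 2 * max C2 0, by positivity, fun p v => ⟨?_, ?_⟩⟩
  · refine (LH_lev_le (e2 p) v).trans ?_
    exact mul_le_mul_of_nonneg_right (by linarith) (sq_nonneg _)
  · exact (e1 p).trans (by linarith)

/-- the composed weight -/
noncomputable def LH_g (Φ : ℝ → ℝ) (S : ℂ × ℂ → ℝ) (s : ℝ) (p : ℂ × ℂ) : ℝ :=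
  (if 0 < S p then Φ (Real.log (S p) + s) else 0) - s

theorem LH_near0 {Φ : ℝ → ℝ} {S : ℂ × ℂ → ℝ} (hS : Continuous S) (h0 : ∀ t ≤ 0, Φ t = 0)
    {s : ℝ} {p : ℂ × ℂ} (hp : S p ≤ 0) : LH_g Φ S s =ᶠ[nhds p] fun _ => -s := by
  have h1 : ∀ᶠ q in nhds p, S q < Real.exp (-s) :=
    hS.continuousAt.eventually (gt_mem_nhds (lt_of_le_of_lt hp (Real.exp_pos _)))
  filter_upwards [h1] with q hq
  unfold LH_g
  split_ifs with h
  · have h2 : Real.log (S q) < -s := (Real.log_lt_iff_lt_exp h).2 hq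
    rw [h0 _ (by linarith)]
    ring
  · ring

theorem LH_near {Φ : ℝ → ℝ} {S : ℂ × ℂ → ℝ} (hS : Continuous S)
    {s : ℝ} {p : ℂ × ℂ} (hp : 0 < S p) :
    LH_g Φ S s =ᶠ[nhds p] fun q => (fun t => Φ (t + s) - s) (Real.log (S q)) := by
  have h1 : ∀ᶠ q in nhds p, 0 < S q := hS.continuousAt.eventually (lt_mem_nhds hp)
  filter_upwards [h1] with q hq
  unfold LH_g
  rw [if_pos hq]

theorem LH_smooth {Φ : ℝ → ℝ} {S : ℂ × ℂ → ℝ} (hΦ : ContDiff ℝ ∞ Φ) (hS : ContDiff ℝ ∞ S)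
    (h0 : ∀ t ≤ 0, Φ t = 0) (s : ℝ) : ContDiff ℝ ∞ (LH_g Φ S s) := by
  rw [contDiff_iff_contDiffAt]
  intro p
  by_cases hp : 0 < S p
  · refine ContDiffAt.congr_of_eventuallyEq ?_ (LH_near hS.continuous hp)
    have h1 : ContDiffAt ℝ ∞ (fun q => Real.log (S q)) p := hS.contDiffAt.log hp.ne'
    have h2 : ContDiff ℝ ∞ (fun t : ℝ => Φ (t + s) - s) :=
      (hΦ.comp (contDiff_id.add contDiff_const)).sub contDiff_const
    exact h2.contDiffAt.comp p h1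
  · exact ContDiffAt.congr_of_eventuallyEq contDiffAt_const
      (LH_near0 hS.continuous h0 (not_lt.1 hp))

theorem LH_dPhi (Φ : ℝ → ℝ) (s : ℝ) : deriv (fun t => Φ (t + s) - s) = fun t => deriv Φ (t + s) := by
  funext t
  rw [deriv_sub_const, deriv_comp_add_const]

/-- the sum of squares -/
noncomputable def LH_S (f1 f2 : P2) (q : ℂ × ℂ) : ℝ := ‖ev f1 q‖ ^ 2 + ‖ev f2 q‖ ^ 2

noncomputable def LH_E1 (A B f1 f2 : P2) (p : ℂ × ℂ) : ℝ :=
  ‖ev f1 p * ev (Zp A B f2) p - ev f2 p * ev (Zp A B f1) p‖ ^ 2 /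
    (‖ev f1 p‖ ^ 2 + ‖ev f2 p‖ ^ 2) ^ 2

noncomputable def LH_E2 (A B f1 f2 : P2) (p : ℂ × ℂ) : ℝ :=
  ‖conj (ev f1 p) * ev (Zp A B f1) p + conj (ev f2 p) * ev (Zp A B f2) p‖ ^ 2 /
    (‖ev f1 p‖ ^ 2 + ‖ev f2 p‖ ^ 2) ^ 2

theorem LH_S_smooth (f1 f2 : P2) : ContDiff ℝ ∞ (LH_S f1 f2) :=
  ((contDiff_real_ev f1).norm_sq ℝ).add ((contDiff_real_ev f2).norm_sq ℝ)

theorem LH_S_nonneg (f1 f2 : P2) (p : ℂ × ℂ) : 0 ≤ LH_S f1 f2 p := by
  unfold LH_S
  positivity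

theorem LH_S_ne (f1 f2 : P2) (p : ℂ × ℂ) (h : 0 < LH_S f1 f2 p) : ev f1 p ≠ 0 ∨ ev f2 p ≠ 0 := by
  by_contra hc
  push Not at hc
  unfold LH_S at h
  rw [hc.1, hc.2] at h
  simp at h

theorem LH_S_pos (f1 f2 : P2) (p : ℂ × ℂ) (h : ev f1 p ≠ 0 ∨ ev f2 p ≠ 0) : 0 < LH_S f1 f2 p := by
  unfold LH_S
  rcases h with h | h
  · have := norm_pos_iff.2 h
    positivity
  · have := norm_pos_iff.2 h
    positivity

theorem LH_E1_nonneg (A B f1 f2 : P2) (p : ℂ × ℂ) : 0 ≤ LH_E1 A B f1 f2 p := by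
  unfold LH_E1
  positivity

theorem LH_E2_nonneg (A B f1 f2 : P2) (p : ℂ × ℂ) : 0 ≤ LH_E2 A B f1 f2 p := by
  unfold LH_E2
  positivity

theorem LH_lev_g (A B f1 f2 : P2) {Φ : ℝ → ℝ} (hΦ : ContDiff ℝ ∞ Φ) (h0 : ∀ t ≤ 0, Φ t = 0)
    (s : ℝ) (p : ℂ × ℂ) : lev (LH_g Φ (LH_S f1 f2) s) p (vf A B p) =
      4 * (deriv Φ (Real.log (LH_S f1 f2 p) + s) * LH_E1 A B f1 f2 p +
        deriv (deriv Φ) (Real.log (LH_S f1 f2 p) + s) * LH_E2 A B f1 f2 p) := by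
  have hS := LH_S_smooth f1 f2
  by_cases hp : 0 < LH_S f1 f2 p
  · rw [LH_congr (LH_near hS.continuous hp)]
    have h1 : ContDiffAt ℝ 2 (fun t : ℝ => Φ (t + s) - s) (Real.log (LH_S f1 f2 p)) := by
      have h2 : ContDiff ℝ ∞ (fun t : ℝ => Φ (t + s) - s) :=
        (hΦ.comp (contDiff_id.add contDiff_const)).sub contDiff_const
      exact (h2.of_le LH_two).contDiffAt
    have h2 : ContDiffAt ℝ 2 (fun q => Real.log (LH_S f1 f2 q)) p :=
      ((hS.of_le LH_two).contDiffAt).log hp.ne'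
    have h3 := lev_comp h1 h2 (vf A B p)
    rw [h3, LH_dPhi, deriv_comp_add_const]
    have h4 := lev_logPair (analyticAt_ev f1 p) (analyticAt_ev f2 p) (LH_S_ne f1 f2 p hp)
      (vf A B p)
    have h5 := grad_logPair (analyticAt_ev f1 p) (analyticAt_ev f2 p) (LH_S_ne f1 f2 p hp)
      (vf A B p)
    rw [fderiv_ev_vf, fderiv_ev_vf] at h4 h5
    have e1 : (fun q => Real.log (LH_S f1 f2 q)) =
      fun q => Real.log (‖ev f1 q‖ ^ 2 + ‖ev f2 q‖ ^ 2) := rfl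
    rw [e1, h4, h5, LH_E1, LH_E2]
    ring
  · rw [LH_congr (LH_near0 hS.continuous h0 (not_lt.1 hp)), LH_const]
    have h1 : ‖ev f1 p‖ ^ 2 + ‖ev f2 p‖ ^ 2 = 0 :=
      le_antisymm (not_lt.1 hp) (LH_S_nonneg f1 f2 p)
    rw [LH_E1, LH_E2, h1]
    simp

theorem LH_fd_g (f1 f2 : P2) {Φ : ℝ → ℝ} (hΦ : ContDiff ℝ ∞ Φ)
    (h01 : ∀ t, 0 ≤ deriv Φ t ∧ deriv Φ t ≤ 1) (s : ℝ) (p v : ℂ × ℂ)
    (hp : 0 < LH_S f1 f2 p) : |fderiv ℝ (LH_g Φ (LH_S f1 f2) s) p v| ≤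
      |fderiv ℝ (fun q => Real.log (LH_S f1 f2 q)) p v| := by
  have hS := LH_S_smooth f1 f2
  rw [(LH_near hS.continuous hp).fderiv_eq]
  have h1 : HasDerivAt (fun t : ℝ => Φ (t + s) - s) (deriv Φ (Real.log (LH_S f1 f2 p) + s))
      (Real.log (LH_S f1 f2 p)) := by
    have h2 : Differentiable ℝ (fun t : ℝ => Φ (t + s) - s) :=
      ((hΦ.comp (contDiff_id.add contDiff_const)).sub contDiff_const).differentiable (by simp)
    have h3 := (h2 (Real.log (LH_S f1 f2 p))).hasDerivAt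
    rwa [LH_dPhi] at h3
  have h2 : HasFDerivAt (fun q => Real.log (LH_S f1 f2 q))
      (fderiv ℝ (fun q => Real.log (LH_S f1 f2 q)) p) p :=
    ((hS.contDiffAt.log hp.ne').differentiableAt (by simp)).hasFDerivAt
  have h3 := h1.comp_hasFDerivAt p h2
  have h4 : fderiv ℝ (fun q => (fun t : ℝ => Φ (t + s) - s) (Real.log (LH_S f1 f2 q))) p =
      deriv Φ (Real.log (LH_S f1 f2 p) + s) •
        fderiv ℝ (fun q => Real.log (LH_S f1 f2 q)) p := h3.fderiv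
  rw [h4, _root_.smul_apply, smul_eq_mul, abs_mul,
    abs_of_nonneg (h01 _).1]
  exact mul_le_of_le_one_left (abs_nonneg _) (h01 _).2

/-- the bump function -/
noncomputable def LH_chi (ρ1 : ℝ) (h : 0 < ρ1) : ContDiffBump (0 : ℂ × ℂ) :=
  ⟨ρ1 / 2, 3 * ρ1 / 4, by linarith, by linarith⟩

theorem LH_main {A B h : P2} {ρ : ℝ} {M : Measure (ℂ × ℂ)} (hI : Inv A B h ρ M) (f1 f2 : P2)
    (ρ1 : ℝ) (hρ1 : 0 < ρ1) (hρ : ρ1 < ρ)
    (hne : ∀ p : ℂ × ℂ, ρ1 / 2 ≤ ‖p‖ → ‖p‖ ≤ ρ1 → ev f1 p ≠ 0 ∨ ev f2 p ≠ 0) (R0 : ℝ)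
    {Φ : ℝ → ℝ} (hΦ : ContDiff ℝ ∞ Φ) (h0 : ∀ t ≤ 0, Φ t = 0)
    (h01 : ∀ t, 0 ≤ deriv Φ t ∧ deriv Φ t ≤ 1) (h2 : ∀ t, 0 ≤ deriv (deriv Φ) t)
    (h3 : ∀ t, 0 ≤ t → |Φ t - t| ≤ 3) :
    ∃ C : ℝ, 0 ≤ C ∧ ∀ s, -R0 ≤ s → ∃ H : ℂ × ℂ → ℝ, Continuous H ∧ (∀ p, 0 ≤ H p) ∧
      (∀ p ∈ Metric.ball (0 : ℂ × ℂ) (ρ1 / 2), H p =
        4 * (deriv Φ (Real.log (LH_S f1 f2 p) + s) * LH_E1 A B f1 f2 p +
        deriv (deriv Φ) (Real.log (LH_S f1 f2 p) + s) * LH_E2 A B f1 f2 p)) ∧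
      ∫⁻ p, ENNReal.ofReal (H p) ∂M ≤ ENNReal.ofReal C := by
  set χ := LH_chi ρ1 hρ1 with hχ
  have hrIn : χ.rIn = ρ1 / 2 := rfl
  have hrOut : χ.rOut = 3 * ρ1 / 4 := rfl
  have hχs : ContDiff ℝ ∞ χ := χ.contDiff
  have hχc : HasCompactSupport χ := χ.hasCompactSupport
  have hχt : tsupport χ = Metric.closedBall 0 (3 * ρ1 / 4) := by
    rw [χ.tsupport_eq, hrOut]
  have hS := LH_S_smooth f1 f2
  have hZ := (contDiff_vf A B).continuous
  -- the energy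
  have hwc : Continuous fun p => nsq (vf A B p) := by
    unfold nsq
    exact ((continuous_fst.comp hZ).norm.pow 2).add ((continuous_snd.comp hZ).norm.pow 2)
  have hwi : Integrable (fun p => nsq (vf A B p)) M := by
    refine ⟨hwc.aestronglyMeasurable, ?_⟩
    rw [hasFiniteIntegral_iff_ofReal (Filter.Eventually.of_forall fun p => nsq_nonneg _)]
    exact hI.fin
  -- the shell
  set K : Set (ℂ × ℂ) := Metric.closedBall 0 ρ1 \ Metric.ball 0 (ρ1 / 2) with hK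
  have hKc : IsCompact K := (isCompact_closedBall 0 ρ1).diff Metric.isOpen_ball
  have hKmem : ∀ p, p ∈ K → 0 < LH_S f1 f2 p := by
    intro p hp
    rw [hK, Set.mem_sdiff, mem_closedBall_zero_iff, mem_ball_zero_iff, not_lt] at hp
    exact LH_S_pos f1 f2 p (hne p hp.2 hp.1)
  have hO : IsOpen {p | 0 < LH_S f1 f2 p} := isOpen_lt continuous_const hS.continuous
  have hu : ContDiffOn ℝ ∞ (fun q => Real.log (LH_S f1 f2 q)) {p | 0 < LH_S f1 f2 p} :=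
    hS.contDiffOn.log fun p hp => ne_of_gt hp
  obtain ⟨U, hU⟩ := hKc.exists_bound_of_continuousOn (hu.continuousOn.mono hKmem)
  have hdu : ContinuousOn (fun p => fderiv ℝ (fun q => Real.log (LH_S f1 f2 q)) p) K :=
    (hu.continuousOn_fderiv_of_isOpen hO (by simp)).mono hKmem
  obtain ⟨D, hD⟩ := hKc.exists_bound_of_continuousOn hdu
  obtain ⟨Cχ, hCχ0, hCχ⟩ := LH_bound hχs hχc
  set U' := max U 0 with hU'
  set D' := max D 0 with hD'
  set R' := max R0 0 with hR'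
  have hU0 : 0 ≤ U' := le_max_right _ _
  have hD0 : 0 ≤ D' := le_max_right _ _
  have hR0 : 0 ≤ R' := le_max_right _ _
  set C1 : ℝ := (3 + U' + R') * Cχ + 4 * (Cχ * D') with hC1
  have hC10 : 0 ≤ C1 := by positivity
  refine ⟨C1 * ∫ p, nsq (vf A B p) ∂M, mul_nonneg hC10 (integral_nonneg fun p => nsq_nonneg _),
    fun s hs => ?_⟩
  set g := LH_g Φ (LH_S f1 f2) s with hg
  have hgs : ContDiff ℝ ∞ g := LH_smooth hΦ hS h0 s
  have hgl : ∀ p, lev g p (vf A B p) =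
      4 * (deriv Φ (Real.log (LH_S f1 f2 p) + s) * LH_E1 A B f1 f2 p +
        deriv (deriv Φ) (Real.log (LH_S f1 f2 p) + s) * LH_E2 A B f1 f2 p) :=
    fun p => LH_lev_g A B f1 f2 hΦ h0 s p
  have hgl0 : ∀ p, 0 ≤ lev g p (vf A B p) := by
    intro p
    rw [hgl]
    have e1 := mul_nonneg (h01 (Real.log (LH_S f1 f2 p) + s)).1 (LH_E1_nonneg A B f1 f2 p)
    have e2 := mul_nonneg (h2 (Real.log (LH_S f1 f2 p) + s)) (LH_E2_nonneg A B f1 f2 p)
    linarith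
  -- the error term
  set er : ℂ × ℂ → ℝ := fun p => g p * lev χ p (vf A B p) +
    2 * (fderiv ℝ χ p (vf A B p) * fderiv ℝ g p (vf A B p) +
      fderiv ℝ χ p (Complex.I • vf A B p) * fderiv ℝ g p (Complex.I • vf A B p)) with her
  have hG := hχs.mul hgs
  have hGl : ∀ p, lev (fun q => χ q * g q) p (vf A B p) = χ p * lev g p (vf A B p) + er p := by
    intro p
    have := lev_mul ((hχs.of_le LH_two).contDiffAt (x := p)) ((hgs.of_le LH_two).contDiffAt (x := p))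
      (vf A B p)
    rw [this, her]
    ring
  have hGc : HasCompactSupport (fun q => χ q * g q) := hχc.mul_right
  have hGt : tsupport (fun q => χ q * g q) ⊆ Metric.ball 0 ρ := by
    refine (tsupport_mul_subset_left).trans ?_
    rw [hχt]
    intro p hp
    rw [mem_closedBall_zero_iff] at hp
    rw [mem_ball_zero_iff]
    linarith
  have hdd := hI.dd _ hG hGc hGt
  -- continuity
  have hHc : Continuous fun p => χ p * lev g p (vf A B p) :=
    hχs.continuous.mul (LH_cont A B hgs)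
  have herc : Continuous er := by
    have c1 := LH_cont A B hχs
    obtain ⟨c2, c3⟩ := LH_contD A B hχs
    obtain ⟨c4, c5⟩ := LH_contD A B hgs
    exact (hgs.continuous.mul c1).add (continuous_const.mul ((c2.mul c4).add (c3.mul c5)))
  -- the bound of the error term
  have hergle : ∀ p, |er p| ≤ C1 * nsq (vf A B p) := by
    intro p
    have hn := (norm_sq_le_nsq (vf A B p)).1
    by_cases hp : p ∈ K
    · have hpS := hKmem p hp
      have u1 : |Real.log (LH_S f1 f2 p)| ≤ U' := (hU p hp).trans (le_max_left _ _)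
      have d1 : ‖fderiv ℝ (fun q => Real.log (LH_S f1 f2 q)) p‖ ≤ D' :=
        (hD p hp).trans (le_max_left _ _)
      have g1 : |g p| ≤ 3 + U' + R' := by
        rw [hg, LH_g, if_pos hpS]
        rcases le_total 0 (Real.log (LH_S f1 f2 p) + s) with hh | hh
        · have e1 := h3 _ hh
          rw [abs_le] at e1 u1 ⊢
          constructor <;> linarith
        · rw [h0 _ hh]
          have e2 : -R' ≤ s := le_trans (neg_le_neg (le_max_left _ _)) hs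
          rw [abs_le] at u1 ⊢
          constructor <;> linarith
      have dg : ∀ v : ℂ × ℂ, |fderiv ℝ g p v| ≤ D' * ‖v‖ := by
        intro v
        refine (LH_fd_g f1 f2 hΦ h01 s p v hpS).trans ?_
        have := (fderiv ℝ (fun q => Real.log (LH_S f1 f2 q)) p).le_opNorm v
        rw [Real.norm_eq_abs] at this
        exact this.trans (mul_le_mul_of_nonneg_right d1 (norm_nonneg _))
      have dχ : ∀ v : ℂ × ℂ, |fderiv ℝ χ p v| ≤ Cχ * ‖v‖ := by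
        intro v
        have := (fderiv ℝ χ p).le_opNorm v
        rw [Real.norm_eq_abs] at this
        exact this.trans (mul_le_mul_of_nonneg_right (hCχ p v).2 (norm_nonneg _))
      have l1 := (hCχ p (vf A B p)).1
      have m1 : |g p * lev χ p (vf A B p)| ≤ (3 + U' + R') * (Cχ * ‖vf A B p‖ ^ 2) := by
        rw [abs_mul]
        exact mul_le_mul g1 l1 (abs_nonneg _) (by positivity)
      have m2 : ∀ v : ℂ × ℂ, |fderiv ℝ χ p v * fderiv ℝ g p v| ≤ Cχ * D' * ‖v‖ ^ 2 := by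
        intro v
        rw [abs_mul]
        have := mul_le_mul (dχ v) (dg v) (abs_nonneg _) (by positivity)
        refine this.trans (le_of_eq ?_)
        ring
      have m3 := m2 (vf A B p)
      have m4 := m2 (Complex.I • vf A B p)
      rw [LH_I] at m4
      have m5 : |er p| ≤ C1 * ‖vf A B p‖ ^ 2 := by
        rw [her]
        refine (abs_add_le _ _).trans ?_
        have m6 : |2 * (fderiv ℝ χ p (vf A B p) * fderiv ℝ g p (vf A B p) +
            fderiv ℝ χ p (Complex.I • vf A B p) * fderiv ℝ g p (Complex.I • vf A B p))| ≤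
            2 * (Cχ * D' * ‖vf A B p‖ ^ 2 + Cχ * D' * ‖vf A B p‖ ^ 2) := by
          rw [abs_mul, abs_two]
          refine mul_le_mul_of_nonneg_left ?_ (by norm_num)
          exact (abs_add_le _ _).trans (add_le_add m3 m4)
        refine (add_le_add m1 m6).trans (le_of_eq ?_)
        rw [hC1]
        ring
      exact m5.trans (mul_le_mul_of_nonneg_left hn hC10)
    · -- outside the shell
      have hz : (fderiv ℝ χ p = 0) ∧ lev χ p (vf A B p) = 0 := by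
        rw [hK, Set.mem_sdiff, not_and_or, not_not] at hp
        rcases hp with hp | hp
        · have hp' : p ∉ tsupport χ := by
            rw [hχt]
            intro hh
            apply hp
            rw [mem_closedBall_zero_iff] at hh ⊢
            linarith
          refine ⟨(LH_off hp').1, ?_⟩
          unfold lev
          rw [(LH_off hp').2]
          simp
        · have hev : χ =ᶠ[nhds p] fun _ => (1 : ℝ) := by
            filter_upwards [Metric.isOpen_ball.mem_nhds hp] with q hq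
            exact χ.one_of_mem_closedBall (by
              rw [hrIn]
              exact Metric.ball_subset_closedBall hq)
          refine ⟨?_, ?_⟩
          · rw [hev.fderiv_eq]
            simp
          · rw [LH_congr hev, LH_const]
      have : er p = 0 := by
        rw [her]
        simp only [hz.1, hz.2]
        simp
      rw [this, abs_zero]
      exact mul_nonneg hC10 (nsq_nonneg _)
  -- integrability
  have heri : Integrable er M :=
    (hwi.const_mul C1).mono' herc.aestronglyMeasurable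
      (Filter.Eventually.of_forall fun p => by rw [Real.norm_eq_abs]; exact hergle p)
  have hGi : Integrable (fun p => lev (fun q => χ q * g q) p (vf A B p)) M := by
    obtain ⟨C2, hC20, hC2⟩ := LH_bound hG hGc
    refine (hwi.const_mul C2).mono' (LH_cont A B hG).aestronglyMeasurable
      (Filter.Eventually.of_forall fun p => ?_)
    rw [Real.norm_eq_abs]
    exact (hC2 p (vf A B p)).1.trans
      (mul_le_mul_of_nonneg_left (norm_sq_le_nsq (vf A B p)).1 hC20)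
  have hHeq : (fun p => χ p * lev g p (vf A B p)) =
      fun p => lev (fun q => χ q * g q) p (vf A B p) - er p := by
    funext p
    rw [hGl]
    ring
  have hHi : Integrable (fun p => χ p * lev g p (vf A B p)) M := by
    rw [hHeq]
    exact hGi.sub heri
  have hHint : ∫ p, χ p * lev g p (vf A B p) ∂M ≤ C1 * ∫ p, nsq (vf A B p) ∂M := by
    rw [hHeq, integral_sub hGi heri, hdd, zero_sub, ← integral_const_mul]
    refine (neg_le_abs _).trans ((abs_integral_le_integral_abs).trans ?_)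
    exact integral_mono heri.abs (hwi.const_mul C1) hergle
  have hH0 : ∀ p, 0 ≤ χ p * lev g p (vf A B p) := fun p => mul_nonneg χ.nonneg (hgl0 p)
  refine ⟨fun p => χ p * lev g p (vf A B p), hHc, hH0, ?_, ?_⟩
  · intro p hp
    have h1 : χ p = 1 := χ.one_of_mem_closedBall (by
      rw [hrIn]
      exact Metric.ball_subset_closedBall hp)
    show χ p * lev g p (vf A B p) = _
    rw [h1, one_mul, hgl]
  · rw [← ofReal_integral_eq_lintegral_ofReal hHi (Filter.Eventually.of_forall hH0)]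
    exact ENNReal.ofReal_le_ofReal hHint

theorem psh_energy {A B h : P2} {ρ : ℝ} {M : Measure (ℂ × ℂ)} (hI : Inv A B h ρ M) (f1 f2 : P2) (ρ1 : ℝ)
    (hρ1 : 0 < ρ1) (hρ : ρ1 < ρ)
    (hne : ∀ p : ℂ × ℂ, ρ1 / 2 ≤ ‖p‖ → ‖p‖ ≤ ρ1 → ev f1 p ≠ 0 ∨ ev f2 p ≠ 0) :
    ∃ C : ℝ, 0 ≤ C ∧
    (∫⁻ p in Metric.ball (0 : ℂ × ℂ) (ρ1 / 2),
      ENNReal.ofReal (‖ev f1 p * ev (Zp A B f2) p - ev f2 p * ev (Zp A B f1) p‖ ^ 2 /
        (‖ev f1 p‖ ^ 2 + ‖ev f2 p‖ ^ 2) ^ 2) ∂M ≤ ENNReal.ofReal C) ∧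
    ∀ R : ℝ, ∫⁻ p in {p | p ∈ Metric.ball (0 : ℂ × ℂ) (ρ1 / 2) ∧
        Real.exp (-(R + 1)) ≤ ‖ev f1 p‖ ^ 2 + ‖ev f2 p‖ ^ 2 ∧ ‖ev f1 p‖ ^ 2 + ‖ev f2 p‖ ^ 2 ≤ Real.exp (-R)},
      ENNReal.ofReal (‖conj (ev f1 p) * ev (Zp A B f1) p + conj (ev f2 p) * ev (Zp A B f2) p‖ ^ 2 /
        (‖ev f1 p‖ ^ 2 + ‖ev f2 p‖ ^ 2) ^ 2) ∂M ≤ ENNReal.ofReal C := by
  obtain ⟨Φ, hΦ, h0, h01, h2, ⟨c, hc, hc'⟩, h1, h3⟩ := exists_convexCutoff
  have hS := LH_S_smooth f1 f2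
  obtain ⟨S0, hS0⟩ := (isCompact_closedBall (0 : ℂ × ℂ) ρ1).exists_bound_of_continuousOn
    hS.continuous.continuousOn
  obtain ⟨R0, hR0⟩ : ∃ R0 : ℝ, S0 < Real.exp R0 := by
    refine ⟨S0, ?_⟩
    have := Real.add_one_le_exp S0
    linarith
  obtain ⟨C0, hC0, hmain⟩ := LH_main hI f1 f2 ρ1 hρ1 hρ hne R0 hΦ h0 h01 h2 h3
  have hsub : ∀ p ∈ Metric.ball (0 : ℂ × ℂ) (ρ1 / 2), LH_S f1 f2 p < Real.exp R0 := by
    intro p hp
    rw [mem_ball_zero_iff] at hp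
    have h4 := hS0 p (by rw [mem_closedBall_zero_iff]; linarith)
    exact (le_abs_self _).trans_lt (h4.trans_lt hR0)
  refine ⟨C0 / 4 + C0 / (4 * c), by positivity, ?_, ?_⟩
  · -- Fatou
    have hk : ∀ n : ℕ, ∃ H : ℂ × ℂ → ℝ, Continuous H ∧ (∀ p, 0 ≤ H p) ∧
      (∀ p ∈ Metric.ball (0 : ℂ × ℂ) (ρ1 / 2), H p =
        4 * (deriv Φ (Real.log (LH_S f1 f2 p) + (-R0 + n)) * LH_E1 A B f1 f2 p +
        deriv (deriv Φ) (Real.log (LH_S f1 f2 p) + (-R0 + n)) * LH_E2 A B f1 f2 p)) ∧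
      ∫⁻ p, ENNReal.ofReal (H p) ∂M ≤ ENNReal.ofReal C0 := fun n =>
      hmain (-R0 + n) (by
        have : (0 : ℝ) ≤ n := Nat.cast_nonneg n
        linarith)
    choose H Hc Hn He Hi using hk
    have hmeas : ∀ n, Measurable fun p => ENNReal.ofReal (H n p / 4) := fun n =>
      ((Hc n).measurable.div_const 4).ennreal_ofReal
    have hle : ∀ p ∈ Metric.ball (0 : ℂ × ℂ) (ρ1 / 2), ENNReal.ofReal (LH_E1 A B f1 f2 p) ≤
        Filter.liminf (fun n => ENNReal.ofReal (H n p / 4)) Filter.atTop := by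
      intro p hp
      refine Filter.le_liminf_of_le (by isBoundedDefault) ?_
      obtain ⟨N, hN⟩ := exists_nat_ge (3 - Real.log (LH_S f1 f2 p) + R0)
      filter_upwards [Filter.eventually_ge_atTop N] with n hn
      refine ENNReal.ofReal_le_ofReal ?_
      have hn' : (N : ℝ) ≤ n := by exact_mod_cast hn
      rw [He n p hp, h1 _ (by linarith)]
      have e2 := mul_nonneg (h2 (Real.log (LH_S f1 f2 p) + (-R0 + n)))
        (LH_E2_nonneg A B f1 f2 p)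
      linarith
    have hint : ∀ n, ∫⁻ p in Metric.ball (0 : ℂ × ℂ) (ρ1 / 2), ENNReal.ofReal (H n p / 4) ∂M ≤
        ENNReal.ofReal (C0 / 4) := by
      intro n
      refine (setLIntegral_le_lintegral _ _).trans ?_
      have e1 : ∀ p, ENNReal.ofReal (H n p / 4) =
          ENNReal.ofReal (1 / 4) * ENNReal.ofReal (H n p) := fun p => by
        rw [← ENNReal.ofReal_mul (by norm_num)]
        congr 1
        ring
      simp only [e1]
      rw [lintegral_const_mul _ (Hc n).measurable.ennreal_ofReal]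
      refine (mul_le_mul_right (Hi n) _).trans (le_of_eq ?_)
      rw [← ENNReal.ofReal_mul (by norm_num)]
      congr 1
      ring
    have hfat : ∫⁻ p in Metric.ball (0 : ℂ × ℂ) (ρ1 / 2),
        ENNReal.ofReal (LH_E1 A B f1 f2 p) ∂M ≤ ENNReal.ofReal (C0 / 4) := by
      calc ∫⁻ p in Metric.ball (0 : ℂ × ℂ) (ρ1 / 2), ENNReal.ofReal (LH_E1 A B f1 f2 p) ∂M
          ≤ ∫⁻ p in Metric.ball (0 : ℂ × ℂ) (ρ1 / 2),
            Filter.liminf (fun n => ENNReal.ofReal (H n p / 4)) Filter.atTop ∂M :=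
            setLIntegral_mono (Measurable.liminf hmeas) hle
        _ ≤ Filter.liminf (fun n => ∫⁻ p in Metric.ball (0 : ℂ × ℂ) (ρ1 / 2),
            ENNReal.ofReal (H n p / 4) ∂M) Filter.atTop := lintegral_liminf_le hmeas
        _ ≤ ENNReal.ofReal (C0 / 4) := by
            refine Filter.liminf_le_of_le (by isBoundedDefault) fun b hb => ?_
            obtain ⟨n, hn⟩ := hb.exists
            exact hn.trans (hint n)
    refine le_trans ?_ (hfat.trans (ENNReal.ofReal_le_ofReal ?_))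
    · exact le_rfl
    · have : 0 ≤ C0 / (4 * c) := by positivity
      linarith
  · intro R
    by_cases hR : -R0 ≤ R + 2
    · obtain ⟨H, Hc, Hn, He, Hi⟩ := hmain (R + 2) hR
      have hle : ∀ p ∈ {p | p ∈ Metric.ball (0 : ℂ × ℂ) (ρ1 / 2) ∧
          Real.exp (-(R + 1)) ≤ ‖ev f1 p‖ ^ 2 + ‖ev f2 p‖ ^ 2 ∧
          ‖ev f1 p‖ ^ 2 + ‖ev f2 p‖ ^ 2 ≤ Real.exp (-R)},
          ENNReal.ofReal (LH_E2 A B f1 f2 p) ≤ ENNReal.ofReal (1 / (4 * c) * H p) := by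
        rintro p ⟨hp, hp1, hp2⟩
        refine ENNReal.ofReal_le_ofReal ?_
        have hpos : 0 < LH_S f1 f2 p := lt_of_lt_of_le (Real.exp_pos _) hp1
        have l1 : -(R + 1) ≤ Real.log (LH_S f1 f2 p) := (Real.le_log_iff_exp_le hpos).2 hp1
        have l2 : Real.log (LH_S f1 f2 p) ≤ -R := (Real.log_le_iff_le_exp hpos).2 hp2
        have l3 := hc' (Real.log (LH_S f1 f2 p) + (R + 2)) ⟨by linarith, by linarith⟩
        rw [He p hp]
        have e1 := mul_nonneg (h01 (Real.log (LH_S f1 f2 p) + (R + 2))).1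
          (LH_E1_nonneg A B f1 f2 p)
        have e2 := mul_le_mul_of_nonneg_right l3 (LH_E2_nonneg A B f1 f2 p)
        rw [div_mul_eq_mul_div, one_mul, le_div_iff₀ (by positivity)]
        nlinarith
      calc ∫⁻ p in {p | p ∈ Metric.ball (0 : ℂ × ℂ) (ρ1 / 2) ∧
            Real.exp (-(R + 1)) ≤ ‖ev f1 p‖ ^ 2 + ‖ev f2 p‖ ^ 2 ∧
            ‖ev f1 p‖ ^ 2 + ‖ev f2 p‖ ^ 2 ≤ Real.exp (-R)},
            ENNReal.ofReal (LH_E2 A B f1 f2 p) ∂M
          ≤ ∫⁻ p in {p | p ∈ Metric.ball (0 : ℂ × ℂ) (ρ1 / 2) ∧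
            Real.exp (-(R + 1)) ≤ ‖ev f1 p‖ ^ 2 + ‖ev f2 p‖ ^ 2 ∧
            ‖ev f1 p‖ ^ 2 + ‖ev f2 p‖ ^ 2 ≤ Real.exp (-R)},
            ENNReal.ofReal (1 / (4 * c) * H p) ∂M :=
            setLIntegral_mono (measurable_const.mul Hc.measurable).ennreal_ofReal hle
        _ ≤ ∫⁻ p, ENNReal.ofReal (1 / (4 * c) * H p) ∂M := setLIntegral_le_lintegral _ _
        _ ≤ ENNReal.ofReal (C0 / 4 + C0 / (4 * c)) := by
            have e1 : ∀ p, ENNReal.ofReal (1 / (4 * c) * H p) =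
                ENNReal.ofReal (1 / (4 * c)) * ENNReal.ofReal (H p) := fun p =>
              ENNReal.ofReal_mul (by positivity)
            simp only [e1]
            rw [lintegral_const_mul _ Hc.measurable.ennreal_ofReal]
            refine (mul_le_mul_right Hi _).trans ?_
            rw [← ENNReal.ofReal_mul (by positivity)]
            refine ENNReal.ofReal_le_ofReal ?_
            have e3 : 1 / (4 * c) * C0 = C0 / (4 * c) := by ring
            rw [e3]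
            linarith
    · have hempty : {p | p ∈ Metric.ball (0 : ℂ × ℂ) (ρ1 / 2) ∧
          Real.exp (-(R + 1)) ≤ ‖ev f1 p‖ ^ 2 + ‖ev f2 p‖ ^ 2 ∧
          ‖ev f1 p‖ ^ 2 + ‖ev f2 p‖ ^ 2 ≤ Real.exp (-R)} = ∅ := by
        ext p
        simp only [Set.mem_ofPred_eq, Set.mem_empty_iff_false, iff_false]
        rintro ⟨hp, hp1, -⟩
        have h4 := hsub p hp
        have h5 : Real.exp R0 < Real.exp (-(R + 1)) := Real.exp_lt_exp.2 (by linarith)
        have h6 : LH_S f1 f2 p = ‖ev f1 p‖ ^ 2 + ‖ev f2 p‖ ^ 2 := rfl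
        linarith
      rw [hempty, Measure.restrict_empty, lintegral_zero_measure]
      exact zero_le

end FC76

end S_H76_FL_LH

section S_H76_FL_LI

/-!
# Row LI: logarithmic growth of the energy of log |x|, and of log |Z|

1. `norm_energy`.  ρ1' := ρ/2, `psh_energy` with f1 = X 0, f2 = X 1 (Zp A B (X 0) = A, Zp A B (X 1) = B; no zero except the origin), ball ρ/4 =: ball ρ1.
   Lagrange: nsq(Z) nsq(p) = |x B - y A|^2 + |conj x A + conj y B|^2.  So nsq(Z)/nsq(p) = E1 + E2.  The region r < ‖p‖, p in ball ρ1 is contained in the union of the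
   shells e^(-(R+1)) <= nsq p <= e^(-R), R = -R0, ..., R_max, where e^(R0) >= nsq on the ball and R_max = ceil(2 log(1/r)): at most C(1+log(1/r)) shells; add up.
2. `psh_energy_log` (general): same summation for a pair f1, f2 with ‖f1‖^2+‖f2‖^2 >= c r^N on the region r < ‖p‖ (in the ball ρ1/2): the total of E2 is
   <= C (1 + log 1/r).
-/

open MvPolynomial MeasureTheory
open scoped ContDiff ComplexConjugate

namespace FC76

theorem LI_cont (f : P2) : Continuous (ev f) := (contDiff_real_ev f).continuous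

theorem psh_energy_log {A B h : P2} {ρ : ℝ} {M : Measure (ℂ × ℂ)} (hI : Inv A B h ρ M) (f1 f2 : P2) (ρ1 c : ℝ) (N : ℕ)
    (hρ1 : 0 < ρ1) (hρ : ρ1 < ρ)
    (hne : ∀ p : ℂ × ℂ, ρ1 / 2 ≤ ‖p‖ → ‖p‖ ≤ ρ1 → ev f1 p ≠ 0 ∨ ev f2 p ≠ 0) (hc : 0 < c)
    (hlow : ∀ p : ℂ × ℂ, ‖p‖ ≤ ρ1 → c * ‖p‖ ^ N ≤ ‖ev f1 p‖ ^ 2 + ‖ev f2 p‖ ^ 2) :
    ∃ C : ℝ, 0 ≤ C ∧ ∀ r : ℝ, 0 < r → r < 1 →
    ∫⁻ p in {p | p ∈ Metric.ball (0 : ℂ × ℂ) (ρ1 / 2) ∧ r < ‖p‖},
      ENNReal.ofReal (‖conj (ev f1 p) * ev (Zp A B f1) p + conj (ev f2 p) * ev (Zp A B f2) p‖ ^ 2 /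
        (‖ev f1 p‖ ^ 2 + ‖ev f2 p‖ ^ 2) ^ 2) ∂M ≤ ENNReal.ofReal (C * (1 + Real.log (1 / r))) := by
  obtain ⟨C0, hC0, -, hsh⟩ := psh_energy hI f1 f2 ρ1 hρ1 hρ hne
  obtain ⟨S, hS⟩ : ∃ S : ℂ × ℂ → ℝ, S = fun p => ‖ev f1 p‖ ^ 2 + ‖ev f2 p‖ ^ 2 := ⟨_, rfl⟩
  have hSc : Continuous S := by
    rw [hS]
    exact (((LI_cont f1).norm).pow 2).add (((LI_cont f2).norm).pow 2)
  obtain ⟨Cm, hCm⟩ := (isCompact_closedBall (0 : ℂ × ℂ) ρ1).exists_bound_of_continuousOn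
    hSc.continuousOn
  obtain ⟨R0, hR0⟩ : ∃ R0 : ℝ, R0 = |Cm| := ⟨_, rfl⟩
  have hR0' : 0 ≤ R0 := by
    rw [hR0]
    exact abs_nonneg _
  have hSle : ∀ p : ℂ × ℂ, ‖p‖ ≤ ρ1 → S p ≤ Real.exp R0 := by
    intro p hp
    have h1 := hCm p (by rwa [mem_closedBall_zero_iff])
    have h2 : S p ≤ R0 := (le_abs_self _).trans (h1.trans (by rw [hR0]; exact le_abs_self _))
    have h3 := Real.add_one_le_exp R0
    linarith
  refine ⟨C0 * (N + |Real.log c| + R0 + 1), by positivity, ?_⟩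
  intro r hr hr1
  obtain ⟨L, hL⟩ : ∃ L : ℝ, L = Real.log (1 / r) := ⟨_, rfl⟩
  have hL0 : 0 ≤ L := by
    rw [hL]
    exact Real.log_nonneg (by rw [le_div_iff₀ hr]; linarith)
  have hLr : Real.log r = -L := by
    rw [hL, one_div, Real.log_inv, neg_neg]
  rw [← hL]
  obtain ⟨K, hK⟩ : ∃ K : ℝ, K = N * L + |Real.log c| + R0 := ⟨_, rfl⟩
  have hK0 : 0 ≤ K := by
    rw [hK]
    positivity
  obtain ⟨n, hn⟩ : ∃ n : ℕ, n = ⌊K⌋₊ + 1 := ⟨_, rfl⟩
  obtain ⟨sh, hsh'⟩ : ∃ sh : Fin n → Set (ℂ × ℂ), sh = fun i : Fin n =>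
      {p : ℂ × ℂ | p ∈ Metric.ball (0 : ℂ × ℂ) (ρ1 / 2) ∧
        Real.exp (-((-R0 + ((i : ℕ) : ℝ)) + 1)) ≤ ‖ev f1 p‖ ^ 2 + ‖ev f2 p‖ ^ 2 ∧
        ‖ev f1 p‖ ^ 2 + ‖ev f2 p‖ ^ 2 ≤ Real.exp (-(-R0 + ((i : ℕ) : ℝ)))} := ⟨_, rfl⟩
  have hcov : {p | p ∈ Metric.ball (0 : ℂ × ℂ) (ρ1 / 2) ∧ r < ‖p‖} ⊆ ⋃ i, sh i := by
    rintro p ⟨hp1, hp2⟩
    have hp3 : ‖p‖ < ρ1 / 2 := by rwa [mem_ball_zero_iff] at hp1
    have hp4 : ‖p‖ ≤ ρ1 := by linarith
    have h1 := hlow p hp4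
    have h2 : c * r ^ N ≤ S p := by
      rw [hS]
      refine le_trans ?_ h1
      exact mul_le_mul_of_nonneg_left (pow_le_pow_left₀ hr.le hp2.le _) hc.le
    have hcr : 0 < c * r ^ N := mul_pos hc (pow_pos hr _)
    have hSp : 0 < S p := lt_of_lt_of_le hcr h2
    have h3 : Real.log c - N * L ≤ Real.log (S p) := by
      have h4 := Real.log_le_log hcr h2
      rw [Real.log_mul hc.ne' (pow_pos hr _).ne', Real.log_pow, hLr] at h4
      linarith
    have h5 : Real.log (S p) ≤ R0 := by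
      have h6 := Real.log_le_log hSp (hSle p hp4)
      rwa [Real.log_exp] at h6
    obtain ⟨t, ht⟩ : ∃ t : ℝ, t = -Real.log (S p) + R0 := ⟨_, rfl⟩
    have ht0 : 0 ≤ t := by
      rw [ht]
      linarith
    have htK : t ≤ K := by
      rw [ht, hK]
      have := neg_abs_le (Real.log c)
      linarith
    have hi : ⌊t⌋₊ < n := by
      rw [hn]
      exact Nat.lt_succ_of_le (Nat.floor_le_floor htK)
    have h7 : (⌊t⌋₊ : ℝ) ≤ t := Nat.floor_le ht0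
    have h8 : t < ⌊t⌋₊ + 1 := Nat.lt_floor_add_one t
    refine Set.mem_iUnion.2 ⟨⟨⌊t⌋₊, hi⟩, ?_⟩
    rw [hsh']
    have hSp' : ‖ev f1 p‖ ^ 2 + ‖ev f2 p‖ ^ 2 = Real.exp (Real.log (S p)) := by
      rw [Real.exp_log hSp, hS]
    refine ⟨hp1, ?_, ?_⟩
    · rw [hSp']
      refine Real.exp_le_exp.2 ?_
      show -((-R0 + (⌊t⌋₊ : ℝ)) + 1) ≤ Real.log (S p)
      linarith
    · rw [hSp']
      refine Real.exp_le_exp.2 ?_
      show Real.log (S p) ≤ -(-R0 + (⌊t⌋₊ : ℝ))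
      linarith
  calc ∫⁻ p in {p | p ∈ Metric.ball (0 : ℂ × ℂ) (ρ1 / 2) ∧ r < ‖p‖},
      ENNReal.ofReal (‖conj (ev f1 p) * ev (Zp A B f1) p + conj (ev f2 p) * ev (Zp A B f2) p‖ ^ 2 /
        (‖ev f1 p‖ ^ 2 + ‖ev f2 p‖ ^ 2) ^ 2) ∂M
      ≤ ∫⁻ p in ⋃ i, sh i,
      ENNReal.ofReal (‖conj (ev f1 p) * ev (Zp A B f1) p + conj (ev f2 p) * ev (Zp A B f2) p‖ ^ 2 /
        (‖ev f1 p‖ ^ 2 + ‖ev f2 p‖ ^ 2) ^ 2) ∂M := lintegral_mono_set hcov
    _ ≤ ∑' i, ∫⁻ p in sh i,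
      ENNReal.ofReal (‖conj (ev f1 p) * ev (Zp A B f1) p + conj (ev f2 p) * ev (Zp A B f2) p‖ ^ 2 /
        (‖ev f1 p‖ ^ 2 + ‖ev f2 p‖ ^ 2) ^ 2) ∂M := lintegral_iUnion_le _ _
    _ ≤ ∑' _i : Fin n, ENNReal.ofReal C0 := by
        refine ENNReal.tsum_le_tsum fun i => ?_
        rw [hsh']
        exact hsh (-R0 + ((i : ℕ) : ℝ))
    _ = n * ENNReal.ofReal C0 := by
        rw [tsum_fintype, Finset.sum_const, Finset.card_univ, Fintype.card_fin, nsmul_eq_mul]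
    _ = ENNReal.ofReal (n * C0) := by
        rw [ENNReal.ofReal_mul (Nat.cast_nonneg _), ENNReal.ofReal_natCast]
    _ ≤ ENNReal.ofReal (C0 * (N + |Real.log c| + R0 + 1) * (1 + L)) := by
        refine ENNReal.ofReal_le_ofReal ?_
        have h1 : (n : ℝ) ≤ K + 1 := by
          rw [hn]
          push_cast
          have := Nat.floor_le hK0
          linarith
        have h2 : K + 1 ≤ (N + |Real.log c| + R0 + 1) * (1 + L) := by
          rw [hK]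
          have h3 : 0 ≤ (|Real.log c| + R0 + 1) * L := by positivity
          have h4 : (0 : ℝ) ≤ N := Nat.cast_nonneg _
          nlinarith
        calc (n : ℝ) * C0 ≤ ((N + |Real.log c| + R0 + 1) * (1 + L)) * C0 :=
              mul_le_mul_of_nonneg_right (h1.trans h2) hC0
          _ = C0 * (N + |Real.log c| + R0 + 1) * (1 + L) := by ring

theorem LI_nsq_pos {p : ℂ × ℂ} (h : p ≠ 0) : 0 < nsq p := by
  have h1 := (norm_sq_le_nsq p).1
  have h2 : 0 < ‖p‖ ^ 2 := pow_pos (norm_pos_iff.2 h) 2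
  linarith

/-- Lagrange identity -/
theorem LI_lag (x y a b : ℂ) : (‖a‖ ^ 2 + ‖b‖ ^ 2) * (‖x‖ ^ 2 + ‖y‖ ^ 2) =
    ‖x * b - y * a‖ ^ 2 + ‖conj x * a + conj y * b‖ ^ 2 := by
  simp only [← Complex.normSq_eq_norm_sq, Complex.normSq_apply, Complex.mul_re, Complex.mul_im,
    Complex.sub_re, Complex.sub_im, Complex.add_re, Complex.add_im, Complex.conj_re, Complex.conj_im]
  ring

theorem norm_energy {A B h : P2} {ρ : ℝ} {M : Measure (ℂ × ℂ)} (h0 : 0 < ρ) (hI : Inv A B h ρ M) :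
    ∃ ρ1 : ℝ, 0 < ρ1 ∧ ρ1 < ρ ∧ ∃ C : ℝ, 0 ≤ C ∧
    (∀ r : ℝ, 0 < r → r < 1 → ∫⁻ p in {p | p ∈ Metric.ball (0 : ℂ × ℂ) ρ1 ∧ r < ‖p‖},
      ENNReal.ofReal (nsq (vf A B p) / nsq p) ∂M ≤ ENNReal.ofReal (C * (1 + Real.log (1 / r)))) ∧
    ∫⁻ p in Metric.ball (0 : ℂ × ℂ) ρ1,
      ENNReal.ofReal (‖p.1 * ev B p - p.2 * ev A p‖ ^ 2 / (nsq p) ^ 2) ∂M ≤ ENNReal.ofReal C := by
  have hZ0 : Zp A B (X 0) = A := by
    unfold Zp
    simp [pderiv_X]
  have hZ1 : Zp A B (X 1) = B := by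
    unfold Zp
    simp [pderiv_X]
  have hne : ∀ p : ℂ × ℂ, ρ / 2 / 2 ≤ ‖p‖ → ‖p‖ ≤ ρ / 2 → ev (X 0) p ≠ 0 ∨ ev (X 1) p ≠ 0 := by
    intro p hp _
    rw [ev_X0, ev_X1]
    by_contra hcon
    push Not at hcon
    have h1 : p = 0 := Prod.ext hcon.1 hcon.2
    rw [h1, norm_zero] at hp
    linarith
  have hlow : ∀ p : ℂ × ℂ, ‖p‖ ≤ ρ / 2 →
      1 * ‖p‖ ^ 2 ≤ ‖ev (X 0) p‖ ^ 2 + ‖ev (X 1) p‖ ^ 2 := by
    intro p _
    rw [ev_X0, ev_X1, one_mul]
    exact (norm_sq_le_nsq p).1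
  obtain ⟨C1, hC1, hE1, -⟩ := psh_energy hI (X 0) (X 1) (ρ / 2) (by linarith) (by linarith) hne
  obtain ⟨C2, hC2, hE2⟩ := psh_energy_log hI (X 0) (X 1) (ρ / 2) 1 2 (by linarith) (by linarith)
    hne one_pos hlow
  simp only [hZ0, hZ1, ev_X0, ev_X1] at hE1 hE2
  have hm1 : Measurable (fun p : ℂ × ℂ =>
      ENNReal.ofReal (‖p.1 * ev B p - p.2 * ev A p‖ ^ 2 / (‖p.1‖ ^ 2 + ‖p.2‖ ^ 2) ^ 2)) := by
    have hA := (LI_cont A).measurable
    have hB := (LI_cont B).measurable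
    fun_prop
  refine ⟨ρ / 2 / 2, by linarith, by linarith, C1 + C2, by linarith, ?_, ?_⟩
  · intro r hr hr1
    have hL0 : 0 ≤ Real.log (1 / r) :=
      Real.log_nonneg (by rw [le_div_iff₀ hr]; linarith)
    have hms : MeasurableSet {p : ℂ × ℂ | p ∈ Metric.ball (0 : ℂ × ℂ) (ρ / 2 / 2) ∧ r < ‖p‖} :=
      Metric.isOpen_ball.measurableSet.inter (isOpen_lt continuous_const continuous_norm).measurableSet
    calc ∫⁻ p in {p | p ∈ Metric.ball (0 : ℂ × ℂ) (ρ / 2 / 2) ∧ r < ‖p‖},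
        ENNReal.ofReal (nsq (vf A B p) / nsq p) ∂M
        = ∫⁻ p in {p | p ∈ Metric.ball (0 : ℂ × ℂ) (ρ / 2 / 2) ∧ r < ‖p‖},
          (ENNReal.ofReal (‖p.1 * ev B p - p.2 * ev A p‖ ^ 2 / (‖p.1‖ ^ 2 + ‖p.2‖ ^ 2) ^ 2) +
          ENNReal.ofReal (‖conj p.1 * ev A p + conj p.2 * ev B p‖ ^ 2 /
            (‖p.1‖ ^ 2 + ‖p.2‖ ^ 2) ^ 2)) ∂M := by
          refine setLIntegral_congr_fun hms ?_
          rintro p ⟨-, hp2⟩
          have hp0 : p ≠ 0 := by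
            rintro rfl
            rw [norm_zero] at hp2
            linarith
          have hpos := LI_nsq_pos hp0
          have hpos' : 0 < ‖p.1‖ ^ 2 + ‖p.2‖ ^ 2 := hpos
          beta_reduce
          rw [← ENNReal.ofReal_add (by positivity) (by positivity), ← add_div, ← LI_lag]
          congr 1
          show (‖ev A p‖ ^ 2 + ‖ev B p‖ ^ 2) / (‖p.1‖ ^ 2 + ‖p.2‖ ^ 2) = _
          rw [pow_two (‖p.1‖ ^ 2 + ‖p.2‖ ^ 2), mul_div_mul_right _ _ hpos'.ne']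
      _ = ∫⁻ p in {p | p ∈ Metric.ball (0 : ℂ × ℂ) (ρ / 2 / 2) ∧ r < ‖p‖},
          ENNReal.ofReal (‖p.1 * ev B p - p.2 * ev A p‖ ^ 2 / (‖p.1‖ ^ 2 + ‖p.2‖ ^ 2) ^ 2) ∂M +
          ∫⁻ p in {p | p ∈ Metric.ball (0 : ℂ × ℂ) (ρ / 2 / 2) ∧ r < ‖p‖},
          ENNReal.ofReal (‖conj p.1 * ev A p + conj p.2 * ev B p‖ ^ 2 /
            (‖p.1‖ ^ 2 + ‖p.2‖ ^ 2) ^ 2) ∂M := lintegral_add_left hm1 _
      _ ≤ ENNReal.ofReal C1 + ENNReal.ofReal (C2 * (1 + Real.log (1 / r))) := by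
          refine add_le_add ?_ (hE2 r hr hr1)
          exact (lintegral_mono_set (fun p hp => hp.1)).trans hE1
      _ = ENNReal.ofReal (C1 + C2 * (1 + Real.log (1 / r))) := by
          rw [ENNReal.ofReal_add hC1 (by positivity)]
      _ ≤ ENNReal.ofReal ((C1 + C2) * (1 + Real.log (1 / r))) := by
          refine ENNReal.ofReal_le_ofReal ?_
          have := mul_nonneg hC1 hL0
          linarith
  · refine hE1.trans (ENNReal.ofReal_le_ofReal (by linarith))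

end FC76

end S_H76_FL_LI

section S_H76_FL_MA

/-!
# Row MA: the blow-up of the measure: definitions and change of variables

chart c p = (x, y/x - c), unchart c (x,u) = (x, x(u+c)); they are inverse to each other where x ≠ 0.
`lintegral_blM`, `integral_blM`: definitions unfolded (`lintegral_map'`, `lintegral_withDensity_eq_lintegral_mul`, `integral_map`,
`integral_withDensity_eq_integral_smul`, restrict under map: (μ.map f).restrict s = (μ.restrict (f⁻¹ s)).map f).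
chart c is measurable (division in ℂ).
`blTo_ev`: from the two polynomial identities of BlTo, `ev_bl`, at q = (x,u), p = unchart c q.
`blTo_field`: for x ≠ 0, p = unchart c q: the complex derivative of chart c at p applied to Z(p) is x^e Z~(q):
  d(chart)(Z) = (A, B/x - y A/x^2) = (A, (B - (u+c) A)/x) = x^e (A1, C1).
`bl_carried_locfin`: carried: a point p of dom h ρ with x ≠ 0 and chart p in the ball δ has ev (bl c h)(chart p) = ev h p ≠ 0, so chart p in dom (X 0 * bl c h) δ.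
  Compact K in dom(X 0 * bl c h) δ: unchart c (K) is a compact subset of dom h ρ (its first coordinate does not vanish so it is ≠ 0), ‖x‖^(2e) bounded on it, so
  blM K <= C M(unchart K) < oo.
-/

open MvPolynomial MeasureTheory
open scoped ContDiff ComplexConjugate

namespace FC76

noncomputable def chart (c : ℂ) (p : ℂ × ℂ) : ℂ × ℂ := (p.1, p.2 / p.1 - c)

noncomputable def unchart (c : ℂ) (q : ℂ × ℂ) : ℂ × ℂ := (q.1, q.1 * (q.2 + c))

/-- the transformed measure in the chart -/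
noncomputable def blM (c : ℂ) (e : ℕ) (δ : ℝ) (M : Measure (ℂ × ℂ)) : Measure (ℂ × ℂ) :=
  (((M.restrict {p | p.1 ≠ 0}).withDensity (fun p => ENNReal.ofReal (‖p.1‖ ^ (2 * e)))).map (chart c)).restrict
    (Metric.ball 0 δ)

theorem measurable_chart (c : ℂ) : Measurable (chart c) :=
  measurable_fst.prodMk ((measurable_snd.div measurable_fst).sub_const c)

theorem chart_unchart (c : ℂ) (q : ℂ × ℂ) (h : q.1 ≠ 0) : chart c (unchart c q) = q := by
  unfold chart unchart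
  refine Prod.ext rfl ?_
  show q.1 * (q.2 + c) / q.1 - c = q.2
  rw [mul_div_cancel_left₀ _ h]
  ring

theorem unchart_chart (c : ℂ) (p : ℂ × ℂ) (h : p.1 ≠ 0) : unchart c (chart c p) = p := by
  unfold chart unchart
  refine Prod.ext rfl ?_
  show p.1 * (p.2 / p.1 - c + c) = p.2
  rw [sub_add_cancel, mul_div_cancel₀ _ h]

theorem MA_set (c : ℂ) (δ : ℝ) : {p : ℂ × ℂ | p.1 ≠ 0 ∧ chart c p ∈ Metric.ball (0 : ℂ × ℂ) δ} =
    chart c ⁻¹' (Metric.ball (0 : ℂ × ℂ) δ) ∩ {p | p.1 ≠ 0} := by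
  ext p
  exact and_comm

theorem MA_meas0 : MeasurableSet {p : ℂ × ℂ | p.1 ≠ 0} :=
  (isOpen_ne_fun continuous_fst continuous_const).measurableSet

theorem MA_measU (c : ℂ) (δ : ℝ) :
    MeasurableSet {p : ℂ × ℂ | p.1 ≠ 0 ∧ chart c p ∈ Metric.ball (0 : ℂ × ℂ) δ} := by
  rw [MA_set]
  exact (measurable_chart c Metric.isOpen_ball.measurableSet).inter MA_meas0

theorem MA_w (e : ℕ) : Measurable (fun p : ℂ × ℂ => ENNReal.ofReal (‖p.1‖ ^ (2 * e))) := by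
  fun_prop

theorem lintegral_blM (c : ℂ) (e : ℕ) (δ : ℝ) (M : Measure (ℂ × ℂ)) (F : ℂ × ℂ → ENNReal) (hF : Measurable F) :
    ∫⁻ q, F q ∂(blM c e δ M) =
      ∫⁻ p in {p | p.1 ≠ 0 ∧ chart c p ∈ Metric.ball (0 : ℂ × ℂ) δ},
        ENNReal.ofReal (‖p.1‖ ^ (2 * e)) * F (chart c p) ∂M := by
  have hB : MeasurableSet (Metric.ball (0 : ℂ × ℂ) δ) := Metric.isOpen_ball.measurableSet
  unfold blM
  have hG : Measurable (fun p => F (chart c p)) := hF.comp (measurable_chart c)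
  rw [setLIntegral_map hB hF (measurable_chart c),
    setLIntegral_withDensity_eq_setLIntegral_mul _ (MA_w e) hG (measurable_chart c hB),
    Measure.restrict_restrict (measurable_chart c hB), ← MA_set]
  rfl

theorem integral_blM (c : ℂ) (e : ℕ) (δ : ℝ) (M : Measure (ℂ × ℂ)) (F : ℂ × ℂ → ℂ) (hF : StronglyMeasurable F) :
    ∫ q, F q ∂(blM c e δ M) =
      ∫ p in {p | p.1 ≠ 0 ∧ chart c p ∈ Metric.ball (0 : ℂ × ℂ) δ},
        ((‖p.1‖ ^ (2 * e) : ℝ) : ℂ) * F (chart c p) ∂M := by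
  have hB : MeasurableSet (Metric.ball (0 : ℂ × ℂ) δ) := Metric.isOpen_ball.measurableSet
  unfold blM
  rw [setIntegral_map hB hF.aestronglyMeasurable (measurable_chart c).aemeasurable,
    setIntegral_withDensity_eq_setIntegral_toReal_smul (MA_w e)
      (Filter.Eventually.of_forall fun p => ENNReal.ofReal_lt_top) _ (measurable_chart c hB),
    Measure.restrict_restrict (measurable_chart c hB), ← MA_set]
  refine integral_congr_ae (Filter.Eventually.of_forall fun p => ?_)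
  show (ENNReal.ofReal (‖p.1‖ ^ (2 * e))).toReal • F (chart c p) = _
  rw [ENNReal.toReal_ofReal (by positivity), Complex.real_smul]

theorem blTo_ev {A B A1 C1 : P2} {c : ℂ} {e : ℕ} (h : BlTo A B c e A1 C1) (q : ℂ × ℂ) :
    q.1 ^ e * ev A1 q = ev A (unchart c q) ∧
    q.1 ^ (e + 1) * ev C1 q = ev B (unchart c q) - (q.2 + c) * ev A (unchart c q) := by
  obtain ⟨h1, h2⟩ := h
  have e1 := congrArg (fun f => ev f q) h1
  have e2 := congrArg (fun f => ev f q) h2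
  simp only [ev_mul, ev_pow, ev_X0, ev_bl] at e1
  simp only [ev_mul, ev_pow, ev_X0, ev_bl, ev_sub, ev_add, ev_X1, ev_C] at e2
  exact ⟨e1, e2⟩

theorem chart_holo (c : ℂ) (p : ℂ × ℂ) (h : p.1 ≠ 0) : AnalyticAt ℂ (chart c) p := by
  have h1 : AnalyticAt ℂ (fun p : ℂ × ℂ => p.2 / p.1 - c) p :=
    (analyticAt_snd.div analyticAt_fst h).sub analyticAt_const
  exact analyticAt_fst.prod h1

theorem MA_deriv (c : ℂ) (p v : ℂ × ℂ) (h : p.1 ≠ 0) :
    fderiv ℂ (chart c) p v = (v.1, p.1⁻¹ * (v.2 - p.2 / p.1 * v.1)) := by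
  have h1 : HasFDerivAt (fun q : ℂ × ℂ => q.1⁻¹) (-(p.1 ^ 2)⁻¹ • ContinuousLinearMap.fst ℂ ℂ ℂ) p :=
    (hasDerivAt_inv h).comp_hasFDerivAt p hasFDerivAt_fst
  have h2 : HasFDerivAt (fun q : ℂ × ℂ => q.2 * q.1⁻¹ - c) (p.2 • (-(p.1 ^ 2)⁻¹ •
      ContinuousLinearMap.fst ℂ ℂ ℂ) + p.1⁻¹ • ContinuousLinearMap.snd ℂ ℂ ℂ) p :=
    ((hasFDerivAt_snd (𝕜 := ℂ) (E := ℂ) (F := ℂ) (p := p)).mul h1).sub_const c
  have h3 : HasFDerivAt (chart c) ((ContinuousLinearMap.fst ℂ ℂ ℂ).prod (p.2 • (-(p.1 ^ 2)⁻¹ •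
      ContinuousLinearMap.fst ℂ ℂ ℂ) + p.1⁻¹ • ContinuousLinearMap.snd ℂ ℂ ℂ)) p :=
    (hasFDerivAt_fst (𝕜 := ℂ) (E := ℂ) (F := ℂ) (p := p)).prodMk h2
  rw [h3.fderiv]
  refine Prod.ext rfl ?_
  show p.2 * (-(p.1 ^ 2)⁻¹ * v.1) + p.1⁻¹ * v.2 = p.1⁻¹ * (v.2 - p.2 / p.1 * v.1)
  field_simp
  ring

theorem blTo_field {A B A1 C1 : P2} {c : ℂ} {e : ℕ} (h : BlTo A B c e A1 C1) (p : ℂ × ℂ) (hp : p.1 ≠ 0) :
    fderiv ℂ (chart c) p (vf A B p) = (p.1 ^ e) • vf A1 C1 (chart c p) := by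
  obtain ⟨e1, e2⟩ := blTo_ev h (chart c p)
  rw [unchart_chart c p hp] at e1 e2
  have e3 : (chart c p).1 = p.1 := rfl
  have e4 : (chart c p).2 + c = p.2 / p.1 := by
    show p.2 / p.1 - c + c = p.2 / p.1
    ring
  rw [e3] at e1 e2
  rw [e4] at e2
  rw [MA_deriv c p _ hp]
  refine Prod.ext ?_ ?_
  · show ev A p = p.1 ^ e * ev A1 (chart c p)
    exact e1.symm
  · show p.1⁻¹ * (ev B p - p.2 / p.1 * ev A p) = p.1 ^ e * ev C1 (chart c p)
    rw [← e2, pow_succ]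
    field_simp

theorem MA_ev (h : P2) (c : ℂ) (q : ℂ × ℂ) :
    ev (X 0 * bl c h) q = q.1 * ev h (unchart c q) := by
  rw [ev_mul, ev_X0, ev_bl]
  rfl

theorem MA_dom_open (h : P2) (ρ : ℝ) : IsOpen (dom h ρ) := by
  have h1 : dom h ρ = Metric.ball (0 : ℂ × ℂ) ρ ∩ ({p | ev h p ≠ 0} ∩ {p | p ≠ 0}) := rfl
  rw [h1]
  refine Metric.isOpen_ball.inter (IsOpen.inter ?_ ?_)
  · exact isOpen_ne_fun (contDiff_real_ev h).continuous continuous_const
  · exact isOpen_ne_fun continuous_id continuous_const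

theorem bl_carried_locfin {A B h : P2} {ρ : ℝ} {M : Measure (ℂ × ℂ)} (hI : Inv0 A B h ρ M) (c : ℂ) (e : ℕ) (δ : ℝ)
    (hδ : ∀ q ∈ Metric.ball (0 : ℂ × ℂ) δ, unchart c q ∈ Metric.ball (0 : ℂ × ℂ) ρ) :
    blM c e δ M (dom (X 0 * bl c h) δ)ᶜ = 0 ∧
    ∀ K : Set (ℂ × ℂ), IsCompact K → K ⊆ dom (X 0 * bl c h) δ → blM c e δ M K < ⊤ := by
  constructor
  · have hT : MeasurableSet (dom (X 0 * bl c h) δ)ᶜ := (MA_dom_open _ _).measurableSet.compl
    rw [← lintegral_indicator_one hT, lintegral_blM c e δ M _ (measurable_one.indicator hT)]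
    have hae : ∀ᵐ p ∂M, p ∈ dom h ρ := by
      rw [ae_iff]
      exact hI.carried
    have h2 : ∀ᵐ p ∂(M.restrict {p | p.1 ≠ 0 ∧ chart c p ∈ Metric.ball (0 : ℂ × ℂ) δ}),
        ENNReal.ofReal (‖p.1‖ ^ (2 * e)) *
          (dom (X 0 * bl c h) δ)ᶜ.indicator (1 : ℂ × ℂ → ENNReal) (chart c p) = 0 := by
      rw [ae_restrict_iff' (MA_measU c δ)]
      filter_upwards [hae] with p hp hpU
      obtain ⟨hp0, hpB⟩ := hpU
      have hmem : chart c p ∈ dom (X 0 * bl c h) δ := by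
        refine ⟨hpB, ?_, ?_⟩
        · rw [MA_ev, unchart_chart c p hp0]
          exact mul_ne_zero hp0 hp.2.1
        · intro h0
          exact hp0 (congrArg Prod.fst h0)
      have hnot : chart c p ∉ (dom (X 0 * bl c h) δ)ᶜ := by
        rw [Set.mem_compl_iff, not_not]
        exact hmem
      rw [Set.indicator_of_notMem hnot, mul_zero]
    rw [lintegral_congr_ae h2, lintegral_zero]
  · intro K hK hKd
    have hKm : MeasurableSet K := hK.isClosed.measurableSet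
    have hcont : Continuous (unchart c) := by
      unfold unchart
      fun_prop
    have hK' : IsCompact (unchart c '' K) := hK.image hcont
    have hne : ∀ q ∈ K, q.1 ≠ 0 ∧ ev h (unchart c q) ≠ 0 := by
      intro q hq
      have h1 := (hKd hq).2.1
      rw [MA_ev] at h1
      exact ⟨left_ne_zero_of_mul h1, right_ne_zero_of_mul h1⟩
    have hsub : unchart c '' K ⊆ dom h ρ := by
      rintro _ ⟨q, hq, rfl⟩
      refine ⟨hδ q (hKd hq).1, (hne q hq).2, ?_⟩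
      intro h0
      exact (hne q hq).1 (congrArg Prod.fst h0)
    have hfin := hI.locfin _ hK' hsub
    rw [← lintegral_indicator_one hKm, lintegral_blM c e δ M _ (measurable_one.indicator hKm)]
    have hle : ∫⁻ p in {p | p.1 ≠ 0 ∧ chart c p ∈ Metric.ball (0 : ℂ × ℂ) δ},
        ENNReal.ofReal (‖p.1‖ ^ (2 * e)) * K.indicator (1 : ℂ × ℂ → ENNReal) (chart c p) ∂M ≤
        ∫⁻ p, ENNReal.ofReal (δ ^ (2 * e)) * (unchart c '' K).indicator (1 : ℂ × ℂ → ENNReal) p ∂M := by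
      refine le_trans (setLIntegral_mono' (MA_measU c δ) (fun p hp => ?_)) (setLIntegral_le_lintegral _ _)
      by_cases hpK : chart c p ∈ K
      · have h1 : p ∈ unchart c '' K := ⟨chart c p, hpK, unchart_chart c p hp.1⟩
        rw [Set.indicator_of_mem hpK, Set.indicator_of_mem h1]
        refine mul_le_mul_left (ENNReal.ofReal_le_ofReal ?_) _
        refine pow_le_pow_left₀ (norm_nonneg _) ?_ _
        have h2 : ‖chart c p‖ < δ := by
          have := hp.2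
          rwa [mem_ball_zero_iff] at this
        have h3 : ‖(chart c p).1‖ ≤ ‖chart c p‖ := norm_fst_le _
        exact h3.trans h2.le
      · rw [Set.indicator_of_notMem hpK, mul_zero]
        exact zero_le
    refine lt_of_le_of_lt hle ?_
    rw [lintegral_const_mul _ (measurable_one.indicator hK'.isClosed.measurableSet),
      lintegral_indicator_one hK'.isClosed.measurableSet]
    exact ENNReal.mul_lt_top ENNReal.ofReal_lt_top hfin

end FC76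

end S_H76_FL_MA

section S_H76_FL_MB

/-!
# Row MB: finite mass and logarithmic growth in the chart

Let ρ1, C from `norm_energy`.  Choose δ0 <= 1 with unchart c (ball δ0) contained in ball ρ1 (continuity at 0: ‖unchart c q‖ <= ‖x‖ (1 + ‖c‖ + 1)).
At p = unchart c q, q = (x,u) in ball δ, x ≠ 0:  ‖y‖ <= ‖x‖ (‖c‖+1), so nsq p <= Λ ‖x‖^2, Λ := 1 + (‖c‖+1)^2.
1. `bl_fin`: ‖x‖^(2e) nsq(vf A1 C1 q) = ‖A‖^2 + ‖x B - y A‖^2/‖x‖^4 (`blTo_ev`) <= nsq(Z p) + Λ^2 ‖x B - y A‖^2/(nsq p)^2; integrate: `lintegral_blM`, `fin`, `norm_energy`.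
2. `bl_log`: h1 := X 0 * bl c h; Zp A1 C1 h1 = A1 * bl c h + X 0 * Zp A1 C1 (bl c h), and x^e ev (Zp A1 C1 (bl c h)) q = ev (Zp A B h) p
   (ev (bl c h) = ev h ∘ unchart c, chain rule; or polynomial identities; `fderiv_ev_vf`, `blTo_field` and the inverse chart: D(unchart) (x^e Z~) = Z).
   So ‖x‖^(2e) ‖Z~ h1/h1‖^2 <= 2 ‖A‖^2/‖x‖^2 + 2 ‖Zh/h‖^2 <= 2 Λ nsq(Z)/nsq(p) + 2‖Zh/h‖^2.
   On r < ‖h1(q)‖ = ‖x‖ ‖h(p)‖: with H := bound of ‖ev h‖ on ball ρ1, H >= 1: ‖x‖ > r/H, ‖h(p)‖ > r (δ <= 1).  So the integral over {r < ‖h1‖} is at most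
   2 Λ * C (1 + log(H/r)) + 2 C_log (1 + log(1/r)) (for r/H < 1) <= C'(1 + log(1/r)).
-/

open MvPolynomial MeasureTheory
open scoped ContDiff ComplexConjugate

namespace FC76

theorem MB_X0 (c : ℂ) : bl c (X 0) = X 0 := by
  simp [bl]

theorem MB_X1 (c : ℂ) : bl c (X 1) = X 0 * (X 1 + C c) := by
  simp [bl]

/-- chain rule for polynomials -/
theorem MB_pd (c : ℂ) (f : P2) : pderiv 1 (bl c f) = X 0 * bl c (pderiv 1 f) ∧
    pderiv 0 (bl c f) = bl c (pderiv 0 f) + (X 1 + C c) * bl c (pderiv 1 f) := by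
  have h01 : pderiv 0 (X 1 : P2) = 0 := pderiv_X_of_ne (by decide)
  have h10 : pderiv 1 (X 0 : P2) = 0 := pderiv_X_of_ne (by decide)
  have h00 : pderiv 0 (X 0 : P2) = 1 := pderiv_X_self _
  have h11 : pderiv 1 (X 1 : P2) = 1 := pderiv_X_self _
  induction f using MvPolynomial.induction_on with
  | C a =>
    have h : bl c (C a) = C a := by
      rw [← MvPolynomial.algebraMap_eq]
      exact AlgHom.commutes _ _
    rw [h, pderiv_C, pderiv_C, map_zero, mul_zero, mul_zero, add_zero]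
    exact ⟨rfl, rfl⟩
  | add f g hf hg =>
    simp only [map_add]
    rw [hf.1, hg.1, hf.2, hg.2]
    constructor <;> ring
  | mul_X f i hf =>
    fin_cases i
    · show pderiv 1 (bl c (f * X 0)) = X 0 * bl c (pderiv 1 (f * X 0)) ∧
        pderiv 0 (bl c (f * X 0)) =
          bl c (pderiv 0 (f * X 0)) + (X 1 + C c) * bl c (pderiv 1 (f * X 0))
      rw [map_mul, MB_X0, pderiv_mul, pderiv_mul, pderiv_mul, pderiv_mul, hf.1, hf.2, h00, h10,
        mul_zero, mul_zero, add_zero, add_zero, map_mul, MB_X0, map_add, map_mul, MB_X0, map_mul,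
        map_one]
      constructor <;> ring
    · show pderiv 1 (bl c (f * X 1)) = X 0 * bl c (pderiv 1 (f * X 1)) ∧
        pderiv 0 (bl c (f * X 1)) =
          bl c (pderiv 0 (f * X 1)) + (X 1 + C c) * bl c (pderiv 1 (f * X 1))
      simp only [map_mul, MB_X1, pderiv_mul, map_add, pderiv_C, hf.1, hf.2, h00, h10, h01, h11,
        map_one, map_zero]
      constructor <;> ring

theorem MB_poly {A B A1 C1 : P2} {c : ℂ} {e : ℕ} (hb : BlTo A B c e A1 C1) (h : P2) :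
    X 0 ^ e * Zp A1 C1 (bl c h) = bl c (Zp A B h) := by
  obtain ⟨h1, h2⟩ := hb
  unfold Zp
  rw [(MB_pd c h).1, (MB_pd c h).2, map_add, map_mul, map_mul]
  linear_combination (bl c (pderiv 0 h) + (X 1 + C c) * bl c (pderiv 1 h)) * h1 +
    bl c (pderiv 1 h) * h2

theorem MB_ev_bl (c : ℂ) (f : P2) (q : ℂ × ℂ) : ev (bl c f) q = ev f (unchart c q) := ev_bl c f q

theorem MB_D (c : ℂ) (δ : ℝ) :
    MeasurableSet {p : ℂ × ℂ | p.1 ≠ 0 ∧ chart c p ∈ Metric.ball (0 : ℂ × ℂ) δ} := by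
  refine MeasurableSet.inter ?_ ?_
  · exact (measurable_fst (measurableSet_singleton (0 : ℂ))).compl
  · exact measurable_chart c Metric.isOpen_ball.measurableSet

theorem MB_geom (c : ℂ) {ρ1 : ℝ} (hρ1 : 0 < ρ1) :
    ∃ δ0 : ℝ, 0 < δ0 ∧ δ0 ≤ 1 ∧ ∀ δ : ℝ, δ ≤ δ0 → ∀ p : ℂ × ℂ, p.1 ≠ 0 →
      chart c p ∈ Metric.ball (0 : ℂ × ℂ) δ → p ∈ Metric.ball (0 : ℂ × ℂ) ρ1 ∧ ‖p.1‖ < 1 ∧
        nsq p ≤ (1 + (1 + ‖c‖) ^ 2) * ‖p.1‖ ^ 2 := by
  have hc : 0 < 1 + ‖c‖ := by positivity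
  refine ⟨min 1 (ρ1 / (1 + ‖c‖)), lt_min one_pos (div_pos hρ1 hc), min_le_left _ _, ?_⟩
  intro δ hδ p hp hq
  have hδ1 : δ ≤ 1 := hδ.trans (min_le_left _ _)
  have hδ2 : δ ≤ ρ1 / (1 + ‖c‖) := hδ.trans (min_le_right _ _)
  rw [mem_ball_zero_iff, Prod.norm_def, max_lt_iff] at hq
  have h1 : ‖p.1‖ < δ := hq.1
  have h2 : ‖p.2 / p.1 - c‖ < δ := hq.2
  have hN : 0 < ‖p.1‖ := norm_pos_iff.2 hp
  have h3 : ‖p.2‖ ≤ ‖p.1‖ * (1 + ‖c‖) := by
    have h4 : p.2 = p.1 * ((p.2 / p.1 - c) + c) := by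
      field_simp
      ring
    calc ‖p.2‖ = ‖p.1 * ((p.2 / p.1 - c) + c)‖ := by rw [← h4]
      _ = ‖p.1‖ * ‖(p.2 / p.1 - c) + c‖ := norm_mul _ _
      _ ≤ ‖p.1‖ * (1 + ‖c‖) := by
          refine mul_le_mul_of_nonneg_left ?_ hN.le
          have := norm_add_le (p.2 / p.1 - c) c
          linarith
  have h5 : ‖p.1‖ * (1 + ‖c‖) < ρ1 := by
    rw [← lt_div_iff₀ hc]
    linarith
  have h6 : ‖p.1‖ ≤ ‖p.1‖ * (1 + ‖c‖) := by
    have := norm_nonneg c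
    nlinarith
  refine ⟨?_, lt_of_lt_of_le h1 hδ1, ?_⟩
  · rw [mem_ball_zero_iff, Prod.norm_def, max_lt_iff]
    exact ⟨by linarith, by linarith⟩
  · unfold nsq
    have h7 : ‖p.2‖ ^ 2 ≤ (‖p.1‖ * (1 + ‖c‖)) ^ 2 := pow_le_pow_left₀ (norm_nonneg _) h3 2
    calc ‖p.1‖ ^ 2 + ‖p.2‖ ^ 2 ≤ ‖p.1‖ ^ 2 + (‖p.1‖ * (1 + ‖c‖)) ^ 2 := by linarith
      _ = (1 + (1 + ‖c‖) ^ 2) * ‖p.1‖ ^ 2 := by ring

theorem MB_nsq_pos {p : ℂ × ℂ} (h : p.1 ≠ 0) : 0 < nsq p := by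
  unfold nsq
  have := norm_pos_iff.2 h
  positivity

theorem MB_real1 {N a1 c1 a b w s Λ : ℝ} {e : ℕ} (hN : 0 < N) (hs : 0 < s) (hΛ : s ≤ Λ * N ^ 2)
    (h1 : N ^ e * a1 = a) (h2 : N ^ (e + 1) * c1 = b) (h3 : N * b = w) :
    N ^ (2 * e) * (a1 ^ 2 + c1 ^ 2) ≤ a ^ 2 + Λ ^ 2 * (w ^ 2 / s ^ 2) := by
  have h4 : N ^ (2 * e) * c1 ^ 2 = w ^ 2 / N ^ 4 := by
    rw [eq_div_iff (by positivity), ← h3, ← h2]
    ring
  have h5 : w ^ 2 / N ^ 4 ≤ Λ ^ 2 * (w ^ 2 / s ^ 2) := by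
    have h6 : s ^ 2 ≤ Λ ^ 2 * N ^ 4 := by
      calc s ^ 2 ≤ (Λ * N ^ 2) ^ 2 := pow_le_pow_left₀ hs.le hΛ 2
        _ = Λ ^ 2 * N ^ 4 := by ring
    rw [← mul_div_assoc, div_le_div_iff₀ (by positivity) (by positivity)]
    calc w ^ 2 * s ^ 2 ≤ w ^ 2 * (Λ ^ 2 * N ^ 4) := mul_le_mul_of_nonneg_left h6 (sq_nonneg _)
      _ = Λ ^ 2 * w ^ 2 * N ^ 4 := by ring
  have h7 : N ^ (2 * e) * a1 ^ 2 = a ^ 2 := by
    rw [← h1]
    ring
  calc N ^ (2 * e) * (a1 ^ 2 + c1 ^ 2) = N ^ (2 * e) * a1 ^ 2 + N ^ (2 * e) * c1 ^ 2 := by ring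
    _ ≤ _ := by
      rw [h7, h4]
      linarith

theorem bl_fin {A B h A1 C1 : P2} {ρ : ℝ} {M : Measure (ℂ × ℂ)} (h0 : 0 < ρ) (hI : Inv A B h ρ M) {c : ℂ} {e : ℕ}
    (hb : BlTo A B c e A1 C1) :
    ∃ δ0 : ℝ, 0 < δ0 ∧ ∀ δ : ℝ, 0 < δ → δ ≤ δ0 →
      ∫⁻ q, ENNReal.ofReal (nsq (vf A1 C1 q)) ∂(blM c e δ M) < ⊤ := by
  obtain ⟨ρ1, hρ1, hρ1ρ, K, hK, -, hE⟩ := norm_energy h0 hI
  obtain ⟨δ0, hδ0, hδ01, hg⟩ := MB_geom c hρ1
  refine ⟨δ0, hδ0, fun δ hδ hδ' => ?_⟩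
  have hev : ∀ f : P2, Continuous (ev f) := fun f => (contDiff_real_ev f).continuous
  have hvf : ∀ f g : P2, Measurable (fun q => ENNReal.ofReal (nsq (vf f g q))) := by
    intro f g
    refine ENNReal.measurable_ofReal.comp ?_
    have hf := (hev f).measurable
    have hg := (hev g).measurable
    show Measurable (fun q => ‖ev f q‖ ^ 2 + ‖ev g q‖ ^ 2)
    fun_prop
  obtain ⟨Λ, hΛ⟩ : ∃ Λ : ℝ, Λ = 1 + (1 + ‖c‖) ^ 2 := ⟨_, rfl⟩
  rw [lintegral_blM c e δ M _ (hvf A1 C1)]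
  have hpt : ∀ p ∈ {p : ℂ × ℂ | p.1 ≠ 0 ∧ chart c p ∈ Metric.ball (0 : ℂ × ℂ) δ},
      ENNReal.ofReal (‖p.1‖ ^ (2 * e)) * ENNReal.ofReal (nsq (vf A1 C1 (chart c p))) ≤
      ENNReal.ofReal (nsq (vf A B p)) + (Metric.ball (0 : ℂ × ℂ) ρ1).indicator
        (fun p => ENNReal.ofReal (Λ ^ 2) *
          ENNReal.ofReal (‖p.1 * ev B p - p.2 * ev A p‖ ^ 2 / (nsq p) ^ 2)) p := by
    rintro p ⟨hp, hq⟩
    obtain ⟨g1, g2, g3⟩ := hg δ hδ' p hp hq
    rw [Set.indicator_of_mem g1, ← ENNReal.ofReal_mul (by positivity),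
      ← ENNReal.ofReal_mul (by positivity),
      ← ENNReal.ofReal_add (nsq_nonneg _) (by positivity)]
    refine ENNReal.ofReal_le_ofReal ?_
    obtain ⟨b1, b2⟩ := blTo_ev hb (chart c p)
    rw [unchart_chart c p hp] at b1 b2
    have e1 : (chart c p).1 = p.1 := rfl
    have e2 : (chart c p).2 + c = p.2 / p.1 := by
      show p.2 / p.1 - c + c = p.2 / p.1
      ring
    rw [e1] at b1 b2
    rw [e2] at b2
    have b3 : p.1 * (ev B p - p.2 / p.1 * ev A p) = p.1 * ev B p - p.2 * ev A p := by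
      field_simp
    have n1 := congrArg norm b1
    have n2 := congrArg norm b2
    have n3 := congrArg norm b3
    rw [norm_mul, norm_pow] at n1 n2
    rw [norm_mul] at n3
    have := MB_real1 (norm_pos_iff.2 hp) (MB_nsq_pos hp) g3 n1 n2 n3
    rw [← hΛ] at this
    have h9 : ‖ev A p‖ ^ 2 ≤ nsq (vf A B p) := by
      show ‖ev A p‖ ^ 2 ≤ ‖ev A p‖ ^ 2 + ‖ev B p‖ ^ 2
      have := sq_nonneg ‖ev B p‖
      linarith
    have h10 : nsq (vf A1 C1 (chart c p)) = ‖ev A1 (chart c p)‖ ^ 2 + ‖ev C1 (chart c p)‖ ^ 2 := rfl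
    rw [h10]
    linarith
  refine lt_of_le_of_lt (setLIntegral_mono' (MB_D c δ) hpt) ?_
  refine lt_of_le_of_lt (setLIntegral_le_lintegral _ _) ?_
  rw [lintegral_add_left (hvf A B), lintegral_indicator Metric.isOpen_ball.measurableSet,
    lintegral_const_mul']
  · refine ENNReal.add_lt_top.2 ⟨hI.fin, ENNReal.mul_lt_top ENNReal.ofReal_lt_top ?_⟩
    exact lt_of_le_of_lt hE ENNReal.ofReal_lt_top
  · exact ENNReal.ofReal_ne_top

/-- derivative of the transported polynomial -/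
theorem bl_Zp {A B h A1 C1 : P2} {c : ℂ} {e : ℕ} (hb : BlTo A B c e A1 C1) (q : ℂ × ℂ) (hq : q.1 ≠ 0) :
    q.1 ^ e * ev (Zp A1 C1 (bl c h)) q = ev (Zp A B h) (unchart c q) := by
  rw [← MB_ev_bl, ← MB_poly hb h, ev_mul, ev_pow, ev_X0]

theorem MB_log_pt {A B h A1 C1 : P2} {c : ℂ} {e : ℕ} (hb : BlTo A B c e A1 C1) {p : ℂ × ℂ}
    (hp : p.1 ≠ 0) (hh : ev h p ≠ 0) {Λ : ℝ} (hΛ : nsq p ≤ Λ * ‖p.1‖ ^ 2) :
    ‖p.1‖ ^ (2 * e) * (‖ev (Zp A1 C1 (X 0 * bl c h)) (chart c p)‖ ^ 2 /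
      ‖ev (X 0 * bl c h) (chart c p)‖ ^ 2) ≤
      2 * Λ * (nsq (vf A B p) / nsq p) + 2 * (‖ev (Zp A B h) p‖ ^ 2 / ‖ev h p‖ ^ 2) := by
  have e1 : (chart c p).1 = p.1 := rfl
  have hq : (chart c p).1 ≠ 0 := hp
  have hzp : Zp A1 C1 (X 0 * bl c h) = A1 * bl c h + X 0 * Zp A1 C1 (bl c h) := by
    unfold Zp
    rw [pderiv_mul, pderiv_mul, pderiv_X_self, pderiv_X_of_ne (by decide : (0 : Fin 2) ≠ 1)]
    ring
  have hN := norm_pos_iff.2 hp
  have hs := MB_nsq_pos hp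
  have hb1 := (blTo_ev hb (chart c p)).1
  have hb2 := bl_Zp (h := h) hb (chart c p) hq
  rw [unchart_chart c p hp, e1] at hb1 hb2
  have hbh : ev (bl c h) (chart c p) = ev h p := by
    rw [MB_ev_bl, unchart_chart c p hp]
  rw [hzp, ev_add, ev_mul, ev_mul, ev_mul, ev_X0, e1, hbh]
  have key : p.1 ^ e * ((ev A1 (chart c p) * ev h p + p.1 * ev (Zp A1 C1 (bl c h)) (chart c p)) /
      (p.1 * ev h p)) = ev A p / p.1 + ev (Zp A B h) p / ev h p := by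
    rw [← hb1, ← hb2]
    field_simp
  have n1 : ‖p.1‖ ^ (2 * e) *
      (‖ev A1 (chart c p) * ev h p + p.1 * ev (Zp A1 C1 (bl c h)) (chart c p)‖ ^ 2 /
        ‖p.1 * ev h p‖ ^ 2) = ‖ev A p / p.1 + ev (Zp A B h) p / ev h p‖ ^ 2 := by
    rw [← key, norm_mul (p.1 ^ e), norm_pow, norm_div]
    ring
  rw [n1]
  have n2 := norm_add_le (ev A p / p.1) (ev (Zp A B h) p / ev h p)
  have n3 : ‖ev A p / p.1 + ev (Zp A B h) p / ev h p‖ ^ 2 ≤
      2 * ‖ev A p / p.1‖ ^ 2 + 2 * ‖ev (Zp A B h) p / ev h p‖ ^ 2 := by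
    have n4 := norm_nonneg (ev A p / p.1 + ev (Zp A B h) p / ev h p)
    nlinarith [sq_nonneg (‖ev A p / p.1‖ - ‖ev (Zp A B h) p / ev h p‖)]
  have n5 : ‖ev A p / p.1‖ ^ 2 ≤ Λ * (nsq (vf A B p) / nsq p) := by
    rw [norm_div, div_pow, ← mul_div_assoc, div_le_div_iff₀ (by positivity) hs]
    have n6 : ‖ev A p‖ ^ 2 ≤ nsq (vf A B p) := by
      show ‖ev A p‖ ^ 2 ≤ ‖ev A p‖ ^ 2 + ‖ev B p‖ ^ 2
      have := sq_nonneg ‖ev B p‖
      linarith
    calc ‖ev A p‖ ^ 2 * nsq p ≤ nsq (vf A B p) * (Λ * ‖p.1‖ ^ 2) :=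
          mul_le_mul n6 hΛ hs.le (nsq_nonneg _)
      _ = Λ * nsq (vf A B p) * ‖p.1‖ ^ 2 := by ring
  have n7 : ‖ev (Zp A B h) p / ev h p‖ ^ 2 = ‖ev (Zp A B h) p‖ ^ 2 / ‖ev h p‖ ^ 2 := by
    rw [norm_div, div_pow]
  rw [n7] at n3
  linarith

theorem bl_log {A B h A1 C1 : P2} {ρ : ℝ} {M : Measure (ℂ × ℂ)} (h0 : 0 < ρ) (hI : Inv A B h ρ M) {c : ℂ} {e : ℕ}
    (hb : BlTo A B c e A1 C1) :
    ∃ δ0 : ℝ, 0 < δ0 ∧ ∀ δ : ℝ, 0 < δ → δ ≤ δ0 → ∃ C : ℝ, ∀ r : ℝ, 0 < r → r < 1 →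
      ∫⁻ q in {q | r < ‖ev (X 0 * bl c h) q‖},
        ENNReal.ofReal (‖ev (Zp A1 C1 (X 0 * bl c h)) q‖ ^ 2 / ‖ev (X 0 * bl c h) q‖ ^ 2) ∂(blM c e δ M) ≤
      ENNReal.ofReal (C * (1 + Real.log (1 / r))) := by
  obtain ⟨ρ1, hρ1, hρ1ρ, K, hK, hE, -⟩ := norm_energy h0 hI
  obtain ⟨δ0, hδ0, hδ01, hg⟩ := MB_geom c hρ1
  obtain ⟨K2, hK2⟩ := hI.log
  refine ⟨δ0, hδ0, fun δ hδ hδ' => ?_⟩
  have hev : ∀ f : P2, Continuous (ev f) := fun f => (contDiff_real_ev f).continuous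
  obtain ⟨H0, hH0⟩ := (isCompact_closedBall (0 : ℂ × ℂ) ρ1).exists_bound_of_continuousOn
    (hev h).continuousOn
  obtain ⟨H, hH1, hH⟩ : ∃ H : ℝ, 1 ≤ H ∧ ∀ p ∈ Metric.ball (0 : ℂ × ℂ) ρ1, ‖ev h p‖ ≤ H :=
    ⟨max 1 H0, le_max_left _ _, fun p hp =>
      (hH0 p (Metric.ball_subset_closedBall hp)).trans (le_max_right _ _)⟩
  have hHpos : 0 < H := by linarith
  obtain ⟨Λ, hΛ⟩ : ∃ Λ : ℝ, Λ = 1 + (1 + ‖c‖) ^ 2 := ⟨_, rfl⟩
  have hΛ0 : 0 ≤ Λ := by
    rw [hΛ]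
    positivity
  have hlogH : 0 ≤ Real.log H := Real.log_nonneg hH1
  refine ⟨2 * Λ * (K * (1 + Real.log H)) + 2 * |K2|, fun r hr hr1 => ?_⟩
  have hL0 : 0 ≤ Real.log (1 / r) := Real.log_nonneg (by rw [le_div_iff₀ hr]; linarith)
  obtain ⟨F, hF⟩ : ∃ F : ℂ × ℂ → ENNReal, F = fun q =>
      ENNReal.ofReal (‖ev (Zp A1 C1 (X 0 * bl c h)) q‖ ^ 2 / ‖ev (X 0 * bl c h) q‖ ^ 2) :=
    ⟨_, rfl⟩
  have hFm : Measurable F := by
    rw [hF]
    have m1 := (hev (Zp A1 C1 (X 0 * bl c h))).measurable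
    have m2 := (hev (X 0 * bl c h)).measurable
    fun_prop
  obtain ⟨S, hS⟩ : ∃ S : Set (ℂ × ℂ), S = {q | r < ‖ev (X 0 * bl c h) q‖} := ⟨_, rfl⟩
  have hSm : MeasurableSet S := by
    rw [hS]
    exact (isOpen_lt continuous_const (hev _).norm).measurableSet
  rw [← hS, ← hF, ← lintegral_indicator hSm, lintegral_blM c e δ M _ (hFm.indicator hSm)]
  obtain ⟨T1, hT1⟩ : ∃ T1 : Set (ℂ × ℂ),
      T1 = {p | p ∈ Metric.ball (0 : ℂ × ℂ) ρ1 ∧ r / H < ‖p‖} := ⟨_, rfl⟩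
  obtain ⟨T2, hT2⟩ : ∃ T2 : Set (ℂ × ℂ), T2 = {p | r < ‖ev h p‖} := ⟨_, rfl⟩
  have hT1m : MeasurableSet T1 := by
    rw [hT1]
    exact Metric.isOpen_ball.measurableSet.inter
      (isOpen_lt continuous_const continuous_norm).measurableSet
  have hT2m : MeasurableSet T2 := by
    rw [hT2]
    exact (isOpen_lt continuous_const (hev h).norm).measurableSet
  obtain ⟨g1, hg1⟩ : ∃ g1 : ℂ × ℂ → ENNReal, g1 = fun p =>
      ENNReal.ofReal (2 * Λ) * ENNReal.ofReal (nsq (vf A B p) / nsq p) := ⟨_, rfl⟩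
  obtain ⟨g2, hg2⟩ : ∃ g2 : ℂ × ℂ → ENNReal, g2 = fun p =>
      ENNReal.ofReal 2 * ENNReal.ofReal (‖ev (Zp A B h) p‖ ^ 2 / ‖ev h p‖ ^ 2) := ⟨_, rfl⟩
  have hg1m : Measurable g1 := by
    rw [hg1]
    have m1 := (hev A).measurable
    have m2 := (hev B).measurable
    show Measurable fun p : ℂ × ℂ => ENNReal.ofReal (2 * Λ) *
      ENNReal.ofReal ((‖ev A p‖ ^ 2 + ‖ev B p‖ ^ 2) / (‖p.1‖ ^ 2 + ‖p.2‖ ^ 2))
    fun_prop
  have hpt : ∀ p ∈ {p : ℂ × ℂ | p.1 ≠ 0 ∧ chart c p ∈ Metric.ball (0 : ℂ × ℂ) δ},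
      ENNReal.ofReal (‖p.1‖ ^ (2 * e)) * S.indicator F (chart c p) ≤
        T1.indicator g1 p + T2.indicator g2 p := by
    rintro p ⟨hp, hq⟩
    obtain ⟨b1, b2, b3⟩ := hg δ hδ' p hp hq
    by_cases hpS : chart c p ∈ S
    · rw [Set.indicator_of_mem hpS]
      have hN := norm_pos_iff.2 hp
      have hbh : ev (bl c h) (chart c p) = ev h p := by
        rw [MB_ev_bl, unchart_chart c p hp]
      have hr' : r < ‖p.1‖ * ‖ev h p‖ := by
        rw [hS] at hpS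
        have h5 : r < ‖ev (X 0 * bl c h) (chart c p)‖ := hpS
        rw [ev_mul, ev_X0, hbh, norm_mul] at h5
        exact h5
      have hhp := hH p b1
      have hh0 := norm_nonneg (ev h p)
      have c1 : r / H < ‖p.1‖ := by
        rw [div_lt_iff₀ hHpos]
        exact lt_of_lt_of_le hr' (mul_le_mul_of_nonneg_left hhp hN.le)
      have c2 : r < ‖ev h p‖ := by
        refine lt_of_lt_of_le hr' ?_
        calc ‖p.1‖ * ‖ev h p‖ ≤ 1 * ‖ev h p‖ := mul_le_mul_of_nonneg_right b2.le hh0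
          _ = ‖ev h p‖ := one_mul _
      have m1 : p ∈ T1 := by
        rw [hT1]
        refine ⟨b1, lt_of_lt_of_le c1 ?_⟩
        rw [Prod.norm_def]
        exact le_max_left _ _
      have m2 : p ∈ T2 := by
        rw [hT2]
        exact c2
      have hh : ev h p ≠ 0 := norm_pos_iff.1 (lt_trans hr c2)
      rw [Set.indicator_of_mem m1, Set.indicator_of_mem m2, hF, hg1, hg2]
      beta_reduce
      have hq1 : 0 ≤ nsq (vf A B p) / nsq p := div_nonneg (nsq_nonneg _) (nsq_nonneg _)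
      rw [← ENNReal.ofReal_mul (by positivity), ← ENNReal.ofReal_mul (by positivity),
        ← ENNReal.ofReal_mul (by positivity), ← ENNReal.ofReal_add (by positivity) (by positivity)]
      refine ENNReal.ofReal_le_ofReal ?_
      rw [← hΛ] at b3
      exact MB_log_pt hb hp hh b3
    · rw [Set.indicator_of_notMem hpS, mul_zero]
      exact zero_le
  have hrH : 0 < r / H := div_pos hr hHpos
  have hrH1 : r / H < 1 := by
    rw [div_lt_one hHpos]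
    linarith
  have hlog : Real.log (1 / (r / H)) = Real.log H + Real.log (1 / r) := by
    rw [one_div_div, Real.log_div hHpos.ne' hr.ne', one_div, Real.log_inv]
    ring
  calc ∫⁻ p in {p : ℂ × ℂ | p.1 ≠ 0 ∧ chart c p ∈ Metric.ball (0 : ℂ × ℂ) δ},
        ENNReal.ofReal (‖p.1‖ ^ (2 * e)) * S.indicator F (chart c p) ∂M
      ≤ ∫⁻ p in {p : ℂ × ℂ | p.1 ≠ 0 ∧ chart c p ∈ Metric.ball (0 : ℂ × ℂ) δ},
        (T1.indicator g1 p + T2.indicator g2 p) ∂M := setLIntegral_mono' (MB_D c δ) hpt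
    _ ≤ ∫⁻ p, (T1.indicator g1 p + T2.indicator g2 p) ∂M := setLIntegral_le_lintegral _ _
    _ = ENNReal.ofReal (2 * Λ) * (∫⁻ p in T1, ENNReal.ofReal (nsq (vf A B p) / nsq p) ∂M) +
        ENNReal.ofReal 2 *
          (∫⁻ p in T2, ENNReal.ofReal (‖ev (Zp A B h) p‖ ^ 2 / ‖ev h p‖ ^ 2) ∂M) := by
        rw [lintegral_add_left (hg1m.indicator hT1m), lintegral_indicator hT1m,
          lintegral_indicator hT2m, hg1, hg2, lintegral_const_mul' _ _ ENNReal.ofReal_ne_top,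
          lintegral_const_mul' _ _ ENNReal.ofReal_ne_top]
    _ ≤ ENNReal.ofReal (2 * Λ) * ENNReal.ofReal (K * (1 + Real.log (1 / (r / H)))) +
        ENNReal.ofReal 2 * ENNReal.ofReal (|K2| * (1 + Real.log (1 / r))) := by
        refine add_le_add (mul_le_mul_right ?_ _) (mul_le_mul_right ?_ _)
        · rw [hT1]
          exact hE (r / H) hrH hrH1
        · rw [hT2]
          refine (hK2 r hr hr1).trans (ENNReal.ofReal_le_ofReal ?_)
          exact mul_le_mul_of_nonneg_right (le_abs_self _) (by linarith)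
    _ = ENNReal.ofReal (2 * Λ * (K * (1 + Real.log (1 / (r / H)))) +
          2 * (|K2| * (1 + Real.log (1 / r)))) := by
        have i1 : 0 ≤ K * (1 + Real.log (1 / (r / H))) := by
          rw [hlog]
          positivity
        have i2 : 0 ≤ |K2| * (1 + Real.log (1 / r)) := by positivity
        rw [← ENNReal.ofReal_mul (by positivity), ← ENNReal.ofReal_mul (by positivity),
          ← ENNReal.ofReal_add (by positivity) (by positivity)]
    _ ≤ ENNReal.ofReal ((2 * Λ * (K * (1 + Real.log H)) + 2 * |K2|) *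
          (1 + Real.log (1 / r))) := by
        refine ENNReal.ofReal_le_ofReal ?_
        rw [hlog]
        have i1 : 1 + (Real.log H + Real.log (1 / r)) ≤
            (1 + Real.log H) * (1 + Real.log (1 / r)) := by
          have := mul_nonneg hlogH hL0
          nlinarith
        have i2 : 0 ≤ 2 * Λ * K := by positivity
        have i3 := mul_le_mul_of_nonneg_left i1 i2
        nlinarith

end FC76

end S_H76_FL_MB

section S_H76_FL_MC

/-!
# Row MC: invariance in the chart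

Let g be smooth with compact support in dom (X 0 * bl c h) δ.  Put G(p) := g(chart c p) if x ≠ 0, and 0 if x = 0.  tsupport g is a compact set K on which x ≠ 0; unchart c (K) is compact,
contained in dom h ρ, and G vanishes outside of it; G is smooth (near points of {x ≠ 0} composition with the analytic map chart; near other points outside the closed set unchart K it is 0).
 ∫ dW g(q)(Z~ q) d blM = ∫_{x ≠ 0, chart p in ball δ} ‖x‖^(2e) dW g(chart p)(Z~) dM (`integral_blM`) and by `blTo_field`, `dW_smul` and the chain rule for the holomorphic map chart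
 (D(g∘chart)(v) = Dg(Dchart v), Dchart complex linear, so dW (g∘chart) p v = dW g (chart p) (Dchart v)):
 x^e dW g(chart p)(Z~) = dW G p (Z p);  ‖x‖^(2e) = conj(x)^e x^e.  So the integrand is conj(x)^e dW G p (Z p) = dW (conj(x)^e G) p (Z p)
 (`dW_mul`; dW of conj(x)^e is the conjugate of dWb(x^e) = 0, `dW_conj`, `dW_holo`).  The function conj(x)^e G is smooth with compact support in dom h ρ: `inv` gives 0.
-/

open MvPolynomial MeasureTheory
open scoped ContDiff ComplexConjugate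

namespace FC76

theorem MC_chain {g : ℂ × ℂ → ℂ} {c : ℂ} {p : ℂ × ℂ} (hp : p.1 ≠ 0)
    (hg : DifferentiableAt ℝ g (chart c p)) (v : ℂ × ℂ) :
    dW (fun q => g (chart c q)) p v = dW g (chart c p) (fderiv ℂ (chart c) p v) := by
  have hch : DifferentiableAt ℂ (chart c) p := (chart_holo c p hp).differentiableAt
  have h1 : HasFDerivAt (chart c) ((fderiv ℂ (chart c) p).restrictScalars ℝ) p :=
    hch.hasFDerivAt.restrictScalars ℝ
  have h2 := (hg.hasFDerivAt.comp p h1).fderiv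
  have h3 : ∀ w, fderiv ℝ (fun q => g (chart c q)) p w = fderiv ℝ g (chart c p) (fderiv ℂ (chart c) p w) := by
    intro w
    exact congrArg (fun L : ℂ × ℂ →L[ℝ] ℂ => L w) h2
  unfold dW
  rw [h3, h3, map_smul]

theorem MC_monomial {G : ℂ × ℂ → ℂ} {p : ℂ × ℂ} (hG : DifferentiableAt ℝ G p) (e : ℕ) (v : ℂ × ℂ) :
    dW (fun q => conj (q.1 ^ e) * G q) p v = conj (p.1 ^ e) * dW G p v := by
  have h1 : DifferentiableAt ℂ (fun q : ℂ × ℂ => q.1 ^ e) p := differentiableAt_fst.pow e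
  have h2 : DifferentiableAt ℝ (fun q : ℂ × ℂ => conj (q.1 ^ e)) p :=
    Complex.conjCLE.differentiableAt.comp p (h1.restrictScalars ℝ)
  rw [dW_mul h2 hG, (dW_conj (fun q : ℂ × ℂ => q.1 ^ e) p v).1, (dW_holo h1 v).2, map_zero, mul_zero,
    add_zero]

theorem bl_inv {A B h A1 C1 : P2} {ρ : ℝ} {M : Measure (ℂ × ℂ)} (hI : Inv0 A B h ρ M) {c : ℂ} {e : ℕ}
    (hb : BlTo A B c e A1 C1) (δ : ℝ)
    (hδ : ∀ q ∈ Metric.ball (0 : ℂ × ℂ) δ, unchart c q ∈ Metric.ball (0 : ℂ × ℂ) ρ)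
    (g : ℂ × ℂ → ℂ) (hg : ContDiff ℝ ∞ g) (hc : HasCompactSupport g) (hs : tsupport g ⊆ dom (X 0 * bl c h) δ) :
    ∫ q, dW g q (vf A1 C1 q) ∂(blM c e δ M) = 0 := by
  classical
  have hcont : Continuous (unchart c) := by
    unfold unchart
    fun_prop
  have hKc : IsCompact (tsupport g) := hc
  have hK' : IsCompact (unchart c '' tsupport g) := hKc.image hcont
  have hne : ∀ q ∈ tsupport g, q.1 ≠ 0 ∧ ev h (unchart c q) ≠ 0 := by
    intro q hq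
    have h1 := (hs hq).2.1
    rw [MA_ev] at h1
    exact ⟨left_ne_zero_of_mul h1, right_ne_zero_of_mul h1⟩
  have hsub : unchart c '' tsupport g ⊆ dom h ρ := by
    rintro _ ⟨q, hq, rfl⟩
    refine ⟨hδ q (hs hq).1, (hne q hq).2, ?_⟩
    intro h0
    exact (hne q hq).1 (congrArg Prod.fst h0)
  have hne' : ∀ p ∈ unchart c '' tsupport g, p.1 ≠ 0 ∧ chart c p ∈ Metric.ball (0 : ℂ × ℂ) δ := by
    rintro _ ⟨q, hq, rfl⟩
    refine ⟨(hne q hq).1, ?_⟩
    rw [chart_unchart c q (hne q hq).1]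
    exact (hs hq).1
  let G : ℂ × ℂ → ℂ := fun p => if p.1 = 0 then 0 else g (chart c p)
  have hG0 : ∀ p, p ∉ unchart c '' tsupport g → G p = 0 := by
    intro p hp
    show (if p.1 = 0 then 0 else g (chart c p)) = 0
    split_ifs with h1
    · rfl
    · by_contra h2
      apply hp
      exact ⟨chart c p, subset_tsupport _ h2, unchart_chart c p h1⟩
  have hGev : ∀ p : ℂ × ℂ, p.1 ≠ 0 → G =ᶠ[nhds p] fun q => g (chart c q) := by
    intro p hp
    filter_upwards [continuous_fst.continuousAt.eventually_ne hp] with q hq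
    exact if_neg hq
  have hGs : ContDiff ℝ ∞ G := by
    rw [contDiff_iff_contDiffAt]
    intro p
    by_cases hp : p.1 = 0
    · have h1 : p ∉ unchart c '' tsupport g := fun h2 => (hne' p h2).1 hp
      have e1 : G =ᶠ[nhds p] fun _ => 0 := by
        filter_upwards [hK'.isClosed.isOpen_compl.mem_nhds h1] with q hq
        exact hG0 q hq
      exact contDiffAt_const.congr_of_eventuallyEq e1
    · have h1 : ContDiffAt ℝ ∞ (chart c) p :=
        ((chart_holo c p hp).contDiffAt (n := ∞)).restrict_scalars ℝ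
      exact (hg.contDiffAt.comp p h1).congr_of_eventuallyEq (hGev p hp)
  have hm : ContDiff ℝ ∞ (fun q : ℂ × ℂ => conj (q.1 ^ e)) :=
    Complex.conjCLE.contDiff.comp (contDiff_fst.pow e)
  have hF0 : ∀ p, p ∉ unchart c '' tsupport g → conj (p.1 ^ e) * G p = 0 := by
    intro p hp
    rw [hG0 p hp, mul_zero]
  have hFs : tsupport (fun q : ℂ × ℂ => conj (q.1 ^ e) * G q) ⊆ unchart c '' tsupport g := by
    apply closure_minimal _ hK'.isClosed
    intro q hq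
    by_contra hq2
    exact hq (hF0 q hq2)
  have hFc : HasCompactSupport (fun q : ℂ × ℂ => conj (q.1 ^ e) * G q) :=
    HasCompactSupport.intro hK' hF0
  have h1 := hI.inv (fun q : ℂ × ℂ => conj (q.1 ^ e) * G q) (hm.mul hGs) hFc (hFs.trans hsub)
  have h2 : ∫ p in {p : ℂ × ℂ | p.1 ≠ 0 ∧ chart c p ∈ Metric.ball (0 : ℂ × ℂ) δ},
      dW (fun q : ℂ × ℂ => conj (q.1 ^ e) * G q) p (vf A B p) ∂M =
      ∫ p, dW (fun q : ℂ × ℂ => conj (q.1 ^ e) * G q) p (vf A B p) ∂M := by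
    apply setIntegral_eq_integral_of_forall_compl_eq_zero
    intro p hp
    have h3 : p ∉ tsupport (fun q : ℂ × ℂ => conj (q.1 ^ e) * G q) := fun h4 => hp (hne' p (hFs h4))
    exact (LF_supp_dW h3 _).1
  rw [integral_blM c e δ M _ (LF_contDiff_dW hg A1 C1).1.continuous.stronglyMeasurable]
  refine Eq.trans ?_ (h2.trans h1)
  apply setIntegral_congr_fun (MA_measU c δ)
  intro p hp
  have hp0 : p.1 ≠ 0 := hp.1
  have hgd : DifferentiableAt ℝ g (chart c p) := hg.differentiable (by simp) _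
  have e3 : dW G p (vf A B p) = dW (fun q => g (chart c q)) p (vf A B p) := by
    unfold dW
    rw [(hGev p hp0).fderiv_eq]
  show ((‖p.1‖ ^ (2 * e) : ℝ) : ℂ) * dW g (chart c p) (vf A1 C1 (chart c p)) =
    dW (fun q : ℂ × ℂ => conj (q.1 ^ e) * G q) p (vf A B p)
  rw [MC_monomial (hGs.differentiable (by simp) p), e3, MC_chain hp0 hgd, blTo_field hb p hp0,
    (dW_smul _ _ _ _).1, ← mul_assoc, ← Complex.normSq_eq_conj_mul_self, Complex.normSq_eq_norm_sq,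
    norm_pow, ← pow_mul]
  congr 3
  ring

end FC76

end S_H76_FL_MC

section S_H76_FL_MD

/-!
# Row MD: the hypotheses are inherited by the blow-up, and the bound in one chart

1. `bl_Inv`: take δ0 smaller than those of `bl_fin`, `bl_log` and such that unchart c (ball δ0) is in ball ρ.  carried, locfin: `bl_carried_locfin`; fin: `bl_fin`; inv: `bl_inv`; log: `bl_log`;
   dd: `dd_of_inv` (ev (X 0 * bl c h) 0 = 0); dif: for γ holomorphic on pdisc R, unchart c ∘ γ is holomorphic, blM(γ '' pdisc R) <= (integral over the set of p with x ≠ 0, chart p in γ '' pdisc R,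
   i.e. p in (unchart c ∘ γ) '' pdisc R) of ‖x‖^(2e) dM = 0 because that set has M-measure 0 (`Measure.map_apply` needs measurability: γ '' pdisc R is sigma-compact hence measurable: pdisc R is a countable
   union of compact sets on which γ is continuous).
2. `bl_div`: div in the two charts: with p = unchart c q, x ≠ 0:
     ev (divp A B) p = x^e * ev (divp A1 C1) q + (e+1) * x^e * ev A1 q / x.
   From the polynomial identities bl c A = x^e A1 and bl c B = x^(e+1) C1 + (y + c) x^e A1, differentiating: pderiv 1 (bl c f) = X 0 * bl c (pderiv 1 f),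
   pderiv 0 (bl c f) = bl c (pderiv 0 f) + (X 1 + C c) * bl c (pderiv 1 f).
3. `chart_bound`: `bl_Inv` with δ0, GoodE A1 C1 applied to h1 = X 0 * bl c h gives ρ', C'.  δ := min δ0 ρ' (and <= 1).  On the set in question q = chart c p is in ball δ, r^2 < ‖x‖ ‖ev h p‖ = ‖ev h1 q‖, r^2 < r < ‖q‖,
   and ‖div Z‖^2 <= 2 ‖x‖^(2e) ‖div Z~‖^2 + 2 (e+1)^2 ‖A‖^2/‖x‖^2, the last term <= C nsq(Z)/nsq(p): integrate (`lintegral_blM`, `norm_energy`, with δ small so that p in ball ρ1).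
   log(1/r^2) = 2 log(1/r).
-/

open MvPolynomial MeasureTheory
open scoped ContDiff ComplexConjugate

namespace FC76

theorem MD_cont_unchart (c : ℂ) : Continuous (unchart c) := by
  unfold unchart
  fun_prop

theorem MD_unchart_zero (c : ℂ) : unchart c 0 = 0 := by
  simp [unchart]

theorem MD_ball (c : ℂ) {ρ : ℝ} (h : 0 < ρ) :
    ∃ δ : ℝ, 0 < δ ∧ ∀ q ∈ Metric.ball (0 : ℂ × ℂ) δ, unchart c q ∈ Metric.ball (0 : ℂ × ℂ) ρ := by
  have h1 : unchart c ⁻¹' Metric.ball 0 ρ ∈ nhds (0 : ℂ × ℂ) :=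
    (MD_cont_unchart c).continuousAt.preimage_mem_nhds
      (by rw [MD_unchart_zero]; exact Metric.ball_mem_nhds 0 h)
  obtain ⟨δ, hδ, h2⟩ := Metric.mem_nhds_iff.1 h1
  exact ⟨δ, hδ, fun q hq => h2 hq⟩

theorem MD_null {c : ℂ} {e : ℕ} {δ : ℝ} {M : Measure (ℂ × ℂ)} {s : Set (ℂ × ℂ)}
    (h : M (unchart c '' s) = 0) : blM c e δ M s = 0 := by
  obtain ⟨t, ht⟩ : ∃ t, t = toMeasurable M (unchart c '' s) := ⟨_, rfl⟩
  have ht1 : MeasurableSet t := by rw [ht]; exact measurableSet_toMeasurable _ _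
  have ht2 : M t = 0 := by rw [ht, measure_toMeasurable, h]
  have ht3 : unchart c '' s ⊆ t := by rw [ht]; exact subset_toMeasurable _ _
  have hu : MeasurableSet ({q : ℂ × ℂ | q.1 = 0} ∪ unchart c ⁻¹' t) := by
    refine MeasurableSet.union ?_ ((MD_cont_unchart c).measurable ht1)
    exact measurable_fst (measurableSet_singleton (0 : ℂ))
  have hsub : s ⊆ {q : ℂ × ℂ | q.1 = 0} ∪ unchart c ⁻¹' t := by
    intro q hq
    exact Or.inr (ht3 ⟨q, hq, rfl⟩)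
  refine measure_mono_null hsub ?_
  unfold blM
  refine le_antisymm ((Measure.restrict_apply_le _ _).trans ?_) zero_le
  rw [Measure.map_apply (measurable_chart c) hu]
  refine le_of_eq (withDensity_absolutelyContinuous _ _ ?_)
  have hm : MeasurableSet (chart c ⁻¹' ({q : ℂ × ℂ | q.1 = 0} ∪ unchart c ⁻¹' t)) :=
    measurable_chart c hu
  rw [Measure.restrict_apply hm]
  refine measure_mono_null ?_ ht2
  rintro p ⟨hp1, hp2⟩
  have hp2' : p.1 ≠ 0 := hp2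
  rcases hp1 with hp1 | hp1
  · exact absurd hp1 hp2'
  · have h1 : unchart c (chart c p) ∈ t := hp1
    rwa [unchart_chart c p hp2'] at h1

theorem bl_Inv {A B h A1 C1 : P2} {ρ : ℝ} {M : Measure (ℂ × ℂ)} (h0 : 0 < ρ) (hI : Inv A B h ρ M) {c : ℂ} {e : ℕ}
    (hb : BlTo A B c e A1 C1) :
    ∃ δ0 : ℝ, 0 < δ0 ∧ ∀ δ : ℝ, 0 < δ → δ ≤ δ0 → Inv A1 C1 (X 0 * bl c h) δ (blM c e δ M) := by
  obtain ⟨δ1, hδ1, k1⟩ := MD_ball c h0
  obtain ⟨δ2, hδ2, k2⟩ := bl_fin h0 hI hb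
  obtain ⟨δ3, hδ3, k3⟩ := bl_log h0 hI hb
  refine ⟨min δ1 (min δ2 δ3), lt_min hδ1 (lt_min hδ2 hδ3), ?_⟩
  intro δ hδ hle
  have l1 : δ ≤ δ1 := hle.trans (min_le_left _ _)
  have l2 : δ ≤ δ2 := hle.trans ((min_le_right _ _).trans (min_le_left _ _))
  have l3 : δ ≤ δ3 := hle.trans ((min_le_right _ _).trans (min_le_right _ _))
  have hδρ : ∀ q ∈ Metric.ball (0 : ℂ × ℂ) δ, unchart c q ∈ Metric.ball (0 : ℂ × ℂ) ρ :=
    fun q hq => k1 q (Metric.ball_subset_ball l1 hq)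
  obtain ⟨c1, c2⟩ := bl_carried_locfin hI.toInv0 c e δ hδρ
  have hI0 : Inv0 A1 C1 (X 0 * bl c h) δ (blM c e δ M) :=
    { carried := c1
      locfin := c2
      fin := k2 δ hδ l2
      inv := fun g hg hc hs => bl_inv hI.toInv0 hb δ hδρ g hg hc hs
      log := k3 δ hδ l3 }
  refine { toInv0 := hI0, dd := ?_, dif := ?_ }
  · intro G hG hc hs
    exact dd_of_inv hI0 (by rw [ev_mul, ev_X0]; simp) G hG hc hs
  · intro γ R hR hγ
    apply MD_null
    rw [← Set.image_comp]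
    refine hI.dif (unchart c ∘ γ) R hR ?_
    have hd : Differentiable ℂ (unchart c) := by
      unfold unchart
      fun_prop
    exact hd.comp_differentiableOn hγ

theorem MD_bl_C (c a : ℂ) : bl c (C a) = C a := by
  rw [← MvPolynomial.algebraMap_eq]
  exact AlgHom.commutes _ _

theorem MD_bl_X0 (c : ℂ) : bl c (X 0) = X 0 := by
  simp [bl]

theorem MD_bl_X1 (c : ℂ) : bl c (X 1) = X 0 * (X 1 + C c) := by
  simp [bl]

theorem MD_p1 (c : ℂ) (f : P2) : pderiv 1 (bl c f) = X 0 * bl c (pderiv 1 f) := by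
  induction f using MvPolynomial.induction_on with
  | C a => rw [MD_bl_C]; simp
  | add f g hf hg => rw [map_add, map_add, hf, hg, map_add, map_add]; ring
  | mul_X f i hf =>
    rw [map_mul, pderiv_mul, pderiv_mul, hf, map_add, map_mul, map_mul]
    fin_cases i
    · change X 0 * bl c (pderiv 1 f) * bl c (X 0) + bl c f * pderiv 1 (bl c (X 0)) =
        X 0 * (bl c (pderiv 1 f) * bl c (X 0) + bl c f * bl c (pderiv 1 (X 0)))
      rw [MD_bl_X0, pderiv_X_of_ne (by decide), map_zero]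
      ring
    · change X 0 * bl c (pderiv 1 f) * bl c (X 1) + bl c f * pderiv 1 (bl c (X 1)) =
        X 0 * (bl c (pderiv 1 f) * bl c (X 1) + bl c f * bl c (pderiv 1 (X 1)))
      rw [MD_bl_X1, pderiv_mul, map_add, pderiv_C, pderiv_X_self, pderiv_X_of_ne (by decide), map_one]
      ring

theorem MD_p0 (c : ℂ) (f : P2) :
    pderiv 0 (bl c f) = bl c (pderiv 0 f) + (X 1 + C c) * bl c (pderiv 1 f) := by
  induction f using MvPolynomial.induction_on with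
  | C a => rw [MD_bl_C]; simp
  | add f g hf hg => rw [map_add, map_add, hf, hg, map_add, map_add, map_add, map_add]; ring
  | mul_X f i hf =>
    rw [map_mul, pderiv_mul, pderiv_mul, pderiv_mul, hf, map_add, map_mul, map_mul, map_add, map_mul,
      map_mul]
    fin_cases i
    · change (bl c (pderiv 0 f) + (X 1 + C c) * bl c (pderiv 1 f)) * bl c (X 0) +
        bl c f * pderiv 0 (bl c (X 0)) =
        bl c (pderiv 0 f) * bl c (X 0) + bl c f * bl c (pderiv 0 (X 0)) +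
        (X 1 + C c) * (bl c (pderiv 1 f) * bl c (X 0) + bl c f * bl c (pderiv 1 (X 0)))
      rw [MD_bl_X0, pderiv_X_self, pderiv_X_of_ne (by decide : (0 : Fin 2) ≠ 1), map_zero, map_one]
      ring
    · change (bl c (pderiv 0 f) + (X 1 + C c) * bl c (pderiv 1 f)) * bl c (X 1) +
        bl c f * pderiv 0 (bl c (X 1)) =
        bl c (pderiv 0 f) * bl c (X 1) + bl c f * bl c (pderiv 0 (X 1)) +
        (X 1 + C c) * (bl c (pderiv 1 f) * bl c (X 1) + bl c f * bl c (pderiv 1 (X 1)))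
      rw [MD_bl_X1, pderiv_mul, map_add, pderiv_C, pderiv_X_self, pderiv_X_self,
        pderiv_X_of_ne (by decide : (1 : Fin 2) ≠ 0), map_one, map_zero]
      ring

theorem bl_div {A B A1 C1 : P2} {c : ℂ} {e : ℕ} (hb : BlTo A B c e A1 C1) (q : ℂ × ℂ) (hq : q.1 ≠ 0) :
    ev (divp A B) (unchart c q) = q.1 ^ e * ev (divp A1 C1) q + (e + 1) * (q.1 ^ e * ev A1 q / q.1) := by
  obtain ⟨h1, h2⟩ := hb
  have hu : ∀ f : P2, ev (bl c f) q = ev f (unchart c q) := fun f => ev_bl c f q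
  have d1 : ev (pderiv 0 (X 0 ^ e * A1)) q = ev (pderiv 0 (bl c A)) q := by rw [h1]
  have d2 : ev (pderiv 1 (X 0 ^ (e + 1) * C1)) q =
      ev (pderiv 1 (bl c B - (X 1 + C c) * bl c A)) q := by rw [h2]
  have e0 : ev (bl c A) q = q.1 ^ e * ev A1 q := by rw [← h1, ev_mul, ev_pow, ev_X0]
  rw [pderiv_mul, pderiv_pow, MD_p0, pderiv_X_self] at d1
  rw [pderiv_mul, pderiv_pow, map_sub, pderiv_mul, MD_p1, MD_p1, map_add, pderiv_C, pderiv_X_self,
    pderiv_X_of_ne (by decide : (0 : Fin 2) ≠ 1)] at d2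
  simp only [ev_add, ev_sub, ev_mul, ev_pow, ev_X0, ev_X1, ev_C, hu, mul_zero, zero_mul, zero_add,
    add_zero, mul_one] at d1 d2
  have hone : ev (1 : P2) q = 1 := by
    have := ev_C 1 q
    rwa [C_1] at this
  have hnat : ev ((e : ℕ) : P2) q = e := by
    unfold ev
    exact map_natCast _ _
  rw [hone] at d2
  rw [hnat] at d1
  rw [hu] at e0
  unfold divp
  rw [ev_add, ev_add]
  have e3 : q.1 * ((e : ℂ) * q.1 ^ (e - 1)) = e * q.1 ^ e := by
    rcases e with _ | e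
    · simp
    · rw [Nat.add_sub_cancel, pow_succ]; ring
  apply mul_left_cancel₀ hq
  have e4 : q.1 * (q.1 ^ e * (ev (pderiv 0 A1) q + ev (pderiv 1 C1) q) +
      (↑e + 1) * (q.1 ^ e * ev A1 q / q.1)) =
      q.1 ^ (e + 1) * (ev (pderiv 0 A1) q + ev (pderiv 1 C1) q) + (↑e + 1) * (q.1 ^ e * ev A1 q) := by
    field_simp
    ring
  rw [e4]
  linear_combination (-q.1) * d1 - d2 + e0 + ev A1 q * e3

theorem MD_log {r : ℝ} (hr : 0 < r) (hr1 : r < 1) : 0 ≤ Real.log (1 / r) :=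
  Real.log_nonneg (by rw [le_div_iff₀ hr]; linarith)

theorem chart_bound {A B h A1 C1 : P2} {ρ : ℝ} {M : Measure (ℂ × ℂ)} (h0 : 0 < ρ) (hI : Inv A B h ρ M) {c : ℂ} {e : ℕ}
    (hb : BlTo A B c e A1 C1) (hG : GoodE A1 C1) :
    ∃ δ : ℝ, 0 < δ ∧ ∃ C : ℝ, 0 ≤ C ∧ ∀ r : ℝ, 0 < r → r < 1 →
      ∫⁻ p in {p : ℂ × ℂ | 0 < ‖p.1‖ ∧ ‖p.1‖ < δ ∧ ‖p.2 / p.1 - c‖ < δ ∧ r < ‖ev h p‖ ∧ r < ‖p.1‖},
        ENNReal.ofReal (‖ev (divp A B) p‖ ^ 2) ∂M ≤ ENNReal.ofReal (C * (1 + Real.log (1 / r))) := by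
  obtain ⟨δ0, hδ0, hInv⟩ := bl_Inv h0 hI hb
  obtain ⟨ρ', hρ', C', hC'⟩ := hG (X 0 * bl c h) δ0 (blM c e δ0 M) hδ0 (dvd_mul_right _ _)
    (hInv δ0 hδ0 le_rfl)
  obtain ⟨ρ1, hρ1, -, C1', hC1', hn, -⟩ := norm_energy h0 hI
  obtain ⟨δ2, hδ2, hδ2'⟩ := MD_ball c hρ1
  obtain ⟨δ, hδ⟩ : ∃ δ : ℝ, δ = min (min δ0 ρ') (min 1 δ2) := ⟨_, rfl⟩
  have hδpos : 0 < δ := by rw [hδ]; exact lt_min (lt_min hδ0 hρ') (lt_min one_pos hδ2)
  have hle0 : δ ≤ δ0 := by rw [hδ]; exact (min_le_left _ _).trans (min_le_left _ _)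
  have hleρ : δ ≤ ρ' := by rw [hδ]; exact (min_le_left _ _).trans (min_le_right _ _)
  have hle1 : δ ≤ 1 := by rw [hδ]; exact (min_le_right _ _).trans (min_le_left _ _)
  have hle2 : δ ≤ δ2 := by rw [hδ]; exact (min_le_right _ _).trans (min_le_right _ _)
  obtain ⟨K, hK⟩ : ∃ K : ℝ, K = 2 * ((e : ℝ) + 1) ^ 2 * (1 + (‖c‖ + 1) ^ 2) := ⟨_, rfl⟩
  have hK0 : 0 ≤ K := by rw [hK]; positivity
  refine ⟨δ, hδpos, 4 * |C'| + K * C1', by positivity, ?_⟩
  intro r hr hr1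
  have hL := MD_log hr hr1
  have hr2 : 0 < r ^ 2 := by positivity
  have hr2r : r ^ 2 < r := by nlinarith
  obtain ⟨T, hT⟩ : ∃ T : Set (ℂ × ℂ), T = {q | q ∈ Metric.ball (0 : ℂ × ℂ) ρ' ∧
    r ^ 2 < ‖ev (X 0 * bl c h) q‖ ∧ r ^ 2 < ‖q‖} := ⟨_, rfl⟩
  have hTm : MeasurableSet T := by
    rw [hT]
    refine (Metric.isOpen_ball.measurableSet).inter (MeasurableSet.inter ?_ ?_)
    · exact (isOpen_lt continuous_const ((contDiff_real_ev _).continuous.norm)).measurableSet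
    · exact (isOpen_lt continuous_const continuous_norm).measurableSet
  obtain ⟨F, hF⟩ : ∃ F : ℂ × ℂ → ENNReal, F = T.indicator
    (fun q => ENNReal.ofReal (‖ev (divp A1 C1) q‖ ^ 2)) := ⟨_, rfl⟩
  have hFm : Measurable F := by
    rw [hF]
    refine Measurable.indicator ?_ hTm
    exact (((contDiff_real_ev (divp A1 C1)).continuous.norm).pow 2).measurable.ennreal_ofReal
  obtain ⟨D, hD⟩ : ∃ D : Set (ℂ × ℂ), D = {p : ℂ × ℂ | 0 < ‖p.1‖ ∧ ‖p.1‖ < δ ∧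
    ‖p.2 / p.1 - c‖ < δ ∧ r < ‖ev h p‖ ∧ r < ‖p.1‖} := ⟨_, rfl⟩
  have hDm : MeasurableSet D := by
    rw [hD]
    have m1 : Measurable fun p : ℂ × ℂ => ‖p.1‖ := measurable_fst.norm
    have m2 : Measurable fun p : ℂ × ℂ => ‖p.2 / p.1 - c‖ :=
      ((measurable_snd.div measurable_fst).sub_const c).norm
    have m3 : Measurable fun p : ℂ × ℂ => ‖ev h p‖ := (contDiff_real_ev h).continuous.norm.measurable
    exact (measurableSet_lt measurable_const m1).inter ((measurableSet_lt m1 measurable_const).inter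
      ((measurableSet_lt m2 measurable_const).inter ((measurableSet_lt measurable_const m3).inter
        (measurableSet_lt measurable_const m1))))
  -- facts on D
  have hch : ∀ p ∈ D, p.1 ≠ 0 ∧ chart c p ∈ Metric.ball (0 : ℂ × ℂ) δ := by
    intro p hp
    rw [hD] at hp
    obtain ⟨a1, a2, a3, -, -⟩ := hp
    refine ⟨norm_pos_iff.1 a1, ?_⟩
    rw [mem_ball_zero_iff, Prod.norm_def]
    exact max_lt a2 a3
  have hpt : ∀ p ∈ D, ENNReal.ofReal (‖ev (divp A B) p‖ ^ 2) ≤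
      2 * (ENNReal.ofReal (‖p.1‖ ^ (2 * e)) * F (chart c p)) +
        ENNReal.ofReal K * ENNReal.ofReal (nsq (vf A B p) / nsq p) := by
    intro p hp
    obtain ⟨b1, b2⟩ := hch p hp
    have hp' := hp
    rw [hD] at hp'
    obtain ⟨a1, a2, a3, a4, a5⟩ := hp'
    have hun := unchart_chart c p b1
    have hq1 : (chart c p).1 = p.1 := rfl
    have hqT : chart c p ∈ T := by
      rw [hT]
      refine ⟨Metric.ball_subset_ball hleρ b2, ?_, ?_⟩
      · rw [ev_mul, ev_X0, ev_bl, norm_mul]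
        change r ^ 2 < ‖p.1‖ * ‖ev h (unchart c (chart c p))‖
        rw [hun]
        nlinarith
      · have h1 : ‖p.1‖ ≤ ‖chart c p‖ := norm_fst_le (chart c p)
        linarith
    have hFq : F (chart c p) = ENNReal.ofReal (‖ev (divp A1 C1) (chart c p)‖ ^ 2) := by
      rw [hF, Set.indicator_of_mem hqT]
    have hdiv := bl_div hb (chart c p) b1
    have hA := (blTo_ev hb (chart c p)).1
    rw [hA, hun, hq1] at hdiv
    rw [hFq]
    -- the real inequality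
    have hy : ‖p.2‖ ≤ (‖c‖ + 1) * ‖p.1‖ := by
      have h1 : ‖p.2 / p.1‖ ≤ ‖c‖ + 1 := by
        have h2 : ‖p.2 / p.1‖ ≤ ‖p.2 / p.1 - c‖ + ‖c‖ := by
          have := norm_add_le (p.2 / p.1 - c) c
          rwa [sub_add_cancel] at this
        linarith
      rw [norm_div, div_le_iff₀ a1] at h1
      exact h1
    have hns : nsq p ≤ (1 + (‖c‖ + 1) ^ 2) * ‖p.1‖ ^ 2 := by
      unfold nsq
      have h1 : ‖p.2‖ ^ 2 ≤ ((‖c‖ + 1) * ‖p.1‖) ^ 2 := pow_le_pow_left₀ (norm_nonneg _) hy 2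
      nlinarith
    have hns0 : 0 < nsq p := by
      unfold nsq
      positivity
    have hZ : ‖ev A p‖ ^ 2 ≤ nsq (vf A B p) := by
      change ‖ev A p‖ ^ 2 ≤ ‖ev A p‖ ^ 2 + ‖ev B p‖ ^ 2
      nlinarith [sq_nonneg ‖ev B p‖]
    have hfrac : ‖ev A p‖ ^ 2 / ‖p.1‖ ^ 2 ≤ (1 + (‖c‖ + 1) ^ 2) * (nsq (vf A B p) / nsq p) := by
      rw [div_le_iff₀ (by positivity), mul_div_assoc', div_mul_eq_mul_div, le_div_iff₀ hns0]
      calc ‖ev A p‖ ^ 2 * nsq p ≤ nsq (vf A B p) * ((1 + (‖c‖ + 1) ^ 2) * ‖p.1‖ ^ 2) :=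
            mul_le_mul hZ hns hns0.le (nsq_nonneg _)
        _ = (1 + (‖c‖ + 1) ^ 2) * nsq (vf A B p) * ‖p.1‖ ^ 2 := by ring
    have hreal : ‖ev (divp A B) p‖ ^ 2 ≤ 2 * (‖p.1‖ ^ (2 * e) * ‖ev (divp A1 C1) (chart c p)‖ ^ 2) +
        K * (nsq (vf A B p) / nsq p) := by
      have h1 : ‖ev (divp A B) p‖ ≤ ‖p.1‖ ^ e * ‖ev (divp A1 C1) (chart c p)‖ +
          ((e : ℝ) + 1) * (‖ev A p‖ / ‖p.1‖) := by
        rw [hdiv]
        refine (norm_add_le _ _).trans ?_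
        rw [norm_mul, norm_pow, norm_mul, norm_div]
        have h2 : ‖((e : ℂ) + 1)‖ = (e : ℝ) + 1 := by
          have h3 : ((e : ℂ) + 1) = ((e + 1 : ℕ) : ℂ) := by push_cast; ring
          rw [h3, Complex.norm_natCast]
          push_cast
          ring
        rw [h2]
      obtain ⟨u, hu⟩ : ∃ u, u = ‖p.1‖ ^ e * ‖ev (divp A1 C1) (chart c p)‖ := ⟨_, rfl⟩
      obtain ⟨w, hw⟩ : ∃ w, w = ((e : ℝ) + 1) * (‖ev A p‖ / ‖p.1‖) := ⟨_, rfl⟩
      have h4 : ‖ev (divp A B) p‖ ^ 2 ≤ (u + w) ^ 2 := by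
        rw [hu, hw]
        exact pow_le_pow_left₀ (norm_nonneg _) h1 2
      have h5 : u ^ 2 = ‖p.1‖ ^ (2 * e) * ‖ev (divp A1 C1) (chart c p)‖ ^ 2 := by
        rw [hu, mul_pow, ← pow_mul, mul_comm e 2]
      have h6 : 2 * w ^ 2 ≤ K * (nsq (vf A B p) / nsq p) := by
        rw [hw, mul_pow, div_pow, hK]
        have h7 : 0 ≤ 2 * ((e : ℝ) + 1) ^ 2 := by positivity
        have h8 := mul_le_mul_of_nonneg_left hfrac h7
        calc 2 * (((e : ℝ) + 1) ^ 2 * (‖ev A p‖ ^ 2 / ‖p.1‖ ^ 2)) =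
              2 * ((e : ℝ) + 1) ^ 2 * (‖ev A p‖ ^ 2 / ‖p.1‖ ^ 2) := by ring
          _ ≤ _ := h8
          _ = _ := by ring
      rw [← h5]
      nlinarith [sq_nonneg (u - w)]
    refine (ENNReal.ofReal_le_ofReal hreal).trans ?_
    rw [ENNReal.ofReal_add (by positivity) (mul_nonneg hK0 (div_nonneg (nsq_nonneg _) hns0.le)),
      ENNReal.ofReal_mul (by norm_num), ENNReal.ofReal_mul (by positivity), ENNReal.ofReal_mul hK0,
      ENNReal.ofReal_ofNat]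
  have hDsub1 : D ⊆ {p : ℂ × ℂ | p.1 ≠ 0 ∧ chart c p ∈ Metric.ball (0 : ℂ × ℂ) δ0} := by
    intro p hp
    obtain ⟨b1, b2⟩ := hch p hp
    exact ⟨b1, Metric.ball_subset_ball hle0 b2⟩
  have hDsub2 : D ⊆ {p : ℂ × ℂ | p ∈ Metric.ball (0 : ℂ × ℂ) ρ1 ∧ r < ‖p‖} := by
    intro p hp
    obtain ⟨b1, b2⟩ := hch p hp
    refine ⟨?_, ?_⟩
    · have h1 := hδ2' (chart c p) (Metric.ball_subset_ball hle2 b2)
      rwa [unchart_chart c p b1] at h1
    · rw [hD] at hp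
      exact lt_of_lt_of_le hp.2.2.2.2 (norm_fst_le p)
  have hgm : Measurable fun p : ℂ × ℂ => ENNReal.ofReal (‖p.1‖ ^ (2 * e)) * F (chart c p) :=
    ((measurable_fst.norm.pow_const (2 * e)).ennreal_ofReal).mul (hFm.comp (measurable_chart c))
  have hlog : Real.log (1 / r ^ 2) = 2 * Real.log (1 / r) := by
    have h1 : (1 : ℝ) / r ^ 2 = (1 / r) ^ 2 := by rw [div_pow, one_pow]
    rw [h1, Real.log_pow]
    norm_num
  have hr2' : r ^ 2 < 1 := by nlinarith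
  have hE := hC' (r ^ 2) hr2 hr2'
  rw [← hT] at hE
  have hN := hn r hr hr1
  rw [← hD]
  calc ∫⁻ p in D, ENNReal.ofReal (‖ev (divp A B) p‖ ^ 2) ∂M
      ≤ ∫⁻ p in D, (2 * (ENNReal.ofReal (‖p.1‖ ^ (2 * e)) * F (chart c p)) +
        ENNReal.ofReal K * ENNReal.ofReal (nsq (vf A B p) / nsq p)) ∂M :=
        setLIntegral_mono' hDm hpt
    _ = ∫⁻ p in D, 2 * (ENNReal.ofReal (‖p.1‖ ^ (2 * e)) * F (chart c p)) ∂M +
        ∫⁻ p in D, ENNReal.ofReal K * ENNReal.ofReal (nsq (vf A B p) / nsq p) ∂M :=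
        lintegral_add_left (hgm.const_mul 2) _
    _ = 2 * ∫⁻ p in D, ENNReal.ofReal (‖p.1‖ ^ (2 * e)) * F (chart c p) ∂M +
        ENNReal.ofReal K * ∫⁻ p in D, ENNReal.ofReal (nsq (vf A B p) / nsq p) ∂M := by
        rw [lintegral_const_mul _ hgm, lintegral_const_mul' _ _ ENNReal.ofReal_ne_top]
    _ ≤ 2 * ∫⁻ p in {p : ℂ × ℂ | p.1 ≠ 0 ∧ chart c p ∈ Metric.ball (0 : ℂ × ℂ) δ0},
          ENNReal.ofReal (‖p.1‖ ^ (2 * e)) * F (chart c p) ∂M +
        ENNReal.ofReal K * ∫⁻ p in {p : ℂ × ℂ | p ∈ Metric.ball (0 : ℂ × ℂ) ρ1 ∧ r < ‖p‖},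
          ENNReal.ofReal (nsq (vf A B p) / nsq p) ∂M := by
        refine add_le_add ?_ ?_
        · exact mul_le_mul_right (lintegral_mono_set hDsub1) _
        · exact mul_le_mul_right (lintegral_mono_set hDsub2) _
    _ = 2 * ∫⁻ q in T, ENNReal.ofReal (‖ev (divp A1 C1) q‖ ^ 2) ∂(blM c e δ0 M) +
        ENNReal.ofReal K * ∫⁻ p in {p : ℂ × ℂ | p ∈ Metric.ball (0 : ℂ × ℂ) ρ1 ∧ r < ‖p‖},
          ENNReal.ofReal (nsq (vf A B p) / nsq p) ∂M := by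
        rw [← lintegral_blM c e δ0 M F hFm, hF, lintegral_indicator hTm]
    _ ≤ 2 * ENNReal.ofReal (C' * (1 + Real.log (1 / r ^ 2))) +
        ENNReal.ofReal K * ENNReal.ofReal (C1' * (1 + Real.log (1 / r))) := by
        refine add_le_add ?_ ?_
        · exact mul_le_mul_right hE _
        · exact mul_le_mul_right hN _
    _ ≤ ENNReal.ofReal ((4 * |C'| + K * C1') * (1 + Real.log (1 / r))) := by
        rw [hlog, ← ENNReal.ofReal_mul hK0]
        have h1 : (2 : ENNReal) * ENNReal.ofReal (C' * (1 + 2 * Real.log (1 / r))) ≤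
            ENNReal.ofReal (4 * |C'| * (1 + Real.log (1 / r))) := by
          rw [← ENNReal.ofReal_ofNat 2, ← ENNReal.ofReal_mul (by norm_num)]
          refine ENNReal.ofReal_le_ofReal ?_
          have h2 : C' * (1 + 2 * Real.log (1 / r)) ≤ |C'| * (1 + 2 * Real.log (1 / r)) :=
            mul_le_mul_of_nonneg_right (le_abs_self _) (by linarith)
          have h3 : 0 ≤ |C'| := abs_nonneg _
          nlinarith
        refine (add_le_add_left h1 _).trans ?_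
        rw [← ENNReal.ofReal_add (by positivity) (by positivity)]
        refine ENNReal.ofReal_le_ofReal (le_of_eq ?_)
        ring

end FC76

end S_H76_FL_MD

section S_H76_FL_LJ

/-!
# Row LJ: isolated leading jets are good; elementary closure properties

`good_of_LJ`.  Let k, A, B in mI^k with the homogeneous components A_k, B_k without common zero ≠ 0.
 * k = 0: (A(0),B(0)) ≠ 0, so nsq Z >= c > 0 on a small ball and ‖div‖^2 <= C <= (C/c) nsq Z: the bound follows from `fin`.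
 * k >= 1: on the compact sphere {nsq p = 1} (or ‖p‖ = 1) |A_k|^2+|B_k|^2 >= c; by homogeneity |A_k(p)|^2+|B_k(p)|^2 >= c' ‖p‖^(2k); A - A_k, B - B_k are O(‖p‖^(k+1)) near 0;
   so nsq(Z p) >= c'' ‖p‖^(2k) on a small ball.  A, B in mI^k imply pderiv in mI^(k-1), so ‖div p‖ <= C ‖p‖^(k-1).  Hence for p ≠ 0: ‖div‖^2 <= C ‖p‖^(2k-2) <= C' nsq(Z)/nsq(p)
   and `norm_energy` gives EBound (with ρ' = min of the radii); the region {r < ‖h‖, r < ‖p‖} is contained in {r < ‖p‖}.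
   (Useful: |ev f p| <= C_f ‖p‖^k for f in mI^k and ‖p‖ <= 1, by expanding f in monomials.)
`good_toE`: trivial.
`good_swap`: given Inv (sw B) (sw A) h ρ M, the measure M' := M.map Prod.swap satisfies Inv A B (sw h) ρ M' (change of variables; ev (sw f) p = ev f p.swap; the norm of ℂ × ℂ, nsq, and
 DifferentiableOn are invariant under swap; Zp A B (sw h) = sw (Zp (sw B) (sw A) h) because pderiv 0 (sw h) = sw (pderiv 1 h)), and divp (sw B) (sw A) = sw (divp A B); EBound transfers back.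
-/

open MvPolynomial MeasureTheory
open scoped ContDiff ComplexConjugate

namespace FC76

theorem LJ_evm (a b : ℕ) (c : ℂ) (p : ℂ × ℂ) :
    ev (C c * X 0 ^ a * X 1 ^ b : P2) p = c * p.1 ^ a * p.2 ^ b := by
  simp [ev]

theorem LJ_ev_add (f g : P2) (p : ℂ × ℂ) : ev (f + g) p = ev f p + ev g p := by
  simp [ev]

theorem LJ_ev_sub (f g : P2) (p : ℂ × ℂ) : ev (f - g) p = ev f p - ev g p := by
  simp [ev]

theorem LJ_ev_mul (f g : P2) (p : ℂ × ℂ) : ev (f * g) p = ev f p * ev g p := by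
  simp [ev]

theorem LJ_cont (f : P2) : Continuous (ev f) := by
  unfold ev
  refine (MvPolynomial.continuous_eval f).comp ?_
  refine continuous_pi fun i => ?_
  fin_cases i
  · exact continuous_fst
  · exact continuous_snd

/-- size of polynomials vanishing to order k -/
theorem ev_bound_of_mem (f : P2) (k : ℕ) (hf : f ∈ mI ^ k) :
    ∃ C : ℝ, 0 ≤ C ∧ ∀ p : ℂ × ℂ, ‖p‖ ≤ 1 → ‖ev f p‖ ≤ C * ‖p‖ ^ k := by
  rw [DB_mem] at hf
  refine ⟨∑ u ∈ f.support, ‖coeff u f‖, Finset.sum_nonneg fun _ _ => norm_nonneg _, fun p hp => ?_⟩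
  have h1 : ev f p = ∑ u ∈ f.support, coeff u f * p.1 ^ (u 0) * p.2 ^ (u 1) := by
    have h2 : ev f p = ev (∑ u ∈ f.support, C (coeff u f) * X 0 ^ (u 0) * X 1 ^ (u 1)) p := by
      rw [← DB_as_sum f]
    rw [h2]
    simp [ev]
  rw [h1, Finset.sum_mul]
  refine (norm_sum_le _ _).trans (Finset.sum_le_sum fun u hu => ?_)
  rw [norm_mul, norm_mul, norm_pow, norm_pow, mul_assoc]
  refine mul_le_mul_of_nonneg_left ?_ (norm_nonneg _)
  have hk : k ≤ u 0 + u 1 := by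
    by_contra hlt
    have h3 := hf (u 0) (u 1) (by omega)
    have h4 : coeff u f ≠ 0 := mem_support_iff.1 hu
    apply h4
    unfold cf at h3
    rwa [← DB_u u] at h3
  have h5 : ‖p.1‖ ≤ ‖p‖ := norm_fst_le p
  have h6 : ‖p.2‖ ≤ ‖p‖ := norm_snd_le p
  calc ‖p.1‖ ^ (u 0) * ‖p.2‖ ^ (u 1) ≤ ‖p‖ ^ (u 0) * ‖p‖ ^ (u 1) :=
        mul_le_mul (pow_le_pow_left₀ (norm_nonneg _) h5 _) (pow_le_pow_left₀ (norm_nonneg _) h6 _)
          (by positivity) (by positivity)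
    _ = ‖p‖ ^ (u 0 + u 1) := (pow_add _ _ _).symm
    _ ≤ ‖p‖ ^ k := pow_le_pow_of_le_one (norm_nonneg _) hp hk

theorem LJ_hom (f : P2) (k : ℕ) (hf : f ∈ mI ^ k) :
    f - homogeneousComponent k f ∈ mI ^ (k + 1) := by
  rw [DB_mem] at hf ⊢
  intro i j hij
  have h1 : cf i j (homogeneousComponent k f) = if i + j = k then cf i j f else 0 := by
    unfold cf
    rw [coeff_homogeneousComponent]
    have h2 : (Finsupp.single (0 : Fin 2) i + Finsupp.single 1 j).degree = i + j := by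
      rw [map_add, Finsupp.degree_single, Finsupp.degree_single]
    rw [h2]
  have h3 : cf i j (f - homogeneousComponent k f) = cf i j f - cf i j (homogeneousComponent k f) := by
    unfold cf
    rw [coeff_sub]
  rw [h3, h1]
  split_ifs with h4
  · rw [sub_self]
  · rw [hf i j (by omega), sub_self]

theorem LJ_scal (f : P2) (k : ℕ) (t : ℝ) (p : ℂ × ℂ) :
    ev (homogeneousComponent k f) (t • p) = (t : ℂ) ^ k * ev (homogeneousComponent k f) p := by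
  have h1 : (homogeneousComponent k f).IsHomogeneous k := homogeneousComponent_isHomogeneous k f
  unfold ev
  have h2 : (![(t • p).1, (t • p).2] : Fin 2 → ℂ) = (t : ℂ) • ![p.1, p.2] := by
    funext i
    fin_cases i <;> simp
  rw [h2, eval_eq', eval_eq', Finset.mul_sum]
  refine Finset.sum_congr rfl fun d hd => ?_
  have h3 : d 0 + d 1 = k := by
    have h4 := h1 (mem_support_iff.1 hd)
    rw [← h4, Finsupp.weight_apply, Finsupp.sum_fintype _ _ (fun _ => by simp), Fin.sum_univ_two]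
    simp
  rw [Fin.prod_univ_two, Fin.prod_univ_two, ← h3]
  simp only [Pi.smul_apply, smul_eq_mul, mul_pow, pow_add]
  ring

/-- lower bound for an isolated leading jet -/
theorem LJ_lower (A B : P2) (k : ℕ) (hA : A ∈ mI ^ k) (hB : B ∈ mI ^ k)
    (h : ∀ p : Fin 2 → ℂ, eval p (homogeneousComponent k A) = 0 → eval p (homogeneousComponent k B) = 0 → p = 0) :
    ∃ c ρ : ℝ, 0 < c ∧ 0 < ρ ∧ ∀ p : ℂ × ℂ, ‖p‖ ≤ ρ → c * ‖p‖ ^ (2 * k) ≤ nsq (vf A B p) := by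
  set a := homogeneousComponent k A with ha
  set b := homogeneousComponent k B with hb
  obtain ⟨CA, hCA0, hCA⟩ := ev_bound_of_mem _ _ (LJ_hom A k hA)
  obtain ⟨CB, hCB0, hCB⟩ := ev_bound_of_mem _ _ (LJ_hom B k hB)
  have hcont : Continuous fun p : ℂ × ℂ => ‖ev a p‖ ^ 2 + ‖ev b p‖ ^ 2 :=
    ((LJ_cont a).norm.pow 2).add ((LJ_cont b).norm.pow 2)
  have hne : (Metric.sphere (0 : ℂ × ℂ) 1).Nonempty := ⟨(1, 0), by simp [Prod.norm_def]⟩
  obtain ⟨u0, hu0, hmin⟩ := (isCompact_sphere (0 : ℂ × ℂ) 1).exists_isMinOn hne hcont.continuousOn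
  have hpos : 0 < ‖ev a u0‖ ^ 2 + ‖ev b u0‖ ^ 2 := by
    rcases (add_nonneg (sq_nonneg ‖ev a u0‖) (sq_nonneg ‖ev b u0‖)).lt_or_eq with h1 | h1
    · exact h1
    · exfalso
      have h2 : ‖ev a u0‖ ^ 2 = 0 := by nlinarith [sq_nonneg ‖ev a u0‖, sq_nonneg ‖ev b u0‖]
      have h3 : ‖ev b u0‖ ^ 2 = 0 := by nlinarith [sq_nonneg ‖ev a u0‖, sq_nonneg ‖ev b u0‖]
      have h4 : ev a u0 = 0 := norm_eq_zero.1 (pow_eq_zero_iff two_ne_zero |>.1 h2)
      have h5 : ev b u0 = 0 := norm_eq_zero.1 (pow_eq_zero_iff two_ne_zero |>.1 h3)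
      have h6 := h _ h4 h5
      have h7 : u0 = 0 := by
        have e0 := congrFun h6 0
        have e1 := congrFun h6 1
        simp at e0 e1
        exact Prod.ext e0 e1
      rw [h7] at hu0
      simp at hu0
  set c := ‖ev a u0‖ ^ 2 + ‖ev b u0‖ ^ 2 with hc
  have hlow : ∀ p : ℂ × ℂ, c * ‖p‖ ^ (2 * k) ≤ ‖ev a p‖ ^ 2 + ‖ev b p‖ ^ 2 := by
    intro p
    obtain ⟨u, hu, hpu⟩ : ∃ u : ℂ × ℂ, ‖u‖ = 1 ∧ p = ‖p‖ • u := by
      by_cases hp : p = 0
      · exact ⟨(1, 0), by simp [Prod.norm_def], by simp [hp]⟩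
      · have hp' : ‖p‖ ≠ 0 := norm_ne_zero_iff.2 hp
        refine ⟨‖p‖⁻¹ • p, ?_, ?_⟩
        · rw [norm_smul, norm_inv, norm_norm, inv_mul_cancel₀ hp']
        · rw [smul_smul, mul_inv_cancel₀ hp', one_smul]
    have h1 : c ≤ ‖ev a u‖ ^ 2 + ‖ev b u‖ ^ 2 := hmin (by simpa using hu)
    have h2 : ‖ev a p‖ = ‖p‖ ^ k * ‖ev a u‖ := by
      conv_lhs => rw [hpu]
      rw [ha, LJ_scal, norm_mul, norm_pow, Complex.norm_real, norm_norm]
    have h3 : ‖ev b p‖ = ‖p‖ ^ k * ‖ev b u‖ := by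
      conv_lhs => rw [hpu]
      rw [hb, LJ_scal, norm_mul, norm_pow, Complex.norm_real, norm_norm]
    rw [h2, h3]
    have h4 : (‖p‖ ^ k * ‖ev a u‖) ^ 2 + (‖p‖ ^ k * ‖ev b u‖) ^ 2 =
        (‖ev a u‖ ^ 2 + ‖ev b u‖ ^ 2) * ‖p‖ ^ (2 * k) := by ring
    rw [h4]
    exact mul_le_mul_of_nonneg_right h1 (by positivity)
  set D := CA ^ 2 + CB ^ 2 + 1 with hD
  have hD0 : 0 < D := by positivity
  refine ⟨c / 4, min 1 (Real.sqrt (c / (4 * D))), by positivity, lt_min one_pos (Real.sqrt_pos.2 (by positivity)),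
    fun p hp => ?_⟩
  have hp1 : ‖p‖ ≤ 1 := hp.trans (min_le_left _ _)
  have hp2 : ‖p‖ ^ 2 ≤ c / (4 * D) := by
    have h1 := hp.trans (min_le_right _ _)
    calc ‖p‖ ^ 2 ≤ (Real.sqrt (c / (4 * D))) ^ 2 := pow_le_pow_left₀ (norm_nonneg _) h1 2
      _ = c / (4 * D) := Real.sq_sqrt (by positivity)
  have hp3 : D * ‖p‖ ^ 2 ≤ c / 4 := by
    rw [le_div_iff₀ (by positivity)] at hp2
    linarith
  have key : ∀ (f g : P2) (K : ℝ), 0 ≤ K → (‖ev (f - g) p‖ ≤ K * ‖p‖ ^ (k + 1)) →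
      ‖ev g p‖ ^ 2 ≤ 2 * ‖ev f p‖ ^ 2 + 2 * (K ^ 2 * (‖p‖ ^ 2 * ‖p‖ ^ (2 * k))) := by
    intro f g K hK hfg
    have e1 : ev g p = ev f p - ev (f - g) p := by
      rw [LJ_ev_sub]
      ring
    have e2 : ‖ev g p‖ ≤ ‖ev f p‖ + ‖ev (f - g) p‖ := by
      rw [e1]
      exact norm_sub_le _ _
    have e3 : ‖ev (f - g) p‖ ^ 2 ≤ (K * ‖p‖ ^ (k + 1)) ^ 2 := pow_le_pow_left₀ (norm_nonneg _) hfg 2
    have e4 : (K * ‖p‖ ^ (k + 1)) ^ 2 = K ^ 2 * (‖p‖ ^ 2 * ‖p‖ ^ (2 * k)) := by ring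
    have e5 : ‖ev g p‖ ^ 2 ≤ (‖ev f p‖ + ‖ev (f - g) p‖) ^ 2 :=
      pow_le_pow_left₀ (norm_nonneg _) e2 2
    nlinarith [sq_nonneg (‖ev f p‖ - ‖ev (f - g) p‖)]
  have hkA := key A a CA hCA0 (hCA p hp1)
  have hkB := key B b CB hCB0 (hCB p hp1)
  have hl := hlow p
  have hq : 0 ≤ ‖p‖ ^ (2 * k) := by positivity
  have hfin : (CA ^ 2 + CB ^ 2) * (‖p‖ ^ 2 * ‖p‖ ^ (2 * k)) ≤ c / 4 * ‖p‖ ^ (2 * k) := by
    have h1 : (CA ^ 2 + CB ^ 2) * ‖p‖ ^ 2 ≤ c / 4 := by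
      have h2 : (CA ^ 2 + CB ^ 2) * ‖p‖ ^ 2 ≤ D * ‖p‖ ^ 2 :=
        mul_le_mul_of_nonneg_right (by rw [hD]; linarith) (by positivity)
      linarith
    calc (CA ^ 2 + CB ^ 2) * (‖p‖ ^ 2 * ‖p‖ ^ (2 * k)) = ((CA ^ 2 + CB ^ 2) * ‖p‖ ^ 2) * ‖p‖ ^ (2 * k) := by ring
      _ ≤ _ := mul_le_mul_of_nonneg_right h1 hq
  show c / 4 * ‖p‖ ^ (2 * k) ≤ ‖ev A p‖ ^ 2 + ‖ev B p‖ ^ 2
  nlinarith

theorem LJ_cf_pd0 (i j : ℕ) (f : P2) : cf i j (pderiv 0 f) = ((i : ℂ) + 1) * cf (i + 1) j f := by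
  induction f using DB_ind with
  | h1 a b c =>
    have h1 : pderiv 0 (C c * X 0 ^ a * X 1 ^ b : P2) = C (c * a) * X 0 ^ (a - 1) * X 1 ^ b := by
      rw [Derivation.leibniz, Derivation.leibniz, Derivation.leibniz_pow, Derivation.leibniz_pow, pderiv_C,
        pderiv_X_self, pderiv_X_of_ne (by decide : (1 : Fin 2) ≠ 0)]
      simp only [smul_eq_mul, mul_one, mul_zero, smul_zero, zero_add, add_zero, nsmul_eq_mul, C_mul]
      rw [show (C (a : ℂ) : P2) = (a : P2) from map_natCast C a]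
      ring
    rw [h1, DB_cfm, DB_cfm]
    rcases a with _ | a
    · simp
    · by_cases h2 : a = i ∧ b = j
      · rw [if_pos (by omega), if_pos (by omega), h2.1]
        push_cast
        ring
      · rw [if_neg (by omega), if_neg (by omega), mul_zero]
  | h2 p q hp hq => rw [map_add, DB_add, DB_add, hp, hq, mul_add]

theorem LJ_pd_sw (f : P2) : pderiv 1 (sw f) = sw (pderiv 0 f) ∧ pderiv 0 (sw f) = sw (pderiv 1 f) := by
  induction f using DB_ind with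
  | h1 a b c =>
    have h0 : ∀ (a b : ℕ) (c : ℂ), pderiv 0 (C c * X 0 ^ a * X 1 ^ b : P2) =
        C (c * a) * X 0 ^ (a - 1) * X 1 ^ b := by
      intro a b c
      rw [Derivation.leibniz, Derivation.leibniz, Derivation.leibniz_pow, Derivation.leibniz_pow, pderiv_C,
        pderiv_X_self, pderiv_X_of_ne (by decide : (1 : Fin 2) ≠ 0)]
      simp only [smul_eq_mul, mul_one, mul_zero, smul_zero, zero_add, add_zero, nsmul_eq_mul, C_mul]
      rw [show (C (a : ℂ) : P2) = (a : P2) from map_natCast C a]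
      ring
    have h1 : ∀ (a b : ℕ) (c : ℂ), pderiv 1 (C c * X 0 ^ a * X 1 ^ b : P2) =
        C (c * b) * X 0 ^ a * X 1 ^ (b - 1) := by
      intro a b c
      rw [Derivation.leibniz, Derivation.leibniz, Derivation.leibniz_pow, Derivation.leibniz_pow, pderiv_C,
        pderiv_X_self, pderiv_X_of_ne (by decide : (0 : Fin 2) ≠ 1)]
      simp only [smul_eq_mul, mul_one, mul_zero, smul_zero, zero_add, add_zero, nsmul_eq_mul, C_mul]
      rw [show (C (b : ℂ) : P2) = (b : P2) from map_natCast C b]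
      ring
    rw [DB_swm, h0, h1, h0, h1, DB_swm, DB_swm]
    exact ⟨rfl, rfl⟩
  | h2 p q hp hq =>
    simp only [map_add, hp.1, hp.2, hq.1, hq.2]
    exact ⟨trivial, trivial⟩

theorem LJ_pd0_mem (f : P2) (k : ℕ) (hf : f ∈ mI ^ k) : pderiv 0 f ∈ mI ^ (k - 1) := by
  rw [DB_mem] at hf ⊢
  intro i j hij
  rw [LJ_cf_pd0, hf (i + 1) j (by omega), mul_zero]

theorem LJ_pd1_mem (f : P2) (k : ℕ) (hf : f ∈ mI ^ k) : pderiv 1 f ∈ mI ^ (k - 1) := by
  have h1 := sw_mem _ _ (LJ_pd0_mem _ _ (sw_mem f k hf))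
  rwa [← (LJ_pd_sw (sw f)).1, sw_sw] at h1

theorem good_of_LJ (A B : P2) (h : LJ A B) : Good A B := by
  obtain ⟨k, hA, hB, h0⟩ := h
  intro f ρ M hρ hI
  obtain ⟨c, ρ0, hc, hρ0, hlow⟩ := LJ_lower A B k hA hB h0
  obtain ⟨K, hK0, hK⟩ := ev_bound_of_mem (divp A B) (k - 1)
    (Ideal.add_mem _ (LJ_pd0_mem A k hA) (LJ_pd1_mem B k hB))
  obtain ⟨ρ1, h1, -, C1, hC1, hE, -⟩ := norm_energy hρ hI
  refine ⟨min (min ρ0 ρ1) 1, lt_min (lt_min hρ0 h1) one_pos, 2 * K ^ 2 / c * C1, fun r hr0 hr1 => ?_⟩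
  set ρ' := min (min ρ0 ρ1) 1 with hρ'
  have hsub : {p : ℂ × ℂ | p ∈ Metric.ball (0 : ℂ × ℂ) ρ' ∧ r < ‖ev f p‖ ∧ r < ‖p‖} ⊆
      {p | p ∈ Metric.ball (0 : ℂ × ℂ) ρ' ∧ r < ‖p‖} := fun p hp => ⟨hp.1, hp.2.2⟩
  have hsub2 : {p : ℂ × ℂ | p ∈ Metric.ball (0 : ℂ × ℂ) ρ' ∧ r < ‖p‖} ⊆
      {p | p ∈ Metric.ball (0 : ℂ × ℂ) ρ1 ∧ r < ‖p‖} := fun p hp =>
    ⟨Metric.ball_subset_ball ((min_le_left _ _).trans (min_le_right _ _)) hp.1, hp.2⟩
  have hmeas : MeasurableSet {p : ℂ × ℂ | p ∈ Metric.ball (0 : ℂ × ℂ) ρ' ∧ r < ‖p‖} :=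
    (Metric.isOpen_ball.inter (isOpen_lt continuous_const continuous_norm)).measurableSet
  have hpt : ∀ p ∈ {p : ℂ × ℂ | p ∈ Metric.ball (0 : ℂ × ℂ) ρ' ∧ r < ‖p‖},
      ENNReal.ofReal (‖ev (divp A B) p‖ ^ 2) ≤
        ENNReal.ofReal (2 * K ^ 2 / c) * ENNReal.ofReal (nsq (vf A B p) / nsq p) := by
    rintro p ⟨hp, hrp⟩
    rw [← ENNReal.ofReal_mul (by positivity)]
    apply ENNReal.ofReal_le_ofReal
    rw [mem_ball_zero_iff] at hp
    have hp1 : ‖p‖ ≤ 1 := hp.le.trans (min_le_right _ _)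
    have hp2 : ‖p‖ ≤ ρ0 := hp.le.trans ((min_le_left _ _).trans (min_le_left _ _))
    have hpp : 0 < ‖p‖ := hr0.trans hrp
    have hn1 : nsq p ≤ 2 * ‖p‖ ^ 2 := by
      have e1 := pow_le_pow_left₀ (norm_nonneg _) (norm_fst_le p) 2
      have e2 := pow_le_pow_left₀ (norm_nonneg _) (norm_snd_le p) 2
      unfold nsq
      linarith
    have hn0 : 0 < nsq p := by
      have hne : p ≠ 0 := norm_pos_iff.1 hpp
      unfold nsq
      by_contra hle
      have e1 : ‖p.1‖ ^ 2 = 0 := by nlinarith [sq_nonneg ‖p.1‖, sq_nonneg ‖p.2‖]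
      have e2 : ‖p.2‖ ^ 2 = 0 := by nlinarith [sq_nonneg ‖p.1‖, sq_nonneg ‖p.2‖]
      exact hne (Prod.ext (norm_eq_zero.1 (pow_eq_zero_iff two_ne_zero |>.1 e1))
        (norm_eq_zero.1 (pow_eq_zero_iff two_ne_zero |>.1 e2)))
    have hd : ‖ev (divp A B) p‖ ^ 2 ≤ (K * ‖p‖ ^ (k - 1)) ^ 2 :=
      pow_le_pow_left₀ (norm_nonneg _) (hK p hp1) 2
    have hpow : ‖p‖ ^ (2 * (k - 1)) * ‖p‖ ^ 2 ≤ ‖p‖ ^ (2 * k) := by
      rw [← pow_add]
      exact pow_le_pow_of_le_one (norm_nonneg _) hp1 (by omega)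
    have hl := hlow p hp2
    have hm : ‖ev (divp A B) p‖ ^ 2 * nsq p ≤ 2 * K ^ 2 / c * nsq (vf A B p) := by
      calc ‖ev (divp A B) p‖ ^ 2 * nsq p ≤ (K * ‖p‖ ^ (k - 1)) ^ 2 * (2 * ‖p‖ ^ 2) :=
            mul_le_mul hd hn1 hn0.le (by positivity)
        _ = 2 * K ^ 2 * (‖p‖ ^ (2 * (k - 1)) * ‖p‖ ^ 2) := by ring
        _ ≤ 2 * K ^ 2 * ‖p‖ ^ (2 * k) := mul_le_mul_of_nonneg_left hpow (by positivity)
        _ = 2 * K ^ 2 / c * (c * ‖p‖ ^ (2 * k)) := by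
            field_simp
        _ ≤ _ := mul_le_mul_of_nonneg_left hl (by positivity)
    rw [← mul_div_assoc, le_div_iff₀ hn0]
    exact hm
  calc ∫⁻ p in {p : ℂ × ℂ | p ∈ Metric.ball (0 : ℂ × ℂ) ρ' ∧ r < ‖ev f p‖ ∧ r < ‖p‖},
        ENNReal.ofReal (‖ev (divp A B) p‖ ^ 2) ∂M
      ≤ ∫⁻ p in {p : ℂ × ℂ | p ∈ Metric.ball (0 : ℂ × ℂ) ρ' ∧ r < ‖p‖},
        ENNReal.ofReal (‖ev (divp A B) p‖ ^ 2) ∂M := lintegral_mono_set hsub
    _ ≤ ∫⁻ p in {p : ℂ × ℂ | p ∈ Metric.ball (0 : ℂ × ℂ) ρ' ∧ r < ‖p‖},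
        ENNReal.ofReal (2 * K ^ 2 / c) * ENNReal.ofReal (nsq (vf A B p) / nsq p) ∂M :=
        setLIntegral_mono' hmeas hpt
    _ = ENNReal.ofReal (2 * K ^ 2 / c) * ∫⁻ p in {p : ℂ × ℂ | p ∈ Metric.ball (0 : ℂ × ℂ) ρ' ∧ r < ‖p‖},
        ENNReal.ofReal (nsq (vf A B p) / nsq p) ∂M :=
        lintegral_const_mul' _ _ ENNReal.ofReal_ne_top
    _ ≤ ENNReal.ofReal (2 * K ^ 2 / c) * ENNReal.ofReal (C1 * (1 + Real.log (1 / r))) := by
        gcongr
        exact (lintegral_mono_set hsub2).trans (hE r hr0 hr1)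
    _ = ENNReal.ofReal (2 * K ^ 2 / c * C1 * (1 + Real.log (1 / r))) := by
        rw [← ENNReal.ofReal_mul (by positivity), mul_assoc]

theorem good_toE (A B : P2) (h : Good A B) : GoodE A B :=
  fun f ρ M h0 _ hI => h f ρ M h0 hI

theorem LJ_ev_sw (f : P2) (p : ℂ × ℂ) : ev (sw f) p = ev f p.swap := by
  induction f using DB_ind with
  | h1 a b c =>
    rw [DB_swm, LJ_evm, LJ_evm]
    simp only [Prod.fst_swap, Prod.snd_swap]
    ring
  | h2 f g hf hg => rw [map_add, LJ_ev_add, LJ_ev_add, hf, hg]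

theorem LJ_divp (A B : P2) : divp (sw B) (sw A) = sw (divp A B) := by
  unfold divp
  rw [map_add, (LJ_pd_sw B).2, (LJ_pd_sw A).1, add_comm]

theorem LJ_Zp (A B f : P2) : Zp (sw B) (sw A) (sw f) = sw (Zp A B f) := by
  unfold Zp
  rw [map_add, map_mul, map_mul, (LJ_pd_sw f).2, (LJ_pd_sw f).1, add_comm]

theorem LJ_norm_swap (p : ℂ × ℂ) : ‖p.swap‖ = ‖p‖ := by
  rw [Prod.norm_def, Prod.norm_def, max_comm]
  rfl

theorem LJ_nsq_swap (p : ℂ × ℂ) : nsq p.swap = nsq p := by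
  unfold nsq
  rw [add_comm]
  rfl

theorem LJ_vf (A B : P2) (p : ℂ × ℂ) : vf (sw B) (sw A) p.swap = (vf A B p).swap := by
  unfold vf
  rw [LJ_ev_sw, LJ_ev_sw, Prod.swap_swap]
  rfl

theorem LJ_lint (M : Measure (ℂ × ℂ)) (F : ℂ × ℂ → ENNReal) (S : Set (ℂ × ℂ)) :
    ∫⁻ p in S, F p ∂(M.map Prod.swap) = ∫⁻ p in Prod.swap ⁻¹' S, F p.swap ∂M := by
  have h1 : M.map Prod.swap = M.map (MeasurableEquiv.prodComm : ℂ × ℂ ≃ᵐ ℂ × ℂ) := rfl
  rw [h1, MeasurableEquiv.restrict_map, lintegral_map_equiv]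
  rfl

theorem LJ_dom (f : P2) (ρ : ℝ) : Prod.swap ⁻¹' (dom (sw f) ρ) = dom f ρ := by
  ext p
  simp only [dom, Set.mem_preimage, Set.mem_ofPred_eq, mem_ball_zero_iff, LJ_norm_swap, LJ_ev_sw,
    Prod.swap_swap]
  refine and_congr_right fun _ => and_congr_right fun _ => not_congr ?_
  constructor
  · intro h
    rw [← Prod.swap_swap p, h]
    rfl
  · rintro rfl
    rfl

theorem LJ_map (M : Measure (ℂ × ℂ)) (S : Set (ℂ × ℂ)) :
    M.map Prod.swap S = M (Prod.swap ⁻¹' S) :=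
  MeasurableEquiv.map_apply (MeasurableEquiv.prodComm : ℂ × ℂ ≃ᵐ ℂ × ℂ) S

theorem LJ_fd {F : Type*} [NormedAddCommGroup F] [NormedSpace ℝ F] (g : ℂ × ℂ → F) (p v : ℂ × ℂ) :
    fderiv ℝ (fun q => g q.swap) p v = fderiv ℝ g p.swap v.swap := by
  have h1 := (ContinuousLinearEquiv.prodComm ℝ ℂ ℂ).comp_right_fderiv (f := g) (x := p)
  have h2 : (g ∘ (ContinuousLinearEquiv.prodComm ℝ ℂ ℂ)) = fun q => g q.swap := rfl
  rw [h2] at h1
  rw [h1]
  rfl

theorem LJ_fd' {F : Type*} [NormedAddCommGroup F] [NormedSpace ℝ F] (g : ℂ × ℂ → F) (p : ℂ × ℂ) :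
    fderiv ℝ (fun q => g q.swap) p =
      (fderiv ℝ g p.swap).comp (ContinuousLinearEquiv.prodComm ℝ ℂ ℂ : ℂ × ℂ →L[ℝ] ℂ × ℂ) :=
  ContinuousLinearMap.ext fun v => LJ_fd g p v

theorem LJ_dW (g : ℂ × ℂ → ℂ) (p v : ℂ × ℂ) : dW (fun q => g q.swap) p v = dW g p.swap v.swap := by
  unfold dW
  rw [LJ_fd, LJ_fd]
  rfl

theorem LJ_fd2 (G : ℂ × ℂ → ℝ) (hG : ContDiff ℝ ∞ G) (p v w : ℂ × ℂ) :
    fderiv ℝ (fderiv ℝ (fun q => G q.swap)) p v w = fderiv ℝ (fderiv ℝ G) p.swap v.swap w.swap := by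
  have h1 : fderiv ℝ (fun q => G q.swap) = fun q =>
      ((ContinuousLinearMap.compL ℝ (ℂ × ℂ) (ℂ × ℂ) ℝ).flip
        (ContinuousLinearEquiv.prodComm ℝ ℂ ℂ : ℂ × ℂ →L[ℝ] ℂ × ℂ)) (fderiv ℝ G q.swap) := by
    funext q
    rw [LJ_fd']
    rfl
  have h2 : Differentiable ℝ (fderiv ℝ G) := (hG.fderiv_right (m := 1) (by norm_cast)).differentiable one_ne_zero
  have h3 : DifferentiableAt ℝ (fun q : ℂ × ℂ => fderiv ℝ G q.swap) p :=
    (h2 p.swap).comp p (ContinuousLinearEquiv.prodComm ℝ ℂ ℂ).differentiableAt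
  rw [h1]
  have h4 := (((ContinuousLinearMap.compL ℝ (ℂ × ℂ) (ℂ × ℂ) ℝ).flip
    (ContinuousLinearEquiv.prodComm ℝ ℂ ℂ : ℂ × ℂ →L[ℝ] ℂ × ℂ)).hasFDerivAt.comp p h3.hasFDerivAt).fderiv
  rw [show (fun q => ((ContinuousLinearMap.compL ℝ (ℂ × ℂ) (ℂ × ℂ) ℝ).flip
        (ContinuousLinearEquiv.prodComm ℝ ℂ ℂ : ℂ × ℂ →L[ℝ] ℂ × ℂ)) (fderiv ℝ G q.swap)) =
      (((ContinuousLinearMap.compL ℝ (ℂ × ℂ) (ℂ × ℂ) ℝ).flip
        (ContinuousLinearEquiv.prodComm ℝ ℂ ℂ : ℂ × ℂ →L[ℝ] ℂ × ℂ)) ∘ fun q : ℂ × ℂ => fderiv ℝ G q.swap)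
      from rfl, h4, LJ_fd' (fderiv ℝ G)]
  rfl

theorem LJ_lev (G : ℂ × ℂ → ℝ) (hG : ContDiff ℝ ∞ G) (p v : ℂ × ℂ) :
    lev (fun q => G q.swap) p v = lev G p.swap v.swap := by
  unfold lev
  rw [LJ_fd2 G hG, LJ_fd2 G hG]
  rfl

theorem LJ_int {F : Type*} [NormedAddCommGroup F] [NormedSpace ℝ F] (M : Measure (ℂ × ℂ))
    (f : ℂ × ℂ → F) : ∫ p, f p ∂(M.map Prod.swap) = ∫ p, f p.swap ∂M :=
  MeasureTheory.integral_map_equiv (MeasurableEquiv.prodComm : ℂ × ℂ ≃ᵐ ℂ × ℂ) f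

theorem LJ_cs {F : Type*} [NormedAddCommGroup F] [NormedSpace ℝ F] (g : ℂ × ℂ → F)
    (hg : ContDiff ℝ ∞ g) (hc : HasCompactSupport g) :
    ContDiff ℝ ∞ (fun q : ℂ × ℂ => g q.swap) ∧ HasCompactSupport (fun q : ℂ × ℂ => g q.swap) ∧
    tsupport (fun q : ℂ × ℂ => g q.swap) = Prod.swap ⁻¹' (tsupport g) := by
  refine ⟨hg.comp (ContinuousLinearEquiv.prodComm ℝ ℂ ℂ).contDiff,
    hc.comp_homeomorph (Homeomorph.prodComm ℂ ℂ), ?_⟩
  exact tsupport_comp_eq_preimage g (Homeomorph.prodComm ℂ ℂ)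

/-- transfer of the hypotheses under exchange of the variables -/
theorem inv_swap {A B h : P2} {ρ : ℝ} {M : Measure (ℂ × ℂ)} (hI : Inv A B h ρ M) :
    Inv (sw B) (sw A) (sw h) ρ (M.map Prod.swap) := by
  refine ⟨⟨?_, ?_, ?_, ?_, ?_⟩, ?_, ?_⟩
  · rw [LJ_map, Set.preimage_compl, LJ_dom]
    exact hI.carried
  · intro K hK hKd
    rw [LJ_map]
    refine hI.locfin _ ((Homeomorph.prodComm ℂ ℂ).isCompact_preimage.2 hK) ?_
    rw [← LJ_dom h ρ]
    exact Set.preimage_mono hKd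
  · have h1 := LJ_lint M (fun p => ENNReal.ofReal (nsq (vf (sw B) (sw A) p))) Set.univ
    rw [Set.preimage_univ, Measure.restrict_univ, Measure.restrict_univ] at h1
    rw [h1]
    simp only [LJ_vf, LJ_nsq_swap]
    exact hI.fin
  · intro g hg hc hs
    obtain ⟨c1, c2, c3⟩ := LJ_cs g hg hc
    rw [LJ_int]
    simp only [LJ_vf, ← LJ_dW]
    refine hI.inv _ c1 c2 ?_
    rw [c3, ← LJ_dom h ρ]
    exact Set.preimage_mono hs
  · obtain ⟨K, hK⟩ := hI.log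
    refine ⟨K, fun r h0 h1 => ?_⟩
    rw [LJ_lint]
    simp only [LJ_Zp, LJ_ev_sw, Prod.swap_swap, Set.preimage_ofPred_eq]
    exact hK r h0 h1
  · intro G hG hc hs
    obtain ⟨c1, c2, c3⟩ := LJ_cs G hG hc
    rw [LJ_int]
    simp only [LJ_vf, ← LJ_lev G hG]
    refine hI.dd _ c1 c2 ?_
    rw [c3]
    intro p hp
    have h1 := hs hp
    rw [mem_ball_zero_iff] at h1 ⊢
    rwa [LJ_norm_swap] at h1
  · intro γ R hR hγ
    rw [LJ_map]
    have h1 : Prod.swap ⁻¹' (γ '' pdisc R) = (fun t => (γ t).swap) '' pdisc R := by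
      ext p
      constructor
      · rintro ⟨t, ht, htp⟩
        refine ⟨t, ht, ?_⟩
        show (γ t).swap = p
        rw [htp, Prod.swap_swap]
      · rintro ⟨t, ht, rfl⟩
        exact ⟨t, ht, (Prod.swap_swap _).symm⟩
    rw [h1]
    exact hI.dif _ R hR
      ((ContinuousLinearEquiv.prodComm ℂ ℂ ℂ).differentiable.comp_differentiableOn hγ)

theorem good_swap (A B : P2) (h : Good A B) : Good (sw B) (sw A) := by
  intro f ρ M h0 hI
  have h1 := inv_swap hI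
  rw [sw_sw, sw_sw] at h1
  obtain ⟨ρ', hρ', K, hK⟩ := h _ _ _ h0 h1
  refine ⟨ρ', hρ', K, fun r hr0 hr1 => ?_⟩
  have h2 := hK r hr0 hr1
  rw [LJ_lint] at h2
  simp only [LJ_ev_sw, Prod.swap_swap, Set.preimage_ofPred_eq, mem_ball_zero_iff, LJ_norm_swap] at h2
  simp only [LJ_divp, LJ_ev_sw, mem_ball_zero_iff]
  exact h2

end FC76

end S_H76_FL_LJ
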