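import Mathlib
import Pool.Agent.H24.M68.G02
import Pool.Agent.H24.M68.G03
import Pool.Agent.H24.M68.G05
import Pool.Agent.H24.M68.G06
import Pool.Agent.H24.M68.G08
import Pool.Agent.H24.M68.G10

/-! MP_6873ef_an: this file joins several modules to save build time. -/

section S_H85_DC_LosA

/-!
# Row LosA: the wedge product of two smoothed currents away from the singular set

`Loss F μ μ' P r0 ε = ∫_{x ≠ 0, tau x p ≥ r0 ∀ p ∈ P} Re ee (sm F μ ε x) (sm F μ' ε x) wt x dx`, `Tr μ μ' P r ε = ∫_{y ∈ Kr P r} ∫ exp (-tau y y'/(8 ε^2)) dμ' dμ`.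
By `ee_smsm`: `Re ee (…) = ∫∫ kk(τ) kk(τ') N x^{-2} B dμ'(y') dμ(y)`, `τ = tau x y`, `τ' = tau x y'`, `B = wed + ε^2(N w' + N v') + 2ε^4`, `0 ≤ B ≤ 5` (`wed_le`, `perp_le`; `N (wv) = 1` a.e.).
Tonelli (all nonnegative). Fix `y, y'` unit, off the zero set of `eta`.
(A) `y ∉ Kr P (r0/4)`: some `p` with `tau y p < r0/4`; for `x` in the region `√tau(x,y) ≥ √r0 - √r0/2`, `tau x y ≥ r0/4`, so `kk(τ) kk(τ') B ≤ 2ε^{-4} e^{-r0/(4ε^2)} · 2ε^{-4} · 5` (`kk_le`); integrate `N^{-2} wt` (`π^3/2`).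
(B) `y ∈ Kr P (r0/4)`: `N (eta F y) ≥ c (r0/4)^m` (`nullst_Kr`), `N (eta F y) ≤ C_F` (`eta_bdd`); `dir`, `tau_two` (`tau y y' ≤ 2τ + 2τ'`): `B ≤ C (τ + τ' + ε^2)/N(eta F y) ≤ C (r0⁻¹)^m (τ + τ' + ε^2)` (constants change).
`kk kk' ≤ 4 ε^{-8} e^{-(τ+τ')/ε^2}`; with `a = (τ+τ')/ε^2`: `(τ + τ' + ε^2) e^{-a} = ε^2 (a+1) e^{-a} ≤ 2 ε^2 e^{-a/2} = 2ε^2 e^{-a/4} e^{-a/4}`, `a ≥ tau y y'/(2ε^2)`, and `e^{-a/4} ≤ e^{-τ/(4ε^2)}`,
`∫ e^{-τ/(4ε^2)} dν ≤ π^3 (4ε^2)^2` (`nu_exp`). So the contribution is `≤ C (r0⁻¹)^m ε^{-8} ε^2 ε^4 e^{-tau(y,y')/(8ε^2)}`.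
(`dν = N^{-2} wt dx`: `nuP`.) Integrate over `μ × μ'` (probability measures).
-/

open MeasureTheory
open scoped ContDiff BigOperators ComplexConjugate Matrix

namespace Pool.Agent.H85.DC

/-- The intersection of the smoothed currents away from the singular points. -/
noncomputable def Loss (F : Fin 3 → MvPolynomial (Fin 3) ℂ) (μ μ' : Measure V) (P : Finset V)
    (r0 ε : ℝ) : ℝ :=
  ∫ x in {x : V | x ≠ 0 ∧ ∀ p ∈ P, r0 ≤ tau x p}, (ee (sm F μ ε x) (sm F μ' ε x)).re * wt x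

/-- The transversal quantity controlling the loss. -/
noncomputable def Tr (μ μ' : Measure V) (P : Finset V) (r ε : ℝ) : ℝ :=
  ∫ y in Kr P r, ∫ y', Real.exp (-(tau y y') / (8 * ε ^ 2)) ∂μ' ∂μ

theorem LosA_ee_comm (A B : M3) : ee A B = ee B A := by
  unfold ee
  rw [mul_comm, Matrix.trace_mul_comm]

theorem loss_symm (F : Fin 3 → MvPolynomial (Fin 3) ℂ) (μ μ' : Measure V) (P : Finset V)
    (r0 ε : ℝ) : Loss F μ μ' P r0 ε = Loss F μ' μ P r0 ε := by
  unfold Loss
  simp_rw [LosA_ee_comm (sm F μ ε _) (sm F μ' ε _)]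

theorem LosA_N_nonneg (x : V) : 0 ≤ N x := Finset.sum_nonneg (fun _ _ => Complex.normSq_nonneg _)

theorem LosA_N_pos {x : V} (hx : x ≠ 0) : 0 < N x := by
  obtain ⟨j, hj⟩ := Function.ne_iff.1 hx
  exact Finset.sum_pos' (fun _ _ => Complex.normSq_nonneg _) ⟨j, Finset.mem_univ _, Complex.normSq_pos.2 hj⟩

theorem LosA_ne {y : V} (hy : N y = 1) : y ≠ 0 := by
  rintro rfl
  simp [N] at hy

theorem LosA_cont_N : Continuous N := by
  unfold N
  exact continuous_finset_sum _ (fun j _ => Complex.continuous_normSq.comp (continuous_apply j))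

/-- the kernel -/
noncomputable def LosA_k (F : Fin 3 → MvPolynomial (Fin 3) ℂ) (ε : ℝ) (x y y' : V) : ℝ :=
  kk ε (tau x y) * kk ε (tau x y') / (N x) ^ 2 *
        (wed (perp x (wv F y)) (perp x (wv F y')) +
          ε ^ 2 * (N (perp x (wv F y)) + N (perp x (wv F y'))) + 2 * ε ^ 4)

theorem LosA_k_nonneg (F : Fin 3 → MvPolynomial (Fin 3) ℂ) (ε : ℝ) (x y y' : V) : 0 ≤ LosA_k F ε x y y' := by
  unfold LosA_k
  have h1 := kk_nonneg (ε := ε) (tau_le_one x y)
  have h2 := kk_nonneg (ε := ε) (tau_le_one x y')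
  have h3 := wed_nonneg (perp x (wv F y)) (perp x (wv F y'))
  have h4 := LosA_N_nonneg (perp x (wv F y))
  have h5 := LosA_N_nonneg (perp x (wv F y'))
  positivity

theorem LosA_perp_le {F : Fin 3 → MvPolynomial (Fin 3) ℂ} {x y : V} (hx : x ≠ 0) (hy : N y = 1)
    (h : eta F y ≠ 0) : N (perp x (wv F y)) ≤ 1 := by
  rw [perp_le hx, wv_unit hy h]
  have := div_nonneg (Complex.normSq_nonneg (ip (wv F y) x)) (LosA_N_nonneg x)
  linarith

theorem LosA_ptA {F : Fin 3 → MvPolynomial (Fin 3) ℂ} {ε r0 : ℝ} (hε : 0 < ε) (h1 : ε ≤ 1) {x y y' : V}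
    (hx : x ≠ 0) (hy : N y = 1) (hy' : N y' = 1) (he : eta F y ≠ 0) (he' : eta F y' ≠ 0)
    (ht : r0 / 4 ≤ tau x y) :
    LosA_k F ε x y y' ≤ 20 * ε⁻¹ ^ 8 * Real.exp (-r0 / (4 * ε ^ 2)) / (N x) ^ 2 := by
  unfold LosA_k
  have hN := LosA_N_pos hx
  have k1 := kk_nonneg (ε := ε) (tau_le_one x y)
  have k2 := kk_nonneg (ε := ε) (tau_le_one x y')
  have k3 : kk ε (tau x y) ≤ 2 * ε⁻¹ ^ 4 * Real.exp (-r0 / (4 * ε ^ 2)) := by
    refine (kk_le hε h1 (tau_nonneg x y)).trans ?_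
    have : -tau x y / ε ^ 2 ≤ -r0 / (4 * ε ^ 2) := by
      rw [div_le_div_iff₀ (by positivity) (by positivity)]
      nlinarith [sq_nonneg ε]
    have := Real.exp_le_exp.2 this
    gcongr
  have k4 : kk ε (tau x y') ≤ 2 * ε⁻¹ ^ 4 := by
    refine (kk_le hε h1 (tau_nonneg x y')).trans ?_
    have h5 : Real.exp (-tau x y' / ε ^ 2) ≤ 1 := by
      apply Real.exp_le_one_iff.2
      exact div_nonpos_of_nonpos_of_nonneg (by linarith [tau_nonneg x y']) (sq_nonneg ε)
    calc _ ≤ 2 * ε⁻¹ ^ 4 * 1 := by gcongr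
      _ = _ := by ring
  have h3 := wed_nonneg (perp x (wv F y)) (perp x (wv F y'))
  have h4 := LosA_N_nonneg (perp x (wv F y))
  have h5 := LosA_N_nonneg (perp x (wv F y'))
  have h6 := LosA_perp_le (F := F) hx hy he
  have h7 := LosA_perp_le (F := F) hx hy' he'
  have h8 : wed (perp x (wv F y)) (perp x (wv F y')) ≤ 1 :=
    wed_le.trans (mul_le_one₀ h6 h5 h7)
  have e2 : ε ^ 2 ≤ 1 := pow_le_one₀ hε.le h1
  have e4 : ε ^ 4 ≤ 1 := pow_le_one₀ hε.le h1
  have h9 : wed (perp x (wv F y)) (perp x (wv F y')) +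
          ε ^ 2 * (N (perp x (wv F y)) + N (perp x (wv F y'))) + 2 * ε ^ 4 ≤ 5 := by
    have : ε ^ 2 * (N (perp x (wv F y)) + N (perp x (wv F y'))) ≤ 1 * 2 :=
      mul_le_mul e2 (by linarith) (by linarith) (by norm_num)
    linarith
  have h10 : kk ε (tau x y) * kk ε (tau x y') ≤ 2 * ε⁻¹ ^ 4 * Real.exp (-r0 / (4 * ε ^ 2)) * (2 * ε⁻¹ ^ 4) :=
    mul_le_mul k3 k4 k2 (by positivity)
  calc _ ≤ (2 * ε⁻¹ ^ 4 * Real.exp (-r0 / (4 * ε ^ 2)) * (2 * ε⁻¹ ^ 4)) / (N x) ^ 2 * 5 := by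
        apply mul_le_mul _ h9 (by positivity) (by positivity)
        gcongr
    _ = _ := by ring

theorem LosA_exp (a : ℝ) (_ha : 0 ≤ a) : (a + 1) * Real.exp (-a) ≤ 2 * (Real.exp (-(a / 4)) * Real.exp (-(a / 4))) := by
  have h1 : a / 2 + 1 ≤ Real.exp (a / 2) := Real.add_one_le_exp _
  have h2 : a + 1 ≤ 2 * Real.exp (a / 2) := by linarith
  calc (a + 1) * Real.exp (-a) ≤ 2 * Real.exp (a / 2) * Real.exp (-a) := by gcongr
    _ = 2 * (Real.exp (-(a / 4)) * Real.exp (-(a / 4))) := by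
        rw [mul_assoc, ← Real.exp_add, ← Real.exp_add]
        congr 2
        ring

theorem LosA_ptB {F : Fin 3 → MvPolynomial (Fin 3) ℂ} {C : ℝ} (hC : 0 < C)
    {ε lam : ℝ} (hε : 0 < ε) (h1 : ε ≤ 1) (hl : 0 < lam) {x y y' : V}
    (hdir : wed (perp x (wv F y)) (perp x (wv F y')) ≤
        C * (tau x y + tau x y' + tau y y' / N (eta F y)))
    (hx : x ≠ 0) (hy : N y = 1) (hy' : N y' = 1) (he : eta F y ≠ 0) (he' : eta F y' ≠ 0)
    (hle : lam ≤ N (eta F y)) :
    LosA_k F ε x y y' ≤ (8 * (C * (1 + 2 / lam) + 4) * ε⁻¹ ^ 6 * (Real.exp (-(tau y y') / (8 * ε ^ 2)) *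
      Real.exp (-(tau y x) / (4 * ε ^ 2)))) / (N x) ^ 2 := by
  unfold LosA_k
  have hN := LosA_N_pos hx
  have k1 := kk_nonneg (ε := ε) (tau_le_one x y)
  have k2 := kk_nonneg (ε := ε) (tau_le_one x y')
  have t1 := tau_nonneg x y
  have t2 := tau_nonneg x y'
  have t3 := tau_nonneg y y'
  have k3 := kk_le hε h1 t1
  have k4 := kk_le hε h1 t2
  have h3 := wed_nonneg (perp x (wv F y)) (perp x (wv F y'))
  have h4 := LosA_N_nonneg (perp x (wv F y))
  have h5 := LosA_N_nonneg (perp x (wv F y'))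
  have h6 := LosA_perp_le (F := F) hx hy he
  have h7 := LosA_perp_le (F := F) hx hy' he'
  have e2 : ε ^ 2 ≤ 1 := pow_le_one₀ hε.le h1
  have e4 : ε ^ 4 ≤ ε ^ 2 := pow_le_pow_of_le_one hε.le h1 (by norm_num)
  have htri : tau y y' ≤ 2 * tau x y + 2 * tau x y' := by
    have := tau_two (LosA_ne hy) hx (LosA_ne hy')
    rw [tau_symm y x] at this
    exact this
  have hE : tau y y' / N (eta F y) ≤ (2 * tau x y + 2 * tau x y') / lam := by
    apply div_le_div₀ (by positivity) htri hl hle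
  obtain ⟨D, hD⟩ : ∃ D : ℝ, D = C * (1 + 2 / lam) + 4 := ⟨_, rfl⟩
  have hD0 : 0 < D := by rw [hD]; positivity
  have hB : wed (perp x (wv F y)) (perp x (wv F y')) +
          ε ^ 2 * (N (perp x (wv F y)) + N (perp x (wv F y'))) + 2 * ε ^ 4 ≤
      D * (tau x y + tau x y' + ε ^ 2) := by
    have b1 : wed (perp x (wv F y)) (perp x (wv F y')) ≤ C * (1 + 2 / lam) * (tau x y + tau x y') := by
      calc _ ≤ C * (tau x y + tau x y' + tau y y' / N (eta F y)) := hdir
        _ ≤ C * (tau x y + tau x y' + (2 * tau x y + 2 * tau x y') / lam) := by gcongr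
        _ = _ := by ring
    have b2 : ε ^ 2 * (N (perp x (wv F y)) + N (perp x (wv F y'))) ≤ ε ^ 2 * 2 := by gcongr; linarith
    have b3 : 0 < C * (1 + 2 / lam) := by positivity
    rw [hD]
    nlinarith [sq_nonneg ε]
  obtain ⟨a, ha⟩ : ∃ a : ℝ, a = (tau x y + tau x y') / ε ^ 2 := ⟨_, rfl⟩
  have ha0 : 0 ≤ a := by rw [ha]; positivity
  have hkk : kk ε (tau x y) * kk ε (tau x y') ≤ 4 * ε⁻¹ ^ 8 * Real.exp (-a) := by
    calc _ ≤ (2 * ε⁻¹ ^ 4 * Real.exp (-tau x y / ε ^ 2)) * (2 * ε⁻¹ ^ 4 * Real.exp (-tau x y' / ε ^ 2)) :=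
          mul_le_mul k3 k4 k2 (by positivity)
      _ = 4 * ε⁻¹ ^ 8 * (Real.exp (-tau x y / ε ^ 2) * Real.exp (-tau x y' / ε ^ 2)) := by ring
      _ = _ := by
          rw [← Real.exp_add, ha]
          congr 2
          ring
  have hE1 : Real.exp (-(a / 4)) ≤ Real.exp (-(tau y y') / (8 * ε ^ 2)) := by
    apply Real.exp_le_exp.2
    rw [ha, neg_div, neg_le_neg_iff, div_div, div_le_div_iff₀ (by positivity) (by positivity)]
    have : 0 < ε ^ 2 := by positivity
    nlinarith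
  have hE2 : Real.exp (-(a / 4)) ≤ Real.exp (-(tau y x) / (4 * ε ^ 2)) := by
    apply Real.exp_le_exp.2
    rw [ha, neg_div, neg_le_neg_iff, div_div, div_le_div_iff₀ (by positivity) (by positivity), tau_symm y x]
    have : 0 < ε ^ 2 := by positivity
    nlinarith
  have hae : tau x y + tau x y' + ε ^ 2 = ε ^ 2 * (a + 1) := by
    rw [ha]
    field_simp
  have hprod : (kk ε (tau x y) * kk ε (tau x y')) * (D * (tau x y + tau x y' + ε ^ 2)) ≤
      8 * D * ε⁻¹ ^ 6 * (Real.exp (-(tau y y') / (8 * ε ^ 2)) * Real.exp (-(tau y x) / (4 * ε ^ 2))) := by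
    rw [hae]
    calc _ ≤ (4 * ε⁻¹ ^ 8 * Real.exp (-a)) * (D * (ε ^ 2 * (a + 1))) := by gcongr
      _ = 4 * D * (ε⁻¹ ^ 8 * ε ^ 2) * ((a + 1) * Real.exp (-a)) := by ring
      _ ≤ 4 * D * (ε⁻¹ ^ 8 * ε ^ 2) * (2 * (Real.exp (-(a / 4)) * Real.exp (-(a / 4)))) := by
          have := LosA_exp a ha0
          gcongr
      _ ≤ 4 * D * (ε⁻¹ ^ 8 * ε ^ 2) * (2 * (Real.exp (-(tau y y') / (8 * ε ^ 2)) *
            Real.exp (-(tau y x) / (4 * ε ^ 2)))) := by gcongr
      _ = _ := by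
          have : ε⁻¹ ^ 8 * ε ^ 2 = ε⁻¹ ^ 6 := by field_simp
          rw [this]
          ring
  rw [← hD]
  calc _ = (kk ε (tau x y) * kk ε (tau x y')) * (wed (perp x (wv F y)) (perp x (wv F y')) +
          ε ^ 2 * (N (perp x (wv F y)) + N (perp x (wv F y'))) + 2 * ε ^ 4) / (N x) ^ 2 := by ring
    _ ≤ (kk ε (tau x y) * kk ε (tau x y')) * (D * (tau x y + tau x y' + ε ^ 2)) / (N x) ^ 2 := by gcongr
    _ ≤ _ := by gcongr

theorem LosA_tau_meas (p : V) : Measurable (fun x : V => tau x p) := measurable_tau.of_uncurry_right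

theorem LosA_exp_meas (b : ℝ) : Measurable (fun q : V × V => Real.exp (-(tau q.1 q.2) / b)) :=
  Real.measurable_exp.comp ((measurable_tau.neg).div_const _)

theorem LosA_exp_le {b : ℝ} (hb : 0 < b) (y y' : V) : Real.exp (-(tau y y') / b) ≤ 1 := by
  apply Real.exp_le_one_iff.2
  exact div_nonpos_of_nonpos_of_nonneg (by linarith [tau_nonneg y y']) hb.le

theorem LosA_int {μ' : Measure V} [IsProbabilityMeasure μ'] {b : ℝ} (hb : 0 < b) (y : V) :
    Integrable (fun y' => Real.exp (-(tau y y') / b)) μ' := by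
  refine (integrable_const (1 : ℝ)).mono' ?_ (Filter.Eventually.of_forall (fun y' => ?_))
  · exact ((LosA_exp_meas b).comp (measurable_const.prodMk measurable_id)).aestronglyMeasurable
  · rw [Real.norm_of_nonneg (Real.exp_pos _).le]
    exact LosA_exp_le hb y y'

theorem LosA_Tr {P : Finset V} {μ μ' : Measure V} [IsProbabilityMeasure μ] [IsProbabilityMeasure μ']
    {r ε : ℝ} (hε : 0 < ε) :
    ∫⁻ y in Kr P r, ∫⁻ y', ENNReal.ofReal (Real.exp (-(tau y y') / (8 * ε ^ 2))) ∂μ' ∂μ =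
      ENNReal.ofReal (Tr μ μ' P r ε) := by
  unfold Tr
  have hb : 0 < 8 * ε ^ 2 := by positivity
  have h1 : ∀ y, ENNReal.ofReal (∫ y', Real.exp (-(tau y y') / (8 * ε ^ 2)) ∂μ') =
      ∫⁻ y', ENNReal.ofReal (Real.exp (-(tau y y') / (8 * ε ^ 2))) ∂μ' := fun y =>
    ofReal_integral_eq_lintegral_ofReal (LosA_int hb y) (Filter.Eventually.of_forall (fun y' => (Real.exp_pos _).le))
  simp_rw [← h1]
  have h0 : ∀ y, 0 ≤ ∫ y', Real.exp (-(tau y y') / (8 * ε ^ 2)) ∂μ' :=
    fun y => integral_nonneg (fun y' => (Real.exp_pos _).le)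
  rw [ofReal_integral_eq_lintegral_ofReal _ (Filter.Eventually.of_forall h0)]
  refine (integrable_const (1 : ℝ)).mono' ?_ (Filter.Eventually.of_forall (fun y => ?_))
  · exact ((LosA_exp_meas (8 * ε ^ 2)).stronglyMeasurable.integral_prod_right' (ν := μ')).aestronglyMeasurable
  · rw [Real.norm_of_nonneg (h0 y)]
    calc _ ≤ ∫ y', (1 : ℝ) ∂μ' := integral_mono (LosA_int hb y) (integrable_const 1) (fun y' => LosA_exp_le hb y y')
      _ = 1 := by simp

theorem LosA_Tr_nonneg {P : Finset V} {μ μ' : Measure V} {r ε : ℝ} : 0 ≤ Tr μ μ' P r ε :=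
  integral_nonneg (fun _ => integral_nonneg (fun _ => (Real.exp_pos _).le))

theorem LosA_enorm {α β : Type*} [MeasurableSpace α] [MeasurableSpace β] (μ : Measure α) (ν : Measure β)
    (k : α → β → ℝ) (hk : ∀ a b, 0 ≤ k a b) :
    ‖∫ a, ∫ b, k a b ∂ν ∂μ‖ₑ ≤ ∫⁻ a, ∫⁻ b, ENNReal.ofReal (k a b) ∂ν ∂μ := by
  refine (enorm_integral_le_lintegral_enorm _).trans (lintegral_mono (fun a => ?_))
  refine (enorm_integral_le_lintegral_enorm _).trans (le_of_eq (lintegral_congr (fun b => ?_)))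
  rw [Real.enorm_eq_ofReal (hk a b)]

theorem LosA_far {r0 : ℝ} (hr0 : 0 < r0) {P : Finset V} {x y : V} (hx : x ≠ 0) (hy : N y = 1)
    (hPu : ∀ p ∈ P, N p = 1) (hxP : ∀ p ∈ P, r0 ≤ tau x p) (hyP : y ∉ Kr P (r0 / 4)) : r0 / 4 ≤ tau x y := by
  have h1 : ∃ p ∈ P, tau y p < r0 / 4 := by
    by_contra hcon
    push Not at hcon
    exact hyP ⟨hy, hcon⟩
  obtain ⟨p, hp, hpy⟩ := h1
  have h2 := tau_metric hx (LosA_ne hy) (LosA_ne (hPu p hp))
  have h3 : Real.sqrt r0 ≤ Real.sqrt (tau x p) := Real.sqrt_le_sqrt (hxP p hp)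
  have h4 : Real.sqrt (tau y p) ≤ Real.sqrt r0 / 2 := by
    have : Real.sqrt r0 / 2 = Real.sqrt (r0 / 4) := by
      rw [Real.sqrt_div hr0.le]
      congr 1
      rw [show (4 : ℝ) = 2 ^ 2 by norm_num, Real.sqrt_sq (by norm_num)]
    rw [this]
    exact Real.sqrt_le_sqrt hpy.le
  have h5 : Real.sqrt r0 / 2 ≤ Real.sqrt (tau x y) := by linarith
  have h6 : (Real.sqrt r0 / 2) ^ 2 ≤ Real.sqrt (tau x y) ^ 2 := by
    have := Real.sqrt_nonneg r0
    gcongr
  rw [Real.sq_sqrt (tau_nonneg x y), div_pow, Real.sq_sqrt hr0.le] at h6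
  linarith

theorem loss_bound {F : Fin 3 → MvPolynomial (Fin 3) ℂ} {d : ℕ}
    (hF : ∀ j, (F j).IsHomogeneous d) {P : Finset V} (hP : SingPts F P) :
    ∃ (C : ℝ) (m : ℕ), 0 < C ∧ ∀ (μ μ' : Measure V), IsCur F μ → IsCur F μ' →
      ∀ (ε r0 : ℝ), 0 < ε → ε ≤ 1 → 0 < r0 → r0 ≤ 1 →
        Loss F μ μ' P r0 ε ≤
          C * (r0⁻¹) ^ m * (ε⁻¹) ^ 2 * Tr μ μ' P (r0 / 4) ε +
            C * (ε⁻¹) ^ 8 * Real.exp (-r0 / (4 * ε ^ 2)) := by
  obtain ⟨C, hC, hdir⟩ := dir hF
  obtain ⟨c, m, hc, hnst⟩ := nullst_Kr hP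
  obtain ⟨D0, hD0⟩ : ∃ D0 : ℝ, D0 = C * (1 + 2 * (4 ^ m / c)) + 4 := ⟨_, rfl⟩
  have hD00 : 0 < D0 := by rw [hD0]; positivity
  refine ⟨128 * Real.pi ^ 3 * D0 + 10 * Real.pi ^ 3, m, by positivity, ?_⟩
  intro μ μ' hμ hμ' ε r0 hε h1 hr0 hr1
  have : IsProbabilityMeasure μ := ⟨hμ.prob⟩
  have : IsProbabilityMeasure μ' := ⟨hμ'.prob⟩
  obtain ⟨lam, hlam⟩ : ∃ lam : ℝ, lam = c * (r0 / 4) ^ m := ⟨_, rfl⟩
  have hl0 : 0 < lam := by rw [hlam]; positivity
  obtain ⟨D, hD⟩ : ∃ D : ℝ, D = C * (1 + 2 / lam) + 4 := ⟨_, rfl⟩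
  have hDpos : 0 < D := by rw [hD]; positivity
  obtain ⟨U, hU⟩ : ∃ U : ℝ, U = 8 * D * ε⁻¹ ^ 6 := ⟨_, rfl⟩
  have hU0 : 0 ≤ U := by rw [hU]; positivity
  obtain ⟨W, hW⟩ : ∃ W : ℝ, W = 20 * ε⁻¹ ^ 8 * Real.exp (-r0 / (4 * ε ^ 2)) := ⟨_, rfl⟩
  have hW0 : 0 ≤ W := by rw [hW]; positivity
  have hb8 : 0 < 8 * ε ^ 2 := by positivity
  have hb4 : 0 < 4 * ε ^ 2 := by positivity
  have hKm : MeasurableSet (Kr P (r0 / 4)) := Kr_meas P _
  obtain ⟨E1, hE1⟩ : ∃ E1 : V → ENNReal, E1 = fun y => ∫⁻ y', ENNReal.ofReal (Real.exp (-(tau y y') / (8 * ε ^ 2))) ∂μ' :=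
    ⟨_, rfl⟩
  have hE1m : Measurable E1 := by
    rw [hE1]
    exact (LosA_exp_meas (8 * ε ^ 2)).ennreal_ofReal.lintegral_prod_right'
  obtain ⟨G, hG⟩ : ∃ G : V → ENNReal, G = (Kr P (r0 / 4)).indicator (fun y => ENNReal.ofReal U * E1 y) := ⟨_, rfl⟩
  have hGm : Measurable G := by
    rw [hG]
    exact (hE1m.const_mul _).indicator hKm
  have hgm : Measurable (fun q : V × V => G q.2 * ENNReal.ofReal (Real.exp (-(tau q.2 q.1) / (4 * ε ^ 2)))) :=
    (hGm.comp measurable_snd).mul ((LosA_exp_meas (4 * ε ^ 2)).comp (measurable_snd.prodMk measurable_fst)).ennreal_ofReal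
  have haeμ : ∀ᵐ y ∂μ, N y = 1 ∧ eta F y ≠ 0 := by
    filter_upwards [hμ.sphere, hμ.sing] with y h2 h3 using ⟨h2, h3⟩
  have haeμ' : ∀ᵐ y ∂μ', N y = 1 ∧ eta F y ≠ 0 := by
    filter_upwards [hμ'.sphere, hμ'.sing] with y h2 h3 using ⟨h2, h3⟩
  -- the pointwise bound
  have hpt : ∀ x ∈ {x : V | x ≠ 0 ∧ ∀ p ∈ P, r0 ≤ tau x p},
      ‖(ee (sm F μ ε x) (sm F μ' ε x)).re * wt x‖ₑ ≤
      ENNReal.ofReal (wt x / (N x) ^ 2) *
        (∫⁻ y, G y * ENNReal.ofReal (Real.exp (-(tau y x) / (4 * ε ^ 2))) ∂μ + ENNReal.ofReal W) := by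
    rintro x ⟨hx, hxP⟩
    have hN := LosA_N_pos hx
    have hNi : 0 ≤ ((N x) ^ 2)⁻¹ := by positivity
    have hwt : 0 ≤ wt x := (Real.exp_pos _).le
    rw [ee_smsm hμ hμ' hε h1 hx, Complex.ofReal_re, enorm_mul, Real.enorm_eq_ofReal hwt]
    have h2 := LosA_enorm μ μ' (fun y y' => LosA_k F ε x y y') (fun y y' => LosA_k_nonneg F ε x y y')
    have h3 : ∫⁻ y, ∫⁻ y', ENNReal.ofReal (LosA_k F ε x y y') ∂μ' ∂μ ≤
        ENNReal.ofReal ((N x) ^ 2)⁻¹ *
        (∫⁻ y, G y * ENNReal.ofReal (Real.exp (-(tau y x) / (4 * ε ^ 2))) ∂μ + ENNReal.ofReal W) := by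
      calc _ ≤ ∫⁻ y, ENNReal.ofReal ((N x) ^ 2)⁻¹ *
            (G y * ENNReal.ofReal (Real.exp (-(tau y x) / (4 * ε ^ 2))) + ENNReal.ofReal W) ∂μ := by
            apply lintegral_mono_ae
            filter_upwards [haeμ] with y hy
            by_cases hyK : y ∈ Kr P (r0 / 4)
            · have hle : lam ≤ N (eta F y) := by
                rw [hlam]
                exact hnst (r0 / 4) (by positivity) (by linarith) y hyK
              calc _ ≤ ∫⁻ y', ENNReal.ofReal (((N x) ^ 2)⁻¹ * U * Real.exp (-(tau y x) / (4 * ε ^ 2))) *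
                    ENNReal.ofReal (Real.exp (-(tau y y') / (8 * ε ^ 2))) ∂μ' := by
                    apply lintegral_mono_ae
                    filter_upwards [haeμ'] with y' hy'
                    rw [← ENNReal.ofReal_mul (by positivity)]
                    apply ENNReal.ofReal_le_ofReal
                    refine (LosA_ptB hC hε h1 hl0 (hdir x y y' hx hy.1 hy'.1 hy.2 hy'.2) hx hy.1 hy'.1 hy.2 hy'.2 hle).trans
                      (le_of_eq ?_)
                    rw [hU, hD]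
                    field_simp
                _ = ENNReal.ofReal ((N x) ^ 2)⁻¹ * (G y * ENNReal.ofReal (Real.exp (-(tau y x) / (4 * ε ^ 2)))) := by
                    rw [lintegral_const_mul' _ _ ENNReal.ofReal_ne_top, hG, Set.indicator_of_mem hyK, hE1,
                      ENNReal.ofReal_mul (by positivity), ENNReal.ofReal_mul hNi]
                    ring
                _ ≤ _ := by
                    gcongr
                    exact le_self_add
            · have ht : r0 / 4 ≤ tau x y := LosA_far hr0 hx hy.1 hP.unit hxP hyK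
              calc _ ≤ ∫⁻ y', ENNReal.ofReal (((N x) ^ 2)⁻¹ * W) ∂μ' := by
                    apply lintegral_mono_ae
                    filter_upwards [haeμ'] with y' hy'
                    apply ENNReal.ofReal_le_ofReal
                    refine (LosA_ptA hε h1 hx hy.1 hy'.1 hy.2 hy'.2 ht).trans (le_of_eq ?_)
                    rw [hW]
                    field_simp
                _ = ENNReal.ofReal ((N x) ^ 2)⁻¹ * ENNReal.ofReal W := by
                    rw [lintegral_const, measure_univ, mul_one, ENNReal.ofReal_mul hNi]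
                _ ≤ _ := by
                    gcongr
                    exact le_add_self
        _ = _ := by
            rw [lintegral_const_mul' _ _ ENNReal.ofReal_ne_top, lintegral_add_right _ measurable_const,
              lintegral_const, measure_univ, mul_one]
    calc _ ≤ (ENNReal.ofReal ((N x) ^ 2)⁻¹ *
        (∫⁻ y, G y * ENNReal.ofReal (Real.exp (-(tau y x) / (4 * ε ^ 2))) ∂μ + ENNReal.ofReal W)) *
          ENNReal.ofReal (wt x) := by
          gcongr
          exact h2.trans h3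
      _ = _ := by
          rw [div_eq_mul_inv, ENNReal.ofReal_mul hwt]
          ring
  -- the integral over x
  have hmeasx : Measurable (fun x : V => ∫⁻ y, G y * ENNReal.ofReal (Real.exp (-(tau y x) / (4 * ε ^ 2))) ∂μ +
      ENNReal.ofReal W) := (hgm.lintegral_prod_right').add_const _
  have hdens : Measurable (fun x : V => ENNReal.ofReal (wt x / (N x) ^ 2)) := by
    apply Measurable.ennreal_ofReal
    unfold wt
    exact (Real.measurable_exp.comp LosA_cont_N.measurable.neg).div (LosA_cont_N.measurable.pow_const 2)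
  have hRm : MeasurableSet {x : V | x ≠ 0 ∧ ∀ p ∈ P, r0 ≤ tau x p} := by
    have e1 : {x : V | x ≠ 0 ∧ ∀ p ∈ P, r0 ≤ tau x p} = {0}ᶜ ∩ ⋂ p ∈ P, {x : V | r0 ≤ tau x p} := by
      ext x
      simp
    rw [e1]
    refine (measurableSet_singleton (0 : V)).compl.inter (Finset.measurableSet_biInter P (fun p _ => ?_))
    have hf : Measurable (fun _ : V => r0) := measurable_const
    exact measurableSet_le hf (LosA_tau_meas p)
  have hmain : ‖Loss F μ μ' P r0 ε‖ₑ ≤
      ENNReal.ofReal (U * (Real.pi ^ 3 * (4 * ε ^ 2) ^ 2) * Tr μ μ' P (r0 / 4) ε + W * (Real.pi ^ 3 / 2)) := by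
    calc ‖Loss F μ μ' P r0 ε‖ₑ ≤ ∫⁻ x in {x : V | x ≠ 0 ∧ ∀ p ∈ P, r0 ≤ tau x p},
          ‖(ee (sm F μ ε x) (sm F μ' ε x)).re * wt x‖ₑ := enorm_integral_le_lintegral_enorm _
      _ ≤ ∫⁻ x in {x : V | x ≠ 0 ∧ ∀ p ∈ P, r0 ≤ tau x p}, ENNReal.ofReal (wt x / (N x) ^ 2) *
        (∫⁻ y, G y * ENNReal.ofReal (Real.exp (-(tau y x) / (4 * ε ^ 2))) ∂μ + ENNReal.ofReal W) :=
          setLIntegral_mono' hRm hpt
      _ ≤ ∫⁻ x, ENNReal.ofReal (wt x / (N x) ^ 2) *
        (∫⁻ y, G y * ENNReal.ofReal (Real.exp (-(tau y x) / (4 * ε ^ 2))) ∂μ + ENNReal.ofReal W) :=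
          setLIntegral_le_lintegral _ _
      _ = ∫⁻ x, (∫⁻ y, G y * ENNReal.ofReal (Real.exp (-(tau y x) / (4 * ε ^ 2))) ∂μ + ENNReal.ofReal W) ∂nuP := by
          unfold nuP
          rw [lintegral_withDensity_eq_lintegral_mul _ hdens hmeasx]
          rfl
      _ = ∫⁻ x, ∫⁻ y, G y * ENNReal.ofReal (Real.exp (-(tau y x) / (4 * ε ^ 2))) ∂μ ∂nuP +
          ENNReal.ofReal W * nuP Set.univ := by
          rw [lintegral_add_right _ measurable_const, lintegral_const]
      _ = ∫⁻ y, ∫⁻ x, G y * ENNReal.ofReal (Real.exp (-(tau y x) / (4 * ε ^ 2))) ∂nuP ∂μ +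
          ENNReal.ofReal W * nuP Set.univ := by
          congr 1
          exact lintegral_lintegral_swap hgm.aemeasurable
      _ ≤ ∫⁻ y, G y * ENNReal.ofReal (Real.pi ^ 3 * (4 * ε ^ 2) ^ 2) ∂μ +
          ENNReal.ofReal W * nuP Set.univ := by
          gcongr ?_ + _
          apply lintegral_mono_ae
          filter_upwards [haeμ] with y hy
          rw [lintegral_const_mul]
          · gcongr
            exact nu_exp (LosA_ne hy.1) hb4
          · exact ((LosA_exp_meas (4 * ε ^ 2)).comp (measurable_const.prodMk measurable_id)).ennreal_ofReal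
      _ = ENNReal.ofReal U * ENNReal.ofReal (Tr μ μ' P (r0 / 4) ε) * ENNReal.ofReal (Real.pi ^ 3 * (4 * ε ^ 2) ^ 2) +
          ENNReal.ofReal W * ENNReal.ofReal (Real.pi ^ 3 / 2) := by
          rw [lintegral_mul_const _ hGm, hG, lintegral_indicator hKm, lintegral_const_mul' _ _ ENNReal.ofReal_ne_top,
            hE1, LosA_Tr hε, nuP_univ]
      _ = _ := by
          rw [← ENNReal.ofReal_mul hU0, ← ENNReal.ofReal_mul (mul_nonneg hU0 LosA_Tr_nonneg),
            ← ENNReal.ofReal_mul hW0, ← ENNReal.ofReal_add]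
          · congr 1
            ring
          · exact mul_nonneg (mul_nonneg hU0 LosA_Tr_nonneg) (by positivity)
          · positivity
  have hT0 : 0 ≤ Tr μ μ' P (r0 / 4) ε := LosA_Tr_nonneg
  have hfin : Loss F μ μ' P r0 ε ≤
      U * (Real.pi ^ 3 * (4 * ε ^ 2) ^ 2) * Tr μ μ' P (r0 / 4) ε + W * (Real.pi ^ 3 / 2) := by
    rw [← ofReal_norm, ENNReal.ofReal_le_ofReal_iff (by positivity)] at hmain
    exact (le_abs_self _).trans hmain
  refine hfin.trans ?_
  have hDle : D ≤ D0 * (r0⁻¹) ^ m := by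
    have h5 : 1 ≤ (r0⁻¹) ^ m := one_le_pow₀ ((one_le_inv₀ hr0).2 hr1)
    have h6 : 2 / lam = 2 * (4 ^ m / c) * (r0⁻¹) ^ m := by
      rw [hlam, div_pow, inv_pow]
      field_simp
    have h7 : 0 ≤ 2 * (4 ^ m / c) := by positivity
    rw [hD, hD0, h6]
    nlinarith
  have e1 : U * (Real.pi ^ 3 * (4 * ε ^ 2) ^ 2) = 128 * Real.pi ^ 3 * D * (ε⁻¹) ^ 2 := by
    rw [hU]
    field_simp
    ring
  rw [e1, hW]
  have hpi : 0 < Real.pi ^ 3 := by positivity
  apply add_le_add
  · calc 128 * Real.pi ^ 3 * D * (ε⁻¹) ^ 2 * Tr μ μ' P (r0 / 4) ε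
        ≤ 128 * Real.pi ^ 3 * (D0 * (r0⁻¹) ^ m) * (ε⁻¹) ^ 2 * Tr μ μ' P (r0 / 4) ε := by gcongr
      _ = (128 * Real.pi ^ 3 * D0) * (r0⁻¹) ^ m * (ε⁻¹) ^ 2 * Tr μ μ' P (r0 / 4) ε := by ring
      _ ≤ _ := by
          gcongr
          linarith
  · calc 20 * ε⁻¹ ^ 8 * Real.exp (-r0 / (4 * ε ^ 2)) * (Real.pi ^ 3 / 2)
        = (10 * Real.pi ^ 3) * (ε⁻¹) ^ 8 * Real.exp (-r0 / (4 * ε ^ 2)) := by ring
      _ ≤ _ := by
          gcongr
          have : 0 < 128 * Real.pi ^ 3 * D0 := by positivity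
          linarith

end Pool.Agent.H85.DC

end S_H85_DC_LosA

section S_H76_FT_Defs

/-!
# MP_6873ef_an, block T: the loss without energy hypothesis (helper76). Definitions

Everything is written in the notation of `Pool.Agent.H85.DC` (helper85): `V = ℂ³`, `N`, `ip`, `tau`, `cr`, `eta F`,
`wv F`, `pr F`, `IsCur`, `DdcClosed`, `Loss`, `En`, `Kr`.
-/

open MeasureTheory Filter Topology
open scoped ContDiff BigOperators ComplexConjugate Matrix

namespace FT76

open Pool.Agent.H85.DC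

/-- the bilinear pairing of `ℂ³` -/
noncomputable def bp (a b : V) : ℂ := ∑ j, a j * b j

/-- the derivative of the polynomial `f` at `y` in the direction `v` -/
noncomputable def dP (f : MvPolynomial (Fin 3) ℂ) (y v : V) : ℂ :=
  ∑ i, v i * MvPolynomial.eval y (MvPolynomial.pderiv i f)

/-- the derivative of the vector field at `y` in the direction `v` -/
noncomputable def dZ (F : Fin 3 → MvPolynomial (Fin 3) ℂ) (y v : V) : V := fun j => dP (F j) y v

/-- the derivative of `eta F = cr y (Zf F y)` at `y` in the direction `v` -/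
noncomputable def dEta (F : Fin 3 → MvPolynomial (Fin 3) ℂ) (y v : V) : V :=
  cr v (Zf F y) + cr y (dZ F y v)

/-- the unit conormal -/
noncomputable def nv (F : Fin 3 → MvPolynomial (Fin 3) ℂ) (y : V) : V :=
  ((Real.sqrt (N (eta F y)))⁻¹ : ℂ) • eta F y

/-- the unit vector orthogonal to `y` and to the foliation -/
noncomputable def tv (F : Fin 3 → MvPolynomial (Fin 3) ℂ) (y : V) : V := fun j => conj (nv F y j)

/-- squared curvature of the leaf -/
noncomputable def IIq (F : Fin 3 → MvPolynomial (Fin 3) ℂ) (y : V) : ℝ :=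
  N (cr (dEta F y (wv F y)) (eta F y)) / (N (eta F y)) ^ 2

/-- squared transverse derivative of the direction field -/
noncomputable def Kq (F : Fin 3 → MvPolynomial (Fin 3) ℂ) (y : V) : ℝ :=
  N (cr (dEta F y (tv F y)) (eta F y)) / (N (eta F y)) ^ 2

/-- logarithmic growth of the transverse energy -/
def EK (F : Fin 3 → MvPolynomial (Fin 3) ℂ) (P : Finset V) (μ : Measure V) : Prop :=
  ∃ C : ℝ, 0 ≤ C ∧ ∀ r : ℝ, 0 < r → r < 1 →
    ∫⁻ y in Kr P r, ENNReal.ofReal (Kq F y) ∂μ ≤ ENNReal.ofReal (C * (1 + Real.log (1 / r)))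

/-- the main part of the loss at the scale `ε` -/
noncomputable def L1 (F : Fin 3 → MvPolynomial (Fin 3) ℂ) (μ μ' : Measure V) (P : Finset V) (r ε : ℝ) : ENNReal :=
  ∫⁻ y in Kr P r, ∫⁻ y', ENNReal.ofReal (ε⁻¹ ^ 4 * Kq F y * Complex.normSq (bp (nv F y') y) *
    Real.exp (-(tau y y') / (8 * ε ^ 2))) ∂μ' ∂μ

/-- the secondary part of the loss at the scale `ε` -/
noncomputable def Q2 (F : Fin 3 → MvPolynomial (Fin 3) ℂ) (μ μ' : Measure V) (ε : ℝ) : ENNReal :=
  ∫⁻ y, ∫⁻ y', ENNReal.ofReal (ε⁻¹ ^ 2 * (1 + IIq F y) * Real.exp (-(tau y y') / (16 * ε ^ 2))) ∂μ' ∂μ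

end FT76

end S_H76_FT_Defs

section S_H76_FT_TA

/-!
# Row TA: first derivatives of the conormal field

`dP f y v = ∑ v_i ∂_i f(y)`.  Facts (all elementary):
1. `dP_hasDeriv`: polynomial functions are complex differentiable and the derivative of `t ↦ eval (y + t v) f` is `dP f (y + t v) v` (induction on f, or
   `MvPolynomial.induction_on`: constants, sums, products with X i; `MvPolynomial.pderiv` is a derivation).
2. `dP_euler`: f homogeneous of degree d: `dP f y y = d * eval y f` (Mathlib: `MvPolynomial.IsHomogeneous.sum_X_mul_pderiv` or differentiate `eval (t y) f = t^d eval y f`).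
3. `dEta_euler`: `dEta F y y = (d+1) • eta F y`: `cr y (Zf F y) + cr y (d • Zf F y)`, `eta_cr`.
4. `dEta_lin`: additivity and homogeneity in v (`cr_add_left`, `cr` is bilinear; expand coordinates).
5. `dEta_bdd`: for `N y = 1`: `N (dEta F y v) ≤ C * N v` (coefficients bounded on the compact unit sphere; the entries of `dEta F y v` are sums of `v_i` times polynomials in y).
6. `eta_taylor`: for unit `y, y'`: `N (eta F y' - eta F y - dEta F y (y' - y)) ≤ C * (N (y' - y))^2`.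
   For a polynomial f: |f(y') - f(y) - dP f y (y'-y)| ≤ C |y'-y|^2 on the ball |y_i| <= 1: induction on f: true for constants and coordinates (error 0), sums;
   product f * X i: f(y') y'_i - f(y) y_i - (dP f y v) y_i - f(y) v_i = (f(y') - f(y) - dP f y v) y_i + (f(y') - f(y)) v_i, the last |..| <= C|v||v_i| by the Lipschitz property
   (which is part of the induction).  The components of `eta F` are evaluations of `X i * F j - X j * F i`, and `dEta` are the `dP` of these.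
7. basis: for unit y with eta ≠ 0 the vectors y, w = wv F y, t = tv F y are orthonormal (`wv_unit`, `wv_orth`; `nv F y = cr y w` (`wv_cr`), so bp (nv) y = 0, bp (nv) w = 0 (determinants with
   two equal rows), `ip v t = ∑ v_j nv_j = bp (nv F y) v`; N nv = 1).  Hence `v = ip v y • y + ip v w • w + ip v t • t` and `N v = |ip v y|^2 + |ip v w|^2 + |ip v t|^2`.
   Direct proof: the 3 × 3 matrix with rows y, w, t is unitary (`Matrix.mem_unitaryGroup_iff`): U U^* = 1 hence U^* U = 1.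
8. measurability of `nv F`, `IIq F`, `Kq F` (continuous functions divided by `√N`, `measurable_wv`).
-/

open MeasureTheory Filter Topology
open scoped ContDiff BigOperators ComplexConjugate Matrix

namespace FT76

open Pool.Agent.H85.DC

theorem TA_dP_C (a : ℂ) (y v : V) : dP (MvPolynomial.C a) y v = 0 := by
  unfold dP
  simp

theorem TA_dP_addf (f g : MvPolynomial (Fin 3) ℂ) (y v : V) :
    dP (f + g) y v = dP f y v + dP g y v := by
  unfold dP
  simp only [map_add, mul_add, Finset.sum_add_distrib]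

theorem TA_dP_subf (f g : MvPolynomial (Fin 3) ℂ) (y v : V) :
    dP (f - g) y v = dP f y v - dP g y v := by
  unfold dP
  simp only [map_sub, mul_sub, Finset.sum_sub_distrib]

theorem TA_dP_mulf (f g : MvPolynomial (Fin 3) ℂ) (y v : V) :
    dP (f * g) y v = dP f y v * MvPolynomial.eval y g + MvPolynomial.eval y f * dP g y v := by
  unfold dP
  rw [Finset.sum_mul, Finset.mul_sum, ← Finset.sum_add_distrib]
  refine Finset.sum_congr rfl fun i _ => ?_
  rw [MvPolynomial.pderiv_mul, map_add, map_mul, map_mul]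
  ring

theorem TA_dP_X (i : Fin 3) (y v : V) : dP (MvPolynomial.X i) y v = v i := by
  classical
  unfold dP
  rw [Finset.sum_eq_single i]
  · simp
  · intro j _ hj
    rw [MvPolynomial.pderiv_X_of_ne (Ne.symm hj)]
    simp
  · intro h
    exact absurd (Finset.mem_univ i) h

theorem dP_hasDeriv (f : MvPolynomial (Fin 3) ℂ) (y v : V) (t : ℂ) :
    HasDerivAt (fun t : ℂ => MvPolynomial.eval (y + t • v) f) (dP f (y + t • v) v) t := by
  induction f using MvPolynomial.induction_on with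
  | C a =>
    simp only [MvPolynomial.eval_C, TA_dP_C]
    exact hasDerivAt_const t a
  | add p q hp hq =>
    simp only [map_add, TA_dP_addf]
    exact hp.add hq
  | mul_X p i hp =>
    simp only [map_mul, MvPolynomial.eval_X, TA_dP_mulf, TA_dP_X]
    have h1 : HasDerivAt (fun t : ℂ => (y + t • v) i) (v i) t := by
      simp only [Pi.add_apply, Pi.smul_apply, smul_eq_mul]
      have := ((hasDerivAt_id t).mul_const (v i)).const_add (y i)
      simpa using this
    exact hp.mul h1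

theorem dP_euler {f : MvPolynomial (Fin 3) ℂ} {d : ℕ} (hf : f.IsHomogeneous d) (y : V) :
    dP f y y = d * MvPolynomial.eval y f := by
  have h := hf.sum_X_mul_pderiv
  have h2 := congrArg (MvPolynomial.eval y) h
  simp only [map_sum, map_mul, MvPolynomial.eval_X, map_nsmul, nsmul_eq_mul] at h2
  unfold dP
  rw [h2]
  try simp

theorem dP_add (f : MvPolynomial (Fin 3) ℂ) (y v v' : V) : dP f y (v + v') = dP f y v + dP f y v' := by
  unfold dP
  simp only [Pi.add_apply, add_mul, Finset.sum_add_distrib]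

theorem dP_smul (f : MvPolynomial (Fin 3) ℂ) (c : ℂ) (y v : V) : dP f y (c • v) = c * dP f y v := by
  unfold dP
  simp only [Pi.smul_apply, smul_eq_mul, Finset.mul_sum]
  exact Finset.sum_congr rfl fun i _ => by ring

noncomputable def TA_Q (F : Fin 3 → MvPolynomial (Fin 3) ℂ) : Fin 3 → MvPolynomial (Fin 3) ℂ :=
  ![MvPolynomial.X 1 * F 2 - MvPolynomial.X 2 * F 1, MvPolynomial.X 2 * F 0 - MvPolynomial.X 0 * F 2,
    MvPolynomial.X 0 * F 1 - MvPolynomial.X 1 * F 0]

theorem TA_Q_eta (F : Fin 3 → MvPolynomial (Fin 3) ℂ) (y : V) (j : Fin 3) :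
    eta F y j = MvPolynomial.eval y (TA_Q F j) := by
  unfold eta TA_Q Zf
  fin_cases j <;> simp

theorem TA_Q_dEta (F : Fin 3 → MvPolynomial (Fin 3) ℂ) (y v : V) (j : Fin 3) :
    dEta F y v j = dP (TA_Q F j) y v := by
  unfold dEta cr TA_Q Zf dZ
  fin_cases j <;> simp [TA_dP_subf, TA_dP_mulf, TA_dP_X] <;> ring

/-- the components of `eta F` are polynomials whose derivatives are the components of `dEta F` -/
theorem eta_poly {F : Fin 3 → MvPolynomial (Fin 3) ℂ} {d : ℕ} (hF : ∀ j, (F j).IsHomogeneous d) :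
    ∃ Q : Fin 3 → MvPolynomial (Fin 3) ℂ, (∀ j, (Q j).IsHomogeneous (d + 1)) ∧
      (∀ y j, eta F y j = MvPolynomial.eval y (Q j)) ∧ ∀ y v j, dEta F y v j = dP (Q j) y v := by
  refine ⟨TA_Q F, ?_, TA_Q_eta F, TA_Q_dEta F⟩
  have h : ∀ i j, (MvPolynomial.X i * F j).IsHomogeneous (d + 1) := fun i j => by
    have := (MvPolynomial.isHomogeneous_X ℂ i).mul (hF j)
    rwa [add_comm] at this
  intro j
  unfold TA_Q
  fin_cases j
  · exact (h 1 2).sub (h 2 1)
  · exact (h 2 0).sub (h 0 2)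
  · exact (h 0 1).sub (h 1 0)

theorem dEta_euler {F : Fin 3 → MvPolynomial (Fin 3) ℂ} {d : ℕ} (hF : ∀ j, (F j).IsHomogeneous d) (y : V) :
    dEta F y y = ((d : ℂ) + 1) • eta F y := by
  obtain ⟨Q, hQ, h1, h2⟩ := eta_poly hF
  funext j
  rw [h2, dP_euler (hQ j), Pi.smul_apply, h1, smul_eq_mul]
  push_cast
  ring

theorem dEta_add (F : Fin 3 → MvPolynomial (Fin 3) ℂ) (y v v' : V) : dEta F y (v + v') = dEta F y v + dEta F y v' := by
  funext j
  rw [Pi.add_apply, TA_Q_dEta, TA_Q_dEta, TA_Q_dEta, dP_add]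

theorem dEta_smul (F : Fin 3 → MvPolynomial (Fin 3) ℂ) (c : ℂ) (y v : V) : dEta F y (c • v) = c • dEta F y v := by
  funext j
  rw [Pi.smul_apply, TA_Q_dEta, TA_Q_dEta, dP_smul, smul_eq_mul]

theorem TA_norm_le {y : V} (hy : N y = 1) : ‖y‖ ≤ 1 := by
  have := norm_sq_le_N y
  rw [hy] at this
  nlinarith [norm_nonneg y]

theorem TA_poly_bdd (p : MvPolynomial (Fin 3) ℂ) :
    ∃ C : ℝ, 0 ≤ C ∧ ∀ y : V, N y = 1 → ‖MvPolynomial.eval y p‖ ≤ C := by
  obtain ⟨C, hC⟩ := compact_sphere.exists_bound_of_continuousOn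
    (f := fun y : V => MvPolynomial.eval y p) (MvPolynomial.continuous_eval p).continuousOn
  exact ⟨|C|, abs_nonneg _, fun y hy => (hC y hy).trans (le_abs_self C)⟩

theorem TA_dP_bdd (p : MvPolynomial (Fin 3) ℂ) :
    ∃ C : ℝ, 0 ≤ C ∧ ∀ y v : V, N y = 1 → Complex.normSq (dP p y v) ≤ C * N v := by
  choose C hC0 hC using fun i => TA_poly_bdd (MvPolynomial.pderiv i p)
  refine ⟨∑ i, C i ^ 2, Finset.sum_nonneg fun i _ => sq_nonneg _, ?_⟩
  intro y v hy
  have h1 := Lin_csv v (fun i => MvPolynomial.eval y (MvPolynomial.pderiv i p))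
  have h2 : N (fun i => MvPolynomial.eval y (MvPolynomial.pderiv i p)) ≤ ∑ i, C i ^ 2 := by
    unfold N
    refine Finset.sum_le_sum fun i _ => ?_
    rw [Complex.normSq_eq_norm_sq]
    exact pow_le_pow_left₀ (norm_nonneg _) (hC i y hy) 2
  unfold dP
  refine h1.trans ?_
  rw [mul_comm]
  exact mul_le_mul_of_nonneg_right h2 (N_nonneg v)

theorem dEta_bdd (F : Fin 3 → MvPolynomial (Fin 3) ℂ) :
    ∃ C : ℝ, 0 < C ∧ ∀ y v : V, N y = 1 → N (dEta F y v) ≤ C * N v := by
  choose C hC0 hC using fun j => TA_dP_bdd (TA_Q F j)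
  have hs : 0 ≤ ∑ j, C j := Finset.sum_nonneg fun j _ => hC0 j
  refine ⟨∑ j, C j + 1, by linarith, ?_⟩
  intro y v hy
  have h1 : N (dEta F y v) ≤ ∑ j, C j * N v := by
    unfold N
    refine Finset.sum_le_sum fun j _ => ?_
    rw [TA_Q_dEta]
    exact hC j y v hy
  rw [← Finset.sum_mul] at h1
  have := N_nonneg v
  nlinarith

theorem TA_taylor (p : MvPolynomial (Fin 3) ℂ) : ∃ C : ℝ, 0 ≤ C ∧
    (∀ y : V, ‖y‖ ≤ 1 → ‖MvPolynomial.eval y p‖ ≤ C) ∧
    (∀ y y' : V, ‖y‖ ≤ 1 → ‖y'‖ ≤ 1 →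
      ‖MvPolynomial.eval y' p - MvPolynomial.eval y p‖ ≤ C * ‖y' - y‖) ∧
    (∀ y y' : V, ‖y‖ ≤ 1 → ‖y'‖ ≤ 1 →
      ‖MvPolynomial.eval y' p - MvPolynomial.eval y p - dP p y (y' - y)‖ ≤ C * ‖y' - y‖ ^ 2) := by
  induction p using MvPolynomial.induction_on with
  | C a =>
    refine ⟨‖a‖, norm_nonneg _, fun y _ => by simp, fun y y' _ _ => ?_, fun y y' _ _ => ?_⟩
    · simp only [MvPolynomial.eval_C, sub_self, norm_zero]
      positivity
    · simp only [MvPolynomial.eval_C, sub_self, TA_dP_C, norm_zero]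
      positivity
  | add p q hp hq =>
    obtain ⟨C, hC, h1, h2, h3⟩ := hp
    obtain ⟨D, hD, k1, k2, k3⟩ := hq
    refine ⟨C + D, by positivity, fun y hy => ?_, fun y y' hy hy' => ?_, fun y y' hy hy' => ?_⟩
    · rw [map_add]
      exact (norm_add_le _ _).trans (add_le_add (h1 y hy) (k1 y hy))
    · rw [map_add, map_add, add_sub_add_comm, add_mul]
      exact (norm_add_le _ _).trans (add_le_add (h2 y y' hy hy') (k2 y y' hy hy'))
    · rw [map_add, map_add, TA_dP_addf, add_mul]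
      have e : MvPolynomial.eval y' p + MvPolynomial.eval y' q -
          (MvPolynomial.eval y p + MvPolynomial.eval y q) - (dP p y (y' - y) + dP q y (y' - y)) =
          (MvPolynomial.eval y' p - MvPolynomial.eval y p - dP p y (y' - y)) +
          (MvPolynomial.eval y' q - MvPolynomial.eval y q - dP q y (y' - y)) := by ring
      rw [e]
      exact (norm_add_le _ _).trans (add_le_add (h3 y y' hy hy') (k3 y y' hy hy'))
  | mul_X p i hp =>
    obtain ⟨C, hC, h1, h2, h3⟩ := hp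
    have hco : ∀ z : V, ‖z‖ ≤ 1 → ‖z i‖ ≤ 1 := fun z hz => (norm_le_pi_norm z i).trans hz
    refine ⟨2 * C, by positivity, fun y hy => ?_, fun y y' hy hy' => ?_, fun y y' hy hy' => ?_⟩
    · rw [map_mul, MvPolynomial.eval_X, norm_mul]
      have := hco y hy
      nlinarith [h1 y hy, norm_nonneg (y i), norm_nonneg (MvPolynomial.eval y p)]
    · rw [map_mul, map_mul, MvPolynomial.eval_X, MvPolynomial.eval_X]
      have e : MvPolynomial.eval y' p * y' i - MvPolynomial.eval y p * y i =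
          (MvPolynomial.eval y' p - MvPolynomial.eval y p) * y' i +
            MvPolynomial.eval y p * ((y' - y) i) := by
        simp only [Pi.sub_apply]; ring
      rw [e]
      refine (norm_add_le _ _).trans ?_
      rw [norm_mul, norm_mul]
      have a1 := hco y' hy'
      have a2 : ‖(y' - y) i‖ ≤ ‖y' - y‖ := norm_le_pi_norm (y' - y) i
      have a3 := h2 y y' hy hy'
      have a4 := h1 y hy
      have b1 : ‖MvPolynomial.eval y' p - MvPolynomial.eval y p‖ * ‖y' i‖ ≤ C * ‖y' - y‖ * 1 := by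
        gcongr
      have b2 : ‖MvPolynomial.eval y p‖ * ‖(y' - y) i‖ ≤ C * ‖y' - y‖ := by
        gcongr
      linarith
    · rw [map_mul, map_mul, MvPolynomial.eval_X, MvPolynomial.eval_X, TA_dP_mulf, TA_dP_X,
        MvPolynomial.eval_X]
      have e : MvPolynomial.eval y' p * y' i - MvPolynomial.eval y p * y i -
          (dP p y (y' - y) * y i + MvPolynomial.eval y p * (y' - y) i) =
          (MvPolynomial.eval y' p - MvPolynomial.eval y p - dP p y (y' - y)) * y i +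
            (MvPolynomial.eval y' p - MvPolynomial.eval y p) * ((y' - y) i) := by
        simp only [Pi.sub_apply]; ring
      rw [e]
      refine (norm_add_le _ _).trans ?_
      rw [norm_mul, norm_mul]
      have a1 := hco y hy
      have a2 : ‖(y' - y) i‖ ≤ ‖y' - y‖ := norm_le_pi_norm (y' - y) i
      have a3 := h2 y y' hy hy'
      have a4 := h3 y y' hy hy'
      have b1 : ‖MvPolynomial.eval y' p - MvPolynomial.eval y p - dP p y (y' - y)‖ * ‖y i‖ ≤
          C * ‖y' - y‖ ^ 2 * 1 := by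
        gcongr
      have b2 : ‖MvPolynomial.eval y' p - MvPolynomial.eval y p‖ * ‖(y' - y) i‖ ≤
          (C * ‖y' - y‖) * ‖y' - y‖ := by
        gcongr
      nlinarith

theorem eta_taylor {F : Fin 3 → MvPolynomial (Fin 3) ℂ} {d : ℕ} (hF : ∀ j, (F j).IsHomogeneous d) :
    ∃ C : ℝ, 0 < C ∧ ∀ y y' : V, N y = 1 → N y' = 1 →
      N (eta F y' - eta F y - dEta F y (y' - y)) ≤ C * (N (y' - y)) ^ 2 := by
  choose C hC0 hC1 hC2 hC3 using fun j => TA_taylor (TA_Q F j)
  have hs : 0 ≤ ∑ j, C j ^ 2 := Finset.sum_nonneg fun j _ => sq_nonneg _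
  refine ⟨∑ j, C j ^ 2 + 1, by linarith, ?_⟩
  intro y y' hy hy'
  have hn := TA_norm_le hy
  have hn' := TA_norm_le hy'
  have h4 := norm_sq_le_N (y' - y)
  have h1 : N (eta F y' - eta F y - dEta F y (y' - y)) ≤ ∑ j, C j ^ 2 * (N (y' - y)) ^ 2 := by
    unfold N
    refine Finset.sum_le_sum fun j _ => ?_
    have e : (eta F y' - eta F y - dEta F y (y' - y)) j = MvPolynomial.eval y' (TA_Q F j) -
        MvPolynomial.eval y (TA_Q F j) - dP (TA_Q F j) y (y' - y) := by
      rw [Pi.sub_apply, Pi.sub_apply, TA_Q_eta, TA_Q_eta, TA_Q_dEta]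
    rw [e, Complex.normSq_eq_norm_sq]
    have h5 := hC3 j y y' hn hn'
    calc ‖MvPolynomial.eval y' (TA_Q F j) - MvPolynomial.eval y (TA_Q F j) -
          dP (TA_Q F j) y (y' - y)‖ ^ 2 ≤ (C j * ‖y' - y‖ ^ 2) ^ 2 :=
          pow_le_pow_left₀ (norm_nonneg _) h5 2
      _ = C j ^ 2 * (‖y' - y‖ ^ 2) ^ 2 := by ring
      _ ≤ C j ^ 2 * (N (y' - y)) ^ 2 := by
          apply mul_le_mul_of_nonneg_left _ (sq_nonneg _)
          exact pow_le_pow_left₀ (by positivity) h4 2
  rw [← Finset.sum_mul] at h1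
  have := sq_nonneg (N (y' - y))
  linarith

theorem nv_eq (F : Fin 3 → MvPolynomial (Fin 3) ℂ) (y : V) : nv F y = cr y (wv F y) := by
  rw [wv_cr]
  rfl

theorem nv_unit {F : Fin 3 → MvPolynomial (Fin 3) ℂ} {y : V} (h : eta F y ≠ 0) : N (nv F y) = 1 := by
  unfold nv
  have hN := N_pos h
  rw [N_smul, map_inv₀, Complex.normSq_ofReal, Real.mul_self_sqrt hN.le, inv_mul_cancel₀ hN.ne']

theorem bp_nv (F : Fin 3 → MvPolynomial (Fin 3) ℂ) (y : V) : bp (nv F y) y = 0 := by
  rw [nv_eq]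
  unfold bp cr
  simp only [Fin.sum_univ_three]
  simp
  ring

theorem TA_bp_nv_w (F : Fin 3 → MvPolynomial (Fin 3) ℂ) (y : V) : bp (nv F y) (wv F y) = 0 := by
  rw [nv_eq]
  unfold bp cr
  simp only [Fin.sum_univ_three]
  simp
  ring

theorem ip_tv (F : Fin 3 → MvPolynomial (Fin 3) ℂ) (y v : V) : ip v (tv F y) = bp (nv F y) v := by
  unfold ip tv bp
  exact Finset.sum_congr rfl fun j _ => by rw [Complex.conj_conj, mul_comm]

theorem TA_ip_self (x : V) : ip x x = (N x : ℂ) := by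
  simp only [ip, N, Complex.mul_conj, Complex.ofReal_sum]

theorem TA_ip_conj (x y : V) : conj (ip x y) = ip y x := by
  simp only [ip, map_sum, map_mul, Complex.conj_conj]
  exact Finset.sum_congr rfl fun j _ => mul_comm _ _

/-- expansion in an orthonormal basis -/
theorem TA_onb {a b c : V} (ha : ip a a = 1) (hb : ip b b = 1) (hc : ip c c = 1)
    (hab : ip a b = 0) (hac : ip a c = 0) (hbc : ip b c = 0) (v : V) :
    v = ip v a • a + ip v b • b + ip v c • c := by
  have hba : ip b a = 0 := by rw [← TA_ip_conj, hab, map_zero]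
  have hca : ip c a = 0 := by rw [← TA_ip_conj, hac, map_zero]
  have hcb : ip c b = 0 := by rw [← TA_ip_conj, hbc, map_zero]
  have hU : (Matrix.of ![a, b, c] : M3) * (Matrix.of ![a, b, c] : M3)ᴴ = 1 := by
    ext i j
    rw [Matrix.mul_apply]
    have e : ∑ k, (Matrix.of ![a, b, c] : M3) i k * (Matrix.of ![a, b, c] : M3)ᴴ k j =
        ip ((![a, b, c] : Fin 3 → V) i) ((![a, b, c] : Fin 3 → V) j) := by
      unfold ip
      rfl
    rw [e]
    fin_cases i <;> fin_cases j <;> simp [ha, hb, hc, hab, hac, hbc, hba, hca, hcb]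
  have hU2 := mul_eq_one_comm.1 hU
  funext k
  have h1 : ∀ j, ((Matrix.of ![a, b, c] : M3)ᴴ * (Matrix.of ![a, b, c] : M3)) j k =
      conj (a j) * a k + conj (b j) * b k + conj (c j) * c k := by
    intro j
    rw [Matrix.mul_apply, Fin.sum_univ_three]
    rfl
  have h2 : v k = ∑ j, v j * (if j = k then 1 else 0) := by simp
  rw [h2]
  have h3 : ∀ j, (if j = k then (1 : ℂ) else 0) =
      conj (a j) * a k + conj (b j) * b k + conj (c j) * c k := by
    intro j
    rw [← h1, hU2, Matrix.one_apply]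
  simp only [h3]
  simp only [Pi.add_apply, Pi.smul_apply, smul_eq_mul, ip, Finset.sum_mul, ← Finset.sum_add_distrib]
  exact Finset.sum_congr rfl fun j _ => by ring

theorem TA_ip_add (x y z : V) : ip (x + y) z = ip x z + ip y z := by
  simp only [ip, Pi.add_apply, add_mul, Finset.sum_add_distrib]

theorem TA_ip_smul (l : ℂ) (y z : V) : ip (l • y) z = l * ip y z := by
  simp only [ip, Pi.smul_apply, smul_eq_mul, Finset.mul_sum, mul_assoc]

theorem basis {F : Fin 3 → MvPolynomial (Fin 3) ℂ} {y : V} (hy : N y = 1) (h : eta F y ≠ 0) (v : V) :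
    v = ip v y • y + ip v (wv F y) • wv F y + ip v (tv F y) • tv F y ∧
      N v = Complex.normSq (ip v y) + Complex.normSq (ip v (wv F y)) + Complex.normSq (ip v (tv F y)) := by
  have h1 : ip y y = 1 := by rw [TA_ip_self, hy]; simp
  have h2 : ip (wv F y) (wv F y) = 1 := by rw [TA_ip_self, wv_unit hy h]; simp
  have hNt : N (tv F y) = N (nv F y) := by
    unfold N tv
    simp only [Complex.normSq_conj]
  have h3 : ip (tv F y) (tv F y) = 1 := by rw [TA_ip_self, hNt, nv_unit h]; simp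
  have h4 : ip y (wv F y) = 0 := by rw [← TA_ip_conj, wv_orth hy, map_zero]
  have h5 : ip y (tv F y) = 0 := by rw [ip_tv, bp_nv]
  have h6 : ip (wv F y) (tv F y) = 0 := by rw [ip_tv, TA_bp_nv_w]
  have key := TA_onb h1 h2 h3 h4 h5 h6 v
  refine ⟨key, ?_⟩
  have e : ip v v = ip v y * ip y v + ip v (wv F y) * ip (wv F y) v + ip v (tv F y) * ip (tv F y) v := by
    conv_lhs =>
      arg 1
      rw [key]
    rw [TA_ip_add, TA_ip_add, TA_ip_smul, TA_ip_smul, TA_ip_smul]
  rw [TA_ip_self, ← TA_ip_conj v y, ← TA_ip_conj v (wv F y), ← TA_ip_conj v (tv F y),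
    Complex.mul_conj, Complex.mul_conj, Complex.mul_conj] at e
  exact_mod_cast e

theorem TA_meas_cr {f g : V → V} (hf : Measurable f) (hg : Measurable g) :
    Measurable fun y => cr (f y) (g y) := by
  have hf' : ∀ i, Measurable fun y => f y i := fun i => (measurable_pi_apply i).comp hf
  have hg' : ∀ i, Measurable fun y => g y i := fun i => (measurable_pi_apply i).comp hg
  apply measurable_pi_lambda
  intro j
  unfold cr
  fin_cases j
  · exact ((hf' 1).mul (hg' 2)).sub ((hf' 2).mul (hg' 1))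
  · exact ((hf' 2).mul (hg' 0)).sub ((hf' 0).mul (hg' 2))
  · exact ((hf' 0).mul (hg' 1)).sub ((hf' 1).mul (hg' 0))

theorem TA_meas_dEta (F : Fin 3 → MvPolynomial (Fin 3) ℂ) {f : V → V} (hf : Measurable f) :
    Measurable fun y => dEta F y (f y) := by
  have hf' : ∀ i, Measurable fun y => f y i := fun i => (measurable_pi_apply i).comp hf
  apply measurable_pi_lambda
  intro j
  simp only [TA_Q_dEta]
  unfold dP
  apply Finset.measurable_fun_sum
  intro i _
  exact (hf' i).mul (MvPolynomial.continuous_eval _).measurable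

theorem measurable_nv (F : Fin 3 → MvPolynomial (Fin 3) ℂ) : Measurable (nv F) := by
  have : nv F = fun y => cr y (wv F y) := funext fun y => nv_eq F y
  rw [this]
  exact TA_meas_cr measurable_id (measurable_wv F)

theorem TA_meas_tv (F : Fin 3 → MvPolynomial (Fin 3) ℂ) : Measurable (tv F) := by
  apply measurable_pi_lambda
  intro j
  exact Complex.continuous_conj.measurable.comp ((measurable_pi_apply j).comp (measurable_nv F))

theorem measurable_IIq (F : Fin 3 → MvPolynomial (Fin 3) ℂ) : Measurable (IIq F) := by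
  unfold IIq
  exact (continuous_N.measurable.comp (TA_meas_cr (TA_meas_dEta F (measurable_wv F))
    (continuous_eta F).measurable)).div
    ((continuous_N.measurable.comp (continuous_eta F).measurable).pow_const 2)

theorem measurable_Kq (F : Fin 3 → MvPolynomial (Fin 3) ℂ) : Measurable (Kq F) := by
  unfold Kq
  exact (continuous_N.measurable.comp (TA_meas_cr (TA_meas_dEta F (TA_meas_tv F))
    (continuous_eta F).measurable)).div
    ((continuous_N.measurable.comp (continuous_eta F).measurable).pow_const 2)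

theorem IIq_nonneg (F : Fin 3 → MvPolynomial (Fin 3) ℂ) (y : V) : 0 ≤ IIq F y := by
  unfold IIq
  exact div_nonneg (N_nonneg _) (sq_nonneg _)

theorem Kq_nonneg (F : Fin 3 → MvPolynomial (Fin 3) ℂ) (y : V) : 0 ≤ Kq F y := by
  unfold Kq
  exact div_nonneg (N_nonneg _) (sq_nonneg _)

end FT76

end S_H76_FT_TA

section S_H85_DC_LocD

/-!
# Row LocD: the local energy identity

`u` real conic, `F = cutF φ ρ p`. For `x ≠ 0`, `0 < τ < 1` (a.e. `x`, `ae_tau`) put `b_j = dz j u x`, so `du2 u x = rk b` (`u` real), `∑ x_j b_j = 0` (Euler), `gr u x = N b`,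
`R = Re ee (L (tt p) x) (rk b) ≥ 0`, `Q = Re ee (du2 (tt p) x) (rk b) ≥ 0`, `s = dep ρ p x`.
`s3` and `L_cutF`: `∫ F Re ee (L u) (L u) wt = -Re ∫ ee (L F) (du2 u) wt = ∫ (φ'(s) R - φ''(s) Q) wt`.
`Gd := ∫ (φ'(s) R + max (-φ''(s)) 0 * Q) wt ≥ 0`. Then `φ' R - φ'' Q = φ' R + max(-φ'',0) Q - max(φ'',0) Q`, and `max (φ'') 0 ≤ c0/s1`, nonzero only for
`0 ≤ s ≤ 1`, i.e. `x ∈ Ann p ρ` (`s ∈ [0,1]` iff `ρ^2 e^{-1} ≤ τ/(1-τ) ≤ ρ^2`; `φ'' = 0` for `s < 0` since `φ = 0` there, and `φ'' ≤ 0` for `s ≥ 1` by `dd_neg`), and `Q ≤ gr t gr u` (`Q_le`).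
This gives the first inequality. Second: `gr F x = φ'(s)^2 gr (tt p) x` (`dz_cutF`). If `s ≥ 1` (so `τ/(1-τ) ≤ ρ^2 ≤ 1/4`, `τ ≤ 1/2`):
`φ'^2 gr t gr u ≤ φ'^2 (Q + 2R) ≤ (-φ'') Q + 2 φ' R` (`loc_ineq`, `dd_neg`, `φ' ≤ 1/s1 ≤ 1`) `≤ 2 (φ' R + max(-φ'',0) Q)`. If `0 ≤ s ≤ 1`: `φ'^2 gr t gr u ≤ s1^{-2} gr t gr u ≤ s1^{-1} gr t gr u`,
`x ∈ Ann p ρ`. If `s < 0`: `φ' = 0`. Sum up.
Integrability: all functions of `x` here are bounded by `C/N^2` times `wt`: `R, Q ≤ gr t gr u` with `gr u ≤ C/N` (homogeneous of bidegree `(-1,-1)`), and `gr t = 1/(N τ (1-τ))`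
is bounded by `C/N` on the support of `φ'(s), φ''(s)` (`0 ≤ s ≤ 6 s1 + 1`); on `Ann p ρ` too. Measurability: `tau`, `dep`, `φ'`, `φ''` measurable, `dz j (tt p)` by the formula `dz_tt` (a.e. equal to
a measurable function), `R`, `Q` polynomial in these.
-/

open MeasureTheory
open scoped ContDiff BigOperators ComplexConjugate Matrix

namespace Pool.Agent.H85.DC

theorem LocD_cd {U : Set V} (hU : IsOpen U) {f : V → ℂ} (hf : ContDiffOn ℝ ∞ f U) (j : Fin 3) :
    ContDiffOn ℝ ∞ (dz j f) U ∧ ContDiffOn ℝ ∞ (dzb j f) U := by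
  have h1 : ContDiffOn ℝ ∞ (fderiv ℝ f) U := hf.fderiv_of_isOpen hU (by norm_cast)
  have h2 : ∀ v : V, ContDiffOn ℝ ∞ (fun x => fderiv ℝ f x v) U := fun v =>
    h1.clm_apply contDiffOn_const
  constructor
  · exact ((h2 _).sub (contDiffOn_const.mul (h2 _))).div_const 2
  · exact ((h2 _).add (contDiffOn_const.mul (h2 _))).div_const 2

/-- the good open set of full measure -/
def LocD_U (p : V) : Set V := {x | x ≠ 0 ∧ 0 < tau x p ∧ tau x p < 1}

theorem LocD_U_open (p : V) : IsOpen (LocD_U p) := by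
  have h1 := (continuousOn_tau p).isOpen_inter_preimage isOpen_compl_singleton
    (isOpen_Ioo (a := (0 : ℝ)) (b := 1))
  have h2 : LocD_U p = {0}ᶜ ∩ (fun x => tau x p) ⁻¹' Set.Ioo 0 1 := by
    ext x
    rfl
  rw [h2]
  exact h1

theorem LocD_ae {p : V} (hp : N p = 1) {μ : Measure V} (h : μ ≪ (volume : Measure V)) :
    ∀ᵐ x ∂μ, x ∈ LocD_U p := h.ae_le (ae_tau hp)

theorem LocD_meas {p : V} (hp : N p = 1) {E : Type*} [TopologicalSpace E]
    [TopologicalSpace.PseudoMetrizableSpace E] [SecondCountableTopology E] {f : V → E}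
    (hf : ContinuousOn f (LocD_U p)) : AEStronglyMeasurable f (volume : Measure V) := by
  have h1 : (volume : Measure V).restrict (LocD_U p) = volume :=
    Measure.restrict_eq_self_of_ae_mem (ae_tau hp)
  rw [← h1]
  exact hf.aestronglyMeasurable (LocD_U_open p).measurableSet

theorem LocD_ee_cont : Continuous fun q : M3 × M3 => ee q.1 q.2 := by
  unfold ee
  fun_prop

theorem LocD_ee_on {U : Set V} {A B : V → M3} (hA : ContinuousOn A U) (hB : ContinuousOn B U) :
    ContinuousOn (fun x => ee (A x) (B x)) U := by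
  have h1 : ContinuousOn (fun x => (A x, B x)) U := hA.prodMk hB
  have h2 := LocD_ee_cont.comp_continuousOn h1
  exact h2

theorem LocD_tt {p : V} (hp : N p = 1) : ContDiffOn ℝ ∞ (tt p) (LocD_U p) := fun x hx =>
  (smooth_tt hp hx.1 hx.2.1 hx.2.2).contDiffWithinAt

theorem LocD_L_on {p : V} (hp : N p = 1) : ContinuousOn (L (tt p)) (LocD_U p) := by
  refine continuousOn_pi.2 fun j => continuousOn_pi.2 fun k => ?_
  exact (LocD_cd (LocD_U_open p) (LocD_cd (LocD_U_open p) (LocD_tt hp) k).2 j).1.continuousOn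

theorem LocD_du_on {U : Set V} (hU : IsOpen U) {f : V → ℂ} (hf : ContDiffOn ℝ ∞ f U) :
    ContinuousOn (du2 f) U := by
  refine continuousOn_pi.2 fun j => continuousOn_pi.2 fun k => ?_
  exact ((LocD_cd hU hf j).1.continuousOn).mul ((LocD_cd hU hf k).2.continuousOn)

theorem LocD_gr_on {U : Set V} (hU : IsOpen U) {f : V → ℂ} (hf : ContDiffOn ℝ ∞ f U) :
    ContinuousOn (gr f) U := by
  unfold gr
  refine continuousOn_finset_sum _ fun j _ => ?_
  exact Complex.continuous_normSq.comp_continuousOn (LocD_cd hU hf j).1.continuousOn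

theorem LocD_sub (p : V) : LocD_U p ⊆ {0}ᶜ := fun _ hx => hx.1

theorem LocD_dzb {u : V → ℂ} (ru : IsRe u) (k : Fin 3) (x : V) : dzb k u x = conj (dz k u x) := by
  rw [conj_dz]
  have h : (fun y => conj (u y)) = u := funext ru
  rw [h]

theorem LocD_du_rk {u : V → ℂ} (ru : IsRe u) (x : V) : du2 u x = rk (fun j => dz j u x) := by
  funext j k
  show dz j u x * dzb k u x = dz j u x * conj (dz k u x)
  rw [LocD_dzb ru]

theorem LocD_form {u : V → ℂ} (hu : IsFun u) : IsForm (du2 u) := by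
  have h0 := isFun_iff.1 hu
  have hd : ∀ j k, Hom (-1) (-1) (fun x => dz j u x * dzb k u x) := by
    intro j k
    have h1 := hom_mul (dz_hom j h0) (dzb_hom k h0)
    have e1 : (0 - 1 + 0 : ℤ) = -1 := by norm_num
    have e2 : (0 + (0 - 1) : ℤ) = -1 := by norm_num
    rw [e1, e2] at h1
    exact h1
  refine ⟨?_, ?_, ?_, ?_⟩
  · refine continuousOn_pi.2 fun j => continuousOn_pi.2 fun k => ?_
    exact (hd j k).smooth.continuousOn
  · intro l x hl
    funext j k
    have h1 := (hd j k).hom l x hl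
    show dz j u (l • x) * dzb k u (l • x) = ((Complex.normSq l : ℂ))⁻¹ * (dz j u x * dzb k u x)
    rw [h1, zpow_neg, zpow_neg, zpow_one, zpow_one, ← mul_inv, Complex.mul_conj]
  · intro x hx k
    have h1 := euler h0 hx
    show ∑ j, x j * (dz j u x * dzb k u x) = 0
    have h2 : ∑ j, x j * (dz j u x * dzb k u x) = (∑ j, x j * dz j u x) * dzb k u x := by
      rw [Finset.sum_mul]
      exact Finset.sum_congr rfl fun j _ => by ring
    rw [h2, h1]
    simp
  · intro x hx j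
    have h1 := eulerb h0 hx
    show ∑ k, dz j u x * dzb k u x * conj (x k) = 0
    have h2 : ∑ k, dz j u x * dzb k u x * conj (x k) = dz j u x * ∑ k, conj (x k) * dzb k u x := by
      rw [Finset.mul_sum]
      exact Finset.sum_congr rfl fun j _ => by ring
    rw [h2, h1]
    simp

theorem LocD_gr_bound {u : V → ℂ} (hu : IsFun u) :
    ∃ C : ℝ, 0 ≤ C ∧ ∀ x : V, x ≠ 0 → gr u x ≤ C / N x := by
  have h0 := isFun_iff.1 hu
  have h1 : ∀ j : Fin 3, ∃ C : ℝ, 0 ≤ C ∧ ∀ x : V, x ≠ 0 → Complex.normSq (dz j u x) ≤ C / N x := by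
    intro j
    obtain ⟨C, hC0, hC⟩ := chom_bound (dz_hom j h0).chom
    refine ⟨C, hC0, fun x hx => ?_⟩
    have h2 := hC x hx
    have e1 : (0 - 1 + 0 : ℤ) = -1 := by norm_num
    rw [e1, zpow_neg, zpow_one, ← div_eq_mul_inv] at h2
    rwa [Complex.normSq_eq_norm_sq]
  choose C hC0 hC using h1
  refine ⟨∑ j, C j, Finset.sum_nonneg fun j _ => hC0 j, fun x hx => ?_⟩
  unfold gr
  rw [Finset.sum_div]
  exact Finset.sum_le_sum fun j _ => hC j x hx

theorem LocD_gr_nonneg (u : V → ℂ) (x : V) : 0 ≤ gr u x :=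
  Finset.sum_nonneg fun _ _ => Complex.normSq_nonneg _

theorem LocD_wt_nonneg (x : V) : 0 ≤ wt x := (Real.exp_pos _).le

theorem LocD_annMeas (p : V) (ρ : ℝ) : MeasurableSet (Ann p ρ) := by
  have h0 : Measurable fun x : V => (x, p) := measurable_id.prodMk measurable_const
  have h1 : Measurable fun x : V => tau x p := by
    have h := measurable_tau.comp h0
    exact h
  have h2 : Measurable fun x : V => tau x p / (1 - tau x p) := h1.div (measurable_const.sub h1)
  have h3 : Ann p ρ = {0}ᶜ ∩ ({x | ρ ^ 2 * Real.exp (-1) ≤ tau x p / (1 - tau x p)} ∩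
      {x | tau x p / (1 - tau x p) ≤ ρ ^ 2}) := by
    ext x
    rfl
  rw [h3]
  exact (measurableSet_singleton _).compl.inter
    ((measurableSet_le measurable_const h2).inter (measurableSet_le h2 measurable_const))

theorem LocD_ann {ρ : ℝ} (hρ : 0 < ρ) (hρ' : ρ ≤ 1 / 2) {p x : V} (hx : x ∈ Ann p ρ) :
    x ∈ LocD_U p ∧ ρ ^ 2 * Real.exp (-1) / 2 ≤ tau x p ∧ tau x p ≤ 1 / 2 := by
  obtain ⟨h0, h1, h2⟩ := hx
  have t0 := tau_nonneg x p
  have t1 := tau_le_one x p
  have hpos : 0 < ρ ^ 2 * Real.exp (-1) := by positivity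
  have hd : 0 < tau x p / (1 - tau x p) := lt_of_lt_of_le hpos h1
  have h3 : 0 < 1 - tau x p := by
    rcases (sub_nonneg.2 t1).lt_or_eq with h | h
    · exact h
    · rw [← h, div_zero] at hd
      exact absurd hd (lt_irrefl _)
  have h4 : 0 < tau x p := by
    rcases t0.lt_or_eq with h | h
    · exact h
    · rw [← h, zero_div] at hd
      exact absurd hd (lt_irrefl _)
  rw [div_le_iff₀ h3] at h2
  rw [le_div_iff₀ h3] at h1
  have h5 : ρ ^ 2 ≤ 1 / 4 := by nlinarith
  have h6 : tau x p ≤ 1 / 2 := by nlinarith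
  refine ⟨⟨h0, h4, by linarith⟩, ?_, h6⟩
  nlinarith

theorem LocD_T {ρ : ℝ} (hρ : 0 < ρ) (hρ' : ρ ≤ 1 / 2) {p : V} (hp : N p = 1) {u : V → ℂ}
    (hu : IsFun u) : IntegrableOn (fun x => gr (tt p) x * gr u x * wt x) (Ann p ρ) := by
  obtain ⟨C, hC0, hC⟩ := LocD_gr_bound hu
  have hm : AEStronglyMeasurable (fun x => gr (tt p) x * gr u x * wt x) (volume : Measure V) := by
    refine LocD_meas hp ?_
    refine ((LocD_gr_on (LocD_U_open p) (LocD_tt hp)).mul
      (LocD_gr_on (LocD_U_open p) (hu.smooth.mono (LocD_sub p)))).mul ?_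
    exact (Real.continuous_exp.comp continuous_N.neg).continuousOn
  set K := (ρ ^ 2 * Real.exp (-1) / 2) * (1 / 2) with hK
  have hK0 : 0 < K := by positivity
  have hint : Integrable (fun x : V => C / K * ((N x) ^ (-2 : ℝ) * Real.exp (-1 * N x))) :=
    (integrable_N_rpow (by norm_num) one_pos).const_mul _
  refine Integrable.mono' hint.integrableOn hm.restrict ?_
  refine (ae_restrict_iff' (LocD_annMeas p ρ)).2 (Filter.Eventually.of_forall fun x hx => ?_)
  obtain ⟨hU, h1, h2⟩ := LocD_ann hρ hρ' hx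
  have hN : 0 < N x := N_pos hU.1
  rw [Real.norm_of_nonneg (mul_nonneg (mul_nonneg (LocD_gr_nonneg _ _) (LocD_gr_nonneg _ _))
    (LocD_wt_nonneg x))]
  have h3 : gr (tt p) x ≤ 1 / (N x * K) := by
    rw [gr_tt hp hU.1 hU.2.1 hU.2.2]
    refine one_div_le_one_div_of_le (by positivity) ?_
    refine mul_le_mul_of_nonneg_left ?_ hN.le
    exact mul_le_mul h1 (by linarith) (by norm_num) hU.2.1.le
  have h4 := hC x hU.1
  have h5 : gr (tt p) x * gr u x ≤ 1 / (N x * K) * (C / N x) :=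
    mul_le_mul h3 h4 (LocD_gr_nonneg _ _) (by positivity)
  calc gr (tt p) x * gr u x * wt x ≤ 1 / (N x * K) * (C / N x) * wt x :=
        mul_le_mul_of_nonneg_right h5 (LocD_wt_nonneg x)
    _ = C / K * ((N x) ^ (-2 : ℝ) * Real.exp (-1 * N x)) := by
        rw [Real.rpow_neg hN.le, show (2 : ℝ) = ((2 : ℕ) : ℝ) by norm_num, Real.rpow_natCast,
          neg_one_mul]
        unfold wt
        field_simp

theorem LocD_dep {ρ : ℝ} (hρ : 0 < ρ) {p x : V} (h0 : 0 < tau x p) (h1 : tau x p < 1)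
    (hx : x ≠ 0) (d0 : 0 ≤ dep ρ p x) (d1 : dep ρ p x ≤ 1) : x ∈ Ann p ρ := by
  have h3 : 0 < tau x p / (1 - tau x p) := div_pos h0 (by linarith)
  have hr : 0 < ρ ^ 2 := by positivity
  unfold dep at d0 d1
  refine ⟨hx, ?_, ?_⟩
  · rw [← Real.log_le_log_iff (by positivity) h3, Real.log_mul hr.ne' (Real.exp_pos _).ne',
      Real.log_exp]
    linarith
  · rw [← Real.log_le_log_iff h3 hr]
    linarith

theorem LocD_dep2 {ρ : ℝ} (hρ : 0 < ρ) (hρ' : ρ ≤ 1 / 2) {p x : V} (h0 : 0 < tau x p)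
    (h1 : tau x p < 1) (d0 : 0 ≤ dep ρ p x) : tau x p ≤ 1 / 2 := by
  have h3 : 0 < tau x p / (1 - tau x p) := div_pos h0 (by linarith)
  have hr : 0 < ρ ^ 2 := by positivity
  unfold dep at d0
  have h4 : tau x p / (1 - tau x p) ≤ ρ ^ 2 := by
    rw [← Real.log_le_log_iff h3 hr]
    linarith
  rw [div_le_iff₀ (by linarith)] at h4
  have h5 : ρ ^ 2 ≤ 1 / 4 := by nlinarith
  nlinarith

theorem LocD_d_neg {c0 s1 : ℝ} {φ : ℝ → ℝ} (hφ : Prof c0 s1 φ) {s : ℝ} (hs : s < 0) :
    deriv φ s = 0 ∧ deriv (deriv φ) s = 0 := by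
  have h1 : ∀ t : ℝ, t < 0 → deriv φ t = 0 := by
    intro t ht
    have h2 : φ =ᶠ[nhds t] fun _ => 0 := by
      filter_upwards [Iio_mem_nhds ht] with r hr
      exact hφ.zero r (le_of_lt hr)
    rw [h2.deriv_eq, deriv_const]
  refine ⟨h1 s hs, ?_⟩
  have h2 : deriv φ =ᶠ[nhds s] fun _ => 0 := by
    filter_upwards [Iio_mem_nhds hs] with r hr
    exact h1 r hr
  rw [h2.deriv_eq, deriv_const]

theorem LocD_pt1 {c0 s1 : ℝ} {φ : ℝ → ℝ} (hφ : Prof c0 s1 φ) (h0 : 1 ≤ c0) (h1 : 1 ≤ s1)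
    {ρ : ℝ} (hρ : 0 < ρ) {p x : V} (hU : x ∈ LocD_U p) {Q G w : ℝ} (hQ : 0 ≤ Q) (hQG : Q ≤ G)
    (hw : 0 ≤ w) : max (deriv (deriv φ) (dep ρ p x)) 0 * Q * w ≤
      c0 / s1 * (Ann p ρ).indicator (fun _ => G * w) x := by
  by_cases hx : x ∈ Ann p ρ
  · rw [Set.indicator_of_mem hx, mul_assoc]
    refine mul_le_mul ?_ (mul_le_mul_of_nonneg_right hQG hw) (mul_nonneg hQ hw) (by positivity)
    exact max_le (hφ.dd_le _) (by positivity)
  · rw [Set.indicator_of_notMem hx, mul_zero]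
    have h2 : deriv (deriv φ) (dep ρ p x) ≤ 0 := by
      rcases lt_or_ge (dep ρ p x) 0 with h | h
      · rw [(LocD_d_neg hφ h).2]
      · rcases le_or_gt (dep ρ p x) 1 with h' | h'
        · exact absurd (LocD_dep hρ hU.2.1 hU.2.2 hU.1 h h') hx
        · have h3 := hφ.dd_neg _ h'.le
          nlinarith [sq_nonneg (deriv φ (dep ρ p x))]
    rw [max_eq_right h2, zero_mul, zero_mul]

theorem LocD_pt2 {c0 s1 : ℝ} {φ : ℝ → ℝ} (hφ : Prof c0 s1 φ) (h1 : 1 ≤ s1)
    {ρ : ℝ} (hρ : 0 < ρ) (hρ' : ρ ≤ 1 / 2) {p x : V} (hU : x ∈ LocD_U p) {Q R G w : ℝ}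
    (hQ : 0 ≤ Q) (hR : 0 ≤ R) (hG : 0 ≤ G) (hloc : tau x p ≤ 1 / 2 → G ≤ Q + 2 * R) (hw : 0 ≤ w) :
    (deriv φ (dep ρ p x)) ^ 2 * G * w ≤
      2 * ((deriv φ (dep ρ p x) * R + max (-deriv (deriv φ) (dep ρ p x)) 0 * Q) * w) +
      1 / s1 * (Ann p ρ).indicator (fun _ => G * w) x := by
  set d := deriv φ (dep ρ p x) with hd
  set e := deriv (deriv φ) (dep ρ p x) with he
  have d0 : 0 ≤ d := hφ.d_nonneg _
  have d1 : d ≤ 1 / s1 := hφ.d_le _
  have d2 : 1 / s1 ≤ 1 := by
    rw [div_le_one (by linarith)]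
    exact h1
  have hmax : 0 ≤ max (-e) 0 := le_max_right _ _
  have hrest : 0 ≤ 2 * ((d * R + max (-e) 0 * Q) * w) := by positivity
  rcases lt_or_ge (dep ρ p x) 0 with h | h
  · have h2 : d = 0 := (LocD_d_neg hφ h).1
    have h3 : 0 ≤ 1 / s1 * (Ann p ρ).indicator (fun _ => G * w) x := by
      refine mul_nonneg (by positivity) (Set.indicator_nonneg (fun _ _ => by positivity) x)
    have h4 : d ^ 2 * G * w = 0 := by
      rw [h2]
      ring
    linarith
  · rcases le_or_gt (dep ρ p x) 1 with h' | h'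
    · have hx := LocD_dep hρ hU.2.1 hU.2.2 hU.1 h h'
      rw [Set.indicator_of_mem hx]
      have h3 : d ^ 2 ≤ 1 / s1 := by nlinarith
      have h4 : d ^ 2 * G * w ≤ 1 / s1 * (G * w) := by
        rw [mul_assoc]
        exact mul_le_mul_of_nonneg_right h3 (by positivity)
      linarith
    · have h3 : 0 ≤ 1 / s1 * (Ann p ρ).indicator (fun _ => G * w) x := by
        refine mul_nonneg (by positivity) (Set.indicator_nonneg (fun _ _ => by positivity) x)
      have h4 : G ≤ Q + 2 * R := hloc (LocD_dep2 hρ hρ' hU.2.1 hU.2.2 h)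
      have h5 : d ^ 2 ≤ -e := hφ.dd_neg _ h'.le
      have h6 : d ^ 2 ≤ max (-e) 0 := h5.trans (le_max_left _ _)
      have h7 : d ^ 2 ≤ d := by nlinarith
      have h8 : d ^ 2 * G ≤ 2 * (d * R + max (-e) 0 * Q) := by
        have e1 : d ^ 2 * G ≤ d ^ 2 * (Q + 2 * R) := mul_le_mul_of_nonneg_left h4 (sq_nonneg d)
        have e2 : d ^ 2 * Q ≤ max (-e) 0 * Q := mul_le_mul_of_nonneg_right h6 hQ
        have e3 : d ^ 2 * R ≤ d * R := mul_le_mul_of_nonneg_right h7 hR
        have e4 : 0 ≤ max (-e) 0 * Q := mul_nonneg hmax hQ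
        nlinarith
      have h9 : d ^ 2 * G * w ≤ 2 * ((d * R + max (-e) 0 * Q) * w) := by
        calc d ^ 2 * G * w ≤ 2 * (d * R + max (-e) 0 * Q) * w := mul_le_mul_of_nonneg_right h8 hw
          _ = _ := by ring
      linarith

theorem loc_good {c0 s1 : ℝ} {φ : ℝ → ℝ} (hφ : Prof c0 s1 φ) (h0 : 1 ≤ c0) (h1 : 1 ≤ s1)
    {ρ : ℝ} (hρ : 0 < ρ) (hρ' : ρ ≤ 1 / 2) {p : V} (hp : N p = 1) {u : V → ℂ} (hu : IsFun u)
    (ru : IsRe u) :
    ∃ Gd : ℝ, 0 ≤ Gd ∧
      Gd - c0 / s1 * (∫ x in Ann p ρ, gr (tt p) x * gr u x * wt x) ≤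
        ∫ x, (cutF φ ρ p x).re * (ee (L u x) (L u x)).re * wt x ∧
      ∫ x, gr (cutF φ ρ p) x * gr u x * wt x ≤
        2 * Gd + 1 / s1 * (∫ x in Ann p ρ, gr (tt p) x * gr u x * wt x) := by
  have hF : IsFun (cutF φ ρ p) := isFun_cutF hφ hρ hp
  have rF : IsRe (cutF φ ρ p) := isRe_cutF φ ρ p
  set F := cutF φ ρ p with hFdef
  set d : V → ℝ := fun x => deriv φ (dep ρ p x) with hd
  set e : V → ℝ := fun x => deriv (deriv φ) (dep ρ p x) with he
  set R : V → ℝ := fun x => (ee (L (tt p) x) (du2 u x)).re with hR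
  set Q : V → ℝ := fun x => (ee (du2 (tt p) x) (du2 u x)).re with hQ
  set G : V → ℝ := fun x => gr (tt p) x * gr u x with hG
  have hsm1 : ContDiff ℝ ∞ (deriv φ) := (contDiff_infty_iff_deriv.1 hφ.smooth).2
  have hsm2 : ContDiff ℝ ∞ (deriv (deriv φ)) := (contDiff_infty_iff_deriv.1 hsm1).2
  have hae := ae_tau hp
  have hN : ∀ x, N (fun j => dz j u x) = gr u x := fun x => rfl
  have hQ0 : ∀ x ∈ LocD_U p, 0 ≤ Q x := by
    intro x hx
    simp only [hQ]
    rw [LocD_du_rk ru]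
    exact Q_nonneg hp hx.1 hx.2.1 hx.2.2 _
  have hR0 : ∀ x ∈ LocD_U p, 0 ≤ R x := by
    intro x hx
    simp only [hR]
    rw [LocD_du_rk ru]
    exact R_nonneg hp hx.1 hx.2.1 hx.2.2 _
  have hQG : ∀ x ∈ LocD_U p, Q x ≤ G x := by
    intro x hx
    simp only [hQ, hG]
    rw [LocD_du_rk ru, ← hN]
    exact Q_le hp hx.1 hx.2.1 hx.2.2 _
  have hG0 : ∀ x, 0 ≤ G x := fun x => mul_nonneg (LocD_gr_nonneg _ _) (LocD_gr_nonneg _ _)
  have hloc : ∀ x ∈ LocD_U p, tau x p ≤ 1 / 2 → G x ≤ Q x + 2 * R x := by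
    intro x hx ht
    simp only [hQ, hR, hG]
    rw [LocD_du_rk ru, ← hN]
    refine loc_ineq hp hx.1 hx.2.1 ht ?_
    have h2 := euler (isFun_iff.1 hu) hx.1
    rw [h2]
    simp
  -- continuity of the depth
  have hdep : ContinuousOn (fun x => dep ρ p x) (LocD_U p) := by
    have c1 : ContinuousOn (fun x => tau x p) (LocD_U p) := (continuousOn_tau p).mono (LocD_sub p)
    have c2 : ContinuousOn (fun x => tau x p / (1 - tau x p)) (LocD_U p) :=
      c1.div (continuousOn_const.sub c1) fun x hx => (sub_pos.2 hx.2.2).ne'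
    exact continuousOn_const.sub (c2.log fun x hx => (div_pos hx.2.1 (sub_pos.2 hx.2.2)).ne')
  have ce : ContinuousOn e (LocD_U p) := hsm2.continuous.comp_continuousOn hdep
  have cQ : ContinuousOn Q (LocD_U p) := Complex.continuous_re.comp_continuousOn
    (LocD_ee_on (LocD_du_on (LocD_U_open p) (LocD_tt hp))
      (LocD_du_on (LocD_U_open p) (hu.smooth.mono (LocD_sub p))))
  have cw : Continuous wt := Real.continuous_exp.comp continuous_N.neg
  -- the indicator function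
  set T : V → ℝ := fun x => (Ann p ρ).indicator (fun _ => G x * wt x) x with hT
  have hTeq : T = (Ann p ρ).indicator (fun x => gr (tt p) x * gr u x * wt x) := by
    funext x
    by_cases hx : x ∈ Ann p ρ
    · simp only [hT]
      rw [Set.indicator_of_mem hx, Set.indicator_of_mem hx]
    · simp only [hT]
      rw [Set.indicator_of_notMem hx, Set.indicator_of_notMem hx]
  have hTint : Integrable T := by
    rw [hTeq]
    exact (integrable_indicator_iff (LocD_annMeas p ρ)).2 (LocD_T hρ hρ' hp hu)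
  have hTval : ∫ x, T x = ∫ x in Ann p ρ, gr (tt p) x * gr u x * wt x := by
    rw [hTeq, integral_indicator (LocD_annMeas p ρ)]
  have hT0 : ∀ x, 0 ≤ T x := fun x =>
    Set.indicator_nonneg (fun _ _ => mul_nonneg (hG0 x) (LocD_wt_nonneg x)) x
  -- the function I1
  set I1 : V → ℝ := fun x => (d x * R x - e x * Q x) * wt x with hI1
  have hLF : Integrable (fun x => ee (L F x) (du2 u x) * (wt x : ℂ)) :=
    ee_int (form_L hF) (LocD_form hu)
  have hI1ae : (fun x => -(Complex.reCLM (ee (L F x) (du2 u x) * (wt x : ℂ)))) =ᵐ[volume] I1 := by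
    filter_upwards [hae] with x hx
    have h2 : L F x = (-((deriv φ (dep ρ p x) : ℝ) : ℂ)) • L (tt p) x +
      ((deriv (deriv φ) (dep ρ p x) : ℝ) : ℂ) • du2 (tt p) x := L_cutF hφ hρ hp hx.1 hx.2.1 hx.2.2
    rw [h2, ee_add_left, ee_smul_left, ee_smul_left]
    simp only [hI1, hd, he, hR, hQ, Complex.reCLM_apply]
    rw [← Complex.ofReal_neg, Complex.re_mul_ofReal, Complex.add_re, Complex.re_ofReal_mul,
      Complex.re_ofReal_mul]
    ring
  have hI1int : Integrable I1 := by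
    refine Integrable.congr ?_ hI1ae
    exact (Complex.reCLM.integrable_comp hLF).neg
  have hmain : ∫ x, (F x).re * (ee (L u x) (L u x)).re * wt x = ∫ x, I1 x := by
    have h3 := s3 hF hu rF ru
    have hI : Integrable (fun x => F x * ee (L u x) (L u x) * (wt x : ℂ)) := by
      have h4 := ee_int (form_smul_fun (form_L hu) (isFun_iff.1 hF).chom) (form_L hu)
      simp only [ee_smul_left] at h4
      exact h4
    have h5 := Complex.reCLM.integral_comp_comm hI
    rw [h3] at h5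
    have h6 : ∀ x, Complex.reCLM (F x * ee (L u x) (L u x) * (wt x : ℂ)) =
        (F x).re * (ee (L u x) (L u x)).re * wt x := by
      intro x
      have him : (F x).im = 0 := Complex.conj_eq_iff_im.1 (rF x)
      rw [Complex.reCLM_apply, Complex.re_mul_ofReal, Complex.mul_re, him, zero_mul, sub_zero]
    simp only [h6] at h5
    rw [h5, map_neg, ← Complex.reCLM.integral_comp_comm hLF, ← integral_neg]
    exact integral_congr_ae hI1ae
  -- the function P
  set P : V → ℝ := fun x => max (e x) 0 * Q x * wt x with hP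
  have hPle : ∀ᵐ x, P x ≤ c0 / s1 * T x := by
    filter_upwards [hae] with x hx
    exact LocD_pt1 hφ h0 h1 hρ hx (hQ0 x hx) (hQG x hx) (LocD_wt_nonneg x)
  have hP0 : ∀ᵐ x, 0 ≤ P x := by
    filter_upwards [hae] with x hx
    exact mul_nonneg (mul_nonneg (le_max_right _ _) (hQ0 x hx)) (LocD_wt_nonneg x)
  have hPm : AEStronglyMeasurable P (volume : Measure V) :=
    LocD_meas hp (((ce.sup continuousOn_const).mul cQ).mul cw.continuousOn)
  have hPint : Integrable P := by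
    refine Integrable.mono' (hTint.const_mul (c0 / s1)) hPm ?_
    filter_upwards [hPle, hP0] with x h2 h3
    rw [Real.norm_of_nonneg h3]
    exact h2
  set Gf : V → ℝ := fun x => (d x * R x + max (-e x) 0 * Q x) * wt x with hGf
  have hGf' : Gf = fun x => I1 x + P x := by
    funext x
    simp only [hGf, hI1, hP]
    have h2 : max (-e x) 0 = -e x + max (e x) 0 := by
      rcases le_total (e x) 0 with h | h
      · rw [max_eq_left (by linarith), max_eq_right h, add_zero]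
      · rw [max_eq_right (by linarith), max_eq_left h, neg_add_cancel]
    rw [h2]
    ring
  have hGfint : Integrable Gf := by
    rw [hGf']
    exact hI1int.add hPint
  refine ⟨∫ x, Gf x, ?_, ?_, ?_⟩
  · refine integral_nonneg_of_ae ?_
    filter_upwards [hae] with x hx
    exact mul_nonneg (add_nonneg (mul_nonneg (hφ.d_nonneg _) (hR0 x hx))
      (mul_nonneg (le_max_right _ _) (hQ0 x hx))) (LocD_wt_nonneg x)
  · rw [hmain, ← hTval]
    have h2 : ∫ x, Gf x = (∫ x, I1 x) + ∫ x, P x := by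
      rw [hGf']
      exact integral_add hI1int hPint
    have h3 : ∫ x, P x ≤ c0 / s1 * ∫ x, T x := by
      rw [← integral_const_mul]
      exact integral_mono_ae hPint (hTint.const_mul _) hPle
    rw [h2]
    linarith
  · rw [← hTval, ← integral_const_mul, ← integral_const_mul,
      ← integral_add (hGfint.const_mul 2) (hTint.const_mul _)]
    refine integral_mono_of_nonneg ?_ ((hGfint.const_mul 2).add (hTint.const_mul _)) ?_
    · exact Filter.Eventually.of_forall fun x =>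
        mul_nonneg (mul_nonneg (LocD_gr_nonneg _ _) (LocD_gr_nonneg _ _)) (LocD_wt_nonneg x)
    · filter_upwards [hae] with x hx
      have h2 : gr F x = (d x) ^ 2 * gr (tt p) x := by
        unfold gr
        rw [Finset.mul_sum]
        refine Finset.sum_congr rfl fun j _ => ?_
        rw [hFdef, dz_cutF hφ hρ hp hx.1 hx.2.1 hx.2.2, Complex.normSq_mul, Complex.normSq_neg,
          Complex.normSq_ofReal, sq]
      have h3 := LocD_pt2 hφ h1 hρ hρ' hx (hQ0 x hx) (hR0 x hx) (hG0 x) (hloc x hx)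
        (LocD_wt_nonneg x)
      show gr F x * gr u x * wt x ≤ 2 * Gf x + 1 / s1 * T x
      have h4 : gr F x * gr u x * wt x = (d x) ^ 2 * G x * wt x := by
        rw [h2]
        simp only [hG]
        ring
      rw [h4]
      exact h3

theorem ann_nonneg (p : V) (ρ : ℝ) (u : V → ℂ) :
    0 ≤ ∫ x in Ann p ρ, gr (tt p) x * gr u x * wt x :=
  integral_nonneg fun x =>
    mul_nonneg (mul_nonneg (LocD_gr_nonneg _ _) (LocD_gr_nonneg _ _)) (LocD_wt_nonneg x)

end Pool.Agent.H85.DC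

end S_H85_DC_LocD

section S_H85_DC_LocE

/-!
# Row LocE: the local inequality

`F = cutF φ ρ p` (real, `0 ≤ F ≤ 1`), `X = L u + E`, `E ∈ H0`. `nE := ∫ hs E wt`. Write `G = ∫ gr F gr u wt`, `a = ∫_{Ann} gr t gr u wt`.
`∫ F Re ee X X wt = ∫ F Re ee (Lu) (Lu) + 2 ∫ F Re ee (Lu) E + ∫ F Re ee E E` (`ee` bilinear and symmetric).
(1) `≥ Gd - (c0/s1) a` (`loc_good`).
(3) `Re ee E E = (tr E)^2 - hs E ≥ - hs E` (`ee_hs`): `≥ - nE`.
(2) the covector `ζ = F ∂u`, `ζ_j = F dz j u`, is `IsCov`, `db ζ x j k = dzb k F * dz j u + F * L u j k`, so `F L u = db ζ - (dz j u dzb k F)_jk`.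
`|∫ F ee (Lu) E wt| ≤ |qq (db ζ) E| + ∫ |ee (dz_j u dzb_k F) E| wt`. First: `ta`: `|qq E (db ζ)|^2 ≤ nn E E (1/4) ∫ curl ζ wt`, `nn E E ≤ nE` (`hs_split`),
`curl ζ = ∑ |dz k F dz j u - dz j F dz k u|^2 ≤ 4 gr F gr u` (second derivatives of `u` cancel by `dz_dz_comm`), so `≤ √nE √G`. Second: `ee_abs`, `hs_rank1`: `|ee (…) E| ≤ 4 √(gr u gr F) √(hs E)`
(`∑|dzb k F|^2 = gr F` for real `F`) and Cauchy-Schwarz for integrals (or `4 a b ≤ …`): `≤ 4 √G √nE`. So (2) `≥ -10 √nE √G ≥ -(1/2) G - 50 nE`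
and `G ≤ 2 Gd + a/s1`: (2) `≥ - Gd - a/(2 s1) - 50 nE`.
Sum: `∫ F Re ee X X ≥ -(c0 + 1) a/s1 - 51 nE`. So `C = 51 + c0`.
-/

open MeasureTheory
open scoped ContDiff BigOperators ComplexConjugate Matrix

namespace Pool.Agent.H85.DC

theorem LocE_re {u : V → ℂ} (ru : IsRe u) (x : V) : u x = ((u x).re : ℂ) :=
  (Complex.conj_eq_iff_re.1 (ru x)).symm

theorem LocE_wt_pos (x : V) : 0 < wt x := Real.exp_pos _

theorem LocE_hom {u : V → ℂ} (hu : IsFun u) (j : Fin 3) : Hom (-1) 0 (dz j u) := by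
  have := dz_hom j (isFun_iff.mp hu)
  simpa using this

theorem LocE_zhom {F u : V → ℂ} (hF : IsFun F) (hu : IsFun u) (j : Fin 3) :
    Hom (-1) 0 (fun x => F x * dz j u x) := by
  have := hom_mul (isFun_iff.mp hF) (LocE_hom hu j)
  simpa using this

theorem LocE_cov {F u : V → ℂ} (hF : IsFun F) (hu : IsFun u) :
    IsCov (fun x j => F x * dz j u x) := by
  refine ⟨?_, ?_, ?_⟩
  · exact contDiffOn_pi.mpr fun j => (LocE_zhom hF hu j).smooth
  · intro l x hl
    funext j
    have h1 := (LocE_zhom hF hu j).hom l x hl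
    simp only [Pi.smul_apply, smul_eq_mul]
    rw [h1]
    simp
  · intro x hx
    have h1 := euler (isFun_iff.mp hu) hx
    have h2 : ∀ j, x j * (F x * dz j u x) = F x * (x j * dz j u x) := fun j => by ring
    simp only [h2, ← Finset.mul_sum, h1]
    simp

theorem LocE_db {F u : V → ℂ} (hF : IsFun F) (hu : IsFun u) {x : V} (hx : x ≠ 0) (j k : Fin 3) :
    db (fun x j => F x * dz j u x) x j k = dz j u x * dzb k F x + F x * L u x j k := by
  have h1 : db (fun x j => F x * dz j u x) x j k = dzb k (fun y => F y * dz j u y) x := rfl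
  have h2 : L u x j k = dz j (dzb k u) x := rfl
  rw [h1, dzb_mul k ((isFun_iff.mp hF).diffAt hx) ((LocE_hom hu j).diffAt hx), h2,
    dz_dzb_comm j k hu.smooth hx]
  ring

theorem LocE_curl {F u : V → ℂ} (hF : IsFun F) (hu : IsFun u) {x : V} (hx : x ≠ 0) :
    curl (fun x j => F x * dz j u x) x ≤ 4 * (gr F x * gr u x) := by
  have key : ∀ j k : Fin 3,
      dz k (fun y => F y * dz j u y) x - dz j (fun y => F y * dz k u y) x =
        dz k F x * dz j u x - dz j F x * dz k u x := by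
    intro j k
    rw [dz_mul k ((isFun_iff.mp hF).diffAt hx) ((LocE_hom hu j).diffAt hx),
      dz_mul j ((isFun_iff.mp hF).diffAt hx) ((LocE_hom hu k).diffAt hx),
      dz_dz_comm k j hu.smooth hx]
    ring
  have hle : ∀ a b : ℂ, Complex.normSq (a - b) ≤ 2 * Complex.normSq a + 2 * Complex.normSq b := by
    intro a b
    simp only [Complex.normSq_apply, Complex.sub_re, Complex.sub_im]
    nlinarith [mul_self_nonneg (a.re + b.re), mul_self_nonneg (a.im + b.im)]
  have h1 : curl (fun x j => F x * dz j u x) x ≤ ∑ j, ∑ k,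
      (2 * (Complex.normSq (dz k F x) * Complex.normSq (dz j u x)) +
        2 * (Complex.normSq (dz j F x) * Complex.normSq (dz k u x))) := by
    unfold curl
    refine Finset.sum_le_sum fun j _ => Finset.sum_le_sum fun k _ => ?_
    rw [key j k]
    refine (hle _ _).trans ?_
    rw [Complex.normSq_mul, Complex.normSq_mul]
  refine h1.trans (le_of_eq ?_)
  unfold gr
  simp only [Fin.sum_univ_three]
  ring

theorem LocE_gr_int {F u : V → ℂ} (hF : IsFun F) (hu : IsFun u) :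
    Integrable (fun x => gr F x * gr u x * wt x) := by
  have hg : ∀ v : V → ℂ, IsFun v → Hom (-1) (-1) (fun x => ∑ j, dz j v x * conj (dz j v x)) := by
    intro v hv
    refine hom_sum Finset.univ (fun j x => dz j v x * conj (dz j v x)) fun j _ => ?_
    have := hom_mul (LocE_hom hv j) (hom_conj (LocE_hom hv j))
    simpa using this
  have hm := hom_mul (hg F hF) (hg u hu)
  have hi := (chom_integrable hm.chom (by norm_num)).re
  refine hi.congr (Filter.Eventually.of_forall fun x => ?_)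
  have hs : ∀ v : V → ℂ, ∑ j, dz j v x * conj (dz j v x) = ((gr v x : ℝ) : ℂ) := by
    intro v
    unfold gr
    push_cast
    exact Finset.sum_congr rfl fun j _ => Complex.mul_conj _
  show RCLike.re ((∑ j, dz j F x * conj (dz j F x)) * (∑ j, dz j u x * conj (dz j u x)) *
    (wt x : ℂ)) = gr F x * gr u x * wt x
  rw [hs, hs, ← Complex.ofReal_mul, ← Complex.ofReal_mul]
  exact Complex.ofReal_re _

theorem LocE_hsK {F u : V → ℂ} (rF : IsRe F) (x : V) :
    hs (fun j k => dz j u x * dzb k F x) = gr F x * gr u x := by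
  have h1 := hs_rank1 (fun j => dz j u x) (fun k => dzb k F x)
  rw [h1]
  have h2 : N (fun j => dz j u x) = gr u x := rfl
  have h3 : N (fun k => dzb k F x) = gr F x := by
    unfold N gr
    refine Finset.sum_congr rfl fun k _ => ?_
    have h4 : (fun y => conj (F y)) = F := funext rF
    have h5 := conj_dz k F x
    rw [h4] at h5
    show Complex.normSq (dzb k F x) = Complex.normSq (dz k F x)
    rw [← h5, Complex.normSq_conj]
  rw [h2, h3]
  ring

theorem LocE_amgm {q a b : ℝ} (h : q ^ 2 ≤ b * a) (ha : 0 ≤ a) (hb : 0 ≤ b) :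
    q ≤ a / 20 + 5 * b := by
  have h1 : q ^ 2 ≤ (a / 20 + 5 * b) ^ 2 := by nlinarith [sq_nonneg (a / 20 - 5 * b)]
  exact le_of_sq_le_sq h1 (by positivity)

theorem LocE_mix {c0 s1 : ℝ} {φ : ℝ → ℝ} (hφ : Prof c0 s1 φ)
    {ρ : ℝ} (hρ : 0 < ρ) {p : V} (hp : N p = 1) {u : V → ℂ} (hu : IsFun u)
    {E : V → M3} (hE : InH0 E) :
    -(∫ x, (cutF φ ρ p x).re * (ee (L u x) (E x)).re * wt x) ≤
      (∫ x, gr (cutF φ ρ p) x * gr u x * wt x) / 4 + 25 * ∫ x, hs (E x) * wt x := by
  have FF := isFun_cutF (c0 := c0) (s1 := s1) hφ hρ hp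
  have rF := isRe_cutF φ ρ p
  set F := cutF φ ρ p with hFdef
  have hm : ∀ x, 0 ≤ (F x).re ∧ (F x).re ≤ 1 := fun x => cutF_mem hφ ρ p x
  have Fmeas : AEStronglyMeasurable F (volume : Measure V) :=
    (measurable_of_continuousOn_compl_singleton 0 FF.smooth.continuousOn).aestronglyMeasurable
  have Fnorm : ∀ x, ‖F x‖ ≤ 1 := by
    intro x
    rw [LocE_re rF x, Complex.norm_real, Real.norm_eq_abs, abs_of_nonneg (hm x).1]
    exact (hm x).2
  have hEf := hE.form
  have hLf := form_L hu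
  have hcov := LocE_cov FF hu
  have hFL : IsForm (fun x => F x • L u x) := form_smul_fun hLf (isFun_iff.mp FF).chom
  have hK : IsForm (fun x => db (fun x j => F x * dz j u x) x - F x • L u x) :=
    form_sub (form_db hcov) hFL
  have hKeq : ∀ x : V, x ≠ 0 → db (fun x j => F x * dz j u x) x - F x • L u x =
      (fun j k => dz j u x * dzb k F x) := by
    intro x hx
    funext j k
    have h1 : (db (fun x j => F x * dz j u x) x - F x • L u x) j k =
      db (fun x j => F x * dz j u x) x j k - F x * L u x j k := rfl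
    rw [h1, LocE_db FF hu hx]
    ring
  -- the integral as a real part
  have e1 : ∫ x, (F x).re * (ee (L u x) (E x)).re * wt x = (qq (fun x => F x • L u x) E).re := by
    unfold qq
    have h2 := ee_int hFL hEf
    rw [← RCLike.re_to_complex, ← integral_re h2]
    refine integral_congr_ae (Filter.Eventually.of_forall fun x => ?_)
    show (F x).re * (ee (L u x) (E x)).re * wt x = (ee (F x • L u x) (E x) * (wt x : ℂ)).re
    rw [ee_smul_left, Complex.re_mul_ofReal]
    conv_rhs => rw [LocE_re rF x, Complex.re_ofReal_mul]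
  have e2 : qq (fun x => F x • L u x) E = qq (db (fun x j => F x * dz j u x)) E -
      qq (fun x => db (fun x j => F x * dz j u x) x - F x • L u x) E := by
    rw [qq_sub_left (form_db hcov) hFL hEf]
    ring
  have hGi := LocE_gr_int FF hu
  have hHi := hs_int hEf
  have hG0 : 0 ≤ ∫ x, gr F x * gr u x * wt x := by
    refine integral_nonneg fun x => ?_
    have a1 : 0 ≤ gr F x := Finset.sum_nonneg fun _ _ => Complex.normSq_nonneg _
    have a2 : 0 ≤ gr u x := Finset.sum_nonneg fun _ _ => Complex.normSq_nonneg _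
    exact mul_nonneg (mul_nonneg a1 a2) (LocE_wt_pos x).le
  have hH0 : 0 ≤ ∫ x, hs (E x) * wt x :=
    integral_nonneg fun x => mul_nonneg (hs_nonneg _) (LocE_wt_pos x).le
  -- first term
  have b1 : ‖qq (db (fun x j => F x * dz j u x)) E‖ ≤
      (∫ x, gr F x * gr u x * wt x) / 20 + 5 * ∫ x, hs (E x) * wt x := by
    rw [qq_comm]
    refine LocE_amgm ((ta hE hcov).trans ?_) hG0 hH0
    have c1 : nn E E ≤ ∫ x, hs (E x) * wt x := by
      rw [hs_split hEf hE.herm]
      have : 0 ≤ ∫ x, ((E x).trace).re ^ 2 * wt x :=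
        integral_nonneg fun x => mul_nonneg (sq_nonneg _) (LocE_wt_pos x).le
      linarith
    have c2 : (1 / 4) * ∫ x, curl (fun x j => F x * dz j u x) x * wt x ≤
        ∫ x, gr F x * gr u x * wt x := by
      have c3 : ∫ x, curl (fun x j => F x * dz j u x) x * wt x ≤
          ∫ x, 4 * (gr F x * gr u x * wt x) := by
        refine integral_mono_ae (curl_integrable hcov) (hGi.const_mul 4) ?_
        filter_upwards [HFac_ae_ne] with x hx
        have c4 := mul_le_mul_of_nonneg_right (LocE_curl FF hu hx) (LocE_wt_pos x).le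
        calc curl (fun x j => F x * dz j u x) x * wt x ≤ 4 * (gr F x * gr u x) * wt x := c4
          _ = 4 * (gr F x * gr u x * wt x) := by ring
      rw [integral_const_mul] at c3
      linarith
    have c5 : 0 ≤ (1 / 4) * ∫ x, curl (fun x j => F x * dz j u x) x * wt x := by
      refine mul_nonneg (by norm_num) (integral_nonneg fun x => mul_nonneg ?_ (LocE_wt_pos x).le)
      exact Finset.sum_nonneg fun _ _ => Finset.sum_nonneg fun _ _ => Complex.normSq_nonneg _
    exact mul_le_mul c1 c2 c5 hH0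
  -- second term
  have b2 : ‖qq (fun x => db (fun x j => F x * dz j u x) x - F x • L u x) E‖ ≤
      (∫ x, gr F x * gr u x * wt x) / 5 + 20 * ∫ x, hs (E x) * wt x := by
    have hi : Integrable (fun x => (1 / 5) * (gr F x * gr u x * wt x) + 20 * (hs (E x) * wt x)) :=
      (hGi.const_mul _).add (hHi.const_mul _)
    have h3 : ∫ x, ((1 / 5) * (gr F x * gr u x * wt x) + 20 * (hs (E x) * wt x)) =
        (∫ x, gr F x * gr u x * wt x) / 5 + 20 * ∫ x, hs (E x) * wt x := by
      rw [integral_add (hGi.const_mul _) (hHi.const_mul _), integral_const_mul, integral_const_mul]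
      ring
    rw [← h3]
    unfold qq
    refine norm_integral_le_of_norm_le hi ?_
    filter_upwards [HFac_ae_ne] with x hx
    rw [hKeq x hx, norm_mul, Complex.norm_real, Real.norm_eq_abs, abs_of_pos (LocE_wt_pos x)]
    have h4 := ee_abs (fun j k => dz j u x * dzb k F x) (E x)
    rw [LocE_hsK rF x] at h4
    have a1 : 0 ≤ gr F x := Finset.sum_nonneg fun _ _ => Complex.normSq_nonneg _
    have a2 : 0 ≤ gr u x := Finset.sum_nonneg fun _ _ => Complex.normSq_nonneg _
    have s1 := Real.sq_sqrt (mul_nonneg a1 a2)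
    have s2 := Real.sq_sqrt (hs_nonneg (E x))
    have h5 : 4 * (Real.sqrt (gr F x * gr u x) * Real.sqrt (hs (E x))) ≤
        (1 / 5) * (gr F x * gr u x) + 20 * hs (E x) := by
      nlinarith [sq_nonneg (Real.sqrt (gr F x * gr u x) - 10 * Real.sqrt (hs (E x)))]
    calc ‖ee (fun j k => dz j u x * dzb k F x) (E x)‖ * wt x
        ≤ ((1 / 5) * (gr F x * gr u x) + 20 * hs (E x)) * wt x :=
          mul_le_mul_of_nonneg_right (h4.trans h5) (LocE_wt_pos x).le
      _ = (1 / 5) * (gr F x * gr u x * wt x) + 20 * (hs (E x) * wt x) := by ring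
  rw [e1, e2]
  have h6 : -(qq (db (fun x j => F x * dz j u x)) E -
      qq (fun x => db (fun x j => F x * dz j u x) x - F x • L u x) E).re ≤
      ‖qq (db (fun x j => F x * dz j u x)) E‖ +
        ‖qq (fun x => db (fun x j => F x * dz j u x) x - F x • L u x) E‖ := by
    refine le_trans ?_ (norm_sub_le _ _)
    exact (neg_le_abs _).trans (Complex.abs_re_le_norm _)
  linarith

theorem loc_ineq_int {c0 s1 : ℝ} {φ : ℝ → ℝ} (hφ : Prof c0 s1 φ) (h0 : 1 ≤ c0) (h1 : 1 ≤ s1)
    {ρ : ℝ} (hρ : 0 < ρ) (hρ' : ρ ≤ 1 / 2) {p : V} (hp : N p = 1) {u : V → ℂ} (hu : IsFun u)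
    (ru : IsRe u) {E : V → M3} (hE : InH0 E) :
    -(∫ x, (cutF φ ρ p x).re * (ee (L u x + E x) (L u x + E x)).re * wt x) ≤
      (51 + c0) * (∫ x, hs (E x) * wt x) +
        (51 + c0) / s1 * (∫ x in Ann p ρ, gr (tt p) x * gr u x * wt x) := by
  obtain ⟨Gd, hGd, hA, hB⟩ := loc_good hφ h0 h1 hρ hρ' hp hu ru
  have hmix := LocE_mix hφ hρ hp hu hE
  have hann := ann_nonneg p ρ u
  have FF := isFun_cutF (c0 := c0) (s1 := s1) hφ hρ hp
  have rF := isRe_cutF φ ρ p
  set F := cutF φ ρ p with hFdef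
  have hm : ∀ x, 0 ≤ (F x).re ∧ (F x).re ≤ 1 := fun x => cutF_mem hφ ρ p x
  have Fmeas : AEStronglyMeasurable F (volume : Measure V) :=
    (measurable_of_continuousOn_compl_singleton 0 FF.smooth.continuousOn).aestronglyMeasurable
  have Fnorm : ∀ x, ‖F x‖ ≤ 1 := by
    intro x
    rw [LocE_re rF x, Complex.norm_real, Real.norm_eq_abs, abs_of_nonneg (hm x).1]
    exact (hm x).2
  have hEf := hE.form
  have hLf := form_L hu
  have hint : ∀ A B : V → M3, IsForm A → IsForm B →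
      Integrable (fun x => (F x).re * (ee (A x) (B x)).re * wt x) := by
    intro A B hA hB
    have h2 := (ee_int_bdd hA hB Fmeas Fnorm).re
    refine h2.congr (Filter.Eventually.of_forall fun x => ?_)
    show (F x * ee (A x) (B x) * (wt x : ℂ)).re = (F x).re * (ee (A x) (B x)).re * wt x
    rw [Complex.re_mul_ofReal]
    conv_lhs => rw [LocE_re rF x, Complex.re_ofReal_mul]
  have i1 := hint _ _ hLf hLf
  have i2 := hint _ _ hLf hEf
  have i3 := hint _ _ hEf hEf
  have hsum : ∫ x, (F x).re * (ee (L u x + E x) (L u x + E x)).re * wt x =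
      (∫ x, (F x).re * (ee (L u x) (L u x)).re * wt x) +
        2 * (∫ x, (F x).re * (ee (L u x) (E x)).re * wt x) +
          ∫ x, (F x).re * (ee (E x) (E x)).re * wt x := by
    have q1 := integral_add i1 (i2.const_mul 2)
    have q2 := integral_add (i1.add (i2.const_mul 2)) i3
    rw [← integral_const_mul, ← q1]
    refine Eq.trans ?_ q2
    refine integral_congr_ae (Filter.Eventually.of_forall fun x => ?_)
    have h3 : ee (L u x + E x) (L u x + E x) =
        ee (L u x) (L u x) + 2 * ee (L u x) (E x) + ee (E x) (E x) := by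
      rw [ee_add_left, ee_comm (L u x) (L u x + E x), ee_comm (E x) (L u x + E x), ee_add_left,
        ee_add_left, ee_comm (E x) (L u x)]
      ring
    show (F x).re * (ee (L u x + E x) (L u x + E x)).re * wt x = _
    rw [h3]
    have h4 : (2 * ee (L u x) (E x)).re = 2 * (ee (L u x) (E x)).re := by
      simp [Complex.mul_re]
    simp only [Pi.add_apply, Complex.add_re, h4]
    ring
  have h5 : -(∫ x, hs (E x) * wt x) ≤ ∫ x, (F x).re * (ee (E x) (E x)).re * wt x := by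
    rw [← integral_neg]
    refine integral_mono_ae (hs_int hEf).neg i3 ?_
    filter_upwards [HFac_ae_ne] with x hx
    have h6 := ee_hs (hE.herm x hx)
    have h7 : -hs (E x) ≤ (F x).re * (ee (E x) (E x)).re := by
      rw [h6]
      have a1 := hs_nonneg (E x)
      have a2 := sq_nonneg ((E x).trace.re)
      obtain ⟨a3, a4⟩ := hm x
      nlinarith [mul_nonneg a3 a2, mul_nonneg (sub_nonneg.2 a4) a1]
    calc -(hs (E x) * wt x) = (-hs (E x)) * wt x := by ring
      _ ≤ (F x).re * (ee (E x) (E x)).re * wt x :=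
        mul_le_mul_of_nonneg_right h7 (LocE_wt_pos x).le
  have hH0 : 0 ≤ ∫ x, hs (E x) * wt x :=
    integral_nonneg fun x => mul_nonneg (hs_nonneg _) (LocE_wt_pos x).le
  rw [hsum]
  have hs0 : 0 < s1 := by linarith
  have h8 : c0 / s1 * (∫ x in Ann p ρ, gr (tt p) x * gr u x * wt x) +
      1 / s1 * (∫ x in Ann p ρ, gr (tt p) x * gr u x * wt x) ≤
      (51 + c0) / s1 * (∫ x in Ann p ρ, gr (tt p) x * gr u x * wt x) := by
    rw [← add_mul, ← add_div]
    refine mul_le_mul_of_nonneg_right ?_ hann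
    exact div_le_div_of_nonneg_right (by linarith) hs0.le
  have h9 : 0 ≤ 1 / s1 * (∫ x in Ann p ρ, gr (tt p) x * gr u x * wt x) :=
    mul_nonneg (by positivity) hann
  have h10 : 0 ≤ c0 * ∫ x, hs (E x) * wt x := mul_nonneg (by linarith) hH0
  have h11 : (51 + c0) * (∫ x, hs (E x) * wt x) =
      51 * (∫ x, hs (E x) * wt x) + c0 * ∫ x, hs (E x) * wt x := by ring
  rw [h11]
  linarith

end Pool.Agent.H85.DC

end S_H85_DC_LocE
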