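import Mathlib
import Pool.Agent.H24.M68.G19

/-! MP_6873ef_an: this file joins several modules to save build time. -/

section S_H76_FT_TB

/-!
# Row TB: the Taylor inequality for the conormal field (7a)(7b)

CLAIM: there are C, c > 0 such that for unit y, y' off the zeros of eta F with `tau y y' ≤ c * N (eta F y)`:
`N (cr (nv F y) (nv F y')) ≤ C (tau y y' * IIq F y + |bp (nv F y') y|^2 * Kq F y + (tau y y')^2 / N (eta F y))`.

Proof.  All quantities are unchanged when y' is replaced by `l • y'`, |l| = 1 (`eta_hom`: `nv F (l • y') = l^(d+1) • nv F y'`, `cr_smul_right`, `tau_smul_right`).  By `tau_phase` we may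
assume `N (y' - y) ≤ 2 tau y y'` (apply it to x := y, y := y': `N (y - l • y') ≤ 2 tau`).  Put v = y' - y, e = N (eta F y), R = eta y' - eta y - dEta y v, `N R ≤ C1 (N v)^2` (`eta_taylor`).
(i) `cr (eta y') (eta y) = cr (dEta y v) (eta y) + cr R (eta y)` (`cr_self`).  `v = ip v y • y + ip v w • w + ip v t • t` (`basis`), dEta is linear, `cr (dEta y y) (eta y) = (d+1) cr (eta) (eta) = 0`:
 `cr (eta y') (eta y) = ip v w • cr (dEta y w) (eta y) + ip v t • cr (dEta y t) (eta y) + cr R (eta y)`.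
 With `N (a+b+c) ≤ 3 (N a + N b + N c)`, `|ip v w|^2 ≤ N v` (`basis`), `N (cr R (eta y)) ≤ N R * e` (`tau_cross`: N (cr a b) = N a N b - |ip a b|^2):
 `N (cr (eta y') (eta y)) ≤ 3 (N v * IIq * e^2 + |ip v t|^2 * Kq * e^2 + C1 (N v)^2 e)`.
(ii) `N (eta y') ≥ e/4`: `N (eta y' - eta y) ≤ C2 N v ≤ 2 C2 c e` (`eta_lip`), `e ≤ 2 N (eta y') + 2 N (eta y - eta y')`, so `N (eta y') ≥ e (1/2 - 2 C2 c) ≥ e/4` if `c ≤ 1/(8 C2)`.
 `nv y = (√e)⁻¹ • eta y` etc.: `N (cr (nv y) (nv y')) = N (cr (eta y) (eta y'))/(e N (eta y')) ≤ 4 N (cr (eta y')(eta y))/e^2 ≤ 12 (N v * IIq + |ip v t|^2 Kq + C1 (N v)^2/e)`.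
(iii) `ip v t = bp (nv y) v = bp (nv y) y'` (`ip_tv`, `bp_nv`).  Phase l with |l| = 1 and `N (nv y - l • nv y') ≤ 2 tau (nv y) (nv y') = 2 N (cr (nv y) (nv y'))` (`tau_phase`, `nv_unit`, `tau_cross'`).
 `bp (nv y - l nv y') (y' - y) = bp (nv y) y' + l bp (nv y') y` (as bp (nv y) y = 0 = bp (nv y') y').  So with `|bp a b|^2 ≤ N a N b` (Cauchy-Schwarz):
 `|bp (nv y) y'|^2 ≤ 2 |bp (nv y') y|^2 + 2 N (nv y - l nv y') N v ≤ 2 |bp (nv y') y|^2 + 4 D N v`, D := N (cr (nv y) (nv y')).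
(iv) `Kq ≤ C3/e`: `N (cr (dEta y t) (eta y)) ≤ N (dEta y t) e ≤ C3 e` (`dEta_bdd`, N t = 1).  So `12 * 4 D N v Kq ≤ 48 D * 2 c e * C3/e = 96 c C3 D ≤ D/2` if `c ≤ 1/(192 C3)`.
 Then `D ≤ 12 (N v IIq + 2 |bp (nv y') y|^2 Kq + C1 (N v)^2/e) + D/2`; with N v ≤ 2 tau: `D ≤ 24 (2 tau IIq + 2 |bp|^2 Kq + 4 C1 tau^2/e)`.
-/

open MeasureTheory Filter Topology
open scoped ContDiff BigOperators ComplexConjugate Matrix

namespace FT76

open Pool.Agent.H85.DC

theorem TB_bp_add (a b c : V) : bp (a + b) c = bp a c + bp b c := by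
  unfold bp
  rw [← Finset.sum_add_distrib]
  exact Finset.sum_congr rfl fun j _ => by rw [Pi.add_apply]; ring

theorem TB_bp_sub_left (a b c : V) : bp (a - b) c = bp a c - bp b c := by
  unfold bp
  rw [← Finset.sum_sub_distrib]
  exact Finset.sum_congr rfl fun j _ => by rw [Pi.sub_apply]; ring

theorem TB_bp_sub_right (a b c : V) : bp a (b - c) = bp a b - bp a c := by
  unfold bp
  rw [← Finset.sum_sub_distrib]
  exact Finset.sum_congr rfl fun j _ => by rw [Pi.sub_apply]; ring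

theorem TB_bp_smul (l : ℂ) (a b : V) : bp (l • a) b = l * bp a b := by
  unfold bp
  rw [Finset.mul_sum]
  exact Finset.sum_congr rfl fun j _ => by rw [Pi.smul_apply, smul_eq_mul]; ring

theorem bp_sq_le (a b : V) : Complex.normSq (bp a b) ≤ N a * N b := by
  have h1 : bp a b = ip a (fun j => conj (b j)) := by
    unfold bp ip
    exact Finset.sum_congr rfl fun j _ => by rw [Complex.conj_conj]
  have h2 : N (fun j => conj (b j)) = N b := by
    unfold N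
    exact Finset.sum_congr rfl fun j _ => Complex.normSq_conj _
  rw [h1, ← h2]
  exact cs_ip _ _

theorem nv_smul {F : Fin 3 → MvPolynomial (Fin 3) ℂ} {d : ℕ} (hF : ∀ j, (F j).IsHomogeneous d) {l : ℂ}
    (hl : Complex.normSq l = 1) (y : V) : nv F (l • y) = l ^ (d + 1) • nv F y := by
  unfold nv
  rw [eta_hom hF, N_smul, map_pow, hl, one_pow, one_mul, smul_smul, smul_smul, mul_comm]

theorem TB_N_cr_comm (a b : V) : N (cr a b) = N (cr b a) := by
  rw [tau_cross, tau_cross, TauM_normSq_ip_comm, mul_comm (N a)]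

theorem TB_cr_le (a b : V) : N (cr a b) ≤ N a * N b := by
  rw [tau_cross]
  linarith [Complex.normSq_nonneg (ip a b)]

theorem TB_N_tv {F : Fin 3 → MvPolynomial (Fin 3) ℂ} {y : V} (h : eta F y ≠ 0) : N (tv F y) = 1 := by
  rw [← nv_unit h]
  unfold tv N
  exact Finset.sum_congr rfl fun j _ => Complex.normSq_conj _

theorem Kq_le {F : Fin 3 → MvPolynomial (Fin 3) ℂ} :
    ∃ C : ℝ, 0 < C ∧ ∀ y : V, N y = 1 → eta F y ≠ 0 → Kq F y ≤ C / N (eta F y) := by
  obtain ⟨C, hC, hb⟩ := dEta_bdd F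
  refine ⟨C, hC, fun y hy h => ?_⟩
  have he : 0 < N (eta F y) := N_pos h
  have h1 := hb y (tv F y) hy
  rw [TB_N_tv h, mul_one] at h1
  have h2 := TB_cr_le (dEta F y (tv F y)) (eta F y)
  unfold Kq
  rw [div_le_div_iff₀ (by positivity) he]
  have h3 : N (cr (dEta F y (tv F y)) (eta F y)) ≤ C * N (eta F y) :=
    h2.trans (mul_le_mul_of_nonneg_right h1 he.le)
  nlinarith

theorem TB_normSq_add (a b : ℂ) : Complex.normSq (a - b) ≤ 2 * Complex.normSq a + 2 * Complex.normSq b := by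
  rw [Complex.normSq_apply, Complex.normSq_apply, Complex.normSq_apply, Complex.sub_re, Complex.sub_im]
  nlinarith [sq_nonneg (a.re + b.re), sq_nonneg (a.im + b.im)]

theorem TB_N_add3 (a b c : V) : N (a + b + c) ≤ 4 * N a + 4 * N b + 2 * N c := by
  have h1 := N_add_le (a + b) c
  have h2 := N_add_le a b
  linarith

/-- step (i) -/
theorem TB_A {F : Fin 3 → MvPolynomial (Fin 3) ℂ} {d : ℕ} (hF : ∀ j, (F j).IsHomogeneous d) {C1 : ℝ} (_hC1 : 0 < C1)
    {y y' : V} (hy : N y = 1) (he : eta F y ≠ 0)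
    (hR : N (eta F y' - eta F y - dEta F y (y' - y)) ≤ C1 * (N (y' - y)) ^ 2) :
    N (cr (eta F y') (eta F y)) ≤ (4 * (N (y' - y) * IIq F y) +
      4 * (Complex.normSq (ip (y' - y) (tv F y)) * Kq F y)) * N (eta F y) ^ 2 +
      2 * (C1 * (N (y' - y)) ^ 2 * N (eta F y)) := by
  obtain ⟨v, hv⟩ : ∃ v : V, v = y' - y := ⟨_, rfl⟩
  obtain ⟨R, hRd⟩ : ∃ R : V, R = eta F y' - eta F y - dEta F y (y' - y) := ⟨_, rfl⟩
  have hep : 0 < N (eta F y) := N_pos he
  obtain ⟨hb1, hb2⟩ := basis hy he v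
  have h0 : cr (dEta F y y) (eta F y) = 0 := by
    rw [dEta_euler hF, cr_smul_left, cr_self, smul_zero]
  have h1 : cr (dEta F y v) (eta F y) = ip v (wv F y) • cr (dEta F y (wv F y)) (eta F y) +
      ip v (tv F y) • cr (dEta F y (tv F y)) (eta F y) := by
    conv_lhs => rw [hb1]
    rw [dEta_add, dEta_add, dEta_smul, dEta_smul, dEta_smul, cr_add_left, cr_add_left, cr_smul_left,
      cr_smul_left, cr_smul_left, h0, smul_zero, zero_add]
  have h2 : cr (eta F y') (eta F y) = ip v (wv F y) • cr (dEta F y (wv F y)) (eta F y) +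
      ip v (tv F y) • cr (dEta F y (tv F y)) (eta F y) + cr R (eta F y) := by
    rw [← h1, hRd, cr_sub_left, cr_sub_left, cr_self, ← hv, sub_zero]
    abel
  rw [h2]
  refine (TB_N_add3 _ _ _).trans ?_
  rw [N_smul, N_smul, ← hv]
  have h3 : N (cr (dEta F y (wv F y)) (eta F y)) = IIq F y * N (eta F y) ^ 2 := by
    unfold IIq
    field_simp
  have h4 : N (cr (dEta F y (tv F y)) (eta F y)) = Kq F y * N (eta F y) ^ 2 := by
    unfold Kq
    field_simp
  rw [h3, h4]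
  have h5 : Complex.normSq (ip v (wv F y)) ≤ N v := by
    rw [hb2]
    linarith [Complex.normSq_nonneg (ip v y), Complex.normSq_nonneg (ip v (tv F y))]
  have h6 : N (cr R (eta F y)) ≤ C1 * N v ^ 2 * N (eta F y) := by
    refine (TB_cr_le _ _).trans ?_
    rw [← hRd, ← hv] at hR
    exact mul_le_mul_of_nonneg_right hR hep.le
  have h7 : Complex.normSq (ip v (wv F y)) * (IIq F y * N (eta F y) ^ 2) ≤
      N v * (IIq F y * N (eta F y) ^ 2) := by
    apply mul_le_mul_of_nonneg_right h5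
    have := IIq_nonneg F y
    positivity
  nlinarith

theorem TB_N_neg (v : V) : N (-v) = N v := by
  unfold N
  exact Finset.sum_congr rfl fun j _ => by rw [Pi.neg_apply, Complex.normSq_neg]

/-- step (ii) -/
theorem TB_D {F : Fin 3 → MvPolynomial (Fin 3) ℂ} {y y' : V} (he : eta F y ≠ 0) (he' : eta F y' ≠ 0) :
    N (cr (nv F y) (nv F y')) = N (cr (eta F y') (eta F y)) / (N (eta F y) * N (eta F y')) := by
  have h1 : 0 < N (eta F y) := N_pos he
  have h2 : 0 < N (eta F y') := N_pos he'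
  have h3 : ∀ x : ℝ, 0 < x → Complex.normSq ((Real.sqrt x : ℂ)⁻¹) = x⁻¹ := by
    intro x hx
    rw [map_inv₀, Complex.normSq_ofReal, Real.mul_self_sqrt hx.le]
  unfold nv
  rw [cr_smul_left, cr_smul_right, N_smul, N_smul, h3 _ h1, h3 _ h2, TB_N_cr_comm (eta F y) (eta F y')]
  field_simp

theorem TB_ep {F : Fin 3 → MvPolynomial (Fin 3) ℂ} {C2 c t : ℝ} (hC2 : 0 < C2) (hc : c ≤ 1 / (8 * C2))
    {y y' : V} (hlip : N (eta F y - eta F y') ≤ C2 * N (y - y')) (hn : N (y - y') ≤ 2 * t)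
    (ht : t ≤ c * N (eta F y)) : N (eta F y) / 4 ≤ N (eta F y') := by
  have h1 := N_add_le (eta F y') (eta F y - eta F y')
  rw [add_sub_cancel] at h1
  have h2 : C2 * N (y - y') ≤ C2 * (2 * (c * N (eta F y))) :=
    mul_le_mul_of_nonneg_left (hn.trans (by linarith)) hC2.le
  have h3 : C2 * c ≤ 1 / 8 := by
    rw [le_div_iff₀ (by positivity)] at hc
    linarith
  have h4 := N_nonneg (eta F y)
  have h5 : C2 * c * N (eta F y) ≤ 1 / 8 * N (eta F y) := mul_le_mul_of_nonneg_right h3 h4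
  linarith

/-- step (iii) -/
theorem TB_b {F : Fin 3 → MvPolynomial (Fin 3) ℂ} {y y' : V} (he : eta F y ≠ 0) (he' : eta F y' ≠ 0) :
    Complex.normSq (ip (y' - y) (tv F y)) ≤
      4 * (N (cr (nv F y) (nv F y')) * N (y' - y)) + 2 * Complex.normSq (bp (nv F y') y) := by
  have n1 : N (nv F y) = 1 := nv_unit he
  have n2 : N (nv F y') = 1 := nv_unit he'
  obtain ⟨l, hl, hl2⟩ := tau_phase n1 n2
  have h1 : N (cr (nv F y) (nv F y')) = tau (nv F y) (nv F y') := by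
    rw [tau_cross]
    unfold tau
    rw [n1, n2]
    ring
  have h2 : ip (y' - y) (tv F y) = bp (nv F y - l • nv F y') (y' - y) - l * bp (nv F y') y := by
    rw [ip_tv, TB_bp_sub_left, TB_bp_smul, TB_bp_sub_right, TB_bp_sub_right, bp_nv, bp_nv]
    ring
  rw [h2]
  refine (TB_normSq_add _ _).trans ?_
  rw [map_mul, hl, one_mul]
  have h3 := bp_sq_le (nv F y - l • nv F y') (y' - y)
  have h4 : N (nv F y - l • nv F y') * N (y' - y) ≤ 2 * tau (nv F y) (nv F y') * N (y' - y) :=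
    mul_le_mul_of_nonneg_right hl2 (N_nonneg _)
  rw [h1]
  linarith

/-- the inequality after normalisation -/
theorem TB_core {F : Fin 3 → MvPolynomial (Fin 3) ℂ} {d : ℕ} (hF : ∀ j, (F j).IsHomogeneous d) {C1 C2 C3 c : ℝ}
    (hC1 : 0 < C1) (hC2 : 0 < C2) (hC3 : 0 < C3) (hc0 : 0 < c) (hc2 : c ≤ 1 / (8 * C2)) (hc3 : c ≤ 1 / (256 * C3))
    {y y' : V} (hy : N y = 1) (he : eta F y ≠ 0) (he' : eta F y' ≠ 0)
    (hR : N (eta F y' - eta F y - dEta F y (y' - y)) ≤ C1 * (N (y' - y)) ^ 2)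
    (hlip : N (eta F y - eta F y') ≤ C2 * N (y - y')) (hK : Kq F y ≤ C3 / N (eta F y))
    {t : ℝ} (hn : N (y - y') ≤ 2 * t) (ht : t ≤ c * N (eta F y)) :
    N (cr (nv F y) (nv F y')) ≤ 64 * (1 + C1) * (t * IIq F y + Complex.normSq (bp (nv F y') y) * Kq F y +
        t ^ 2 / N (eta F y)) := by
  obtain ⟨e, hed⟩ : ∃ e : ℝ, e = N (eta F y) := ⟨_, rfl⟩
  have hep : 0 < e := by rw [hed]; exact N_pos he
  obtain ⟨n, hnd⟩ : ∃ n : ℝ, n = N (y' - y) := ⟨_, rfl⟩
  have hn0 : 0 ≤ n := by rw [hnd]; exact N_nonneg _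
  have hnn : N (y - y') = n := by rw [hnd, ← TB_N_neg (y' - y), neg_sub]
  rw [hnn] at hn
  obtain ⟨D, hDd⟩ : ∃ D : ℝ, D = N (cr (nv F y) (nv F y')) := ⟨_, rfl⟩
  have hD0 : 0 ≤ D := by rw [hDd]; exact N_nonneg _
  obtain ⟨b, hbd⟩ : ∃ b : ℝ, b = Complex.normSq (ip (y' - y) (tv F y)) := ⟨_, rfl⟩
  have hb0 : 0 ≤ b := by rw [hbd]; exact Complex.normSq_nonneg _
  obtain ⟨β, hβd⟩ : ∃ β : ℝ, β = Complex.normSq (bp (nv F y') y) := ⟨_, rfl⟩
  have hβ0 : 0 ≤ β := by rw [hβd]; exact Complex.normSq_nonneg _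
  obtain ⟨I, hId⟩ : ∃ I : ℝ, I = IIq F y := ⟨_, rfl⟩
  have hI0 : 0 ≤ I := by rw [hId]; exact IIq_nonneg F y
  obtain ⟨Q, hQd⟩ : ∃ Q : ℝ, Q = Kq F y := ⟨_, rfl⟩
  have hQ0 : 0 ≤ Q := by rw [hQd]; exact Kq_nonneg F y
  have hA := TB_A hF hC1 hy he hR
  have hE := TB_ep hC2 hc2 hlip (by rw [hnn]; exact hn) ht
  have hb := TB_b he he'
  have hDD := TB_D he he'
  rw [← hed, ← hnd, ← hbd, ← hId, ← hQd] at hA
  rw [← hed] at hE hDD ht
  rw [← hDd, ← hnd, ← hbd, ← hβd] at hb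
  rw [← hDd] at hDD
  rw [← hDd, ← hId, ← hβd, ← hQd, ← hed]
  rw [← hQd, ← hed] at hK
  have ht0 : 0 ≤ t := by linarith
  have h1 : D ≤ 4 * N (cr (eta F y') (eta F y)) / e ^ 2 := by
    rw [hDD, div_le_div_iff₀ (by nlinarith) (by positivity)]
    have h2 := N_nonneg (cr (eta F y') (eta F y))
    have h3 : e ^ 2 ≤ 4 * (e * N (eta F y')) := by nlinarith
    nlinarith
  have h2 : 4 * N (cr (eta F y') (eta F y)) / e ^ 2 ≤ 16 * (n * I) + 16 * (b * Q) + 8 * C1 * (n ^ 2 / e) := by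
    rw [div_le_iff₀ (by positivity)]
    have h3 : (16 * (n * I) + 16 * (b * Q) + 8 * C1 * (n ^ 2 / e)) * e ^ 2 =
        4 * ((4 * (n * I) + 4 * (b * Q)) * e ^ 2 + 2 * (C1 * n ^ 2 * e)) := by
      field_simp
      ring
    rw [h3]
    linarith
  have h3 : b * Q ≤ (4 * (D * n) + 2 * β) * Q := mul_le_mul_of_nonneg_right hb hQ0
  have h4 : n * Q ≤ 1 / 128 := by
    have h5 : n ≤ 2 * (c * e) := by linarith
    have h6 : n * Q ≤ 2 * (c * e) * (C3 / e) := mul_le_mul h5 hK hQ0 (by positivity)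
    have h7 : 2 * (c * e) * (C3 / e) = 2 * (c * C3) := by field_simp
    have h8 : c * C3 ≤ 1 / 256 := by
      rw [le_div_iff₀ (by positivity)] at hc3
      linarith
    linarith
  have h5 : 16 * (4 * (D * n) * Q) ≤ D / 2 := by
    have h6 : D * (n * Q) ≤ D * (1 / 128) := mul_le_mul_of_nonneg_left h4 hD0
    linarith
  have h6 : D ≤ 32 * (n * I) + 64 * (β * Q) + 16 * C1 * (n ^ 2 / e) := by linarith
  have h7 : n * I ≤ 2 * t * I := mul_le_mul_of_nonneg_right hn hI0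
  have h8 : n ^ 2 / e ≤ 4 * (t ^ 2 / e) := by
    rw [← mul_div_assoc]
    apply div_le_div_of_nonneg_right _ hep.le
    nlinarith
  have h9 : C1 * (n ^ 2 / e) ≤ C1 * (4 * (t ^ 2 / e)) := mul_le_mul_of_nonneg_left h8 hC1.le
  have h10 : 0 ≤ t * I := mul_nonneg ht0 hI0
  have h11 : 0 ≤ β * Q := mul_nonneg hβ0 hQ0
  have h12 : 0 ≤ t ^ 2 / e := by positivity
  have h13 : 0 ≤ C1 * (t * I) := mul_nonneg hC1.le h10
  have h14 : 0 ≤ C1 * (β * Q) := mul_nonneg hC1.le h11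
  nlinarith

theorem tay {F : Fin 3 → MvPolynomial (Fin 3) ℂ} {d : ℕ} (hF : ∀ j, (F j).IsHomogeneous d) :
    ∃ C c : ℝ, 0 < C ∧ 0 < c ∧ ∀ y y' : V, N y = 1 → N y' = 1 → eta F y ≠ 0 → eta F y' ≠ 0 →
      tau y y' ≤ c * N (eta F y) →
      N (cr (nv F y) (nv F y')) ≤ C * (tau y y' * IIq F y + Complex.normSq (bp (nv F y') y) * Kq F y +
        (tau y y') ^ 2 / N (eta F y)) := by
  obtain ⟨C1, hC1, h1⟩ := eta_taylor hF
  obtain ⟨C2, hC2, h2⟩ := eta_lip F
  obtain ⟨C3, hC3, h3⟩ := Kq_le (F := F)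
  refine ⟨64 * (1 + C1), min (1 / (8 * C2)) (1 / (256 * C3)), by positivity, by positivity, ?_⟩
  intro y y' hy hy' he he' ht
  obtain ⟨l, hl, hl2⟩ := tau_phase hy hy'
  have hl0 : l ≠ 0 := by
    rintro rfl
    rw [map_zero] at hl
    exact zero_ne_one hl
  have hy1 : N (l • y') = 1 := by rw [N_smul, hl, hy', one_mul]
  have he1 : eta F (l • y') ≠ 0 := by
    rw [eta_hom hF]
    exact smul_ne_zero (pow_ne_zero _ hl0) he'
  have hlp : Complex.normSq (l ^ (d + 1)) = 1 := by rw [map_pow, hl, one_pow]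
  have key := TB_core hF hC1 hC2 hC3 (c := min (1 / (8 * C2)) (1 / (256 * C3))) (by positivity)
    (min_le_left _ _) (min_le_right _ _) hy he he1 (h1 y (l • y') hy hy1) (h2 y (l • y') hy hy1) (h3 y hy he)
    (t := tau y y') hl2 ht
  rw [nv_smul hF hl, cr_smul_right, N_smul, hlp, one_mul, TB_bp_smul, map_mul, hlp, one_mul] at key
  exact key

end FT76

end S_H76_FT_TB
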