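import Mathlib
import Pool.Agent.H24.M68.G06
import Pool.Agent.H24.M68.G09
import Pool.Agent.H24.M68.G19

/-! MP_6873ef_an: this file joins several modules to save build time. -/

section S_H76_FT_TH

/-!
# Row TH: the loss in terms of the conormals

1. `dir2`: for x ≠ 0 and unit y, y' off the zeros of eta F: `wed (perp x (wv F y)) (perp x (wv F y')) ≤ 6 (tau x y + tau x y') + 3 N (cr (nv F y) (nv F y'))`.
 This is step (2) of row Dir of helper85 (`Pool.Agent.H85.DC.Dir`), before the last estimate: wlog x unit (`perp (l x) w = perp x w`, `tau_smul_left`); phases l, l' with `N (x - l y) ≤ 2 tau x y`, `N (x - l' y') ≤ 2 tau x y'`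
 (`tau_phase`).  A = cr x (wv F y), B = cr x (wv F y'), N A, N B ≤ 1, `wed (perp x w) (perp x v) = N (cr A B)` (Binet-Cauchy `binet`: `N A = N (perp x w)`, `ip A B = ip w' v'`; `tau_cross`).
 `A - l • nv F y = cr (x - l y) (wv F y)` (`nv_eq`), norm² ≤ 2 tau x y; the same for B.  `cr A B = cr (A - l n) B + cr (l n) (B - l' n') + l l' cr n n'`, `N (a+b+c) ≤ 3(N a + N b + N c)`, `N (cr a b) ≤ N a N b`.
2. `loss2`: as in row LosA of helper85 (`loss_bound`), with dir2 instead of `dir`.  By `ee_smsm`: `Re ee (sm μ) (sm μ') (x) = ∫∫ kk(τ) kk(τ') N x^(-2) B dμ'(y') dμ(y)`, τ = tau x y, τ' = tau x y',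
 `B = wed + ε^2 (N w' + N v') + 2 ε^4`, `0 ≤ B ≤ 5`.  Tonelli.  Fix unit y, y'.
 (A) y ∉ Kr P (r0/4): some p has tau y p < r0/4; for x in the region (tau x p ≥ r0) `√tau(x,y) ≥ √r0 - √r0/2`, so tau x y ≥ r0/4 and `kk kk' B ≤ 2ε^(-4) e^(-r0/(4ε^2)) * 2 ε^(-4) * 5`; integrate `N^(-2) wt` (total π^3/2).
 (B) y ∈ Kr P (r0/4): `B ≤ 6 (τ + τ') + 3 D + 4 ε^2`, D = N (cr (nv y) (nv y')).  `kk kk' ≤ 4 ε^(-8) e^(-a)`, a = (τ+τ')/ε^2; `(6 ε^2 a + 3 D + 4 ε^2) e^(-a) ≤ (16 ε^2 + 3 D) e^(-a/2)` (a e^(-a/2) ≤ 1), and `e^(-a/2) = e^(-a/4) e^(-a/4)`,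
 a ≥ tau y y'/(2 ε^2) (`tau_two`), `e^(-a/4) ≤ e^(-τ/(4ε^2))`, `∫ e^(-τ/(4ε^2)) dν ≤ π^3 (4 ε^2)^2` (`nu_exp`, `nuP`).  So the contribution is `≤ C ε^(-8) (ε^2 + D) ε^4 e^(-tau(y,y')/(8ε^2))`.
-/

open MeasureTheory Filter Topology
open scoped ContDiff BigOperators ComplexConjugate Matrix

namespace FT76

open Pool.Agent.H85.DC

private theorem TH_cr_le (a b : V) : N (cr a b) ≤ N a * N b := by
  rw [tau_cross]
  have := Complex.normSq_nonneg (ip a b)
  linarith

private theorem TH_wed (a b : V) : wed a b = N (cr a b) := by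
  unfold wed
  rw [tau_cross]

private theorem TH_ip_sub (a b x : V) (s t : ℂ) :
    ip (a - s • x) (b - t • x) = ip a b - conj t * ip a x - s * conj (ip b x) +
      s * conj t * (N x : ℂ) := by
  rw [← TauM_ip_self x]
  simp only [ip, Fin.sum_univ_three, Pi.sub_apply, Pi.smul_apply, smul_eq_mul, map_add, map_sub,
    map_mul, Complex.conj_conj]
  ring

private theorem TH_perp {x : V} (hx : N x = 1) (w v : V) :
    ip (perp x w) (perp x v) = ip (cr x w) (cr x v) := by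
  unfold perp
  rw [TH_ip_sub, binet, hx, Complex.ofReal_one, div_one, div_one]
  ring

private theorem TH_perpN {x : V} (hx : N x = 1) (w : V) : N (perp x w) = N (cr x w) := by
  have h := TH_perp hx w w
  rw [TauM_ip_self, TauM_ip_self] at h
  exact_mod_cast h

private theorem TH_key {x : V} (hx : N x = 1) (w v : V) :
    wed (perp x w) (perp x v) = N (cr (cr x w) (cr x v)) := by
  rw [← TH_wed]
  unfold wed
  rw [TH_perp hx, TH_perpN hx, TH_perpN hx]

private theorem TH_perp_smul {l : ℂ} (hl : l ≠ 0) {x : V} (hx : x ≠ 0) (w : V) :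
    perp (l • x) w = perp x w := by
  unfold perp
  have h1 : (Complex.normSq l : ℂ) = l * conj l := (Complex.mul_conj l).symm
  have h2 : (N x : ℂ) ≠ 0 := by exact_mod_cast (TauM_N_pos hx).ne'
  have h3 : conj l ≠ 0 := (map_ne_zero _).2 hl
  rw [TauM_ip_smul_right, TauM_N_smul, Complex.ofReal_mul, h1, smul_smul]
  congr 2
  field_simp

private theorem TH_nsq3 (a b c : ℂ) : Complex.normSq (a + b + c) ≤
    3 * (Complex.normSq a + Complex.normSq b + Complex.normSq c) := by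
  simp only [Complex.normSq_apply, Complex.add_re, Complex.add_im]
  nlinarith [sq_nonneg (a.re - b.re), sq_nonneg (a.re - c.re), sq_nonneg (b.re - c.re),
    sq_nonneg (a.im - b.im), sq_nonneg (a.im - c.im), sq_nonneg (b.im - c.im)]

private theorem TH_N3 (a b c : V) : N (a + b + c) ≤ 3 * (N a + N b + N c) := by
  unfold N
  rw [← Finset.sum_add_distrib, ← Finset.sum_add_distrib, Finset.mul_sum]
  exact Finset.sum_le_sum fun j _ => TH_nsq3 _ _ _

private theorem TH_unit {F : Fin 3 → MvPolynomial (Fin 3) ℂ} {x y y' : V}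
    (hx : N x = 1) (hy : N y = 1) (hy' : N y' = 1) (h : eta F y ≠ 0) (h' : eta F y' ≠ 0) :
    wed (perp x (wv F y)) (perp x (wv F y')) ≤
        6 * (tau x y + tau x y') + 3 * N (cr (nv F y) (nv F y')) := by
  obtain ⟨l, hl, hly⟩ := tau_phase hx hy
  obtain ⟨l', hl', hly'⟩ := tau_phase hx hy'
  have w1 := wv_unit hy h
  have v1 := wv_unit hy' h'
  rw [TH_key hx, nv_eq, nv_eq]
  obtain ⟨w, hw⟩ : ∃ w, w = wv F y := ⟨_, rfl⟩
  obtain ⟨v, hv⟩ : ∃ v, v = wv F y' := ⟨_, rfl⟩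
  rw [← hw, ← hv]
  rw [← hw] at w1
  rw [← hv] at v1
  have e : cr (cr x w) (cr x v) = cr (cr (x - l • y) w) (cr x v) +
      cr (l • cr y w) (cr (x - l' • y') v) + cr (l • cr y w) (l' • cr y' v) := by
    have a1 : cr (x - l • y) w = cr x w - l • cr y w := by rw [cr_sub_left, cr_smul_left]
    have a2 : cr (x - l' • y') v = cr x v - l' • cr y' v := by rw [cr_sub_left, cr_smul_left]
    rw [a1, a2, cr_sub_left, cr_sub_right]
    abel
  have n1 : N (cr (cr (x - l • y) w) (cr x v)) ≤ 2 * tau x y := by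
    have b1 := TH_cr_le (x - l • y) w
    have b2 := TH_cr_le x v
    have b3 := TH_cr_le (cr (x - l • y) w) (cr x v)
    rw [w1, mul_one] at b1
    rw [hx, v1, mul_one] at b2
    have b4 := TauM_N_nonneg (cr (x - l • y) w)
    have b5 := TauM_N_nonneg (cr x v)
    nlinarith
  have n2 : N (cr (l • cr y w) (cr (x - l' • y') v)) ≤ 2 * tau x y' := by
    have b1 := TH_cr_le (x - l' • y') v
    have b2 := TH_cr_le y w
    have b3 := TH_cr_le (l • cr y w) (cr (x - l' • y') v)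
    rw [TauM_N_smul, hl, one_mul] at b3
    rw [v1, mul_one] at b1
    rw [hy, w1, mul_one] at b2
    have b4 := TauM_N_nonneg (cr (x - l' • y') v)
    have b5 := TauM_N_nonneg (cr y w)
    nlinarith
  have n3 : N (cr (l • cr y w) (l' • cr y' v)) = N (cr (cr y w) (cr y' v)) := by
    rw [cr_smul_left, cr_smul_right, TauM_N_smul, TauM_N_smul, hl, hl', one_mul, one_mul]
  rw [e]
  have m := TH_N3 (cr (cr (x - l • y) w) (cr x v)) (cr (l • cr y w) (cr (x - l' • y') v))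
    (cr (l • cr y w) (l' • cr y' v))
  rw [n3] at m
  linarith

theorem dir2 {F : Fin 3 → MvPolynomial (Fin 3) ℂ} {x y y' : V} (hx : x ≠ 0) (hy : N y = 1) (hy' : N y' = 1)
    (h : eta F y ≠ 0) (h' : eta F y' ≠ 0) :
    wed (perp x (wv F y)) (perp x (wv F y')) ≤ 6 * (tau x y + tau x y') + 3 * N (cr (nv F y) (nv F y')) := by
  have hN := TauM_N_pos hx
  have hl : (((Real.sqrt (N x))⁻¹ : ℝ) : ℂ) ≠ 0 := by
    have : 0 < Real.sqrt (N x) := Real.sqrt_pos.2 hN
    exact_mod_cast (inv_pos.2 this).ne'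
  have hu : N ((((Real.sqrt (N x))⁻¹ : ℝ) : ℂ) • x) = 1 := by
    rw [TauM_N_smul, Complex.normSq_ofReal, ← mul_inv, Real.mul_self_sqrt hN.le]
    exact inv_mul_cancel₀ hN.ne'
  have key := TH_unit (F := F) hu hy hy' h h'
  rwa [TH_perp_smul hl hx, TH_perp_smul hl hx, tau_smul_left hl, tau_smul_left hl] at key

private theorem TH_exp (a : ℝ) (ha : 0 ≤ a) : Real.exp (-a) ≤ Real.exp (-(a / 4)) * Real.exp (-(a / 4)) := by
  rw [← Real.exp_add]
  apply Real.exp_le_exp.2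
  linarith

private theorem TH_ptB {F : Fin 3 → MvPolynomial (Fin 3) ℂ} {ε : ℝ} (hε : 0 < ε) (h1 : ε ≤ 1) {x y y' : V}
    (hx : x ≠ 0) (hy : N y = 1) (hy' : N y' = 1) (he : eta F y ≠ 0) (he' : eta F y' ≠ 0) :
    LosA_k F ε x y y' ≤ (64 * ε⁻¹ ^ 8 * (N (cr (nv F y) (nv F y')) + ε ^ 2) * (Real.exp (-(tau y y') / (8 * ε ^ 2)) *
      Real.exp (-(tau y x) / (4 * ε ^ 2)))) / (N x) ^ 2 := by
  unfold LosA_k
  have hdir := dir2 hx hy hy' he he'
  have hN := LosA_N_pos hx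
  have k1 := kk_nonneg (ε := ε) (tau_le_one x y)
  have k2 := kk_nonneg (ε := ε) (tau_le_one x y')
  have t1 := tau_nonneg x y
  have t2 := tau_nonneg x y'
  have t3 := tau_nonneg y y'
  have k3 := kk_le hε h1 t1
  have k4 := kk_le hε h1 t2
  have h3 := wed_nonneg (perp x (wv F y)) (perp x (wv F y'))
  have h4 := LosA_N_nonneg (perp x (wv F y))
  have h5 := LosA_N_nonneg (perp x (wv F y'))
  have h6 := LosA_perp_le (F := F) hx hy he
  have h7 := LosA_perp_le (F := F) hx hy' he'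
  have e2 : ε ^ 2 ≤ 1 := pow_le_one₀ hε.le h1
  have e4 : ε ^ 4 ≤ ε ^ 2 := pow_le_pow_of_le_one hε.le h1 (by norm_num)
  have htri : tau y y' ≤ 2 * tau x y + 2 * tau x y' := by
    have := tau_two (LosA_ne hy) hx (LosA_ne hy')
    rw [tau_symm y x] at this
    exact this
  obtain ⟨D, hD⟩ : ∃ D : ℝ, D = N (cr (nv F y) (nv F y')) := ⟨_, rfl⟩
  have hD0 : 0 ≤ D := by rw [hD]; exact LosA_N_nonneg _
  rw [← hD] at hdir ⊢
  have hB : wed (perp x (wv F y)) (perp x (wv F y')) +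
          ε ^ 2 * (N (perp x (wv F y)) + N (perp x (wv F y'))) + 2 * ε ^ 4 ≤
      6 * (tau x y + tau x y') + 3 * D + 4 * ε ^ 2 := by
    have b2 : ε ^ 2 * (N (perp x (wv F y)) + N (perp x (wv F y'))) ≤ ε ^ 2 * 2 := by gcongr; linarith
    linarith
  obtain ⟨a, ha⟩ : ∃ a : ℝ, a = (tau x y + tau x y') / ε ^ 2 := ⟨_, rfl⟩
  have ha0 : 0 ≤ a := by rw [ha]; positivity
  have hkk : kk ε (tau x y) * kk ε (tau x y') ≤ 4 * ε⁻¹ ^ 8 * Real.exp (-a) := by
    calc _ ≤ (2 * ε⁻¹ ^ 4 * Real.exp (-tau x y / ε ^ 2)) * (2 * ε⁻¹ ^ 4 * Real.exp (-tau x y' / ε ^ 2)) :=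
          mul_le_mul k3 k4 k2 (by positivity)
      _ = 4 * ε⁻¹ ^ 8 * (Real.exp (-tau x y / ε ^ 2) * Real.exp (-tau x y' / ε ^ 2)) := by ring
      _ = _ := by
          rw [← Real.exp_add, ha]
          congr 2
          ring
  have hE1 : Real.exp (-(a / 4)) ≤ Real.exp (-(tau y y') / (8 * ε ^ 2)) := by
    apply Real.exp_le_exp.2
    rw [ha, neg_div, neg_le_neg_iff, div_div, div_le_div_iff₀ (by positivity) (by positivity)]
    have : 0 < ε ^ 2 := by positivity
    nlinarith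
  have hE2 : Real.exp (-(a / 4)) ≤ Real.exp (-(tau y x) / (4 * ε ^ 2)) := by
    apply Real.exp_le_exp.2
    rw [ha, neg_div, neg_le_neg_iff, div_div, div_le_div_iff₀ (by positivity) (by positivity), tau_symm y x]
    have : 0 < ε ^ 2 := by positivity
    nlinarith
  have hae : tau x y + tau x y' = ε ^ 2 * a := by
    rw [ha]
    field_simp
  have hEE : Real.exp (-(a / 4)) * Real.exp (-(a / 4)) ≤
      Real.exp (-(tau y y') / (8 * ε ^ 2)) * Real.exp (-(tau y x) / (4 * ε ^ 2)) := by gcongr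
  have hsum : (6 * (ε ^ 2 * a) + 3 * D + 4 * ε ^ 2) * Real.exp (-a) ≤
      16 * (D + ε ^ 2) * (Real.exp (-(a / 4)) * Real.exp (-(a / 4))) := by
    have q1 := LosA_exp a ha0
    have q2 := TH_exp a ha0
    have q3 : 0 < Real.exp (-a) := Real.exp_pos _
    have q4 : (0 : ℝ) ≤ 6 * ε ^ 2 := by positivity
    have q5 := mul_le_mul_of_nonneg_left q1 q4
    have q6 := mul_le_mul_of_nonneg_left q2 (by positivity : (0 : ℝ) ≤ 3 * D)
    have q7 : 0 ≤ ε ^ 2 * Real.exp (-a) := by positivity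
    have q8 : 0 ≤ ε ^ 2 * (Real.exp (-(a / 4)) * Real.exp (-(a / 4))) := by positivity
    have q9 : 0 ≤ D * (Real.exp (-(a / 4)) * Real.exp (-(a / 4))) := by positivity
    nlinarith
  have hprod : (kk ε (tau x y) * kk ε (tau x y')) * (6 * (tau x y + tau x y') + 3 * D + 4 * ε ^ 2) ≤
      64 * ε⁻¹ ^ 8 * (D + ε ^ 2) * (Real.exp (-(tau y y') / (8 * ε ^ 2)) * Real.exp (-(tau y x) / (4 * ε ^ 2))) := by
    rw [hae]
    calc _ ≤ (4 * ε⁻¹ ^ 8 * Real.exp (-a)) * (6 * (ε ^ 2 * a) + 3 * D + 4 * ε ^ 2) := by gcongr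
      _ = 4 * ε⁻¹ ^ 8 * ((6 * (ε ^ 2 * a) + 3 * D + 4 * ε ^ 2) * Real.exp (-a)) := by ring
      _ ≤ 4 * ε⁻¹ ^ 8 * (16 * (D + ε ^ 2) * (Real.exp (-(a / 4)) * Real.exp (-(a / 4)))) := by gcongr
      _ ≤ 4 * ε⁻¹ ^ 8 * (16 * (D + ε ^ 2) * (Real.exp (-(tau y y') / (8 * ε ^ 2)) *
            Real.exp (-(tau y x) / (4 * ε ^ 2)))) := by gcongr
      _ = _ := by ring
  calc _ = (kk ε (tau x y) * kk ε (tau x y')) * (wed (perp x (wv F y)) (perp x (wv F y')) +
          ε ^ 2 * (N (perp x (wv F y)) + N (perp x (wv F y'))) + 2 * ε ^ 4) / (N x) ^ 2 := by ring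
    _ ≤ (kk ε (tau x y) * kk ε (tau x y')) * (6 * (tau x y + tau x y') + 3 * D + 4 * ε ^ 2) / (N x) ^ 2 := by gcongr
    _ ≤ _ := by gcongr

private theorem TH_cr_cont : Continuous (fun q : V × V => cr q.1 q.2) := by
  unfold cr
  refine continuous_pi fun j => ?_
  fin_cases j <;> simp <;> fun_prop

private theorem TH_ncr_meas : Measurable (fun q : V × V => N (cr q.1 q.2)) := by
  have hc : Continuous (fun q : V × V => N (cr q.1 q.2)) := LosA_cont_N.comp TH_cr_cont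
  exact hc.measurable

private theorem TH_pair_meas (n : V → V) (hn : Measurable n) : Measurable (fun q : V × V => (n q.1, n q.2)) := by
  have a := hn.comp (measurable_fst : Measurable (Prod.fst : V × V → V))
  have b := hn.comp (measurable_snd : Measurable (Prod.snd : V × V → V))
  exact a.prodMk b

private theorem TH_nn_meas (n : V → V) (hn : Measurable n) : Measurable (fun q : V × V => N (cr (n q.1) (n q.2))) := by
  have h := TH_ncr_meas.comp (TH_pair_meas n hn)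
  simpa only [Function.comp_def] using h

private theorem TH_gen_meas (g h : V × V → ℝ) (hg : Measurable g) (hh : Measurable h) (a b : ℝ) :
    Measurable (fun q : V × V => ENNReal.ofReal (a * (g q + b) * h q)) := by
  have h1 : Measurable (fun q : V × V => a * (g q + b)) := (hg.add_const b).const_mul a
  exact (h1.mul hh).ennreal_ofReal

private theorem TH_meas (F : Fin 3 → MvPolynomial (Fin 3) ℂ) (ε : ℝ) :
    Measurable (fun q : V × V => ENNReal.ofReal (ε⁻¹ ^ 4 * (N (cr (nv F q.1) (nv F q.2)) + ε ^ 2) *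
            Real.exp (-(tau q.1 q.2) / (8 * ε ^ 2)))) :=
  TH_gen_meas (fun q => N (cr (nv F q.1) (nv F q.2))) (fun q => Real.exp (-(tau q.1 q.2) / (8 * ε ^ 2)))
    (TH_nn_meas (nv F) (measurable_nv F)) (LosA_exp_meas (8 * ε ^ 2)) (ε⁻¹ ^ 4) (ε ^ 2)

theorem loss2 {F : Fin 3 → MvPolynomial (Fin 3) ℂ} {d : ℕ} (hF : ∀ j, (F j).IsHomogeneous d) {P : Finset V}
    (hP : SingPts F P) :
    ∃ C : ℝ, 0 < C ∧ ∀ (μ μ' : Measure V), IsCur F μ → IsCur F μ' →
      ∀ (ε r0 : ℝ), 0 < ε → ε ≤ 1 → 0 < r0 → r0 ≤ 1 →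
        ENNReal.ofReal (Loss F μ μ' P r0 ε) ≤ ENNReal.ofReal C *
          ((∫⁻ y in Kr P (r0 / 4), ∫⁻ y', ENNReal.ofReal (ε⁻¹ ^ 4 * (N (cr (nv F y) (nv F y')) + ε ^ 2) *
            Real.exp (-(tau y y') / (8 * ε ^ 2))) ∂μ' ∂μ) + ENNReal.ofReal (ε⁻¹ ^ 8 * Real.exp (-r0 / (4 * ε ^ 2)))) := by
  refine ⟨1024 * Real.pi ^ 3, by positivity, ?_⟩
  intro μ μ' hμ hμ' ε r0 hε h1 hr0 hr1
  have : IsProbabilityMeasure μ := ⟨hμ.prob⟩
  have : IsProbabilityMeasure μ' := ⟨hμ'.prob⟩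
  obtain ⟨U, hU⟩ : ∃ U : ℝ, U = 64 * ε⁻¹ ^ 4 := ⟨_, rfl⟩
  have hU0 : 0 ≤ U := by rw [hU]; positivity
  obtain ⟨W, hW⟩ : ∃ W : ℝ, W = 20 * ε⁻¹ ^ 8 * Real.exp (-r0 / (4 * ε ^ 2)) := ⟨_, rfl⟩
  have hW0 : 0 ≤ W := by rw [hW]; positivity
  have hb8 : 0 < 8 * ε ^ 2 := by positivity
  have hb4 : 0 < 4 * ε ^ 2 := by positivity
  have hKm : MeasurableSet (Kr P (r0 / 4)) := Kr_meas P _
  obtain ⟨E1, hE1⟩ : ∃ E1 : V → ENNReal, E1 = fun y => ∫⁻ y', ENNReal.ofReal (ε⁻¹ ^ 4 *
      (N (cr (nv F y) (nv F y')) + ε ^ 2) * Real.exp (-(tau y y') / (8 * ε ^ 2))) ∂μ' :=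
    ⟨_, rfl⟩
  have hE1m : Measurable E1 := by
    rw [hE1]
    exact (TH_meas F ε).lintegral_prod_right'
  obtain ⟨G, hG⟩ : ∃ G : V → ENNReal, G = (Kr P (r0 / 4)).indicator (fun y => ENNReal.ofReal U * E1 y) := ⟨_, rfl⟩
  have hGm : Measurable G := by
    rw [hG]
    exact (hE1m.const_mul _).indicator hKm
  have hgm : Measurable (fun q : V × V => G q.2 * ENNReal.ofReal (Real.exp (-(tau q.2 q.1) / (4 * ε ^ 2)))) :=
    (hGm.comp measurable_snd).mul ((LosA_exp_meas (4 * ε ^ 2)).comp (measurable_snd.prodMk measurable_fst)).ennreal_ofReal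
  have haeμ : ∀ᵐ y ∂μ, N y = 1 ∧ eta F y ≠ 0 := by
    filter_upwards [hμ.sphere, hμ.sing] with y h2 h3 using ⟨h2, h3⟩
  have haeμ' : ∀ᵐ y ∂μ', N y = 1 ∧ eta F y ≠ 0 := by
    filter_upwards [hμ'.sphere, hμ'.sing] with y h2 h3 using ⟨h2, h3⟩
  -- the pointwise bound
  have hpt : ∀ x ∈ {x : V | x ≠ 0 ∧ ∀ p ∈ P, r0 ≤ tau x p},
      ‖(ee (sm F μ ε x) (sm F μ' ε x)).re * wt x‖ₑ ≤
      ENNReal.ofReal (wt x / (N x) ^ 2) *
        (∫⁻ y, G y * ENNReal.ofReal (Real.exp (-(tau y x) / (4 * ε ^ 2))) ∂μ + ENNReal.ofReal W) := by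
    rintro x ⟨hx, hxP⟩
    have hN := LosA_N_pos hx
    have hNi : 0 ≤ ((N x) ^ 2)⁻¹ := by positivity
    have hwt : 0 ≤ wt x := (Real.exp_pos _).le
    rw [ee_smsm hμ hμ' hε h1 hx, Complex.ofReal_re, enorm_mul, Real.enorm_eq_ofReal hwt]
    have h2 := LosA_enorm μ μ' (fun y y' => LosA_k F ε x y y') (fun y y' => LosA_k_nonneg F ε x y y')
    have h3 : ∫⁻ y, ∫⁻ y', ENNReal.ofReal (LosA_k F ε x y y') ∂μ' ∂μ ≤
        ENNReal.ofReal ((N x) ^ 2)⁻¹ *
        (∫⁻ y, G y * ENNReal.ofReal (Real.exp (-(tau y x) / (4 * ε ^ 2))) ∂μ + ENNReal.ofReal W) := by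
      calc _ ≤ ∫⁻ y, ENNReal.ofReal ((N x) ^ 2)⁻¹ *
            (G y * ENNReal.ofReal (Real.exp (-(tau y x) / (4 * ε ^ 2))) + ENNReal.ofReal W) ∂μ := by
            apply lintegral_mono_ae
            filter_upwards [haeμ] with y hy
            by_cases hyK : y ∈ Kr P (r0 / 4)
            · calc _ ≤ ∫⁻ y', ENNReal.ofReal (((N x) ^ 2)⁻¹ * U * Real.exp (-(tau y x) / (4 * ε ^ 2))) *
                    ENNReal.ofReal (ε⁻¹ ^ 4 *
      (N (cr (nv F y) (nv F y')) + ε ^ 2) * Real.exp (-(tau y y') / (8 * ε ^ 2))) ∂μ' := by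
                    apply lintegral_mono_ae
                    filter_upwards [haeμ'] with y' hy'
                    rw [← ENNReal.ofReal_mul (by positivity)]
                    apply ENNReal.ofReal_le_ofReal
                    refine (TH_ptB hε h1 hx hy.1 hy'.1 hy.2 hy'.2).trans
                      (le_of_eq ?_)
                    rw [hU]
                    field_simp
                _ = ENNReal.ofReal ((N x) ^ 2)⁻¹ * (G y * ENNReal.ofReal (Real.exp (-(tau y x) / (4 * ε ^ 2)))) := by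
                    rw [lintegral_const_mul' _ _ ENNReal.ofReal_ne_top, hG, Set.indicator_of_mem hyK, hE1,
                      ENNReal.ofReal_mul (by positivity), ENNReal.ofReal_mul hNi]
                    ring
                _ ≤ _ := by
                    gcongr
                    exact le_self_add
            · have ht : r0 / 4 ≤ tau x y := LosA_far hr0 hx hy.1 hP.unit hxP hyK
              calc _ ≤ ∫⁻ y', ENNReal.ofReal (((N x) ^ 2)⁻¹ * W) ∂μ' := by
                    apply lintegral_mono_ae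
                    filter_upwards [haeμ'] with y' hy'
                    apply ENNReal.ofReal_le_ofReal
                    refine (LosA_ptA hε h1 hx hy.1 hy'.1 hy.2 hy'.2 ht).trans (le_of_eq ?_)
                    rw [hW]
                    field_simp
                _ = ENNReal.ofReal ((N x) ^ 2)⁻¹ * ENNReal.ofReal W := by
                    rw [lintegral_const, measure_univ, mul_one, ENNReal.ofReal_mul hNi]
                _ ≤ _ := by
                    gcongr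
                    exact le_add_self
        _ = _ := by
            rw [lintegral_const_mul' _ _ ENNReal.ofReal_ne_top, lintegral_add_right _ measurable_const,
              lintegral_const, measure_univ, mul_one]
    calc _ ≤ (ENNReal.ofReal ((N x) ^ 2)⁻¹ *
        (∫⁻ y, G y * ENNReal.ofReal (Real.exp (-(tau y x) / (4 * ε ^ 2))) ∂μ + ENNReal.ofReal W)) *
          ENNReal.ofReal (wt x) := by
          gcongr
          exact h2.trans h3
      _ = _ := by
          rw [div_eq_mul_inv, ENNReal.ofReal_mul hwt]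
          ring
  -- the integral over x
  have hmeasx : Measurable (fun x : V => ∫⁻ y, G y * ENNReal.ofReal (Real.exp (-(tau y x) / (4 * ε ^ 2))) ∂μ +
      ENNReal.ofReal W) := (hgm.lintegral_prod_right').add_const _
  have hdens : Measurable (fun x : V => ENNReal.ofReal (wt x / (N x) ^ 2)) := by
    apply Measurable.ennreal_ofReal
    unfold wt
    exact (Real.measurable_exp.comp LosA_cont_N.measurable.neg).div (LosA_cont_N.measurable.pow_const 2)
  have hRm : MeasurableSet {x : V | x ≠ 0 ∧ ∀ p ∈ P, r0 ≤ tau x p} := by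
    have e1 : {x : V | x ≠ 0 ∧ ∀ p ∈ P, r0 ≤ tau x p} = {0}ᶜ ∩ ⋂ p ∈ P, {x : V | r0 ≤ tau x p} := by
      ext x
      simp
    rw [e1]
    refine (measurableSet_singleton (0 : V)).compl.inter (Finset.measurableSet_biInter P (fun p _ => ?_))
    have hf : Measurable (fun _ : V => r0) := measurable_const
    exact measurableSet_le hf (LosA_tau_meas p)
  have hpi : 0 < Real.pi ^ 3 := by positivity
  have hab : ENNReal.ofReal (Loss F μ μ' P r0 ε) ≤ ‖Loss F μ μ' P r0 ε‖ₑ := by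
    rw [← ofReal_norm]
    exact ENNReal.ofReal_le_ofReal (le_abs_self _)
  refine hab.trans ?_
  calc ‖Loss F μ μ' P r0 ε‖ₑ ≤ ∫⁻ x in {x : V | x ≠ 0 ∧ ∀ p ∈ P, r0 ≤ tau x p},
          ‖(ee (sm F μ ε x) (sm F μ' ε x)).re * wt x‖ₑ := enorm_integral_le_lintegral_enorm _
      _ ≤ ∫⁻ x in {x : V | x ≠ 0 ∧ ∀ p ∈ P, r0 ≤ tau x p}, ENNReal.ofReal (wt x / (N x) ^ 2) *
        (∫⁻ y, G y * ENNReal.ofReal (Real.exp (-(tau y x) / (4 * ε ^ 2))) ∂μ + ENNReal.ofReal W) :=
          setLIntegral_mono' hRm hpt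
      _ ≤ ∫⁻ x, ENNReal.ofReal (wt x / (N x) ^ 2) *
        (∫⁻ y, G y * ENNReal.ofReal (Real.exp (-(tau y x) / (4 * ε ^ 2))) ∂μ + ENNReal.ofReal W) :=
          setLIntegral_le_lintegral _ _
      _ = ∫⁻ x, (∫⁻ y, G y * ENNReal.ofReal (Real.exp (-(tau y x) / (4 * ε ^ 2))) ∂μ + ENNReal.ofReal W) ∂nuP := by
          unfold nuP
          rw [lintegral_withDensity_eq_lintegral_mul _ hdens hmeasx]
          rfl
      _ = ∫⁻ x, ∫⁻ y, G y * ENNReal.ofReal (Real.exp (-(tau y x) / (4 * ε ^ 2))) ∂μ ∂nuP +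
          ENNReal.ofReal W * nuP Set.univ := by
          rw [lintegral_add_right _ measurable_const, lintegral_const]
      _ = ∫⁻ y, ∫⁻ x, G y * ENNReal.ofReal (Real.exp (-(tau y x) / (4 * ε ^ 2))) ∂nuP ∂μ +
          ENNReal.ofReal W * nuP Set.univ := by
          congr 1
          exact lintegral_lintegral_swap hgm.aemeasurable
      _ ≤ ∫⁻ y, G y * ENNReal.ofReal (Real.pi ^ 3 * (4 * ε ^ 2) ^ 2) ∂μ +
          ENNReal.ofReal W * nuP Set.univ := by
          gcongr ?_ + _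
          apply lintegral_mono_ae
          filter_upwards [haeμ] with y hy
          rw [lintegral_const_mul]
          · gcongr
            exact nu_exp (LosA_ne hy.1) hb4
          · exact ((LosA_exp_meas (4 * ε ^ 2)).comp (measurable_const.prodMk measurable_id)).ennreal_ofReal
      _ = ENNReal.ofReal U * (∫⁻ y in Kr P (r0 / 4), E1 y ∂μ) * ENNReal.ofReal (Real.pi ^ 3 * (4 * ε ^ 2) ^ 2) +
          ENNReal.ofReal W * ENNReal.ofReal (Real.pi ^ 3 / 2) := by
          rw [lintegral_mul_const _ hGm, hG, lintegral_indicator hKm, lintegral_const_mul' _ _ ENNReal.ofReal_ne_top,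
            nuP_univ]
      _ = ENNReal.ofReal (1024 * Real.pi ^ 3) * (∫⁻ y in Kr P (r0 / 4), E1 y ∂μ) +
          ENNReal.ofReal (10 * Real.pi ^ 3) * ENNReal.ofReal (ε⁻¹ ^ 8 * Real.exp (-r0 / (4 * ε ^ 2))) := by
          congr 1
          · rw [mul_right_comm, ← ENNReal.ofReal_mul hU0]
            congr 2
            rw [hU]
            field_simp
            ring
          · rw [← ENNReal.ofReal_mul hW0, ← ENNReal.ofReal_mul (by positivity)]
            congr 1
            rw [hW]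
            ring
      _ ≤ ENNReal.ofReal (1024 * Real.pi ^ 3) * (∫⁻ y in Kr P (r0 / 4), E1 y ∂μ) +
          ENNReal.ofReal (1024 * Real.pi ^ 3) * ENNReal.ofReal (ε⁻¹ ^ 8 * Real.exp (-r0 / (4 * ε ^ 2))) := by
          gcongr
          norm_num
      _ = _ := by
          rw [mul_add, hE1]

end FT76

end S_H76_FT_TH

section S_H76_FT_TC

/-!
# Row TC: the Lelong identity for systems of homogeneous polynomials

G i (i in a finite type) homogeneous polynomials of degree k on V without common zero off 0, S(x) = ∑ |G_i(x)|^2 > 0 for x ≠ 0.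
`u x = (log S(x) - k log N(x) : ℂ)` is a real `IsFun`: smooth off 0, `S (l x) = |l|^(2k) S x`, `N (l x) = |l|^2 N x`, and at x = 0: u(l • 0) = u 0 trivially.
`L u x j k' = h_jk' - k * Wm x j k'` for x ≠ 0 with (Wirtinger calculus: `dzb k' (log S) = (∑_i G_i conj(∂_k' G_i))/S`, then `dz j` of it)
 `h_jk' = (∑_i ∂_j G_i conj(∂_k' G_i))/S - (∑_i ∂_j G_i conj(G_i)) (∑_i G_i conj(∂_k' G_i))/S^2`,
and `L (log N) = Wm` is the case G = (X 0, X 1, X 2), k = 1.  (∂_j G_i = eval (pderiv j (G_i)); `dz j` of `eval x f` is `eval x (pderiv j f)`, `dzb j` of it is `0`, `dz j` of `conj (eval x f)` is `0`.)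
`quad h w = (∑_i |dP G_i x w|^2)/S - |∑_i dP G_i x w conj(G_i)|^2/S^2 = (∑_i ∑_j |G_i dP G_j w - G_j dP G_i w|^2)/(2 S^2)` (Lagrange identity).
`DdcClosed`: `0 = ∫ pr F (L u) dμ`; `pr F (L u) y = quad (L u y) (wv F y)` (`pr_eq`, `form_L`) `= quad h (wv) - k quad (Wm y) (wv) = quad h (wv) - k` for unit y with eta ≠ 0 (`quad_Wm`, `wv_unit`, `wv_orth`,
or `pr_Wm`).  `pr F (L u)` is integrable (`pr_int`), so `∫ quad h (wv F y) dμ = k` (μ is a probability measure), the integrand is real and >= 0: `ofReal_integral_eq_lintegral_ofReal`.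
-/

open MeasureTheory Filter Topology
open scoped ContDiff BigOperators ComplexConjugate Matrix

namespace FT76

open Pool.Agent.H85.DC

/-- the density of the Levi form of `log ∑ |G_i|^2` along the foliation -/
noncomputable def lvd {ι : Type} [Fintype ι] (G : ι → MvPolynomial (Fin 3) ℂ) (y w : V) : ℝ :=
  (∑ i, ∑ j, Complex.normSq (MvPolynomial.eval y (G i) * dP (G j) y w - MvPolynomial.eval y (G j) * dP (G i) y w)) /
    (2 * (∑ i, Complex.normSq (MvPolynomial.eval y (G i))) ^ 2)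

/-! ### Wirtinger derivatives of polynomials -/

theorem TC_smooth (f : MvPolynomial (Fin 3) ℂ) :
    ContDiff ℝ ∞ (fun x : V => MvPolynomial.eval x f) := by
  induction f using MvPolynomial.induction_on with
  | C a =>
    simp only [MvPolynomial.eval_C]
    exact contDiff_const
  | add p q hp hq =>
    simp only [map_add]
    exact hp.add hq
  | mul_X p i hp =>
    simp only [map_mul, MvPolynomial.eval_X]
    exact hp.mul (contDiff_apply ℝ ℂ i)

theorem TC_diff (f : MvPolynomial (Fin 3) ℂ) (x : V) :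
    DifferentiableAt ℝ (fun x : V => MvPolynomial.eval x f) x :=
  (TC_smooth f).contDiffAt.differentiableAt (by simp)

theorem TC_diff_conj (f : MvPolynomial (Fin 3) ℂ) (x : V) :
    DifferentiableAt ℝ (fun x : V => conj (MvPolynomial.eval x f)) x :=
  (HomB_conj (TC_diff f x).hasFDerivAt).differentiableAt

theorem TC_dz (j : Fin 3) (f : MvPolynomial (Fin 3) ℂ) (x : V) :
    dz j (fun x : V => MvPolynomial.eval x f) x = MvPolynomial.eval x (MvPolynomial.pderiv j f) := by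
  induction f using MvPolynomial.induction_on with
  | C a =>
    simp only [MvPolynomial.eval_C, MvPolynomial.pderiv_C, map_zero]
    exact dz_const j a x
  | add p q hp hq =>
    simp only [map_add]
    rw [dz_add j (TC_diff p x) (TC_diff q x), hp, hq]
  | mul_X p i hp =>
    simp only [map_mul, MvPolynomial.eval_X]
    rw [dz_mul j (TC_diff p x) (HomB_coord i x).differentiableAt, hp, dz_coord,
      MvPolynomial.pderiv_mul, map_add, map_mul, map_mul, MvPolynomial.eval_X,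
      MvPolynomial.pderiv_X]
    congr 2
    by_cases h : j = i
    · subst h
      simp
    · rw [if_neg h, Pi.single_eq_of_ne (Ne.symm h), map_zero]

theorem TC_dzb (j : Fin 3) (f : MvPolynomial (Fin 3) ℂ) (x : V) :
    dzb j (fun x : V => MvPolynomial.eval x f) x = 0 := by
  induction f using MvPolynomial.induction_on with
  | C a =>
    simp only [MvPolynomial.eval_C]
    exact dzb_const j a x
  | add p q hp hq =>
    simp only [map_add]
    rw [dzb_add j (TC_diff p x) (TC_diff q x), hp, hq, add_zero]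
  | mul_X p i hp =>
    simp only [map_mul, MvPolynomial.eval_X]
    rw [dzb_mul j (TC_diff p x) (HomB_coord i x).differentiableAt, hp, dzb_coord, zero_mul, mul_zero,
      add_zero]

theorem TC_dz_conj (j : Fin 3) (f : MvPolynomial (Fin 3) ℂ) (x : V) :
    dz j (fun x : V => conj (MvPolynomial.eval x f)) x = 0 := by
  rw [← conj_dzb, TC_dzb, map_zero]

theorem TC_dzb_conj (j : Fin 3) (f : MvPolynomial (Fin 3) ℂ) (x : V) :
    dzb j (fun x : V => conj (MvPolynomial.eval x f)) x =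
      conj (MvPolynomial.eval x (MvPolynomial.pderiv j f)) := by
  rw [← conj_dz, TC_dz]

/-! ### the sum of squares -/

section

variable {ι : Type} [Fintype ι] (G : ι → MvPolynomial (Fin 3) ℂ)

/-- the sum of squares -/
noncomputable def TC_S (x : V) : ℝ := ∑ i, Complex.normSq (MvPolynomial.eval x (G i))

theorem TC_S_eq (x : V) : ((TC_S G x : ℝ) : ℂ) =
    ∑ i ∈ (Finset.univ : Finset ι), MvPolynomial.eval x (G i) * conj (MvPolynomial.eval x (G i)) := by
  unfold TC_S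
  push_cast
  exact Finset.sum_congr rfl fun i _ => (Complex.mul_conj _).symm

theorem TC_S_smooth : ContDiff ℝ ∞ (TC_S G) := by
  have h : TC_S G = fun x : V => ∑ i, ((MvPolynomial.eval x (G i)).re * (MvPolynomial.eval x (G i)).re +
      (MvPolynomial.eval x (G i)).im * (MvPolynomial.eval x (G i)).im) := by
    funext x
    unfold TC_S
    exact Finset.sum_congr rfl fun j _ => Complex.normSq_apply _
  rw [h]
  refine ContDiff.sum fun j _ => ?_
  have h1 : ContDiff ℝ ∞ (fun x : V => (MvPolynomial.eval x (G j)).re) :=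
    Complex.reCLM.contDiff.comp (TC_smooth (G j))
  have h2 : ContDiff ℝ ∞ (fun x : V => (MvPolynomial.eval x (G j)).im) :=
    Complex.imCLM.contDiff.comp (TC_smooth (G j))
  exact (h1.mul h1).add (h2.mul h2)

theorem TC_S_pos (hne : ∀ x : V, x ≠ 0 → ∃ i, MvPolynomial.eval x (G i) ≠ 0) {x : V} (hx : x ≠ 0) :
    0 < TC_S G x := by
  obtain ⟨i, hi⟩ := hne x hx
  exact Finset.sum_pos' (fun j _ => Complex.normSq_nonneg _)
    ⟨i, Finset.mem_univ i, Complex.normSq_pos.2 hi⟩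

theorem TC_mul_diff (f g : MvPolynomial (Fin 3) ℂ) (x : V) :
    DifferentiableAt ℝ (fun x : V => MvPolynomial.eval x f * conj (MvPolynomial.eval x g)) x :=
  (TC_diff f x).fun_mul (TC_diff_conj g x)

/-- `∑ f_i conj(g_i)` -/
noncomputable def TC_H (f g : ι → MvPolynomial (Fin 3) ℂ) (x : V) : ℂ :=
  ∑ i ∈ (Finset.univ : Finset ι), MvPolynomial.eval x (f i) * conj (MvPolynomial.eval x (g i))

theorem TC_H_diff (f g : ι → MvPolynomial (Fin 3) ℂ) (x : V) :
    DifferentiableAt ℝ (TC_H f g) x := by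
  unfold TC_H
  exact DifferentiableAt.fun_sum fun i _ => TC_mul_diff (f i) (g i) x

theorem TC_H_dz (j : Fin 3) (f g : ι → MvPolynomial (Fin 3) ℂ) (x : V) :
    dz j (TC_H f g) x = TC_H (fun i => MvPolynomial.pderiv j (f i)) g x := by
  unfold TC_H
  rw [dz_sum j _ (fun i (x : V) => MvPolynomial.eval x (f i) * conj (MvPolynomial.eval x (g i)))
    (fun i _ => TC_mul_diff (f i) (g i) x)]
  refine Finset.sum_congr rfl fun i _ => ?_
  rw [dz_mul j (TC_diff (f i) x) (TC_diff_conj (g i) x), TC_dz, TC_dz_conj, mul_zero, add_zero]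

theorem TC_H_dzb (j : Fin 3) (f g : ι → MvPolynomial (Fin 3) ℂ) (x : V) :
    dzb j (TC_H f g) x = TC_H f (fun i => MvPolynomial.pderiv j (g i)) x := by
  unfold TC_H
  rw [dzb_sum j _ (fun i (x : V) => MvPolynomial.eval x (f i) * conj (MvPolynomial.eval x (g i)))
    (fun i _ => TC_mul_diff (f i) (g i) x)]
  refine Finset.sum_congr rfl fun i _ => ?_
  rw [dzb_mul j (TC_diff (f i) x) (TC_diff_conj (g i) x), TC_dzb, TC_dzb_conj, zero_mul, zero_add]

/-- the logarithm of the sum of squares -/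
noncomputable def TC_lg (x : V) : ℂ := ((Real.log (TC_S G x) : ℝ) : ℂ)

theorem TC_lg_smooth (hne : ∀ x : V, x ≠ 0 → ∃ i, MvPolynomial.eval x (G i) ≠ 0) :
    ContDiffOn ℝ ∞ (TC_lg G) {0}ᶜ := by
  have h1 : ContDiffOn ℝ ∞ (fun y => Real.log (TC_S G y)) {0}ᶜ :=
    (TC_S_smooth G).contDiffOn.log fun y hy => (TC_S_pos G hne hy).ne'
  exact Complex.ofRealCLM.contDiff.comp_contDiffOn h1

theorem TC_S_H : (fun y : V => ((TC_S G y : ℝ) : ℂ)) = TC_H G G := by
  funext y
  exact TC_S_eq G y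

theorem TC_dzb_lg (hne : ∀ x : V, x ≠ 0 → ∃ i, MvPolynomial.eval x (G i) ≠ 0) (k : Fin 3) {y : V}
    (hy : y ≠ 0) :
    dzb k (TC_lg G) y = (TC_H G G y)⁻¹ * TC_H G (fun i => MvPolynomial.pderiv k (G i)) y := by
  have h1 : HasDerivAt Real.log (TC_S G y)⁻¹ (TC_S G y) :=
    Real.hasDerivAt_log (TC_S_pos G hne hy).ne'
  have h2 : DifferentiableAt ℝ (TC_S G) y :=
    (TC_S_smooth G).contDiffAt.differentiableAt (by simp)
  have h3 := dzb_comp_real k h1 h2
  have h4 : dzb k (TC_lg G) y = (((TC_S G y)⁻¹ : ℝ) : ℂ) * dzb k (fun z => ((TC_S G z : ℝ) : ℂ)) y := h3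
  rw [h4, TC_S_H, TC_H_dzb, Complex.ofReal_inv]
  congr 2
  exact TC_S_eq G y

theorem TC_L_lg (hne : ∀ x : V, x ≠ 0 → ∃ i, MvPolynomial.eval x (G i) ≠ 0) {x : V} (hx : x ≠ 0)
    (j k : Fin 3) : L (TC_lg G) x j k =
      TC_H (fun i => MvPolynomial.pderiv j (G i)) (fun i => MvPolynomial.pderiv k (G i)) x /
          ((TC_S G x : ℝ) : ℂ) -
        TC_H (fun i => MvPolynomial.pderiv j (G i)) G x *
            TC_H G (fun i => MvPolynomial.pderiv k (G i)) x / ((TC_S G x : ℝ) : ℂ) ^ 2 := by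
  have hS : TC_H G G x = ((TC_S G x : ℝ) : ℂ) := (TC_S_eq G x).symm
  have hS0 : TC_H G G x ≠ 0 := by
    rw [hS]
    exact_mod_cast (TC_S_pos G hne hx).ne'
  have h1 : L (TC_lg G) x j k =
      dz j (fun y => (TC_H G G y)⁻¹ * TC_H G (fun i => MvPolynomial.pderiv k (G i)) y) x :=
    dz_congr j hx fun y hy => TC_dzb_lg G hne k hy
  have hinv : DifferentiableAt ℝ (fun y => (TC_H G G y)⁻¹) x := (TC_H_diff G G x).inv hS0
  rw [h1, dz_mul j hinv (TC_H_diff _ _ x), dz_inv j (TC_H_diff G G x) hS0, TC_H_dz, TC_H_dz, hS]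
  rw [hS] at hS0
  field_simp
  ring

/-! ### the quadratic form -/

theorem TC_quad_sum (f g : ι → MvPolynomial (Fin 3) ℂ) (x w : V) :
    ∑ j, ∑ k, TC_H (fun i => MvPolynomial.pderiv j (f i)) (fun i => MvPolynomial.pderiv k (g i)) x *
      w j * conj (w k) = ∑ i, dP (f i) x w * conj (dP (g i) x w) := by
  unfold TC_H dP
  simp only [map_sum, map_mul, Finset.sum_mul, Finset.mul_sum]
  rw [Finset.sum_comm]
  have : ∀ k : Fin 3, ∑ j : Fin 3, ∑ i : ι, MvPolynomial.eval x (MvPolynomial.pderiv j (f i)) *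
      conj (MvPolynomial.eval x (MvPolynomial.pderiv k (g i))) * w j * conj (w k) =
      ∑ i : ι, ∑ j : Fin 3, MvPolynomial.eval x (MvPolynomial.pderiv j (f i)) *
      conj (MvPolynomial.eval x (MvPolynomial.pderiv k (g i))) * w j * conj (w k) := fun k =>
    Finset.sum_comm
  simp only [this]
  rw [Finset.sum_comm]
  refine Finset.sum_congr rfl fun i _ => Finset.sum_congr rfl fun k _ =>
    Finset.sum_congr rfl fun j _ => ?_
  ring

theorem TC_left (f g : ι → MvPolynomial (Fin 3) ℂ) (x w : V) :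
    ∑ j, TC_H (fun i => MvPolynomial.pderiv j (f i)) g x * w j =
      ∑ i, dP (f i) x w * conj (MvPolynomial.eval x (g i)) := by
  unfold TC_H dP
  simp only [Finset.sum_mul]
  rw [Finset.sum_comm]
  refine Finset.sum_congr rfl fun i _ => Finset.sum_congr rfl fun k _ => ?_
  ring

theorem TC_right (f g : ι → MvPolynomial (Fin 3) ℂ) (x w : V) :
    ∑ k, TC_H f (fun i => MvPolynomial.pderiv k (g i)) x * conj (w k) =
      ∑ i, MvPolynomial.eval x (f i) * conj (dP (g i) x w) := by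
  unfold TC_H dP
  simp only [Finset.sum_mul, map_sum, map_mul, Finset.mul_sum]
  rw [Finset.sum_comm]
  refine Finset.sum_congr rfl fun i _ => Finset.sum_congr rfl fun k _ => ?_
  ring

theorem TC_lagrange (a p : ι → ℂ) :
    ∑ i, ∑ j, Complex.normSq (a i * p j - a j * p i) =
      2 * ((∑ i, Complex.normSq (a i)) * (∑ i, Complex.normSq (p i)) -
        Complex.normSq (∑ i, p i * conj (a i))) := by
  have h1 : ∀ i j, ((Complex.normSq (a i * p j - a j * p i) : ℝ) : ℂ) =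
      (a i * conj (a i)) * (p j * conj (p j)) + (p i * conj (p i)) * (a j * conj (a j)) -
        ((a i * conj (p i)) * (p j * conj (a j)) + (p i * conj (a i)) * (a j * conj (p j))) := by
    intro i j
    rw [← Complex.mul_conj, map_sub, map_mul, map_mul]
    ring
  have h2 : ((∑ i, ∑ j, Complex.normSq (a i * p j - a j * p i) : ℝ) : ℂ) =
      ((2 * ((∑ i, Complex.normSq (a i)) * (∑ i, Complex.normSq (p i)) -
        Complex.normSq (∑ i, p i * conj (a i))) : ℝ) : ℂ) := by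
    push_cast
    simp only [h1, Finset.sum_sub_distrib, Finset.sum_add_distrib, ← Finset.mul_sum,
      ← Finset.sum_mul, ← Complex.mul_conj, map_sum, map_mul, Complex.conj_conj]
    have e : ∑ i, conj (p i) * a i = ∑ i, a i * conj (p i) :=
      Finset.sum_congr rfl fun i _ => mul_comm _ _
    rw [e]
    ring
  exact_mod_cast h2

theorem TC_quad (hne : ∀ x : V, x ≠ 0 → ∃ i, MvPolynomial.eval x (G i) ≠ 0) {x : V} (hx : x ≠ 0)
    (w : V) : quad (L (TC_lg G) x) w = ((lvd G x w : ℝ) : ℂ) := by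
  have hS := TC_S_pos G hne hx
  have hS0 : ((TC_S G x : ℝ) : ℂ) ≠ 0 := by exact_mod_cast hS.ne'
  have h1 : quad (L (TC_lg G) x) w =
      (∑ j, ∑ k, TC_H (fun i => MvPolynomial.pderiv j (G i)) (fun i => MvPolynomial.pderiv k (G i)) x *
        w j * conj (w k)) / ((TC_S G x : ℝ) : ℂ) -
      (∑ j, TC_H (fun i => MvPolynomial.pderiv j (G i)) G x * w j) *
        (∑ k, TC_H G (fun i => MvPolynomial.pderiv k (G i)) x * conj (w k)) /
          ((TC_S G x : ℝ) : ℂ) ^ 2 := by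
    unfold quad
    rw [Finset.sum_mul_sum, Finset.sum_div, Finset.sum_div, ← Finset.sum_sub_distrib]
    refine Finset.sum_congr rfl fun j _ => ?_
    rw [Finset.sum_div, Finset.sum_div, ← Finset.sum_sub_distrib]
    refine Finset.sum_congr rfl fun k _ => ?_
    rw [TC_L_lg G hne hx]
    ring
  have h2 : lvd G x w = ((TC_S G x) * (∑ i, Complex.normSq (dP (G i) x w)) -
      Complex.normSq (∑ i, dP (G i) x w * conj (MvPolynomial.eval x (G i)))) / (TC_S G x) ^ 2 := by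
    unfold lvd
    rw [TC_lagrange]
    unfold TC_S
    rw [mul_div_mul_left _ _ (two_ne_zero)]
  have h3 : ∑ i, MvPolynomial.eval x (G i) * conj (dP (G i) x w) =
      conj (∑ i, dP (G i) x w * conj (MvPolynomial.eval x (G i))) := by
    rw [map_sum]
    refine Finset.sum_congr rfl fun i _ => ?_
    rw [map_mul, Complex.conj_conj, mul_comm]
  have h4 : ∑ i, dP (G i) x w * conj (dP (G i) x w) =
      ((∑ i, Complex.normSq (dP (G i) x w) : ℝ) : ℂ) := by
    push_cast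
    exact Finset.sum_congr rfl fun i _ => Complex.mul_conj _
  rw [h1, TC_quad_sum, TC_left, TC_right, h2, h3, Complex.mul_conj, h4]
  push_cast
  field_simp

theorem TC_lvd_nonneg (x w : V) : 0 ≤ lvd G x w := by
  unfold lvd
  refine div_nonneg (Finset.sum_nonneg fun _ _ => Finset.sum_nonneg fun _ _ =>
    Complex.normSq_nonneg _) (by positivity)

theorem TC_hom {k : ℕ} (hG : ∀ i, (G i).IsHomogeneous k) (l : ℂ) (x : V) :
    TC_S G (l • x) = Complex.normSq l ^ k * TC_S G x := by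
  unfold TC_S
  rw [Finset.mul_sum]
  refine Finset.sum_congr rfl fun i _ => ?_
  have h1 : MvPolynomial.eval (l • x) (G i) = l ^ k * MvPolynomial.eval x (G i) := by
    rw [MvPolynomial.eval_eq, MvPolynomial.eval_eq, Finset.mul_sum]
    refine Finset.sum_congr rfl fun d hd => ?_
    have h2 : ∑ i ∈ d.support, d i = k := by
      have h3 := hG i (MvPolynomial.mem_support_iff.1 hd)
      rw [← h3]
      rw [Finsupp.weight_apply, Finsupp.sum]
      simp
    have h4 : ∏ i ∈ d.support, (l • x) i ^ d i = l ^ k * ∏ i ∈ d.support, x i ^ d i := by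
      simp only [Pi.smul_apply, smul_eq_mul, mul_pow]
      rw [Finset.prod_mul_distrib, Finset.prod_pow_eq_pow_sum, h2]
    rw [h4]
    ring
  rw [h1, Complex.normSq_mul, map_pow]

/-- the test function -/
noncomputable def TC_u (k : ℕ) (x : V) : ℂ := TC_lg G x + (-(k : ℂ)) * Inv_lg x

theorem TC_u_fun {k : ℕ} (hG : ∀ i, (G i).IsHomogeneous k)
    (hne : ∀ x : V, x ≠ 0 → ∃ i, MvPolynomial.eval x (G i) ≠ 0) : IsFun (TC_u G k) := by
  refine ⟨(TC_lg_smooth G hne).add (contDiffOn_const.mul Inv_lg_smooth), fun l x hl => ?_⟩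
  by_cases hx : x = 0
  · rw [hx, smul_zero]
  · have hn : Complex.normSq l ≠ 0 := (Complex.normSq_pos.2 hl).ne'
    unfold TC_u TC_lg Inv_lg
    rw [TC_hom G hG, N_smul, Real.log_mul (pow_ne_zero _ hn) (TC_S_pos G hne hx).ne',
      Real.log_mul hn (N_pos hx).ne', Real.log_pow]
    push_cast
    ring

theorem TC_L_u {k : ℕ} (hne : ∀ x : V, x ≠ 0 → ∃ i, MvPolynomial.eval x (G i) ≠ 0) {x : V}
    (hx : x ≠ 0) (w : V) :
    quad (L (TC_u G k) x) w = ((lvd G x w : ℝ) : ℂ) - (k : ℂ) * quad (Wm x) w := by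
  have hs : ContDiffOn ℝ ∞ (fun x => (-(k : ℂ)) * Inv_lg x) {0}ᶜ :=
    contDiffOn_const.mul Inv_lg_smooth
  have h1 : L (TC_u G k) x = L (TC_lg G) x + L (fun x => (-(k : ℂ)) * Inv_lg x) x :=
    Inv_L_add (TC_lg_smooth G hne) hs hx
  have h2 : L (fun x => (-(k : ℂ)) * Inv_lg x) x = (-(k : ℂ)) • Wm x := by
    ext a b
    show dz a (dzb b (fun x => (-(k : ℂ)) * Inv_lg x)) x = (-(k : ℂ)) * Wm x a b
    rw [dz_congr a hx fun y hy => dzb_const_mul b (-(k : ℂ)) (Inv_diff Inv_lg_smooth hy),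
      dz_const_mul a _ (Inv_dzb_diff Inv_lg_smooth b hx)]
    have h3 := congrFun (congrFun (Inv_L_lg hx) a) b
    have h4 : dz a (dzb b Inv_lg) x = Wm x a b := h3
    rw [h4]
  rw [h1, h2, ← TC_quad G hne hx]
  unfold quad
  rw [Finset.mul_sum, ← Finset.sum_sub_distrib]
  refine Finset.sum_congr rfl fun a _ => ?_
  rw [Finset.mul_sum, ← Finset.sum_sub_distrib]
  refine Finset.sum_congr rfl fun b _ => ?_
  rw [Matrix.add_apply, Matrix.smul_apply, smul_eq_mul]
  ring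

end

theorem TC_meas_dP (f : MvPolynomial (Fin 3) ℂ) (F : Fin 3 → MvPolynomial (Fin 3) ℂ) :
    Measurable (fun y => dP f y (wv F y)) := by
  unfold dP
  refine Finset.measurable_sum _ fun i _ => ?_
  exact ((measurable_pi_apply i).comp (measurable_wv F)).mul
    (TC_smooth (MvPolynomial.pderiv i f)).continuous.measurable

theorem measurable_lvd {ι : Type} [Fintype ι] (G : ι → MvPolynomial (Fin 3) ℂ) (F : Fin 3 → MvPolynomial (Fin 3) ℂ) :
    Measurable (fun y => lvd G y (wv F y)) := by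
  have hn : Measurable Complex.normSq := Complex.continuous_normSq.measurable
  have he : ∀ i, Measurable (fun y : V => MvPolynomial.eval y (G i)) := fun i =>
    (TC_smooth (G i)).continuous.measurable
  unfold lvd
  refine Measurable.div ?_ ?_
  · refine Finset.measurable_sum _ fun i _ => Finset.measurable_sum _ fun j _ => ?_
    exact hn.comp (((he i).mul (TC_meas_dP (G j) F)).sub ((he j).mul (TC_meas_dP (G i) F)))
  · exact ((Finset.measurable_sum _ fun i _ => hn.comp (he i)).pow_const 2).const_mul 2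

theorem poly_lelong {ι : Type} [Fintype ι] (G : ι → MvPolynomial (Fin 3) ℂ) (k : ℕ) (hG : ∀ i, (G i).IsHomogeneous k)
    (hne : ∀ x : V, x ≠ 0 → ∃ i, MvPolynomial.eval x (G i) ≠ 0) {F : Fin 3 → MvPolynomial (Fin 3) ℂ} {μ : Measure V}
    (hμ : IsCur F μ) (hd : DdcClosed F μ) :
    ∫⁻ y, ENNReal.ofReal (lvd G y (wv F y)) ∂μ = k := by
  have hu := TC_u_fun G hG hne
  have hform := form_L hu
  haveI : IsProbabilityMeasure μ := ⟨hμ.prob⟩
  have h0 := hd _ hu
  have hint := pr_int hform hμ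
  have hae : ∀ᵐ y ∂μ, pr F (L (TC_u G k)) y = ((lvd G y (wv F y) - k : ℝ) : ℂ) := by
    filter_upwards [hμ.sphere, hμ.sing] with y hy hs
    have hy0 : y ≠ 0 := by
      intro h
      rw [h] at hy
      have : N (0 : V) = 0 := by simp [N]
      rw [this] at hy
      exact zero_ne_one hy
    have h1 : quad (Wm y) (wv F y) = 1 := by
      rw [← pr_eq form_Wm hy]
      exact pr_Wm hy hs
    rw [pr_eq hform hy, TC_L_u G hne hy0, h1]
    push_cast
    ring
  have hint2 : Integrable (fun y => lvd G y (wv F y) - (k : ℝ)) μ := by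
    have h1 : Integrable (fun y => ((lvd G y (wv F y) - k : ℝ) : ℂ)) μ := hint.congr hae
    exact h1.re.congr (Filter.Eventually.of_forall fun y => Complex.ofReal_re _)
  have hint3 : Integrable (fun y => lvd G y (wv F y)) μ := by
    have h1 := hint2.add (integrable_const (k : ℝ))
    exact h1.congr (Filter.Eventually.of_forall fun y => by
      show lvd G y (wv F y) - (k : ℝ) + (k : ℝ) = _
      ring)
  have h2 : ∫ y, lvd G y (wv F y) ∂μ = k := by
    rw [integral_congr_ae hae, integral_complex_ofReal] at h0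
    have h3 : ∫ y, (lvd G y (wv F y) - (k : ℝ)) ∂μ = 0 := by exact_mod_cast h0
    rw [integral_sub hint3 (integrable_const _), integral_const] at h3
    simp only [probReal_univ, one_smul] at h3
    linarith
  rw [← ofReal_integral_eq_lintegral_ofReal hint3
    (Filter.Eventually.of_forall fun y => TC_lvd_nonneg G y _), h2, ENNReal.ofReal_natCast]

end FT76

end S_H76_FT_TC

section S_H76_FT_TD

/-!
# Row TD: the pointwise Lelong bound (7c) and the curvature bound (7d)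

(7c) `lelong_pt`: fix a unit vector y.  For s > 0 let G : Fin 3 ⊕ Fin 3 → MvPolynomial: the three components of `x ↦ cr x y` (linear forms: e.g. `X 1 * C (y 2) - X 2 * C (y 1)`, ...) and
 `C s * X j`; degree k = 1, no common zero off 0.  `poly_lelong`: `∫⁻ ofReal (lvd G x (wv F x)) dμ(x) = 1`.
 `dP` of the first components at (x, w) are the components of `cr w y`, so the terms with i, j in the first Fin 3 sum up to `2 N (cr (cr x y) (cr w y))` (for a, b : V: `∑_i ∑_j |a_i b_j - a_j b_i|^2 = 2 N (cr a b)`).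
 `cr (cr x y) (cr w y) = ± det(x,w,y) y` where `det(x,w,y) = bp (cr x w) y` (polynomial identity, `ring` per coordinate), so it is `|bp (nv F x) y|^2` for w = wv F x (`nv_eq`, N y = 1).
 `∑ |G_i(x)|^2 = N (cr x y) + s^2 N x = tau x y + s^2` for unit x (`tau_cross'`).  Hence `lvd ≥ |bp (nv F x) y|^2/(tau x y + s^2)^2`.
 Let s = s_n ↓ 0: `ofReal (|bp|^2/(tau + s_n^2)^2)` increases to `ofReal(|bp|^2/tau^2)` if tau > 0; if tau = 0 then `|bp|^2/tau^2 = 0` in Lean.  Fatou (`lintegral_liminf_le`) or monotone convergence; tau y x = tau x y (`tau_symm`).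
(7d) `curv`: Q from `eta_poly` (degree d+1), G : Fin 3 ⊕ Fin 3 → …: `Q j` and `C s * (X j)^(d+1)`, k = d + 1, no common zero off 0.  The first block gives `lvd ≥ N (cr (eta F y) (dEta F y w))/(N (eta F y) + s^2 c(y))^2`,
 c(y) = ∑ |y_j|^(2(d+1)); as s → 0 it tends to `IIq F y` where eta ≠ 0 (a.e.): Fatou.  (`N (cr a b) = N (cr b a)`.)
-/

open MeasureTheory Filter Topology
open scoped ContDiff BigOperators ComplexConjugate Matrix

namespace FT76

open Pool.Agent.H85.DC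

private theorem td_fatou {μ : Measure V} (f : ℕ → V → ENNReal) (hf : ∀ n, Measurable (f n)) (K : ENNReal)
    (hK : ∀ n, ∫⁻ y, f n y ∂μ ≤ K) (g : V → ENNReal)
    (hle : ∀ y, g y ≤ liminf (fun n => f n y) atTop) : ∫⁻ y, g y ∂μ ≤ K := by
  calc ∫⁻ y, g y ∂μ ≤ ∫⁻ y, liminf (fun n => f n y) atTop ∂μ := lintegral_mono hle
    _ ≤ liminf (fun n => ∫⁻ y, f n y ∂μ) atTop := lintegral_liminf_le hf
    _ ≤ liminf (fun _ : ℕ => K) atTop := liminf_le_liminf (Eventually.of_forall hK)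
    _ = K := liminf_const K

private theorem td_two (a b : V) : ∑ i, ∑ j, Complex.normSq (a i * b j - a j * b i) = 2 * N (cr a b) := by
  have h : ∀ z w : ℂ, Complex.normSq (z - w) = Complex.normSq (w - z) := fun z w => by
    rw [← Complex.normSq_neg, neg_sub]
  unfold N cr
  simp only [Fin.sum_univ_three, sub_self, map_zero, Matrix.cons_val_zero, Matrix.cons_val_one,
    Matrix.cons_val_two, Matrix.cons_val, Matrix.head_cons, Matrix.tail_cons]
  rw [h (a 0 * b 2) (a 2 * b 0), h (a 1 * b 0) (a 0 * b 1), h (a 2 * b 1) (a 1 * b 2)]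
  ring

private noncomputable def tdG (Q : Fin 3 → MvPolynomial (Fin 3) ℂ) (k : ℕ) (s : ℂ) :
    Fin 3 ⊕ Fin 3 → MvPolynomial (Fin 3) ℂ :=
  Sum.elim Q (fun j => MvPolynomial.C s * (MvPolynomial.X j) ^ k)

private theorem td_low (Q : Fin 3 → MvPolynomial (Fin 3) ℂ) (k : ℕ) (s : ℂ) (y w : V) :
    N (cr (fun j => MvPolynomial.eval y (Q j)) (fun j => dP (Q j) y w)) /
      (N (fun j => MvPolynomial.eval y (Q j)) + Complex.normSq s * ∑ j, Complex.normSq (y j) ^ k) ^ 2 ≤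
      lvd (tdG Q k s) y w := by
  unfold lvd
  have h1 : ∑ i, Complex.normSq (MvPolynomial.eval y (tdG Q k s i)) =
      N (fun j => MvPolynomial.eval y (Q j)) + Complex.normSq s * ∑ j, Complex.normSq (y j) ^ k := by
    rw [Fintype.sum_sum_type, Finset.mul_sum]
    congr 1
    refine Finset.sum_congr rfl fun j _ => ?_
    show Complex.normSq (MvPolynomial.eval y (MvPolynomial.C s * (MvPolynomial.X j) ^ k)) = _
    rw [map_mul, MvPolynomial.eval_C, map_pow, MvPolynomial.eval_X, map_mul, map_pow]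
  rw [h1, ← div_div]
  refine div_le_div_of_nonneg_right ?_ (sq_nonneg _)
  rw [le_div_iff₀ (by norm_num : (0 : ℝ) < 2), mul_comm,
    ← td_two (fun j => MvPolynomial.eval y (Q j)) (fun j => dP (Q j) y w)]
  have h0 : ∀ i j, 0 ≤ Complex.normSq (MvPolynomial.eval y (tdG Q k s i) * dP (tdG Q k s j) y w -
      MvPolynomial.eval y (tdG Q k s j) * dP (tdG Q k s i) y w) := fun i j => Complex.normSq_nonneg _
  rw [Fintype.sum_sum_type]
  refine le_trans ?_ (le_add_of_nonneg_right (Finset.sum_nonneg fun i _ => Finset.sum_nonneg fun j _ => h0 _ _))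
  refine Finset.sum_le_sum fun i _ => ?_
  rw [Fintype.sum_sum_type]
  refine le_trans ?_ (le_add_of_nonneg_right (Finset.sum_nonneg fun j _ => h0 _ _))
  exact le_of_eq rfl

private theorem td_main (Q : Fin 3 → MvPolynomial (Fin 3) ℂ) (k : ℕ) (hQ : ∀ j, (Q j).IsHomogeneous k)
    {F : Fin 3 → MvPolynomial (Fin 3) ℂ} {μ : Measure V} (hμ : IsCur F μ) (hd : DdcClosed F μ) :
    ∫⁻ y, ENNReal.ofReal (N (cr (fun j => MvPolynomial.eval y (Q j)) (fun j => dP (Q j) y (wv F y))) /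
      (N (fun j => MvPolynomial.eval y (Q j))) ^ 2) ∂μ ≤ k := by
  have hs : ∀ n : ℕ, (((n : ℂ) + 1)⁻¹) ≠ 0 := fun n => inv_ne_zero (by exact_mod_cast Nat.succ_ne_zero n)
  refine td_fatou (fun n y => ENNReal.ofReal (lvd (tdG Q k (((n : ℂ) + 1)⁻¹)) y (wv F y)))
    (fun n => (measurable_lvd _ F).ennreal_ofReal) k (fun n => ?_) _ (fun y => ?_)
  · refine le_of_eq (poly_lelong _ k ?_ ?_ hμ hd)
    · rintro (j | j)
      · exact hQ j
      · show (MvPolynomial.C (((n : ℂ) + 1)⁻¹) * (MvPolynomial.X j) ^ k).IsHomogeneous k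
        have h1 := (MvPolynomial.isHomogeneous_C (Fin 3) (((n : ℂ) + 1)⁻¹)).mul
          (MvPolynomial.isHomogeneous_X_pow (R := ℂ) j k)
        simpa using h1
    · intro x hx
      obtain ⟨j, hj⟩ : ∃ j, x j ≠ 0 := by
        by_contra h
        push Not at h
        exact hx (funext h)
      refine ⟨Sum.inr j, ?_⟩
      show MvPolynomial.eval x (MvPolynomial.C (((n : ℂ) + 1)⁻¹) * (MvPolynomial.X j) ^ k) ≠ 0
      rw [map_mul, MvPolynomial.eval_C, map_pow, MvPolynomial.eval_X]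
      exact mul_ne_zero (hs n) (pow_ne_zero k hj)
  · by_cases h0 : N (fun j => MvPolynomial.eval y (Q j)) = 0
    · rw [h0]
      simp
    · have h1 : Tendsto (fun n : ℕ => N (cr (fun j => MvPolynomial.eval y (Q j)) (fun j => dP (Q j) y (wv F y))) /
          (N (fun j => MvPolynomial.eval y (Q j)) +
            Complex.normSq (((n : ℂ) + 1)⁻¹) * ∑ j, Complex.normSq (y j) ^ k) ^ 2) atTop
          (nhds (N (cr (fun j => MvPolynomial.eval y (Q j)) (fun j => dP (Q j) y (wv F y))) /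
          (N (fun j => MvPolynomial.eval y (Q j)) + 0 * ∑ j, Complex.normSq (y j) ^ k) ^ 2)) := by
        have h2 : Tendsto (fun n : ℕ => Complex.normSq (((n : ℂ) + 1)⁻¹)) atTop (nhds 0) := by
          have h3 : (fun n : ℕ => Complex.normSq (((n : ℂ) + 1)⁻¹)) =
              fun n : ℕ => (1 / ((n : ℝ) + 1)) * (1 / ((n : ℝ) + 1)) := by
            funext n
            have h4 : ((n : ℂ) + 1)⁻¹ = (((1 / ((n : ℝ) + 1) : ℝ)) : ℂ) := by
              push_cast
              rw [one_div]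
            rw [h4, Complex.normSq_ofReal]
          rw [h3]
          have h5 := tendsto_one_div_add_atTop_nhds_zero_nat (𝕜 := ℝ)
          simpa using h5.mul h5
        refine Tendsto.div tendsto_const_nhds ((tendsto_const_nhds.add (h2.mul_const _)).pow 2) ?_
        rw [zero_mul, add_zero]
        exact pow_ne_zero 2 h0
      rw [zero_mul, add_zero] at h1
      rw [← ((ENNReal.continuous_ofReal.tendsto _).comp h1).liminf_eq]
      refine liminf_le_liminf (Eventually.of_forall fun n => ?_)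
      exact ENNReal.ofReal_le_ofReal (td_low Q k _ y (wv F y))

private noncomputable def tdA (y : V) : Fin 3 → MvPolynomial (Fin 3) ℂ :=
  ![MvPolynomial.X 1 * MvPolynomial.C (y 2) - MvPolynomial.X 2 * MvPolynomial.C (y 1),
    MvPolynomial.X 2 * MvPolynomial.C (y 0) - MvPolynomial.X 0 * MvPolynomial.C (y 2),
    MvPolynomial.X 0 * MvPolynomial.C (y 1) - MvPolynomial.X 1 * MvPolynomial.C (y 0)]

private theorem tdA_hom (y : V) (j : Fin 3) : (tdA y j).IsHomogeneous 1 := by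
  have h : ∀ (a b : Fin 3) (c e : ℂ),
      (MvPolynomial.X a * MvPolynomial.C c - MvPolynomial.X b * MvPolynomial.C e :
        MvPolynomial (Fin 3) ℂ).IsHomogeneous 1 := fun a b c e =>
    MvPolynomial.IsHomogeneous.sub
      (by simpa using (MvPolynomial.isHomogeneous_X ℂ a).mul (MvPolynomial.isHomogeneous_C (Fin 3) c))
      (by simpa using (MvPolynomial.isHomogeneous_X ℂ b).mul (MvPolynomial.isHomogeneous_C (Fin 3) e))
  fin_cases j
  · exact h 1 2 _ _
  · exact h 2 0 _ _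
  · exact h 0 1 _ _

private theorem tdA_eval (y x : V) : (fun j => MvPolynomial.eval x (tdA y j)) = cr x y := by
  funext j
  fin_cases j <;> simp [tdA, cr]

private theorem td_dPX (a b : Fin 3) (c e : ℂ) (x v : V) :
    dP (MvPolynomial.X a * MvPolynomial.C c - MvPolynomial.X b * MvPolynomial.C e) x v =
      v a * c - v b * e := by
  have h : ∀ i, MvPolynomial.eval x (MvPolynomial.pderiv i
      (MvPolynomial.X a * MvPolynomial.C c - MvPolynomial.X b * MvPolynomial.C e)) =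
      (if i = a then c else 0) - (if i = b then e else 0) := by
    intro i
    rw [map_sub, MvPolynomial.pderiv_mul, MvPolynomial.pderiv_mul, MvPolynomial.pderiv_C,
      MvPolynomial.pderiv_C, mul_zero, mul_zero, add_zero, add_zero, MvPolynomial.pderiv_X,
      MvPolynomial.pderiv_X, map_sub, map_mul, map_mul, MvPolynomial.eval_C, MvPolynomial.eval_C]
    congr 1
    · by_cases hi : i = a
      · subst hi; simp
      · simp [Pi.single_apply, hi, Ne.symm hi]
    · by_cases hi : i = b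
      · subst hi; simp
      · simp [Pi.single_apply, hi, Ne.symm hi]
  unfold dP
  simp only [h, mul_sub, mul_ite, mul_zero, Finset.sum_sub_distrib, Finset.sum_ite_eq',
    Finset.mem_univ, if_true]

private theorem tdA_dP (y x v : V) : (fun j => dP (tdA y j) x v) = cr v y := by
  funext j
  fin_cases j
  · exact td_dPX 1 2 _ _ x v
  · exact td_dPX 2 0 _ _ x v
  · exact td_dPX 0 1 _ _ x v

private theorem td_crcr (x w y : V) : cr (cr x y) (cr w y) = bp (cr x w) y • y := by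
  funext j
  fin_cases j <;> simp [cr, bp, Fin.sum_univ_three] <;> ring

private theorem td_ne {y : V} (hy : N y = 1) : y ≠ 0 := by
  rintro rfl
  rw [TauM_N_zero] at hy
  exact zero_ne_one hy

private theorem td_crneg (a b : V) : N (cr a b) = N (cr b a) := by
  have h : cr a b = -(cr b a) := by
    funext j
    fin_cases j <;> simp [cr] <;> ring
  rw [h]
  unfold N
  simp

theorem lelong_pt {F : Fin 3 → MvPolynomial (Fin 3) ℂ} {μ : Measure V} (hμ : IsCur F μ) (hd : DdcClosed F μ)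
    {y : V} (hy : N y = 1) :
    ∫⁻ y', ENNReal.ofReal (Complex.normSq (bp (nv F y') y) / (tau y y') ^ 2) ∂μ ≤ 1 := by
  have h1 := td_main (tdA y) 1 (tdA_hom y) hμ hd
  rw [Nat.cast_one] at h1
  refine le_trans (le_of_eq (lintegral_congr_ae ?_)) h1
  filter_upwards [hμ.sphere] with x hx
  rw [tdA_eval, tdA_dP, td_crcr, ← nv_eq, TauM_N_smul, hy, mul_one,
    tau_cross' (td_ne hx) (td_ne hy), hx, hy, one_mul, one_mul, tau_symm y x]

theorem curv {F : Fin 3 → MvPolynomial (Fin 3) ℂ} {d : ℕ} (hF : ∀ j, (F j).IsHomogeneous d) {μ : Measure V}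
    (hμ : IsCur F μ) (hd : DdcClosed F μ) :
    ∫⁻ y, ENNReal.ofReal (IIq F y) ∂μ ≤ d + 1 := by
  obtain ⟨Q, hQ, he, hD⟩ := eta_poly hF
  have h1 := td_main Q (d + 1) hQ hμ hd
  have h2 : (((d + 1 : ℕ)) : ENNReal) = (d : ENNReal) + 1 := by push_cast; rfl
  rw [h2] at h1
  refine le_trans (le_of_eq (lintegral_congr fun y => ?_)) h1
  have h3 : (fun j => MvPolynomial.eval y (Q j)) = eta F y := by
    funext j
    exact (he y j).symm
  have h4 : (fun j => dP (Q j) y (wv F y)) = dEta F y (wv F y) := by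
    funext j
    exact (hD y (wv F y) j).symm
  rw [h3, h4, td_crneg]
  rfl

end FT76

end S_H76_FT_TD

section S_H76_FT_TE

/-!
# Row TE: the secondary part of the loss tends to zero

For unit y put `J ε y = ∫⁻ ofReal (ε⁻¹^2 * exp (-(tau y y')/(16 ε^2))) dμ'(y')`.  Shells: for k : ℕ let `S_k = {y' | k ε^2 ≤ tau y y' < (k+1) ε^2}`; they cover everything (tau >= 0), on `S_k` the exponential is
`≤ exp (-k/16)`, and `μ' S_k ≤ μ' {tau y' y < ((√(k+1)) ε)^2} ≤ 4 (k+1) ε^2` (`hm`, `tau_symm`; μ' is finite).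
(a) `J ε y ≤ ∑' k, ofReal (4 (k+1) exp (-k/16)) =: C0 < ⊤` (summable: `summable_pow_mul_geometric_of_norm_lt_one` or ratio test).
(b) if `μ' {tau y y' < s^2}/s^2 → 0` (s → 0) then `J ε y → 0` as ε → 0+: `J ε y ≤ ∑' k, ofReal (exp(-k/16) (k+1) * (μ' {tau y · < (k+1) ε^2}).toReal/((k+1) ε^2))`; each term tends to 0 and is dominated by the
 summable `4 (k+1) exp(-k/16)` (`tendsto_tsum_of_dominated_convergence` for real series, then ofReal).
`Q2 F μ μ' ε = ∫⁻ y, ofReal (1 + IIq F y) * J ε y dμ` (pull the factor out: `lintegral_const_mul`, `ENNReal.ofReal_mul`), for μ-a.e. y (`hμ.sphere`, `hμ.sing`, `ZeroLelongAll`) the integrand tends to 0; it is dominated by `ofReal (1 + IIq) * C0`,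
whose integral is `≤ C0 (1 + (d+1)) < ⊤`.  Dominated convergence along the filter `𝓝[>] 0` (countably generated; `tendsto_lintegral_filter_of_dominated_convergence`; measurability of `J ε` from `measurable_tau` and
`Measurable.lintegral_prod_right'`).
-/

open MeasureTheory Filter Topology
open scoped ContDiff BigOperators ComplexConjugate Matrix

namespace FT76

open Pool.Agent.H85.DC

/-- the k-th coefficient -/
noncomputable def TE_c (k : ℕ) : ℝ := Real.exp (-(k : ℝ) / 16) * ((k : ℝ) + 1)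

theorem TE_c_nonneg (k : ℕ) : 0 ≤ TE_c k := by
  unfold TE_c
  positivity

theorem TE_c_summable : Summable (fun k : ℕ => TE_c k * 4) := by
  have hr : ‖Real.exp (-1 / 16)‖ < 1 := by
    rw [Real.norm_eq_abs, abs_of_nonneg (Real.exp_nonneg _)]
    rw [← Real.exp_zero]
    exact Real.exp_lt_exp.mpr (by norm_num)
  have h1 := summable_pow_mul_geometric_of_norm_lt_one 1 hr
  have h0 := summable_pow_mul_geometric_of_norm_lt_one 0 hr
  have h2 := (h1.add h0).mul_right (4 : ℝ)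
  refine h2.congr fun k => ?_
  unfold TE_c
  have h3 : Real.exp (-(k : ℝ) / 16) = Real.exp (-1 / 16) ^ k := by
    rw [← Real.exp_nat_mul]
    congr 1
    ring
  rw [h3]
  ring

/-- the quotient -/
noncomputable def TE_q (μ' : Measure V) (y : V) (s : ℝ) : ℝ :=
  (μ' {y' | tau y y' < s ^ 2}).toReal / s ^ 2

theorem TE_q_nonneg (μ' : Measure V) (y : V) (s : ℝ) : 0 ≤ TE_q μ' y s :=
  div_nonneg ENNReal.toReal_nonneg (sq_nonneg s)

theorem TE_q_le {μ' : Measure V}
    (hm : ∀ (y : V) (s : ℝ), N y = 1 → 0 < s → (μ' {x | tau x y < s ^ 2}).toReal ≤ 4 * s ^ 2)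
    {y : V} (hy : N y = 1) {s : ℝ} (hs : 0 < s) : TE_q μ' y s ≤ 4 := by
  unfold TE_q
  rw [div_le_iff₀ (by positivity)]
  have h1 : {y' | tau y y' < s ^ 2} = {x | tau x y < s ^ 2} := by
    ext x
    show tau y x < s ^ 2 ↔ tau x y < s ^ 2
    rw [tau_symm]
  rw [h1]
  exact hm y s hy hs

/-- the inner integral -/
noncomputable def TE_J (μ' : Measure V) (ε : ℝ) (y : V) : ENNReal :=
  ∫⁻ y', ENNReal.ofReal (ε⁻¹ ^ 2 * Real.exp (-(tau y y') / (16 * ε ^ 2))) ∂μ'

theorem TE_tau_meas (y : V) : Measurable (fun y' : V => tau y y') := by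
  have h : Measurable (fun y' : V => ((y, y') : V × V)) := measurable_prodMk_left
  have h2 := measurable_tau.comp h
  exact h2

theorem TE_J_le {μ' : Measure V} [IsFiniteMeasure μ'] {ε : ℝ} (hε : 0 < ε) (y : V) :
    TE_J μ' ε y ≤ ∑' k : ℕ, ENNReal.ofReal (TE_c k * TE_q μ' y (Real.sqrt ((k : ℝ) + 1) * ε)) := by
  have hset : ∀ k : ℕ, MeasurableSet {y' | tau y y' < (Real.sqrt ((k : ℝ) + 1) * ε) ^ 2} :=
    fun k => measurableSet_lt (TE_tau_meas y) measurable_const
  have hsq : ∀ k : ℕ, (Real.sqrt ((k : ℝ) + 1) * ε) ^ 2 = ((k : ℝ) + 1) * ε ^ 2 := by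
    intro k
    rw [mul_pow, Real.sq_sqrt (by positivity)]
  have hpt : ∀ y', ENNReal.ofReal (ε⁻¹ ^ 2 * Real.exp (-(tau y y') / (16 * ε ^ 2))) ≤
      ∑' k : ℕ, Set.indicator {y' | tau y y' < (Real.sqrt ((k : ℝ) + 1) * ε) ^ 2}
        (fun _ => ENNReal.ofReal (ε⁻¹ ^ 2 * Real.exp (-(k : ℝ) / 16))) y' := by
    intro y'
    have h0 := tau_nonneg y y'
    obtain ⟨k, hk⟩ : ∃ k : ℕ, k = ⌊tau y y' / ε ^ 2⌋₊ := ⟨_, rfl⟩
    have h1 : (k : ℝ) ≤ tau y y' / ε ^ 2 := by
      rw [hk]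
      exact Nat.floor_le (by positivity)
    have h2 : tau y y' / ε ^ 2 < (k : ℝ) + 1 := by
      rw [hk]
      exact Nat.lt_floor_add_one _
    refine le_trans ?_ (ENNReal.le_tsum k)
    have hmem : y' ∈ {y' | tau y y' < (Real.sqrt ((k : ℝ) + 1) * ε) ^ 2} := by
      show tau y y' < (Real.sqrt ((k : ℝ) + 1) * ε) ^ 2
      rw [hsq]
      rwa [div_lt_iff₀ (by positivity)] at h2
    rw [Set.indicator_of_mem hmem]
    refine ENNReal.ofReal_le_ofReal ?_
    refine mul_le_mul_of_nonneg_left (Real.exp_le_exp.mpr ?_) (by positivity)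
    have h3 : -(tau y y') / (16 * ε ^ 2) = -(tau y y' / ε ^ 2) / 16 := by
      field_simp
    rw [h3]
    linarith
  unfold TE_J
  refine (lintegral_mono hpt).trans ?_
  rw [lintegral_tsum fun k => (measurable_const.indicator (hset k)).aemeasurable]
  refine ENNReal.tsum_le_tsum fun k => ?_
  rw [lintegral_indicator (hset k), setLIntegral_const]
  have hfin : μ' {y' | tau y y' < (Real.sqrt ((k : ℝ) + 1) * ε) ^ 2} =
      ENNReal.ofReal (μ' {y' | tau y y' < (Real.sqrt ((k : ℝ) + 1) * ε) ^ 2}).toReal :=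
    (ENNReal.ofReal_toReal (measure_ne_top _ _)).symm
  rw [hfin, ← ENNReal.ofReal_mul (by positivity)]
  refine ENNReal.ofReal_le_ofReal (le_of_eq ?_)
  unfold TE_q TE_c
  rw [hsq]
  have hk : (k : ℝ) + 1 ≠ 0 := by positivity
  field_simp

theorem TE_J_bdd {μ' : Measure V} [IsFiniteMeasure μ']
    (hm : ∀ (y : V) (s : ℝ), N y = 1 → 0 < s → (μ' {x | tau x y < s ^ 2}).toReal ≤ 4 * s ^ 2)
    {ε : ℝ} (hε : 0 < ε) {y : V} (hy : N y = 1) :
    TE_J μ' ε y ≤ ENNReal.ofReal (∑' k : ℕ, TE_c k * 4) := by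
  refine (TE_J_le hε y).trans ?_
  rw [ENNReal.ofReal_tsum_of_nonneg (fun k => mul_nonneg (TE_c_nonneg k) (by norm_num)) TE_c_summable]
  refine ENNReal.tsum_le_tsum fun k => ENNReal.ofReal_le_ofReal ?_
  exact mul_le_mul_of_nonneg_left (TE_q_le hm hy (by positivity)) (TE_c_nonneg k)

theorem TE_J_tendsto {μ' : Measure V} [IsFiniteMeasure μ']
    (hm : ∀ (y : V) (s : ℝ), N y = 1 → 0 < s → (μ' {x | tau x y < s ^ 2}).toReal ≤ 4 * s ^ 2)
    {y : V} (hy : N y = 1) (hz : Tendsto (TE_q μ' y) (𝓝[>] 0) (𝓝 0)) :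
    Tendsto (fun ε : ℝ => TE_J μ' ε y) (𝓝[>] 0) (𝓝 0) := by
  have hpos : ∀ᶠ ε : ℝ in 𝓝[>] 0, 0 < ε := self_mem_nhdsWithin
  have hb : ∀ᶠ ε : ℝ in 𝓝[>] 0, ∀ k : ℕ,
      ‖TE_c k * TE_q μ' y (Real.sqrt ((k : ℝ) + 1) * ε)‖ ≤ TE_c k * 4 := by
    filter_upwards [hpos] with ε hε k
    rw [Real.norm_eq_abs, abs_of_nonneg (mul_nonneg (TE_c_nonneg k) (TE_q_nonneg _ _ _))]
    exact mul_le_mul_of_nonneg_left (TE_q_le hm hy (by positivity)) (TE_c_nonneg k)
  have hterm : ∀ k : ℕ, Tendsto (fun ε : ℝ => TE_c k * TE_q μ' y (Real.sqrt ((k : ℝ) + 1) * ε))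
      (𝓝[>] 0) (𝓝 0) := by
    intro k
    have h1 : Tendsto (fun ε : ℝ => Real.sqrt ((k : ℝ) + 1) * ε) (𝓝[>] 0) (𝓝[>] 0) := by
      rw [tendsto_nhdsWithin_iff]
      constructor
      · have h2 : Tendsto (fun ε : ℝ => Real.sqrt ((k : ℝ) + 1) * ε) (𝓝 0)
            (𝓝 (Real.sqrt ((k : ℝ) + 1) * 0)) := tendsto_id.const_mul _
        rw [mul_zero] at h2
        exact h2.mono_left nhdsWithin_le_nhds
      · filter_upwards [hpos] with ε hε
        show 0 < Real.sqrt ((k : ℝ) + 1) * ε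
        positivity
    have h3 := (hz.comp h1).const_mul (TE_c k)
    rw [mul_zero] at h3
    exact h3
  have htot : Tendsto (fun ε : ℝ => ∑' k : ℕ, TE_c k * TE_q μ' y (Real.sqrt ((k : ℝ) + 1) * ε))
      (𝓝[>] 0) (𝓝 0) := by
    have h1 := tendsto_tsum_of_dominated_convergence TE_c_summable hterm hb
    rw [tsum_zero] at h1
    exact h1
  have htot2 := ENNReal.tendsto_ofReal htot
  rw [ENNReal.ofReal_zero] at htot2
  refine tendsto_of_tendsto_of_tendsto_of_le_of_le' tendsto_const_nhds htot2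
    (Eventually.of_forall fun _ => zero_le) ?_
  filter_upwards [hpos, hb] with ε hε hbε
  refine (TE_J_le hε y).trans (le_of_eq ?_)
  refine (ENNReal.ofReal_tsum_of_nonneg
    (fun k => mul_nonneg (TE_c_nonneg k) (TE_q_nonneg _ _ _)) ?_).symm
  refine TE_c_summable.of_norm_bounded fun k => hbε k

theorem q2_tendsto {F : Fin 3 → MvPolynomial (Fin 3) ℂ} {μ μ' : Measure V} (hμ : IsCur F μ) (hμ' : IsCur F μ')
    (hm : ∀ (y : V) (s : ℝ), N y = 1 → 0 < s → (μ' {x | tau x y < s ^ 2}).toReal ≤ 4 * s ^ 2) (hz : ZeroLelongAll F μ')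
    {K : ℝ} (hc : ∫⁻ y, ENNReal.ofReal (IIq F y) ∂μ ≤ ENNReal.ofReal K) :
    Tendsto (fun ε : ℝ => Q2 F μ μ' ε) (𝓝[>] 0) (𝓝 0) := by
  have hf : IsFiniteMeasure μ := ⟨by rw [hμ.prob]; exact ENNReal.one_lt_top⟩
  have hf' : IsFiniteMeasure μ' := ⟨by rw [hμ'.prob]; exact ENNReal.one_lt_top⟩
  have hpos : ∀ᶠ ε : ℝ in 𝓝[>] 0, 0 < ε := self_mem_nhdsWithin
  have hin : ∀ ε y, ∫⁻ y', ENNReal.ofReal (ε⁻¹ ^ 2 * (1 + IIq F y) *
      Real.exp (-(tau y y') / (16 * ε ^ 2))) ∂μ' =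
      ENNReal.ofReal (1 + IIq F y) * TE_J μ' ε y := by
    intro ε y
    unfold TE_J
    rw [← lintegral_const_mul' _ _ ENNReal.ofReal_ne_top]
    refine lintegral_congr fun y' => ?_
    have h0 := IIq_nonneg F y
    rw [← ENNReal.ofReal_mul (by linarith)]
    congr 1
    ring
  have hlim := tendsto_lintegral_filter_of_dominated_convergence (μ := μ) (l := 𝓝[>] (0 : ℝ))
    (F := fun ε y => ∫⁻ y', ENNReal.ofReal (ε⁻¹ ^ 2 * (1 + IIq F y) *
      Real.exp (-(tau y y') / (16 * ε ^ 2))) ∂μ') (f := fun _ => 0)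
    (fun y => ENNReal.ofReal (1 + IIq F y) * ENNReal.ofReal (∑' k : ℕ, TE_c k * 4)) ?_ ?_ ?_ ?_
  · simp only [lintegral_zero] at hlim
    exact hlim
  · refine Eventually.of_forall fun ε => ?_
    refine Measurable.lintegral_prod_right' (f := fun q : V × V => ENNReal.ofReal (ε⁻¹ ^ 2 *
      (1 + IIq F q.1) * Real.exp (-(tau q.1 q.2) / (16 * ε ^ 2)))) ?_
    refine ENNReal.measurable_ofReal.comp ?_
    refine Measurable.mul ?_ ?_
    · exact measurable_const.mul (measurable_const.add ((measurable_IIq F).comp measurable_fst))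
    · exact Real.measurable_exp.comp ((measurable_tau.neg).div_const _)
  · filter_upwards [hpos] with ε hε
    filter_upwards [hμ.sphere] with y hy
    rw [hin]
    exact mul_le_mul' le_rfl (TE_J_bdd hm hε hy)
  · rw [lintegral_mul_const' _ _ ENNReal.ofReal_ne_top]
    refine ENNReal.mul_ne_top ?_ ENNReal.ofReal_ne_top
    have h1 : ∀ y, ENNReal.ofReal (1 + IIq F y) = 1 + ENNReal.ofReal (IIq F y) := by
      intro y
      rw [ENNReal.ofReal_add zero_le_one (IIq_nonneg F y), ENNReal.ofReal_one]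
    simp only [h1]
    rw [lintegral_add_left measurable_const, lintegral_one]
    refine ENNReal.add_ne_top.mpr ⟨measure_ne_top _ _, ?_⟩
    exact ne_top_of_le_ne_top ENNReal.ofReal_ne_top hc
  · filter_upwards [hμ.sphere, hμ.sing] with y hy hs
    have h1 := TE_J_tendsto hm hy (hz y hy hs)
    have h2 := ENNReal.Tendsto.const_mul (a := ENNReal.ofReal (1 + IIq F y)) h1
      (Or.inr ENNReal.ofReal_ne_top)
    rw [mul_zero] at h2
    refine h2.congr fun ε => ?_
    rw [hin]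

end FT76

end S_H76_FT_TE

section S_H76_FT_TF

/-!
# Row TF: summation over the dyadic scales

1. `dyadic_real`: there is C with `∑_{j<n} 16^j exp (-(t 4^j)/8) ≤ C/t^2` for all t > 0, n.  With x_j = t 4^j: the sum is `t^(-2) ∑ x_j^2 exp(-x_j/8)`.  `x (1+x)^2 exp(-x/8) ≤ C'` for x >= 0 (continuous, tends to 0; or
 exp(x/8) >= (x/8)^3/6 and >= 1 etc.: x(1+x)^2 <= 4(1 + x^3) ... ), so `x^2 exp(-x/8) ≤ C' x/(1+x)^2`; with `h x = x/(1+x)`: `h(4x) - h(x) = 3x/((1+x)(1+4x)) ≥ (3/4) x/(1+x)^2`, so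
 `∑_{j<n} x_j/(1+x_j)^2 ≤ (4/3)(h(x_n) - h(x_0)) ≤ 4/3` (telescoping).
2. `dyadic`: with ε = (1/2)^j: `ε⁻¹^4 = 16^j`, `exp (-(tau)/(8 ε^2)) = exp (-(tau 4^j)/8)`.  `∑' j, L1 ... = ∑' ∫⁻∫⁻ = ∫⁻∫⁻ ∑'` (`lintegral_tsum`, measurability from TA and `measurable_tau`); pointwise
 `∑' j, ofReal (16^j Kq |bp|^2 exp(..)) ≤ ofReal (C Kq |bp (nv F y') y|^2/tau^2)`: if tau > 0 by 1. (supremum of the partial sums, `ENNReal.tsum_eq_iSup_nat`/`ENNReal.tsum_le_of_sum_range_le`);
 if tau = 0 (y, y' unit): y' = c • y with c ≠ 0 (`tau_eq_zero`), so `bp (nv F y') y = c⁻¹ bp (nv F y') y' = 0` (`bp_nv`) and all terms vanish.  (y unit on Kr P r; y' unit a.e.)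
 Then `∫⁻ y' ofReal (|bp|^2/tau^2) dμ' ≤ 1` (hypothesis `hl`) for every unit y.
-/

open MeasureTheory Filter Topology
open scoped ContDiff BigOperators ComplexConjugate Matrix

namespace FT76

open Pool.Agent.H85.DC

theorem TF_key {x : ℝ} (hx : 0 < x) :
    x ^ 2 * Real.exp (-x / 8) ≤ 18432 * (4 * x / (1 + 4 * x) - x / (1 + x)) := by
  have h1 : 1 + x / 24 ≤ Real.exp (x / 24) := by
    have := Real.add_one_le_exp (x / 24)
    linarith
  have h2 : (1 + x) / 24 ≤ Real.exp (x / 24) := by linarith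
  have h3 : ((1 + x) / 24) ^ 3 ≤ Real.exp (x / 24) ^ 3 := by
    gcongr
  have h4 : Real.exp (x / 24) ^ 3 = Real.exp (x / 8) := by
    rw [← Real.exp_nat_mul]
    congr 1
    push_cast
    ring
  rw [h4] at h3
  have h5 : Real.exp (-x / 8) = (Real.exp (x / 8))⁻¹ := by
    rw [← Real.exp_neg]
    congr 1
    ring
  have h6 : (1 + x) ^ 3 * Real.exp (-x / 8) ≤ 13824 := by
    rw [h5, ← div_eq_mul_inv, div_le_iff₀ (Real.exp_pos _)]
    have : ((1 + x) / 24) ^ 3 = (1 + x) ^ 3 / 13824 := by ring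
    rw [this, div_le_iff₀ (by norm_num)] at h3
    linarith
  have h7 : 0 < Real.exp (-x / 8) := Real.exp_pos _
  have h8 : 4 * x / (1 + 4 * x) - x / (1 + x) = 3 * x / ((1 + x) * (1 + 4 * x)) := by
    field_simp
    ring
  rw [h8]
  have h9 : x * Real.exp (-x / 8) ≤ 13824 / (1 + x) ^ 2 := by
    rw [le_div_iff₀ (by positivity)]
    calc x * Real.exp (-x / 8) * (1 + x) ^ 2 ≤ (1 + x) * Real.exp (-x / 8) * (1 + x) ^ 2 := by
          gcongr
          linarith
      _ = (1 + x) ^ 3 * Real.exp (-x / 8) := by ring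
      _ ≤ 13824 := h6
  calc x ^ 2 * Real.exp (-x / 8) = x * (x * Real.exp (-x / 8)) := by ring
    _ ≤ x * (13824 / (1 + x) ^ 2) := by gcongr
    _ ≤ 18432 * (3 * x / ((1 + x) * (1 + 4 * x))) := by
      have e1 : x * (13824 / (1 + x) ^ 2) = 13824 * x / ((1 + x) * (1 + x)) := by
        field_simp
      have e2 : 18432 * (3 * x / ((1 + x) * (1 + 4 * x))) =
          13824 * x / ((1 + x) * ((1 + 4 * x) / 4)) := by
        field_simp
        ring
      rw [e1, e2]
      gcongr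
      linarith

theorem dyadic_real : ∃ C : ℝ, 0 < C ∧ ∀ (t : ℝ) (n : ℕ), 0 < t →
    ∑ j ∈ Finset.range n, (16 : ℝ) ^ j * Real.exp (-(t * 4 ^ j) / 8) ≤ C / t ^ 2 := by
  refine ⟨18432, by norm_num, ?_⟩
  intro t n ht
  have h1 : ∀ n : ℕ, ∑ j ∈ Finset.range n, (16 : ℝ) ^ j * Real.exp (-(t * 4 ^ j) / 8) ≤
      18432 / t ^ 2 * (t * 4 ^ n / (1 + t * 4 ^ n) - t / (1 + t)) := by
    intro n
    induction n with
    | zero => simp
    | succ n ih =>
      rw [Finset.sum_range_succ]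
      have hx : 0 < t * 4 ^ n := by positivity
      have h2 := TF_key hx
      have h3 : (16 : ℝ) ^ n * Real.exp (-(t * 4 ^ n) / 8) =
          (t * 4 ^ n) ^ 2 * Real.exp (-(t * 4 ^ n) / 8) / t ^ 2 := by
        have : (t * 4 ^ n) ^ 2 = t ^ 2 * 16 ^ n := by
          rw [mul_pow, ← pow_mul, mul_comm n 2, pow_mul]
          norm_num
        rw [this]
        field_simp
      have h4 : (16 : ℝ) ^ n * Real.exp (-(t * 4 ^ n) / 8) ≤
          18432 / t ^ 2 * (t * 4 ^ (n + 1) / (1 + t * 4 ^ (n + 1)) -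
            t * 4 ^ n / (1 + t * 4 ^ n)) := by
        rw [h3]
        have e1 : 4 * (t * 4 ^ n) = t * 4 ^ (n + 1) := by ring
        rw [e1] at h2
        calc (t * 4 ^ n) ^ 2 * Real.exp (-(t * 4 ^ n) / 8) / t ^ 2 ≤
            18432 * (t * 4 ^ (n + 1) / (1 + t * 4 ^ (n + 1)) - t * 4 ^ n / (1 + t * 4 ^ n)) /
              t ^ 2 := by gcongr
          _ = _ := by ring
      calc _ ≤ 18432 / t ^ 2 * (t * 4 ^ n / (1 + t * 4 ^ n) - t / (1 + t)) +
          18432 / t ^ 2 * (t * 4 ^ (n + 1) / (1 + t * 4 ^ (n + 1)) -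
            t * 4 ^ n / (1 + t * 4 ^ n)) := add_le_add ih h4
        _ = _ := by ring
  refine (h1 n).trans ?_
  have h5 : t * 4 ^ n / (1 + t * 4 ^ n) - t / (1 + t) ≤ 1 := by
    have e1 : t * 4 ^ n / (1 + t * 4 ^ n) ≤ 1 := by
      rw [div_le_one (by positivity)]
      linarith
    have e2 : 0 ≤ t / (1 + t) := by positivity
    linarith
  calc _ ≤ 18432 / t ^ 2 * 1 := by gcongr
    _ = _ := mul_one _

theorem TF_bp_smul (a : V) (c : ℂ) (v : V) : bp a (c • v) = c * bp a v := by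
  unfold bp
  rw [Finset.mul_sum]
  refine Finset.sum_congr rfl fun j _ => ?_
  simp only [Pi.smul_apply, smul_eq_mul]
  ring

theorem TF_ne {y : V} (hy : N y = 1) : y ≠ 0 := by
  rintro rfl
  simp [N] at hy

theorem TF_pt {C : ℝ} (hC : 0 < C) (hd : ∀ (t : ℝ) (n : ℕ), 0 < t →
    ∑ j ∈ Finset.range n, (16 : ℝ) ^ j * Real.exp (-(t * 4 ^ j) / 8) ≤ C / t ^ 2)
    {K b τ : ℝ} (hK : 0 ≤ K) (hb : 0 ≤ b) (hτ : 0 ≤ τ) (h0 : τ = 0 → b = 0) :
    ∑' j : ℕ, ENNReal.ofReal ((((1 / 2 : ℝ) ^ j)⁻¹) ^ 4 * K * b *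
      Real.exp (-τ / (8 * ((1 / 2 : ℝ) ^ j) ^ 2))) ≤
      ENNReal.ofReal C * ENNReal.ofReal K * ENNReal.ofReal (b / τ ^ 2) := by
  have e1 : ∀ j : ℕ, (((1 / 2 : ℝ) ^ j)⁻¹) ^ 4 * K * b *
      Real.exp (-τ / (8 * ((1 / 2 : ℝ) ^ j) ^ 2)) =
      K * b * ((16 : ℝ) ^ j * Real.exp (-(τ * 4 ^ j) / 8)) := by
    intro j
    have a1 : (((1 / 2 : ℝ) ^ j)⁻¹) ^ 4 = 16 ^ j := by
      rw [← inv_pow, ← pow_mul, mul_comm j 4, pow_mul]
      norm_num
    have a2 : ((1 / 2 : ℝ) ^ j) ^ 2 = (4 ^ j)⁻¹ := by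
      rw [← pow_mul, mul_comm j 2, pow_mul, ← inv_pow]
      norm_num
    have a3 : -τ / (8 * ((1 / 2 : ℝ) ^ j) ^ 2) = -(τ * 4 ^ j) / 8 := by
      rw [a2]
      field_simp
    rw [a1, a3]
    ring
  simp_rw [e1]
  rcases hτ.eq_or_lt with h | h
  · have hb0 := h0 h.symm
    simp [hb0]
  · refine ENNReal.tsum_le_of_sum_range_le fun n => ?_
    rw [← ENNReal.ofReal_sum_of_nonneg (fun j _ => by positivity), ← Finset.mul_sum,
      ← ENNReal.ofReal_mul hC.le, ← ENNReal.ofReal_mul (by positivity)]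
    refine ENNReal.ofReal_le_ofReal ?_
    calc K * b * ∑ j ∈ Finset.range n, (16 : ℝ) ^ j * Real.exp (-(τ * 4 ^ j) / 8) ≤
        K * b * (C / τ ^ 2) := by
          gcongr
          exact hd τ n h
      _ = C * K * (b / τ ^ 2) := by ring

theorem TF_meas (F : Fin 3 → MvPolynomial (Fin 3) ℂ) (ε : ℝ) :
    Measurable (fun q : V × V => ENNReal.ofReal (ε⁻¹ ^ 4 * Kq F q.1 *
      Complex.normSq (bp (nv F q.2) q.1) * Real.exp (-(tau q.1 q.2) / (8 * ε ^ 2)))) := by
  have h1 : Measurable (fun q : V × V => Kq F q.1) := (measurable_Kq F).comp measurable_fst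
  have h2 : Measurable (fun q : V × V => bp (nv F q.2) q.1) := by
    unfold bp
    refine Finset.measurable_fun_sum _ fun j _ => ?_
    have m1 : Measurable (fun q : V × V => nv F q.2 j) :=
      (measurable_pi_apply j).comp ((measurable_nv F).comp measurable_snd)
    have m2 : Measurable (fun q : V × V => q.1 j) :=
      (measurable_pi_apply j).comp measurable_fst
    exact m1.mul m2
  have h3 : Measurable (fun q : V × V => Complex.normSq (bp (nv F q.2) q.1)) :=
    Complex.continuous_normSq.measurable.comp h2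
  have h4 := measurable_tau
  have h5 : Measurable (fun q : V × V => Real.exp (-(tau q.1 q.2) / (8 * ε ^ 2))) :=
    Real.measurable_exp.comp (h4.neg.div_const _)
  exact (((h1.const_mul _).mul h3).mul h5).ennreal_ofReal

/-- the integrand -/
noncomputable def TF_g (F : Fin 3 → MvPolynomial (Fin 3) ℂ) (ε : ℝ) (q : V × V) : ENNReal :=
  ENNReal.ofReal (ε⁻¹ ^ 4 * Kq F q.1 *
      Complex.normSq (bp (nv F q.2) q.1) * Real.exp (-(tau q.1 q.2) / (8 * ε ^ 2)))

theorem TF_L1 (F : Fin 3 → MvPolynomial (Fin 3) ℂ) (μ μ' : Measure V) (P : Finset V) (r ε : ℝ) :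
    L1 F μ μ' P r ε = ∫⁻ y in Kr P r, ∫⁻ y', TF_g F ε (y, y') ∂μ' ∂μ := rfl

theorem TF_g_meas (F : Fin 3 → MvPolynomial (Fin 3) ℂ) (ε : ℝ) : Measurable (TF_g F ε) :=
  TF_meas F ε

theorem TF_sum {C : ℝ} (hC : 0 < C) (hd : ∀ (t : ℝ) (n : ℕ), 0 < t →
    ∑ j ∈ Finset.range n, (16 : ℝ) ^ j * Real.exp (-(t * 4 ^ j) / 8) ≤ C / t ^ 2)
    (F : Fin 3 → MvPolynomial (Fin 3) ℂ) {y y' : V} (hy : N y = 1) (hy' : N y' = 1) :
    ∑' j : ℕ, TF_g F ((1 / 2 : ℝ) ^ j) (y, y') ≤ ENNReal.ofReal C * ENNReal.ofReal (Kq F y) *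
      ENNReal.ofReal (Complex.normSq (bp (nv F y') y) / (tau y y') ^ 2) := by
  have h0 : tau y y' = 0 → Complex.normSq (bp (nv F y') y) = 0 := by
    intro h0
    obtain ⟨c, hc⟩ := tau_eq_zero (TF_ne hy) (TF_ne hy') h0
    have : bp (nv F y') y = 0 := by
      rw [hc, TF_bp_smul, bp_nv, mul_zero]
    rw [this, Complex.normSq_zero]
  exact TF_pt hC hd (Kq_nonneg F y) (Complex.normSq_nonneg (bp (nv F y') y)) (tau_nonneg y y') h0

theorem dyadic : ∃ C : ℝ, 0 < C ∧ ∀ (F : Fin 3 → MvPolynomial (Fin 3) ℂ) (μ μ' : Measure V) (P : Finset V) (r : ℝ),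
    IsCur F μ → IsCur F μ' →
    (∀ y : V, N y = 1 → ∫⁻ y', ENNReal.ofReal (Complex.normSq (bp (nv F y') y) / (tau y y') ^ 2) ∂μ' ≤ 1) →
    ∑' j : ℕ, L1 F μ μ' P r ((1 / 2) ^ j) ≤ ENNReal.ofReal C * ∫⁻ y in Kr P r, ENNReal.ofReal (Kq F y) ∂μ := by
  obtain ⟨C, hC, hd⟩ := dyadic_real
  refine ⟨C, hC, ?_⟩
  intro F μ μ' P r hμ hμ' hl
  have p1 : IsProbabilityMeasure μ := ⟨hμ.prob⟩
  have p2 : IsProbabilityMeasure μ' := ⟨hμ'.prob⟩
  have hG : ∀ j : ℕ, Measurable (fun y : V => ∫⁻ y', TF_g F ((1 / 2 : ℝ) ^ j) (y, y') ∂μ') :=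
    fun j => (TF_g_meas F ((1 / 2 : ℝ) ^ j)).lintegral_prod_right'
  simp_rw [TF_L1]
  rw [← lintegral_tsum (fun j => (hG j).aemeasurable), ← lintegral_const_mul' _ _
    ENNReal.ofReal_ne_top]
  refine lintegral_mono_ae ?_
  have hs : ∀ᵐ y ∂(μ.restrict (Kr P r)), N y = 1 := ae_restrict_of_ae hμ.sphere
  filter_upwards [hs] with y hy
  have hin : ∀ j : ℕ, Measurable (fun y' : V => TF_g F ((1 / 2 : ℝ) ^ j) (y, y')) :=
    fun j => (TF_g_meas F ((1 / 2 : ℝ) ^ j)).comp measurable_prodMk_left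
  rw [← lintegral_tsum (fun j => (hin j).aemeasurable)]
  have h1 : ∫⁻ y', ∑' j : ℕ, TF_g F ((1 / 2 : ℝ) ^ j) (y, y') ∂μ' ≤
      ∫⁻ y', ENNReal.ofReal C * ENNReal.ofReal (Kq F y) *
        ENNReal.ofReal (Complex.normSq (bp (nv F y') y) / (tau y y') ^ 2) ∂μ' := by
    refine lintegral_mono_ae ?_
    filter_upwards [hμ'.sphere] with y' hy'
    exact TF_sum hC hd F hy hy'
  have h2 : ∫⁻ y', ENNReal.ofReal C * ENNReal.ofReal (Kq F y) *
        ENNReal.ofReal (Complex.normSq (bp (nv F y') y) / (tau y y') ^ 2) ∂μ' =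
      ENNReal.ofReal C * ENNReal.ofReal (Kq F y) *
        ∫⁻ y', ENNReal.ofReal (Complex.normSq (bp (nv F y') y) / (tau y y') ^ 2) ∂μ' :=
    lintegral_const_mul' _ _ (ENNReal.mul_ne_top ENNReal.ofReal_ne_top ENNReal.ofReal_ne_top)
  have h3 : ENNReal.ofReal C * ENNReal.ofReal (Kq F y) *
        ∫⁻ y', ENNReal.ofReal (Complex.normSq (bp (nv F y') y) / (tau y y') ^ 2) ∂μ' ≤
      ENNReal.ofReal C * ENNReal.ofReal (Kq F y) * 1 := by
    gcongr
    exact hl y hy
  rw [mul_one] at h3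
  exact h1.trans (h2.le.trans h3)

end FT76

end S_H76_FT_TF

section S_H76_FT_TG

/-!
# Row TG: the truncated energy is o(log 1/ε) when all Lelong numbers off Sing vanish

n := μ + μ', n(V) = 2.  Layer cake, for unit y: `(t + ε^2)⁻¹ = (1+ε^2)⁻¹ + ∫_{√t}^1 2s/(s^2+ε^2)^2 ds` for 0 <= t <= 1, so (Tonelli)
`∫ (tau y y' + ε^2)⁻¹ dn(y') ≤ 2 + ∫_0^1 n{tau y · < s^2} 2s/(s^2+ε^2)^2 ds` (√t < s iff t < s^2; up to the null set of s with equality).
θ_y(s) := n{tau y · < s^2}/s^2 ≤ 8 (mass bounds, `tau_symm`), → 0 as s → 0 for n-a.e. y (`ZeroLelongAll` for both measures; y unit, eta F y ≠ 0 a.e.).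
J(y,ε) := ∫_0^1 θ_y(s) 2 s^3/(s^2+ε^2)^2 ds.  For β in (0,1): `J ≤ (sup_{s<β} θ_y(s)) ∫_0^1 2s^3/(s^2+ε^2)^2 ds + 8 ∫_β^1 2/s ds` and `∫_0^1 2 s^3/(s^2+ε^2)^2 ds ≤ ∫_0^1 2s/(s^2+ε^2) ds = log ((1+ε^2)/ε^2) ≤ 2 log(1/ε) + 1`.
So `J(y,ε)/log(1/ε) → 0` for a.e. y, and `≤ 8 * 3` for ε <= e^(-1): dominated convergence: `∫ J(y,ε) dn(y) = o(log 1/ε)`.
`En n P r ε ≤ ∫ (2 + J(y,ε)) dn(y) ≤ 4 + o(log 1/ε)` (the integrand of `En` is nonnegative; bounded by ε^(-2)).
A discrete alternative to the layer cake: dyadic shells `tau ∈ [4^(-(i+1)), 4^(-i))`, i < I ~ log_4(1/ε^2), on which `(tau + ε^2)⁻¹ ≤ 4^(i+1)` and the mass is `≤ θ_y(2^(-i)) 4^(-i)`, plus the core `tau < 4^(-I) ≤ 4 ε^2` with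
contribution `≤ ε^(-2) 8 * 4 ε^2`: `∫ (tau + ε^2)⁻¹ dn ≤ 32 + 4 ∑_{i<I} θ_y(2^(-i))`, and the Cesàro mean of a sequence tending to 0 tends to 0 (`Filter.Tendsto.cesaro`); dominated convergence for the Cesàro means
(`≤ 8`), I ≤ C log(1/ε).  This avoids one-variable integrals and is recommended.
-/

open MeasureTheory Filter Topology
open scoped ContDiff BigOperators ComplexConjugate Matrix

namespace FT76

open Pool.Agent.H85.DC

theorem TG_pt {t ε : ℝ} (h0 : 0 ≤ t) (h1 : t ≤ 1) (hε : 0 < ε) (I : ℕ) :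
    (t + ε ^ 2)⁻¹ ≤ 1 + ∑ i ∈ Finset.range I, (4 : ℝ) ^ (i + 1) * (if t < (1 / 4) ^ i then 1 else 0) +
      (ε ^ 2)⁻¹ * (if t < (1 / 4) ^ I then 1 else 0) := by
  have hε2 : 0 < ε ^ 2 := by positivity
  have hA : (t + ε ^ 2)⁻¹ ≤ (ε ^ 2)⁻¹ := inv_anti₀ hε2 (by linarith)
  have hs : ∀ I : ℕ, 0 ≤ ∑ i ∈ Finset.range I, (4 : ℝ) ^ (i + 1) * (if t < (1 / 4) ^ i then 1 else 0) := by
    intro I
    refine Finset.sum_nonneg fun i _ => mul_nonneg (by positivity) ?_
    split_ifs <;> norm_num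
  induction I with
  | zero =>
    simp only [Finset.range_zero, Finset.sum_empty, pow_zero, add_zero]
    split_ifs with h
    · rw [mul_one]
      linarith
    · have h2 : t = 1 := le_antisymm h1 (not_lt.1 h)
      rw [mul_zero, add_zero, h2]
      exact inv_le_one_of_one_le₀ (by linarith)
  | succ I ih =>
    by_cases h : t < (1 / 4) ^ (I + 1)
    · rw [if_pos h, mul_one]
      have := hs (I + 1)
      linarith
    · rw [if_neg h, mul_zero, add_zero, Finset.sum_range_succ]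
      by_cases h' : t < (1 / 4) ^ I
      · rw [if_pos h', mul_one]
        have h2 : (1 / 4 : ℝ) ^ (I + 1) ≤ t := not_lt.1 h
        have h3 : (t + ε ^ 2)⁻¹ ≤ ((1 / 4 : ℝ) ^ (I + 1))⁻¹ := inv_anti₀ (by positivity) (by linarith)
        rw [one_div, inv_pow, inv_inv] at h3
        have := hs I
        linarith
      · rw [if_neg h', mul_zero, add_zero] at ih
        rw [if_neg h', mul_zero, add_zero]
        exact ih

/-- the normalised mass of the ball of radius `2^{-i}` -/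
noncomputable def TG_th (n : Measure V) (i : ℕ) (y : V) : ℝ :=
  4 ^ i * (n {y' : V | tau y y' < (1 / 4 : ℝ) ^ i}).toReal

theorem TG_meas (n : Measure V) [SFinite n] (i : ℕ) : Measurable (TG_th n i) := by
  unfold TG_th
  have hs : MeasurableSet {q : V × V | tau q.1 q.2 < (1 / 4 : ℝ) ^ i} :=
    measurableSet_lt measurable_tau measurable_const
  have h1 : Measurable (fun y : V => n (Prod.mk y ⁻¹' {q : V × V | tau q.1 q.2 < (1 / 4 : ℝ) ^ i})) :=
    measurable_measure_prodMk_left hs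
  exact (h1.ennreal_toReal).const_mul _

theorem TG_nonneg (n : Measure V) (i : ℕ) (y : V) : 0 ≤ TG_th n i y :=
  mul_nonneg (by positivity) ENNReal.toReal_nonneg

theorem TG_quarter (i : ℕ) : ((1 / 2 : ℝ) ^ i) ^ 2 = (1 / 4) ^ i := by
  rw [← pow_mul, mul_comm, pow_mul]
  norm_num

theorem TG_le {n : Measure V} {y : V}
    (hm : ∀ s : ℝ, 0 < s → (n {y' : V | tau y y' < s ^ 2}).toReal ≤ 8 * s ^ 2) (i : ℕ) :
    TG_th n i y ≤ 8 := by
  have h1 := hm ((1 / 2) ^ i) (by positivity)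
  rw [TG_quarter] at h1
  unfold TG_th
  calc (4 : ℝ) ^ i * (n {y' : V | tau y y' < (1 / 4 : ℝ) ^ i}).toReal ≤ 4 ^ i * (8 * (1 / 4) ^ i) := by gcongr
    _ = 8 * (4 * (1 / 4)) ^ i := by rw [mul_pow]; ring
    _ = 8 := by norm_num

theorem TG_inner {n : Measure V} [IsFiniteMeasure n] (hn : (n Set.univ).toReal = 2) {y : V}
    (hm : ∀ s : ℝ, 0 < s → (n {y' : V | tau y y' < s ^ 2}).toReal ≤ 8 * s ^ 2) {ε : ℝ} (hε : 0 < ε) {I : ℕ}
    (hI : (1 / 4 : ℝ) ^ I ≤ ε ^ 2) (K : Set V) :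
    ∫ y' in K, (tau y y' + ε ^ 2)⁻¹ ∂n ≤ 10 + 4 * ∑ i ∈ Finset.range I, TG_th n i y := by
  have hε2 : 0 < ε ^ 2 := by positivity
  have htm : Measurable (fun y' : V => tau y y') := measurable_tau.of_uncurry_left
  have hfm : Measurable (fun y' : V => (tau y y' + ε ^ 2)⁻¹) := (htm.add_const _).inv
  have hf0 : ∀ y' : V, 0 ≤ (tau y y' + ε ^ 2)⁻¹ := fun y' =>
    inv_nonneg.2 (add_nonneg (tau_nonneg y y') hε2.le)
  have hfi : Integrable (fun y' : V => (tau y y' + ε ^ 2)⁻¹) n := by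
    refine (integrable_const ((ε ^ 2)⁻¹ : ℝ)).mono' hfm.aestronglyMeasurable
      (Filter.Eventually.of_forall fun y' => ?_)
    rw [Real.norm_of_nonneg (hf0 y')]
    exact inv_anti₀ hε2 (by linarith [tau_nonneg y y'])
  have hSm : ∀ i : ℕ, MeasurableSet {y' : V | tau y y' < (1 / 4 : ℝ) ^ i} := fun i =>
    measurableSet_lt htm measurable_const
  have hSi : ∀ (i : ℕ) (b : ℝ), Integrable
      (fun y' : V => b * Set.indicator {y' : V | tau y y' < (1 / 4 : ℝ) ^ i} (fun _ => (1 : ℝ)) y') n :=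
    fun i b => ((integrable_const (1 : ℝ)).indicator (hSm i)).const_mul b
  have hSI : ∀ (i : ℕ) (b : ℝ),
      ∫ y', b * Set.indicator {y' : V | tau y y' < (1 / 4 : ℝ) ^ i} (fun _ => (1 : ℝ)) y' ∂n =
      b * (n {y' : V | tau y y' < (1 / 4 : ℝ) ^ i}).toReal := by
    intro i b
    rw [integral_const_mul, integral_indicator_const _ (hSm i), smul_eq_mul, mul_one]
    rfl
  have hind : ∀ (i : ℕ) (y' : V), Set.indicator {y' : V | tau y y' < (1 / 4 : ℝ) ^ i}
      (fun _ => (1 : ℝ)) y' = if tau y y' < (1 / 4 : ℝ) ^ i then 1 else 0 := by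
    intro i y'
    by_cases h : tau y y' < (1 / 4 : ℝ) ^ i
    · rw [if_pos h]
      exact Set.indicator_of_mem (s := {y' : V | tau y y' < (1 / 4 : ℝ) ^ i}) h _
    · rw [if_neg h]
      exact Set.indicator_of_notMem (s := {y' : V | tau y y' < (1 / 4 : ℝ) ^ i}) h _
  have hpt : ∀ y' : V, (tau y y' + ε ^ 2)⁻¹ ≤ (1 + ∑ i ∈ Finset.range I, (4 : ℝ) ^ (i + 1) *
      Set.indicator {y' : V | tau y y' < (1 / 4 : ℝ) ^ i} (fun _ => (1 : ℝ)) y') +
      (ε ^ 2)⁻¹ * Set.indicator {y' : V | tau y y' < (1 / 4 : ℝ) ^ I} (fun _ => (1 : ℝ)) y' := by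
    intro y'
    have h1 := TG_pt (tau_nonneg y y') (tau_le_one y y') hε I
    simp only [hind]
    exact h1
  have hgi1 : Integrable (fun y' : V => ∑ i ∈ Finset.range I, (4 : ℝ) ^ (i + 1) *
      Set.indicator {y' : V | tau y y' < (1 / 4 : ℝ) ^ i} (fun _ => (1 : ℝ)) y') n :=
    integrable_finsetSum _ fun i _ => hSi i _
  have hgi2 : Integrable (fun y' : V => (1 : ℝ) + ∑ i ∈ Finset.range I, (4 : ℝ) ^ (i + 1) *
      Set.indicator {y' : V | tau y y' < (1 / 4 : ℝ) ^ i} (fun _ => (1 : ℝ)) y') n :=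
    (integrable_const (1 : ℝ)).add hgi1
  calc ∫ y' in K, (tau y y' + ε ^ 2)⁻¹ ∂n ≤ ∫ y', (tau y y' + ε ^ 2)⁻¹ ∂n :=
        setIntegral_le_integral hfi (Filter.Eventually.of_forall hf0)
    _ ≤ ∫ y', ((1 + ∑ i ∈ Finset.range I, (4 : ℝ) ^ (i + 1) *
      Set.indicator {y' : V | tau y y' < (1 / 4 : ℝ) ^ i} (fun _ => (1 : ℝ)) y') +
      (ε ^ 2)⁻¹ * Set.indicator {y' : V | tau y y' < (1 / 4 : ℝ) ^ I} (fun _ => (1 : ℝ)) y') ∂n :=
        integral_mono hfi (hgi2.add (hSi I _)) hpt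
    _ = 2 + ∑ i ∈ Finset.range I, (4 : ℝ) ^ (i + 1) * (n {y' : V | tau y y' < (1 / 4 : ℝ) ^ i}).toReal +
        (ε ^ 2)⁻¹ * (n {y' : V | tau y y' < (1 / 4 : ℝ) ^ I}).toReal := by
        rw [integral_add hgi2 (hSi I _), integral_add (integrable_const _) hgi1,
          integral_finsetSum _ (fun i _ => hSi i _), hSI, integral_const, smul_eq_mul, mul_one]
        congr 1
        congr 1
        exact Finset.sum_congr rfl fun i _ => hSI i _
    _ ≤ 10 + 4 * ∑ i ∈ Finset.range I, TG_th n i y := by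
        have h1 : (ε ^ 2)⁻¹ * (n {y' : V | tau y y' < (1 / 4 : ℝ) ^ I}).toReal ≤ 8 := by
          have h2 := hm ((1 / 2) ^ I) (by positivity)
          rw [TG_quarter] at h2
          rw [inv_mul_le_iff₀ hε2]
          linarith
        have h3 : ∑ i ∈ Finset.range I, (4 : ℝ) ^ (i + 1) *
            (n {y' : V | tau y y' < (1 / 4 : ℝ) ^ i}).toReal =
            4 * ∑ i ∈ Finset.range I, TG_th n i y := by
          rw [Finset.mul_sum]
          refine Finset.sum_congr rfl fun i _ => ?_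
          unfold TG_th
          ring
        rw [h3]
        linarith

theorem TG_tendsto {n : Measure V} [IsFiniteMeasure n]
    (hm : ∀ᵐ y ∂n, ∀ s : ℝ, 0 < s → (n {y' : V | tau y y' < s ^ 2}).toReal ≤ 8 * s ^ 2)
    (hz : ∀ᵐ y ∂n, Tendsto (fun i => TG_th n i y) atTop (𝓝 0)) :
    Tendsto (fun i => ∫ y, TG_th n i y ∂n) atTop (𝓝 0) := by
  have h := tendsto_integral_of_dominated_convergence (μ := n) (F := fun i y => TG_th n i y)
    (f := fun _ => (0 : ℝ)) (fun _ => (8 : ℝ)) (fun i => (TG_meas n i).aestronglyMeasurable)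
    (integrable_const _) (fun i => by
      filter_upwards [hm] with y hy
      rw [Real.norm_of_nonneg (TG_nonneg n i y)]
      exact TG_le hy i) hz
  simpa using h

theorem TG_I {ε L : ℝ} (hε : 0 < ε) (hL : L = Real.log (1 / ε)) (hL0 : 0 < L) :
    ∃ I : ℕ, (1 / 4 : ℝ) ^ I ≤ ε ^ 2 ∧ L ≤ I ∧ (I : ℝ) ≤ 2 * L + 1 := by
  have hl1 := Real.log_two_gt_d9
  have hl2 := Real.log_two_lt_d9
  refine ⟨⌈L / Real.log 2⌉₊, ?_, ?_, ?_⟩
  · set I := ⌈L / Real.log 2⌉₊ with hI
    have h1 : L / Real.log 2 ≤ I := Nat.le_ceil _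
    have h2 : L ≤ I * Real.log 2 := by
      rwa [div_le_iff₀ (by linarith)] at h1
    have h3 : 1 / ε ≤ 2 ^ I := by
      have h4 := Real.exp_le_exp.2 h2
      rw [hL, Real.exp_log (by positivity)] at h4
      calc 1 / ε ≤ Real.exp (I * Real.log 2) := h4
        _ = 2 ^ I := by
          rw [mul_comm, Real.exp_mul, Real.exp_log (by norm_num), Real.rpow_natCast]
    have h5 : (1 / 2 : ℝ) ^ I ≤ ε := by
      rw [one_div, inv_pow]
      exact inv_le_of_inv_le₀ hε (by rwa [one_div] at h3)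
    rw [← TG_quarter]
    exact pow_le_pow_left₀ (by positivity) h5 2
  · have h1 : L / Real.log 2 ≤ (⌈L / Real.log 2⌉₊ : ℝ) := Nat.le_ceil _
    refine le_trans ?_ h1
    rw [le_div_iff₀ (by linarith)]
    nlinarith
  · have h1 := (Nat.ceil_lt_add_one (a := L / Real.log 2) (by positivity)).le
    refine h1.trans ?_
    have h2 : L / Real.log 2 ≤ 2 * L := by
      rw [div_le_iff₀ (by linarith)]
      nlinarith
    linarith

theorem en_small2 {F : Fin 3 → MvPolynomial (Fin 3) ℂ} {P : Finset V} {μ μ' : Measure V} (hμ : IsCur F μ)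
    (hμ' : IsCur F μ')
    (hm : ∀ (y : V) (s : ℝ), N y = 1 → 0 < s → (μ {x | tau x y < s ^ 2}).toReal ≤ 4 * s ^ 2)
    (hm' : ∀ (y : V) (s : ℝ), N y = 1 → 0 < s → (μ' {x | tau x y < s ^ 2}).toReal ≤ 4 * s ^ 2)
    (hz : ZeroLelongAll F μ) (hz' : ZeroLelongAll F μ') {r η : ℝ} (hη : 0 < η) :
    ∃ ε0 : ℝ, 0 < ε0 ∧ ∀ ε : ℝ, 0 < ε → ε < ε0 → En (μ + μ') P r ε ≤ η * Real.log (1 / ε) := by
  have hp : IsProbabilityMeasure μ := ⟨hμ.prob⟩
  have hp' : IsProbabilityMeasure μ' := ⟨hμ'.prob⟩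
  obtain ⟨n, hn⟩ : ∃ n : Measure V, n = μ + μ' := ⟨_, rfl⟩
  have hfin : IsFiniteMeasure n := by
    rw [hn]
    infer_instance
  rw [← hn]
  have hadd : ∀ S : Set V, (n S).toReal = (μ S).toReal + (μ' S).toReal := by
    intro S
    rw [hn, Measure.add_apply, ENNReal.toReal_add (measure_ne_top _ _) (measure_ne_top _ _)]
  have hn2 : (n Set.univ).toReal = 2 := by
    rw [hadd, hμ.prob, hμ'.prob]
    norm_num
  have hae : ∀ᵐ y ∂n, N y = 1 ∧ eta F y ≠ 0 := by
    rw [hn, ae_add_measure_iff]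
    refine ⟨?_, ?_⟩
    · filter_upwards [hμ.sphere, hμ.sing] with y h2 h3 using ⟨h2, h3⟩
    · filter_upwards [hμ'.sphere, hμ'.sing] with y h2 h3 using ⟨h2, h3⟩
  have hmass : ∀ (y : V) (s : ℝ), N y = 1 → 0 < s →
      (n {y' : V | tau y y' < s ^ 2}).toReal ≤ 8 * s ^ 2 := by
    intro y s hy hs
    have h1 := hm y s hy hs
    have h2 := hm' y s hy hs
    have h3 : {x : V | tau x y < s ^ 2} = {y' : V | tau y y' < s ^ 2} := by
      ext x
      rw [Set.mem_ofPred_eq, Set.mem_ofPred_eq, tau_symm]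
    rw [h3] at h1 h2
    rw [hadd]
    linarith
  have hmae : ∀ᵐ y ∂n, ∀ s : ℝ, 0 < s → (n {y' : V | tau y y' < s ^ 2}).toReal ≤ 8 * s ^ 2 := by
    filter_upwards [hae] with y hy s hs using hmass y s hy.1 hs
  have hzae : ∀ᵐ y ∂n, Tendsto (fun i => TG_th n i y) atTop (𝓝 0) := by
    filter_upwards [hae] with y hy
    have h1 := (hz y hy.1 hy.2).add (hz' y hy.1 hy.2)
    have h2 : Tendsto (fun i : ℕ => (1 / 2 : ℝ) ^ i) atTop (𝓝[>] 0) :=
      tendsto_pow_atTop_nhdsWithin_zero_of_lt_one (by norm_num) (by norm_num)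
    have h3 := h1.comp h2
    rw [add_zero] at h3
    refine h3.congr fun i => ?_
    simp only [Function.comp_apply]
    rw [TG_quarter]
    unfold TG_th
    rw [hadd, ← add_div, div_eq_mul_inv, ← inv_pow, mul_comm]
    norm_num
  have hTh := TG_tendsto hmae hzae
  have hces := hTh.cesaro
  have hη16 : 0 < η / 16 := by positivity
  obtain ⟨I0, hI0⟩ := (hces.eventually (gt_mem_nhds hη16)).exists_forall_of_atTop
  refine ⟨Real.exp (-(max (I0 : ℝ) (40 / η + 1))), Real.exp_pos _, fun ε hε hεlt => ?_⟩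
  obtain ⟨L, hL⟩ : ∃ L : ℝ, L = Real.log (1 / ε) := ⟨_, rfl⟩
  have hLM : max (I0 : ℝ) (40 / η + 1) < L := by
    have h1 := Real.log_lt_log hε hεlt
    rw [Real.log_exp] at h1
    rw [hL, one_div, Real.log_inv]
    linarith
  have hL1 : (I0 : ℝ) < L := (le_max_left _ _).trans_lt hLM
  have hL2 : 40 / η + 1 < L := (le_max_right _ _).trans_lt hLM
  have hL0 : 0 < L := lt_of_le_of_lt (Nat.cast_nonneg _) hL1
  obtain ⟨I, hI1, hI2, hI3⟩ := TG_I hε hL hL0
  have hII : I0 ≤ I := by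
    have : (I0 : ℝ) ≤ I := hL1.le.trans hI2
    exact_mod_cast this
  have hIpos : (0 : ℝ) < I := hL0.trans_le hI2
  have hsum : ∑ i ∈ Finset.range I, ∫ y, TG_th n i y ∂n ≤ η / 16 * I := by
    have h1 := (hI0 I hII).le
    rw [inv_mul_le_iff₀ hIpos] at h1
    linarith
  have hthi : ∀ i, Integrable (TG_th n i) n := by
    intro i
    refine (integrable_const (8 : ℝ)).mono' (TG_meas n i).aestronglyMeasurable ?_
    filter_upwards [hmae] with y hy
    rw [Real.norm_of_nonneg (TG_nonneg n i y)]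
    exact TG_le hy i
  have hGi1 : Integrable (fun y => 4 * ∑ i ∈ Finset.range I, TG_th n i y) n :=
    (integrable_finsetSum _ fun i _ => hthi i).const_mul 4
  have hGi : Integrable (fun y => 10 + 4 * ∑ i ∈ Finset.range I, TG_th n i y) n :=
    (integrable_const (10 : ℝ)).add hGi1
  have hG0 : ∀ y, 0 ≤ 10 + 4 * ∑ i ∈ Finset.range I, TG_th n i y := by
    intro y
    have := Finset.sum_nonneg (fun i (_ : i ∈ Finset.range I) => TG_nonneg n i y)
    linarith
  have hEn : En n P r ε ≤ 20 + 4 * ∑ i ∈ Finset.range I, ∫ y, TG_th n i y ∂n := by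
    unfold En
    calc ∫ y in Kr P r, ∫ y' in Kr P r, (tau y y' + ε ^ 2)⁻¹ ∂n ∂n
        ≤ ∫ y in Kr P r, (10 + 4 * ∑ i ∈ Finset.range I, TG_th n i y) ∂n := by
          refine integral_mono_of_nonneg (Filter.Eventually.of_forall fun y => ?_) hGi.restrict ?_
          · exact integral_nonneg fun y' => inv_nonneg.2 (add_nonneg (tau_nonneg y y') (sq_nonneg ε))
          · refine ae_restrict_of_ae ?_
            filter_upwards [hmae] with y hy
            exact TG_inner hn2 hy hε hI1 _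
      _ ≤ ∫ y, (10 + 4 * ∑ i ∈ Finset.range I, TG_th n i y) ∂n :=
          setIntegral_le_integral hGi (Filter.Eventually.of_forall hG0)
      _ = _ := by
          rw [integral_add (integrable_const _) hGi1, integral_const_mul,
            integral_finsetSum _ (fun i _ => hthi i), integral_const]
          congr 1
          rw [smul_eq_mul]
          show (n Set.univ).toReal * 10 = 20
          rw [hn2]
          norm_num
  have hηL : 40 ≤ η * L - η := by
    have h1 : 40 / η ≤ L - 1 := by linarith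
    rw [div_le_iff₀ hη] at h1
    linarith
  calc En n P r ε ≤ 20 + 4 * ∑ i ∈ Finset.range I, ∫ y, TG_th n i y ∂n := hEn
    _ ≤ 20 + 4 * (η / 16 * I) := by gcongr
    _ ≤ 20 + 4 * (η / 16 * (2 * L + 1)) := by gcongr
    _ ≤ η * L := by linarith
    _ = η * Real.log (1 / ε) := by rw [hL]

end FT76

end S_H76_FT_TG

section S_H85_DC_Mb

/-!
# Row Mb: mass bound for balls

Fix `y` with `N y = 1` and `s > 0`. `u x = log (tau x y + s^2)` (cast to `ℂ`) is a real conic function (`tau` smooth off `0`: `tau = (N x - |ip x y|^2)/N x`, polynomial over `N`).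
Put `G x = N x - |ip x y|^2 + s^2 N x`, a Hermitian form in `x`, positive for `x ≠ 0`; `u = log G - log N` off `0`.
`L (log N) = Wm`, `L (log G) x j k = (h_jk G - g_j conj(g_k))/G^2` with `h_jk = dz_j dzb_k G = (1 + s^2) δ_jk - conj(y_j) y_k`, `g_j = dz j G x = ∑_k h_jk conj(x_k)`.
For a vector `w`: `quad (L (log G) x) w = (G(w) G(x) - |G(w,x)|^2)/G(x)^2`, `G(w,x) = ∑ h_jk w_j conj(x_k) = (1+s^2) ip w x - ip w y * conj (ip x y)`, `G(w) = (1+s^2) N w - |ip w y|^2`.
For an orthonormal pair `(x, w)`: `G(x) = τ + s^2`, `G(w) = 1 - |ip w y|^2 + s^2`, `G(w,x) = - ip w y conj(ip x y)`. So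
`G(w)G(x) - |G(w,x)|^2 = (1 - |ip w y|^2 + s^2)(τ + s^2) - |ip w y|^2 (1 - τ)`. With `a = |ip w y|^2 ≤ τ` (Bessel: `|ip x y|^2 + |ip w y|^2 ≤ 1`, `bessel`), it is
`= τ - a τ + s^2(1 - a) + s^2 τ + s^4 - a + aτ = (τ - a) + s^2 (1 - a + τ) + s^4 ≥ s^2`. (`lower`)
So `quad (L (log G) x) w ≥ s^2/(τ + s^2)^2 ≥ 0`, and `≥ 1/(4 s^2)` when `τ < s^2`.
`DdcClosed` with `u`: `0 = ∫ pr F (L u) dμ = ∫ pr F (L (log G)) dμ - ∫ pr F Wm dμ`, `pr F Wm = 1` a.e. (`pr_Wm`), so `∫ pr F (L log G) dμ = 1` and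
`pr F (L log G) x = quad (…) (wv F x) ≥ (1/(4 s^2)) 1_{τ(x,y) < s^2}` a.e. (`pr_eq`: apply it to the form `L u` and to `Wm`; `L (log G) = L u + Wm` is a form). Hence
`μ {tau x y < s^2} ≤ 4 s^2`.
-/

open MeasureTheory
open scoped ContDiff BigOperators ComplexConjugate Matrix

namespace Pool.Agent.H85.DC

noncomputable def Mb_G (s : ℝ) (y x : V) : ℝ := (1 + s ^ 2) * N x - Complex.normSq (ip x y)

noncomputable def Mb_u (s : ℝ) (y x : V) : ℂ := ((Real.log (tau x y + s ^ 2) : ℝ) : ℂ)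

theorem Mb_N (x : V) : (N x : ℂ) = ∑ j, x j * conj (x j) := by
  simp only [N, Complex.ofReal_sum, Complex.mul_conj]

theorem Mb_ip_hom (y : V) : Hom 1 0 (fun x => ip x y) := by
  have h := hom_sum (a := 1) (b := 0) (Finset.univ : Finset (Fin 3)) (fun j x => conj (y j) * x j)
    (fun j _ => hom_const_mul _ (hom_coord j))
  have e : (fun x : V => ∑ i ∈ (Finset.univ : Finset (Fin 3)), conj (y i) * x i) =
      fun x => ip x y := by
    funext x
    exact Finset.sum_congr rfl fun j _ => mul_comm _ _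
  rw [e] at h
  exact h

theorem Mb_Gc (s : ℝ) (y x : V) : ((Mb_G s y x : ℝ) : ℂ) =
    ((1 + s ^ 2 : ℝ) : ℂ) * (N x : ℂ) + (-1) * (ip x y * conj (ip x y)) := by
  unfold Mb_G
  rw [Complex.ofReal_sub, Complex.ofReal_mul, ← Complex.mul_conj]
  ring

theorem Mb_hom_G (s : ℝ) (y : V) : Hom 1 1 (fun x => ((Mb_G s y x : ℝ) : ℂ)) := by
  have h1 := hom_const_mul ((1 + s ^ 2 : ℝ) : ℂ) hom_N
  have h2 : Hom 1 1 (fun x => ip x y * conj (ip x y)) := by
    have := hom_mul (Mb_ip_hom y) (hom_conj (Mb_ip_hom y))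
    simpa using this
  have h3 := hom_add h1 (hom_const_mul (-1) h2)
  have e : (fun x : V => ((Mb_G s y x : ℝ) : ℂ)) = fun x =>
      ((1 + s ^ 2 : ℝ) : ℂ) * (N x : ℂ) + (-1) * (ip x y * conj (ip x y)) := by
    funext x
    exact Mb_Gc s y x
  rw [e]
  exact h3

theorem Mb_G_pos {s : ℝ} (hs : 0 < s) {y : V} (hy : N y = 1) {x : V} (hx : x ≠ 0) :
    0 < Mb_G s y x := by
  have h1 := cs_ip x y
  rw [hy, mul_one] at h1
  have h2 := N_pos hx
  unfold Mb_G
  have h3 : 0 < s ^ 2 * N x := by positivity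
  nlinarith

theorem Mb_tau {s : ℝ} {y : V} (hy : N y = 1) {x : V} (hx : x ≠ 0) :
    tau x y + s ^ 2 = Mb_G s y x / N x := by
  have h2 := N_pos hx
  unfold tau Mb_G
  rw [hy, mul_one]
  field_simp
  ring

theorem Mb_dz_ip (y : V) (j : Fin 3) (x : V) : dz j (fun x => ip x y) x = conj (y j) := by
  have e : (fun x : V => ip x y) = fun x => ∑ i ∈ (Finset.univ : Finset (Fin 3)), conj (y i) * x i := by
    funext x
    exact Finset.sum_congr rfl fun j _ => mul_comm _ _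
  have hd : ∀ i : Fin 3, DifferentiableAt ℝ (fun z : V => z i) x := fun i => by fun_prop
  rw [e, dz_sum j _ (fun i x => conj (y i) * x i) (fun i _ => (hd i).const_mul _)]
  simp only [dz_const_mul j _ (hd _), dz_coord]
  simp

theorem Mb_dzb_ip (y : V) (j : Fin 3) (x : V) : dzb j (fun x => ip x y) x = 0 := by
  have e : (fun x : V => ip x y) = fun x => ∑ i ∈ (Finset.univ : Finset (Fin 3)), conj (y i) * x i := by
    funext x
    exact Finset.sum_congr rfl fun j _ => mul_comm _ _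
  have hd : ∀ i : Fin 3, DifferentiableAt ℝ (fun z : V => z i) x := fun i => by fun_prop
  rw [e, dzb_sum j _ (fun i x => conj (y i) * x i) (fun i _ => (hd i).const_mul _)]
  simp only [dzb_const_mul j _ (hd _), dzb_coord]
  simp

theorem Mb_dz_cip (y : V) (j : Fin 3) (x : V) : dz j (fun x => conj (ip x y)) x = 0 := by
  rw [← conj_dzb, Mb_dzb_ip, map_zero]

theorem Mb_dzb_cip (y : V) (j : Fin 3) (x : V) : dzb j (fun x => conj (ip x y)) x = y j := by
  rw [← conj_dz, Mb_dz_ip, Complex.conj_conj]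

theorem Mb_dz_G (s : ℝ) (y : V) (j : Fin 3) {x : V} (hx : x ≠ 0) :
    dz j (fun x => ((Mb_G s y x : ℝ) : ℂ)) x =
      ((1 + s ^ 2 : ℝ) : ℂ) * conj (x j) - conj (y j) * conj (ip x y) := by
  have hd1 := hom_N.diffAt hx
  have hd2 := (Mb_ip_hom y).diffAt hx
  have hd3 := (hom_conj (Mb_ip_hom y)).diffAt hx
  have e : (fun x : V => ((Mb_G s y x : ℝ) : ℂ)) = fun x =>
      ((1 + s ^ 2 : ℝ) : ℂ) * (N x : ℂ) + (-1) * (ip x y * conj (ip x y)) := by
    funext x
    exact Mb_Gc s y x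
  have hd23 : DifferentiableAt ℝ (fun x => ip x y * conj (ip x y)) x := hd2.mul hd3
  rw [e, dz_add j (hd1.const_mul _) (hd23.const_mul _), dz_const_mul j _ hd1,
    dz_const_mul j (-1) hd23, dz_mul j hd2 hd3, dz_N, Mb_dz_ip, Mb_dz_cip]
  ring

theorem Mb_dzb_G (s : ℝ) (y : V) (j : Fin 3) {x : V} (hx : x ≠ 0) :
    dzb j (fun x => ((Mb_G s y x : ℝ) : ℂ)) x =
      ((1 + s ^ 2 : ℝ) : ℂ) * x j + (-1) * (y j * ip x y) := by
  have hd1 := hom_N.diffAt hx
  have hd2 := (Mb_ip_hom y).diffAt hx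
  have hd3 := (hom_conj (Mb_ip_hom y)).diffAt hx
  have e : (fun x : V => ((Mb_G s y x : ℝ) : ℂ)) = fun x =>
      ((1 + s ^ 2 : ℝ) : ℂ) * (N x : ℂ) + (-1) * (ip x y * conj (ip x y)) := by
    funext x
    exact Mb_Gc s y x
  have hd23 : DifferentiableAt ℝ (fun x => ip x y * conj (ip x y)) x := hd2.mul hd3
  rw [e, dzb_add j (hd1.const_mul _) (hd23.const_mul _), dzb_const_mul j _ hd1,
    dzb_const_mul j (-1) hd23, dzb_mul j hd2 hd3, dzb_N, Mb_dzb_ip, Mb_dzb_cip]
  ring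

theorem Mb_real_diff {f : V → ℝ} {x : V} (h : DifferentiableAt ℝ (fun x => ((f x : ℝ) : ℂ)) x) :
    DifferentiableAt ℝ f x := by
  have h1 : DifferentiableAt ℝ (fun x => (((f x : ℝ) : ℂ)).re) x :=
    Complex.reCLM.differentiableAt.comp x h
  simpa using h1

theorem Mb_isFun {s : ℝ} (hs : 0 < s) {y : V} (hy : N y = 1) : IsFun (Mb_u s y) := by
  constructor
  · have h1 : ContDiffOn ℝ ∞ (fun x : V => Mb_G s y x) {0}ᶜ := by
      have := Complex.reCLM.contDiff.comp_contDiffOn (Mb_hom_G s y).smooth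
      simpa [Function.comp_def] using this
    have h2 : ContDiffOn ℝ ∞ (fun x : V => N x) {0}ᶜ := by
      have := Complex.reCLM.contDiff.comp_contDiffOn hom_N.smooth
      simpa [Function.comp_def] using this
    have h3 : ContDiffOn ℝ ∞ (fun x : V => Real.log (Mb_G s y x / N x)) {0}ᶜ := by
      apply ContDiffOn.log
      · exact h1.div h2 (fun x hx => (N_pos hx).ne')
      · intro x hx
        exact (div_pos (Mb_G_pos hs hy hx) (N_pos hx)).ne'
    have h4 : ContDiffOn ℝ ∞ (fun x : V => ((Real.log (Mb_G s y x / N x) : ℝ) : ℂ)) {0}ᶜ :=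
      Complex.ofRealCLM.contDiff.comp_contDiffOn h3
    refine h4.congr fun x hx => ?_
    unfold Mb_u
    rw [Mb_tau hy hx]
  · intro l x hl
    unfold Mb_u
    rw [tau_smul_left hl]

/-- the first derivatives -/
theorem Mb_dzb_u {s : ℝ} (hs : 0 < s) {y : V} (hy : N y = 1) (k : Fin 3) {x : V} (hx : x ≠ 0) :
    dzb k (Mb_u s y) x =
      (((1 + s ^ 2 : ℝ) : ℂ) * x k + (-1) * (y k * ip x y)) * ((Mb_G s y x : ℝ) : ℂ)⁻¹ +
        (-1) * (x k * (N x : ℂ)⁻¹) := by
  have hG := Mb_G_pos hs hy hx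
  have hN := N_pos hx
  have hdG : DifferentiableAt ℝ (Mb_G s y) x := Mb_real_diff ((Mb_hom_G s y).diffAt hx)
  have hdN : DifferentiableAt ℝ N x := Mb_real_diff (hom_N.diffAt hx)
  have e : ∀ z : V, z ≠ 0 → Mb_u s y z =
      ((Real.log (Mb_G s y z) : ℝ) : ℂ) + (-1) * ((Real.log (N z) : ℝ) : ℂ) := by
    intro z hz
    unfold Mb_u
    rw [Mb_tau hy hz, Real.log_div (Mb_G_pos hs hy hz).ne' (N_pos hz).ne']
    push_cast
    ring
  have d1 : DifferentiableAt ℝ (fun z : V => ((Real.log (Mb_G s y z) : ℝ) : ℂ)) x :=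
    Complex.ofRealCLM.differentiableAt.comp x (hdG.log hG.ne')
  have d2 : DifferentiableAt ℝ (fun z : V => ((Real.log (N z) : ℝ) : ℂ)) x :=
    Complex.ofRealCLM.differentiableAt.comp x (hdN.log hN.ne')
  rw [dzb_congr k hx e, dzb_add k d1 (d2.const_mul _), dzb_const_mul k (-1) d2,
    dzb_comp_real k (Real.hasDerivAt_log hG.ne') hdG, dzb_comp_real k (Real.hasDerivAt_log hN.ne') hdN,
    dzb_N, Mb_dzb_G s y k hx]
  push_cast
  ring

theorem Mb_L {s : ℝ} (hs : 0 < s) {y : V} (hy : N y = 1) {x : V} (hx : x ≠ 0) (j k : Fin 3) :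
    L (Mb_u s y) x j k =
      (((1 + s ^ 2 : ℝ) : ℂ) * (if j = k then 1 else 0) - y k * conj (y j)) *
        ((Mb_G s y x : ℝ) : ℂ)⁻¹ -
      (((1 + s ^ 2 : ℝ) : ℂ) * conj (x j) - conj (y j) * conj (ip x y)) *
        (((1 + s ^ 2 : ℝ) : ℂ) * x k - y k * ip x y) / ((Mb_G s y x : ℝ) : ℂ) ^ 2 - Wm x j k := by
  have hG := Mb_G_pos hs hy hx
  have hN := N_pos hx
  have hGc : ((Mb_G s y x : ℝ) : ℂ) ≠ 0 := by exact_mod_cast hG.ne'
  have hNc : ((N x : ℝ) : ℂ) ≠ 0 := by exact_mod_cast hN.ne'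
  have dk := (hom_coord k).diffAt hx
  have dip := (Mb_ip_hom y).diffAt hx
  have dG := (Mb_hom_G s y).diffAt hx
  have dN := hom_N.diffAt hx
  have dGi : DifferentiableAt ℝ (fun z : V => ((Mb_G s y z : ℝ) : ℂ)⁻¹) x := dG.inv hGc
  have dNi : DifferentiableAt ℝ (fun z : V => ((N z : ℝ) : ℂ)⁻¹) x := dN.inv hNc
  have d1 : DifferentiableAt ℝ (fun z : V => ((1 + s ^ 2 : ℝ) : ℂ) * z k + (-1) * (y k * ip z y)) x :=
    (dk.const_mul _).add ((dip.const_mul _).const_mul _)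
  have d2 : DifferentiableAt ℝ (fun z : V => (((1 + s ^ 2 : ℝ) : ℂ) * z k + (-1) * (y k * ip z y)) *
      ((Mb_G s y z : ℝ) : ℂ)⁻¹) x := d1.mul dGi
  have d3 : DifferentiableAt ℝ (fun z : V => z k * ((N z : ℝ) : ℂ)⁻¹) x := dk.mul dNi
  have d4 : DifferentiableAt ℝ (fun z : V => y k * ip z y) x := dip.const_mul _
  show dz j (dzb k (Mb_u s y)) x = _
  rw [dz_congr j hx (g := fun x =>
      (((1 + s ^ 2 : ℝ) : ℂ) * x k + (-1) * (y k * ip x y)) * ((Mb_G s y x : ℝ) : ℂ)⁻¹ +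
        (-1) * (x k * (N x : ℂ)⁻¹)) (fun z hz => Mb_dzb_u hs hy k hz),
    dz_add j d2 (d3.const_mul _), dz_mul j d1 dGi,
    dz_add j (dk.const_mul _) (d4.const_mul _), dz_const_mul j _ dk,
    dz_const_mul j (-1) d4, dz_const_mul j (y k) dip, Mb_dz_ip, dz_coord,
    dz_inv j dG hGc, Mb_dz_G s y j hx, dz_const_mul j (-1) d3, dz_mul j dk dNi, dz_coord,
    dz_inv j dN hNc, dz_N]
  unfold Wm
  field_simp
  ring

theorem Mb_quad {s : ℝ} (hs : 0 < s) {y : V} (hy : N y = 1) {x w : V} (hx : N x = 1)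
    (hw : N w = 1) (hxw : ip w x = 0) :
    quad (L (Mb_u s y) x) w + quad (Wm x) w =
      (((1 + s ^ 2) * (1 + s ^ 2 - Complex.normSq (ip w y) - Complex.normSq (ip x y)) /
        (tau x y + s ^ 2) ^ 2 : ℝ) : ℂ) := by
  have hx0 : x ≠ 0 := by
    rintro rfl
    simp [N] at hx
  have hG := Mb_G_pos hs hy hx0
  have hGt : tau x y + s ^ 2 = Mb_G s y x := by
    rw [Mb_tau hy hx0, hx, div_one]
  have hGc : ((Mb_G s y x : ℝ) : ℂ) ≠ 0 := by exact_mod_cast hG.ne'
  have h1 : quad (L (Mb_u s y) x) w + quad (Wm x) w =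
      (((1 + s ^ 2 : ℝ) : ℂ) * (∑ j, w j * conj (w j)) - ip w y * conj (ip w y)) *
        ((Mb_G s y x : ℝ) : ℂ)⁻¹ -
      (((1 + s ^ 2 : ℝ) : ℂ) * ip w x - ip w y * conj (ip x y)) *
        (((1 + s ^ 2 : ℝ) : ℂ) * conj (ip w x) - conj (ip w y) * ip x y) /
          ((Mb_G s y x : ℝ) : ℂ) ^ 2 := by
    unfold quad
    simp only [Mb_L hs hy hx0]
    rw [← Finset.sum_add_distrib]
    simp only [← Finset.sum_add_distrib]
    simp only [ip, Fin.sum_univ_three]
    simp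
    ring
  rw [h1, hxw, ← Mb_N, hw, hGt]
  have hGv : ((Mb_G s y x : ℝ) : ℂ) = ((1 + s ^ 2 : ℝ) : ℂ) + (-1) * (ip x y * conj (ip x y)) := by
    rw [Mb_Gc, hx]
    simp
  have hmc : ∀ z : ℂ, ((Complex.normSq z : ℝ) : ℂ) = z * conj z := fun z => (Complex.mul_conj z).symm
  rw [Complex.ofReal_div, Complex.ofReal_pow, eq_div_iff (pow_ne_zero 2 hGc)]
  have h2 : ∀ (a b c d : ℂ), ((a * 1 - c * d) * ((Mb_G s y x : ℝ) : ℂ)⁻¹ - b / ((Mb_G s y x : ℝ) : ℂ) ^ 2) *
      ((Mb_G s y x : ℝ) : ℂ) ^ 2 = (a - c * d) * ((Mb_G s y x : ℝ) : ℂ) - b := by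
    intro a b c d
    field_simp
  rw [Complex.ofReal_one, h2, hGv]
  rw [map_zero]
  push_cast
  rw [hmc, hmc]
  ring

theorem mass_bound {F : Fin 3 → MvPolynomial (Fin 3) ℂ} {μ : Measure V} (hμ : IsCur F μ)
    (hd : DdcClosed F μ) {y : V} (hy : N y = 1) {s : ℝ} (hs : 0 < s) :
    (μ {x | tau x y < s ^ 2}).toReal ≤ 4 * s ^ 2 := by
  have hprob : IsProbabilityMeasure μ := ⟨hμ.prob⟩
  have hfun := Mb_isFun hs hy
  have hint : Integrable (pr F (L (Mb_u s y))) μ := pr_int (form_L hfun) hμ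
  have hzero := hd _ hfun
  have hs2 : 0 < s ^ 2 := by positivity
  -- the pointwise identity
  have hpt : ∀ᵐ x ∂μ, ∃ a b : ℝ, 0 ≤ a ∧ a + b ≤ 1 ∧ tau x y = 1 - b ∧
      (pr F (L (Mb_u s y)) x).re + 1 = (1 + s ^ 2) * (1 + s ^ 2 - a - b) / (tau x y + s ^ 2) ^ 2 := by
    filter_upwards [hμ.sphere, hμ.sing] with x hx hsing
    have hw := wv_unit hx hsing
    have ho := wv_orth (F := F) hx
    have hb := bessel hx hw ho (y := y)
    have hq := Mb_quad hs hy hx hw ho
    rw [hy] at hb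
    refine ⟨Complex.normSq (ip (wv F x) y), Complex.normSq (ip x y), Complex.normSq_nonneg _,
      by linarith, by unfold tau; rw [hx, hy]; simp, ?_⟩
    rw [← pr_eq (form_L hfun) hx, ← pr_eq form_Wm hx, pr_Wm hx hsing] at hq
    have := congrArg Complex.re hq
    rw [Complex.add_re, Complex.one_re, Complex.ofReal_re] at this
    exact this
  have hf0 : 0 ≤ᵐ[μ] fun x => (pr F (L (Mb_u s y)) x).re + 1 := by
    filter_upwards [hpt] with x hx
    obtain ⟨a, b, ha, hab, ht, he⟩ := hx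
    simp only [Pi.zero_apply]
    rw [he]
    have : 0 ≤ 1 + s ^ 2 - a - b := by linarith
    positivity
  have hre : Integrable (fun x => (pr F (L (Mb_u s y)) x).re) μ := hint.re
  have hfi : Integrable (fun x => (pr F (L (Mb_u s y)) x).re + 1) μ :=
    hre.add (integrable_const 1)
  have hI : ∫ x, ((pr F (L (Mb_u s y)) x).re + 1) ∂μ = 1 := by
    rw [integral_add hre (integrable_const 1)]
    have h1 : ∫ x, (pr F (L (Mb_u s y)) x).re ∂μ = 0 := by
      have := integral_re hint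
      simp only [RCLike.re_to_complex] at this
      rw [this, hzero, Complex.zero_re]
    rw [h1]
    simp
  have hM := mul_meas_ge_le_integral_of_nonneg hf0 hfi (1 / (4 * s ^ 2))
  rw [hI] at hM
  have hsub : μ {x | tau x y < s ^ 2} ≤
      μ {x | 1 / (4 * s ^ 2) ≤ (pr F (L (Mb_u s y)) x).re + 1} := by
    apply measure_mono_ae
    filter_upwards [hpt] with x hx hxt
    obtain ⟨a, b, ha, hab, ht, he⟩ := hx
    have hxt' : tau x y < s ^ 2 := hxt
    show 1 / (4 * s ^ 2) ≤ (pr F (L (Mb_u s y)) x).re + 1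
    rw [he]
    have ht0 := tau_nonneg x y
    have h3 : 0 < tau x y + s ^ 2 := by positivity
    rw [div_le_div_iff₀ (by positivity) (by positivity), one_mul]
    have h4 : (tau x y + s ^ 2) ^ 2 ≤ (2 * s ^ 2) ^ 2 := by
      apply pow_le_pow_left₀ h3.le
      linarith
    have h5 : s ^ 2 ≤ (1 + s ^ 2) * (1 + s ^ 2 - a - b) := by
      have : s ^ 2 ≤ 1 + s ^ 2 - a - b := by linarith
      nlinarith
    calc (tau x y + s ^ 2) ^ 2 ≤ (2 * s ^ 2) ^ 2 := h4
      _ = s ^ 2 * (4 * s ^ 2) := by ring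
      _ ≤ _ := mul_le_mul_of_nonneg_right h5 (by positivity)
  have h6 : (μ {x | tau x y < s ^ 2}).toReal ≤
      μ.real {x | 1 / (4 * s ^ 2) ≤ (pr F (L (Mb_u s y)) x).re + 1} := by
    unfold Measure.real
    exact ENNReal.toReal_mono (measure_ne_top _ _) hsub
  refine h6.trans ?_
  have h7 : 1 / (4 * s ^ 2) * μ.real {x | 1 / (4 * s ^ 2) ≤ (pr F (L (Mb_u s y)) x).re + 1} ≤ 1 := hM
  rw [div_mul_eq_mul_div, one_mul, div_le_one (by positivity)] at h7
  exact h7

end Pool.Agent.H85.DC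

end S_H85_DC_Mb
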