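import Mathlib
import Pool.Agent.H24.M68.G11
import Pool.Agent.H24.M68.G19
import Pool.Agent.H24.M68.G20
import Pool.Agent.H24.M68.G21

/-! MP_6873ef_an: this file joins several modules to save build time. -/

section S_H76_FT_TI

/-!
# Row TI: decomposition of the loss

From `loss2` and `tay` (constants C, c).  `nullst_Kr`: `c1 (r0/4)^m ≤ N (eta F y)` on `Kr P (r0/4)` (wlog m ≥ 1, c1 ≤ 1).  D := N (cr (nv y) (nv y')) ≤ 1.
Let y ∈ Kr P (r0/4), y' unit, eta F y' ≠ 0 (a.e.), t = tau y y'.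
(i) t ≤ c N (eta F y): `D ≤ C (t IIq + |bp|^2 Kq + t^2/N(eta))`.  `t e^(-t/(8ε^2)) ≤ 16 ε^2 e^(-t/(16ε^2))` (x e^(-x/16) ≤ 16 with x = t/ε^2), `t^2 e^(-t/(8ε^2)) ≤ 256 ε^4 e^(-t/(16 ε^2))` (x^2 e^(-x/16) ≤ 256: (x/16)^2 ≤ e^(x/16)).  So
 `ε^(-4) D e^(-t/(8ε^2)) ≤ C (16 ε^(-2) IIq e^(-t/(16ε^2)) + ε^(-4) |bp|^2 Kq e^(-t/(8ε^2)) + 256 e^(-t/(16ε^2))/N(eta))` and `1/N(eta) ≤ C' r0^(-m)`, `e^(-t/(16 ε^2))/N(eta) ≤ C' r0^(-m) ε^2 * (ε^(-2) (1 + IIq) e^(-t/(16ε^2)))`.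
(ii) t > c N (eta F y) ≥ c' r0^m: `ε^(-4) D e^(-t/(8ε^2)) ≤ ε^(-4) e^(-c' r0^m/(8 ε^2))`.
The term `ε^(-4) ε^2 e^(-t/(8ε^2)) ≤ ε^(-2) (1 + IIq) e^(-t/(16ε^2))`.  Finally `e^(-r0/(4ε^2)) ≤ e^(-c'' r0^m/ε^2)` for c'' ≤ 1/4, m ≥ 1, r0 ≤ 1, and ε^(-4) ≤ ε^(-8).  Integrate (everything in `∫⁻`; `lintegral_mono_ae`, `lintegral_add_left`;
 measurability from TA and `measurable_tau`; the integral over `Kr` is at most the one over V).
-/

open MeasureTheory Filter Topology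
open scoped ContDiff BigOperators ComplexConjugate Matrix

namespace FT76

open Pool.Agent.H85.DC


theorem TI_x1 {x : ℝ} (_hx : 0 ≤ x) : x * Real.exp (-x) ≤ 1 := by
  have h1 := Real.add_one_le_exp x
  have h2 : x ≤ Real.exp x := by linarith
  calc x * Real.exp (-x) ≤ Real.exp x * Real.exp (-x) :=
        mul_le_mul_of_nonneg_right h2 (Real.exp_pos _).le
    _ = 1 := by rw [← Real.exp_add]; simp

theorem TI_x2 {x : ℝ} (hx : 0 ≤ x) : x ^ 2 * Real.exp (-x) ≤ 4 := by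
  have h1 := TI_x1 (x := x / 2) (by linarith)
  have h2 : 0 ≤ x / 2 * Real.exp (-(x / 2)) := mul_nonneg (by linarith) (Real.exp_pos _).le
  have h3 : (x / 2 * Real.exp (-(x / 2))) ^ 2 ≤ 1 := by nlinarith
  have h4 : (x / 2 * Real.exp (-(x / 2))) ^ 2 = x ^ 2 * Real.exp (-x) / 4 := by
    rw [mul_pow, ← Real.exp_nat_mul]
    have : ((2 : ℕ) : ℝ) * -(x / 2) = -x := by push_cast; ring
    rw [this]; ring
  rw [h4] at h3
  linarith

set_option maxHeartbeats 1000000 in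
theorem TI_point {ε r0 t e D I K b Ct ct c2 : ℝ} {m : ℕ} (hε : 0 < ε) (hε1 : ε ≤ 1) (hr : 0 < r0)
    (ht : 0 ≤ t) (he : 0 < e) (hD1 : D ≤ 1) (hI : 0 ≤ I) (hK : 0 ≤ K) (hb : 0 ≤ b)
    (hCt : 0 < Ct) (hct : 0 < ct) (hc2 : 0 < c2) (hce : c2 * r0 ^ m ≤ e)
    (htay : t ≤ ct * e → D ≤ Ct * (t * I + b * K + t ^ 2 / e)) :
    ε⁻¹ ^ 4 * (D + ε ^ 2) * Real.exp (-t / (8 * ε ^ 2)) ≤
      Ct * (ε⁻¹ ^ 4 * K * b * Real.exp (-t / (8 * ε ^ 2))) +
      (16 * Ct + 1024 * Ct / c2 + 1) * (1 + r0⁻¹ ^ m * ε ^ 2) *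
        (ε⁻¹ ^ 2 * (1 + I) * Real.exp (-t / (16 * ε ^ 2))) +
      ε⁻¹ ^ 8 * Real.exp (-(ct * c2 / 8 * r0 ^ m) / ε ^ 2) := by
  have hε2 : 0 < ε ^ 2 := by positivity
  set E := Real.exp (-t / (16 * ε ^ 2)) with hE
  have hE0 : 0 < E := Real.exp_pos _
  have hE1 : E ≤ 1 := Real.exp_le_one_iff.2 (by
    rw [neg_div]
    have : 0 ≤ t / (16 * ε ^ 2) := by positivity
    linarith)
  have h8 : Real.exp (-t / (8 * ε ^ 2)) = E * E := by
    rw [hE, ← Real.exp_add]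
    congr 1
    field_simp
    ring
  have hx : 0 ≤ t / (16 * ε ^ 2) := by positivity
  have hEx : E = Real.exp (-(t / (16 * ε ^ 2))) := by rw [hE, neg_div]
  have h16 : t * E ≤ 16 * ε ^ 2 := by
    have h1 := TI_x1 hx
    rw [← hEx] at h1
    have h2 : t / (16 * ε ^ 2) * E = t * E / (16 * ε ^ 2) := by ring
    rw [h2, div_le_one (by positivity)] at h1
    exact h1
  have h256 : t ^ 2 * E ≤ 1024 * ε ^ 4 := by
    have h1 := TI_x2 hx
    rw [← hEx] at h1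
    have h2 : (t / (16 * ε ^ 2)) ^ 2 * E = t ^ 2 * E / (256 * ε ^ 4) := by
      rw [div_pow]; ring
    rw [h2, div_le_iff₀ (by positivity)] at h1
    linarith
  have hinv : 0 < ε⁻¹ := by positivity
  have hεi : ε⁻¹ * ε = 1 := by field_simp
  have hri : 0 < r0⁻¹ ^ m := by positivity
  -- the term B
  have hB0 : 0 ≤ ε⁻¹ ^ 2 * (1 + I) * E := by positivity
  set B := ε⁻¹ ^ 2 * (1 + I) * E with hB
  have hR : (1 : ℝ) ≤ 1 + r0⁻¹ ^ m * ε ^ 2 := by
    have : 0 ≤ r0⁻¹ ^ m * ε ^ 2 := by positivity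
    linarith
  -- third summand of the left side
  have hT3 : ε⁻¹ ^ 4 * ε ^ 2 * (E * E) ≤ B := by
    have h1 : ε⁻¹ ^ 4 * ε ^ 2 = ε⁻¹ ^ 2 := by field_simp
    rw [h1, hB]
    have h2 : E * E ≤ (1 + I) * E := mul_le_mul_of_nonneg_right (by linarith) hE0.le
    calc ε⁻¹ ^ 2 * (E * E) ≤ ε⁻¹ ^ 2 * ((1 + I) * E) :=
          mul_le_mul_of_nonneg_left h2 (by positivity)
      _ = _ := by ring
  have hlast : 0 ≤ ε⁻¹ ^ 8 * Real.exp (-(ct * c2 / 8 * r0 ^ m) / ε ^ 2) := by positivity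
  have hA : 0 ≤ Ct * (ε⁻¹ ^ 4 * K * b * Real.exp (-t / (8 * ε ^ 2))) := by positivity
  rcases le_or_gt t (ct * e) with hte | hte
  · have hD := htay hte
    have hsplit : ε⁻¹ ^ 4 * (D + ε ^ 2) * Real.exp (-t / (8 * ε ^ 2)) ≤
        Ct * (ε⁻¹ ^ 4 * K * b * (E * E)) + Ct * (ε⁻¹ ^ 4 * (t * I) * (E * E)) +
          Ct * (ε⁻¹ ^ 4 * (t ^ 2 / e) * (E * E)) + ε⁻¹ ^ 4 * ε ^ 2 * (E * E) := by
      rw [h8]
      have h1 : ε⁻¹ ^ 4 * (D + ε ^ 2) * (E * E) ≤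
          ε⁻¹ ^ 4 * (Ct * (t * I + b * K + t ^ 2 / e) + ε ^ 2) * (E * E) := by
        gcongr
      refine h1.trans (le_of_eq ?_)
      ring
    have hT1 : ε⁻¹ ^ 4 * (t * I) * (E * E) ≤ 16 * B := by
      have h1 : ε⁻¹ ^ 4 * (t * I) * (E * E) = ε⁻¹ ^ 4 * I * E * (t * E) := by ring
      have h2 : ε⁻¹ ^ 4 * I * E * (t * E) ≤ ε⁻¹ ^ 4 * I * E * (16 * ε ^ 2) :=
        mul_le_mul_of_nonneg_left h16 (by positivity)
      have h3 : ε⁻¹ ^ 4 * I * E * (16 * ε ^ 2) = 16 * (ε⁻¹ ^ 2 * I * E) := by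
        field_simp
      rw [h1]
      refine h2.trans ?_
      rw [h3, hB]
      have : ε⁻¹ ^ 2 * I * E ≤ ε⁻¹ ^ 2 * (1 + I) * E := by
        gcongr
        linarith
      linarith
    have hT2 : ε⁻¹ ^ 4 * (t ^ 2 / e) * (E * E) ≤ 1024 / c2 * (r0⁻¹ ^ m * ε ^ 2) * B := by
      have h1 : ε⁻¹ ^ 4 * (t ^ 2 / e) * (E * E) = ε⁻¹ ^ 4 * (1 / e) * E * (t ^ 2 * E) := by ring
      have h2 : ε⁻¹ ^ 4 * (1 / e) * E * (t ^ 2 * E) ≤ ε⁻¹ ^ 4 * (1 / e) * E * (1024 * ε ^ 4) :=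
        mul_le_mul_of_nonneg_left h256 (by positivity)
      have h3 : ε⁻¹ ^ 4 * (1 / e) * E * (1024 * ε ^ 4) = 1024 * (1 / e) * E := by
        field_simp
      have h4 : 1 / e ≤ 1 / (c2 * r0 ^ m) :=
        one_div_le_one_div_of_le (by positivity) hce
      have h5 : 1 / (c2 * r0 ^ m) = r0⁻¹ ^ m / c2 := by
        rw [inv_pow]; field_simp
      have h6 : 1024 * (1 / e) * E ≤ 1024 * (r0⁻¹ ^ m / c2) * E := by
        rw [← h5]; gcongr
      have h7 : E ≤ ε ^ 2 * B := by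
        rw [hB]
        have : ε ^ 2 * (ε⁻¹ ^ 2 * (1 + I) * E) = (1 + I) * E := by
          field_simp
        have h8 : 1 * E ≤ (1 + I) * E := mul_le_mul_of_nonneg_right (by linarith) hE0.le
        rw [this]; linarith
      rw [h1]
      refine h2.trans ?_
      rw [h3]
      refine h6.trans ?_
      calc 1024 * (r0⁻¹ ^ m / c2) * E ≤ 1024 * (r0⁻¹ ^ m / c2) * (ε ^ 2 * B) :=
            mul_le_mul_of_nonneg_left h7 (by positivity)
        _ = _ := by ring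
    rw [h8] at hsplit ⊢
    have hc16 : 0 ≤ 16 * Ct := by positivity
    have hc1024 : 0 ≤ 1024 * Ct / c2 := by positivity
    have hR0 : 0 ≤ r0⁻¹ ^ m * ε ^ 2 := by positivity
    have e1 : Ct * (ε⁻¹ ^ 4 * (t * I) * (E * E)) ≤ 16 * Ct * B := by
      have := mul_le_mul_of_nonneg_left hT1 hCt.le
      linarith
    have e2 : Ct * (ε⁻¹ ^ 4 * (t ^ 2 / e) * (E * E)) ≤ 1024 * Ct / c2 * (r0⁻¹ ^ m * ε ^ 2) * B := by
      have := mul_le_mul_of_nonneg_left hT2 hCt.le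
      refine this.trans (le_of_eq ?_)
      ring
    have e3 : (16 * Ct + 1024 * Ct / c2 + 1) * (1 + r0⁻¹ ^ m * ε ^ 2) * B =
        16 * Ct * B + 1024 * Ct / c2 * (r0⁻¹ ^ m * ε ^ 2) * B + B +
        (16 * Ct * (r0⁻¹ ^ m * ε ^ 2) * B + 1024 * Ct / c2 * B + (r0⁻¹ ^ m * ε ^ 2) * B) := by ring
    have e4 : 0 ≤ 16 * Ct * (r0⁻¹ ^ m * ε ^ 2) * B + 1024 * Ct / c2 * B + (r0⁻¹ ^ m * ε ^ 2) * B := by
      positivity
    linarith
  · have h1 : ε⁻¹ ^ 4 * (D + ε ^ 2) * Real.exp (-t / (8 * ε ^ 2)) =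
        ε⁻¹ ^ 4 * D * (E * E) + ε⁻¹ ^ 4 * ε ^ 2 * (E * E) := by rw [h8]; ring
    have h2 : ε⁻¹ ^ 4 * D * (E * E) ≤ ε⁻¹ ^ 8 * Real.exp (-(ct * c2 / 8 * r0 ^ m) / ε ^ 2) := by
      rw [← h8]
      have h3 : Real.exp (-t / (8 * ε ^ 2)) ≤ Real.exp (-(ct * c2 / 8 * r0 ^ m) / ε ^ 2) := by
        apply Real.exp_le_exp.2
        rw [div_le_div_iff₀ (by positivity) hε2]
        have h4 : ct * c2 * r0 ^ m ≤ t := by
          have := mul_le_mul_of_nonneg_left hce hct.le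
          linarith
        have h5 := mul_le_mul_of_nonneg_right h4 hε2.le
        linarith
      have h4 : (1 : ℝ) ≤ ε⁻¹ := (one_le_inv₀ hε).2 hε1
      have h5 : ε⁻¹ ^ 4 ≤ ε⁻¹ ^ 8 := pow_le_pow_right₀ h4 (by norm_num)
      have h6 : ε⁻¹ ^ 4 * D ≤ ε⁻¹ ^ 8 := by
        calc ε⁻¹ ^ 4 * D ≤ ε⁻¹ ^ 4 * 1 := mul_le_mul_of_nonneg_left hD1 (by positivity)
          _ ≤ ε⁻¹ ^ 8 := by rw [mul_one]; exact h5
      exact mul_le_mul h6 h3 (Real.exp_pos _).le (by positivity)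
    have h3 : B ≤ (16 * Ct + 1024 * Ct / c2 + 1) * (1 + r0⁻¹ ^ m * ε ^ 2) * B := by
      have h4 : (1 : ℝ) ≤ 16 * Ct + 1024 * Ct / c2 + 1 := by
        have : 0 ≤ 16 * Ct + 1024 * Ct / c2 := by positivity
        linarith
      have h5 : (1 : ℝ) ≤ (16 * Ct + 1024 * Ct / c2 + 1) * (1 + r0⁻¹ ^ m * ε ^ 2) :=
        one_le_mul_of_one_le_of_one_le h4 hR
      have h6 := mul_le_mul_of_nonneg_right h5 hB0
      linarith
    rw [h1]
    linarith

theorem TI_bp_meas (y : V) : Measurable (fun n : V => Complex.normSq (bp n y)) := by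
  unfold bp
  refine (Complex.continuous_normSq.comp ?_).measurable
  exact continuous_finsetSum _ fun j _ => (continuous_apply j).mul continuous_const

theorem TI_bp_meas2 : Measurable (fun q : V × V => Complex.normSq (bp q.1 q.2)) := by
  unfold bp
  refine (Complex.continuous_normSq.comp ?_).measurable
  exact continuous_finsetSum _ fun j _ =>
    ((continuous_apply j).comp continuous_fst).mul ((continuous_apply j).comp continuous_snd)

/-- the integrand of `L1` -/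
noncomputable def TI_f1 (F : Fin 3 → MvPolynomial (Fin 3) ℂ) (ε : ℝ) (q : V × V) : ENNReal :=
  ENNReal.ofReal (ε⁻¹ ^ 4 * Kq F q.1 * Complex.normSq (bp (nv F q.2) q.1) *
    Real.exp (-(tau q.1 q.2) / (8 * ε ^ 2)))

/-- the integrand of `Q2` -/
noncomputable def TI_f2 (F : Fin 3 → MvPolynomial (Fin 3) ℂ) (ε : ℝ) (q : V × V) : ENNReal :=
  ENNReal.ofReal (ε⁻¹ ^ 2 * (1 + IIq F q.1) * Real.exp (-(tau q.1 q.2) / (16 * ε ^ 2)))

theorem TI_exp_meas (k : ℝ) : Measurable (fun q : V × V => Real.exp (-(tau q.1 q.2) / k)) := by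
  have h1 : Measurable (fun q : V × V => tau q.1 q.2) := measurable_tau
  have h2 : Measurable (fun q : V × V => -(tau q.1 q.2)) := h1.neg
  have h3 : Measurable (fun q : V × V => -(tau q.1 q.2) / k) := h2.div_const k
  exact h3.exp

theorem TI_bpn_meas (F : Fin 3 → MvPolynomial (Fin 3) ℂ) :
    Measurable (fun q : V × V => Complex.normSq (bp (nv F q.2) q.1)) := by
  have h3 : Measurable (fun q : V × V => (nv F q.2, q.1)) :=
    ((measurable_nv F).comp measurable_snd).prodMk measurable_fst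
  have h4 := TI_bp_meas2.comp h3
  exact h4

theorem TI_f1_meas (F : Fin 3 → MvPolynomial (Fin 3) ℂ) (ε : ℝ) : Measurable (TI_f1 F ε) := by
  have h1 : Measurable (fun q : V × V => Kq F q.1) := (measurable_Kq F).comp measurable_fst
  have h2 : Measurable (fun q : V × V => ε⁻¹ ^ 4 * Kq F q.1) := h1.const_mul _
  have h3 := (h2.mul (TI_bpn_meas F)).mul (TI_exp_meas (8 * ε ^ 2))
  exact h3.ennreal_ofReal

theorem TI_f2_meas (F : Fin 3 → MvPolynomial (Fin 3) ℂ) (ε : ℝ) : Measurable (TI_f2 F ε) := by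
  have h1 : Measurable (fun q : V × V => IIq F q.1) := (measurable_IIq F).comp measurable_fst
  have h2 : Measurable (fun q : V × V => ε⁻¹ ^ 2 * (1 + IIq F q.1)) :=
    (h1.const_add 1).const_mul _
  have h3 := h2.mul (TI_exp_meas (16 * ε ^ 2))
  exact h3.ennreal_ofReal

/-- linearity of the double integral -/
theorem TI_lin {μ μ' : Measure V} [IsProbabilityMeasure μ] [IsProbabilityMeasure μ'] {K : Set V}
    {f1 f2 : V × V → ENNReal} (h1 : Measurable f1) (h2 : Measurable f2) (a b k : ENNReal) :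
    ∫⁻ y in K, ∫⁻ y', (a * f1 (y, y') + b * f2 (y, y') + k) ∂μ' ∂μ ≤
      a * (∫⁻ y in K, ∫⁻ y', f1 (y, y') ∂μ' ∂μ) + b * (∫⁻ y, ∫⁻ y', f2 (y, y') ∂μ' ∂μ) + k := by
  have i1 : ∀ y, ∫⁻ y', (a * f1 (y, y') + b * f2 (y, y') + k) ∂μ' =
      a * (∫⁻ y', f1 (y, y') ∂μ') + b * (∫⁻ y', f2 (y, y') ∂μ') + k := by
    intro y
    have m1 : Measurable (fun y' => f1 (y, y')) := h1.comp measurable_prodMk_left
    have m2 : Measurable (fun y' => f2 (y, y')) := h2.comp measurable_prodMk_left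
    have ms : Measurable (fun y' => a * f1 (y, y') + b * f2 (y, y')) :=
      (m1.const_mul a).add (m2.const_mul b)
    rw [lintegral_add_left ms,
      lintegral_add_left (m1.const_mul a), lintegral_const_mul a m1, lintegral_const_mul b m2,
      lintegral_const, measure_univ, mul_one]
  simp_rw [i1]
  have m1 : Measurable (fun y => ∫⁻ y', f1 (y, y') ∂μ') := h1.lintegral_prod_right'
  have m2 : Measurable (fun y => ∫⁻ y', f2 (y, y') ∂μ') := h2.lintegral_prod_right'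
  have ms : Measurable (fun y => a * (∫⁻ y', f1 (y, y') ∂μ') + b * (∫⁻ y', f2 (y, y') ∂μ')) :=
    (m1.const_mul a).add (m2.const_mul b)
  rw [lintegral_add_left ms,
    lintegral_add_left (m1.const_mul a), lintegral_const_mul a m1, lintegral_const_mul b m2,
    lintegral_const]
  have e1 : ∫⁻ y in K, ∫⁻ y', f2 (y, y') ∂μ' ∂μ ≤ ∫⁻ y, ∫⁻ y', f2 (y, y') ∂μ' ∂μ :=
    setLIntegral_le_lintegral _ _
  have e2 : k * (μ.restrict K) Set.univ ≤ k := by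
    rw [Measure.restrict_apply_univ]
    calc k * μ K ≤ k * 1 := by gcongr; exact prob_le_one
      _ = k := mul_one k
  gcongr

theorem TI_L1 (F : Fin 3 → MvPolynomial (Fin 3) ℂ) (μ μ' : Measure V) (P : Finset V) (r ε : ℝ) :
    L1 F μ μ' P r ε = ∫⁻ y in Kr P r, ∫⁻ y', TI_f1 F ε (y, y') ∂μ' ∂μ := rfl

theorem TI_Q2 (F : Fin 3 → MvPolynomial (Fin 3) ℂ) (μ μ' : Measure V) (ε : ℝ) :
    Q2 F μ μ' ε = ∫⁻ y, ∫⁻ y', TI_f2 F ε (y, y') ∂μ' ∂μ := rfl

theorem loss3 {F : Fin 3 → MvPolynomial (Fin 3) ℂ} {d : ℕ} (hF : ∀ j, (F j).IsHomogeneous d) {P : Finset V}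
    (hP : SingPts F P) :
    ∃ (C c : ℝ) (m : ℕ), 0 < C ∧ 0 < c ∧ ∀ (μ μ' : Measure V), IsCur F μ → IsCur F μ' →
      ∀ (ε r0 : ℝ), 0 < ε → ε ≤ 1 → 0 < r0 → r0 ≤ 1 →
        ENNReal.ofReal (Loss F μ μ' P r0 ε) ≤ ENNReal.ofReal C *
          (L1 F μ μ' P (r0 / 4) ε + ENNReal.ofReal (1 + r0⁻¹ ^ m * ε ^ 2) * Q2 F μ μ' ε +
            ENNReal.ofReal (ε⁻¹ ^ 8 * Real.exp (-(c * r0 ^ m) / ε ^ 2))) := by
  obtain ⟨C1, hC1, hloss⟩ := loss2 hF hP
  obtain ⟨Ct, ct, hCt, hct, htay⟩ := tay hF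
  obtain ⟨c1, m1, hc1, hnull⟩ := nullst_Kr hP
  have hc2 : 0 < c1 / 4 ^ m1 := by positivity
  set c2 : ℝ := c1 / 4 ^ m1 with hc2def
  set K0 : ℝ := 16 * Ct + 1024 * Ct / c2 + 1 with hK0
  have hK0p : 0 < K0 := by positivity
  refine ⟨C1 * (Ct + K0 + 2), min (ct * c2 / 8) (1 / 4), m1 + 1, by positivity,
    lt_min (by positivity) (by norm_num), ?_⟩
  intro μ μ' hμ hμ' ε r0 hε hε1 hr hr1
  have : IsProbabilityMeasure μ := ⟨hμ.prob⟩
  have : IsProbabilityMeasure μ' := ⟨hμ'.prob⟩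
  set c : ℝ := min (ct * c2 / 8) (1 / 4) with hc
  have hc0 : 0 < c := lt_min (by positivity) (by norm_num)
  have hε2 : 0 < ε ^ 2 := by positivity
  set X : ℝ := ε⁻¹ ^ 8 * Real.exp (-(c * r0 ^ (m1 + 1)) / ε ^ 2) with hX
  have hX0 : 0 ≤ X := by positivity
  have hrm : r0 ^ (m1 + 1) ≤ r0 ^ m1 := pow_le_pow_of_le_one hr.le hr1 (Nat.le_succ _)
  have hr1' : r0 ^ (m1 + 1) ≤ r0 := by
    calc r0 ^ (m1 + 1) ≤ r0 ^ 1 := pow_le_pow_of_le_one hr.le hr1 (by omega)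
      _ = r0 := pow_one _
  have hrp : 0 < r0 ^ (m1 + 1) := by positivity
  -- pointwise bound
  have hpt : ∀ᵐ y ∂(μ.restrict (Kr P (r0 / 4))), ∀ᵐ y' ∂μ',
      ENNReal.ofReal (ε⁻¹ ^ 4 * (N (cr (nv F y) (nv F y')) + ε ^ 2) *
            Real.exp (-(tau y y') / (8 * ε ^ 2))) ≤
      ENNReal.ofReal Ct * TI_f1 F ε (y, y') +
        ENNReal.ofReal (K0 * (1 + r0⁻¹ ^ (m1 + 1) * ε ^ 2)) * TI_f2 F ε (y, y') +
        ENNReal.ofReal X := by
    filter_upwards [ae_restrict_of_ae hμ.sing, ae_restrict_of_ae hμ.sphere,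
      ae_restrict_mem (Kr_meas P (r0 / 4))] with y hy1 hy2 hy3
    filter_upwards [hμ'.sing, hμ'.sphere] with y' hy1' hy2'
    have he : c2 * r0 ^ (m1 + 1) ≤ N (eta F y) := by
      have h1 := hnull (r0 / 4) (by positivity) (by linarith) y hy3
      have h2 : c1 * (r0 / 4) ^ m1 = c2 * r0 ^ m1 := by
        rw [hc2def, div_pow]; ring
      rw [h2] at h1
      exact (mul_le_mul_of_nonneg_left hrm hc2.le).trans h1
    have he0 : 0 < N (eta F y) := lt_of_lt_of_le (by positivity) he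
    have hD1 : N (cr (nv F y) (nv F y')) ≤ 1 := by
      rw [tau_cross, nv_unit hy1, nv_unit hy1', one_mul]
      have := Complex.normSq_nonneg (ip (nv F y) (nv F y'))
      linarith
    have h := TI_point (ε := ε) (r0 := r0) (t := tau y y') (e := N (eta F y))
      (D := N (cr (nv F y) (nv F y'))) (I := IIq F y) (K := Kq F y)
      (b := Complex.normSq (bp (nv F y') y)) (Ct := Ct) (ct := ct) (c2 := c2) (m := m1 + 1)
      hε hε1 hr (tau_nonneg _ _) he0 hD1 (IIq_nonneg F y) (Kq_nonneg F y)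
      (Complex.normSq_nonneg _) hCt hct hc2 he (fun hle => htay y y' hy2 hy2' hy1 hy1' hle)
    have hexp : Real.exp (-(ct * c2 / 8 * r0 ^ (m1 + 1)) / ε ^ 2) ≤
        Real.exp (-(c * r0 ^ (m1 + 1)) / ε ^ 2) := by
      apply Real.exp_le_exp.2
      apply div_le_div_of_nonneg_right _ hε2.le
      have := mul_le_mul_of_nonneg_right (min_le_left (ct * c2 / 8) (1 / 4 : ℝ)) hrp.le
      linarith
    have h2 : ε⁻¹ ^ 8 * Real.exp (-(ct * c2 / 8 * r0 ^ (m1 + 1)) / ε ^ 2) ≤ X :=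
      mul_le_mul_of_nonneg_left hexp (by positivity)
    have hI := IIq_nonneg F y
    have hK := Kq_nonneg F y
    have hb := Complex.normSq_nonneg (bp (nv F y') y)
    have hA : 0 ≤ ε⁻¹ ^ 4 * Kq F y * Complex.normSq (bp (nv F y') y) *
      Real.exp (-(tau y y') / (8 * ε ^ 2)) := by positivity
    have hB : 0 ≤ ε⁻¹ ^ 2 * (1 + IIq F y) * Real.exp (-(tau y y') / (16 * ε ^ 2)) := by positivity
    unfold TI_f1 TI_f2
    have hR : 0 ≤ K0 * (1 + r0⁻¹ ^ (m1 + 1) * ε ^ 2) := by positivity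
    rw [← ENNReal.ofReal_mul hCt.le, ← ENNReal.ofReal_mul hR,
      ← ENNReal.ofReal_add (mul_nonneg hCt.le hA) (mul_nonneg hR hB),
      ← ENNReal.ofReal_add (add_nonneg (mul_nonneg hCt.le hA) (mul_nonneg hR hB)) hX0]
    apply ENNReal.ofReal_le_ofReal
    linarith
  have hint : (∫⁻ y in Kr P (r0 / 4), ∫⁻ y', ENNReal.ofReal (ε⁻¹ ^ 4 *
      (N (cr (nv F y) (nv F y')) + ε ^ 2) * Real.exp (-(tau y y') / (8 * ε ^ 2))) ∂μ' ∂μ) ≤
      ENNReal.ofReal Ct * L1 F μ μ' P (r0 / 4) ε +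
        ENNReal.ofReal (K0 * (1 + r0⁻¹ ^ (m1 + 1) * ε ^ 2)) * Q2 F μ μ' ε + ENNReal.ofReal X := by
    refine (lintegral_mono_ae (hpt.mono fun y hy => lintegral_mono_ae hy)).trans ?_
    rw [TI_L1, TI_Q2]
    exact TI_lin (TI_f1_meas F ε) (TI_f2_meas F ε) _ _ _
  have hlast : ENNReal.ofReal (ε⁻¹ ^ 8 * Real.exp (-r0 / (4 * ε ^ 2))) ≤ ENNReal.ofReal X := by
    apply ENNReal.ofReal_le_ofReal
    refine mul_le_mul_of_nonneg_left (Real.exp_le_exp.2 ?_) (by positivity)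
    rw [div_le_div_iff₀ (by positivity) hε2]
    have h1 : c * r0 ^ (m1 + 1) ≤ 1 / 4 * r0 :=
      mul_le_mul (min_le_right _ _) hr1' hrp.le (by norm_num)
    nlinarith
  refine (hloss μ μ' hμ hμ' ε r0 hε hε1 hr hr1).trans ?_
  rw [ENNReal.ofReal_mul hC1.le, mul_assoc]
  gcongr
  refine (add_le_add hint hlast).trans ?_
  set l1 := L1 F μ μ' P (r0 / 4) ε
  set q2 := Q2 F μ μ' ε
  set x := ENNReal.ofReal X
  rw [ENNReal.ofReal_mul hK0p.le]
  set R := ENNReal.ofReal (1 + r0⁻¹ ^ (m1 + 1) * ε ^ 2)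
  have ha : ENNReal.ofReal Ct ≤ ENNReal.ofReal (Ct + K0 + 2) :=
    ENNReal.ofReal_le_ofReal (by linarith)
  have hb : ENNReal.ofReal K0 ≤ ENNReal.ofReal (Ct + K0 + 2) :=
    ENNReal.ofReal_le_ofReal (by linarith)
  have hk : (2 : ENNReal) ≤ ENNReal.ofReal (Ct + K0 + 2) := by
    rw [← ENNReal.ofReal_ofNat 2]
    exact ENNReal.ofReal_le_ofReal (by linarith)
  calc ENNReal.ofReal Ct * l1 + ENNReal.ofReal K0 * R * q2 + x + x =
      ENNReal.ofReal Ct * l1 + ENNReal.ofReal K0 * (R * q2) + 2 * x := by ring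
    _ ≤ ENNReal.ofReal (Ct + K0 + 2) * l1 + ENNReal.ofReal (Ct + K0 + 2) * (R * q2) +
        ENNReal.ofReal (Ct + K0 + 2) * x := by gcongr
    _ = ENNReal.ofReal (Ct + K0 + 2) * (l1 + R * q2 + x) := by ring

end FT76

end S_H76_FT_TI

section S_H85_DC_AdmI

/-!
# Row AdmI: admissibility from finite energy

`Adm F μ μ' P`: for all `ρ, r, η > 0` (`ρ ≤ 1/2`) there is `ε0` such that for `ε < ε0` there is `s1 ≥ 1` with `(1 + En (μ+μ') P r ε)/s1 ≤ η` and `Loss F μ μ' P (ρ^2 e^{-(6 s1+1)}/2) ε ≤ η`.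

Assume `FinEnergy F (μ + μ')`, `m = μ + μ'`.
(1) `En m P r ε ≤ B(r)` for all `ε > 0`: wlog `r ≤ 1` (if `r > 1` and `P` nonempty, `Kr P r = ∅` since `tau ≤ 1`; if `P` is empty, `Kr P r` does not depend on `r`); `Kr P r ⊆ {y | c r^M ≤ N (eta F y)}` (`nullst_Kr`), `(tau + ε^2)⁻¹ ≤ tau⁻¹`, so
`En ≤ (∫⁻_{A} ∫⁻_{A} (ofReal tau)⁻¹ dm dm).toReal < ∞`, `A = {y | c r^M ≤ N (eta F y)}`.
Given `ρ, r, η`: `s1 := max 1 ((1 + B(r))/η)`, fixed; `r0 := ρ^2 e^{-(6 s1+1)}/2` fixed.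
(2) `Loss F μ μ' P r0 ε → 0` as `ε → 0`: by `loss_bound` it suffices that `ε^{-2} Tr μ μ' P (r0/4) ε → 0` (`ε^{-8} e^{-r0/(4ε^2)} → 0`). For `y ∈ Kr P (r0/4)`:
- if `y' ∉ Kr P (r0/16)` (`y'` unit): some `p` has `tau y' p < r0/16`, so `√tau(y,y') ≥ √r0/2 - √r0/4`, `tau y y' ≥ r0/16`: the integrand is `≤ e^{-r0/(128ε^2)}`, times `ε^{-2}` `→ 0`.
- if `y' ∈ Kr P (r0/16)`: both in `A' = {N (eta F ·) ≥ c (r0/16)^M}`. `ε^{-2} e^{-τ/(8ε^2)} ≤ 8/τ` for `τ > 0` (`t e^{-t} ≤ 1`), and `→ 0` pointwise for `τ > 0`; the set `τ(y,y') = 0` has measure zero in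
`A' × A'` for `m × m` (where `(ofReal τ)⁻¹ = ⊤`; finite energy), dominated convergence (`tendsto_lintegral_of_dominated…` or for Bochner integrals on the product `μ.prod μ'` restricted to `A' ×ˢ A'`), dominating function
`8/τ`, integrable by `FinEnergy` (`μ, μ' ≤ m`; `lintegral` of a product measure, measurability `measurable_tau`).
-/

open MeasureTheory
open scoped ContDiff BigOperators ComplexConjugate Matrix

namespace Pool.Agent.H85.DC

/-- Admissible pairs of currents. -/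
def Adm (F : Fin 3 → MvPolynomial (Fin 3) ℂ) (μ μ' : Measure V) (P : Finset V) : Prop :=
  ∀ ρ r η : ℝ, 0 < ρ → ρ ≤ 1 / 2 → 0 < r → 0 < η → ∃ ε0 : ℝ, 0 < ε0 ∧ ∀ ε : ℝ, 0 < ε → ε < ε0 →
    ∃ s1 : ℝ, 1 ≤ s1 ∧ (1 + En (μ + μ') P r ε) / s1 ≤ η ∧
      Loss F μ μ' P (ρ ^ 2 * Real.exp (-(6 * s1 + 1)) / 2) ε ≤ η

theorem adm_symm {F : Fin 3 → MvPolynomial (Fin 3) ℂ} {μ μ' : Measure V} {P : Finset V}
    (h : Adm F μ μ' P) : Adm F μ' μ P := by
  intro ρ r η h1 h2 h3 h4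
  obtain ⟨ε0, h5, h6⟩ := h ρ r η h1 h2 h3 h4
  refine ⟨ε0, h5, fun ε h7 h8 => ?_⟩
  obtain ⟨s1, h9, h10, h11⟩ := h6 ε h7 h8
  refine ⟨s1, h9, ?_, ?_⟩
  · rw [add_comm μ' μ]
    exact h10
  · rw [loss_symm]
    exact h11

theorem AdmI_le {μ : Measure V} {f : V → ℝ} (hf : ∀ y, 0 ≤ f y) :
    ENNReal.ofReal (∫ y, f y ∂μ) ≤ ∫⁻ y, ENNReal.ofReal (f y) ∂μ := by
  have h1 : ENNReal.ofReal (∫ y, f y ∂μ) = ‖∫ y, f y ∂μ‖ₑ := by
    rw [Real.enorm_of_nonneg (integral_nonneg hf)]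
  rw [h1]
  refine (enorm_integral_le_lintegral_enorm _).trans (lintegral_mono fun y => ?_)
  rw [Real.enorm_of_nonneg (hf y)]

theorem AdmI_En {F : Fin 3 → MvPolynomial (Fin 3) ℂ} {P : Finset V} (hP : SingPts F P)
    {m : Measure V} (h : FinEnergy F m) {r : ℝ} (hr : 0 < r) :
    ∃ B : ℝ, 0 ≤ B ∧ ∀ ε : ℝ, 0 < ε → En m P r ε ≤ B := by
  obtain ⟨c, M, hc, hK⟩ := nullst_Kr hP
  have hr' : 0 < min r 1 := lt_min hr one_pos
  have hfin := h (c * (min r 1) ^ M) (by positivity)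
  have hsub : Kr P r ⊆ {y | c * (min r 1) ^ M ≤ N (eta F y)} := fun y hy =>
    hK (min r 1) hr' (min_le_right _ _) y ⟨hy.1, fun p hp => (min_le_left _ _).trans (hy.2 p hp)⟩
  refine ⟨_, ENNReal.toReal_nonneg, fun ε hε => (ENNReal.ofReal_le_iff_le_toReal hfin.ne).1 ?_⟩
  have hnn : ∀ y y' : V, 0 ≤ (tau y y' + ε ^ 2)⁻¹ := fun y y' => by
    have := tau_nonneg y y'
    positivity
  unfold En
  refine (AdmI_le fun y => integral_nonneg fun y' => hnn y y').trans ?_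
  refine lintegral_mono' (Measure.restrict_mono hsub le_rfl) fun y => ?_
  refine (AdmI_le fun y' => hnn y y').trans ?_
  refine lintegral_mono' (Measure.restrict_mono hsub le_rfl) fun y' => ?_
  have ht := tau_nonneg y y'
  rw [ENNReal.ofReal_inv_of_pos (by positivity)]
  exact ENNReal.inv_le_inv.2 (ENNReal.ofReal_le_ofReal (by nlinarith [sq_nonneg ε]))

theorem AdmI_lim (n : ℕ) {c : ℝ} (hc : 0 < c) :
    Filter.Tendsto (fun ε : ℝ => (ε⁻¹) ^ (2 * n) * Real.exp (-c / ε ^ 2)) (nhdsWithin 0 (Set.Ioi 0))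
      (nhds 0) := by
  have h1 : Filter.Tendsto (fun ε : ℝ => c * (ε⁻¹) ^ 2) (nhdsWithin 0 (Set.Ioi 0)) Filter.atTop :=
    Filter.Tendsto.const_mul_atTop hc
      ((Filter.tendsto_pow_atTop two_ne_zero).comp tendsto_inv_nhdsGT_zero)
  have h2 := ((Real.tendsto_pow_mul_exp_neg_atTop_nhds_zero n).comp h1).const_mul ((c⁻¹) ^ n)
  rw [mul_zero] at h2
  refine h2.congr fun ε => ?_
  have h3 : -(c * (ε⁻¹) ^ 2) = -c / ε ^ 2 := by
    rw [inv_pow]
    ring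
  show (c⁻¹) ^ n * ((c * (ε⁻¹) ^ 2) ^ n * Real.exp (-(c * (ε⁻¹) ^ 2))) = _
  rw [h3, mul_pow, ← mul_assoc, ← mul_assoc, ← mul_pow, inv_mul_cancel₀ hc.ne', one_pow, one_mul,
    ← pow_mul]

theorem AdmI_dom {ε t : ℝ} (hε : 0 < ε) (ht : 0 ≤ t) :
    ENNReal.ofReal ((ε⁻¹) ^ 2 * Real.exp (-t / (8 * ε ^ 2))) ≤ 8 * (ENNReal.ofReal t)⁻¹ := by
  rcases ht.lt_or_eq with h | h
  · have h1 : (8 : ENNReal) * (ENNReal.ofReal t)⁻¹ = ENNReal.ofReal (8 * t⁻¹) := by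
      rw [ENNReal.ofReal_mul (by norm_num), ENNReal.ofReal_inv_of_pos h]
      norm_num
    rw [h1]
    apply ENNReal.ofReal_le_ofReal
    have h2 := Real.add_one_le_exp (t / (8 * ε ^ 2))
    have h3 : -t / (8 * ε ^ 2) = -(t / (8 * ε ^ 2)) := by ring
    rw [h3, Real.exp_neg]
    have h4 : 0 < t / (8 * ε ^ 2) := by positivity
    have h5 : (Real.exp (t / (8 * ε ^ 2)))⁻¹ ≤ (t / (8 * ε ^ 2))⁻¹ := inv_anti₀ h4 (by linarith)
    calc (ε⁻¹) ^ 2 * (Real.exp (t / (8 * ε ^ 2)))⁻¹ ≤ (ε⁻¹) ^ 2 * (t / (8 * ε ^ 2))⁻¹ :=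
          mul_le_mul_of_nonneg_left h5 (by positivity)
      _ = 8 * t⁻¹ := by
          field_simp
  · rw [← h, ENNReal.ofReal_zero, ENNReal.inv_zero, ENNReal.mul_top (by norm_num)]
    exact le_top

theorem AdmI_tri {x y z : V} (hx : x ≠ 0) (hy : y ≠ 0) (hz : z ≠ 0) {a : ℝ} (ha0 : 0 ≤ a)
    (ha : a ≤ tau x z) (h : tau y z ≤ a / 4) : a / 4 ≤ tau x y := by
  have h1 := tau_metric hx hy hz
  have h2 : Real.sqrt a ≤ Real.sqrt (tau x z) := Real.sqrt_le_sqrt ha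
  have h3 : (Real.sqrt a) ^ 2 = a := Real.sq_sqrt ha0
  have h4 : Real.sqrt (tau y z) ≤ Real.sqrt a / 2 := by
    rw [Real.sqrt_le_left (by positivity)]
    rw [div_pow, h3]
    linarith
  have h5 : Real.sqrt a / 2 ≤ Real.sqrt (tau x y) := by linarith
  have h6 : (Real.sqrt a / 2) ^ 2 ≤ (Real.sqrt (tau x y)) ^ 2 :=
    pow_le_pow_left₀ (by positivity) h5 2
  rw [Real.sq_sqrt (tau_nonneg x y), div_pow, h3] at h6
  linarith

theorem AdmI_ne {y : V} (h : N y = 1) : y ≠ 0 := by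
  rintro rfl
  simp [N] at h

/-- the main integral tends to zero -/
theorem AdmI_J {F : Fin 3 → MvPolynomial (Fin 3) ℂ} {m : Measure V} [IsFiniteMeasure m]
    (h : FinEnergy F m) {a : ℝ} (ha : 0 < a) :
    Filter.Tendsto (fun ε : ℝ => ∫⁻ y in {y | a ≤ N (eta F y)}, ∫⁻ y' in {y' | a ≤ N (eta F y')},
      ENNReal.ofReal ((ε⁻¹) ^ 2 * Real.exp (-(tau y y') / (8 * ε ^ 2))) ∂m ∂m)
      (nhdsWithin 0 (Set.Ioi 0)) (nhds 0) := by
  set A : Set V := {y | a ≤ N (eta F y)} with hA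
  have hmeas : ∀ ε : ℝ, Measurable fun q : V × V =>
      ENNReal.ofReal ((ε⁻¹) ^ 2 * Real.exp (-(tau q.1 q.2) / (8 * ε ^ 2))) := by
    intro ε
    exact (((measurable_tau.neg.div_const _).exp).const_mul _).ennreal_ofReal
  have hbm : Measurable fun q : V × V => (ENNReal.ofReal (tau q.1 q.2))⁻¹ :=
    measurable_tau.ennreal_ofReal.inv
  have h1 : ∀ ε : ℝ, ∫⁻ y in A, ∫⁻ y' in A,
      ENNReal.ofReal ((ε⁻¹) ^ 2 * Real.exp (-(tau y y') / (8 * ε ^ 2))) ∂m ∂m =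
      ∫⁻ q, ENNReal.ofReal ((ε⁻¹) ^ 2 * Real.exp (-(tau q.1 q.2) / (8 * ε ^ 2))) ∂((m.restrict A).prod (m.restrict A)) := by
    intro ε
    rw [lintegral_prod _ (hmeas ε).aemeasurable]
  have hfin : ∫⁻ q, (ENNReal.ofReal (tau q.1 q.2))⁻¹ ∂((m.restrict A).prod (m.restrict A)) < ⊤ := by
    rw [lintegral_prod _ hbm.aemeasurable]
    exact h a ha
  simp only [h1]
  have h2 := tendsto_lintegral_filter_of_dominated_convergence (μ := (m.restrict A).prod (m.restrict A))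
    (l := nhdsWithin (0 : ℝ) (Set.Ioi 0))
    (F := fun ε (q : V × V) =>
      ENNReal.ofReal ((ε⁻¹) ^ 2 * Real.exp (-(tau q.1 q.2) / (8 * ε ^ 2)))) (f := fun _ => 0)
    (fun q => 8 * (ENNReal.ofReal (tau q.1 q.2))⁻¹)
    (Filter.Eventually.of_forall fun ε => hmeas ε) ?_ ?_ ?_
  · simpa using h2
  · filter_upwards [self_mem_nhdsWithin] with ε hε
    exact Filter.Eventually.of_forall fun q => AdmI_dom hε (tau_nonneg _ _)
  · rw [lintegral_const_mul _ hbm]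
    exact ENNReal.mul_ne_top (by norm_num) hfin.ne
  · filter_upwards [ae_lt_top hbm hfin.ne] with q hq
    have hq0 : 0 < tau q.1 q.2 := by
      rcases (tau_nonneg q.1 q.2).lt_or_eq with h3 | h3
      · exact h3
      · rw [← h3, ENNReal.ofReal_zero, ENNReal.inv_zero] at hq
        exact absurd hq (lt_irrefl _)
    have h4 := AdmI_lim 1 (c := tau q.1 q.2 / 8) (by positivity)
    have h5 := (ENNReal.continuous_ofReal.tendsto 0).comp h4
    rw [ENNReal.ofReal_zero] at h5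
    refine h5.congr fun ε => ?_
    show ENNReal.ofReal ((ε⁻¹) ^ (2 * 1) * Real.exp (-(tau q.1 q.2 / 8) / ε ^ 2)) = _
    congr 2
    congr 1
    rw [neg_div, neg_div, div_div]

theorem AdmI_T {F : Fin 3 → MvPolynomial (Fin 3) ℂ} {P : Finset V} (hP : SingPts F P)
    {μ μ' : Measure V} (hμ : IsCur F μ) (hμ' : IsCur F μ') (h : FinEnergy F (μ + μ')) {r : ℝ}
    (hr : 0 < r) (hr1 : r ≤ 1) {δ : ℝ} (hδ : 0 < δ) :
    ∀ᶠ ε in nhdsWithin (0 : ℝ) (Set.Ioi 0), (ε⁻¹) ^ 2 * Tr μ μ' P r ε < δ := by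
  haveI : IsProbabilityMeasure μ := ⟨hμ.prob⟩
  haveI : IsProbabilityMeasure μ' := ⟨hμ'.prob⟩
  obtain ⟨c, M, hc, hK⟩ := nullst_Kr hP
  have ha : 0 < c * (r / 4) ^ M := by positivity
  have hJ := AdmI_J h ha
  have hE := AdmI_lim 1 (c := r / 32) (by positivity)
  have hE' := (ENNReal.continuous_ofReal.tendsto 0).comp hE
  rw [ENNReal.ofReal_zero] at hE'
  have hsum := hJ.add hE'
  rw [add_zero] at hsum
  have hlt := hsum.eventually_lt_const (ENNReal.ofReal_pos.2 hδ)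
  filter_upwards [hlt, self_mem_nhdsWithin] with ε h1 hε
  have hε0 : 0 < ε := hε
  rw [← ENNReal.ofReal_lt_ofReal_iff hδ]
  refine lt_of_le_of_lt ?_ h1
  have hnn : ∀ y y' : V, 0 ≤ (ε⁻¹) ^ 2 * Real.exp (-(tau y y') / (8 * ε ^ 2)) := fun y y' => by
    positivity
  have hTr : (ε⁻¹) ^ 2 * Tr μ μ' P r ε =
      ∫ y in Kr P r, ∫ y', (ε⁻¹) ^ 2 * Real.exp (-(tau y y') / (8 * ε ^ 2)) ∂μ' ∂μ := by
    unfold Tr
    rw [← integral_const_mul]
    simp only [integral_const_mul]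
  rw [hTr]
  refine (AdmI_le fun y => integral_nonneg fun y' => hnn y y').trans ?_
  have hsub1 : Kr P r ⊆ {y | c * (r / 4) ^ M ≤ N (eta F y)} := fun y hy =>
    hK (r / 4) (by positivity) (by linarith) y ⟨hy.1, fun p hp => by
      have := hy.2 p hp
      linarith⟩
  have hsub2 : Kr P (r / 4) ⊆ {y | c * (r / 4) ^ M ≤ N (eta F y)} := fun y hy =>
    hK (r / 4) (by positivity) (by linarith) y hy
  have hm1 : μ.restrict (Kr P r) ≤ (μ + μ').restrict {y | c * (r / 4) ^ M ≤ N (eta F y)} :=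
    Measure.restrict_mono hsub1 (Measure.le_add_right le_rfl)
  have hm2 : μ'.restrict (Kr P (r / 4)) ≤ (μ + μ').restrict {y | c * (r / 4) ^ M ≤ N (eta F y)} :=
    Measure.restrict_mono hsub2 (Measure.le_add_left le_rfl)
  have hin : ∀ y ∈ Kr P r, ENNReal.ofReal
      (∫ y', (ε⁻¹) ^ 2 * Real.exp (-(tau y y') / (8 * ε ^ 2)) ∂μ') ≤
      (∫⁻ y' in {y | c * (r / 4) ^ M ≤ N (eta F y)},
        ENNReal.ofReal ((ε⁻¹) ^ 2 * Real.exp (-(tau y y') / (8 * ε ^ 2))) ∂(μ + μ')) +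
      ENNReal.ofReal ((ε⁻¹) ^ (2 * 1) * Real.exp (-(r / 32) / ε ^ 2)) := by
    intro y hy
    refine (AdmI_le fun y' => hnn y y').trans ?_
    rw [← lintegral_add_compl _ (Kr_meas P (r / 4))]
    refine add_le_add (lintegral_mono' hm2 fun y' => le_rfl) ?_
    have hb : ∀ᵐ y' ∂μ', y' ∈ (Kr P (r / 4))ᶜ →
        ENNReal.ofReal ((ε⁻¹) ^ 2 * Real.exp (-(tau y y') / (8 * ε ^ 2))) ≤
        ENNReal.ofReal ((ε⁻¹) ^ (2 * 1) * Real.exp (-(r / 32) / ε ^ 2)) := by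
      filter_upwards [hμ'.sphere] with y' hy' hnot
      obtain ⟨p, hp, hlt'⟩ : ∃ p ∈ P, tau y' p < r / 4 := by
        by_contra hcon
        push Not at hcon
        exact hnot ⟨hy', hcon⟩
      have h2 := AdmI_tri (AdmI_ne hy.1) (AdmI_ne hy') (AdmI_ne (hP.unit p hp)) hr.le (hy.2 p hp)
        hlt'.le
      apply ENNReal.ofReal_le_ofReal
      rw [mul_one]
      refine mul_le_mul_of_nonneg_left ?_ (by positivity)
      rw [Real.exp_le_exp, div_le_div_iff₀ (by positivity) (by positivity)]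
      have h3 : 0 < ε ^ 2 := by positivity
      nlinarith
    refine (setLIntegral_mono_ae' (Kr_meas P (r / 4)).compl hb).trans ?_
    rw [setLIntegral_const]
    calc ENNReal.ofReal ((ε⁻¹) ^ (2 * 1) * Real.exp (-(r / 32) / ε ^ 2)) * μ' (Kr P (r / 4))ᶜ
        ≤ ENNReal.ofReal ((ε⁻¹) ^ (2 * 1) * Real.exp (-(r / 32) / ε ^ 2)) * 1 := by
          gcongr
          exact prob_le_one
      _ = _ := mul_one _
  calc ∫⁻ y in Kr P r, ENNReal.ofReal
          (∫ y', (ε⁻¹) ^ 2 * Real.exp (-(tau y y') / (8 * ε ^ 2)) ∂μ') ∂μ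
      ≤ ∫⁻ y in Kr P r, ((∫⁻ y' in {y | c * (r / 4) ^ M ≤ N (eta F y)},
        ENNReal.ofReal ((ε⁻¹) ^ 2 * Real.exp (-(tau y y') / (8 * ε ^ 2))) ∂(μ + μ')) +
        ENNReal.ofReal ((ε⁻¹) ^ (2 * 1) * Real.exp (-(r / 32) / ε ^ 2))) ∂μ :=
        setLIntegral_mono' (Kr_meas P r) hin
    _ = (∫⁻ y in Kr P r, (∫⁻ y' in {y | c * (r / 4) ^ M ≤ N (eta F y)},
        ENNReal.ofReal ((ε⁻¹) ^ 2 * Real.exp (-(tau y y') / (8 * ε ^ 2))) ∂(μ + μ')) ∂μ) +
        ∫⁻ _y in Kr P r, ENNReal.ofReal ((ε⁻¹) ^ (2 * 1) * Real.exp (-(r / 32) / ε ^ 2)) ∂μ :=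
        lintegral_add_right _ measurable_const
    _ ≤ _ := by
        refine add_le_add (lintegral_mono' hm1 fun y => le_rfl) ?_
        rw [setLIntegral_const]
        calc ENNReal.ofReal ((ε⁻¹) ^ (2 * 1) * Real.exp (-(r / 32) / ε ^ 2)) * μ (Kr P r)
            ≤ ENNReal.ofReal ((ε⁻¹) ^ (2 * 1) * Real.exp (-(r / 32) / ε ^ 2)) * 1 := by
              gcongr
              exact prob_le_one
          _ = _ := mul_one _

theorem adm_fin {F : Fin 3 → MvPolynomial (Fin 3) ℂ} {d : ℕ}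
    (hF : ∀ j, (F j).IsHomogeneous d) {P : Finset V} (hP : SingPts F P) {μ μ' : Measure V}
    (hμ : IsCur F μ) (hμ' : IsCur F μ') (h : FinEnergy F (μ + μ')) : Adm F μ μ' P := by
  intro ρ r η hρ hρ' hr hη
  obtain ⟨B, hB0, hB⟩ := AdmI_En hP h hr
  obtain ⟨C, m, hC, hL⟩ := loss_bound hF hP
  set s1 := max 1 ((1 + B) / η) with hs1
  have h1 : 1 ≤ s1 := le_max_left _ _
  have h2 : (1 + B) / η ≤ s1 := le_max_right _ _
  set r0 := ρ ^ 2 * Real.exp (-(6 * s1 + 1)) / 2 with hr0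
  have hr0p : 0 < r0 := by positivity
  have hr01 : r0 ≤ 1 := by
    have e1 : Real.exp (-(6 * s1 + 1)) ≤ 1 := Real.exp_le_one_iff.2 (by linarith)
    have e2 : ρ ^ 2 ≤ 1 := by nlinarith
    have e3 : ρ ^ 2 * Real.exp (-(6 * s1 + 1)) ≤ 1 :=
      mul_le_one₀ e2 (Real.exp_pos _).le e1
    rw [hr0]
    linarith
  set K := C * (r0⁻¹) ^ m + C with hK
  have hK0 : 0 < K := by positivity
  have hT := AdmI_T hP hμ hμ' h (r := r0 / 4) (by positivity) (by linarith) (div_pos hη hK0)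
  have hE := (AdmI_lim 4 (c := r0 / 4) (by positivity)).eventually_lt_const (div_pos hη hK0)
  have hone : ∀ᶠ ε in nhdsWithin (0 : ℝ) (Set.Ioi 0), ε < 1 :=
    (eventually_nhdsWithin_of_eventually_nhds (eventually_lt_nhds one_pos))
  have hall := (hT.and hE).and hone
  obtain ⟨ε0, hε0, hsub⟩ := mem_nhdsGT_iff_exists_Ioo_subset.1 hall
  refine ⟨ε0, hε0, fun ε hε hεlt => ⟨s1, h1, ?_, ?_⟩⟩
  · have h3 := hB ε hε
    rw [div_le_iff₀ (by linarith)]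
    rw [div_le_iff₀ hη] at h2
    linarith
  · obtain ⟨⟨h3, h4⟩, h5⟩ := hsub ⟨hε, hεlt⟩
    have h5' : ε < 1 := h5
    refine (hL μ μ' hμ hμ' ε r0 hε h5'.le hr0p hr01).trans ?_
    have h6 : C * (r0⁻¹) ^ m * (ε⁻¹) ^ 2 * Tr μ μ' P (r0 / 4) ε ≤ C * (r0⁻¹) ^ m * (η / K) := by
      rw [mul_assoc]
      exact mul_le_mul_of_nonneg_left h3.le (by positivity)
    have h7 : C * (ε⁻¹) ^ 8 * Real.exp (-r0 / (4 * ε ^ 2)) ≤ C * (η / K) := by
      rw [mul_assoc]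
      refine mul_le_mul_of_nonneg_left ?_ hC.le
      have e1 : -r0 / (4 * ε ^ 2) = -(r0 / 4) / ε ^ 2 := by
        clear_value r0
        ring
      rw [e1]
      exact h4.le
    have h8 : C * (r0⁻¹) ^ m * (η / K) + C * (η / K) = η := by
      rw [← add_mul, ← hK]
      field_simp
    linarith

end Pool.Agent.H85.DC

end S_H85_DC_AdmI

section S_H85_DC_FinC

/-!
# Row FinC: the estimate near one singular point

Data: `A0 ∈ H0`; `c0` from `exists_prof`; `X = DD ε - A0 ∈ H0` (`inH0_sub`, `inH0_D`), `κ > 0`, `n` from `decomp` for `X`, `u = green n (N tr X)` (`green_E`), `E = X - L u ∈ H0` (`inH0_L`, `inH0_sub`).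
`nn E E = nn X X` (`nn_sub_L`), `|tr E| ≤ κ/N`, so `∫ hs E wt = nn E E + ∫ (tr E)^2 wt ≤ nn X X + κ^2 π^3/2 ≤ nn X X + 16 κ^2` (`hs_split`, `int_Nm2`).
For `p ∈ P`, `F_p = cutF φ ρ p`: `DD = X + A0`, `ee DD DD = ee X X + 2 ee A0 DD - ee A0 A0` (bilinear, symmetric), so
`-∫ F_p Re ee DD DD wt = -∫ F_p Re ee X X - 2 ∫ F_p Re ee A0 DD + ∫ F_p Re ee A0 A0 ≤ [loc_ineq_int with X = L u + E] + 2 ∫_{B(p,ρ)} |ee A0 DD| wt + ∫_{B(p,ρ)} |ee A0 A0| wt`
(`0 ≤ F_p ≤ 1`, `F_p = 0` where `tau ≥ ρ^2` (`cutF_zero`)).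
The annulus term: `energy` with `m = μ + μ'`, `f = N Re tr X`: `|f y| ≤ |N tr (sm μ)| + |N tr (sm μ')| + |N tr A0| ≤ 3 ∫ kk dμ + 3 ∫ kk dμ' + CA` (`tr_sm_le`, `tr_nonneg` with `pos_sm`; `CA ≥ 3 C_{A0}` bound of `N |tr A0|`, `form_bound`); `f` is continuous off `0` and of
degree `0`, so bounded and a.e. strongly measurable (`chom_Ntr`, `chom_bound`). Here `ρ ≤ min ρ0 (1/2)`, and `r`, `C = C(ρ, CA)` as in `energy`.
-/

open MeasureTheory
open scoped ContDiff BigOperators ComplexConjugate Matrix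

namespace Pool.Agent.H85.DC

theorem FinC_ae_ne : ∀ᵐ x : V, x ≠ 0 := by
  have h : (volume : Measure V) {(0 : V)} = 0 := measure_singleton 0
  exact compl_mem_ae_iff.2 h

theorem FinC_aesm {f : V → ℂ} (hf : ContinuousOn f {0}ᶜ) :
    AEStronglyMeasurable f (volume : Measure V) := by
  have h := hf.aestronglyMeasurable (μ := (volume : Measure V))
    (isOpen_compl_singleton.measurableSet)
  rwa [Measure.restrict_eq_self_of_ae_mem] at h
  exact FinC_ae_ne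

theorem FinC_cut_aesm {c0 s1 : ℝ} {φ : ℝ → ℝ} (hφ : Prof c0 s1 φ) {ρ : ℝ} (hρ : 0 < ρ) {p : V}
    (hp : N p = 1) :
    AEStronglyMeasurable (fun x => (((cutF φ ρ p x).re : ℝ) : ℂ)) (volume : Measure V) := by
  have h := FinC_aesm (isFun_cutF hφ hρ hp).smooth.continuousOn
  have h2 : AEStronglyMeasurable (fun x => (cutF φ ρ p x).re) (volume : Measure V) :=
    Complex.continuous_re.comp_aestronglyMeasurable h
  exact Complex.continuous_ofReal.comp_aestronglyMeasurable h2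

theorem FinC_int {c0 s1 : ℝ} {φ : ℝ → ℝ} (hφ : Prof c0 s1 φ) {ρ : ℝ} (hρ : 0 < ρ) {p : V}
    (hp : N p = 1) {A B : V → M3} (hA : IsForm A) (hB : IsForm B) :
    Integrable (fun x => (cutF φ ρ p x).re * (ee (A x) (B x)).re * wt x) := by
  have h := ee_int_bdd hA hB (FinC_cut_aesm hφ hρ hp) (b := 1) (by
    intro x
    have := cutF_mem hφ ρ p x
    rw [Complex.norm_real, Real.norm_eq_abs, abs_le]
    constructor
    · linarith [this.1]
    · exact this.2)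
  have h2 := h.re
  refine h2.congr (Filter.Eventually.of_forall fun x => ?_)
  show RCLike.re ((((cutF φ ρ p x).re : ℝ) : ℂ) * ee (A x) (B x) * (wt x : ℂ)) = _
  have : RCLike.re ((((cutF φ ρ p x).re : ℝ) : ℂ) * ee (A x) (B x) * (wt x : ℂ)) =
      ((((cutF φ ρ p x).re : ℝ) : ℂ) * ee (A x) (B x) * (wt x : ℂ)).re := rfl
  rw [this, Complex.re_mul_ofReal, Complex.re_ofReal_mul]

theorem FinC_tau_meas (p : V) : Measurable (fun x : V => tau x p) := by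
  have h0 : Measurable (fun x : V => ((x, p) : V × V)) :=
    Measurable.prodMk measurable_id measurable_const
  have h := Measurable.comp (g := fun q : V × V => tau q.1 q.2)
    (f := fun x : V => ((x, p) : V × V)) measurable_tau h0
  exact h

theorem FinC_tau_meas' (y : V) : Measurable (fun z : V => tau y z) := by
  have h0 : Measurable (fun z : V => ((y, z) : V × V)) :=
    Measurable.prodMk measurable_const measurable_id
  have h := Measurable.comp (g := fun q : V × V => tau q.1 q.2)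
    (f := fun z : V => ((y, z) : V × V)) measurable_tau h0
  exact h

theorem FinC_kk_meas (ε : ℝ) : Measurable (fun t : ℝ => kk ε t) := by
  unfold kk
  fun_prop

theorem FinC_ball_meas (p : V) (ρ : ℝ) :
    MeasurableSet {x : V | x ≠ 0 ∧ tau x p ≤ ρ ^ 2} := by
  have h1 := FinC_tau_meas p
  have e : {x : V | x ≠ 0 ∧ tau x p ≤ ρ ^ 2} = ({0} : Set V)ᶜ ∩ {x | tau x p ≤ ρ ^ 2} := by
    ext x
    simp only [Set.mem_inter_iff, Set.mem_compl_iff, Set.mem_singleton_iff]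
    exact Iff.rfl
  rw [e]
  exact (measurableSet_singleton (0 : V)).compl.inter (measurableSet_le h1 measurable_const)

theorem FinC_term {c0 s1 : ℝ} {φ : ℝ → ℝ} (hφ : Prof c0 s1 φ) {ρ : ℝ} (hρ : 0 < ρ) {p : V}
    {A B : V → M3} (hA : IsForm A) (hB : IsForm B) :
    |∫ x, (cutF φ ρ p x).re * (ee (A x) (B x)).re * wt x| ≤
      ∫ x in {x : V | x ≠ 0 ∧ tau x p ≤ ρ ^ 2}, ‖ee (A x) (B x)‖ * wt x := by
  have hms := FinC_ball_meas p ρ
  have hint : Integrable (fun x => ‖ee (A x) (B x)‖ * wt x) := by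
    refine (ee_int hA hB).norm.congr (Filter.Eventually.of_forall fun x => ?_)
    have hwt : 0 ≤ wt x := Real.exp_nonneg _
    show ‖ee (A x) (B x) * (wt x : ℂ)‖ = ‖ee (A x) (B x)‖ * wt x
    rw [norm_mul, Complex.norm_real, Real.norm_eq_abs, abs_of_nonneg hwt]
  rw [← integral_indicator hms, ← Real.norm_eq_abs]
  refine norm_integral_le_of_norm_le (hint.indicator hms) ?_
  filter_upwards [FinC_ae_ne] with x hx
  have hwt : 0 ≤ wt x := Real.exp_nonneg _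
  by_cases hxB : x ∈ {x : V | x ≠ 0 ∧ tau x p ≤ ρ ^ 2}
  · rw [Set.indicator_of_mem hxB, norm_mul, norm_mul, Real.norm_eq_abs, Real.norm_eq_abs,
      Real.norm_eq_abs, abs_of_nonneg hwt, abs_of_nonneg (cutF_mem hφ ρ p x).1]
    refine mul_le_mul_of_nonneg_right ?_ hwt
    calc (cutF φ ρ p x).re * |(ee (A x) (B x)).re|
        ≤ 1 * ‖ee (A x) (B x)‖ :=
          mul_le_mul (cutF_mem hφ ρ p x).2 (Complex.abs_re_le_norm _) (abs_nonneg _) zero_le_one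
      _ = ‖ee (A x) (B x)‖ := one_mul _
  · rw [Set.indicator_of_notMem hxB]
    have h0 : ρ ^ 2 ≤ tau x p := by
      by_contra hc
      exact hxB ⟨hx, (not_le.1 hc).le⟩
    rw [cutF_zero hφ hρ h0]
    simp

/-- The identity `ee D D = ee X X + 2 ee A D - ee A A` for `D = X + A`. -/
theorem FinC_ee (D A : M3) :
    (ee D D).re = (ee (D - A) (D - A)).re + 2 * (ee A D).re - (ee A A).re := by
  have h1 : D = (D - A) + A := by rw [sub_add_cancel]
  set X := D - A with hX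
  have e1 : ee D D = ee X X + ee A X + ee A X + ee A A := by
    rw [h1, ee_add_left, ee_comm X (X + A), ee_comm A (X + A), ee_add_left, ee_add_left,
      ee_comm X A]
    ring
  have e2 : ee A D = ee A X + ee A A := by
    rw [h1, ee_comm A (X + A), ee_add_left, ee_comm X A]
  rw [e1, e2]
  simp only [Complex.add_re]
  ring

theorem FinC_pi : 0 < Real.pi ^ 3 := pow_pos Real.pi_pos 3

theorem FinC_hs {E : V → M3} (hE : InH0 E) {κ : ℝ} (hκ : 0 < κ)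
    (h : ∀ x : V, x ≠ 0 → ‖(N x : ℂ) * (E x).trace‖ ≤ Real.sqrt (κ / Real.pi ^ 3)) :
    ∫ x, hs (E x) * wt x ≤ nn E E + κ := by
  rw [hs_split hE.form hE.herm]
  have hint : Integrable (fun x : V => (N x) ^ (-2 : ℤ) * wt x) := by
    by_contra hc
    have h1 := int_Nm2
    rw [integral_undef hc] at h1
    have := FinC_pi
    linarith
  have h2 : ∫ x, ((E x).trace).re ^ 2 * wt x ≤
      ∫ x : V, (κ / Real.pi ^ 3) * ((N x) ^ (-2 : ℤ) * wt x) := by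
    refine integral_mono_ae (tr_int hE.form) (hint.const_mul _) ?_
    filter_upwards [FinC_ae_ne] with x hx
    have hN := N_pos hx
    have hwt : 0 ≤ wt x := Real.exp_nonneg _
    rw [← mul_assoc]
    refine mul_le_mul_of_nonneg_right ?_ hwt
    have h3 := h x hx
    rw [norm_mul, Complex.norm_real, Real.norm_eq_abs, abs_of_pos hN] at h3
    have h4 : N x * |((E x).trace).re| ≤ Real.sqrt (κ / Real.pi ^ 3) :=
      le_trans (mul_le_mul_of_nonneg_left (Complex.abs_re_le_norm _) hN.le) h3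
    have h5 : (N x * |((E x).trace).re|) ^ 2 ≤ κ / Real.pi ^ 3 := by
      calc (N x * |((E x).trace).re|) ^ 2 ≤ (Real.sqrt (κ / Real.pi ^ 3)) ^ 2 :=
            pow_le_pow_left₀ (by positivity) h4 2
        _ = κ / Real.pi ^ 3 := Real.sq_sqrt (by have := FinC_pi; positivity)
    rw [mul_pow, sq_abs] at h5
    have h6 : (N x) ^ (-2 : ℤ) = ((N x) ^ 2)⁻¹ := by
      rw [zpow_neg]; rfl
    rw [h6, ← div_eq_mul_inv, le_div_iff₀ (by positivity), mul_comm]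
    exact h5
  rw [integral_const_mul, int_Nm2] at h2
  have h7 : κ / Real.pi ^ 3 * (Real.pi ^ 3 / 2) = κ / 2 := by
    have := FinC_pi
    field_simp
  rw [h7] at h2
  linarith

theorem FinC_kk_int {ε : ℝ} (hε : 0 < ε) (h1 : ε ≤ 1) (y : V) {μ : Measure V}
    [IsFiniteMeasure μ] : Integrable (fun z => kk ε (tau y z)) μ := by
  have hm : Measurable (fun z : V => kk ε (tau y z)) := by
    have h := Measurable.comp (g := fun t : ℝ => kk ε t) (f := fun z : V => tau y z)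
      (FinC_kk_meas ε) (FinC_tau_meas' y)
    exact h
  refine Integrable.of_bound hm.aestronglyMeasurable (2 * ε⁻¹ ^ 4)
    (Filter.Eventually.of_forall fun z => ?_)
  rw [Real.norm_eq_abs, abs_of_nonneg (kk_nonneg (tau_le_one y z))]
  refine le_trans (kk_le hε h1 (tau_nonneg y z)) ?_
  have h4 : Real.exp (-(tau y z) / ε ^ 2) ≤ 1 := by
    rw [Real.exp_le_one_iff]
    exact div_nonpos_of_nonpos_of_nonneg (by linarith [tau_nonneg y z]) (by positivity)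
  calc 2 * ε⁻¹ ^ 4 * Real.exp (-(tau y z) / ε ^ 2) ≤ 2 * ε⁻¹ ^ 4 * 1 :=
        mul_le_mul_of_nonneg_left h4 (by positivity)
    _ = 2 * ε⁻¹ ^ 4 := mul_one _

theorem FinC_f_bound {F : Fin 3 → MvPolynomial (Fin 3) ℂ} {μ μ' : Measure V} (hμ : IsCur F μ)
    (hμ' : IsCur F μ') {A0 : V → M3} {CA : ℝ}
    (hCA : ∀ x : V, x ≠ 0 → ∀ j k, ‖A0 x j k‖ ≤ CA / N x) {ε : ℝ} (hε : 0 < ε) (h1 : ε ≤ 1)
    {y : V} (hy : y ≠ 0) :
    |N y * ((DD F μ μ' ε y - A0 y).trace).re| ≤ 3 * CA + 3 * ∫ z, kk ε (tau y z) ∂(μ + μ') := by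
  have hN := N_pos hy
  have : IsFiniteMeasure μ := ⟨by rw [hμ.prob]; exact ENNReal.one_lt_top⟩
  have : IsFiniteMeasure μ' := ⟨by rw [hμ'.prob]; exact ENNReal.one_lt_top⟩
  rw [integral_add_measure (FinC_kk_int hε h1 y) (FinC_kk_int hε h1 y)]
  have a1 := tr_sm_le hμ hε h1 hy
  have a2 := tr_sm_le hμ' hε h1 hy
  have b1 : 0 ≤ N y * ((sm F μ ε y).trace).re :=
    mul_nonneg hN.le (tr_nonneg (fun w => pos_sm hμ hε h1 hy w))
  have b2 : 0 ≤ N y * ((sm F μ' ε y).trace).re :=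
    mul_nonneg hN.le (tr_nonneg (fun w => pos_sm hμ' hε h1 hy w))
  have c1 : |N y * ((A0 y).trace).re| ≤ 3 * CA := by
    rw [abs_mul, abs_of_pos hN]
    have h2 : |((A0 y).trace).re| ≤ 3 * (CA / N y) := by
      refine le_trans (Complex.abs_re_le_norm _) ?_
      unfold Matrix.trace
      refine le_trans (norm_sum_le _ _) ?_
      rw [Fin.sum_univ_three]
      simp only [Matrix.diag_apply]
      linarith [hCA y hy 0 0, hCA y hy 1 1, hCA y hy 2 2]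
    calc N y * |((A0 y).trace).re| ≤ N y * (3 * (CA / N y)) :=
          mul_le_mul_of_nonneg_left h2 hN.le
      _ = 3 * CA := by field_simp
  have e : N y * ((DD F μ μ' ε y - A0 y).trace).re =
      N y * ((sm F μ ε y).trace).re - N y * ((sm F μ' ε y).trace).re -
        N y * ((A0 y).trace).re := by
    unfold DD
    rw [Matrix.trace_sub, Matrix.trace_sub, Complex.sub_re, Complex.sub_re]
    ring
  rw [e]
  rw [abs_le] at c1 ⊢
  constructor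
  · linarith [c1.1, c1.2]
  · linarith [c1.1, c1.2]

theorem near_p {F : Fin 3 → MvPolynomial (Fin 3) ℂ} {P : Finset V} (hP : SingPts F P)
    {μ μ' : Measure V} (hμ : IsCur F μ) (hμ' : IsCur F μ') (hd : DdcClosed F μ)
    (hd' : DdcClosed F μ') {A0 : V → M3} (hA : InH0 A0) {c0 : ℝ} (hc0 : 1 ≤ c0) :
    ∃ ρ0 : ℝ, 0 < ρ0 ∧ ∀ ρ : ℝ, 0 < ρ → ρ ≤ ρ0 → ∃ (r C : ℝ), 0 < r ∧ 0 < C ∧
      ∀ (ε s1 : ℝ) (φ : ℝ → ℝ) (p : V), 0 < ε → ε ≤ 1 → 1 ≤ s1 → Prof c0 s1 φ → p ∈ P →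
        ∀ κ : ℝ, 0 < κ →
        -(∫ x, (cutF φ ρ p x).re * (ee (DD F μ μ' ε x) (DD F μ μ' ε x)).re * wt x) ≤
          (51 + c0) * (nn (fun x => DD F μ μ' ε x - A0 x) (fun x => DD F μ μ' ε x - A0 x) + κ) +
          C * ((1 + En (μ + μ') P r ε) / s1) +
          2 * (∫ x in {x : V | x ≠ 0 ∧ tau x p ≤ ρ ^ 2}, ‖ee (A0 x) (DD F μ μ' ε x)‖ * wt x) +
          ∫ x in {x : V | x ≠ 0 ∧ tau x p ≤ ρ ^ 2}, ‖ee (A0 x) (A0 x)‖ * wt x := by
  obtain ⟨ρE, hρE, hEn⟩ := energy hP.unit hP.sep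
  obtain ⟨CA, hCA0, hCA⟩ := form_bound hA.form
  refine ⟨min ρE (1 / 2), lt_min hρE (by norm_num), ?_⟩
  intro ρ hρ hρ0
  obtain ⟨r, hr, hEn2⟩ := hEn ρ hρ (le_trans hρ0 (min_le_left _ _))
  have hρ2 : ρ ≤ 1 / 2 := le_trans hρ0 (min_le_right _ _)
  obtain ⟨CE, hCE, hEn3⟩ := hEn2 (3 * CA) (by linarith)
  refine ⟨r, (51 + c0) * CE, hr, by positivity, ?_⟩
  intro ε s1 φ p hε hε1 hs1 hφ hp κ hκ
  have hNp := hP.unit p hp
  have hD := inH0_D hμ hμ' hd hd' hε hε1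
  have hX : InH0 (fun x => DD F μ μ' ε x - A0 x) := inH0_sub hD hA
  set X : V → M3 := fun x => DD F μ μ' ε x - A0 x with hXdef
  have hκ' : 0 < Real.sqrt (κ / Real.pi ^ 3) := Real.sqrt_pos.2 (div_pos hκ FinC_pi)
  obtain ⟨n, hn⟩ := decomp hX hκ'
  obtain ⟨hu, ru⟩ := green_E hX n
  set u := green n (fun y => N y * ((X y).trace).re) with hudef
  have hE : InH0 (fun x => X x - L u x) := inH0_sub hX (inH0_L hu ru)
  have hnn : nn (fun x => X x - L u x) (fun x => X x - L u x) = nn X X :=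
    nn_sub_L hX.toInH hu ru
  have hhs := FinC_hs hE hκ hn
  rw [hnn] at hhs
  have hloc := loc_ineq_int hφ hc0 hs1 hρ hρ2 hNp hu ru hE
  have hLX : ∀ x, L u x + (X x - L u x) = X x := fun x => by abel
  simp only [hLX] at hloc
  -- the energy
  have hfm : AEStronglyMeasurable (fun y => N y * ((X y).trace).re) (volume : Measure V) := by
    have h := FinC_aesm (chom_Ntr hX.form).cont
    have h2 : AEStronglyMeasurable (fun x => ((N x : ℂ) * (X x).trace).re) (volume : Measure V) :=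
      Complex.continuous_re.comp_aestronglyMeasurable h
    refine h2.congr (Filter.Eventually.of_forall fun x => ?_)
    show ((N x : ℂ) * (X x).trace).re = _
    rw [Complex.re_ofReal_mul]
  have hfb : ∃ b : ℝ, ∀ y : V, y ≠ 0 → |N y * ((X y).trace).re| ≤ b := by
    obtain ⟨C, hC0, hC⟩ := chom_bound (chom_Ntr hX.form)
    refine ⟨Real.sqrt C, fun y hy => ?_⟩
    have h := hC y hy
    rw [add_zero, zpow_zero, mul_one] at h
    have h2 : ‖(N y : ℂ) * (X y).trace‖ ≤ Real.sqrt C := Real.le_sqrt_of_sq_le h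
    refine le_trans ?_ h2
    have h3 := Complex.abs_re_le_norm ((N y : ℂ) * (X y).trace)
    rwa [Complex.re_ofReal_mul] at h3
  have hmass : (μ + μ') Set.univ ≤ 2 := by
    rw [Measure.add_apply, hμ.prob, hμ'.prob]
    norm_num
  have hsph : ∀ᵐ y ∂(μ + μ'), N y = 1 := by
    rw [ae_add_measure_iff]
    exact ⟨hμ.sphere, hμ'.sphere⟩
  have hann := hEn3 p hp ε hε hε1 (μ + μ') hmass hsph (fun y => N y * ((X y).trace).re) n hfm hfb
    (fun y hy => FinC_f_bound hμ hμ' hCA hε hε1 hy)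
  have hs0 : 0 < s1 := by linarith
  have h51 : (0 : ℝ) ≤ 51 + c0 := by linarith
  have hA1 : (51 + c0) / s1 * (∫ x in Ann p ρ, gr (tt p) x * gr u x * wt x) ≤
      (51 + c0) * CE * ((1 + En (μ + μ') P r ε) / s1) := by
    calc (51 + c0) / s1 * (∫ x in Ann p ρ, gr (tt p) x * gr u x * wt x)
        ≤ (51 + c0) / s1 * (CE * (1 + En (μ + μ') P r ε)) :=
          mul_le_mul_of_nonneg_left hann (div_nonneg h51 hs0.le)
      _ = (51 + c0) * CE * ((1 + En (μ + μ') P r ε) / s1) := by ring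
  have hA2 : (51 + c0) * (∫ x, hs (X x - L u x) * wt x) ≤ (51 + c0) * (nn X X + κ) :=
    mul_le_mul_of_nonneg_left hhs h51
  -- expansion
  have i1 := FinC_int hφ hρ hNp hX.form hX.form
  have i2 := FinC_int hφ hρ hNp hA.form hD.form
  have i3 := FinC_int hφ hρ hNp hA.form hA.form
  have hexp : ∫ x, (cutF φ ρ p x).re * (ee (DD F μ μ' ε x) (DD F μ μ' ε x)).re * wt x =
      (∫ x, (cutF φ ρ p x).re * (ee (X x) (X x)).re * wt x) +
      2 * (∫ x, (cutF φ ρ p x).re * (ee (A0 x) (DD F μ μ' ε x)).re * wt x) -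
      ∫ x, (cutF φ ρ p x).re * (ee (A0 x) (A0 x)).re * wt x := by
    have j1 := integral_sub (i1.add (i2.const_mul 2)) i3
    have j2 := integral_add i1 (i2.const_mul 2)
    have j3 := integral_const_mul (μ := (volume : Measure V)) (2 : ℝ)
      (fun x => (cutF φ ρ p x).re * (ee (A0 x) (DD F μ μ' ε x)).re * wt x)
    rw [j3] at j2
    refine Eq.trans ?_ (j1.trans (congrArg
      (fun t : ℝ => t - ∫ x, (cutF φ ρ p x).re * (ee (A0 x) (A0 x)).re * wt x) j2))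
    refine integral_congr_ae (Filter.Eventually.of_forall fun x => ?_)
    show (cutF φ ρ p x).re * (ee (DD F μ μ' ε x) (DD F μ μ' ε x)).re * wt x =
      (cutF φ ρ p x).re * (ee (X x) (X x)).re * wt x +
      2 * ((cutF φ ρ p x).re * (ee (A0 x) (DD F μ μ' ε x)).re * wt x) -
      (cutF φ ρ p x).re * (ee (A0 x) (A0 x)).re * wt x
    rw [FinC_ee (DD F μ μ' ε x) (A0 x)]
    ring
  have t2 := FinC_term hφ hρ (p := p) hA.form hD.form
  have t3 := FinC_term hφ hρ (p := p) hA.form hA.form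
  rw [abs_le] at t2 t3
  rw [hexp]
  linarith [t2.1, t3.2]

end Pool.Agent.H85.DC

end S_H85_DC_FinC

section S_H85_DC_FinD

/-!
# Row FinD: the global estimate

`c0` from `exists_prof`. Let `k = #P`, `C* = (51 + c0)(k + 1)` (constant independent of `A0`). Given `A0`, `δ`, `β > 0`.
Let `β' = β/(8 (k + 1))`. Choose `ρ` so small that: `ρ ≤ ρ0` of `near_p`, `ρ ≤ ρ1` of `small_A0`, `small_AA` (for `β'`), `ρ ≤ 1/2`, and `16 ρ^2 < tau p p'` for all `p ≠ p'` in `P` (then the supports of `cutF φ ρ p` are disjoint: if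
`tau x p < ρ^2`, `tau x p' < ρ^2` then `√tau(p,p') < 2ρ`). Let `r, C` be given by `near_p`, `η = β'/(C + 1)`; `Adm` with `ρ, r, η` and `small_A0` give `ε0`. For `ε < ε0`: `s1` from `Adm`, `φ` a profile.
`nn DD DD = -∫ Re ee DD DD wt` (`qq` real part) `= ∑_p (-∫ F_p Re ee DD DD wt) - ∫ (1 - ∑_p F_p) Re ee DD DD wt`.
`1 - ∑ F_p ∈ [0,1]` (disjoint supports) and it vanishes where some `tau x p < r0 := ρ^2 e^{-(6 s1+1)}/2` (`cutF_one`; `r0 < 1/2`). `-Re ee DD DD = - Re ee S S - Re ee S' S' + 2 Re ee S S' ≤ 2 Re ee S S'`, `Re ee S S' ≥ 0` (`ee_pos`, `pos_sm`,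
`herm_sm`; `S = sm F μ ε`, `S' = sm F μ' ε`). So the last term is `≤ 2 Loss F μ μ' P r0 ε ≤ 2η`. The first terms: `near_p` with `κ = β'/(51 + c0)`: each `≤ (51+c0) nn X X + β' + C η + 2β' + β'`.
Total `≤ (51 + c0) k nn X X + 5 k β' + 2 η ≤ C* δ + β` when `nn X X ≤ δ`, using `nn X X ≥ 0` (`hodge`).
-/

open MeasureTheory
open scoped ContDiff BigOperators ComplexConjugate Matrix

namespace Pool.Agent.H85.DC

theorem FinD_ne_zero {F : Fin 3 → MvPolynomial (Fin 3) ℂ} {P : Finset V} (hP : SingPts F P)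
    {p : V} (hp : p ∈ P) : p ≠ 0 := by
  intro h
  have := hP.unit p hp
  rw [h] at this
  simp [N] at this

theorem FinD_sep {F : Fin 3 → MvPolynomial (Fin 3) ℂ} {P : Finset V} (hP : SingPts F P) :
    ∃ d : ℝ, 0 < d ∧ ∀ p ∈ P, ∀ p' ∈ P, p ≠ p' → d ≤ tau p p' := by
  classical
  by_cases h : P.offDiag.Nonempty
  · obtain ⟨q, hq, hmin⟩ := Finset.exists_min_image P.offDiag (fun q => tau q.1 q.2) h
    rw [Finset.mem_offDiag] at hq
    refine ⟨tau q.1 q.2, hP.sep _ hq.1 _ hq.2.1 hq.2.2, fun p hp p' hp' hne => ?_⟩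
    exact hmin (p, p') (Finset.mem_offDiag.mpr ⟨hp, hp', hne⟩)
  · refine ⟨1, one_pos, fun p hp p' hp' hne => ?_⟩
    exact absurd ⟨(p, p'), Finset.mem_offDiag.mpr ⟨hp, hp', hne⟩⟩ h

theorem FinD_disj {F : Fin 3 → MvPolynomial (Fin 3) ℂ} {P : Finset V} (hP : SingPts F P)
    {c0 s1 : ℝ} {φ : ℝ → ℝ} (hφ : Prof c0 s1 φ) {ρ : ℝ} (hρ : 0 < ρ)
    (hd : ∀ p ∈ P, ∀ p' ∈ P, p ≠ p' → 4 * ρ ^ 2 ≤ tau p p') {x : V} (hx : x ≠ 0)
    {p p' : V} (hp : p ∈ P) (hp' : p' ∈ P) (hne : p ≠ p') (h : cutF φ ρ p x ≠ 0) :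
    cutF φ ρ p' x = 0 := by
  by_contra h'
  have h1 : tau x p < ρ ^ 2 := by
    by_contra hn
    exact h (cutF_zero hφ hρ (not_lt.mp hn))
  have h2 : tau x p' < ρ ^ 2 := by
    by_contra hn
    exact h' (cutF_zero hφ hρ (not_lt.mp hn))
  have h3 := tau_two (FinD_ne_zero hP hp) hx (FinD_ne_zero hP hp')
  have h4 := hd p hp p' hp' hne
  rw [tau_symm p x] at h3
  linarith

theorem FinD_part {F : Fin 3 → MvPolynomial (Fin 3) ℂ} {P : Finset V} (hP : SingPts F P)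
    {c0 s1 : ℝ} {φ : ℝ → ℝ} (hφ : Prof c0 s1 φ) {ρ : ℝ} (hρ : 0 < ρ)
    (hd : ∀ p ∈ P, ∀ p' ∈ P, p ≠ p' → 4 * ρ ^ 2 ≤ tau p p') {x : V} (hx : x ≠ 0) :
    0 ≤ 1 - ∑ p ∈ P, (cutF φ ρ p x).re ∧ 1 - ∑ p ∈ P, (cutF φ ρ p x).re ≤ 1 := by
  have hnn : 0 ≤ ∑ p ∈ P, (cutF φ ρ p x).re := Finset.sum_nonneg fun p _ => (cutF_mem hφ ρ p x).1
  refine ⟨?_, by linarith⟩
  by_cases h : ∃ p ∈ P, cutF φ ρ p x ≠ 0
  · obtain ⟨p, hp, hpx⟩ := h
    have : ∑ p ∈ P, (cutF φ ρ p x).re = (cutF φ ρ p x).re := by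
      apply Finset.sum_eq_single_of_mem p hp
      intro p' hp' hne
      rw [FinD_disj hP hφ hρ hd hx hp hp' hne.symm hpx]
      rfl
    rw [this]
    linarith [(cutF_mem hφ ρ p x).2]
  · push Not at h
    have : ∑ p ∈ P, (cutF φ ρ p x).re = 0 := by
      apply Finset.sum_eq_zero
      intro p hp
      rw [h p hp]
      rfl
    rw [this]
    norm_num

theorem FinD_part_zero {F : Fin 3 → MvPolynomial (Fin 3) ℂ} {P : Finset V} (hP : SingPts F P)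
    {c0 s1 : ℝ} {φ : ℝ → ℝ} (hφ : Prof c0 s1 φ) (hs1 : 1 ≤ s1) {ρ : ℝ} (hρ : 0 < ρ)
    (hρ' : ρ ≤ 1 / 2) (hd : ∀ p ∈ P, ∀ p' ∈ P, p ≠ p' → 4 * ρ ^ 2 ≤ tau p p') {x : V}
    (hx : x ≠ 0) {p : V} (hp : p ∈ P) (ht : tau x p < ρ ^ 2 * Real.exp (-(6 * s1 + 1)) / 2) :
    1 - ∑ p ∈ P, (cutF φ ρ p x).re = 0 := by
  have h2 : tau x p < 1 / 2 := by
    have h3 : Real.exp (-(6 * s1 + 1)) ≤ 1 := Real.exp_le_one_iff.mpr (by linarith)
    have h4 : 0 < Real.exp (-(6 * s1 + 1)) := Real.exp_pos _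
    have h5 : ρ ^ 2 ≤ 1 := by nlinarith
    have h6 : ρ ^ 2 * Real.exp (-(6 * s1 + 1)) ≤ 1 * 1 :=
      mul_le_mul h5 h3 h4.le (by norm_num)
    linarith
  have h1 := cutF_one hφ hρ ht h2
  have hne : cutF φ ρ p x ≠ 0 := by rw [h1]; exact one_ne_zero
  have : ∑ p ∈ P, (cutF φ ρ p x).re = (cutF φ ρ p x).re := by
    apply Finset.sum_eq_single_of_mem p hp
    intro p' hp' hne'
    rw [FinD_disj hP hφ hρ hd hx hp hp' hne'.symm hne]
    rfl
  rw [this, h1]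
  simp

theorem FinD_re {f : V → ℂ} (hf : Integrable (fun x => f x * (wt x : ℂ))) :
    Integrable (fun x => (f x).re * wt x) ∧
      (∫ x, f x * (wt x : ℂ)).re = ∫ x, (f x).re * wt x := by
  have h1 : (fun x => (f x).re * wt x) = fun x => RCLike.re (f x * (wt x : ℂ)) := by
    funext x
    exact (Complex.re_mul_ofReal _ _).symm
  rw [h1]
  exact ⟨hf.re, (integral_re hf).symm⟩

theorem FinD_cut_int {c0 s1 : ℝ} {φ : ℝ → ℝ} (hφ : Prof c0 s1 φ) {ρ : ℝ} (hρ : 0 < ρ) {p : V}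
    (hp : N p = 1) {A B : V → M3} (hA : IsForm A) (hB : IsForm B) :
    Integrable (fun x => (cutF φ ρ p x).re * (ee (A x) (B x)).re * wt x) := by
  have h1 : IsForm (fun x => cutF φ ρ p x • A x) :=
    form_smul_fun hA (isFun_iff.mp (isFun_cutF hφ hρ hp)).chom
  have h2 := (FinD_re (ee_int h1 hB)).1
  refine h2.congr (Filter.Eventually.of_forall fun x => ?_)
  show (ee (cutF φ ρ p x • A x) (B x)).re * wt x = (cutF φ ρ p x).re * (ee (A x) (B x)).re * wt x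
  have him : (cutF φ ρ p x).im = 0 := Complex.conj_eq_iff_im.mp (isRe_cutF φ ρ p x)
  rw [ee_smul_left, Complex.mul_re, him, zero_mul, sub_zero]

theorem FinD_ae_ne : ∀ᵐ x ∂(volume : Measure V), x ≠ 0 := by
  have h : (volume : Measure V) {(0 : V)} = 0 := measure_singleton _
  exact measure_eq_zero_iff_ae_notMem.mp h

theorem FinD_meas1 (p : V) (r : ℝ) : MeasurableSet {x : V | r ≤ tau x p} := by
  have h4 : Measurable (fun x : V => ((x, p) : V × V)) := measurable_id.prodMk measurable_const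
  have h3 : Measurable ((fun q : V × V => tau q.1 q.2) ∘ (fun x : V => ((x, p) : V × V))) :=
    measurable_tau.comp h4
  have h5 : {x : V | r ≤ tau x p} =
      ((fun q : V × V => tau q.1 q.2) ∘ (fun x : V => ((x, p) : V × V))) ⁻¹' Set.Ici r := rfl
  rw [h5]
  exact h3 measurableSet_Ici

theorem FinD_meas (P : Finset V) (r : ℝ) :
    MeasurableSet {x : V | x ≠ 0 ∧ ∀ p ∈ P, r ≤ tau x p} := by
  have h1 : MeasurableSet {x : V | x ≠ 0} := (measurableSet_singleton (0 : V)).compl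
  have h2 : {x : V | x ≠ 0 ∧ ∀ p ∈ P, r ≤ tau x p} =
      {x : V | x ≠ 0} ∩ ⋂ p ∈ P, {x : V | r ≤ tau x p} := by
    ext x
    simp only [Set.mem_ofPred_eq, Set.mem_inter_iff, Set.mem_iInter]
  rw [h2]
  exact h1.inter (Finset.measurableSet_biInter P fun p _ => FinD_meas1 p r)

theorem FinD_pt {F : Fin 3 → MvPolynomial (Fin 3) ℂ} {μ μ' : Measure V} (hμ : IsCur F μ)
    (hμ' : IsCur F μ') {ε : ℝ} (hε : 0 < ε) (h1 : ε ≤ 1) {x : V} (hx : x ≠ 0) :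
    0 ≤ (ee (sm F μ ε x) (sm F μ' ε x)).re ∧
      -(ee (DD F μ μ' ε x) (DD F μ μ' ε x)).re ≤ 2 * (ee (sm F μ ε x) (sm F μ' ε x)).re := by
  set S := sm F μ ε x with hS
  set S' := sm F μ' ε x with hS'
  have a1 : 0 ≤ (ee S S).re := ee_pos (herm_sm hμ hε h1 x hx) (pos_sm hμ hε h1 hx)
    (herm_sm hμ hε h1 x hx) (pos_sm hμ hε h1 hx)
  have a2 : 0 ≤ (ee S' S').re := ee_pos (herm_sm hμ' hε h1 x hx) (pos_sm hμ' hε h1 hx)
    (herm_sm hμ' hε h1 x hx) (pos_sm hμ' hε h1 hx)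
  have a3 : 0 ≤ (ee S S').re := ee_pos (herm_sm hμ hε h1 x hx) (pos_sm hμ hε h1 hx)
    (herm_sm hμ' hε h1 x hx) (pos_sm hμ' hε h1 hx)
  refine ⟨a3, ?_⟩
  have e1 : DD F μ μ' ε x = S + (-1 : ℂ) • S' := by
    show S - S' = S + (-1 : ℂ) • S'
    rw [neg_one_smul, sub_eq_add_neg]
  have e2 : ee (DD F μ μ' ε x) (DD F μ μ' ε x) = ee S S + ee S' S' - 2 * ee S S' := by
    rw [e1, ee_add_left, ee_smul_left, ee_comm S (S + (-1 : ℂ) • S'),
      ee_comm S' (S + (-1 : ℂ) • S'), ee_add_left, ee_smul_left, ee_add_left, ee_smul_left,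
      ee_comm S' S]
    ring
  rw [e2]
  simp only [Complex.sub_re, Complex.add_re, Complex.mul_re, Complex.re_ofNat, Complex.im_ofNat,
    zero_mul, sub_zero]
  linarith

theorem FinD_split {F : Fin 3 → MvPolynomial (Fin 3) ℂ} {P : Finset V} (hP : SingPts F P)
    {μ μ' : Measure V} (hμ : IsCur F μ) (hμ' : IsCur F μ')
    {c0 s1 : ℝ} {φ : ℝ → ℝ} (hφ : Prof c0 s1 φ) (hs1 : 1 ≤ s1) {ρ : ℝ} (hρ : 0 < ρ)
    (hρ' : ρ ≤ 1 / 2) (hd : ∀ p ∈ P, ∀ p' ∈ P, p ≠ p' → 4 * ρ ^ 2 ≤ tau p p')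
    {ε : ℝ} (hε : 0 < ε) (h1 : ε ≤ 1) :
    nn (DD F μ μ' ε) (DD F μ μ' ε) ≤
      (∑ p ∈ P, -(∫ x, (cutF φ ρ p x).re * (ee (DD F μ μ' ε x) (DD F μ μ' ε x)).re * wt x)) +
        2 * Loss F μ μ' P (ρ ^ 2 * Real.exp (-(6 * s1 + 1)) / 2) ε := by
  have hD : IsForm (DD F μ μ' ε) := form_sub (form_sm hμ hε h1) (form_sm hμ' hε h1)
  set D := DD F μ μ' ε with hDdef
  set r0 := ρ ^ 2 * Real.exp (-(6 * s1 + 1)) / 2 with hr0
  obtain ⟨iR, eR⟩ := FinD_re (ee_int hD hD)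
  have iF : ∀ p ∈ P, Integrable (fun x => (cutF φ ρ p x).re * (ee (D x) (D x)).re * wt x) :=
    fun p hp => FinD_cut_int hφ hρ (hP.unit p hp) hD hD
  have iS : Integrable (fun x => ∑ p ∈ P, (cutF φ ρ p x).re * (ee (D x) (D x)).re * wt x) :=
    integrable_finsetSum P iF
  obtain ⟨iL, _⟩ := FinD_re (ee_int (form_sm hμ hε h1) (form_sm hμ' hε h1))
  have hm := FinD_meas P r0
  have key1 : ∫ x, -((ee (D x) (D x)).re * wt x -
      ∑ p ∈ P, (cutF φ ρ p x).re * (ee (D x) (D x)).re * wt x) ≤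
      ∫ x, Set.indicator {x : V | x ≠ 0 ∧ ∀ p ∈ P, r0 ≤ tau x p}
        (fun x => 2 * ((ee (sm F μ ε x) (sm F μ' ε x)).re * wt x)) x := by
    apply integral_mono_ae (iR.sub iS).neg ((iL.const_mul 2).indicator hm)
    filter_upwards [FinD_ae_ne] with x hx
    have hw : 0 < wt x := Real.exp_pos _
    obtain ⟨b1, b2⟩ := FinD_pt hμ hμ' hε h1 hx
    obtain ⟨g1, g2⟩ := FinD_part hP hφ hρ hd hx
    have hfac : -((ee (D x) (D x)).re * wt x -
        ∑ p ∈ P, (cutF φ ρ p x).re * (ee (D x) (D x)).re * wt x) =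
        (1 - ∑ p ∈ P, (cutF φ ρ p x).re) * (-(ee (D x) (D x)).re) * wt x := by
      rw [sub_mul, sub_mul, Finset.sum_mul, Finset.sum_mul, one_mul]
      rw [neg_sub, sub_eq_add_neg, add_comm, neg_mul]
      congr 1
      rw [← Finset.sum_neg_distrib]
      apply Finset.sum_congr rfl
      intro p _
      ring
    show -((ee (D x) (D x)).re * wt x -
        ∑ p ∈ P, (cutF φ ρ p x).re * (ee (D x) (D x)).re * wt x) ≤ _
    rw [hfac]
    by_cases hxm : x ∈ {x : V | x ≠ 0 ∧ ∀ p ∈ P, r0 ≤ tau x p}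
    · rw [Set.indicator_of_mem hxm]
      have c1 : (1 - ∑ p ∈ P, (cutF φ ρ p x).re) * (-(ee (D x) (D x)).re) ≤
          2 * (ee (sm F μ ε x) (sm F μ' ε x)).re := by
        have c2 : (1 - ∑ p ∈ P, (cutF φ ρ p x).re) * (-(ee (D x) (D x)).re) ≤
            (1 - ∑ p ∈ P, (cutF φ ρ p x).re) * (2 * (ee (sm F μ ε x) (sm F μ' ε x)).re) :=
          mul_le_mul_of_nonneg_left b2 g1
        have c3 : (1 - ∑ p ∈ P, (cutF φ ρ p x).re) * (2 * (ee (sm F μ ε x) (sm F μ' ε x)).re) ≤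
            1 * (2 * (ee (sm F μ ε x) (sm F μ' ε x)).re) :=
          mul_le_mul_of_nonneg_right g2 (by linarith)
        linarith
      have c4 := mul_le_mul_of_nonneg_right c1 hw.le
      linarith
    · rw [Set.indicator_of_notMem hxm]
      have : ∃ p ∈ P, tau x p < r0 := by
        by_contra hn
        push Not at hn
        exact hxm ⟨hx, hn⟩
      obtain ⟨p, hp, hpt⟩ := this
      rw [FinD_part_zero hP hφ hs1 hρ hρ' hd hx hp hpt]
      simp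
  have e1 : ∫ x, -((ee (D x) (D x)).re * wt x -
      ∑ p ∈ P, (cutF φ ρ p x).re * (ee (D x) (D x)).re * wt x) =
      -(∫ x, (ee (D x) (D x)).re * wt x) +
        ∑ p ∈ P, ∫ x, (cutF φ ρ p x).re * (ee (D x) (D x)).re * wt x := by
    rw [integral_neg, integral_sub iR iS, integral_finsetSum P iF]
    ring
  have e2 : ∫ x, Set.indicator {x : V | x ≠ 0 ∧ ∀ p ∈ P, r0 ≤ tau x p}
        (fun x => 2 * ((ee (sm F μ ε x) (sm F μ' ε x)).re * wt x)) x =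
      2 * Loss F μ μ' P r0 ε := by
    rw [integral_indicator hm, integral_const_mul]
    rfl
  rw [e1, e2] at key1
  have e3 : nn D D = -(∫ x, (ee (D x) (D x)).re * wt x) := by
    unfold nn qq
    rw [eR]
  rw [e3, Finset.sum_neg_distrib]
  linarith

/-- The pointwise form of the global estimate: admissibility is only used at the given `ε`. -/
theorem key_pt {F : Fin 3 → MvPolynomial (Fin 3) ℂ} {P : Finset V} (hP : SingPts F P)
    {μ μ' : Measure V} (hμ : IsCur F μ) (hμ' : IsCur F μ') (hd : DdcClosed F μ)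
    (hd' : DdcClosed F μ') :
    ∃ C : ℝ, 0 < C ∧ ∀ A0 : V → M3, InH0 A0 → ∀ δ β : ℝ, 0 < δ → 0 < β →
      ∃ ρ r η ε0 : ℝ, 0 < ρ ∧ ρ ≤ 1 / 2 ∧ 0 < r ∧ 0 < η ∧ 0 < ε0 ∧ ε0 ≤ 1 ∧
        ∀ ε : ℝ, 0 < ε → ε < ε0 →
          (∃ s1 : ℝ, 1 ≤ s1 ∧ (1 + En (μ + μ') P r ε) / s1 ≤ η ∧
            Loss F μ μ' P (ρ ^ 2 * Real.exp (-(6 * s1 + 1)) / 2) ε ≤ η) →
          nn (fun x => DD F μ μ' ε x - A0 x) (fun x => DD F μ μ' ε x - A0 x) ≤ δ →
            nn (DD F μ μ' ε) (DD F μ μ' ε) ≤ C * δ + β := by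
  obtain ⟨c0, hc0, hprof⟩ := exists_prof
  have hk0 : (0 : ℝ) ≤ (P.card : ℝ) := Nat.cast_nonneg _
  refine ⟨(51 + c0) * ((P.card : ℝ) + 1), by positivity, ?_⟩
  intro A0 hA δ β hδ hβ
  set k : ℝ := (P.card : ℝ) with hk
  set β' : ℝ := β / (8 * (k + 1)) with hβ'
  have hβ0 : 0 < β' := by rw [hβ']; positivity
  have hββ : 8 * (k + 1) * β' = β := by rw [hβ']; field_simp
  obtain ⟨ρ0, hρ0, hnear⟩ := near_p hP hμ hμ' hd hd' hA hc0
  obtain ⟨ρ1, hρ1, hsA⟩ := small_A0 hP hμ hμ' hA.form hβ0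
  obtain ⟨ρ2, hρ2, hsAA⟩ := small_AA hA.form hP.unit hβ0
  obtain ⟨d, hd0, hsep⟩ := FinD_sep hP
  obtain ⟨ρ, hρ, hr0, hr1, hr2, hr3, hr4⟩ : ∃ ρ : ℝ, 0 < ρ ∧ ρ ≤ ρ0 ∧ ρ ≤ ρ1 ∧ ρ ≤ ρ2 ∧
      ρ ≤ 1 / 2 ∧ 2 * ρ ≤ d := by
    refine ⟨min (min ρ0 ρ1) (min ρ2 (min (1 / 2) (d / 2))), ?_, ?_, ?_, ?_, ?_, ?_⟩
    · exact lt_min (lt_min hρ0 hρ1) (lt_min hρ2 (lt_min (by norm_num) (by linarith)))
    · exact (min_le_left _ _).trans (min_le_left _ _)
    · exact (min_le_left _ _).trans (min_le_right _ _)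
    · exact (min_le_right _ _).trans (min_le_left _ _)
    · exact (min_le_right _ _).trans ((min_le_right _ _).trans (min_le_left _ _))
    · have : min (min ρ0 ρ1) (min ρ2 (min (1 / 2) (d / 2))) ≤ d / 2 :=
        (min_le_right _ _).trans ((min_le_right _ _).trans (min_le_right _ _))
      linarith
  have hdd : ∀ p ∈ P, ∀ p' ∈ P, p ≠ p' → 4 * ρ ^ 2 ≤ tau p p' := by
    intro p hp p' hp' hne
    have h1 := hsep p hp p' hp' hne
    have h2 : 4 * ρ ^ 2 ≤ d := by nlinarith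
    linarith
  obtain ⟨r, C, hr, hC, hest⟩ := hnear ρ hρ hr0
  set η : ℝ := β' / (C + 1) with hη
  have hη0 : 0 < η := by rw [hη]; positivity
  have hη1 : η * (C + 1) = β' := by rw [hη]; field_simp
  have hηC : C * η ≤ β' := by nlinarith
  have hηβ : η ≤ β' := by nlinarith
  obtain ⟨εb, hεb, hsmall⟩ := hsA ρ hρ hr1
  refine ⟨ρ, r, η, min 1 εb, hρ, hr3, hr, hη0, lt_min one_pos hεb, min_le_left _ _, ?_⟩
  intro ε hε hlt hAdm hX
  have hε1 : ε ≤ 1 := (hlt.trans_le (min_le_left _ _)).le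
  have hεb' : ε < εb := hlt.trans_le (min_le_right _ _)
  obtain ⟨s1, hs1, hEn, hLoss⟩ := hAdm
  obtain ⟨φ, hφ⟩ := hprof s1 hs1
  have hsplit := FinD_split hP hμ hμ' hφ hs1 hρ hr3 hdd hε hε1
  have hc51 : 0 < 51 + c0 := by linarith
  have hterm : ∀ p ∈ P,
      -(∫ x, (cutF φ ρ p x).re * (ee (DD F μ μ' ε x) (DD F μ μ' ε x)).re * wt x) ≤
        (51 + c0) * δ + 5 * β' := by
    intro p hp
    have h1 := hest ε s1 φ p hε hε1 hs1 hφ hp (β' / (51 + c0)) (by positivity)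
    have h2 := hsmall ε hε hεb' p hp
    have h3 := hsAA ρ hρ hr2 p hp
    have h4 : C * ((1 + En (μ + μ') P r ε) / s1) ≤ C * η := mul_le_mul_of_nonneg_left hEn hC.le
    have h5 : (51 + c0) * (nn (fun x => DD F μ μ' ε x - A0 x) (fun x => DD F μ μ' ε x - A0 x) +
        β' / (51 + c0)) ≤ (51 + c0) * δ + β' := by
      rw [mul_add, mul_div_cancel₀ _ hc51.ne']
      have := mul_le_mul_of_nonneg_left hX hc51.le
      linarith
    linarith
  have hsum : (∑ p ∈ P,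
      -(∫ x, (cutF φ ρ p x).re * (ee (DD F μ μ' ε x) (DD F μ μ' ε x)).re * wt x)) ≤
        k * ((51 + c0) * δ + 5 * β') := by
    have h1 := Finset.sum_le_sum hterm
    rw [Finset.sum_const, nsmul_eq_mul] at h1
    exact h1
  have hfin1 : k * ((51 + c0) * δ + 5 * β') + 2 * η ≤ (51 + c0) * (k + 1) * δ + β := by
    have h1 : 0 < (51 + c0) * δ := by positivity
    have h2 : 0 ≤ k * β' := by positivity
    nlinarith
  linarith

theorem key {F : Fin 3 → MvPolynomial (Fin 3) ℂ} {P : Finset V} (hP : SingPts F P)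
    {μ μ' : Measure V} (hμ : IsCur F μ) (hμ' : IsCur F μ') (hd : DdcClosed F μ)
    (hd' : DdcClosed F μ') (hadm : Adm F μ μ' P) :
    ∃ C : ℝ, 0 < C ∧ ∀ A0 : V → M3, InH0 A0 → ∀ δ β : ℝ, 0 < δ → 0 < β →
      ∃ ε0 : ℝ, 0 < ε0 ∧ ε0 ≤ 1 ∧ ∀ ε : ℝ, 0 < ε → ε < ε0 →
        nn (fun x => DD F μ μ' ε x - A0 x) (fun x => DD F μ μ' ε x - A0 x) ≤ δ →
          nn (DD F μ μ' ε) (DD F μ μ' ε) ≤ C * δ + β := by
  obtain ⟨C, hC, h⟩ := key_pt hP hμ hμ' hd hd'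
  refine ⟨C, hC, fun A0 hA δ β hδ hβ => ?_⟩
  obtain ⟨ρ, r, η, ε1, hρ, hρ', hr, hη, hε1, hε1', hest⟩ := h A0 hA δ β hδ hβ
  obtain ⟨εa, hεa, hAdm⟩ := hadm ρ r η hρ hρ' hr hη
  refine ⟨min ε1 εa, lt_min hε1 hεa, (min_le_left _ _).trans hε1', fun ε hε hlt hX => ?_⟩
  exact hest ε hε (hlt.trans_le (min_le_left _ _))
    (hAdm ε hε (hlt.trans_le (min_le_right _ _))) hX

end Pool.Agent.H85.DC

end S_H85_DC_FinD

section S_H85_DC_FinW

/-!
# MP_6873ef_an: the final assembly from weak admissibility (helper85)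
-/

open MeasureTheory
open scoped ContDiff BigOperators ComplexConjugate Matrix

namespace Pool.Agent.H85.DC

/-- Weak admissibility: the estimates hold for arbitrarily small `ε`. -/
def AdmW (F : Fin 3 → MvPolynomial (Fin 3) ℂ) (μ μ' : Measure V) (P : Finset V) : Prop :=
  ∀ ρ r η ε0 : ℝ, 0 < ρ → ρ ≤ 1 / 2 → 0 < r → 0 < η → 0 < ε0 → ∃ ε : ℝ, 0 < ε ∧ ε < ε0 ∧
    ∃ s1 : ℝ, 1 ≤ s1 ∧ (1 + En (μ + μ') P r ε) / s1 ≤ η ∧
      Loss F μ μ' P (ρ ^ 2 * Real.exp (-(6 * s1 + 1)) / 2) ε ≤ η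

theorem admW_symm {F : Fin 3 → MvPolynomial (Fin 3) ℂ} {μ μ' : Measure V} {P : Finset V}
    (h : AdmW F μ μ' P) : AdmW F μ' μ P := by
  intro ρ r η ε0 h1 h2 h3 h4 h5
  obtain ⟨ε, h6, h7, s1, h8, h9, h10⟩ := h ρ r η ε0 h1 h2 h3 h4 h5
  refine ⟨ε, h6, h7, s1, h8, ?_, ?_⟩
  · rwa [add_comm μ' μ]
  · rwa [loss_symm]

theorem nn_sub_sq' {A B : V → M3} (hA : InH0 A) (hB : InH0 B) :
    nn (fun x => A x - B x) (fun x => A x - B x) = nn A A - 2 * nn A B + nn B B := by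
  rw [nn_sub_left hA.form hB.form (form_sub hA.form hB.form)]
  rw [nn_comm A, nn_comm B, nn_sub_left hA.form hB.form hA.form,
    nn_sub_left hA.form hB.form hB.form, nn_comm B A]
  ring

theorem opt_zeroW {F : Fin 3 → MvPolynomial (Fin 3) ℂ} {P : Finset V} (hP : SingPts F P)
    {μ μ' : Measure V} (hμ : IsCur F μ) (hμ' : IsCur F μ') (hd : DdcClosed F μ)
    (hd' : DdcClosed F μ') (hadm : AdmW F μ μ' P) :
    ∀ A : V → M3, InH0 A → (Dl F μ μ' A).re = 0 := by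
  obtain ⟨K, hK0, hK, hopt⟩ := near_opt hμ hμ' hd hd'
  obtain ⟨C, hC, hkey⟩ := key_pt hP hμ hμ' hd hd'
  have main : ∀ δ : ℝ, 0 < δ → K ≤ (2 * C + 3) * δ := by
    intro δ hδ
    obtain ⟨A0, hA0, hD, hnA⟩ := hopt δ hδ
    obtain ⟨ρ, r, η, ε0, hρ, hρ', hr, hη, hε0, hε01, hk⟩ :=
      hkey A0 hA0 (2 * δ) δ (by linarith) hδ
    have ht := dl_tendsto (F := F) hμ hμ' hA0.form
    have hev : ∀ᶠ ε : ℝ in nhdsWithin 0 (Set.Ioi 0),
        (Dl F μ μ' (av ε A0)).re < -nn A0 A0 + δ / 2 := by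
      apply ht.eventually_lt_const
      rw [hD]
      linarith
    obtain ⟨u, hu, hu2⟩ := (mem_nhdsGT_iff_exists_Ioo_subset).1 hev
    obtain ⟨ε, hεpos, hεlt, hs⟩ := hadm ρ r η (min ε0 u) hρ hρ' hr hη (lt_min hε0 hu)
    have hε1 : (Dl F μ μ' (av ε A0)).re < -nn A0 A0 + δ / 2 :=
      hu2 ⟨hεpos, lt_of_lt_of_le hεlt (min_le_right _ _)⟩
    have hε2 : ε < ε0 := lt_of_lt_of_le hεlt (min_le_left _ _)
    have hεle : ε ≤ 1 := le_trans hε2.le hε01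
    have hDH := inH0_D hμ hμ' hd hd' hεpos hεle
    have hX := nn_sub_sq' hDH hA0
    have hself := dl_self hμ hμ' hd hd' hK0 hK hεpos hεle
    have hDA := nn_DD hμ hμ' hA0.form hεpos hεle
    have hpos := hodge (inH0_sub hDH hA0)
    have h1 : nn (fun x => DD F μ μ' ε x - A0 x) (fun x => DD F μ μ' ε x - A0 x) ≤ 2 * δ := by
      rw [hX, hDA]
      linarith
    have h2 := hk ε hεpos hε2 hs h1
    rw [hX, hDA] at hpos
    nlinarith
  have hK00 : K ≤ 0 := by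
    by_contra hcon
    push Not at hcon
    have h := main (K / (2 * (2 * C + 3))) (by positivity)
    have h3 : (2 * C + 3) * (K / (2 * (2 * C + 3))) = K / 2 := by
      field_simp
    rw [h3] at h
    linarith
  intro A hA
  have h := hK A hA
  have hKz : K = 0 := le_antisymm hK00 hK0
  rw [hKz, zero_mul] at h
  have : (Dl F μ μ' A).re ^ 2 = 0 := le_antisymm h (sq_nonneg _)
  exact pow_eq_zero_iff (two_ne_zero) |>.1 this

/-- Weak admissibility implies that the difference of the currents is closed. -/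
theorem closed_of_admW {F : Fin 3 → MvPolynomial (Fin 3) ℂ} {P : Finset V} (hP : SingPts F P)
    {μS μT : Measure V} (hS : IsCur F μS) (hT : IsCur F μT) (dS : DdcClosed F μS)
    (dT : DdcClosed F μT) (h : AdmW F μS μT P) :
    (∀ ζ : V → V, IsCov ζ → ∫ y, pr F (db ζ) y ∂μS = ∫ y, pr F (db ζ) y ∂μT) ∧
      (CurClosed F μT → CurClosed F μS) := by
  have h0 := opt_zeroW hP hS hT dS dT h
  have h1 : ∀ ζ : V → V, IsCov ζ → ∫ y, pr F (db ζ) y ∂μS = ∫ y, pr F (db ζ) y ∂μT :=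
    fun ζ hζ => closed_of_zero hS hT h0 hζ
  refine ⟨h1, fun hc ζ hζ => ?_⟩
  rw [h1 ζ hζ]
  exact hc ζ hζ

end Pool.Agent.H85.DC

end S_H85_DC_FinW

section S_H76_FT_TJ

/-!
# Row TJ: choice of the scale

Constants: C1, c, m from `loss3` (wlog m ≥ 1: for m = 0 ... use max m 1, r0 ≤ 1), C2 from `EK`, C3 from `dyadic`; `lelong_pt` for μ', `curv` for μ (K = d + 1), `mass_bound` for both, `q2_tendsto`, `en_small2`.
Given ρ ≤ 1/2, r, η, ε0.  Choose c' in (0, 1] with `6 c' m ≤ 1` and `C1 C3 C2 * 6 c' ≤ η/8`.  For J : ℕ put s1 = c' J (≥ 1 for large J), r0 = ρ^2 exp(-(6 s1 + 1))/2 (< 1), so `log (1/(r0/4)) = log (8/ρ^2) + 6 c' J + 1`.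
`∑_{j ∈ [J, 2J)} L1 (r0/4) ((1/2)^j) ≤ C3 C2 (2 + log(8/ρ^2) + 6 c' J)` (`dyadic`, `EK` with r = r0/4), so some j ∈ [J, 2J) has `L1 ≤ C3 C2 ((2 + log(8/ρ^2))/J + 6 c')`, and `C1` times it is `≤ η/4` for J large.
Let ε = (1/2)^j ≤ (1/2)^J.
 - `r0^(-m) ε^2 ≤ (2e/ρ^2)^m exp(6 c' m J) 4^(-J) ≤ (2e/ρ^2)^m (e/4)^J ≤ 1` for J large, so `ofReal(1 + ..) * Q2 ≤ 2 Q2 → 0` (`q2_tendsto`: there is δ with Q2 ε ≤ η/(8 C1) for ε < δ).
 - `c r0^m/ε^2 ≥ c (ρ^2/(2e))^m exp(-6c' m J) 4^J ≥ c_ρ (4/e)^J` and `ε^(-8) ≤ 2^(16 J)`: `ε^(-8) exp(-c r0^m/ε^2) ≤ 2^(16J) exp(-c_ρ (4/e)^J) → 0`.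
 So Loss ≤ η (ofReal comparison: `ENNReal.ofReal_le_ofReal_iff` with 0 ≤ η).
 - `(1 + En)/s1 ≤ (1 + η' log(1/ε))/(c' J) ≤ (1 + η' 2 J log 2)/(c' J) ≤ η` with η' = c' η/4 and J large (`en_small2`).
 - ε < ε0 for J large.
-/

open MeasureTheory Filter Topology
open scoped ContDiff BigOperators ComplexConjugate Matrix

namespace FT76

open Pool.Agent.H85.DC

/-- the radius at step `J` -/
noncomputable def TJ_r (ρ c' : ℝ) (J : ℕ) : ℝ := ρ ^ 2 * Real.exp (-(6 * (c' * J) + 1)) / 2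

theorem TJ_r_pos {ρ : ℝ} (hρ : 0 < ρ) (c' : ℝ) (J : ℕ) : 0 < TJ_r ρ c' J := by
  unfold TJ_r
  positivity

theorem TJ_r_le {ρ c' : ℝ} (hρ : 0 < ρ) (hρ' : ρ ≤ 1 / 2) (hc : 0 ≤ c') (J : ℕ) : TJ_r ρ c' J < 1 := by
  unfold TJ_r
  have h1 : Real.exp (-(6 * (c' * J) + 1)) ≤ 1 := Real.exp_le_one_iff.2 (by
    have : 0 ≤ c' * J := by positivity
    linarith)
  have h2 : ρ ^ 2 ≤ 1 := by nlinarith
  have h3 : ρ ^ 2 * Real.exp (-(6 * (c' * J) + 1)) ≤ 1 * 1 :=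
    mul_le_mul h2 h1 (Real.exp_pos _).le zero_le_one
  linarith

theorem TJ_log {ρ : ℝ} (hρ : 0 < ρ) (c' : ℝ) (J : ℕ) :
    Real.log (1 / (TJ_r ρ c' J / 4)) = Real.log (8 / ρ ^ 2) + 6 * (c' * J) + 1 := by
  have h1 : 1 / (TJ_r ρ c' J / 4) = 8 / ρ ^ 2 * Real.exp (6 * (c' * J) + 1) := by
    unfold TJ_r
    rw [Real.exp_neg]
    have := Real.exp_pos (6 * (c' * J) + 1)
    field_simp
    ring
  rw [h1, Real.log_mul (by positivity) (Real.exp_pos _).ne', Real.log_exp]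
  ring

/-- `r^(-m) 4^(-J)` is small -/
theorem TJ_lim1 {ρ c' : ℝ} (hρ : 0 < ρ) (m : ℕ) (hc : 6 * c' * m ≤ 1) :
    ∀ᶠ J : ℕ in atTop, (TJ_r ρ c' J)⁻¹ ^ m * ((1 / 4 : ℝ) ^ J) ≤ 1 := by
  have key : ∀ J : ℕ, (TJ_r ρ c' J)⁻¹ ^ m * ((1 / 4 : ℝ) ^ J) ≤
      (2 * Real.exp 1 / ρ ^ 2) ^ m * (Real.exp 1 / 4) ^ J := by
    intro J
    have h1 : (TJ_r ρ c' J)⁻¹ = (2 * Real.exp 1 / ρ ^ 2) * Real.exp (6 * (c' * J)) := by
      unfold TJ_r
      rw [Real.exp_neg, Real.exp_add]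
      have := Real.exp_pos (6 * (c' * J))
      have := Real.exp_pos 1
      field_simp
    rw [h1, mul_pow, ← Real.exp_nat_mul]
    have h2 : Real.exp ((m : ℝ) * (6 * (c' * J))) ≤ Real.exp 1 ^ J := by
      rw [← Real.exp_nat_mul]
      apply Real.exp_le_exp.2
      have : (J : ℝ) * (6 * c' * m) ≤ J * 1 := mul_le_mul_of_nonneg_left hc (by positivity)
      linarith
    have h3 : (Real.exp 1 / 4) ^ J = Real.exp 1 ^ J * (1 / 4 : ℝ) ^ J := by
      rw [← mul_pow]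
      congr 1
      ring
    rw [h3, mul_assoc]
    have hp : (0 : ℝ) ≤ (2 * Real.exp 1 / ρ ^ 2) ^ m := by positivity
    have hq : (0 : ℝ) ≤ (1 / 4 : ℝ) ^ J := by positivity
    exact mul_le_mul_of_nonneg_left (mul_le_mul_of_nonneg_right h2 hq) hp
  have he : Real.exp 1 < 4 := by
    have := Real.exp_one_lt_d9
    linarith
  have ht : Tendsto (fun J : ℕ => (2 * Real.exp 1 / ρ ^ 2) ^ m * (Real.exp 1 / 4) ^ J) atTop (𝓝 0) := by
    have h := (tendsto_pow_atTop_nhds_zero_of_lt_one (r := Real.exp 1 / 4) (by positivity)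
      (by rw [div_lt_one (by norm_num)]; exact he)).const_mul ((2 * Real.exp 1 / ρ ^ 2) ^ m)
    rwa [mul_zero] at h
  filter_upwards [ht.eventually_le_const (show (0 : ℝ) < 1 by norm_num)] with J hJ
  exact (key J).trans hJ

/-- `2^(16 J) exp (-c r^m 4^J)` is small -/
theorem TJ_lim2 {ρ c' c : ℝ} (hρ : 0 < ρ) (hcc : 0 < c) (m : ℕ) (hc : 6 * c' * m ≤ 1) {β : ℝ} (hβ : 0 < β) :
    ∀ᶠ J : ℕ in atTop, (2 : ℝ) ^ (16 * J) * Real.exp (-(c * TJ_r ρ c' J ^ m) * 4 ^ J) ≤ β := by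
  have he0 := Real.exp_pos 1
  have he : Real.exp 1 < 4 := by
    have := Real.exp_one_lt_d9
    linarith
  obtain ⟨a, ha⟩ : ∃ a : ℝ, a = c * (ρ ^ 2 / (2 * Real.exp 1)) ^ m := ⟨_, rfl⟩
  have ha0 : 0 < a := by rw [ha]; positivity
  have key : ∀ J : ℕ, a * (4 / Real.exp 1) ^ J ≤ c * TJ_r ρ c' J ^ m * 4 ^ J := by
    intro J
    have h1 : TJ_r ρ c' J = (ρ ^ 2 / (2 * Real.exp 1)) * Real.exp (-(6 * (c' * J))) := by
      unfold TJ_r
      rw [neg_add, Real.exp_add, Real.exp_neg 1]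
      field_simp
    rw [h1, mul_pow, ← Real.exp_nat_mul, ha]
    have h2 : (Real.exp 1 ^ J)⁻¹ ≤ Real.exp ((m : ℝ) * (-(6 * (c' * J)))) := by
      rw [← Real.exp_nat_mul, ← Real.exp_neg]
      apply Real.exp_le_exp.2
      have : (J : ℝ) * (6 * c' * m) ≤ J * 1 := mul_le_mul_of_nonneg_left hc (by positivity)
      linarith
    have h3 : (4 / Real.exp 1) ^ J = (Real.exp 1 ^ J)⁻¹ * 4 ^ J := by
      rw [div_pow]
      field_simp
    rw [h3]
    have hp : (0 : ℝ) ≤ c * (ρ ^ 2 / (2 * Real.exp 1)) ^ m := by positivity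
    have hq : (0 : ℝ) ≤ (4 : ℝ) ^ J := by positivity
    calc c * (ρ ^ 2 / (2 * Real.exp 1)) ^ m * ((Real.exp 1 ^ J)⁻¹ * 4 ^ J)
        ≤ c * (ρ ^ 2 / (2 * Real.exp 1)) ^ m * (Real.exp ((m : ℝ) * (-(6 * (c' * J)))) * 4 ^ J) :=
          mul_le_mul_of_nonneg_left (mul_le_mul_of_nonneg_right h2 hq) hp
      _ = _ := by ring
  -- a (4/e)^J - 16 J log 2 tends to infinity
  have hq1 : 1 < 4 / Real.exp 1 := by
    rw [lt_div_iff₀ he0]
    linarith
  have ht : Tendsto (fun J : ℕ => (J : ℝ) / (4 / Real.exp 1) ^ J) atTop (𝓝 0) := by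
    have := tendsto_pow_const_div_const_pow_of_one_lt 1 hq1
    simpa using this
  have hl2 : 0 < Real.log 2 := Real.log_pos (by norm_num)
  have hbig : Tendsto (fun J : ℕ => (4 / Real.exp 1) ^ J) atTop atTop := tendsto_pow_atTop_atTop_of_one_lt hq1
  have h4 : ∀ᶠ J : ℕ in atTop, (J : ℝ) / (4 / Real.exp 1) ^ J ≤ a / (32 * Real.log 2) :=
    ht.eventually_le_const (by positivity)
  have h5 : ∀ᶠ J : ℕ in atTop, -Real.log β ≤ a / 2 * (4 / Real.exp 1) ^ J := by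
    have := hbig.const_mul_atTop (show 0 < a / 2 by positivity)
    exact this.eventually_ge_atTop _
  filter_upwards [h4, h5] with J h4 h5
  have hpos : 0 < (4 / Real.exp 1) ^ J := by positivity
  rw [div_le_iff₀ hpos] at h4
  have h6 : (2 : ℝ) ^ (16 * J) = Real.exp (16 * J * Real.log 2) := by
    rw [← Real.exp_log (show (0 : ℝ) < 2 ^ (16 * J) by positivity), Real.log_pow]
    push_cast
    ring_nf
  rw [h6, ← Real.exp_add]
  have h7 : Real.exp (Real.log β) = β := Real.exp_log hβ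
  rw [← h7]
  apply Real.exp_le_exp.2
  have h8 := key J
  have h9 : 16 * (J : ℝ) * Real.log 2 ≤ a / 2 * (4 / Real.exp 1) ^ J := by
    calc 16 * (J : ℝ) * Real.log 2 ≤ 16 * (a / (32 * Real.log 2) * (4 / Real.exp 1) ^ J) * Real.log 2 := by
          gcongr
      _ = _ := by
          field_simp
          ring
  nlinarith

/-- pigeonhole among the scales -/
theorem TJ_pigeon (f : ℕ → ENNReal) (B : ℝ) (h : ∑' j, f j ≤ ENNReal.ofReal B) (J : ℕ) (hJ : 0 < J) :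
    ∃ j, J ≤ j ∧ j < 2 * J ∧ f j ≤ ENNReal.ofReal (B / J) := by
  by_contra hcon
  push Not at hcon
  have h1 : ∑ j ∈ Finset.Ico J (2 * J), ENNReal.ofReal (B / J) < ∑ j ∈ Finset.Ico J (2 * J), f j := by
    refine ENNReal.sum_lt_sum_of_nonempty ?_ ?_
    · rw [Finset.nonempty_Ico]
      omega
    · intro j hj
      rw [Finset.mem_Ico] at hj
      exact hcon j hj.1 hj.2
  have h2 := (h1.trans_le (ENNReal.sum_le_tsum _)).trans_le h
  rw [Finset.sum_const, Nat.card_Ico, nsmul_eq_mul, show 2 * J - J = J by omega,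
    ← ENNReal.ofReal_natCast, ← ENNReal.ofReal_mul (by positivity)] at h2
  have h3 : (J : ℝ) * (B / J) = B := by
    have : (J : ℝ) ≠ 0 := by positivity
    field_simp
  rw [h3] at h2
  exact lt_irrefl _ h2

theorem TJ_c (m : ℕ) {A η : ℝ} (hA : 0 ≤ A) (hη : 0 < η) :
    ∃ c' : ℝ, 0 < c' ∧ 6 * c' * m ≤ 1 ∧ A * (6 * c') ≤ η / 8 := by
  obtain ⟨c1, h1⟩ : ∃ c1 : ℝ, c1 = 1 / (6 * ((m : ℝ) + 1)) := ⟨_, rfl⟩
  obtain ⟨c2, h2⟩ : ∃ c2 : ℝ, c2 = η / (48 * (A + 1)) := ⟨_, rfl⟩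
  have p1 : 0 < c1 := by rw [h1]; positivity
  have p2 : 0 < c2 := by rw [h2]; positivity
  have q1 : 6 * c1 * m ≤ 1 := by
    rw [h1, show 6 * (1 / (6 * ((m : ℝ) + 1))) * m = m / (m + 1) by field_simp, div_le_one (by positivity)]
    linarith
  have q2 : A * (6 * c2) ≤ η / 8 := by
    rw [h2, show A * (6 * (η / (48 * (A + 1)))) = (A / (A + 1)) * (η / 8) by field_simp; ring]
    have h4 : A / (A + 1) ≤ 1 := by
      rw [div_le_one (by positivity)]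
      linarith
    exact mul_le_of_le_one_left (by positivity) h4
  refine ⟨min c1 c2, lt_min p1 p2, le_trans ?_ q1, le_trans ?_ q2⟩
  · exact mul_le_mul_of_nonneg_right (mul_le_mul_of_nonneg_left (min_le_left _ _) (by norm_num)) (Nat.cast_nonneg m)
  · exact mul_le_mul_of_nonneg_left (mul_le_mul_of_nonneg_left (min_le_right _ _) (by norm_num)) hA

theorem TJ_en {c' η x : ℝ} {j J : ℕ} (hc' : 0 < c') (hη : 0 < η) (hJ : 0 < (J : ℝ)) (hj : (j : ℝ) ≤ 2 * J)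
    (e5 : 2 / (c' * η) ≤ J) (h1 : x ≤ c' * η / 4 * (j * Real.log 2)) : (1 + x) / (c' * J) ≤ η := by
  have hl2 : Real.log 2 < 1 := by
    have := Real.log_two_lt_d9
    linarith
  have h4 : (j : ℝ) * Real.log 2 ≤ 2 * J :=
    (mul_le_mul hj hl2.le (Real.log_pos (by norm_num)).le (by positivity)).trans_eq (mul_one _)
  have h5 : c' * η / 4 * (j * Real.log 2) ≤ c' * η / 4 * (2 * J) := mul_le_mul_of_nonneg_left h4 (by positivity)
  have h6 : 1 ≤ η * (c' * J) / 2 := by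
    rw [div_le_iff₀ (by positivity)] at e5
    linarith
  rw [div_le_iff₀ (by positivity)]
  linarith

theorem TJ_l8 {ρ : ℝ} (hρ : 0 < ρ) (hρ' : ρ ≤ 1 / 2) : 0 ≤ Real.log (8 / ρ ^ 2) := by
  apply Real.log_nonneg
  rw [le_div_iff₀ (by positivity)]
  nlinarith

theorem TJ_exp {a : ℝ} (ha : 0 ≤ a) {j J : ℕ} (hj : J ≤ j) : -a / ((1 / 2 : ℝ) ^ j) ^ 2 ≤ -a * 4 ^ J := by
  have h22 : ((1 / 2 : ℝ) ^ j) ^ 2 = (4 ^ j)⁻¹ := by
    rw [← pow_mul, mul_comm, pow_mul, ← inv_pow]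
    norm_num
  rw [h22, div_inv_eq_mul, neg_mul, neg_mul]
  exact neg_le_neg (mul_le_mul_of_nonneg_left (pow_le_pow_right₀ (by norm_num) hj) ha)

theorem admW {F : Fin 3 → MvPolynomial (Fin 3) ℂ} {d : ℕ} (hF : ∀ j, (F j).IsHomogeneous d) {P : Finset V}
    (hP : SingPts F P) {μ μ' : Measure V} (hμ : IsCur F μ) (hμ' : IsCur F μ') (dμ : DdcClosed F μ)
    (dμ' : DdcClosed F μ') (hz : ZeroLelongAll F μ) (hz' : ZeroLelongAll F μ') (hE : EK F P μ) : AdmW F μ μ' P := by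
  obtain ⟨C1, c, m, hC1, hc, hloss⟩ := loss3 hF hP
  obtain ⟨C2, hC2, hEK⟩ := hE
  obtain ⟨C3, hC3, hdy⟩ := dyadic
  have hlel : ∀ y : V, N y = 1 →
      ∫⁻ y', ENNReal.ofReal (Complex.normSq (bp (nv F y') y) / (tau y y') ^ 2) ∂μ' ≤ 1 :=
    fun y hy => lelong_pt hμ' dμ' hy
  have hcurv : ∫⁻ y, ENNReal.ofReal (IIq F y) ∂μ ≤ ENNReal.ofReal ((d : ℝ) + 1) := by
    refine (curv hF hμ dμ).trans ?_
    rw [ENNReal.ofReal_add (by positivity) zero_le_one, ENNReal.ofReal_natCast, ENNReal.ofReal_one]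
  have hm : ∀ (y : V) (s : ℝ), N y = 1 → 0 < s → (μ {x | tau x y < s ^ 2}).toReal ≤ 4 * s ^ 2 :=
    fun y s hy hs => mass_bound hμ dμ hy hs
  have hm' : ∀ (y : V) (s : ℝ), N y = 1 → 0 < s → (μ' {x | tau x y < s ^ 2}).toReal ≤ 4 * s ^ 2 :=
    fun y s hy hs => mass_bound hμ' dμ' hy hs
  have hq := q2_tendsto hμ hμ' hm' hz' hcurv
  intro ρ r η ε0 hρ hρ' hr hη hε0
  obtain ⟨c', hc'0, hc'1, hc'2⟩ := TJ_c m (A := C1 * C3 * C2) (by positivity) hη
  obtain ⟨ε1, hε1, hEn⟩ := en_small2 (P := P) hμ hμ' hm hm' hz hz' (r := r) (η := c' * η / 4) (by positivity)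
  obtain ⟨ε2, hε2, hQ⟩ : ∃ ε2 : ℝ, 0 < ε2 ∧ ∀ ε, 0 < ε → ε < ε2 → Q2 F μ μ' ε ≤ ENNReal.ofReal (η / (8 * C1)) := by
    have h1 : ∀ᶠ ε in 𝓝[>] (0 : ℝ), Q2 F μ μ' ε ≤ ENNReal.ofReal (η / (8 * C1)) := by
      apply hq.eventually_le_const
      rw [ENNReal.ofReal_pos]
      positivity
    obtain ⟨u, hu, hu2⟩ := (mem_nhdsGT_iff_exists_Ioo_subset).1 h1
    exact ⟨u, hu, fun ε h2 h3 => hu2 ⟨h2, h3⟩⟩
  -- choice of J
  have hJt : Tendsto (fun J : ℕ => (J : ℝ)) atTop atTop := tendsto_natCast_atTop_atTop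
  have e1 : ∀ᶠ J : ℕ in atTop, 1 / c' ≤ J := hJt.eventually_ge_atTop _
  have e2 : ∀ᶠ J : ℕ in atTop, 8 * (C1 * C3 * C2 * (2 + |Real.log (8 / ρ ^ 2)|)) / η ≤ J := hJt.eventually_ge_atTop _
  have e3 := TJ_lim1 (c' := c') hρ m hc'1
  have e4 := TJ_lim2 (c' := c') hρ hc m hc'1 (β := η / (4 * C1)) (by positivity)
  have e5 : ∀ᶠ J : ℕ in atTop, 2 / (c' * η) ≤ J := hJt.eventually_ge_atTop _
  have e6 : ∀ᶠ J : ℕ in atTop, ((1 / 2 : ℝ)) ^ J < min ε0 (min ε1 ε2) := by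
    have := tendsto_pow_atTop_nhds_zero_of_lt_one (r := (1 / 2 : ℝ)) (by norm_num) (by norm_num)
    exact this.eventually_lt_const (lt_min hε0 (lt_min hε1 hε2))
  obtain ⟨J, ⟨⟨⟨⟨⟨⟨e1, e2⟩, e3⟩, e4⟩, e5⟩, e6⟩, e7⟩⟩ := ((((((e1.and e2).and e3).and e4).and e5).and e6).and
    (eventually_ge_atTop 1)).exists
  have hJ0 : 0 < J := e7
  have hJr : (0 : ℝ) < J := by exact_mod_cast hJ0
  have hr0 := TJ_r_pos hρ c' J
  have hr1 := TJ_r_le hρ hρ' hc'0.le J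
  -- pigeonhole
  obtain ⟨B, hBdef⟩ : ∃ B : ℝ, B = C3 * (C2 * (1 + (Real.log (8 / ρ ^ 2) + 6 * (c' * J) + 1))) := ⟨_, rfl⟩
  have hlog : 0 ≤ Real.log (8 / ρ ^ 2) := TJ_l8 hρ hρ'
  have hB0 : 0 ≤ B := by
    rw [hBdef]
    positivity
  have hsum : ∑' j : ℕ, L1 F μ μ' P (TJ_r ρ c' J / 4) ((1 / 2) ^ j) ≤ ENNReal.ofReal B := by
    refine (hdy F μ μ' P _ hμ hμ' hlel).trans ?_
    rw [hBdef, ENNReal.ofReal_mul hC3.le]
    gcongr
    have h := hEK (TJ_r ρ c' J / 4) (by positivity) (by linarith)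
    rwa [TJ_log hρ c' J] at h
  obtain ⟨j, hj1, hj2, hj3⟩ := TJ_pigeon _ B hsum J hJ0
  have hεpos : (0 : ℝ) < (1 / 2) ^ j := by positivity
  have hεJ : ((1 : ℝ) / 2) ^ j ≤ (1 / 2) ^ J := pow_le_pow_of_le_one (by norm_num) (by norm_num) hj1
  have hε1' : ((1 : ℝ) / 2) ^ j < ε1 := lt_of_le_of_lt hεJ (e6.trans_le ((min_le_right _ _).trans (min_le_left _ _)))
  have hε2' : ((1 : ℝ) / 2) ^ j < ε2 := lt_of_le_of_lt hεJ (e6.trans_le ((min_le_right _ _).trans (min_le_right _ _)))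
  have hs1 : 1 ≤ c' * J := by
    rw [div_le_iff₀ hc'0] at e1
    linarith
  refine ⟨(1 / 2) ^ j, hεpos, lt_of_le_of_lt hεJ (e6.trans_le (min_le_left _ _)), c' * J, hs1, ?_, ?_⟩
  · -- the energy
    have h1 := hEn _ hεpos hε1'
    have h2 : Real.log (1 / (1 / 2) ^ j) = j * Real.log 2 := by
      rw [one_div, ← inv_pow, Real.log_pow]
      norm_num
    rw [h2] at h1
    exact TJ_en hc'0 hη hJr (by exact_mod_cast hj2.le) e5 h1
  · -- the loss
    have hεle : ((1 : ℝ) / 2) ^ j ≤ 1 := pow_le_one₀ (by norm_num) (by norm_num)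
    have h0 := hloss μ μ' hμ hμ' ((1 / 2) ^ j) (TJ_r ρ c' J) hεpos hεle hr0 hr1.le
    have hr00 : ρ ^ 2 * Real.exp (-(6 * (c' * J) + 1)) / 2 = TJ_r ρ c' J := rfl
    rw [hr00]
    -- first term
    have t1 : ENNReal.ofReal C1 * L1 F μ μ' P (TJ_r ρ c' J / 4) ((1 / 2) ^ j) ≤ ENNReal.ofReal (η / 4) := by
      calc ENNReal.ofReal C1 * L1 F μ μ' P (TJ_r ρ c' J / 4) ((1 / 2) ^ j)
          ≤ ENNReal.ofReal C1 * ENNReal.ofReal (B / J) := by gcongr
        _ = ENNReal.ofReal (C1 * (B / J)) := (ENNReal.ofReal_mul hC1.le).symm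
        _ ≤ ENNReal.ofReal (η / 4) := by
          apply ENNReal.ofReal_le_ofReal
          have h1 : C1 * (B / J) = C1 * C3 * C2 * (2 + Real.log (8 / ρ ^ 2)) / J + C1 * C3 * C2 * (6 * c') := by
            rw [hBdef]
            field_simp
            ring
          rw [h1]
          have h2 : C1 * C3 * C2 * (2 + Real.log (8 / ρ ^ 2)) / J ≤ η / 8 := by
            rw [abs_of_nonneg hlog, div_le_iff₀ hη] at e2
            rw [div_le_iff₀ hJr]
            linarith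
          linarith
    have t2 : ENNReal.ofReal C1 * (ENNReal.ofReal (1 + (TJ_r ρ c' J)⁻¹ ^ m * ((1 / 2) ^ j) ^ 2) *
        Q2 F μ μ' ((1 / 2) ^ j)) ≤ ENNReal.ofReal (η / 4) := by
      have h1 : 1 + (TJ_r ρ c' J)⁻¹ ^ m * (((1 : ℝ) / 2) ^ j) ^ 2 ≤ 2 := by
        have h2 : (((1 : ℝ) / 2) ^ j) ^ 2 ≤ (1 / 4) ^ J := by
          calc (((1 : ℝ) / 2) ^ j) ^ 2 ≤ ((1 / 2) ^ J) ^ 2 := by gcongr
            _ = (1 / 4) ^ J := by
              rw [← pow_mul, mul_comm, pow_mul]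
              norm_num
        have h3 : (TJ_r ρ c' J)⁻¹ ^ m * (((1 : ℝ) / 2) ^ j) ^ 2 ≤ (TJ_r ρ c' J)⁻¹ ^ m * (1 / 4) ^ J := by
          gcongr
        linarith
      calc ENNReal.ofReal C1 * (ENNReal.ofReal (1 + (TJ_r ρ c' J)⁻¹ ^ m * ((1 / 2) ^ j) ^ 2) *
          Q2 F μ μ' ((1 / 2) ^ j))
          ≤ ENNReal.ofReal C1 * (ENNReal.ofReal 2 * ENNReal.ofReal (η / (8 * C1))) := by
            gcongr
            exact hQ _ hεpos hε2'
        _ = ENNReal.ofReal (C1 * (2 * (η / (8 * C1)))) := by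
            rw [ENNReal.ofReal_mul hC1.le, ENNReal.ofReal_mul (by norm_num)]
        _ = ENNReal.ofReal (η / 4) := by
            congr 1
            field_simp
            norm_num
    have t3 : ENNReal.ofReal C1 * ENNReal.ofReal (((1 / 2 : ℝ) ^ j)⁻¹ ^ 8 *
        Real.exp (-(c * (TJ_r ρ c' J) ^ m) / ((1 / 2) ^ j) ^ 2)) ≤ ENNReal.ofReal (η / 4) := by
      rw [← ENNReal.ofReal_mul hC1.le]
      apply ENNReal.ofReal_le_ofReal
      have h1 : ((1 / 2 : ℝ) ^ j)⁻¹ ^ 8 ≤ 2 ^ (16 * J) := by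
        have h11 : ((1 / 2 : ℝ) ^ j)⁻¹ = 2 ^ j := by
          rw [one_div, inv_pow, inv_inv]
        rw [h11, ← pow_mul]
        exact pow_le_pow_right₀ (by norm_num) (by omega)
      have h2 : -(c * (TJ_r ρ c' J) ^ m) / ((1 / 2) ^ j) ^ 2 ≤ -(c * TJ_r ρ c' J ^ m) * 4 ^ J :=
        TJ_exp (by positivity) hj1
      calc C1 * (((1 / 2 : ℝ) ^ j)⁻¹ ^ 8 * Real.exp (-(c * (TJ_r ρ c' J) ^ m) / ((1 / 2) ^ j) ^ 2))
          ≤ C1 * (2 ^ (16 * J) * Real.exp (-(c * TJ_r ρ c' J ^ m) * 4 ^ J)) := by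
            gcongr
        _ ≤ C1 * (η / (4 * C1)) := by gcongr
        _ = η / 4 := by field_simp
    have hfin : ENNReal.ofReal (Loss F μ μ' P (TJ_r ρ c' J) ((1 / 2) ^ j)) ≤ ENNReal.ofReal η := by
      refine h0.trans ?_
      rw [mul_add, mul_add]
      refine (add_le_add (add_le_add t1 t2) t3).trans ?_
      rw [← ENNReal.ofReal_add (by positivity) (by positivity), ← ENNReal.ofReal_add (by positivity) (by positivity)]
      apply ENNReal.ofReal_le_ofReal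
      linarith
    exact (ENNReal.ofReal_le_ofReal_iff hη.le).1 hfin

end FT76

end S_H76_FT_TJ

section S_H76_FT_TK

/-!
# Row TK: from helper85's hypothesis `EnergyE` to `EK`, and the main theorem without energy hypothesis

1. `dEta_eq_fderiv`: `fderiv ℂ (eta F) y v = dEta F y v` (components: `eta_poly` or `dP_hasDeriv`: the map `x ↦ eta F x` is complex differentiable, being polynomial; the derivative along the line `t ↦ y + t v` at t = 0 is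
   `dEta F y v`).
2. `K2_eq`: `K2 F y = Kq F y` when `eta F y ≠ 0`: `tv F y = (√(N eta))⁻¹ • conj(eta)` (the factor is real), `dEta` is linear (`dEta_smul`), `cr` bilinear, `N (c • a) = normSq c * N a`, `normSq ((√e)⁻¹) = 1/e`:
   `Kq = N (cr (dEta (conj eta)) eta)/(e * e^2)`.
3. `ek_of_energyE`: by `nullst_Kr` there are c > 0, m with `c r^m ≤ N (eta F y)` for y in Kr P r, 0 < r < 1; wlog c < 1 and m ≥ 1, so r' := c r^m is in (0,1) and
   `∫⁻_{Kr P r} Kq ≤ ∫⁻_{r' ≤ N eta} K2 ≤ ofReal (C (1 + log (1/r')))`, `log (1/r') = log (1/c) + m log (1/r)`; C may be replaced by |C|.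
4. `mainE`: P from `exists_singPts`; `admW` with μ = μT, μ' = μS gives `AdmW F μT μS P`; `admW_symm`, `closed_of_admW`.
-/

open MeasureTheory Filter Topology
open scoped ContDiff BigOperators ComplexConjugate Matrix

namespace FT76

open Pool.Agent.H85.DC

theorem TK_diff (p : MvPolynomial (Fin 3) ℂ) :
    Differentiable ℂ (fun y : V => MvPolynomial.eval y p) := by
  induction p using MvPolynomial.induction_on with
  | C a =>
    simp only [MvPolynomial.eval_C]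
    exact differentiable_const a
  | add p q hp hq =>
    simp only [map_add]
    exact hp.add hq
  | mul_X p i hp =>
    simp only [map_mul, MvPolynomial.eval_X]
    exact hp.mul (differentiable_apply i)

theorem TK_eta_diff (F : Fin 3 → MvPolynomial (Fin 3) ℂ) : Differentiable ℂ (eta F) := by
  have hZ : ∀ j, Differentiable ℂ (fun y : V => Zf F y j) := fun j => TK_diff (F j)
  have hy : ∀ j : Fin 3, Differentiable ℂ (fun y : V => y j) := fun j => differentiable_apply j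
  refine differentiable_pi.mpr fun j => ?_
  fin_cases j
  · exact ((hy 1).mul (hZ 2)).sub ((hy 2).mul (hZ 1))
  · exact ((hy 2).mul (hZ 0)).sub ((hy 0).mul (hZ 2))
  · exact ((hy 0).mul (hZ 1)).sub ((hy 1).mul (hZ 0))

theorem TK_deriv (F : Fin 3 → MvPolynomial (Fin 3) ℂ) (y v : V) :
    HasDerivAt (fun t : ℂ => eta F (y + t • v)) (dEta F y v) 0 := by
  have hZ : ∀ j, HasDerivAt (fun t : ℂ => Zf F (y + t • v) j) (dZ F y v j) 0 := by
    intro j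
    have h := dP_hasDeriv (F j) y v 0
    rw [zero_smul, add_zero] at h
    exact h
  have hy : ∀ j : Fin 3, HasDerivAt (fun t : ℂ => (y + t • v) j) (v j) 0 := by
    intro j
    have h1 : HasDerivAt (fun t : ℂ => y j + t * v j) (0 + 1 * v j) 0 :=
      (hasDerivAt_const (0 : ℂ) (y j)).add ((hasDerivAt_id (0 : ℂ)).mul_const (v j))
    rw [zero_add, one_mul] at h1
    exact h1
  have e0 : y + (0 : ℂ) • v = y := by rw [zero_smul, add_zero]
  have hm : ∀ i k : Fin 3, HasDerivAt (fun t : ℂ => (y + t • v) i * Zf F (y + t • v) k)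
      (v i * Zf F y k + y i * dZ F y v k) 0 := by
    intro i k
    have h := (hy i).mul (hZ k)
    simp only [e0] at h
    exact h
  refine hasDerivAt_pi.mpr fun j => ?_
  fin_cases j
  · have h := (hm 1 2).sub (hm 2 1)
    have e : dEta F y v 0 = v 1 * Zf F y 2 + y 1 * dZ F y v 2 -
        (v 2 * Zf F y 1 + y 2 * dZ F y v 1) := by
      show (v 1 * Zf F y 2 - v 2 * Zf F y 1) + (y 1 * dZ F y v 2 - y 2 * dZ F y v 1) = _
      ring
    show HasDerivAt _ (dEta F y v 0) 0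
    rw [e]
    exact h
  · have h := (hm 2 0).sub (hm 0 2)
    have e : dEta F y v 1 = v 2 * Zf F y 0 + y 2 * dZ F y v 0 -
        (v 0 * Zf F y 2 + y 0 * dZ F y v 2) := by
      show (v 2 * Zf F y 0 - v 0 * Zf F y 2) + (y 2 * dZ F y v 0 - y 0 * dZ F y v 2) = _
      ring
    show HasDerivAt _ (dEta F y v 1) 0
    rw [e]
    exact h
  · have h := (hm 0 1).sub (hm 1 0)
    have e : dEta F y v 2 = v 0 * Zf F y 1 + y 0 * dZ F y v 1 -
        (v 1 * Zf F y 0 + y 1 * dZ F y v 0) := by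
      show (v 0 * Zf F y 1 - v 1 * Zf F y 0) + (y 0 * dZ F y v 1 - y 1 * dZ F y v 0) = _
      ring
    show HasDerivAt _ (dEta F y v 2) 0
    rw [e]
    exact h

theorem dEta_eq_fderiv (F : Fin 3 → MvPolynomial (Fin 3) ℂ) (y v : V) : fderiv ℂ (eta F) y v = dEta F y v := by
  have h1 : HasDerivAt (fun t : ℂ => y + t • v) v 0 := by
    have h := (hasDerivAt_const (0 : ℂ) y).add ((hasDerivAt_id (0 : ℂ)).smul_const v)
    rw [zero_add, one_smul] at h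
    exact h
  have h2 : HasFDerivAt (eta F) (fderiv ℂ (eta F) y) (y + (0 : ℂ) • v) := by
    rw [zero_smul, add_zero]
    exact (TK_eta_diff F y).hasFDerivAt
  have h3 : HasDerivAt (eta F ∘ fun t : ℂ => y + t • v) (fderiv ℂ (eta F) y v) 0 :=
    HasFDerivAt.comp_hasDerivAt (0 : ℂ) h2 h1
  exact h3.unique (TK_deriv F y v)

theorem K2_eq (F : Fin 3 → MvPolynomial (Fin 3) ℂ) {y : V} (h : eta F y ≠ 0) : K2 F y = Kq F y := by
  have hN : 0 < N (eta F y) := N_pos h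
  set c : ℂ := ((Real.sqrt (N (eta F y)))⁻¹ : ℂ) with hc
  have htv : tv F y = c • (fun j => conj (eta F y j)) := by
    funext j
    show conj (nv F y j) = c * conj (eta F y j)
    show conj (c * eta F y j) = c * conj (eta F y j)
    rw [map_mul, hc, map_inv₀, Complex.conj_ofReal]
  have hnc : Complex.normSq c = (N (eta F y))⁻¹ := by
    rw [hc, map_inv₀, Complex.normSq_ofReal, Real.mul_self_sqrt hN.le]
  unfold K2 Kq
  rw [dEta_eq_fderiv, htv, dEta_smul, cr_smul_left, N_smul, hnc]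
  field_simp

theorem ek_of_energyE {F : Fin 3 → MvPolynomial (Fin 3) ℂ} {P : Finset V} (hP : SingPts F P) {μ : Measure V}
    (hμ : IsCur F μ) (h : EnergyE F μ) : EK F P μ := by
  obtain ⟨C0, hC0⟩ := h
  obtain ⟨c, m, hc, hK⟩ := nullst_Kr hP
  set c' : ℝ := min c (1 / 2) with hc'
  have hc'0 : 0 < c' := lt_min hc (by norm_num)
  have hc'h : c' ≤ 1 / 2 := min_le_right _ _
  have hc'c : c' ≤ c := min_le_left _ _
  have hlc : 0 ≤ Real.log (1 / c') := by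
    apply Real.log_nonneg
    rw [le_div_iff₀ hc'0]
    linarith
  refine ⟨|C0| * (1 + Real.log (1 / c') + (m + 1 : ℕ)), by positivity, fun r hr hr1 => ?_⟩
  set r' : ℝ := c' * r ^ (m + 1) with hr'
  have hrm : 0 < r ^ (m + 1) := pow_pos hr _
  have hrm1 : r ^ (m + 1) ≤ 1 := pow_le_one₀ hr.le hr1.le
  have hr'0 : 0 < r' := mul_pos hc'0 hrm
  have hr'1 : r' < 1 := by
    have : r' ≤ 1 / 2 * 1 := mul_le_mul hc'h hrm1 hrm.le (by norm_num)
    linarith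
  have hsub : Kr P r ⊆ {y | r' ≤ N (eta F y)} := by
    intro y hy
    have h1 := hK r hr hr1.le y hy
    have h2 : r ^ (m + 1) ≤ r ^ m := pow_le_pow_of_le_one hr.le hr1.le (Nat.le_succ m)
    have h3 : r' ≤ c * r ^ m := mul_le_mul hc'c h2 hrm.le hc.le
    exact h3.trans h1
  have hmeas : MeasurableSet {y : V | r' ≤ N (eta F y)} := by
    have h1 : Continuous (fun y : V => N (eta F y)) :=
      continuous_N.comp (TK_eta_diff F).continuous
    exact measurableSet_le measurable_const h1.measurable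
  have e1 : ∫⁻ y in {y : V | r' ≤ N (eta F y)}, ENNReal.ofReal (Kq F y) ∂μ =
      ∫⁻ y in {y : V | r' ≤ N (eta F y)}, ENNReal.ofReal (K2 F y) ∂μ := by
    refine setLIntegral_congr_fun hmeas fun y hy => ?_
    have hne : eta F y ≠ 0 := by
      intro h0
      have h1 : r' ≤ N (eta F y) := hy
      rw [h0] at h1
      have h2 : N (0 : V) = 0 := by simp [N]
      rw [h2] at h1
      linarith
    show ENNReal.ofReal (Kq F y) = ENNReal.ofReal (K2 F y)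
    rw [K2_eq F hne]
  calc ∫⁻ y in Kr P r, ENNReal.ofReal (Kq F y) ∂μ
      ≤ ∫⁻ y in {y : V | r' ≤ N (eta F y)}, ENNReal.ofReal (Kq F y) ∂μ :=
        lintegral_mono_set hsub
    _ = ∫⁻ y in {y : V | r' ≤ N (eta F y)}, ENNReal.ofReal (K2 F y) ∂μ := e1
    _ ≤ ENNReal.ofReal (C0 * (1 + Real.log (1 / r'))) := hC0 r' hr'0 hr'1
    _ ≤ ENNReal.ofReal (|C0| * (1 + Real.log (1 / c') + (m + 1 : ℕ)) *
          (1 + Real.log (1 / r))) := by
      apply ENNReal.ofReal_le_ofReal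
      have hl : Real.log (1 / r') = Real.log (1 / c') + (m + 1 : ℕ) * Real.log (1 / r) := by
        rw [hr', one_div, one_div, one_div, Real.log_inv, Real.log_inv, Real.log_inv,
          Real.log_mul hc'0.ne' hrm.ne', Real.log_pow]
        ring
      have hlr : 0 ≤ Real.log (1 / r) := by
        apply Real.log_nonneg
        rw [le_div_iff₀ hr]
        linarith
      rw [hl]
      set a := Real.log (1 / c')
      set ℓ := Real.log (1 / r)
      have hm0 : (0 : ℝ) ≤ ((m + 1 : ℕ) : ℝ) := Nat.cast_nonneg _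
      set M : ℝ := ((m + 1 : ℕ) : ℝ)
      have h1 : C0 * (1 + (a + M * ℓ)) ≤ |C0| * (1 + (a + M * ℓ)) :=
        mul_le_mul_of_nonneg_right (le_abs_self _) (by positivity)
      have h2 : |C0| * (1 + (a + M * ℓ)) ≤ |C0| * ((1 + a + M) * (1 + ℓ)) := by
        apply mul_le_mul_of_nonneg_left _ (abs_nonneg _)
        nlinarith [mul_nonneg hlc hlr]
      linarith

end FT76

namespace Pool.Agent.H85.DC

/-- Theorem A without energy hypothesis. -/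
theorem mainE {F : Fin 3 → MvPolynomial (Fin 3) ℂ} {d : ℕ} (hF : ∀ j, (F j).IsHomogeneous d)
    (hsing : ∃ P : Finset V, ∀ y : V, eta F y = 0 → ∃ p ∈ P, ∃ c : ℂ, y = c • p)
    {μS μT : Measure V} (hS : IsCur F μS) (hT : IsCur F μT) (dS : DdcClosed F μS)
    (dT : DdcClosed F μT) (zS : ZeroLelongAll F μS) (zT : ZeroLelongAll F μT) (hE : EnergyE F μT) :
    (∀ ζ : V → V, IsCov ζ → ∫ y, pr F (db ζ) y ∂μS = ∫ y, pr F (db ζ) y ∂μT) ∧
      (CurClosed F μT → CurClosed F μS) := by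
  obtain ⟨P, hP⟩ := exists_singPts hF hsing
  have hadm := FT76.admW hF hP hT hS dT dS zT zS (FT76.ek_of_energyE hP hT hE)
  exact closed_of_admW hP hS hT dS dT (admW_symm hadm)

end Pool.Agent.H85.DC

end S_H76_FT_TK
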